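import Pool.Agent.MP_c0606f_ag.Mg.Klt_Psh

-- part MP_c0606f_ag.Klt.Liou
section

/-! Weakly holomorphic functions on `ι → ℂ`: mean value inequality, Liouville's theorem. -/

namespace Pool.Agent.MP_c0606f_ag.Klt

open MeasureTheory Complex Filter Topology MvPolynomial
open scoped ENNReal ContDiff ComplexConjugate

variable {ι : Type} [Fintype ι]

theorem liou_norm_rot (c q : ι → ℂ) (ζ : ℂ) : dist (c + ζ • (q - c)) c = ‖ζ‖ * dist q c := by
  rw [dist_eq_norm, dist_eq_norm, add_sub_cancel_left, norm_smul]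

theorem liou_mp (c : ι → ℂ) (θ : ℝ) :
    MeasurePreserving fun q : ι → ℂ => c + circleMap 0 1 θ • (q - c) := by
  have h : ∀ i, MeasurePreserving fun z : ℂ => c i + circleMap 0 1 θ * (z - c i) := by
    intro i
    have h1 := (measurePreserving_add_left volume (c i)).comp
      ((rotation (Circle.exp θ)).measurePreserving.comp (measurePreserving_sub_right volume (c i)))
    have e : circleMap 0 1 θ = (Circle.exp θ : ℂ) := by simp [circleMap]
    rw [e]
    exact h1
  exact volume_preserving_pi h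

theorem liou_mean {f : (ι → ℂ) → ℂ} {c : ι → ℂ} {r : ℝ}
    (hf : DifferentiableOn ℂ f (Metric.ball c r)) {q : ι → ℂ} (hq : q ∈ Metric.ball c r) :
    ENNReal.ofReal (2 * Real.pi) * ENNReal.ofReal (‖f c‖ ^ 2) ≤
      ∫⁻ θ in Set.Ioc (0 : ℝ) (2 * Real.pi),
        ENNReal.ofReal (‖f (c + circleMap 0 1 θ • (q - c))‖ ^ 2) := by
  have hp : 0 < 2 * Real.pi := by positivity
  have h1 : DifferentiableOn ℂ (fun ζ : ℂ => f (c + ζ • (q - c)) ^ 2)
      (closure (Metric.ball (0 : ℂ) |1|)) := by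
    refine (hf.comp (f := fun ζ : ℂ => c + ζ • (q - c)) (by fun_prop) fun ζ hζ => ?_).pow 2
    have h2 := Metric.closure_ball_subset_closedBall hζ
    rw [mem_closedBall_zero_iff, abs_one] at h2
    rw [Metric.mem_ball, liou_norm_rot]
    exact (mul_le_of_le_one_left dist_nonneg h2).trans_lt hq
  have h3 := h1.diffContOnCl.circleAverage
  rw [Real.circleAverage_def, intervalIntegral.integral_of_le hp.le, zero_smul, add_zero,
    inv_smul_eq_iff₀ hp.ne'] at h3
  have h4 := enorm_integral_le_lintegral_enorm (μ := volume.restrict (Set.Ioc (0 : ℝ) (2 * Real.pi)))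
    fun θ => f (c + circleMap 0 1 θ • (q - c)) ^ 2
  rw [h3, ← ofReal_norm, norm_smul, Real.norm_eq_abs, abs_of_pos hp, norm_pow,
    ENNReal.ofReal_mul hp.le] at h4
  simpa only [← ofReal_norm, norm_pow] using h4

/-- Mean value inequality on polydiscs: the map `q ↦ c + ζ • (q - c)`, `|ζ| = 1`, preserves the
ball and the measure; average over the circle and use the mean value property of `f ^ 2`. -/
theorem submean {f : (ι → ℂ) → ℂ} {c : ι → ℂ} {r : ℝ}
    (hf : DifferentiableOn ℂ f (Metric.ball c r)) :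
    ENNReal.ofReal (‖f c‖ ^ 2) * volume (Metric.ball c r) ≤
      ∫⁻ q in Metric.ball c r, ENNReal.ofReal (‖f q‖ ^ 2) := by
  have hp : 0 < 2 * Real.pi := by positivity
  have hb : MeasurableSet (Metric.ball c r) := measurableSet_ball
  have hF : ContinuousOn (fun q => ENNReal.ofReal (‖f q‖ ^ 2)) (Metric.ball c r) :=
    ENNReal.continuous_ofReal.comp_continuousOn (hf.continuousOn.norm.pow 2)
  have hm : ∀ (θ : ℝ) (q : ι → ℂ),
      c + circleMap 0 1 θ • (q - c) ∈ Metric.ball c r ↔ q ∈ Metric.ball c r := by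
    intro θ q
    rw [Metric.mem_ball, liou_norm_rot, norm_circleMap_zero, abs_one, one_mul, Metric.mem_ball]
  have h1 : ∀ θ : ℝ, ∫⁻ q in Metric.ball c r,
      ENNReal.ofReal (‖f (c + circleMap 0 1 θ • (q - c))‖ ^ 2) =
      ∫⁻ q in Metric.ball c r, ENNReal.ofReal (‖f q‖ ^ 2) := by
    intro θ
    have h2 := (liou_mp c θ).restrict_preimage hb
    have h3 : (fun q : ι → ℂ => c + circleMap 0 1 θ • (q - c)) ⁻¹' Metric.ball c r =
        Metric.ball c r := Set.ext (hm θ)
    rw [h3] at h2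
    have h4 := lintegral_map' (μ := volume.restrict (Metric.ball c r))
      (f := fun q => ENNReal.ofReal (‖f q‖ ^ 2)) (by rw [h2.map_eq]; exact hF.aemeasurable hb)
      h2.aemeasurable
    rw [← h4, h2.map_eq]
  have h5 : AEMeasurable (Function.uncurry fun (q : ι → ℂ) (θ : ℝ) =>
      ENNReal.ofReal (‖f (c + circleMap 0 1 θ • (q - c))‖ ^ 2))
      ((volume.restrict (Metric.ball c r)).prod
        (volume.restrict (Set.Ioc (0 : ℝ) (2 * Real.pi)))) := by
    rw [Measure.prod_restrict]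
    have h6 : Continuous fun p : (ι → ℂ) × ℝ => c + circleMap 0 1 p.2 • (p.1 - c) := by
      have := continuous_circleMap 0 1
      fun_prop
    have h7 := hF.comp (s := Metric.ball c r ×ˢ Set.Ioc (0 : ℝ) (2 * Real.pi)) h6.continuousOn
      fun p hp => (hm _ _).2 hp.1
    exact h7.aemeasurable (hb.prod measurableSet_Ioc)
  have h8 := lintegral_lintegral_swap h5
  simp only [h1] at h8
  rw [setLIntegral_const, Real.volume_Ioc, sub_zero] at h8
  have h9 := setLIntegral_mono' (μ := volume) hb fun q hq => liou_mean hf hq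
  rw [h8, setLIntegral_const, mul_assoc, mul_comm] at h9
  exact (ENNReal.mul_le_mul_iff_left (ENNReal.ofReal_pos.2 hp).ne' ENNReal.ofReal_ne_top).1 h9

/-- the volume of a polydisc -/
theorem volume_ball_eq (c : ι → ℂ) {r : ℝ} (hr : 0 < r) :
    volume (Metric.ball c r) = ENNReal.ofReal ((Real.pi * r ^ 2) ^ Fintype.card ι) := by
  simp only [MeasureTheory.volume_pi_ball c hr, Complex.volume_ball, Finset.prod_const]
  rw [ENNReal.ofReal_pow (by positivity), ENNReal.ofReal_mul Real.pi_pos.le,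
    ENNReal.ofReal_pow hr.le, mul_comm, ← NNReal.coe_real_pi, ENNReal.ofReal_coe_nnreal,
    Finset.card_univ]

/-- one variable: an entire function of polynomial growth is a polynomial -/
theorem liou_one {g : ℂ → ℂ} (hg : Differentiable ℂ g) (k : ℕ) (B : ℝ)
    (hB : ∀ z, ‖g z‖ ^ 2 * ((1 + ‖z‖ ^ 2)⁻¹) ^ k ≤ B) :
    ∃ p : Polynomial ℂ, p.natDegree ≤ k ∧ ∀ z, g z = p.eval z := by
  have h0 : ∀ n, k < n → iteratedDeriv n g 0 = 0 := by
    intro n hn
    have h1 : ∀ R : ℝ, 1 ≤ R → ‖iteratedDeriv n g 0‖ ≤ n.factorial * (√B * 2 ^ k) * R⁻¹ := by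
      intro R hR
      have hR0 : 0 < R := by linarith
      have h2 := norm_iteratedDeriv_le_of_forall_mem_sphere_norm_le (c := 0) (C := √B * (2 * R) ^ k)
        n hR0 hg.diffContOnCl fun z hz => by
          have h3 := hB z
          rw [mem_sphere_zero_iff_norm] at hz
          rw [hz, inv_pow, ← div_eq_mul_inv, div_le_iff₀ (by positivity)] at h3
          have hB0 : 0 ≤ B := by
            have := hB 0
            exact le_trans (by positivity) this
          have h4 : (1 + R ^ 2) ^ k ≤ ((2 * R) ^ 2) ^ k :=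
            pow_le_pow_left₀ (by positivity) (by nlinarith) k
          refine (pow_le_pow_iff_left₀ (norm_nonneg _) (by positivity) two_ne_zero).1 ?_
          rw [mul_pow, Real.sq_sqrt hB0, ← pow_mul, mul_comm k 2, pow_mul]
          exact h3.trans (mul_le_mul_of_nonneg_left h4 hB0)
      refine h2.trans ?_
      have h5 : R ^ k * R ≤ R ^ n := by
        rw [← pow_succ]; exact pow_le_pow_right₀ hR hn
      rw [div_le_iff₀ (by positivity), mul_pow]
      have h6 : R ^ k ≤ R⁻¹ * R ^ n := by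
        rw [← div_eq_inv_mul, le_div_iff₀ hR0]; exact h5
      calc (n.factorial : ℝ) * (√B * (2 ^ k * R ^ k)) = n.factorial * (√B * 2 ^ k) * R ^ k := by ring
        _ ≤ n.factorial * (√B * 2 ^ k) * (R⁻¹ * R ^ n) :=
          mul_le_mul_of_nonneg_left h6 (by positivity)
        _ = _ := by ring
    have h7 : Tendsto (fun R : ℝ => n.factorial * (√B * 2 ^ k) * R⁻¹) atTop
        (𝓝 (n.factorial * (√B * 2 ^ k) * 0)) := tendsto_inv_atTop_zero.const_mul _
    rw [mul_zero] at h7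
    exact norm_le_zero_iff.1 (ge_of_tendsto h7 ((eventually_ge_atTop 1).mono h1))
  refine ⟨∑ n ∈ Finset.range (k + 1),
    Polynomial.monomial n ((n.factorial : ℂ)⁻¹ * iteratedDeriv n g 0), ?_, fun z => ?_⟩
  · refine Polynomial.natDegree_sum_le_of_forall_le _ _ fun n hn => ?_
    exact (Polynomial.natDegree_monomial_le _).trans (Nat.lt_succ_iff.1 (Finset.mem_range.1 hn))
  · rw [← taylorSeries_eq_of_entire' 0 z hg, tsum_eq_sum (s := Finset.range (k + 1))]
    · simp only [Polynomial.eval_finsetSum, Polynomial.eval_monomial, sub_zero]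
    · intro n hn
      rw [h0 n (by simpa using hn), mul_zero, zero_mul]

/-- Lagrange interpolation at `0, ..., k` -/
theorem liou_lagrange {g : ℂ → ℂ} (hg : Differentiable ℂ g) (k : ℕ) (B : ℝ)
    (hB : ∀ z, ‖g z‖ ^ 2 * ((1 + ‖z‖ ^ 2)⁻¹) ^ k ≤ B) (z : ℂ) :
    g z = ∑ a ∈ Finset.range (k + 1),
      g a * (Lagrange.basis (Finset.range (k + 1)) (fun a : ℕ => (a : ℂ)) a).eval z := by
  obtain ⟨p, hp, h⟩ := liou_one hg k B hB
  have h1 := Lagrange.eq_interpolate (f := p) (s := Finset.range (k + 1))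
    (v := fun a : ℕ => (a : ℂ)) Nat.cast_injective.injOn (by
      rw [Finset.card_range]
      exact Polynomial.degree_le_natDegree.trans_lt (by exact_mod_cast Nat.lt_succ_of_le hp))
  simp only [h]
  conv_lhs => rw [h1]
  simp only [Lagrange.interpolate_apply, Polynomial.eval_finsetSum, Polynomial.eval_mul,
    Polynomial.eval_C]

variable [DecidableEq ι]

/-- a real differentiable function with vanishing `fdb` is complex differentiable: the real
derivative commutes with multiplication by `I` on the basis vectors -/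
theorem differentiableAt_of_fdb {f : (ι → ℂ) → ℂ} {q : ι → ℂ} (hf : DifferentiableAt ℝ f q)
    (h : ∀ j, fdb j f q = 0) : DifferentiableAt ℂ f q := by
  rw [differentiableAt_iff_restrictScalars ℝ hf]
  refine ⟨∑ j, fderiv ℝ f q (Pi.single j 1) • ContinuousLinearMap.proj j, ?_⟩
  ext1 v
  have h1 : v = ∑ j, ((v j).re • (Pi.single j 1 : ι → ℂ) + (v j).im • (Pi.single j I : ι → ℂ)) := by
    conv_lhs => rw [← Finset.univ_sum_single v]
    refine Finset.sum_congr rfl fun j _ => ?_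
    rw [← Pi.single_smul', ← Pi.single_smul', ← Pi.single_add]
    congr 1
    simp
  have h2 : ∀ j, fderiv ℝ f q (Pi.single j I) = I * fderiv ℝ f q (Pi.single j 1) := by
    intro j
    have h3 := h j
    rw [fdb, div_eq_zero_iff] at h3
    have h4 := h3.resolve_right two_ne_zero
    linear_combination (-I) * h4 + fderiv ℝ f q (Pi.single j I) * I_mul_I
  conv_rhs => rw [h1]
  simp only [map_sum, map_add, map_smul, h2, ContinuousLinearMap.coe_restrictScalars',
    _root_.sum_apply, _root_.smul_apply, ContinuousLinearMap.proj_apply,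
    smul_eq_mul, real_smul]
  refine Finset.sum_congr rfl fun j _ => ?_
  conv_lhs => rw [← re_add_im (v j)]
  ring

theorem liou_wt_update (M : ι → ℕ) (q : ι → ℂ) (i : ι) (z : ℂ) :
    wt M (Function.update q i z) =
      ((1 + ‖z‖ ^ 2)⁻¹) ^ M i * ∏ j ∈ Finset.univ.erase i, ((1 + ‖q j‖ ^ 2)⁻¹) ^ M j := by
  rw [wt, ← Finset.mul_prod_erase _ _ (Finset.mem_univ i), Function.update_self]
  congr 1
  refine Finset.prod_congr rfl fun j hj => ?_
  rw [Function.update_of_ne (Finset.ne_of_mem_erase hj)]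

omit [Fintype ι] in
theorem liou_degreeOf (i j : ι) (l : Polynomial ℂ) :
    degreeOf j (Polynomial.aeval (X i : MvPolynomial ι ℂ) l) ≤ if j = i then l.natDegree else 0 := by
  rw [Polynomial.aeval_eq_sum_range]
  refine (degreeOf_sum_le _ _ _).trans (Finset.sup_le fun n hn => ?_)
  rw [smul_eq_C_mul]
  refine (degreeOf_C_mul_le _ _ _).trans ?_
  split_ifs with h
  · rw [h, degreeOf_X_self_pow]
    exact Nat.lt_succ_iff.1 (Finset.mem_range.1 hn)
  · rw [degreeOf_X_pow_of_ne _ h]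

theorem liou_ind (M : ι → ℕ) (S : Finset ι) : ∀ f : (ι → ℂ) → ℂ, Differentiable ℂ f →
    (∃ B : ℝ, ∀ q, ‖f q‖ ^ 2 * wt M q ≤ B) → (∀ q q', (∀ i ∈ S, q i = q' i) → f q = f q') →
    ∃ p : MvPolynomial ι ℂ, (∀ j, degreeOf j p ≤ if j ∈ S then M j else 0) ∧
      ∀ q, f q = eval q p := by
  induction S using Finset.induction_on with
  | empty =>
    intro f _ _ h
    exact ⟨C (f 0), fun j => by simp [degreeOf_C], fun q => by
      rw [eval_C]; exact h _ _ fun i hi => absurd hi (Finset.notMem_empty i)⟩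
  | insert i S hi ih =>
    rintro f hf ⟨B, hB⟩ h
    have hpos : ∀ q : ι → ℂ, 0 < ∏ j ∈ Finset.univ.erase i, ((1 + ‖q j‖ ^ 2)⁻¹) ^ M j :=
      fun q => Finset.prod_pos fun j _ => by positivity
    have h1 : ∀ a : ℕ, ∃ p : MvPolynomial ι ℂ, (∀ j, degreeOf j p ≤ if j ∈ S then M j else 0) ∧
        ∀ q, f (Function.update q i a) = eval q p := by
      intro a
      refine ih (fun q => f (Function.update q i a)) (hf.comp ?_)
        ⟨B / ((1 + ‖(a : ℂ)‖ ^ 2)⁻¹) ^ M i, fun q => ?_⟩ fun q q' hq => h _ _ fun j hj => ?_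
      · refine differentiable_pi.2 fun j => ?_
        by_cases hj : j = i
        · simp only [hj, Function.update_self]
          exact differentiable_const _
        · simp only [Function.update_of_ne hj]
          exact differentiable_apply j
      · have h2 := hB (Function.update q i a)
        have h3 := liou_wt_update M q i (q i)
        rw [Function.update_eq_self] at h3
        rw [liou_wt_update] at h2
        rw [le_div_iff₀ (by positivity), h3]
        refine le_trans ?_ h2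
        have h4 : ((1 + ‖q i‖ ^ 2)⁻¹) ^ M i ≤ 1 :=
          pow_le_one₀ (by positivity) (inv_le_one_of_one_le₀ (le_add_of_nonneg_right (sq_nonneg _)))
        have h5 := mul_le_of_le_one_left (hpos q).le h4
        rw [mul_assoc, mul_comm _ (((1 + ‖(a : ℂ)‖ ^ 2)⁻¹) ^ M i)]
        exact mul_le_mul_of_nonneg_left (mul_le_mul_of_nonneg_left h5 (by positivity)) (sq_nonneg _)
      · by_cases hji : j = i
        · rw [hji, Function.update_self, Function.update_self]
        · rw [Function.update_of_ne hji, Function.update_of_ne hji]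
          exact hq j ((Finset.mem_insert.1 hj).resolve_left hji)
    choose p hp hpe using h1
    refine ⟨∑ a ∈ Finset.range (M i + 1), p a * Polynomial.aeval (X i : MvPolynomial ι ℂ)
      (Lagrange.basis (Finset.range (M i + 1)) (fun a : ℕ => (a : ℂ)) a), fun j => ?_, fun q => ?_⟩
    · refine (degreeOf_sum_le _ _ _).trans (Finset.sup_le fun a ha => ?_)
      refine (degreeOf_mul_le _ _ _).trans ((add_le_add (hp a j) (liou_degreeOf i j _)).trans ?_)
      rw [Lagrange.natDegree_basis Nat.cast_injective.injOn ha, Finset.card_range]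
      by_cases hji : j = i
      · simp [hji, hi]
      · simp [hji]
    · have h6 : Differentiable ℂ fun z : ℂ => f (Function.update q i z) := by
        refine hf.comp (differentiable_pi.2 fun j => ?_)
        by_cases hj : j = i
        · simp only [hj, Function.update_self]
          exact differentiable_id
        · simp only [Function.update_of_ne hj]
          exact differentiable_const _
      have h7 := liou_lagrange h6 (M i)
        (B / ∏ j ∈ Finset.univ.erase i, ((1 + ‖q j‖ ^ 2)⁻¹) ^ M j) (fun z => by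
          rw [le_div_iff₀ (hpos q), mul_assoc, ← liou_wt_update]
          exact hB _) (q i)
      rw [Function.update_eq_self] at h7
      rw [h7, map_sum]
      refine Finset.sum_congr rfl fun a _ => ?_
      rw [map_mul, ← hpe, Polynomial.aeval_eq_sum_range, Polynomial.eval_eq_sum_range]
      simp only [map_sum, smul_eval, map_pow, eval_X]

omit [DecidableEq ι] in
/-- An entire function with polynomial growth is a polynomial: Cauchy estimates and Lagrange
interpolation in each variable. -/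
theorem poly_of_growth {f : (ι → ℂ) → ℂ} (hf : Differentiable ℂ f) (M : ι → ℕ) (B : ℝ)
    (hB : ∀ q, ‖f q‖ ^ 2 * wt M q ≤ B) :
    ∃ p : MvPolynomial ι ℂ, (∀ i, degreeOf i p ≤ M i) ∧ ∀ q, f q = eval q p := by
  classical
  obtain ⟨p, h1, h2⟩ := liou_ind M Finset.univ f hf ⟨B, hB⟩ fun q q' h => by
    rw [funext fun i => h i (Finset.mem_univ i)]
  exact ⟨p, fun i => by simpa using h1 i, h2⟩

omit [DecidableEq ι] in
theorem locallyIntegrable_of_wt {H : (ι → ℂ) → ℂ} (hm : AEStronglyMeasurable H) (M : ι → ℕ)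
    (h2 : ∫⁻ q, ENNReal.ofReal (‖H q‖ ^ 2 * wt M q) < ⊤) : LocallyIntegrable H := by
  have hG : Integrable fun q => ‖H q‖ ^ 2 * wt M q :=
    ⟨(hm.norm.pow 2).mul (continuous_wt M).aestronglyMeasurable,
      (hasFiniteIntegral_iff_ofReal (Eventually.of_forall fun q =>
        mul_nonneg (sq_nonneg _) (wt_pos M q).le)).2 h2⟩
  intro x
  obtain ⟨c, hc, h⟩ := le_wt M (‖x‖ + 1)
  refine ⟨Metric.ball x 1, Metric.ball_mem_nhds x one_pos, ?_⟩
  have h1 : IntegrableOn (fun q => 1 + c⁻¹ * (‖H q‖ ^ 2 * wt M q)) (Metric.ball x 1) :=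
    (integrableOn_const measure_ball_lt_top.ne).add (hG.const_mul _).integrableOn
  refine h1.mono' hm.restrict ((ae_restrict_mem measurableSet_ball).mono fun q hq => ?_)
  have h3 : ‖q‖ ≤ ‖x‖ + 1 := by
    have := norm_sub_norm_le q x
    rw [mem_ball_iff_norm] at hq
    linarith
  have h4 : ‖H q‖ ^ 2 ≤ c⁻¹ * (‖H q‖ ^ 2 * wt M q) := by
    rw [← div_eq_inv_mul, le_div_iff₀ hc]
    exact mul_le_mul_of_nonneg_left (h q h3) (sq_nonneg _)
  nlinarith [sq_nonneg (‖H q‖ - 1), sq_nonneg ‖H q‖]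

omit [DecidableEq ι] in
theorem liou_wt_le (M : ι → ℕ) {x y : ι → ℂ} (h : dist y x ≤ 1) :
    wt M x ≤ (∏ i, (3 : ℝ) ^ M i) * wt M y := by
  rw [wt, wt, ← Finset.prod_mul_distrib]
  refine Finset.prod_le_prod (fun i _ => by positivity) fun i _ => ?_
  rw [← mul_pow]
  refine pow_le_pow_left₀ (by positivity) ?_ _
  have h1 : ‖y i‖ ≤ ‖x i‖ + 1 := by
    have h2 := norm_sub_norm_le (y i) (x i)
    have h3 := (dist_le_pi_dist y x i).trans h
    rw [dist_eq_norm] at h3
    linarith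
  have h4 : ‖y i‖ ^ 2 ≤ (‖x i‖ + 1) ^ 2 := pow_le_pow_left₀ (norm_nonneg _) h1 2
  rw [← div_eq_mul_inv, le_div_iff₀ (by positivity), ← div_eq_inv_mul,
    div_le_iff₀ (by positivity)]
  nlinarith [sq_nonneg (‖x i‖ - 1), sq_nonneg ‖x i‖]

omit [DecidableEq ι] in
theorem liou_moll_growth {H : (ι → ℂ) → ℂ} (hm : AEStronglyMeasurable H) (M : ι → ℕ)
    (h2 : ∫⁻ q, ENNReal.ofReal (‖H q‖ ^ 2 * wt M q) < ⊤) (n : ℕ) :
    ∃ B : ℝ, ∀ x, ‖moll n H x‖ ^ 2 * wt M x ≤ B := by
  obtain ⟨K, hK⟩ := (fTest_ker n (0 : ι → ℂ)).1.continuous.bounded_above_of_compact_support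
    (fTest_ker n 0).2
  have hK0 : 0 ≤ K := (norm_nonneg _).trans (hK 0)
  have hD : (0 : ℝ) ≤ ∏ i, (3 : ℝ) ^ M i := by positivity
  refine ⟨(ENNReal.ofReal (K * ∏ i, (3 : ℝ) ^ M i) *
    ∫⁻ q, ENNReal.ofReal (‖H q‖ ^ 2 * wt M q)).toReal, fun x => ?_⟩
  rw [← ENNReal.ofReal_le_iff_le_toReal (ENNReal.mul_ne_top ENNReal.ofReal_ne_top h2.ne),
    ENNReal.ofReal_mul (sq_nonneg _), ← lintegral_const_mul' _ _ ENNReal.ofReal_ne_top]
  refine (mul_le_mul_left (normSq_moll_le hm n x) _).trans ?_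
  rw [← lintegral_mul_const' _ _ ENNReal.ofReal_ne_top]
  refine lintegral_mono fun y => ?_
  rw [← ENNReal.ofReal_mul (by positivity), ← ENNReal.ofReal_mul (by positivity)]
  refine ENNReal.ofReal_le_ofReal ?_
  have h3 : ‖ker n (x - y)‖ * wt M x ≤ K * ((∏ i, (3 : ℝ) ^ M i) * wt M y) := by
    by_cases h0 : ker n (x - y) = 0
    · rw [h0, norm_zero, zero_mul]
      exact mul_nonneg hK0 (mul_nonneg hD (wt_pos M y).le)
    · have h4 := tsupport_ker n x (subset_tsupport _ (Function.mem_support.2 h0))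
      have h5 : 1 / ((n : ℝ) + 1) ≤ 1 := by
        rw [div_le_one (by positivity)]
        exact le_add_of_nonneg_left (Nat.cast_nonneg n)
      have h6 := hK (y - x)
      rw [zero_sub, neg_sub] at h6
      exact mul_le_mul h6 (liou_wt_le M ((Metric.mem_closedBall.1 h4).trans h5)) (wt_pos M x).le hK0
  calc ‖H y‖ ^ 2 * ‖ker n (x - y)‖ * wt M x = ‖H y‖ ^ 2 * (‖ker n (x - y)‖ * wt M x) := by ring
    _ ≤ ‖H y‖ ^ 2 * (K * ((∏ i, (3 : ℝ) ^ M i) * wt M y)) :=
      mul_le_mul_of_nonneg_left h3 (sq_nonneg _)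
    _ = _ := by ring

/-- Liouville.  `moll n H` is entire with polynomial growth, so it is a polynomial with bounded
degrees; on the set of points of convergence these polynomials form a finite dimensional, hence
closed, space of functions. -/
theorem liouville {H : (ι → ℂ) → ℂ} (hm : AEStronglyMeasurable H) (M : ι → ℕ)
    (h2 : ∫⁻ q, ENNReal.ofReal (‖H q‖ ^ 2 * wt M q) < ⊤)
    (hw : ∀ g, FTest g → ∀ j, ∫ q, H q * fdb j g q = 0) :
    ∃ p : MvPolynomial ι ℂ, (∀ i, degreeOf i p ≤ M i) ∧ ∀ᵐ q, H q = eval q p := by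
  have hl := locallyIntegrable_of_wt hm M h2
  have h1 : ∀ n, ∃ p : MvPolynomial ι ℂ, (∀ i, degreeOf i p ≤ M i) ∧
      ∀ q, moll n H q = eval q p := by
    intro n
    obtain ⟨B, hB⟩ := liou_moll_growth hm M h2 n
    refine poly_of_growth (fun q => differentiableAt_of_fdb
      ((contDiff_moll hl n).differentiable (by simp) q) fun j => ?_) M B hB
    rw [fdb_moll hl, hw _ (fTest_ker n q), neg_zero]
  choose p hp hpe using h1
  let A : Set (ι → ℂ) := {x | Tendsto (fun n => moll n H x) atTop (𝓝 (H x))}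
  let W : Submodule ℂ (MvPolynomial ι ℂ) := restrictSupport ℂ {n | ∀ i, n i ≤ M i}
  have hW : ∀ p, p ∈ W ↔ ∀ i, degreeOf i p ≤ M i := fun p => by
    simp only [degreeOf_le_iff]
    exact ⟨fun h i m hm => h hm i, fun h m hm i => h i m hm⟩
  have : FiniteDimensional ℂ W := by
    refine Submodule.finiteDimensional_of_le (S₂ := restrictDegree ι ℂ (Finset.univ.sup M))
      (restrictSupport_mono ℂ fun n hn i => ?_)
    exact (hn i).trans (Finset.le_sup (Finset.mem_univ i))
  let E : MvPolynomial ι ℂ →ₗ[ℂ] A → ℂ := (LinearMap.funLeft ℂ ℂ Subtype.val).comp (evalₗ ℂ ι)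
  have hE : ∀ p (x : A), E p x = eval x.1 p := fun _ _ => rfl
  have hc := (W.map E).closed_of_finiteDimensional
  have ht : Tendsto (fun n => E (p n)) atTop (𝓝 fun x : A => H x.1) :=
    tendsto_pi_nhds.2 fun x => by
      simp only [hE, ← hpe]
      exact x.2
  obtain ⟨r, hr, hre⟩ := hc.mem_of_tendsto ht
    (Eventually.of_forall fun n => Submodule.mem_map_of_mem ((hW _).2 (hp n)))
  refine ⟨r, (hW r).1 hr, (ae_tendsto_moll hl).mono fun x hx => ?_⟩
  exact (congrFun hre ⟨x, hx⟩).symm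

omit [DecidableEq ι] in
theorem liou_differentiable (p : MvPolynomial ι ℂ) : Differentiable ℂ fun q : ι → ℂ => eval q p :=
  fun q => (AnalyticOnNhd.eval_mvPolynomial p q (Set.mem_univ q)).differentiableAt

omit [DecidableEq ι] in
theorem liou_contDiff (p : MvPolynomial ι ℂ) : ContDiff ℝ ∞ fun q : ι → ℂ => eval q p :=
  ((AnalyticOnNhd.eval_mvPolynomial p).contDiff (n := ∞)).restrict_scalars ℝ

theorem liou_fdb_comp {s : (ι → ℂ) → ℝ} {q : ι → ℂ} (hs : DifferentiableAt ℝ s q) {γ : ℝ → ℝ}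
    {d : ℝ} (hγ : HasDerivAt γ d (s q)) (j : ι) :
    fdb j (fun x => (γ (s x) : ℂ)) q = (d : ℂ) * fdb j (fun x => (s x : ℂ)) q := by
  have h2 : HasFDerivAt (fun x => (s x : ℂ)) (ofRealCLM.comp (fderiv ℝ s q)) q :=
    ofRealCLM.hasFDerivAt.comp _ hs.hasFDerivAt
  have h4 : HasFDerivAt (fun x => (γ (s x) : ℂ)) (ofRealCLM.comp (d • fderiv ℝ s q)) q :=
    ofRealCLM.hasFDerivAt.comp _ (hγ.comp_hasFDerivAt q hs.hasFDerivAt)
  simp only [fdb, h2.fderiv, h4.fderiv, ContinuousLinearMap.comp_apply, _root_.smul_apply,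
    ofRealCLM_apply, smul_eq_mul, ofReal_mul]
  ring

theorem liou_fdb_normSq (Δ : MvPolynomial ι ℂ) (q : ι → ℂ) (j : ι) :
    fdb j (fun x => ((‖eval x Δ‖ ^ 2 : ℝ) : ℂ)) q =
      eval q Δ * conj (fdz j (fun x => eval x Δ) q) := by
  have h1 : (fun x : ι → ℂ => ((‖eval x Δ‖ ^ 2 : ℝ) : ℂ)) = fun x => eval x Δ * conj (eval x Δ) := by
    funext x
    rw [mul_conj', ofReal_pow]
  have h2 := (liou_contDiff Δ).differentiable (by simp) q
  have h3 : DifferentiableAt ℝ (fun x => conj (eval x Δ)) q := conjCLE.differentiableAt.comp q h2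
  rw [h1, fdb_mul j h2 h3, fdb_conj,
    fdb_of_differentiableAt j (liou_differentiable Δ q), zero_mul, zero_add]

/-- Extension across a hypersurface: test with `Δ * g * (1 - χ (n |Δ|^2))` and use dominated
convergence. -/
theorem weak_across {U : (ι → ℂ) → ℂ} (hU : LocallyIntegrable U) {Δ : MvPolynomial ι ℂ}
    (hΔ : Δ ≠ 0) (hw : ∀ g, FTest g → tsupport g ⊆ {q | eval q Δ ≠ 0} → ∀ j,
      ∫ q, U q * fdb j g q = 0) {g : (ι → ℂ) → ℂ} (hg : FTest g) (j : ι) :
    ∫ q, eval q Δ * U q * fdb j g q = 0 := by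
  obtain ⟨χ, B, hχ, h1, h2, h01, hB, hd⟩ := exists_step (one_lt_two (α := ℝ))
  have hD := liou_contDiff Δ
  have hs : ContDiff ℝ ∞ fun q : ι → ℂ => ‖eval q Δ‖ ^ 2 := hD.norm_sq ℝ
  have hφ : ∀ n : ℕ, ContDiff ℝ ∞ fun q : ι → ℂ => ((1 - χ (n * ‖eval q Δ‖ ^ 2) : ℝ) : ℂ) :=
    fun n => ofRealCLM.contDiff.comp (contDiff_const.sub (hχ.comp (contDiff_const.mul hs)))
  have hT : ∀ n : ℕ,
      FTest fun q => eval q Δ * g q * ((1 - χ (n * ‖eval q Δ‖ ^ 2) : ℝ) : ℂ) :=
    fun n => ⟨(hD.mul hg.1).mul (hφ n), hg.2.mul_left.mul_right⟩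
  have hS : ∀ n : ℕ, tsupport (fun q => eval q Δ * g q * ((1 - χ (n * ‖eval q Δ‖ ^ 2) : ℝ) : ℂ)) ⊆
      {q | eval q Δ ≠ 0} := by
    intro n
    have hc : IsClosed {q : ι → ℂ | 1 ≤ (n : ℝ) * ‖eval q Δ‖ ^ 2} :=
      isClosed_le continuous_const (continuous_const.mul hs.continuous)
    refine (closure_minimal (fun q hq => ?_) hc).trans fun q hq h0 => ?_
    · by_contra hn
      exact hq (by simp only [h1 _ (not_le.1 hn).le, sub_self, ofReal_zero, mul_zero])
    · rw [Set.mem_ofPred_eq, h0, norm_zero] at hq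
      norm_num at hq
  have hF : ∀ (n : ℕ) q,
      fdb j (fun q => eval q Δ * g q * ((1 - χ (n * ‖eval q Δ‖ ^ 2) : ℝ) : ℂ)) q =
      eval q Δ * fdb j g q * ((1 - χ (n * ‖eval q Δ‖ ^ 2) : ℝ) : ℂ) +
        ((-(deriv χ (n * ‖eval q Δ‖ ^ 2) * n) : ℝ) : ℂ) * eval q Δ ^ 2 *
          (g q * conj (fdz j (fun x => eval x Δ) q)) := by
    intro n q
    have d1 := hD.differentiable (by simp) q
    have d2 := hg.1.differentiable (by simp) q
    have d3 : HasDerivAt (fun t : ℝ => 1 - χ (n * t)) (-(deriv χ (n * ‖eval q Δ‖ ^ 2) * n))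
        (‖eval q Δ‖ ^ 2) := by
      have d4 := (hχ.differentiable (by simp) (n * ‖eval q Δ‖ ^ 2)).hasDerivAt.comp _
        ((hasDerivAt_id (‖eval q Δ‖ ^ 2)).const_mul (n : ℝ))
      rw [mul_one] at d4
      exact d4.const_sub 1
    rw [fdb_mul j (d1.fun_mul d2) ((hφ n).differentiable (by simp) q), fdb_mul j d1 d2,
      fdb_of_differentiableAt j (liou_differentiable Δ q),
      liou_fdb_comp (hs.differentiable (by simp) q) d3, liou_fdb_normSq]
    ring
  have i1 : Integrable fun q => U q * (eval q Δ * fdb j g q) :=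
    hU.integrable_smul_right_of_hasCompactSupport (hD.continuous.mul (hg.fdb j).1.continuous)
      (hg.fdb j).2.mul_left
  have i2 : Integrable fun q => U q * (g q * conj (fdz j (fun x => eval x Δ) q)) :=
    hU.integrable_smul_right_of_hasCompactSupport
      (hg.1.continuous.mul (continuous_conj.comp (contDiff_fdz j hD).continuous)) hg.2.mul_right
  have ht := tendsto_integral_of_dominated_convergence (μ := volume)
    (F := fun (n : ℕ) q => U q *
      fdb j (fun q => eval q Δ * g q * ((1 - χ (n * ‖eval q Δ‖ ^ 2) : ℝ) : ℂ)) q)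
    (f := fun q => eval q Δ * U q * fdb j g q) _
    (fun n => hU.aestronglyMeasurable.mul ((hT n).fdb j).1.continuous.aestronglyMeasurable)
    (i1.norm.add (i2.norm.const_mul (2 * B))) (fun n => Eventually.of_forall fun q => ?_)
    ((ae_eval_ne hΔ).mono fun q hq => ?_)
  · simp only [fun n => hw _ (hT n) (hS n) j] at ht
    exact tendsto_nhds_unique ht tendsto_const_nhds
  · have b1 : ‖((1 - χ (n * ‖eval q Δ‖ ^ 2) : ℝ) : ℂ)‖ ≤ 1 := by
      rw [norm_real, Real.norm_eq_abs, abs_le]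
      constructor <;> linarith [(h01 (n * ‖eval q Δ‖ ^ 2)).1, (h01 (n * ‖eval q Δ‖ ^ 2)).2]
    have b2 : ‖((-(deriv χ (n * ‖eval q Δ‖ ^ 2) * n) : ℝ) : ℂ) * eval q Δ ^ 2‖ ≤ 2 * B := by
      have hB0 : 0 ≤ B := (abs_nonneg _).trans (hB 0)
      rw [norm_mul, norm_real, norm_neg, norm_mul, norm_pow, Real.norm_natCast, Real.norm_eq_abs,
        mul_assoc]
      rcases le_total 2 (n * ‖eval q Δ‖ ^ 2) with h | h
      · rw [hd _ (Or.inr h), abs_zero, zero_mul]
        positivity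
      · rw [mul_comm]
        exact mul_le_mul h (hB _) (abs_nonneg _) zero_le_two
    have e : U q * fdb j (fun q => eval q Δ * g q * ((1 - χ (n * ‖eval q Δ‖ ^ 2) : ℝ) : ℂ)) q =
        U q * (eval q Δ * fdb j g q) * ((1 - χ (n * ‖eval q Δ‖ ^ 2) : ℝ) : ℂ) +
          ((-(deriv χ (n * ‖eval q Δ‖ ^ 2) * n) : ℝ) : ℂ) * eval q Δ ^ 2 *
            (U q * (g q * conj (fdz j (fun x => eval x Δ) q))) := by
      rw [hF]; ring
    rw [e]
    refine (norm_add_le _ _).trans (add_le_add ?_ ?_)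
    · rw [norm_mul]
      exact mul_le_of_le_one_right (norm_nonneg _) b1
    · rw [norm_mul]
      exact mul_le_mul_of_nonneg_right b2 (norm_nonneg _)
  · have hq0 : 0 < ‖eval q Δ‖ ^ 2 := by positivity
    have h5 : Tendsto (fun n : ℕ => (n : ℝ) * ‖eval q Δ‖ ^ 2) atTop atTop :=
      tendsto_natCast_atTop_atTop.atTop_mul_const hq0
    refine tendsto_const_nhds.congr' ((h5.eventually_ge_atTop 2).mono fun n hn => ?_)
    simp only [hF, h2 _ hn, hd _ (Or.inr hn), sub_zero, ofReal_one, zero_mul, neg_zero,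
      ofReal_zero]
    ring

omit [DecidableEq ι] in
theorem eval_growth (p : MvPolynomial ι ℂ) (M : ι → ℕ) (h : ∀ i, degreeOf i p ≤ M i) :
    ∃ B : ℝ, ∀ q, ‖eval q p‖ ^ 2 * wt M q ≤ B := by
  refine ⟨(∑ d ∈ p.support, ‖p.coeff d‖) ^ 2, fun q => ?_⟩
  have h1 : ‖eval q p‖ ≤ (∑ d ∈ p.support, ‖p.coeff d‖) * ∏ i, √(1 + ‖q i‖ ^ 2) ^ M i := by
    rw [eval_eq', Finset.sum_mul]
    refine (norm_sum_le _ _).trans (Finset.sum_le_sum fun d hd => ?_)
    rw [norm_mul, norm_prod]
    refine mul_le_mul_of_nonneg_left (Finset.prod_le_prod (fun i _ => norm_nonneg _)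
      fun i _ => ?_) (norm_nonneg _)
    rw [norm_pow]
    refine (pow_le_pow_left₀ (norm_nonneg _) (Real.le_sqrt_of_sq_le (by linarith)) _).trans
      (pow_le_pow_right₀ (Real.one_le_sqrt.2 (le_add_of_nonneg_right (sq_nonneg _))) ?_)
    exact (le_degreeOf_of_mem_support i hd).trans (h i)
  have h2 : (∏ i, √(1 + ‖q i‖ ^ 2) ^ M i) ^ 2 * wt M q = 1 := by
    rw [wt, ← Finset.prod_pow, ← Finset.prod_mul_distrib]
    refine Finset.prod_eq_one fun i _ => ?_
    rw [← pow_mul, mul_comm (M i) 2, pow_mul, Real.sq_sqrt (by positivity), ← mul_pow,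
      mul_inv_cancel₀ (by positivity), one_pow]
  refine (mul_le_mul_of_nonneg_right (pow_le_pow_left₀ (norm_nonneg _) h1 2)
    (wt_pos M q).le).trans_eq ?_
  rw [mul_pow, mul_assoc, h2, mul_one]

end Pool.Agent.MP_c0606f_ag.Klt

end

-- part MP_c0606f_ag.Klt.Bkm
section

/-! The Bochner-Kodaira-Morrey-Hormander identity for test forms. -/

namespace Pool.Agent.MP_c0606f_ag.Klt

open MeasureTheory Complex Filter Topology
open scoped ENNReal ContDiff ComplexConjugate

namespace RD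

variable {ι X : Type} [Fintype ι] [DecidableEq ι] [TopologicalSpace X] [T2Space X]
  [SecondCountableTopology X] [MeasurableSpace X] [BorelSpace X] {R : RD ι X}

section Helpers

omit [T2Space X] [SecondCountableTopology X] [MeasurableSpace X] [BorelSpace X]

variable {φ : X → ℝ}

omit [DecidableEq ι] in
theorem bkm_sm (hφ : R.SmR φ) : R.Sm fun x => ((Real.exp (-φ x) : ℝ) : ℂ) :=
  hφ.comp (γ := fun t => Real.exp (-t)) fun _ => by fun_prop

theorem bkm_deriv (t : ℝ) : deriv (fun t => Real.exp (-t)) t = -Real.exp (-t) := by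
  simpa using (hasDerivAt_neg t).exp.deriv

theorem bkm_dz (hφ : R.SmR φ) (j : ι) (p : X) :
    R.dz j (fun x => ((Real.exp (-φ x) : ℝ) : ℂ)) p =
      -(Real.exp (-φ p) : ℝ) * R.dz j (fun x => (φ x : ℂ)) p := by
  rw [dz_comp j hφ (γ := fun t => Real.exp (-t)) (by fun_prop), bkm_deriv, ofReal_neg]

theorem bkm_db (hφ : R.SmR φ) (j : ι) (p : X) :
    R.db j (fun x => ((Real.exp (-φ x) : ℝ) : ℂ)) p =
      -(Real.exp (-φ p) : ℝ) * R.db j (fun x => (φ x : ℂ)) p := by
  rw [db_comp j hφ (γ := fun t => Real.exp (-t)) (by fun_prop), bkm_deriv, ofReal_neg]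

/-- the pointwise identity, in divergence form -/
theorem bkm_div (hφ : R.SmR φ) {a c : X → ℂ} (ha : R.Sm a) (hc : R.Sm c) (j k : ι) (p : X) :
    R.dz j (fun x => a x * (Real.exp (-φ x) : ℝ) *
        (R.db k c x - R.db k (fun x => (φ x : ℂ)) x * c x)) p -
      R.db k (fun x => a x * (Real.exp (-φ x) : ℝ) * R.dz j c x) p =
    ((R.dz j a p - R.dz j (fun x => (φ x : ℂ)) p * a p) *
        (R.db k c p - R.db k (fun x => (φ x : ℂ)) p * c p) -
      R.dz j (R.db k fun x => (φ x : ℂ)) p * a p * c p - R.db k a p * R.dz j c p) *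
        (Real.exp (-φ p) : ℝ) := by
  have hE := bkm_sm hφ
  have h1 := Sm.db hφ k
  rw [dz_mul j (ha.mul hE) ((hc.db k).sub (h1.mul hc)), db_mul k (ha.mul hE) (hc.dz j),
    dz_mul j ha hE, db_mul k ha hE, dz_sub j (hc.db k) (h1.mul hc), dz_mul j h1 hc,
    bkm_dz hφ, bkm_db hφ, dz_db_comm j k hc]
  ring

omit [DecidableEq ι] in
theorem bkm_alg (u : ι → ι → ℂ) :
    -(∑ j, ∑ k, u j k * conj (u k j)).re ≤ 1 / 2 * ∑ j, ∑ k, ‖u j k - u k j‖ ^ 2 := by
  have h : ∀ a b : ℂ, -(a * conj b).re ≤ 1 / 2 * ‖a - b‖ ^ 2 := fun a b => by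
    rw [Complex.sq_norm, normSq_sub]
    linarith [normSq_nonneg a, normSq_nonneg b]
  simp only [re_sum, Finset.mul_sum, ← Finset.sum_neg_distrib]
  exact Finset.sum_le_sum fun j _ => Finset.sum_le_sum fun k _ => h _ _

end Helpers

omit [DecidableEq ι] in
theorem bkm_int {φ : X → ℝ} (hφ : R.SmR φ) {u : X → ℂ} (hu : R.Test u) :
    Integrable (fun x => ‖u x‖ ^ 2 * Real.exp (-φ x)) R.mu := by
  refine ((hu.mul_right hu.1.conj).mul_right (bkm_sm hφ)).integrable.re.congr
    (Eventually.of_forall fun x => ?_)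
  simp only [mul_conj', RCLike.re_to_complex, ← ofReal_pow, ← ofReal_mul, ofReal_re]

/-- With `δ j g = dz j g - dz j φ * g` and `e = exp (-φ)`:
`∫ δ j a * conj b * e = -∫ a * conj (db j b) * e` for test functions (`ibp_dz`, `dz_conj`), and
`db j (δ k g) = δ k (db j g) - dz k (db j φ) * g` (`dz_db_comm`).  Hence
`∫ δ j (f j) * conj (δ k (f k)) * e =
  ∫ dz j (db k φ) * f j * conj (f k) * e + ∫ db k (f j) * conj (db j (f k)) * e`
(note `conj (dz k (db j φ)) = dz j (db k φ)` for real `φ`).  Finally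
`(1 / 2) ∑ |db k (f j) - db j (f k)|^2 = ∑ |db k (f j)|^2 - re ∑ db k (f j) * conj (db j (f k))`. -/
theorem bkm {φ : X → ℝ} (hφ : R.SmR φ) {f : ι → X → ℂ} (hf : ∀ j, R.Test (f j)) :
    ∫ x, R.levi φ x (fun j => f j x) * Real.exp (-φ x) ∂(R.mu) ≤
      ∫ x, ‖R.del φ f x‖ ^ 2 * Real.exp (-φ x) ∂(R.mu) +
        ∫ x, (1 / 2 * ∑ j, ∑ k, ‖R.db k (f j) x - R.db j (f k) x‖ ^ 2) * Real.exp (-φ x)
          ∂(R.mu) := by
  have hE := bkm_sm hφ
  set P : ι → ι → X → ℂ := fun j k x => f j x * (Real.exp (-φ x) : ℝ) *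
    (R.db k (fun x => conj (f k x)) x - R.db k (fun x => (φ x : ℂ)) x * conj (f k x)) with hP
  set Q : ι → ι → X → ℂ := fun j k x => f j x * (Real.exp (-φ x) : ℝ) *
    R.dz j (fun x => conj (f k x)) x with hQ
  have tP : ∀ j k, R.Test (P j k) := fun j k => ((hf j).mul_right hE).mul_right
    (((hf k).1.conj.db k).sub ((Sm.db hφ k).mul (hf k).1.conj))
  have tQ : ∀ j k, R.Test (Q j k) := fun j k => ((hf j).mul_right hE).mul_right
    ((hf k).1.conj.dz j)
  have iH : ∀ j k, Integrable (fun x => R.dz j (P j k) x - R.db k (Q j k) x) R.mu := fun j k =>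
    (((tP j k).dz j).sub ((tQ j k).db k)).integrable
  set H : X → ℂ := fun x => ∑ j, ∑ k, (R.dz j (P j k) x - R.db k (Q j k) x) with hH
  have i0 : Integrable H R.mu :=
    integrable_finsetSum _ fun j _ => integrable_finsetSum _ fun k _ => iH j k
  have h0 : ∫ x, (H x).re ∂(R.mu) = 0 := by
    have : ∫ x, H x ∂(R.mu) = 0 := by
      rw [hH, integral_finsetSum _ fun j _ => integrable_finsetSum _ fun k _ => iH j k]
      refine Finset.sum_eq_zero fun j _ => ?_
      rw [integral_finsetSum _ fun k _ => iH j k]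
      refine Finset.sum_eq_zero fun k _ => ?_
      rw [integral_sub ((tP j k).dz j).integrable ((tQ j k).db k).integrable,
        (tP j k).integral_dz, (tQ j k).integral_db, sub_zero]
    have h1 := integral_re i0
    rw [this] at h1
    simpa using h1
  have i1 : Integrable (fun x => R.levi φ x (fun j => f j x) * Real.exp (-φ x)) R.mu := by
    refine ((Test.sum Finset.univ fun j _ => Test.sum Finset.univ fun k _ =>
      ((hf j).mul_left ((Sm.db hφ k).dz j)).mul_right (hf k).1.conj).mul_right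
        hE).integrable.re.congr (Eventually.of_forall fun x => ?_)
    simp only [levi, RCLike.re_to_complex, re_mul_ofReal]
  have i2 := bkm_int hφ (test_del hφ hf)
  have i3 : Integrable (fun x => (1 / 2 * ∑ j, ∑ k, ‖R.db k (f j) x - R.db j (f k) x‖ ^ 2) *
      Real.exp (-φ x)) R.mu := by
    simp only [mul_assoc, Finset.sum_mul]
    exact (integrable_finsetSum _ fun j _ => integrable_finsetSum _ fun k _ =>
      bkm_int hφ (((hf j).db k).sub ((hf k).db j))).const_mul _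
  have key : ∀ x, R.levi φ x (fun j => f j x) * Real.exp (-φ x) + (H x).re ≤
      ‖R.del φ f x‖ ^ 2 * Real.exp (-φ x) +
        (1 / 2 * ∑ j, ∑ k, ‖R.db k (f j) x - R.db j (f k) x‖ ^ 2) * Real.exp (-φ x) := by
    intro x
    have e1 : H x = (R.del φ f x * conj (R.del φ f x) -
        ∑ j, ∑ k, R.dz j (R.db k fun x => (φ x : ℂ)) x * f j x * conj (f k x) -
        ∑ j, ∑ k, R.db k (f j) x * conj (R.db j (f k) x)) * (Real.exp (-φ x) : ℝ) := by
      rw [del, map_sum, Finset.sum_mul_sum]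
      simp only [← Finset.sum_sub_distrib, Finset.sum_mul]
      refine Finset.sum_congr rfl fun j _ => Finset.sum_congr rfl fun k _ => ?_
      refine (bkm_div hφ (hf j).1 (hf k).1.conj j k x).trans ?_
      rw [db_conj, dz_conj, map_sub, map_mul, ← db_real]
    have e2 := mul_le_mul_of_nonneg_right (bkm_alg fun j k => R.db k (f j) x)
      (Real.exp_pos (-φ x)).le
    rw [e1, re_mul_ofReal, sub_re, sub_re, mul_conj', ← ofReal_pow, ofReal_re, levi]
    linarith
  have := integral_mono (i1.add i0.re) (i2.add i3) key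
  rw [integral_add' i1 i0.re, integral_add' i2 i3] at this
  simp only [RCLike.re_to_complex, h0, add_zero] at this
  exact this

end RD

end Pool.Agent.MP_c0606f_ag.Klt

end

-- part MP_c0606f_ag.Klt.Fried
section

/-! Friedrichs' lemma and the weak form of the basic estimate. -/

namespace Pool.Agent.MP_c0606f_ag.Klt

open MeasureTheory Complex Filter Topology
open scoped ENNReal ContDiff ComplexConjugate

section Gen

variable {X : Type} [MeasurableSpace X] {μ : Measure X}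

theorem fried_sum {σ : Type} (S : Finset σ) {u : σ → ℕ → X → ℂ}
    (hm : ∀ i n, AEStronglyMeasurable (u i n) μ)
    (ht : ∀ i, Tendsto (fun n => eLpNorm (u i n) 2 μ) atTop (𝓝 0)) {v : ℕ → X → ℂ}
    (hv : ∀ n x, v n x = ∑ i ∈ S, u i n x) : Tendsto (fun n => eLpNorm (v n) 2 μ) atTop (𝓝 0) := by
  have a := tendsto_finsetSum S fun i _ => ht i
  rw [Finset.sum_const_zero] at a
  refine tendsto_of_tendsto_of_tendsto_of_le_of_le tendsto_const_nhds a (fun _ => zero_le)
    fun n => ?_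
  have e : v n = ∑ i ∈ S, u i n := funext fun x => by rw [hv, Finset.sum_apply]
  rw [e]
  exact eLpNorm_sum_le (fun i _ => hm i n) one_le_two

/-- convergence in `L²` with supports in `K` -/
structure fried_Cv (μ : Measure X) (K : Set X) (a : ℕ → X → ℂ) (a' : X → ℂ) : Prop where
  l : ∀ n, MemLp (a n) 2 μ
  l' : MemLp a' 2 μ
  s : ∀ n x, x ∉ K → a n x = 0
  s' : ∀ x, x ∉ K → a' x = 0
  t : Tendsto (fun n => eLpNorm (fun x => a n x - a' x) 2 μ) atTop (𝓝 0)

variable {K : Set X}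

theorem fried_Cv.sum {σ : Type} [Fintype σ] {a : σ → ℕ → X → ℂ} {a' : σ → X → ℂ}
    (h : ∀ i, fried_Cv μ K (a i) (a' i)) :
    fried_Cv μ K (fun n x => ∑ i, a i n x) fun x => ∑ i, a' i x :=
  ⟨fun n => memLp_finsetSum _ fun i _ => (h i).l n, memLp_finsetSum _ fun i _ => (h i).l',
    fun n x hx => Finset.sum_eq_zero fun i _ => (h i).s n x hx,
    fun x hx => Finset.sum_eq_zero fun i _ => (h i).s' x hx,
    fried_sum Finset.univ (fun i n => (((h i).l n).sub (h i).l').1) (fun i => (h i).t)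
      fun _ _ => (Finset.sum_sub_distrib _ _).symm⟩

theorem fried_Cv.sub {a b : ℕ → X → ℂ} {a' b' : X → ℂ} (h : fried_Cv μ K a a')
    (h' : fried_Cv μ K b b') : fried_Cv μ K (fun n x => a n x - b n x) fun x => a' x - b' x := by
  refine ⟨fun n => (h.l n).sub (h'.l n), h.l'.sub h'.l',
    fun n x hx => by rw [h.s n x hx, h'.s n x hx, sub_zero],
    fun x hx => by rw [h.s' x hx, h'.s' x hx, sub_zero], ?_⟩
  have t := h.t.add h'.t
  rw [add_zero] at t
  refine tendsto_of_tendsto_of_tendsto_of_le_of_le tendsto_const_nhds t (fun _ => zero_le)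
    fun n => le_trans (le_of_eq ?_)
      (eLpNorm_sub_le ((h.l n).sub h.l').1 ((h'.l n).sub h'.l').1 one_le_two)
  congr 1
  funext x
  simp only [Pi.sub_apply]
  ring

theorem fried_conj {a : X → ℂ} (ha : MemLp a 2 μ) : MemLp (fun x => conj (a x)) 2 μ :=
  ha.of_le (continuous_conj.comp_aestronglyMeasurable ha.1)
    (Eventually.of_forall fun _ => (norm_conj _).le)

theorem fried_int {a b : X → ℂ} (ha : MemLp a 2 μ) (hb : MemLp b 2 μ) :
    Integrable (fun x => a x * b x) μ := ha.integrable_mul hb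

theorem fried_inner {a b : X → ℂ} (ha : MemLp a 2 μ) (hb : MemLp b 2 μ) :
    ∫ x, a x * conj (b x) ∂μ = inner ℂ (hb.toLp b) (ha.toLp a) := by
  rw [L2.inner_def]
  refine integral_congr_ae ?_
  filter_upwards [ha.coeFn_toLp, hb.coeFn_toLp] with x h1 h2
  rw [h1, h2, RCLike.inner_apply]

theorem fried_re {σ : Type} [Fintype σ] {a b : σ → X → ℂ} (ha : ∀ k, MemLp (a k) 2 μ)
    (hb : ∀ k, MemLp (b k) 2 μ) : ∫ x, (∑ k, a k x * conj (b k x)).re ∂μ =
      (∑ k, inner ℂ ((hb k).toLp (b k)) ((ha k).toLp (a k))).re := by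
  have i := fun k => fried_int (ha k) (fried_conj (hb k))
  have e := reCLM.integral_comp_comm (integrable_finsetSum Finset.univ fun k _ => i k)
  rw [integral_finsetSum _ fun k _ => i k] at e
  simp only [fried_inner (ha _) (hb _)] at e
  exact e

theorem fried_quad {σ : Type} [Fintype σ] {a b : σ → ℕ → X → ℂ} {a' b' : σ → X → ℂ}
    (ha : ∀ k, fried_Cv μ K (a k) (a' k)) (hb : ∀ k, fried_Cv μ K (b k) (b' k))
    {F : ℕ → X → ℝ} {F' : X → ℝ} (hF : ∀ n x, F n x = (∑ k, a k n x * conj (b k n x)).re)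
    (hF' : ∀ x, F' x = (∑ k, a' k x * conj (b' k x)).re) :
    Tendsto (fun n => ∫ x, F n x ∂μ) atTop (𝓝 (∫ x, F' x ∂μ)) := by
  simp only [hF, hF', fried_re (fun k => (ha k).l _) fun k => (hb k).l _,
    fried_re (fun k => (ha k).l') fun k => (hb k).l']
  refine (continuous_re.tendsto _).comp (tendsto_finsetSum _ fun k _ => Tendsto.inner ?_ ?_)
  · exact (Lp.tendsto_Lp_iff_tendsto_eLpNorm'' _ _ _ _).2 (hb k).t
  · exact (Lp.tendsto_Lp_iff_tendsto_eLpNorm'' _ _ _ _).2 (ha k).t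

variable [TopologicalSpace X] {c : X → ℂ}

omit [MeasurableSpace X] in
theorem fried_bd (hc : Continuous c) (hK : IsCompact K) :
    ∃ C : ℝ, ∀ x (u : ℂ), (x ∉ K → u = 0) → ‖c x * u‖ ≤ C * ‖u‖ := by
  obtain ⟨C, hC⟩ := hK.exists_bound_of_continuousOn hc.continuousOn
  refine ⟨C, fun x u hu => ?_⟩
  by_cases hx : x ∈ K
  · rw [norm_mul]
    exact mul_le_mul_of_nonneg_right (hC x hx) (norm_nonneg _)
  · simp [hu hx]

variable [OpensMeasurableSpace X]

theorem fried_mul (hc : Continuous c) (hK : IsCompact K) {u : X → ℂ} (hu : MemLp u 2 μ)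
    (h0 : ∀ x, x ∉ K → u x = 0) : MemLp (fun x => c x * u x) 2 μ := by
  obtain ⟨C, hC⟩ := fried_bd hc hK
  exact hu.of_le_mul (hc.aestronglyMeasurable.mul hu.1)
    (Eventually.of_forall fun x => hC x _ (h0 x))

theorem fried_Cv.mul {a : ℕ → X → ℂ} {a' : X → ℂ} (h : fried_Cv μ K a a') (hK : IsCompact K)
    (hc : Continuous c) : fried_Cv μ K (fun n x => c x * a n x) fun x => c x * a' x := by
  refine ⟨fun n => fried_mul hc hK (h.l n) (h.s n), fried_mul hc hK h.l' h.s',
    fun n x hx => by rw [h.s n x hx, mul_zero], fun x hx => by rw [h.s' x hx, mul_zero], ?_⟩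
  obtain ⟨C, hC⟩ := fried_bd hc hK
  have t := ENNReal.Tendsto.const_mul (a := ENNReal.ofReal C) h.t (Or.inr ENNReal.ofReal_ne_top)
  rw [mul_zero] at t
  refine tendsto_of_tendsto_of_tendsto_of_le_of_le tendsto_const_nhds t (fun _ => zero_le)
    fun n => eLpNorm_le_mul_eLpNorm_of_ae_le_mul (Eventually.of_forall fun x => ?_) 2
  rw [← mul_sub]
  exact hC x _ fun hx => by rw [h.s n x hx, h.s' x hx, sub_zero]

theorem fried_mul' (hc : Continuous c) (hs : HasCompactSupport c) {u : X → ℂ} (hu : MemLp u 2 μ) :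
    MemLp (fun x => c x * u x) 2 μ := by
  obtain ⟨C, hC⟩ := hc.bounded_above_of_compact_support hs
  refine hu.of_le_mul (c := C) (hc.aestronglyMeasurable.mul hu.1) (Eventually.of_forall fun x => ?_)
  rw [norm_mul]
  exact mul_le_mul_of_nonneg_right (hC x) (norm_nonneg _)

end Gen

namespace RD

variable {ι X : Type} [Fintype ι] [DecidableEq ι] [TopologicalSpace X] [T2Space X]
  [SecondCountableTopology X] [MeasurableSpace X] [BorelSpace X] {R : RD ι X}

/-- `∑ dz j (β j) = w` and `db k (β j) - db j (β k) = W j k` in the weak sense, everything is in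
`L²` and vanishes outside `K` -/
structure Weak (R : RD ι X) (K : Set X) (β : ι → X → ℂ) (w : X → ℂ) (W : ι → ι → X → ℂ) :
    Prop where
  lβ : ∀ j, MemLp (β j) 2 R.mu
  lw : MemLp w 2 R.mu
  lW : ∀ j k, MemLp (W j k) 2 R.mu
  sβ : ∀ j x, x ∉ K → β j x = 0
  sw : ∀ x, x ∉ K → w x = 0
  sW : ∀ j k x, x ∉ K → W j k x = 0
  eT : ∀ g, R.Test g → ∫ x, ∑ j, β j x * R.dz j g x ∂(R.mu) = -∫ x, w x * g x ∂(R.mu)
  eS : ∀ g, R.Test g → ∀ j k,
    ∫ x, (β j x * R.db k g x - β k x * R.db j g x) ∂(R.mu) = -∫ x, W j k x * g x ∂(R.mu)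

/-- approximation by test forms in the graph norm -/
def Appr (R : RD ι X) (β : ι → X → ℂ) (w : X → ℂ) (W : ι → ι → X → ℂ) : Prop :=
  ∃ (K' : Set X) (f : ℕ → ι → X → ℂ), IsCompact K' ∧ (∀ n j, R.Test (f n j)) ∧
    (∀ n j, tsupport (f n j) ⊆ K') ∧
    (∀ j, Tendsto (fun n => eLpNorm (fun x => f n j x - β j x) 2 R.mu) atTop (𝓝 0)) ∧
    Tendsto (fun n => eLpNorm (fun x => ∑ j, R.dz j (f n j) x - w x) 2 R.mu) atTop (𝓝 0) ∧
    ∀ j k, Tendsto (fun n => eLpNorm
      (fun x => R.db k (f n j) x - R.db j (f n k) x - W j k x) 2 R.mu) atTop (𝓝 0)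

variable {K : Set X} {β : ι → X → ℂ} {w : X → ℂ} {W : ι → ι → X → ℂ}

/-- multiplication by a test function: test the equations with `ψ * g` -/
theorem Weak.mul (h : R.Weak K β w W) {ψ : X → ℂ} (hψ : R.Test ψ) :
    R.Weak (K ∩ tsupport ψ) (fun j x => ψ x * β j x)
      (fun x => ψ x * w x + ∑ j, R.dz j ψ x * β j x)
      fun j k x => ψ x * W j k x + (R.db k ψ x * β j x - R.db j ψ x * β k x) := by
  have m : ∀ {c u : X → ℂ}, R.Test c → MemLp u 2 R.mu → MemLp (fun x => c x * u x) 2 R.mu :=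
    fun hc hu => fried_mul' hc.1.continuous hc.2 hu
  have z : ∀ x, x ∉ K ∩ tsupport ψ → x ∉ K ∨ x ∉ tsupport ψ := fun x hx => not_and_or.1 hx
  have l2 : MemLp (fun x => ∑ j, R.dz j ψ x * β j x) 2 R.mu :=
    memLp_finsetSum _ fun j _ => m (hψ.dz j) (h.lβ j)
  have l3 : ∀ j k, MemLp (fun x => R.db k ψ x * β j x - R.db j ψ x * β k x) 2 R.mu :=
    fun j k => (m (hψ.db k) (h.lβ j)).sub (m (hψ.db j) (h.lβ k))
  refine ⟨fun j => m hψ (h.lβ j), (m hψ h.lw).add l2, fun j k => (m hψ (h.lW j k)).add (l3 j k),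
    fun j x hx => ?_, fun x hx => ?_, fun j k x hx => ?_, fun g hg => ?_, fun g hg j k => ?_⟩
  · rcases z x hx with a | a
    · rw [h.sβ j x a, mul_zero]
    · rw [image_eq_zero_of_notMem_tsupport a, zero_mul]
  · rcases z x hx with a | a
    · simp [h.sβ _ x a, h.sw x a]
    · simp [image_eq_zero_of_notMem_tsupport a, dz_eq_zero _ a]
  · rcases z x hx with a | a
    · simp [h.sβ _ x a, h.sW _ _ x a]
    · simp [image_eq_zero_of_notMem_tsupport a, db_eq_zero _ a]
  · have e := h.eT _ (hg.mul_left hψ.1)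
    have i1 : Integrable (fun x => ∑ j, ψ x * β j x * R.dz j g x) R.mu :=
      integrable_finsetSum _ fun j _ => fried_int (m hψ (h.lβ j)) (hg.dz j).memLp
    have i2 := fried_int l2 hg.memLp
    have i3 := fried_int (m hψ h.lw) hg.memLp
    have e1 : ∀ x, ∑ j, β j x * R.dz j (fun x => ψ x * g x) x =
        ∑ j, ψ x * β j x * R.dz j g x + (∑ j, R.dz j ψ x * β j x) * g x := fun x => by
      rw [Finset.sum_mul, ← Finset.sum_add_distrib]
      exact Finset.sum_congr rfl fun j _ => by rw [dz_mul j hψ.1 hg.1]; ring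
    have e2 : ∀ x, w x * (ψ x * g x) = ψ x * w x * g x := fun x => by ring
    simp only [e1, e2] at e
    simp only [add_mul]
    rw [integral_add i1 i2] at e
    rw [integral_add i3 i2]
    linear_combination e
  · have e := h.eS _ (hg.mul_left hψ.1) j k
    have i1 : Integrable (fun x => ψ x * β j x * R.db k g x - ψ x * β k x * R.db j g x) R.mu :=
      (fried_int (m hψ (h.lβ j)) (hg.db k).memLp).sub (fried_int (m hψ (h.lβ k)) (hg.db j).memLp)
    have i2 := fried_int (l3 j k) hg.memLp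
    have i3 := fried_int (m hψ (h.lW j k)) hg.memLp
    have e1 : ∀ x, β j x * R.db k (fun x => ψ x * g x) x - β k x * R.db j (fun x => ψ x * g x) x =
        (ψ x * β j x * R.db k g x - ψ x * β k x * R.db j g x) +
          (R.db k ψ x * β j x - R.db j ψ x * β k x) * g x := fun x => by
      rw [db_mul k hψ.1 hg.1, db_mul j hψ.1 hg.1]
      ring
    have e2 : ∀ x, W j k x * (ψ x * g x) = ψ x * W j k x * g x := fun x => by ring
    simp only [e1, e2] at e
    simp only [add_mul]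
    rw [integral_add i1 i2] at e
    rw [integral_add i3 i2]
    linear_combination e

omit [DecidableEq ι] in
theorem fried_transfer (p : X) (u : X → ℂ) (g : (ι → ℂ) → ℂ) :
    ∫ q, R.push p u q * g q = ∫ x, u x * R.pull p g x ∂(R.mu) := by
  rw [← setIntegral_eq_integral_of_forall_compl_eq_zero (s := (R.ch p).source)
    (f := fun x => u x * R.pull p g x) fun x hx => by
      rw [pull, Set.indicator_of_notMem hx, mul_zero], ← integral_push]
  refine integral_congr_ae (Eventually.of_forall fun q => ?_)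
  by_cases hq : q ∈ (R.ch p).target
  · have a : R.sec p q ∈ (R.ch p).source := (R.ch p).map_target hq
    simp only [push, pull, Set.indicator_of_mem hq, Set.indicator_of_mem a, R.π_sec p hq]
  · simp only [push, Set.indicator_of_notMem hq, zero_mul]

omit [Fintype ι] [DecidableEq ι] [T2Space X] [SecondCountableTopology X] [MeasurableSpace X]
  [BorelSpace X] in
theorem fried_push0 (p : X) {u : X → ℂ} (hu : ∀ x, x ∉ K → u x = 0) (q : ι → ℂ)
    (hq : q ∉ R.π '' K) : R.push p u q = 0 := by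
  by_cases h : q ∈ (R.ch p).target
  · rw [push, Set.indicator_of_mem h]
    exact hu _ fun a => hq ⟨_, a, R.π_sec p h⟩
  · rw [push, Set.indicator_of_notMem h]

omit [DecidableEq ι] in
theorem fried_pushL (p : X) {u : X → ℂ} (hu : MemLp u 2 R.mu) : MemLp (R.push p u) 2 volume :=
  ⟨R.aesm_push p hu.1, (R.eLpNorm_push_le p u).trans_lt hu.2⟩

omit [DecidableEq ι] in
theorem fried_lim (p : X) (hp : K ⊆ (R.ch p).source) {u : X → ℂ} (hu : MemLp u 2 R.mu)
    (h0 : ∀ x, x ∉ K → u x = 0) (N : ℕ) {v : ℕ → X → ℂ}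
    (hv : ∀ n x, v n x = R.pull p (moll (n + N) (R.push p u)) x) :
    Tendsto (fun n => eLpNorm (fun x => v n x - u x) 2 R.mu) atTop (𝓝 0) := by
  refine tendsto_of_tendsto_of_tendsto_of_le_of_le tendsto_const_nhds
    ((tendsto_moll (fried_pushL p hu)).comp (tendsto_add_atTop_nat N)) (fun _ => zero_le)
    fun n => le_trans (le_of_eq ?_) (R.eLpNorm_pull_le p _)
  congr 1
  funext x
  rw [hv]
  by_cases hx : x ∈ (R.ch p).source
  · simp only [pull, push, Set.indicator_of_mem hx, Set.indicator_of_mem (R.π_mem_target p hx),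
      R.sec_π p hx]
  · simp only [pull, Set.indicator_of_notMem hx, h0 x fun a => hx (hp a), sub_zero]

/-- In a chart.  `π '' K` is compact in the open target, so `cthickening δ (π '' K)` lies in the
target for small `δ` (`IsCompact.exists_cthickening_subset_open`); shift the index so that
`1 / (n + 1) ≤ δ`.  Put `f n j = pull p (moll n (push p (β j)))`.  For `x` in the thickening... in
fact for every `x`, `∑ fdz j (moll n (push (β j))) x = moll n (push w) x`: by `fdz_moll` this is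
the weak equation tested with `g = pull p (ψ0 * ker n (x - ·))`, where `ψ0` is a flat test function
supported in the target and equal to `1` near `π '' K` (`exists_contMDiff_support_eq`-like or
`exists_contDiff_tsupport_subset`, `exists_smooth_one_nhds_of_subset_interior`), or argue
separately for `x` far from `π '' K`, where both sides vanish, and `x` close to it, where the
support of `ker n (x - ·)` lies in the target.  Use `integral_push`, `eLpNorm_pull_le`,
`tendsto_moll`. -/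
theorem Weak.appr_chart (h : R.Weak K β w W) (hK : IsCompact K) (p : X)
    (hp : K ⊆ (R.ch p).source) : R.Appr β w W := by
  have hK0 : IsCompact (R.π '' K) := hK.image R.continuous_π
  obtain ⟨δ, δ0, hδ⟩ := hK0.exists_cthickening_subset_open (R.ch p).open_target (by
    rintro _ ⟨x, hx, rfl⟩
    exact R.π_mem_target p (hp hx))
  obtain ⟨N, hN⟩ := exists_nat_one_div_lt (half_pos δ0)
  have r0 : ∀ n : ℕ, 0 ≤ 1 / ((n : ℝ) + 1) := fun n => by positivity
  have r1 : ∀ n : ℕ, 1 / (((n + N : ℕ) : ℝ) + 1) ≤ δ / 2 := fun n =>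
    le_trans (Nat.one_div_le_one_div (Nat.le_add_left N n)) hN.le
  have li : ∀ {u : X → ℂ}, MemLp u 2 R.mu → LocallyIntegrable (R.push p u) := fun hu =>
    (fried_pushL p hu).locallyIntegrable one_le_two
  have ft : ∀ n j, FTest (moll (n + N) (R.push p (β j))) := fun n j =>
    fTest_moll (li (h.lβ j)) hK0 (fried_push0 p (h.sβ j)) _
  have sp : ∀ n j, tsupport (moll (n + N) (R.push p (β j))) ⊆ Metric.cthickening δ (R.π '' K) :=
    fun n j => (tsupport_moll (fried_push0 p (h.sβ j)) _).trans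
      (Metric.cthickening_mono ((r1 n).trans (half_le_self δ0.le)) _)
  have kt : ∀ n q, q ∈ Metric.cthickening (1 / (((n + N : ℕ) : ℝ) + 1)) (R.π '' K) →
      tsupport (fun y => ker (n + N) (q - y)) ⊆ (R.ch p).target := fun n q hq =>
    (tsupport_ker _ q).trans ((Metric.closedBall_subset_cthickening hq _).trans
      ((Metric.cthickening_cthickening_subset (r0 _) (r0 _) _).trans
        ((Metric.cthickening_mono (by linarith [r1 n]) _).trans hδ)))
  have far : ∀ {u : X → ℂ}, (∀ x, x ∉ K → u x = 0) → ∀ n q,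
      q ∉ Metric.cthickening (1 / (((n + N : ℕ) : ℝ) + 1)) (R.π '' K) →
      moll (n + N) (R.push p u) =ᶠ[𝓝 q] fun _ => 0 := fun hu n q hq =>
    notMem_tsupport_iff_eventuallyEq.1 fun a => hq (tsupport_moll (fried_push0 p hu) _ a)
  have eT : ∀ n q, ∑ j, fdz j (moll (n + N) (R.push p (β j))) q = moll (n + N) (R.push p w) q := by
    intro n q
    by_cases hq : q ∈ Metric.cthickening (1 / (((n + N : ℕ) : ℝ) + 1)) (R.π '' K)
    · have t := (test_pull p (fTest_ker (n + N) q) (kt n q hq)).1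
      have e := h.eT _ t
      rw [integral_finsetSum _ fun j _ => fried_int (h.lβ j) (t.dz j).memLp] at e
      simp only [fdz_moll (li (h.lβ _)), fried_transfer,
        ← dz_pull p (fTest_ker (n + N) q) (kt n q hq)]
      rw [Finset.sum_neg_distrib, e, neg_neg, moll, fried_transfer]
    · rw [(far h.sw n q hq).eq_of_nhds]
      exact Finset.sum_eq_zero fun j _ =>
        (fdz_congr j (far (h.sβ j) n q hq)).trans (calc_fdz_const j 0 q)
  have eS : ∀ n q j k, fdb k (moll (n + N) (R.push p (β j))) q -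
      fdb j (moll (n + N) (R.push p (β k))) q = moll (n + N) (R.push p (W j k)) q := by
    intro n q j k
    by_cases hq : q ∈ Metric.cthickening (1 / (((n + N : ℕ) : ℝ) + 1)) (R.π '' K)
    · have t := (test_pull p (fTest_ker (n + N) q) (kt n q hq)).1
      have e := h.eS _ t j k
      rw [integral_sub (fried_int (h.lβ j) (t.db k).memLp) (fried_int (h.lβ k) (t.db j).memLp)] at e
      simp only [fdb_moll (li (h.lβ _)), fried_transfer,
        ← db_pull p (fTest_ker (n + N) q) (kt n q hq)]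
      rw [moll, fried_transfer]
      linear_combination -e
    · rw [(far (h.sW j k) n q hq).eq_of_nhds, fdb_congr k (far (h.sβ j) n q hq),
        fdb_congr j (far (h.sβ k) n q hq), calc_fdb_const, calc_fdb_const, sub_zero]
  refine ⟨R.sec p '' Metric.cthickening δ (R.π '' K),
    fun n j => R.pull p (moll (n + N) (R.push p (β j))),
    hK0.cthickening.image_of_continuousOn ((R.ch p).continuousOn_symm.mono hδ),
    fun n j => (test_pull p (ft n j) ((sp n j).trans hδ)).1,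
    fun n j => (test_pull p (ft n j) ((sp n j).trans hδ)).2.trans (Set.image_mono (sp n j)),
    fun j => fried_lim p hp (h.lβ j) (h.sβ j) N fun _ _ => rfl,
    fried_lim p hp h.lw h.sw N fun n x => ?_,
    fun j k => fried_lim p hp (h.lW j k) (h.sW j k) N fun n x => ?_⟩
  · simp only [dz_pull p (ft n _) ((sp n _).trans hδ)]
    by_cases hx : x ∈ (R.ch p).source
    · simp only [pull, Set.indicator_of_mem hx, eT]
    · simp only [pull, Set.indicator_of_notMem hx, Finset.sum_const_zero]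
  · simp only [db_pull p (ft n _) ((sp n _).trans hδ)]
    by_cases hx : x ∈ (R.ch p).source
    · simp only [pull, Set.indicator_of_mem hx, eS]
    · simp only [pull, Set.indicator_of_notMem hx, sub_zero]

/-- `exists_partition`, `Weak.mul`, `Weak.appr_chart`, and add up: on `K` the `ψ i` sum to `1` and
their derivatives sum to `0` -/
theorem Weak.appr (h : R.Weak K β w W) (hK : IsCompact K) : R.Appr β w W := by
  obtain ⟨m, p, ψ, hψ, hs, h1⟩ := R.exists_partition hK
  have hw := fun i => h.mul (hψ i)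
  choose K' f c t s a1 a2 a3 using fun i => (hw i).appr_chart
    (hK.inter_right (isClosed_tsupport _)) (p i) (Set.inter_subset_right.trans (hs i))
  have cK : IsCompact (⋃ i, K' i) := isCompact_iUnion c
  have o : ∀ {u : X → ℂ}, (∀ x, x ∉ K → u x = 0) → ∀ x, ∑ i, ψ i x * u x = u x := by
    intro u hu x
    by_cases hx : x ∈ K
    · rw [← Finset.sum_mul, (h1 x hx).self_of_nhds, one_mul]
    · simp [hu x hx]
  have oz : ∀ j k x, ∑ i, R.dz j (ψ i) x * β k x = 0 := by
    intro j k x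
    by_cases hx : x ∈ K
    · rw [← Finset.sum_mul, ← dz_sum j _ fun i _ => (hψ i).1, dz_congr j (h1 x hx), dz_const,
        zero_mul]
    · simp [h.sβ k x hx]
  have ob : ∀ j k x, ∑ i, R.db j (ψ i) x * β k x = 0 := by
    intro j k x
    by_cases hx : x ∈ K
    · rw [← Finset.sum_mul, ← db_sum j _ fun i _ => (hψ i).1, db_congr j (h1 x hx), db_const,
        zero_mul]
    · simp [h.sβ k x hx]
  refine ⟨⋃ i, K' i, fun n j x => ∑ i, f i n j x, cK, fun n j => Test.sum _ fun i _ => t i n j,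
    fun n j => closure_minimal (fun x hx => ?_) cK.isClosed,
    fun j => fried_sum Finset.univ (fun i n => ((t i n j).memLp.sub ((hw i).lβ j)).1)
      (fun i => a1 i j) fun n x => ?_,
    fried_sum Finset.univ (fun i n => ((memLp_finsetSum _ fun j _ =>
      ((t i n j).dz j).memLp).sub (hw i).lw).1) a2 fun n x => ?_,
    fun j k => fried_sum Finset.univ (fun i n => ((((t i n j).db k).memLp.sub
      ((t i n k).db j).memLp).sub ((hw i).lW j k)).1) (fun i => a3 i j k) fun n x => ?_⟩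
  · obtain ⟨i, -, hi⟩ := Finset.exists_ne_zero_of_sum_ne_zero hx
    exact Set.mem_iUnion.2 ⟨i, s i n j (subset_tsupport _ hi)⟩
  · simp only [Pi.sub_apply, Finset.sum_sub_distrib, o (h.sβ j)]
  · simp only [dz_sum _ _ fun i _ => (t i n _).1, Pi.sub_apply]
    rw [Finset.sum_sub_distrib, Finset.sum_add_distrib, o h.sw, Finset.sum_comm,
      Finset.sum_comm (f := fun i j => R.dz j (ψ i) x * β j x)]
    simp only [oz, Finset.sum_const_zero, add_zero]
  · simp only [db_sum _ _ fun i _ => (t i n _).1, Finset.sum_sub_distrib, Finset.sum_add_distrib,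
      Pi.sub_apply, o (h.sW j k), ob, sub_zero, add_zero]

/-- Pass to the limit in `bkm`.  All coefficients are bounded on `K ∪ K'`; the three integrals are
continuous quadratic forms in `L²` (for instance `|Q a - Q b| ≤ C ‖a - b‖ (‖a‖ + ‖b‖)`; or take a
subsequence converging almost everywhere and dominated). -/
theorem Weak.bkm (h : R.Weak K β w W) (hK : IsCompact K) {φ : X → ℝ} (hφ : R.SmR φ) :
    ∫ x, R.levi φ x (fun j => β j x) * Real.exp (-φ x) ∂(R.mu) ≤
      ∫ x, ‖w x - ∑ j, R.dz j (fun x => (φ x : ℂ)) x * β j x‖ ^ 2 * Real.exp (-φ x) ∂(R.mu) +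
        ∫ x, (1 / 2 * ∑ j, ∑ k, ‖W j k x‖ ^ 2) * Real.exp (-φ x) ∂(R.mu) := by
  obtain ⟨K', f, c, t, s, a1, a2, a3⟩ := h.appr hK
  have cK : IsCompact (K ∪ K') := hK.union c
  have n1 : ∀ x, x ∉ K ∪ K' → x ∉ K := fun x hx a => hx (Or.inl a)
  have n2 : ∀ n j x, x ∉ K ∪ K' → x ∉ tsupport (f n j) := fun n j x hx a => hx (Or.inr (s n j a))
  have cβ : ∀ j, fried_Cv R.mu (K ∪ K') (fun n => f n j) (β j) := fun j =>
    ⟨fun n => (t n j).memLp, h.lβ j, fun n x hx => image_eq_zero_of_notMem_tsupport (n2 n j x hx),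
      fun x hx => h.sβ j x (n1 x hx), a1 j⟩
  have cw : fried_Cv R.mu (K ∪ K') (fun n x => ∑ j, R.dz j (f n j) x) w :=
    ⟨fun n => memLp_finsetSum _ fun j _ => ((t n j).dz j).memLp, h.lw,
      fun n x hx => Finset.sum_eq_zero fun j _ => dz_eq_zero j (n2 n j x hx),
      fun x hx => h.sw x (n1 x hx), a2⟩
  have cW : ∀ j k, fried_Cv R.mu (K ∪ K') (fun n x => R.db k (f n j) x - R.db j (f n k) x)
      (W j k) := fun j k =>
    ⟨fun n => ((t n j).db k).memLp.sub ((t n k).db j).memLp, h.lW j k,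
      fun n x hx => by rw [db_eq_zero k (n2 n j x hx), db_eq_zero j (n2 n k x hx), sub_zero],
      fun x hx => h.sW j k x (n1 x hx), a3 j k⟩
  have ce : Continuous fun x => (Real.exp (-φ x) : ℂ) :=
    continuous_ofReal.comp (Real.continuous_exp.comp hφ.continuous.neg)
  have cD := cw.sub (fried_Cv.sum fun j => (cβ j).mul cK (Sm.dz hφ j).continuous)
  have sq : ∀ (r : ℝ) (z : ℂ), ((r : ℂ) * z * conj z).re = ‖z‖ ^ 2 * r := fun r z => by
    rw [mul_assoc, mul_conj', re_ofReal_mul, ← ofReal_pow, ofReal_re, mul_comm]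
  have lv : ∀ x (ξ : ι → ℂ), R.levi φ x ξ * Real.exp (-φ x) = (∑ k, (Real.exp (-φ x) : ℂ) *
      (∑ j, R.dz j (R.db k fun x => (φ x : ℂ)) x * ξ j) * conj (ξ k)).re := fun x ξ => by
    rw [levi, Finset.sum_comm, mul_comm, ← re_ofReal_mul, Finset.mul_sum]
    simp only [mul_assoc, Finset.sum_mul]
  have hf : ∀ x (V : ι → ι → ℂ), (1 / 2 * ∑ j, ∑ k, ‖V j k‖ ^ 2) * Real.exp (-φ x) =
      (∑ i : ι × ι, ((Real.exp (-φ x) / 2 : ℝ) : ℂ) * V i.1 i.2 * conj (V i.1 i.2)).re :=
    fun x V => by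
      rw [re_sum, Fintype.sum_prod_type]
      simp only [sq, ← Finset.sum_mul]
      ring
  have T1 := fried_quad (F := fun n x => R.levi φ x (fun j => f n j x) * Real.exp (-φ x))
    (F' := fun x => R.levi φ x (fun j => β j x) * Real.exp (-φ x))
    (fun k => (fried_Cv.sum fun j => (cβ j).mul cK ((Sm.db hφ k).dz j).continuous).mul cK ce) cβ
    (fun n x => lv x _) fun x => lv x _
  have T2 := fried_quad (σ := Unit) (F := fun n x => ‖R.del φ (f n) x‖ ^ 2 * Real.exp (-φ x))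
    (F' := fun x => ‖w x - ∑ j, R.dz j (fun x => (φ x : ℂ)) x * β j x‖ ^ 2 * Real.exp (-φ x))
    (fun _ => cD.mul cK ce) (fun _ => cD)
    (fun n x => by rw [Fintype.sum_unique (ι := Unit), sq, del, Finset.sum_sub_distrib])
    fun x => by rw [Fintype.sum_unique (ι := Unit), sq]
  have T3 := fried_quad (σ := ι × ι) (F := fun n x =>
      (1 / 2 * ∑ j, ∑ k, ‖R.db k (f n j) x - R.db j (f n k) x‖ ^ 2) * Real.exp (-φ x))
    (F' := fun x => (1 / 2 * ∑ j, ∑ k, ‖W j k x‖ ^ 2) * Real.exp (-φ x))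
    (fun i => (cW i.1 i.2).mul cK (c := fun x => ((Real.exp (-φ x) / 2 : ℝ) : ℂ))
      (continuous_ofReal.comp ((Real.continuous_exp.comp hφ.continuous.neg).div_const 2)))
    (fun i => cW i.1 i.2)
    (fun n x => hf x fun j k => R.db k (f n j) x - R.db j (f n k) x) fun x => hf x fun j k => W j k x
  exact le_of_tendsto_of_tendsto' T1 (T2.add T3) fun n => RD.bkm hφ (t n)

end RD

end Pool.Agent.MP_c0606f_ag.Klt

end

-- part MP_c0606f_ag.Klt.Apriori
section

/-! The a priori estimate on a Riemann domain with a plurisubharmonic exhaustion. -/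

namespace Pool.Agent.MP_c0606f_ag.Klt

open MeasureTheory Complex Filter Topology
open scoped ENNReal ContDiff ComplexConjugate

namespace RD

variable {ι X : Type} [Fintype ι] [DecidableEq ι] [TopologicalSpace X] [T2Space X]
  [SecondCountableTopology X] [MeasurableSpace X] [BorelSpace X] {R : RD ι X}

/-- weakly closed square integrable forms -/
structure Closed (R : RD ι X) (ψ : X → ℝ) (β : ι → X → ℂ) : Prop where
  meas : ∀ j, AEStronglyMeasurable (β j) R.mu
  fin : ∀ j, ∫⁻ x, ENNReal.ofReal (‖β j x‖ ^ 2 * Real.exp (-ψ x)) ∂(R.mu) < ⊤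
  eS : ∀ g, R.Test g → ∀ j k, ∫ x, (β j x * R.db k g x - β k x * R.db j g x) ∂(R.mu) = 0

omit [DecidableEq ι] [T2Space X] [SecondCountableTopology X] [MeasurableSpace X] [BorelSpace X] in
theorem apriori_exp {ψ : X → ℝ} (hψ : R.SmR ψ) : R.SmR fun x => Real.exp (ψ x) :=
  hψ.comp fun _ => Real.contDiff_exp.contDiffAt

omit [DecidableEq ι] [T2Space X] [SecondCountableTopology X] [MeasurableSpace X] [BorelSpace X] in
theorem apriori_cont {ψ : X → ℝ} (hψ : R.SmR ψ) : Continuous fun x => Real.exp (-ψ x) :=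
  Real.continuous_exp.comp hψ.continuous.neg

theorem Closed.apriori_int {ψ : X → ℝ} (hψ : R.SmR ψ) {β : ι → X → ℂ} (hβ : R.Closed ψ β)
    {g : X → ℂ} (hg : R.Test g) (j : ι) :
    Integrable (fun x => β j x * g x) R.mu ∧ MemLp (fun x => β j x * g x) 2 R.mu :=
  ⟨hg.integrable_mul (hβ.meas j) (apriori_cont hψ) (fun _ => Real.exp_pos _) (hβ.fin j),
    hg.memLp_mul (hβ.meas j) (apriori_cont hψ) (fun _ => Real.exp_pos _) (hβ.fin j)⟩

/-- Cutting off by a test function `η`; for the first equation test with `η * g * exp ψ`. -/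
theorem Closed.weak {ψ : X → ℝ} (hψ : R.SmR ψ) {β : ι → X → ℂ} (hβ : R.Closed ψ β) {h : X → ℂ}
    (hh : R.Test h) (hT : ∀ g, R.Test g →
      ∫ x, (∑ j, β j x * R.dz j g x) * (Real.exp (-ψ x) : ℝ) ∂(R.mu) =
        -∫ x, h x * g x * (Real.exp (-ψ x) : ℝ) ∂(R.mu)) {η : X → ℂ} (hη : R.Test η) :
    R.Weak (tsupport η) (fun j x => η x * β j x)
      (fun x => η x * h x + ∑ j, R.dz j η x * β j x +
        ∑ j, R.dz j (fun x => (ψ x : ℂ)) x * (η x * β j x))
      fun j k x => R.db k η x * β j x - R.db j η x * β k x := by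
  have hI : ∀ g, R.Test g → ∀ j, Integrable (fun x => β j x * g x) R.mu :=
    fun g hg j => (hβ.apriori_int hψ hg j).1
  have hM : ∀ g, R.Test g → ∀ j, MemLp (fun x => g x * β j x) 2 R.mu :=
    fun g hg j => by simpa only [mul_comm] using (hβ.apriori_int hψ hg j).2
  have h0 : ∀ x, x ∉ tsupport η → η x = 0 := fun x hx => image_eq_zero_of_notMem_tsupport hx
  refine ⟨hM η hη, ?_, fun j k => (hM _ (hη.db k) j).sub (hM _ (hη.db j) k),
    fun j x hx => by rw [h0 x hx, zero_mul], fun x hx => ?_, fun j k x hx => ?_,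
    fun g hg => ?_, fun g hg j k => ?_⟩
  · refine ((hη.mul_right hh.1).memLp.add
      (memLp_finsetSum _ fun j _ => hM _ (hη.dz j) j)).add (memLp_finsetSum _ fun j _ => ?_)
    simpa only [mul_assoc] using hM _ (hη.mul_left (Sm.dz hψ j)) j
  · simp [h0 x hx, dz_eq_zero _ hx]
  · simp [db_eq_zero _ hx]
  · have hG := (hη.mul_right hg.1).mul_right (apriori_exp hψ)
    have h1 := hT _ hG
    have ia : Integrable (fun x => ∑ j, η x * β j x * R.dz j g x) R.mu :=
      integrable_finsetSum _ fun j _ => by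
        simpa only [mul_left_comm, mul_assoc] using hI _ (hη.mul_right (hg.1.dz j)) j
    have ib : Integrable (fun x => ∑ j, (β j x * (R.dz j η x * g x) +
        β j x * (R.dz j (fun x => (ψ x : ℂ)) x * η x * g x))) R.mu :=
      integrable_finsetSum _ fun j _ => (hI _ ((hη.dz j).mul_right hg.1) j).add
        (hI _ ((hη.mul_left (Sm.dz hψ j)).mul_right hg.1) j)
    have ic : Integrable (fun x => η x * h x * g x) R.mu :=
      ((hη.mul_right hh.1).mul_right hg.1).integrable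
    have he : ∀ x, ((Real.exp (ψ x) : ℝ) : ℂ) * (Real.exp (-ψ x) : ℝ) = 1 := fun x => by
      rw [← ofReal_mul, ← Real.exp_add, add_neg_cancel, Real.exp_zero, ofReal_one]
    have e1 : ∀ x, (∑ j, β j x * R.dz j (fun x => η x * g x * (Real.exp (ψ x) : ℝ)) x) *
        (Real.exp (-ψ x) : ℝ) = ∑ j, η x * β j x * R.dz j g x +
          ∑ j, (β j x * (R.dz j η x * g x) +
            β j x * (R.dz j (fun x => (ψ x : ℂ)) x * η x * g x)) := fun x => by
      rw [Finset.sum_mul, ← Finset.sum_add_distrib]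
      refine Finset.sum_congr rfl fun j _ => ?_
      rw [dz_mul j (hη.1.mul hg.1) (apriori_exp hψ), dz_mul j hη.1 hg.1,
        dz_comp j hψ (γ := Real.exp) Real.differentiableAt_exp, Real.deriv_exp]
      linear_combination (β j x * (R.dz j η x * g x + η x * R.dz j g x +
        η x * g x * R.dz j (fun x => (ψ x : ℂ)) x)) * he x
    have e2 : ∀ x, h x * (η x * g x * (Real.exp (ψ x) : ℝ)) * (Real.exp (-ψ x) : ℝ) =
        η x * h x * g x := fun x => by linear_combination (η x * h x * g x) * he x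
    have e3 : ∀ x, (η x * h x + ∑ j, R.dz j η x * β j x +
        ∑ j, R.dz j (fun x => (ψ x : ℂ)) x * (η x * β j x)) * g x = η x * h x * g x +
          ∑ j, (β j x * (R.dz j η x * g x) +
            β j x * (R.dz j (fun x => (ψ x : ℂ)) x * η x * g x)) := fun x => by
      rw [add_assoc, add_mul, ← Finset.sum_add_distrib, Finset.sum_mul]
      congr 1
      exact Finset.sum_congr rfl fun j _ => by ring
    simp only [e1, e2] at h1
    simp only [e3]
    rw [integral_add ia ib] at h1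
    rw [integral_add ic ib]
    linear_combination h1
  · have h1 := hβ.eS _ (hη.mul_right hg.1) j k
    have ia : Integrable (fun x => η x * β j x * R.db k g x - η x * β k x * R.db j g x) R.mu := by
      simpa only [mul_left_comm, mul_assoc] using
        (hI _ (hη.mul_right (hg.1.db k)) j).sub' (hI _ (hη.mul_right (hg.1.db j)) k)
    have ib : Integrable (fun x => (R.db k η x * β j x - R.db j η x * β k x) * g x) R.mu := by
      simpa only [sub_mul, mul_left_comm, mul_assoc] using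
        (hI _ ((hη.db k).mul_right hg.1) j).sub' (hI _ ((hη.db j).mul_right hg.1) k)
    rw [eq_neg_iff_add_eq_zero, ← integral_add ia ib, ← h1]
    congr 1
    funext x
    rw [db_mul k hη.1 hg.1, db_mul j hη.1 hg.1]
    ring

omit [T2Space X] [SecondCountableTopology X] [MeasurableSpace X] [BorelSpace X] in
/-- The multiplier `B = χ ρ * (1 / 2) * log (1 + ∑ |dz j ρ|^2)` with `χ = 0` on `(-∞, s + 2]` and
`χ = 1` on `[s + 3, ∞)` (`exists_step`), and a monotone bound `g` for `∑ |dz j B|^2` on the compact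
sets `ρ ≤ t`. -/
theorem Exh.exists_mult {ρ : X → ℝ} (hρ : R.Exh ρ) (s : ℝ) : ∃ (B : X → ℝ) (g : ℝ → ℝ),
    R.SmR B ∧ (∀ x, 0 ≤ B x) ∧ (∀ x, ρ x < s + 2 → B =ᶠ[𝓝 x] fun _ => 0) ∧
    (∀ x, ρ x ≤ s + 2 → B x = 0) ∧
    (∀ x, s + 3 ≤ ρ x → Real.exp (-B x) ^ 2 * ∑ j, ‖R.dz j (fun x => (ρ x : ℂ)) x‖ ^ 2 ≤ 1) ∧
    Monotone g ∧ ∀ x, ∑ j, ‖R.dz j (fun x => (B x : ℂ)) x‖ ^ 2 ≤ g (ρ x) := by
  obtain ⟨χ, C, hχ, h1, h0, hb, -⟩ := exists_step (show s + 2 < s + 3 by linarith)
  have hS : R.SmR fun x => ∑ j, ‖R.dz j (fun x => (ρ x : ℂ)) x‖ ^ 2 :=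
    SmR.sum _ fun j _ => (Sm.dz hρ.sm j).normSq
  have hS0 : ∀ x, 0 ≤ ∑ j, ‖R.dz j (fun x => (ρ x : ℂ)) x‖ ^ 2 := fun x => by positivity
  obtain ⟨B, hBd⟩ : ∃ B : X → ℝ, B = fun x =>
    (1 - χ (ρ x)) / 2 * Real.log (1 + ∑ j, ‖R.dz j (fun x => (ρ x : ℂ)) x‖ ^ 2) := ⟨_, rfl⟩
  have hB : R.SmR B := by
    rw [hBd]
    refine SmR.mul (hρ.sm.comp (γ := fun t => (1 - χ t) / 2) fun x => ?_)
      (hS.comp (γ := fun t => Real.log (1 + t)) fun x => ?_)
    · exact ((contDiff_const.sub hχ).div_const 2).contDiffAt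
    · exact (contDiffAt_const.add contDiffAt_id).log (add_pos_of_pos_of_nonneg one_pos (hS0 x)).ne'
  have hz : ∀ x, ρ x ≤ s + 2 → B x = 0 := fun x hx => by simp [hBd, h1 _ hx]
  have hF : Continuous fun x => ∑ j, ‖R.dz j (fun x => (B x : ℂ)) x‖ ^ 2 :=
    (SmR.sum _ fun j _ => (Sm.dz hB j).normSq).continuous
  have hbd : ∀ t, BddAbove (insert 0
      ((fun x => ∑ j, ‖R.dz j (fun x => (B x : ℂ)) x‖ ^ 2) '' {x | ρ x ≤ t})) :=
    fun t => ((hρ.cpt t).bddAbove_image hF.continuousOn).insert 0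
  refine ⟨B, fun t => sSup (insert 0
      ((fun x => ∑ j, ‖R.dz j (fun x => (B x : ℂ)) x‖ ^ 2) '' {x | ρ x ≤ t})), hB, fun x => ?_,
    fun x hx => ?_, hz, fun x hx => ?_, fun t t' ht => ?_, fun x => ?_⟩
  · rw [hBd]
    exact mul_nonneg (by linarith [(hb (ρ x)).2]) (Real.log_nonneg (by linarith [hS0 x]))
  · filter_upwards [hρ.sm.continuous.continuousAt.eventually_lt continuousAt_const hx] with y hy
    exact hz y hy.le
  · have h2 : 0 < 1 + ∑ j, ‖R.dz j (fun x => (ρ x : ℂ)) x‖ ^ 2 := by linarith [hS0 x]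
    have h3 : Real.exp (-B x) ^ 2 = (1 + ∑ j, ‖R.dz j (fun x => (ρ x : ℂ)) x‖ ^ 2)⁻¹ := by
      rw [← Real.exp_log (inv_pos.2 h2), Real.log_inv, ← Real.exp_nat_mul, hBd]
      simp only [h0 _ hx]
      congr 1
      push_cast
      ring
    rw [h3, inv_mul_le_iff₀ h2]
    linarith
  · exact csSup_le_csSup (hbd t') (Set.insert_nonempty _ _)
      (Set.insert_subset_insert (Set.image_mono fun x (hx : ρ x ≤ t) => hx.trans ht))
  · exact le_csSup (hbd _) (Or.inr ⟨x, le_refl (ρ x), rfl⟩)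

omit [Fintype ι] [DecidableEq ι] [T2Space X] [SecondCountableTopology X] in
theorem apriori_memLp {μ : Measure X} {u c : X → ℂ} (hu : MemLp u 2 μ) {K : Set X}
    (hK : IsCompact K) (h0 : ∀ x, x ∉ K → u x = 0) (hc : Continuous c) :
    MemLp (fun x => c x * u x) 2 μ := by
  obtain ⟨M, hM⟩ := hK.exists_bound_of_continuousOn hc.continuousOn
  refine hu.of_le_mul (c := M) (hc.aestronglyMeasurable.mul hu.1) (.of_forall fun x => ?_)
  by_cases hx : x ∈ K
  · rw [norm_mul]
    exact mul_le_mul_of_nonneg_right (hM x hx) (norm_nonneg _)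
  · simp [h0 x hx]

omit [Fintype ι] [DecidableEq ι] [T2Space X] [SecondCountableTopology X] in
theorem apriori_int2 {μ : Measure X} {u v c : X → ℂ} (hu : MemLp u 2 μ) (hv : MemLp v 2 μ)
    {K : Set X} (hK : IsCompact K) (h0 : ∀ x, x ∉ K → u x = 0) (hc : Continuous c) :
    Integrable (fun x => (c x * u x * conj (v x)).re) μ :=
  ((apriori_memLp hu hK h0 hc).integrable_mul hv.star).re

omit [Fintype ι] [DecidableEq ι] [T2Space X] [SecondCountableTopology X] in
theorem apriori_int1 {μ : Measure X} {u : X → ℂ} {e : X → ℝ} (hu : MemLp u 2 μ)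
    {K : Set X} (hK : IsCompact K) (h0 : ∀ x, x ∉ K → u x = 0) (he : Continuous e) :
    Integrable (fun x => ‖u x‖ ^ 2 * e x) μ := by
  refine (apriori_int2 hu hu hK h0 (continuous_ofReal.comp he)).congr (.of_forall fun x => ?_)
  simp only [Function.comp_apply]
  rw [mul_assoc, mul_conj, re_ofReal_mul, ofReal_re, normSq_eq_norm_sq, mul_comm]

omit [T2Space X] [SecondCountableTopology X] in
theorem Weak.apriori_int {K : Set X} {β : ι → X → ℂ} {w : X → ℂ} {W : ι → ι → X → ℂ}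
    (h : R.Weak K β w W) (hK : IsCompact K) {φ : X → ℝ} (hφ : R.SmR φ) :
    Integrable (fun x => R.levi φ x (fun j => β j x) * Real.exp (-φ x)) R.mu ∧
    Integrable (fun x => ‖w x - ∑ j, R.dz j (fun x => (φ x : ℂ)) x * β j x‖ ^ 2 *
      Real.exp (-φ x)) R.mu ∧
    Integrable (fun x => (1 / 2 * ∑ j, ∑ k, ‖W j k x‖ ^ 2) * Real.exp (-φ x)) R.mu := by
  have he := apriori_cont hφ
  refine ⟨?_, apriori_int1 (h.lw.sub (memLp_finsetSum _ fun j _ =>
    apriori_memLp (h.lβ j) hK (h.sβ j) (Sm.dz hφ j).continuous)) hK (fun x hx => ?_) he, ?_⟩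
  · refine (integrable_finsetSum Finset.univ fun j _ => integrable_finsetSum Finset.univ
      fun k _ => apriori_int2 (h.lβ j) (h.lβ k) hK (h.sβ j) ((continuous_ofReal.comp he).mul
        ((Sm.db hφ k).dz j).continuous)).congr (.of_forall fun x => ?_)
    simp only [levi, re_sum, Finset.sum_mul, Function.comp_apply, Pi.mul_apply, mul_assoc,
      re_ofReal_mul]
    simp only [mul_comm]
  · simp [h.sw x hx, fun j => h.sβ j x hx]
  · refine ((integrable_finsetSum Finset.univ fun j _ => integrable_finsetSum Finset.univ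
      fun k _ => apriori_int1 (h.lW j k) hK (h.sW j k) he).const_mul (1 / 2)).congr
        (.of_forall fun x => ?_)
    simp only [mul_assoc, Finset.sum_mul]

omit [Fintype ι] [DecidableEq ι] [TopologicalSpace X] [T2Space X] [SecondCountableTopology X]
  [BorelSpace X] in
theorem apriori_abs {μ : Measure X} {f1 f2 f3 f4 f5 L : X → ℝ} {O : Set X} (hO : MeasurableSet O)
    (i1 : Integrable f1 μ) (i2 : Integrable f2 μ) (i3 : Integrable f3 μ) (i4 : Integrable f4 μ)
    (i5 : Integrable f5 μ) (hb : ∫ x, f1 x ∂μ ≤ ∫ x, f2 x ∂μ + ∫ x, f3 x ∂μ) (h0 : ∀ x, 0 ≤ L x)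
    (key : ∀ x, O.indicator L x ≤ f1 x - f2 x - f3 x + f4 x + f5 x) :
    ∫⁻ x in O, ENNReal.ofReal (L x) ∂μ ≤ ENNReal.ofReal (∫ x, f4 x ∂μ + ∫ x, f5 x ∂μ) := by
  have j1 := (i1.sub' i2).sub' i3
  have j2 : Integrable (fun x => f1 x - f2 x - f3 x + f4 x) μ := j1.add i4
  have j3 : Integrable (fun x => f1 x - f2 x - f3 x + f4 x + f5 x) μ := j2.add i5
  rw [← lintegral_indicator hO]
  refine le_trans (lintegral_mono fun x => ?_) ((ofReal_integral_eq_lintegral_ofReal j3
    (.of_forall fun x => (Set.indicator_nonneg (fun x _ => h0 x) x).trans (key x))).ge.trans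
      (ENNReal.ofReal_le_ofReal ?_))
  · refine le_trans (le_of_eq ?_) (ENNReal.ofReal_le_ofReal (key x))
    by_cases hx : x ∈ O
    · rw [Set.indicator_of_mem hx, Set.indicator_of_mem hx]
    · rw [Set.indicator_of_notMem hx, Set.indicator_of_notMem hx, ENNReal.ofReal_zero]
  · rw [integral_add j2 i5, integral_add j1 i4, integral_sub (i1.sub' i2) i3, integral_sub i1 i2]
    linarith

omit [DecidableEq ι] in
theorem apriori_cs (a b : ι → ℂ) :
    ‖∑ j, a j * b j‖ ^ 2 + 1 / 2 * ∑ j, ∑ k, ‖conj (a k) * b j - conj (a j) * b k‖ ^ 2 ≤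
      3 * ((∑ j, ‖a j‖ ^ 2) * ∑ j, ‖b j‖ ^ 2) := by
  have h1 : ‖∑ j, a j * b j‖ ^ 2 ≤ (∑ j, ‖a j‖ ^ 2) * ∑ j, ‖b j‖ ^ 2 := by
    refine le_trans ?_ (Finset.sum_mul_sq_le_sq_mul_sq _ _ _)
    refine pow_le_pow_left₀ (norm_nonneg _) ((norm_sum_le _ _).trans (le_of_eq ?_)) 2
    simp only [norm_mul]
  have h2 : ∑ j, ∑ k, ‖conj (a k) * b j - conj (a j) * b k‖ ^ 2 ≤
      ∑ j, ∑ k, (2 * (‖b j‖ ^ 2 * ‖a k‖ ^ 2) + 2 * (‖a j‖ ^ 2 * ‖b k‖ ^ 2)) := by
    refine Finset.sum_le_sum fun j _ => Finset.sum_le_sum fun k _ => ?_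
    refine (pow_le_pow_left₀ (norm_nonneg _) (norm_sub_le _ _) 2).trans ?_
    simp only [norm_mul, RCLike.norm_conj]
    nlinarith [sq_nonneg (‖a k‖ * ‖b j‖ - ‖a j‖ * ‖b k‖)]
  simp only [Finset.sum_add_distrib, ← Finset.mul_sum, ← Finset.sum_mul] at h2
  linarith

omit [SecondCountableTopology X] [MeasurableSpace X] [BorelSpace X] in
theorem apriori_cut {ρ B : X → ℝ} (hρ : R.Exh ρ) (hB : R.SmR B) {χ : ℝ → ℝ}
    (hχ : ContDiff ℝ ∞ χ) (h0 : ∀ t, 1 ≤ t → χ t = 0) (ν : ℝ) :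
    R.Test (fun x => ((χ (ρ x - ν) * Real.exp (-B x) : ℝ) : ℂ)) ∧ ∀ x,
      ∑ j, ‖R.dz j (fun x => ((χ (ρ x - ν) * Real.exp (-B x) : ℝ) : ℂ)) x‖ ^ 2 ≤
        2 * deriv χ (ρ x - ν) ^ 2 *
          (Real.exp (-B x) ^ 2 * ∑ j, ‖R.dz j (fun x => (ρ x : ℂ)) x‖ ^ 2) +
        2 * (χ (ρ x - ν) * Real.exp (-B x)) ^ 2 * ∑ j, ‖R.dz j (fun x => (B x : ℂ)) x‖ ^ 2 := by
  have c1 : ContDiff ℝ ∞ fun t => χ (t - ν) := hχ.comp (contDiff_id.sub contDiff_const)
  have c2 : ContDiff ℝ ∞ fun t => Real.exp (-t) := Real.contDiff_exp.comp contDiff_neg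
  have s1 : R.SmR fun x => χ (ρ x - ν) := hρ.sm.comp fun _ => c1.contDiffAt
  have s2 : R.SmR fun x => Real.exp (-B x) := hB.comp fun _ => c2.contDiffAt
  refine ⟨⟨s1.mul s2, HasCompactSupport.intro (hρ.cpt (ν + 1)) fun x hx => ?_⟩, fun x => ?_⟩
  · have : ν + 1 < ρ x := not_le.1 hx
    rw [h0 _ (by linarith), zero_mul, ofReal_zero]
  · simp only [Finset.mul_sum, ← Finset.sum_add_distrib]
    refine Finset.sum_le_sum fun j _ => ?_
    have d2 : deriv (fun t => Real.exp (-t)) (B x) = -Real.exp (-B x) := by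
      rw [deriv_comp_neg Real.exp, Real.deriv_exp]
    simp only [ofReal_mul]
    rw [dz_mul j s1 s2, dz_comp j hρ.sm (c1.differentiable (by simp) _),
      dz_comp j hB (c2.differentiable (by simp) _), deriv_comp_sub_const, d2]
    refine (pow_le_pow_left₀ (norm_nonneg _) (norm_add_le _ _) 2).trans ?_
    simp only [norm_mul, norm_real, Real.norm_eq_abs, abs_neg]
    rw [mul_pow, ← sq_abs (deriv χ _), ← sq_abs (χ _), ← sq_abs (Real.exp _)]
    nlinarith [sq_nonneg (|deriv χ (ρ x - ν)| * ‖R.dz j (fun x => (ρ x : ℂ)) x‖ *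
      |Real.exp (-B x)| - |χ (ρ x - ν)| * (|Real.exp (-B x)| * ‖R.dz j (fun x => (B x : ℂ)) x‖))]

/-- Take `B, g` from `exists_mult` and `γ` from `exists_convex` for `t ↦ max (A, 1, 6 * g t)`.
By `levi_comp`, `levi ψ ξ ≥ γ' (ρ) * ∑ |ξ j|^2 ≥ 0` for `ψ = φ + γ ρ`.  For `ν ≥ s + 3` let
`η = χ (ρ - ν) * exp (-B)` with `χ` from `exists_step (0 < 1)`, and apply `Weak.bkm` to
`Closed.weak`.  With `a j = dz j η` the right hand side is at most
`∫ (|η h + ∑ a j β j|^2 + 2 * ∑ |a j|^2 * ∑ |β j|^2) exp (-ψ)`.  On `ρ < s + 2`, `η = 1` and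
`a = 0`.  On `ρ ≥ s + 2`, `h = 0`, so the integrand is at most `3 |a|^2 |β|^2`, and
`|a|^2 ≤ 2 η^2 g (ρ) + 2 C^2 1_{ν ≤ ρ}`; the first part is absorbed by the left hand side,
`η^2 * levi ψ β ≥ 6 g η^2 |β|^2`, and the second tends to `0` as `ν → ∞` because `β ∈ L²`. -/
theorem apriori {ρ φ : X → ℝ} (hρ : R.Exh ρ) (hφ : R.SmR φ) (hp : ∀ x ξ, 0 ≤ R.levi φ x ξ)
    (s A : ℝ) : ∃ γ : ℝ → ℝ, ContDiff ℝ ∞ γ ∧ (∀ t, t ≤ s → γ t = 0) ∧ (∀ t, 0 ≤ γ t) ∧
      (∀ t, s + 1 ≤ t → A ≤ γ t) ∧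
      (∀ x ξ, R.levi φ x ξ ≤ R.levi (fun x => φ x + γ (ρ x)) x ξ) ∧
      (∀ x ξ, s + 1 ≤ ρ x → ∑ j, ‖ξ j‖ ^ 2 ≤ R.levi (fun x => φ x + γ (ρ x)) x ξ) ∧
      ∀ (β : ι → X → ℂ) (h : X → ℂ), R.Closed (fun x => φ x + γ (ρ x)) β → R.Test h →
        (∀ x, s < ρ x → h x = 0) →
        (∀ g, R.Test g →
          ∫ x, (∑ j, β j x * R.dz j g x) * (Real.exp (-(φ x + γ (ρ x))) : ℝ) ∂(R.mu) =
            -∫ x, h x * g x * (Real.exp (-(φ x + γ (ρ x))) : ℝ) ∂(R.mu)) →
        ∫⁻ x in {x | ρ x < s + 2}, ENNReal.ofReal (R.levi (fun x => φ x + γ (ρ x)) x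
          (fun j => β j x) * Real.exp (-(φ x + γ (ρ x)))) ∂(R.mu) ≤
          ENNReal.ofReal (∫ x, ‖h x‖ ^ 2 * Real.exp (-φ x) ∂(R.mu)) := by
  obtain ⟨B, g, hB, -, hBe, -, hB1, hg, hBg⟩ := hρ.exists_mult s
  obtain ⟨γ, hγ, hγ0, hγ1, hγ2, hγ3, hγ4⟩ := exists_convex s (fun t => max A (max 1 (6 * g t)))
    (monotone_const.max (monotone_const.max (hg.const_mul (by norm_num))))
  obtain ⟨χ, C, hχ, χ1, χ0, -, χb, χd⟩ := exists_step (show (0 : ℝ) < 1 by norm_num)
  have sγ : R.SmR fun x => γ (ρ x) := hρ.sm.comp fun _ => hγ.contDiffAt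
  have hψ := hφ.add sγ
  have hL : ∀ x ξ, R.levi φ x ξ + deriv γ (ρ x) * ∑ j, ‖ξ j‖ ^ 2 ≤
      R.levi (fun x => φ x + γ (ρ x)) x ξ := fun x ξ => by
    rw [levi_add hφ sγ, levi_comp hρ.sm fun _ => hγ.contDiffAt]
    have h1 := mul_le_mul_of_nonneg_left (hρ.levi x ξ) (hγ2 (ρ x))
    have h2 := mul_nonneg (hγ3 (ρ x)) (sq_nonneg ‖R.dd (fun x => (ρ x : ℂ)) x ξ‖)
    linarith
  have hS : ∀ ξ : ι → ℂ, 0 ≤ ∑ j, ‖ξ j‖ ^ 2 := fun ξ => by positivity
  have hL1 : ∀ x ξ, deriv γ (ρ x) * ∑ j, ‖ξ j‖ ^ 2 ≤ R.levi (fun x => φ x + γ (ρ x)) x ξ :=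
    fun x ξ => by linarith [hL x ξ, hp x ξ]
  refine ⟨γ, hγ, hγ0, hγ1, fun t ht => (le_max_left _ _).trans (hγ4 t ht).1,
    fun x ξ => by linarith [hL x ξ, mul_nonneg (hγ2 (ρ x)) (hS ξ)], fun x ξ hx => ?_,
    fun β h hβ hh h0 hT => ?_⟩
  · refine le_trans (le_mul_of_one_le_left (hS ξ) ?_) (hL1 x ξ)
    exact ((le_max_left _ _).trans (le_max_right _ _)).trans (hγ4 _ hx).2
  have hc := hρ.sm.continuous
  have he := apriori_cont hψ
  have iN : Integrable (fun x => (∑ j, ‖β j x‖ ^ 2) * Real.exp (-(φ x + γ (ρ x)))) R.mu := by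
    simp only [Finset.sum_mul]
    refine integrable_finsetSum _ fun j _ => ⟨((hβ.meas j).norm.pow 2).mul
      he.aestronglyMeasurable, ?_⟩
    exact (hasFiniteIntegral_iff_ofReal (.of_forall fun x => by positivity)).2 (hβ.fin j)
  have ih : Integrable (fun x => ‖h x‖ ^ 2 * Real.exp (-(φ x + γ (ρ x)))) R.mu :=
    apriori_int1 hh.memLp hh.2 (fun x hx => image_eq_zero_of_notMem_tsupport hx) he
  have eh : ∀ x, ‖h x‖ ^ 2 * Real.exp (-(φ x + γ (ρ x))) = ‖h x‖ ^ 2 * Real.exp (-φ x) := by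
    intro x
    rcases le_or_gt (ρ x) s with hx | hx
    · rw [hγ0 _ hx, add_zero]
    · simp [h0 x hx]
  have ms : ∀ ν : ℕ, MeasurableSet {x | (ν : ℝ) ≤ ρ x} :=
    fun ν => (isClosed_le continuous_const hc).measurableSet
  have lim : Tendsto (fun ν : ℕ => ∫ x in {x | (ν : ℝ) ≤ ρ x},
      (∑ j, ‖β j x‖ ^ 2) * Real.exp (-(φ x + γ (ρ x))) ∂(R.mu)) atTop (𝓝 0) := by
    have h1 := tendsto_setIntegral_of_antitone ms
      (fun a b hab x (hx : (b : ℝ) ≤ ρ x) => (Nat.cast_le.2 hab).trans hx) ⟨0, iN.integrableOn⟩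
    have h2 : ⋂ ν : ℕ, {x | (ν : ℝ) ≤ ρ x} = ∅ := by
      refine Set.eq_empty_of_forall_notMem fun x hx => ?_
      obtain ⟨ν, hν⟩ := exists_nat_gt (ρ x)
      exact hν.not_ge (Set.mem_iInter.1 hx ν)
    simpa [h2] using h1
  have lim2 := ENNReal.tendsto_ofReal ((lim.const_mul (6 * C ^ 2)).const_add
    (∫ x, ‖h x‖ ^ 2 * Real.exp (-φ x) ∂(R.mu)))
  rw [mul_zero, add_zero] at lim2
  refine ge_of_tendsto lim2 ?_
  filter_upwards [tendsto_natCast_atTop_atTop.eventually_ge_atTop (s + 3)] with ν hν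
  obtain ⟨hη, ha⟩ := apriori_cut hρ hB hχ χ0 ν
  have hW := hβ.weak hψ hh hT hη
  have hb := hW.bkm hη.2 hψ
  obtain ⟨i1, i2, i3⟩ := hW.apriori_int hη.2 hψ
  simp only [add_sub_cancel_right] at hb i2
  have i4 := (iN.indicator (ms ν)).const_mul (6 * C ^ 2)
  have key : ∀ x, {x | ρ x < s + 2}.indicator (fun x => R.levi (fun x => φ x + γ (ρ x)) x
      (fun j => β j x) * Real.exp (-(φ x + γ (ρ x)))) x ≤
      R.levi (fun x => φ x + γ (ρ x)) x
        (fun j => ((χ (ρ x - ν) * Real.exp (-B x) : ℝ) : ℂ) * β j x) *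
          Real.exp (-(φ x + γ (ρ x))) -
        ‖((χ (ρ x - ν) * Real.exp (-B x) : ℝ) : ℂ) * h x +
          ∑ j, R.dz j (fun x => ((χ (ρ x - ν) * Real.exp (-B x) : ℝ) : ℂ)) x * β j x‖ ^ 2 *
            Real.exp (-(φ x + γ (ρ x))) -
        (1 / 2 * ∑ j, ∑ k,
          ‖R.db k (fun x => ((χ (ρ x - ν) * Real.exp (-B x) : ℝ) : ℂ)) x * β j x -
            R.db j (fun x => ((χ (ρ x - ν) * Real.exp (-B x) : ℝ) : ℂ)) x * β k x‖ ^ 2) *
              Real.exp (-(φ x + γ (ρ x))) +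
        ‖h x‖ ^ 2 * Real.exp (-(φ x + γ (ρ x))) +
        6 * C ^ 2 * {x | (ν : ℝ) ≤ ρ x}.indicator
          (fun x => (∑ j, ‖β j x‖ ^ 2) * Real.exp (-(φ x + γ (ρ x)))) x := by
    intro x
    simp only [db_real]
    rcases lt_or_ge (ρ x) (s + 2) with hx | hx
    · have h1 : (fun x => ((χ (ρ x - ν) * Real.exp (-B x) : ℝ) : ℂ)) =ᶠ[𝓝 x] fun _ => 1 := by
        filter_upwards [hBe x hx, hc.continuousAt.eventually_lt continuousAt_const hx] with y h1 h2
        rw [h1, χ1 _ (by linarith)]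
        simp
      have h2 : ((χ (ρ x - ν) * Real.exp (-B x) : ℝ) : ℂ) = 1 := h1.self_of_nhds
      have h3 : x ∉ {x | (ν : ℝ) ≤ ρ x} := fun h : (ν : ℝ) ≤ ρ x => by linarith
      rw [Set.indicator_of_mem (show x ∈ {x | ρ x < s + 2} from hx), Set.indicator_of_notMem h3]
      simp only [dz_congr _ h1, dz_const, h2]
      simp
    · rw [Set.indicator_of_notMem (show x ∉ {x | ρ x < s + 2} from hx.not_gt),
        h0 x (by linarith), levi_smul, mul_zero, zero_add, norm_real, Real.norm_eq_abs, sq_abs]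
      have h1 := apriori_cs
        (fun j => R.dz j (fun x => ((χ (ρ x - ν) * Real.exp (-B x) : ℝ) : ℂ)) x) fun j => β j x
      have h2 := ha x
      have h3 : 6 * g (ρ x) * ∑ j, ‖β j x‖ ^ 2 ≤
          R.levi (fun x => φ x + γ (ρ x)) x fun j => β j x := by
        refine le_trans (mul_le_mul_of_nonneg_right ?_ (hS _)) (hL1 x _)
        exact ((le_max_right _ _).trans (le_max_right _ _)).trans (hγ4 _ (by linarith)).2
      have h4 := mul_le_mul_of_nonneg_left h3 (sq_nonneg (χ (ρ x - ν) * Real.exp (-B x)))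
      have h5 := mul_le_mul_of_nonneg_left (hBg x) (sq_nonneg (χ (ρ x - ν) * Real.exp (-B x)))
      have h6 := Real.exp_pos (-(φ x + γ (ρ x)))
      have h7 := hS fun j => β j x
      have h8 : ∃ c : ℝ, {x | (ν : ℝ) ≤ ρ x}.indicator
          (fun x => (∑ j, ‖β j x‖ ^ 2) * Real.exp (-(φ x + γ (ρ x)))) x =
            c * ((∑ j, ‖β j x‖ ^ 2) * Real.exp (-(φ x + γ (ρ x)))) ∧ deriv χ (ρ x - ν) ^ 2 *
          (Real.exp (-B x) ^ 2 * ∑ j, ‖R.dz j (fun x => (ρ x : ℂ)) x‖ ^ 2) ≤ C ^ 2 * c := by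
        rcases le_or_gt (ν : ℝ) (ρ x) with hy | hy
        · refine ⟨1, by rw [Set.indicator_of_mem (show x ∈ {x | (ν : ℝ) ≤ ρ x} from hy), one_mul],
            mul_le_mul ?_ (hB1 x (by linarith)) (by positivity) (sq_nonneg C)⟩
          rw [← sq_abs]
          exact pow_le_pow_left₀ (abs_nonneg _) (χb _) 2
        · refine ⟨0, by rw [Set.indicator_of_notMem (show x ∉ {x | (ν : ℝ) ≤ ρ x} from hy.not_ge),
            zero_mul], ?_⟩
          rw [χd _ (Or.inl (by linarith))]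
          simp
      obtain ⟨c, h8, h9⟩ := h8
      rw [h8]
      have h10 := mul_le_mul_of_nonneg_right (show
        ∑ j, ‖R.dz j (fun x => ((χ (ρ x - ν) * Real.exp (-B x) : ℝ) : ℂ)) x‖ ^ 2 ≤
          2 * (C ^ 2 * c) + 2 * ((χ (ρ x - ν) * Real.exp (-B x)) ^ 2 * g (ρ x)) by linarith) h7
      have h11 := mul_le_mul_of_nonneg_right (h1.trans
        (mul_le_mul_of_nonneg_left h10 (by norm_num))) h6.le
      have h12 := mul_le_mul_of_nonneg_right h4 h6.le
      simp only [norm_zero]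
      linarith
  have hO : MeasurableSet {x | ρ x < s + 2} := (isOpen_lt hc continuous_const).measurableSet
  have h1 := apriori_abs hO i1 i2 i3 ih i4 hb (fun x => mul_nonneg
    ((mul_nonneg (hγ2 _) (hS _)).trans (hL1 x _)) (Real.exp_pos _).le) key
  rw [integral_const_mul, integral_indicator (ms ν)] at h1
  simpa only [eh] using h1

end RD

end Pool.Agent.MP_c0606f_ag.Klt

end

-- part MP_c0606f_ag.Klt.Horm
section

/-! Hormander's estimate. -/

namespace Pool.Agent.MP_c0606f_ag.Klt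

open MeasureTheory Complex Filter Topology
open scoped ENNReal ContDiff ComplexConjugate

section Abstract

variable {X : Type} [MeasurableSpace X] {μ : Measure X}

theorem horm_norm_sq (f : Lp ℂ 2 μ) : ‖f‖ ^ 2 = ∫ x, ‖f x‖ ^ 2 ∂μ := by
  have h1 : ((‖f‖ ^ 2 : ℝ) : ℂ) = ((∫ x, ‖f x‖ ^ 2 ∂μ : ℝ) : ℂ) := by
    rw [← integral_complex_ofReal, ofReal_pow]
    refine (inner_self_eq_norm_sq_to_K (𝕜 := ℂ) f).symm.trans ((L2.inner_def f f).trans ?_)
    refine integral_congr_ae (.of_forall fun x => ?_)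
    beta_reduce
    rw [inner_self_eq_norm_sq_to_K, ofReal_pow]
    rfl
  exact_mod_cast h1

theorem horm_int_sq (f : Lp ℂ 2 μ) : Integrable (fun x => ‖f x‖ ^ 2) μ :=
  (memLp_two_iff_integrable_sq_norm (Lp.aestronglyMeasurable f)).1 (Lp.memLp f)

theorem horm_inner_one (u v : Lp ℂ 2 μ) : inner ℂ u v = ∫ x, conj (u x) * v x ∂μ := by
  rw [L2.inner_def]
  refine integral_congr_ae (.of_forall fun x => ?_)
  beta_reduce
  rw [RCLike.inner_apply, mul_comm]

/-- the vector of a square integrable form -/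
noncomputable def hormVec {ι : Type} (f : ι → X → ℂ) (hf : ∀ j, MemLp (f j) 2 μ) :
    PiLp 2 fun _ : ι => Lp ℂ 2 μ := WithLp.toLp 2 fun j => (hf j).toLp

theorem horm_vec_ae {ι : Type} [Fintype ι] (f : ι → X → ℂ) (hf : ∀ j, MemLp (f j) 2 μ) :
    ∀ᵐ x ∂μ, ∀ j, hormVec f hf j x = f j x :=
  ae_all_iff.2 fun j => (hf j).coeFn_toLp

theorem horm_inner {ι : Type} [Fintype ι] (f : ι → X → ℂ) (hf : ∀ j, MemLp (f j) 2 μ)
    (b : PiLp 2 fun _ : ι => Lp ℂ 2 μ) :
    inner ℂ (hormVec f hf) b = ∫ x, ∑ j, conj (f j x) * b j x ∂μ := by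
  have h1 : ∀ j, Integrable (fun x => conj (hormVec f hf j x) * b j x) μ := fun j => by
    refine (L2.integrable_inner (𝕜 := ℂ) (hormVec f hf j) (b j)).congr (.of_forall fun x => ?_)
    beta_reduce
    rw [RCLike.inner_apply, mul_comm]
  rw [PiLp.inner_apply, Finset.sum_congr rfl fun j _ => horm_inner_one (hormVec f hf j) (b j),
    ← integral_finsetSum _ fun j _ => h1 j]
  refine integral_congr_ae ?_
  filter_upwards [horm_vec_ae f hf] with x hx
  simp only [hx]

theorem horm_cs {P : X → ℂ} {p q : X → ℝ} (hp : Measurable p) (hp0 : ∀ x, 0 ≤ p x)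
    (hq0 : ∀ x, 0 ≤ q x) (h : ∀ x, ‖P x‖ ^ 2 ≤ p x * q x) {a b : ℝ} (ha : 0 ≤ a) (hb : 0 ≤ b)
    (h1 : ∫⁻ x, ENNReal.ofReal (p x) ∂μ ≤ ENNReal.ofReal a)
    (h2 : ∫⁻ x, ENNReal.ofReal (q x) ∂μ ≤ ENNReal.ofReal b) : ‖∫ x, P x ∂μ‖ ^ 2 ≤ a * b := by
  have key : ∀ t : ℝ, 0 < t → ‖∫ x, P x ∂μ‖ ≤ t / 2 * a + 1 / (2 * t) * b := fun t ht => by
    have c1 : 0 ≤ t / 2 := by positivity
    have c2 : 0 ≤ 1 / (2 * t) := by positivity
    have e : ∀ x, ‖P x‖ₑ ≤ ENNReal.ofReal (t / 2) * ENNReal.ofReal (p x) +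
        ENNReal.ofReal (1 / (2 * t)) * ENNReal.ofReal (q x) := fun x => by
      have p0 := hp0 x
      have q0 := hq0 x
      rw [← ENNReal.ofReal_mul c1, ← ENNReal.ofReal_mul c2,
        ← ENNReal.ofReal_add (by positivity) (by positivity), ← ofReal_norm]
      refine ENNReal.ofReal_le_ofReal (abs_le_of_sq_le_sq' ?_ (by positivity)).2
      have e1 : (t / 2 * p x + 1 / (2 * t) * q x) ^ 2 =
          p x * q x + (t / 2 * p x - 1 / (2 * t) * q x) ^ 2 := by
        field_simp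
        ring
      rw [e1]
      exact (h x).trans (le_add_of_nonneg_right (sq_nonneg _))
    rw [← ENNReal.ofReal_le_ofReal_iff (by positivity), ofReal_norm]
    refine (enorm_integral_le_lintegral_enorm _).trans ((lintegral_mono e).trans ?_)
    rw [lintegral_add_left (hp.ennreal_ofReal.const_mul _),
      lintegral_const_mul' _ _ ENNReal.ofReal_ne_top,
      lintegral_const_mul' _ _ ENNReal.ofReal_ne_top,
      ENNReal.ofReal_add (by positivity) (by positivity), ENNReal.ofReal_mul c1,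
      ENNReal.ofReal_mul c2]
    gcongr
  have h3 := discrim_le_zero (a := a) (b := -2 * ‖∫ x, P x ∂μ‖) (c := b) fun t => by
    rcases le_or_gt t 0 with ht | ht
    · nlinarith [norm_nonneg (∫ x, P x ∂μ), mul_self_nonneg t]
    · have h4 := mul_le_mul_of_nonneg_left (key t ht) (by positivity : 0 ≤ 2 * t)
      have h5 : 2 * t * (t / 2 * a + 1 / (2 * t) * b) = a * (t * t) + b := by
        field_simp
      linarith
  rw [discrim] at h3
  linarith

theorem horm_sum_sq {ι : Type} [Fintype ι] (a ξ : ι → ℂ) :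
    ‖∑ j, a j * conj (ξ j)‖ ^ 2 ≤ (∑ j, ‖a j‖ ^ 2) * ∑ j, ‖ξ j‖ ^ 2 := by
  refine le_trans ?_ (Finset.sum_mul_sq_le_sq_mul_sq _ _ _)
  refine pow_le_pow_left₀ (norm_nonneg _) ((norm_sum_le _ _).trans (le_of_eq ?_)) 2
  simp only [norm_mul, RCLike.norm_conj]

end Abstract

namespace RD

variable {ι X : Type} [Fintype ι] [DecidableEq ι] [TopologicalSpace X] [T2Space X]
  [SecondCountableTopology X] [MeasurableSpace X] [BorelSpace X] {R : RD ι X}

omit [DecidableEq ι] [T2Space X] [SecondCountableTopology X] [MeasurableSpace X]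
  [BorelSpace X] in
theorem horm_sm_exp {ψ : X → ℝ} (hψ : R.SmR ψ) (c : ℝ) :
    R.Sm fun x => (Real.exp (c * ψ x) : ℝ) :=
  hψ.comp (γ := fun t => Real.exp (c * t)) fun _ =>
    (Real.contDiff_exp.comp (contDiff_const.mul contDiff_id)).contDiffAt

omit [DecidableEq ι] [T2Space X] [SecondCountableTopology X] [MeasurableSpace X]
  [BorelSpace X] in
theorem horm_sm_neg {ψ : X → ℝ} (hψ : R.SmR ψ) : R.Sm fun x => (Real.exp (-ψ x) : ℝ) := by
  simpa only [neg_one_mul] using horm_sm_exp hψ (-1)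

omit [DecidableEq ι] [T2Space X] [SecondCountableTopology X] [MeasurableSpace X]
  [BorelSpace X] in
theorem horm_ite {f : X → ℂ} (hf : R.Test f) (c : Prop) [Decidable c] :
    R.Test fun x => if c then f x else 0 := by
  split_ifs
  exacts [hf, ⟨Sm.const 0, HasCompactSupport.zero⟩]

theorem horm_exp (a b c t : ℝ) (h : a + b = c) :
    ((Real.exp (a * t) : ℝ) : ℂ) * (Real.exp (b * t) : ℝ) = (Real.exp (c * t) : ℝ) := by
  rw [← ofReal_mul, ← Real.exp_add, ← add_mul, h]

theorem horm_exp_sq (z : ℂ) (t : ℝ) :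
    ‖z * (Real.exp (1 / 2 * t) : ℝ)‖ ^ 2 * Real.exp (-t) = ‖z‖ ^ 2 := by
  rw [norm_mul, Complex.norm_of_nonneg (Real.exp_pos _).le, mul_pow, mul_assoc, sq (Real.exp _),
    ← Real.exp_add, ← Real.exp_add, show 1 / 2 * t + 1 / 2 * t + -t = 0 by ring, Real.exp_zero,
    mul_one]

/-- the forms against which closedness is tested -/
noncomputable def hormF (R : RD ι X) (ψ : X → ℝ) (g : X → ℂ) (j k l : ι) (x : X) : ℂ :=
  (if l = j then conj (R.db k g x) * (Real.exp (1 / 2 * ψ x) : ℝ) else 0) -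
    if l = k then conj (R.db j g x) * (Real.exp (1 / 2 * ψ x) : ℝ) else 0

theorem horm_F_mem {ψ : X → ℝ} (hψ : R.SmR ψ) {g : X → ℂ} (hg : R.Test g) (j k l : ι) :
    MemLp (R.hormF ψ g j k l) 2 R.mu :=
  ((horm_ite ((hg.db k).conj.mul_right (horm_sm_exp hψ _)) _).sub
    (horm_ite ((hg.db j).conj.mul_right (horm_sm_exp hψ _)) _)).memLp

omit [T2Space X] [SecondCountableTopology X] [MeasurableSpace X] [BorelSpace X] in
theorem horm_F_sum (ψ : X → ℝ) (g : X → ℂ) (j k : ι) (x : X) (b : ι → ℂ) :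
    ∑ l, conj (R.hormF ψ g j k l x) * b l =
      b j * (Real.exp (1 / 2 * ψ x) : ℝ) * R.db k g x -
        b k * (Real.exp (1 / 2 * ψ x) : ℝ) * R.db j g x := by
  simp only [hormF, map_sub, apply_ite conj, map_mul, conj_conj, conj_ofReal, map_zero, sub_mul,
    ite_mul, zero_mul, Finset.sum_sub_distrib, Finset.sum_ite_eq', Finset.mem_univ, if_true]
  ring

/-- Orthogonal projection on closed forms.  Work in `H = PiLp 2 fun _ : ι => Lp ℂ 2 R.mu`; a form
`β` corresponds to `β * exp (-ψ / 2)`.  Let `U` be the span of the vectors with entries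
`conj (db k g) * exp (ψ / 2)` in slot `j` and `-conj (db j g) * exp (ψ / 2)` in slot `k` (all are
test functions times smooth functions); closed forms are `Uᗮ`.  Write the vector of `α` as
`b + b'` with `b ∈ Uᗮ`, `b' ∈ Uᗮᗮ` (`Submodule.exists_add_mem_mem_orthogonal`).  The vector of
`db · g` lies in `Uᗮ` by `ibp_db` and `db_db_comm`. -/
theorem exists_proj {ψ : X → ℝ} (hψ : R.SmR ψ) {α : ι → X → ℂ} (hα : ∀ j, R.Test (α j)) :
    ∃ β : ι → X → ℂ, R.Closed ψ β ∧ ∀ g, R.Test g →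
      ∫ x, (∑ j, (α j x - β j x) * conj (R.db j g x)) * (Real.exp (-ψ x) : ℝ) ∂(R.mu) = 0 := by
  obtain ⟨S, hS⟩ : ∃ S : Set (PiLp 2 fun _ : ι => Lp ℂ 2 R.mu), S = {v | ∃ (g : X → ℂ)
      (hg : R.Test g) (j k : ι), v = hormVec (R.hormF ψ g j k) (horm_F_mem hψ hg j k)} :=
    ⟨_, rfl⟩
  have he := horm_sm_exp hψ (-(1 / 2))
  have ha : ∀ j, MemLp (fun x => α j x * (Real.exp (-(1 / 2) * ψ x) : ℝ)) 2 R.mu := fun j =>
    ((hα j).mul_right he).memLp
  obtain ⟨b, hb, b', hb', e⟩ :=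
    (Submodule.span ℂ S)ᗮ.exists_add_mem_mem_orthogonal (hormVec _ ha)
  refine ⟨fun j x => b j x * (Real.exp (1 / 2 * ψ x) : ℝ), ⟨fun j => ?_, fun j => ?_,
    fun g hg j k => ?_⟩, fun g hg => ?_⟩
  · exact (Lp.aestronglyMeasurable _).mul (horm_sm_exp hψ _).continuous.aestronglyMeasurable
  · simp only [horm_exp_sq]
    exact (horm_int_sq _).lintegral_lt_top
  · have h1 := hb (hormVec _ (horm_F_mem hψ hg j k))
      (Submodule.subset_span (by rw [hS]; exact ⟨g, hg, j, k, rfl⟩))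
    rw [horm_inner] at h1
    simpa only [horm_F_sum] using h1
  · have hw : ∀ j, MemLp (fun x => R.db j g x * (Real.exp (-(1 / 2) * ψ x) : ℝ)) 2 R.mu :=
      fun j => ((hg.db j).mul_right he).memLp
    have h1 : hormVec _ hw ∈ (Submodule.span ℂ S)ᗮ := by
      intro u hu
      induction hu using Submodule.span_induction with
      | zero => exact inner_zero_left _
      | add u v _ _ h1 h2 => rw [inner_add_left, h1, h2, add_zero]
      | smul c u _ h1 => rw [inner_smul_left, h1, mul_zero]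
      | mem u hu =>
        rw [hS] at hu
        obtain ⟨g', hg', j, k, rfl⟩ := hu
        rw [horm_inner]
        have h2 : ∫ x, (R.db j g x * R.db k g' x - R.db k g x * R.db j g' x) ∂(R.mu) = 0 := by
          rw [integral_sub ((hg.db j).mul_right (hg'.1.db k)).integrable
            ((hg.db k).mul_right (hg'.1.db j)).integrable, ibp_db (hg.1.db j) hg',
            ibp_db (hg.1.db k) hg']
          simp only [db_db_comm j k hg.1, sub_self]
        rw [← h2]
        refine integral_congr_ae ?_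
        filter_upwards [horm_vec_ae _ hw] with x hx
        simp only [horm_F_sum, hx]
        have h3 := horm_exp (-(1 / 2)) (1 / 2) 0 (ψ x) (by ring)
        rw [zero_mul, Real.exp_zero, ofReal_one] at h3
        linear_combination (R.db j g x * R.db k g' x - R.db k g x * R.db j g' x) * h3
    have h2 := hb' _ h1
    rw [← sub_eq_iff_eq_add'.2 e, horm_inner] at h2
    rw [← h2]
    refine integral_congr_ae ?_
    filter_upwards [horm_vec_ae _ ha,
      ae_all_iff.2 fun j => Lp.coeFn_sub (hormVec _ ha j) (b j)] with x hx hx'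
    rw [Finset.sum_mul]
    refine Finset.sum_congr rfl fun j _ => ?_
    rw [PiLp.sub_apply, hx', Pi.sub_apply, hx, map_mul, conj_ofReal]
    have h3 := horm_exp (-(1 / 2)) (-(1 / 2)) (-1) (ψ x) (by ring)
    have h4 := horm_exp (1 / 2) (-1) (-(1 / 2)) (ψ x) (by ring)
    rw [neg_one_mul] at h3 h4
    linear_combination (-α j x * conj (R.db j g x)) * h3 - b j x * conj (R.db j g x) * h4

theorem horm_split {ψ : X → ℝ} (hψ : R.SmR ψ) {α β G : ι → X → ℂ} (hα : ∀ j, R.Test (α j))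
    (hβ : R.Closed ψ β) (hG : ∀ j, R.Test (G j))
    (h : ∫ x, (∑ j, (α j x - β j x) * G j x) * (Real.exp (-ψ x) : ℝ) ∂(R.mu) = 0) :
    ∫ x, (∑ j, β j x * G j x) * (Real.exp (-ψ x) : ℝ) ∂(R.mu) =
      ∫ x, (∑ j, α j x * G j x) * (Real.exp (-ψ x) : ℝ) ∂(R.mu) := by
  have h1 : Integrable (fun x => (∑ j, α j x * G j x) * (Real.exp (-ψ x) : ℝ)) R.mu :=
    ((Test.sum _ fun j _ => (hα j).mul_right (hG j).1).mul_right (horm_sm_neg hψ)).integrable
  have h2 : Integrable (fun x => (∑ j, β j x * G j x) * (Real.exp (-ψ x) : ℝ)) R.mu := by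
    simp only [Finset.sum_mul, mul_assoc]
    exact integrable_finsetSum _ fun j _ =>
      ((hG j).mul_right (horm_sm_neg hψ)).integrable_mul (hβ.meas j)
        (Real.continuous_exp.comp hψ.continuous.neg) (fun _ => Real.exp_pos _) (hβ.fin j)
  symm
  rw [← sub_eq_zero, ← integral_sub h1 h2, ← h]
  refine integral_congr_ae (.of_forall fun x => ?_)
  simp only [sub_mul, Finset.sum_sub_distrib]

omit [T2Space X] [SecondCountableTopology X] [MeasurableSpace X] [BorelSpace X] in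
theorem horm_del {ρ φ : X → ℝ} (hρ : R.SmR ρ) (hφ : R.SmR φ) {γ : ℝ → ℝ} (hγ : ContDiff ℝ ∞ γ)
    {s : ℝ} (h0 : ∀ t, t ≤ s → γ t = 0) (h1 : ∀ t, 0 ≤ γ t) {α : ι → X → ℂ}
    (hs : ∀ j x, s < ρ x → α j x = 0) (x : X) :
    R.del (fun x => φ x + γ (ρ x)) α x = R.del φ α x := by
  refine Finset.sum_congr rfl fun j _ => ?_
  rcases lt_or_ge s (ρ x) with h | h
  · rw [hs j x h, mul_zero, mul_zero]
  · have h2 : deriv γ (ρ x) = 0 :=
      IsLocalMin.deriv_eq_zero (.of_forall fun t => by rw [h0 _ h]; exact h1 t)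
    simp only [ofReal_add]
    rw [dz_add j hφ (hρ.comp fun _ => hγ.contDiffAt),
      dz_comp j hρ (hγ.differentiable (by simp) _), h2, ofReal_zero, zero_mul, add_zero]

omit [SecondCountableTopology X] [MeasurableSpace X] [BorelSpace X] in
theorem horm_cut {ρ : X → ℝ} (hρ : R.Exh ρ) {v0 : X → ℂ} (hv : R.Sm v0) (s : ℝ) :
    ∃ (g : X → ℂ) (C : ℝ), R.Test g ∧ 0 ≤ C ∧ (∀ j x, ρ x ≤ s + 1 → R.db j g x = R.db j v0 x) ∧
      (∀ j x, s + 2 ≤ ρ x → R.db j g x = 0) ∧
      ∀ x (ξ : ι → ℂ), ρ x ≤ s + 2 → ‖∑ j, R.db j g x * conj (ξ j)‖ ^ 2 ≤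
        2 * ‖∑ j, R.db j v0 x * conj (ξ j)‖ ^ 2 + 2 * C * ∑ j, ‖ξ j‖ ^ 2 := by
  obtain ⟨χ, B, c1, c2, c3, c4, -, c6⟩ := exists_step (show s + 1 < s + 2 by linarith)
  have hη : R.Sm fun x => (χ (ρ x) : ℝ) := hρ.sm.comp fun _ => c1.contDiffAt
  have hd : ∀ j x, R.db j (fun x => (χ (ρ x) : ℝ) * v0 x) x =
      R.db j (fun x => (χ (ρ x) : ℝ)) x * v0 x + (χ (ρ x) : ℝ) * R.db j v0 x :=
    fun j x => db_mul j hη hv x
  have hz : ∀ j x, ρ x ≤ s + 1 ∨ s + 2 ≤ ρ x → R.db j (fun x => (χ (ρ x) : ℝ)) x = 0 :=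
    fun j x h => by
      rw [db_comp j hρ.sm (c1.differentiable (by simp) _), c6 _ h, ofReal_zero, zero_mul]
  obtain ⟨C, hC⟩ := (hρ.cpt (s + 2)).exists_bound_of_continuousOn
    (f := fun x => ∑ j, ‖R.db j (fun x => (χ (ρ x) : ℝ)) x * v0 x‖ ^ 2)
    (continuous_finsetSum _ fun j _ =>
      ((hη.db j).continuous.mul hv.continuous).norm.pow 2).continuousOn
  refine ⟨fun x => (χ (ρ x) : ℝ) * v0 x, |C|, ⟨hη.mul hv, HasCompactSupport.intro
    (hρ.cpt (s + 2)) fun x hx => ?_⟩, abs_nonneg _, fun j x h => ?_, fun j x h => ?_,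
    fun x ξ h => ?_⟩
  · rw [c3 _ (not_le.1 hx).le, ofReal_zero, zero_mul]
  · rw [hd, hz j x (.inl h), c2 _ h, zero_mul, zero_add, ofReal_one, one_mul]
  · rw [hd, hz j x (.inr h), c3 _ h, zero_mul, zero_add, ofReal_zero, zero_mul]
  · simp only [hd, add_mul, Finset.sum_add_distrib, mul_assoc ((χ (ρ x) : ℝ) : ℂ),
      ← Finset.mul_sum]
    have h1 := (horm_sum_sq (fun j => R.db j (fun x => (χ (ρ x) : ℝ)) x * v0 x) ξ).trans
      (mul_le_mul_of_nonneg_right ((le_abs_self _).trans ((hC x h).trans (le_abs_self C)))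
        (Finset.sum_nonneg fun j _ => sq_nonneg _))
    have h2 : ‖((χ (ρ x) : ℝ) : ℂ) * ∑ j, R.db j v0 x * conj (ξ j)‖ ≤
        ‖∑ j, R.db j v0 x * conj (ξ j)‖ := by
      rw [norm_mul, Complex.norm_of_nonneg (c4 _).1]
      exact mul_le_of_le_one_left (norm_nonneg _) (c4 _).2
    have h3 := pow_le_pow_left₀ (norm_nonneg _) ((norm_add_le
      (∑ j, R.db j (fun x => (χ (ρ x) : ℝ)) x * v0 x * conj (ξ j)) _).trans
        (add_le_add_right h2 _)) 2
    nlinarith [sq_nonneg (‖∑ j, R.db j (fun x => (χ (ρ x) : ℝ)) x * v0 x * conj (ξ j)‖ -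
      ‖∑ j, R.db j v0 x * conj (ξ j)‖)]

/-- The estimate tested against a test form.  Choose `s` with `ρ ≤ s` on the supports of the `α j`
and `η = χ ρ` equal to `1` for `ρ ≤ s + 1` and `0` for `ρ ≥ s + 3 / 2`.  For `A` arbitrary take
`γ` from `apriori`, `ψ = φ + γ ρ`, `β` from `exists_proj`.  The hypothesis of `apriori` holds with
`h = del φ α = del ψ α` (`ibp_del`, `dz_conj`).  The left hand side equals
`‖∫ ∑ db j (η v0) * conj (β j) * exp (-ψ)‖^2` (`exists_proj` with `g = η v0`), and pointwise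
`|∑ db j (η v0) conj (ξ j)|^2 ≤ (2 κ + 2 C 1_{s + 1 ≤ ρ ≤ s + 2}) * levi ψ ξ`, where
`C` bounds `|v0|^2 ∑ |db j η|^2`.  Cauchy-Schwarz (`ENNReal.lintegral_mul_le_Lp_mul_Lq`) and
`A → ∞`. -/
theorem apriori_test {ρ φ : X → ℝ} (hρ : R.Exh ρ) (hφ : R.SmR φ) (hp : ∀ x ξ, 0 ≤ R.levi φ x ξ)
    {v0 : X → ℂ} (hv : R.Sm v0) {κ : X → ℝ} (hκ : Measurable κ) (hκ0 : ∀ x, 0 ≤ κ x)
    (hb : ∀ x ξ, ‖∑ j, R.db j v0 x * conj (ξ j)‖ ^ 2 ≤ κ x * R.levi φ x ξ) {I : ℝ} (hI0 : 0 ≤ I)
    (hI : ∫⁻ x, ENNReal.ofReal (κ x * Real.exp (-φ x)) ∂(R.mu) ≤ ENNReal.ofReal I)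
    {α : ι → X → ℂ} (hα : ∀ j, R.Test (α j)) :
    ‖∫ x, (∑ j, R.db j v0 x * conj (α j x)) * (Real.exp (-φ x) : ℝ) ∂(R.mu)‖ ^ 2 ≤
      2 * I * ∫ x, ‖R.del φ α x‖ ^ 2 * Real.exp (-φ x) ∂(R.mu) := by
  have hρc := hρ.sm.continuous
  have hφc := hφ.continuous
  obtain ⟨s, hs⟩ : ∃ s : ℝ, ∀ j x, s < ρ x → x ∉ tsupport (α j) := by
    obtain ⟨s, hs⟩ := (isCompact_iUnion fun j => (hα j).2.isCompact).bddAbove_image
      hρc.continuousOn
    exact ⟨s, fun j x h hx => absurd (hs ⟨x, Set.mem_iUnion.2 ⟨j, hx⟩, rfl⟩) (not_le.2 h)⟩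
  have hs0 : ∀ j x, s < ρ x → α j x = 0 := fun j x h => image_eq_zero_of_notMem_tsupport (hs j x h)
  obtain ⟨g, C, hg, hC, g1, g2, g3⟩ := horm_cut hρ hv s
  obtain ⟨m, hm⟩ := (hρ.cpt (s + 2)).exists_bound_of_continuousOn
    (Real.continuous_exp.comp hφc.neg).continuousOn
  have hK : MeasurableSet {x | ρ x ≤ s + 2} := (hρ.cpt (s + 2)).measurableSet
  have hfin : R.mu {x | ρ x ≤ s + 2} ≠ ⊤ := by
    have := R.isLocallyFiniteMeasure
    exact (hρ.cpt (s + 2)).measure_lt_top.ne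
  have hJ : 0 ≤ ∫ x, ‖R.del φ α x‖ ^ 2 * Real.exp (-φ x) ∂(R.mu) :=
    integral_nonneg fun x => by positivity
  have key : ∀ A : ℝ,
      ‖∫ x, (∑ j, R.db j v0 x * conj (α j x)) * (Real.exp (-φ x) : ℝ) ∂(R.mu)‖ ^ 2 ≤
      (2 * I + 2 * C * |m| * Real.exp (-A) * R.mu.real {x | ρ x ≤ s + 2}) *
        ∫ x, ‖R.del φ α x‖ ^ 2 * Real.exp (-φ x) ∂(R.mu) := fun A => by
    obtain ⟨γ, a1, a2, a3, a4, a5, a6, a7⟩ := apriori hρ hφ hp s A
    have hψ : R.SmR fun x => φ x + γ (ρ x) := hφ.add (hρ.sm.comp fun _ => a1.contDiffAt)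
    obtain ⟨β, hβ, hπ⟩ := exists_proj hψ hα
    have b1 := a7 β (R.del φ α) hβ (test_del hφ hα) (fun x h => Finset.sum_eq_zero fun j _ => by
      rw [dz_eq_zero j (hs j x h), hs0 j x h, mul_zero, sub_zero]) fun u hu => by
        have h1 := hπ _ hu.conj
        simp only [db_conj, conj_conj] at h1
        rw [horm_split hψ hα hβ (fun j => hu.dz j) h1, ibp_del hψ hα hu.1]
        simp only [horm_del hρ.sm hφ a1 a2 a3 hs0]
    have b2 : ∫ x, (∑ j, R.db j v0 x * conj (α j x)) * (Real.exp (-φ x) : ℝ) ∂(R.mu) =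
        ∫ x in {x | ρ x < s + 2}, (∑ j, R.db j g x * conj (β j x)) *
          (Real.exp (-(φ x + γ (ρ x))) : ℝ) ∂(R.mu) := by
      rw [setIntegral_eq_integral_of_forall_compl_eq_zero fun x hx => by
        simp only [g2 _ x (not_lt.1 hx), zero_mul, Finset.sum_const_zero]]
      have h1 := congrArg conj (horm_split hψ hα hβ (fun j => (hg.db j).conj) (hπ g hg))
      rw [← integral_conj, ← integral_conj] at h1
      simp only [map_mul, map_sum, conj_conj, conj_ofReal] at h1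
      simp only [mul_comm (R.db _ g _), h1]
      refine integral_congr_ae (.of_forall fun x => ?_)
      beta_reduce
      rcases lt_or_ge s (ρ x) with h | h
      · simp only [hs0 _ x h, map_zero, mul_zero, zero_mul, Finset.sum_const_zero]
      · simp only [g1 _ x (h.trans (by linarith)), a2 _ h, add_zero, mul_comm (R.db _ v0 _)]
    have hL : ∀ x ξ, 0 ≤ R.levi (fun x => φ x + γ (ρ x)) x ξ := fun x ξ => (hp x ξ).trans (a5 x ξ)
    have hD : MeasurableSet {x | s + 1 ≤ ρ x ∧ ρ x ≤ s + 2} :=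
      (isClosed_le continuous_const hρc).measurableSet.inter hK
    have hi : ∀ x, 0 ≤ {x | s + 1 ≤ ρ x ∧ ρ x ≤ s + 2}.indicator (fun _ => 2 * C) x := fun x =>
      Set.indicator_nonneg (fun _ _ => by positivity) x
    rw [b2]
    refine horm_cs (p := fun x => (2 * κ x + {x | s + 1 ≤ ρ x ∧ ρ x ≤ s + 2}.indicator
      (fun _ => 2 * C) x) * Real.exp (-(φ x + γ (ρ x))))
      (((hκ.const_mul 2).add (measurable_const.indicator hD)).mul
        (Real.continuous_exp.comp hψ.continuous.neg).measurable)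
      (fun x => mul_nonneg (add_nonneg (by linarith [hκ0 x]) (hi x)) (Real.exp_pos _).le)
      (fun x => mul_nonneg (hL x _) (Real.exp_pos _).le) (fun x => ?_) (by positivity) hJ
      ((setLIntegral_le_lintegral _ _).trans ?_) b1
    · rw [norm_mul, Complex.norm_of_nonneg (Real.exp_pos _).le, mul_pow, mul_mul_mul_comm, ← sq]
      refine mul_le_mul_of_nonneg_right ?_ (sq_nonneg _)
      have h1 := (hb x fun j => β j x).trans (mul_le_mul_of_nonneg_left (a5 x _) (hκ0 x))
      have h2 := mul_nonneg (hκ0 x) (hL x fun j => β j x)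
      have h3 := mul_nonneg (hi x) (hL x fun j => β j x)
      rcases le_total (ρ x) (s + 1) with h | h
      · simp only [g1 _ x h]
        linarith
      rcases le_total (ρ x) (s + 2) with h' | h'
      · rw [Set.indicator_of_mem (show x ∈ {x | s + 1 ≤ ρ x ∧ ρ x ≤ s + 2} from ⟨h, h'⟩)]
        have h4 := mul_le_mul_of_nonneg_left (a6 x (fun j => β j x) h) hC
        linarith [g3 x (fun j => β j x) h']
      · simp only [g2 _ x h', zero_mul, Finset.sum_const_zero, norm_zero]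
        linarith
    · have h1 : ∀ x, ENNReal.ofReal ((2 * κ x + {x | s + 1 ≤ ρ x ∧ ρ x ≤ s + 2}.indicator
          (fun _ => 2 * C) x) * Real.exp (-(φ x + γ (ρ x)))) ≤
          ENNReal.ofReal 2 * ENNReal.ofReal (κ x * Real.exp (-φ x)) +
            {x | ρ x ≤ s + 2}.indicator
              (fun _ => ENNReal.ofReal (2 * C * |m| * Real.exp (-A))) x := fun x => by
        have h2 : 2 * κ x * Real.exp (-(φ x + γ (ρ x))) ≤ 2 * (κ x * Real.exp (-φ x)) := by
          rw [← mul_assoc]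
          exact mul_le_mul_of_nonneg_left (Real.exp_le_exp.2 (by linarith [a3 (ρ x)]))
            (by linarith [hκ0 x])
        rw [← ENNReal.ofReal_mul (by norm_num), add_mul]
        refine ENNReal.ofReal_add_le.trans (add_le_add (ENNReal.ofReal_le_ofReal h2) ?_)
        by_cases h : x ∈ {x | s + 1 ≤ ρ x ∧ ρ x ≤ s + 2}
        · rw [Set.indicator_of_mem h, Set.indicator_of_mem (show x ∈ {x | ρ x ≤ s + 2} from h.2),
            neg_add, Real.exp_add, mul_assoc _ |m|]
          refine ENNReal.ofReal_le_ofReal (mul_le_mul_of_nonneg_left (mul_le_mul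
            ((le_abs_self _).trans ((hm x h.2).trans (le_abs_self m)))
            (Real.exp_le_exp.2 (neg_le_neg (a4 _ h.1))) (Real.exp_pos _).le (abs_nonneg _))
            (by positivity))
        · rw [Set.indicator_of_notMem h, zero_mul, ENNReal.ofReal_zero]
          exact zero_le
      refine (lintegral_mono h1).trans ?_
      rw [lintegral_add_right _ (measurable_const.indicator hK),
        lintegral_const_mul' _ _ ENNReal.ofReal_ne_top, lintegral_indicator_const hK,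
        ENNReal.ofReal_add (by positivity) (by positivity),
        ENNReal.ofReal_mul (p := 2) (by norm_num),
        ENNReal.ofReal_mul (q := R.mu.real _) (by positivity), ofReal_measureReal hfin]
      gcongr
  have lim := ((((Real.tendsto_exp_neg_atTop_nhds_zero.const_mul (2 * C * |m|)).mul_const
    (R.mu.real {x | ρ x ≤ s + 2})).const_add (2 * I)).mul_const
      (∫ x, ‖R.del φ α x‖ ^ 2 * Real.exp (-φ x) ∂(R.mu)))
  simpa only [mul_zero, zero_mul, add_zero] using ge_of_tendsto' lim key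

/-- Abstract existence: a functional dominated by `‖T a‖` is represented by a vector
(factor through the range of `T`, `exists_extension_norm_eq` or `LinearMap.extendOfNorm`, and
`InnerProductSpace.toDual`). -/
theorem exists_repr {V H : Type} [AddCommGroup V] [Module ℂ V] [NormedAddCommGroup H]
    [InnerProductSpace ℂ H] [CompleteSpace H] (T : V →ₗ[ℂ] H) (Λ : V →ₗ[ℂ] ℂ) {c : ℝ} (hc : 0 ≤ c)
    (h : ∀ a, ‖Λ a‖ ≤ c * ‖T a‖) : ∃ u : H, ‖u‖ ≤ c ∧ ∀ a, Λ a = inner ℂ u (T a) := by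
  have hk : LinearMap.ker T ≤ LinearMap.ker Λ := fun a ha => by
    have h1 := h a
    rw [LinearMap.mem_ker.1 ha, norm_zero, mul_zero] at h1
    exact norm_le_zero_iff.1 h1
  obtain ⟨f, hf⟩ : ∃ f : LinearMap.range T →ₗ[ℂ] ℂ,
      ∀ a, f ⟨T a, LinearMap.mem_range_self T a⟩ = Λ a :=
    ⟨((LinearMap.ker T).liftQ Λ hk).comp T.quotKerEquivRange.symm.toLinearMap, fun a => by
      rw [LinearMap.comp_apply, LinearEquiv.coe_coe, T.quotKerEquivRange_symm_apply_image]
      rfl⟩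
  have hb : ∀ y : LinearMap.range T, ‖f y‖ ≤ c * ‖y‖ := by
    rintro ⟨_, a, rfl⟩
    rw [hf]
    exact h a
  obtain ⟨g, hg, hn⟩ := exists_extension_norm_eq (LinearMap.range T) (f.mkContinuous c hb)
  refine ⟨(InnerProductSpace.toDual ℂ H).symm g, ?_, fun a => ?_⟩
  · rw [LinearIsometryEquiv.norm_map, hn]
    exact f.mkContinuous_norm_le hc hb
  · rw [InnerProductSpace.toDual_symm_apply, ← hf a]
    exact (hg ⟨T a, LinearMap.mem_range_self T a⟩).symm

/-- test forms -/
def hormV (R : RD ι X) : Submodule ℂ (ι → X → ℂ) where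
  carrier := {α | ∀ j, R.Test (α j)}
  add_mem' ha hb j := (ha j).add (hb j)
  zero_mem' _ := ⟨Sm.const 0, HasCompactSupport.zero⟩
  smul_mem' c _ ha j := (ha j).mul_left (Sm.const c)

omit [SecondCountableTopology X] [MeasurableSpace X] [BorelSpace X] in
theorem horm_del_add (φ : X → ℝ) (a b : R.hormV) (x : X) :
    R.del φ (a + b : R.hormV) x = R.del φ a x + R.del φ b x := by
  simp only [del, ← Finset.sum_add_distrib]
  refine Finset.sum_congr rfl fun j _ => ?_
  have h := dz_add j (a.2 j).1 (b.2 j).1 x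
  change R.dz j (fun x => a.1 j x + b.1 j x) x - _ * (a.1 j x + b.1 j x) = _
  rw [h]
  ring

omit [SecondCountableTopology X] [MeasurableSpace X] [BorelSpace X] in
theorem horm_del_smul (φ : X → ℝ) (c : ℂ) (a : R.hormV) (x : X) :
    R.del φ (c • a : R.hormV) x = c * R.del φ a x := by
  simp only [del, Finset.mul_sum]
  refine Finset.sum_congr rfl fun j _ => ?_
  have h := dz_mul j (Sm.const c) (a.2 j).1 x
  change R.dz j (fun x => c * a.1 j x) x - _ * (c * a.1 j x) = _
  rw [h, dz_const]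
  ring

theorem horm_T {φ : X → ℝ} (hφ : R.SmR φ) : ∃ T : R.hormV →ₗ[ℂ] Lp ℂ 2 R.mu,
    ∀ a, ∀ᵐ x ∂(R.mu), T a x = R.del φ a x * (Real.exp (-(1 / 2) * φ x) : ℝ) := by
  have hm : ∀ a : R.hormV,
      MemLp (fun x => R.del φ a x * (Real.exp (-(1 / 2) * φ x) : ℝ)) 2 R.mu := fun a =>
    ((test_del hφ a.2).mul_right (horm_sm_exp hφ _)).memLp
  refine ⟨⟨⟨fun a => (hm a).toLp, fun a b => Lp.ext ?_⟩, fun c a => Lp.ext ?_⟩,
    fun a => (hm a).coeFn_toLp⟩
  · filter_upwards [(hm a).coeFn_toLp, (hm b).coeFn_toLp, (hm (a + b)).coeFn_toLp,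
      Lp.coeFn_add (hm a).toLp (hm b).toLp] with x h1 h2 h3 h4
    rw [h3, h4, Pi.add_apply, h1, h2, horm_del_add, add_mul]
  · filter_upwards [(hm a).coeFn_toLp, (hm (c • a)).coeFn_toLp,
      Lp.coeFn_smul c (hm a).toLp] with x h1 h3 h4
    rw [RingHom.id_apply, h3, h4, Pi.smul_apply, h1, horm_del_smul, smul_eq_mul, mul_assoc]

theorem horm_L {φ : X → ℝ} (hφ : R.SmR φ) {v0 : X → ℂ} (hv : R.Sm v0) :
    ∃ Λ : R.hormV →ₗ[ℂ] ℂ, ∀ a, Λ a =
      ∫ x, (∑ j, conj (R.db j v0 x) * a.1 j x) * (Real.exp (-φ x) : ℝ) ∂(R.mu) := by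
  have hm : ∀ a : R.hormV, Integrable
      (fun x => (∑ j, conj (R.db j v0 x) * a.1 j x) * (Real.exp (-φ x) : ℝ)) R.mu := fun a =>
    ((Test.sum _ fun j _ => (a.2 j).mul_left (hv.db j).conj).mul_right
      (horm_sm_neg hφ)).integrable
  refine ⟨⟨⟨fun a => ∫ x, (∑ j, conj (R.db j v0 x) * a.1 j x) * (Real.exp (-φ x) : ℝ) ∂(R.mu),
    fun a b => ?_⟩, fun c a => ?_⟩, fun a => rfl⟩
  · rw [← integral_add (hm a) (hm b)]
    simp only [Submodule.coe_add, Pi.add_apply, mul_add, add_mul, Finset.sum_add_distrib]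
  · rw [RingHom.id_apply, smul_eq_mul, ← integral_const_mul]
    simp only [Submodule.coe_smul, Pi.smul_apply, smul_eq_mul, mul_left_comm _ c,
      ← Finset.mul_sum, mul_assoc]

omit [T2Space X] [SecondCountableTopology X] [MeasurableSpace X] [BorelSpace X] in
theorem horm_del_single {φ : X → ℝ} (hφ : R.SmR φ) {g : X → ℂ} (hg : R.Sm g) (j : ι) (x : X) :
    R.del φ (fun l x => if l = j then conj (g x) * (Real.exp (1 * φ x) : ℝ) else 0) x =
      conj (R.db j g x) * (Real.exp (1 * φ x) : ℝ) := by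
  rw [del, Finset.sum_eq_single j (fun l _ hl => by simp only [if_neg hl, dz_const, mul_zero,
    sub_zero]) fun h => absurd (Finset.mem_univ j) h]
  simp only [if_true]
  rw [dz_mul j hg.conj (horm_sm_exp hφ 1), dz_conj]
  simp only [one_mul]
  rw [dz_comp j hφ (γ := Real.exp) Real.differentiableAt_exp, Real.deriv_exp]
  ring

/-- Apply `exists_repr` to the space `V` of test forms (a submodule of `ι → X → ℂ`),
`T α = del φ α * exp (-φ / 2) ∈ Lp ℂ 2 R.mu` and `Λ α` the conjugate of the integral in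
`apriori_test`.  Put `u = -u0 * exp (φ / 2)`.  For a test function `g` take
`α = Pi.single j (conj g * exp φ)`: then `conj (del φ α) * exp (-φ) = db j g`.  Use `ibp_db` and
`Test.integrable_mul`. -/
theorem hormander {ρ φ : X → ℝ} (hρ : R.Exh ρ) (hφ : R.SmR φ) (hp : ∀ x ξ, 0 ≤ R.levi φ x ξ)
    {v0 : X → ℂ} (hv : R.Sm v0) {κ : X → ℝ} (hκ : Measurable κ) (hκ0 : ∀ x, 0 ≤ κ x)
    (hb : ∀ x ξ, ‖∑ j, R.db j v0 x * conj (ξ j)‖ ^ 2 ≤ κ x * R.levi φ x ξ) {I : ℝ} (hI0 : 0 ≤ I)
    (hI : ∫⁻ x, ENNReal.ofReal (κ x * Real.exp (-φ x)) ∂(R.mu) ≤ ENNReal.ofReal I) :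
    ∃ u : X → ℂ, AEStronglyMeasurable u R.mu ∧
      ∫⁻ x, ENNReal.ofReal (‖u x‖ ^ 2 * Real.exp (-φ x)) ∂(R.mu) ≤ ENNReal.ofReal (2 * I) ∧
      R.WHol fun x => v0 x - u x := by
  obtain ⟨T, hT⟩ := horm_T hφ
  obtain ⟨Λ, hΛ⟩ := horm_L hφ hv
  obtain ⟨w, hw, hr⟩ := exists_repr T Λ (Real.sqrt_nonneg (2 * I)) fun a => by
    refine (abs_le_of_sq_le_sq' ?_ (by positivity)).2
    have h1 := apriori_test hρ hφ hp hv hκ hκ0 hb hI0 hI a.2
    rw [← RCLike.norm_conj, ← integral_conj] at h1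
    simp only [map_mul, map_sum, conj_conj, conj_ofReal] at h1
    rw [hΛ, mul_pow, Real.sq_sqrt (by positivity), horm_norm_sq]
    refine h1.trans (le_of_eq (congrArg _ (integral_congr_ae ?_)))
    filter_upwards [hT a] with x hx
    rw [hx, norm_mul, Complex.norm_of_nonneg (Real.exp_pos _).le, mul_pow, sq (Real.exp _),
      ← Real.exp_add, show -(1 / 2) * φ x + -(1 / 2) * φ x = -φ x by ring]
  have h1 : AEStronglyMeasurable (fun x => -w x * (Real.exp (1 / 2 * φ x) : ℝ)) R.mu :=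
    (Lp.aestronglyMeasurable w).neg.mul (horm_sm_exp hφ _).continuous.aestronglyMeasurable
  have h2 : ∫⁻ x, ENNReal.ofReal (‖-w x * (Real.exp (1 / 2 * φ x) : ℝ)‖ ^ 2 * Real.exp (-φ x))
      ∂(R.mu) ≤ ENNReal.ofReal (2 * I) := by
    simp only [horm_exp_sq, norm_neg]
    rw [← ofReal_integral_eq_lintegral_ofReal (horm_int_sq w) (.of_forall fun x => sq_nonneg _),
      ← horm_norm_sq]
    exact ENNReal.ofReal_le_ofReal ((pow_le_pow_left₀ (norm_nonneg _) hw 2).trans
      (Real.sq_sqrt (by positivity)).le)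
  refine ⟨_, h1, h2, fun g hg j => ?_⟩
  have h3 := hr ⟨fun l x => if l = j then conj (g x) * (Real.exp (1 * φ x) : ℝ) else 0,
    fun l => horm_ite (hg.conj.mul_right (horm_sm_exp hφ 1)) _⟩
  rw [hΛ, horm_inner_one] at h3
  have h4 : ∫ x, R.db j v0 x * g x ∂(R.mu) =
      ∫ x, w x * (Real.exp (1 / 2 * φ x) : ℝ) * R.db j g x ∂(R.mu) := by
    refine (starRingEnd ℂ).injective ?_
    rw [← integral_conj, ← integral_conj]
    refine (integral_congr_ae (.of_forall fun x => ?_)).trans (h3.trans (integral_congr_ae ?_))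
    · have h5 := horm_exp 1 (-1) 0 (φ x) (by ring)
      rw [neg_one_mul, zero_mul, Real.exp_zero, ofReal_one] at h5
      simp only [mul_ite, mul_zero, Finset.sum_ite_eq', Finset.mem_univ, if_true, map_mul]
      linear_combination (-conj (R.db j v0 x) * conj (g x)) * h5
    · filter_upwards [hT ⟨fun l x => if l = j then conj (g x) * (Real.exp (1 * φ x) : ℝ) else 0,
        fun l => horm_ite (hg.conj.mul_right (horm_sm_exp hφ 1)) _⟩] with x hx
      rw [hx, horm_del_single hφ hg.1, map_mul, map_mul, conj_ofReal,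
        ← horm_exp 1 (-(1 / 2)) (1 / 2) (φ x) (by ring)]
      ring
  simp only [sub_mul]
  rw [integral_sub ((hg.db j).mul_left hv).integrable ((hg.db j).integrable_mul h1
    (Real.continuous_exp.comp hφ.continuous.neg) (fun _ => Real.exp_pos _)
    (h2.trans_lt ENNReal.ofReal_lt_top)), ibp_db hv hg, h4]
  simp only [neg_mul, integral_neg, sub_self]

end RD

end Pool.Agent.MP_c0606f_ag.Klt

end
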