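import Pool.Agent.MP_c0606f_ag.Klt.Base
import Pool.Agent.MP_c0606f_ag.Mg.Klt_Horm

-- part MP_c0606f_ag.Klt.Ev
section

/-! Evaluation of regular functions on a cover at points. -/

namespace Pool.Agent.MP_c0606f_ag.Klt

open MvPolynomial

namespace Cover

variable {ι L : Type} [Field L] [Algebra ℂ L] (C : Cover ι L)

theorem evPv_sub (q q' : Polynomial (MvPolynomial ι ℂ)) : C.pv (q - q') = C.pv q - C.pv q' :=
  Polynomial.eval₂_sub _

theorem evPv_P : C.pv C.P = 0 := C.root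

theorem evPv_zero : C.pv 0 = 0 := Polynomial.eval₂_zero _ _

theorem evPv_one : C.pv 1 = 1 := Polynomial.eval₂_one _ _

theorem evPv_pow (q : Polynomial (MvPolynomial ι ℂ)) (k : ℕ) : C.pv (q ^ k) = C.pv q ^ k :=
  Polynomial.eval₂_pow _ _ _

theorem aeval_ne {b : MvPolynomial ι ℂ} (hb : b ≠ 0) : aeval C.y b ≠ 0 :=
  fun h => hb (algebraicIndependent_iff.1 C.indep b h)

theorem pv_mem (q : Polynomial (MvPolynomial ι ℂ)) : C.pv q ∈ C.A :=
  C.mem_A.2 ⟨q, 0, by simp⟩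

theorem aeval_mem (b : MvPolynomial ι ℂ) : aeval C.y b ∈ C.A := by
  rw [← C.pv_C]; exact C.pv_mem _

theorem y_mem (i : ι) : C.y i ∈ C.A := by
  simpa using C.aeval_mem (X i)

theorem z_mem : C.z ∈ C.A := by
  rw [← C.pv_X]; exact C.pv_mem _

theorem inv_mem_of_dvd {b : MvPolynomial ι ℂ} (hb : b ∣ C.Δ) : (aeval C.y b)⁻¹ ∈ C.A := by
  obtain ⟨c, hc⟩ := hb
  have hb0 : b ≠ 0 := by
    rintro rfl
    exact C.Δ_ne (by rw [hc, zero_mul])
  refine C.mem_A.2 ⟨Polynomial.C c, 1, ?_⟩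
  rw [C.pv_C, pow_one, hc, map_mul, ← mul_assoc, inv_mul_cancel₀ (C.aeval_ne hb0), one_mul]

/-- `Δ = β(z) * P'(z)` -/
theorem exists_mul_deriv : ∃ q, aeval C.y C.Δ = C.pv q * C.pv (Polynomial.derivative C.P) := by
  obtain ⟨a, b, h⟩ := C.bez
  refine ⟨b, ?_⟩
  rw [← C.pv_C, h, C.pv_add, C.pv_mul, C.pv_mul, C.evPv_P, mul_zero, zero_add]

theorem θ_ne : C.θ ≠ 0 := by
  obtain ⟨q, hq⟩ := C.exists_mul_deriv
  have h := C.aeval_ne C.Δ_ne
  refine mul_ne_zero h fun h0 => h ?_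
  rw [hq, h0, mul_zero]

theorem θ_mem : C.θ ∈ C.A := C.A.mul_mem (C.aeval_mem _) (C.pv_mem _)

theorem θ_inv_mem : C.θ⁻¹ ∈ C.A := by
  obtain ⟨q, hq⟩ := C.exists_mul_deriv
  have h := C.aeval_ne C.Δ_ne
  have h1 : C.pv (Polynomial.derivative C.P) ≠ 0 := fun h0 => h (by rw [hq, h0, mul_zero])
  refine C.mem_A.2 ⟨q, 2, ?_⟩
  unfold θ
  field_simp
  rw [hq, mul_comm]

theorem natDegree_pos : 0 < C.P.natDegree := by
  by_contra h
  have h1 : C.P = 1 := C.monic.natDegree_eq_zero.1 (by omega)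
  have h2 := C.evPv_P
  rw [h1, C.evPv_one] at h2
  exact one_ne_zero h2

/-- the map to the ring generated by `y` -/
noncomputable def evψ : MvPolynomial ι ℂ →ₐ[ℂ] Algebra.adjoin ℂ (Set.range C.y) :=
  aeval fun i => ⟨C.y i, Algebra.subset_adjoin ⟨i, rfl⟩⟩

theorem evψ_coe (b : MvPolynomial ι ℂ) : (C.evψ b : L) = aeval C.y b := by
  have : (Algebra.adjoin ℂ (Set.range C.y)).val.comp C.evψ = aeval C.y := by
    ext i; simp [evψ]
  exact DFunLike.congr_fun this b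

theorem evψ_pv (q : Polynomial (MvPolynomial ι ℂ)) :
    Polynomial.aeval C.z (q.map C.evψ.toRingHom) = C.pv q := by
  rw [Polynomial.aeval_def, Polynomial.eval₂_map]
  unfold pv
  congr 1
  exact RingHom.ext fun b => C.evψ_coe b

theorem z_integral : IsIntegral (Algebra.adjoin ℂ (Set.range C.y)) C.z :=
  ⟨C.P.map C.evψ.toRingHom, C.monic.map _, by
    rw [← Polynomial.aeval_def, C.evψ_pv, C.evPv_P]⟩

theorem alg (a : L) : IsAlgebraic (Algebra.adjoin ℂ (Set.range C.y)) a := by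
  obtain ⟨q, b, hb, h⟩ := C.gen a
  have hq : IsIntegral (Algebra.adjoin ℂ (Set.range C.y)) (C.pv q) := by
    rw [← C.evψ_pv]
    exact adjoin_le_integralClosure C.z_integral (Polynomial.aeval_mem_adjoin_singleton _ _)
  have hb' : C.evψ b ≠ 0 := fun h0 => C.aeval_ne hb (by rw [← C.evψ_coe, h0]; rfl)
  refine IsAlgebraic.of_smul_isIntegral (y := C.evψ b) (by simpa using hb') ?_
  have : C.evψ b • a = C.pv q := by
    rw [Algebra.smul_def, mul_comm]
    change a * (C.evψ b : L) = _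
    rw [C.evψ_coe]; exact h
  rwa [this]

theorem basis : IsTranscendenceBasis ℂ C.y :=
  C.indep.isTranscendenceBasis_iff_isAlgebraic.2 ⟨C.alg⟩

include C in
theorem fg_top [Finite ι] : (⊤ : IntermediateField ℂ L).FG := by
  have hK : IntermediateField.adjoin ℂ (insert C.z (Set.range C.y)) = ⊤ := by
    set K := IntermediateField.adjoin ℂ (insert C.z (Set.range C.y))
    have hy : ∀ b : MvPolynomial ι ℂ, aeval C.y b ∈ K := by
      intro b
      have : aeval C.y b ∈ Algebra.adjoin ℂ (Set.range C.y) := by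
        rw [← C.evψ_coe]; exact (C.evψ b).2
      refine (Algebra.adjoin_le (S := K.toSubalgebra) ?_) this
      exact fun x hx => IntermediateField.subset_adjoin _ _ (Set.mem_insert_of_mem _ hx)
    have hz : C.z ∈ K := IntermediateField.subset_adjoin _ _ (Set.mem_insert _ _)
    have hq : ∀ q, C.pv q ∈ K := by
      intro q
      induction q using Polynomial.induction_on' with
      | add p q hp hq => rw [C.pv_add]; exact K.add_mem hp hq
      | monomial n b =>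
        rw [← Polynomial.C_mul_X_pow_eq_monomial, C.pv_mul, C.pv_C, C.evPv_pow, C.pv_X]
        exact K.mul_mem (hy b) (pow_mem hz n)
    refine eq_top_iff.2 fun a _ => ?_
    obtain ⟨q, b, hb, h⟩ := C.gen a
    have : a = C.pv q / aeval C.y b := by
      rw [eq_div_iff (C.aeval_ne hb)]; exact h
    rw [this]
    exact K.div_mem (hq q) (hy b)
  rw [← hK]
  exact IntermediateField.fg_adjoin_of_finite ((Set.finite_range _).insert _)

theorem Poly_le (M : ι → ℕ) {a : L} (ha : a ∈ C.Poly M) : ∃ q, a = C.pv q := by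
  induction ha using Submodule.span_induction with
  | mem x hx =>
    obtain ⟨α, j, -, -, rfl⟩ := hx
    exact ⟨Polynomial.C (monomial α 1) * Polynomial.X ^ j, by
      rw [C.pv_mul, C.pv_C, C.evPv_pow, C.pv_X]⟩
  | zero => exact ⟨0, C.evPv_zero.symm⟩
  | add x y _ _ hx hy =>
    obtain ⟨q, rfl⟩ := hx
    obtain ⟨q', rfl⟩ := hy
    exact ⟨q + q', (C.pv_add _ _).symm⟩
  | smul c x _ hx =>
    obtain ⟨q, rfl⟩ := hx
    exact ⟨Polynomial.C (MvPolynomial.C c) * q, by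
      rw [C.pv_mul, C.pv_C, Algebra.smul_def]; simp⟩

theorem Poly_mono {M M' : ι → ℕ} (h : ∀ i, M i ≤ M' i) : C.Poly M ≤ C.Poly M' := by
  refine Submodule.span_mono ?_
  rintro a ⟨α, j, h1, h2, rfl⟩
  exact ⟨α, j, fun i => (h1 i).trans (h i), h2, rfl⟩

theorem Poly_finite [Finite ι] (M : ι → ℕ) : Module.Finite ℂ (C.Poly M) := by
  refine Module.Finite.span_of_finite ℂ ?_
  classical
  have h1 : ((Set.Icc 0 (Finsupp.equivFunOnFinite.symm M)) ×ˢ (Set.Iio C.P.natDegree)).Finite :=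
    (Set.finite_Icc _ _).prod (Set.finite_Iio _)
  refine (h1.image fun p => aeval C.y (monomial p.1 (1 : ℂ)) * C.z ^ p.2).subset ?_
  rintro a ⟨α, j, h1, h2, rfl⟩
  exact ⟨(α, j), ⟨⟨zero_le, fun i => h1 i⟩, h2⟩, rfl⟩

theorem mem_Poly [Finite ι] (M : ι → ℕ) (p : ℕ → MvPolynomial ι ℂ)
    (hp : ∀ j i, degreeOf i (p j) ≤ M i) :
    ∑ j ∈ Finset.range C.P.natDegree, aeval C.y (p j) * C.z ^ j ∈ C.Poly M := by
  refine Submodule.sum_mem _ fun j hj => ?_
  rw [(p j).as_sum, map_sum, Finset.sum_mul]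
  refine Submodule.sum_mem _ fun α hα => ?_
  have : aeval C.y (monomial α (coeff α (p j))) * C.z ^ j =
      coeff α (p j) • (aeval C.y (monomial α (1 : ℂ)) * C.z ^ j) := by
    rw [← smul_mul_assoc, ← map_smul, smul_monomial, smul_eq_mul, mul_one]
  rw [this]
  exact Submodule.smul_mem _ _ (Submodule.subset_span
    ⟨α, j, fun i => (monomial_le_degreeOf i hα).trans (hp j i), Finset.mem_range.1 hj, rfl⟩)

/-- elements of `Poly` are combinations of the monomials `mono` with coefficients polynomials in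
`y none` -/
theorem Poly_option {κ : Type} [Fintype κ] [DecidableEq κ] (C : Cover (Option κ) L)
    (M : Option κ → ℕ) (M0 : ℕ) (hM : ∀ i, M (some i) ≤ M0) {a : L} (ha : a ∈ C.Poly M) :
    ∃ c : (κ → Fin (M0 + 1)) × Fin C.P.natDegree → Polynomial ℂ,
      a = ∑ b, Polynomial.aeval (C.y none) (c b) * C.mono M0 b := by
  induction ha using Submodule.span_induction with
  | mem x hx =>
    obtain ⟨α, j, h1, h2, rfl⟩ := hx
    let b0 : (κ → Fin (M0 + 1)) × Fin C.P.natDegree :=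
      (fun i => ⟨α (some i), Nat.lt_succ_of_le ((h1 _).trans (hM i))⟩, ⟨j, h2⟩)
    refine ⟨Pi.single b0 (Polynomial.X ^ α none), ?_⟩
    rw [Finset.sum_eq_single b0]
    · rw [Pi.single_eq_same, aeval_monomial, map_one, one_mul, Finsupp.prod_fintype _ _ (by simp),
        Fintype.prod_option, map_pow, Polynomial.aeval_X, mul_assoc]
      rfl
    · intro b _ hb
      rw [Pi.single_eq_of_ne hb, map_zero, zero_mul]
    · simp
  | zero => exact ⟨0, by simp⟩
  | add x y _ _ hx hy =>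
    obtain ⟨c, rfl⟩ := hx
    obtain ⟨c', rfl⟩ := hy
    exact ⟨c + c', by simp [add_mul, Finset.sum_add_distrib]⟩
  | smul t x _ hx =>
    obtain ⟨c, rfl⟩ := hx
    exact ⟨t • c, by simp [Finset.smul_sum]⟩

variable {R : Type} [Field R] {φ : ℂ →+* R} {y : ι → R} {z : R}

theorem evKill (hz : C.P.eval₂ (eval₂Hom φ y) z = 0) {q : Polynomial (MvPolynomial ι ℂ)}
    (hq : C.pv q = 0) : q.eval₂ (eval₂Hom φ y) z = 0 := by
  obtain ⟨r, rfl⟩ := C.minimal q hq
  rw [Polynomial.eval₂_mul, hz, zero_mul]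

theorem evCross (hz : C.P.eval₂ (eval₂Hom φ y) z = 0) {a : L}
    {q q' : Polynomial (MvPolynomial ι ℂ)} {b b' : MvPolynomial ι ℂ}
    (h : a * aeval C.y b = C.pv q) (h' : a * aeval C.y b' = C.pv q') :
    q.eval₂ (eval₂Hom φ y) z * eval₂Hom φ y b' = q'.eval₂ (eval₂Hom φ y) z * eval₂Hom φ y b := by
  have := C.evKill hz (q := q * Polynomial.C b' - q' * Polynomial.C b) (by
    rw [C.evPv_sub, C.pv_mul, C.pv_mul, C.pv_C, C.pv_C, ← h, ← h']; ring)
  rwa [Polynomial.eval₂_sub, Polynomial.eval₂_mul, Polynomial.eval₂_mul, Polynomial.eval₂_C,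
    Polynomial.eval₂_C, sub_eq_zero] at this

/-- independence of the representation: use `minimal` for
`q * C (Δ ^ k') - q' * C (Δ ^ k)` -/
theorem ev_spec (h : C.IsPt φ y z) {a : L} {q : Polynomial (MvPolynomial ι ℂ)} {k : ℕ}
    (ha : a * aeval C.y C.Δ ^ k = C.pv q) :
    C.ev φ y z a = q.eval₂ (eval₂Hom φ y) z / eval₂Hom φ y C.Δ ^ k := by
  have hA : a ∈ C.A := C.mem_A.2 ⟨q, k, ha⟩
  have h1 := (C.mem_A.1 hA).choose_spec.choose_spec
  rw [← map_pow] at h1 ha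
  have h2 := C.evCross h.1 h1 ha
  rw [map_pow, map_pow] at h2
  unfold ev
  rw [dif_pos hA, div_eq_div_iff (pow_ne_zero _ h.2) (pow_ne_zero _ h.2)]
  exact h2

theorem evPv (h : C.IsPt φ y z) (q : Polynomial (MvPolynomial ι ℂ)) :
    C.ev φ y z (C.pv q) = q.eval₂ (eval₂Hom φ y) z := by
  rw [C.ev_spec h (q := q) (k := 0) (by simp), pow_zero, div_one]

theorem evAdd (h : C.IsPt φ y z) {a b : L} (ha : a ∈ C.A) (hb : b ∈ C.A) :
    C.ev φ y z (a + b) = C.ev φ y z a + C.ev φ y z b := by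
  obtain ⟨q, k, hq⟩ := C.mem_A.1 ha
  obtain ⟨q', k', hq'⟩ := C.mem_A.1 hb
  have hs : (a + b) * aeval C.y C.Δ ^ (k + k') =
      C.pv (q * Polynomial.C (C.Δ ^ k') + q' * Polynomial.C (C.Δ ^ k)) := by
    rw [C.pv_add, C.pv_mul, C.pv_mul, C.pv_C, C.pv_C, ← hq, ← hq', map_pow, map_pow]; ring
  rw [C.ev_spec h hs, C.ev_spec h hq, C.ev_spec h hq', Polynomial.eval₂_add, Polynomial.eval₂_mul,
    Polynomial.eval₂_mul, Polynomial.eval₂_C, Polynomial.eval₂_C, map_pow, map_pow, pow_add]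
  have := h.2
  field_simp

theorem evMul (h : C.IsPt φ y z) {a b : L} (ha : a ∈ C.A) (hb : b ∈ C.A) :
    C.ev φ y z (a * b) = C.ev φ y z a * C.ev φ y z b := by
  obtain ⟨q, k, hq⟩ := C.mem_A.1 ha
  obtain ⟨q', k', hq'⟩ := C.mem_A.1 hb
  have hs : (a * b) * aeval C.y C.Δ ^ (k + k') = C.pv (q * q') := by
    rw [C.pv_mul, ← hq, ← hq']; ring
  rw [C.ev_spec h hs, C.ev_spec h hq, C.ev_spec h hq', Polynomial.eval₂_mul, div_mul_div_comm,
    pow_add]

/-- evaluation as a ring homomorphism -/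
noncomputable def evHom (h : C.IsPt φ y z) : C.A →+* R where
  toFun a := C.ev φ y z a
  map_one' := by
    have := C.evPv h 1
    rwa [C.evPv_one, Polynomial.eval₂_one] at this
  map_mul' a b := C.evMul h a.2 b.2
  map_zero' := by
    have := C.evPv h 0
    rwa [C.evPv_zero, Polynomial.eval₂_zero] at this
  map_add' a b := C.evAdd h a.2 b.2

theorem ev_pv (h : C.IsPt φ y z) (q : Polynomial (MvPolynomial ι ℂ)) :
    C.ev φ y z (C.pv q) = q.eval₂ (eval₂Hom φ y) z := C.evPv h q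

theorem ev_aeval (h : C.IsPt φ y z) (b : MvPolynomial ι ℂ) :
    C.ev φ y z (aeval C.y b) = eval₂Hom φ y b := by
  rw [← C.pv_C, C.ev_pv h, Polynomial.eval₂_C]

theorem ev_y (h : C.IsPt φ y z) (i : ι) : C.ev φ y z (C.y i) = y i := by
  simpa using C.ev_aeval h (X i)

theorem ev_z (h : C.IsPt φ y z) : C.ev φ y z C.z = z := by
  have := C.ev_pv h Polynomial.X
  rwa [C.pv_X, Polynomial.eval₂_X] at this

theorem ev_algebraMap (h : C.IsPt φ y z) (c : ℂ) : C.ev φ y z (algebraMap ℂ L c) = φ c := by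
  simpa using C.ev_aeval h (MvPolynomial.C c)

theorem ev_zero (h : C.IsPt φ y z) : C.ev φ y z 0 = 0 := (C.evHom h).map_zero

theorem ev_one (h : C.IsPt φ y z) : C.ev φ y z 1 = 1 := (C.evHom h).map_one

theorem ev_add (h : C.IsPt φ y z) {a b : L} (ha : a ∈ C.A) (hb : b ∈ C.A) :
    C.ev φ y z (a + b) = C.ev φ y z a + C.ev φ y z b := C.evAdd h ha hb

theorem ev_sub (h : C.IsPt φ y z) {a b : L} (ha : a ∈ C.A) (hb : b ∈ C.A) :
    C.ev φ y z (a - b) = C.ev φ y z a - C.ev φ y z b :=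
  map_sub (C.evHom h) ⟨a, ha⟩ ⟨b, hb⟩

theorem ev_mul (h : C.IsPt φ y z) {a b : L} (ha : a ∈ C.A) (hb : b ∈ C.A) :
    C.ev φ y z (a * b) = C.ev φ y z a * C.ev φ y z b := C.evMul h ha hb

theorem ev_pow (h : C.IsPt φ y z) {a : L} (ha : a ∈ C.A) (k : ℕ) :
    C.ev φ y z (a ^ k) = C.ev φ y z a ^ k :=
  map_pow (C.evHom h) ⟨a, ha⟩ k

theorem ev_smul (h : C.IsPt φ y z) (c : ℂ) {a : L} (ha : a ∈ C.A) :
    C.ev φ y z (c • a) = φ c * C.ev φ y z a := by
  rw [Algebra.smul_def, C.ev_mul h (C.A.algebraMap_mem c) ha, C.ev_algebraMap h]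

theorem ev_sum (h : C.IsPt φ y z) {β : Type} (S : Finset β) {a : β → L} (ha : ∀ i ∈ S, a i ∈ C.A) :
    C.ev φ y z (∑ i ∈ S, a i) = ∑ i ∈ S, C.ev φ y z (a i) := by
  classical
  induction S using Finset.induction_on with
  | empty => simpa using C.ev_zero h
  | insert i S hi ih =>
    have hS : ∀ j ∈ S, a j ∈ C.A := fun j hj => ha j (Finset.mem_insert_of_mem hj)
    rw [Finset.sum_insert hi, Finset.sum_insert hi,
      C.ev_add h (ha i (Finset.mem_insert_self _ _)) (sum_mem hS), ih hS]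

theorem ev_prod (h : C.IsPt φ y z) {β : Type} (S : Finset β) {a : β → L}
    (ha : ∀ i ∈ S, a i ∈ C.A) : C.ev φ y z (∏ i ∈ S, a i) = ∏ i ∈ S, C.ev φ y z (a i) := by
  classical
  induction S using Finset.induction_on with
  | empty => simpa using C.ev_one h
  | insert i S hi ih =>
    have hS : ∀ j ∈ S, a j ∈ C.A := fun j hj => ha j (Finset.mem_insert_of_mem hj)
    rw [Finset.prod_insert hi, Finset.prod_insert hi,
      C.ev_mul h (ha i (Finset.mem_insert_self _ _)) (prod_mem hS), ih hS]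

theorem ev_inv (h : C.IsPt φ y z) {a : L} (h0 : a ≠ 0) (ha : a ∈ C.A) (ha' : a⁻¹ ∈ C.A) :
    C.ev φ y z a ≠ 0 ∧ C.ev φ y z a⁻¹ = (C.ev φ y z a)⁻¹ := by
  have h1 := C.ev_mul h ha ha'
  rw [mul_inv_cancel₀ h0, C.ev_one h] at h1
  exact ⟨left_ne_zero_of_mul_eq_one h1.symm, (eq_inv_of_mul_eq_one_right h1.symm)⟩

theorem evHom_aeval (j : L →+* R) (hj : ∀ c, j (algebraMap ℂ L c) = φ c) :
    eval₂Hom φ (fun i => j (C.y i)) =
      j.comp (aeval C.y : MvPolynomial ι ℂ →ₐ[ℂ] L).toRingHom := by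
  ext c
  · simp [hj]
  · simp

theorem evHom_pv (j : L →+* R) (hj : ∀ c, j (algebraMap ℂ L c) = φ c)
    (q : Polynomial (MvPolynomial ι ℂ)) :
    q.eval₂ (eval₂Hom φ fun i => j (C.y i)) (j C.z) = j (C.pv q) := by
  rw [C.evHom_aeval j hj]
  exact (Polynomial.hom_eval₂ _ _ _ _).symm

/-- a field homomorphism defines a point and agrees with evaluation -/
theorem isPt_hom (j : L →+* R) (hj : ∀ c, j (algebraMap ℂ L c) = φ c) :
    C.IsPt φ (fun i => j (C.y i)) (j C.z) := by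
  refine ⟨by rw [C.evHom_pv j hj, C.evPv_P, map_zero], ?_⟩
  rw [C.evHom_aeval j hj]
  exact (map_ne_zero j).2 (C.aeval_ne C.Δ_ne)

theorem ev_hom (j : L →+* R) (hj : ∀ c, j (algebraMap ℂ L c) = φ c) {a : L} (ha : a ∈ C.A) :
    C.ev φ (fun i => j (C.y i)) (j C.z) a = j a := by
  obtain ⟨q, k, hq⟩ := C.mem_A.1 ha
  have h := C.isPt_hom j hj
  rw [C.ev_spec h hq, C.evHom_pv j hj, ← hq, div_eq_iff (pow_ne_zero _ h.2), C.evHom_aeval j hj,
    map_mul, map_pow]
  rfl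

theorem evConst (b : MvPolynomial ι ℂ) : ∃ C0 : Finset ℂ, ∀ (R : Type) [Field R] (φ φ' : ℂ →+* R),
    (∀ c ∈ C0, φ c = φ' c) → ∀ y : ι → R, eval₂Hom φ y b = eval₂Hom φ' y b := by
  classical
  refine ⟨b.support.image fun α => coeff α b, fun R _ φ φ' h y => ?_⟩
  rw [coe_eval₂Hom, coe_eval₂Hom, eval₂_eq, eval₂_eq]
  refine Finset.sum_congr rfl fun α hα => ?_
  rw [h _ (Finset.mem_image_of_mem _ hα)]

theorem evConst' (q : Polynomial (MvPolynomial ι ℂ)) : ∃ C0 : Finset ℂ,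
    ∀ (R : Type) [Field R] (φ φ' : ℂ →+* R), (∀ c ∈ C0, φ c = φ' c) → ∀ (y : ι → R) (z : R),
      q.eval₂ (eval₂Hom φ y) z = q.eval₂ (eval₂Hom φ' y) z := by
  classical
  choose F hF using fun n => evConst (q.coeff n)
  refine ⟨q.support.biUnion F, fun R _ φ φ' h y z => ?_⟩
  rw [Polynomial.eval₂_eq_sum, Polynomial.eval₂_eq_sum]
  refine Finset.sum_congr rfl fun n hn => ?_
  exact congrArg (· * z ^ n) (hF n R φ φ' (fun c hc => h c (Finset.mem_biUnion.2 ⟨n, hn, hc⟩)) y)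

/-- evaluation of finitely many functions only depends on finitely many constants: take the
coefficients of `P`, `Δ` and of the numerators -/
theorem exists_consts (T : Finset L) : ∃ C0 : Finset ℂ, ∀ (R : Type) [Field R] (φ φ' : ℂ →+* R),
    (∀ c ∈ C0, φ c = φ' c) → ∀ (y : ι → R) (z : R), C.IsPt φ y z →
      C.IsPt φ' y z ∧ ∀ a ∈ T, C.ev φ y z a = C.ev φ' y z a := by
  classical
  obtain ⟨F1, h1⟩ := evConst' C.P
  obtain ⟨F2, h2⟩ := evConst C.Δ
  choose F hF using fun a : L => evConst' (if h : a ∈ C.A then (C.mem_A.1 h).choose else 0)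
  refine ⟨F1 ∪ F2 ∪ T.biUnion F, fun R _ φ φ' h y z hp => ?_⟩
  have e1 := h1 R φ φ' (fun c hc => h c (by simp [hc])) y z
  have e2 := h2 R φ φ' (fun c hc => h c (by simp [hc])) y
  refine ⟨⟨e1 ▸ hp.1, e2 ▸ hp.2⟩, fun a ha => ?_⟩
  have e3 := hF a R φ φ' (fun c hc => h c (Finset.mem_union_right _
    (Finset.mem_biUnion.2 ⟨a, ha, hc⟩))) y z
  unfold ev
  by_cases hA : a ∈ C.A
  · rw [dif_pos hA] at e3
    rw [dif_pos hA, dif_pos hA, e3, e2]
  · rw [dif_neg hA, dif_neg hA]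

/-- Generic points.  Define `j` by `a ↦ q(y, z) / b(y)` for `a * b = q(y, z)` (`gen`); this is well
defined by `minimal`.  (Or: the subring `ℂ[y][z]` is `AdjoinRoot P` and `L` is its fraction field;
the map on it is injective because a nonzero element divides a nonzero polynomial in `y`.) -/
theorem exists_hom (hz : C.P.eval₂ (eval₂Hom φ y) z = 0)
    (hy : ∀ p : MvPolynomial ι ℂ, p ≠ 0 → eval₂Hom φ y p ≠ 0) :
    ∃ j : L →+* R, (∀ c, j (algebraMap ℂ L c) = φ c) ∧ (∀ i, j (C.y i) = y i) ∧ j C.z = z := by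
  choose q b hb hq using C.gen
  let f : L → R := fun a => (q a).eval₂ (eval₂Hom φ y) z / eval₂Hom φ y (b a)
  have spec : ∀ {a q' b'}, b' ≠ 0 → a * aeval C.y b' = C.pv q' →
      f a = q'.eval₂ (eval₂Hom φ y) z / eval₂Hom φ y b' := by
    intro a q' b' hb' h
    exact (div_eq_div_iff (hy _ (hb a)) (hy _ hb')).2 (C.evCross hz (hq a) h)
  have hpv : ∀ q', f (C.pv q') = q'.eval₂ (eval₂Hom φ y) z := fun q' => by
    rw [spec (q' := q') one_ne_zero (by simp), map_one, div_one]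
  have hae : ∀ b', f (aeval C.y b') = eval₂Hom φ y b' := fun b' => by
    rw [← C.pv_C, hpv, Polynomial.eval₂_C]
  have hq' : ∀ a, a * aeval C.y (b a) = C.pv (q a) := hq
  refine ⟨⟨⟨⟨f, by simpa using hae 1⟩, fun a a' => ?_⟩, by simpa using hae 0, fun a a' => ?_⟩,
    fun c => by simpa using hae (MvPolynomial.C c), fun i => by simpa using hae (X i), ?_⟩
  · change f (a * a') = f a * f a'
    rw [spec (q' := q a * q a') (mul_ne_zero (hb a) (hb a'))
      (by rw [C.pv_mul, ← hq', ← hq', map_mul]; ring), Polynomial.eval₂_mul, map_mul,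
      ← div_mul_div_comm]
  · change f (a + a') = f a + f a'
    rw [spec (q' := q a * Polynomial.C (b a') + q a' * Polynomial.C (b a))
      (mul_ne_zero (hb a) (hb a'))
      (by rw [C.pv_add, C.pv_mul, C.pv_mul, C.pv_C, C.pv_C, ← hq', ← hq', map_mul]; ring),
      Polynomial.eval₂_add, Polynomial.eval₂_mul, Polynomial.eval₂_mul, Polynomial.eval₂_C,
      Polynomial.eval₂_C, map_mul, div_add_div _ _ (hy _ (hb a)) (hy _ (hb a')),
      mul_comm (eval₂Hom φ y (b a)) (Polynomial.eval₂ _ _ _)]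
  · have := hpv Polynomial.X
    rwa [C.pv_X, Polynomial.eval₂_X] at this

theorem evInv {S K : Type} [CommRing S] [Nontrivial S] [Field K] (e : S →+* K) (w : K)
    {P : Polynomial S} (hP : P.Monic) (hw : P.eval₂ e w = 0) {q : Polynomial S}
    (hq : q.eval₂ e w ≠ 0) : ∃ (q' : Polynomial S) (r : S), r ≠ 0 ∧
      q.eval₂ e w * q'.eval₂ e w = e r := by
  let := e.toAlgebra
  have hw' : IsIntegral S w := ⟨P, hP, hw⟩
  have hm : Polynomial.aeval w q ∈ Algebra.adjoin S {w} := Polynomial.aeval_mem_adjoin_singleton _ _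
  have hi : IsIntegral S (Polynomial.aeval w q) := adjoin_le_integralClosure hw' hm
  obtain ⟨t, ht, r, hr, h⟩ :=
    hi.isAlgebraic.exists_nonzero_eq_adjoin_mul (mem_nonZeroDivisors_of_ne_zero hq)
  have ht' : t ∈ Algebra.adjoin S {w} := Algebra.adjoin_le (Set.singleton_subset_iff.2 hm) ht
  rw [Algebra.adjoin_singleton_eq_range_aeval] at ht'
  obtain ⟨q', rfl⟩ := ht'
  exact ⟨q', r, hr, h⟩

/-- coordinates on the product with a line -/
noncomputable def evY (o : Option ι) : RatFunc L := o.elim RatFunc.X fun i => RatFunc.C (C.y i)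

/-- the inclusion of polynomial rings -/
noncomputable def evρ (ι : Type) : MvPolynomial ι ℂ →+* MvPolynomial (Option ι) ℂ :=
  (rename some : MvPolynomial ι ℂ →ₐ[ℂ] MvPolynomial (Option ι) ℂ).toRingHom

theorem evAlg (c : ℂ) : algebraMap ℂ (RatFunc L) c = RatFunc.C (algebraMap ℂ L c) := rfl

theorem evK1 : (aeval C.evY : MvPolynomial (Option ι) ℂ →ₐ[ℂ] RatFunc L).toRingHom.comp (evρ ι) =
    RatFunc.C.comp (aeval C.y : MvPolynomial ι ℂ →ₐ[ℂ] L).toRingHom := by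
  ext c
  · simp [evρ, evAlg]
  · simp [evρ, evY]

theorem evK1' (b : MvPolynomial ι ℂ) : aeval C.evY (evρ ι b) = RatFunc.C (aeval C.y b) :=
  DFunLike.congr_fun C.evK1 b

theorem evK2 (q : Polynomial (MvPolynomial ι ℂ)) :
    (q.map (evρ ι)).eval₂ (aeval C.evY : MvPolynomial (Option ι) ℂ →ₐ[ℂ] RatFunc L).toRingHom
      (RatFunc.C C.z) = RatFunc.C (C.pv q) := by
  rw [Polynomial.eval₂_map, C.evK1]
  exact (Polynomial.hom_eval₂ _ _ _ _).symm

/-- expansion in the new variable -/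
noncomputable def evΘ (ι : Type) : Polynomial (MvPolynomial (Option ι) ℂ) ≃+*
    Polynomial (Polynomial (MvPolynomial ι ℂ)) :=
  (Polynomial.mapEquiv (optionEquivLeft ℂ ι).toRingEquiv).trans
    Polynomial.Bivariate.swap.toRingEquiv

theorem evΘ_apply (q : Polynomial (MvPolynomial (Option ι) ℂ)) :
    evΘ ι q = Polynomial.Bivariate.swap (q.map (optionEquivLeft ℂ ι).toRingEquiv) := rfl

theorem evΘ_map (q : Polynomial (MvPolynomial ι ℂ)) : evΘ ι (q.map (evρ ι)) = Polynomial.C q := by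
  have : ((optionEquivLeft ℂ ι).toRingEquiv : _ →+* _).comp (evρ ι) = Polynomial.C := by
    ext c : 1
    · ext c : 1
      simp [evρ]
    · simp [evρ]
  rw [evΘ_apply, Polynomial.map_map, this, Polynomial.Bivariate.swap_map_C]

theorem evΘ_none : evΘ ι (Polynomial.C (X none)) = Polynomial.X := by
  rw [evΘ_apply, Polynomial.map_C]
  simpa using Polynomial.Bivariate.swap_X (R := MvPolynomial ι ℂ)

theorem evK3 (q : Polynomial (MvPolynomial (Option ι) ℂ)) :
    q.eval₂ (aeval C.evY : MvPolynomial (Option ι) ℂ →ₐ[ℂ] RatFunc L).toRingHom (RatFunc.C C.z) =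
      algebraMap (Polynomial L) (RatFunc L) ((evΘ ι q).map (Polynomial.eval₂RingHom
        (aeval C.y : MvPolynomial ι ℂ →ₐ[ℂ] L).toRingHom C.z)) := by
  have key : Polynomial.eval₂RingHom
      (aeval C.evY : MvPolynomial (Option ι) ℂ →ₐ[ℂ] RatFunc L).toRingHom (RatFunc.C C.z) =
      (algebraMap (Polynomial L) (RatFunc L)).comp ((Polynomial.mapRingHom
        (Polynomial.eval₂RingHom (aeval C.y : MvPolynomial ι ℂ →ₐ[ℂ] L).toRingHom C.z)).comp
          (evΘ ι).toRingHom) := by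
    have h1 : ∀ q : Polynomial (MvPolynomial ι ℂ), Polynomial.eval₂RingHom
        (aeval C.evY : MvPolynomial (Option ι) ℂ →ₐ[ℂ] RatFunc L).toRingHom (RatFunc.C C.z)
          (q.map (evρ ι)) =
        (algebraMap (Polynomial L) (RatFunc L)).comp ((Polynomial.mapRingHom
          (Polynomial.eval₂RingHom (aeval C.y : MvPolynomial ι ℂ →ₐ[ℂ] L).toRingHom C.z)).comp
            (evΘ ι).toRingHom) (q.map (evρ ι)) := fun q => by
      change _ = algebraMap (Polynomial L) (RatFunc L) ((evΘ ι (q.map (evρ ι))).map _)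
      rw [evΘ_map, Polynomial.map_C, RatFunc.algebraMap_C]
      exact C.evK2 q
    refine Polynomial.ringHom_ext' (MvPolynomial.ringHom_ext (fun c => ?_) fun o => ?_) ?_
    · have := h1 (Polynomial.C (MvPolynomial.C c))
      rwa [Polynomial.map_C, show evρ ι (MvPolynomial.C c) = MvPolynomial.C c from rename_C _ _]
        at this
    · cases o with
      | none =>
        change Polynomial.eval₂ _ _ (Polynomial.C (X none)) =
          algebraMap (Polynomial L) (RatFunc L) ((evΘ ι (Polynomial.C (X none))).map _)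
        rw [evΘ_none, Polynomial.map_X, RatFunc.algebraMap_X, Polynomial.eval₂_C]
        exact aeval_X _ _
      | some i =>
        have := h1 (Polynomial.C (X i))
        rwa [Polynomial.map_C, show evρ ι (X i) = X (some i) from rename_X _ _] at this
    · have := h1 Polynomial.X
      rwa [Polynomial.map_X] at this
  exact DFunLike.congr_fun key q

theorem evMin (q : Polynomial (MvPolynomial (Option ι) ℂ))
    (hq : q.eval₂ (aeval C.evY : MvPolynomial (Option ι) ℂ →ₐ[ℂ] RatFunc L).toRingHom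
      (RatFunc.C C.z) = 0) : C.P.map (evρ ι) ∣ q := by
  rw [C.evK3, map_eq_zero_iff _ (RatFunc.algebraMap_injective L)] at hq
  rw [← map_dvd_iff (evΘ ι), evΘ_map, Polynomial.C_dvd_iff_dvd_coeff]
  intro n
  apply C.minimal
  have := congrArg (fun p => Polynomial.coeff p n) hq
  rwa [Polynomial.coeff_map, Polynomial.coeff_zero] at this

theorem evIndep : AlgebraicIndependent ℂ C.evY := by
  refine algebraicIndependent_iff.2 fun b hb => ?_
  have h := C.evMin (Polynomial.C b) (by rw [Polynomial.eval₂_C]; exact hb)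
  by_contra h0
  have h1 := Polynomial.natDegree_le_of_dvd h (Polynomial.C_ne_zero.2 h0)
  rw [C.monic.natDegree_map, Polynomial.natDegree_C] at h1
  exact absurd C.natDegree_pos (not_lt.2 h1)

theorem evGenP (p : Polynomial L) : ∃ (q : Polynomial (MvPolynomial (Option ι) ℂ))
    (b : MvPolynomial (Option ι) ℂ), b ≠ 0 ∧
      algebraMap (Polynomial L) (RatFunc L) p * aeval C.evY b =
        q.eval₂ (aeval C.evY : MvPolynomial (Option ι) ℂ →ₐ[ℂ] RatFunc L).toRingHom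
          (RatFunc.C C.z) := by
  induction p using Polynomial.induction_on' with
  | add p p' hp hp' =>
    obtain ⟨q, b, hb, h⟩ := hp
    obtain ⟨q', b', hb', h'⟩ := hp'
    refine ⟨q * Polynomial.C b' + q' * Polynomial.C b, b * b', mul_ne_zero hb hb', ?_⟩
    rw [Polynomial.eval₂_add, Polynomial.eval₂_mul, Polynomial.eval₂_mul, Polynomial.eval₂_C,
      Polynomial.eval₂_C, ← h, ← h', map_add, map_mul]
    change _ = _ * aeval C.evY b' + _ * aeval C.evY b
    ring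
  | monomial n a =>
    obtain ⟨q, b, hb, h⟩ := C.gen a
    refine ⟨q.map (evρ ι) * Polynomial.C (X none ^ n), evρ ι b,
      fun h0 => hb (rename_injective _ (Option.some_injective ι) (h0.trans (map_zero _).symm)), ?_⟩
    rw [Polynomial.eval₂_mul, C.evK2, Polynomial.eval₂_C, C.evK1',
      ← Polynomial.C_mul_X_pow_eq_monomial, map_mul, map_pow, map_pow, RatFunc.algebraMap_C,
      RatFunc.algebraMap_X, show C.pv q = _ from h.symm, map_mul]
    change _ = _ * aeval C.evY (X none) ^ n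
    rw [aeval_X]
    change _ = _ * RatFunc.X ^ n
    ring

theorem evGen (a : RatFunc L) : ∃ (q : Polynomial (MvPolynomial (Option ι) ℂ))
    (b : MvPolynomial (Option ι) ℂ), b ≠ 0 ∧ a * aeval C.evY b =
      q.eval₂ (aeval C.evY : MvPolynomial (Option ι) ℂ →ₐ[ℂ] RatFunc L).toRingHom
        (RatFunc.C C.z) := by
  obtain ⟨q1, b1, hb1, h1⟩ := C.evGenP a.num
  obtain ⟨q2, b2, hb2, h2⟩ := C.evGenP a.denom
  have hd : algebraMap (Polynomial L) (RatFunc L) a.denom ≠ 0 :=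
    RatFunc.algebraMap_ne_zero (RatFunc.denom_ne_zero a)
  have hb2' : aeval C.evY b2 ≠ 0 := fun h => hb2 (algebraicIndependent_iff.1 C.evIndep _ h)
  obtain ⟨q3, r, hr, h3⟩ := evInv
    (aeval C.evY : MvPolynomial (Option ι) ℂ →ₐ[ℂ] RatFunc L).toRingHom (RatFunc.C C.z)
    (C.monic.map (evρ ι)) (by rw [C.evK2, C.evPv_P, map_zero]) (q := q2)
    (by rw [← h2]; exact mul_ne_zero hd hb2')
  refine ⟨q1 * Polynomial.C b2 * q3, b1 * r, mul_ne_zero hb1 hr, ?_⟩
  have ha : a * algebraMap (Polynomial L) (RatFunc L) a.denom =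
      algebraMap (Polynomial L) (RatFunc L) a.num :=
    ((div_eq_iff hd).1 (RatFunc.num_div_denom a)).symm
  rw [Polynomial.eval₂_mul, Polynomial.eval₂_mul, Polynomial.eval₂_C, map_mul,
    show aeval C.evY r = _ from h3.symm, ← h1, ← h2, ← ha]
  change _ = _ * aeval C.evY b2 * _
  ring

/-- The product of the cover with a line, with the origin of the line removed.  For `minimal`:
divide `q` by the monic `P`; the remainder `ρ` has smaller degree and kills `z`; expand its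
coefficients in the new variable (`optionEquivLeft`), which is transcendental over `L`; each
component is a polynomial of degree `< deg P` over `ℂ[y]` killing `z`, hence zero. -/
noncomputable def ext : Cover (Option ι) (RatFunc L) where
  y o := o.elim RatFunc.X fun i => RatFunc.C (C.y i)
  z := RatFunc.C C.z
  P := C.P.map (rename some : MvPolynomial ι ℂ →ₐ[ℂ] MvPolynomial (Option ι) ℂ).toRingHom
  Δ := X none * rename some C.Δ
  indep := C.evIndep
  monic := C.monic.map _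
  root := (C.evK2 C.P).trans (by rw [C.evPv_P, map_zero])
  minimal := C.evMin
  gen := C.evGen
  Δ_ne := mul_ne_zero (X_ne_zero _) fun h0 =>
    C.Δ_ne (rename_injective _ (Option.some_injective ι) (h0.trans (map_zero _).symm))
  bez := by
    obtain ⟨a, b, h⟩ := C.bez
    refine ⟨Polynomial.C (X none) * a.map (evρ ι), Polynomial.C (X none) * b.map (evρ ι), ?_⟩
    have := congrArg (Polynomial.map (evρ ι)) h
    rw [Polynomial.map_C, Polynomial.map_add, Polynomial.map_mul, Polynomial.map_mul,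
      ← Polynomial.derivative_map] at this
    rw [Polynomial.C_mul, mul_assoc, mul_assoc, ← mul_add]
    exact congrArg _ this

@[simp] theorem ext_y_none : C.ext.y none = RatFunc.X := rfl
@[simp] theorem ext_y_some (i : ι) : C.ext.y (some i) = RatFunc.C (C.y i) := rfl
@[simp] theorem ext_z : C.ext.z = RatFunc.C C.z := rfl

theorem ext_natDegree : C.ext.P.natDegree = C.P.natDegree := C.monic.natDegree_map _

theorem ext_aeval (b : MvPolynomial ι ℂ) :
    aeval C.ext.y (rename some b) = RatFunc.C (aeval C.y b) := C.evK1' b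

theorem evExt_Δ : aeval C.ext.y C.ext.Δ = RatFunc.X * RatFunc.C (aeval C.y C.Δ) := by
  change aeval C.ext.y (X none * rename some C.Δ) = _
  rw [map_mul, aeval_X, C.ext_aeval, C.ext_y_none]

theorem evExt_pv (q : Polynomial (MvPolynomial ι ℂ)) :
    C.ext.pv (q.map (evρ ι)) = RatFunc.C (C.pv q) := C.evK2 q

theorem ext_θ : C.ext.θ = RatFunc.X * RatFunc.C C.θ := by
  unfold θ
  rw [C.evExt_Δ, map_mul, mul_assoc, ← C.evExt_pv, ← Polynomial.derivative_map]
  rfl

theorem evExt_rep {a : L} {q : Polynomial (MvPolynomial ι ℂ)} {k : ℕ}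
    (h : a * aeval C.y C.Δ ^ k = C.pv q) : RatFunc.C a * aeval C.ext.y C.ext.Δ ^ k =
      C.ext.pv (q.map (evρ ι) * Polynomial.C (X none ^ k)) := by
  rw [C.ext.pv_mul, C.ext.pv_C, C.evExt_pv, ← h, C.evExt_Δ, map_pow, aeval_X, C.ext_y_none,
    map_mul, map_pow]
  ring

theorem ext_mem {a : L} (ha : a ∈ C.A) : RatFunc.C a ∈ C.ext.A := by
  obtain ⟨q, k, h⟩ := C.mem_A.1 ha
  exact C.ext.mem_A.2 ⟨_, k, C.evExt_rep h⟩

theorem evK4 (τ : R) : (eval₂Hom φ fun o : Option ι => o.elim τ y).comp (evρ ι) = eval₂Hom φ y := by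
  ext c
  · simp [evρ]
  · simp [evρ]

theorem evK5 (τ : R) : eval₂Hom φ (fun o : Option ι => o.elim τ y) C.ext.Δ =
    τ * eval₂Hom φ y C.Δ := by
  change eval₂Hom φ (fun o : Option ι => o.elim τ y) (X none * evρ ι C.Δ) = _
  rw [map_mul, eval₂Hom_X']
  exact congrArg _ (DFunLike.congr_fun (evK4 τ) C.Δ)

theorem ext_isPt {τ : R} : C.ext.IsPt φ (fun o => o.elim τ y) z ↔ τ ≠ 0 ∧ C.IsPt φ y z := by
  unfold IsPt
  rw [C.evK5, show C.ext.P = C.P.map (evρ ι) from rfl, Polynomial.eval₂_map, evK4, mul_ne_zero_iff]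
  tauto

theorem ext_ev {τ : R} (h : C.ext.IsPt φ (fun o => o.elim τ y) z) {a : L} (ha : a ∈ C.A) :
    C.ext.ev φ (fun o => o.elim τ y) z (RatFunc.C a) = C.ev φ y z a := by
  obtain ⟨q, k, hq⟩ := C.mem_A.1 ha
  obtain ⟨hτ, h'⟩ := C.ext_isPt.1 h
  rw [C.ext.ev_spec h (C.evExt_rep hq), C.ev_spec h' hq, C.evK5, Polynomial.eval₂_mul,
    Polynomial.eval₂_map, evK4, Polynomial.eval₂_C, map_pow, eval₂Hom_X', mul_pow,
    mul_comm (τ ^ k)]
  exact mul_div_mul_right _ _ (pow_ne_zero _ hτ)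

end Cover

end Pool.Agent.MP_c0606f_ag.Klt

end

-- part MP_c0606f_ag.Klt.CovRD
section

/-! The complex points of a cover form a Riemann domain. -/

namespace Pool.Agent.MP_c0606f_ag.Klt

open MeasureTheory Complex Filter Topology MvPolynomial
open scoped ENNReal ContDiff

theorem covrd_contDiff_eval {ι : Type} [Fintype ι] (b : MvPolynomial ι ℂ) (n : WithTop ℕ∞) :
    ContDiff ℂ n fun y : ι → ℂ => eval y b :=
  contDiff_iff_contDiffAt.2 fun y =>
    (AnalyticOnNhd.eval_mvPolynomial b y (Set.mem_univ _)).contDiffAt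

theorem covrd_contDiff {ι : Type} [Fintype ι] (q : Polynomial (MvPolynomial ι ℂ))
    (n : WithTop ℕ∞) : ContDiff ℂ n fun u : (ι → ℂ) × ℂ => (q.map (eval u.1)).eval u.2 := by
  have : (fun u : (ι → ℂ) × ℂ => (q.map (eval u.1)).eval u.2) =
      fun u => ∑ i ∈ Finset.range (q.natDegree + 1), eval u.1 (q.coeff i) * u.2 ^ i := by
    funext u
    rw [Polynomial.eval_map, Polynomial.eval₂_eq_sum_range]
  rw [this]
  exact ContDiff.sum fun i _ =>
    ((covrd_contDiff_eval _ n).comp contDiff_fst).mul (contDiff_snd.pow i)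

theorem covrd_root_le {ι : Type} {q : Polynomial (MvPolynomial ι ℂ)} (hq : q.Monic) (y : ι → ℂ)
    {z : ℂ} (hz : (q.map (eval y)).IsRoot z) :
    ‖z‖ ≤ 1 + ∑ i ∈ Finset.range q.natDegree, ‖eval y (q.coeff i)‖ := by
  have hm := hq.map (eval y)
  have h1 := hz.norm_lt_cauchyBound hm.ne_zero
  rw [Polynomial.cauchyBound, hm.leadingCoeff, nnnorm_one, div_one, hq.natDegree_map] at h1
  have h2 : (Finset.range q.natDegree).sup (fun i => ‖(q.map (eval y)).coeff i‖₊) ≤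
      ∑ i ∈ Finset.range q.natDegree, ‖eval y (q.coeff i)‖₊ := by
    refine Finset.sup_le fun i hi => ?_
    rw [Polynomial.coeff_map]
    exact Finset.single_le_sum (f := fun i => ‖eval y (q.coeff i)‖₊) (fun _ _ => zero_le) hi
  have h3 : ‖z‖₊ ≤ 1 + ∑ i ∈ Finset.range q.natDegree, ‖eval y (q.coeff i)‖₊ := by
    rw [add_comm]
    exact h1.le.trans (add_le_add_left h2 1)
  simpa [NNReal.coe_sum] using NNReal.coe_le_coe.2 h3

namespace Cover

variable {ι L : Type} [Fintype ι] [Field L] [Algebra ℂ L] (C : Cover ι L)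

/-- the polynomial `P (y, ·)` -/
noncomputable def Pat (y : ι → ℂ) : Polynomial ℂ := C.P.map (eval y)

omit [Fintype ι] in
theorem isPt_iff (y : ι → ℂ) (z : ℂ) :
    C.IsPt (RingHom.id ℂ) y z ↔ (C.Pat y).IsRoot z ∧ eval y C.Δ ≠ 0 := by
  rw [Pat, Polynomial.IsRoot.def, Polynomial.eval_map]
  exact Iff.rfl

omit [Fintype ι] in
theorem covrd_root (p : C.Pt) : (C.Pat p.1.1).IsRoot p.1.2 := ((C.isPt_iff _ _).1 p.2).1

omit [Fintype ι] in
theorem covrd_ne (p : C.Pt) : eval p.1.1 C.Δ ≠ 0 := ((C.isPt_iff _ _).1 p.2).2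

omit [Fintype ι] in
/-- from `bez` -/
theorem deriv_ne (p : C.Pt) : (Polynomial.derivative (C.Pat p.1.1)).eval p.1.2 ≠ 0 := by
  obtain ⟨a, b, h⟩ := C.bez
  intro h0
  apply C.covrd_ne p
  have h1 := congrArg (fun q => (q.map (eval p.1.1)).eval p.1.2) h
  have h2 : (C.P.map (eval p.1.1)).eval p.1.2 = 0 := C.covrd_root p
  rw [Pat, Polynomial.derivative_map] at h0
  simpa [h2, h0] using h1

omit [Fintype ι] in
theorem fn_pv (q : Polynomial (MvPolynomial ι ℂ)) (p : C.Pt) :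
    C.fn (C.pv q) p = (q.map (eval p.1.1)).eval p.1.2 := by
  rw [fn, C.ev_pv p.2, Polynomial.eval_map]
  rfl

omit [Fintype ι] in
theorem fn_aeval (b : MvPolynomial ι ℂ) (p : C.Pt) : C.fn (aeval C.y b) p = eval p.1.1 b := by
  rw [fn, C.ev_aeval p.2]
  rfl

omit [Fintype ι] in
theorem covrd_fn_spec {a : L} {q : Polynomial (MvPolynomial ι ℂ)} {k : ℕ}
    (ha : a * aeval C.y C.Δ ^ k = C.pv q) (p : C.Pt) :
    C.fn a p = (q.map (eval p.1.1)).eval p.1.2 / eval p.1.1 C.Δ ^ k := by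
  rw [fn, C.ev_spec p.2 ha, Polynomial.eval_map]
  rfl

omit [Fintype ι] in
theorem covrd_fn_mul {a b : L} (ha : a ∈ C.A) (hb : b ∈ C.A) (p : C.Pt) :
    C.fn (a * b) p = C.fn a p * C.fn b p := C.ev_mul p.2 ha hb

omit [Fintype ι] in
theorem covrd_fn_add {a b : L} (ha : a ∈ C.A) (hb : b ∈ C.A) (p : C.Pt) :
    C.fn (a + b) p = C.fn a p + C.fn b p := C.ev_add p.2 ha hb

/-- Local holomorphic roots, from the implicit function theorem. -/
theorem exists_root (p : C.Pt) : ∃ (U : Set (ι → ℂ)) (V : Set ℂ) (ζ : (ι → ℂ) → ℂ), IsOpen U ∧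
    IsOpen V ∧ p.1.1 ∈ U ∧ p.1.2 ∈ V ∧ ContDiffOn ℂ ∞ ζ U ∧ (∀ y ∈ U, ζ y ∈ V) ∧
    (∀ y ∈ U, C.IsPt (RingHom.id ℂ) y (ζ y)) ∧
    ∀ y ∈ U, ∀ z ∈ V, (C.Pat y).IsRoot z → z = ζ y := by
  set F : (ι → ℂ) × ℂ → ℂ := fun u => (C.P.map (eval u.1)).eval u.2 with hF
  have hc : ContDiffAt ℂ ω F p.1 := (covrd_contDiff C.P ω).contDiffAt
  have hF0 : F p.1 = 0 := C.covrd_root p
  have hinv : (fderiv ℂ F p.1 ∘L ContinuousLinearMap.inr ℂ (ι → ℂ) ℂ).IsInvertible := by
    have h1 : HasFDerivAt (fun z : ℂ => F (p.1.1, z))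
        (fderiv ℂ F p.1 ∘L ContinuousLinearMap.inr ℂ (ι → ℂ) ℂ) p.1.2 :=
      HasFDerivAt.comp (g := F) (f := fun z : ℂ => (p.1.1, z)) p.1.2
        (hc.differentiableAt (by simp)).hasFDerivAt (hasFDerivAt_prodMk_right p.1.1 p.1.2)
    have h2 : HasDerivAt (fun z : ℂ => F (p.1.1, z))
        ((Polynomial.derivative (C.Pat p.1.1)).eval p.1.2) p.1.2 :=
      (C.Pat p.1.1).hasDerivAt p.1.2
    have h3 := h1.hasDerivAt.unique h2
    refine ⟨ContinuousLinearEquiv.unitsEquivAut ℂ (Units.mk0 _ (C.deriv_ne p)), ?_⟩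
    ext
    simpa using h3.symm
  set ψ := hc.implicitFunction (by simp) hinv with hψ
  have h1 : ∀ᶠ v in 𝓝 p.1, F v = F p.1 ↔ ψ v.1 = v.2 :=
    hc.eventually_apply_eq_iff_implicitFunction (by simp) hinv
  have h2 : ContDiffAt ℂ ω ψ p.1.1 := hc.contDiffAt_implicitFunction (by simp) hinv
  have h3 : ψ p.1.1 = p.1.2 := hc.implicitFunction_apply_self (by simp) hinv
  obtain ⟨U0, V, hU0, hpU, hV, hpV, hUV⟩ := mem_nhds_prod_iff'.1 (show _ ∈ 𝓝 (p.1.1, p.1.2) from h1)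
  have h4 : ∀ᶠ y in 𝓝 p.1.1, y ∈ U0 ∧ ContDiffAt ℂ ω ψ y ∧ ψ y ∈ V ∧ eval y C.Δ ≠ 0 := by
    filter_upwards [hU0.mem_nhds hpU, h2.eventually (by simp),
      h2.continuousAt.eventually (hV.mem_nhds (h3 ▸ hpV)),
      (continuous_eval C.Δ).continuousAt.eventually_ne (C.covrd_ne p)] with y a b c d
    exact ⟨a, b, c, d⟩
  obtain ⟨U, hU, hUo, hp⟩ := eventually_nhds_iff.1 h4
  refine ⟨U, V, ψ, hUo, hV, hp, hpV, fun y hy => ((hU y hy).2.1.of_le le_top).contDiffWithinAt,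
    fun y hy => (hU y hy).2.2.1, fun y hy => (C.isPt_iff _ _).2 ⟨?_, (hU y hy).2.2.2⟩,
    fun y hy z hz hr => ?_⟩
  · have : F (y, ψ y) = F p.1 := (hUV (Set.mk_mem_prod (hU y hy).1 (hU y hy).2.2.1)).2 rfl
    exact this.trans hF0
  · exact ((hUV (Set.mk_mem_prod (hU y hy).1 hz)).1 (Eq.trans hr hF0.symm)).symm

theorem covrd_loc : IsLocalHomeomorph fun p : C.Pt => p.1.1 := by
  classical
  intro p
  obtain ⟨U, V, ζ, hU, hV, hpU, hpV, hζ, hζV, hpt, huniq⟩ := C.exists_root p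
  have hc1 : Continuous fun x : C.Pt => x.1.1 := continuous_fst.comp continuous_subtype_val
  have hc2 : Continuous fun x : C.Pt => x.1.2 := continuous_snd.comp continuous_subtype_val
  obtain ⟨s, hs⟩ : ∃ s : (ι → ℂ) → C.Pt, ∀ y ∈ U, (s y).1 = (y, ζ y) :=
    ⟨fun y => if h : y ∈ U then ⟨(y, ζ y), hpt y h⟩ else p,
      fun y hy => congrArg Subtype.val (dif_pos hy)⟩
  refine ⟨{ toFun := fun x => x.1.1
            invFun := s
            source := {x | x.1.1 ∈ U ∧ x.1.2 ∈ V}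
            target := U
            map_source' := fun x hx => hx.1
            map_target' := fun y hy => ?_
            left_inv' := fun x hx => ?_
            right_inv' := fun y hy => congrArg Prod.fst (hs y hy)
            open_source := (hU.preimage hc1).inter (hV.preimage hc2)
            open_target := hU
            continuousOn_toFun := hc1.continuousOn
            continuousOn_invFun := ?_ }, ⟨hpU, hpV⟩, rfl⟩
  · change (s y).1.1 ∈ U ∧ (s y).1.2 ∈ V
    rw [hs y hy]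
    exact ⟨hy, hζV y hy⟩
  · exact Subtype.ext ((hs _ hx.1).trans
      (Prod.ext rfl (huniq _ hx.1 _ hx.2 (C.covrd_root x)).symm))
  · exact Topology.IsInducing.subtypeVal.continuousOn_iff.2
      ((continuousOn_id.prodMk hζ.continuousOn).congr hs)

/-- the Riemann domain -/
noncomputable def rd : RD ι C.Pt where
  π p := p.1.1
  loc := C.covrd_loc

set_option linter.unusedSectionVars false in
@[simp] theorem rd_π (p : C.Pt) : C.rd.π p = p.1.1 := rfl

theorem contDiffAt_fn {a : L} (ha : a ∈ C.A) (p : C.Pt) :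
    ContDiffAt ℂ ∞ (fun q => C.fn a (C.rd.sec p q)) p.1.1 := by
  obtain ⟨q, k, hq⟩ := C.mem_A.1 ha
  obtain ⟨U, V, ζ, hU, hV, hpU, hpV, hζ, hζV, hpt, huniq⟩ := C.exists_root p
  have hc2 : Continuous fun x : C.Pt => x.1.2 := continuous_snd.comp continuous_subtype_val
  have h1 : ContDiffAt ℂ ∞ (fun y => (q.map (eval y)).eval (ζ y) / eval y C.Δ ^ k) p.1.1 :=
    ((covrd_contDiff q ∞).contDiffAt.comp (f := fun y => (y, ζ y)) _
      (contDiffAt_id.prodMk (hζ.contDiffAt (hU.mem_nhds hpU)))).div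
      ((covrd_contDiff_eval _ _).contDiffAt.pow k) (pow_ne_zero _ (C.covrd_ne p))
  refine h1.congr_of_eventuallyEq ?_
  filter_upwards [hU.mem_nhds hpU,
    (C.rd.ch p).open_target.mem_nhds (C.rd.π_mem_target p (C.rd.mem_source p)),
    (C.rd.tendsto_sec p).eventually ((hV.preimage hc2).mem_nhds hpV)] with y hy hyt hyV
  have e1 : (C.rd.sec p y).1.1 = y := C.rd.π_sec p hyt
  have e3 := C.covrd_root (C.rd.sec p y)
  rw [e1] at e3
  have e2 : (C.rd.sec p y).1.2 = ζ y := huniq y hy _ hyV e3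
  rw [C.covrd_fn_spec hq, e1, e2]

theorem continuous_fn {a : L} (ha : a ∈ C.A) : Continuous (C.fn a) := by
  obtain ⟨q, k, hq⟩ := C.mem_A.1 ha
  have hc1 : Continuous fun x : C.Pt => x.1.1 := continuous_fst.comp continuous_subtype_val
  rw [funext (C.covrd_fn_spec hq)]
  exact ((covrd_contDiff q 0).continuous.comp continuous_subtype_val).div
    (((continuous_eval C.Δ).comp hc1).pow k) fun x => pow_ne_zero _ (C.covrd_ne x)

omit [Fintype ι] in
theorem exists_pt {y : ι → ℂ} (hy : eval y C.Δ ≠ 0) : ∃ p : C.Pt, p.1.1 = y := by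
  have h1 : 0 < (C.Pat y).degree := by
    rw [← Polynomial.natDegree_pos_iff_degree_pos, Pat, C.monic.natDegree_map]
    exact C.natDegree_pos
  obtain ⟨z, hz⟩ := Complex.exists_root h1
  exact ⟨⟨(y, z), (C.isPt_iff _ _).2 ⟨hz, hy⟩⟩, rfl⟩

omit [Fintype ι] in
theorem covrd_mem_roots (p : C.Pt) {y : ι → ℂ} (h : p.1.1 = y) :
    p.1.2 ∈ (C.Pat y).roots.toFinset :=
  h ▸ Multiset.mem_toFinset.2
    ((Polynomial.mem_roots (C.monic.map (eval p.1.1)).ne_zero).2 (C.covrd_root p))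

theorem encard_fibre (y : ι → ℂ) : (C.rd.π ⁻¹' {y}).encard ≤ C.P.natDegree := by
  have h1 : (C.rd.π ⁻¹' {y}).encard ≤ ((C.Pat y).roots.toFinset : Set ℂ).encard := by
    refine Set.encard_le_encard_of_injOn (f := fun x : C.Pt => x.1.2) (fun x hx => ?_)
      fun x hx x' hx' h => ?_
    · exact Finset.mem_coe.2 (C.covrd_mem_roots x hx)
    · have e : x.1.1 = y := hx
      have e' : x'.1.1 = y := hx'
      exact Subtype.ext (Prod.ext (e.trans e'.symm) h)
  refine h1.trans ?_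
  rw [Set.encard_coe_eq_coe_finsetCard, Nat.cast_le]
  refine (Multiset.toFinset_card_le _).trans ((Polynomial.card_roots' _).trans ?_)
  exact (C.monic.natDegree_map _).le

/-- the fibre is in bijection with the roots, which are simple -/
theorem tsum_fibre {y : ι → ℂ} (hy : eval y C.Δ ≠ 0) (f : C.Pt → ℂ) (g : ℂ → ℂ)
    (h : ∀ p : C.Pt, p.1.1 = y → f p = g p.1.2) :
    ∑' p : C.rd.π ⁻¹' {y}, f p = ∑ z ∈ (C.Pat y).roots.toFinset, g z := by
  let e : (C.Pat y).roots.toFinset ≃ C.rd.π ⁻¹' {y} :=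
    { toFun := fun z => ⟨⟨(y, z.1), (C.isPt_iff _ _).2 ⟨Polynomial.isRoot_of_mem_roots
        (Multiset.mem_toFinset.1 z.2), hy⟩⟩, rfl⟩
      invFun := fun x => ⟨x.1.1.2, C.covrd_mem_roots x.1 x.2⟩
      left_inv := fun z => rfl
      right_inv := fun x => Subtype.ext (Subtype.ext (Prod.ext (Eq.symm x.2) rfl)) }
  rw [← e.tsum_eq, ← Finset.tsum_subtype]
  exact tsum_congr fun z => h _ rfl

/-- roots of monic polynomials with bounded coefficients are bounded (`Polynomial.cauchyBound`) -/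
theorem isCompact_preimage {K : Set (ι → ℂ)} (hK : IsCompact K) (h : K ⊆ {y | eval y C.Δ ≠ 0}) :
    IsCompact (C.rd.π ⁻¹' K) := by
  have hc : Continuous fun y : ι → ℂ =>
      1 + ∑ i ∈ Finset.range C.P.natDegree, ‖eval y (C.P.coeff i)‖ :=
    continuous_const.add (continuous_finsetSum _ fun i _ => (continuous_eval _).norm)
  obtain ⟨B, hB⟩ := hK.bddAbove_image hc.continuousOn
  refine Topology.IsInducing.subtypeVal.isCompact_iff.2 ?_
  have e : Subtype.val '' (C.rd.π ⁻¹' K) = (K ×ˢ Metric.closedBall (0 : ℂ) B) ∩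
      {u : (ι → ℂ) × ℂ | (C.P.map (eval u.1)).eval u.2 = 0} := by
    ext u
    constructor
    · rintro ⟨x, hx, rfl⟩
      refine ⟨⟨hx, ?_⟩, C.covrd_root x⟩
      rw [mem_closedBall_zero_iff]
      exact (covrd_root_le C.monic _ (C.covrd_root x)).trans (hB ⟨_, hx, rfl⟩)
    · rintro ⟨⟨h1, -⟩, h2⟩
      exact ⟨⟨u, (C.isPt_iff _ _).2 ⟨h2, h h1⟩⟩, h1, rfl⟩
  exact e ▸ (hK.prod (isCompact_closedBall 0 B)).inter_right
    (isClosed_eq (covrd_contDiff C.P 0).continuous continuous_const)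

omit [Fintype ι] in
/-- a nonzero regular function divides a nonzero polynomial (`gen` for `a⁻¹`) -/
theorem exists_mul_eq {a : L} (h0 : a ≠ 0) :
    ∃ (q : Polynomial (MvPolynomial ι ℂ)) (b : MvPolynomial ι ℂ), b ≠ 0 ∧
      a * C.pv q = aeval C.y b := by
  obtain ⟨q, b, hb, h⟩ := C.gen a⁻¹
  refine ⟨q, b, hb, ?_⟩
  rw [pv, ← h, mul_inv_cancel_left₀ h0]

theorem ae_fn_ne {a : L} (ha : a ∈ C.A) (h0 : a ≠ 0) : ∀ᵐ p ∂(C.rd.mu), C.fn a p ≠ 0 := by
  obtain ⟨q, b, hb, h⟩ := C.exists_mul_eq h0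
  filter_upwards [C.rd.ae_of_ae_base (ae_eval_ne hb)] with p hp
  rw [rd_π, ← C.fn_aeval, ← h, C.covrd_fn_mul ha (C.pv_mem q)] at hp
  exact left_ne_zero_of_mul hp

theorem mu_ne_zero : C.rd.mu ≠ 0 := by
  obtain ⟨y, hy⟩ := (ae_eval_ne C.Δ_ne).exists
  obtain ⟨p, -⟩ := C.exists_pt hy
  have := C.rd.isOpenPosMeasure
  intro h
  exact isOpen_univ.measure_ne_zero C.rd.mu ⟨p, Set.mem_univ _⟩ (by rw [h]; rfl)

theorem Grow.mono {M M' : ι → ℕ} {a : L} (h : C.Grow M a) (hM : ∀ i, M i ≤ M' i) :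
    C.Grow M' a := by
  obtain ⟨B, hB⟩ := h
  exact ⟨B, fun p => (mul_le_mul_of_nonneg_left (wt_anti hM _) (sq_nonneg _)).trans (hB p)⟩

theorem Grow.mul {M M' : ι → ℕ} {a b : L} (ha : a ∈ C.A) (hb : b ∈ C.A) (h : C.Grow M a)
    (h' : C.Grow M' b) : C.Grow (M + M') (a * b) := by
  obtain ⟨B, hB⟩ := h
  obtain ⟨B', hB'⟩ := h'
  refine ⟨B * B', fun p => ?_⟩
  have h1 : 0 ≤ ‖C.fn a p‖ ^ 2 * wt M p.1.1 := mul_nonneg (sq_nonneg _) (wt_pos _ _).le
  have h2 : 0 ≤ ‖C.fn b p‖ ^ 2 * wt M' p.1.1 := mul_nonneg (sq_nonneg _) (wt_pos _ _).le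
  rw [C.covrd_fn_mul ha hb, wt_add, norm_mul, mul_pow, mul_mul_mul_comm]
  exact mul_le_mul (hB p) (hB' p) h2 (h1.trans (hB p))

theorem Grow.add {M : ι → ℕ} {a b : L} (ha : a ∈ C.A) (hb : b ∈ C.A) (h : C.Grow M a)
    (h' : C.Grow M b) : C.Grow M (a + b) := by
  obtain ⟨B, hB⟩ := h
  obtain ⟨B', hB'⟩ := h'
  refine ⟨2 * B + 2 * B', fun p => ?_⟩
  rw [C.covrd_fn_add ha hb]
  have h1 : ‖C.fn a p + C.fn b p‖ ^ 2 ≤ 2 * ‖C.fn a p‖ ^ 2 + 2 * ‖C.fn b p‖ ^ 2 := by
    have h2 := pow_le_pow_left₀ (norm_nonneg _) (norm_add_le (C.fn a p) (C.fn b p)) 2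
    nlinarith [sq_nonneg (‖C.fn a p‖ - ‖C.fn b p‖)]
  have h3 := mul_le_mul_of_nonneg_right h1 (wt_pos M p.1.1).le
  linarith [hB p, hB' p]

theorem Grow.bdd {M : ι → ℕ} {a : L} (h : C.Grow M a) (B : ℝ) :
    ∃ B' : ℝ, ∀ p : C.Pt, ‖p.1.1‖ ≤ B → ‖C.fn a p‖ ≤ B' := by
  obtain ⟨B0, hB⟩ := h
  obtain ⟨c, hc, hw⟩ := le_wt M B
  refine ⟨√(B0 / c), fun p hp => Real.le_sqrt_of_sq_le ((le_div_iff₀ hc).2 ?_)⟩
  exact (mul_le_mul_of_nonneg_left (hw _ hp) (sq_nonneg _)).trans (hB p)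

omit [Fintype ι] in
theorem covrd_monic {a : L} (ha : a ∈ C.A)
    (h : IsIntegral (Algebra.adjoin ℂ (Set.range C.y)) a) :
    ∃ q : Polynomial (MvPolynomial ι ℂ), q.Monic ∧
      ∀ p : C.Pt, (q.map (eval p.1.1)).IsRoot (C.fn a p) := by
  obtain ⟨r, hr, h0⟩ := h
  have hs : Function.Surjective C.evψ.toRingHom := by
    rintro ⟨x, hx⟩
    rw [Algebra.adjoin_range_eq_range_aeval] at hx
    obtain ⟨b, hb⟩ := hx
    exact ⟨b, Subtype.ext ((C.evψ_coe b).trans hb)⟩
  obtain ⟨q, rfl, -, hq⟩ := Polynomial.lifts_and_natDegree_eq_and_monic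
    (Polynomial.mem_lifts_of_surjective hs r) hr
  refine ⟨q, hq, fun p => ?_⟩
  rw [Polynomial.eval₂_map, Polynomial.eval₂_eq_sum_range] at h0
  have h1 : ∑ i ∈ Finset.range (q.natDegree + 1), aeval C.y (q.coeff i) * a ^ i = 0 := by
    rw [← h0]
    exact Finset.sum_congr rfl fun i _ => by rw [← C.evψ_coe]; rfl
  have h2 := congrArg (C.ev (RingHom.id ℂ) p.1.1 p.1.2) h1
  rw [C.ev_zero p.2, C.ev_sum p.2 _ fun i _ => C.A.mul_mem (C.aeval_mem _) (C.A.pow_mem ha i)] at h2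
  rw [Polynomial.IsRoot.def, Polynomial.eval_map, Polynomial.eval₂_eq_sum_range, ← h2]
  refine Finset.sum_congr rfl fun i _ => ?_
  rw [C.ev_mul p.2 (C.aeval_mem _) (C.A.pow_mem ha i), C.ev_pow p.2 ha, C.ev_aeval p.2]
  rfl

/-- `fn a p` is a root of a monic polynomial whose coefficients are polynomials in `y`
(`eval_growth`, `Polynomial.IsRoot.norm_lt_cauchyBound`) -/
theorem grow_of_integral {a : L} (ha : a ∈ C.A)
    (h : IsIntegral (Algebra.adjoin ℂ (Set.range C.y)) a) : ∃ M, C.Grow M a := by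
  obtain ⟨q, hq, hr⟩ := C.covrd_monic ha h
  set M : ι → ℕ := fun i => (Finset.range q.natDegree).sup fun j => degreeOf i (q.coeff j)
  have h1 : ∀ j : ℕ, ∃ B : ℝ, j ∈ Finset.range q.natDegree →
      ∀ y, ‖eval y (q.coeff j)‖ ^ 2 * wt M y ≤ B := by
    intro j
    by_cases hj : j ∈ Finset.range q.natDegree
    · obtain ⟨B, hB⟩ := eval_growth (q.coeff j) M fun i =>
        Finset.le_sup (f := fun j => degreeOf i (q.coeff j)) hj
      exact ⟨B, fun _ => hB⟩
    · exact ⟨0, fun h => absurd h hj⟩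
  choose B hB using h1
  refine ⟨M, (1 + ∑ j ∈ Finset.range q.natDegree, √(B j)) ^ 2, fun p => ?_⟩
  have hw := (wt_pos M p.1.1).le
  have hs : √(wt M p.1.1) ≤ 1 := Real.sqrt_le_one.2 (wt_le_one _ _)
  rw [← Real.sq_sqrt hw, ← mul_pow]
  refine pow_le_pow_left₀ (by positivity) ?_ 2
  refine (mul_le_mul_of_nonneg_right (covrd_root_le hq _ (hr p)) (Real.sqrt_nonneg _)).trans ?_
  rw [add_mul, one_mul, Finset.sum_mul]
  refine add_le_add hs (Finset.sum_le_sum fun j hj => Real.le_sqrt_of_sq_le ?_)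
  rw [mul_pow, Real.sq_sqrt hw]
  exact hB j hj _

theorem covrd_grow_aeval (b : MvPolynomial ι ℂ) (M : ι → ℕ) (h : ∀ i, degreeOf i b ≤ M i) :
    C.Grow M (aeval C.y b) := by
  obtain ⟨B, hB⟩ := eval_growth b M h
  exact ⟨B, fun p => by rw [C.fn_aeval]; exact hB _⟩

theorem covrd_grow_pow {M : ι → ℕ} {a : L} (ha : a ∈ C.A) (h : C.Grow M a) (j : ℕ) :
    C.Grow (fun i => j * M i) (a ^ j) := by
  induction j with
  | zero => simpa using C.covrd_grow_aeval 1 (fun _ => 0) fun i => by simp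
  | succ j ih =>
    rw [pow_succ]
    exact Grow.mono C (Grow.mul C (C.A.pow_mem ha j) ha ih h) fun i => by
      simp [add_mul]

theorem exists_grow_poly : ∃ c : ℕ, ∀ (M : ι → ℕ), ∀ a ∈ C.Poly M,
    C.Grow (fun i => M i + c) a := by
  obtain ⟨Mz, hz⟩ := C.grow_of_integral C.z_mem C.z_integral
  refine ⟨C.P.natDegree * Finset.univ.sup Mz, fun M a ha => ?_⟩
  have hA : ∀ a ∈ C.Poly M, a ∈ C.A := fun a ha => by
    obtain ⟨q, rfl⟩ := C.Poly_le M ha
    exact C.pv_mem q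
  induction ha using Submodule.span_induction with
  | mem x hx =>
    obtain ⟨α, j, h1, h2, rfl⟩ := hx
    have h3 := C.covrd_grow_aeval (monomial α 1) M fun i => by
      classical
      rw [degreeOf_monomial_eq _ _ one_ne_zero]
      exact h1 i
    refine Grow.mono C (Grow.mul C (C.aeval_mem _) (C.A.pow_mem C.z_mem j) h3
      (C.covrd_grow_pow C.z_mem hz j)) fun i => ?_
    exact Nat.add_le_add_left (Nat.mul_le_mul h2.le (Finset.le_sup (Finset.mem_univ i))) _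
  | zero => simpa using C.covrd_grow_aeval 0 _ fun i => by simp
  | add x y hx hy ihx ihy => exact Grow.add C (hA x hx) (hA y hy) ihx ihy
  | smul c x hx ih =>
    have h1 := Grow.mul C (C.aeval_mem (MvPolynomial.C c)) (hA x hx)
      (C.covrd_grow_aeval (MvPolynomial.C c) 0 fun i => by simp) ih
    rwa [zero_add, aeval_C, ← Algebra.smul_def] at h1

variable [DecidableEq ι]

theorem hol_fn {a : L} (ha : a ∈ C.A) : C.rd.Hol (C.fn a) :=
  RD.hol_of_contDiffAt (C.contDiffAt_fn ha)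

/-- `ρ = ∑ |y i|^2 + |Δ⁻¹|^2`; a sublevel set is a closed subset of the preimage of a compact
set -/
theorem exists_exh : ∃ ρ, C.rd.Exh ρ := by
  have hA : (aeval C.y C.Δ)⁻¹ ∈ C.A := C.inv_mem_of_dvd dvd_rfl
  let F : Option ι → C.Pt → ℂ := fun o =>
    o.elim (C.fn (aeval C.y C.Δ)⁻¹) fun i x => C.rd.π x i
  have hF : ∀ o, C.rd.Hol (F o) := by
    rintro (_ | i)
    · exact C.hol_fn hA
    · exact RD.Hol.coord i
  have hsm : C.rd.SmR fun x => ∑ o, ‖F o x‖ ^ 2 := RD.smR_sumSq fun o => (hF o).1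
  refine ⟨fun x => ∑ o, ‖F o x‖ ^ 2, hsm, fun s => ?_, fun p ξ => ?_⟩
  · have hK : IsCompact (Metric.closedBall (0 : ι → ℂ) √s ∩
        {y | 1 ≤ s * ‖eval y C.Δ‖ ^ 2}) :=
      (isCompact_closedBall _ _).inter_right (isClosed_le continuous_const
        (continuous_const.mul ((continuous_eval _).norm.pow 2)))
    refine (C.isCompact_preimage hK fun y hy h0 => ?_).of_isClosed_subset
      (isClosed_le hsm.continuous continuous_const) fun x hx => ?_
    · have h1 : 1 ≤ s * ‖eval y C.Δ‖ ^ 2 := hy.2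
      rw [h0] at h1
      norm_num at h1
    · have h1 : ∀ o, ‖F o x‖ ^ 2 ≤ s := fun o =>
        (Finset.single_le_sum (f := fun o => ‖F o x‖ ^ 2) (fun _ _ => sq_nonneg _)
          (Finset.mem_univ o)).trans hx
      refine ⟨mem_closedBall_zero_iff.2 ((pi_norm_le_iff_of_nonneg (Real.sqrt_nonneg _)).2
        fun i => Real.le_sqrt_of_sq_le (h1 (some i))), ?_⟩
      have h2 : ‖C.fn (aeval C.y C.Δ)⁻¹ x‖ ^ 2 ≤ s := h1 none
      have h3 : C.fn (aeval C.y C.Δ)⁻¹ x * eval x.1.1 C.Δ = 1 := by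
        rw [← C.fn_aeval, ← C.covrd_fn_mul hA (C.aeval_mem _),
          inv_mul_cancel₀ (C.aeval_ne C.Δ_ne)]
        exact C.ev_one x.2
      have h4 : ‖C.fn (aeval C.y C.Δ)⁻¹ x‖ ^ 2 * ‖eval x.1.1 C.Δ‖ ^ 2 = 1 := by
        rw [← mul_pow, ← norm_mul, h3]
        simp
      exact h4.ge.trans (mul_le_mul_of_nonneg_right h2 (sq_nonneg _))
  · rw [RD.levi_sumSq hF, Fintype.sum_option]
    refine le_add_of_nonneg_of_le (sq_nonneg _) (le_of_eq ?_)
    exact Finset.sum_congr rfl fun i _ => by rw [← RD.dd_coord (R := C.rd) i p ξ]; rfl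

set_option linter.unusedSectionVars false in
theorem test_comp_π {g : (ι → ℂ) → ℂ} (hg : FTest g) (h : tsupport g ⊆ {y | eval y C.Δ ≠ 0}) :
    C.rd.Test fun p => g p.1.1 :=
  ⟨RD.Sm.comp_π (R := C.rd) hg.1, HasCompactSupport.intro (C.isCompact_preimage hg.2 h)
    fun _ hx => image_eq_zero_of_notMem_tsupport hx⟩

end Cover

end Pool.Agent.MP_c0606f_ag.Klt

end

-- part MP_c0606f_ag.Klt.Alg
section

/-! Weakly holomorphic functions of polynomial growth are algebraic; equivalence of norms. -/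

namespace Pool.Agent.MP_c0606f_ag.Klt

open MeasureTheory Complex Filter Topology MvPolynomial
open scoped ENNReal ContDiff ComplexConjugate

theorem alg_cs {X : Type} {s : Set X} {d : ℕ} (hs : s.encard ≤ d) (f : X → ℂ) {w : ℝ}
    (hw : 0 ≤ w) : ENNReal.ofReal (‖∑' x : s, f x‖ ^ 2 * w) ≤
      d * ∑' x : s, ENNReal.ofReal (‖f x‖ ^ 2 * w) := by
  have : Fintype s := (Set.finite_of_encard_le_coe hs).fintype
  have hc : Fintype.card s ≤ d := by
    rw [← Set.coe_fintypeCard] at hs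
    exact_mod_cast hs
  rw [tsum_fintype, tsum_fintype, ← ENNReal.ofReal_sum_of_nonneg (fun _ _ => by positivity),
    ← ENNReal.ofReal_natCast, ← ENNReal.ofReal_mul (Nat.cast_nonneg _)]
  apply ENNReal.ofReal_le_ofReal
  rw [← Finset.sum_mul, ← mul_assoc]
  refine mul_le_mul_of_nonneg_right ?_ hw
  have h1 : ‖∑ x : s, f x‖ ^ 2 ≤ (∑ x : s, ‖f x‖) ^ 2 :=
    pow_le_pow_left₀ (norm_nonneg _) (norm_sum_le _ _) 2
  have h2 := sq_sum_le_card_mul_sum_sq (s := (Finset.univ : Finset s)) (f := fun x => ‖f x‖)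
  rw [Finset.card_univ] at h2
  have h3 : (Fintype.card s : ℝ) * ∑ x : s, ‖f x‖ ^ 2 ≤ d * ∑ x : s, ‖f x‖ ^ 2 :=
    mul_le_mul_of_nonneg_right (by exact_mod_cast hc) (by positivity)
  linarith

theorem alg_lagrange (Q : Polynomial ℂ) {d : ℕ} (hd : Q.natDegree ≤ d) {z w : ℂ} (hz : Q.IsRoot z)
    (hw : Q.IsRoot w) :
    ∑ l ∈ Finset.range d, (∑ j ∈ Finset.range (d + 1),
      if l < j then Q.coeff j * z ^ (j - 1 - l) else 0) * w ^ l =
      if z = w then (Polynomial.derivative Q).eval z else 0 := by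
  have h1 : ∑ l ∈ Finset.range d, (∑ j ∈ Finset.range (d + 1),
      if l < j then Q.coeff j * z ^ (j - 1 - l) else 0) * w ^ l =
      ∑ j ∈ Finset.range (d + 1), Q.coeff j * ∑ l ∈ Finset.range j, w ^ l * z ^ (j - 1 - l) := by
    simp_rw [Finset.sum_mul]
    rw [Finset.sum_comm]
    refine Finset.sum_congr rfl fun j hj => ?_
    have hj' : j ≤ d := Nat.lt_succ_iff.1 (Finset.mem_range.1 hj)
    rw [Finset.mul_sum, ← Finset.sum_subset (Finset.range_mono hj')]
    · refine Finset.sum_congr rfl fun l hl => ?_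
      rw [if_pos (Finset.mem_range.1 hl)]; ring
    · intro l _ hl
      rw [if_neg (fun h => hl (Finset.mem_range.2 h)), zero_mul]
  rw [h1]
  split_ifs with h
  · subst h
    rw [Polynomial.derivative_eval, Polynomial.sum_over_range' _ (by simp) (d + 1)
      (Nat.lt_succ_of_le hd)]
    refine Finset.sum_congr rfl fun j _ => ?_
    rw [geom_sum₂_self]; ring
  · have hne : w - z ≠ 0 := sub_ne_zero.2 (Ne.symm h)
    apply mul_right_cancel₀ hne
    rw [zero_mul, Finset.sum_mul]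
    simp_rw [mul_assoc, geom_sum₂_mul, mul_sub]
    rw [Finset.sum_sub_distrib, ← Polynomial.eval_eq_sum_range' (Nat.lt_succ_of_le hd),
      ← Polynomial.eval_eq_sum_range' (Nat.lt_succ_of_le hd), hz.eq_zero, hw.eq_zero, sub_zero]

namespace RD

variable {ι X : Type} [Fintype ι] [TopologicalSpace X] [T2Space X]
  [SecondCountableTopology X] [MeasurableSpace X] [BorelSpace X] (R : RD ι X)

theorem alg_lintegral_mu {F : X → ℝ≥0∞} (hF : AEMeasurable F R.mu) :
    ∫⁻ x, F x ∂(R.mu) = ∫⁻ q, ∑' x : R.π ⁻¹' {q}, F x := by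
  rw [lintegral_congr_ae hF.ae_eq_mk, R.lintegral_mu hF.measurable_mk]
  refine lintegral_congr_ae ?_
  filter_upwards [R.ae_fibre hF.ae_eq_mk] with q hq
  exact tsum_congr fun x => (hq x x.2).symm

omit [Fintype ι] [T2Space X] [SecondCountableTopology X] [MeasurableSpace X] [BorelSpace X] in
theorem alg_fib_mul (f : X → ℂ) (g : (ι → ℂ) → ℂ) (q : ι → ℂ) :
    ∑' x : R.π ⁻¹' {q}, f x * g (R.π x) = (∑' x : R.π ⁻¹' {q}, f x) * g q := by
  rw [← tsum_mul_right]
  refine tsum_congr fun x => ?_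
  rw [show R.π x = q from x.2]

end RD

namespace Cover

variable {ι L : Type} [Fintype ι] [DecidableEq ι] [Field L] [Algebra ℂ L] (C : Cover ι L)

/-- the trace of `H * z ^ l` -/
noncomputable def tr (H : C.Pt → ℂ) (l : ℕ) (y : ι → ℂ) : ℂ :=
  ∑' p : C.rd.π ⁻¹' {y}, H p * p.1.1.2 ^ l

omit [Fintype ι] [DecidableEq ι] in
theorem alg_fn_zpow (l : ℕ) (p : C.Pt) : C.fn (C.z ^ l) p = p.1.2 ^ l := by
  unfold fn
  rw [C.ev_pow p.2 C.z_mem, C.ev_z p.2]

omit [DecidableEq ι] in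
theorem alg_grow_z : ∃ c : ℕ, ∀ l < C.P.natDegree, ∃ B : ℝ, 0 ≤ B ∧
    ∀ p : C.Pt, ‖p.1.2 ^ l‖ ^ 2 * wt (fun _ => c) p.1.1 ≤ B := by
  choose M hM using fun l : ℕ =>
    C.grow_of_integral (C.A.pow_mem C.z_mem l) (C.z_integral.pow l)
  refine ⟨(Finset.range C.P.natDegree).sup fun l => Finset.univ.sup (M l), fun l hl => ?_⟩
  obtain ⟨B, hB⟩ := Grow.mono C (M' := fun _ =>
    (Finset.range C.P.natDegree).sup fun l => Finset.univ.sup (M l)) (hM l) fun i =>
      (Finset.le_sup (f := M l) (Finset.mem_univ i)).trans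
        (Finset.le_sup (f := fun l => Finset.univ.sup (M l)) (Finset.mem_range.2 hl))
  refine ⟨max B 0, le_max_right _ _, fun p => ?_⟩
  rw [← C.alg_fn_zpow]
  exact (hB p).trans (le_max_left _ _)

omit [DecidableEq ι] in
theorem alg_cont_wt (M : ι → ℕ) : Continuous fun p : C.Pt => wt M p.1.1 :=
  (continuous_wt M).comp C.rd.continuous_π

omit [DecidableEq ι] in
theorem alg_cont_zpow (l : ℕ) : Continuous fun p : C.Pt => p.1.2 ^ l := by
  have := C.continuous_fn (C.A.pow_mem C.z_mem l)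
  exact this.congr fun p => C.alg_fn_zpow l p

omit [DecidableEq ι] in
theorem alg_wt_lt_top (B : ℝ) :
    ∫⁻ p, ENNReal.ofReal (B * wt (fun _ => 2) p.1.1) ∂(C.rd.mu) < ⊤ := by
  have h := C.rd.lintegral_le_of_card C.encard_fibre
    (F := fun p => ENNReal.ofReal (B * wt (fun _ => 2) p.1.1))
    (G := fun q => ENNReal.ofReal (B * wt (fun _ => 2) q))
    ((continuous_const.mul (continuous_wt _)).measurable.ennreal_ofReal)
    (Eventually.of_forall fun _ => le_rfl)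
  refine h.trans_lt (ENNReal.mul_lt_top (ENNReal.natCast_lt_top _) ?_)
  exact (integrable_wt.const_mul B).lintegral_lt_top

omit [DecidableEq ι] in
theorem alg_tr_aesm {M M' : ι → ℕ} {H : C.Pt → ℂ} (hm : AEStronglyMeasurable H C.rd.mu)
    (h2 : ∫⁻ p, ENNReal.ofReal (‖H p‖ ^ 2 * wt M p.1.1) ∂(C.rd.mu) < ⊤) {l : ℕ} {B : ℝ}
    (hB : ∀ p : C.Pt, ‖p.1.2 ^ l‖ ^ 2 * wt M' p.1.1 ≤ B) :
    AEStronglyMeasurable (C.tr H l) := by
  have hi : Integrable (fun p : C.Pt => H p * p.1.2 ^ l *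
      ((wt (M + M' + fun _ => 2) (C.rd.π p) : ℝ) : ℂ)) C.rd.mu := by
    refine ⟨(hm.mul (C.alg_cont_zpow l).aestronglyMeasurable).mul
      (continuous_ofReal.comp (C.alg_cont_wt _)).aestronglyMeasurable, ?_⟩
    have hle : ∀ p : C.Pt, ‖H p * p.1.2 ^ l * ((wt (M + M' + fun _ => 2) (C.rd.π p) : ℝ) : ℂ)‖ₑ ≤
        ENNReal.ofReal (‖H p‖ ^ 2 * wt M p.1.1) + ENNReal.ofReal (B * wt (fun _ => 2) p.1.1) := by
      intro p
      have a1 := wt_pos M p.1.1
      have a2 := wt_pos M' p.1.1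
      have a3 := wt_pos (fun _ : ι => 2) p.1.1
      have b1 := wt_le_one M p.1.1
      have b2 := wt_le_one M' p.1.1
      have b3 := wt_le_one (fun _ : ι => 2) p.1.1
      have hB0 : 0 ≤ B := le_trans (by positivity) (hB p)
      rw [← ofReal_norm, ← ENNReal.ofReal_add (by positivity) (by positivity)]
      apply ENNReal.ofReal_le_ofReal
      rw [norm_mul, norm_mul, Complex.norm_real, rd_π, wt_add, wt_add, Real.norm_eq_abs,
        abs_of_pos (by positivity)]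
      have hb := hB p
      generalize wt M p.1.1 = a at *
      generalize wt M' p.1.1 = b at *
      generalize wt (fun _ : ι => 2) p.1.1 = c at *
      have n1 := norm_nonneg (H p)
      have n2 := norm_nonneg (p.1.2 ^ l)
      generalize ‖H p‖ = s at *
      generalize ‖p.1.2 ^ l‖ = t at *
      have e1 : s * t ≤ s ^ 2 + t ^ 2 := by nlinarith [sq_nonneg (s - t), mul_nonneg n1 n2]
      have e2 : s * t * (a * b * c) ≤ (s ^ 2 + t ^ 2) * (a * b * c) :=
        mul_le_mul_of_nonneg_right e1 (by positivity)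
      have e3 : s ^ 2 * (a * b * c) ≤ s ^ 2 * a := by
        refine mul_le_mul_of_nonneg_left ?_ (by positivity)
        have : b * c ≤ 1 := mul_le_one₀ b2 a3.le b3
        nlinarith
      have e4 : t ^ 2 * (a * b * c) ≤ B * c := by
        have : t ^ 2 * b * a ≤ B := (mul_le_of_le_one_right (by positivity) b1).trans hb
        nlinarith
      nlinarith
    refine (lintegral_mono hle).trans_lt ?_
    have hme : Measurable fun p : C.Pt => ENNReal.ofReal (B * wt (fun _ => 2) p.1.1) :=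
      (continuous_const.mul (C.alg_cont_wt _)).measurable.ennreal_ofReal
    rw [lintegral_add_right _ hme]
    exact ENNReal.add_lt_top.2 ⟨h2, C.alg_wt_lt_top B⟩
  have h1 := (C.rd.integral_fib hi).1.1
  have h3 : AEStronglyMeasurable
      (fun q : ι → ℂ => (((wt (M + M' + fun _ => 2) q : ℝ) : ℂ))⁻¹) volume := by
    refine (Continuous.inv₀ (continuous_ofReal.comp (continuous_wt _)) fun q => ?_).aestronglyMeasurable
    exact ofReal_ne_zero.2 (wt_pos _ q).ne'
  refine (h1.mul h3).congr (Eventually.of_forall fun q => ?_)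
  have := C.rd.alg_fib_mul (fun p : C.Pt => H p * p.1.2 ^ l)
    (fun q => ((wt (M + M' + fun _ => 2) q : ℝ) : ℂ)) q
  simp only [Pi.mul_apply]
  rw [this, mul_inv_cancel_right₀ (ofReal_ne_zero.2 (wt_pos _ q).ne')]
  rfl

omit [DecidableEq ι] in
theorem alg_tr_sq {M M' : ι → ℕ} {H : C.Pt → ℂ} (hm : AEStronglyMeasurable H C.rd.mu)
    (h2 : ∫⁻ p, ENNReal.ofReal (‖H p‖ ^ 2 * wt M p.1.1) ∂(C.rd.mu) < ⊤) {l : ℕ} {B : ℝ}
    (hB0 : 0 ≤ B) (hB : ∀ p : C.Pt, ‖p.1.2 ^ l‖ ^ 2 * wt M' p.1.1 ≤ B) :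
    ∫⁻ q, ENNReal.ofReal (‖C.tr H l q‖ ^ 2 * wt (M + M') q) < ⊤ := by
  have hF : AEMeasurable (fun p : C.Pt => ENNReal.ofReal (‖H p‖ ^ 2 * wt M p.1.1)) C.rd.mu :=
    ((hm.norm.aemeasurable.pow_const 2).mul
      (C.alg_cont_wt M).measurable.aemeasurable).ennreal_ofReal
  rw [C.rd.alg_lintegral_mu hF] at h2
  have hle : ∀ q, ENNReal.ofReal (‖C.tr H l q‖ ^ 2 * wt (M + M') q) ≤
      (C.P.natDegree * ENNReal.ofReal B) *
        ∑' x : C.rd.π ⁻¹' {q}, ENNReal.ofReal (‖H x‖ ^ 2 * wt M x.1.1.1) := by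
    intro q
    refine (alg_cs (C.encard_fibre q) (fun p : C.Pt => H p * p.1.2 ^ l)
      (wt_pos (M + M') q).le).trans ?_
    rw [mul_assoc]
    refine mul_le_mul_right ?_ _
    rw [← ENNReal.tsum_mul_left]
    refine ENNReal.tsum_le_tsum fun x => ?_
    rw [← ENNReal.ofReal_mul hB0]
    apply ENNReal.ofReal_le_ofReal
    have hx : x.1.1.1 = q := x.2
    have hb := hB x
    rw [hx] at hb ⊢
    rw [wt_add, norm_mul, mul_pow]
    have := mul_le_mul_of_nonneg_right hb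
      (show 0 ≤ ‖H x‖ ^ 2 * wt M q from mul_nonneg (by positivity) (wt_pos M q).le)
    nlinarith
  refine (lintegral_mono hle).trans_lt ?_
  rw [lintegral_const_mul' _ _
    (ENNReal.mul_ne_top (ENNReal.natCast_ne_top _) ENNReal.ofReal_ne_top)]
  exact ENNReal.mul_lt_top (ENNReal.mul_lt_top (ENNReal.natCast_lt_top _) ENNReal.ofReal_lt_top) h2

theorem alg_tr_weak {M : ι → ℕ} {H : C.Pt → ℂ} (hm : AEStronglyMeasurable H C.rd.mu)
    (h2 : ∫⁻ p, ENNReal.ofReal (‖H p‖ ^ 2 * wt M p.1.1) ∂(C.rd.mu) < ⊤) (hw : C.rd.WHol H)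
    (l : ℕ) (g : (ι → ℂ) → ℂ) (hg : FTest g) (hs : tsupport g ⊆ {q | eval q C.Δ ≠ 0}) (j : ι) :
    ∫ q, C.tr H l q * fdb j g q = 0 := by
  have hz := C.hol_fn (C.A.pow_mem C.z_mem l)
  have ht0 := C.test_comp_π hg hs
  have ht : C.rd.Test fun p => C.fn (C.z ^ l) p * g p.1.1 := ht0.mul_left hz.1
  have h0 := hw _ ht j
  have hi := (ht.db j).integrable_mul hm (C.alg_cont_wt M) (fun p => wt_pos M _) h2
  have he : (fun p => H p * C.rd.db j (fun p => C.fn (C.z ^ l) p * g p.1.1) p) =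
      fun p : C.Pt => H p * p.1.2 ^ l * fdb j g (C.rd.π p) := by
    funext p
    rw [RD.db_mul j hz.1 ht0.1, hz.2 j p, zero_mul, zero_add, C.alg_fn_zpow,
      ← RD.db_comp_π (R := C.rd) j g p, mul_assoc]
    rfl
  rw [he] at hi h0
  rw [(C.rd.integral_fib hi).2] at h0
  rw [← h0]
  refine integral_congr_ae (Eventually.of_forall fun q => ?_)
  exact (C.rd.alg_fib_mul (fun p : C.Pt => H p * p.1.2 ^ l) (fdb j g) q).symm

/-- Traces.  Measurability: multiply by `wt` to get an integrable function and use `integral_fib`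
(`|H| * |z|^l * wt (M + c + 2) ≤ |H|^2 wt M + |z|^(2 l) wt c * wt 2`, `lintegral_le_of_card`).
`|tr|^2 ≤ d * ∑ |H|^2 |z|^(2 l)` by `encard_fibre`, `lintegral_mu`, `ae_fibre`.  For a flat test
function `g` supported in `Δ ≠ 0`, test `hw` with `z ^ l * g ∘ π` (`test_comp_π`, `hol_fn`,
`db_comp_π`).  Then `weak_across` and `liouville`. -/
theorem exists_tr_poly : ∃ c : ℕ, ∀ (M : ι → ℕ) (H : C.Pt → ℂ), AEStronglyMeasurable H C.rd.mu →
    ∫⁻ p, ENNReal.ofReal (‖H p‖ ^ 2 * wt M p.1.1) ∂(C.rd.mu) < ⊤ → C.rd.WHol H →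
    ∀ l < C.P.natDegree, ∃ q : MvPolynomial ι ℂ, (∀ i, degreeOf i q ≤ M i + c) ∧
      ∀ᵐ y, eval y C.Δ * C.tr H l y = eval y q := by
  obtain ⟨c, hc⟩ := C.alg_grow_z
  obtain ⟨B', hB'⟩ := eval_growth C.Δ (fun _ => C.Δ.totalDegree)
    fun i => degreeOf_le_totalDegree _ i
  refine ⟨c + C.Δ.totalDegree, fun M H hm h2 hw l hl => ?_⟩
  obtain ⟨B, hB0, hB⟩ := hc l hl
  have m1 := C.alg_tr_aesm hm h2 hB
  have m2 := C.alg_tr_sq hm h2 hB0 hB
  have m3 := locallyIntegrable_of_wt m1 _ m2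
  have m4 : AEStronglyMeasurable fun q : ι → ℂ => eval q C.Δ * C.tr H l q :=
    (MvPolynomial.continuous_eval C.Δ).aestronglyMeasurable.mul m1
  have m5 : ∫⁻ q, ENNReal.ofReal (‖eval q C.Δ * C.tr H l q‖ ^ 2 *
      wt ((M + fun _ => c) + fun _ => C.Δ.totalDegree) q) < ⊤ := by
    have hle : ∀ q, ENNReal.ofReal (‖eval q C.Δ * C.tr H l q‖ ^ 2 *
        wt ((M + fun _ => c) + fun _ => C.Δ.totalDegree) q) ≤
        ENNReal.ofReal B' * ENNReal.ofReal (‖C.tr H l q‖ ^ 2 * wt (M + fun _ => c) q) := by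
      intro q
      have h0 : 0 ≤ ‖C.tr H l q‖ ^ 2 * wt (M + fun _ => c) q :=
        mul_nonneg (by positivity) (wt_pos _ q).le
      rw [← ENNReal.ofReal_mul' h0]
      apply ENNReal.ofReal_le_ofReal
      rw [wt_add, norm_mul, mul_pow]
      have := mul_le_mul_of_nonneg_right (hB' q) h0
      nlinarith
    refine (lintegral_mono hle).trans_lt ?_
    rw [lintegral_const_mul' _ _ ENNReal.ofReal_ne_top]
    exact ENNReal.mul_lt_top ENNReal.ofReal_lt_top m2
  obtain ⟨q, hq, hq'⟩ := liouville m4 _ m5 fun g hg j =>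
    weak_across m3 C.Δ_ne (C.alg_tr_weak hm h2 hw l) hg j
  exact ⟨q, fun i => by simpa [add_assoc] using hq i, hq'⟩

omit [Fintype ι] [DecidableEq ι] in
/-- Lagrange: with `c l = ∑ j in (l, d], C (coeff j P) * X ^ (j - l - 1)` one has
`(Z - W) * ∑ l < d, (c l)(Z) * W ^ l = P Z - P W` and `∑ l < d, (c l)(Z) * Z ^ l = P'(Z)`. -/
theorem exists_lagrange : ∃ c : ℕ → Polynomial (MvPolynomial ι ℂ),
    (∀ l, (c l).natDegree < C.P.natDegree) ∧ ∀ (y : ι → ℂ) (z w : ℂ), (C.Pat y).IsRoot z →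
      (C.Pat y).IsRoot w → ∑ l ∈ Finset.range C.P.natDegree, ((c l).map (eval y)).eval z * w ^ l =
        if z = w then (Polynomial.derivative (C.Pat y)).eval z else 0 := by
  have hd := C.natDegree_pos
  refine ⟨fun l => ∑ j ∈ Finset.range (C.P.natDegree + 1),
    if l < j then Polynomial.monomial (j - 1 - l) (C.P.coeff j) else 0, fun l => ?_,
    fun y z w hz hw => ?_⟩
  · refine lt_of_le_of_lt (Polynomial.natDegree_sum_le_of_forall_le _ (n := C.P.natDegree - 1) _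
      fun j hj => ?_) (by omega)
    have := Finset.mem_range.1 hj
    split_ifs
    · exact (Polynomial.natDegree_monomial_le _).trans (by omega)
    · simp
  · rw [← alg_lagrange (C.Pat y) (d := C.P.natDegree) Polynomial.natDegree_map_le hz hw]
    refine Finset.sum_congr rfl fun l _ => ?_
    congr 1
    rw [Polynomial.map_sum, Polynomial.eval_finsetSum]
    refine Finset.sum_congr rfl fun j _ => ?_
    split_ifs
    · rw [Polynomial.map_monomial, Polynomial.eval_monomial, Pat, Polynomial.coeff_map]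
    · simp

omit [DecidableEq ι] in
theorem alg_recover {c : ℕ → Polynomial (MvPolynomial ι ℂ)}
    (hc : ∀ (y : ι → ℂ) (z w : ℂ), (C.Pat y).IsRoot z →
      (C.Pat y).IsRoot w → ∑ l ∈ Finset.range C.P.natDegree, ((c l).map (eval y)).eval z * w ^ l =
        if z = w then (Polynomial.derivative (C.Pat y)).eval z else 0) (H : C.Pt → ℂ) (p : C.Pt) :
    ∑ l ∈ Finset.range C.P.natDegree, ((c l).map (eval p.1.1)).eval p.1.2 * C.tr H l p.1.1 =
      (Polynomial.derivative (C.Pat p.1.1)).eval p.1.2 * H p := by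
  have : Fintype (C.rd.π ⁻¹' {p.1.1}) :=
    (Set.finite_of_encard_le_coe (C.encard_fibre p.1.1)).fintype
  unfold tr
  simp_rw [tsum_fintype, Finset.mul_sum]
  rw [Finset.sum_comm, Finset.sum_eq_single (⟨p, rfl⟩ : C.rd.π ⁻¹' {p.1.1})]
  · have h := hc p.1.1 p.1.2 p.1.2 ((C.isPt_iff _ _).1 p.2).1 ((C.isPt_iff _ _).1 p.2).1
    rw [if_pos rfl] at h
    rw [← h, Finset.sum_mul]
    exact Finset.sum_congr rfl fun l _ => by ring
  · intro x _ hx
    have hx1 : x.1.1.1 = p.1.1 := x.2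
    have hr : (C.Pat p.1.1).IsRoot x.1.1.2 := by
      have := ((C.isPt_iff _ _).1 x.1.2).1
      rwa [hx1] at this
    have h := hc p.1.1 p.1.2 x.1.1.2 ((C.isPt_iff _ _).1 p.2).1 hr
    rw [if_neg fun h' => hx (Subtype.ext (Subtype.ext (Prod.ext hx1 h'.symm)))] at h
    calc _ = H x * ∑ l ∈ Finset.range C.P.natDegree,
          ((c l).map (eval p.1.1)).eval p.1.2 * x.1.1.2 ^ l := by
          rw [Finset.mul_sum]
          exact Finset.sum_congr rfl fun l _ => by ring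
      _ = 0 := by rw [h, mul_zero]
  · intro h
    exact absurd (Finset.mem_univ _) h

/-- `θ * G = ∑ l, c l (z) * q l (y)` (`mem_Poly` after expanding `c l`) -/
theorem exists_alg : ∃ c : ℕ, ∀ (M : ι → ℕ) (H : C.Pt → ℂ), AEStronglyMeasurable H C.rd.mu →
    ∫⁻ p, ENNReal.ofReal (‖H p‖ ^ 2 * wt M p.1.1) ∂(C.rd.mu) < ⊤ → C.rd.WHol H →
    ∃ G ∈ C.A, C.θ * G ∈ C.Poly (fun i => M i + c) ∧ ∀ᵐ p ∂(C.rd.mu), H p = C.fn G p := by
  obtain ⟨c, hc⟩ := C.exists_tr_poly
  obtain ⟨cc, hcc, hcc'⟩ := C.exists_lagrange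
  obtain ⟨c', hc'⟩ : ∃ c' : ℕ, ∀ l < C.P.natDegree, ∀ k i, degreeOf i ((cc l).coeff k) ≤ c' := by
    refine ⟨(Finset.range C.P.natDegree).sup fun l => (Finset.range C.P.natDegree).sup fun k =>
      ((cc l).coeff k).totalDegree, fun l hl k i => ?_⟩
    by_cases hk : k < C.P.natDegree
    · exact (degreeOf_le_totalDegree _ i).trans ((Finset.le_sup
        (f := fun k => ((cc l).coeff k).totalDegree) (Finset.mem_range.2 hk)).trans
        (Finset.le_sup (f := fun l => (Finset.range C.P.natDegree).sup fun k =>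
          ((cc l).coeff k).totalDegree) (Finset.mem_range.2 hl)))
    · rw [Polynomial.coeff_eq_zero_of_natDegree_lt (by have := hcc l; omega)]
      simp
  refine ⟨c + c', fun M H hm h2 hw => ?_⟩
  choose! q hq hq' using hc M H hm h2 hw
  obtain ⟨T, hT⟩ : ∃ T, T = ∑ l ∈ Finset.range C.P.natDegree, C.pv (cc l) * aeval C.y (q l) :=
    ⟨_, rfl⟩
  have hmem : ∀ l ∈ Finset.range C.P.natDegree, C.pv (cc l) * aeval C.y (q l) ∈ C.A :=
    fun l _ => C.A.mul_mem (C.pv_mem _) (C.aeval_mem _)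
  have hTA : T ∈ C.A := hT ▸ C.A.sum_mem hmem
  refine ⟨C.θ⁻¹ * T, C.A.mul_mem C.θ_inv_mem hTA, ?_, ?_⟩
  · rw [mul_inv_cancel_left₀ C.θ_ne]
    have := C.mem_Poly (fun i => M i + (c + c'))
      (fun k => ∑ l ∈ Finset.range C.P.natDegree, (cc l).coeff k * q l) fun k i => by
        refine (degreeOf_sum_le _ _ _).trans (Finset.sup_le fun l hl => ?_)
        have hl' := Finset.mem_range.1 hl
        have a := hc' l hl' k i
        have b := hq l hl' i
        have := degreeOf_mul_le i ((cc l).coeff k) (q l)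
        omega
    have e : T = ∑ k ∈ Finset.range C.P.natDegree,
        aeval C.y (∑ l ∈ Finset.range C.P.natDegree, (cc l).coeff k * q l) * C.z ^ k := by
      simp_rw [map_sum, Finset.sum_mul]
      rw [Finset.sum_comm, hT]
      refine Finset.sum_congr rfl fun l _ => ?_
      rw [pv, Polynomial.eval₂_eq_sum_range' _ (hcc l), Finset.sum_mul]
      refine Finset.sum_congr rfl fun k _ => ?_
      rw [map_mul]
      simp only [AlgHom.toRingHom_eq_coe, RingHom.coe_coe]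
      ring
    rw [e]
    exact this
  · have hae : ∀ᵐ y : ι → ℂ, ∀ l ∈ Finset.range C.P.natDegree,
        eval y C.Δ * C.tr H l y = eval y (q l) :=
      (Filter.eventually_all_finset _).2 fun l hl => hq' l (Finset.mem_range.1 hl)
    filter_upwards [C.rd.ae_of_ae_base hae] with p hp
    have h1 : C.fn T p = C.fn C.θ p * H p := by
      have a : C.fn T p = ∑ l ∈ Finset.range C.P.natDegree,
          C.fn (C.pv (cc l)) p * C.fn (aeval C.y (q l)) p := by
        rw [hT]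
        unfold fn
        rw [C.ev_sum p.2 _ hmem]
        exact Finset.sum_congr rfl fun l _ => C.ev_mul p.2 (C.pv_mem _) (C.aeval_mem _)
      have b : C.fn C.θ p =
          C.fn (aeval C.y C.Δ) p * C.fn (C.pv (Polynomial.derivative C.P)) p :=
        C.ev_mul p.2 (C.aeval_mem _) (C.pv_mem _)
      rw [a, b, C.fn_aeval, C.fn_pv, ← Polynomial.derivative_map, mul_assoc]
      have := C.alg_recover hcc' H p
      unfold Pat at this
      rw [← this, Finset.mul_sum]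
      refine Finset.sum_congr rfl fun l hl => ?_
      have hl' := hp l hl
      rw [rd_π] at hl'
      rw [C.fn_pv, C.fn_aeval, ← hl']
      ring
    obtain ⟨i1, i2⟩ := C.ev_inv p.2 C.θ_ne C.θ_mem C.θ_inv_mem
    have h3 : C.fn (C.θ⁻¹ * T) p = (C.fn C.θ p)⁻¹ * C.fn T p := by
      unfold fn
      rw [C.ev_mul p.2 C.θ_inv_mem hTA, i2]
    rw [h3, h1, inv_mul_cancel_left₀ (show C.fn C.θ p ≠ 0 from i1)]

/-- Solving `∂bar` with algebraic solutions: `hormander`, `exists_exh` and `exists_alg` for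
`H = v0 - u`. -/
theorem solve : ∃ c : ℕ, ∀ (M : ι → ℕ) (φ : C.Pt → ℝ) (v0 : C.Pt → ℂ) (κ : C.Pt → ℝ) (I B : ℝ),
    C.rd.SmR φ → (∀ p ξ, 0 ≤ C.rd.levi φ p ξ) → C.rd.Sm v0 → Measurable κ → (∀ p, 0 ≤ κ p) →
    (∀ p ξ, ‖∑ j, C.rd.db j v0 p * conj (ξ j)‖ ^ 2 ≤ κ p * C.rd.levi φ p ξ) → 0 ≤ I →
    ∫⁻ p, ENNReal.ofReal (κ p * Real.exp (-φ p)) ∂(C.rd.mu) ≤ ENNReal.ofReal I →
    (∀ p, wt M p.1.1 ≤ B * Real.exp (-φ p)) →
    ∫⁻ p, ENNReal.ofReal (‖v0 p‖ ^ 2 * wt M p.1.1) ∂(C.rd.mu) < ⊤ →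
    ∃ G ∈ C.A, C.θ * G ∈ C.Poly (fun i => M i + c) ∧
      ∫⁻ p, ENNReal.ofReal (‖v0 p - C.fn G p‖ ^ 2 * Real.exp (-φ p)) ∂(C.rd.mu) ≤
        ENNReal.ofReal (2 * I) := by
  obtain ⟨c, hc⟩ := C.exists_alg
  obtain ⟨ρ, hρ⟩ := C.exists_exh
  refine ⟨c, fun M φ v0 κ I B hφ hp hv hκ hκ0 hb hI0 hI hB h2 => ?_⟩
  obtain ⟨u, hu, hu2, hw⟩ := RD.hormander hρ hφ hp hv hκ hκ0 hb hI0 hI
  have hle : ∀ p : C.Pt, ENNReal.ofReal (‖v0 p - u p‖ ^ 2 * wt M p.1.1) ≤
      ENNReal.ofReal 2 * ENNReal.ofReal (‖v0 p‖ ^ 2 * wt M p.1.1) +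
        ENNReal.ofReal (2 * B) * ENNReal.ofReal (‖u p‖ ^ 2 * Real.exp (-φ p)) := by
    intro p
    have a := wt_pos M p.1.1
    have hb := hB p
    have e := Real.exp_pos (-φ p)
    have hB0 : 0 ≤ B := by
      by_contra h
      nlinarith [mul_pos (neg_pos.2 (not_le.1 h)) e]
    rw [← ENNReal.ofReal_mul (by norm_num), ← ENNReal.ofReal_mul (by positivity),
      ← ENNReal.ofReal_add (by positivity) (by positivity)]
    apply ENNReal.ofReal_le_ofReal
    have h1 : ‖v0 p - u p‖ ^ 2 ≤ 2 * ‖v0 p‖ ^ 2 + 2 * ‖u p‖ ^ 2 := by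
      have := pow_le_pow_left₀ (norm_nonneg _) (norm_sub_le (v0 p) (u p)) 2
      nlinarith [sq_nonneg (‖v0 p‖ - ‖u p‖)]
    have h3 := mul_le_mul_of_nonneg_right h1 a.le
    have h4 := mul_le_mul_of_nonneg_left hb (sq_nonneg ‖u p‖)
    nlinarith
  have hfin : ∫⁻ p, ENNReal.ofReal (‖v0 p - u p‖ ^ 2 * wt M p.1.1) ∂(C.rd.mu) < ⊤ := by
    refine (lintegral_mono hle).trans_lt ?_
    have hme : Measurable fun p : C.Pt =>
        ENNReal.ofReal 2 * ENNReal.ofReal (‖v0 p‖ ^ 2 * wt M p.1.1) :=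
      ((hv.continuous.norm.pow 2).mul (C.alg_cont_wt M)).measurable.ennreal_ofReal.const_mul _
    rw [lintegral_add_left hme,
      lintegral_const_mul' _ _ ENNReal.ofReal_ne_top, lintegral_const_mul' _ _ ENNReal.ofReal_ne_top]
    exact ENNReal.add_lt_top.2 ⟨ENNReal.mul_lt_top ENNReal.ofReal_lt_top h2,
      ENNReal.mul_lt_top ENNReal.ofReal_lt_top (hu2.trans_lt ENNReal.ofReal_lt_top)⟩
  obtain ⟨G, hG, hG1, hG2⟩ := hc M _ (hv.continuous.aestronglyMeasurable.sub hu) hfin hw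
  refine ⟨G, hG, hG1, le_trans (le_of_eq (lintegral_congr_ae ?_)) hu2⟩
  filter_upwards [hG2] with p hp
  rw [← hp]
  simp

omit [Fintype ι] [DecidableEq ι] in
theorem alg_fn_sum {β : Type} [Fintype β] (g : β → L) (hg : ∀ j, g j ∈ C.A) (c : β → ℂ)
    (p : C.Pt) : C.fn (∑ j, c j • g j) p = ∑ j, c j * C.fn (g j) p := by
  unfold fn
  rw [C.ev_sum p.2 _ fun j _ => C.A.smul_mem (hg j) _]
  exact Finset.sum_congr rfl fun j _ => C.ev_smul p.2 _ (hg j)

omit [DecidableEq ι] in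
theorem alg_lower {β : Type} [Fintype β] (g : β → L) (hg : ∀ j, g j ∈ C.A)
    (hli : LinearIndependent ℂ g) {w : C.Pt → ℝ} (hw : Measurable w) (hw0 : ∀ p, 0 < w p) :
    ∃ ε : ℝ, 0 < ε ∧ ∀ c : β → ℂ, ‖c‖ = 1 → ENNReal.ofReal ε ≤
      ∫⁻ p, ENNReal.ofReal (‖∑ j, c j * C.fn (g j) p‖ ^ 2 * w p) ∂(C.rd.mu) := by
  by_contra hcon
  push Not at hcon
  choose c hc1 hc2 using fun n : ℕ => hcon (1 / ((n : ℝ) + 1)) Nat.one_div_pos_of_nat
  obtain ⟨a, ha, s, hs, hlim⟩ := (isCompact_sphere (0 : β → ℂ) 1).tendsto_subseq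
    (x := c) fun n => by simpa using hc1 n
  have hmeas : ∀ c : β → ℂ, Measurable fun p =>
      ENNReal.ofReal (‖∑ j, c j * C.fn (g j) p‖ ^ 2 * w p) := fun c =>
    (((continuous_finsetSum _ fun j _ =>
      continuous_const.mul (C.continuous_fn (hg j))).norm.pow 2).measurable.mul hw).ennreal_ofReal
  have hF := lintegral_liminf_le (μ := C.rd.mu) (u := atTop) fun n => hmeas (c (s n))
  have h1 : ∀ p, liminf (fun n => ENNReal.ofReal (‖∑ j, c (s n) j * C.fn (g j) p‖ ^ 2 * w p))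
      atTop = ENNReal.ofReal (‖∑ j, a j * C.fn (g j) p‖ ^ 2 * w p) := fun p => by
    apply Tendsto.liminf_eq
    refine (ENNReal.continuous_ofReal.tendsto _).comp (Tendsto.mul_const _ (Tendsto.pow ?_ 2))
    exact (tendsto_finsetSum _ fun j _ =>
      (((continuous_apply j).tendsto a).comp hlim).mul_const _).norm
  have h2 : Tendsto (fun n => ∫⁻ p, ENNReal.ofReal
      (‖∑ j, c (s n) j * C.fn (g j) p‖ ^ 2 * w p) ∂(C.rd.mu)) atTop (𝓝 0) := by
    have t : Tendsto (fun n => ENNReal.ofReal (1 / ((s n : ℝ) + 1))) atTop (𝓝 0) := by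
      have := (ENNReal.continuous_ofReal.tendsto _).comp
        ((tendsto_one_div_add_atTop_nhds_zero_nat (𝕜 := ℝ)).comp hs.tendsto_atTop)
      rwa [ENNReal.ofReal_zero] at this
    exact tendsto_of_tendsto_of_tendsto_of_le_of_le tendsto_const_nhds t
      (fun n => zero_le) fun n => (hc2 (s n)).le
  simp_rw [h1] at hF
  rw [h2.liminf_eq, nonpos_iff_eq_zero, lintegral_eq_zero_iff (hmeas a)] at hF
  have hne : ∑ j, a j • g j ≠ 0 := fun h => by
    have : a = 0 := funext (Fintype.linearIndependent_iff.1 hli a h)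
    simp [this] at ha
  have h3 := C.ae_fn_ne (C.A.sum_mem fun j _ => C.A.smul_mem (hg j) _) hne
  apply C.mu_ne_zero
  rw [← ae_eq_bot, ← eventually_false_iff_eq_bot]
  filter_upwards [hF, h3] with p hp hp'
  rw [C.alg_fn_sum g hg] at hp'
  have := mul_pos (pow_pos (norm_pos_iff.2 hp') 2) (hw0 p)
  simp only [Pi.zero_apply, ENNReal.ofReal_eq_zero] at hp
  linarith

omit [DecidableEq ι] in
/-- Equivalence of norms.  Reduce to a linearly independent subfamily with the same span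
(`exists_linearIndependent'`-like lemmas).  The function
`N c = ∫⁻ |∑ c j * fn (g j)|^2 w` is homogeneous and lower semicontinuous (Fatou,
`lintegral_liminf_le`), positive for `c ≠ 0` (`ae_fn_ne`, `mu_ne_zero`), so it is bounded below on
the compact unit sphere. -/
theorem normeq {β : Type} [Fintype β] (g : β → L) (hg : ∀ j, g j ∈ C.A) {w : C.Pt → ℝ}
    (hw : Measurable w) (hw0 : ∀ p, 0 < w p) :
    ∃ B : ℝ, 0 ≤ B ∧ ∀ G ∈ Submodule.span ℂ (Set.range g), ∀ I : ℝ, 0 ≤ I →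
      ∫⁻ p, ENNReal.ofReal (‖C.fn G p‖ ^ 2 * w p) ∂(C.rd.mu) ≤ ENNReal.ofReal I →
      ∀ p, ‖C.fn G p‖ ^ 2 ≤ B * I * ∑ j, ‖C.fn (g j) p‖ ^ 2 := by
  classical
  obtain ⟨κ, a, ha, hsp, hli⟩ := exists_linearIndependent' ℂ g
  have : Fintype κ := Fintype.ofInjective a ha
  have hg' : ∀ k, (g ∘ a) k ∈ C.A := fun k => hg _
  obtain ⟨ε, hε, h⟩ := C.alg_lower (g ∘ a) hg' hli hw hw0
  refine ⟨Fintype.card κ / ε, by positivity, fun G hG I hI0 hI p => ?_⟩
  rw [← hsp, Submodule.mem_span_range_iff_exists_fun] at hG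
  obtain ⟨c, rfl⟩ := hG
  simp_rw [C.alg_fn_sum _ hg'] at hI ⊢
  have hc : ‖c‖ ^ 2 * ε ≤ I := by
    by_cases h0 : c = 0
    · simpa [h0] using hI0
    have hn : 0 < ‖c‖ := norm_pos_iff.2 h0
    have h1 := h (((‖c‖⁻¹ : ℝ) : ℂ) • c) (by
      rw [norm_smul, Complex.norm_real, norm_inv, norm_norm, inv_mul_cancel₀ hn.ne'])
    have e : ∀ p, ENNReal.ofReal
        (‖∑ j, (((‖c‖⁻¹ : ℝ) : ℂ) • c) j * C.fn ((g ∘ a) j) p‖ ^ 2 * w p) =
        ENNReal.ofReal (‖c‖⁻¹ ^ 2) *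
          ENNReal.ofReal (‖∑ j, c j * C.fn ((g ∘ a) j) p‖ ^ 2 * w p) := fun p => by
      rw [← ENNReal.ofReal_mul (by positivity)]
      simp_rw [Pi.smul_apply, smul_eq_mul, mul_assoc, ← Finset.mul_sum]
      rw [norm_mul, Complex.norm_real, norm_inv, norm_norm, mul_pow, mul_assoc]
    simp_rw [e] at h1
    rw [lintegral_const_mul' _ _ ENNReal.ofReal_ne_top] at h1
    have h2 := h1.trans (mul_le_mul_right hI _)
    rw [← ENNReal.ofReal_mul (by positivity), ENNReal.ofReal_le_ofReal_iff (by positivity)] at h2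
    have h3 := mul_le_mul_of_nonneg_left h2 (sq_nonneg ‖c‖)
    rwa [← mul_assoc, ← mul_pow, mul_inv_cancel₀ hn.ne', one_pow, one_mul] at h3
  have s1 : ‖∑ k, c k * C.fn ((g ∘ a) k) p‖ ≤ ‖c‖ * ∑ k, ‖C.fn ((g ∘ a) k) p‖ := by
    rw [Finset.mul_sum]
    refine (norm_sum_le _ _).trans (Finset.sum_le_sum fun k _ => ?_)
    rw [norm_mul]
    exact mul_le_mul_of_nonneg_right (norm_le_pi_norm c k) (norm_nonneg _)
  have s2 := sq_sum_le_card_mul_sum_sq (s := (Finset.univ : Finset κ))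
    (f := fun k => ‖C.fn ((g ∘ a) k) p‖)
  rw [Finset.card_univ] at s2
  have s3 : ∑ k, ‖C.fn ((g ∘ a) k) p‖ ^ 2 ≤ ∑ j, ‖C.fn (g j) p‖ ^ 2 := by
    have := Finset.sum_image (s := (Finset.univ : Finset κ)) (g := a)
      (f := fun j => ‖C.fn (g j) p‖ ^ 2) fun x _ y _ hxy => ha hxy
    refine le_trans (le_of_eq this.symm) ?_
    exact Finset.sum_le_sum_of_subset_of_nonneg (Finset.subset_univ _) fun _ _ _ => by positivity
  have s4 : ‖c‖ ^ 2 ≤ I / ε := by rwa [le_div_iff₀ hε]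
  calc _ ≤ (‖c‖ * ∑ k, ‖C.fn ((g ∘ a) k) p‖) ^ 2 := pow_le_pow_left₀ (norm_nonneg _) s1 2
    _ = ‖c‖ ^ 2 * (∑ k, ‖C.fn ((g ∘ a) k) p‖) ^ 2 := mul_pow _ _ _
    _ ≤ I / ε * (Fintype.card κ * ∑ j, ‖C.fn (g j) p‖ ^ 2) := by
        refine mul_le_mul s4 (s2.trans ?_) (by positivity) (by positivity)
        exact mul_le_mul_of_nonneg_left s3 (by positivity)
    _ = _ := by ring

end Cover

end Pool.Agent.MP_c0606f_ag.Klt

end
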