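import Pool.Agent.MP_c0606f_ag.Mg.Klt_BPrime
import Pool.Agent.MP_c0606f_ag.Mg.Klt_Alg
import Mathlib

-- part MP_c0606f_ag.Klt.BPrim
section

/-! A homogeneous primitive element of the cone. -/

namespace Pool.Agent.MP_c0606f_ag.Klt

open MvPolynomial
open scoped IntermediateField

/-- a polynomial with values in a subfield at infinitely many natural numbers has its coefficients
in the subfield -/
theorem bprim_coeff_mem {F E : Type} [Field F] [CharZero F] [Field E] [Algebra F E]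
    (E0 : IntermediateField F E) (p : Polynomial E) {S : Set ℕ} (hS : S.Infinite)
    (h : ∀ l ∈ S, p.eval (l : E) ∈ E0) (i : ℕ) : p.coeff i ∈ E0 := by
  classical
  have : CharZero E := charZero_of_injective_algebraMap (algebraMap F E).injective
  obtain ⟨T, hT, hc⟩ := hS.exists_subset_card_eq (p.natDegree + 1)
  have hinj : Set.InjOn (fun l : ℕ => (l : E0)) T := fun a _ b _ hab => Nat.cast_injective hab
  let q : Polynomial E0 := Lagrange.interpolate T (fun l : ℕ => (l : E0))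
    fun l => if hl : l ∈ S then ⟨p.eval (l : E), h l hl⟩ else 0
  have hq : q.map (algebraMap E0 E) = p := by
    refine Polynomial.eq_of_degrees_lt_of_eval_index_eq T (v := fun l : ℕ => (l : E))
      (fun a _ b _ hab => Nat.cast_injective hab) ?_ ?_ fun l hl => ?_
    · rw [Polynomial.degree_map]
      exact Lagrange.degree_interpolate_lt _ hinj
    · rw [hc]
      exact Polynomial.degree_le_natDegree.trans_lt (by exact_mod_cast Nat.lt_succ_self _)
    · have e : (l : E) = algebraMap E0 E (l : E0) := by simp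
      conv_lhs => rw [e]
      rw [Polynomial.eval_map_algebraMap, Polynomial.aeval_algebraMap_apply,
        Polynomial.coe_aeval_eq_eval, Lagrange.eval_interpolate_at_node _ hinj hl,
        dif_pos (hT hl)]
      rfl
  rw [← hq, Polynomial.coeff_map]
  exact (q.coeff i).2

/-- Let `z₁` be a primitive element.  There are finitely many intermediate fields
(`Field.finite_intermediateField_of_exists_primitive_element`), so one field `E0` equals
`F⟮(z₁ + l) ^ r / σ⟯` for infinitely many natural numbers `l` (`Finite.exists_infinite_fiber`).  The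
polynomial `(C z₁ + X) ^ r * C σ⁻¹` of degree `r` takes values in `E0` at infinitely many points of
`F`, so its coefficients lie in `E0` (Lagrange interpolation, or apply an `E0`-linear functional
vanishing on `E0`); the two top coefficients are `σ⁻¹` and `r z₁ σ⁻¹`.  At most one `l` has
`z₁ + l = 0`. -/
theorem exists_prim_pow {F E : Type} [Field F] [CharZero F] [Field E] [Algebra F E]
    [FiniteDimensional F E] {σ : E} (hσ : σ ≠ 0) {r : ℕ} (hr : 0 < r) :
    ∃ a : E, a ≠ 0 ∧ F⟮a ^ r / σ⟯ = ⊤ := by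
  have : CharZero E := charZero_of_injective_algebraMap (algebraMap F E).injective
  obtain ⟨z, hz⟩ := Field.exists_primitive_element F E
  have := Field.finite_intermediateField_of_exists_primitive_element F E ⟨z, hz⟩
  obtain ⟨E0, hE0⟩ := Finite.exists_infinite_fiber fun l : ℕ => F⟮((l : E) + z) ^ r / σ⟯
  rw [Set.infinite_coe_iff] at hE0
  have hc := bprim_coeff_mem E0 ((Polynomial.X + Polynomial.C z) ^ r * Polynomial.C σ⁻¹) hE0
    fun l hl => by
      have h1 : F⟮((l : E) + z) ^ r / σ⟯ = E0 := hl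
      rw [← h1]
      simpa [div_eq_mul_inv] using IntermediateField.mem_adjoin_simple_self F _
  have h1 := hc r
  have h2 := hc (r - 1)
  rw [Polynomial.coeff_mul_C, Polynomial.coeff_X_add_C_pow] at h1 h2
  obtain ⟨r, rfl⟩ : ∃ r', r = r' + 1 := ⟨r - 1, by omega⟩
  simp only [Nat.sub_self, pow_zero, Nat.choose_self, Nat.cast_one, one_mul, Nat.add_sub_cancel,
    Nat.add_sub_cancel_left, pow_one, Nat.choose_succ_self_right] at h1 h2
  have hzm : z ∈ E0 := by
    have h3 := E0.div_mem (E0.div_mem h2 h1) (natCast_mem E0 (r + 1))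
    have h4 : ((r + 1 : ℕ) : E) ≠ 0 := Nat.cast_ne_zero.2 (by omega)
    convert h3 using 1
    field_simp
  have htop : E0 = ⊤ := by
    rw [eq_top_iff, ← hz, IntermediateField.adjoin_simple_le_iff]
    exact hzm
  have hfin : {l : ℕ | (l : E) + z = 0}.Finite :=
    Set.Subsingleton.finite fun a ha b hb => Nat.cast_injective (R := E) (by
      have ha' : (a : E) + z = 0 := ha
      have hb' : (b : E) + z = 0 := hb
      linear_combination ha' - hb')
  obtain ⟨l, hl, hl'⟩ := (hE0.sdiff hfin).nonempty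
  exact ⟨l + z, hl', Eq.trans hl htop⟩

variable {K : Type} [Field K] [Algebra ℂ K] {n k r : ℕ} {y : Fin n → K} {s : Fin (k + 1) → K}

/-- homogenisation of a polynomial in the affine coordinates -/
theorem bprim_homog (N : NN n s) (r : ℕ) {c : K}
    (hc : c ∈ Algebra.adjoin ℂ (Set.range (aff N.S none))) :
    ∀ᶠ D in Filter.atTop,
      RatFunc.C c * N.Y r none ^ D ∈ Algebra.adjoin ℂ (Set.range (N.Y r)) := by
  have hY : ∀ o, N.Y r o ∈ Algebra.adjoin ℂ (Set.range (N.Y r)) := fun o =>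
    Algebra.subset_adjoin ⟨o, rfl⟩
  have key : ∃ D, RatFunc.C c * N.Y r none ^ D ∈ Algebra.adjoin ℂ (Set.range (N.Y r)) := by
    induction hc using Algebra.adjoin_induction with
    | mem x hx =>
      obtain ⟨i, rfl⟩ := hx
      refine ⟨1, ?_⟩
      convert hY i.1 using 1
      rw [pow_one, NN.Y, NN.Y, hom_apply, hom_apply, ← mul_assoc, ← map_mul, aff,
        div_mul_cancel₀ _ (N.ne none)]
    | algebraMap x =>
      refine ⟨0, ?_⟩
      rw [pow_zero, mul_one, ← cA_apply, AlgHom.commutes]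
      exact Subalgebra.algebraMap_mem _ _
    | add x x' _ _ h h' =>
      obtain ⟨D, h⟩ := h
      obtain ⟨D', h'⟩ := h'
      refine ⟨D + D', ?_⟩
      convert add_mem (mul_mem h (pow_mem (hY none) D')) (mul_mem h' (pow_mem (hY none) D))
        using 1
      rw [map_add]; ring
    | mul x x' _ _ h h' =>
      obtain ⟨D, h⟩ := h
      obtain ⟨D', h'⟩ := h'
      refine ⟨D + D', ?_⟩
      convert mul_mem h h' using 1
      rw [map_mul]; ring
  obtain ⟨D, h⟩ := key
  filter_upwards [Filter.eventually_ge_atTop D] with D' hD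
  obtain ⟨d, rfl⟩ := Nat.exists_eq_add_of_le hD
  rw [pow_add, ← mul_assoc]
  exact mul_mem h (pow_mem (hY none) d)

/-- a homogeneous multiple of a constant is integral -/
theorem bprim_int (N : NN n s) (r : ℕ) (α : K) : ∃ (b : K) (D : ℕ), b ≠ 0 ∧
    RatFunc.C b * N.Y r none ^ D ∈ Algebra.adjoin ℂ (Set.range (N.Y r)) ∧
    IsIntegral (Algebra.adjoin ℂ (Set.range (N.Y r)))
      (RatFunc.C b * N.Y r none ^ D * RatFunc.C α) := by
  have := (N.basis none).isAlgebraic
  obtain ⟨q, hq0, hq⟩ := Algebra.IsAlgebraic.isAlgebraic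
    (R := Algebra.adjoin ℂ (Set.range (aff N.S none))) α
  obtain ⟨D, hD⟩ := ((Filter.eventually_all_finset q.support).2
    fun j _ => bprim_homog N r (q.coeff j).2).exists
  let φ : Algebra.adjoin ℂ (Set.range (aff N.S none)) →+* RatFunc K :=
    (RatFunc.C : K →+* RatFunc K).comp (algebraMap _ K)
  have hφ : Function.Injective φ :=
    (RatFunc.C : K →+* RatFunc K).injective.comp Subtype.val_injective
  have hl : q.map φ * Polynomial.C (N.Y r none ^ D) ∈
      Polynomial.lifts (algebraMap (Algebra.adjoin ℂ (Set.range (N.Y r))) (RatFunc K)) := by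
    rw [Polynomial.lifts_iff_coeff_lifts]
    intro j
    rw [Polynomial.coeff_mul_C, Polynomial.coeff_map]
    by_cases hj : j ∈ q.support
    · exact ⟨⟨_, hD j hj⟩, rfl⟩
    · rw [Polynomial.notMem_support_iff.1 hj, map_zero, zero_mul]
      exact ⟨0, map_zero _⟩
  obtain ⟨Q, hQ⟩ := (Polynomial.mem_lifts _).1 hl
  have hroot : Polynomial.aeval (RatFunc.C α : RatFunc K) Q = 0 := by
    rw [← Polynomial.eval_map_algebraMap, hQ, Polynomial.eval_mul, Polynomial.eval_map,
      ← Polynomial.hom_eval₂, ← Polynomial.aeval_def, hq, map_zero, zero_mul]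
  have hlc : ((Q.leadingCoeff : Algebra.adjoin ℂ (Set.range (N.Y r))) : RatFunc K) =
      RatFunc.C (q.leadingCoeff : K) * N.Y r none ^ D := by
    have := Polynomial.leadingCoeff_map_of_injective
      (f := algebraMap (Algebra.adjoin ℂ (Set.range (N.Y r))) (RatFunc K))
      Subtype.val_injective Q
    rw [hQ, Polynomial.leadingCoeff_mul, Polynomial.leadingCoeff_C,
      Polynomial.leadingCoeff_map_of_injective hφ] at this
    exact this.symm
  refine ⟨q.leadingCoeff, D, ?_, hlc ▸ Q.leadingCoeff.2, ?_⟩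
  · simpa using hq0
  · rw [← hlc]
    exact isIntegral_leadingCoeff_smul Q _ hroot

/-- an intermediate field containing the constants and `X` is everything -/
theorem bprim_top (L : IntermediateField ℂ (RatFunc K)) (hC : ∀ a : K, RatFunc.C a ∈ L)
    (hX : (RatFunc.X : RatFunc K) ∈ L) : L = ⊤ := by
  have hp : ∀ p : Polynomial K, algebraMap (Polynomial K) (RatFunc K) p ∈ L := by
    intro p
    induction p using Polynomial.induction_on' with
    | add p q hp hq => rw [map_add]; exact add_mem hp hq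
    | monomial j a =>
      rw [← Polynomial.C_mul_X_pow_eq_monomial, map_mul, map_pow, RatFunc.algebraMap_C,
        RatFunc.algebraMap_X]
      exact mul_mem (hC a) (pow_mem hX j)
  rw [eq_top_iff]
  intro g _
  rw [← g.num_div_denom]
  exact div_mem (hp _) (hp _)

/-- Let `u = aff S none`, `F = ℂ(u)` (`K` is finite over it: algebraic and finitely generated),
`a` from `exists_prim_pow` with `σ = S none`, `α = a ^ r / S none`.  The field generated by `Y` and
`hom 1 a` contains `C (u i) = Y i / Y none`, `C α = hom 1 a ^ r / Y none`, hence `C K` and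
`X = hom 1 a / C a`.  To make the generator integral: `b₀(u) * α` is integral over `ℂ[u]` for some
`b₀ ≠ 0` (`IsAlgebraic.exists_integral_multiple`).  For every polynomial `c` and `D ≥ deg c` the
element `C (c(u)) * Y none ^ D` lies in `ℂ[Y]`; so for large `D`, `β = C (b₀(u) α) * Y none ^ D` is
integral over `ℂ[Y]` (scale the equation; or `isIntegral_of_valuationSubring`-like argument) and
`B = C (b₀(u)) * Y none ^ D ∈ ℂ[Y]` is nonzero.  Take `z = B * hom 1 a`; then
`z ^ r = B ^ (r - 1) * β * Y none`. -/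
theorem NN.exists_z (N : NN n s) (hX : IsKltFano r y s) :
    ∃ (e : ℕ) (ζ : K), IsIntegral (Algebra.adjoin ℂ (Set.range (N.Y r))) (hom e ζ) ∧
      IntermediateField.adjoin ℂ (insert (hom e ζ) (Set.range (N.Y r))) = ⊤ := by
  have hr := hX.pos
  have halg := (N.basis none).isAlgebraic_field
  have : Algebra.EssFiniteType ℂ K := IntermediateField.fg_top_iff.1 hX.fg
  have : Algebra.EssFiniteType (IntermediateField.adjoin ℂ (Set.range (aff N.S none))) K :=
    Algebra.EssFiniteType.of_comp ℂ _ K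
  have : FiniteDimensional (IntermediateField.adjoin ℂ (Set.range (aff N.S none))) K :=
    Algebra.finite_of_essFiniteType_of_isAlgebraic
  have : CharZero K := charZero_of_injective_algebraMap (algebraMap ℂ K).injective
  obtain ⟨a, ha, htop⟩ := exists_prim_pow
    (F := IntermediateField.adjoin ℂ (Set.range (aff N.S none))) (N.ne none) hr
  obtain ⟨b, D, hb, hB, hint⟩ := bprim_int N r (a ^ r / N.S none)
  have hY0 : N.Y r none ≠ 0 := hom_ne _ (N.ne none)
  have hw : (hom 1 a : RatFunc K) ^ r = RatFunc.C (a ^ r / N.S none) * N.Y r none := by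
    rw [hom_pow, mul_one, NN.Y, hom_apply, hom_apply, ← mul_assoc, ← map_mul,
      div_mul_cancel₀ _ (N.ne none)]
  have hz : (hom (D * r + 1) (b * (N.S none ^ D * a)) : RatFunc K) =
      RatFunc.C b * N.Y r none ^ D * hom 1 a := by
    rw [NN.Y, hom_pow, mul_assoc, hom_mul, hom_apply, hom_apply, map_mul, mul_assoc]
  refine ⟨D * r + 1, b * (N.S none ^ D * a), ?_, ?_⟩
  · rw [hz]
    refine IsIntegral.of_pow hr ?_
    have h1 : IsIntegral (Algebra.adjoin ℂ (Set.range (N.Y r)))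
        (RatFunc.C b * N.Y r none ^ D) := isIntegral_algebraMap (x := (⟨_, hB⟩ :
          Algebra.adjoin ℂ (Set.range (N.Y r))))
    have h2 : IsIntegral (Algebra.adjoin ℂ (Set.range (N.Y r))) (N.Y r none) :=
      isIntegral_algebraMap (x := (⟨_, Algebra.subset_adjoin ⟨none, rfl⟩⟩ :
          Algebra.adjoin ℂ (Set.range (N.Y r))))
    have e : (RatFunc.C b * N.Y r none ^ D * hom 1 a) ^ r =
        (RatFunc.C b * N.Y r none ^ D) ^ (r - 1) *
          (RatFunc.C b * N.Y r none ^ D * RatFunc.C (a ^ r / N.S none)) * N.Y r none := by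
      rw [mul_pow _ (hom 1 a : RatFunc K), hw,
        ← pow_sub_one_mul hr.ne' (RatFunc.C b * N.Y r none ^ D)]
      ring
    rw [e]
    exact ((h1.pow (r - 1)).mul hint).mul h2
  · rw [hz]
    set L := IntermediateField.adjoin ℂ
      (insert (RatFunc.C b * N.Y r none ^ D * hom 1 a) (Set.range (N.Y r))) with hL
    have hY : ∀ o, N.Y r o ∈ L := fun o =>
      IntermediateField.subset_adjoin _ _ (Set.mem_insert_of_mem _ ⟨o, rfl⟩)
    have hBL : RatFunc.C b * N.Y r none ^ D ∈ L :=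
      (Algebra.adjoin_le (S := L.toSubalgebra) (by rintro _ ⟨o, rfl⟩; exact hY o)) hB
    have hB0 : RatFunc.C b * N.Y r none ^ D ≠ 0 :=
      mul_ne_zero (by simpa using hb) (pow_ne_zero _ hY0)
    have hwL : (hom 1 a : RatFunc K) ∈ L := by
      have := div_mem (IntermediateField.subset_adjoin ℂ _ (Set.mem_insert _ _) :
        RatFunc.C b * N.Y r none ^ D * hom 1 a ∈ L) hBL
      rwa [mul_div_cancel_left₀ _ hB0] at this
    have hC : ∀ c : K, RatFunc.C c ∈ L := by
      have h1 : IntermediateField.adjoin ℂ (Set.range (aff N.S none) ∪ {a ^ r / N.S none}) = ⊤ := by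
        rw [← IntermediateField.adjoin_adjoin_left, htop]
        rfl
      have h2 : IntermediateField.adjoin ℂ (Set.range (aff N.S none) ∪ {a ^ r / N.S none}) ≤
          L.comap (cA K) := by
        rw [IntermediateField.adjoin_le_iff]
        rintro _ (⟨i, rfl⟩ | rfl)
        · change RatFunc.C (aff N.S none i) ∈ L
          convert div_mem (hY i.1) (hY none) using 1
          rw [eq_div_iff hY0, NN.Y, NN.Y, hom_apply, hom_apply, ← mul_assoc, ← map_mul, aff,
            div_mul_cancel₀ _ (N.ne none)]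
        · change RatFunc.C (a ^ r / N.S none) ∈ L
          convert div_mem (pow_mem hwL r) (hY none) using 1
          rw [hw, mul_div_cancel_right₀ _ hY0]
      intro c
      exact h2 (h1 ▸ IntermediateField.mem_top)
    refine bprim_top L hC ?_
    convert div_mem hwL (hC a) using 1
    rw [hom_apply, pow_one, mul_div_cancel_left₀ _ (by simpa using ha)]

end Pool.Agent.MP_c0606f_ag.Klt

end

-- part MP_c0606f_ag.Klt.BRaw
section

/-! The cover defined by an integral generator. -/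

namespace Pool.Agent.MP_c0606f_ag.Klt

open MvPolynomial

/-- a nonzero element of `A[z]` divides a nonzero element of `A` inside `A[z]` -/
theorem braw_inv {A L : Type} [CommRing A] [IsDomain A] [Field L] [Algebra A L] {z : L}
    (hz : IsIntegral A z) (q : Polynomial A) (hq : Polynomial.aeval z q ≠ 0) :
    ∃ (q₁ : Polynomial A) (r : A), r ≠ 0 ∧
      Polynomial.aeval z q * Polynomial.aeval z q₁ = algebraMap A L r := by
  have hm : Polynomial.aeval z q ∈ Algebra.adjoin A {z} := Polynomial.aeval_mem_adjoin_singleton _ _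
  have hi : IsIntegral A (Polynomial.aeval z q) := adjoin_le_integralClosure hz hm
  obtain ⟨t, ht, r, hr, e⟩ :=
    hi.isAlgebraic.exists_nonzero_eq_adjoin_mul (mem_nonZeroDivisors_of_ne_zero hq)
  have ht' : t ∈ Algebra.adjoin A {z} :=
    Algebra.adjoin_le (S := Algebra.adjoin A {z}) (Set.singleton_subset_iff.2 hm) ht
  rw [Algebra.adjoin_singleton_eq_range_aeval] at ht'
  obtain ⟨q₁, rfl⟩ := ht'
  exact ⟨q₁, r, hr, e⟩

/-- the derivative of the minimal polynomial does not vanish at the root -/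
theorem braw_deriv {A L : Type} [CommRing A] [IsDomain A] [CharZero A] [IsIntegrallyClosed A]
    [Field L] [Algebra A L] [FaithfulSMul A L] {z : L} (hz : IsIntegral A z) :
    Polynomial.aeval z (Polynomial.derivative (minpoly A z)) ≠ 0 := by
  intro h
  have hd := minpoly.isIntegrallyClosed_dvd hz h
  have hpos := minpoly.natDegree_pos hz
  have h0 : Polynomial.derivative (minpoly A z) ≠ 0 := fun h0 => by
    have := Polynomial.derivative_eq_zero.1 h0
    omega
  have h1 := Polynomial.natDegree_le_of_dvd hd h0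
  have h2 := Polynomial.natDegree_derivative_lt (p := minpoly A z) (by omega)
  omega

/-- the Bezout relation -/
theorem braw_bez {A L : Type} [CommRing A] [IsDomain A] [CharZero A] [IsIntegrallyClosed A]
    [Field L] [Algebra A L] [FaithfulSMul A L] {z : L} (hz : IsIntegral A z) :
    ∃ r : A, r ≠ 0 ∧ ∃ a b : Polynomial A,
      Polynomial.C r = a * minpoly A z + b * Polynomial.derivative (minpoly A z) := by
  obtain ⟨q₁, r, hr, e⟩ := braw_inv hz _ (braw_deriv hz)
  have h : Polynomial.aeval z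
      (Polynomial.C r - q₁ * Polynomial.derivative (minpoly A z)) = 0 := by
    rw [map_sub, map_mul, Polynomial.aeval_C, ← e, mul_comm, sub_self]
  obtain ⟨c, hc⟩ := minpoly.isIntegrallyClosed_dvd hz h
  exact ⟨r, hr, c, q₁, by rw [mul_comm c, ← hc]; ring⟩

/-- the conductor element, with an explicit fraction field -/
theorem braw_cond' {A K L : Type} [CommRing A] [IsDomain A] [IsIntegrallyClosed A]
    [Field K] [CharZero K] [Algebra A K] [IsFractionRing A K]
    [Field L] [Algebra A L] [Algebra K L] [IsScalarTower A K L] {z : L} (hz : IsIntegral A z)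
    (hgen : ∀ a : L, ∃ (q : Polynomial A) (b : A), b ≠ 0 ∧
      a * algebraMap A L b = Polynomial.aeval z q) :
    ∃ r : A, r ≠ 0 ∧ ∀ a : L, IsIntegral A a →
      ∃ q : Polynomial A, a * algebraMap A L r = Polynomial.aeval z q := by
  have hzK : IsIntegral K z := hz.tower_top
  have htop : Algebra.adjoin K {z} = ⊤ := by
    refine eq_top_iff.2 fun a _ => ?_
    obtain ⟨q, b, hb, h⟩ := hgen a
    have hb' : algebraMap A K b ≠ 0 := fun h0 =>
      hb (IsFractionRing.injective A K (by rw [h0, map_zero]))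
    have h1 : a = (algebraMap A K b)⁻¹ • Polynomial.aeval z (q.map (algebraMap A K)) := by
      rw [Polynomial.aeval_map_algebraMap, ← h, IsScalarTower.algebraMap_apply A K L, mul_comm,
        ← Algebra.smul_def, smul_smul, inv_mul_cancel₀ hb', one_smul]
    rw [h1]
    exact Subalgebra.smul_mem _ (Polynomial.aeval_mem_adjoin_singleton _ _) _
  obtain ⟨B, hB⟩ : ∃ B : PowerBasis K L, B.gen = z :=
    ⟨PowerBasis.ofAdjoinEqTop' hzK htop, PowerBasis.ofAdjoinEqTop'_gen hzK htop⟩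
  have : Module.Finite K L := B.finite
  have hint : IsIntegral A (Algebra.discr K B.basis) :=
    Algebra.discr_isIntegral K fun i => by
      rw [B.coe_basis, hB]; exact hz.pow _
  obtain ⟨r, hr⟩ := IsIntegrallyClosed.isIntegral_iff.1 hint
  refine ⟨r, fun h0 => Algebra.discr_not_zero_of_basis K B.basis (by rw [← hr, h0, map_zero]),
    fun a ha => ?_⟩
  have h := Algebra.discr_mul_isIntegral_mem_adjoin K (B := B) (hB ▸ hz) ha
  rw [hB, Algebra.adjoin_singleton_eq_range_aeval] at h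
  obtain ⟨q, hq⟩ := h
  refine ⟨q, ?_⟩
  rw [IsScalarTower.algebraMap_apply A K L, hr, mul_comm, ← Algebra.smul_def]
  exact hq.symm

/-- the conductor element -/
theorem braw_cond {A L : Type} [CommRing A] [IsDomain A] [CharZero A] [IsIntegrallyClosed A]
    [Field L] [Algebra A L] [FaithfulSMul A L] {z : L} (hz : IsIntegral A z)
    (hgen : ∀ a : L, ∃ (q : Polynomial A) (b : A), b ≠ 0 ∧
      a * algebraMap A L b = Polynomial.aeval z q) :
    ∃ r : A, r ≠ 0 ∧ ∀ a : L, IsIntegral A a →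
      ∃ q : Polynomial A, a * algebraMap A L r = Polynomial.aeval z q := by
  let : Algebra (FractionRing A) L := FractionRing.liftAlgebra A L
  have : IsScalarTower A (FractionRing A) L := FractionRing.isScalarTower_liftAlgebra A L
  have : CharZero (FractionRing A) :=
    charZero_of_injective_algebraMap (IsFractionRing.injective A (FractionRing A))
  exact braw_cond' (K := FractionRing A) hz hgen

/-- the quotients `q(z) / b` fill the field generated -/
theorem braw_gen {A L : Type} [CommRing A] [IsDomain A] [Field L] [Algebra A L]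
    [FaithfulSMul A L] [Algebra ℂ A] [Algebra ℂ L] [IsScalarTower ℂ A L] {z : L}
    (hz : IsIntegral A z) (S : Set L) (hS : ∀ s ∈ S, ∃ b : A, algebraMap A L b = s)
    (hgen : IntermediateField.adjoin ℂ (insert z S) = ⊤) (a : L) :
    ∃ (q : Polynomial A) (b : A), b ≠ 0 ∧ a * algebraMap A L b = Polynomial.aeval z q := by
  have ha : a ∈ IntermediateField.adjoin ℂ (insert z S) := hgen ▸ IntermediateField.mem_top
  induction ha using IntermediateField.adjoin_induction with
  | mem x hx =>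
    rcases hx with rfl | hx
    · exact ⟨Polynomial.X, 1, one_ne_zero, by simp⟩
    · obtain ⟨b, rfl⟩ := hS x hx
      exact ⟨Polynomial.C b, 1, one_ne_zero, by simp⟩
  | algebraMap c =>
    refine ⟨Polynomial.C (algebraMap ℂ A c), 1, one_ne_zero, ?_⟩
    rw [map_one, mul_one, Polynomial.aeval_C, ← IsScalarTower.algebraMap_apply]
  | add x y _ _ hx hy =>
    obtain ⟨q, b, hb, h⟩ := hx
    obtain ⟨q', b', hb', h'⟩ := hy
    refine ⟨q * Polynomial.C b' + q' * Polynomial.C b, b * b', mul_ne_zero hb hb', ?_⟩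
    rw [map_add, map_mul, map_mul, map_mul, Polynomial.aeval_C, Polynomial.aeval_C, ← h, ← h']
    ring
  | inv x _ hx =>
    obtain ⟨q, b, hb, h⟩ := hx
    by_cases hx0 : x = 0
    · exact ⟨0, 1, one_ne_zero, by simp [hx0]⟩
    have hb' : algebraMap A L b ≠ 0 := fun h0 =>
      hb (FaithfulSMul.algebraMap_injective A L (by rw [h0, map_zero]))
    obtain ⟨q₁, r, hr, e⟩ := braw_inv hz q (h ▸ mul_ne_zero hx0 hb')
    refine ⟨q₁ * Polynomial.C b, r, hr, ?_⟩
    rw [map_mul, Polynomial.aeval_C, ← e, ← h]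
    field_simp
  | mul x y _ _ hx hy =>
    obtain ⟨q, b, hb, h⟩ := hx
    obtain ⟨q', b', hb', h'⟩ := hy
    refine ⟨q * q', b * b', mul_ne_zero hb hb', ?_⟩
    rw [map_mul, map_mul, ← h, ← h']
    ring

/-- integrality over the image of a ring map -/
theorem braw_int {A L : Type} [CommRing A] [Field L] [Algebra A L] [Algebra ℂ L]
    (B : Subalgebra ℂ L) (hB : ∀ x ∈ B, ∃ b : A, algebraMap A L b = x) {a : L}
    (ha : IsIntegral B a) : IsIntegral A a := by
  obtain ⟨p, hp, h⟩ := ha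
  have hl : p.map (algebraMap B L) ∈ Polynomial.lifts (algebraMap A L) := by
    rw [Polynomial.lifts_iff_coeff_lifts]
    intro n
    rw [Polynomial.coeff_map]
    exact hB _ (p.coeff n).2
  obtain ⟨q, hq, -, hm⟩ := Polynomial.lifts_and_degree_eq_and_monic hl (hp.map _)
  refine ⟨q, hm, ?_⟩
  rw [Polynomial.eval₂_eq_eval_map, hq, ← Polynomial.eval₂_eq_eval_map, h]

/-- The cover defined by an integral generator.  Let `A = MvPolynomial ι ℂ` act on `L` through
`aeval Y` (injective), `P = minpoly A z`, `minimal` is `minpoly.isIntegrallyClosed_dvd`.  `gen`: the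
elements `q(Y, z) / b(Y)` form an intermediate field (a nonzero `q(Y, z)` is algebraic over `A`, so
it divides a nonzero element of `A`: `IsAlgebraic.exists_nonzero_dvd`).  `P'(z) ≠ 0`
(separability, or `minimal` and degrees), so `q₁(z) * P'(z) = Δ₁(Y)` with `Δ₁ ≠ 0`, and
`C Δ₁ - q₁ * P'` is a multiple of `P`.  With `F0` the fraction field of `A`,
`Algebra.discr_mul_isIntegral_mem_adjoin` (power basis generated by `z`) gives the conductor
element `Δ₂` (the discriminant is integral over `A`, so it comes from `A`; it is nonzero by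
`Algebra.discr_not_zero_of_basis`).  Take `Δ = Δ₁ * Δ₂`. -/
theorem exists_cover_raw {ι L : Type} [Fintype ι] [Field L] [Algebra ℂ L] (Y : ι → L)
    (hY : AlgebraicIndependent ℂ Y) (z : L) (hz : IsIntegral (Algebra.adjoin ℂ (Set.range Y)) z)
    (hgen : IntermediateField.adjoin ℂ (insert z (Set.range Y)) = ⊤) :
    ∃ C : Cover ι L, C.y = Y ∧ C.z = z ∧ ∀ a : L, IsIntegral (Algebra.adjoin ℂ (Set.range Y)) a →
      ∃ q, a * aeval Y C.Δ = C.pv q := by
  let : Algebra (MvPolynomial ι ℂ) L :=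
    (aeval Y : MvPolynomial ι ℂ →ₐ[ℂ] L).toRingHom.toAlgebra
  have hmap : ∀ b, algebraMap (MvPolynomial ι ℂ) L b = aeval Y b := fun _ => rfl
  have : FaithfulSMul (MvPolynomial ι ℂ) L :=
    (faithfulSMul_iff_algebraMap_injective _ _).2 hY
  have : IsScalarTower ℂ (MvPolynomial ι ℂ) L :=
    IsScalarTower.of_algebraMap_eq fun c => by rw [hmap, AlgHom.commutes]
  have hB : ∀ x ∈ Algebra.adjoin ℂ (Set.range Y), ∃ b : MvPolynomial ι ℂ,
      algebraMap (MvPolynomial ι ℂ) L b = x := by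
    intro x hx
    rw [Algebra.adjoin_range_eq_range_aeval] at hx
    exact hx
  have hz' : IsIntegral (MvPolynomial ι ℂ) z := braw_int _ hB hz
  have hg := braw_gen hz' (Set.range Y) (fun s hs => hB s (Algebra.subset_adjoin hs)) hgen
  obtain ⟨r₁, hr₁, a₁, b₁, e₁⟩ := braw_bez hz'
  obtain ⟨r₂, hr₂, h₂⟩ := braw_cond hz' hg
  refine ⟨⟨Y, z, minpoly (MvPolynomial ι ℂ) z, r₁ * r₂, hY, minpoly.monic hz',
    minpoly.aeval (MvPolynomial ι ℂ) z, fun q hq => minpoly.isIntegrallyClosed_dvd hz' hq, hg,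
    mul_ne_zero hr₁ hr₂, a₁ * Polynomial.C r₂, b₁ * Polynomial.C r₂, ?_⟩, rfl, rfl, fun a ha => ?_⟩
  · rw [map_mul, e₁]; ring
  · obtain ⟨q, hq⟩ := h₂ a (braw_int _ hB ha)
    refine ⟨q * Polynomial.C r₁, ?_⟩
    change a * algebraMap (MvPolynomial ι ℂ) L (r₁ * r₂) = Polynomial.aeval z (q * Polynomial.C r₁)
    rw [map_mul, map_mul, Polynomial.aeval_C, ← hq]
    ring

end Pool.Agent.MP_c0606f_ag.Klt

end

-- part MP_c0606f_ag.Klt.BCone
section

/-! The cone as a cover with homogeneous data. -/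

namespace Pool.Agent.MP_c0606f_ag.Klt

open MvPolynomial

variable {K : Type} [Field K] [Algebra ℂ K] {ι : Type}

/-- the value `q(Y, z)` for homogeneous `Y, z` -/
noncomputable def pvh (r e : ℕ) (S : ι → K) (ζ : K) (q : Polynomial (MvPolynomial ι ℂ)) :
    RatFunc K :=
  q.eval₂ (aeval (fun i => hom r (S i)) : MvPolynomial ι ℂ →ₐ[ℂ] RatFunc K).toRingHom (hom e ζ)

/-- the component of degree `m` for the grading `deg Y = r`, `deg z = e` -/
noncomputable def comp (r e m : ℕ) (q : Polynomial (MvPolynomial ι ℂ)) :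
    Polynomial (MvPolynomial ι ℂ) :=
  ∑ j ∈ q.support, Polynomial.monomial j
    (if e * j ≤ m ∧ r ∣ m - e * j then homogeneousComponent ((m - e * j) / r) (q.coeff j) else 0)

theorem coeff_comp (r e m : ℕ) (q : Polynomial (MvPolynomial ι ℂ)) (j : ℕ) :
    (comp r e m q).coeff j =
      if e * j ≤ m ∧ r ∣ m - e * j then homogeneousComponent ((m - e * j) / r) (q.coeff j)
      else 0 := by
  unfold comp
  rw [Polynomial.finsetSum_coeff]
  simp only [Polynomial.coeff_monomial]
  rw [Finset.sum_ite_eq']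
  split_ifs with h1 h2 h2
  · rfl
  · rfl
  · rw [Polynomial.notMem_support_iff.1 h1, map_zero]
  · rfl

theorem bcone_aeval_mul {A : Type} [CommRing A] [Algebra ℂ A] (a : ι → A) (t : A) {d : ℕ}
    {p : MvPolynomial ι ℂ} (hp : p.IsHomogeneous d) :
    aeval (fun i => a i * t) p = aeval a p * t ^ d := by
  rw [aeval_def, aeval_def, eval₂_eq, eval₂_eq, Finset.sum_mul]
  refine Finset.sum_congr rfl fun α hα => ?_
  simp only [mul_pow, Finset.prod_mul_distrib, Finset.prod_pow_eq_pow_sum]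
  rw [← hp.degree_eq_sum_deg_support hα, mul_assoc]

theorem bcone_natDegree_comp (r e m : ℕ) (q : Polynomial (MvPolynomial ι ℂ)) :
    (comp r e m q).natDegree ≤ q.natDegree := by
  rw [Polynomial.natDegree_le_iff_coeff_eq_zero]
  intro j hj
  rw [coeff_comp, Polynomial.coeff_eq_zero_of_natDegree_lt hj]
  simp

theorem bcone_comp_C {r : ℕ} (hr : 0 < r) (e d : ℕ) (b : MvPolynomial ι ℂ) :
    comp r e (r * d) (Polynomial.C b) = Polynomial.C (homogeneousComponent d b) := by
  ext1 j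
  rw [coeff_comp, Polynomial.coeff_C, Polynomial.coeff_C]
  by_cases hj : j = 0
  · subst hj
    simp [Nat.mul_div_cancel_left _ hr]
  · simp [hj]

theorem bcone_exists_comp {b : MvPolynomial ι ℂ} (hb : b ≠ 0) :
    ∃ d, homogeneousComponent d b ≠ 0 := by
  by_contra h
  push Not at h
  refine hb ?_
  rw [← sum_homogeneousComponent b]
  exact Finset.sum_eq_zero fun d _ => h d

theorem aeval_hom {r d : ℕ} (S : ι → K) {p : MvPolynomial ι ℂ} (hp : p.IsHomogeneous d) :
    aeval (fun i => hom r (S i)) p = hom (r * d) (aeval S p) := by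
  have h1 : (fun i => hom r (S i)) = fun i => cA K (S i) * (RatFunc.X : RatFunc K) ^ r := rfl
  rw [h1, bcone_aeval_mul _ _ hp, hom_apply, ← pow_mul, ← cA_apply, comp_aeval_apply]

omit [Algebra ℂ K] in
theorem bcone_algebraMap' (m : ℕ) (a : K) :
    algebraMap (Polynomial K) (RatFunc K) (Polynomial.C a * Polynomial.X ^ m) =
      RatFunc.C a * RatFunc.X ^ m := by
  rw [map_mul, map_pow, RatFunc.algebraMap_C, RatFunc.algebraMap_X]

theorem bcone_algebraMap (m : ℕ) (a : K) :
    algebraMap (Polynomial K) (RatFunc K) (Polynomial.C a * Polynomial.X ^ m) = hom m a :=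
  bcone_algebraMap' m a

theorem bcone_coeff {r : ℕ} (hr : 0 < r) (S : ι → K) (p : MvPolynomial ι ℂ) (m : ℕ) :
    (aeval (fun i => Polynomial.C (S i) * Polynomial.X ^ r) p : Polynomial K).coeff m =
      if r ∣ m then aeval S (homogeneousComponent (m / r) p) else 0 := by
  have h1 : ∀ d, (aeval (fun i => Polynomial.C (S i) * Polynomial.X ^ r)
      (homogeneousComponent d p) : Polynomial K) =
      Polynomial.C (aeval S (homogeneousComponent d p)) * Polynomial.X ^ (r * d) := by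
    intro d
    rw [bcone_aeval_mul _ _ (homogeneousComponent_isHomogeneous d p), ← pow_mul]
    congr 1
    exact (comp_aeval_apply S (Polynomial.CAlgHom : K →ₐ[ℂ] Polynomial K) _).symm
  conv_lhs => rw [← sum_homogeneousComponent p]
  rw [map_sum, Polynomial.finsetSum_coeff]
  simp only [h1, Polynomial.coeff_C_mul_X_pow]
  split_ifs with h
  · obtain ⟨d, rfl⟩ := h
    rw [Nat.mul_div_cancel_left _ hr, Finset.sum_eq_single d]
    · simp
    · intro b _ hb
      rw [if_neg]
      intro h2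
      exact hb (Nat.eq_of_mul_eq_mul_left hr h2).symm
    · intro hd
      rw [Finset.mem_range, not_lt] at hd
      rw [homogeneousComponent_eq_zero _ _ (by omega)]
      simp
  · refine Finset.sum_eq_zero fun d _ => ?_
    rw [if_neg]
    rintro rfl
    exact h (Dvd.intro _ rfl)

theorem bcone_pv {r e : ℕ} {S : ι → K} {ζ : K} (C : Cover ι (RatFunc K))
    (hy : C.y = fun i => hom r (S i)) (hz : C.z = hom e ζ) (q : Polynomial (MvPolynomial ι ℂ)) :
    C.pv q = pvh r e S ζ q := by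
  unfold Cover.pv pvh
  rw [hy, hz]

/-- `pvh q` is the image of a polynomial `Q` over `K` whose coefficients give the components: put
`Q = q.eval₂ (aeval fun i => C (S i) * X ^ r) (C ζ * X ^ e)`; both sides are additive in `q`, check
the claim for `monomial j p` with `p` homogeneous (`sum_homogeneousComponent`). -/
theorem exists_poly {r : ℕ} (hr : 0 < r) (e : ℕ) (S : ι → K) (ζ : K)
    (q : Polynomial (MvPolynomial ι ℂ)) :
    ∃ Q : Polynomial K, pvh r e S ζ q = algebraMap _ (RatFunc K) Q ∧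
      ∀ m, pvh r e S ζ (comp r e m q) = hom m (Q.coeff m) := by
  refine ⟨q.eval₂ (aeval (fun i => Polynomial.C (S i) * Polynomial.X ^ r) :
      MvPolynomial ι ℂ →ₐ[ℂ] Polynomial K).toRingHom (Polynomial.C ζ * Polynomial.X ^ e), ?_, ?_⟩
  · rw [Polynomial.hom_eval₂, bcone_algebraMap]
    unfold pvh
    congr 1
    refine MvPolynomial.ringHom_ext (fun c => ?_) (fun i => ?_)
    · simp only [AlgHom.toRingHom_eq_coe, RingHom.coe_coe, aeval_C, RingHom.coe_comp,
        Function.comp_apply]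
      rw [← IsScalarTower.algebraMap_apply]
    · simp only [AlgHom.toRingHom_eq_coe, RingHom.coe_coe, aeval_X, RingHom.coe_comp,
        Function.comp_apply]
      rw [bcone_algebraMap]
  · intro m
    unfold pvh comp
    rw [Polynomial.eval₂_finsetSum, Polynomial.eval₂_eq_sum, Polynomial.sum_def,
      Polynomial.finsetSum_coeff, map_sum]
    refine Finset.sum_congr rfl fun j _ => ?_
    rw [Polynomial.eval₂_monomial, mul_pow, ← Polynomial.C_pow, ← pow_mul, ← mul_assoc,
      Polynomial.coeff_mul_X_pow', Polynomial.coeff_mul_C]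
    simp only [AlgHom.toRingHom_eq_coe, RingHom.coe_coe]
    rw [bcone_coeff hr]
    by_cases h1 : e * j ≤ m
    · by_cases h2 : r ∣ m - e * j
      · rw [if_pos ⟨h1, h2⟩, if_pos h1, if_pos h2,
          aeval_hom S (homogeneousComponent_isHomogeneous _ _), hom_pow, hom_mul,
          Nat.mul_div_cancel' h2, mul_comm j e, Nat.sub_add_cancel h1]
      · rw [if_neg fun h => h2 h.2, if_pos h1, if_neg h2]
        simp
    · rw [if_neg fun h => h1 h.1, if_neg h1]
      simp

theorem comp_mul {r : ℕ} (hr : 0 < r) (e : ℕ) (S : ι → K) (ζ : K) (m₀ : ℕ) (a : K)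
    (q q' : Polynomial (MvPolynomial ι ℂ)) (h : hom m₀ a * pvh r e S ζ q = pvh r e S ζ q')
    (m : ℕ) : hom m₀ a * pvh r e S ζ (comp r e m q) = pvh r e S ζ (comp r e (m₀ + m) q') := by
  obtain ⟨Q, hQ, hQ'⟩ := exists_poly hr e S ζ q
  obtain ⟨R, hR, hR'⟩ := exists_poly hr e S ζ q'
  rw [hQ, hR, ← bcone_algebraMap, ← map_mul] at h
  have h1 := IsFractionRing.injective (Polynomial K) (RatFunc K) h
  rw [hQ', hR', ← h1, hom_mul, mul_assoc, Polynomial.coeff_C_mul, add_comm m₀ m,
    Polynomial.coeff_X_pow_mul]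

/-- Every nonzero homogeneous element divides a nonzero homogeneous polynomial in `Y`: `gen` for
`(hom m a)⁻¹` gives `hom m a * pv q = pv (C b)`; some component of `C b` is nonzero; it has degree
`≥ m` by `exists_poly`; use `comp_mul`. -/
theorem exists_hom_dvd [Fintype ι] {r : ℕ} (hr : 0 < r) {e : ℕ} {S : ι → K} {ζ : K}
    (C : Cover ι (RatFunc K)) (hy : C.y = fun i => hom r (S i)) (hz : C.z = hom e ζ) (m : ℕ)
    {a : K} (ha : a ≠ 0) :
    ∃ (b : MvPolynomial ι ℂ) (d : ℕ) (q : Polynomial (MvPolynomial ι ℂ)), b ≠ 0 ∧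
      b.IsHomogeneous d ∧ hom m a * C.pv q = aeval C.y b := by
  obtain ⟨q, b, hb, h⟩ := C.gen (hom m a)⁻¹
  have h1 : hom m a * pvh r e S ζ q = pvh r e S ζ (Polynomial.C b) := by
    rw [← bcone_pv C hy hz, ← bcone_pv C hy hz, C.pv_C]
    change hom m a * q.eval₂ _ _ = _
    rw [← h, ← mul_assoc, mul_inv_cancel₀ (hom_ne m ha), one_mul]
  obtain ⟨d, hd⟩ := bcone_exists_comp hb
  have h2 : pvh r e S ζ (comp r e (r * d) (Polynomial.C b)) =
      aeval C.y (homogeneousComponent d b) := by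
    rw [bcone_comp_C hr, ← bcone_pv C hy hz, C.pv_C]
  have h3 : m ≤ r * d := by
    obtain ⟨Q, hQ, -⟩ := exists_poly hr e S ζ q
    obtain ⟨R, hR, hR'⟩ := exists_poly hr e S ζ (Polynomial.C b)
    rw [hQ, hR, ← bcone_algebraMap, ← map_mul] at h1
    have h4 := IsFractionRing.injective (Polynomial K) (RatFunc K) h1
    by_contra h5
    refine C.aeval_ne hd ?_
    rw [← h2, hR', ← h4, mul_assoc, Polynomial.coeff_C_mul, Polynomial.coeff_X_pow_mul',
      if_neg h5, mul_zero, map_zero]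
  refine ⟨homogeneousComponent d b, d, comp r e (r * d - m) q, hd,
    homogeneousComponent_isHomogeneous _ _, ?_⟩
  rw [bcone_pv C hy hz, comp_mul hr e S ζ m a q _ h1, Nat.add_sub_cancel' h3, h2]

/-- `comp (e * d) P` (`d = natDegree P`) is monic of degree `d` and kills `z`, so it equals `P`;
then `derivative P = comp (e * (d - 1)) (derivative P)` by `coeff_comp`. -/
theorem exists_deriv_hom [Fintype ι] {r : ℕ} (hr : 0 < r) {e : ℕ} {S : ι → K} {ζ : K}
    (C : Cover ι (RatFunc K)) (hy : C.y = fun i => hom r (S i)) (hz : C.z = hom e ζ) :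
    ∃ (m : ℕ) (a : K), C.pv (Polynomial.derivative C.P) = hom m a := by
  obtain ⟨d, hd⟩ : ∃ d, C.P.natDegree = d + 1 := Nat.exists_eq_add_one.2 C.natDegree_pos
  have hlead : C.P.coeff (d + 1) = 1 := by rw [← hd]; exact C.monic.coeff_natDegree
  have h1 : (comp r e (e * (d + 1)) C.P).coeff (d + 1) = 1 := by
    rw [coeff_comp, if_pos ⟨le_rfl, by simp⟩, hlead]
    simp
  have h2 : (comp r e (e * (d + 1)) C.P).natDegree ≤ d + 1 := hd ▸ bcone_natDegree_comp _ _ _ _
  have h3 : (comp r e (e * (d + 1)) C.P).Monic :=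
    Polynomial.monic_of_natDegree_le_of_coeff_eq_one _ h2 h1
  have h4 : C.pv (comp r e (e * (d + 1)) C.P) = 0 := by
    obtain ⟨Q, hQ, hQ'⟩ := exists_poly hr e S ζ C.P
    rw [← bcone_pv C hy hz, C.evPv_P] at hQ
    have : Q = 0 := IsFractionRing.injective (Polynomial K) (RatFunc K) (by rw [← hQ, map_zero])
    rw [bcone_pv C hy hz, hQ', this]
    simp
  have h5 : comp r e (e * (d + 1)) C.P = C.P :=
    Polynomial.eq_of_monic_of_dvd_of_natDegree_le C.monic h3 (C.minimal _ h4) (hd ▸ h2)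
  have h6 : comp r e (e * d) (Polynomial.derivative C.P) = Polynomial.derivative C.P := by
    ext1 j
    have h7 := coeff_comp r e (e * (d + 1)) C.P (j + 1)
    rw [h5] at h7
    have h8 : e * (d + 1) - e * (j + 1) = e * d - e * j := by
      rw [mul_add, mul_add, mul_one, Nat.add_sub_add_right]
    have h9 : e * (j + 1) ≤ e * (d + 1) ↔ e * j ≤ e * d := by
      rw [mul_add, mul_add, mul_one, Nat.add_le_add_iff_right]
    rw [h8] at h7
    simp only [h9] at h7
    have h10 : ∀ p : MvPolynomial ι ℂ, p * ((j : MvPolynomial ι ℂ) + 1) = (j + 1) • p := by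
      intro p
      rw [nsmul_eq_mul, mul_comm]
      push_cast
      rfl
    rw [coeff_comp, Polynomial.coeff_derivative, h10, map_nsmul]
    split_ifs with h11
    · rw [if_pos h11] at h7
      rw [← h7]
    · rw [if_neg h11] at h7
      rw [h7, smul_zero]
  obtain ⟨Q, -, hQ'⟩ := exists_poly hr e S ζ (Polynomial.derivative C.P)
  exact ⟨e * d, Q.coeff (e * d), by rw [← hQ', h6, bcone_pv C hy hz]⟩

variable {n k r : ℕ} {y : Fin n → K} {s : Fin (k + 1) → K}

/-- Start from `exists_z`, `exists_cover_raw`.  Let `δ0` be a nonzero homogeneous component, of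
degree `d0`, of the raw `Δ`.  For integral `hom m a`, `hom m a * pv (C Δ) = pv q`; replace `q` by
`q %ₘ P` (degree `< natDegree P`) and apply `comp_mul` with the degree `r * d0`; so
`D m j = (m + r * d0 - e * j) / r ≤ m + d0`.  The new `Δ` is the product of `δ0` and the
polynomials of `exists_hom_dvd` for `P'(z)` (`exists_deriv_hom`, nonzero by `θ_ne`) and for
`hom e0 W`; `bez` follows from `minimal`. -/
theorem NN.exists_cover (N : NN n s) (hX : IsKltFano r y s) {W : K} (hW : W ≠ 0) (e0 : ℕ) :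
    ∃ (C : Cover (Option (Fin n)) (RatFunc K)) (δ0 : MvPolynomial (Option (Fin n)) ℂ) (c0 : ℕ)
      (D : ℕ → ℕ → ℕ), C.y = N.Y r ∧ δ0 ∣ C.Δ ∧ (hom e0 W)⁻¹ ∈ C.A ∧
      (∃ e ζ, C.z = hom e ζ) ∧ (∃ e κ, aeval C.y C.Δ = hom e κ) ∧ (∀ m j, D m j ≤ m + c0) ∧
      ∀ m a, IsIntegral (Algebra.adjoin ℂ (Set.range C.y)) (hom m a) →
        ∃ p : ℕ → MvPolynomial (Option (Fin n)) ℂ, (∀ j, (p j).IsHomogeneous (D m j)) ∧
          hom m a * aeval C.y δ0 =
            ∑ j ∈ Finset.range C.P.natDegree, aeval C.y (p j) * C.z ^ j := by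
  have hr := hX.pos
  obtain ⟨e, ζ, hint, hgen⟩ := N.exists_z hX
  obtain ⟨C, hy, hz, hraw⟩ := exists_cover_raw (N.Y r) (N.Y_basis hr).1 _ hint hgen
  have hy' : C.y = fun i => hom r (N.S i) := hy
  obtain ⟨d0, hd0⟩ := bcone_exists_comp C.Δ_ne
  obtain ⟨m1, a1, h1⟩ := exists_deriv_hom hr C hy' hz
  have ha1 : a1 ≠ 0 := by
    rintro rfl
    refine C.θ_ne ?_
    unfold Cover.θ
    rw [h1, map_zero, mul_zero]
  obtain ⟨b1, d1, q1, hb1, hb1', hq1⟩ := exists_hom_dvd hr C hy' hz m1 ha1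
  obtain ⟨b2, d2, q2, hb2, hb2', hq2⟩ := exists_hom_dvd hr C hy' hz e0 hW
  set δ0 := homogeneousComponent d0 C.Δ with hδ0
  have hbez : ∃ a b : Polynomial (MvPolynomial (Option (Fin n)) ℂ),
      Polynomial.C (δ0 * b1 * b2) = a * C.P + b * Polynomial.derivative C.P := by
    have h2 : C.pv (Polynomial.C (δ0 * b1 * b2) -
        Polynomial.C δ0 * Polynomial.C b2 * q1 * Polynomial.derivative C.P) = 0 := by
      rw [C.evPv_sub, C.pv_mul, C.pv_mul, C.pv_mul, C.pv_C, C.pv_C, C.pv_C, map_mul, map_mul, h1,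
        ← hq1]
      ring
    obtain ⟨a, ha⟩ := C.minimal _ h2
    exact ⟨a, Polynomial.C δ0 * Polynomial.C b2 * q1, by rw [mul_comm a, ← ha]; ring⟩
  let C' : Cover (Option (Fin n)) (RatFunc K) :=
    { C with
      Δ := δ0 * b1 * b2
      Δ_ne := mul_ne_zero (mul_ne_zero hd0 hb1) hb2
      bez := hbez }
  refine ⟨C', δ0, d0, fun m j => (m + r * d0 - e * j) / r, hy,
    Dvd.intro (b1 * b2) (mul_assoc _ _ _).symm, ?_, ⟨e, ζ, hz⟩, ?_, ?_, ?_⟩
  · refine C'.mem_A.2 ⟨Polynomial.C δ0 * Polynomial.C b1 * q2, 1, ?_⟩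
    change (hom e0 W)⁻¹ * aeval C.y (δ0 * b1 * b2) ^ 1 =
      C.pv (Polynomial.C δ0 * Polynomial.C b1 * q2)
    have := hom_ne e0 hW
    rw [C.pv_mul, C.pv_mul, C.pv_C, C.pv_C, pow_one, map_mul, map_mul, ← hq2]
    field_simp
  · refine ⟨r * (d0 + d1 + d2), aeval N.S (δ0 * b1 * b2), ?_⟩
    change aeval C.y (δ0 * b1 * b2) = _
    rw [hy']
    exact aeval_hom _ (((homogeneousComponent_isHomogeneous _ _).mul hb1').mul hb2')
  · intro m j
    refine Nat.div_le_of_le_mul ?_
    have : m ≤ r * m := Nat.le_mul_of_pos_left m hr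
    rw [mul_add]
    omega
  · intro m a ha
    change IsIntegral (Algebra.adjoin ℂ (Set.range C.y)) (hom m a) at ha
    rw [hy] at ha
    obtain ⟨q, hq⟩ := hraw _ ha
    have h2 : hom m a * pvh r e N.S ζ (Polynomial.C C.Δ) = pvh r e N.S ζ (q %ₘ C.P) := by
      rw [← bcone_pv C hy' hz, ← bcone_pv C hy' hz, C.pv_C, hy, hq]
      exact (Polynomial.eval₂_modByMonic_eq_self_of_root C.root).symm
    have h3 := comp_mul hr e N.S ζ m a _ _ h2 (r * d0)
    rw [bcone_comp_C hr, ← bcone_pv C hy' hz, ← bcone_pv C hy' hz, C.pv_C] at h3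
    refine ⟨fun j => (comp r e (m + r * d0) (q %ₘ C.P)).coeff j, fun j => ?_, ?_⟩
    · simp only [coeff_comp]
      split_ifs
      · exact homogeneousComponent_isHomogeneous _ _
      · exact isHomogeneous_zero _ _ _
    · change hom m a * aeval C.y δ0 = ∑ j ∈ Finset.range C.P.natDegree,
        aeval C.y ((comp r e (m + r * d0) (q %ₘ C.P)).coeff j) * C.z ^ j
      rw [h3]
      have h4 : C.P ≠ 1 := by
        intro h
        have := C.natDegree_pos
        rw [h] at this
        simp at this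
      exact Polynomial.eval₂_eq_sum_range' _ ((bcone_natDegree_comp _ _ _ _).trans_lt
        (Polynomial.natDegree_modByMonic_lt q C.monic h4)) _

/-- The space of homogeneous polynomials of degree `D` in `n + 1` variables is spanned by at most
`(D + 1) ^ n` monomials (an exponent is determined by its restriction to `some i`).  `V * δ` lies in
the span of the `Y ^ α * z ^ j`. -/
theorem finrank_le_of_rep {L : Type} [Field L] [Algebra ℂ L] (Y : Option (Fin n) → L) (z δ : L)
    (hδ : δ ≠ 0) (d B : ℕ) (D : ℕ → ℕ) (hD : ∀ j, D j ≤ B) (V : Submodule ℂ L)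
    (h : ∀ a ∈ V, ∃ p : ℕ → MvPolynomial (Option (Fin n)) ℂ, (∀ j, (p j).IsHomogeneous (D j)) ∧
      a * δ = ∑ j ∈ Finset.range d, aeval Y (p j) * z ^ j) :
    Module.Finite ℂ V ∧ Module.finrank ℂ V ≤ d * (B + 1) ^ n := by
  classical
  let w : Fin d × (Fin n → Fin (B + 1)) → L := fun x =>
    (Y none ^ (D x.1 - ∑ i, (x.2 i : ℕ)) * ∏ i, Y (some i) ^ (x.2 i : ℕ)) * z ^ (x.1 : ℕ)
  let W : Submodule ℂ L := Submodule.span ℂ (Set.range w)
  have hW : ∀ a ∈ V, a * δ ∈ W := by
    intro a ha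
    obtain ⟨p, hp, h1⟩ := h a ha
    rw [h1]
    refine W.sum_mem fun j hj => ?_
    rw [Finset.mem_range] at hj
    rw [aeval_def, eval₂_eq', Finset.sum_mul]
    refine W.sum_mem fun α hα => ?_
    have h2 : ∑ o, α o = D j := by
      rw [← Finsupp.degree_eq_sum]
      by_contra h3
      exact (mem_support_iff.1 hα) ((hp j).coeff_eq_zero h3)
    rw [Fintype.sum_option] at h2
    have h3 : ∀ i, α (some i) < B + 1 := by
      intro i
      have h4 : α (some i) ≤ ∑ i, α (some i) :=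
        Finset.single_le_sum (f := fun i => α (some i)) (fun _ _ => Nat.zero_le _)
          (Finset.mem_univ i)
      have := hD j
      omega
    rw [mul_assoc, ← Algebra.smul_def]
    refine W.smul_mem _ (Submodule.subset_span ⟨(⟨j, hj⟩, fun i => ⟨α (some i), h3 i⟩), ?_⟩)
    have h4 : D j - ∑ i, α (some i) = α none := by omega
    simp only [w, h4, Fintype.prod_option]
  let f : V →ₗ[ℂ] W := ((LinearMap.mulRight ℂ δ).comp V.subtype).codRestrict W fun a => hW a a.2
  have hf : Function.Injective f := by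
    intro a b hab
    have h1 : (a : L) * δ = b * δ := congrArg Subtype.val hab
    exact Subtype.ext (mul_right_cancel₀ hδ h1)
  have : Module.Finite ℂ W := Module.Finite.span_of_finite ℂ (Set.finite_range w)
  refine ⟨Module.Finite.of_injective f hf, (LinearMap.finrank_le_finrank_of_injective hf).trans ?_⟩
  refine (finrank_range_le_card w).trans ?_
  simp

end Pool.Agent.MP_c0606f_ag.Klt

end

-- part MP_c0606f_ag.Klt.BJac
section

/-! Jacobians and volumes. -/

namespace Pool.Agent.MP_c0606f_ag.Klt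

open scoped NNReal WithZero
open MvPolynomial

section General

variable {L : Type} [Field L] [Algebra ℂ L] {ι : Type} [Fintype ι] [DecidableEq ι]

/-- `dY = h dy` along every embedding -/
def IsJac (Y y : ι → L) (h : L) : Prop :=
  ∃ J : Matrix ι ι L, J.det = h ∧ ∀ (R : Type) [Field R] [Algebra ℂ R] (x : L →ₐ[ℂ] R)
    (D : Derivation ℂ R R) (i : ι), D (x (Y i)) = ∑ l, D (x (y l)) * x (J l i)

omit [Fintype ι] in
/-- `exists_der` -/
theorem exists_dual_der {y : ι → L} (hy : IsTranscendenceBasis ℂ y) :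
    ∃ E : ι → Derivation ℂ L L, ∀ l l', E l (y l') = if l = l' then 1 else 0 := by
  choose E hE using fun l => exists_der hy fun l' => if l = l' then (1 : L) else 0
  exact ⟨E, hE⟩

/-- `der_comp_eq` with `G = range y` -/
theorem jac_id {y : ι → L} (hy : IsTranscendenceBasis ℂ y) (E : ι → Derivation ℂ L L)
    (hE : ∀ l l', E l (y l') = if l = l' then 1 else 0) {R : Type} [Field R] [Algebra ℂ R]
    (x : L →ₐ[ℂ] R) (D : Derivation ℂ R R) (a : L) : D (x a) = ∑ l, D (x (y l)) * x (E l a) := by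
  refine der_comp_eq x D E (fun l => D (x (y l))) (Set.range y) ?_ (hy.isAlgebraic.isAlgebraic a)
  rintro _ ⟨l', rfl⟩
  simp [hE, apply_ite x]

theorem isJac_of_dual {y : ι → L} (hy : IsTranscendenceBasis ℂ y) (E : ι → Derivation ℂ L L)
    (hE : ∀ l l', E l (y l') = if l = l' then 1 else 0) (Y : ι → L) :
    IsJac Y y (Matrix.of fun l i => E l (Y i)).det := by
  exact ⟨_, rfl, fun R _ _ x D i => jac_id hy E hE x D (Y i)⟩

/-- apply the identity to the derivations dual to `Y` -/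
theorem IsJac.ne_zero {Y y : ι → L} {h : L} (hJ : IsJac Y y h) (hY : IsTranscendenceBasis ℂ Y) :
    h ≠ 0 := by
  obtain ⟨J, rfl, hJ⟩ := hJ
  obtain ⟨E, hE⟩ := exists_dual_der hY
  have h1 : (Matrix.of fun k l => E k (y l)) * J = 1 := by
    ext k i
    rw [Matrix.mul_apply, Matrix.one_apply, ← hE k i]
    exact (hJ L (AlgHom.id ℂ L) (E k) i).symm
  have h2 := congrArg Matrix.det h1
  rw [Matrix.det_mul, Matrix.det_one] at h2
  exact right_ne_zero_of_mul_eq_one h2

variable {R : Type} [Field R] [Algebra ℂ R] {Y y : ι → L} {h : L}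

/-- `evol_jac`, `RingHom.map_det` -/
theorem IsJac.avol_one (hJ : IsJac Y y h) (x : L →ₐ[ℂ] R) (v : Val R) :
    avol v (fun i => x (Y i)) = avol v (fun i => x (y i)) * v (x h) := by
  obtain ⟨J, rfl, hJ⟩ := hJ
  rw [AlgHom.map_det]
  exact evol_jac v ∅ _ _ _ fun D i => hJ R x D i

/-- `evol_jac` with a block diagonal matrix (`Matrix.det_blockDiagonal`, `Equiv.prodComm`) -/
theorem IsJac.avol_prod (hJ : IsJac Y y h) {Z : Type} [Fintype Z] [DecidableEq Z]
    (x : Z → L →ₐ[ℂ] R) (v : Val R) :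
    avol v (fun p : Z × ι => x p.1 (Y p.2)) =
      avol v (fun p : Z × ι => x p.1 (y p.2)) * ∏ j, v (x j h) := by
  obtain ⟨J, rfl, hJ⟩ := hJ
  have h1 := evol_jac v ∅ (fun p : Z × ι => x p.1 (y p.2)) (fun p : Z × ι => x p.1 (Y p.2))
    ((Matrix.blockDiagonal fun j => (x j).mapMatrix J).submatrix (Equiv.prodComm Z ι)
      (Equiv.prodComm Z ι)) fun D p => by
      rw [hJ R (x p.1) D p.2, Fintype.sum_prod_type, Finset.sum_eq_single p.1]
      · simp [Matrix.blockDiagonal_apply]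
      · intro j _ hj
        simp [Matrix.blockDiagonal_apply, hj]
      · simp
  rw [Matrix.det_submatrix_equiv_self, Matrix.det_blockDiagonal, map_prod] at h1
  simp only [AlgHom.map_det]
  exact h1

/-- `lvol_biUnion_le`, `lvol_map` -/
theorem avol_prod_le (v : Val R) {Z : Type} [Fintype Z] [DecidableEq Z] (a : Z × ι → R) :
    avol v a ≤ ∏ j, avol v fun i => a (j, i) := by
  have h1 := lvol_biUnion_le (isLat_LD v ∅) (bdd_LD v ∅ a)
    (fun j : Z => Finset.univ.map (Function.Embedding.sectR j ι))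
    (fun j j' hj => by
      rw [Finset.disjoint_left]
      intro p h1 h2
      obtain ⟨i, -, rfl⟩ := Finset.mem_map.1 h1
      obtain ⟨i', -, h3⟩ := Finset.mem_map.1 h2
      exact hj (congrArg Prod.fst h3).symm) Finset.univ
  have h2 : (Finset.univ.biUnion fun j : Z => Finset.univ.map (Function.Embedding.sectR j ι)) =
      Finset.univ := by
    rw [Finset.eq_univ_iff_forall]
    intro p
    exact Finset.mem_biUnion.2 ⟨p.1, Finset.mem_univ _,
      Finset.mem_map.2 ⟨p.2, Finset.mem_univ _, rfl⟩⟩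
  rw [h2] at h1
  simp only [lvol_map] at h1
  exact h1

/-- `avol_eq` with the dual derivations: the matrix is diagonal -/
theorem le_avol_frame {v : Val R} {t : R} {u : ι → R} (hf : IsFrame v t u) :
    v t ≤ avol v fun o : Option ι => o.elim t u := by
  obtain ⟨D0, D, hd, -⟩ := hf.exists_dual
  rw [avol_eq hf hd _ (Equiv.refl _)]
  have e : (Matrix.of fun i j : Option ι =>
      ((Equiv.refl (Option ι) i).elim D0 D : Derivation ℂ R R) (j.elim t u)) =
      Matrix.diagonal fun o : Option ι => o.elim t fun _ => 1 := by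
    ext i j
    rcases i with _ | i <;> rcases j with _ | j <;>
      simp [Matrix.diagonal_apply, hd.tt, hd.tu, hd.ut, hd.uu]
  rw [e, Matrix.det_diagonal, Fintype.prod_option]
  simp

/-- Fresh variables.  Take the derivations `D0, D` of `R` dual to the frame and `E0, E` of `F` dual
to `(t, u)`.  By `der_comp_eq`, `D0 (j a) = j (E0 a)`, `D (inl i) (j a) = j (E i a)` and
`D (inr a)` kills the range of `j`, hence the `β` (`der_kill_alg`).  So the matrix of the family of
derivations indexed by `ι ⊕ Z` is block triangular (`Matrix.det_fromBlocks_zero₂₁`); use `avol_eq`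
for `F` (`IsFrame.card_eq` is not needed: `e` is given) and `le_lvol_univ`, `bdd_LD`. -/
theorem le_avol_ext {F : Type} [Field F] [Algebra ℂ F] (j : F →ₐ[ℂ] R) (v : Val R)
    {κ Z : Type} [Fintype κ] [Fintype Z] [DecidableEq Z] {t : F} {u : κ → F} {ξ : Z → R}
    (hf : IsFrame v (j t) (Sum.elim (fun i => j (u i)) ξ))
    (hf0 : IsFrame (v.comap j.toRingHom) t u) (a : ι → F)
    (hc : Fintype.card ι = Fintype.card κ + 1) (β : Z → R)
    (hβ : ∀ b, IsAlgebraic j.range (β b)) :
    avol (v.comap j.toRingHom) a * ∏ b, v (β b) ≤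
      avol v (Sum.elim (fun i => j (a i)) fun b => ξ b * β b) := by
  classical
  obtain ⟨D0, D, hd, h0, h1, -⟩ := hf.exists_dual
  obtain ⟨E0, E, he, -⟩ := hf0.exists_dual
  have e : ι ≃ Option κ := Fintype.equivOfCardEq (by rw [hc, Fintype.card_option])
  have ht : j t ≠ 0 := (Valuation.pos_iff v).1 hf.pos
  have hu0 : ∀ i, D0 (j (u i)) = 0 := fun i => hd.tu (Sum.inl i)
  have hu1 : ∀ k i, D (Sum.inl k) (j (u i)) = if k = i then 1 else 0 := fun k i => by
    simpa using hd.uu (Sum.inl k) (Sum.inl i)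
  have hu2 : ∀ b i, D (Sum.inr b) (j (u i)) = 0 := fun b i => by
    simpa using hd.uu (Sum.inr b) (Sum.inl i)
  have hu3 : ∀ b b', D (Sum.inr b) (ξ b') = if b = b' then 1 else 0 := fun b b' => by
    simpa using hd.uu (Sum.inr b) (Sum.inr b')
  have k1 : ∀ (o : Option κ) (z : F), (o.elim D0 fun k => D (Sum.inl k) : Derivation ℂ R R) (j z) =
      j ((o.elim E0 E : Derivation ℂ F F) z) := by
    intro o z
    rw [lat_decomp j hf0 he, Fintype.sum_option]
    rcases o with _ | k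
    · simp [hd.tt, hu0, ht]
    · simp [hd.ut, hu1]
  have k2 : ∀ (b : Z) (z : F), D (Sum.inr b) (j z) = 0 := by
    intro b z
    rw [lat_decomp j hf0 he, Fintype.sum_option]
    simp [hd.ut, hu2]
  have k3 : ∀ b b', D (Sum.inr b) (β b') = 0 := fun b b' =>
    der_kill_alg _ (j.range : Set R) (by rintro _ ⟨z, rfl⟩; exact k2 b z)
      (by rw [Algebra.adjoin_eq]; exact hβ b')
  have hm : ∀ k, D k ∈ LD v ∅ := fun k => LD_mono v (Set.empty_subset _) (h1 k)
  have h2 := lat_le_evol v ∅ (Sum.elim (fun i => j (a i)) fun b => ξ b * β b)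
    (Sum.elim (fun i => (e i).elim D0 fun k => D (Sum.inl k)) fun b => D (Sum.inr b)) (by
      rintro (i | b)
      · rw [Sum.elim_inl]
        rcases e i with _ | k
        · exact h0
        · exact hm _
      · exact hm _)
  refine le_of_eq_of_le ?_ h2
  have e1 : (Matrix.of fun p q : ι ⊕ Z =>
      (Sum.elim (fun i => (e i).elim D0 fun k => D (Sum.inl k)) (fun b => D (Sum.inr b)) p :
        Derivation ℂ R R) (Sum.elim (fun i => j (a i)) (fun b => ξ b * β b) q)) =
      Matrix.fromBlocks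
        (j.mapMatrix (Matrix.of fun i i' => ((e i).elim E0 E : Derivation ℂ F F) (a i')))
        (Matrix.of fun i b => ((e i).elim D0 fun k => D (Sum.inl k) : Derivation ℂ R R) (ξ b * β b))
        0 (Matrix.diagonal β) := by
    ext p q
    rcases p with i | b <;> rcases q with i' | b'
    · exact k1 (e i) (a i')
    · rfl
    · exact k2 b (a i')
    · rw [Matrix.of_apply, Sum.elim_inr, Sum.elim_inr, Derivation.leibniz, k3, hu3,
        Matrix.fromBlocks_apply₂₂, Matrix.diagonal_apply]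
      split_ifs with h
      · simp [h]
      · simp
  rw [e1, Matrix.det_fromBlocks_zero₂₁, Matrix.det_diagonal, map_mul, map_prod, ← AlgHom.map_det,
    avol_eq hf0 he a e]
  rfl

/-- the case of a Gauss extension (`IsGauss.frame`, `le_avol_ext` with `Z = Unit`,
`IsFrame.reindex`, `evol_reindex`) -/
theorem IsGauss.le_avol {F : Type} [Field F] [Algebra ℂ F] {v0 : Val F} {c : ℝ≥0}
    {v : Val (RatFunc F)} (hv : IsGauss v0 c v) {κ : Type} [Fintype κ] {t : F} {u : κ → F}
    (hf : IsFrame v0 t u) {β : F} (h0 : β ≠ 0) (hβ : v0 β = c) (a : ι → F)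
    (hc : Fintype.card ι = Fintype.card κ + 1) :
    avol v0 a * c ≤ avol v fun o : Option ι => o.elim RatFunc.X fun i => RatFunc.C (a i) := by
  have hc0 : v.comap (gaussC F).toRingHom = v0 := by
    ext1 z
    exact hv.C z
  have h1 : IsFrame v (gaussC F t)
      (Sum.elim (fun i => gaussC F (u i)) fun _ : Unit => RatFunc.X / RatFunc.C β) := by
    have := (hv.frame hf h0 hβ).reindex (Equiv.optionEquivSumPUnit.{0} κ).symm
    convert this using 1
    · rfl
    · funext p
      rcases p with i | b <;> rfl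
  have h2 := le_avol_ext (gaussC F) v h1 (hc0.symm ▸ hf) a hc (fun _ => RatFunc.C β)
    fun _ => isAlgebraic_algebraMap (⟨RatFunc.C β, β, rfl⟩ : (gaussC F).range)
  rw [hc0, Fintype.prod_unique, hv.C, hβ] at h2
  refine h2.trans_eq ?_
  have h3 := evol_reindex v ∅ (fun o : Option ι => o.elim RatFunc.X fun i => RatFunc.C (a i))
    (Equiv.optionEquivSumPUnit.{0} ι).symm
  refine Eq.trans ?_ h3
  congr 1
  funext p
  rcases p with i | b
  · rfl
  · exact div_mul_cancel₀ _ ((map_ne_zero RatFunc.C).2 h0)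

end General

end Pool.Agent.MP_c0606f_ag.Klt

end

-- part MP_c0606f_ag.Klt.BInt
section

/-! Sections are integral over the homogeneous coordinate ring of the projection. -/

namespace Pool.Agent.MP_c0606f_ag.Klt

open scoped NNReal WithZero
open MvPolynomial

variable {K : Type} [Field K] [Algebra ℂ K] {n k r : ℕ} {y : Fin n → K} {s : Fin (k + 1) → K}

theorem mem_H0 {m : ℕ} {g : K} :
    g ∈ H0 y s m ↔ ∀ v, OnX n s v → v g ≤ WithZero.exp (-(m * ordForm v y)) := Iff.rfl

theorem IsDiv.triv {F : Type} [Field F] [Algebra ℂ F] {d : ℕ} {w : Valuation F ℤᵐ⁰}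
    (hw : IsDiv d w) (c : ℂ) : w (algebraMap ℂ F c) ≤ 1 := by
  obtain ⟨u, hu⟩ := hw.2
  rcases eq_or_ne c 0 with rfl | hc
  · simp
  · have := hu (C c) (by simpa using hc)
    rw [aeval_C] at this
    exact this.le

theorem H0_mul {m m' : ℕ} {g g' : K} (hg : g ∈ H0 y s m) (hg' : g' ∈ H0 y s m') :
    g * g' ∈ H0 y s (m + m') := by
  intro v hv
  rw [map_mul]
  refine (mul_le_mul' (hg v hv) (hg' v hv)).trans_eq ?_
  rw [← WithZero.exp_add]
  congr 1
  push_cast
  ring

theorem one_mem_H0 : (1 : K) ∈ H0 y s 0 := by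
  intro v _
  simp

theorem H0_pow {m : ℕ} {g : K} (hg : g ∈ H0 y s m) (l : ℕ) : g ^ l ∈ H0 y s (l * m) := by
  induction l with
  | zero => simpa using one_mem_H0
  | succ l ih =>
    rw [pow_succ, Nat.succ_mul]
    exact H0_mul ih hg

theorem H0_prod {ι : Type} (S : Finset ι) {m : ℕ} {g : ι → K} (hg : ∀ i ∈ S, g i ∈ H0 y s m) :
    ∏ i ∈ S, g i ∈ H0 y s (S.card * m) := by
  classical
  induction S using Finset.induction_on with
  | empty => simpa using one_mem_H0
  | insert i S hi ih =>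
    rw [Finset.prod_insert hi, Finset.card_insert_of_notMem hi, Nat.succ_mul, add_comm]
    exact H0_mul (hg i (Finset.mem_insert_self i S))
      (ih fun j hj => hg j (Finset.mem_insert_of_mem hj))

/-- `anti`, `exists_iInf_ord`, `le_exp_iff` -/
theorem s_mem_H0 (hX : IsKltFano r y s) (j : Fin (k + 1)) : s j ∈ H0 y s r := by
  intro v hv
  rw [le_exp_iff v (hX.ne j), ← hX.anti v hv]
  exact ciInf_le (Finite.bddBelow_range _) j

omit [Algebra ℂ K] in
theorem bint_ord_pow (w : Valuation K ℤᵐ⁰) (a : K) (l : ℕ) : ord w (a ^ l) = l * ord w a := by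
  rw [← zpow_natCast, ord_zpow]

theorem bint_span (j : Fin (k + 1)) {g : K} (hg : g ∈ Submodule.span ℂ (Set.range s)) :
    g / s j ∈ chart s j := by
  induction hg using Submodule.span_induction with
  | mem g hg =>
    obtain ⟨i, rfl⟩ := hg
    exact Algebra.subset_adjoin ⟨i, rfl⟩
  | zero => rw [zero_div]; exact zero_mem _
  | add a b _ _ ha hb => rw [add_div]; exact add_mem ha hb
  | smul c a _ ha => rw [smul_div_assoc]; exact Subalgebra.smul_mem _ ha c

theorem bint_poly {A : Subalgebra ℂ K} {σ : K} (hσ : σ ∈ A) {ι : Type} {u : ι → K}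
    (hu : ∀ i, u i * σ ∈ A) (f : MvPolynomial ι ℂ) : ∃ l : ℕ, aeval u f * σ ^ l ∈ A := by
  induction f using MvPolynomial.induction_on with
  | C c => exact ⟨0, by simp⟩
  | add f g hf hg =>
    obtain ⟨l, hl⟩ := hf
    obtain ⟨l', hl'⟩ := hg
    refine ⟨l + l', ?_⟩
    have e : aeval u (f + g) * σ ^ (l + l') =
        aeval u f * σ ^ l * σ ^ l' + aeval u g * σ ^ l' * σ ^ l := by
      rw [map_add]; ring
    rw [e]
    exact add_mem (mul_mem hl (pow_mem hσ l')) (mul_mem hl' (pow_mem hσ l))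
  | mul_X f i hf =>
    obtain ⟨l, hl⟩ := hf
    refine ⟨l + 1, ?_⟩
    have e : aeval u (f * X i) * σ ^ (l + 1) = aeval u f * σ ^ l * (u i * σ) := by
      rw [map_mul, aeval_X]; ring
    rw [e]
    exact mul_mem hl (hu i)

/-- clearing denominators in an equation of integral dependence -/
theorem bint_clear (A : Subalgebra ℂ K) (T : Set K) (h1 : (1 : K) ∈ T)
    (hmul : ∀ a ∈ T, ∀ b ∈ T, a * b ∈ T) (hTA : ∀ a ∈ T, a ∈ A) {O : Type} [CommRing O]
    [Algebra O K] (hO : ∀ x : O, ∃ τ ∈ T, τ * algebraMap O K x ∈ A) {b : K}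
    (hb : IsIntegral O b) : ∃ τ ∈ T, IsIntegral A (τ * b) := by
  classical
  obtain ⟨p, hp, hpb⟩ := hb
  have key : ∀ S : Finset ℕ, ∃ τ ∈ T, ∀ i ∈ S, τ * algebraMap O K (p.coeff i) ∈ A := by
    intro S
    induction S using Finset.induction_on with
    | empty => exact ⟨1, h1, by simp⟩
    | insert i S _ ih =>
      obtain ⟨τ, hτ, h⟩ := ih
      obtain ⟨τ', hτ', h'⟩ := hO (p.coeff i)
      refine ⟨τ * τ', hmul _ hτ _ hτ', fun l hl => ?_⟩
      rcases Finset.mem_insert.1 hl with rfl | hl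
      · rw [mul_assoc]; exact mul_mem (hTA _ hτ) h'
      · rw [mul_right_comm]; exact mul_mem (h l hl) (hTA _ hτ')
  obtain ⟨τ, hτ, h⟩ := key p.support
  refine ⟨τ, hτ, ?_⟩
  have hP : (p.map (algebraMap O K)).Monic := hp.map _
  have hl : (p.map (algebraMap O K)).scaleRoots τ ∈ Polynomial.lifts (algebraMap A K) := by
    rw [Polynomial.lifts_iff_coeff_lifts]
    intro i
    suffices h' : ((p.map (algebraMap O K)).scaleRoots τ).coeff i ∈ A from ⟨⟨_, h'⟩, rfl⟩
    rw [Polynomial.coeff_scaleRoots]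
    rcases lt_trichotomy i (p.map (algebraMap O K)).natDegree with hi | hi | hi
    · obtain ⟨e, he⟩ := Nat.exists_eq_add_of_lt hi
      rw [he, add_assoc, Nat.add_sub_cancel_left, pow_succ, Polynomial.coeff_map]
      by_cases hs : i ∈ p.support
      · rw [mul_comm, mul_assoc]
        exact mul_mem (pow_mem (hTA _ hτ) e) (h i hs)
      · rw [Polynomial.notMem_support_iff.1 hs, map_zero, zero_mul]
        exact zero_mem _
    · rw [hi, Nat.sub_self, pow_zero, mul_one, hP.coeff_natDegree]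
      exact one_mem _
    · rw [Polynomial.coeff_eq_zero_of_natDegree_lt hi, zero_mul]
      exact zero_mem _
  obtain ⟨q, hq, -, hq'⟩ := Polynomial.lifts_and_natDegree_eq_and_monic hl
    ((Polynomial.monic_scaleRoots_iff τ).2 hP)
  refine ⟨q, hq', ?_⟩
  rw [← Polynomial.eval_map, hq]
  exact Polynomial.scaleRoots_eval₂_eq_zero (RingHom.id K) (r := b) (s := τ)
    (by rw [Polynomial.eval₂_map]; exact hpb)

/-- the elements of the valuation ring of `ℂ(u)` -/
theorem bint_frac {σ : Type} {u : σ → K} (hind : AlgebraicIndependent ℂ u) {v : Val K}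
    (htriv : ∀ c : ℂ, v (algebraMap ℂ K c) ≤ 1) {p : MvPolynomial σ ℂ} (hp : Irreducible p)
    (hu : ∀ i, v (u i) ≤ 1) (hp1 : v (aeval u p) < 1)
    (hq : ∀ q : MvPolynomial σ ℂ, ¬ p ∣ q → v (aeval u q) = 1) {x : K}
    (hx : x ∈ IntermediateField.adjoin ℂ (Set.range u)) (hx1 : v x ≤ 1) :
    ∃ f g : MvPolynomial σ ℂ, v (aeval u g) = 1 ∧ aeval u g * x = aeval u f := by
  obtain ⟨f, g, rfl⟩ := (IntermediateField.mem_adjoin_range_iff ℂ u x).1 hx
  rcases eq_or_ne g 0 with rfl | hg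
  · exact ⟨0, 1, by simp, by simp⟩
  obtain ⟨f', g', c, hrel, rfl, rfl⟩ := UniqueFactorizationMonoid.exists_reduced_factors' f g hg
  have hne : ∀ a : MvPolynomial σ ℂ, a ≠ 0 → aeval u a ≠ 0 := fun a ha h =>
    ha (algebraicIndependent_iff.1 hind a h)
  have hc := hne c (left_ne_zero_of_mul hg)
  have hg' := hne g' (right_ne_zero_of_mul hg)
  rw [map_mul, map_mul, mul_div_mul_left _ _ hc] at hx1 ⊢
  refine ⟨f', g', hq _ fun hpg => ?_, mul_div_cancel₀ _ hg'⟩
  rw [map_div₀, div_le_one₀ (v.pos_iff.2 hg'), hq f' fun hpf => hp.not_isUnit (hrel hpf hpg)] at hx1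
  obtain ⟨g'', rfl⟩ := hpg
  have h2 : v (aeval u g'') ≤ 1 := val_le_one_of_isIntegral (AlgHom.id ℂ K) v htriv u hu
    (isIntegral_algebraMap (x := (⟨aeval u g'', by
      rw [Algebra.adjoin_range_eq_range_aeval]; exact ⟨g'', rfl⟩⟩ : Algebra.adjoin ℂ (Set.range u))))
  rw [map_mul, map_mul] at hx1
  exact absurd (hx1.trans (mul_le_of_le_one_right' h2)) (not_le.2 hp1)

namespace NN

variable (N : NN n s)

theorem S_mem (hX : IsKltFano r y s) (o : Option (Fin n)) : N.S o ∈ H0 y s r := by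
  refine Submodule.span_le.2 ?_ (N.mem o)
  rintro _ ⟨j, rfl⟩
  exact s_mem_H0 hX j

/-- Prime valuations over the chart `S o ≠ 0` are prime divisors on the variety.
`IsAbh.frame_idx` (with `N.basis o`; the index type has `n` elements, and `n ≠ 0` because an
irreducible polynomial needs a variable, or by `IsFrame.card_eq`) and `exists_div_of_frame` give
`w`.  All `s j / S o` have value `≤ 1` (`val_le_one_of_isIntegral`); `exists_max` gives `j` with
`v (s j) = v (S o)` maximal, so `chart s j` lies in the valuation ring.  For `v a ≤ 1`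
`exists_div_integral` (over `F0 = ℂ(aff S o)`) gives `a * c = b` with `b, c` integral over the
valuation ring of `F0`, whose elements are `a'(u) / q(u)` with `¬ p ∣ q`; after multiplying by such
a `q(u)` (`IsIntegral.exists_multiple_integral_of_isLocalization`, or by hand) both are integral
over `ℂ[aff S o]`, which lies in `chart s j [(S o / s j)⁻¹]`; so `b * (S o / s j) ^ l` is integral
over `chart s j` for large `l`, hence in it (`hX.normal`, `hX.frac`,
`IsIntegrallyClosed.isIntegral_iff`); `v (S o / s j) = 1`. -/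
theorem onX (hX : IsKltFano r y s) (o : Option (Fin n)) {v : Val K}
    (hv : PrimeVal (aff N.S o) v) :
    ∃ (w : Valuation K ℤᵐ⁰) (c : ℝ≥0), OnX n s w ∧ Assoc w v c ∧
      (⨅ j, ord w (s j)) = ord w (N.S o) := by
  obtain ⟨hab, p, hp, hu, hp1, hq⟩ := hv
  obtain ⟨q0, t0, u0, hf0⟩ := id hab
  have hc := hf0.card_eq hX.basis
  obtain ⟨t, u', hf, ht⟩ := hab.frame_idx hX.fg hX.basis hc
  obtain ⟨w, hw, hA⟩ := exists_div_of_frame hf ht (d := n) (by rw [← hc, Fintype.card_fin])
  have htriv : ∀ c : ℂ, v (algebraMap ℂ K c) ≤ 1 := fun c => by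
    rcases eq_or_ne c 0 with rfl | hc0
    · simp
    · exact (hab.triv c hc0).le
  have hS := N.ne o
  have hSv : 0 < v (N.S o) := v.pos_iff.2 hS
  have hle : ∀ j, v (s j) ≤ v (N.S o) := fun j => by
    have := val_le_one_of_isIntegral (AlgHom.id ℂ K) v htriv _ hu (N.int o j)
    rwa [AlgHom.id_apply, map_div₀, div_le_one₀ hSv] at this
  obtain ⟨o', j, h1, h2, h3⟩ := N.exists_max (AlgHom.id ℂ K) v htriv
  simp only [AlgHom.id_apply] at h1 h2 h3
  have hj : v (N.S o) = v (s j) := le_antisymm ((h2 o).trans h1.le) (hle j)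
  have hsv : 0 < v (s j) := hj ▸ hSv
  have hch : ∀ a ∈ chart s j, v a ≤ 1 := fun a ha =>
    val_le_one_of_isIntegral (AlgHom.id ℂ K) v htriv (fun j' => s j' / s j)
      (fun j' => by rw [AlgHom.id_apply, map_div₀, div_le_one₀ hsv]; exact h3 j')
      (isIntegral_algebraMap (x := (⟨a, ha⟩ : chart s j)))
  have hσ : N.S o / s j ∈ chart s j := bint_span j (N.mem o)
  have hσ1 : v (N.S o / s j) = 1 := by rw [map_div₀, hj, div_self hsv.ne']
  have hpoly : ∀ f : MvPolynomial {i // i ≠ o} ℂ,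
      ∃ l : ℕ, aeval (aff N.S o) f * (N.S o / s j) ^ l ∈ chart s j := fun f => by
    refine bint_poly hσ (fun i => ?_) f
    rw [aff, div_mul_div_cancel₀ hS]
    exact bint_span j (N.mem _)
  have hone : ∀ a, w a ≤ 1 ↔ v a ≤ 1 := fun a => by simpa using (hA.le_iff a 1).symm
  have hden : ∀ b : K, IsIntegral (v.comap (algebraMap
      (IntermediateField.adjoin ℂ (Set.range (aff N.S o))) K)).integer b →
      ∃ τ ∈ chart s j, v τ = 1 ∧ τ * b ∈ chart s j := fun b hb => by
    obtain ⟨τ, ⟨h4, h5⟩, h6⟩ := bint_clear (chart s j) {τ | τ ∈ chart s j ∧ v τ = 1}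
      ⟨one_mem _, map_one v⟩
      (fun a ha b hb => ⟨mul_mem ha.1 hb.1, by rw [map_mul, ha.2, hb.2, one_mul]⟩)
      (fun a ha => ha.1) (fun x => by
        obtain ⟨f, g, hg1, hfg⟩ := bint_frac (N.basis o).1 htriv hp hu hp1 hq x.1.2 x.2
        obtain ⟨l, hl⟩ := hpoly f
        obtain ⟨l', hl'⟩ := hpoly g
        refine ⟨aeval (aff N.S o) g * (N.S o / s j) ^ l' * (N.S o / s j) ^ l,
          ⟨mul_mem hl' (pow_mem hσ l), by simp only [map_mul, map_pow, hg1, hσ1, one_pow, mul_one]⟩,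
          ?_⟩
        have e : aeval (aff N.S o) g * (N.S o / s j) ^ l' * (N.S o / s j) ^ l * algebraMap _ K x =
            aeval (aff N.S o) f * (N.S o / s j) ^ l * (N.S o / s j) ^ l' := by
          rw [← hfg]
          change _ * (x.1.1 : K) = _
          ring
        rw [e]
        exact mul_mem hl (pow_mem hσ l')) hb
    have := hX.frac j
    have := hX.normal j
    obtain ⟨z, hz⟩ := IsIntegrallyClosed.isIntegral_iff.1 h6
    exact ⟨τ, h4, h5, hz ▸ z.2⟩
  refine ⟨w, v t, ⟨hw, j, fun a ha => (hone a).2 (hch a ha), fun a ha => ?_⟩, hA, ?_⟩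
  · have := (N.basis o).isAlgebraic_field
    obtain ⟨b, c, hb, hc', hc1, habc⟩ := exists_div_integral
      (F := IntermediateField.adjoin ℂ (Set.range (aff N.S o))) v
      (Algebra.IsAlgebraic.isAlgebraic a) ((hone a).1 ha)
    obtain ⟨τ, h4, h5, h6⟩ := hden b hb
    obtain ⟨τ', h4', h5', h6'⟩ := hden c hc'
    have h7 : v (τ' * c * τ) = 1 := by rw [map_mul, map_mul, h5, h5', hc1, one_mul, one_mul]
    refine ⟨τ * b * τ', mul_mem h6 h4', τ' * c * τ, mul_mem h6' h4,
      le_antisymm ((hone _).2 h7.le) ?_, by rw [← habc]; ring⟩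
    have := (hA.le_iff 1 (τ' * c * τ)).1 (by rw [h7, map_one])
    rwa [map_one] at this
  · obtain ⟨i, hi, hi'⟩ := exists_iInf_ord w s
    rw [hi]
    refine le_antisymm ((hi' j).trans ?_) ?_
    · rw [← val_le_iff_ord w hS (hX.ne j), ← hA.le_iff]
      exact hj.le
    · rw [← val_le_iff_ord w (hX.ne i) hS, ← hA.le_iff]
      exact hle i

/-- `isIntegral_of_primeVal`, `onX`, `anti` -/
theorem integral_aff (hX : IsKltFano r y s) (o : Option (Fin n)) {m : ℕ} {g : K}
    (hg : g ∈ H0 y s m) :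
    IsIntegral (Algebra.adjoin ℂ (Set.range (aff N.S o))) (g ^ r / N.S o ^ m) := by
  refine isIntegral_of_primeVal (N.basis o) hX.fg _ fun v hv => ?_
  rcases eq_or_ne g 0 with rfl | h0
  · simp [hX.pos.ne']
  obtain ⟨w, c, hw, hA, hinf⟩ := N.onX hX o hv
  have h1 := (le_exp_iff w h0 _).1 (hg w hw)
  have h2 := hX.anti w hw
  have hS := N.ne o
  rw [map_div₀, div_le_one₀ (v.pos_iff.2 (pow_ne_zero _ hS)), hA.le_iff,
    val_le_iff_ord w (pow_ne_zero _ h0) (pow_ne_zero _ hS), bint_ord_pow, bint_ord_pow, ← hinf, h2,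
    mul_left_comm]
  exact mul_le_mul_of_nonneg_left h1 (Nat.cast_nonneg r)

/-- `isIntegral_of_valuationSubring`: take `o` maximising `O.valuation (Y o)`; then
`Y o' / Y o = C (aff S o o')` lies in `O` and `hom m g ^ r = C (g ^ r / S o ^ m) * Y o ^ m`. -/
theorem integral (hX : IsKltFano r y s) {m : ℕ} {g : K} (hg : g ∈ H0 y s m) :
    IsIntegral (Algebra.adjoin ℂ (Set.range (N.Y r))) (hom m g) := by
  refine isIntegral_of_valuationSubring _ _ fun O hO => ?_
  obtain ⟨o, ho⟩ := Finite.exists_max fun o => O.valuation (N.Y r o)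
  have hY : N.Y r o ≠ 0 := hom_ne r (N.ne o)
  have hS : (RatFunc.C (N.S o) : RatFunc K) ≠ 0 := by simpa using N.ne o
  have hX' : (RatFunc.X : RatFunc K) ≠ 0 := RatFunc.X_ne_zero
  have h1 := val_le_one_of_isIntegral (cA K) O.valuation
    (fun c => (O.valuation_le_one_iff _).2 (hO _ (Subalgebra.algebraMap_mem _ c))) (aff N.S o)
    (fun i => by
      have e : cA K (aff N.S o i) = N.Y r i.1 / N.Y r o := by
        simp only [cA_apply, aff, Y, hom_apply, map_div₀]
        field_simp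
      rw [e, map_div₀, div_le_one₀ (O.valuation.pos_iff.2 hY)]
      exact ho _) (N.integral_aff hX o hg)
  have h2 : O.valuation (N.Y r o) ≤ 1 :=
    (O.valuation_le_one_iff _).2 (hO _ (Algebra.subset_adjoin ⟨o, rfl⟩))
  have e : hom m g ^ r = cA K (g ^ r / N.S o ^ m) * N.Y r o ^ m := by
    simp only [cA_apply, Y, hom_apply, map_div₀, map_pow, mul_pow]
    field_simp
    ring
  rw [← O.valuation_le_one_iff, ← pow_le_one_iff hX.pos.ne', ← map_pow, e, map_mul, map_pow]
  exact mul_le_one' h1 (pow_le_one' h2 m)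

include N in
/-- Pull-backs of sections are effective (`exists_max`, `integral_aff`). -/
theorem le_ord (hX : IsKltFano r y s) {F : Type} [Field F] [Algebra ℂ F] (e : K →ₐ[ℂ] F)
    (w : Valuation F ℤᵐ⁰) (htriv : ∀ c : ℂ, w (algebraMap ℂ F c) ≤ 1) {m : ℕ} {g : K}
    (hg : g ∈ H0 y s m) (h0 : g ≠ 0) : m * (⨅ j, ord w (e (s j))) ≤ r * ord w (e g) := by
  obtain ⟨o, j, h1, h2, -⟩ := N.exists_max e w htriv
  have hS : e (N.S o) ≠ 0 := (map_ne_zero e).2 (N.ne o)
  have hg0 : e g ≠ 0 := (map_ne_zero e).2 h0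
  have h3 := val_le_one_of_isIntegral e w htriv (aff N.S o) (fun i => by
    rw [aff, map_div₀, map_div₀, div_le_one₀ (w.pos_iff.2 hS)]
    exact h2 _) (N.integral_aff hX o hg)
  rw [map_div₀, map_pow, map_pow, map_div₀, div_le_one₀ (w.pos_iff.2 (pow_ne_zero _ hS)),
    val_le_iff_ord w (pow_ne_zero _ hg0) (pow_ne_zero _ hS), bint_ord_pow, bint_ord_pow] at h3
  refine le_trans (mul_le_mul_of_nonneg_left ?_ (Nat.cast_nonneg m)) h3
  have h4 : ord w (e (N.S o)) = ord w (e (s j)) := by rw [ord, ord, h1]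
  rw [h4]
  exact ciInf_le (Finite.bddBelow_range fun j => ord w (e (s j))) j

include N in
theorem secOrd_nonneg (hX : IsKltFano r y s) {w : Valuation K ℤᵐ⁰} (hw : IsDiv n w) {m : ℕ}
    {g : K} (hg : g ∈ H0 y s m) (h0 : g ≠ 0) : 0 ≤ secOrd r s w m g := by
  have h := N.le_ord hX (AlgHom.id ℂ K) w hw.triv hg h0
  simp only [AlgHom.id_apply] at h
  have hr : (0 : ℝ) < r := Nat.cast_pos.2 hX.pos
  rw [secOrd, sub_nonneg, div_le_iff₀ hr, mul_comm _ (r : ℝ)]
  exact_mod_cast h

include N in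
/-- every large degree has a nonzero section: `W ^ a * S none ^ b` with `a < r` chosen such that
`m + a` is divisible by `r` -/
theorem exists_ne (hX : IsKltFano r y s) {W : K} (hW : W ≠ 0)
    (hW' : W ∈ H0 y s (r * (n + 1) - 1)) : ∃ C : ℕ, ∀ m, C ≤ m → ∃ θ ∈ H0 y s m, θ ≠ 0 := by
  have hr := hX.pos
  refine ⟨r * (r * (n + 1)), fun m hm => ?_⟩
  obtain ⟨a, q, ha, hq⟩ : ∃ a q, a ≤ r ∧ m + a = r * q :=
    ⟨r - m % r, m / r + 1, Nat.sub_le _ _, by
      have := Nat.mod_lt m hr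
      have := Nat.div_add_mod m r
      rw [mul_add, mul_one]
      omega⟩
  have h1 : a * (n + 1) ≤ q := by
    have h2 : r * (r * (n + 1)) ≤ r * q := by omega
    exact (Nat.mul_le_mul_right _ ha).trans (Nat.le_of_mul_le_mul_left h2 hr)
  obtain ⟨b, rfl⟩ := Nat.exists_eq_add_of_le h1
  obtain ⟨e, he⟩ : ∃ e, r * (n + 1) = e + 1 := ⟨r * (n + 1) - 1, by
    have : 0 < r * (n + 1) := Nat.mul_pos hr (Nat.succ_pos n)
    omega⟩
  have h3 : m = a * (r * (n + 1) - 1) + b * r := by
    have h4 : r * (a * (n + 1) + b) = a * (r * (n + 1)) + b * r := by ring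
    rw [h4, he, mul_add, mul_one] at hq
    rw [he, Nat.add_sub_cancel]
    omega
  refine ⟨W ^ a * N.S none ^ b, ?_, mul_ne_zero (pow_ne_zero _ hW) (pow_ne_zero _ (N.ne _))⟩
  rw [h3]
  exact H0_mul (H0_pow hW' a) (H0_pow (N.S_mem hX none) b)

end NN

omit [Algebra ℂ K] in
theorem secOrd_mul (w : Valuation K ℤᵐ⁰) (m m' : ℕ) {g g' : K} (h : g ≠ 0) (h' : g' ≠ 0) :
    secOrd r s w (m + m') (g * g') = secOrd r s w m g + secOrd r s w m' g' := by
  simp only [secOrd, ord_mul w h h']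
  push_cast
  ring

omit [Algebra ℂ K] in
theorem secOrd_prod (w : Valuation K ℤᵐ⁰) {ι : Type} (S : Finset ι) (m : ℕ) {g : ι → K}
    (h : ∀ i ∈ S, g i ≠ 0) :
    secOrd r s w (S.card * m) (∏ i ∈ S, g i) = ∑ i ∈ S, secOrd r s w m (g i) := by
  simp only [secOrd, ord_prod w S g h, Finset.sum_sub_distrib, Finset.sum_const, nsmul_eq_mul]
  push_cast
  ring

end Pool.Agent.MP_c0606f_ag.Klt

end

-- part MP_c0606f_ag.Klt.BRes
section

/-! Restriction of valuations to the variety and extension to the cone. -/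

namespace Pool.Agent.MP_c0606f_ag.Klt

open scoped NNReal WithZero
open MvPolynomial

variable {K : Type} [Field K] [Algebra ℂ K] {n k r : ℕ} {y : Fin n → K} {s : Fin (k + 1) → K}

/-- Restriction to the function field.  If the restriction is nontrivial, `IsAbh.comap`,
`IsFrame.card_eq`, `exists_div_of_frame`, `avol_comap_le`, `avol_eq_ordForm`. -/
theorem restrict_cases (hX : IsKltFano r y s) {F : Type} [Field F] [Algebra ℂ F]
    (e : K →ₐ[ℂ] F) (v : Val F) (hv : IsAbh v) :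
    (∀ a, a ≠ 0 → v (e a) = 1) ∨ ∃ (w : Valuation K ℤᵐ⁰) (c : ℝ≥0), IsDiv n w ∧
      Assoc w (v.comap e.toRingHom) c ∧ avol v (fun i => e (y i)) ≤ c ^ (1 + ordForm w y) := by
  by_cases h : ∀ a, a ≠ 0 → v (e a) = 1
  · exact Or.inl h
  right
  obtain ⟨a, h⟩ := not_forall.1 h
  obtain ⟨ha, h1⟩ := Classical.not_imp.1 h
  have hea : e a ≠ 0 := (map_ne_zero e).2 ha
  have hτ : ∃ τ, 0 < v (e τ) ∧ v (e τ) < 1 := by
    rcases lt_or_gt_of_ne h1 with h2 | h2
    · exact ⟨a, v.pos_iff.2 hea, h2⟩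
    · refine ⟨a⁻¹, ?_, ?_⟩
      · rw [map_inv₀, map_inv₀]
        exact inv_pos.2 (zero_lt_one.trans h2)
      · rw [map_inv₀, map_inv₀]
        exact inv_lt_one_of_one_lt₀ h2
  obtain ⟨τ, h0, h2⟩ := hτ
  obtain ⟨q, t, u, hf, ht⟩ := hv.comap e hX.fg h0 h2
  obtain ⟨w, hw, hA⟩ := exists_div_of_frame hf ht (d := n)
    ((hf.card_eq hX.basis).symm.trans (Fintype.card_fin n))
  exact ⟨w, _, hw, hA, (avol_comap_le e v hf y).trans (avol_eq_ordForm hf ht hA hX.basis).le⟩

theorem bres_pos (hy : IsTranscendenceBasis ℂ y) {w : Valuation K ℤᵐ⁰} (hw : IsDiv n w) :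
    0 < n := by
  rcases Nat.eq_zero_or_pos n with rfl | h
  swap
  · exact h
  have : Algebra.IsAlgebraic ℂ K := hy.isEmpty_iff_isAlgebraic.1 inferInstance
  obtain ⟨a, ha⟩ := hw.1 (WithZero.exp 1)
  obtain ⟨c, rfl⟩ := (IsAlgClosed.algebraMap_bijective_of_isIntegral (k := ℂ) (K := K)).2 a
  have h1 := hw.triv c
  rw [ha, ← WithZero.exp_zero, WithZero.exp_le_exp] at h1
  omega

/-- The canonical extension of a divisor to the cone.  `n ≠ 0`: otherwise `K` is algebraic over
`ℂ`, so equal to it, and `w` is not surjective.  Take `c = 1 / 2`, `v0` from `exists_assoc`, the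
frame of `IsDiv.frame`, and the Gauss extension with `v X = c ^ (-ordForm w y)`, `β = t ^ (-ordForm)`
(`IsGauss.frame`, `IsGauss.unif`, `IsGauss.le_avol`, `avol_eq_ordForm`). -/
theorem exists_cone_val (hX : IsKltFano r y s) {w : Valuation K ℤᵐ⁰} (hw : IsDiv n w) :
    ∃ (v0 : Val K) (c : ℝ≥0) (v : Val (RatFunc K)) (t : RatFunc K) (u : Fin n → RatFunc K),
      Assoc w v0 c ∧ IsGauss v0 (c ^ (-ordForm w y)) v ∧ IsFrame v t u ∧ IsUnif v t ∧ v t = c ∧
      c ≤ avol v (yt y) ∧
      ∀ (m : ℕ) (g : K), v (hom m g) ≤ 1 ↔ w g ≤ WithZero.exp (-(m * ordForm w y)) := by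
  have hn := bres_pos hX.basis hw
  obtain ⟨v0, hA⟩ := exists_assoc w (c := 2⁻¹) (by norm_num) (by norm_num)
  generalize (2⁻¹ : ℝ≥0) = c at hA
  obtain ⟨-, t, u, hf, ht, htc⟩ := hw.frame hA y (Fintype.card_fin n) hn
    fun a => hX.basis.isAlgebraic.1 a
  have hc0 : 0 < c := hA.1
  obtain ⟨v, hv⟩ := exists_gauss v0 (zpow_pos hc0 (-ordForm w y))
  have ht0 : t ≠ 0 := v0.pos_iff.1 hf.pos
  have hβ0 : t ^ (-ordForm w y) ≠ 0 := zpow_ne_zero _ ht0
  have hβ : v0 (t ^ (-ordForm w y)) = c ^ (-ordForm w y) := by rw [map_zpow₀, htc]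
  have hcard : Fintype.card (Fin n) = Fintype.card (Fin (n - 1)) + 1 := by
    rw [Fintype.card_fin, Fintype.card_fin]
    omega
  let e : Fin n ≃ Option (Fin (n - 1)) :=
    Fintype.equivOfCardEq (by rw [hcard, Fintype.card_option])
  refine ⟨v0, c, v, RatFunc.C t, _, hA, hv, (hv.frame hf hβ0 hβ).reindex e, hv.unif ht hβ0 hβ,
    (hv.C t).trans htc, ?_, fun m g => ?_⟩
  · refine le_trans (le_of_eq ?_) (hv.le_avol hf hβ0 hβ y hcard)
    rw [avol_eq_ordForm hf ht (htc ▸ hA) hX.basis, htc, ← zpow_add₀ hc0.ne', add_neg_cancel_right,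
      zpow_one]
  · rcases eq_or_ne g 0 with rfl | hg
    · simp
    rw [le_exp_iff w hg, hom_apply, map_mul, map_pow, hv.C, hv.X, hA.2.2 g hg, ← zpow_natCast,
      ← zpow_mul, ← zpow_add₀ hc0.ne', zpow_le_one_iff_right_of_lt_one₀ hc0 hA.2.1]
    constructor <;> intro h <;> linarith

/-- With `E` dual to `yt y` and `∂` dual to `y`: `E none (C a) = 0`, `E (some l) (C a) = C (∂ l a)`
(`jac_id` with `x = cA K`), so the row `none` is `r * C (S o) * X ^ (r - 1)` and the row `some l` is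
`C (∂ l (S o)) * X ^ r` (`Matrix.det_mul_column`).  `W ≠ 0` by `IsJac.ne_zero`, `Y_basis`.  For `w` on
`X` take `exists_cone_val`: `c * v h ≤ avol v Y ≤ v t = c` (`IsJac.avol_one` with the identity,
`avol_le_unif`, `S_mem`). -/
theorem NN.exists_jac (N : NN n s) (hX : IsKltFano r y s) :
    ∃ W : K, W ≠ 0 ∧ W ∈ H0 y s (r * (n + 1) - 1) ∧
      IsJac (N.Y r) (yt y) (hom (r * (n + 1) - 1) W) := by
  classical
  obtain ⟨E, hE⟩ := exists_dual_der (yt_basis hX.basis)
  obtain ⟨D, hD⟩ := exists_dual_der hX.basis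
  have hC : ∀ o a, E o (RatFunc.C a) = o.elim 0 fun l => RatFunc.C (D l a) := by
    intro o a
    have h1 := jac_id hX.basis D hD (cA K) (E o) a
    have h2 : ∀ l, E o (cA K (y l)) = if o = some l then 1 else 0 := fun l => hE o (some l)
    simp only [h2, cA_apply (D _ a)] at h1
    rw [cA_apply] at h1
    rw [h1]
    rcases o with _ | l <;> simp
  have hXX : ∀ o, E o RatFunc.X = if o = none then 1 else 0 := fun o => hE o none
  let A : Matrix (Option (Fin n)) (Option (Fin n)) K :=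
    Matrix.of fun l i => l.elim (r * N.S i) fun l => D l (N.S i)
  let d : Option (Fin n) → RatFunc K := fun l => l.elim (RatFunc.X ^ (r - 1)) fun _ => RatFunc.X ^ r
  have hM : (Matrix.of fun l i => E l (N.Y r i)) =
      Matrix.of fun l i => d l * (RatFunc.C : K →+* RatFunc K).mapMatrix A l i := by
    ext l i
    simp only [Matrix.of_apply, NN.Y, hom_apply, Derivation.leibniz, Derivation.leibniz_pow, hC,
      hXX, RingHom.mapMatrix_apply, Matrix.map_apply, A, d, smul_eq_mul]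
    rcases l with _ | l
    · simp only [Option.elim_none, if_true, map_mul, map_natCast, nsmul_eq_mul]
      ring
    · simp
  have hdet : (Matrix.of fun l i => E l (N.Y r i)).det = hom (r * (n + 1) - 1) A.det := by
    rw [hM, Matrix.det_mul_column, ← RingHom.map_det, hom_apply, mul_comm, Fintype.prod_option]
    simp only [d, Option.elim_none, Option.elim_some, Finset.prod_const, Finset.card_univ,
      Fintype.card_fin, ← pow_mul, ← pow_add]
    congr 2
    have := hX.pos
    rw [mul_add, mul_one]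
    omega
  have hJ : IsJac (N.Y r) (yt y) (hom (r * (n + 1) - 1) A.det) :=
    hdet ▸ isJac_of_dual (yt_basis hX.basis) E hE (N.Y r)
  refine ⟨A.det, fun h0 => hJ.ne_zero (N.Y_basis hX.pos) (by rw [h0, map_zero]),
    mem_H0.2 fun w hw => ?_, hJ⟩
  obtain ⟨v0, c, v, t, u, hA, -, hf, ht, htc, hle, hiff⟩ := exists_cone_val hX hw.1
  rw [← hiff]
  have h1 := hJ.avol_one (AlgHom.id ℂ (RatFunc K)) v
  have h2 : avol v (N.Y r) ≤ v t := avol_le_unif hf ht (N.Y r)
    (fun o => (hiff r (N.S o)).2 (mem_H0.1 (N.S_mem hX o) w hw)) Fintype.card_option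
  have h3 : c * v (hom (r * (n + 1) - 1) A.det) ≤ c * 1 := by
    rw [mul_one]
    refine le_trans (mul_le_mul_left hle _) ?_
    exact h1.symm.le.trans (h2.trans htc.le)
  exact le_of_mul_le_mul_left h3 hA.1

end Pool.Agent.MP_c0606f_ag.Klt

end

-- part MP_c0606f_ag.Klt.BReg
section

/-! Regularity in codimension one implies integrality. -/

namespace Pool.Agent.MP_c0606f_ag.Klt

open scoped NNReal WithZero
open MvPolynomial

/-- `a` has no pole along crepant divisors over the cover -/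
def NoPole {L ι : Type} [Field L] [Algebra ℂ L] [Fintype ι] [DecidableEq ι] (Y : ι → L) (h a : L) :
    Prop :=
  ∀ (v : Val L) (t : L), IsAbh v → (∀ i, v (Y i) ≤ 1) → IsUnif v t → v t * v h ≤ avol v Y →
    v a ≤ 1

theorem breg_val {F : Type} [Field F] {v0 : Val F} {c : ℝ≥0} {v : Val (RatFunc F)}
    (hv : IsGauss v0 c v) {G : RatFunc F} {Q : Polynomial F} {l : ℕ}
    (hG : G * RatFunc.X ^ l = algebraMap _ (RatFunc F) Q) (h1 : v G ≤ 1) (j : ℕ) :
    v0 (Q.coeff j) * c ^ j ≤ c ^ l := by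
  refine ((hv Q).1 j).trans ?_
  rw [← hG, map_mul, map_pow, hv.X]
  exact mul_le_of_le_one_left zero_le h1

theorem breg_one {F : Type} [Field F] : ∃ v0 : Val F, ∀ a, a ≠ 0 → v0 a = 1 := by
  classical
  exact ⟨1, fun a ha => Valuation.one_apply_of_ne_zero ha⟩

theorem breg_le_one {F : Type} [Field F] {v0 : Val F} (h : ∀ a, a ≠ 0 → v0 a = 1) (a : F) :
    v0 a ≤ 1 := by
  by_cases ha : a = 0
  · simp [ha]
  · exact (h a ha).le

theorem breg_zero {F : Type} [Field F] {v0 : Val F} {c : ℝ≥0} {v : Val (RatFunc F)}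
    (hv : IsGauss v0 c v) (h : ∀ a, a ≠ 0 → v0 a = 1) (h0 : 0 < c) (hc : c < 1) {G : RatFunc F}
    {Q : Polynomial F} {l : ℕ} (hG : G * RatFunc.X ^ l = algebraMap _ (RatFunc F) Q)
    (h1 : v G ≤ 1) (j : ℕ) (hj : j < l) : Q.coeff j = 0 := by
  by_contra hne
  have := breg_val hv hG h1 j
  rw [h _ hne, one_mul] at this
  exact absurd (pow_lt_pow_right_of_lt_one₀ h0 hc hj) (not_lt.2 this)

theorem breg_expand {F : Type} [Field F] {G : RatFunc F} {Q : Polynomial F} {l : ℕ}
    (hG : G * RatFunc.X ^ l = algebraMap _ (RatFunc F) Q) (h0 : ∀ j, j < l → Q.coeff j = 0) :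
    ∃ M : ℕ, G = ∑ i ∈ Finset.range M, RatFunc.C (Q.coeff (i + l)) * RatFunc.X ^ i := by
  obtain ⟨Q', rfl⟩ := Polynomial.X_pow_dvd_iff.2 h0
  refine ⟨Q'.natDegree + 1, ?_⟩
  rw [map_mul, map_pow, RatFunc.algebraMap_X, mul_comm] at hG
  rw [mul_left_cancel₀ (pow_ne_zero l RatFunc.X_ne_zero) hG]
  conv_lhs => rw [Q'.as_sum_range_C_mul_X_pow, map_sum]
  refine Finset.sum_congr rfl fun i _ => ?_
  rw [Polynomial.coeff_X_pow_mul, map_mul, map_pow, RatFunc.algebraMap_X, RatFunc.algebraMap_C]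

theorem breg_half : (0 : ℝ≥0) < 1 / 2 ∧ (1 / 2 : ℝ≥0) < 1 := by
  constructor <;> norm_num

/-- Coefficients in the new variable.  (i) The Gauss extension of the trivial valuation with
`v X = 1 / 2` (`IsGauss.frame_triv`, `le_avol_frame`) shows `Q.coeff j = 0` for `j < l`.  (ii) For a
crepant `v1` on `L` take the Gauss extension with `c = 1` (`IsAbh.exists_frame` or
`IsFrame.change` gives a frame `(t, u)`, `IsFrame.card_eq`; `IsGauss.frame`, `IsGauss.unif`,
`IsGauss.le_avol` with `β = 1`). -/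
theorem noPole_coeff {L ι : Type} [Field L] [Algebra ℂ L] [Fintype ι] [DecidableEq ι] {Y : ι → L}
    (hY : IsTranscendenceBasis ℂ Y) {h : L} (hh : h ≠ 0) (G : RatFunc L) (Q : Polynomial L) (l : ℕ)
    (hG : G * RatFunc.X ^ l = algebraMap _ (RatFunc L) Q)
    (H : NoPole (fun o : Option ι => o.elim RatFunc.X fun i => RatFunc.C (Y i)) (RatFunc.C h) G) :
    (∀ j, j < l → Q.coeff j = 0) ∧ ∀ j, NoPole Y h (Q.coeff j) := by
  constructor
  · obtain ⟨v0, h0⟩ := breg_one (F := L)
    obtain ⟨v, hv⟩ := exists_gauss v0 breg_half.1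
    obtain ⟨hf, hu⟩ := hv.frame_triv h0 breg_half.1 breg_half.2 hY
    refine breg_zero hv h0 breg_half.1 breg_half.2 hG (H v _ hf.isAbh ?_ hu ?_)
    · rintro (_ | i)
      · exact hf.lt.le
      · exact (hf.res.val_eq i).le
    · rw [hv.C, h0 h hh, mul_one]
      exact le_avol_frame hf
  · intro j v1 t hA hY1 ht hcr
    obtain ⟨q, t', u, hf⟩ := hA
    have hf' := hf.change ht.1 ht.2.1
    obtain ⟨v, hv⟩ := exists_gauss v1 one_pos
    have h1 : v G ≤ 1 := by
      refine H v _ (hv.frame hf' one_ne_zero (map_one v1)).isAbh ?_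
        (hv.unif ht one_ne_zero (map_one v1)) ?_
      · rintro (_ | i)
        · exact hv.X.le
        · exact (hv.C _).trans_le (hY1 i)
      · rw [hv.C, hv.C]
        refine hcr.trans ?_
        have := hv.le_avol hf' one_ne_zero (map_one v1) Y (hf'.card_eq hY)
        rwa [mul_one] at this
    simpa using breg_val hv hG h1 j

variable {K : Type} [Field K] [Algebra ℂ K] {n k r : ℕ} {y : Fin n → K} {s : Fin (k + 1) → K}

/-- Laurent polynomials in `T`.  The order in `T` (Gauss extension of the trivial valuation,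
`IsGauss.frame_triv` for `y`; crepant by `IsJac.avol_one` and `le_avol_frame`) shows
`Q.coeff i = 0` for `i < l`; `exists_cone_val` for `w` on `X` shows `Q.coeff (l + i) ∈ H0 i`; then
`a = ∑ hom i (Q.coeff (l + i))` is integral by `NN.integral`. -/
theorem NN.integral_of_noPole (N : NN n s) (hX : IsKltFano r y s) {h : RatFunc K}
    (hJ : IsJac (N.Y r) (yt y) h) (a : RatFunc K) (Q : Polynomial K) (l : ℕ)
    (ha : a * RatFunc.X ^ l = algebraMap _ (RatFunc K) Q) (H : NoPole (N.Y r) h a) :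
    IsIntegral (Algebra.adjoin ℂ (Set.range (N.Y r))) a := by
  have hav : ∀ v : Val (RatFunc K), avol v (N.Y r) = avol v (yt y) * v h := fun v =>
    hJ.avol_one (AlgHom.id ℂ _) v
  have h0 : ∀ j, j < l → Q.coeff j = 0 := by
    obtain ⟨v0, h0⟩ := breg_one (F := K)
    obtain ⟨v, hv⟩ := exists_gauss v0 breg_half.1
    obtain ⟨hf, hu⟩ := hv.frame_triv h0 breg_half.1 breg_half.2 hX.basis
    refine breg_zero hv h0 breg_half.1 breg_half.2 ha (H v _ hf.isAbh ?_ hu ?_)
    · intro o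
      rw [NN.Y, hom_apply, map_mul, map_pow, hv.C]
      exact mul_le_one' (breg_le_one h0 _) (pow_le_one₀ zero_le hf.lt.le)
    · rw [hav]
      exact mul_le_mul_left (le_avol_frame hf) _
  have hmem : ∀ i, Q.coeff (i + l) ∈ H0 y s i := by
    intro i w hw
    obtain ⟨v0, c, v, t, u, hA, hv, hf, hu, htc, hc, hiff⟩ := exists_cone_val hX hw.1
    have h1 : v a ≤ 1 := by
      refine H v t hf.isAbh (fun o => (hiff r _).2 (N.S_mem hX o w hw)) hu ?_
      rw [hav, htc]
      exact mul_le_mul_left hc _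
    refine (hiff i _).1 ?_
    have h2 := breg_val hv ha h1 (i + l)
    have hpos : 0 < (c ^ (-ordForm w y)) ^ l := pow_pos (zpow_pos hA.1 _) _
    rw [pow_add, ← mul_assoc, mul_le_iff_le_one_left hpos] at h2
    rwa [hom_apply, map_mul, map_pow, hv.C, hv.X]
  obtain ⟨M, hM⟩ := breg_expand ha h0
  rw [hM]
  exact IsIntegral.sum _ fun i _ => N.integral hX (hmem i)

theorem breg_map {F L : Type} [Field F] [Algebra ℂ F] [Field L] [Algebra ℂ L] (j : F →ₐ[ℂ] L)
    {S : Set F} {T : Set L} (hST : ∀ a ∈ S, j a ∈ T) {a : F}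
    (ha : IsIntegral (Algebra.adjoin ℂ S) a) : IsIntegral (Algebra.adjoin ℂ T) (j a) := by
  have hle : Algebra.adjoin ℂ S ≤ (Algebra.adjoin ℂ T).comap j :=
    Algebra.adjoin_le fun b hb => Algebra.subset_adjoin (hST b hb)
  let φ : Algebra.adjoin ℂ S →+* Algebra.adjoin ℂ T :=
    (j.toRingHom.comp (Algebra.adjoin ℂ S).val.toRingHom).codRestrict
      (Algebra.adjoin ℂ T) fun b => hle b.2
  exact ha.map_of_comp_eq φ j.toRingHom (RingHom.ext fun _ => rfl)

/-- polynomials in both variables -/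
noncomputable def bregPsi (K : Type) [Field K] :
    Polynomial (Polynomial K) →+* RatFunc (RatFunc K) :=
  (algebraMap (Polynomial (RatFunc K)) (RatFunc (RatFunc K))).comp
    (Polynomial.mapRingHom (algebraMap (Polynomial K) (RatFunc K)))

theorem breg_psi_hom (m : ℕ) (a : K) : RatFunc.C (hom m a) ∈ (bregPsi K).range :=
  ⟨Polynomial.C (Polynomial.C a * Polynomial.X ^ m), by
    simp only [bregPsi, RingHom.comp_apply, Polynomial.coe_mapRingHom, Polynomial.map_C,
      RatFunc.algebraMap_C, hom_apply, map_mul, map_pow, RatFunc.algebraMap_X]⟩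

omit [Algebra ℂ K] in
theorem breg_psi_X : (RatFunc.X : RatFunc (RatFunc K)) ∈ (bregPsi K).range :=
  ⟨Polynomial.X, by simp [bregPsi]⟩

theorem breg_psi_c (c : ℂ) : algebraMap ℂ (RatFunc (RatFunc K)) c ∈ (bregPsi K).range := by
  have := breg_psi_hom 0 (algebraMap ℂ K c)
  rw [hom_apply, pow_zero, mul_one, ← cA_apply, ← cA_apply, AlgHom.commutes,
    AlgHom.commutes] at this
  exact this

theorem breg_psi_aeval {ι : Type} (Y : ι → RatFunc (RatFunc K))
    (hY : ∀ i, Y i ∈ (bregPsi K).range) (p : MvPolynomial ι ℂ) :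
    aeval Y p ∈ (bregPsi K).range := by
  induction p using MvPolynomial.induction_on with
  | C c => rw [aeval_C]; exact breg_psi_c c
  | add p q hp hq => rw [map_add]; exact add_mem hp hq
  | mul_X p i hp => rw [map_mul, aeval_X]; exact mul_mem hp (hY i)

theorem breg_psi_pv {ι : Type} (C : Cover ι (RatFunc (RatFunc K)))
    (hY : ∀ i, C.y i ∈ (bregPsi K).range) (hz : C.z ∈ (bregPsi K).range)
    (q : Polynomial (MvPolynomial ι ℂ)) : C.pv q ∈ (bregPsi K).range := by
  induction q using Polynomial.induction_on with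
  | C b => rw [C.pv_C]; exact breg_psi_aeval _ hY b
  | add p q hp hq => rw [C.pv_add]; exact add_mem hp hq
  | monomial m b hp =>
    rw [pow_succ, ← mul_assoc, C.pv_mul, C.pv_X]
    exact mul_mem hp hz

/-- `G * (X * C (Δ(Y))) ^ l = pv q` and `pv q` is the image of a polynomial `Q₀` over `RatFunc K`
all of whose coefficients are images of polynomials over `K` (the set of such elements is a subring
containing `X`, `C (Y o)`, `C z`); `Δ(Y) = hom e κ` with `κ ≠ 0`.  Put
`Q = C ((hom e κ)⁻¹ ^ l) * Q₀`; apply `noPole_coeff` and `integral_of_noPole` (with exponent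
`e * l`); `G = ∑ C (Q.coeff (l + j)) * X ^ j`, and `C` maps elements integral over `ℂ[Y]` to
elements integral over `ℂ[ext.y]`. -/
theorem NN.reg (N : NN n s) (hX : IsKltFano r y s) (C : Cover (Option (Fin n)) (RatFunc K))
    (hy : C.y = N.Y r) (hz : ∃ e ζ, C.z = hom e ζ) (hΔ : ∃ e κ, aeval C.y C.Δ = hom e κ)
    {h : RatFunc K} (hh : h ≠ 0) (hJ : IsJac (N.Y r) (yt y) h) (G : RatFunc (RatFunc K))
    (hG : G ∈ C.ext.A) (H : NoPole C.ext.y (RatFunc.C h) G) :
    IsIntegral (Algebra.adjoin ℂ (Set.range C.ext.y)) G := by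
  obtain ⟨e, κ, hκ⟩ := hΔ
  obtain ⟨e', ζ, hζ⟩ := hz
  obtain ⟨q, l, hq⟩ := C.ext.mem_A.1 hG
  have hne : hom e κ ≠ 0 := by
    rw [← hκ]
    exact fun h0 => C.Δ_ne (C.indep (h0.trans (map_zero _).symm))
  have hκ0 : κ ≠ 0 := by
    rintro rfl
    exact hne (map_zero _)
  obtain ⟨Q1, hQ1⟩ : C.ext.pv q ∈ (bregPsi K).range := by
    refine breg_psi_pv C.ext ?_ ?_ q
    · rintro (_ | o)
      · exact breg_psi_X
      · rw [Cover.ext_y_some, hy]
        exact breg_psi_hom _ _
    · rw [Cover.ext_z, hζ]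
      exact breg_psi_hom _ _
  set Q : Polynomial (RatFunc K) := Polynomial.C ((hom e κ)⁻¹ ^ l) *
    Q1.map (algebraMap (Polynomial K) (RatFunc K)) with hQ
  have hGQ : G * RatFunc.X ^ l = algebraMap _ (RatFunc (RatFunc K)) Q := by
    have h2 : (RatFunc.C (hom e κ) : RatFunc (RatFunc K)) ≠ 0 := by simpa using hne
    have h3 : algebraMap _ (RatFunc (RatFunc K))
        (Q1.map (algebraMap (Polynomial K) (RatFunc K))) = C.ext.pv q := hQ1
    rw [hQ, map_mul, h3, ← hq, C.evExt_Δ, hκ, RatFunc.algebraMap_C, map_pow, map_inv₀, mul_pow,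
      inv_pow]
    field_simp
  have hb : IsTranscendenceBasis ℂ C.y := hy ▸ N.Y_basis hX.pos
  obtain ⟨h0, h1⟩ := noPole_coeff hb hh G Q l hGQ H
  have hint : ∀ j, IsIntegral (Algebra.adjoin ℂ (Set.range C.y)) (Q.coeff j) := by
    intro j
    have h2 := h1 j
    rw [hy] at h2 ⊢
    refine N.integral_of_noPole hX hJ _ (Polynomial.C (κ⁻¹ ^ l) * Q1.coeff j) (e * l) ?_ h2
    have h3 : (RatFunc.C κ : RatFunc K) ≠ 0 := by simpa using hκ0
    have h4 : (RatFunc.X : RatFunc K) ≠ 0 := RatFunc.X_ne_zero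
    rw [hQ, Polynomial.coeff_C_mul, Polynomial.coeff_map, map_mul, RatFunc.algebraMap_C, map_pow,
      map_inv₀, hom_apply, mul_inv, mul_pow, inv_pow, inv_pow, pow_mul]
    field_simp
  obtain ⟨M, hM⟩ := breg_expand hGQ h0
  rw [hM]
  refine IsIntegral.sum _ fun i _ => IsIntegral.mul ?_ (IsIntegral.pow ?_ _)
  · refine breg_map (cA (RatFunc K)) ?_ (hint _)
    rintro _ ⟨o, rfl⟩
    exact ⟨some o, rfl⟩
  · exact isIntegral_algebraMap (x := (⟨_, Algebra.subset_adjoin ⟨none, rfl⟩⟩ :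
      Algebra.adjoin ℂ (Set.range C.ext.y)))

end Pool.Agent.MP_c0606f_ag.Klt

end

-- part MP_c0606f_ag.Klt.BAux
section

/-! Leading exponents of power series; asymptotics of dimensions of graded families. -/

namespace Pool.Agent.MP_c0606f_ag.Klt

section Lex

open MvPolynomial

/-- Nonzero series with distinct `lexOrder` are linearly independent. -/
theorem linearIndependent_of_lexOrder {n : ℕ} {ι : Type} (f : ι → MvPowerSeries (Fin n) ℂ)
    (h0 : ∀ i, f i ≠ 0) (h : Function.Injective fun i => (f i).lexOrder) :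
    LinearIndependent ℂ f := by
  classical
  rw [linearIndependent_iff']
  intro s g hg i hi
  by_contra hne
  obtain ⟨j, hj, hmin⟩ := (s.filter fun j => g j ≠ 0).exists_min_image
    (fun j => (f j).lexOrder) ⟨i, Finset.mem_filter.mpr ⟨hi, hne⟩⟩
  rw [Finset.mem_filter] at hj
  obtain ⟨d, hd⟩ := MvPowerSeries.exists_finsupp_eq_lexOrder_of_ne_zero (h0 j)
  have h1 := congrArg (MvPowerSeries.coeff d) hg
  rw [map_sum, Finset.sum_eq_single j, map_zero, map_smul, smul_eq_mul, mul_eq_zero] at h1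
  · rcases h1 with h1 | h1
    · exact hj.2 h1
    · exact MvPowerSeries.coeff_ne_zero_of_lexOrder hd.symm h1
  · intro b hb hbj
    by_cases hgb : g b = 0
    · rw [hgb, zero_smul, map_zero]
    · have h2 := hmin b (Finset.mem_filter.mpr ⟨hb, hgb⟩)
      have h3 : (f j).lexOrder < (f b).lexOrder :=
        lt_of_le_of_ne h2 fun e => hbj (h e).symm
      rw [hd] at h3
      rw [map_smul, MvPowerSeries.coeff_eq_zero_of_lt_lexOrder h3, smul_zero]
  · intro hjs; exact absurd hj.1 hjs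

/-- A finite dimensional space of series has as many leading exponents as its dimension: the set
of leading exponents is finite of size `≤ dim` by the previous lemma, and taking the coefficients
at these exponents is injective on `W`. -/
theorem exists_lexOrder_family {n : ℕ} (W : Submodule ℂ (MvPowerSeries (Fin n) ℂ))
    [Module.Finite ℂ W] : ∃ f : Fin (Module.finrank ℂ W) → MvPowerSeries (Fin n) ℂ,
      (∀ i, f i ∈ W ∧ f i ≠ 0) ∧ Function.Injective fun i => (f i).lexOrder := by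
  classical
  let S := {d : Fin n →₀ ℕ // ∃ f ∈ W, f.lexOrder = ((toLex d : Lex (Fin n →₀ ℕ)) : WithTop _)}
  have he : Nonempty (Fin (Module.finrank ℂ W) ↪ S) := by
    rcases finite_or_infinite S with hS | hS
    · have := Fintype.ofFinite S
      apply Function.Embedding.nonempty_of_card_le
      rw [Fintype.card_fin]
      let L : W →ₗ[ℂ] (S → ℂ) := LinearMap.pi fun d => (MvPowerSeries.coeff d.1).comp W.subtype
      have hL : Function.Injective L := by
        rw [injective_iff_map_eq_zero]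
        intro a ha
        by_contra hne
        have hne' : (a : MvPowerSeries (Fin n) ℂ) ≠ 0 := fun e => hne (Subtype.ext e)
        obtain ⟨d, hd⟩ := MvPowerSeries.exists_finsupp_eq_lexOrder_of_ne_zero hne'
        exact MvPowerSeries.coeff_ne_zero_of_lexOrder hd.symm (congrFun ha ⟨d, a, a.2, hd⟩)
      simpa using LinearMap.finrank_le_finrank_of_injective hL
    · exact ⟨Fin.valEmbedding.trans (Infinite.natEmbedding S)⟩
  obtain ⟨e⟩ := he
  choose g hgW hg using fun d : S => d.2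
  refine ⟨fun i => g (e i), fun i => ⟨hgW _, fun h0 => ?_⟩, fun i j hij => ?_⟩
  · have := hg (e i)
    rw [show g (e i) = 0 from h0, MvPowerSeries.lexOrder_zero] at this
    exact WithTop.top_ne_coe this
  · simp only [hg, WithTop.coe_eq_coe, toLex_inj] at hij
    exact e.injective (Subtype.ext hij)
variable {n : ℕ}

theorem lex_order_unit {u : MvPowerSeries (Fin n) ℂ} (hu : IsUnit u) :
    u.lexOrder = ((toLex 0 : Lex (Fin n →₀ ℕ)) : WithTop _) := by
  apply le_antisymm
  · apply MvPowerSeries.lexOrder_le_of_coeff_ne_zero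
    rw [MvPowerSeries.coeff_zero_eq_constantCoeff_apply]
    exact (MvPowerSeries.isUnit_iff_constantCoeff.mp hu).ne_zero
  · exact bot_le

theorem lex_order_pow {f : MvPowerSeries (Fin n) ℂ} {d : Fin n →₀ ℕ}
    (h : f.lexOrder = ((toLex d : Lex (Fin n →₀ ℕ)) : WithTop _)) (k : ℕ) :
    (f ^ k).lexOrder = ((toLex (k • d) : Lex (Fin n →₀ ℕ)) : WithTop _) := by
  induction k with
  | zero => rw [pow_zero, zero_smul]; exact lex_order_unit isUnit_one
  | succ k ih => rw [pow_succ, MvPowerSeries.lexOrder_mul, ih, h, succ_nsmul, toLex_add, WithTop.coe_add]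

theorem lex_order_monomial (d : Fin n →₀ ℕ) :
    (MvPowerSeries.monomial d (1 : ℂ)).lexOrder = ((toLex d : Lex (Fin n →₀ ℕ)) : WithTop _) := by
  classical
  apply le_antisymm
  · apply MvPowerSeries.lexOrder_le_of_coeff_ne_zero
    simp
  · rw [MvPowerSeries.le_lexOrder_iff]
    intro e he
    rw [MvPowerSeries.coeff_monomial, if_neg]
    rintro rfl
    exact lt_irrefl _ he

end Lex

open scoped ENNReal
open Filter

/-- The volume of a graded family of spaces of dimensions `d m`. -/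
noncomputable def volOf (n : ℕ) (d : ℕ → ℕ) : ℝ≥0∞ :=
  Filter.limsup (fun m : ℕ => (d m : ℝ≥0∞) * (n.factorial : ℝ≥0∞) / (m : ℝ≥0∞) ^ n) Filter.atTop

theorem vol_q_eq (n x : ℕ) {m : ℕ} (hm : 1 ≤ m) :
    (x : ℝ≥0∞) * (n.factorial : ℝ≥0∞) / (m : ℝ≥0∞) ^ n =
      ENNReal.ofReal ((x : ℝ) * (n.factorial : ℝ) / (m : ℝ) ^ n) := by
  have hm' : (0 : ℝ) < m := by exact_mod_cast hm
  rw [ENNReal.ofReal_div_of_pos (pow_pos hm' n), ENNReal.ofReal_mul (Nat.cast_nonneg _),
    ENNReal.ofReal_pow hm'.le]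
  simp

/-- take `m' = k * (m + 2 C)`, `k ≥ 1`, and `le_limsup_of_frequently_le` -/
theorem le_volOf {n C : ℕ} (d : ℕ → ℕ → ℕ)
    (hd : ∀ m l k m', 1 ≤ k → k * m + C * (k + 1) ≤ m' → k ^ n * d m l ≤ d m' (k * l))
    (m l : ℕ) (hm : 1 ≤ m) :
    (d m l : ℝ≥0∞) * (n.factorial : ℝ≥0∞) / ((m + 2 * C : ℕ) : ℝ≥0∞) ^ n ≤
      volOf n fun m' => d m' ⌈(l : ℝ) / ((m + 2 * C : ℕ) : ℝ) * m'⌉₊ := by
  unfold volOf
  refine le_limsup_of_frequently_le' ?_
  rw [frequently_atTop]
  intro a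
  obtain ⟨s, hs⟩ : ∃ s, s = m + 2 * C := ⟨_, rfl⟩
  rw [← hs]
  have hs1 : 1 ≤ s := by omega
  have hs0 : (0 : ℝ) < s := by exact_mod_cast hs1
  refine ⟨(a + 1) * s, by nlinarith, ?_⟩
  have hc : ⌈(l : ℝ) / (s : ℝ) * (((a + 1) * s : ℕ) : ℝ)⌉₊ = (a + 1) * l := by
    have : (l : ℝ) / (s : ℝ) * (((a + 1) * s : ℕ) : ℝ) = (((a + 1) * l : ℕ) : ℝ) := by
      push_cast; field_simp
    rw [this, Nat.ceil_natCast]
  have h := hd m l (a + 1) ((a + 1) * s) (by omega) (by rw [hs]; nlinarith)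
  simp only [hc]
  rw [vol_q_eq n _ hs1, vol_q_eq n _ (by nlinarith : 1 ≤ (a + 1) * s)]
  refine ENNReal.ofReal_le_ofReal ?_
  have h' : ((a + 1 : ℕ) : ℝ) ^ n * d m l ≤ d ((a + 1) * s) ((a + 1) * l) := by exact_mod_cast h
  have ha : (0 : ℝ) < ((a + 1 : ℕ) : ℝ) := by positivity
  rw [Nat.cast_mul, mul_pow, div_le_div_iff₀ (by positivity) (by positivity)]
  have hf : (0 : ℝ) ≤ n.factorial * (s : ℝ) ^ n := by positivity
  nlinarith [mul_le_mul_of_nonneg_right h' hf]

theorem vol_exists_theta (n : ℕ) {α α' : ℝ} (h : α < α') :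
    ∀ᶠ θ : ℝ in nhdsWithin 1 (Set.Ioi 1), α * θ ^ n < α' := by
  have hc : ContinuousAt (fun θ : ℝ => α * θ ^ n) 1 := by fun_prop
  have : ∀ᶠ θ : ℝ in nhds 1, α * θ ^ n < α' := hc.eventually_lt continuousAt_const (by simpa using h)
  exact this.filter_mono nhdsWithin_le_nhds

theorem vol_eventually_lin (C : ℕ) {θ : ℝ} (hθ : 1 < θ) :
    ∀ᶠ m : ℕ in atTop, ((m + C : ℕ) : ℝ) < θ * m := by
  obtain ⟨K, hK⟩ := exists_nat_gt ((C : ℝ) / (θ - 1))
  filter_upwards [eventually_ge_atTop K] with m hm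
  have h1 : (K : ℝ) ≤ m := by exact_mod_cast hm
  rw [div_lt_iff₀ (by linarith)] at hK
  push_cast
  nlinarith

/-- The limsup is a limit up to a shift in `t`: if `a < volOf (d · ⌈t ·⌉)` and `0 ≤ t' < t` (or
`t' = t = 0`) then eventually `a < d m' ⌈t' m'⌉ * n! / m' ^ n`.  Choose a large `m` with
`d m ⌈t m⌉ n! / (m + C) ^ n > a` and `t m > t' (m + C)`; for large `m'` take the largest `k` with
`k (m + C) + C ≤ m'`. -/
theorem eventually_lt_of_lt_volOf {n C : ℕ} (d : ℕ → ℕ → ℕ)
    (hd : ∀ m l k m', 1 ≤ k → k * m + C * (k + 1) ≤ m' → k ^ n * d m l ≤ d m' (k * l))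
    (hanti : ∀ m, Antitone (d m)) {t t' : ℝ} (ht' : 0 ≤ t') (ht : t' < t ∨ (t' = 0 ∧ t = 0))
    {a : ℝ≥0∞} (ha : a < volOf n fun m => d m ⌈t * m⌉₊) :
    ∀ᶠ m : ℕ in atTop, a < (d m ⌈t' * m⌉₊ : ℝ≥0∞) * (n.factorial : ℝ≥0∞) / (m : ℝ≥0∞) ^ n := by
  obtain ⟨a', ha1, ha2⟩ := exists_between ha
  have ha't : a' ≠ ⊤ := ha2.ne_top
  have hat : a ≠ ⊤ := ha1.ne_top
  have hα : a.toReal < a'.toReal := (ENNReal.toReal_lt_toReal hat ha't).mpr ha1
  have h1 := vol_exists_theta n hα
  have h2 : ∀ᶠ θ : ℝ in nhdsWithin 1 (Set.Ioi 1), t' * θ ≤ t := by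
    rcases ht with ht | ⟨h, h'⟩
    · exact (vol_exists_theta 1 ht).mono fun θ hθ => by simpa using hθ.le
    · simp [h, h']
  obtain ⟨θ, ⟨hθ1, hθ2⟩, hθ⟩ := ((h1.and h2).and self_mem_nhdsWithin).exists
  have hθ : 1 < θ := hθ
  have hfr := frequently_lt_of_lt_limsup (h := ha2)
  obtain ⟨m, hm1, hm2, hm3⟩ :=
    (hfr.and_eventually ((vol_eventually_lin C hθ).and (eventually_ge_atTop 1))).exists
  obtain ⟨l, hl⟩ : ∃ l, l = ⌈t * m⌉₊ := ⟨_, rfl⟩
  beta_reduce at hm1
  rw [← hl, vol_q_eq n _ hm3, ENNReal.lt_ofReal_iff_toReal_lt ha't] at hm1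
  have hm0 : (0 : ℝ) < m := by exact_mod_cast hm3
  have htl : t * m ≤ l := by rw [hl]; exact Nat.le_ceil _
  obtain ⟨K, hK⟩ := exists_nat_gt (((m + 2 * C : ℕ) : ℝ) / (θ * m - ((m + C : ℕ) : ℝ)))
  rw [div_lt_iff₀ (by linarith)] at hK
  filter_upwards [eventually_ge_atTop ((K + 1) * (m + C) + C)] with m' hm'
  obtain ⟨k, hk⟩ : ∃ k, k = (m' - C) / (m + C) := ⟨_, rfl⟩
  have hmC : 0 < m + C := by omega
  have hk1 : K + 1 ≤ k := by
    rw [hk, Nat.le_div_iff_mul_le hmC]; omega
  have hk2 : k * (m + C) ≤ m' - C := by rw [hk]; exact Nat.div_mul_le_self _ _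
  have hk3 : m' - C < (k + 1) * (m + C) := by
    rw [hk, ← Nat.div_lt_iff_lt_mul hmC]; omega
  have hC : C ≤ m' := by omega
  have hk4 : k * m + C * (k + 1) ≤ m' := by
    have : k * m + C * (k + 1) = k * (m + C) + C := by ring
    omega
  have hk5 : (m' : ℝ) ≤ θ * (k * m) := by
    have e1 : m' ≤ (k + 1) * (m + C) + C := by omega
    have e2 : (m' : ℝ) ≤ (k + 1) * ((m + C : ℕ) : ℝ) + C := by exact_mod_cast e1
    have e3 : (K : ℝ) ≤ k := by exact_mod_cast (by omega : K ≤ k)
    have e4 : (K : ℝ) * (θ * m - ((m + C : ℕ) : ℝ)) ≤ k * (θ * m - ((m + C : ℕ) : ℝ)) :=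
      mul_le_mul_of_nonneg_right e3 (by linarith)
    push_cast at *
    nlinarith
  have hm'1 : 1 ≤ m' := by nlinarith
  have hm'0 : (0 : ℝ) < m' := by exact_mod_cast hm'1
  have hk0 : (0 : ℝ) < k := by exact_mod_cast (by omega : 0 < k)
  have hceil : ⌈t' * m'⌉₊ ≤ k * l := by
    rw [Nat.ceil_le]
    push_cast
    calc t' * m' ≤ t' * (θ * (k * m)) := mul_le_mul_of_nonneg_left hk5 ht'
      _ = (t' * θ) * (k * m) := by ring
      _ ≤ t * (k * m) := mul_le_mul_of_nonneg_right hθ2 (by positivity)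
      _ = k * (t * m) := by ring
      _ ≤ k * l := mul_le_mul_of_nonneg_left htl hk0.le
  have hge : k ^ n * d m l ≤ d m' ⌈t' * m'⌉₊ := (hd m l k m' (by omega) hk4).trans (hanti m' hceil)
  have hge' : (k : ℝ) ^ n * d m l ≤ d m' ⌈t' * m'⌉₊ := by exact_mod_cast hge
  rw [vol_q_eq n _ hm'1, ENNReal.lt_ofReal_iff_toReal_lt hat, lt_div_iff₀ (by positivity)]
  rw [lt_div_iff₀ (by positivity)] at hm1
  have hf : (0 : ℝ) < n.factorial := by positivity
  calc a.toReal * (m' : ℝ) ^ n ≤ a.toReal * (θ * (k * m)) ^ n :=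
        mul_le_mul_of_nonneg_left (pow_le_pow_left₀ hm'0.le hk5 n) ENNReal.toReal_nonneg
    _ = (a.toReal * θ ^ n) * ((k : ℝ) ^ n * (m : ℝ) ^ n) := by rw [mul_pow, mul_pow]; ring
    _ ≤ a'.toReal * ((k : ℝ) ^ n * (m : ℝ) ^ n) :=
        mul_le_mul_of_nonneg_right hθ1.le (by positivity)
    _ = (k : ℝ) ^ n * (a'.toReal * (m : ℝ) ^ n) := by ring
    _ < (k : ℝ) ^ n * (d m l * n.factorial) := mul_lt_mul_of_pos_left hm1 (by positivity)
    _ = ((k : ℝ) ^ n * d m l) * n.factorial := by ring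
    _ ≤ _ := mul_le_mul_of_nonneg_right hge' hf.le

theorem vol_Ioc_succ (f : ℝ → ℝ≥0∞) {h : ℝ} (hh : 0 < h) (L : ℕ) :
    ∫⁻ t in Set.Ioc (0 : ℝ) ((L + 1 : ℕ) * h), f t =
      (∫⁻ t in Set.Ioc (0 : ℝ) (L * h), f t) + ∫⁻ t in Set.Ioc (L * h) ((L + 1 : ℕ) * h), f t := by
  rw [← MeasureTheory.lintegral_union measurableSet_Ioc (Set.Ioc_disjoint_Ioc_of_le le_rfl),
    Set.Ioc_union_Ioc_eq_Ioc (by positivity) (by push_cast; nlinarith)]

theorem vol_const_Ioc (c : ℝ≥0∞) (h : ℝ) (L : ℕ) :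
    ∫⁻ _ in Set.Ioc (L * h) ((L + 1 : ℕ) * h), c = c * ENNReal.ofReal h := by
  rw [MeasureTheory.setLIntegral_const, Real.volume_Ioc]
  congr 2
  push_cast; ring

theorem vol_sum_le_lintegral (f : ℝ → ℝ≥0∞) {h : ℝ} (hh : 0 < h) (c : ℕ → ℝ≥0∞)
    (hc : ∀ l : ℕ, ∀ t ∈ Set.Ioc (l * h) ((l + 1 : ℕ) * h), c l ≤ f t) (L : ℕ) :
    (∑ l ∈ Finset.range L, c l) * ENNReal.ofReal h ≤ ∫⁻ t in Set.Ioc (0 : ℝ) (L * h), f t := by
  induction L with
  | zero => simp
  | succ L ih =>
    rw [vol_Ioc_succ f hh, Finset.sum_range_succ, add_mul, ← vol_const_Ioc (c L) h L]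
    exact add_le_add ih (MeasureTheory.setLIntegral_mono' measurableSet_Ioc (hc L))

theorem vol_lintegral_le_sum (f : ℝ → ℝ≥0∞) {h : ℝ} (hh : 0 < h) (c : ℕ → ℝ≥0∞)
    (hc : ∀ l : ℕ, ∀ t ∈ Set.Ioc (l * h) ((l + 1 : ℕ) * h), f t ≤ c l) (L : ℕ) :
    ∫⁻ t in Set.Ioc (0 : ℝ) (L * h), f t ≤ (∑ l ∈ Finset.range L, c l) * ENNReal.ofReal h := by
  induction L with
  | zero => simp
  | succ L ih =>
    rw [vol_Ioc_succ f hh, Finset.sum_range_succ, add_mul, ← vol_const_Ioc (c L) h L]
    exact add_le_add ih (MeasureTheory.setLIntegral_mono' measurableSet_Ioc (hc L))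

theorem vol_exists_Ioc (f : ℝ → ℝ≥0∞) {h : ℝ} (hh : 0 < h) {b : ℝ≥0∞}
    (hb : b < ∫⁻ t in Set.Ioi (0 : ℝ), f t) :
    ∃ L : ℕ, b < ∫⁻ t in Set.Ioc (0 : ℝ) (L * h), f t := by
  have e : Set.Ioi (0 : ℝ) = ⋃ L : ℕ, Set.Ioc (0 : ℝ) (L * h) := by
    ext t
    simp only [Set.mem_Ioi, Set.mem_iUnion, Set.mem_Ioc]
    constructor
    · intro ht
      obtain ⟨L, hL⟩ := exists_nat_ge (t / h)
      exact ⟨L, ht, by rwa [div_le_iff₀ hh] at hL⟩
    · rintro ⟨_, ht, -⟩; exact ht
  rw [e, MeasureTheory.setLIntegral_iUnion_of_directed, lt_iSup_iff] at hb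
  · exact hb
  · refine Monotone.directed_le fun i j hij => Set.Ioc_subset_Ioc_right ?_
    exact mul_le_mul_of_nonneg_right (by exact_mod_cast hij) hh.le

theorem vol_q_anti (n : ℕ) (d : ℕ → ℕ → ℕ) (hanti : ∀ m, Antitone (d m)) (m : ℕ) :
    Antitone fun t : ℝ => (d m ⌈t * m⌉₊ : ℝ≥0∞) * (n.factorial : ℝ≥0∞) / (m : ℝ≥0∞) ^ n := by
  intro t t' htt
  have : d m ⌈t' * m⌉₊ ≤ d m ⌈t * m⌉₊ :=
    hanti m (Nat.ceil_mono (mul_le_mul_of_nonneg_right htt (Nat.cast_nonneg m)))
  have h2 : (d m ⌈t' * m⌉₊ : ℝ≥0∞) ≤ d m ⌈t * m⌉₊ := by exact_mod_cast this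
  dsimp only
  gcongr

theorem vol_anti (n : ℕ) (d : ℕ → ℕ → ℕ) (hanti : ∀ m, Antitone (d m)) :
    Antitone fun t : ℝ => volOf n fun m => d m ⌈t * m⌉₊ := by
  intro t t' htt
  exact limsup_le_limsup (Eventually.of_forall fun m => vol_q_anti n d hanti m htt)

theorem vol_pos {n C : ℕ} (N : ℕ → ℕ)
    (hN : ∀ m k m', 1 ≤ k → k * m + C * (k + 1) ≤ m' → k ^ n * N m ≤ N m')
    (hpos : ∃ m, 1 ≤ m ∧ 0 < N m) : 0 < volOf n N := by
  obtain ⟨m, hm, hNm⟩ := hpos
  have h := le_volOf (n := n) (C := C) (fun m _ => N m) (fun m _ k m' => hN m k m') m 0 hm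
  refine lt_of_lt_of_le ?_ h
  rw [vol_q_eq n _ (by omega : 1 ≤ m + 2 * C), ENNReal.ofReal_pos]
  have : (0 : ℝ) < ((m + 2 * C : ℕ) : ℝ) := by exact_mod_cast (by omega : 0 < m + 2 * C)
  have : (0 : ℝ) < N m := by exact_mod_cast hNm
  positivity

theorem vol_ne_top {n C : ℕ} (N : ℕ → ℕ) (hgrow : ∀ m, N m ≤ C * (m + 1) ^ n) :
    volOf n N ≠ ⊤ := by
  have : volOf n N ≤ ENNReal.ofReal (C * 2 ^ n * n.factorial) := by
    refine limsup_le_of_le (h := ?_)
    filter_upwards [eventually_ge_atTop 1] with m hm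
    rw [vol_q_eq n _ hm]
    refine ENNReal.ofReal_le_ofReal ?_
    have hm1 : (1 : ℝ) ≤ m := by exact_mod_cast hm
    have h1 : (N m : ℝ) ≤ C * ((m : ℝ) + 1) ^ n := by exact_mod_cast hgrow m
    have h2 : ((m : ℝ) + 1) ^ n ≤ (2 * m) ^ n := pow_le_pow_left₀ (by positivity) (by linarith) n
    rw [div_le_iff₀ (by positivity)]
    calc (N m : ℝ) * n.factorial ≤ (C * (2 * m) ^ n) * n.factorial := by
          refine mul_le_mul_of_nonneg_right (h1.trans ?_) (by positivity)
          exact mul_le_mul_of_nonneg_left h2 (by positivity)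
      _ = _ := by rw [mul_pow]; ring
  exact ne_top_of_le_ne_top ENNReal.ofReal_ne_top this

/-- Uniform upper bound.  `V = volOf n N` is positive (`le_volOf` for the family constant in `l`)
and finite (growth).  `∑ l < L, d m (l + 1) ≤ (m + 2C) ^ n / n! * ∑ vol ((l + 1) / (m + 2C))
≤ (m + 2C) ^ (n + 1) / n! * ∫ vol` because `vol` is antitone in `t` (compare with the integral over
`Ioc (l / (m + 2C)) ((l + 1) / (m + 2C))`), and eventually `N m ≥ (1 - ε') V m ^ n / n!`. -/
theorem vol_upper (n C : ℕ) (N : ℕ → ℕ)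
    (hN : ∀ m k m', 1 ≤ k → k * m + C * (k + 1) ≤ m' → k ^ n * N m ≤ N m')
    (hgrow : ∀ m, N m ≤ C * (m + 1) ^ n) (hpos : ∃ m, 1 ≤ m ∧ 0 < N m) (ε : ℝ) (hε : 0 < ε) :
    ∀ᶠ m : ℕ in atTop, ∀ d : ℕ → ℕ → ℕ,
      (∀ m l k m', 1 ≤ k → k * m + C * (k + 1) ≤ m' → k ^ n * d m l ≤ d m' (k * l)) →
      (∀ m, Antitone (d m)) → ∀ L : ℕ,
      ((∑ l ∈ Finset.range L, d m (l + 1) : ℕ) : ℝ≥0∞) ≤ ENNReal.ofReal ((1 + ε) * m * N m) *
        ((∫⁻ t in Set.Ioi (0 : ℝ), volOf n fun m => d m ⌈t * m⌉₊) / volOf n N) := by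
  have hV0 := vol_pos N hN hpos
  have hVt := vol_ne_top N hgrow
  obtain ⟨v, hv⟩ : ∃ v, v = (volOf n N).toReal := ⟨_, rfl⟩
  have hv0 : 0 < v := by rw [hv]; exact ENNReal.toReal_pos hV0.ne' hVt
  have hVv : volOf n N = ENNReal.ofReal v := by rw [hv, ENNReal.ofReal_toReal hVt]
  obtain ⟨a, ha1, ha2⟩ : ∃ a, v / (1 + ε) < a ∧ a < v :=
    exists_between (by rw [div_lt_iff₀ (by linarith)]; nlinarith)
  have ha0 : 0 < a := lt_trans (by positivity) ha1
  rw [div_lt_iff₀ (by linarith)] at ha1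
  obtain ⟨θ, hθ1, hθ⟩ := ((vol_exists_theta (n + 1) ha1).and self_mem_nhdsWithin).exists
  have hθ : 1 < θ := hθ
  have hev := eventually_lt_of_lt_volOf (n := n) (C := C) (fun m _ => N m)
    (fun m _ k m' => hN m k m') (fun _ => antitone_const) (t := 0) (t' := 0) le_rfl
    (Or.inr ⟨rfl, rfl⟩) (a := ENNReal.ofReal a)
    (by
      change _ < volOf n N
      rw [hVv]; exact (ENNReal.ofReal_lt_ofReal_iff hv0).mpr ha2)
  filter_upwards [hev, vol_eventually_lin (2 * C) hθ, eventually_ge_atTop 1] with m hm1 hm2 hm3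
  intro d hd hanti L
  obtain ⟨s, hs⟩ : ∃ s, s = m + 2 * C := ⟨_, rfl⟩
  have hs1 : 1 ≤ s := by omega
  have hs0 : (0 : ℝ) < s := by exact_mod_cast hs1
  have hm0 : (0 : ℝ) < m := by exact_mod_cast hm3
  rw [← hs] at hm2
  rw [vol_q_eq n _ hm3, ENNReal.ofReal_lt_ofReal_iff_of_nonneg ha0.le,
    lt_div_iff₀ (by positivity)] at hm1
  have key := vol_sum_le_lintegral (fun t : ℝ => volOf n fun m => d m ⌈t * m⌉₊)
    (h := 1 / (s : ℝ)) (by positivity)
    (fun l => (d m (l + 1) : ℝ≥0∞) * (n.factorial : ℝ≥0∞) / (s : ℝ≥0∞) ^ n)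
    (fun l t ht => by
      have h1 := le_volOf d hd m (l + 1) hm3
      rw [← hs] at h1
      refine h1.trans (vol_anti n d hanti ?_)
      simpa [div_eq_mul_inv] using ht.2) L
  have key2 := key.trans (MeasureTheory.lintegral_mono_set Set.Ioc_subset_Ioi_self)
  obtain ⟨I, hI⟩ : ∃ I, I = ∫⁻ t in Set.Ioi (0 : ℝ), volOf n fun m => d m ⌈t * m⌉₊ := ⟨_, rfl⟩
  rw [← hI] at key2 ⊢
  obtain ⟨S, hS⟩ : ∃ S, S = ∑ l ∈ Finset.range L, d m (l + 1) := ⟨_, rfl⟩
  have e : (∑ l ∈ Finset.range L,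
      (d m (l + 1) : ℝ≥0∞) * (n.factorial : ℝ≥0∞) / (s : ℝ≥0∞) ^ n) =
      (S : ℝ≥0∞) * (n.factorial : ℝ≥0∞) / (s : ℝ≥0∞) ^ n := by
    rw [hS]
    simp only [div_eq_mul_inv, Nat.cast_sum, Finset.sum_mul]
  rw [e, vol_q_eq n _ hs1, ← ENNReal.ofReal_mul (by positivity)] at key2
  rw [← hS, hVv]
  have hf : (0 : ℝ) < n.factorial := by positivity
  have hreal : (S : ℝ) ≤ ((1 + ε) * m * N m) *
      (((S : ℝ) * n.factorial / (s : ℝ) ^ n * (1 / (s : ℝ))) / v) := by
    have h1 : v * (s : ℝ) ^ (n + 1) ≤ (1 + ε) * m * N m * n.factorial := by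
      calc v * (s : ℝ) ^ (n + 1) ≤ v * (θ * m) ^ (n + 1) :=
            mul_le_mul_of_nonneg_left (pow_le_pow_left₀ hs0.le hm2.le _) hv0.le
        _ = (v * θ ^ (n + 1)) * (m : ℝ) ^ (n + 1) := by rw [mul_pow]; ring
        _ ≤ (a * (1 + ε)) * (m : ℝ) ^ (n + 1) := mul_le_mul_of_nonneg_right hθ1.le (by positivity)
        _ = (1 + ε) * m * (a * (m : ℝ) ^ n) := by ring
        _ ≤ (1 + ε) * m * (N m * n.factorial) := mul_le_mul_of_nonneg_left hm1.le (by positivity)
        _ = _ := by ring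
    have e2 : ((1 + ε) * m * N m) * (((S : ℝ) * n.factorial / (s : ℝ) ^ n * (1 / (s : ℝ))) / v) =
        S * (((1 + ε) * m * N m * n.factorial) / (v * (s : ℝ) ^ (n + 1))) := by
      rw [pow_succ]; field_simp
    rw [e2]
    refine le_mul_of_one_le_right (by positivity) ?_
    rw [one_le_div (by positivity)]
    exact h1
  calc (S : ℝ≥0∞) = ENNReal.ofReal S := by simp
    _ ≤ _ := ENNReal.ofReal_le_ofReal hreal
    _ = ENNReal.ofReal ((1 + ε) * m * N m) *
        (ENNReal.ofReal ((S : ℝ) * n.factorial / (s : ℝ) ^ n * (1 / (s : ℝ))) /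
          ENNReal.ofReal v) := by
        rw [ENNReal.ofReal_mul (by positivity), ENNReal.ofReal_div_of_pos hv0]
    _ ≤ _ := by gcongr

/-- Lower bound.  By Fatou (`lintegral_liminf_le`) or by a finite Riemann sum:
`∑ l, d m (l + 1) = m * ∫ t > 0, d m ⌈t m⌉`, `liminf d m ⌈t m⌉ n! / m ^ n ≥ vol (θ t)` for `θ > 1`
(`eventually_lt_of_lt_volOf`), `∫ vol (θ t) = θ⁻¹ ∫ vol`, and eventually
`N m ≤ (1 + ε') V m ^ n / n!` (`eventually_lt_of_limsup_lt`), `0 < V < ∞`. -/
theorem vol_lower (n C : ℕ) (d : ℕ → ℕ → ℕ)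
    (hd : ∀ m l k m', 1 ≤ k → k * m + C * (k + 1) ≤ m' → k ^ n * d m l ≤ d m' (k * l))
    (hanti : ∀ m, Antitone (d m)) (hgrow : ∀ m, d m 0 ≤ C * (m + 1) ^ n)
    (hpos : ∃ m, 1 ≤ m ∧ 0 < d m 0) (σ : ℝ)
    (hσ : ENNReal.ofReal σ <
      (∫⁻ t in Set.Ioi (0 : ℝ), volOf n fun m => d m ⌈t * m⌉₊) / volOf n fun m => d m 0) :
    ∀ᶠ m : ℕ in atTop, ∃ L : ℕ, σ * m * d m 0 ≤ ((∑ l ∈ Finset.range L, d m (l + 1) : ℕ) : ℝ) := by
  rcases le_or_gt σ 0 with hσ0 | hσ0
  · refine Eventually.of_forall fun m => ⟨0, ?_⟩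
    simp only [Finset.range_zero, Finset.sum_empty, Nat.cast_zero]
    exact mul_nonpos_of_nonpos_of_nonneg
      (mul_nonpos_of_nonpos_of_nonneg hσ0 (Nat.cast_nonneg _)) (Nat.cast_nonneg _)
  have hV0 := vol_pos (n := n) (C := C) (fun m => d m 0)
    (fun m k m' h1 h2 => by simpa using hd m 0 k m' h1 h2) hpos
  have hVt := vol_ne_top (fun m => d m 0) hgrow
  obtain ⟨v, hv⟩ : ∃ v, v = (volOf n fun m => d m 0).toReal := ⟨_, rfl⟩
  have hv0 : 0 < v := by rw [hv]; exact ENNReal.toReal_pos hV0.ne' hVt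
  have hVv : (volOf n fun m => d m 0) = ENNReal.ofReal v := by rw [hv, ENNReal.ofReal_toReal hVt]
  rw [ENNReal.lt_div_iff_mul_lt (Or.inl hV0.ne') (Or.inl hVt), hVv,
    ← ENNReal.ofReal_mul hσ0.le] at hσ
  obtain ⟨b, hb1, hb2⟩ := exists_between hσ
  have hbt : b ≠ ⊤ := hb2.ne_top
  have hβ : σ * v < b.toReal := (ENNReal.ofReal_lt_iff_lt_toReal (by positivity) hbt).mp hb1
  have hβ' : v < b.toReal / σ := by rw [lt_div_iff₀ hσ0]; linarith
  have hup : ∀ᶠ m : ℕ in atTop, (d m 0 : ℝ≥0∞) * (n.factorial : ℝ≥0∞) / (m : ℝ≥0∞) ^ n <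
      ENNReal.ofReal (b.toReal / σ) := by
    refine eventually_lt_of_limsup_lt ?_
    change (volOf n fun m => d m 0) < _
    rw [hVv]
    exact (ENNReal.ofReal_lt_ofReal_iff (by linarith)).mpr hβ'
  have hfat := MeasureTheory.lintegral_liminf_le
    (μ := MeasureTheory.volume.restrict (Set.Ioi (0 : ℝ))) (u := atTop)
    (f := fun (m : ℕ) (t : ℝ) => (d m ⌈t * m⌉₊ : ℝ≥0∞) * (n.factorial : ℝ≥0∞) / (m : ℝ≥0∞) ^ n)
    (fun m => (vol_q_anti n d hanti m).measurable)
  have hae : (∫⁻ t in Set.Ioi (0 : ℝ), volOf n fun m => d m ⌈t * m⌉₊) ≤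
      ∫⁻ t in Set.Ioi (0 : ℝ), liminf (fun m : ℕ =>
        (d m ⌈t * m⌉₊ : ℝ≥0∞) * (n.factorial : ℝ≥0∞) / (m : ℝ≥0∞) ^ n) atTop := by
    refine MeasureTheory.lintegral_mono_ae ?_
    rw [MeasureTheory.ae_restrict_iff' measurableSet_Ioi]
    filter_upwards [(vol_anti n d hanti).countable_not_continuousAt.ae_notMem
      MeasureTheory.volume] with t hct ht
    have hct : ContinuousAt (fun t : ℝ => volOf n fun m => d m ⌈t * m⌉₊) t := by
      simpa using hct
    rw [le_liminf_iff]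
    intro y hy
    have h1 : ∀ᶠ u : ℝ in nhdsWithin t (Set.Ioi t), y < volOf n fun m => d m ⌈u * m⌉₊ :=
      (continuousAt_const.eventually_lt hct hy).filter_mono nhdsWithin_le_nhds
    obtain ⟨u, hu1, hu2⟩ := (h1.and self_mem_nhdsWithin).exists
    exact eventually_lt_of_lt_volOf d hd hanti (le_of_lt ht) (Or.inl hu2) hu1
  have hlow := eventually_lt_of_lt_liminf (hb2.trans_le (hae.trans hfat))
  filter_upwards [hup, hlow, eventually_ge_atTop 1] with m hm1 hm2 hm3
  have hm0 : (0 : ℝ) < m := by exact_mod_cast hm3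
  obtain ⟨L, hL⟩ := vol_exists_Ioc _ (h := 1 / (m : ℝ)) (by positivity) hm2
  refine ⟨L, ?_⟩
  have key := hL.trans_le (vol_lintegral_le_sum _ (h := 1 / (m : ℝ)) (by positivity)
    (fun l => (d m (l + 1) : ℝ≥0∞) * (n.factorial : ℝ≥0∞) / (m : ℝ≥0∞) ^ n)
    (fun l t ht => by
      have h1 : l + 1 ≤ ⌈t * m⌉₊ := by
        rw [Nat.add_one_le_ceil_iff]
        have := ht.1
        rwa [mul_one_div, div_lt_iff₀ hm0] at this
      have h2 : (d m ⌈t * m⌉₊ : ℝ≥0∞) ≤ d m (l + 1) := by exact_mod_cast hanti m h1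
      gcongr) L)
  obtain ⟨S, hS⟩ : ∃ S, S = ∑ l ∈ Finset.range L, d m (l + 1) := ⟨_, rfl⟩
  have e : (∑ l ∈ Finset.range L,
      (d m (l + 1) : ℝ≥0∞) * (n.factorial : ℝ≥0∞) / (m : ℝ≥0∞) ^ n) =
      (S : ℝ≥0∞) * (n.factorial : ℝ≥0∞) / (m : ℝ≥0∞) ^ n := by
    rw [hS]
    simp only [div_eq_mul_inv, Nat.cast_sum, Finset.sum_mul]
  rw [e, vol_q_eq n _ hm3, ← ENNReal.ofReal_mul (by positivity),
    ENNReal.lt_ofReal_iff_toReal_lt hbt] at key
  rw [vol_q_eq n _ hm3, ENNReal.ofReal_lt_ofReal_iff (by linarith), lt_div_iff₀ hσ0] at hm1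
  rw [← hS]
  have h3 := hm1.trans key
  have hf : (0 : ℝ) < n.factorial := by positivity
  have e1 : (d m 0 : ℝ) * n.factorial / (m : ℝ) ^ n * σ =
      (σ * m * d m 0) * (n.factorial / (m : ℝ) ^ (n + 1)) := by rw [pow_succ]; field_simp
  have e2 : (S : ℝ) * n.factorial / (m : ℝ) ^ n * (1 / (m : ℝ)) =
      S * (n.factorial / (m : ℝ) ^ (n + 1)) := by rw [pow_succ]; field_simp
  rw [e1, e2] at h3
  exact (lt_of_mul_lt_mul_right h3 (by positivity)).le

/-- counting jumps: the vectors with `l + 1 ≤ o s` are independent elements of `W (l + 1)` -/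
theorem sum_le_sum_finrank {V : Type} [AddCommGroup V] [Module ℂ V] (W : ℕ → Submodule ℂ V)
    (hW : Antitone W) [∀ l, Module.Finite ℂ (W l)] {N : ℕ} (f : Fin N → V)
    (hf : LinearIndependent ℂ f) (o : Fin N → ℕ) (ho : ∀ s, f s ∈ W (o s)) :
    ∃ L : ℕ, ∑ s, o s ≤ ∑ l ∈ Finset.range L, Module.finrank ℂ (W (l + 1)) := by
  refine ⟨∑ s, o s, ?_⟩
  obtain ⟨L, hL⟩ : ∃ L, L = ∑ s, o s := ⟨_, rfl⟩
  have hle : ∀ s, o s ≤ L := fun s => by
    rw [hL]; exact Finset.single_le_sum (fun _ _ => Nat.zero_le _) (Finset.mem_univ s)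
  have h1 : ∀ s, o s = ∑ l ∈ Finset.range L, if l + 1 ≤ o s then 1 else 0 := by
    intro s
    rw [← Finset.card_filter]
    have : (Finset.range L).filter (fun l => l + 1 ≤ o s) = Finset.range (o s) := by
      ext l
      have := hle s
      simp only [Finset.mem_filter, Finset.mem_range]
      omega
    rw [this, Finset.card_range]
  conv_rhs => rw [← hL]
  rw [Finset.sum_congr rfl fun s _ => h1 s, Finset.sum_comm]
  refine Finset.sum_le_sum fun l _ => ?_
  rw [← Finset.card_filter, ← Fintype.card_subtype]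
  have hli : LinearIndependent ℂ
      (fun s : {s // l + 1 ≤ o s} => (⟨f s.1, hW s.2 (ho s.1)⟩ : W (l + 1))) :=
    LinearIndependent.of_comp (W (l + 1)).subtype (hf.comp Subtype.val Subtype.val_injective)
  exact hli.fintype_card_le_finrank

theorem vol_adapted_finset {V : Type} [AddCommGroup V] [Module ℂ V] (L : ℕ) :
    ∀ (W : ℕ → Submodule ℂ V) (_ : Antitone W) [Module.Finite ℂ (W 0)],
    ∃ (s : Finset V) (o : V → ℕ), LinearIndepOn ℂ id (s : Set V) ∧
      s.card = Module.finrank ℂ (W 0) ∧ (∀ v ∈ s, v ∈ W (o v)) ∧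
      ∑ l ∈ Finset.range L, Module.finrank ℂ (W (l + 1)) ≤ ∑ v ∈ s, o v := by
  have ext : ∀ (U : Submodule ℂ V) [Module.Finite ℂ U] (s : Set V), LinearIndepOn ℂ id s →
      s ⊆ U → ∃ b : Finset V, s ⊆ b ∧ (b : Set V) ⊆ U ∧ LinearIndepOn ℂ id (b : Set V) ∧
        b.card = Module.finrank ℂ U := by
    intro U _ s hs hsU
    have hsp : Submodule.span ℂ (hs.extend hsU) = U := by
      rw [hs.span_extend_eq_span hsU, Submodule.span_eq]
    have hli := hs.linearIndepOn_extend hsU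
    have hfin : (hs.extend hsU).Finite := by
      have : LinearIndependent ℂ
          (fun x : hs.extend hsU => (⟨x.1, hs.extend_subset hsU x.2⟩ : U)) :=
        LinearIndependent.of_comp U.subtype hli
      exact Set.finite_coe_iff.mp this.finite
    refine ⟨hfin.toFinset, by simpa using hs.subset_extend hsU,
      by simpa using hs.extend_subset hsU, by simpa using hli, ?_⟩
    rw [← finrank_span_finset_eq_card (R := ℂ) (by simpa using hli)]
    rw [hfin.coe_toFinset, hsp]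
  classical
  induction L with
  | zero =>
    intro W _ _
    obtain ⟨b, -, hb1, hb2, hb3⟩ := ext (W 0) ∅ (linearIndepOn_empty ℂ id) (Set.empty_subset _)
    exact ⟨b, fun _ => 0, hb2, hb3, fun v hv => hb1 hv, by simp⟩
  | succ L ih =>
    intro W hW _
    have : Module.Finite ℂ (W (0 + 1)) := Submodule.finiteDimensional_of_le (hW (Nat.zero_le _))
    obtain ⟨s, o, hs1, hs2, hs3, hs4⟩ :=
      ih (fun l => W (l + 1)) fun _ _ h => hW (Nat.add_le_add_right h 1)
    obtain ⟨b, hb0, hb1, hb2, hb3⟩ := ext (W 0) s hs1 fun v hv => hW (Nat.zero_le _) (hs3 v hv)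
    refine ⟨b, fun v => if v ∈ s then o v + 1 else 0, hb2, hb3, fun v hv => ?_, ?_⟩
    · dsimp only
      split_ifs with h
      · exact hs3 v h
      · exact hb1 hv
    · rw [Finset.sum_range_succ', Finset.sum_ite_mem,
        Finset.inter_eq_right.mpr (Finset.coe_subset.mp hb0), Finset.sum_add_distrib,
        Finset.sum_const, smul_eq_mul, mul_one, hs2]
      exact Nat.add_le_add_right hs4 _

/-- a basis adapted to a filtration (induction on `L` generalizing `W`: apply the hypothesis to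
`fun l => W (l + 1)` and extend the basis of `W 1` to `W 0`; or choose a basis maximising
`∑ o`) -/
theorem exists_adapted {V : Type} [AddCommGroup V] [Module ℂ V] (W : ℕ → Submodule ℂ V)
    (hW : Antitone W) [Module.Finite ℂ (W 0)] (L : ℕ) :
    ∃ (f : Fin (Module.finrank ℂ (W 0)) → V) (o : Fin (Module.finrank ℂ (W 0)) → ℕ),
      LinearIndependent ℂ f ∧ (∀ s, f s ∈ W (o s)) ∧
      ∑ l ∈ Finset.range L, Module.finrank ℂ (W (l + 1)) ≤ ∑ s, o s := by
  obtain ⟨s, o, hs1, hs2, hs3, hs4⟩ := vol_adapted_finset L W hW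
  let e := (s.equivFinOfCardEq hs2).symm
  refine ⟨fun i => (e i).1, fun i => o (e i).1, ?_, fun i => hs3 _ (e i).2, ?_⟩
  · exact LinearIndependent.comp (v := fun x : s => (x : V)) hs1 e e.injective
  · rw [Equiv.sum_comp e fun x : s => o x.1, Finset.sum_coe_sort s o]
    exact hs4

end Pool.Agent.MP_c0606f_ag.Klt

end
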