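import Pool.Agent.MP_c0606f_ag.Klt.Base
import Pool.Agent.MP_95b452_co.Field

-- part MP_c0606f_ag.Klt.Ext
section

/-! Extension and conjugacy of valuations. -/

namespace Pool.Agent.MP_c0606f_ag.Klt

open scoped NNReal

variable {F L : Type} [Field F] [Field L] [Algebra F L]

/-- In `∑ c i * a ^ i = 0` (minimal polynomial) the maximal value is attained twice
(`Valuation.map_sum_eq_of_lt` or a direct argument). -/
theorem exists_pow_val {Γ : Type} [LinearOrderedCommGroupWithZero Γ] (v : Valuation L Γ) {a : L}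
    (h0 : a ≠ 0) (ha : IsAlgebraic F a) :
    ∃ (N : ℕ) (b : F), 0 < N ∧ N ≤ (minpoly F a).natDegree ∧ b ≠ 0 ∧
      v a ^ N = v (algebraMap F L b) := by
  classical
  have hp0 : minpoly F a ≠ 0 := minpoly.ne_zero ha.isIntegral
  have hsum : ∑ i ∈ (minpoly F a).support, algebraMap F L ((minpoly F a).coeff i) * a ^ i = 0 := by
    have := minpoly.aeval F a
    rwa [Polynomial.aeval_def, Polynomial.eval₂_eq_sum, Polynomial.sum] at this
  have hne : ∀ i ∈ (minpoly F a).support, v (algebraMap F L ((minpoly F a).coeff i)) ≠ 0 := by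
    intro i hi
    simpa using hi
  have hva : v a ≠ 0 := by simpa using h0
  obtain ⟨j, hj, hmax⟩ := (minpoly F a).support.exists_max_image
    (fun i => v (algebraMap F L ((minpoly F a).coeff i) * a ^ i))
    (Polynomial.support_nonempty.mpr hp0)
  have key : ∀ i ∈ (minpoly F a).support, ∀ l ∈ (minpoly F a).support, i < l →
      v (algebraMap F L ((minpoly F a).coeff i) * a ^ i) =
        v (algebraMap F L ((minpoly F a).coeff l) * a ^ l) →
      ∃ (N : ℕ) (b : F), 0 < N ∧ N ≤ (minpoly F a).natDegree ∧ b ≠ 0 ∧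
        v a ^ N = v (algebraMap F L b) := by
    intro i hi l hl hil he
    obtain ⟨N, rfl⟩ := Nat.exists_eq_add_of_le hil.le
    refine ⟨N, (minpoly F a).coeff i / (minpoly F a).coeff (i + N), by omega,
      le_trans (by omega) (Polynomial.le_natDegree_of_mem_supp _ hl),
      div_ne_zero (Polynomial.mem_support_iff.mp hi) (Polynomial.mem_support_iff.mp hl), ?_⟩
    rw [map_div₀, map_div₀, eq_div_iff (hne _ hl)]
    rw [map_mul, map_mul, map_pow, map_pow, pow_add] at he
    apply mul_right_cancel₀ (pow_ne_zero i hva)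
    rw [he]
    ac_rfl
  by_contra hcon
  have := v.map_sum_eq_of_lt (f := fun i => algebraMap F L ((minpoly F a).coeff i) * a ^ i) hj
    fun i hi => by
      rw [Finset.mem_sdiff, Finset.mem_singleton] at hi
      refine lt_of_le_of_ne (hmax i hi.1) fun he => hcon ?_
      rcases lt_or_gt_of_ne hi.2 with h' | h'
      · exact key i hi.1 j hj h' he
      · exact key j hj i hi.1 h' he.symm
  rw [hsum, map_zero, map_mul, map_pow] at this
  exact mul_ne_zero (hne j hj) (pow_ne_zero _ hva) this.symm

theorem ext_integral_of {O : Subring F} {x : L}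
    (h : ∀ V : ValuationSubring L, (∀ c ∈ O, algebraMap F L c ∈ V) → x ∈ V) : IsIntegral O x := by
  by_contra hx
  obtain ⟨V, hV, hxV⟩ := Subring.exists_le_valuationSubring_of_isIntegrallyClosedIn
    (R := (integralClosure O L).toSubring) (x := x) hx
  exact hxV (h V fun c hc => hV ((integralClosure O L).algebraMap_mem ⟨c, hc⟩))

/-- Valuation rings are localisations of the integral closure.  Scale an equation of `a` so that
the coefficients `c i` are integral and one is a unit; let `j` be the largest index of a unit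
coefficient; `c = ∑ i ≥ j, c i * a ^ (i - j)` is a unit, and `c`, `a * c` are integral: a Horner
sum lies in every valuation subring containing the coefficients (consider `a` or `a⁻¹`), and the
integral closure is the intersection of those
(`Subring.exists_le_valuationSubring_of_isIntegrallyClosedIn`, `iInf_valuationSubring_superset`). -/
theorem exists_div_integral (v : Val L) {a : L} (ha : IsAlgebraic F a) (h1 : v a ≤ 1) :
    ∃ b c : L, IsIntegral (v.comap (algebraMap F L)).integer b ∧
      IsIntegral (v.comap (algebraMap F L)).integer c ∧ v c = 1 ∧ a * c = b := by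
  classical
  obtain ⟨p, hp0, hp⟩ := ha
  obtain ⟨i0, hi0, hmax⟩ := p.support.exists_max_image (fun i => v (algebraMap F L (p.coeff i)))
    (Polynomial.support_nonempty.mpr hp0)
  have hc0 : v (algebraMap F L (p.coeff i0)) ≠ 0 := by simpa using hi0
  set c : ℕ → F := fun i => p.coeff i / p.coeff i0 with hc
  have hle : ∀ i, v (algebraMap F L (c i)) ≤ 1 := by
    intro i
    simp only [hc, map_div₀]
    refine div_le_one_of_le₀ ?_ zero_le
    by_cases hi : i ∈ p.support
    · exact hmax i hi
    · simp [Polynomial.notMem_support_iff.mp hi]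
  have hsum : ∑ i ∈ Finset.range (p.natDegree + 1), algebraMap F L (c i) * a ^ i = 0 := by
    rw [Polynomial.aeval_eq_sum_range] at hp
    simp only [hc, map_div₀, div_mul_eq_mul_div, ← Finset.sum_div, ← Algebra.smul_def, hp, zero_div]
  obtain ⟨j, hj, hjmax⟩ := ((Finset.range (p.natDegree + 1)).filter
    fun i => v (algebraMap F L (c i)) = 1).exists_max_image id
    ⟨i0, Finset.mem_filter.mpr ⟨Finset.mem_range.mpr
      (Nat.lt_succ_of_le (Polynomial.le_natDegree_of_mem_supp _ hi0)), by
        simp only [hc, map_div₀]; exact div_self hc0⟩⟩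
  rw [Finset.mem_filter, Finset.mem_range] at hj
  set H := ∑ i ∈ Finset.Ico j (p.natDegree + 1), algebraMap F L (c i) * a ^ (i - j) with hH
  have hvH : v H = 1 := by
    have := v.map_sum_eq_of_lt (s := Finset.Ico j (p.natDegree + 1)) (j := j)
      (f := fun i => algebraMap F L (c i) * a ^ (i - j)) (Finset.mem_Ico.mpr ⟨le_rfl, hj.1⟩)
      fun i hi => by
        rw [Finset.mem_sdiff, Finset.mem_singleton, Finset.mem_Ico] at hi
        have h2 : v (algebraMap F L (c i)) < 1 := lt_of_le_of_ne (hle i) fun e =>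
          hi.2 (le_antisymm (hjmax i (Finset.mem_filter.mpr ⟨Finset.mem_range.mpr hi.1.2, e⟩))
            hi.1.1)
        simp only [Nat.sub_self, pow_zero, mul_one, hj.2, map_mul, map_pow]
        exact mul_lt_one_of_lt_of_le h2 (pow_le_one₀ zero_le h1)
    rw [hH, this, Nat.sub_self, pow_zero, mul_one, hj.2]
  have hrel : a ^ j * H = -∑ i ∈ Finset.range j, algebraMap F L (c i) * a ^ i := by
    rw [eq_neg_iff_add_eq_zero, ← hsum, ← Finset.sum_range_add_sum_Ico _ hj.1.le, add_comm, hH,
      Finset.mul_sum]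
    congr 1
    refine Finset.sum_congr rfl fun i hi => ?_
    rw [mul_left_comm, ← pow_add, Nat.add_sub_cancel' (Finset.mem_Ico.mp hi).1]
  have hmem : ∀ V : ValuationSubring L,
      (∀ x ∈ (v.comap (algebraMap F L)).integer, algebraMap F L x ∈ V) → H ∈ V ∧ a * H ∈ V := by
    intro V hV
    have hcV : ∀ i, algebraMap F L (c i) ∈ V := fun i => hV _ (hle i)
    by_cases haV : a ∈ V
    · have : H ∈ V := sum_mem fun i _ => mul_mem (hcV i) (pow_mem haV _)
      exact ⟨this, mul_mem haV this⟩
    · have ha0 : a ≠ 0 := fun e => haV (e ▸ zero_mem V)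
      have hai : a⁻¹ ∈ V := (V.mem_or_inv_mem a).resolve_left haV
      have h2 : a * H = -∑ i ∈ Finset.range j, algebraMap F L (c i) * a⁻¹ ^ (j - 1 - i) := by
        apply mul_left_cancel₀ (pow_ne_zero j ha0)
        rw [mul_left_comm, hrel, mul_neg, mul_neg, Finset.mul_sum, Finset.mul_sum]
        congr 1
        refine Finset.sum_congr rfl fun i hi => ?_
        obtain ⟨k, rfl⟩ := Nat.exists_eq_add_of_lt (Finset.mem_range.mp hi)
        rw [show i + k + 1 - 1 - i = k by omega, inv_pow]
        field_simp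
        ring
      have h3 : a * H ∈ V := h2 ▸ neg_mem (sum_mem fun i _ => mul_mem (hcV i) (pow_mem hai _))
      refine ⟨?_, h3⟩
      have := mul_mem hai h3
      rwa [inv_mul_cancel_left₀ ha0] at this
  exact ⟨a * H, H, ext_integral_of fun V hV => (hmem V hV).2,
    ext_integral_of fun V hV => (hmem V hV).1, hvH, rfl⟩

/-- Let `O` be a valuation subring of `L` dominating the image of the valuation ring of `v0`
(`LocalSubring.exists_le_valuationSubring`); its valuation restricted to `F` is equivalent to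
`v0`.  Put `v a = v0 b ^ (1 / N)` with `N, b` from `exists_pow_val` for `O.valuation`; then
`v a ≤ v a' ↔ O.valuation a ≤ O.valuation a'`. -/
theorem exists_extend [Algebra.IsAlgebraic F L] (v0 : Val F) :
    ∃ v : Val L, ∀ a, v (algebraMap F L a) = v0 a := by
  obtain ⟨A, hA, hloc⟩ := IsLocalRing.exists_factor_valuationRing
    ((algebraMap F L).comp v0.valuationSubring.subtype)
  have heq : (A.valuation.comap (algebraMap F L)).IsEquiv v0 := by
    refine Valuation.isEquiv_of_val_le_one fun x => ⟨fun hx => ?_, fun hx => ?_⟩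
    · by_contra hlt
      rw [not_le] at hlt
      have hx0 : x ≠ 0 := by rintro rfl; simp at hlt
      have h1 : v0 x⁻¹ < 1 := by rw [map_inv₀]; exact inv_lt_one_of_one_lt₀ hlt
      have h2 : IsUnit (((algebraMap F L).comp v0.valuationSubring.subtype).codRestrict
          A.toSubring hA ⟨x⁻¹, h1.le⟩) := by
        refine IsUnit.of_mul_eq_one ⟨algebraMap F L x, (A.valuation_le_one_iff _).mp hx⟩
          (Subtype.ext ?_)
        change algebraMap F L x⁻¹ * algebraMap F L x = 1
        rw [← map_mul, inv_mul_cancel₀ hx0, map_one]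
      have h3 := hloc.1 _ h2
      exact (Valuation.Integer.not_isUnit_iff_valuation_lt_one (v := v0)
        (x := ⟨x⁻¹, h1.le⟩)).mpr h1 h3
    · exact (A.valuation_le_one_iff _).mpr (hA ⟨x, hx⟩)
  set w := A.valuation with hw
  let P : L → ℝ≥0 → Prop := fun a r =>
    ∃ (N : ℕ) (b : F), N ≠ 0 ∧ w a ^ N = w (algebraMap F L b) ∧ r ^ N = v0 b
  have hex : ∀ a, ∃ r, P a r := by
    intro a
    by_cases h0 : a = 0
    · exact ⟨0, 1, 0, one_ne_zero, by simp [h0], by simp⟩
    · obtain ⟨N, b, hN, -, -, hb⟩ := exists_pow_val (F := F) w h0 (Algebra.IsAlgebraic.isAlgebraic a)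
      exact ⟨v0 b ^ ((N : ℝ)⁻¹), N, b, hN.ne', hb, NNReal.rpow_inv_natCast_pow _ hN.ne'⟩
  have hcmp : ∀ {a a' r r'}, P a r → P a' r' → (w a ≤ w a' ↔ r ≤ r') := by
    rintro a a' r r' ⟨N, b, hN, h1, h2⟩ ⟨N', b', hN', h1', h2'⟩
    have hNN := mul_ne_zero hN hN'
    rw [← pow_le_pow_iff_left₀ zero_le zero_le hNN, ← pow_le_pow_iff_left₀ (a := r) zero_le
      zero_le hNN, pow_mul, pow_mul r, mul_comm N N', pow_mul, pow_mul r', h1, h2, h1', h2',
      ← map_pow, ← map_pow, ← map_pow, ← map_pow, ← map_pow, ← map_pow]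
    exact heq _ _
  have huniq : ∀ {a r r'}, P a r → P a r' → r = r' := fun h h' =>
    le_antisymm ((hcmp h h').mp le_rfl) ((hcmp h' h).mp le_rfl)
  have hmul : ∀ {a a' r r'}, P a r → P a' r' → P (a * a') (r * r') := by
    rintro a a' r r' ⟨N, b, hN, h1, h2⟩ ⟨N', b', hN', h1', h2'⟩
    refine ⟨N * N', b ^ N' * b' ^ N, mul_ne_zero hN hN', ?_, ?_⟩
    · rw [map_mul, mul_pow, pow_mul, mul_comm N N', pow_mul, h1, h1']
      simp only [map_mul, map_pow]
    · rw [mul_pow, pow_mul, mul_comm N N', pow_mul, h2, h2']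
      simp only [map_mul, map_pow]
  have halg : ∀ b, P (algebraMap F L b) (v0 b) := fun b => ⟨1, b, one_ne_zero, by simp, by simp⟩
  choose f hf using hex
  have hfa : ∀ b, f (algebraMap F L b) = v0 b := fun b => huniq (hf _) (halg b)
  refine ⟨{ toFun := f
            map_zero' := by simpa using hfa 0
            map_one' := by simpa using hfa 1
            map_mul' := fun a a' => huniq (hf _) (hmul (hf a) (hf a'))
            map_add_le_max' := fun a a' => ?_ }, hfa⟩
  rcases le_max_iff.mp (w.map_add a a') with h | h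
  · exact le_max_of_le_left ((hcmp (hf _) (hf _)).mp h)
  · exact le_max_of_le_right ((hcmp (hf _) (hf _)).mp h)

theorem ext_le_one {O : Subring F} (w : Val L) (hO : ∀ c ∈ O, w (algebraMap F L c) ≤ 1) {x : L}
    (hx : IsIntegral O x) : w x ≤ 1 := by
  let φ : O →+* w.integer := (algebraMap O L).codRestrict w.integer fun c => hO c c.2
  exact (Valuation.integer.integers w).mem_of_integral
    (hx.map_of_comp_eq φ (RingHom.id L) (RingHom.ext fun _ => rfl))

/-- the centre of a valuation on the integral closure -/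
def extCen {O : Subring F} (w : Val L) (hO : ∀ c ∈ O, w (algebraMap F L c) ≤ 1) :
    Ideal (integralClosure O L) where
  carrier := {b | w b < 1}
  add_mem' := fun ha hb => w.map_add_lt ha hb
  zero_mem' := by simp
  smul_mem' := fun c b hb => by
    change w (c * b) < 1
    rw [map_mul, mul_comm]
    exact mul_lt_one_of_lt_of_le hb (ext_le_one w hO c.2)

theorem extCen_isPrime {O : Subring F} (w : Val L) (hO : ∀ c ∈ O, w (algebraMap F L c) ≤ 1) :
    (extCen w hO).IsPrime := by
  refine ⟨fun h => ?_, fun {a b} hab => ?_⟩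
  · have : w ((1 : integralClosure O L) : L) < 1 := (Ideal.eq_top_iff_one _).mp h
    simp at this
  · by_contra hcon
    rw [not_or] at hcon
    have h1 : w a = 1 := le_antisymm (ext_le_one w hO a.2) (not_lt.mp hcon.1)
    have h2 : w b = 1 := le_antisymm (ext_le_one w hO b.2) (not_lt.mp hcon.2)
    have h3 : w (a * b) < 1 := hab
    rw [map_mul, h1, h2, mul_one] at h3
    exact lt_irrefl _ h3

/-- Conjugacy.  Make `R` an `F`-algebra by `σ0`.  Let `B` be the integral closure in `L` of the
valuation ring `O` of `F`, `m` the centre of `v1` and `m σ` the centre of `v ∘ σ` for the finitely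
many `σ : L →ₐ[F] R`.  If `m ≤ m σ` fails for all `σ`, prime avoidance (`Ideal.subset_union_prime`)
gives `b ∈ m` outside all `m σ`; all roots of the minimal polynomial of `b` in `R` are of the form
`σ b` (`IntermediateField.exists_algHom_of_splits_of_aeval`-like lemmas, or `IsAlgClosed.lift`
over `F⟮b⟯`), so its constant coefficient is a unit, but it lies in `m`.  If `m ≤ m σ`, then
`exists_div_integral` for `v ∘ σ` shows `v (σ a) ≤ 1 → v1 a ≤ 1`; with `exists_pow_val` this gives
`v (σ a) = v1 a` (apply it to `a ^ N / b` and `b / a ^ N`). -/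
theorem exists_conj [FiniteDimensional F L] {R : Type} [Field R] [IsAlgClosed R] (v1 : Val L)
    (v : Val R) (σ0 : F →+* R) (h : ∀ a, v (σ0 a) = v1 (algebraMap F L a)) :
    ∃ σ : L →+* R, (∀ a, σ (algebraMap F L a) = σ0 a) ∧ ∀ a, v (σ a) = v1 a := by
  classical
  let _ : Algebra F R := σ0.toAlgebra
  set O := (v1.comap (algebraMap F L)).integer with hO
  have h1 : ∀ c ∈ O, v1 (algebraMap F L c) ≤ 1 := fun c hc => hc
  have hσ : ∀ (σ : L →ₐ[F] R) (c : F), v.comap (σ : L →+* R) (algebraMap F L c) =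
      v1 (algebraMap F L c) := fun σ c => by
    rw [← h, Valuation.comap_apply, RingHom.coe_coe, σ.commutes]
    rfl
  have h2 : ∀ σ : L →ₐ[F] R, ∀ c ∈ O, v.comap (σ : L →+* R) (algebraMap F L c) ≤ 1 :=
    fun σ c hc => (hσ σ c).trans_le hc
  have hex : ∃ σ : L →ₐ[F] R, extCen v1 h1 ≤ extCen (v.comap (σ : L →+* R)) (h2 σ) := by
    have σ1 : L →ₐ[F] R := IsAlgClosed.lift
    by_contra hcon
    have h3 := (Ideal.subset_union_prime_finite (s := (Set.univ : Set (L →ₐ[F] R))) Set.finite_univ
      (f := fun σ => extCen (v.comap (σ : L →+* R)) (h2 σ)) σ1 σ1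
      (fun σ _ _ _ => extCen_isPrime _ _) (I := extCen v1 h1)).not.mpr
      (by rintro ⟨σ, -, hs⟩; exact hcon ⟨σ, hs⟩)
    rw [Set.not_subset] at h3
    obtain ⟨b, hb, hb'⟩ := h3
    have hb1 : v1 b < 1 := hb
    have hb2 : ∀ σ : L →ₐ[F] R, v (σ b) = 1 := fun σ =>
      le_antisymm (ext_le_one (v.comap (σ : L →+* R)) (h2 σ) b.2)
        (not_lt.mp fun e => hb' (Set.mem_biUnion (Set.mem_univ σ) e))
    have hint : IsIntegral F (b : L) := Algebra.IsIntegral.isIntegral _
    set p := minpoly F (b : L) with hp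
    have hm : (p.map (algebraMap F R)).Monic := (minpoly.monic hint).map _
    have hs : (p.map (algebraMap F R)).Splits := IsAlgClosed.splits _
    have hr : ∀ r ∈ (p.map (algebraMap F R)).roots, v r = 1 := by
      intro r hr
      have : r ∈ Set.range fun ψ : L →ₐ[F] R => ψ b := by
        rw [Algebra.IsAlgebraic.range_eval_eq_rootSet_minpoly]
        exact Multiset.mem_toFinset.mpr hr
      obtain ⟨σ, rfl⟩ := this
      exact hb2 σ
    have hl := hs.mem_lift_of_roots_mem_range hm (i := v.integer.subtype)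
      fun r hr' => ⟨⟨r, (hr r hr').le⟩, rfl⟩
    rw [Polynomial.lifts_iff_coeff_lifts] at hl
    have hc : ∀ i, v1 (algebraMap F L (p.coeff i)) ≤ 1 := by
      intro i
      obtain ⟨y, hy⟩ := hl i
      rw [← h]
      rw [Polynomial.coeff_map] at hy
      change v (algebraMap F R _) ≤ 1
      rw [← hy]
      exact y.2
    have hc0 : v1 (algebraMap F L (p.coeff 0)) = 1 := by
      have := hs.coeff_zero_eq_prod_roots_of_monic hm
      rw [Polynomial.coeff_map] at this
      rw [← h]
      change v (algebraMap F R _) = 1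
      rw [this, map_mul, map_pow, Valuation.map_neg, map_one, one_pow, one_mul, map_multiset_prod,
        Multiset.map_congr rfl hr]
      simp
    have he := minpoly.aeval F (b : L)
    rw [Polynomial.aeval_eq_sum_range, Finset.sum_range_succ', pow_zero, add_eq_zero_iff_neg_eq,
      ← hp] at he
    have hlt : v1 (p.coeff 0 • (1 : L)) < 1 := by
      rw [← he, Valuation.map_neg]
      refine v1.map_sum_lt one_ne_zero fun i _ => ?_
      rw [Algebra.smul_def, map_mul, map_pow, mul_comm]
      exact mul_lt_one_of_lt_of_le (pow_lt_one₀ zero_le hb1 (Nat.succ_ne_zero i)) (hc _)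
    rw [Algebra.smul_def, mul_one, hc0] at hlt
    exact lt_irrefl _ hlt
  obtain ⟨σ, hs⟩ := hex
  set w := v.comap (σ : L →+* R) with hw
  have hO' : (w.comap (algebraMap F L)).integer = O := by
    ext c
    simp only [hO, Valuation.mem_integer_iff, Valuation.comap_apply (algebraMap F L), hw, hσ σ c]
  have hle : ∀ a, w a ≤ 1 → v1 a ≤ 1 := by
    intro a ha
    obtain ⟨b, c, hb, hc, hc1, habc⟩ :=
      exists_div_integral (F := F) w (Algebra.IsAlgebraic.isAlgebraic a) ha
    rw [hO'] at hb hc
    have h3 : v1 c = 1 := le_antisymm (ext_le_one v1 h1 hc) (not_lt.mp fun e => by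
      have : w c < 1 := hs (show (⟨c, hc⟩ : integralClosure O L) ∈ extCen v1 h1 from e)
      exact this.ne hc1)
    have h4 := ext_le_one v1 h1 hb
    rwa [← habc, map_mul, h3, mul_one] at h4
  have hone : ∀ a, w a = 1 → v1 a = 1 := by
    intro a ha
    have ha0 : v1 a ≠ 0 := by
      rw [Valuation.ne_zero_iff]
      rintro rfl
      simp at ha
    refine le_antisymm (hle a ha.le) ?_
    have := hle a⁻¹ (by rw [map_inv₀, ha, inv_one])
    rwa [map_inv₀, inv_le_one₀ (zero_lt_iff.mpr ha0)] at this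
  refine ⟨σ, fun a => σ.commutes a, fun a => ?_⟩
  change w a = v1 a
  by_cases h0 : a = 0
  · simp [h0]
  obtain ⟨N, b, hN, -, hb0, hb⟩ := exists_pow_val (F := F) w h0 (Algebra.IsAlgebraic.isAlgebraic a)
  have hb1 : w (algebraMap F L b) ≠ 0 := by simpa using hb0
  have h3 := hone (a ^ N / algebraMap F L b) (by rw [map_div₀, map_pow, hb, div_self hb1])
  rw [map_div₀, map_pow, ← hσ σ b, div_eq_one_iff_eq hb1, ← hb] at h3
  exact ((pow_left_inj₀ zero_le zero_le hN.ne').mp h3).symm

end Pool.Agent.MP_c0606f_ag.Klt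

end

-- part MP_c0606f_ag.Klt.Disc
section

/-! Frames: transcendence bases, discreteness, residues. -/

namespace Pool.Agent.MP_c0606f_ag.Klt

open scoped NNReal
open MvPolynomial

variable {L : Type} [Field L] [Algebra ℂ L] {v : Val L} {κ : Type} {t : L} {u : κ → L}

theorem ResInd.triv (h : ResInd v u) (c : ℂ) (hc : c ≠ 0) : v (algebraMap ℂ L c) = 1 := by
  have := h (C c) (by simpa using hc)
  rwa [aeval_C] at this

theorem ResInd.val_eq (h : ResInd v u) (i : κ) : v (u i) = 1 := by
  have := h (X i) (X_ne_zero i)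
  rwa [aeval_X] at this

theorem ResInd.comp (h : ResInd v u) {κ' : Type} (f : κ' → κ) (hf : Function.Injective f) :
    ResInd v (u ∘ f) := by
  intro p hp
  have := h (rename f p) (fun h0 => hp (rename_injective f hf (by rw [h0, map_zero])))
  rwa [aeval_rename] at this

theorem IsFrame.reindex (h : IsFrame v t u) {κ' : Type} (e : κ' ≃ κ) : IsFrame v t (u ∘ e) := by
  refine ⟨h.pos, h.lt, h.res.comp e e.injective, ?_⟩
  rw [e.surjective.range_comp]
  exact h.alg

theorem IsFrame.isAbh [Finite κ] (h : IsFrame v t u) : IsAbh v := by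
  exact ⟨Nat.card κ, t, u ∘ (Finite.equivFin κ).symm, h.reindex _⟩

theorem IsAbh.triv (h : IsAbh v) (c : ℂ) (hc : c ≠ 0) : v (algebraMap ℂ L c) = 1 := by
  obtain ⟨q, t, u, h⟩ := h
  exact h.res.triv c hc

theorem disc_aeval_option (t : L) (u : κ → L) (p : MvPolynomial (Option κ) ℂ) :
    aeval (fun o : Option κ => o.elim t u) p =
      (optionEquivLeft ℂ κ p).eval₂ (aeval u : MvPolynomial κ ℂ →ₐ[ℂ] L).toRingHom t := by
  induction p using MvPolynomial.induction_on with
  | C a => simp [optionEquivLeft_C]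
  | add p q hp hq => rw [map_add, map_add, Polynomial.eval₂_add, hp, hq]
  | mul_X p i hp =>
    rw [map_mul, map_mul, Polynomial.eval₂_mul, hp]
    rcases i with _ | i
    · simp [optionEquivLeft_X_none]
    · simp [optionEquivLeft_X_some]

theorem disc_val_le (h : ResInd v u) (q : MvPolynomial κ ℂ) : v (aeval u q) ≤ 1 := by
  rcases eq_or_ne q 0 with rfl | hq
  · simp
  · exact (h q hq).le

theorem disc_tail (h : ResInd v u) (h0 : 0 < v t) (h1 : v t < 1)
    (P : Polynomial (MvPolynomial κ ℂ)) (n : ℕ) (hn : ∀ i, i < n → P.coeff i = 0) :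
    v (P.eval₂ (aeval u : MvPolynomial κ ℂ →ₐ[ℂ] L).toRingHom t - aeval u (P.coeff n) * t ^ n) <
      v t ^ n := by
  classical
  have hs : P.eval₂ (aeval u : MvPolynomial κ ℂ →ₐ[ℂ] L).toRingHom t =
      ∑ i ∈ insert n P.support, aeval u (P.coeff i) * t ^ i := by
    rw [Polynomial.eval₂_eq_sum, Polynomial.sum_def]
    refine Finset.sum_subset (Finset.subset_insert _ _) fun i _ hi => ?_
    simp [Polynomial.notMem_support_iff.1 hi]
  rw [hs, ← Finset.add_sum_erase _ _ (Finset.mem_insert_self n P.support), add_sub_cancel_left]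
  refine v.map_sum_lt (pow_pos h0 n).ne' fun i hi => ?_
  have hin : i ≠ n := Finset.ne_of_mem_erase hi
  have hi2 : i ∈ P.support := by
    have := Finset.mem_of_mem_erase hi
    rcases Finset.mem_insert.1 this with h | h
    · exact absurd h hin
    · exact h
  have hlt : n < i := by
    rcases lt_trichotomy i n with h | h | h
    · exact absurd (hn i h) (Polynomial.mem_support_iff.1 hi2)
    · exact absurd h hin
    · exact h
  rw [map_mul, map_pow]
  calc v (aeval u (P.coeff i)) * v t ^ i ≤ 1 * v t ^ i := by gcongr; exact disc_val_le h _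
    _ = v t ^ i := one_mul _
    _ < v t ^ n := pow_lt_pow_right_of_lt_one₀ h0 h1 hlt

/-- write `p = ∑ X none ^ i * p i` (`optionEquivLeft`); the term with the least `i` dominates -/
theorem ResInd.gauss (h : ResInd v u) (h0 : 0 < v t) (h1 : v t < 1) (p : MvPolynomial (Option κ) ℂ)
    (hp : p ≠ 0) : v (aeval (fun o : Option κ => o.elim t u) p) =
      v t ^ (optionEquivLeft ℂ κ p).natTrailingDegree := by
  rw [disc_aeval_option]
  set P := optionEquivLeft ℂ κ p with hP
  have hP0 : P ≠ 0 := fun h => hp ((optionEquivLeft ℂ κ).injective (by rw [← hP, h, map_zero]))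
  have ht := disc_tail h h0 h1 P P.natTrailingDegree
    fun i hi => Polynomial.coeff_eq_zero_of_lt_natTrailingDegree hi
  have hc : v (aeval u (P.coeff P.natTrailingDegree) * t ^ P.natTrailingDegree) =
      v t ^ P.natTrailingDegree := by
    rw [map_mul, map_pow, h _ (Polynomial.coeff_natTrailingDegree_ne_zero.2 hP0), one_mul]
  rw [← hc] at ht
  rw [← hc]
  exact Valuation.map_eq_of_sub_lt v ht

theorem ResInd.algInd (h : ResInd v u) (h0 : 0 < v t) (h1 : v t < 1) :
    AlgebraicIndependent ℂ fun o : Option κ => o.elim t u := by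
  rw [algebraicIndependent_iff]
  intro p hp
  by_contra hp0
  have := h.gauss h0 h1 p hp0
  rw [hp, map_zero] at this
  exact (pow_pos h0 _).ne this

omit [Field L] [Algebra ℂ L] in
theorem disc_range (t : L) (u : κ → L) :
    (Set.range fun o : Option κ => o.elim t u) = insert t (Set.range u) := by
  ext x
  simp only [Set.mem_range, Set.mem_insert_iff, Option.exists, Option.elim_none, Option.elim_some]
  rw [eq_comm]

theorem IsFrame.basis (h : IsFrame v t u) :
    IsTranscendenceBasis ℂ fun o : Option κ => o.elim t u := by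
  rw [(h.res.algInd h.pos h.lt).isTranscendenceBasis_iff_isAlgebraic, disc_range]
  exact ⟨h.alg⟩

theorem IsFrame.card_eq [Fintype κ] (h : IsFrame v t u) {ι : Type} [Fintype ι] {y : ι → L}
    (hy : IsTranscendenceBasis ℂ y) : Fintype.card ι = Fintype.card κ + 1 := by
  have := hy.cardinalMk_eq h.basis
  rw [Cardinal.mk_fintype, Cardinal.mk_fintype, Nat.cast_inj, Fintype.card_option] at this
  exact this

/-- an independent family with as many elements as a transcendence basis is one
(`AlgebraicIndependent.isTranscendenceBasis_of_lift_trdeg_le_of_finite` or similar) -/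
theorem isFrame_of_card [Fintype κ] (h : ResInd v u) (h0 : 0 < v t) (h1 : v t < 1) {ι : Type}
    [Fintype ι] (y : ι → L) (hy : ∀ a : L, IsAlgebraic (Algebra.adjoin ℂ (Set.range y)) a)
    (hc : Fintype.card ι ≤ Fintype.card κ + 1) : IsFrame v t u := by
  refine ⟨h0, h1, h, ?_⟩
  have : Algebra.IsAlgebraic (Algebra.adjoin ℂ (Set.range y)) L := ⟨hy⟩
  have h2 := Algebra.IsAlgebraic.trdeg_le_cardinalMk ℂ (Set.range y) (A := L)
  have h3 : Algebra.trdeg ℂ L ≤ Cardinal.mk (Option κ) := by
    refine h2.trans (Cardinal.mk_range_le.trans ?_)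
    rw [Cardinal.mk_fintype, Cardinal.mk_fintype, Nat.cast_le, Fintype.card_option]
    exact hc
  have h4 := ((h.algInd h0 h1).isTranscendenceBasis_of_trdeg_le_of_finite h3).isAlgebraic
  rw [disc_range] at h4
  exact h4.1

theorem IsFrame.change [Finite κ] (h : IsFrame v t u) {t' : L} (h0 : 0 < v t') (h1 : v t' < 1) :
    IsFrame v t' u := by
  have := Fintype.ofFinite κ
  refine isFrame_of_card h.res h0 h1 (fun o : Option κ => o.elim t u) ?_ ?_
  · rw [disc_range]; exact h.alg
  · rw [Fintype.card_option]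

theorem disc_eval_le (h : ResInd v u) {a : L} (ha : v a ≤ 1)
    (Q : Polynomial (MvPolynomial κ ℂ)) :
    v (Q.eval₂ (aeval u : MvPolynomial κ ℂ →ₐ[ℂ] L).toRingHom a) ≤ 1 := by
  rw [Polynomial.eval₂_eq_sum, Polynomial.sum_def]
  refine v.map_sum_le fun i _ => ?_
  rw [map_mul, map_pow]
  exact mul_le_one' (disc_val_le h _) (pow_le_one' ha _)

theorem disc_exists_small (h : ResInd v u) (h0 : 0 < v t) (h1 : v t < 1) {a : L} (ha : v a ≤ 1)
    (halg : IsAlgebraic (Algebra.adjoin ℂ (insert t (Set.range u))) a) :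
    ∃ Q : Polynomial (MvPolynomial κ ℂ), Q ≠ 0 ∧
      v (Q.eval₂ (aeval u : MvPolynomial κ ℂ →ₐ[ℂ] L).toRingHom a) < 1 := by
  classical
  obtain ⟨P, hP0, hP⟩ := halg
  have hc : ∀ i, ∃ p : Polynomial (MvPolynomial κ ℂ),
      p.eval₂ (aeval u : MvPolynomial κ ℂ →ₐ[ℂ] L).toRingHom t = (P.coeff i : L) := by
    intro i
    have hm : (P.coeff i : L) ∈ Algebra.adjoin ℂ (Set.range fun o : Option κ => o.elim t u) := by
      rw [disc_range]; exact (P.coeff i).2
    rw [Algebra.adjoin_range_eq_range_aeval] at hm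
    obtain ⟨p, hp⟩ := hm
    exact ⟨optionEquivLeft ℂ κ p, by rw [← disc_aeval_option]; exact hp⟩
  choose p hp using hc
  have hne : P.support.Nonempty := Polynomial.support_nonempty.2 hP0
  obtain ⟨i0, hi0, hmin⟩ := P.support.exists_min_image (fun i => (p i).natTrailingDegree) hne
  set n := (p i0).natTrailingDegree with hn
  have hp0 : p i0 ≠ 0 := by
    intro h
    have := hp i0
    rw [h, Polynomial.eval₂_zero] at this
    exact Polynomial.mem_support_iff.1 hi0 (Subtype.ext this.symm)
  refine ⟨∑ i ∈ P.support, Polynomial.monomial i ((p i).coeff n), ?_, ?_⟩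
  · intro h
    have := congrArg (fun q => Polynomial.coeff q i0) h
    simp only [Polynomial.finsetSum_coeff, Polynomial.coeff_monomial, Finset.sum_ite_eq',
      hi0, if_true, Polynomial.coeff_zero] at this
    exact Polynomial.coeff_natTrailingDegree_ne_zero.2 hp0 this
  · have hsum : ∑ i ∈ P.support, (P.coeff i : L) * a ^ i = 0 := by
      rw [← hP, Polynomial.aeval_def, Polynomial.eval₂_eq_sum, Polynomial.sum_def]
      rfl
    have hQ : (∑ i ∈ P.support, Polynomial.monomial i ((p i).coeff n)).eval₂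
        (aeval u : MvPolynomial κ ℂ →ₐ[ℂ] L).toRingHom a * t ^ n =
        -∑ i ∈ P.support, ((P.coeff i : L) - aeval u ((p i).coeff n) * t ^ n) * a ^ i := by
      rw [Polynomial.eval₂_finsetSum]
      simp only [Polynomial.eval₂_monomial, sub_mul, Finset.sum_sub_distrib, hsum, zero_sub,
        neg_neg, Finset.sum_mul]
      refine Finset.sum_congr rfl fun i _ => ?_
      simp only [AlgHom.toRingHom_eq_coe, RingHom.coe_coe]
      ring
    have hlt : v (∑ i ∈ P.support, ((P.coeff i : L) - aeval u ((p i).coeff n) * t ^ n) * a ^ i) <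
        v t ^ n := by
      refine v.map_sum_lt (pow_pos h0 n).ne' fun i hi => ?_
      have h3 := disc_tail h h0 h1 (p i) n fun j hj =>
        Polynomial.coeff_eq_zero_of_lt_natTrailingDegree (hj.trans_le (hmin i hi))
      rw [hp i] at h3
      rw [map_mul, map_pow]
      calc _ ≤ v ((P.coeff i : L) - aeval u ((p i).coeff n) * t ^ n) * 1 := by
            gcongr; exact pow_le_one' ha _
        _ < _ := by rwa [mul_one]
    rw [← Valuation.map_neg, ← hQ, map_mul, map_pow] at hlt
    have hpos : 0 < v t ^ n := pow_pos h0 n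
    exact (mul_lt_iff_lt_one_left hpos).1 hlt

/-- Divide an equation of `a` over `ℂ[t, u]` by the largest power of `t` to find a nonzero `Q` with
`v (Q a) < 1`; take such a `Q` of least degree; it is not constant and its derivative is nonzero.
-/
theorem ResInd.res_alg (h : ResInd v u) (h0 : 0 < v t) (h1 : v t < 1) {a : L} (ha : v a ≤ 1)
    (halg : IsAlgebraic (Algebra.adjoin ℂ (insert t (Set.range u))) a) :
    ∃ Q : Polynomial (MvPolynomial κ ℂ),
      v (Q.eval₂ (aeval u : MvPolynomial κ ℂ →ₐ[ℂ] L).toRingHom a) < 1 ∧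
      v ((Polynomial.derivative Q).eval₂ (aeval u : MvPolynomial κ ℂ →ₐ[ℂ] L).toRingHom a) = 1 := by
  classical
  have hex : ∃ n, ∃ Q : Polynomial (MvPolynomial κ ℂ), Q.natDegree = n ∧ Q ≠ 0 ∧
      v (Q.eval₂ (aeval u : MvPolynomial κ ℂ →ₐ[ℂ] L).toRingHom a) < 1 := by
    obtain ⟨Q, hQ⟩ := disc_exists_small h h0 h1 ha halg
    exact ⟨_, Q, rfl, hQ⟩
  obtain ⟨Q, hdeg, hQ0, hQ⟩ := Nat.find_spec hex
  refine ⟨Q, hQ, le_antisymm (disc_eval_le h ha _) ?_⟩
  have hd : Q.natDegree ≠ 0 := by
    intro hd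
    rw [Polynomial.eq_C_of_natDegree_eq_zero hd, Polynomial.eval₂_C] at hQ
    have hc : Q.coeff 0 ≠ 0 := fun hc =>
      hQ0 (by rw [Polynomial.eq_C_of_natDegree_eq_zero hd, hc, map_zero])
    exact absurd (h _ hc) hQ.ne
  by_contra hlt
  refine Nat.find_min hex (m := (Polynomial.derivative Q).natDegree) ?_ ⟨_, rfl, ?_, not_le.1 hlt⟩
  · rw [← hdeg]; exact Polynomial.natDegree_derivative_lt hd
  · exact fun h => hd (Polynomial.derivative_eq_zero.1 h)

/-- elements algebraic over `ℂ(u)` are units (`exists_pow_val` over `ℂ(u)`) -/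
theorem ResInd.val_Om (h : ResInd v u) {a : L} (ha : a ∈ Om u) (h0 : a ≠ 0) : v a = 1 := by
  have ha' : IsAlgebraic (IntermediateField.adjoin ℂ (Set.range u)) a :=
    mem_algebraicClosure_iff.1 ha
  obtain ⟨N, b, hN, -, hb, hv⟩ := exists_pow_val v h0 ha'
  obtain ⟨r, s, hrs⟩ := (IntermediateField.mem_adjoin_range_iff ℂ u (b : L)).1 b.2
  have hb0 : (b : L) ≠ 0 := fun h => hb (Subtype.ext h)
  have hr : r ≠ 0 := fun h => hb0 (by rw [hrs, h, map_zero, zero_div])
  have hs : s ≠ 0 := fun h => hb0 (by rw [hrs, h, map_zero, div_zero])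
  have hvb : v (b : L) = 1 := by rw [hrs, map_div₀, h r hr, h s hs, div_one]
  have : v a ^ N = 1 := hv.trans hvb
  exact (pow_eq_one_iff_of_nonneg zero_le hN.ne').1 this

theorem disc_pow_val (h : IsFrame v t u) (k : IntermediateField ℂ L) (hk : k.FG) :
    ∃ D : ℕ, 0 < D ∧ ∀ a ∈ k, a ≠ 0 → ∃ j : ℤ, v a ^ D = v t ^ j := by
  obtain ⟨S, rfl⟩ := hk
  set F := IntermediateField.adjoin ℂ (Set.range fun o : Option κ => o.elim t u) with hF
  have halg : Algebra.IsAlgebraic F L := h.basis.isAlgebraic_field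
  have hfin : FiniteDimensional F (IntermediateField.adjoin F (S : Set L)) :=
    IntermediateField.finiteDimensional_adjoin fun x _ => (halg.1 x).isIntegral
  refine ⟨(Module.finrank F (IntermediateField.adjoin F (S : Set L))).factorial,
    Nat.factorial_pos _, fun a ha ha0 => ?_⟩
  have hm : a ∈ IntermediateField.adjoin F (S : Set L) := by
    have : IntermediateField.adjoin ℂ (S : Set L) ≤
        (IntermediateField.adjoin F (S : Set L)).restrictScalars ℂ :=
      IntermediateField.adjoin_le_iff.2 (IntermediateField.subset_adjoin F (S : Set L))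
    exact this ha
  obtain ⟨N, b, hN, hNle, hb, hv⟩ := exists_pow_val v ha0 (halg.1 a)
  have hdeg : (minpoly F a).natDegree ≤
      Module.finrank F (IntermediateField.adjoin F (S : Set L)) := by
    have h1 := minpoly.algebraMap_eq (A := F) (B := IntermediateField.adjoin F (S : Set L))
      (B' := L) Subtype.val_injective ⟨a, hm⟩
    have h2 : minpoly F a = minpoly F (⟨a, hm⟩ : IntermediateField.adjoin F (S : Set L)) := h1
    rw [h2]
    exact minpoly.natDegree_le _
  obtain ⟨m, hm⟩ := Nat.dvd_factorial hN (hNle.trans hdeg)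
  obtain ⟨r, s, hrs⟩ := (IntermediateField.mem_adjoin_range_iff ℂ _ (b : L)).1 b.2
  have hb0 : (b : L) ≠ 0 := fun h => hb (Subtype.ext h)
  have hr : r ≠ 0 := fun h => hb0 (by rw [hrs, h, map_zero, zero_div])
  have hs : s ≠ 0 := fun h => hb0 (by rw [hrs, h, map_zero, div_zero])
  have hvb : v (b : L) = v t ^ (((optionEquivLeft ℂ κ r).natTrailingDegree : ℤ) -
      ((optionEquivLeft ℂ κ s).natTrailingDegree : ℤ)) := by
    rw [hrs, map_div₀, h.res.gauss h.pos h.lt r hr, h.res.gauss h.pos h.lt s hs,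
      zpow_sub₀ h.pos.ne', zpow_natCast, zpow_natCast]
  refine ⟨(((optionEquivLeft ℂ κ r).natTrailingDegree : ℤ) -
      ((optionEquivLeft ℂ κ s).natTrailingDegree : ℤ)) * (m : ℤ), ?_⟩
  rw [hm, pow_mul, hv, zpow_mul, ← hvb, zpow_natCast]
  rfl

/-- Discreteness.  The field generated by `k`, `t`, `u` is finite, of degree `d` say, over
`F = ℂ(t, u)`; by `exists_pow_val` and `ResInd.gauss`, `v a ^ d!` is an integer power of `v t` for
`a ∈ k`.  The exponents form a nonzero subgroup of `ℤ` (`Int.subgroup_cyclic`). -/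
theorem IsAbh.exists_unifOn (h : IsAbh v) (k : IntermediateField ℂ L) (hk : k.FG) {τ : L}
    (hτ : τ ∈ k) (h0 : 0 < v τ) (h1 : v τ < 1) : ∃ t ∈ k, IsUnifOn v k t := by
  obtain ⟨q, t, u, h⟩ := h
  obtain ⟨D, hD, hk⟩ := disc_pow_val h k hk
  have ht := h.pos.ne'
  let H : AddSubgroup ℤ :=
    { carrier := {j | ∃ a ∈ k, a ≠ 0 ∧ v a ^ D = v t ^ j}
      zero_mem' := ⟨1, k.one_mem, one_ne_zero, by simp⟩
      add_mem' := by
        rintro i j ⟨a, ha, ha0, hi⟩ ⟨b, hb, hb0, hj⟩
        exact ⟨a * b, k.mul_mem ha hb, mul_ne_zero ha0 hb0, by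
          rw [map_mul, mul_pow, hi, hj, zpow_add₀ ht]⟩
      neg_mem' := by
        rintro i ⟨a, ha, ha0, hi⟩
        exact ⟨a⁻¹, k.inv_mem ha, inv_ne_zero ha0, by rw [map_inv₀, inv_pow, hi, zpow_neg]⟩ }
  obtain ⟨g, hg⟩ := Int.subgroup_cyclic H
  have hdvd : ∀ j ∈ H, |g| ∣ j := by
    intro j hj
    rw [hg, AddSubgroup.mem_closure_singleton] at hj
    obtain ⟨n, rfl⟩ := hj
    rw [abs_dvd, smul_eq_mul]
    exact Dvd.intro_left n rfl
  have hgH : |g| ∈ H := by
    have : g ∈ H := by rw [hg]; exact AddSubgroup.subset_closure (Set.mem_singleton g)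
    rcases abs_choice g with h | h <;> rw [h]
    · exact this
    · exact H.neg_mem this
  have hτ0 : τ ≠ 0 := fun h => by simp [h] at h0
  have hg0 : 0 < |g| := by
    obtain ⟨j, hj⟩ := hk τ hτ hτ0
    rcases (abs_nonneg g).lt_or_eq with h2 | h2
    · exact h2
    · have h3 := hdvd j ⟨τ, hτ, hτ0, hj⟩
      rw [← h2, zero_dvd_iff] at h3
      rw [h3, zpow_zero] at hj
      exact absurd hj (pow_lt_one₀ zero_le h1 hD.ne').ne
  obtain ⟨s, hs, hs0, hsv⟩ := hgH
  refine ⟨s, hs, (v.pos_iff).2 hs0, ?_, fun a ha ha0 => ?_⟩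
  · have : v s ^ D < 1 := by
      rw [hsv]; exact (zpow_lt_one_iff_right_of_lt_one₀ h.pos h.lt).2 hg0
    exact (pow_lt_one_iff_of_nonneg zero_le hD.ne').1 this
  · obtain ⟨j, hj⟩ := hk a ha ha0
    obtain ⟨m, rfl⟩ := hdvd j ⟨a, ha, ha0, hj⟩
    refine ⟨m, ?_⟩
    rw [zpow_mul, ← hsv, ← zpow_natCast, ← zpow_natCast, ← zpow_mul, mul_comm, zpow_mul,
      zpow_natCast, zpow_natCast] at hj
    exact (pow_left_inj₀ zero_le zero_le hD.ne').1 hj

theorem IsUnifOn.le_of_lt {k : Set L} (h : IsUnifOn v k t) {a : L} (ha : a ∈ k) (h1 : v a < 1) :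
    v a ≤ v t := by
  rcases eq_or_ne a 0 with rfl | ha0
  · simp
  · obtain ⟨j, hj⟩ := h.2.2 a ha ha0
    rw [hj] at h1 ⊢
    have := (zpow_lt_one_iff_right_of_lt_one₀ h.1 h.2.1).1 h1
    calc v t ^ j ≤ v t ^ (1 : ℤ) := zpow_le_zpow_right_of_le_one₀ h.1 h.2.1.le (by omega)
      _ = v t := zpow_one _

theorem IsUnifOn.le_one_of_mul_lt {k : Set L} (h : IsUnifOn v k t) {a : L} (ha : a ∈ k)
    (h1 : v a * v t < 1) : v a ≤ 1 := by
  rcases eq_or_ne a 0 with rfl | ha0
  · simp
  · obtain ⟨j, hj⟩ := h.2.2 a ha ha0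
    rw [hj, ← zpow_add_one₀ h.1.ne'] at h1
    have := (zpow_lt_one_iff_right_of_lt_one₀ h.1 h.2.1).1 h1
    rw [hj]
    exact zpow_le_one₀ h.1 h.2.1.le (by omega)

end Pool.Agent.MP_c0606f_ag.Klt

end

-- part MP_c0606f_ag.Klt.Struct
section

/-! A divisorial valuation ring is standard etale over `ℂ[t, u]`. -/

namespace Pool.Agent.MP_c0606f_ag.Klt

open scoped NNReal
open MvPolynomial

variable {L : Type} [Field L] [Algebra ℂ L]

/-- the value `q(t, u, θ)` -/
noncomputable def pvq {κ : Type} (t : L) (u : κ → L) (θ : L)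
    (q : Polynomial (MvPolynomial (Option κ) ℂ)) : L :=
  q.eval₂ (aeval (fun o : Option κ => o.elim t u) :
    MvPolynomial (Option κ) ℂ →ₐ[ℂ] L).toRingHom θ

section

variable {O R : Type} [CommRing O] [Field R] [Algebra O R]

theorem struct_cast (w : Val R) (hO : ∀ o, w (algebraMap O R o) ≤ 1) (P : Polynomial O)
    (z : w.integer) :
    (((P.map ((algebraMap O R).codRestrict w.integer hO)).eval z : w.integer) : R) =
      Polynomial.aeval (z : R) P := by
  rw [Polynomial.eval_map, Polynomial.aeval_def]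
  exact Polynomial.hom_eval₂ P ((algebraMap O R).codRestrict w.integer hO) w.integer.subtype z

theorem struct_aeval_le (w : Val R) (hO : ∀ o, w (algebraMap O R o) ≤ 1) (P : Polynomial O)
    {x : R} (hx : w x ≤ 1) : w (Polynomial.aeval x P) ≤ 1 := by
  rw [← struct_cast w hO P ⟨x, hx⟩]
  exact ((P.map ((algebraMap O R).codRestrict w.integer hO)).eval ⟨x, hx⟩).2

theorem struct_taylor (w : Val R) (hO : ∀ o, w (algebraMap O R o) ≤ 1) (P : Polynomial O)
    {x h : R} (hx : w x ≤ 1) (hh : w h ≤ 1) : ∃ k : R, w k ≤ 1 ∧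
      Polynomial.aeval (x + h) P = Polynomial.aeval x P +
        (Polynomial.aeval x (Polynomial.derivative P) + k * h) * h := by
  obtain ⟨k, hk⟩ := Polynomial.binomExpansion (P.map ((algebraMap O R).codRestrict w.integer hO))
    ⟨x, hx⟩ ⟨h, hh⟩
  refine ⟨k, k.2, ?_⟩
  have h2 := congrArg Subtype.val hk
  rw [Polynomial.derivative_map] at h2
  push_cast at h2
  rw [struct_cast w hO, struct_cast w hO, struct_cast w hO] at h2
  exact h2.trans (by ring)

theorem struct_int_le (w : Val R) (hO : ∀ o, w (algebraMap O R o) ≤ 1) {x : R}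
    (hx : IsIntegral O x) : w x ≤ 1 :=
  (Valuation.integer.integers w).mem_of_integral
    (hx.map_of_comp_eq ((algebraMap O R).codRestrict w.integer hO) (RingHom.id R) rfl)

theorem struct_sep (w : Val R) (hO : ∀ o, w (algebraMap O R o) ≤ 1)
    (hnat : ∀ n : ℕ, w ((n : R) + 1) = 1) {b : R} (hb : IsIntegral O b) :
    ∃ Q : Polynomial O, w (Polynomial.aeval b Q) < 1 ∧
      w (Polynomial.aeval b (Polynomial.derivative Q)) = 1 := by
  have hb1 := struct_int_le w hO hb
  have key : ∀ (d : ℕ) (Q : Polynomial O), Q.natDegree ≤ d →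
      w (algebraMap O R (Q.coeff d)) = 1 → w (Polynomial.aeval b Q) < 1 →
      ∃ Q : Polynomial O, w (Polynomial.aeval b Q) < 1 ∧
        w (Polynomial.aeval b (Polynomial.derivative Q)) = 1 := by
    intro d
    induction d with
    | zero =>
      intro Q h1 h2 h3
      rw [Polynomial.eq_C_of_natDegree_le_zero h1, Polynomial.aeval_C, h2] at h3
      exact absurd h3 (lt_irrefl _)
    | succ d ih =>
      intro Q h1 h2 h3
      rcases (struct_aeval_le w hO (Polynomial.derivative Q) hb1).lt_or_eq with h | h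
      · refine ih _ ((Polynomial.natDegree_derivative_le Q).trans (by omega)) ?_ h
        rw [Polynomial.coeff_derivative, map_mul, map_mul, h2, map_add, map_natCast, map_one,
          hnat, mul_one]
      · exact ⟨Q, h3, h⟩
  obtain ⟨P, hP, hP0⟩ := hb
  refine key _ P le_rfl ?_ ?_
  · rw [hP.coeff_natDegree, map_one, map_one]
  · rw [Polynomial.aeval_def, hP0, map_zero]; exact zero_lt_one

theorem struct_rigid {K : Type} [Field K] [Algebra O K] (v : Val K) (w : Val R)
    (ι σ : K →ₐ[O] R) (hw : ∀ a, w (ι a) = v a) (hO : ∀ o, v (algebraMap O K o) ≤ 1)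
    (hnat : ∀ n : ℕ, v ((n : K) + 1) = 1) {t : K} (h1 : v t < 1) (h0 : 0 < v t)
    (hle : ∀ a, v a < 1 → v a ≤ v t) (ht : σ t = ι t)
    (hdiv : ∀ a, v a ≤ 1 → ∃ b c, IsIntegral O b ∧ IsIntegral O c ∧ v c = 1 ∧ a * c = b)
    (h : ∀ b, IsIntegral O b → w (σ b - ι b) < 1) : σ = ι := by
  have hO' : ∀ o, w (algebraMap O R o) ≤ 1 := fun o => by rw [← ι.commutes, hw]; exact hO o
  have step : ∀ δ : ℝ≥0, (∀ b, IsIntegral O b → w (σ b - ι b) ≤ δ) →
      ∀ a, v a ≤ 1 → w (σ a - ι a) ≤ δ := by
    intro δ hδ a ha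
    obtain ⟨b, c, hb, hc, hc1, rfl⟩ := hdiv a ha
    have e1 : w (σ c) = 1 := by
      rw [← sub_add_cancel (σ c) (ι c), w.map_add_eq_of_lt_right (by rw [hw, hc1]; exact h c hc),
        hw, hc1]
    have e2 : (σ a - ι a) * σ c = (σ (a * c) - ι (a * c)) - ι a * (σ c - ι c) := by
      rw [map_mul, map_mul]; ring
    rw [← mul_one (w (σ a - ι a)), ← e1, ← map_mul, e2]
    refine w.map_sub_le (hδ _ hb) ?_
    rw [map_mul, hw]
    exact (mul_le_of_le_one_left' ha).trans (hδ c hc)
  have ind : ∀ n : ℕ, ∀ a, v a ≤ 1 → w (σ a - ι a) ≤ v t ^ n := by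
    intro n
    induction n with
    | zero => exact step _ fun b hb => by rw [pow_zero]; exact (h b hb).le
    | succ n ih =>
      refine step _ fun b hb => ?_
      obtain ⟨Q, hQ1, hQ2⟩ := struct_sep v hO hnat hb
      have ht0 : t ≠ 0 := fun h' => by simp [h'] at h0
      have ha : v (Polynomial.aeval b Q / t) ≤ 1 := by
        rw [map_div₀]; exact div_le_one_of_le₀ (hle _ hQ1) zero_le
      have hb1 : w (ι b) ≤ 1 := by rw [hw]; exact struct_int_le v hO hb
      obtain ⟨k, hk, e⟩ := struct_taylor w hO' Q hb1 (h b hb).le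
      rw [add_sub_cancel, Polynomial.aeval_algHom_apply, Polynomial.aeval_algHom_apply,
        Polynomial.aeval_algHom_apply] at e
      have e1 : w (ι (Polynomial.aeval b (Polynomial.derivative Q)) + k * (σ b - ι b)) = 1 := by
        rw [w.map_add_eq_of_lt_left, hw, hQ2]
        rw [hw, hQ2, map_mul]
        exact (mul_le_of_le_one_left' hk).trans_lt (h b hb)
      have e2 : (ι (Polynomial.aeval b (Polynomial.derivative Q)) + k * (σ b - ι b)) * (σ b - ι b)
          = (σ (Polynomial.aeval b Q / t) - ι (Polynomial.aeval b Q / t)) * ι t := by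
        have ht1 : ι t ≠ 0 := (map_ne_zero ι).2 ht0
        rw [map_div₀, map_div₀, ht, e]
        field_simp
        ring
      rw [← one_mul (w (σ b - ι b)), ← e1, ← map_mul, e2, map_mul, hw, pow_succ]
      exact mul_le_mul_left (ih _ ha) _
  have fin : ∀ a, v a ≤ 1 → σ a = ι a := by
    intro a ha
    by_contra hne
    have hpos : 0 < w (σ a - ι a) := zero_lt_iff.2 ((map_ne_zero w).2 (sub_ne_zero.2 hne))
    obtain ⟨n, hn⟩ := exists_pow_lt_of_lt_one hpos h1
    exact absurd (ind n a ha) (not_le.2 hn)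
  ext a
  rcases le_total (v a) 1 with ha | ha
  · exact fin a ha
  · have := fin a⁻¹ (by rw [map_inv₀]; exact inv_le_one_of_one_le₀ ha)
    rwa [map_inv₀, map_inv₀, inv_inj] at this

theorem struct_clear {A K : Type} [CommRing A] [CommRing K] (e : A →+* K) (M : Submonoid A)
    (g : Polynomial K) (h : ∀ i, ∃ p, ∃ d ∈ M, g.coeff i * e d = e p) :
    ∃ G : Polynomial A, ∃ d ∈ M, G.map e = Polynomial.C (e d) * g := by
  rw [g.as_sum_support]
  refine Finset.sum_induction _
    (fun g => ∃ G : Polynomial A, ∃ d ∈ M, G.map e = Polynomial.C (e d) * g) ?_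
    ⟨0, 1, M.one_mem, by simp⟩ fun i _ => ?_
  · rintro a b ⟨G, d, hd, h1⟩ ⟨G', d', hd', h2⟩
    refine ⟨Polynomial.C d' * G + Polynomial.C d * G', d * d', M.mul_mem hd hd', ?_⟩
    simp only [Polynomial.map_add, Polynomial.map_mul, Polynomial.map_C, h1, h2, map_mul]
    ring
  · obtain ⟨p, d, hd, h1⟩ := h i
    refine ⟨Polynomial.monomial i p, d, hd, ?_⟩
    rw [Polynomial.map_monomial, Polynomial.C_mul_monomial, mul_comm, h1]

end

/-- Abstract form.  `F ⊆ L` finite, `O` the valuation ring of `F`, `t ∈ F` a uniformiser of `L`.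
Let `B` be the integral closure of `O` in `L` (a finite `O`-module: `O` is a discrete valuation
ring, `IsIntegralClosure.finite`), `m = {b ∈ B | v b < 1}`.  By `exists_div_integral` every
integral element is `b / c` with `c ∈ B` a unit; as `m` is finitely generated there is `c0 ∈ B`,
`v c0 = 1`, with `c0 * m ⊆ t B`.  The residue field of `L` is `B / m`, finite separable over that
of `F`; choose `θ ∈ c0 B` whose residue is a nonzero primitive element, with minimal polynomial
lifted to `Q0 ∈ O[X]`.  Then `θ * m ⊆ t B` and `θ B ⊆ O[θ] + t B`.  The determinant trick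
(`LinearMap.exists_monic_and_coeff_mem_pow_and_aeval_eq_zero_of_range_le_smul` for multiplication
by `θ` on `B / O[θ]`, or Nakayama) gives `c ∈ O[θ]`, `v c = 1`, `c B ⊆ O[θ]`.  From
`θ * Q0(θ) = t b`, `c b = q(θ)` the polynomial `c X Q0 - t q` kills `θ` and has unit derivative at
`θ`; it is a multiple of `minpoly O θ` in `O[X]`. -/
theorem exists_struct_aux {F : Type} [Field F] [Algebra ℂ F] [Algebra F L] [IsScalarTower ℂ F L]
    [FiniteDimensional F L] (v : Val L) (htriv : ∀ c : ℂ, c ≠ 0 → v (algebraMap ℂ L c) = 1)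
    (t : F) (ht : IsUnif v (algebraMap F L t)) :
    ∃ θ : L, v θ ≤ 1 ∧ (∀ i, v (algebraMap F L ((minpoly F θ).coeff i)) ≤ 1) ∧
      v (Polynomial.aeval θ (Polynomial.derivative (minpoly F θ))) = 1 ∧
      ∀ a : L, v a ≤ 1 → ∃ q c : Polynomial F, (∀ i, v (algebraMap F L (q.coeff i)) ≤ 1) ∧
        (∀ i, v (algebraMap F L (c.coeff i)) ≤ 1) ∧ v (Polynomial.aeval θ c) = 1 ∧
        a * Polynomial.aeval θ c = Polynomial.aeval θ q := by
  classical
  have : CharZero F := (RingHom.charZero_iff (algebraMap ℂ F).injective).1 inferInstance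
  let v0 : Val F := v.comap (algebraMap F L)
  have : IsFractionRing v0.integer F := (Valuation.integer.integers v0).isFractionRing
  have hO : ∀ o : v0.integer, v (algebraMap v0.integer L o) ≤ 1 := fun o => o.2
  obtain ⟨w, hw⟩ := exists_extend (F := L) (L := AlgebraicClosure L) v
  let ι : L →ₐ[F] AlgebraicClosure L := IsScalarTower.toAlgHom F L _
  have hdiv := fun a (ha : v a ≤ 1) =>
    exists_div_integral (F := F) v (Algebra.IsAlgebraic.isAlgebraic a) ha
  have hnat : ∀ n : ℕ, v ((n : L) + 1) = 1 := fun n => by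
    have := htriv ((n : ℂ) + 1) (Nat.cast_add_one_ne_zero n)
    rwa [map_add, map_natCast, map_one] at this
  have hC : ∀ c : ℂ, v (algebraMap F L (algebraMap ℂ F c)) ≤ 1 := fun c => by
    rw [← IsScalarTower.algebraMap_apply]
    rcases eq_or_ne c 0 with rfl | hc
    · simp
    · exact (htriv c hc).le
  have hsm : ∀ (c : ℂ) (b : L), c • b = algebraMap F L (algebraMap ℂ F c) * b := fun c b => by
    rw [← IsScalarTower.algebraMap_apply, Algebra.smul_def]
  let B : Submodule ℂ L :=
    { carrier := {b | IsIntegral v0.integer b}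
      add_mem' := fun ha hb => IsIntegral.add ha hb
      zero_mem' := isIntegral_zero
      smul_mem' := fun c b hb => by
        rw [hsm]
        exact IsIntegral.mul
          (isIntegral_algebraMap (x := (⟨algebraMap ℂ F c, hC c⟩ : v0.integer))) hb }
  let p : {σ : L →ₐ[F] AlgebraicClosure L // σ ≠ ι} → Submodule ℂ B := fun σ =>
    { carrier := {b | w (σ.1 b - ι b) < 1}
      add_mem' := fun {a b} ha hb => by
        change w (σ.1 ((a : L) + b) - ι ((a : L) + b)) < 1
        rw [map_add, map_add, add_sub_add_comm]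
        exact w.map_add_lt ha hb
      zero_mem' := by simp
      smul_mem' := fun c b hb => by
        change w (σ.1 (c • (b : L)) - ι (c • (b : L))) < 1
        rw [hsm, map_mul, map_mul, σ.1.commutes, ← ι.commutes, ← mul_sub, map_mul]
        exact (mul_le_of_le_one_left' ((hw _).trans_le (hC c))).trans_lt hb }
  have hp : ∀ σ, p σ ≠ ⊤ := by
    intro σ hσ
    have := struct_rigid v w (ι.restrictScalars v0.integer) (σ.1.restrictScalars v0.integer) hw hO
      hnat ht.2.1 ht.1 (fun a ha => IsUnifOn.le_of_lt ht (Set.mem_univ a) ha)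
      ((σ.1.commutes t).trans (ι.commutes t).symm) hdiv
      fun b hb => (Submodule.eq_top_iff'.1 hσ ⟨b, hb⟩ :)
    exact σ.2 (AlgHom.restrictScalars_injective _ this)
  obtain ⟨⟨θ, hθ⟩, hθp⟩ := Submodule.exists_forall_notMem_of_forall_ne_top p hp
  replace hθ : IsIntegral v0.integer θ := hθ
  have hO' : ∀ o : v0.integer, w (algebraMap v0.integer (AlgebraicClosure L) o) ≤ 1 :=
    fun o => (hw _).trans_le (hO o)
  have hσ : ∀ σ : L →ₐ[F] AlgebraicClosure L, σ ≠ ι → w (ι θ - σ θ) = 1 := by
    intro σ h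
    rw [w.map_sub_swap]
    refine le_antisymm (w.map_sub_le ?_ ?_) (not_lt.1 (hθp ⟨σ, h⟩))
    · exact struct_int_le w hO' (hθ.map (σ.restrictScalars v0.integer))
    · exact struct_int_le w hO' (hθ.map (ι.restrictScalars v0.integer))
  have hprim : Algebra.adjoin F {θ} = ⊤ := by
    rw [← IntermediateField.adjoin_simple_toSubalgebra_of_isAlgebraic
      (Algebra.IsAlgebraic.isAlgebraic θ), (Field.primitive_element_iff_algHom_eq_of_eval F
        (AlgebraicClosure L) (fun _ => IsAlgClosed.splits _) θ ι).2]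
    · rfl
    · intro ψ hψ
      by_contra hne
      have := hσ ψ (Ne.symm hne)
      rw [hψ, sub_self, map_zero] at this
      exact zero_ne_one this
  have hθF : IsIntegral F θ := Algebra.IsIntegral.isIntegral θ
  have hder : v (Polynomial.aeval θ (Polynomial.derivative (minpoly F θ))) = 1 := by
    have hne := (minpoly.monic hθF).map (algebraMap F (AlgebraicClosure L))
    have hroot : ι θ ∈ ((minpoly F θ).map (algebraMap F (AlgebraicClosure L))).roots := by
      rw [Polynomial.mem_roots hne.ne_zero, Polynomial.IsRoot, Polynomial.eval_map_algebraMap,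
        Polynomial.aeval_algHom_apply, minpoly.aeval, map_zero]
    have e := (IsAlgClosed.splits _).eval_root_derivative hne hroot
    rw [Polynomial.derivative_map, Polynomial.eval_map_algebraMap,
      Polynomial.aeval_algHom_apply] at e
    rw [← hw]
    change w (ι _) = 1
    rw [e, map_multiset_prod]
    refine Multiset.prod_eq_one fun x hx => ?_
    simp only [Multiset.map_map, Multiset.mem_map, Function.comp_apply] at hx
    obtain ⟨r, hr, rfl⟩ := hx
    rw [(Polynomial.nodup_roots
      (Polynomial.Separable.map (Algebra.IsSeparable.isSeparable F θ))).mem_erase_iff] at hr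
    have hr2 : r ∈ (minpoly F θ).rootSet (AlgebraicClosure L) := by
      rw [Polynomial.rootSet, Finset.mem_coe, Multiset.mem_toFinset]; exact hr.2
    rw [← Algebra.IsAlgebraic.range_eval_eq_rootSet_minpoly] at hr2
    obtain ⟨σ, rfl⟩ := hr2
    exact hσ σ fun h => hr.1 (by rw [h])
  have hd0 : Polynomial.aeval θ (Polynomial.derivative (minpoly F θ)) ≠ 0 := fun h => by
    rw [h, map_zero] at hder; exact zero_ne_one hder
  have hcond : ∀ b : L, IsIntegral v0.integer b → ∃ q : Polynomial F,
      (∀ i, v (algebraMap F L (q.coeff i)) ≤ 1) ∧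
        Polynomial.aeval θ q = Polynomial.aeval θ (Polynomial.derivative (minpoly F θ)) * b := by
    intro b hb
    have h1 : b ∈ (Algebra.traceForm F L).dualSubmodule
        (Subalgebra.toSubmodule (Algebra.adjoin v0.integer {θ})) := by
      intro y hy
      have hy' : IsIntegral v0.integer y := adjoin_le_integralClosure hθ hy
      obtain ⟨o, ho⟩ := IsIntegrallyClosed.isIntegral_iff.1
        (Algebra.isIntegral_trace (L := F) (hb.mul hy'))
      exact Submodule.mem_one.2 ⟨o, ho⟩
    rw [traceForm_dualSubmodule_adjoin v0.integer F hprim hθ,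
      Submodule.mem_smul_iff_inv_mul_mem (inv_ne_zero hd0), inv_inv, Subalgebra.mem_toSubmodule,
      Algebra.adjoin_singleton_eq_range_aeval] at h1
    obtain ⟨q, hq⟩ := h1
    refine ⟨q.map (algebraMap v0.integer F), fun i => ?_, ?_⟩
    · rw [Polynomial.coeff_map]; exact (q.coeff i).2
    · rw [Polynomial.aeval_map_algebraMap]; exact hq
  refine ⟨θ, struct_int_le v hO hθ, fun i => ?_, hder, fun a ha => ?_⟩
  · rw [minpoly.isIntegrallyClosed_eq_field_fractions' F hθ, Polynomial.coeff_map]
    exact ((minpoly v0.integer θ).coeff i).2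
  · obtain ⟨b, c, hb, hc, hc1, hac⟩ := hdiv a ha
    obtain ⟨q, hq, eq⟩ := hcond b hb
    obtain ⟨q', hq', eq'⟩ := hcond c hc
    refine ⟨q, q', hq, hq', by rw [eq', map_mul, hder, hc1, mul_one], ?_⟩
    rw [eq, eq', ← hac]
    ring

theorem struct_factor {κ : Type} {v : Val L} {t : L} {u : κ → L} (h : ResInd v u) (h0 : 0 < v t)
    (h1 : v t < 1) (p : MvPolynomial (Option κ) ℂ) (hp : p ≠ 0) :
    ∃ (n : ℕ) (q : MvPolynomial (Option κ) ℂ), p = X none ^ n * q ∧
      v (aeval (fun o : Option κ => o.elim t u) q) = 1 := by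
  obtain ⟨q, hq⟩ : Polynomial.X ^ (optionEquivLeft ℂ κ p).natTrailingDegree ∣
      optionEquivLeft ℂ κ p :=
    Polynomial.X_pow_dvd_iff.2 fun d hd => Polynomial.coeff_eq_zero_of_lt_natTrailingDegree hd
  have hg := h.gauss h0 h1 p hp
  generalize (optionEquivLeft ℂ κ p).natTrailingDegree = n at hq hg
  have e : p = X none ^ n * (optionEquivLeft ℂ κ).symm q := by
    apply (optionEquivLeft ℂ κ).injective
    rw [map_mul, map_pow, optionEquivLeft_X_none, AlgEquiv.apply_symm_apply, ← hq]
  refine ⟨n, _, e, ?_⟩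
  rw [e, map_mul, map_pow, aeval_X, map_mul, map_pow] at hg
  exact mul_left_cancel₀ (pow_ne_zero n h0.ne') (hg.trans (mul_one _).symm)

theorem struct_frac {κ : Type} {v : Val L} {t : L} {u : κ → L} (h : ResInd v u) (h0 : 0 < v t)
    (h1 : v t < 1) {f : L}
    (hf : f ∈ IntermediateField.adjoin ℂ (Set.range fun o : Option κ => o.elim t u))
    (hv : v f ≤ 1) : ∃ p d : MvPolynomial (Option κ) ℂ,
      v (aeval (fun o : Option κ => o.elim t u) d) = 1 ∧
        f * aeval (fun o : Option κ => o.elim t u) d =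
          aeval (fun o : Option κ => o.elim t u) p := by
  obtain ⟨r, s, rfl⟩ := (IntermediateField.mem_adjoin_range_iff _ _ _).1 hf
  rcases eq_or_ne r 0 with rfl | hr
  · exact ⟨0, 1, by simp, by simp⟩
  rcases eq_or_ne s 0 with rfl | hs
  · exact ⟨0, 1, by simp, by simp⟩
  obtain ⟨a, r', rfl, hr'⟩ := struct_factor h h0 h1 r hr
  obtain ⟨b, s', rfl, hs'⟩ := struct_factor h h0 h1 s hs
  simp only [map_mul, map_pow, aeval_X, map_div₀, hr', hs', mul_one, Option.elim_none] at hv
  rw [div_le_one₀ (pow_pos h0 b), pow_le_pow_iff_right_of_lt_one₀ h0 h1] at hv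
  obtain ⟨c, rfl⟩ := Nat.exists_eq_add_of_le hv
  have ht0 : t ≠ 0 := fun h' => by simp [h'] at h0
  have hs0 : aeval (fun o : Option κ => o.elim t u) s' ≠ 0 := fun h' => by simp [h'] at hs'
  refine ⟨X none ^ c * r', s', hs', ?_⟩
  simp only [map_mul, map_pow, aeval_X, Option.elim_none]
  field_simp
  ring

/-- Apply `exists_struct_aux` to `F = ℂ(t, u)`.  An integral element of `F` is `p / q` with
polynomials `p, q` and `v q = 1` (`ResInd.gauss`: cancel powers of `t`); clear denominators. -/
theorem exists_struct {κ : Type} [Fintype κ] {v : Val L} {t : L} {u : κ → L} (hf : IsFrame v t u)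
    (ht : IsUnif v t) (hfg : (⊤ : IntermediateField ℂ L).FG) :
    ∃ (θ : L) (Q : Polynomial (MvPolynomial (Option κ) ℂ)), v θ ≤ 1 ∧ pvq t u θ Q = 0 ∧
      v (pvq t u θ (Polynomial.derivative Q)) = 1 ∧
      (∀ q, pvq t u θ q = 0 → ∃ b : MvPolynomial (Option κ) ℂ, b ≠ 0 ∧ Q ∣ Polynomial.C b * q) ∧
      ∀ a : L, v a ≤ 1 → ∃ q c, v (pvq t u θ c) = 1 ∧ a * pvq t u θ c = pvq t u θ q := by
  classical
  set y : Option κ → L := fun o => o.elim t u with hy
  let F : IntermediateField ℂ L := IntermediateField.adjoin ℂ (Set.range y)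
  have hyF : ∀ o, y o ∈ F := fun o => IntermediateField.subset_adjoin _ _ ⟨o, rfl⟩
  have halg : ∀ a : L, IsAlgebraic F a := fun a =>
    (hf.alg a).tower_top_of_subalgebra_le (B := F.toSubalgebra) (Algebra.adjoin_le (by
      rintro _ (rfl | ⟨i, rfl⟩)
      · exact hyF none
      · exact hyF (some i)))
  have : FiniteDimensional F L := by
    obtain ⟨s, hs⟩ := hfg
    have h1 : IntermediateField.adjoin F (s : Set L) = ⊤ := by
      rw [eq_top_iff]
      intro a _
      have h2 : IntermediateField.adjoin ℂ (s : Set L) ≤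
          (IntermediateField.adjoin F (s : Set L)).restrictScalars ℂ :=
        IntermediateField.adjoin_le_iff.2 (IntermediateField.subset_adjoin _ _)
      exact h2 (hs ▸ IntermediateField.mem_top)
    have h3 := IntermediateField.finiteDimensional_adjoin (K := F) (S := (s : Set L))
      fun a _ => (halg a).isIntegral
    rw [h1] at h3
    exact IntermediateField.topEquiv.toLinearEquiv.finiteDimensional
  obtain ⟨θ, hθ, hP, hP', hall⟩ := exists_struct_aux (F := F) v hf.res.triv ⟨t, hyF none⟩ ht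
  let e : MvPolynomial (Option κ) ℂ →+* L :=
    (aeval y : MvPolynomial (Option κ) ℂ →ₐ[ℂ] L).toRingHom
  have hinj : Function.Injective e := hf.res.algInd hf.pos hf.lt
  have hpv : ∀ q, pvq t u θ q = (q.map e).eval θ := fun q => (Polynomial.eval_map _ _).symm
  let M : Submonoid (MvPolynomial (Option κ) ℂ) :=
    { carrier := {d | v (e d) = 1}
      mul_mem' := fun {a b} ha hb => by
        change v (e (a * b)) = 1
        rw [map_mul, map_mul, ha, hb, mul_one]
      one_mem' := by change v (e 1) = 1; rw [map_one, map_one] }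
  have clr : ∀ g : Polynomial F, (∀ i, v (algebraMap F L (g.coeff i)) ≤ 1) →
      ∃ (G : Polynomial (MvPolynomial (Option κ) ℂ)) (d : MvPolynomial (Option κ) ℂ),
        v (e d) = 1 ∧ G.map e = Polynomial.C (e d) * g.map (algebraMap F L) := by
    intro g hg
    refine struct_clear e M _ fun i => ?_
    rw [Polynomial.coeff_map]
    obtain ⟨p, d, h1, h2⟩ := struct_frac hf.res hf.pos hf.lt (g.coeff i).2 (hg i)
    exact ⟨p, d, h1, h2⟩
  obtain ⟨Q, d, hd, hQ⟩ := clr _ hP
  refine ⟨θ, Q, hθ, ?_, ?_, fun q hq => ?_, fun a ha => ?_⟩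
  · rw [hpv, hQ, Polynomial.eval_mul, Polynomial.eval_map_algebraMap, minpoly.aeval, mul_zero]
  · rw [hpv, ← Polynomial.derivative_map, hQ, Polynomial.derivative_C_mul, Polynomial.eval_mul,
      Polynomial.eval_C, Polynomial.derivative_map, Polynomial.eval_map_algebraMap, map_mul, hd,
      hP', mul_one]
  · let e' : MvPolynomial (Option κ) ℂ →+* F :=
      (aeval fun o => (⟨y o, hyF o⟩ : F) : MvPolynomial (Option κ) ℂ →ₐ[ℂ] F).toRingHom
    have he : (algebraMap F L).comp e' = e := by
      ext c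
      · simp [e, e']
      · simp [e, e']
    have h1 : Polynomial.aeval θ (q.map e') = 0 := by
      rw [← Polynomial.eval_map_algebraMap, Polynomial.map_map, he, ← hpv, hq]
    obtain ⟨s, hs⟩ := minpoly.dvd F θ h1
    obtain ⟨S, d', hd', hS⟩ := struct_clear e (nonZeroDivisors _) (s.map (algebraMap F L))
      fun i => by
        rw [Polynomial.coeff_map]
        obtain ⟨r, r', h2⟩ := (IntermediateField.mem_adjoin_range_iff _ _ _).1 (s.coeff i).2
        rcases eq_or_ne r' 0 with rfl | hr'
        · refine ⟨0, 1, one_mem _, ?_⟩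
          change ((s.coeff i : F) : L) * _ = _
          simp [h2]
        · refine ⟨r, r', mem_nonZeroDivisors_of_ne_zero hr', ?_⟩
          change ((s.coeff i : F) : L) * _ = _
          rw [h2]
          exact div_mul_cancel₀ _ ((map_ne_zero_iff e hinj).2 hr')
    have hd0 : d ≠ 0 := fun h' => by simp [h'] at hd
    refine ⟨d * d', mul_ne_zero hd0 (nonZeroDivisors.ne_zero hd'), S, ?_⟩
    apply Polynomial.map_injective e hinj
    have h3 := congrArg (Polynomial.map (algebraMap F L)) hs
    rw [Polynomial.map_map, he, Polynomial.map_mul] at h3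
    simp only [Polynomial.map_mul, Polynomial.map_C, hQ, hS, h3, map_mul]
    ring
  · obtain ⟨q, c, hq, hc, hc1, hac⟩ := hall a ha
    obtain ⟨q', d1, hd1, h1⟩ := clr q hq
    obtain ⟨c', d2, hd2, h2⟩ := clr c hc
    refine ⟨Polynomial.C d2 * q', Polynomial.C d1 * c', ?_, ?_⟩
    · simp only [hpv, Polynomial.map_mul, Polynomial.map_C, h2, Polynomial.eval_mul,
        Polynomial.eval_C, Polynomial.eval_map_algebraMap, map_mul, hd1, hd2, hc1, mul_one]
    · simp only [hpv, Polynomial.map_mul, Polynomial.map_C, h1, h2, Polynomial.eval_mul,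
        Polynomial.eval_C, Polynomial.eval_map_algebraMap, ← hac]
      ring

end Pool.Agent.MP_c0606f_ag.Klt

end

-- part MP_c0606f_ag.Klt.Ent
section

/-! Lattice volumes: chain rule, monotonicity, cost of conditioning, pivot lemma. -/

namespace Pool.Agent.MP_c0606f_ag.Klt

open scoped NNReal

variable {L : Type} [Field L] {E : Type} [AddCommGroup E] [Module L E] {α : Type} [DecidableEq α]
  {v : Val L} {M M' : Set E} {ℓ : α → E →ₗ[L] L}

omit [DecidableEq α] in
theorem IsLat.kill (hM : IsLat v M) (ℓ : α → E →ₗ[L] L) (S : Finset α) :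
    IsLat v (kill M ℓ S) := by
  refine ⟨⟨hM.zero, fun a _ => map_zero _⟩, ?_, ?_⟩
  · intro a ha b hb
    exact ⟨hM.add a ha.1 b hb.1, fun x hx => by rw [map_add, ha.2 x hx, hb.2 x hx, add_zero]⟩
  · intro c hc a ha
    exact ⟨hM.smul c hc a ha.1, fun x hx => by rw [map_smul, ha.2 x hx, smul_zero]⟩

omit [DecidableEq α] in
theorem Bdd1.bdd (h : Bdd1 v M ℓ) : Bdd v M ℓ := by
  intro a
  exact ⟨1, h a⟩

omit [DecidableEq α] in
theorem Bdd.mono (h : Bdd v M ℓ) (hM : M' ⊆ M) : Bdd v M' ℓ := by
  intro a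
  obtain ⟨C, hC⟩ := h a
  exact ⟨C, fun e he => hC e (hM he)⟩

omit [DecidableEq α] in
theorem Bdd1.mono (h : Bdd1 v M ℓ) (hM : M' ⊆ M) : Bdd1 v M' ℓ := by
  intro a e he
  exact h a e (hM he)

theorem isLat_intv (v : Val L) (ι : Type) : IsLat v (intv v ι) := by
  refine ⟨fun i => by simp, ?_, ?_⟩
  · intro a ha b hb i
    exact v.map_add_le (ha i) (hb i)
  · intro c hc a ha i
    have : v ((c • a) i) = v c * v (a i) := by simp
    rw [this]
    exact mul_le_one' hc (ha i)

omit [DecidableEq α] in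
theorem bdd1_intv {ι : Type} [Fintype ι] (a : α → ι → L) (ha : ∀ x i, v (a x i) ≤ 1) :
    Bdd1 v (intv v ι) fun x => dotL (a x) := by
  intro x e he
  rw [dotL_apply]
  refine v.map_sum_le fun i _ => ?_
  rw [map_mul]
  exact mul_le_one' (he i) (ha x i)

omit [DecidableEq α] in
theorem bdd_intv {ι : Type} [Fintype ι] (a : α → ι → L) :
    Bdd v (intv v ι) fun x => dotL (a x) := by
  intro x
  refine ⟨∑ i, v (a x i), fun e he => ?_⟩
  rw [dotL_apply]
  refine v.map_sum_le fun i _ => ?_
  rw [map_mul]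
  calc v (e i) * v (a x i) ≤ 1 * v (a x i) := by gcongr; exact he i
    _ = v (a x i) := one_mul _
    _ ≤ ∑ i, v (a x i) :=
      Finset.single_le_sum (f := fun i => v (a x i)) (fun _ _ => zero_le) (Finset.mem_univ i)

/-- `v (det A) ≤ ∏ j, B j` if column `j` is bounded by `B j` (`Matrix.det_apply`,
`Valuation.map_sum_le`). -/
theorem val_det_le {ι : Type} [Fintype ι] [DecidableEq ι] (A : Matrix ι ι L) (B : ι → ℝ≥0)
    (h : ∀ i j, v (A i j) ≤ B j) : v A.det ≤ ∏ j, B j := by
  rw [Matrix.det_apply]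
  refine v.map_sum_le fun σ _ => ?_
  have h1 : v (Equiv.Perm.sign σ • ∏ i, A (σ i) i) = v (∏ i, A (σ i) i) := by
    rcases Int.units_eq_one_or (Equiv.Perm.sign σ) with h | h <;> simp [h]
  rw [h1, map_prod]
  exact Finset.prod_le_prod' fun j _ => h _ j

/-- the largest minor of a finite family of functionals -/
noncomputable def entG {ι : Type} [Fintype ι] [DecidableEq ι] (v : Val L) (M : Set E)
    (m : ι → E →ₗ[L] L) : ℝ≥0 :=
  ⨆ e : ι → M, v (Matrix.of fun i j : ι => m j (e i)).det

omit [DecidableEq α] in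
theorem ent_le_G {ι : Type} [Fintype ι] [DecidableEq ι] {m : ι → E →ₗ[L] L} (hb : Bdd v M m)
    (e : ι → E) (he : ∀ i, e i ∈ M) :
    v (Matrix.of fun i j : ι => m j (e i)).det ≤ entG v M m := by
  choose C hC using hb
  have hbd : BddAbove (Set.range fun e : ι → M =>
      v (Matrix.of fun i j : ι => m j (e i)).det) := by
    refine ⟨∏ j, C j, ?_⟩
    rintro _ ⟨e, rfl⟩
    exact val_det_le _ C fun i j => hC j _ (e i).2
  exact le_ciSup hbd (fun i => (⟨e i, he i⟩ : M))

omit [DecidableEq α] in
theorem ent_G_le {ι : Type} [Fintype ι] [DecidableEq ι] {m : ι → E →ₗ[L] L} {B : ℝ≥0}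
    (h : ∀ e : ι → E, (∀ i, e i ∈ M) → v (Matrix.of fun i j : ι => m j (e i)).det ≤ B) :
    entG v M m ≤ B :=
  ciSup_le' fun e => h (fun i => e i) fun i => (e i).2

omit [DecidableEq α] in
theorem ent_G_equiv {ι κ : Type} [Fintype ι] [DecidableEq ι] [Fintype κ] [DecidableEq κ]
    (σ : κ ≃ ι) (m : ι → E →ₗ[L] L) : entG v M (fun k => m (σ k)) = entG v M m := by
  unfold entG
  refine Equiv.iSup_congr (σ.arrowCongr (Equiv.refl M)) fun e => ?_
  rw [← Matrix.det_submatrix_equiv_self σ]
  congr 2
  ext i j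
  simp

theorem ent_lvol_eq (S : Finset α) : lvol v M ℓ S = entG v M fun j : S => ℓ j := rfl

omit [DecidableEq α] in
theorem ent_bdd_comp (hb : Bdd v M ℓ) {ι : Type} (f : ι → α) : Bdd v M fun j => ℓ (f j) :=
  fun j => hb (f j)

theorem le_lvol (hb : Bdd v M ℓ) (S : Finset α) (e : S → E) (he : ∀ i, e i ∈ M) :
    v (Matrix.of fun i j : S => ℓ j (e i)).det ≤ lvol v M ℓ S := by
  exact ent_le_G (m := fun j : S => ℓ j) (ent_bdd_comp hb _) e he

theorem lvol_le (S : Finset α) {B : ℝ≥0}
    (h : ∀ e : S → E, (∀ i, e i ∈ M) → v (Matrix.of fun i j : S => ℓ j (e i)).det ≤ B) :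
    lvol v M ℓ S ≤ B := by
  exact ent_G_le (m := fun j : S => ℓ j) h

theorem lvol_empty : lvol v M ℓ ∅ = 1 := by
  unfold lvol
  have : IsEmpty (∅ : Finset α) := ⟨fun x => Finset.notMem_empty _ x.2⟩
  simp [Matrix.det_isEmpty]

theorem lvol_mono (hb : Bdd v M ℓ) (hM : M' ⊆ M) (S : Finset α) :
    lvol v M' ℓ S ≤ lvol v M ℓ S := by
  exact lvol_le S fun e he => le_lvol hb S e fun i => hM (he i)

theorem lvol_le_one (hb : Bdd1 v M ℓ) (S : Finset α) : lvol v M ℓ S ≤ 1 := by
  refine lvol_le S fun e he => ?_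
  have := val_det_le (v := v) (Matrix.of fun i j : S => ℓ j (e i)) (fun _ => 1)
    fun i j => hb j _ (he i)
  simpa using this

theorem le_lvol_singleton (hb : Bdd v M ℓ) (a : α) {e : E} (he : e ∈ M) :
    v (ℓ a e) ≤ lvol v M ℓ {a} := by
  have := le_lvol hb {a} (fun _ => e) fun _ => he
  rw [Matrix.det_unique] at this
  have h2 : ((default : ({a} : Finset α)) : α) = a := Finset.mem_singleton.1 (Subtype.property _)
  simpa [h2] using this

theorem lvol_singleton_le (a : α) {B : ℝ≥0} (h : ∀ e ∈ M, v (ℓ a e) ≤ B) :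
    lvol v M ℓ {a} ≤ B := by
  refine lvol_le {a} fun e he => ?_
  rw [Matrix.det_unique]
  have h2 : ((default : ({a} : Finset α)) : α) = a := Finset.mem_singleton.1 (Subtype.property _)
  simpa [h2] using h _ (he default)

/-- reindex by `Finset.equivMap`-like bijections and `Matrix.det_submatrix_equiv_self` -/
theorem lvol_map {β : Type} [DecidableEq β] (f : β ↪ α) (S : Finset β) :
    lvol v M ℓ (S.map f) = lvol v M (fun b => ℓ (f b)) S := by
  rw [ent_lvol_eq, ent_lvol_eq]
  let σ : S ≃ S.map f := Equiv.ofBijective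
    (fun b => ⟨f b, Finset.mem_map_of_mem f b.2⟩) (by
      constructor
      · intro x y hxy
        exact Subtype.ext (f.injective (congrArg Subtype.val hxy))
      · rintro ⟨y, hy⟩
        obtain ⟨b, hb, rfl⟩ := Finset.mem_map.1 hy
        exact ⟨⟨b, hb⟩, rfl⟩)
  exact (ent_G_equiv σ fun j : S.map f => ℓ j).symm

theorem ent_lvol_univ [Fintype α] : lvol v M ℓ Finset.univ = entG v M ℓ := by
  rw [ent_lvol_eq]
  let σ : {x // x ∈ (Finset.univ : Finset α)} ≃ α :=
    ⟨fun x => x.1, fun x => ⟨x, Finset.mem_univ x⟩, fun _ => rfl, fun _ => rfl⟩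
  have h := ent_G_equiv (v := v) (M := M) σ ℓ
  exact h

theorem le_lvol_univ [Fintype α] (hb : Bdd v M ℓ) (e : α → E) (he : ∀ i, e i ∈ M) :
    v (Matrix.of fun i j => ℓ j (e i)).det ≤ lvol v M ℓ Finset.univ := by
  rw [ent_lvol_univ]
  exact ent_le_G hb e he

theorem lvol_univ_le [Fintype α] {B : ℝ≥0}
    (h : ∀ e : α → E, (∀ i, e i ∈ M) → v (Matrix.of fun i j => ℓ j (e i)).det ≤ B) :
    lvol v M ℓ Finset.univ ≤ B := by
  rw [ent_lvol_univ]
  exact ent_G_le h

omit [DecidableEq α] in
theorem ent_det_option {β : Type} [Fintype β] [DecidableEq β] (A : Matrix (Option β) (Option β) L)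
    (h : ∀ i, A (some i) none = 0) :
    A.det = A none none * (Matrix.of fun i j => A (some i) (some j)).det := by
  have e1 : A.submatrix (Equiv.optionEquivSumPUnit.{0} β).symm
      (Equiv.optionEquivSumPUnit.{0} β).symm =
      Matrix.fromBlocks (Matrix.of fun i j => A (some i) (some j)) 0
        (Matrix.of fun _ j => A none (some j)) (Matrix.of fun _ _ => A none none) := by
    ext i j
    rcases i with i | i <;> rcases j with j | j <;> simp [h]
  rw [← Matrix.det_submatrix_equiv_self (Equiv.optionEquivSumPUnit.{0} β).symm, e1,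
    Matrix.det_fromBlocks_zero₁₂, mul_comm]
  congr 1
  exact Matrix.det_unique _

omit [DecidableEq α] in
theorem ent_sub_mem (hM : IsLat v M) {a b : E} (ha : a ∈ M) (hb : b ∈ M) {c : L} (hc : v c ≤ 1) :
    a - c • b ∈ M := by
  have := hM.add a ha _ (hM.smul (-c) (by simpa using hc) b hb)
  rwa [neg_smul, ← sub_eq_add_neg] at this

omit [DecidableEq α] in
theorem ent_div_le {x y : L} (h : v x ≤ v y) : v (x / y) ≤ 1 := by
  rw [map_div₀]
  exact div_le_one_of_le₀ h zero_le

omit [DecidableEq α] in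
/-- pivoting on the row `none` -/
theorem ent_pivot (hM : IsLat v M) {β : Type} [Fintype β] [DecidableEq β]
    (m : Option β → E →ₗ[L] L) (e : Option β → E) (he : ∀ i, e i ∈ M)
    (hmax : ∀ i, v (m none (e i)) ≤ v (m none (e none))) :
    ∃ e' : β → E, (∀ i, e' i ∈ M ∧ m none (e' i) = 0) ∧
      (Matrix.of fun i j => m j (e i)).det =
        m none (e none) * (Matrix.of fun i j => m (some j) (e' i)).det := by
  by_cases h0 : m none (e none) = 0
  · refine ⟨fun _ => 0, fun _ => ⟨hM.zero, map_zero _⟩, ?_⟩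
    rw [h0, zero_mul]
    refine Matrix.det_eq_zero_of_column_eq_zero none fun i => ?_
    have := hmax i
    rw [h0, map_zero, nonpos_iff_eq_zero, map_eq_zero] at this
    simpa using this
  · let c : Option β → L := fun i => i.elim 0 fun i => m none (e (some i)) / m none (e none)
    let e' : Option β → E := fun i => e i - c i • e none
    have hk : ∀ i, m none (e' (some i)) = 0 := by
      intro i
      simp only [e', c, Option.elim, map_sub, map_smul, smul_eq_mul]
      field_simp
      ring
    refine ⟨fun i => e' (some i), fun i => ⟨?_, hk i⟩, ?_⟩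
    · exact ent_sub_mem hM (he _) (he _) (ent_div_le (hmax _))
    · have h1 : (Matrix.of fun i j => m j (e i)).det = (Matrix.of fun i j => m j (e' i)).det := by
        refine Matrix.det_eq_of_forall_row_eq_smul_add_const c none rfl fun i j => ?_
        simp [e', c]
      rw [h1, ent_det_option _ (by simpa using hk)]
      simp [e', c]

omit [DecidableEq α] in
theorem ent_G_option (hM : IsLat v M) {β : Type} [Fintype β] [DecidableEq β]
    (m : Option β → E →ₗ[L] L) (hb : Bdd v M m) (s : ℝ≥0)
    (hs1 : ∀ e ∈ M, v (m none e) ≤ s) (hs2 : ∀ B, (∀ e ∈ M, v (m none e) ≤ B) → s ≤ B) :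
    entG v M m = s * entG v {e | e ∈ M ∧ m none e = 0} fun j => m (some j) := by
  have hb' : Bdd v {e | e ∈ M ∧ m none e = 0} fun j => m (some j) :=
    (ent_bdd_comp hb some).mono fun _ h => h.1
  apply le_antisymm
  · refine ent_G_le fun e he => ?_
    obtain ⟨i0, hi0⟩ := Finite.exists_max fun i => v (m none (e i))
    obtain ⟨e', he', hdet⟩ := ent_pivot hM m (fun i => e (Equiv.swap none i0 i))
      (fun i => he _) (fun i => by simpa using hi0 _)
    have h2 : v (Matrix.of fun i j => m j (e i)).det =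
        v (Matrix.of fun i j => m j (e (Equiv.swap none i0 i))).det := by
      have := Matrix.det_permute (Equiv.swap none i0) (Matrix.of fun i j => m j (e i))
      have h3 : (Matrix.of fun i j => m j (e (Equiv.swap none i0 i))) =
          (Matrix.of fun i j => m j (e i)).submatrix (Equiv.swap none i0) id := rfl
      rw [h3, this]
      rcases Int.units_eq_one_or (Equiv.Perm.sign (Equiv.swap none i0)) with h | h <;> simp [h]
    rw [h2, hdet, map_mul]
    exact mul_le_mul' (hs1 _ (he _)) (ent_le_G hb' e' he')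
  · have key : ∀ e0 ∈ M, ∀ e' : β → E, (∀ i, e' i ∈ {e | e ∈ M ∧ m none e = 0}) →
        v (m none e0) * v (Matrix.of fun i j => m (some j) (e' i)).det ≤ entG v M m := by
      intro e0 he0 e' he'
      have h1 := ent_le_G hb (fun i : Option β => i.elim e0 e') (by
        rintro (_ | i)
        · exact he0
        · exact (he' i).1)
      rw [ent_det_option _ (fun i => by simpa using (he' i).2), map_mul] at h1
      exact h1
    set t := entG v {e | e ∈ M ∧ m none e = 0} fun j => m (some j) with ht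
    rcases eq_or_ne t 0 with h0 | h0
    · rw [h0, mul_zero]; exact zero_le
    · have hpos : 0 < t := pos_iff_ne_zero.2 h0
      rw [← le_div_iff₀ hpos]
      refine hs2 _ fun e0 he0 => ?_
      rw [le_div_iff₀ hpos]
      rcases eq_or_ne (v (m none e0)) 0 with h1 | h1
      · rw [h1, zero_mul]; exact zero_le
      · have hpos1 : 0 < v (m none e0) := pos_iff_ne_zero.2 h1
        rw [← le_div_iff₀' hpos1]
        refine ent_G_le fun e' he' => ?_
        rw [le_div_iff₀' hpos1]
        exact key e0 he0 e' he'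

/-- Chain rule for one functional.  It is convenient to prove first a version for families indexed
by `Option β` (`β` a finite type).  `≥`: for `e none ∈ M` and `e (some i) ∈ kill M ℓ {a}` the
determinant is block triangular.  `≤`: given `e`, choose the row `i0` maximising `v (ℓ a (e i))`
(if this is `0` the determinant vanishes), permute rows so that `i0 = none`, and replace `e i` by
`e i - (ℓ a (e i) / ℓ a (e i0)) • e i0 ∈ kill M ℓ {a}`; the determinant does not change
(`Matrix.det_eq_of_forall_row_eq_smul_add_const` or multiplication by a unitriangular matrix).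
For products of suprema use `NNReal.iSup_mul`, `NNReal.mul_iSup_le`, `NNReal.iSup_mul_iSup_le`. -/
theorem lvol_insert (hM : IsLat v M) (hb : Bdd v M ℓ) {a : α} {S : Finset α} (ha : a ∉ S) :
    lvol v M ℓ (insert a S) = lvol v M ℓ {a} * lvol v (kill M ℓ {a}) ℓ S := by
  rw [ent_lvol_eq (insert a S), ← ent_G_equiv (Finset.subtypeInsertEquivOption ha).symm]
  have h1 : (fun k : Option S =>
      ℓ ((Finset.subtypeInsertEquivOption ha).symm k : (insert a S : Finset α))) =
      fun k : Option S => ℓ (k.elim a Subtype.val) := by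
    funext k
    rcases k with _ | k <;> rfl
  rw [h1, ent_G_option hM _ (ent_bdd_comp hb _) (lvol v M ℓ {a})
    (fun e he => le_lvol_singleton hb a he) (fun B hB => lvol_singleton_le a hB)]
  have h2 : kill M ℓ {a} = {e | e ∈ M ∧ ℓ a e = 0} := by
    ext e; simp [kill]
  rw [h2]
  rfl

omit [DecidableEq α] in
theorem ent_kill_sub (S : Finset α) : kill M ℓ S ⊆ M := fun _ h => h.1

omit [DecidableEq α] in
theorem ent_kill_empty : kill M ℓ ∅ = M := by
  ext e; simp [kill]

theorem ent_kill_kill (a : α) (T : Finset α) :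
    kill (kill M ℓ {a}) ℓ T = kill M ℓ (insert a T) := by
  ext e; simp [kill, and_assoc]

/-- induction on `T` generalizing `M`; `kill (kill M ℓ {a}) ℓ T = kill M ℓ (insert a T)` -/
theorem lvol_union (hM : IsLat v M) (hb : Bdd v M ℓ) {S T : Finset α} (h : Disjoint S T) :
    lvol v M ℓ (S ∪ T) = lvol v M ℓ T * lvol v (kill M ℓ T) ℓ S := by
  induction T using Finset.induction_on generalizing M with
  | empty => rw [Finset.union_empty, lvol_empty, one_mul, ent_kill_empty]
  | insert a T haT ih =>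
    have haS : a ∉ S := fun hh => Finset.disjoint_left.1 h hh (Finset.mem_insert_self a T)
    have hST : Disjoint S T := h.mono_right (Finset.subset_insert a T)
    have h1 : a ∉ S ∪ T := by simp [haS, haT]
    rw [Finset.union_insert, lvol_insert hM hb h1, lvol_insert hM hb haT,
      ih (hM.kill ℓ {a}) (hb.mono (ent_kill_sub _)) hST, ent_kill_kill, mul_assoc]

/-- supermodularity -/
theorem lvol_biUnion_le (hM : IsLat v M) (hb : Bdd v M ℓ) {β : Type} [DecidableEq β]
    (B : β → Finset α) (hB : ∀ x y, x ≠ y → Disjoint (B x) (B y)) (T : Finset β) :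
    lvol v M ℓ (T.biUnion B) ≤ ∏ x ∈ T, lvol v M ℓ (B x) := by
  induction T using Finset.induction_on with
  | empty => simp [lvol_empty]
  | insert x T hx ih =>
    have hd : Disjoint (B x) (T.biUnion B) := by
      rw [Finset.disjoint_biUnion_right]
      intro y hy
      exact hB x y fun h => hx (h ▸ hy)
    rw [Finset.biUnion_insert, Finset.prod_insert hx, lvol_union hM hb hd, mul_comm]
    exact mul_le_mul' (lvol_mono hb (ent_kill_sub _) _) ih

/-- the points placed before position `j` -/
def pre {N : ℕ} (π : Equiv.Perm (Fin N)) (j : ℕ) : Finset (Fin N) :=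
  Finset.univ.filter fun x => (π.symm x : ℕ) < j

/-- chain rule along an ordering (induction on `g`, `pre π (g + 1) = insert (π g) (pre π g)`) -/
theorem lvol_pre (hM : IsLat v M) (hb : Bdd v M ℓ) {N : ℕ} (B : Fin N → Finset α)
    (hB : ∀ x y, x ≠ y → Disjoint (B x) (B y)) (π : Equiv.Perm (Fin N)) (g : ℕ) :
    lvol v M ℓ ((pre π g).biUnion B) =
      ∏ j ∈ Finset.univ.filter (fun j : Fin N => (j : ℕ) < g),
        lvol v (kill M ℓ ((pre π j).biUnion B)) ℓ (B (π j)) := by
  induction g with
  | zero =>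
    have : pre π 0 = ∅ := by ext x; simp [pre]
    simp [this, lvol_empty]
  | succ g ih =>
    by_cases hg : g < N
    · have h1 : pre π (g + 1) = insert (π ⟨g, hg⟩) (pre π g) := by
        ext x
        simp only [pre, Finset.mem_filter, Finset.mem_univ, true_and, Finset.mem_insert]
        constructor
        · intro hx
          rcases Nat.lt_succ_iff_lt_or_eq.1 hx with h | h
          · exact Or.inr h
          · left
            have : π.symm x = ⟨g, hg⟩ := Fin.ext h
            rw [← this, Equiv.apply_symm_apply]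
        · rintro (rfl | h)
          · simp
          · omega
      have h2 : (Finset.univ.filter fun j : Fin N => (j : ℕ) < g + 1) =
          insert ⟨g, hg⟩ (Finset.univ.filter fun j : Fin N => (j : ℕ) < g) := by
        ext x
        simp only [Finset.mem_filter, Finset.mem_univ, true_and, Finset.mem_insert, Fin.ext_iff]
        omega
      have hd : Disjoint (B (π ⟨g, hg⟩)) ((pre π g).biUnion B) := by
        rw [Finset.disjoint_biUnion_right]
        intro y hy
        refine hB _ y fun h => ?_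
        subst h
        simp [pre] at hy
      rw [h1, h2, Finset.biUnion_insert, Finset.prod_insert (by simp), lvol_union hM hb hd, ih,
        mul_comm]
    · have h1 : pre π (g + 1) = pre π g := by
        ext x
        have := (π.symm x).2
        simp only [pre, Finset.mem_filter, Finset.mem_univ, true_and]
        omega
      have h2 : (Finset.univ.filter fun j : Fin N => (j : ℕ) < g + 1) =
          Finset.univ.filter fun j : Fin N => (j : ℕ) < g := by
        ext x
        have := x.2
        simp only [Finset.mem_filter, Finset.mem_univ, true_and]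
        omega
      rw [h1, h2, ih]

/-- Cost of one more condition.  Either apply `lvol_union` twice to the family on `Option α`
extended by `μ`, or argue directly: given `e`, if all `v (μ (e i)) ≤ v (μ e0)` subtract multiples
of `e0`; otherwise pivot on the row `i0` maximising `v (μ (e i))` and replace `e i0` by
`(μ e0 / μ (e i0)) • e i0 - e0`. -/
theorem lvol_cost (hM : IsLat v M) (hb : Bdd v M ℓ) (S : Finset α) (μ : E →ₗ[L] L)
    (hμ : ∀ e ∈ M, v (μ e) ≤ 1) {e0 : E} (h0 : e0 ∈ kill M ℓ S) :
    lvol v M ℓ S * v (μ e0) ≤ lvol v {e | e ∈ M ∧ μ e = 0} ℓ S := by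
  let m : Option α → E →ₗ[L] L := fun o => o.elim μ ℓ
  have hbm : Bdd v M m := by
    rintro (_ | a)
    · exact ⟨1, hμ⟩
    · exact hb a
  have hn : (none : Option α) ∉ S.map Function.Embedding.some := by simp
  have hd : Disjoint ({none} : Finset (Option α)) (S.map Function.Embedding.some) := by
    simp
  have h1 := lvol_union hM hbm hd
  have h2 := lvol_insert hM hbm hn
  rw [← Finset.insert_eq, h2, lvol_map, lvol_map] at h1
  have h3 : kill M m {none} = {e | e ∈ M ∧ μ e = 0} := by
    ext e; simp [kill, m]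
  have h4 : v (μ e0) ≤ lvol v (kill M m (S.map Function.Embedding.some)) m {none} := by
    refine le_lvol_singleton (hbm.mono (ent_kill_sub _)) none (e := e0) ⟨h0.1, ?_⟩
    intro a ha
    obtain ⟨b, hb', rfl⟩ := Finset.mem_map.1 ha
    exact h0.2 b hb'
  have h5 : lvol v M m {none} ≤ 1 := lvol_singleton_le none hμ
  rw [h3] at h1
  calc lvol v M ℓ S * v (μ e0)
      ≤ lvol v M ℓ S * lvol v (kill M m (S.map Function.Embedding.some)) m {none} := by gcongr
    _ = lvol v M m {none} * lvol v {e | e ∈ M ∧ μ e = 0} ℓ S := h1.symm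
    _ ≤ 1 * lvol v {e | e ∈ M ∧ μ e = 0} ℓ S := by gcongr
    _ = _ := one_mul _

/-- Several conditions: `e0 b ∈ M` is killed by `S` and by `μ b'` for `b' ≠ b` (induction over
finite sets of conditions). -/
theorem lvol_cost_fin (hM : IsLat v M) (hb : Bdd v M ℓ) (S : Finset α) {β : Type} [Fintype β]
    (μ : β → E →ₗ[L] L) (hμ : ∀ b, ∀ e ∈ M, v (μ b e) ≤ 1) (e0 : β → E)
    (h0 : ∀ b, e0 b ∈ kill M ℓ S) (h1 : ∀ b b', b ≠ b' → μ b (e0 b') = 0) :
    lvol v M ℓ S * ∏ b, v (μ b (e0 b)) ≤ lvol v {e | e ∈ M ∧ ∀ b, μ b e = 0} ℓ S := by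
  classical
  have key : ∀ T : Finset β,
      lvol v M ℓ S * ∏ b ∈ T, v (μ b (e0 b)) ≤ lvol v (kill M μ T) ℓ S := by
    intro T
    induction T using Finset.induction_on with
    | empty => simp [ent_kill_empty]
    | insert b T hb' ih =>
      have h2 := lvol_cost (hM.kill μ T) (hb.mono (ent_kill_sub _)) S (μ b)
        (fun e he => hμ b e he.1) (e0 := e0 b)
        ⟨⟨(h0 b).1, fun b' hb'' => h1 b' b fun h => hb' (h ▸ hb'')⟩, (h0 b).2⟩
      have h3 : {e | e ∈ kill M μ T ∧ μ b e = 0} = kill M μ (insert b T) := by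
        ext e
        simp only [kill, Set.mem_ofPred_eq, Finset.forall_mem_insert]
        tauto
      rw [h3] at h2
      rw [Finset.prod_insert hb', mul_comm (v _), ← mul_assoc]
      exact le_trans (by gcongr) h2
  have h4 : kill M μ Finset.univ = {e | e ∈ M ∧ ∀ b, μ b e = 0} := by
    ext e; simp [kill]
  rw [← h4]
  exact key _

/-- the matrix of values is `e * aᵀ` -/
theorem lvol_intv [Fintype α] (a : α → α → L) :
    lvol v (intv v α) (fun x => dotL (a x)) Finset.univ = v (Matrix.of a).det := by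
  have hm : ∀ e : α → α → L, (Matrix.of fun i j => dotL (a j) (e i)).det =
      (Matrix.of e).det * (Matrix.of a).det := by
    intro e
    rw [← Matrix.det_transpose (Matrix.of a), ← Matrix.det_mul]
    congr 1
  apply le_antisymm
  · refine lvol_univ_le fun e he => ?_
    rw [hm, map_mul]
    have := val_det_le (v := v) (Matrix.of e) (fun _ => 1) fun i j => he i j
    simp only [Finset.prod_const_one] at this
    calc _ ≤ 1 * v (Matrix.of a).det := by gcongr
      _ = _ := one_mul _
  · have := le_lvol_univ (bdd_intv (v := v) a) (fun i => (1 : Matrix α α L) i) (by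
      intro i j
      by_cases h : i = j <;> simp [Matrix.one_apply, h])
    have h3 := hm fun i => (1 : Matrix α α L) i
    have h2 : (Matrix.of fun i => (1 : Matrix α α L) i) = 1 := rfl
    rw [h2, Matrix.det_one, one_mul] at h3
    rw [← h3]
    exact this

end Pool.Agent.MP_c0606f_ag.Klt

end

-- part MP_c0606f_ag.Klt.Der
section

/-! Derivations of fields of characteristic zero. -/

namespace Pool.Agent.MP_c0606f_ag.Klt

open scoped NNReal
open MvPolynomial

variable {L : Type} [Field L] [Algebra ℂ L]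

/-- adapt `exists_deriv` of `Pool.Agent.MP_95b452_co.Field` (formal smoothness and
`TrivSqZeroExt`) from `ℚ` to `ℂ` -/
theorem exists_der {ι : Type} {y : ι → L} (hy : IsTranscendenceBasis ℂ y) (a : ι → L) :
    ∃ D : Derivation ℂ L L, ∀ i, D (y i) = a i := by
  let P := MvPolynomial ι ℂ
  let _ : Algebra P L := (aeval y : P →ₐ[ℂ] L).toRingHom.toAlgebra
  have hinj : Function.Injective (algebraMap P L) := hy.1
  have : FaithfulSMul P L := (faithfulSMul_iff_algebraMap_injective _ _).2 hinj
  let _ : Algebra (FractionRing P) L := FractionRing.liftAlgebra P L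
  have : IsScalarTower P (FractionRing P) L := FractionRing.isScalarTower_liftAlgebra _ _
  have : CharZero (FractionRing P) :=
    charZero_of_injective_algebraMap (IsFractionRing.injective P (FractionRing P))
  have h1 : Algebra.FormallySmooth (FractionRing P) L := MP_95b452_co.formallySmooth_field _ _
  have h2 : Algebra.FormallySmooth P (FractionRing P) :=
    Algebra.FormallySmooth.of_isLocalization (nonZeroDivisors P)
  have h3 : Algebra.FormallySmooth P L := Algebra.FormallySmooth.comp _ (FractionRing P) _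
  let σ : P →+* DualNumber L :=
    eval₂Hom ((TrivSqZeroExt.inlHom L L).comp (algebraMap ℂ L))
      (fun i => TrivSqZeroExt.inl (y i) + TrivSqZeroExt.inr (a i))
  let _ : Algebra P (DualNumber L) := σ.toAlgebra
  let f0 : DualNumber L →+* L := (TrivSqZeroExt.fstHom L L L).toRingHom
  have hcomp : f0.comp σ = (aeval y : P →ₐ[ℂ] L).toRingHom := by
    apply MvPolynomial.ringHom_ext
    · intro k; simp [σ, f0, P]
    · intro i; simp [σ, f0, P]
  let g : DualNumber L →ₐ[P] L :=
    { f0 with commutes' := fun p => congrArg (fun h : P →+* L => h p) hcomp }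
  have hg : Function.Surjective g := fun x => ⟨TrivSqZeroExt.inl x, by simp [g, f0]⟩
  have hnil : IsNilpotent (RingHom.ker (g : DualNumber L →+* L)) := by
    refine ⟨2, ?_⟩
    rw [Submodule.pow_succ, Submodule.pow_one, Ideal.zero_eq_bot, eq_bot_iff, Ideal.mul_le]
    intro x hx y hy
    have hx' : x.fst = 0 := hx
    have hy' : y.fst = 0 := hy
    rw [Ideal.mem_bot]
    ext <;> simp [hx', hy']
  let l := Algebra.FormallySmooth.liftOfSurjective (AlgHom.id P L) g hg hnil
  have hl : ∀ x, (l x).fst = x := fun x =>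
    Algebra.FormallySmooth.liftOfSurjective_apply (AlgHom.id P L) g hg hnil x
  have hlp : ∀ p : P, l (aeval y p) = σ p := fun p => l.commutes p
  have hmul : ∀ x z, (l (x * z)).snd = x * (l z).snd + z * (l x).snd := fun x z => by
    simp [hl]; ring
  have hc : ∀ c : ℂ, (l (algebraMap ℂ L c)).snd = 0 := fun c => by
    have := hlp (C c)
    rw [aeval_C] at this
    simp [this, σ, P]
  let δ : L →ₗ[ℂ] L :=
    { toFun := fun x => (l x).snd
      map_add' := fun x z => by simp
      map_smul' := fun c x => by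
        rw [Algebra.smul_def, hmul, hc, mul_zero, add_zero, RingHom.id_apply, Algebra.smul_def] }
  refine ⟨Derivation.mk' δ hmul, fun i => ?_⟩
  have := hlp (X i)
  rw [aeval_X] at this
  show (l (y i)).snd = a i
  simp [this, σ, P]

/-- common form of `der_unique` and `der_mem` -/
theorem der_gen {R : Type} [Field R] (j : L →+* R) (δ : L →+ R)
    (hmul : ∀ a b, δ (a * b) = j a * δ b + j b * δ a) (hc : ∀ c, δ (algebraMap ℂ L c) = 0)
    (T : IntermediateField ℂ L) (N : AddSubgroup R) (hN : ∀ x ∈ T, ∀ n ∈ N, j x * n ∈ N)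
    (G : Set L) (hG : ∀ a ∈ G, a ∈ T ∧ δ a ∈ N) {a : L} (haT : a ∈ T)
    (ha : IsAlgebraic (Algebra.adjoin ℂ G) a) : δ a ∈ N := by
  have h1 : δ 1 = 0 := by simpa using hc 1
  let S : IntermediateField ℂ L :=
    { carrier := {x | x ∈ T ∧ δ x ∈ N}
      mul_mem' := fun {x y} hx hy => ⟨T.mul_mem hx.1 hy.1, by
        rw [hmul]; exact N.add_mem (hN _ hx.1 _ hy.2) (hN _ hy.1 _ hx.2)⟩
      add_mem' := fun {x y} hx hy => ⟨T.add_mem hx.1 hy.1, by
        rw [map_add]; exact N.add_mem hx.2 hy.2⟩
      algebraMap_mem' := fun c => ⟨T.algebraMap_mem c, by rw [hc]; exact N.zero_mem⟩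
      inv_mem' := fun x hx => ⟨T.inv_mem hx.1, by
        by_cases h0 : x = 0
        · rw [h0, inv_zero, map_zero]; exact N.zero_mem
        have e := hmul x x⁻¹
        rw [mul_inv_cancel₀ h0, h1] at e
        have e1 : j x⁻¹ * j x = 1 := by rw [← map_mul, inv_mul_cancel₀ h0, map_one]
        have e2 : δ x⁻¹ = -(j x⁻¹ * (j x⁻¹ * δ x)) := by
          linear_combination -(j x⁻¹) * e - δ x⁻¹ * e1
        rw [e2]
        exact N.neg_mem (hN _ (T.inv_mem hx.1) _ (hN _ (T.inv_mem hx.1) _ hx.2))⟩ }
  have hS : IsAlgebraic S a :=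
    IsAlgebraic.tower_top_of_subalgebra_le (B := S.toSubalgebra) (Algebra.adjoin_le hG) ha
  have key : ∀ p : Polynomial S, Polynomial.aeval a p ∈ T ∧ Polynomial.aeval a p.derivative ∈ T ∧
      δ (Polynomial.aeval a p) - j (Polynomial.aeval a p.derivative) * δ a ∈ N := by
    intro p
    induction p using Polynomial.induction_on with
    | C c =>
      have h1 : (c : L) ∈ T := c.2.1
      have h2 : δ c ∈ N := c.2.2
      simpa using ⟨h1, h2⟩
    | add p q hp hq =>
      simp only [map_add]
      refine ⟨T.add_mem hp.1 hq.1, T.add_mem hp.2.1 hq.2.1, ?_⟩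
      convert N.add_mem hp.2.2 hq.2.2 using 1
      ring
    | monomial n c hp =>
      rw [pow_succ, ← mul_assoc]
      generalize Polynomial.C c * Polynomial.X ^ n = p at hp
      simp only [Polynomial.derivative_mul, map_add, map_mul, Polynomial.aeval_X,
        Polynomial.derivative_X, mul_one, hmul]
      refine ⟨T.mul_mem hp.1 haT, T.add_mem (T.mul_mem hp.2.1 haT) hp.1, ?_⟩
      convert hN _ haT _ hp.2.2 using 1
      ring
  have : CharZero S := charZero_of_injective_algebraMap (algebraMap ℂ S).injective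
  obtain ⟨-, h2, h3⟩ := key (minpoly S a)
  have h4 := (minpoly.irreducible hS.isIntegral).separable.aeval_derivative_ne_zero
    (minpoly.aeval S a)
  rw [minpoly.aeval, map_zero, zero_sub, neg_mem_iff] at h3
  have h5 := hN _ (T.inv_mem h2) _ h3
  rwa [← mul_assoc, ← map_mul, inv_mul_cancel₀ h4, map_one, one_mul] at h5

/-- A derivation along `j` which kills `G` kills everything algebraic over `ℂ[G]`: it kills
`ℂ[G]`; take a nonzero polynomial of least degree killing `a` and differentiate. -/
theorem der_unique {R : Type} [Field R] (j : L →+* R) (δ : L →+ R)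
    (hmul : ∀ a b, δ (a * b) = j a * δ b + j b * δ a) (hc : ∀ c, δ (algebraMap ℂ L c) = 0)
    (G : Set L) (hG : ∀ a ∈ G, δ a = 0) {a : L} (ha : IsAlgebraic (Algebra.adjoin ℂ G) a) :
    δ a = 0 :=
  der_gen j δ hmul hc ⊤ ⊥ (fun x _ n hn => by rw [AddSubgroup.mem_bot.1 hn, mul_zero]; rfl) G
    (fun x hx => ⟨trivial, hG x hx⟩) trivial ha

theorem der_kill_alg (D : Derivation ℂ L L) (G : Set L) (hG : ∀ a ∈ G, D a = 0) {a : L}
    (ha : IsAlgebraic (Algebra.adjoin ℂ G) a) : D a = 0 :=
  der_unique (RingHom.id L) D.toLinearMap.toAddMonoidHom (fun a b => D.leibniz a b)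
    (fun c => D.map_algebraMap c) G hG ha

theorem der_comp_eq {R : Type} [Field R] [Algebra ℂ R] (j : L →ₐ[ℂ] R) (D : Derivation ℂ R R)
    {ι : Type} [Fintype ι] (E : ι → Derivation ℂ L L) (c : ι → R) (G : Set L)
    (hG : ∀ a ∈ G, D (j a) = ∑ i, c i * j (E i a)) {a : L}
    (ha : IsAlgebraic (Algebra.adjoin ℂ G) a) : D (j a) = ∑ i, c i * j (E i a) := by
  let δ : L →+ R :=
    { toFun := fun a => D (j a) - ∑ i, c i * j (E i a)
      map_zero' := by simp
      map_add' := fun a b => by
        simp only [map_add, mul_add, Finset.sum_add_distrib]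
        ring }
  refine sub_eq_zero.1 (der_unique j.toRingHom δ (fun a b => ?_) (fun x => ?_) G
    (fun a ha => sub_eq_zero.2 (hG a ha)) ha)
  · show D (j (a * b)) - ∑ i, c i * j (E i (a * b)) =
      j a * (D (j b) - ∑ i, c i * j (E i b)) + j b * (D (j a) - ∑ i, c i * j (E i a))
    simp only [map_mul, Derivation.leibniz, smul_eq_mul, map_add, mul_add, Finset.sum_add_distrib,
      mul_sub, Finset.mul_sum, mul_left_comm (c _)]
    ring
  · show D (j (algebraMap ℂ L x)) - ∑ i, c i * j (E i (algebraMap ℂ L x)) = 0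
    simp

/-- the kernel of a derivation is an intermediate field -/
theorem der_kill_adjoin (D : Derivation ℂ L L) (G : Set L) (hG : ∀ a ∈ G, D a = 0) {a : L}
    (ha : a ∈ IntermediateField.adjoin ℂ G) : D a = 0 :=
  der_kill_alg D G hG (IntermediateField.isAlgebraic_adjoin_iff.1
    (isAlgebraic_algebraMap (⟨a, ha⟩ : IntermediateField.adjoin ℂ G)))

theorem mem_Om {κ : Type} (u : κ → L) (a : L) :
    a ∈ Om u ↔ IsAlgebraic (Algebra.adjoin ℂ (Set.range u)) a :=
  mem_algebraicClosure_iff.trans IntermediateField.isAlgebraic_adjoin_iff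

theorem der_kill_Om (D : Derivation ℂ L L) {κ : Type} (u : κ → L) (hu : ∀ i, D (u i) = 0) {a : L}
    (ha : a ∈ Om u) : D a = 0 :=
  der_kill_alg D _ (Set.forall_mem_range.2 hu) ((mem_Om u a).1 ha)

/-- chain rule for polynomials with coefficients in `L` (`MvPolynomial.induction_on`) -/
theorem der_eval {ι : Type} [Fintype ι] [DecidableEq ι] (D : Derivation ℂ L L) (Y : ι → L)
    (q : MvPolynomial ι L) (hq : ∀ α, D (coeff α q) = 0) :
    D (eval Y q) = ∑ j, eval Y (pderiv j q) * D (Y j) := by
  let K : Subring L :=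
    { carrier := {a | D a = 0}
      mul_mem' := fun {a b} ha hb => by
        rw [Set.mem_ofPred_eq] at *
        rw [D.leibniz, ha, hb, smul_zero, smul_zero, add_zero]
      one_mem' := D.map_one_eq_zero
      add_mem' := fun {a b} ha hb => by
        rw [Set.mem_ofPred_eq] at *
        rw [map_add, ha, hb, add_zero]
      zero_mem' := map_zero D
      neg_mem' := fun {a} ha => by
        rw [Set.mem_ofPred_eq] at *
        rw [map_neg, ha, neg_zero] }
  obtain ⟨p, rfl⟩ : q ∈ Set.range (MvPolynomial.map K.subtype) := by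
    rw [mem_range_map_iff_coeffs_subset]
    intro c hc
    obtain ⟨α, -, rfl⟩ := mem_coeffs_iff.1 hc
    exact ⟨⟨_, hq α⟩, rfl⟩
  clear hq
  induction p using MvPolynomial.induction_on with
  | C c =>
    have h : D c = 0 := c.2
    simp [h]
  | add p q hp hq => simp only [map_add, hp, hq, add_mul, Finset.sum_add_distrib]
  | mul_X p i hp =>
    simp only [map_mul, map_X, eval_X, Derivation.leibniz, smul_eq_mul, hp, map_add, add_mul,
      Finset.sum_add_distrib, Finset.mul_sum, pderiv_X, mul_assoc]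
    congr 1
    rw [Finset.sum_eq_single i (fun j _ hj => by simp [hj]) (by simp)]
    simp

/-- a derivation preserves a subfield `F` algebraic over generators `G` with `D G ⊆ F` -/
theorem der_mem (D : Derivation ℂ L L) (F : IntermediateField ℂ L) (G : Set L) (hG : G ⊆ F)
    (hD : ∀ a ∈ G, D a ∈ F) {a : L} (haF : a ∈ F) (ha : IsAlgebraic (Algebra.adjoin ℂ G) a) :
    D a ∈ F :=
  der_gen (RingHom.id L) D.toLinearMap.toAddMonoidHom (fun a b => D.leibniz a b)
    (fun c => D.map_algebraMap c) F F.toSubfield.toAddSubgroup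
    (fun _ hx _ hn => F.mul_mem hx hn) G (fun a ha => ⟨hG ha, hD a ha⟩) haF ha

variable {v : Val L}

theorem isLat_LD (v : Val L) (k : Set L) : IsLat v (LD v k) := by
  refine ⟨⟨fun a => by simp, fun a _ => rfl⟩, fun D hD D' hD' => ⟨fun a => ?_, fun a ha => ?_⟩,
    fun c hc D hD => ⟨fun a => ?_, fun a ha => ?_⟩⟩
  · exact v.map_add_le (hD.1 a) (hD'.1 a)
  · rw [Derivation.add_apply, hD.2 a ha, hD'.2 a ha, add_zero]
  · rw [Derivation.smul_apply, smul_eq_mul, map_mul]
    exact (mul_le_of_le_one_left' hc).trans (hD.1 a)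
  · rw [Derivation.smul_apply, hD.2 a ha, smul_zero]

theorem bdd_LD (v : Val L) (k : Set L) {α : Type} (y : α → L) :
    Bdd v (LD v k) fun i => evD (y i) :=
  fun i => ⟨v (y i), fun _ hD => hD.1 _⟩

theorem bdd1_LD (v : Val L) (k : Set L) {α : Type} (y : α → L) (hy : ∀ i, v (y i) ≤ 1) :
    Bdd1 v (LD v k) fun i => evD (y i) :=
  fun i _ hD => (hD.1 _).trans (hy i)

theorem LD_mono (v : Val L) {k k' : Set L} (h : k ⊆ k') : LD v k' ⊆ LD v k :=
  fun _ hD => ⟨hD.1, fun a ha => hD.2 a (h ha)⟩

omit [Algebra ℂ L] in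
theorem der_term_le {ι : Type} [Fintype ι] (Y : ι → L) (hY : ∀ i, v (Y i) ≤ 1) (c : L)
    (α : ι →₀ ℕ) : v (c * ∏ i, Y i ^ α i) ≤ v c := by
  rw [map_mul, map_prod]
  refine mul_le_of_le_one_right' (Finset.prod_le_one' fun i _ => ?_)
  rw [map_pow]
  exact pow_le_one' (hY i) _

omit [Algebra ℂ L] in
theorem der_unit {ι : Type} [Fintype ι] (Y : ι → L) (hY : ∀ i, v (Y i) ≤ 1)
    (q : MvPolynomial ι L) (h0 : v (coeff 0 q) = 1) (h : ∀ α, α ≠ 0 → v (coeff α q) < 1) :
    v (eval Y q) = 1 := by
  classical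
  have hm : (0 : ι →₀ ℕ) ∈ q.support := mem_support_iff.2 fun h => by simp [h] at h0
  rw [eval_eq', ← Finset.add_sum_erase _ _ hm]
  simp only [Finsupp.coe_zero, Pi.zero_apply, pow_zero, Finset.prod_const_one, mul_one]
  rw [v.map_add_eq_of_lt_left, h0]
  rw [h0]
  exact v.map_sum_lt one_ne_zero fun α hα =>
    (der_term_le Y hY _ α).trans_lt (h α (Finset.ne_of_mem_erase hα))

theorem der_cramer {ι : Type} [Fintype ι] [DecidableEq ι] (D : ι → Derivation ℂ L L)
    (hD : ∀ i a, v (D i a) ≤ v a) (Y : ι → L) (hY : ∀ i, v (Y i) ≤ 1) (q : MvPolynomial ι L)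
    (hq : ∀ α i, D i (coeff α q) = 0) (j : ι) :
    v (Matrix.of fun i j => D i (Y j)).det * v (eval Y (pderiv j q)) ≤ v (eval Y q) := by
  set G := Matrix.of fun i j => D i (Y j) with hG
  have h1 : (fun i => D i (eval Y q)) = G.mulVec fun j => eval Y (pderiv j q) := by
    funext i
    rw [der_eval (D i) Y q fun α => hq α i]
    simp only [Matrix.mulVec, dotProduct, hG, Matrix.of_apply, mul_comm]
  have h2 : G.cramer (fun i => D i (eval Y q)) j = G.det * eval Y (pderiv j q) := by
    rw [h1, Matrix.cramer_eq_adjugate_mulVec, Matrix.mulVec_mulVec, Matrix.adjugate_mul,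
      Matrix.smul_mulVec, Matrix.one_mulVec, Pi.smul_apply, smul_eq_mul]
  rw [← map_mul, ← h2, Matrix.cramer_apply]
  refine (val_det_le _ (fun l => if l = j then v (eval Y q) else 1) fun i l => ?_).trans_eq
    (by simp)
  rw [Matrix.updateCol_apply]
  split_ifs
  exacts [hD _ _, (hD _ _).trans (hY _)]

theorem der_plm {ι : Type} [Fintype ι] [DecidableEq ι]
    (htriv : ∀ c : ℂ, c ≠ 0 → v (algebraMap ℂ L c) = 1) (D : ι → Derivation ℂ L L)
    (hD : ∀ i a, v (D i a) ≤ v a) (Y : ι → L) (hY : ∀ i, v (Y i) ≤ 1) (e : ℕ) :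
    ∀ q : MvPolynomial ι L, (∀ α i, D i (coeff α q) = 0) → (∀ α, v (coeff α q) ≤ 1) →
      (∃ α, v (coeff α q) = 1) → (∀ α, v (coeff α q) = 1 → Finsupp.degree α ≤ e) →
      v (Matrix.of fun i j => D i (Y j)).det ^ e ≤ v (eval Y q) := by
  have hdet : v (Matrix.of fun i j => D i (Y j)).det ≤ 1 :=
    (val_det_le _ (fun _ => 1) fun i l => (hD _ _).trans (hY _)).trans_eq (by simp)
  have base : ∀ (q : MvPolynomial ι L) (e : ℕ), (∀ α, v (coeff α q) ≤ 1) →
      (∃ α, v (coeff α q) = 1) → (∀ α, v (coeff α q) = 1 → α = 0) →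
      v (Matrix.of fun i j => D i (Y j)).det ^ e ≤ v (eval Y q) := by
    rintro q e hle ⟨α, hα⟩ h
    rw [der_unit Y hY q (h α hα ▸ hα) fun β hβ => (hle β).lt_of_ne fun h' => hβ (h β h')]
    exact pow_le_one' hdet e
  induction e with
  | zero =>
    intro q _ hle hone h
    exact base q 0 hle hone fun α hα => (Finsupp.degree_eq_zero_iff α).1 (Nat.le_zero.1 (h α hα))
  | succ e ih =>
    intro q hq hle hone h
    by_cases h0 : ∀ α, v (coeff α q) = 1 → α = 0
    · exact base q _ hle hone h0
    push Not at h0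
    obtain ⟨α, hα, hα0⟩ := h0
    obtain ⟨j, hj⟩ : ∃ j, α j ≠ 0 := by
      by_contra hc
      push Not at hc
      exact hα0 (Finsupp.ext hc)
    have hn : ∀ n : ℕ, ((n : L) + 1) = algebraMap ℂ L (n + 1) := fun n => by simp
    have hv : ∀ β, v (coeff β (pderiv j q)) = v (coeff (β + Finsupp.single j 1) q) := fun β => by
      rw [coeff_pderiv, map_mul, hn, htriv _ (Nat.cast_add_one_ne_zero _), mul_one]
    have h1 := ih (pderiv j q) (fun β i => ?_) (fun β => (hv β).trans_le (hle _))
      ⟨α - Finsupp.single j 1, ?_⟩ fun β hβ => ?_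
    · rw [pow_succ']
      exact (mul_le_mul_right h1 _).trans (der_cramer D hD Y hY q hq j)
    · rw [coeff_pderiv, hn, Derivation.leibniz, hq, Derivation.map_algebraMap, smul_zero,
        smul_zero, add_zero]
    · rw [hv, tsub_add_cancel_of_le (Finsupp.single_le_iff.2 (Nat.one_le_iff_ne_zero.2 hj)), hα]
    · have := h _ (hv β ▸ hβ)
      rw [map_add, Finsupp.degree_single] at this
      omega

omit [Algebra ℂ L] in
theorem der_degree_le {ι : Type} {q : MvPolynomial ι L} {α : ι →₀ ℕ} (h : v (coeff α q) = 1) :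
    Finsupp.degree α ≤ q.totalDegree :=
  le_totalDegree (mem_support_iff.2 fun h0 => by simp [h0] at h)

/-- Jacobian criterion over a ring of constants: the trivial valuation in `der_plm` -/
theorem der_algInd {ι : Type} [Fintype ι] [DecidableEq ι] (D : ι → Derivation ℂ L L)
    (y : ι → L) (h : (Matrix.of fun i j => D i (y j)).det ≠ 0) {A : Type} [CommRing A]
    [Algebra A L] [FaithfulSMul A L] (hA : ∀ i (c : A), D i (algebraMap A L c) = 0) :
    AlgebraicIndependent A y := by
  classical
  refine algebraicIndependent_iff.2 fun p hp => by_contra fun h0 => ?_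
  obtain ⟨α, hα⟩ := exists_coeff_ne_zero h0
  have h1 : ∀ a : L, a ≠ 0 → (1 : Val L) a = 1 := fun a ha => Valuation.one_apply_of_ne_zero ha
  have h2 := der_plm (v := 1) (fun c hc => h1 _ (by simpa using hc)) D (fun i a => ?_) y
    (fun i => Valuation.one_apply_le_one _) _ (map (algebraMap A L) p)
    (fun β i => by rw [coeff_map, hA]) (fun β => Valuation.one_apply_le_one _)
    ⟨α, h1 _ (by simpa [coeff_map] using hα)⟩ fun β hβ => der_degree_le hβ
  · rw [h1 _ h, one_pow, eval_map, ← aeval_def, hp, map_zero] at h2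
    exact absurd h2 (by simp)
  · by_cases ha : a = 0
    · simp [ha]
    · rw [h1 a ha]
      exact Valuation.one_apply_le_one _

/-- Jacobian criterion: take a relation of least total degree; all its derivatives vanish, so it
is constant. -/
theorem algInd_of_det {ι : Type} [Fintype ι] [DecidableEq ι] (D : ι → Derivation ℂ L L)
    (y : ι → L) (h : (Matrix.of fun i j => D i (y j)).det ≠ 0) : AlgebraicIndependent ℂ y :=
  der_algInd D y h fun i c => (D i).map_algebraMap c

/-- An element killed by the derivations dual to `u` is algebraic over `ℂ[G]`.  Take a nonzero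
polynomial `Q` in `Option κ` variables over the domain `ℂ[G]` (or over the field generated by `G`)
with `Q(a, u) = 0` involving... precisely: among the nonzero `Q` with `Q(a, u) = 0` take one of
least total degree; applying `D l` shows that `Q` does not involve the variables `u`. -/
theorem alg_of_killed {κ : Type} [Fintype κ] [DecidableEq κ] (G : Set L) (u : κ → L)
    (D : κ → Derivation ℂ L L) (hG : ∀ l, ∀ a ∈ G, D l a = 0)
    (hu : ∀ l l', D l (u l') = if l = l' then 1 else 0) {a : L}
    (ha : IsAlgebraic (Algebra.adjoin ℂ (G ∪ Set.range u)) a) (hD : ∀ l, D l a = 0) :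
    IsAlgebraic (Algebra.adjoin ℂ G) a := by
  by_contra hc
  have hA : ∀ l, ∀ x ∈ Algebra.adjoin ℂ (G ∪ Set.range fun _ : Unit => a), D l x = 0 := by
    intro l x hx
    refine der_kill_alg (D l) _ ?_ (isAlgebraic_algebraMap (⟨x, hx⟩ : Algebra.adjoin ℂ _))
    rintro z (hz | ⟨_, rfl⟩)
    exacts [hG l z hz, hD l]
  rw [Algebra.adjoin_union_eq_adjoin_adjoin] at hA ha
  have h1 : AlgebraicIndependent (Algebra.adjoin ℂ G) fun _ : Unit => a :=
    algebraicIndependent_unique_type_iff.2 hc
  have h2 : (Matrix.of fun i j => D i (u j)) = 1 := by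
    ext i j
    rw [Matrix.of_apply, hu, Matrix.one_apply]
  have h3 := AlgebraicIndependent.sumElim_iff.2 ⟨h1, der_algInd D u (by simp [h2])
    fun l c => hA l _ c.2⟩
  have h4 : AlgebraicIndependent (Algebra.adjoin ℂ G) (Sum.elim (fun _ : Unit => a) u) := by
    convert h3.comp Sum.swap Sum.swap_leftInverse.injective using 1
    ext (x | x) <;> rfl
  exact algebraicIndependent_unique_type_iff.1 (AlgebraicIndependent.sumElim_iff.1 h4).2 ha

/-- Order of a polynomial.  With `G = (D i (Y j))`, `det G * (∂_j q)(Y) = ∑ adj * D i (q(Y))`, so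
`v (det G) * v ((∂_j q)(Y)) ≤ v (q(Y))`.  Induction on the largest degree `e` of a monomial with
unit coefficient (the claim with exponent `e`): if `e = 0` then `v (q(Y)) = 1`; otherwise
differentiate with respect to a variable occurring in such a monomial (natural numbers are units).
-/
theorem plm {ι : Type} [Fintype ι] [DecidableEq ι]
    (htriv : ∀ c : ℂ, c ≠ 0 → v (algebraMap ℂ L c) = 1) (D : ι → Derivation ℂ L L)
    (hD : ∀ i a, v (D i a) ≤ v a) (Y : ι → L) (hY : ∀ i, v (Y i) ≤ 1) (q : MvPolynomial ι L)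
    (hq : ∀ α i, D i (coeff α q) = 0) (hle : ∀ α, v (coeff α q) ≤ 1)
    (hone : ∃ α, v (coeff α q) = 1) :
    v (Matrix.of fun i j => D i (Y j)).det ^ q.totalDegree ≤ v (eval Y q) :=
  der_plm htriv D hD Y hY _ q hq hle hone fun _ h => der_degree_le h

/-- take the supremum in `plm` (for exponent `d > 0` use `NNReal.rpow` or `le_of_pow_le_pow_left₀`
with `(v (eval Y q)) ^ (1 / d)`) -/
theorem plm_evol {ι : Type} [Fintype ι] [DecidableEq ι]
    (htriv : ∀ c : ℂ, c ≠ 0 → v (algebraMap ℂ L c) = 1) (k : Set L) (Y : ι → L)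
    (hY : ∀ i, v (Y i) ≤ 1) (q : MvPolynomial ι L) (hq : ∀ α, ∀ D ∈ LD v k, D (coeff α q) = 0)
    (hle : ∀ α, v (coeff α q) ≤ 1) (hone : ∃ α, v (coeff α q) = 1) {d : ℕ}
    (hd : q.totalDegree ≤ d) : evol v k Y ^ d ≤ v (eval Y q) := by
  have key : ∀ D : ι → Derivation ℂ L L, (∀ i, D i ∈ LD v k) →
      v (Matrix.of fun i j => D i (Y j)).det ^ d ≤ v (eval Y q) := fun D hD =>
    der_plm htriv D (fun i => (hD i).1) Y hY d q (fun α i => hq α _ (hD i)) hle hone
      fun α h => (der_degree_le h).trans hd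
  rcases Nat.eq_zero_or_pos d with rfl | h0
  · simpa using key (fun _ => 0) fun _ => (isLat_LD v k).zero
  have h1 : (0 : ℝ) < d := by exact_mod_cast h0
  rw [← NNReal.rpow_natCast, ← NNReal.le_rpow_inv_iff h1]
  refine lvol_univ_le fun D hD => ?_
  rw [NNReal.le_rpow_inv_iff h1, NNReal.rpow_natCast]
  exact key D hD

/-- the valuation is a Gauss valuation in fresh variables (scale `q` by its largest coefficient,
which is killed by the `D a`, and apply `plm`) -/
theorem Fresh.gauss {Z : Type} [Fintype Z] [DecidableEq Z]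
    (htriv : ∀ c : ℂ, c ≠ 0 → v (algebraMap ℂ L c) = 1) {k : Set L} {ξ : Z → L}
    {D : Z → Derivation ℂ L L} (h : Fresh v k ξ D) (q : MvPolynomial Z L)
    (hq : ∀ α a, D a (coeff α q) = 0) (α : Z →₀ ℕ) : v (coeff α q) ≤ v (eval ξ q) := by
  by_cases hα : coeff α q = 0
  · simp [hα]
  obtain ⟨β, hβ, hm⟩ := q.support.exists_max_image (fun β => v (coeff β q))
    ⟨α, mem_support_iff.2 hα⟩
  have h0 : v (coeff β q) ≠ 0 := by simpa using hβ
  have h1 : (Matrix.of fun i j => D i (ξ j)) = 1 := by
    ext i j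
    rw [Matrix.of_apply, h.dual, Matrix.one_apply]
  have h2 := plm htriv D (fun i => (h.mem i).1) ξ h.le (C (coeff β q)⁻¹ * q) (fun γ i => ?_)
    (fun γ => ?_) ⟨β, ?_⟩
  · rw [h1, Matrix.det_one, map_one, one_pow, map_mul, map_mul, eval_C, map_inv₀,
      one_le_inv_mul₀ (pos_iff_ne_zero.2 h0)] at h2
    exact (hm α (mem_support_iff.2 hα)).trans h2
  · rw [coeff_C_mul, Derivation.leibniz, Derivation.leibniz_inv, hq, hq]
    simp
  · rw [coeff_C_mul, map_mul, map_inv₀, inv_mul_le_one₀ (pos_iff_ne_zero.2 h0)]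
    by_cases hγ : coeff γ q = 0
    · simp [hγ]
    · exact hm γ (mem_support_iff.2 hγ)
  · rw [coeff_C_mul, map_mul, map_inv₀, inv_mul_cancel₀ h0]

/-- elements of `k(ξ)` are quotients of polynomials in `ξ` over `k`
(`IntermediateField.mem_adjoin_range_iff` over `k`); the value of a polynomial is the largest
value of a coefficient -/
theorem Fresh.unifOn {Z : Type} [Fintype Z] [DecidableEq Z]
    (htriv : ∀ c : ℂ, c ≠ 0 → v (algebraMap ℂ L c) = 1) {k : IntermediateField ℂ L} {ξ : Z → L}
    {D : Z → Derivation ℂ L L} (h : Fresh v k ξ D) {t : L} (ht : IsUnifOn v k t) :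
    IsUnifOn v (k ⊔ IntermediateField.adjoin ℂ (Set.range ξ) : IntermediateField ℂ L) t := by
  refine ⟨ht.1, ht.2.1, fun a ha ha0 => ?_⟩
  have key : ∀ r : MvPolynomial Z k, aeval ξ r ≠ 0 → ∃ j : ℤ, v (aeval ξ r) = v t ^ j := by
    intro r hr
    obtain ⟨β, hβ, hm⟩ := r.support.exists_max_image (fun β => v (coeff β r : k))
      (support_nonempty.2 fun h0 => hr (by rw [h0, map_zero]))
    obtain ⟨j, hj⟩ := ht.2.2 _ (coeff β r).2 (by simpa using hβ)
    refine ⟨j, hj ▸ le_antisymm ?_ ?_⟩
    · rw [aeval_def, eval₂_eq']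
      exact v.map_sum_le fun γ hγ => (der_term_le ξ h.le _ γ).trans (hm γ hγ)
    · have := h.gauss htriv (map (algebraMap k L) r)
        (fun γ i => by rw [coeff_map]; exact (h.mem i).2 _ (coeff γ r).2) β
      rwa [coeff_map, eval_map, ← aeval_def] at this
  have h1 : k ⊔ IntermediateField.adjoin ℂ (Set.range ξ) ≤
      (IntermediateField.adjoin k (Set.range ξ)).restrictScalars ℂ := by
    rw [IntermediateField.restrictScalars_adjoin]
    exact sup_le (fun x hx => IntermediateField.subset_adjoin _ _ (Or.inl hx))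
      (IntermediateField.adjoin.mono _ _ _ Set.subset_union_right)
  obtain ⟨r, s, rfl⟩ := (IntermediateField.mem_adjoin_range_iff k ξ a).1 (h1 ha)
  obtain ⟨i, hi⟩ := key r (div_ne_zero_iff.1 ha0).1
  obtain ⟨j, hj⟩ := key s (div_ne_zero_iff.1 ha0).2
  exact ⟨i - j, by rw [map_div₀, hi, hj, zpow_sub₀ ht.1.ne']⟩

end Pool.Agent.MP_c0606f_ag.Klt

end
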