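import Pool.Agent.MP_c0606f_ag.Mg.Klt_BAux
import Pool.Agent.MP_c0606f_ag.Mg.Klt_Alg
import Mathlib

-- part MP_c0606f_ag.Klt.BLevel
section

/-! Counting leading exponents at a general point. -/

namespace Pool.Agent.MP_c0606f_ag.Klt

open MvPolynomial

theorem blevel_inj {n : ℕ} (a0 : ℂ) (c : Fin n → ℂ) : Function.Injective
    (eval₂Hom (MvPowerSeries.C : ℂ →+* MvPowerSeries (Fin (n + 1)) ℂ) fun o : Option (Fin n) =>
      o.elim (MvPowerSeries.C a0 + MvPowerSeries.X 0) fun i =>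
        MvPowerSeries.C (c i) * (MvPowerSeries.C a0 + MvPowerSeries.X 0) +
          MvPowerSeries.X i.succ) := by
  let τ : MvPolynomial (Option (Fin n)) ℂ →ₐ[ℂ] MvPolynomial (Fin (n + 1)) ℂ :=
    aeval fun o => o.elim (C a0 + X 0) fun i => C (c i) * (C a0 + X 0) + X i.succ
  let τ' : MvPolynomial (Fin (n + 1)) ℂ →ₐ[ℂ] MvPolynomial (Option (Fin n)) ℂ :=
    aeval (Fin.cases (X none - C a0) fun i => X (some i) - C (c i) * X none)
  have h1 : τ'.comp τ = AlgHom.id ℂ _ := by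
    apply MvPolynomial.algHom_ext
    intro o
    cases o with
    | none => simp [τ, τ']
    | some i => simp [τ, τ']
  have h2 : Function.Injective τ :=
    Function.LeftInverse.injective (g := τ') fun p => DFunLike.congr_fun h1 p
  have h3 : (eval₂Hom (MvPowerSeries.C : ℂ →+* MvPowerSeries (Fin (n + 1)) ℂ)
      fun o : Option (Fin n) =>
      o.elim (MvPowerSeries.C a0 + MvPowerSeries.X 0) fun i =>
        MvPowerSeries.C (c i) * (MvPowerSeries.C a0 + MvPowerSeries.X 0) +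
          MvPowerSeries.X i.succ) = (coeToMvPowerSeries.ringHom).comp τ.toRingHom := by
    apply MvPolynomial.ringHom_ext
    · intro t; simp [τ]
    · intro o
      cases o with
      | none => simp [τ]
      | some i => simp [τ]
  rw [h3, RingHom.coe_comp]
  refine Function.Injective.comp (fun p q hpq => ?_) h2
  simpa using hpq

theorem blevel_point {ι L : Type} [Field L] [Algebra ℂ L] (C : Cover ι L) (o : ι) :
    ∃ (a : ι → ℂ) (z : ℂ), a o ≠ 0 ∧ C.P.eval₂ (eval a) z = 0 ∧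
      (Polynomial.derivative C.P).eval₂ (eval a) z ≠ 0 := by
  have h0 : (X o * C.Δ : MvPolynomial ι ℂ) ≠ 0 := mul_ne_zero (X_ne_zero o) C.Δ_ne
  obtain ⟨a, ha⟩ : ∃ a : ι → ℂ, eval a (X o * C.Δ) ≠ 0 := by
    by_contra h
    push Not at h
    exact h0 (MvPolynomial.funext fun a => by rw [h a, map_zero])
  rw [map_mul, eval_X] at ha
  obtain ⟨z, hz⟩ := IsAlgClosed.exists_root (C.P.map (eval a)) (by
    rw [C.monic.degree_map]
    exact (Polynomial.natDegree_pos_iff_degree_pos.1 C.natDegree_pos).ne')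
  rw [Polynomial.IsRoot.def, Polynomial.eval_map] at hz
  refine ⟨a, z, left_ne_zero_of_mul ha, hz, fun h => right_ne_zero_of_mul ha ?_⟩
  obtain ⟨p, q, hpq⟩ := C.bez
  have h1 := congrArg (Polynomial.eval₂ (eval a) z) hpq
  rwa [Polynomial.eval₂_C, Polynomial.eval₂_add, Polynomial.eval₂_mul, Polynomial.eval₂_mul, hz, h,
    mul_zero, mul_zero, add_zero] at h1

/-- Taylor expansion at an unramified point.  Choose `a : Option (Fin n) → ℂ` with
`eval a (X none * Δ) ≠ 0` (`MvPolynomial.funext`), a root `z₀` of the monic `P (a, ·)` of positive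
degree; by `bez` it is simple.  Put `c i = a (some i) / a none`,
`Y none = C (a none) + X 0`, `Y (some i) = C (c i) * Y none + X i.succ` in power series; Hensel's
lemma (see `exists_taylor` in `Pool.Agent.MP_c0606f_ag.Lex`) gives a root of `P (Y, ·)`.  `Y` is
algebraically independent (it is the image of an invertible affine change of variables under the
injective coercion of polynomials to power series).  Apply `Cover.exists_hom` with values in the
fraction field. -/
theorem Cover.exists_series {n : ℕ} {L : Type} [Field L] [Algebra ℂ L]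
    (C : Cover (Option (Fin n)) L) :
    ∃ (c : Fin n → ℂ) (u : MvPowerSeries (Fin (n + 1)) ℂ)
      (j : L →ₐ[ℂ] FractionRing (MvPowerSeries (Fin (n + 1)) ℂ)),
      MvPowerSeries.constantCoeff u ≠ 0 ∧ j (C.y none) = algebraMap _ _ u ∧
      ∀ i, j (C.y (some i) - c i • C.y none) =
        algebraMap (MvPowerSeries (Fin (n + 1)) ℂ) _ (MvPowerSeries.X i.succ) := by
  obtain ⟨a, z, ha, hz, hz'⟩ := blevel_point C none
  let c : Fin n → ℂ := fun i => a (some i) / a none
  let Y : Option (Fin n) → MvPowerSeries (Fin (n + 1)) ℂ := fun o =>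
    o.elim (MvPowerSeries.C (a none) + MvPowerSeries.X 0) fun i =>
      MvPowerSeries.C (c i) * (MvPowerSeries.C (a none) + MvPowerSeries.X 0) +
        MvPowerSeries.X i.succ
  let ψ : MvPolynomial (Option (Fin n)) ℂ →+* MvPowerSeries (Fin (n + 1)) ℂ :=
    eval₂Hom MvPowerSeries.C Y
  have hψ : Function.Injective ψ := blevel_inj (a none) c
  let I : Ideal (MvPowerSeries (Fin (n + 1)) ℂ) := Ideal.span (Set.range MvPowerSeries.X)
  have hX : ∀ i, Ideal.Quotient.mk I (MvPowerSeries.X i) = 0 := fun i =>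
    Ideal.Quotient.eq_zero_iff_mem.2 (Ideal.subset_span ⟨i, rfl⟩)
  have hc : (Ideal.Quotient.mk I).comp ψ =
      ((Ideal.Quotient.mk I).comp MvPowerSeries.C).comp (eval a) := by
    apply MvPolynomial.ringHom_ext
    · intro t; simp [ψ]
    · intro o
      cases o with
      | none => simp [ψ, Y, hX]
      | some i =>
        simp only [ψ, Y, RingHom.comp_apply, eval₂Hom_X', Option.elim_some, map_add, map_mul, hX,
          add_zero, eval_X]
        rw [← map_mul, ← map_mul, div_mul_cancel₀ _ ha]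
  have hev : ∀ q : Polynomial (MvPolynomial (Option (Fin n)) ℂ),
      Ideal.Quotient.mk I ((q.map ψ).eval (MvPowerSeries.C z)) =
        Ideal.Quotient.mk I (MvPowerSeries.C (q.eval₂ (eval a) z)) := by
    intro q
    rw [Polynomial.eval_map, Polynomial.hom_eval₂, hc]
    exact (Polynomial.hom_eval₂ q (eval a) ((Ideal.Quotient.mk I).comp MvPowerSeries.C) z).symm
  obtain ⟨w, hw, -⟩ := HenselianRing.is_henselian (I := I) (C.P.map ψ) (C.monic.map _)
    (MvPowerSeries.C z)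
    (by rw [← Ideal.Quotient.eq_zero_iff_mem, hev, hz, map_zero, map_zero])
    (by
      rw [Polynomial.derivative_map, hev]
      exact (hz'.isUnit.map _).map _)
  rw [Polynomial.IsRoot.def, Polynomial.eval_map] at hw
  let ι := algebraMap (MvPowerSeries (Fin (n + 1)) ℂ) (FractionRing (MvPowerSeries (Fin (n + 1)) ℂ))
  have hι : Function.Injective ι := IsFractionRing.injective _ _
  have hC : ∀ t : ℂ, ι (MvPowerSeries.C t) = algebraMap ℂ _ t := fun t => by
    rw [MvPowerSeries.c_eq_algebraMap]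
    exact (IsScalarTower.algebraMap_apply ℂ _ _ t).symm
  have he : eval₂Hom (algebraMap ℂ (FractionRing (MvPowerSeries (Fin (n + 1)) ℂ)))
      (fun o => ι (Y o)) = ι.comp ψ := by
    apply MvPolynomial.ringHom_ext
    · intro t; simp [ψ, hC]
    · intro o; simp [ψ]
  obtain ⟨j, hj, hjy, -⟩ := C.exists_hom (φ := algebraMap ℂ _) (y := fun o => ι (Y o)) (z := ι w)
    (by rw [he, ← Polynomial.hom_eval₂, hw, map_zero])
    (fun p hp h => hp (hψ (hι (by rw [he] at h; simpa using h))))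
  refine ⟨c, Y none, ⟨j, hj⟩, by simpa [Y] using ha, hjy none, fun i => ?_⟩
  change j _ = ι _
  rw [map_sub, Algebra.smul_def, map_mul, hj, hjy, hjy, ← hC, ← map_mul, ← map_sub]
  congr 1
  simp [Y]

variable {K : Type} [Field K] [Algebra ℂ K] {n k r : ℕ} {y : Fin n → K} {s : Fin (k + 1) → K}

/-- multiplicative filtrations of the section ring grow along powers -/
def VK (y : Fin n → K) (s : Fin (k + 1) → K) (C : ℕ) : Prop :=
  ∀ W : ℕ → ℕ → Submodule ℂ K, (∀ m l, W m l ≤ H0 y s m) → (∀ m, W m 0 = H0 y s m) →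
    (∀ m m' l l', ∀ f ∈ W m l, ∀ f' ∈ W m' l', f * f' ∈ W (m + m') (l + l')) →
    ∀ m l e m', 1 ≤ e → e * m + C * (e + 1) ≤ m' →
      e ^ n * Module.finrank ℂ (W m l) ≤ Module.finrank ℂ (W m' (e * l))

theorem blevel_prod {ι : Type} (S : Finset ι) {d : ι → ℕ} {g : ι → K}
    (hg : ∀ i ∈ S, g i ∈ H0 y s (d i)) : ∏ i ∈ S, g i ∈ H0 y s (∑ i ∈ S, d i) := by
  classical
  induction S using Finset.induction_on with
  | empty => simpa using one_mem_H0
  | insert a S ha ih =>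
    rw [Finset.prod_insert ha, Finset.sum_insert ha]
    exact H0_mul (hg a (Finset.mem_insert_self _ _))
      (ih fun i hi => hg i (Finset.mem_insert_of_mem hi))

theorem blevel_hom_prod {ι : Type} (S : Finset ι) (d : ι → ℕ) (g : ι → K) :
    ∏ i ∈ S, hom (d i) (g i) = hom (∑ i ∈ S, d i) (∏ i ∈ S, g i) := by
  simp only [hom_apply, map_prod, Finset.prod_mul_distrib, Finset.prod_pow_eq_pow_sum]

/-- a common denominator for a finite dimensional space -/
theorem blevel_denom {R V : Type} [CommRing R] [IsDomain R] [Algebra ℂ R] [AddCommGroup V]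
    [Module ℂ V] [Module.Finite ℂ V] (J : V →ₗ[ℂ] FractionRing R) (hJ : Function.Injective J) :
    ∃ (b : R) (T : V →ₗ[ℂ] R), Function.Injective T ∧
      ∀ f, algebraMap R (FractionRing R) (T f) = J f * algebraMap R (FractionRing R) b := by
  let bb := Module.finBasis ℂ V
  obtain ⟨b, hb⟩ := IsLocalization.exist_integer_multiples_of_finite (nonZeroDivisors R)
    (fun i => J (bb i))
  choose g hg using hb
  have h1 : (IsScalarTower.toAlgHom ℂ R (FractionRing R)).toLinearMap.comp (bb.constr ℂ g) =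
      (LinearMap.mulRight ℂ (algebraMap R (FractionRing R) b)).comp J := by
    refine bb.ext fun i => ?_
    simp [hg, Algebra.smul_def, mul_comm]
  have h2 : ∀ f, algebraMap R (FractionRing R) (bb.constr ℂ g f) =
      J f * algebraMap R (FractionRing R) b := fun f => DFunLike.congr_fun h1 f
  refine ⟨b, bb.constr ℂ g, fun f f' h => hJ ?_, h2⟩
  have h3 : algebraMap R (FractionRing R) b ≠ 0 :=
    IsFractionRing.to_map_ne_zero_of_mem_nonZeroDivisors b.2
  apply mul_right_cancel₀ h3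
  rw [← h2, ← h2, h]

/-- Take `c, u, j` from `exists_series`.  `W m l` is finite dimensional, so there is a nonzero power
series `b` with `j (hom m f) * b` a power series for all `f ∈ W m l` (common denominator of a basis,
`IsLocalization.exist_integer_multiples_of_finset`); `exists_lexOrder_family` gives `f a` whose
series have distinct leading exponents `ν a`.  Let `θ ≠ 0` lie in `H0 (m' - e m - r n e)` (`hne`),
`j (hom _ θ) = θ₁ / θ₂`.  For `β : Fin n → Fin e` the section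
`σ β = θ * S none ^ (n e - ∑ β) * ∏ (S (some i) - c i • S none) ^ β i` lies in `H0 (m' - e m)`.  The
sections `f a ^ e * σ β` lie in `W m' (e l)`; after multiplication by `b ^ e * θ₂` their series have
leading exponents `e • ν a + ν θ₁ + β` (`lexOrder_mul`), which are distinct
(`linearIndependent_of_lexOrder`).  Compare the proof of `exists_VK` in
`Pool.Agent.MP_c0606f_ag.Lex`. -/
theorem NN.exists_VK (N : NN n s) (hX : IsKltFano r y s)
    (C : Cover (Option (Fin n)) (RatFunc K)) (hy : C.y = N.Y r)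
    (hfin : ∀ m, Module.Finite ℂ (H0 y s m))
    (hne : ∃ C₀ : ℕ, ∀ m, C₀ ≤ m → ∃ θ ∈ H0 y s m, θ ≠ 0) : ∃ C₁ : ℕ, VK y s C₁ := by
  obtain ⟨C₀, hC₀⟩ := hne
  obtain ⟨c, u, j, hu, hju, hj⟩ := C.exists_series
  rw [hy] at hju hj
  refine ⟨C₀ + r * n, fun W hWle hW0 hWmul m l e m' he hm' => ?_⟩
  have hfin' : ∀ m l, Module.Finite ℂ (W m l) := fun m l =>
    haveI := hfin m
    Module.Finite.of_injective (Submodule.inclusion (hWle m l)) (Submodule.inclusion_injective _)
  obtain ⟨m₁, rfl⟩ : ∃ m₁, m' = e * m + (m₁ + n * e * r) :=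
    ⟨m' - e * m - n * e * r, by
      have : n * e * r ≤ (C₀ + r * n) * (e + 1) := by nlinarith
      omega⟩
  have hm₁ : C₀ ≤ m₁ := by nlinarith
  obtain ⟨θ, hθ, hθ0⟩ := hC₀ m₁ hm₁
  have := hfin' m l
  have := hfin' (e * m + (m₁ + n * e * r)) (e * l)
  have : IsDomain (MvPowerSeries (Fin (n + 1)) ℂ) := NoZeroDivisors.to_isDomain _
  let ι := algebraMap (MvPowerSeries (Fin (n + 1)) ℂ) (FractionRing (MvPowerSeries (Fin (n + 1)) ℂ))
  have hι : Function.Injective ι := IsFractionRing.injective _ _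
  have hjinj : Function.Injective j := j.toRingHom.injective
  obtain ⟨b, T, hT, hTb⟩ := blevel_denom (j.toLinearMap.comp ((hom m).comp (W m l).subtype))
    (hjinj.comp ((hom_injective m).comp Subtype.val_injective))
  obtain ⟨⟨θ₁, θ₂⟩, hθ₁⟩ := IsLocalization.surj
    (nonZeroDivisors (MvPowerSeries (Fin (n + 1)) ℂ)) (j (hom m₁ θ))
  have hθ₁0 : θ₁ ≠ 0 := by
    rintro rfl
    rw [map_zero] at hθ₁
    exact mul_ne_zero ((map_ne_zero j).2 (hom_ne m₁ hθ0))
      (IsFractionRing.to_map_ne_zero_of_mem_nonZeroDivisors θ₂.2) hθ₁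
  obtain ⟨μ, hμ⟩ := MvPowerSeries.exists_finsupp_eq_lexOrder_of_ne_zero hθ₁0
  obtain ⟨f, hf, hfinj⟩ := exists_lexOrder_family (LinearMap.range T)
  choose F hF using fun a => (hf a).1
  choose ν hν using fun a => MvPowerSeries.exists_finsupp_eq_lexOrder_of_ne_zero (hf a).2
  have hpow : ∀ g ∈ W m l, ∀ i : ℕ, g ^ i ∈ W (i * m) (i * l) := by
    intro g hg i
    induction i with
    | zero => rw [pow_zero, zero_mul, zero_mul, hW0]; exact one_mem_H0
    | succ i ih => rw [pow_succ, Nat.succ_mul, Nat.succ_mul]; exact hWmul _ _ _ _ _ ih _ hg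
  have hdeg : ∀ β : Fin n → Fin e,
      (n * e - ∑ i, (β i : ℕ)) * r + ∑ i, (β i : ℕ) * r = n * e * r := by
    intro β
    have h1 : ∑ i, (β i : ℕ) ≤ n * e := by
      calc ∑ i, (β i : ℕ) ≤ ∑ _i : Fin n, e := Finset.sum_le_sum fun i _ => (β i).2.le
        _ = n * e := by simp
    rw [← Finset.sum_mul, ← add_mul, Nat.sub_add_cancel h1]
  let σ : (Fin n → Fin e) → K := fun β => θ * (N.S none ^ (n * e - ∑ i, (β i : ℕ)) *
    ∏ i, (N.S (some i) - c i • N.S none) ^ (β i : ℕ))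
  have hσ : ∀ β, σ β ∈ W (m₁ + n * e * r) 0 := by
    intro β
    rw [hW0, ← hdeg β]
    exact H0_mul hθ (H0_mul (H0_pow (N.S_mem hX none) _) (blevel_prod _ fun i _ =>
      H0_pow (Submodule.sub_mem _ (N.S_mem hX _) (Submodule.smul_mem _ _ (N.S_mem hX _))) _))
  let G : Fin _ × (Fin n → Fin e) → W (e * m + (m₁ + n * e * r)) (e * l) := fun p =>
    ⟨(F p.1 : K) ^ e * σ p.2, hWmul _ _ _ _ _ (hpow _ (F p.1).2 e) _ (hσ p.2)⟩
  let β' : (Fin n → Fin e) → (Fin (n + 1) →₀ ℕ) := fun β =>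
    Finsupp.cons 0 (Finsupp.equivFunOnFinite.symm fun i => β i)
  let H : Fin _ × (Fin n → Fin e) → MvPowerSeries (Fin (n + 1)) ℂ := fun p =>
    f p.1 ^ e * (θ₁ * (u ^ (n * e - ∑ i, (p.2 i : ℕ)) * MvPowerSeries.monomial (β' p.2) 1))
  have hH : ∀ p, (H p).lexOrder =
      ((toLex (e • ν p.1 + (μ + β' p.2)) : Lex (Fin (n + 1) →₀ ℕ)) : WithTop _) := by
    intro p
    have h4 : IsUnit (u ^ (n * e - ∑ i, (p.2 i : ℕ))) :=
      (MvPowerSeries.isUnit_iff_constantCoeff.2 hu.isUnit).pow _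
    rw [MvPowerSeries.lexOrder_mul, MvPowerSeries.lexOrder_mul, MvPowerSeries.lexOrder_mul,
      lex_order_pow (hν p.1), hμ, lex_order_unit h4, lex_order_monomial, ← WithTop.coe_add,
      ← WithTop.coe_add, ← WithTop.coe_add, ← toLex_add, ← toLex_add, ← toLex_add, zero_add]
  have hli : LinearIndependent ℂ H := by
    apply linearIndependent_of_lexOrder
    · intro p h0
      have := hH p
      rw [h0, MvPowerSeries.lexOrder_zero] at this
      exact WithTop.top_ne_coe this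
    · rintro ⟨a, β⟩ ⟨a', β₁⟩ h
      simp only [hH, WithTop.coe_eq_coe, toLex_inj] at h
      have h1 : ∀ i : Fin n, ν a i.succ = ν a' i.succ ∧ (β i : ℕ) = β₁ i := by
        intro i
        have h2 : e * ν a i.succ + (μ i.succ + β i) = e * ν a' i.succ + (μ i.succ + β₁ i) :=
          DFunLike.congr_fun h i.succ
        have h2' : e * ν a i.succ + β i = e * ν a' i.succ + β₁ i := by omega
        have h3 := congrArg (· / e) h2'
        have h4 := congrArg (· % e) h2'
        simp only [Nat.mul_add_div he, Nat.div_eq_of_lt (β i).2, Nat.div_eq_of_lt (β₁ i).2,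
          add_zero] at h3
        simp only [Nat.mul_add_mod, Nat.mod_eq_of_lt (β i).2, Nat.mod_eq_of_lt (β₁ i).2] at h4
        exact ⟨h3, h4⟩
      have h0 : ν a 0 = ν a' 0 := by
        have h2 : e * ν a 0 + (μ 0 + 0) = e * ν a' 0 + (μ 0 + 0) := DFunLike.congr_fun h 0
        exact Nat.eq_of_mul_eq_mul_left he (by omega)
      have h5 : a = a' := by
        apply hfinj
        simp only [hν]
        congr 2
        exact Finsupp.ext fun i => Fin.cases h0 (fun i => (h1 i).1) i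
      have h6 : β = β₁ := funext fun i => Fin.ext (h1 i).2
      rw [h5, h6]
  have hli2 := hli.map' (IsScalarTower.toAlgHom ℂ _
    (FractionRing (MvPowerSeries (Fin (n + 1)) ℂ))).toLinearMap (LinearMap.ker_eq_bot.2 hι)
  have hGH : (IsScalarTower.toAlgHom ℂ _
      (FractionRing (MvPowerSeries (Fin (n + 1)) ℂ))).toLinearMap ∘ H =
      ((LinearMap.mulRight ℂ (ι b ^ e * ι θ₂)).comp (j.toLinearMap.comp
        ((hom (e * m + (m₁ + n * e * r))).comp (W _ _).subtype))) ∘ G := by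
    funext p
    have h1 : ι (f p.1) = j (hom m (F p.1)) * ι b := by rw [← hF p.1]; exact hTb _
    have h2 : ι θ₁ = j (hom m₁ θ) * ι θ₂ := hθ₁.symm
    have h3 : ι (MvPowerSeries.monomial (β' p.2) 1) =
        j (∏ i, hom r (N.S (some i) - c i • N.S none) ^ (p.2 i : ℕ)) := by
      rw [MvPowerSeries.monomial_one_eq, Finsupp.prod_fintype _ _ (fun _ => pow_zero _),
        Fin.prod_univ_succ, map_prod, map_mul, map_prod]
      simp only [β', Finsupp.cons_zero, pow_zero, map_one, one_mul, Finsupp.cons_succ]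
      refine Finset.prod_congr rfl fun i _ => ?_
      rw [map_pow, map_pow, map_sub, map_smul]
      exact congrArg (· ^ (p.2 i : ℕ)) (hj i).symm
    have h4 : ι u = j (hom r (N.S none)) := hju.symm
    have h5 : hom (e * m + (m₁ + n * e * r)) ((F p.1 : K) ^ e * σ p.2) =
        hom m (F p.1 : K) ^ e * (hom m₁ θ * (hom r (N.S none) ^ (n * e - ∑ i, (p.2 i : ℕ)) *
          ∏ i, hom r (N.S (some i) - c i • N.S none) ^ (p.2 i : ℕ))) := by
      simp only [hom_pow]
      rw [blevel_hom_prod, hom_mul, hom_mul, hom_mul, hdeg]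
    change ι (H p) = j (hom _ ((F p.1 : K) ^ e * σ p.2)) * (ι b ^ e * ι θ₂)
    rw [h5]
    simp only [H, map_mul, map_pow ι, h1, h2, h3, h4, map_pow j]
    ring
  rw [hGH] at hli2
  have hcard := (LinearIndependent.of_comp _ hli2).fintype_card_le_finrank
  rw [Fintype.card_prod, Fintype.card_fin, Fintype.card_fun, Fintype.card_fin, Fintype.card_fin,
    LinearMap.finrank_range_of_inj hT, mul_comm] at hcard
  exact hcard

end Pool.Agent.MP_c0606f_ag.Klt

end

-- part MP_c0606f_ag.Klt.BVol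
section

/-! Expected vanishing orders at finite level. -/

namespace Pool.Agent.MP_c0606f_ag.Klt

open scoped ENNReal WithZero
open Filter

variable {K : Type} [Field K] [Algebra ℂ K] {n k r : ℕ} {y : Fin n → K} {s : Fin (k + 1) → K}

/-- the dimension data of the section ring -/
structure VData (y : Fin n → K) (s : Fin (k + 1) → K) (C : ℕ) : Prop where
  fin : ∀ m, Module.Finite ℂ (H0 y s m)
  grow : ∀ m, Module.finrank ℂ (H0 y s m) ≤ C * (m + 1) ^ n
  vk : VK y s C
  pos : ∀ m, C ≤ m → 0 < Module.finrank ℂ (H0 y s m)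

/-- sections with `r * secOrd ≥ l` -/
noncomputable def flt (r : ℕ) (y : Fin n → K) (s : Fin (k + 1) → K) (w : Valuation K ℤᵐ⁰)
    (m l : ℕ) : Submodule ℂ K :=
  Submodule.span ℂ {g | g ∈ H0 y s m ∧ g ≠ 0 ∧ (l : ℝ) ≤ r * secOrd r s w m g}

omit [Algebra ℂ K] in
theorem bvol_mono (w : Valuation K ℤᵐ⁰) (m : ℕ) {a b : K} (ha : a ≠ 0) (hb : b ≠ 0)
    (h : w a ≤ w b) : secOrd r s w m b ≤ secOrd r s w m a := by
  have h1 : ((ord w b : ℤ) : ℝ) ≤ ((ord w a : ℤ) : ℝ) :=
    Int.cast_le.mpr ((val_le_iff_ord w ha hb).1 h)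
  unfold secOrd
  linarith

omit [Algebra ℂ K] in
theorem bvol_int (hr : 0 < r) (w : Valuation K ℤᵐ⁰) (m : ℕ) (g : K) :
    (r : ℝ) * secOrd r s w m g = ((r * ord w g - m * (⨅ i, ord w (s i)) : ℤ) : ℝ) := by
  have hr' : (r : ℝ) ≠ 0 := Nat.cast_ne_zero.mpr hr.ne'
  unfold secOrd
  push_cast
  field_simp

theorem bvol_nat (N : NN n s) (hX : IsKltFano r y s) {w : Valuation K ℤᵐ⁰} (hw : IsDiv n w)
    {m : ℕ} {g : K} (hg : g ∈ H0 y s m) (h0 : g ≠ 0) :
    ∃ o : ℕ, (o : ℝ) = r * secOrd r s w m g := by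
  have h1 : (0 : ℝ) ≤ r * secOrd r s w m g :=
    mul_nonneg (Nat.cast_nonneg _) (N.secOrd_nonneg hX hw hg h0)
  rw [bvol_int hX.pos] at h1 ⊢
  obtain ⟨o, ho⟩ := Int.eq_ofNat_of_zero_le (Int.cast_nonneg_iff.mp h1)
  exact ⟨o, by rw [ho, Int.cast_natCast]⟩

/-- the set on the right is a submodule (`IsDiv.triv`, ultrametric inequality;
`r * secOrd = r * ord g - m * ⨅ ord (s i)`) -/
theorem mem_flt (hr : 0 < r) {w : Valuation K ℤᵐ⁰} (hw : IsDiv n w) {m l : ℕ} {g : K} :
    g ∈ flt r y s w m l ↔ g ∈ H0 y s m ∧ (g ≠ 0 → (l : ℝ) ≤ r * secOrd r s w m g) := by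
  have hr' : (0 : ℝ) ≤ r := Nat.cast_nonneg _
  constructor
  · intro hg
    unfold flt at hg
    induction hg using Submodule.span_induction with
    | mem x hx => exact ⟨hx.1, fun _ => hx.2.2⟩
    | zero => exact ⟨zero_mem _, fun h => absurd rfl h⟩
    | add a b _ _ ha hb =>
      refine ⟨add_mem ha.1 hb.1, fun hab => ?_⟩
      by_cases ha0 : a = 0
      · subst ha0
        rw [zero_add] at hab ⊢
        exact hb.2 hab
      by_cases hb0 : b = 0
      · subst hb0
        rw [add_zero] at hab ⊢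
        exact ha.2 hab
      rcases le_max_iff.1 (w.map_add a b) with h | h
      · exact (ha.2 ha0).trans (mul_le_mul_of_nonneg_left (bvol_mono w m hab ha0 h) hr')
      · exact (hb.2 hb0).trans (mul_le_mul_of_nonneg_left (bvol_mono w m hab hb0 h) hr')
    | smul c a _ ha =>
      refine ⟨Submodule.smul_mem _ c ha.1, fun hca => ?_⟩
      have ha0 : a ≠ 0 := fun h => hca (by rw [h, smul_zero])
      have h : w (c • a) ≤ w a := by
        rw [Algebra.smul_def, map_mul]
        exact mul_le_of_le_one_left' (hw.triv c)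
      exact (ha.2 ha0).trans (mul_le_mul_of_nonneg_left (bvol_mono w m hca ha0 h) hr')
  · rintro ⟨h1, h2⟩
    by_cases h0 : g = 0
    · rw [h0]; exact zero_mem _
    · exact Submodule.subset_span ⟨h1, h0, h2 h0⟩

theorem flt_zero (N : NN n s) (hX : IsKltFano r y s) {w : Valuation K ℤᵐ⁰} (hw : IsDiv n w)
    (m : ℕ) : flt r y s w m 0 = H0 y s m := by
  ext g
  rw [mem_flt hX.pos hw]
  refine ⟨fun h => h.1, fun h => ⟨h, fun h0 => ?_⟩⟩
  rw [Nat.cast_zero]
  exact mul_nonneg (Nat.cast_nonneg _) (N.secOrd_nonneg hX hw h h0)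

theorem bvol_le (hr : 0 < r) {w : Valuation K ℤᵐ⁰} (hw : IsDiv n w) (m l : ℕ) :
    flt r y s w m l ≤ H0 y s m := fun _ hg => ((mem_flt hr hw).1 hg).1

theorem bvol_anti (hr : 0 < r) {w : Valuation K ℤᵐ⁰} (hw : IsDiv n w) (m : ℕ) :
    Antitone (flt r y s w m) := fun l l' h g hg => by
  rw [mem_flt hr hw] at hg ⊢
  exact ⟨hg.1, fun h0 => (Nat.cast_le.mpr h).trans (hg.2 h0)⟩

theorem bvol_mul (hr : 0 < r) {w : Valuation K ℤᵐ⁰} (hw : IsDiv n w) (m m' l l' : ℕ) :
    ∀ f ∈ flt r y s w m l, ∀ f' ∈ flt r y s w m' l', f * f' ∈ flt r y s w (m + m') (l + l') := by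
  intro f hf f' hf'
  rw [mem_flt hr hw] at hf hf' ⊢
  refine ⟨H0_mul hf.1 hf'.1, fun h0 => ?_⟩
  have h1 : f ≠ 0 := left_ne_zero_of_mul h0
  have h2 : f' ≠ 0 := right_ne_zero_of_mul h0
  rw [secOrd_mul w m m' h1 h2, Nat.cast_add, mul_add]
  exact add_le_add (hf.2 h1) (hf'.2 h2)

theorem bvol_fin (hr : 0 < r) (hfin : ∀ m, Module.Finite ℂ (H0 y s m)) {w : Valuation K ℤᵐ⁰}
    (hw : IsDiv n w) (m l : ℕ) : Module.Finite ℂ (flt r y s w m l) :=
  have := hfin m
  Module.Finite.of_injective _ (Submodule.inclusion_injective (bvol_le hr hw m l))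

theorem bvol_rank_anti (hr : 0 < r) (hfin : ∀ m, Module.Finite ℂ (H0 y s m))
    {w : Valuation K ℤᵐ⁰} (hw : IsDiv n w) (m : ℕ) :
    Antitone fun l => Module.finrank ℂ (flt r y s w m l) := fun l _ hl =>
  have := bvol_fin hr hfin hw m l
  Submodule.finrank_mono (bvol_anti hr hw m hl)

theorem bvol_vk (N : NN n s) (hX : IsKltFano r y s) {C : ℕ} (hV : VData y s C)
    {w : Valuation K ℤᵐ⁰} (hw : IsDiv n w) : ∀ m l e m', 1 ≤ e → e * m + C * (e + 1) ≤ m' →
      e ^ n * Module.finrank ℂ (flt r y s w m l) ≤ Module.finrank ℂ (flt r y s w m' (e * l)) :=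
  hV.vk (flt r y s w) (bvol_le hX.pos hw) (flt_zero N hX hw) (bvol_mul hX.pos hw)

theorem bvol_vk0 {C : ℕ} (hV : VData y s C) : ∀ m e m', 1 ≤ e → e * m + C * (e + 1) ≤ m' →
      e ^ n * Module.finrank ℂ (H0 y s m) ≤ Module.finrank ℂ (H0 y s m') := fun m =>
  hV.vk (fun m _ => H0 y s m) (fun _ _ => le_rfl) (fun _ => rfl)
    (fun _ _ _ _ _ hf _ hf' => H0_mul hf hf') m 0

theorem bvol_scale (F : ℝ → ℝ≥0∞) (hF : Measurable F) {a : ℝ} (ha : 0 < a) :
    ENNReal.ofReal a * ∫⁻ t in Set.Ioi (0 : ℝ), F (a * t) = ∫⁻ t in Set.Ioi (0 : ℝ), F t := by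
  have h1 := MeasureTheory.setLIntegral_map (μ := MeasureTheory.volume) (g := fun t : ℝ => a * t)
    (measurableSet_Ioi (a := (0 : ℝ))) hF (measurable_const_mul a)
  have h2 : (fun t : ℝ => a * t) ⁻¹' Set.Ioi 0 = Set.Ioi 0 := by
    ext t
    simp only [Set.mem_preimage, Set.mem_Ioi]
    exact mul_pos_iff_of_pos_left ha
  rw [h2] at h1
  rw [← h1]
  conv_rhs => rw [← Real.smul_map_volume_mul_left ha.ne']
  rw [MeasureTheory.Measure.restrict_smul, MeasureTheory.lintegral_smul_measure, abs_of_pos ha,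
    smul_eq_mul]

/-- `r * secOrd` is an integer, so `t * m ≤ secOrd ↔ ⌈r * t * m⌉₊ ≤ r * secOrd` (it is
nonnegative by `secOrd_nonneg`) -/
theorem vol_eq (N : NN n s) (hX : IsKltFano r y s) {w : Valuation K ℤᵐ⁰} (hw : IsDiv n w)
    {t : ℝ} (ht : 0 ≤ t) :
    vol r y s w t = volOf n fun m => Module.finrank ℂ (flt r y s w m ⌈(r * t) * m⌉₊) := by
  have hr : (0 : ℝ) < r := Nat.cast_pos.mpr hX.pos
  have key : ∀ m : ℕ, {g | g ∈ H0 y s m ∧ g ≠ 0 ∧ t * m ≤ secOrd r s w m g} =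
      {g | g ∈ H0 y s m ∧ g ≠ 0 ∧ ((⌈(r * t) * m⌉₊ : ℕ) : ℝ) ≤ r * secOrd r s w m g} := by
    intro m
    ext g
    refine and_congr_right fun hg => and_congr_right fun h0 => ?_
    obtain ⟨o, ho⟩ := bvol_nat N hX hw hg h0
    rw [← ho, Nat.cast_le, Nat.ceil_le, ho, mul_assoc, mul_le_mul_iff_right₀ hr]
  unfold vol volOf flt
  congr 1
  funext m
  rw [key m]

/-- scaling of the integral (`MeasureTheory.lintegral_comp_mul_left_Ioi`-like lemma, or
`Real.map_volume_mul_left` with `lintegral_map'`; the integrand is antitone, so measurable) -/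
theorem expVan_eq (N : NN n s) (hX : IsKltFano r y s) (hfin : ∀ m, Module.Finite ℂ (H0 y s m))
    {w : Valuation K ℤᵐ⁰} (hw : IsDiv n w) :
    (r : ℝ≥0∞) * ((∫⁻ t in Set.Ioi (0 : ℝ), vol r y s w t) / vol r y s w 0) =
      (∫⁻ t in Set.Ioi (0 : ℝ), volOf n fun m => Module.finrank ℂ (flt r y s w m ⌈t * m⌉₊)) /
        volOf n fun m => Module.finrank ℂ (H0 y s m) := by
  have hr : (0 : ℝ) < r := Nat.cast_pos.mpr hX.pos
  have h0 : vol r y s w 0 = volOf n fun m => Module.finrank ℂ (H0 y s m) := by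
    rw [vol_eq N hX hw le_rfl]
    congr 1
    funext m
    rw [mul_zero, zero_mul, Nat.ceil_zero, flt_zero N hX hw]
  have hF := (vol_anti n (fun m l => Module.finrank ℂ (flt r y s w m l))
    (bvol_rank_anti hX.pos hfin hw)).measurable
  have h1 := bvol_scale _ hF hr
  rw [h0, ← mul_div_assoc, ← h1, ENNReal.ofReal_natCast]
  congr 2
  exact MeasureTheory.setLIntegral_congr_fun measurableSet_Ioi
    fun t ht => vol_eq N hX hw (le_of_lt ht)

/-- Compare `eventually_stab` in `Pool.Agent.MP_c0606f_ag.Final`: choose `θ < θ' < delta`,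
`1 + ε = θ' / θ`; `vol_upper` for `d m l = finrank (flt m l)`, `sum_le_sum_finrank` with
`o i = (r * secOrd (f i)).toNat`; `θ' * S ≤ A` from the definition of `delta` (`A > 0` by `klt`). -/
theorem eventually_stab (N : NN n s) (hX : IsKltFano r y s) {C : ℕ} (hV : VData y s C) {θ : ℝ}
    (hθ : 0 < θ) (h : ENNReal.ofReal θ < delta r y s) :
    ∀ᶠ m : ℕ in atTop, ∀ w, IsDiv n w → ∀ (q : ℕ) (f : Fin q → K), LinearIndependent ℂ f →
      (∀ i, f i ∈ H0 y s m) → θ * ∑ i, secOrd r s w m (f i) ≤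
        m * Module.finrank ℂ (H0 y s m) * logDisc r y s w := by
  have hr : (0 : ℝ) < r := Nat.cast_pos.mpr hX.pos
  obtain ⟨θ', -, h1, h2⟩ := ENNReal.lt_iff_exists_real_btwn.1 h
  have hθθ : θ < θ' := (ENNReal.ofReal_lt_ofReal_iff_of_nonneg hθ.le).1 h1
  have hθ' : 0 < θ' := hθ.trans hθθ
  have hε : 0 < θ' / θ - 1 := by rw [sub_pos, one_lt_div hθ]; exact hθθ
  have hpos : ∃ m, 1 ≤ m ∧ 0 < Module.finrank ℂ (H0 y s m) :=
    ⟨C + 1, by omega, hV.pos _ (by omega)⟩
  filter_upwards [vol_upper n C _ (bvol_vk0 hV) hV.grow hpos _ hε] with m hm w hw q f hf hf'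
  have hfin := bvol_fin hX.pos hV.fin hw m
  choose o ho using fun i => bvol_nat N hX hw (hf' i) (hf.ne_zero i)
  obtain ⟨L, hL⟩ := sum_le_sum_finrank (flt r y s w m) (bvol_anti hX.pos hw m) f hf o
    fun i => (mem_flt hX.pos hw).2 ⟨hf' i, fun _ => (ho i).le⟩
  have h5 := hm (fun m l => Module.finrank ℂ (flt r y s w m l)) (bvol_vk N hX hV hw)
    (bvol_rank_anti hX.pos hV.fin hw) L
  rw [← expVan_eq N hX hV.fin hw] at h5
  have hA := hX.klt w hw
  have h7 : ENNReal.ofReal θ' ≤ ENNReal.ofReal (logDisc r y s w) /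
      ((∫⁻ t in Set.Ioi (0 : ℝ), vol r y s w t) / vol r y s w 0) :=
    h2.le.trans (iInf₂_le w hw)
  have h6 : (∫⁻ t in Set.Ioi (0 : ℝ), vol r y s w t) / vol r y s w 0 ≤
      ENNReal.ofReal (logDisc r y s w / θ') := by
    rw [ENNReal.le_div_iff_mul_le (Or.inr (by simpa using hA)) (Or.inr ENNReal.ofReal_ne_top)]
      at h7
    rw [ENNReal.ofReal_div_of_pos hθ', ENNReal.le_div_iff_mul_le (Or.inl (by simpa using hθ'))
      (Or.inl ENNReal.ofReal_ne_top), mul_comm]
    exact h7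
  have hc : (0 : ℝ) ≤ (1 + (θ' / θ - 1)) * m * Module.finrank ℂ (H0 y s m) := by positivity
  have h8 : ((∑ i, o i : ℕ) : ℝ≥0∞) ≤ ENNReal.ofReal ((1 + (θ' / θ - 1)) * m *
      Module.finrank ℂ (H0 y s m) * (r * (logDisc r y s w / θ'))) := by
    rw [ENNReal.ofReal_mul hc, ENNReal.ofReal_mul hr.le, ENNReal.ofReal_natCast]
    exact ((Nat.cast_le.mpr hL).trans h5).trans (by gcongr)
  rw [← ENNReal.ofReal_natCast, ENNReal.ofReal_le_ofReal_iff (by positivity), Nat.cast_sum] at h8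
  simp only [ho, ← Finset.mul_sum] at h8
  have h9 : (r : ℝ) * (θ * ∑ i, secOrd r s w m (f i)) ≤
      r * (m * Module.finrank ℂ (H0 y s m) * logDisc r y s w) := by
    calc (r : ℝ) * (θ * ∑ i, secOrd r s w m (f i)) = θ * (r * ∑ i, secOrd r s w m (f i)) := by
          ring
      _ ≤ θ * ((1 + (θ' / θ - 1)) * m *
          Module.finrank ℂ (H0 y s m) * (r * (logDisc r y s w / θ'))) :=
          mul_le_mul_of_nonneg_left h8 hθ.le
      _ = _ := by field_simp; ring
  exact le_of_mul_le_mul_left h9 hr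

/-- `vol_lower` with `r * σ`, `exists_adapted` -/
theorem eventually_adapted (N : NN n s) (hX : IsKltFano r y s) {C : ℕ} (hV : VData y s C)
    {w : Valuation K ℤᵐ⁰} (hw : IsDiv n w) {σ : ℝ}
    (h : ENNReal.ofReal σ < (∫⁻ t in Set.Ioi (0 : ℝ), vol r y s w t) / vol r y s w 0) :
    ∀ᶠ m : ℕ in atTop, ∃ f : Fin (Module.finrank ℂ (H0 y s m)) → K, LinearIndependent ℂ f ∧
      (∀ i, f i ∈ H0 y s m) ∧
      σ * m * Module.finrank ℂ (H0 y s m) ≤ ∑ i, secOrd r s w m (f i) := by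
  have hr : (0 : ℝ) < r := Nat.cast_pos.mpr hX.pos
  have e0 : ∀ m, Module.finrank ℂ (flt r y s w m 0) = Module.finrank ℂ (H0 y s m) :=
    fun m => by rw [flt_zero N hX hw]
  have hpos : ∃ m, 1 ≤ m ∧ 0 < Module.finrank ℂ (flt r y s w m 0) :=
    ⟨C + 1, by omega, by rw [e0]; exact hV.pos _ (by omega)⟩
  have hσ : ENNReal.ofReal (r * σ) <
      (∫⁻ t in Set.Ioi (0 : ℝ), volOf n fun m => Module.finrank ℂ (flt r y s w m ⌈t * m⌉₊)) /
        volOf n fun m => Module.finrank ℂ (flt r y s w m 0) := by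
    simp only [e0]
    rw [← expVan_eq N hX hV.fin hw, ENNReal.ofReal_mul hr.le, ENNReal.ofReal_natCast]
    exact ENNReal.mul_lt_mul_right (Nat.cast_ne_zero.mpr hX.pos.ne') (ENNReal.natCast_ne_top r) h
  have h5 := vol_lower n C (fun m l => Module.finrank ℂ (flt r y s w m l)) (bvol_vk N hX hV hw)
    (bvol_rank_anti hX.pos hV.fin hw) (fun m => by rw [e0]; exact hV.grow m) hpos (r * σ) hσ
  filter_upwards [h5] with m ⟨L, hL⟩
  have hfin := bvol_fin hX.pos hV.fin hw m 0
  have hW := exists_adapted (flt r y s w m) (bvol_anti hX.pos hw m) L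
  rw [e0] at hW hL
  obtain ⟨f, o, hf, ho, hs⟩ := hW
  refine ⟨f, hf, fun i => bvol_le hX.pos hw m _ (ho i), ?_⟩
  have h6 : ((∑ i, o i : ℕ) : ℝ) ≤ r * ∑ i, secOrd r s w m (f i) := by
    rw [Nat.cast_sum, Finset.mul_sum]
    exact Finset.sum_le_sum fun i _ => ((mem_flt hX.pos hw).1 (ho i)).2 (hf.ne_zero i)
  have h7 := (hL.trans (Nat.cast_le.mpr hs)).trans h6
  rw [mul_assoc, mul_assoc, ← mul_assoc σ] at h7
  exact le_of_mul_le_mul_left h7 hr

/-- Take one large level `m` of `eventually_stab`, `θ' ≠ 0` in `H0 (m - e)` and the family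
consisting of `W * θ'` alone (`secOrd_mul`, `secOrd_nonneg`). -/
theorem exists_secOrd_le (N : NN n s) (hX : IsKltFano r y s) {C : ℕ} (hV : VData y s C)
    (h : 0 < delta r y s) {e : ℕ} {W : K} (hW : W ∈ H0 y s e) (h0 : W ≠ 0) :
    ∃ B : ℝ, 0 < B ∧ ∀ w, IsDiv n w → secOrd r s w e W ≤ B * logDisc r y s w := by
  obtain ⟨θ, -, h1, h2⟩ := ENNReal.lt_iff_exists_real_btwn.1 h
  have hθ : 0 < θ := ENNReal.ofReal_pos.1 h1
  obtain ⟨m, hm, hm'⟩ :=
    ((eventually_stab N hX hV hθ h2).and (eventually_ge_atTop (e + C + 1))).exists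
  obtain ⟨j, rfl⟩ : ∃ j, m = e + j := ⟨m - e, by omega⟩
  have hfin := hV.fin j
  obtain ⟨⟨g, hg⟩, hg0⟩ :=
    (Module.finrank_pos_iff_exists_ne_zero (R := ℂ)).1 (hV.pos j (by omega))
  have hg1 : g ≠ 0 := fun h => hg0 (Subtype.ext h)
  have hN : (0 : ℝ) < Module.finrank ℂ (H0 y s (e + j)) :=
    Nat.cast_pos.mpr (hV.pos _ (by omega))
  have hm0 : (0 : ℝ) < ((e + j : ℕ) : ℝ) := Nat.cast_pos.mpr (by omega)
  refine ⟨((e + j : ℕ) : ℝ) * Module.finrank ℂ (H0 y s (e + j)) / θ, by positivity,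
    fun w hw => ?_⟩
  have h3 := hm w hw 1 (fun _ => W * g)
    ((linearIndependent_subsingleton_index_iff _).2 fun _ => mul_ne_zero h0 hg1)
    fun _ => H0_mul hW hg
  rw [Fin.sum_univ_one, secOrd_mul w e j h0 hg1] at h3
  have h4 := N.secOrd_nonneg hX hw hg hg1
  rw [div_mul_eq_mul_div, le_div_iff₀ hθ]
  nlinarith [mul_nonneg hθ.le h4]

/-- apply `vk` to `W m l = H0 m` with a fixed level `m₀ = max C 1` and the largest `e` with
`e * m₀ + C * (e + 1) ≤ m` -/
theorem VData.dim {C : ℕ} (hV : VData y s C) :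
    ∃ c B : ℝ, 0 < c ∧ ∀ᶠ m : ℕ in atTop, c * (m : ℝ) ^ n ≤ Module.finrank ℂ (H0 y s m) ∧
      (Module.finrank ℂ (H0 y s m) : ℝ) ≤ B * (m : ℝ) ^ n := by
  have hD : (0 : ℝ) < 2 * ((2 * C + 1 : ℕ) : ℝ) := by positivity
  refine ⟨(1 / (2 * ((2 * C + 1 : ℕ) : ℝ))) ^ n, C * 2 ^ n, by positivity, ?_⟩
  filter_upwards [eventually_ge_atTop (3 * (2 * C + 1))] with m hm
  constructor
  · obtain ⟨e, he⟩ : ∃ e, m / (2 * C + 1) = e + 1 ∧ 2 ≤ e := by
      have : 3 ≤ m / (2 * C + 1) := (Nat.le_div_iff_mul_le (by omega)).2 hm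
      exact ⟨m / (2 * C + 1) - 1, by omega, by omega⟩
    have h1 : (e + 1) * (2 * C + 1) ≤ m := by rw [← he.1]; exact Nat.div_mul_le_self _ _
    have h2 : m < (e + 1 + 1) * (2 * C + 1) := by
      rw [← he.1, mul_comm]; exact Nat.lt_mul_div_succ m (by omega)
    have h3 := bvol_vk0 hV (C + 1) e m (by omega) (by nlinarith)
    have h4 : e ^ n ≤ Module.finrank ℂ (H0 y s m) :=
      (Nat.le_mul_of_pos_right _ (hV.pos _ (by omega))).trans h3
    have h5 : m ≤ 2 * (2 * C + 1) * e := by nlinarith [he.2]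
    have h6 : 1 / (2 * ((2 * C + 1 : ℕ) : ℝ)) * m ≤ e := by
      rw [one_div, inv_mul_le_iff₀ hD]
      exact_mod_cast h5
    calc _ = (1 / (2 * ((2 * C + 1 : ℕ) : ℝ)) * m) ^ n := (mul_pow _ _ _).symm
      _ ≤ (e : ℝ) ^ n := pow_le_pow_left₀ (by positivity) h6 n
      _ ≤ _ := by exact_mod_cast h4
  · have h1 : Module.finrank ℂ (H0 y s m) ≤ C * 2 ^ n * m ^ n := by
      rw [mul_assoc, ← mul_pow]
      exact (hV.grow m).trans (Nat.mul_le_mul_left _ (Nat.pow_le_pow_left (by omega) n))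
    exact_mod_cast h1

end Pool.Agent.MP_c0606f_ag.Klt

end

-- part MP_c0606f_ag.Klt.Model
section

/-! The affine cone over a Fano variety as a finite cover of affine space: the interface. -/

namespace Pool.Agent.MP_c0606f_ag.Klt

open scoped NNReal
open MvPolynomial

/-- `V m` are the sections of degree `m`, `h` is the Jacobian of the cover. -/
structure Model (ι : Type) [Fintype ι] [DecidableEq ι] (L : Type) [Field L] [Algebra ℂ L]
    extends Cover ι L where
  r : ℕ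
  V : ℕ → Submodule ℂ L
  h : L
  δ0 : MvPolynomial ι ℂ
  c0 : ℕ
  e0 : ℕ
  r_pos : 0 < r
  δ0_dvd : δ0 ∣ Δ
  fin : ∀ m, Module.Finite ℂ (V m)
  rep : ∀ m, ∀ a ∈ V m, ∃ p : ℕ → MvPolynomial ι ℂ, (∀ j, (p j).totalDegree ≤ m + c0) ∧
    a * aeval y δ0 = ∑ j ∈ Finset.range P.natDegree, aeval y (p j) * z ^ j
  int : ∀ m, ∀ a ∈ V m, IsIntegral (Algebra.adjoin ℂ (Set.range y)) a
  mul : ∀ m i, ∀ a ∈ V m, a * y i ∈ V (m + r)
  h_mem : h ∈ V e0
  h_ne : h ≠ 0
  h_inv : h⁻¹ ∈ toCover.A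
  reg : ∀ G ∈ toCover.ext.A,
    (∀ (v : Val (RatFunc L)) (t : RatFunc L), IsAbh v → (∀ o, v (toCover.ext.y o) ≤ 1) →
      IsUnif v t → v t * v (RatFunc.C h) ≤ avol v toCover.ext.y → v G ≤ 1) →
    IsIntegral (Algebra.adjoin ℂ (Set.range toCover.ext.y)) G

namespace Model

variable {ι L : Type} [Fintype ι] [DecidableEq ι] [Field L] [Algebra ℂ L] (Mo : Model ι L)

/-- the valuative form of: the pair `(cone, c * div F)` is klt away from the vertex -/
def Hyp (F : L) (c : ℚ) : Prop :=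
  ∃ (E : ℕ) (e : ℝ), 1 < E ∧ ∀ v : Val L, IsAbh v →
    avol v Mo.y ^ (1 - 1 / (E : ℝ)) ≤
      v F ^ (c : ℝ) * v Mo.h * (Finset.univ.sup fun i => v (Mo.y i)) ^ e

/-- growth of the dimensions -/
def Dim : Prop :=
  ∃ (n : ℕ) (c C : ℝ), 0 < n ∧ 0 < c ∧ ∀ᶠ m : ℕ in Filter.atTop,
    c * (m : ℝ) ^ n ≤ Module.finrank ℂ (Mo.V m) ∧
      (Module.finrank ℂ (Mo.V m) : ℝ) ≤ C * (m : ℝ) ^ n

/-- all basis type divisors of level `m` satisfy `Hyp` -/
def Stab (δ : ℚ) (m : ℕ) : Prop :=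
  ∀ (N : ℕ) (b : Module.Basis (Fin N) ℂ (Mo.V m)), Mo.Hyp (∏ l, (b l : L)) (δ / (m * N))

/-- a normalised point of the cone -/
def Nrm {R : Type} [Field R] (v : Val R) (x : L →+* R) : Prop :=
  (∀ i, v (x (Mo.y i)) ≤ 1) ∧ ∃ i, v (x (Mo.y i)) = 1

theorem mem_A {m : ℕ} {a : L} (ha : a ∈ Mo.V m) : a ∈ Mo.toCover.A := by
  obtain ⟨p, -, hp⟩ := Mo.rep m a ha
  have h0 : Mo.δ0 ≠ 0 := fun h => Mo.Δ_ne (by simpa [h] using Mo.δ0_dvd)
  have h1 := Mo.toCover.aeval_ne h0
  have : a = (∑ j ∈ Finset.range Mo.P.natDegree, aeval Mo.y (p j) * Mo.z ^ j) *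
      (aeval Mo.y Mo.δ0)⁻¹ := by
    rw [← hp]; field_simp
  rw [this]
  exact mul_mem (sum_mem fun j _ => mul_mem (Mo.toCover.aeval_mem _) (pow_mem Mo.toCover.z_mem _))
    (Mo.toCover.inv_mem_of_dvd Mo.δ0_dvd)

end Model

end Pool.Agent.MP_c0606f_ag.Klt

end

-- part MP_c0606f_ag.Klt.BHyp
section

/-! From inequalities on the variety to inequalities on the cone. -/

namespace Pool.Agent.MP_c0606f_ag.Klt

open scoped NNReal WithZero

variable {K : Type} [Field K] [Algebra ℂ K] {n k r : ℕ} {y : Fin n → K} {s : Fin (k + 1) → K}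

theorem bhyp_of_log {x x' a z μ : ℝ≥0} {θ c e : ℝ} (hθ : 0 ≤ θ) (hx : x ≤ x') (hx' : 0 < x')
    (ha : 0 < a) (hz : 0 < z) (hμ : 0 < μ)
    (h : θ * Real.log x' ≤ c * Real.log a + Real.log z + e * Real.log μ) :
    x ^ θ ≤ a ^ c * z * μ ^ e := by
  refine (NNReal.rpow_le_rpow hx hθ).trans ?_
  have h1 : (0 : ℝ) < x' := hx'
  have h2 : (0 : ℝ) < a := ha
  have h3 : (0 : ℝ) < z := hz
  have h4 : (0 : ℝ) < μ := hμ
  rw [← NNReal.coe_le_coe]
  push_cast
  rw [← Real.log_le_log_iff (by positivity) (by positivity),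
    Real.log_mul (by positivity) (by positivity), Real.log_mul (by positivity) (by positivity),
    Real.log_rpow h1, Real.log_rpow h2, Real.log_rpow h4]
  exact h

theorem bhyp_log_hom (v : Val (RatFunc K)) (m : ℕ) {g : K} (hg : g ≠ 0) :
    Real.log (v (hom m g)) = Real.log (v (cA K g)) + m * Real.log (v RatFunc.X) := by
  have h1 : (v (cA K g) : ℝ) ≠ 0 := by simpa using hg
  have h2 : (v RatFunc.X : ℝ) ≠ 0 := by simpa using RatFunc.X_ne_zero
  rw [hom_apply, map_mul, map_pow, NNReal.coe_mul, NNReal.coe_pow, ← cA_apply,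
    Real.log_mul h1 (pow_ne_zero _ h2), Real.log_pow]

/-- Let `τ = v X > 0`, `μ = sup v (Y o) = v (C (S o)) * τ ^ r` for the `o` of `exists_max`.
`avol v Y = avol v (yt y) * v h ≤ τ * avol v (C y) * v h` (`IsJac.avol_one`, `avol_option_le`).
By `restrict_cases` either `v` is trivial on `K`; then `avol v (C y) ≤ 1` (`evol_le_one`),
`μ = τ ^ r`, `v (hom a σ) = τ ^ a`.  Or `v (C g) = ρ ^ ord w g`; then `τ * avol v (C y) ≤
ρ ^ A * μ ^ (1 / r)` and `v (hom a σ) = ρ ^ secOrd * μ ^ (a / r)` (real exponents).  Take `E > 1` with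
`(B + 1) / E ≤ 1 - κ` and `e = ((1 - 1 / E) * (e0 + 1) - c * a - e0) / r`; the powers of `μ` agree and
`(1 - 1 / E) * (A + secOrd W) ≥ c * secOrd σ + secOrd W` (`A > 0` by `klt`).  It may be easiest to
take logarithms (treat `avol = 0` separately). -/
theorem NN.hyp (N : NN n s) (hX : IsKltFano r y s) (Mo : Model (Option (Fin n)) (RatFunc K))
    (hy : Mo.y = N.Y r) {e0 : ℕ} {W : K} (hh : Mo.h = hom e0 W) (hW : W ≠ 0)
    (hJ : IsJac (N.Y r) (yt y) (hom e0 W)) {B : ℝ} (hB0 : 0 < B)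
    (hB : ∀ w, IsDiv n w → secOrd r s w e0 W ≤ B * logDisc r y s w) {σ : K} (hσ : σ ≠ 0) (a : ℕ)
    (c : ℚ) {κ : ℝ} (hκ : κ < 1)
    (h : ∀ w, IsDiv n w → c * secOrd r s w a σ ≤ κ * logDisc r y s w) :
    Mo.Hyp (hom a σ) c := by
  obtain ⟨E, hE⟩ := exists_nat_gt (max 1 ((B + 1) / (1 - κ)))
  have hE1 : (1 : ℝ) < E := (le_max_left _ _).trans_lt hE
  have hE0 : (0 : ℝ) < E := by linarith
  have hE2 : (B + 1) / E ≤ 1 - κ := by
    have h1 := (le_max_right _ _).trans_lt hE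
    rw [div_lt_iff₀ (by linarith)] at h1
    rw [div_le_iff₀ hE0]
    linarith
  have hθ : 0 ≤ 1 - 1 / (E : ℝ) := by
    rw [sub_nonneg, div_le_one hE0]
    exact hE1.le
  have hr : (r : ℝ) ≠ 0 := Nat.cast_ne_zero.2 hX.pos.ne'
  refine ⟨E, ((1 - 1 / E) * (e0 + 1) - c * a - e0) / r, by exact_mod_cast hE1, fun v hv => ?_⟩
  rw [hy, hh]
  have htriv : ∀ c : ℂ, v (algebraMap ℂ (RatFunc K) c) ≤ 1 := fun c => by
    rcases eq_or_ne c 0 with rfl | hc
    · simp
    · exact (hv.triv c hc).le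
  obtain ⟨o, j, h1, h2, h3⟩ := N.exists_max (cA K) v htriv
  have hsup : (Finset.univ.sup fun i => v (N.Y r i)) = v (hom r (N.S o)) := by
    refine le_antisymm (Finset.sup_le fun i _ => ?_)
      (Finset.le_sup (f := fun i => v (N.Y r i)) (Finset.mem_univ o))
    rw [NN.Y, hom_apply, hom_apply, map_mul, map_mul]
    exact mul_le_mul_left (h2 i) _
  rw [hsup]
  have hτ : 0 < v RatFunc.X := v.pos_iff.2 RatFunc.X_ne_zero
  have hpos : ∀ (m : ℕ) {g : K}, g ≠ 0 → 0 < v (hom m g) := fun m g hg =>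
    v.pos_iff.2 (hom_ne m hg)
  have hav : ∀ β : ℝ≥0, avol v (fun i => cA K (y i)) ≤ β →
      avol v (N.Y r) ≤ v RatFunc.X * β * v (hom e0 W) := by
    intro β hβ
    have h4 := hJ.avol_one (AlgHom.id ℂ (RatFunc K)) v
    have h5 := avol_option_le v (yt y)
    refine (le_of_eq h4).trans (mul_le_mul_left (h5.trans ?_) _)
    exact mul_le_mul_right hβ _
  rcases restrict_cases hX (cA K) v hv with h4 | ⟨w, ρ, hw, hA, h4⟩
  · have h5 : avol v (fun i => cA K (y i)) ≤ 1 := evol_le_one v ∅ _ fun i =>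
      (h4 _ (hX.basis.1.ne_zero i)).le
    refine bhyp_of_log hθ (hav 1 h5) (by simpa using mul_pos hτ (hpos e0 hW)) (hpos a hσ)
      (hpos e0 hW) (hpos r (N.ne o)) (le_of_eq ?_)
    rw [mul_one, NNReal.coe_mul, Real.log_mul (NNReal.coe_pos.2 hτ).ne'
      (NNReal.coe_pos.2 (hpos e0 hW)).ne', bhyp_log_hom v e0 hW, bhyp_log_hom v a hσ,
      bhyp_log_hom v r (N.ne o), h4 W hW, h4 σ hσ, h4 _ (N.ne o), NNReal.coe_one, Real.log_one]
    field_simp
    ring
  · have hρ : 0 < ρ ^ (1 + ordForm w y) := zpow_pos hA.1 _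
    refine bhyp_of_log hθ (hav _ h4) (mul_pos (mul_pos hτ hρ) (hpos e0 hW)) (hpos a hσ)
      (hpos e0 hW) (hpos r (N.ne o)) ?_
    have hlog : ∀ {g : K}, g ≠ 0 → Real.log (v (cA K g)) = ord w g * Real.log ρ := by
      intro g hg
      have := hA.log hg
      change -Real.log (v (cA K g)) = _ at this
      linarith
    have hm : (⨅ i, ord w (s i)) = ord w (N.S o) := by
      have h5 : ∀ i, ord w (N.S o) ≤ ord w (s i) := fun i =>
        (val_le_iff_ord w (hX.ne i) (N.ne o)).1 ((hA.le_iff _ _).1 ((h3 i).trans h1.ge))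
      refine le_antisymm ((ciInf_le (Finite.bddBelow_range _) j).trans ?_) (le_ciInf h5)
      exact (val_le_iff_ord w (N.ne o) (hX.ne j)).1 ((hA.le_iff _ _).1 h1.le)
    have hL : Real.log ρ < 0 := Real.log_neg (NNReal.coe_pos.2 hA.1) (by exact_mod_cast hA.2.1)
    have hA0 := hX.klt w hw
    have key : c * secOrd r s w a σ + secOrd r s w e0 W ≤
        (1 - 1 / (E : ℝ)) * (logDisc r y s w + secOrd r s w e0 W) := by
      have k1 := h w hw
      have k2 := div_le_div_of_nonneg_right (hB w hw) hE0.le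
      have k3 := mul_le_mul_of_nonneg_right hE2 hA0.le
      have k4 : (1 - 1 / (E : ℝ)) * (logDisc r y s w + secOrd r s w e0 W) =
          logDisc r y s w + secOrd r s w e0 W - logDisc r y s w / E - secOrd r s w e0 W / E := by
        ring
      have k5 : (B + 1) / E * logDisc r y s w =
          B * logDisc r y s w / E + logDisc r y s w / E := by ring
      linarith
    have key2 := mul_le_mul_of_nonpos_right key hL.le
    rw [NNReal.coe_mul, NNReal.coe_mul, Real.log_mul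
      (mul_pos (NNReal.coe_pos.2 hτ) (NNReal.coe_pos.2 hρ)).ne'
      (NNReal.coe_pos.2 (hpos e0 hW)).ne', Real.log_mul (NNReal.coe_pos.2 hτ).ne'
      (NNReal.coe_pos.2 hρ).ne', bhyp_log_hom v e0 hW, bhyp_log_hom v a hσ,
      bhyp_log_hom v r (N.ne o), hlog hW, hlog hσ, hlog (N.ne o), NNReal.coe_zpow, Real.log_zpow]
    simp only [secOrd, logDisc, hm] at key2
    rw [← sub_nonneg] at key2 ⊢
    refine key2.trans (le_of_eq ?_)
    push_cast
    field_simp
    ring

end Pool.Agent.MP_c0606f_ag.Klt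

end

-- part MP_c0606f_ag.Klt.BDet
section

/-! Nonvanishing of the determinant; dimension zero. -/

namespace Pool.Agent.MP_c0606f_ag.Klt

open scoped NNReal ENNReal WithZero

variable {K : Type} [Field K] [Algebra ℂ K] {n k r : ℕ} {y : Fin n → K} {s : Fin (k + 1) → K}

theorem bdet_const {L : Type} [Field L] [Algebra ℂ L] {a : L} (ha : IsAlgebraic ℂ a) :
    ∃ c : ℂ, algebraMap ℂ L c = a :=
  minpoly.mem_range_of_degree_eq_one ℂ a
    (IsAlgClosed.degree_eq_one_of_irreducible ℂ (minpoly.irreducible ha.isIntegral))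

theorem bdet_map {L : Type} [Field L] [Algebra ℂ L] (hy : IsTranscendenceBasis ℂ y)
    (e : K →ₐ[ℂ] L) (G : Set L) (hG : ∀ i, e (y i) ∈ G) (a : K) :
    IsAlgebraic (Algebra.adjoin ℂ G) (e a) := by
  have h1 : ∀ x ∈ Algebra.adjoin ℂ (Set.range y), e x ∈ Algebra.adjoin ℂ G := fun x hx =>
    (Algebra.adjoin_le (S := (Algebra.adjoin ℂ G).comap e)
      (Set.forall_mem_range.2 fun i => Algebra.subset_adjoin (hG i))) hx
  let φ : Algebra.adjoin ℂ (Set.range y) →+* Algebra.adjoin ℂ G :=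
    ((e : K →+* L).comp (Algebra.adjoin ℂ (Set.range y)).val.toRingHom).codRestrict _
      fun x => h1 x x.2
  refine (hy.isAlgebraic.isAlgebraic a).ringHom_of_comp_eq φ (e : K →+* L) (fun x x' h => ?_) rfl
  exact Subtype.ext (e.injective (congrArg Subtype.val h))

/-- Linear disjointness.  Induction on the number of terms (or take a relation with minimal
support): divide by a nonzero `M i0`; every derivation `D l` kills `f`, so applying it gives a
shorter relation, hence `D l (M i / M i0) = 0`; by `alg_of_killed` (with `G = ∅`) the quotients are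
algebraic over `ℂ`, so constants, contradicting independence.  The elements algebraic over `ℂ[u]`
form a field (`Om u`, `mem_Om`) preserved by the `D l` (`der_mem`). -/
theorem eq_zero_of_sum_mul {L κ ι : Type} [Field L] [Algebra ℂ L] [Fintype κ] [DecidableEq κ]
    [Fintype ι] (u : κ → L) (D : κ → Derivation ℂ L L)
    (hu : ∀ l l', D l (u l') = if l = l' then 1 else 0) (f : ι → L) (hf : LinearIndependent ℂ f)
    (hD : ∀ l i, D l (f i) = 0) (M : ι → L) (hM : ∀ i, M i ∈ Om u) (h : ∑ i, M i * f i = 0) :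
    M = 0 := by
  classical
  induction hc : (Finset.univ.filter fun i => M i ≠ 0).card using Nat.strong_induction_on
    generalizing M with
  | _ c ih =>
  by_contra h0
  obtain ⟨i0, hi0⟩ := Function.ne_iff.1 h0
  have hN : ∀ i, M i / M i0 ∈ Om u := fun i => (Om u).div_mem (hM i) (hM i0)
  have hs : ∑ i, M i / M i0 * f i = 0 := by
    simp only [div_mul_eq_mul_div, ← Finset.sum_div, h, zero_div]
  have hk : ∀ l, (fun i => D l (M i / M i0)) = 0 := fun l => by
    refine ih _ ?_ _ (fun i => ?_) ?_ rfl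
    · rw [← hc]
      refine Finset.card_lt_card ⟨fun i hi => ?_, fun hsub => ?_⟩
      · simp only [Finset.mem_filter, Finset.mem_univ, true_and] at hi ⊢
        intro hi'
        exact hi (by rw [hi', zero_div, map_zero])
      · have := hsub (Finset.mem_filter.2 ⟨Finset.mem_univ i0, hi0⟩)
        simp only [Finset.mem_filter, Finset.mem_univ, true_and] at this
        exact this (by rw [div_self hi0, Derivation.map_one_eq_zero])
    · refine der_mem (D l) (Om u) (Set.range u) ?_ ?_ (hN i) ((mem_Om u _).1 (hN i))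
      · exact Set.forall_mem_range.2 fun j => (mem_Om u _).2 (isAlgebraic_algebraMap
          (⟨u j, Algebra.subset_adjoin ⟨j, rfl⟩⟩ : Algebra.adjoin ℂ (Set.range u)))
      · refine Set.forall_mem_range.2 fun j => ?_
        rw [hu]
        split_ifs
        exacts [one_mem _, zero_mem _]
    · have := congrArg (D l) hs
      rw [map_sum, map_zero] at this
      rw [← this]
      refine Finset.sum_congr rfl fun i _ => ?_
      rw [Derivation.leibniz, hD, smul_zero, zero_add, smul_eq_mul, mul_comm]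
  have hconst : ∀ i, ∃ c : ℂ, algebraMap ℂ L c = M i / M i0 := fun i => by
    have h1 := alg_of_killed ∅ u D (fun _ _ h => h.elim) hu (a := M i / M i0)
      (by rw [Set.empty_union]; exact (mem_Om u _).1 (hN i)) fun l => congrFun (hk l) i
    rw [Algebra.adjoin_empty] at h1
    exact bdet_const ((Subalgebra.isAlgebraic_bot_iff (algebraMap ℂ L).injective).1 h1)
  choose a ha using hconst
  have h2 := Fintype.linearIndependent_iff.1 hf a (by
    rw [← hs]
    exact Finset.sum_congr rfl fun i _ => by rw [Algebra.smul_def, ha]) i0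
  have h3 := ha i0
  rw [h2, map_zero, div_self hi0] at h3
  exact zero_ne_one h3

/-- Induction on `N`: expand along the last column (`Matrix.det_succ_column`); the cofactors lie in
`Om` of the family `e j (y i)`, `j < N`; extend the independent family to a transcendence basis
(`exists_isTranscendenceBasis_superset`) to get the dual derivations (`exists_der`), which kill the
range of the last `e` (`der_kill_alg`); one cofactor is nonzero by induction. -/
theorem det_ne_zero (hy : IsTranscendenceBasis ℂ y) {L : Type} [Field L] [Algebra ℂ L] {N : ℕ}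
    (e : Fin N → K →ₐ[ℂ] L)
    (hind : AlgebraicIndependent ℂ fun p : Fin N × Fin n => e p.1 (y p.2)) (f : Fin N → K)
    (hf : LinearIndependent ℂ f) : (Matrix.of fun i j => e j (f i)).det ≠ 0 := by
  classical
  induction N with
  | zero => simp
  | succ N ih =>
  intro h0
  let ι : Fin N × Fin n → Fin (N + 1) × Fin n := fun p => (p.1.castSucc, p.2)
  have hι : Function.Injective ι :=
    (Fin.castSucc_injective N).prodMap Function.injective_id
  let u : Fin N × Fin n → L := fun p => e p.1.castSucc (y p.2)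
  obtain ⟨t, ht, hb⟩ := exists_isTranscendenceBasis_superset hind.to_subtype_range
  choose D hD using fun l : Fin N × Fin n =>
    exists_der hb fun x : t => if (x : L) = u l then 1 else 0
  have hD' : ∀ l p, D l (e p.1 (y p.2)) = if p = ι l then 1 else 0 := fun l p => by
    rw [hD l ⟨_, ht ⟨p, rfl⟩⟩]
    exact if_congr (hind.injective.eq_iff (a := p) (b := ι l)) rfl rfl
  rw [Matrix.det_succ_column _ (Fin.last N)] at h0
  have key := eq_zero_of_sum_mul u D
    (fun l l' => (hD' l (ι l')).trans (if_congr (hι.eq_iff.trans eq_comm) rfl rfl))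
    (fun i => e (Fin.last N) (f i))
    (hf.map' (e (Fin.last N)).toLinearMap (LinearMap.ker_eq_bot.2 (e _).injective))
    (fun l i => der_kill_alg (D l) (Set.range fun m => e (Fin.last N) (y m))
      (Set.forall_mem_range.2 fun m => (hD' l (Fin.last N, m)).trans
        (if_neg fun h => (Fin.castSucc_lt_last l.1).ne' (congrArg Prod.fst h)))
      (bdet_map hy (e (Fin.last N)) _ (fun m => Set.mem_range_self m) _))
    (fun i => (-1) ^ ((i : ℕ) + (Fin.last N : ℕ)) *
      ((Matrix.of fun i j => e j (f i)).submatrix i.succAbove (Fin.last N).succAbove).det)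
    (fun i => ?_) ?_
  · have h1 := congrFun key 0
    simp only [Pi.zero_apply, mul_eq_zero, pow_eq_zero_iff', neg_eq_zero, one_ne_zero, false_and,
      false_or] at h1
    refine ih (fun j => e j.castSucc) (hind.comp ι hι) (fun i => f ((0 : Fin (N + 1)).succAbove i))
      (hf.comp _ Fin.succAbove_right_injective) ?_
    rw [← h1, Fin.succAbove_last]
    rfl
  · refine mul_mem (pow_mem (neg_mem (one_mem _)) _) ?_
    rw [Matrix.det_apply', Fin.succAbove_last]
    refine sum_mem fun σ _ => mul_mem (intCast_mem _ _) (prod_mem fun j _ => ?_)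
    exact (mem_Om u _).2 (bdet_map hy (e j.castSucc) (Set.range u) (fun m => ⟨(j, m), rfl⟩) _)
  · rw [← h0]
    exact Finset.sum_congr rfl fun i _ => by rw [Matrix.of_apply]; ring

/-- in dimension zero there are no divisors: `L` is algebraic over `ℂ` -/
theorem not_isDiv_zero {L : Type} [Field L] [Algebra ℂ L] [Algebra.IsAlgebraic ℂ L] {d : ℕ}
    (w : Valuation L ℤᵐ⁰) : ¬ IsDiv d w := by
  rintro ⟨hs, u, hu⟩
  obtain ⟨a, ha⟩ := hs (WithZero.exp 1)
  obtain ⟨c, rfl⟩ := bdet_const (Algebra.IsAlgebraic.isAlgebraic (R := ℂ) a)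
  have hc : c ≠ 0 := by
    rintro rfl
    rw [map_zero, map_zero] at ha
    exact WithZero.exp_ne_zero ha.symm
  have := hu (MvPolynomial.C c) (by simpa using hc)
  rw [MvPolynomial.aeval_C, ha, ← WithZero.exp_zero, WithZero.exp_inj] at this
  exact one_ne_zero this

theorem lct_zero {y : Fin 0 → K} (hX : IsKltFano r y s) (m : ℕ) {N : ℕ} (b : Fin N → K) :
    lct r y s m b = ⊤ := by
  have hK : Algebra.IsAlgebraic ℂ K := hX.basis.isEmpty_iff_isAlgebraic.1 inferInstance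
  unfold lct
  simp only [iInf_eq_top]
  intro L _ _ e he w hw
  have : Algebra.IsAlgebraic ℂ L := ⟨fun a => by
    have h1 : IntermediateField.adjoin ℂ (⋃ j, Set.range (e j)) ≤ algebraicClosure ℂ L := by
      refine IntermediateField.adjoin_le_iff.2 (Set.iUnion_subset fun j => ?_)
      exact Set.forall_mem_range.2 fun x =>
        mem_algebraicClosure_iff.2 ((hK.isAlgebraic x).algHom (e j))
    rw [he] at h1
    exact mem_algebraicClosure_iff.1 (h1 IntermediateField.mem_top)⟩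
  exact absurd hw (not_isDiv_zero w)

theorem delta_zero {y : Fin 0 → K} (hX : IsKltFano r y s) : delta r y s = ⊤ := by
  have hK : Algebra.IsAlgebraic ℂ K := hX.basis.isEmpty_iff_isAlgebraic.1 inferInstance
  unfold delta
  simp only [iInf_eq_top]
  intro w hw
  exact absurd hw (not_isDiv_zero w)

end Pool.Agent.MP_c0606f_ag.Klt

end

-- part MP_c0606f_ag.Klt.BProd
section

/-! The product of `N` copies of a divisor. -/

namespace Pool.Agent.MP_c0606f_ag.Klt

open scoped NNReal ENNReal WithZero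

variable {K : Type} [Field K] [Algebra ℂ K] {n k r : ℕ} {y : Fin n → K} {s : Fin (k + 1) → K}

/-- derivations of the big field restricting to the dual derivations of one copy -/
theorem bprod_der {Ω : Type} [Field Ω] [Algebra ℂ Ω] {κ : Type} [Fintype κ] [DecidableEq κ]
    {N : ℕ} {v0 : Val K} {t : K} {u : κ → K} (hf : IsFrame v0 t u) {D0 : Derivation ℂ K K}
    {D : κ → Derivation ℂ K K} (hd : IsDual t u D0 D) {v : Val Ω} {t' : Ω}
    {ξ : Fin N × Option κ → Ω} (hΩ : IsFrame v t' ξ) (e : Fin N → K →ₐ[ℂ] Ω)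
    (het : ∀ j, e j t = t' * ξ (j, none)) (heu : ∀ j i, e j (u i) = ξ (j, some i)) :
    ∃ E : Fin N × Option κ → Derivation ℂ Ω Ω, (∀ z, E z ∈ LD v ∅) ∧ ∀ z j a,
      E z (e j a) = if z.1 = j then e j ((z.2.elim D0 D : Derivation ℂ K K) a) else 0 := by
  obtain ⟨D0', D', hd', -, hD', -⟩ := hΩ.exists_dual
  have ht' : t' ≠ 0 := by
    rintro rfl
    simpa using hΩ.pos
  have hξ : ∀ z, ξ z ≠ 0 := fun z h => by simpa [h] using hΩ.res.val_eq z
  refine ⟨fun z => (z.2.elim (ξ z) fun _ => 1 : Ω) • D' z, fun z => ?_, fun z j a => ?_⟩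
  · refine (isLat_LD v ∅).smul _ ?_ _ (LD_mono v (Set.empty_subset _) (hD' z))
    rcases z with ⟨j, _ | i⟩
    · exact (hΩ.res.val_eq _).le
    · simp
  · rw [lat_decomp (e j) hf hd]
    have hc : ∀ o : Option κ, o.elim
        (((z.2.elim (ξ z) fun _ => 1 : Ω) • D' z) (e j t) / e j t)
        (fun i => ((z.2.elim (ξ z) fun _ => 1 : Ω) • D' z) (e j (u i))) =
        if z = (j, o) then 1 else 0 := by
      rintro (_ | i)
      · simp only [Option.elim_none, Derivation.smul_apply, het, Derivation.leibniz, hd'.ut,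
          hd'.uu, smul_eq_mul]
        split_ifs with h
        · subst h
          simp [ht', hξ, mul_comm]
        · simp
      · simp only [Option.elim_some, Derivation.smul_apply, heu, hd'.uu, smul_eq_mul]
        split_ifs with h
        · subst h
          simp
        · simp
    simp only [hc]
    rcases z with ⟨j', o⟩
    by_cases h : j' = j
    · subst h
      simp
    · simp [h]

/-- the determinant of a block diagonal matrix -/
theorem bprod_det {Ω : Type} [Field Ω] {N n : ℕ} (B : Fin N → Matrix (Fin n) (Fin n) Ω) :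
    (Matrix.of fun p q : Fin N × Fin n => if p.1 = q.1 then B q.1 p.2 q.2 else 0).det =
      ∏ j, (B j).det := by
  rw [← Matrix.det_blockDiagonal, ← Matrix.det_submatrix_equiv_self (Equiv.prodComm _ _)]
  congr 1
  ext p q
  simp only [Matrix.submatrix_apply, Matrix.of_apply, Equiv.prodComm_apply, Prod.fst_swap,
    Prod.snd_swap, Matrix.blockDiagonal_apply]
  split_ifs with h
  · rw [h]
  · rfl

/-- the subfield generated by the copies -/
theorem bprod_sub {Ω : Type} [Field Ω] [Algebra ℂ Ω] {N : ℕ} (e' : Fin N → K →ₐ[ℂ] Ω)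
    (hfg : (⊤ : IntermediateField ℂ K).FG) :
    ∃ (L : Type) (_ : Field L) (_ : Algebra ℂ L) (e : Fin N → K →ₐ[ℂ] L) (i : L →ₐ[ℂ] Ω),
      (∀ j a, i (e j a) = e' j a) ∧ IntermediateField.adjoin ℂ (⋃ j, Set.range (e j)) = ⊤ ∧
      (⊤ : IntermediateField ℂ L).FG := by
  let L : IntermediateField ℂ Ω := IntermediateField.adjoin ℂ (⋃ j, Set.range (e' j))
  have hmem : ∀ j a, e' j a ∈ L := fun j a =>
    IntermediateField.subset_adjoin _ _ (Set.mem_iUnion.2 ⟨j, a, rfl⟩)
  let e : Fin N → K →ₐ[ℂ] L := fun j => (e' j).codRestrict L.toSubalgebra (hmem j)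
  have htop : IntermediateField.adjoin ℂ (⋃ j, Set.range (e j)) = ⊤ := by
    apply IntermediateField.map_injective L.val
    rw [IntermediateField.adjoin_map, ← AlgHom.fieldRange_eq_map, IntermediateField.fieldRange_val,
      Set.image_iUnion]
    simp only [← Set.range_comp]
    rfl
  refine ⟨L, inferInstance, inferInstance, e, L.val, fun _ _ => rfl, htop, ?_⟩
  obtain ⟨G, hG⟩ := hfg
  have h1 : IntermediateField.adjoin ℂ (⋃ j, e j '' G) = ⊤ := by
    rw [eq_top_iff, ← htop, IntermediateField.adjoin_le_iff]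
    rintro _ ⟨_, ⟨j, rfl⟩, a, rfl⟩
    have h2 : e j a ∈ (IntermediateField.adjoin ℂ (G : Set K)).map (e j) := by
      rw [hG]
      exact ⟨a, trivial, rfl⟩
    rw [IntermediateField.adjoin_map] at h2
    exact IntermediateField.adjoin.mono _ _ _ (Set.subset_iUnion (fun j => e j '' G) j) h2
  rw [← h1]
  exact IntermediateField.fg_adjoin_of_finite
    (Set.finite_iUnion fun j => G.finite_toSet.image _)

/-- Take `v0`, `c = 1 / 2`, the frame `(t, u)` of `w` (`exists_assoc`, `IsDiv.frame`) and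
`Ω, v, t', ξ` from `exists_base` with `Z = Fin N × Option (Fin (n - 1))`.  `exists_embed_val` gives
value preserving `e' j : K → Ω` with `t ↦ t' * ξ (j, none)`, `u i ↦ ξ (j, some i)`.  Let `L` be the
intermediate field generated by the ranges (finitely generated, by the images of generators of `K`)
and `e j` the corestrictions.  With `D0, D` dual to the frame of `Ω`, the derivations
`ξ (j, none) • D (j, none)` and `D (j, some i)` lie in `LD v ∅`, restrict along `e' j` to the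
derivations dual to `(t, u)` and kill the range of `e' j'`, `j' ≠ j` (`der_comp_eq`).  So the
determinant is block diagonal with value `(avol v0 y) ^ N = c ^ (N * (1 + ordForm w y))`
(`avol_eq`, `avol_eq_ordForm`); it is nonzero, which gives independence (`algInd_of_det`), so
`e j (y i)` is a transcendence basis of `L`.  `IsAbh.comap`, `IsFrame.card_eq`,
`exists_div_of_frame` give `w'` with constant `c'`, `c = c' ^ ρ`; `avol_comap_le` and
`avol_eq_ordForm` give the last claim. -/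
theorem exists_product (hX : IsKltFano r y s) {w : Valuation K ℤᵐ⁰} (hw : IsDiv n w) (hn : 0 < n)
    {N : ℕ} (hN : 0 < N) :
    ∃ (L : Type) (_ : Field L) (_ : Algebra ℂ L) (e : Fin N → K →ₐ[ℂ] L) (w' : Valuation L ℤᵐ⁰)
      (ρ : ℕ), 0 < ρ ∧ IntermediateField.adjoin ℂ (⋃ j, Set.range (e j)) = ⊤ ∧
      IsDiv (N * n) w' ∧ (∀ j a, a ≠ 0 → ord w' (e j a) = ρ * ord w a) ∧
      (AlgebraicIndependent ℂ fun p : Fin N × Fin n => e p.1 (y p.2)) ∧
      1 + ordForm w' (fun p : Fin N × Fin n => e p.1 (y p.2)) ≤ ρ * N * (1 + ordForm w y) := by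
  have hfg := hX.fg
  have hc0 : (0 : ℝ≥0) < 2⁻¹ := by norm_num
  have hc1 : (2⁻¹ : ℝ≥0) < 1 := by norm_num
  obtain ⟨v0, hv0⟩ := exists_assoc w hc0 hc1
  have halg : ∀ a : K, IsAlgebraic (Algebra.adjoin ℂ (Set.range y)) a := fun a =>
    hX.basis.isAlgebraic.isAlgebraic a
  obtain ⟨-, t, u, hf, ht, htc⟩ := hw.frame hv0 y (Fintype.card_fin n) hn halg
  obtain ⟨Ω, _, _, _, v, t', ξ, ht', hΩ⟩ := exists_base (Fin N × Option (Fin (n - 1))) hc0 hc1
  have hemb : ∀ j : Fin N, ∃ g : K →ₐ[ℂ] Ω, g t = t' * ξ (j, none) ∧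
      (∀ i, g (u i) = ξ (j, some i)) ∧ ∀ a, v (g a) = v0 a := fun j =>
    exists_embed_val hf hfg v _ _ (by rw [map_mul, hΩ.res.val_eq, mul_one, ht', htc])
      (hΩ.res.comp (fun i => (j, some i)) fun i i' h => by simpa using h)
  choose e' het heu hev using hemb
  obtain ⟨D0, D, hd, -⟩ := hf.exists_dual
  obtain ⟨E, hE, hEe⟩ := bprod_der hf hd hΩ e' het heu
  let ε : Fin n ≃ Option (Fin (n - 1)) := Fintype.equivOfCardEq (by simp; omega)
  have hav : avol v0 y = 2⁻¹ ^ (1 + ordForm w y) := by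
    rw [avol_eq_ordForm hf ht (by rw [htc]; exact hv0) hX.basis, htc]
  have hdet : v (Matrix.of fun p q : Fin N × Fin n => E (p.1, ε p.2) (e' q.1 (y q.2))).det =
      (2⁻¹ ^ (1 + ordForm w y)) ^ N := by
    simp only [hEe]
    have h1 := bprod_det fun j => (e' j).toRingHom.mapMatrix
      (Matrix.of fun i l => ((ε i).elim D0 D : Derivation ℂ K K) (y l))
    have h2 : ∀ j, v ((e' j).toRingHom.mapMatrix
        (Matrix.of fun i l => ((ε i).elim D0 D : Derivation ℂ K K) (y l))).det =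
        2⁻¹ ^ (1 + ordForm w y) := fun j => by
      rw [← RingHom.map_det, ← hav, avol_eq hf hd y ε]
      exact hev j _
    refine (congrArg v h1).trans ?_
    rw [map_prod, Finset.prod_congr rfl fun j _ => h2 j, Finset.prod_const, Finset.card_fin]
  have hne : (Matrix.of fun p q : Fin N × Fin n => E (p.1, ε p.2) (e' q.1 (y q.2))).det ≠ 0 := by
    intro h
    rw [h, map_zero] at hdet
    exact (pow_pos (zpow_pos hc0 _) N).ne hdet
  have hind := algInd_of_det (fun p : Fin N × Fin n => E (p.1, ε p.2))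
    (fun q : Fin N × Fin n => e' q.1 (y q.2)) hne
  have hle := lat_le_evol v ∅ (fun q : Fin N × Fin n => e' q.1 (y q.2))
    (fun p : Fin N × Fin n => E (p.1, ε p.2)) fun p => hE _
  rw [hdet] at hle
  obtain ⟨L, _, _, e, i, hi, htop, hL⟩ := bprod_sub e' hfg
  have hind' : AlgebraicIndependent ℂ fun p : Fin N × Fin n => e p.1 (y p.2) := by
    refine AlgebraicIndependent.of_comp i ?_
    simpa only [Function.comp_def, hi] using hind
  have hbas : IsTranscendenceBasis ℂ fun p : Fin N × Fin n => e p.1 (y p.2) := by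
    refine hind'.isTranscendenceBasis_iff_isAlgebraic.2 ⟨fun a => (mem_Om _ a).1 ?_⟩
    have h1 : (⊤ : IntermediateField ℂ L) ≤ Om fun p : Fin N × Fin n => e p.1 (y p.2) := by
      rw [← htop, IntermediateField.adjoin_le_iff]
      rintro _ ⟨_, ⟨j, rfl⟩, b, rfl⟩
      refine (mem_Om _ _).2 (gauss_alg_map (e j) ?_ (halg b))
      rintro _ ⟨l, rfl⟩
      exact ⟨(j, l), rfl⟩
    exact h1 trivial
  let j0 : Fin N := ⟨0, hN⟩
  have hvi : ∀ j a, v (i (e j a)) = v0 a := fun j a => by rw [hi, hev]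
  obtain ⟨q, T, U, hfL, hT⟩ := hΩ.isAbh.comap i hL (τ := e j0 t) (by rw [hvi]; exact hf.pos)
    (by rw [hvi]; exact hf.lt)
  have hcard := hfL.card_eq hbas
  obtain ⟨w', hw', hA⟩ := exists_div_of_frame hfL hT (d := N * n) (by rw [← hcard]; simp)
  set c' := (v.comap i.toRingHom) T with hc'
  have ht0 : t ≠ 0 := by
    rintro rfl
    simpa using hf.pos
  have hval : ∀ j a, a ≠ 0 → v0 a = c' ^ ord w' (e j a) := fun j a ha => by
    rw [← hA.2.2 _ ((map_ne_zero _).2 ha), ← hvi j]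
    rfl
  have hρ := hval j0 t ht0
  rw [htc] at hρ
  have hρ0 : 0 < ord w' (e j0 t) := by
    rw [← zpow_lt_one_iff_right_of_lt_one₀ hA.1 hA.2.1, ← hρ]
    exact hc1
  obtain ⟨ρ, hρ'⟩ := Int.eq_ofNat_of_zero_le hρ0.le
  rw [hρ'] at hρ hρ0
  refine ⟨L, inferInstance, inferInstance, e, w', ρ, by exact_mod_cast hρ0, htop, hw',
    fun j a ha => ?_, hind', ?_⟩
  · apply zpow_right_injective₀ hA.1 hA.2.1.ne
    simp only
    rw [← hval j a ha, hv0.2.2 a ha, hρ, zpow_mul]
  · have h1 := avol_comap_le i v hfL fun p : Fin N × Fin n => e p.1 (y p.2)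
    rw [avol_eq_ordForm hfL hT hA hbas] at h1
    simp only [hi] at h1
    have h2 := hle.trans h1
    rw [hρ, ← zpow_mul, ← zpow_natCast, ← zpow_mul,
      zpow_le_zpow_iff_right_of_lt_one₀ hA.1 hA.2.1] at h2
    linarith

end Pool.Agent.MP_c0606f_ag.Klt

end

-- part MP_c0606f_ag.Klt.BUpper
section

/-! The product of `N` copies of a divisor: the upper bound. -/

namespace Pool.Agent.MP_c0606f_ag.Klt

open scoped NNReal ENNReal WithZero

variable {K : Type} [Field K] [Algebra ℂ K] {n k r : ℕ} {y : Fin n → K} {s : Fin (k + 1) → K}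

theorem bupper_const {F : Type} [Field F] [Algebra ℂ F] {d : ℕ} {w : Valuation F ℤᵐ⁰}
    (hw : IsDiv d w) {c : ℂ} (hc : c ≠ 0) : w (algebraMap ℂ F c) = 1 := by
  obtain ⟨u, hu⟩ := hw.2
  have := hu (MvPolynomial.C c) (by simpa using hc)
  rwa [MvPolynomial.aeval_C] at this

theorem bupper_iInf {L : Type} [Field L] [Algebra ℂ L] (e : K →ₐ[ℂ] L) {w : Valuation K ℤᵐ⁰}
    {w' : Valuation L ℤᵐ⁰} {ρ : ℕ} (h : ∀ a, a ≠ 0 → ord w' (e a) = ρ * ord w a)
    (hs : ∀ i, s i ≠ 0) : (⨅ i, ord w' (e (s i))) = ρ * ⨅ i, ord w (s i) := by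
  obtain ⟨i, h1, h2⟩ := exists_iInf_ord w s
  rw [h1]
  refine le_antisymm ((ciInf_le (Finite.bddBelow_range _) i).trans (h _ (hs i)).le)
    (le_ciInf fun j => ?_)
  rw [h _ (hs j)]
  exact mul_le_mul_of_nonneg_left (h2 j) (Int.natCast_nonneg ρ)

theorem bupper_det {L : Type} [Field L] (w : Valuation L ℤᵐ⁰) {N : ℕ}
    (M : Matrix (Fin N) (Fin N) L) (hM : M.det ≠ 0) (l : Fin N → ℤ)
    (h : ∀ i j, w (M i j) ≤ WithZero.exp (-l i)) : ∑ i, l i ≤ ord w M.det := by
  rw [← le_exp_iff w hM, Matrix.det_apply]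
  refine w.map_sum_le fun τ _ => ?_
  have h1 : w (Equiv.Perm.sign τ • ∏ i, M (τ i) i) = w (∏ i, M (τ i) i) := by
    rcases Int.units_eq_one_or (Equiv.Perm.sign τ) with h | h <;> simp [h]
  rw [h1, map_prod]
  refine (Finset.prod_le_prod' fun i _ => h (τ i) i).trans (le_of_eq ?_)
  rw [Equiv.prod_comp τ fun i => WithZero.exp (-l i), ← Finset.sum_neg_distrib]
  induction (Finset.univ : Finset (Fin N)) using Finset.induction_on with
  | empty => simp
  | insert i S hi ih => rw [Finset.prod_insert hi, Finset.sum_insert hi, ih, WithZero.exp_add]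

/-- With `exists_product`: `logDisc' ≤ ρ N logDisc` (`iInf_ord_prod`), `f = A b` with a complex
matrix, so `det f = det A * det b` with `det A ≠ 0` (`det_ne_zero`) and the orders agree; the value
of the determinant is at most the product of the values of the rows (`Matrix.det_apply`,
`Valuation.map_sum_le`), so `secOrd' ≥ ρ ∑ secOrd (f i)`. -/
theorem lct_le (hX : IsKltFano r y s) {w : Valuation K ℤᵐ⁰} (hw : IsDiv n w) (hn : 0 < n)
    {m N : ℕ} (hm : 0 < m) (hN : 0 < N) (b f : Fin N → K) (hf : LinearIndependent ℂ f)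
    (hb : ∀ i, f i ∈ Submodule.span ℂ (Set.range b)) {σ : ℝ} (hσ : 0 < σ)
    (h : σ * m * N ≤ ∑ i, secOrd r s w m (f i)) :
    lct r y s m b ≤ ENNReal.ofReal (logDisc r y s w) / ENNReal.ofReal σ := by
  obtain ⟨L, iF, iA, e, w', ρ, hρ, htop, hw', hord, hind, hform⟩ := exists_product hX hw hn hN
  refine iInf_le_of_le L (iInf_le_of_le iF (iInf_le_of_le iA (iInf_le_of_le e
    (iInf_le_of_le htop (iInf_le_of_le w' (iInf_le_of_le hw' ?_))))))
  have hI : (⨅ φ : Fin N → Fin (k + 1), ord w' (∏ j, e j (s (φ j)))) =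
      N * (ρ * ⨅ i, ord w (s i)) := by
    rw [iInf_ord_prod w' (fun j i => e j (s i))
      fun j i => (map_ne_zero (e j)).2 (hX.ne i)]
    simp only [fun j => bupper_iInf (e j) (hord j) hX.ne]
    simp
  choose A hA using fun i => (Submodule.mem_span_range_iff_exists_fun ℂ).1 (hb i)
  have hdf := det_ne_zero hX.basis e hind f hf
  have hmul : (Matrix.of fun i j => e j (f i)).det =
      algebraMap ℂ L (Matrix.of A).det * (Matrix.of fun i j => e j (b i)).det := by
    rw [RingHom.map_det, ← Matrix.det_mul]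
    congr 1
    ext i j
    simp [Matrix.mul_apply, ← hA, Algebra.smul_def]
  have hA0 : (Matrix.of A).det ≠ 0 := fun h0 => hdf (by rw [hmul, h0, map_zero, zero_mul])
  have hoe : ord w' (Matrix.of fun i j => e j (b i)).det =
      ord w' (Matrix.of fun i j => e j (f i)).det := by
    rw [hmul, ord, ord, map_mul, bupper_const hw' hA0, one_mul]
  have hge : ∑ i, (ρ : ℤ) * ord w (f i) ≤ ord w' (Matrix.of fun i j => e j (f i)).det :=
    bupper_det w' _ hdf _ fun i j => by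
      have h0 : f i ≠ 0 := hf.ne_zero i
      rw [Matrix.of_apply, le_exp_iff w' ((map_ne_zero (e j)).2 h0), hord j _ h0]
  have hρ' : (0 : ℝ) < ρ := Nat.cast_pos.2 hρ
  have hN' : (0 : ℝ) < N := Nat.cast_pos.2 hN
  have hm' : (0 : ℝ) < m := Nat.cast_pos.2 hm
  have hc : (0 : ℝ) < ρ * N := mul_pos hρ' hN'
  have h1 : logDisc r (fun p : Fin N × Fin n => e p.1 (y p.2))
      (fun φ : Fin N → Fin (k + 1) => ∏ j, e j (s (φ j))) w' ≤ ρ * N * logDisc r y s w := by
    have h2 : (1 + (ordForm w' fun p : Fin N × Fin n => e p.1 (y p.2) : ℤ) : ℝ) ≤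
        ρ * N * (1 + (ordForm w y : ℤ)) := by exact_mod_cast hform
    unfold logDisc
    rw [hI]
    push_cast
    have : (N : ℝ) * (ρ * ((⨅ i, ord w (s i) : ℤ) : ℝ)) / r =
        ρ * N * (((⨅ i, ord w (s i) : ℤ) : ℝ) / r) := by ring
    rw [this, mul_sub]
    linarith
  have h3 : ρ * N * σ ≤ secOrd r (fun φ : Fin N → Fin (k + 1) => ∏ j, e j (s (φ j))) w' m
      (Matrix.of fun i j => e j (b i)).det / m := by
    rw [le_div_iff₀ hm']
    have h4 : ((∑ i, (ρ : ℤ) * ord w (f i) : ℤ) : ℝ) ≤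
        (ord w' (Matrix.of fun i j => e j (b i)).det : ℤ) := by
      rw [hoe]; exact_mod_cast hge
    push_cast at h4
    rw [← Finset.mul_sum] at h4
    unfold secOrd at h ⊢
    rw [Finset.sum_sub_distrib, Finset.sum_const, Finset.card_univ, Fintype.card_fin,
      nsmul_eq_mul] at h
    rw [hI]
    push_cast
    have h5 := mul_le_mul_of_nonneg_left h hρ'.le
    have : (m : ℝ) * (N * (ρ * ((⨅ i, ord w (s i) : ℤ) : ℝ))) / r =
        ρ * (N * (m * ((⨅ i, ord w (s i) : ℤ) : ℝ) / r)) := by ring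
    rw [this]
    rw [mul_sub] at h5
    nlinarith
  refine (ENNReal.div_le_div (ENNReal.ofReal_le_ofReal h1) (ENNReal.ofReal_le_ofReal h3)).trans
    (le_of_eq ?_)
  rw [ENNReal.ofReal_mul hc.le, ENNReal.ofReal_mul hc.le]
  exact ENNReal.mul_div_mul_left _ _ (ENNReal.ofReal_pos.2 hc).ne' ENNReal.ofReal_ne_top

end Pool.Agent.MP_c0606f_ag.Klt

end

-- part MP_c0606f_ag.Klt.BLift
section

/-! Lifting points of the product to the cone. -/

namespace Pool.Agent.MP_c0606f_ag.Klt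

open scoped NNReal ENNReal WithZero

variable {K : Type} [Field K] [Algebra ℂ K] {n k r : ℕ} {y : Fin n → K} {s : Fin (k + 1) → K}

/-- the elements algebraic over `ℂ[e j (y i)]` form an intermediate field containing all ranges -/
theorem alg_of_gen (hy : IsTranscendenceBasis ℂ y) {L : Type} [Field L] [Algebra ℂ L] {N : ℕ}
    (e : Fin N → K →ₐ[ℂ] L) (hgen : IntermediateField.adjoin ℂ (⋃ j, Set.range (e j)) = ⊤)
    (a : L) :
    IsAlgebraic (Algebra.adjoin ℂ (Set.range fun p : Fin N × Fin n => e p.1 (y p.2))) a := by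
  have h : IntermediateField.adjoin ℂ (⋃ j, Set.range (e j)) ≤
      Om fun p : Fin N × Fin n => e p.1 (y p.2) := by
    rw [IntermediateField.adjoin_le_iff]
    rintro _ ⟨_, ⟨j, rfl⟩, b, rfl⟩
    refine (mem_Om _ _).2 (gauss_alg_map (e j) (G := Set.range y) ?_ (hy.isAlgebraic.isAlgebraic b))
    rintro _ ⟨i, rfl⟩
    exact ⟨(j, i), rfl⟩
  exact (mem_Om _ a).1 (h (hgen ▸ IntermediateField.mem_top))

theorem blift_max {F : Type} [Field F] {w : Valuation F ℤᵐ⁰} {v : Val F} {c : ℝ≥0}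
    (h : Assoc w v c) (a : Fin (k + 1) → F) (ha : ∀ i, a i ≠ 0) :
    (∃ i, v (a i) = c ^ (⨅ i, ord w (a i))) ∧ ∀ i, v (a i) ≤ c ^ (⨅ i, ord w (a i)) := by
  obtain ⟨i, h1, h2⟩ := exists_iInf_ord w a
  refine ⟨⟨i, by rw [h1, h.2.2 _ (ha i)]⟩, fun j => ?_⟩
  rw [h1, h.2.2 _ (ha j), zpow_le_zpow_iff_right_of_lt_one₀ h.1 h.2.1]
  exact h2 j

theorem blift_triv {L : Type} [Field L] [Algebra ℂ L] {w : Valuation L ℤᵐ⁰} {v : Val L} {c : ℝ≥0}
    (h : Assoc w v c) (e : K →ₐ[ℂ] L) (hs : ∀ i, s i ≠ 0) (ht : ∀ a, a ≠ 0 → v (e a) = 1) :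
    (⨅ i, ord w (e (s i))) = 0 ∧ ∀ a, v (e a) ≤ 1 := by
  constructor
  · obtain ⟨i, hi⟩ := (blift_max h (fun i => e (s i)) fun i => (map_ne_zero e).2 (hs i)).1
    rw [ht _ (hs i)] at hi
    exact zpow_right_injective₀ h.1 h.2.1.ne (hi.symm.trans (zpow_zero c).symm)
  · intro a
    rcases eq_or_ne a 0 with rfl | ha
    · simp
    · exact (ht a ha).le

theorem blift_factor (hX : IsKltFano r y s) {L : Type} [Field L] [Algebra ℂ L]
    {w : Valuation L ℤᵐ⁰} {v : Val L} {c : ℝ≥0} (h : Assoc w v c) (hv : IsAbh v)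
    (e : K →ₐ[ℂ] L) :
    (avol v fun i => e (y i)) ^ r ≤ c ^ (⨅ i, ord w (e (s i))) ∧
      ((∀ a, a ≠ 0 → v (e a) = 1) ∨ (avol v fun i => e (y i)) ^ r < c ^ (⨅ i, ord w (e (s i)))) := by
  rcases restrict_cases hX e v hv with h1 | ⟨w', c', hw', ha', hle⟩
  · obtain ⟨h2, h3⟩ := blift_triv h e hX.ne h1
    refine ⟨?_, Or.inl h1⟩
    rw [h2, zpow_zero]
    exact pow_le_one₀ zero_le (evol_le_one v ∅ _ fun i => h3 _)
  · have hk := hX.klt w' hw'
    have hr : (0 : ℝ) < r := Nat.cast_pos.2 hX.pos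
    have hk' : (⨅ i, ord w' (s i)) < (1 + ordForm w' y) * r := by
      rw [logDisc, sub_pos, div_lt_iff₀ hr] at hk
      exact_mod_cast hk
    obtain ⟨i, hi⟩ := (blift_max ha' s hX.ne).1
    have h2 := (blift_max h (fun i => e (s i)) fun i => (map_ne_zero e).2 (hX.ne i)).2 i
    have h3 : (avol v fun i => e (y i)) ^ r < c ^ (⨅ i, ord w (e (s i))) := by
      refine (pow_le_pow_left₀ zero_le hle r).trans_lt (lt_of_lt_of_le ?_ (hi.symm.le.trans h2))
      rw [← zpow_natCast, ← zpow_mul, zpow_lt_zpow_iff_right_of_lt_one₀ ha'.1 ha'.2.1]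
      exact hk'
    exact ⟨h3.le, Or.inr h3⟩

theorem blift_zpow_sum {c : ℝ≥0} (hc : c ≠ 0) {ι : Type} (S : Finset ι) (m : ι → ℤ) :
    c ^ (∑ i ∈ S, m i) = ∏ i ∈ S, c ^ m i := by
  classical
  induction S using Finset.induction_on with
  | empty => simp
  | insert i S hi ih => rw [Finset.sum_insert hi, Finset.prod_insert hi, zpow_add₀ hc, ih]

theorem blift_half : (0 : ℝ≥0) < 1 / 2 ∧ (1 / 2 : ℝ≥0) < 1 := by
  constructor <;> norm_num

/-- The product is klt.  Take `v, c` (`exists_assoc`), the frame of `IsDiv.frame`;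
`avol v (e y) = c ^ (1 + ordForm)`.  If `v` is trivial on all ranges use `avol_le_unif`.  Otherwise
`avol_prod_le` and `restrict_cases` for each `j`: the `j`-th factor is at most
`c ^ ((⨅ i, ord w (e j (s i))) / r)`, strictly if the restriction is nontrivial (`klt`);
`iInf_ord_prod`. -/
theorem logDisc_prod_pos (hX : IsKltFano r y s) (hn : 0 < n) {N : ℕ} (hN : 0 < N) {L : Type}
    [Field L] [Algebra ℂ L] (e : Fin N → K →ₐ[ℂ] L)
    (hgen : IntermediateField.adjoin ℂ (⋃ j, Set.range (e j)) = ⊤) {w : Valuation L ℤᵐ⁰}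
    (hw : IsDiv (N * n) w) :
    0 < logDisc r (fun p : Fin N × Fin n => e p.1 (y p.2))
      (fun φ : Fin N → Fin (k + 1) => ∏ j, e j (s (φ j))) w := by
  obtain ⟨v, hv⟩ := exists_assoc w blift_half.1 blift_half.2
  have hcard : Fintype.card (Fin N × Fin n) = N * n := by simp
  obtain ⟨hY, t, u, hf, ht, hvt⟩ := hw.frame hv (fun p : Fin N × Fin n => e p.1 (y p.2)) hcard
    (Nat.mul_pos hN hn) (alg_of_gen hX.basis e hgen)
  rw [← hvt] at hv
  have hA := avol_eq_ordForm hf ht hv hY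
  have hr : (0 : ℝ) < r := Nat.cast_pos.2 hX.pos
  have hI := iInf_ord_prod w (fun j i => e j (s i)) fun j i => (map_ne_zero (e j)).2 (hX.ne i)
  suffices hk : (∑ j, ⨅ i, ord w (e j (s i))) <
      (1 + ordForm w fun p : Fin N × Fin n => e p.1 (y p.2)) * r by
    rw [logDisc, hI, sub_pos, div_lt_iff₀ hr]
    exact_mod_cast hk
  by_cases htr : ∀ j a, a ≠ 0 → v (e j a) = 1
  · have h1 := fun j => blift_triv hv (e j) hX.ne (htr j)
    have h2 := avol_le_unif hf ht (fun p : Fin N × Fin n => e p.1 (y p.2))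
      (fun p => (h1 p.1).2 _) (hf.card_eq hY)
    rw [hA] at h2
    have h3 : (1 : ℤ) ≤ 1 + ordForm w fun p : Fin N × Fin n => e p.1 (y p.2) := by
      rw [← zpow_le_zpow_iff_right_of_lt_one₀ hf.pos hf.lt, zpow_one]
      exact h2
    rw [Finset.sum_eq_zero fun j _ => (h1 j).1]
    exact mul_pos (by omega) (Nat.cast_pos.2 hX.pos)
  · have h1 := fun j => blift_factor hX hv hf.isAbh (e j)
    have h2 := avol_prod_le v fun p : Fin N × Fin n => e p.1 (y p.2)
    have h3 : 0 < ∏ j, avol v fun i => e j (y i) :=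
      lt_of_lt_of_le (hA ▸ zpow_pos hf.pos _) h2
    have h4 : ∀ j, 0 < avol v fun i => e j (y i) := fun j =>
      pos_iff_ne_zero.2 (Finset.prod_ne_zero_iff.1 h3.ne' j (Finset.mem_univ j))
    obtain ⟨j0, hj0⟩ := not_forall.1 htr
    have h5 := Finset.prod_lt_prod (s := Finset.univ) (fun j _ => pow_pos (h4 j) r)
      (fun j _ => (h1 j).1) ⟨j0, Finset.mem_univ _, (h1 j0).2.resolve_left hj0⟩
    rw [Finset.prod_pow, ← blift_zpow_sum hf.pos.ne'] at h5
    have h6 := (pow_le_pow_left₀ zero_le h2 r).trans_lt h5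
    rwa [hA, ← zpow_natCast, ← zpow_mul, zpow_lt_zpow_iff_right_of_lt_one₀ hf.pos hf.lt] at h6

/-- `RatFunc.liftAlgHom` for `Polynomial.eval₂AlgHom'`-like maps (injective by transcendence) -/
theorem exists_lift {R : Type} [Field R] [Algebra ℂ R] (e : K →ₐ[ℂ] R) (τ : R)
    (hτ : Transcendental e.range τ) :
    ∃ x : RatFunc K →ₐ[ℂ] R, (∀ a, x (RatFunc.C a) = e a) ∧ x RatFunc.X = τ := by
  let φ : Polynomial K →ₐ[ℂ] R := Polynomial.eval₂AlgHom e τ fun a => Commute.all _ _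
  have hφ : Function.Injective φ := by
    rw [injective_iff_map_eq_zero]
    intro p hp
    by_contra h0
    refine hτ ⟨p.map e.rangeRestrict.toRingHom, ?_, ?_⟩
    · exact (Polynomial.map_ne_zero_iff e.rangeRestrict.toRingHom.injective).2 h0
    · rw [Polynomial.aeval_def, Polynomial.eval₂_map]
      exact hp
  refine ⟨IsFractionRing.liftAlgHom (K := RatFunc K) hφ, fun a => ?_, ?_⟩
  · rw [← RatFunc.algebraMap_C, IsFractionRing.liftAlgHom_apply, IsFractionRing.lift_algebraMap]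
    exact Polynomial.eval₂_C _ _
  · rw [← RatFunc.algebraMap_X, IsFractionRing.liftAlgHom_apply, IsFractionRing.lift_algebraMap]
    exact Polynomial.eval₂_X _ _

theorem blift_trans {L R : Type} [Field L] [Algebra ℂ L] [Field R] [Algebra ℂ R] (j : L →ₐ[ℂ] R)
    {v0 : Val L} {v : Val R} {κ Z : Type} [Fintype κ] [Fintype Z] {t : L} {u : κ → L} {ζ : Z → R}
    (hf : IsFrame v0 t u) (hF : IsFrame v (j t) (Sum.elim (fun i => j (u i)) ζ)) (l : Z) {β : R}
    (h0 : β ≠ 0) (hβ : IsAlgebraic j.range β) (e : K →ₐ[ℂ] L) :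
    Transcendental (j.comp e).range (ζ l * β) := by
  classical
  obtain ⟨D0, D, hd, -⟩ := hF.exists_dual
  have h1 : ∀ a, D (Sum.inr l) (j a) = 0 := fun a => by
    refine der_kill_alg _ (insert (j t) (Set.range fun i => j (u i))) ?_
      (gauss_alg_map j ?_ (hf.alg a))
    · rintro _ (rfl | ⟨i, rfl⟩)
      · exact hd.ut _
      · simpa using hd.uu (Sum.inr l) (Sum.inl i)
    · rintro _ (rfl | ⟨i, rfl⟩)
      · exact Or.inl rfl
      · exact Or.inr ⟨i, rfl⟩
  have h2 : D (Sum.inr l) β = 0 := by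
    refine der_kill_alg _ (j.range : Set R) ?_ (by rwa [Algebra.adjoin_eq])
    rintro _ ⟨a, rfl⟩
    exact h1 a
  have h3 : D (Sum.inr l) (ζ l) = 1 := by simpa using hd.uu (Sum.inr l) (Sum.inr l)
  intro h
  have h4 : D (Sum.inr l) (ζ l * β) = 0 := by
    refine der_kill_alg _ ((j.comp e).range : Set R) ?_ (by rwa [Algebra.adjoin_eq])
    rintro _ ⟨a, rfl⟩
    exact h1 (e a)
  rw [Derivation.leibniz, h2, h3, smul_zero, zero_add, smul_eq_mul, mul_one] at h4
  exact h0 h4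

/-- splitting off the fibre coordinates -/
def bliftEquiv (N n : ℕ) : Fin N × Option (Fin n) ≃ (Fin N × Fin n) ⊕ Fin N where
  toFun p := p.2.elim (Sum.inr p.1) fun i => Sum.inl (p.1, i)
  invFun := Sum.elim (fun q => (q.1, some q.2)) fun l => (l, none)
  left_inv := by rintro ⟨l, _ | i⟩ <;> rfl
  right_inv := by rintro (⟨l, i⟩ | l) <;> rfl

/-- Normalised lifts to the cone.  Take `v0, c` and the frame `(t, u)` as above, `R, j, v, ζ` from
`exists_adj` with `Z = Fin N`, `o j` from `exists_max`, `β j` with `β j ^ r = j (e j (S (o j)))`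
(`IsAlgClosed.exists_pow_nat_eq`), `τ j = ζ j * (β j)⁻¹`.  It is transcendental over the range of
`j ∘ e j`: otherwise `ζ j` would be algebraic over `ℂ[j t, j u]`, contradicting `IsFrame.basis`
(or: the derivation dual to `ζ j` kills the range of `j` but not `τ j`, `der_kill_alg`).
`le_avol_ext` and `evol_reindex` (`Fin N × Option (Fin n) ≃ (Fin N × Fin n) ⊕ Fin N`) give the last
claim. -/
theorem NN.exists_lifts (N₀ : NN n s) (hX : IsKltFano r y s) (hn : 0 < n) {N : ℕ} (hN : 0 < N)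
    {L : Type} [Field L] [Algebra ℂ L] (e : Fin N → K →ₐ[ℂ] L)
    (hgen : IntermediateField.adjoin ℂ (⋃ j, Set.range (e j)) = ⊤) {w : Valuation L ℤᵐ⁰}
    (hw : IsDiv (N * n) w) :
    ∃ (R : Type) (_ : Field R) (_ : Algebra ℂ R) (v : Val R) (j : L →ₐ[ℂ] R) (c : ℝ≥0)
      (x : Fin N → RatFunc K →ₐ[ℂ] R), IsAbh v ∧ Assoc w (v.comap j.toRingHom) c ∧
      (∀ l a, x l (RatFunc.C a) = j (e l a)) ∧
      (∀ l, (∀ o, v (x l (N₀.Y r o)) ≤ 1) ∧ ∃ o, v (x l (N₀.Y r o)) = 1) ∧
      (∀ l, v (x l RatFunc.X) ^ r = c ^ (-(⨅ i, ord w (e l (s i))))) ∧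
      c ^ (1 + ordForm w fun p : Fin N × Fin n => e p.1 (y p.2)) * ∏ l, v (x l RatFunc.X) ≤
        avol v fun p : Fin N × Option (Fin n) => x p.1 (yt y p.2) := by
  obtain ⟨v0, hv⟩ := exists_assoc w blift_half.1 blift_half.2
  have hcard : Fintype.card (Fin N × Fin n) = N * n := by simp
  obtain ⟨hY, t, u, hf, ht, hvt⟩ := hw.frame hv (fun p : Fin N × Fin n => e p.1 (y p.2)) hcard
    (Nat.mul_pos hN hn) (alg_of_gen hX.basis e hgen)
  rw [← hvt] at hv
  have hA := avol_eq_ordForm hf ht hv hY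
  obtain ⟨R, _, _, _, j, v, ζ, hj, hF⟩ := exists_adj hf (Fin N)
  have hc : v.comap j.toRingHom = v0 := Valuation.ext hj
  have htriv : ∀ c : ℂ, v (algebraMap ℂ R c) ≤ 1 := fun c => by
    rcases eq_or_ne c 0 with rfl | h
    · simp
    · exact (hF.res.triv c h).le
  choose o i h1 h2 h3 using fun l => N₀.exists_max (j.comp (e l)) v htriv
  choose β hβ using fun l => IsAlgClosed.exists_pow_nat_eq (j (e l (N₀.S (o l)))) hX.pos
  have hS : ∀ l, j (e l (N₀.S (o l))) ≠ 0 := fun l =>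
    (map_ne_zero j).2 ((map_ne_zero (e l)).2 (N₀.ne _))
  have hβ0 : ∀ l, (β l)⁻¹ ≠ 0 := fun l =>
    inv_ne_zero fun h => hS l (by rw [← hβ l, h, zero_pow hX.pos.ne'])
  have hβa : ∀ l, IsAlgebraic j.range (β l)⁻¹ := fun l => by
    refine (IsAlgebraic.of_pow hX.pos ?_).inv
    rw [hβ l]
    exact isAlgebraic_algebraMap (⟨_, _, rfl⟩ : j.range)
  choose x hxC hxX using fun l => exists_lift (j.comp (e l)) _
    (blift_trans j hf hF l (hβ0 l) (hβa l) (e l))
  have hζ : ∀ l, v (ζ l) = 1 := fun l => hF.res.val_eq (Sum.inr l)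
  have hX1 : ∀ l, v (x l RatFunc.X) = v (β l)⁻¹ := fun l => by rw [hxX, map_mul, hζ, one_mul]
  have hX2 : ∀ l, v (x l RatFunc.X) ^ r = (v (j (e l (N₀.S (o l)))))⁻¹ := fun l => by
    rw [hX1, map_inv₀, inv_pow, ← map_pow, hβ]
  have hX3 : ∀ l o', v (x l (N₀.Y r o')) =
      v (j (e l (N₀.S o'))) * (v (j (e l (N₀.S (o l)))))⁻¹ := fun l o' => by
    rw [NN.Y, hom_apply, map_mul, map_mul, map_pow, map_pow, hX2, hxC]
    rfl
  have hpos : ∀ l, 0 < v (j (e l (N₀.S (o l)))) := fun l => v.pos_iff.2 (hS l)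
  refine ⟨R, _, _, v, j, v0 t, x, hF.isAbh, hc ▸ hv, hxC, fun l => ⟨fun o' => ?_, o l, ?_⟩,
    fun l => ?_, ?_⟩
  · rw [hX3, mul_inv_le_iff₀ (hpos l), one_mul]
    exact h2 l o'
  · rw [hX3, mul_inv_cancel₀ (hpos l).ne']
  · obtain ⟨⟨i', h4⟩, h5⟩ := blift_max hv (fun i => e l (s i))
      fun i => (map_ne_zero (e l)).2 (hX.ne i)
    have h6 : v (j (e l (N₀.S (o l)))) = v0 t ^ (⨅ i, ord w (e l (s i))) := by
      refine (h1 l).trans (le_antisymm ((hj _).trans_le (h5 (i l))) ?_)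
      exact (h4.symm.trans (hj _).symm).trans_le (h3 l i')
    rw [hX2, h6, zpow_neg]
  · have h4 := le_avol_ext j v hF (hc ▸ hf) (fun p : Fin N × Fin n => e p.1 (y p.2))
      (hf.card_eq hY) (fun l => (β l)⁻¹) hβa
    rw [hc, hA] at h4
    simp only [hX1]
    refine h4.trans (le_of_eq ?_)
    rw [avol, avol, ← evol_reindex v ∅ _ (bliftEquiv N n)]
    congr 1
    funext p
    obtain ⟨l, _ | i⟩ := p
    · exact (hxX l).symm
    · exact (hxC l _).symm

end Pool.Agent.MP_c0606f_ag.Klt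

end

-- part MP_c0606f_ag.Klt.BLower
section

/-! From the inequality on the cone to the log canonical threshold. -/

namespace Pool.Agent.MP_c0606f_ag.Klt

open scoped NNReal ENNReal WithZero

variable {K : Type} [Field K] [Algebra ℂ K] {n k r : ℕ} {y : Fin n → K} {s : Fin (k + 1) → K}

/-- With `exists_lifts` and `IsJac.avol_prod`: `c ^ A * ∏ v (x l h) ≤ avol v (x Y)`, and
`det (x l (hom m (b i))) = j (det (e l (b i))) * ∏ x l X ^ m` has value `c ^ secOrd` if it is nonzero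
(it is: otherwise the right hand side of `hmain` vanishes).  Cancel `∏ v (x l h) > 0`, so
`δ' * secOrd ≤ m * A`; `A > 0` by `logDisc_prod_pos`. -/
theorem NN.le_lct (N₀ : NN n s) (hX : IsKltFano r y s) (hn : 0 < n) {h : RatFunc K} (hh : h ≠ 0)
    (hJ : IsJac (N₀.Y r) (yt y) h) {m N : ℕ} (hm : 0 < m) (hN : 0 < N) (b : Fin N → K) {δ' : ℝ}
    (hδ : 0 < δ')
    (hmain : ∀ (R : Type) [Field R] [Algebra ℂ R] (v : Val R) (x : Fin N → RatFunc K →ₐ[ℂ] R),
      IsAbh v → (∀ l, (∀ o, v (x l (N₀.Y r o)) ≤ 1) ∧ ∃ o, v (x l (N₀.Y r o)) = 1) →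
      avol v (fun p : Fin N × Option (Fin n) => x p.1 (N₀.Y r p.2)) ^ m ≤
        v (Matrix.of fun i l => x l (hom m (b i))).det ^ δ' * (∏ l, v (x l h)) ^ m) :
    ENNReal.ofReal δ' ≤ lct r y s m b := by
  refine le_iInf fun L => le_iInf fun _ => le_iInf fun _ => le_iInf fun e => le_iInf fun hgen =>
    le_iInf fun w => le_iInf fun hw => ?_
  have hA := logDisc_prod_pos hX hn hN e hgen hw
  obtain ⟨R, _, _, v, j, c, x, hv, hc, hxC, hxY, hxX, hvol⟩ := N₀.exists_lifts hX hn hN e hgen hw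
  have hmain' := hmain R v x hv hxY
  have hpos : ∀ (l : Fin N) (a : RatFunc K), a ≠ 0 → 0 < v (x l a) := fun l a ha =>
    v.pos_iff.2 ((map_ne_zero (x l)).2 ha)
  have hH : 0 < ∏ l, v (x l h) := Finset.prod_pos fun l _ => hpos l h hh
  have hP : 0 < ∏ l, v (x l RatFunc.X) := Finset.prod_pos fun l _ => hpos l _ RatFunc.X_ne_zero
  have hdet : (Matrix.of fun i l => x l (hom m (b i))).det =
      (∏ l, x l RatFunc.X ^ m) * j (Matrix.of fun i l => e l (b i)).det := by
    have h1 : j (Matrix.of fun i l => e l (b i)).det =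
        (Matrix.of fun i l => j (e l (b i))).det := AlgHom.map_det j _
    rw [h1, ← Matrix.det_mul_row]
    congr 1
    ext i l
    simp only [Matrix.of_apply, hom_apply, map_mul, map_pow, hxC, mul_comm]
  have hI := iInf_ord_prod w (fun l i => e l (s i)) fun l i => (map_ne_zero (e l)).2 (hX.ne i)
  have hPr : (∏ l, v (x l RatFunc.X)) ^ r =
      c ^ (-(⨅ φ : Fin N → Fin (k + 1), ord w (∏ l, e l (s (φ l))))) := by
    rw [hI, ← Finset.prod_pow, Finset.prod_congr rfl fun l _ => hxX l, ← Finset.sum_neg_distrib]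
    induction (Finset.univ : Finset (Fin N)) using Finset.induction_on with
    | empty => simp
    | insert a S ha ih => rw [Finset.prod_insert ha, Finset.sum_insert ha, ih, zpow_add₀ hc.1.ne']
  rw [hJ.avol_prod x v, mul_pow, hdet, map_mul, map_prod] at hmain'
  simp only [map_pow] at hmain'
  rw [Finset.prod_pow] at hmain'
  have h2 := (pow_le_pow_left₀ zero_le hvol m).trans
    (le_of_mul_le_mul_right hmain' (pow_pos hH m))
  unfold logDisc secOrd at *
  generalize (∏ l, v (x l RatFunc.X)) = P at hP hPr h2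
  generalize (Matrix.of fun i l => e l (b i)).det = D at h2 ⊢
  generalize (⨅ φ : Fin N → Fin (k + 1), ord w (∏ l, e l (s (φ l)))) = I at hA hPr ⊢
  generalize (ordForm w fun p : Fin N × Fin n => e p.1 (y p.2)) = a at hA h2 ⊢
  have hc0 := hc.1
  have hD : D ≠ 0 := by
    rintro rfl
    rw [map_zero, map_zero, mul_zero, NNReal.zero_rpow hδ.ne'] at h2
    exact absurd h2 (not_le.2 (by positivity))
  have hvD : v (j D) = c ^ ord w D := hc.2.2 D hD
  rw [hvD] at h2
  have hc0' : (0 : ℝ) < c := hc0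
  have hP' : (0 : ℝ) < P := hP
  have hl : Real.log c < 0 := Real.log_neg hc0' hc.2.1
  have h3 : (((c : ℝ) ^ (1 + a) * P) ^ m) ≤ ((P : ℝ) ^ m * (c : ℝ) ^ ord w D) ^ δ' := by
    exact_mod_cast h2
  have h4 := Real.log_le_log (by positivity) h3
  rw [Real.log_rpow (by positivity), Real.log_pow, Real.log_mul (by positivity) hP'.ne',
    Real.log_mul (by positivity) (by positivity), Real.log_pow, Real.log_zpow, Real.log_zpow] at h4
  have h5 : (r : ℝ) * Real.log P = -(I : ℝ) * Real.log c := by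
    have : ((P : ℝ)) ^ r = (c : ℝ) ^ (-I) := by exact_mod_cast hPr
    rw [← Real.log_pow, this, Real.log_zpow]; push_cast; ring
  have hr : (0 : ℝ) < r := by exact_mod_cast hX.pos
  have hm' : (0 : ℝ) < m := by exact_mod_cast hm
  have h6 : Real.log P = -((I : ℝ) / r) * Real.log c := by
    field_simp; linarith
  rw [h6] at h4
  push_cast at h4
  rw [ENNReal.le_div_iff_mul_le (Or.inr (ENNReal.ofReal_pos.2 hA).ne')
    (Or.inl ENNReal.ofReal_ne_top), ← ENNReal.ofReal_mul hδ.le]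
  refine ENNReal.ofReal_le_ofReal ?_
  rw [← mul_div_assoc, div_le_iff₀ hm', mul_div_assoc]
  refine le_of_mul_le_mul_right ?_ (neg_pos.2 hl)
  linarith

end Pool.Agent.MP_c0606f_ag.Klt

end

-- part MP_c0606f_ag.Klt.Fib
section

/-! The one variable integral. -/

namespace Pool.Agent.MP_c0606f_ag.Klt

open MeasureTheory
open scoped ENNReal

/-- split into `|w - θ| ≤ 1` and its complement; translation invariance,
`integrableOn_ball_of_norm_le_rpow`-like lemmas (`locallyIntegrable_of_norm_le_rpow`,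
`integrable_rpow_neg_one_add_norm_sq`) -/
theorem lintegral_pole {e : ℝ} (h0 : 0 < e) (h1 : e ≤ 1) : ∃ B : ℝ, 0 ≤ B ∧ ∀ θ : ℂ,
    ∫⁻ w : ℂ, ENNReal.ofReal (‖w - θ‖ ^ (2 * e - 2) * ((1 + ‖w‖ ^ 2)⁻¹) ^ 2) ≤
      ENNReal.ofReal B := by
  have hm : Measurable fun w : ℂ => ‖w‖ ^ (2 * e - 2) := measurable_norm.pow_const _
  have i1 : IntegrableOn (fun w : ℂ => ‖w‖ ^ (2 * e - 2)) (Metric.ball 0 1) := by
    refine integrableOn_ball_of_norm_le_rpow (C := 1) (α := 2 - 2 * e) (by simp) ?_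
      (Filter.Eventually.of_forall fun w => ?_) hm.aestronglyMeasurable
    · rw [Complex.finrank_real_complex]
      push_cast
      linarith
    · rw [one_mul, neg_sub, Real.norm_of_nonneg (Real.rpow_nonneg (norm_nonneg w) _)]
  have i1' : Integrable ((Metric.ball (0 : ℂ) 1).indicator fun w : ℂ => ‖w‖ ^ (2 * e - 2)) :=
    (integrable_indicator_iff Metric.isOpen_ball.measurableSet).2 i1
  have i2 : Integrable fun w : ℂ => ((1 + ‖w‖ ^ 2)⁻¹) ^ 2 := by
    have h := integrable_rpow_neg_one_add_norm_sq (E := ℂ) (μ := volume) (r := 4) (by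
      rw [Complex.finrank_real_complex]; norm_num)
    refine h.congr (Filter.Eventually.of_forall fun w => ?_)
    have hw : (0 : ℝ) ≤ 1 + ‖w‖ ^ 2 := by positivity
    show (1 + ‖w‖ ^ 2) ^ (-4 / 2 : ℝ) = ((1 + ‖w‖ ^ 2)⁻¹) ^ 2
    rw [show (-4 / 2 : ℝ) = -((2 : ℕ) : ℝ) by norm_num, Real.rpow_neg hw, Real.rpow_natCast, inv_pow]
  obtain ⟨g, hg⟩ : ∃ g : ℂ → ℝ,
      g = (Metric.ball (0 : ℂ) 1).indicator fun w : ℂ => ‖w‖ ^ (2 * e - 2) := ⟨_, rfl⟩
  have hg0 : ∀ w, 0 ≤ g w := fun w =>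
    hg ▸ Set.indicator_nonneg (fun x _ => Real.rpow_nonneg (norm_nonneg x) _) w
  rw [← hg] at i1'
  refine ⟨(∫ w, g w) + ∫ w : ℂ, ((1 + ‖w‖ ^ 2)⁻¹) ^ 2,
    add_nonneg (integral_nonneg hg0) (integral_nonneg fun w => sq_nonneg _), fun θ => ?_⟩
  have i3 : Integrable fun w : ℂ => g (w - θ) := i1'.comp_sub_right θ
  rw [← integral_sub_right_eq_self g θ, ← integral_add i3 i2,
    ofReal_integral_eq_lintegral_ofReal (f := fun w : ℂ => g (w - θ) + ((1 + ‖w‖ ^ 2)⁻¹) ^ 2)
      (i3.add i2)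
      (Filter.Eventually.of_forall fun w => add_nonneg (hg0 _) (sq_nonneg _))]
  refine lintegral_mono fun w => ENNReal.ofReal_le_ofReal ?_
  have a0 : (0 : ℝ) ≤ ((1 + ‖w‖ ^ 2)⁻¹) ^ 2 := sq_nonneg _
  by_cases hw : w - θ ∈ Metric.ball (0 : ℂ) 1
  · have a1 : ((1 + ‖w‖ ^ 2)⁻¹) ^ 2 ≤ 1 :=
      pow_le_one₀ (by positivity) (inv_le_one_of_one_le₀ (le_add_of_nonneg_right (sq_nonneg _)))
    have a2 := mul_le_of_le_one_right (Real.rpow_nonneg (norm_nonneg (w - θ)) (2 * e - 2)) a1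
    have a3 : g (w - θ) = ‖w - θ‖ ^ (2 * e - 2) := by rw [hg, Set.indicator_of_mem hw]
    show _ ≤ g (w - θ) + ((1 + ‖w‖ ^ 2)⁻¹) ^ 2
    linarith
  · have a1 : ‖w - θ‖ ^ (2 * e - 2) ≤ 1 :=
      Real.rpow_le_one_of_one_le_of_nonpos (not_lt.1 fun h => hw (mem_ball_zero_iff.2 h))
        (by linarith)
    have a2 := mul_le_of_le_one_left a0 a1
    have a3 := hg0 (w - θ)
    show _ ≤ g (w - θ) + ((1 + ‖w‖ ^ 2)⁻¹) ^ 2
    linarith

/-- if `θ i` is the point closest to `w` then `|w - θ j|` is comparable with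
`max |w - θ i| |θ i - θ j|` -/
theorem near_compare {w a b : ℂ} (h : ‖w - a‖ ≤ ‖w - b‖) :
    max ‖w - a‖ ‖a - b‖ ≤ 2 * ‖w - b‖ ∧ ‖w - b‖ ≤ 2 * max ‖w - a‖ ‖a - b‖ := by
  have h1 : ‖a - b‖ ≤ ‖a - w‖ + ‖w - b‖ := norm_sub_le_norm_sub_add_norm_sub a w b
  have h2 : ‖w - b‖ ≤ ‖w - a‖ + ‖a - b‖ := norm_sub_le_norm_sub_add_norm_sub w a b
  rw [norm_sub_rev a w] at h1
  have h3 := norm_nonneg (w - b)
  have h4 := le_max_left ‖w - a‖ ‖a - b‖
  have h5 := le_max_right ‖w - a‖ ‖a - b‖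
  exact ⟨max_le (by linarith) (by linarith), by linarith⟩

theorem fib_zpow {m d : ℝ} (hm : 0 < m) (hd : 0 < d) (h1 : m ≤ 2 * d) (h2 : d ≤ 2 * m) (k : ℤ) :
    m ^ k ≤ 2 ^ k.natAbs * d ^ k := by
  obtain ⟨j, rfl | rfl⟩ := Int.eq_nat_or_neg k
  · rw [Int.natAbs_natCast, zpow_natCast, zpow_natCast, ← mul_pow]
    exact pow_le_pow_left₀ hm.le h1 j
  · rw [Int.natAbs_neg, Int.natAbs_natCast, zpow_neg, zpow_neg, zpow_natCast, zpow_natCast,
      ← div_eq_mul_inv, inv_eq_one_div, div_le_div_iff₀ (pow_pos hm j) (pow_pos hd j), one_mul,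
      ← mul_pow]
    exact pow_le_pow_left₀ hd.le h2 j

theorem fib_real {s B c C D M x a p : ℝ} (hs : 0 < s) (hc : 0 < c) (hC : 0 ≤ C) (hD : 0 ≤ D)
    (hM : 0 ≤ M) (hB : 0 ≤ B) (hp : 0 ≤ p) (hMD : M ≤ C * D) (h1 : s ^ (1 - a) ≤ B * M ^ p)
    (h2 : x * (c * D) ^ (2 * p) ≤ 1) : x ≤ (C / c) ^ (2 * p) * B ^ 2 * s ^ (2 * a - 2) := by
  have hq : 0 ≤ C / c := div_nonneg hC hc.le
  rcases le_total x 0 with hx | hx
  · exact hx.trans (by positivity)
  have e1 : C * D = C / c * (c * D) := by field_simp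
  have a1 : s ^ (1 - a) ≤ B * ((C / c) ^ p * (c * D) ^ p) := by
    rw [← Real.mul_rpow hq (by positivity), ← e1]
    exact h1.trans (mul_le_mul_of_nonneg_left (Real.rpow_le_rpow hM hMD hp) hB)
  have a2 := pow_le_pow_left₀ (Real.rpow_nonneg hs.le _) a1 2
  have e2 : ∀ {y : ℝ}, 0 ≤ y → ∀ t : ℝ, (y ^ t) ^ 2 = y ^ (2 * t) := by
    intro y hy t
    rw [mul_comm, Real.rpow_mul hy, Real.rpow_two]
  rw [mul_pow, mul_pow, e2 hs.le, e2 hq, e2 (by positivity)] at a2
  have e3 : s ^ (2 * a - 2) = (s ^ (2 * (1 - a)))⁻¹ := by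
    rw [← Real.rpow_neg hs.le]
    congr 1
    ring
  rw [e3, ← div_eq_mul_inv, le_div_iff₀ (Real.rpow_pos_of_pos hs _)]
  have a3 := mul_le_mul_of_nonneg_left a2 hx
  have a4 := mul_le_mul_of_nonneg_left h2
    (show 0 ≤ (C / c) ^ (2 * p) * B ^ 2 by positivity)
  linarith

/-- For `w` outside the finite set of the `θ j` choose the closest `θ i`, `s = |w - θ i|`, and `b`
from `h`; then `f w ≤ const * B^2 * ∑ i, |w - θ i|^(2 / E - 2)` by `near_compare`
(`const` depends on `c`, `n`, `N` only); `lintegral_pole`. -/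
theorem fib {R β : Type} [Fintype R] [Nonempty R] [Fintype β] (n : β → R → ℤ) (c : β → ℝ)
    (hc : ∀ b, 0 < c b) {N E : ℕ} (hN : 0 < N) (hE : 0 < E) : ∃ K : ℝ, 0 ≤ K ∧
      ∀ (θ : R → ℂ) (B : ℝ) (f : ℂ → ℝ), 0 < B →
        (∀ i, ∀ s : ℝ, 0 < s → ∃ b, s ^ (1 - 1 / (E : ℝ)) ≤
          B * (∏ j, (max s ‖θ i - θ j‖) ^ n b j) ^ (1 / (N : ℝ))) →
        (∀ w, (∀ j, w ≠ θ j) → ∀ b, f w * (c b * ∏ j, ‖w - θ j‖ ^ n b j) ^ (2 / (N : ℝ)) ≤ 1) →
        ∫⁻ w, ENNReal.ofReal (f w * ((1 + ‖w‖ ^ 2)⁻¹) ^ 2) ≤ ENNReal.ofReal (K * B ^ 2) := by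
  have hE' : (1 : ℝ) ≤ E := by exact_mod_cast hE
  have hN' : (0 : ℝ) < N := by exact_mod_cast hN
  obtain ⟨A, hA, hA'⟩ := lintegral_pole (e := 1 / (E : ℝ)) (by positivity)
    ((div_le_one (by linarith)).2 hE')
  obtain ⟨q, hq⟩ : ∃ q : β → ℝ,
      ∀ b, q b = ((∏ j, (2 : ℝ) ^ (n b j).natAbs) / c b) ^ (2 * (1 / (N : ℝ))) :=
    ⟨_, fun _ => rfl⟩
  have hq0 : ∀ b, 0 ≤ q b := fun b => by
    have := hc b
    rw [hq]
    positivity
  obtain ⟨L, hL0, hL⟩ : ∃ L : ℝ, 0 ≤ L ∧ ∀ b, q b ≤ L :=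
    ⟨∑ b, q b, Finset.sum_nonneg fun b _ => hq0 b,
      fun b => Finset.single_le_sum (fun b _ => hq0 b) (Finset.mem_univ b)⟩
  refine ⟨Fintype.card R * L * A, by positivity, fun θ B f hB h hf => ?_⟩
  have key : ∀ w, (∀ j, w ≠ θ j) →
      f w ≤ ∑ i, L * B ^ 2 * ‖w - θ i‖ ^ (2 * (1 / (E : ℝ)) - 2) := by
    intro w hw
    obtain ⟨i, -, hi⟩ := Finset.exists_min_image Finset.univ (fun i => ‖w - θ i‖)
      Finset.univ_nonempty
    have hd : ∀ j, 0 < ‖w - θ j‖ := fun j => norm_pos_iff.2 (sub_ne_zero.2 (hw j))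
    have hm : ∀ j, 0 < max ‖w - θ i‖ ‖θ i - θ j‖ := fun j => lt_max_of_lt_left (hd i)
    obtain ⟨b, hb⟩ := h i _ (hd i)
    have h2 := hf w hw b
    rw [div_eq_mul_one_div (2 : ℝ)] at h2
    have h3 : ∏ j, (max ‖w - θ i‖ ‖θ i - θ j‖) ^ n b j ≤
        (∏ j, (2 : ℝ) ^ (n b j).natAbs) * ∏ j, ‖w - θ j‖ ^ n b j := by
      rw [← Finset.prod_mul_distrib]
      refine Finset.prod_le_prod (fun j _ => (zpow_pos (hm j) _).le) fun j _ => ?_
      have h4 := near_compare (hi j (Finset.mem_univ j))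
      exact fib_zpow (hm j) (hd j) h4.1 h4.2 _
    have h5 := fib_real (hd i) (hc b) (by positivity)
      (Finset.prod_nonneg fun j _ => (zpow_pos (hd j) _).le)
      (Finset.prod_nonneg fun j _ => (zpow_pos (hm j) _).le) hB.le (by positivity) h3 hb h2
    rw [← hq] at h5
    refine h5.trans (le_trans ?_ (Finset.single_le_sum
      (f := fun i => L * B ^ 2 * ‖w - θ i‖ ^ (2 * (1 / (E : ℝ)) - 2))
      (fun j _ => by positivity) (Finset.mem_univ i)))
    exact mul_le_mul_of_nonneg_right (mul_le_mul_of_nonneg_right (hL b) (sq_nonneg B))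
      (Real.rpow_nonneg (norm_nonneg _) _)
  have hae : ∀ᵐ w : ℂ, ∀ j, w ≠ θ j := by
    have h0 : volume (Set.range θ) = 0 := (Set.finite_range θ).measure_zero _
    filter_upwards [measure_eq_zero_iff_ae_notMem.1 h0] with w hw j hj
    exact hw ⟨j, hj.symm⟩
  have hms : ∀ i, Measurable fun w : ℂ => ENNReal.ofReal
      (‖w - θ i‖ ^ (2 * (1 / (E : ℝ)) - 2) * ((1 + ‖w‖ ^ 2)⁻¹) ^ 2) := fun i =>
    (((measurable_id.sub_const _).norm.pow_const _).mul
      (((measurable_norm.pow_const 2).const_add 1).inv.pow_const 2)).ennreal_ofReal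
  have hLB : 0 ≤ L * B ^ 2 := by positivity
  calc ∫⁻ w, ENNReal.ofReal (f w * ((1 + ‖w‖ ^ 2)⁻¹) ^ 2)
      ≤ ∫⁻ w, ∑ i, ENNReal.ofReal (L * B ^ 2) * ENNReal.ofReal
          (‖w - θ i‖ ^ (2 * (1 / (E : ℝ)) - 2) * ((1 + ‖w‖ ^ 2)⁻¹) ^ 2) := by
        refine lintegral_mono_ae ?_
        filter_upwards [hae] with w hw
        simp only [← ENNReal.ofReal_mul hLB]
        rw [← ENNReal.ofReal_sum_of_nonneg fun i _ => by positivity]
        refine ENNReal.ofReal_le_ofReal ?_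
        simp only [← mul_assoc]
        rw [← Finset.sum_mul]
        exact mul_le_mul_of_nonneg_right (key w hw) (sq_nonneg _)
    _ = ∑ i, ENNReal.ofReal (L * B ^ 2) * ∫⁻ w, ENNReal.ofReal
          (‖w - θ i‖ ^ (2 * (1 / (E : ℝ)) - 2) * ((1 + ‖w‖ ^ 2)⁻¹) ^ 2) := by
        rw [lintegral_finsetSum _ fun i _ => (hms i).const_mul _]
        exact Finset.sum_congr rfl fun i _ => lintegral_const_mul _ (hms i)
    _ ≤ ∑ _i : R, ENNReal.ofReal (L * B ^ 2 * A) := by
        refine Finset.sum_le_sum fun i _ => ?_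
        rw [ENNReal.ofReal_mul hLB]
        exact mul_le_mul_right (hA' (θ i)) _
    _ = _ := by
        rw [← ENNReal.ofReal_sum_of_nonneg fun i _ => by positivity, Finset.sum_const,
          Finset.card_univ, nsmul_eq_mul]
        congr 1
        ring

end Pool.Agent.MP_c0606f_ag.Klt

end
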