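import Pool.Agent.MP_c0606f_ag.Mg.Klt_Copy
import Pool.Agent.MP_c0606f_ag.Mg.Klt_Der
import Pool.Agent.MP_c0606f_ag.Mg.Klt_BAux
import Pool.Agent.MP_c0606f_ag.Mg.Klt_Fib

-- part MP_c0606f_ag.Klt.Dec
section

/-! Decoupling: families of sections are controlled by a field of small complexity. -/

namespace Pool.Agent.MP_c0606f_ag.Klt

open MvPolynomial
open scoped NNReal

/-- a subfamily of a fresh family is fresh over the field generated by the other variables -/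
theorem Fresh.sub {R : Type} [Field R] [Algebra ℂ R] {v : Val R} {k : Set R} {Z Z' : Type}
    [DecidableEq Z] [DecidableEq Z'] {ξ : Z → R} {D : Z → Derivation ℂ R R} (h : Fresh v k ξ D)
    (e : Z' ↪ Z) {k' : Set R} (hk : ∀ z, ∀ a ∈ k', D (e z) a = 0) :
    Fresh v k' (fun z => ξ (e z)) fun z => D (e z) := by
  refine ⟨fun z => ⟨(h.mem (e z)).1, hk z⟩, fun z => h.le _, fun a b => ?_⟩
  rw [h.dual]
  simp only [e.apply_eq_iff_eq]

theorem Fresh.val_eq {R : Type} [Field R] [Algebra ℂ R] {v : Val R} {k : Set R} {Z : Type}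
    [DecidableEq Z] {ξ : Z → R} {D : Z → Derivation ℂ R R} (h : Fresh v k ξ D) (z : Z) :
    v (ξ z) = 1 := by
  refine le_antisymm (h.le z) ?_
  have h1 := (h.mem z).1 (ξ z)
  rwa [h.dual, if_pos rfl, map_one] at h1

section Aux

variable {R : Type} [Field R] [Algebra ℂ R] {v : Val R}

/-- the field generated by the perturbed coefficients -/
noncomputable def decK (τ s : R) (Λ : ℕ) {B : Type} (c : B → R) (ξ : Option B → R) :
    IntermediateField ℂ R :=
  IntermediateField.adjoin ℂ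
    (insert τ (insert (s * ξ none) (Set.range fun b => c b + τ ^ Λ * ξ (some b))))

variable {τ s : R} {Λ : ℕ} {B : Type} {c : B → R} {ξ : Option B → R}
  {D : Option B → Derivation ℂ R R} {k0 : Set R}

theorem dec_mem {E : Derivation ℂ R R} (hE : E ∈ LD v {τ}) (h1 : E (s * ξ none) = 0)
    (h2 : ∀ b, E (c b + τ ^ Λ * ξ (some b)) = 0) : E ∈ LD v (decK τ s Λ c ξ) := by
  refine ⟨hE.1, fun a ha => der_kill_adjoin E _ ?_ ha⟩
  rintro _ (rfl | rfl | ⟨b, rfl⟩)
  exacts [hE.2 _ rfl, h1, h2 b]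

omit [Algebra ℂ R] in
theorem dec_val (hτ : v τ ≤ 1) {a x : R} (ha : v a ≤ 1) (hx : v x ≤ 1) :
    v (a + τ ^ Λ * x) ≤ 1 :=
  v.map_add_le ha (by rw [map_mul, map_pow]; exact mul_le_one' (pow_le_one' hτ _) hx)

theorem dec_cost [Fintype B] [DecidableEq B] (h : Fresh v k0 ξ D) (hτ : τ ∈ k0) (hτ1 : v τ ≤ 1)
    (hs0 : s ≠ 0) (hs : ∀ z, D z s = 0) (hc : ∀ z b, D z (c b) = 0) (hc1 : ∀ b, v (c b) ≤ 1)
    {α : Type} [DecidableEq α] (Y : α → R) (S : Finset α) (hY : ∀ p, Y p ∈ k0) :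
    lvol v (LD v {τ}) (fun p => evD (Y p)) S * v τ ^ (Fintype.card B * Λ) ≤
      lvol v (LD v (decK τ s Λ c ξ)) (fun p => evD (Y p)) S := by
  have hm : ∀ z, D z ∈ LD v {τ} := fun z => LD_mono v (Set.singleton_subset_iff.2 hτ) (h.mem z)
  have hξ : ξ none ≠ 0 := fun h0 => by simpa [h0] using h.val_eq none
  have ht : s * ξ none ≠ 0 := mul_ne_zero hs0 hξ
  have d1 : ∀ z, D z (s * ξ none) = s * if z = none then 1 else 0 := fun z => by
    rw [Derivation.leibniz, hs, h.dual, smul_zero, add_zero, smul_eq_mul]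
  have d2 : ∀ z b, D z (c b + τ ^ Λ * ξ (some b)) = τ ^ Λ * if z = some b then 1 else 0 :=
    fun z b => by
      rw [map_add, hc, Derivation.leibniz, Derivation.leibniz_pow, (hm z).2 τ rfl, h.dual]
      simp
  have key := lvol_cost_fin (isLat_LD v {τ}) (bdd_LD v {τ} Y) S
    (fun o : Option B => o.elim ((s * ξ none)⁻¹ • evD (s * ξ none))
      fun b => evD (c b + τ ^ Λ * ξ (some b))) ?_
    (fun o : Option B => o.elim (ξ none • D none) fun b => D (some b)) ?_ ?_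
  · rw [Fintype.prod_option] at key
    simp only [Option.elim, LinearMap.smul_apply, evD_apply, Derivation.smul_apply, d1, d2,
      if_true, smul_eq_mul, mul_one, Finset.prod_const, Finset.card_univ] at key
    rw [mul_comm (ξ none), inv_mul_cancel₀ ht, map_one, one_mul, map_pow, ← pow_mul,
      mul_comm Λ] at key
    refine key.trans (lvol_mono (bdd_LD v _ Y) (fun E hE => dec_mem hE.1 ?_ fun b => ?_) S)
    · exact (mul_eq_zero.1 (hE.2 none)).resolve_left (inv_ne_zero ht)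
    · exact hE.2 (some b)
  · rintro (_ | b) E hE
    · simp only [Option.elim, LinearMap.smul_apply, evD_apply, smul_eq_mul]
      rw [map_mul, map_inv₀]
      exact inv_mul_le_one_of_le₀ (hE.1 _) zero_le
    · exact (hE.1 _).trans (dec_val hτ1 (hc1 b) (h.le _))
  · rintro (_ | b)
    · refine ⟨(isLat_LD v {τ}).smul _ (h.le _) _ (hm _), fun p _ => ?_⟩
      simp [(h.mem none).2 _ (hY p)]
    · exact ⟨hm _, fun p _ => (h.mem _).2 _ (hY p)⟩
  · rintro (_ | b) (_ | b') hne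
    · exact absurd rfl hne
    · simp only [Option.elim, LinearMap.smul_apply, evD_apply, d1]; simp
    · simp only [Option.elim, evD_apply, Derivation.smul_apply, d2]; simp
    · simp only [Option.elim, evD_apply, d2, if_neg hne.symm, mul_zero]

theorem dec_cmp [Fintype B] [DecidableEq B] (h : Fresh v k0 ξ D) {M1 : Set (Derivation ℂ R R)}
    (hM : IsLat v M1) (hM1 : M1 ⊆ LD v {τ}) (hD : ∀ z, D z ∈ M1) (hs : ∀ E ∈ M1, E s = 0)
    (hc : ∀ E ∈ M1, ∀ b, E (c b) = 0)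
    {α : Type} [DecidableEq α] (Y : α → R) (S : Finset α) (hY : ∀ p, Y p ∈ k0) :
    lvol v M1 (fun p => evD (Y p)) S ≤ lvol v (LD v (decK τ s Λ c ξ)) (fun p => evD (Y p)) S := by
  have key := lvol_cost_fin hM ((bdd_LD v {τ} Y).mono hM1) S (fun o => evD (ξ o))
    (fun o E hE => ((hM1 hE).1 _).trans (h.le o)) D
    (fun o => ⟨hD o, fun p _ => (h.mem o).2 _ (hY p)⟩)
    fun o o' hne => by rw [evD_apply, h.dual, if_neg hne.symm]
  simp only [evD_apply, h.dual, if_true, map_one, Finset.prod_const_one, mul_one] at key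
  refine key.trans (lvol_mono (bdd_LD v _ Y) (fun E hE => dec_mem (hM1 hE.1) ?_ fun b => ?_) S)
  · rw [Derivation.leibniz, hs E hE.1, hE.2, smul_zero, smul_zero, add_zero]
  · rw [map_add, hc E hE.1, Derivation.leibniz, Derivation.leibniz_pow, (hM1 hE.1).2 τ rfl, hE.2]
    simp

omit [Algebra ℂ R] in
theorem dec_pert {n : ℕ} {c ξ μ : Fin n → R} {u : R} {w A : ℝ≥0} (hw : w ≤ 1) (hu : v u ≤ A)
    (hξ : ∀ l, v (ξ l) ≤ 1) (hμ : ∀ l, v (μ l) ≤ 1) (h : v (∑ l, c l * μ l) * w ≤ A) :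
    v (∑ l, (c l + u * ξ l) * μ l) * w ≤ A := by
  have e : ∑ l, (c l + u * ξ l) * μ l = ∑ l, c l * μ l + u * ∑ l, ξ l * μ l := by
    rw [Finset.mul_sum, ← Finset.sum_add_distrib]
    exact Finset.sum_congr rfl fun l _ => by ring
  have h1 : v (u * ∑ l, ξ l * μ l) * w ≤ A := by
    rw [map_mul, mul_assoc]
    exact (mul_le_of_le_one_right' (mul_le_one' (ker_sum_le hξ hμ) hw)).trans hu
  rw [e]
  rcases le_max_iff.1 (v.map_add (∑ l, c l * μ l) (u * ∑ l, ξ l * μ l)) with h2 | h2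
  · exact (mul_le_mul_left h2 w).trans h
  · exact (mul_le_mul_left h2 w).trans h1

omit [Algebra ℂ R] in
theorem dec_transfer {n : ℕ} {c ξ μ μ' : Fin n → R} {u : R} {w A : ℝ≥0} (hw : w ≤ 1)
    (hu : v u ≤ A) (hξ : ∀ l, v (ξ l) ≤ 1) (hμ : ∀ l, v (μ l) ≤ 1) (hμ' : ∀ l, v (μ' l) ≤ 1)
    (h : v (∑ l, c l * μ l) * w ≤ A)
    (he : v (∑ l, (c l + u * ξ l) * μ' l) = v (∑ l, (c l + u * ξ l) * μ l)) :
    v (∑ l, c l * μ' l) * w ≤ A := by
  have h1 := dec_pert hw hu hξ hμ h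
  rw [← he] at h1
  have h2 := dec_pert (ξ := fun l => -ξ l) hw hu (fun l => by rw [v.map_neg]; exact hξ l) hμ' h1
  simpa using h2

theorem dec_pow {w A : ℝ≥0} (hw0 : 0 < w) (hw : w ≤ 1) {M m Λ : ℕ} (hm : 0 < m)
    (hA : w ^ Λ ≤ A) : w ^ (M * Λ / m + 1) ≤ A ^ ((M : ℝ) / m) := by
  have hm' : (0 : ℝ) < m := by exact_mod_cast hm
  refine le_trans ?_ (NNReal.rpow_le_rpow hA (by positivity))
  rw [← NNReal.rpow_natCast, ← NNReal.rpow_natCast, ← NNReal.rpow_mul]
  refine NNReal.rpow_le_rpow_of_exponent_ge hw0 hw ?_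
  have h1 : ((M * Λ : ℕ) : ℝ) ≤ ((m * (M * Λ / m + 1) : ℕ) : ℝ) := by
    exact_mod_cast (Nat.lt_mul_div_succ (M * Λ) hm).le
  rw [← mul_div_assoc, div_le_iff₀ hm']
  push_cast at h1 ⊢
  linarith

theorem dec_num {P w d θ e A A' : ℝ≥0} (hP : P ≤ 1) (hw : w ≤ 1) {M m a b C : ℕ} (hM : 0 < M)
    (hm : M ≤ m) (hC : a + b + 3 ≤ C) (hd : P ^ a ≤ d) (hθ : P ^ b ≤ θ) (he : P ≤ e)
    (h : (d * A') ^ ((M : ℝ) / m) * (w * θ) * (e * w) ≤ A ^ ((M : ℝ) / m)) :
    A' * (P * w) ^ ((C : ℝ) * m / M) ≤ A := by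
  have hM' : (0 : ℝ) < M := by exact_mod_cast hM
  have hm' : (M : ℝ) ≤ m := by exact_mod_cast hm
  have hm0 : (0 : ℝ) < m := hM'.trans_le hm'
  have hγ : (0 : ℝ) < (M : ℝ) / m := by positivity
  refine (NNReal.rpow_le_rpow_iff hγ).1 (le_trans ?_ h)
  rw [NNReal.mul_rpow, ← NNReal.rpow_mul, show (C : ℝ) * m / M * (M / m) = C by field_simp,
    NNReal.rpow_natCast, NNReal.mul_rpow]
  have h1 : P ^ a ≤ d ^ ((M : ℝ) / m) := by
    refine le_trans ?_ (NNReal.rpow_le_rpow hd hγ.le)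
    rcases eq_or_lt_of_le (zero_le (a := P ^ a)) with h0 | h0
    · rw [← h0]; exact zero_le
    · simpa using NNReal.rpow_le_rpow_of_exponent_ge h0 (pow_le_one' hP a)
        ((div_le_one hm0).2 hm')
  have hQ : P * w ≤ 1 := mul_le_one' hP hw
  have hQ1 : P * w ≤ P := mul_le_of_le_one_right' hw
  have hQ2 : P * w ≤ w := mul_le_of_le_one_left' hP
  calc A' ^ ((M : ℝ) / m) * (P * w) ^ C ≤ A' ^ ((M : ℝ) / m) * (P * w) ^ (a + b + 3) :=
        mul_le_mul_right (pow_le_pow_right_of_le_one' hQ hC) _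
    _ = (P * w) ^ a * A' ^ ((M : ℝ) / m) * ((P * w) * (P * w) ^ b) * ((P * w) * (P * w)) := by
        ring
    _ ≤ P ^ a * A' ^ ((M : ℝ) / m) * (w * P ^ b) * (P * w) := by gcongr
    _ ≤ _ := by gcongr

end Aux

namespace Model

variable {ι L : Type} [Fintype ι] [DecidableEq ι] [Field L] [Algebra ℂ L] (Mo : Model ι L)

theorem dec_aeval (p : MvPolynomial ι ℂ) :
    IsIntegral (Algebra.adjoin ℂ (Set.range Mo.y)) (aeval Mo.y p) := by
  rw [← Mo.toCover.evψ_coe]
  exact isIntegral_algebraMap (x := Mo.toCover.evψ p)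

theorem dec_theta : IsIntegral (Algebra.adjoin ℂ (Set.range Mo.y)) Mo.toCover.θ := by
  refine (Mo.dec_aeval _).mul ?_
  rw [← Mo.toCover.evψ_pv]
  exact adjoin_le_integralClosure Mo.toCover.z_integral (Polynomial.aeval_mem_adjoin_singleton _ _)

theorem dec_delta : aeval Mo.y Mo.δ0 ≠ 0 :=
  Mo.toCover.aeval_ne fun h => Mo.Δ_ne (by simpa [h] using Mo.δ0_dvd)

/-- Let `n2 = n1 ^ 2` with `n1, μ` from `dem`.  Embed `(β × Fin n1 × Fin n1) ⊕ Option ι` into `Z`;
write `ξ (b, j, l)`, `ξ0`, `ζ i` for the corresponding variables.  `k1` is generated by `τ` and the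
`f b l i`; `c b` from `dem` for `k1`; `k1'` is generated by `k1` and the `c b j l`, with uniformiser
`s` (`exists_unifOn`); `k2 = k1' ⊔ ℂ(ξ (b, j, l), ξ0)` has uniformiser `s` (`Fresh.unifOn`), hence
`t = s * ξ0`.  `c' b j l = c b j l + τ ^ Λ' * ξ (b, j, l)` with `Λ' = M * Λ / m + 1`; `k` is
generated by `τ, t, c'`, and `M' = LD v k`.  Cost: `lvol_cost_fin` with the functionals
`t⁻¹ • evD t`, `evD (c' b j l)` and the vectors `ξ0 • D ξ0`, `D (b, j, l)`.  Comparison with `M1`: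
`lvol_cost_fin` with `evD (ξ z)` and `D z`; note that `s` and the `c` are killed by every
derivation killing `k1`.  For a point `x` use `copy` with `T` containing the `μ l`, `θ`, `δ0(y)`.
Write `e = evol v k1 (x y) ≥ pvol v M1`, `γ = M / m`, `A = tv` at `x`, `A' = tv` at the copy.  As
`v τ ^ Λ' ≤ A ^ γ`, for all `j` the values of `∑ c' b j l * μ l` at `x`, hence at the copy, are at
most `A ^ γ / (e * v τ)`, and so are those of `∑ c b j l * μ l` at the copy.  The second part of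
`dem` at the copy gives `(v δ0 * A') ^ γ * v τ * v θ * e * v τ ≤ A ^ γ`; `pl_fixed` bounds `v δ0`
and `v θ` from below (their values at `x` and at the copy agree); raise to the power
`m / M ≥ 1`. -/
theorem dec : ∃ C2 : ℕ, ∀ M : ℕ, 0 < M → ∃ n2 : ℕ, ∀ m, M ≤ m → C2 ≤ m →
    ∀ (N : ℕ) (b : Module.Basis (Fin N) ℂ (Mo.V m)) (R : Type) [Field R] [Algebra ℂ R]
      [IsAlgClosed R] (v : Val R) (τ : R) (k0 : IntermediateField ℂ R) (nZ : ℕ)
      (ξ : Fin nZ → R) (D : Fin nZ → Derivation ℂ R R) (g : ℕ) (r : Fin g → ℕ)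
      (f : ∀ s, Fin (r s) → Fin N → R) (M1 : Set (Derivation ℂ R R)) (Λ : ℕ),
      IsAbh v → 0 < v τ → v τ < 1 → τ ∈ k0 → Fresh v k0 ξ D →
      g * n2 + Fintype.card ι + 1 ≤ nZ → (∀ s l i, f s l i ∈ k0) → (∀ s l i, v (f s l i) ≤ 1) →
      IsLat v M1 → M1 ⊆ LD v {τ} → (∀ z, D z ∈ M1) → (∀ D' ∈ M1, ∀ s l i, D' (f s l i) = 0) →
      ∃ M' : Set (Derivation ℂ R R), IsLat v M' ∧ M' ⊆ LD v {τ} ∧
        (∀ (α : Type) [DecidableEq α] (Y : α → R) (S : Finset α), (∀ p, Y p ∈ k0) →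
          lvol v (LD v {τ}) (fun p => evD (Y p)) S * v τ ^ (g * n2 * (M * Λ / m + 1)) ≤
            lvol v M' (fun p => evD (Y p)) S ∧
          lvol v M1 (fun p => evD (Y p)) S ≤ lvol v M' (fun p => evD (Y p)) S) ∧
        ∀ x : L →ₐ[ℂ] R, (∀ a, x a ∈ k0) → Mo.Nrm v x.toRingHom →
          0 < pvol v M1 (fun i => x (Mo.y i)) →
          ∃ E : Matrix (Fin N) (Fin N) R, (∀ i l, v (E i l) ≤ 1) ∧ v E.det = 1 ∧
            (∀ D' ∈ M', ∀ i l, D' (E i l) = 0) ∧
            (∀ δ : ℚ, 0 ≤ δ → Mo.Stab δ m → pvol v M' (fun i => x (Mo.y i)) ≤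
              (∏ i, v (∑ l, E i l * x (b l))) ^ ((δ : ℝ) / (m * N)) * v (x Mo.h)) ∧
            ∀ s l i, v (∑ j, f s l j * E⁻¹ j i) * v (∑ j, E i j * x (b j)) *
              (pvol v M1 (fun i => x (Mo.y i)) * v τ) ^ ((C2 : ℝ) * m / M) ≤
                tv v (f s) (fun j => x (b j)) (v τ ^ Λ) := by
  classical
  obtain ⟨Cd, hdem⟩ := Mo.dem
  obtain ⟨a1, ha1⟩ := Mo.pl_fixed Mo.dec_delta
  obtain ⟨a2, ha2⟩ := Mo.pl_fixed Mo.toCover.θ_ne
  refine ⟨Cd + (a1 + a2 + 3), fun M hM => ?_⟩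
  obtain ⟨n1, μ, hμ, hdem⟩ := hdem M hM
  refine ⟨n1 * n1, fun m hm hC N b R _ _ _ v τ k0 nZ ξ D g r f M1 Λ hv hτ0 hτ1 hτ hF hn hf0 hf1
    hL hM1 hD hMf => ?_⟩
  obtain ⟨e⟩ : Nonempty (Option (Fin g × Fin n1 × Fin n1) ⊕ ι ↪ Fin nZ) :=
    Function.Embedding.nonempty_of_card_le (by simp; omega)
  obtain ⟨F, hFd⟩ : ∃ F : Set R, F = insert τ
    (Set.range fun p : Σ s, Fin (r s) × Fin N => f p.1 p.2.1 p.2.2) := ⟨_, rfl⟩
  have hFfin : F.Finite := hFd ▸ (Set.finite_range _).insert _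
  have hτF : τ ∈ F := hFd ▸ Set.mem_insert _ _
  have hfF : ∀ s l i, f s l i ∈ F := fun s l i =>
    hFd ▸ Set.mem_insert_of_mem _ ⟨⟨s, l, i⟩, rfl⟩
  have hkill : ∀ E : Derivation ℂ R R, E τ = 0 → (∀ s l i, E (f s l i) = 0) → ∀ a ∈ F, E a = 0 := by
    rw [hFd]
    rintro E h1 h2 _ (rfl | ⟨p, rfl⟩)
    exacts [h1, h2 _ _ _]
  have hDF : ∀ z, ∀ a ∈ F, D z a = 0 := fun z =>
    hkill _ ((hF.mem z).2 _ hτ) fun s l i => (hF.mem z).2 _ (hf0 s l i)
  have hMF : ∀ E ∈ M1, ∀ a ∈ F, E a = 0 := fun E hE => hkill _ ((hM1 hE).2 _ rfl) (hMf E hE)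
  choose c hc1 hc2 hc3 using fun s => hdem m hm (by omega) N (fun i => (b i : L))
    (fun i => (b i).2) R v τ (IntermediateField.adjoin ℂ F) (r s) (f s) Λ hv hτ0 hτ1
    (IntermediateField.fg_adjoin_of_finite hFfin) (IntermediateField.subset_adjoin _ _ hτF)
    (fun l i => IntermediateField.subset_adjoin _ _ (hfF s l i)) (hf1 s)
  obtain ⟨c', hc'⟩ : ∃ c' : Fin g × Fin n1 × Fin n1 → R, c' = fun p => c p.1 p.2.1 p.2.2 :=
    ⟨_, rfl⟩
  have hkill' : ∀ E : Derivation ℂ R R, (∀ a ∈ F, E a = 0) → ∀ a ∈ F ∪ Set.range c', E a = 0 := by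
    rintro E hE _ (ha | ⟨p, rfl⟩)
    · exact hE _ ha
    · rw [hc']; exact hc2 _ E (fun a ha => der_kill_adjoin E F hE ha) _ _
  obtain ⟨s, hs, hu⟩ := hv.exists_unifOn (IntermediateField.adjoin ℂ (F ∪ Set.range c'))
    (IntermediateField.fg_adjoin_of_finite (hFfin.union (Set.finite_range _)))
    (IntermediateField.subset_adjoin _ _ (Or.inl hτF)) hτ0 hτ1
  obtain ⟨ξa, hξa⟩ : ∃ ξa, ξa = fun o => ξ ((Function.Embedding.inl.trans e) o) := ⟨_, rfl⟩
  obtain ⟨Da, hDa⟩ : ∃ Da, Da = fun o => D ((Function.Embedding.inl.trans e) o) := ⟨_, rfl⟩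
  have hDa1 : ∀ o, ∃ z, Da o = D z := fun o => ⟨_, congrFun hDa o⟩
  have hFa : Fresh v k0 ξa Da := by
    rw [hξa, hDa]; exact hF.sub _ fun z => (hF.mem _).2
  have hFb : Fresh v (IntermediateField.adjoin ℂ (F ∪ Set.range c')) ξa Da := by
    rw [hξa, hDa]
    exact hF.sub _ fun z a ha => der_kill_adjoin _ _ (hkill' _ (hDF _)) ha
  have hu2 := hFb.unifOn hv.triv hu
  rw [← IntermediateField.adjoin_union] at hu2
  obtain ⟨k2, hk2⟩ : ∃ k2, k2 = IntermediateField.adjoin ℂ (F ∪ Set.range c' ∪ Set.range ξa) :=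
    ⟨_, rfl⟩
  have hζ : Fresh v k2 (fun i => ξ ((Function.Embedding.inr.trans e) i))
      fun i => D ((Function.Embedding.inr.trans e) i) := by
    rw [hk2]
    refine hF.sub _ fun z a ha => der_kill_adjoin _ _ ?_ ha
    rintro _ (ha | ⟨o, rfl⟩)
    · exact hkill' _ (hDF _) _ ha
    · rw [hξa, hF.dual, if_neg]
      exact fun h => Sum.inr_ne_inl (e.injective h)
  have hsub : F ∪ Set.range c' ∪ Set.range ξa ⊆ k2 := hk2 ▸ IntermediateField.subset_adjoin _ _
  have hs2 : s ∈ k2 := hk2 ▸ IntermediateField.adjoin.mono _ _ _ Set.subset_union_left hs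
  rw [← hk2] at hu2
  have ht : v (s * ξa none) = v s := by rw [map_mul, hFa.val_eq, mul_one]
  have hu3 : IsUnifOn v k2 (s * ξa none) := by
    unfold IsUnifOn
    rw [ht]; exact hu2
  have hk : decK τ s (M * Λ / m + 1) c' ξa ≤ k2 := by
    refine IntermediateField.adjoin_le_iff.2 ?_
    have h1 : τ ∈ k2 := hsub (Or.inl (Or.inl hτF))
    have h2 : ∀ o, ξa o ∈ k2 := fun o => hsub (Or.inr ⟨o, rfl⟩)
    rintro _ (rfl | rfl | ⟨p, rfl⟩)
    · exact h1
    · exact mul_mem hs2 (h2 _)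
    · exact add_mem (hsub (Or.inl (Or.inr ⟨p, rfl⟩))) (mul_mem (pow_mem h1 _) (h2 _))
  have hc'1 : ∀ p, v (c' p) ≤ 1 := fun p => hc' ▸ hc1 _ _ _
  have hcmp := fun (α : Type) [DecidableEq α] => dec_cmp (τ := τ) (s := s) (c := c')
    (Λ := M * Λ / m + 1) (α := α) hFa hL hM1 (fun o => (hDa1 o).choose_spec ▸ hD _)
    (fun E hE => der_kill_adjoin _ _ (hkill' _ (hMF E hE)) hs)
    fun E hE p => hkill' _ (hMF E hE) _ (Or.inr ⟨p, rfl⟩)
  refine ⟨LD v (decK τ s (M * Λ / m + 1) c' ξa), isLat_LD v _, LD_mono v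
    (Set.singleton_subset_iff.2 (IntermediateField.subset_adjoin _ _ (Set.mem_insert _ _))),
    fun α _ Y S hY => ⟨?_, hcmp α Y S hY⟩, fun x hx0 hx hP => ?_⟩
  · have := dec_cost (Λ := M * Λ / m + 1) hFa hτ hτ1.le (fun h => by simpa [h] using hu.1)
      (fun o => (hFb.mem o).2 _ hs)
      (fun o p => (hFb.mem o).2 _ (IntermediateField.subset_adjoin _ _ (Or.inr ⟨p, rfl⟩)))
      hc'1 Y S hY
    simpa using this
  have h0 := hP.trans_le (hcmp ι (fun i => x (Mo.y i)) Finset.univ fun i => hx0 _)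
  obtain ⟨E, Y', Z', e1, e2, e3, e4, e5, e6, e7, e8, e9⟩ := Mo.copy hv hk
    (IntermediateField.subset_adjoin _ _ (Set.mem_insert_of_mem _ (Set.mem_insert _ _))) hu3 hζ b
    (insert (aeval Mo.y Mo.δ0) (insert Mo.toCover.θ (Finset.univ.image μ))) (by
      intro a ha
      simp only [Finset.mem_insert, Finset.mem_image, Finset.mem_univ, true_and] at ha
      rcases ha with rfl | rfl | ⟨l, rfl⟩
      exacts [⟨Mo.toCover.aeval_mem _, Mo.dec_aeval _⟩, ⟨Mo.toCover.θ_mem, Mo.dec_theta⟩, hμ l])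
    x hx h0
  refine ⟨E, e1, e2, fun E' hE' => e3 E' hE'.2, e9, fun p l i => ?_⟩
  have hy : ∀ i, v (x (Mo.y i)) ≤ 1 := hx.1
  have htr : ∀ c : ℂ, v (algebraMap ℂ R c) ≤ 1 := lat_const_le hv.triv
  obtain ⟨q1, q2⟩ := Mo.pnt_hom x
  have he : pvol v M1 (fun i => x (Mo.y i)) ≤
      evol v (IntermediateField.adjoin ℂ F) fun i => x (Mo.y i) :=
    lvol_mono (bdd_LD v _ _) (fun E hE => ⟨(hM1 hE).1, fun a ha =>
      der_kill_adjoin _ _ (hMF E hE) ha⟩) _
  have he1 := evol_le_one v (IntermediateField.adjoin ℂ F) _ hy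
  have he' : evol v k2 Y' ≤ evol v (IntermediateField.adjoin ℂ F) Y' :=
    lvol_mono (bdd_LD v _ _) (LD_mono v (IntermediateField.adjoin_le_iff.2 fun a ha =>
      hsub (Or.inl (Or.inl ha)))) _
  have g1 := (hc3 p _ _ q1 hy (hP.trans_le he)).1
  obtain ⟨j, g2⟩ := (hc3 p _ _ e4 e5 ((h0.trans_le e6).trans_le he')).2
  simp only [fun l => q2 _ (hμ l).1, fun i => q2 _ (Mo.mem_A (b i).2)] at g1
  have g3 := dec_transfer (ξ := fun l => ξa (some (p, j, l))) (mul_le_one' he1 hτ1.le)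
    (u := τ ^ (M * Λ / m + 1)) (μ' := fun l => Mo.vl Y' Z' (μ l))
    ((map_pow v _ _).trans_le (dec_pow hτ0 hτ1.le (hM.trans_le hm) (le_max_right _ _)))
    (fun l => hFa.le _) (fun l => (q2 _ (hμ l).1) ▸ Mo.vl_le_one htr q1 hy (hμ l).1 (hμ l).2)
    (fun l => Mo.vl_le_one htr e4 e5 (hμ l).1 (hμ l).2) (g1 j)
    (e7 n1 μ _ (fun l => by simp) (fun l => IntermediateField.subset_adjoin _ _
      (Set.mem_insert_of_mem _ (Set.mem_insert_of_mem _ ⟨(p, j, l), by rw [hc']⟩)))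
      fun l => dec_val hτ1.le (hc1 _ _ _) (hFa.le _))
  have g4 := e7 1 (fun _ => aeval Mo.y Mo.δ0) (fun _ => 1) (fun _ => by simp)
    (fun _ => one_mem _) fun _ => by simp
  have g5 := e7 1 (fun _ => Mo.toCover.θ) (fun _ => 1) (fun _ => by simp)
    (fun _ => one_mem _) fun _ => by simp
  simp only [Finset.univ_unique, Finset.sum_singleton, one_mul] at g4 g5
  rw [g4, g5] at g2
  have hM0 : M1 ⊆ LD v ∅ := hM1.trans (LD_mono v (Set.empty_subset _))
  have g6 : v (∑ i, f p l i * Mo.vl Y' Z' (b i)) ≤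
      tv v (f p) (fun i => Mo.vl Y' Z' (b i)) (v τ ^ Λ) := le_max_of_le_left (Finset.le_sup
    (f := fun l => v (∑ i, f p l i * Mo.vl Y' Z' (b i))) (Finset.mem_univ l))
  exact (mul_le_mul_left ((e8 (f p l) (fun i => hsub (Or.inl (Or.inl (hfF p l i))))
    (hf1 p l) i).trans g6) _).trans (dec_num (he.trans he1) hτ1.le hM hm (by omega)
      (ha1 R v M1 x hv hM0 hy) (ha2 R v M1 x hv hM0 hy) he ((mul_le_mul_left g2 _).trans g3))

end Model

end Pool.Agent.MP_c0606f_ag.Klt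

end

-- part MP_c0606f_ag.Klt.Big
section

/-! Configurations of `N` points: entropies and distances. -/

namespace Pool.Agent.MP_c0606f_ag.Klt

open MvPolynomial
open scoped NNReal

theorem big_log_eq {β : Type} (T : Finset β) (f : β → ℝ≥0) (h : 0 < ∏ j ∈ T, f j) :
    ∑ j ∈ T, -Real.log (f j) = -Real.log ((∏ j ∈ T, f j : ℝ≥0) : ℝ) := by
  rw [NNReal.coe_prod, Real.log_prod, Finset.sum_neg_distrib]
  intro j hj
  exact NNReal.coe_ne_zero.2 (Finset.prod_ne_zero_iff.1 h.ne' j hj)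

theorem big_log_le {β : Type} (T : Finset β) (f : β → ℝ≥0) {a : ℝ≥0} (h0 : 0 < a)
    (h : a ≤ ∏ j ∈ T, f j) : ∑ j ∈ T, -Real.log (f j) ≤ -Real.log a := by
  rw [big_log_eq T f (h0.trans_le h), neg_le_neg_iff]
  exact Real.log_le_log (NNReal.coe_pos.2 h0) (NNReal.coe_le_coe.2 h)

theorem big_log_nonneg {a : ℝ≥0} (h : a ≤ 1) : 0 ≤ -Real.log a :=
  neg_nonneg.2 (Real.log_nonpos a.2 (NNReal.coe_le_one.2 h))

theorem big_biUnion {α β γ : Type} [DecidableEq α] [DecidableEq β] [Fintype β] (U : Finset γ)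
    (B : γ → Finset α) : U.biUnion B ×ˢ (Finset.univ : Finset β) =
      U.biUnion fun s => B s ×ˢ Finset.univ := by
  ext p
  simp

theorem big_single {α β : Type} [DecidableEq α] [DecidableEq β] [Fintype β] (U : Finset α) :
    (U.biUnion fun s => {s} ×ˢ (Finset.univ : Finset β)) = U ×ˢ Finset.univ := by
  rw [← big_biUnion, Finset.biUnion_singleton_eq_self]

theorem big_pre_all {N : ℕ} (π : Equiv.Perm (Fin N)) : pre π N = Finset.univ := by
  ext x
  simp [pre]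

theorem big_filter_all (N : ℕ) :
    Finset.univ.filter (fun j : Fin N => (j : ℕ) < N) = Finset.univ := by
  ext x
  simp

theorem big_not_pre {N : ℕ} (π : Equiv.Perm (Fin N)) (j : Fin N) : π j ∉ pre π j := by
  simp [pre]

/-- the elements killed by a set of derivations form a subfield -/
theorem big_field {R : Type} [Field R] [Algebra ℂ R] (M : Set (Derivation ℂ R R)) :
    ∃ K : Subfield R, ∀ a, a ∈ K ↔ ∀ D ∈ M, D a = 0 :=
  ⟨{ carrier := {a | ∀ D ∈ M, D a = 0}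
     mul_mem' := fun {a b} ha hb D hD => by
       rw [D.leibniz, ha D hD, hb D hD, smul_zero, smul_zero, add_zero]
     one_mem' := fun D _ => D.map_one_eq_zero
     add_mem' := fun {a b} ha hb D hD => by rw [map_add, ha D hD, hb D hD, add_zero]
     zero_mem' := fun D _ => map_zero D
     neg_mem' := fun {a} ha D hD => by rw [map_neg, ha D hD, neg_zero]
     inv_mem' := fun a ha D hD => by rw [D.leibniz_inv, ha D hD, smul_zero] },
    fun _ => Iff.rfl⟩

/-- `N` normalised points, a small parameter `τ` and fresh variables -/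
structure Big {ι L : Type} [Fintype ι] [DecidableEq ι] [Field L] [Algebra ℂ L] (Mo : Model ι L)
    (N nZ : ℕ) (R : Type) [Field R] [Algebra ℂ R] where
  v : Val R
  τ : R
  x : Fin N → L →ₐ[ℂ] R
  k0 : IntermediateField ℂ R
  ξ : Fin nZ → R
  D : Fin nZ → Derivation ℂ R R
  abh : IsAbh v
  τ_pos : 0 < v τ
  τ_lt : v τ < 1
  nrm : ∀ j, Mo.Nrm v (x j).toRingHom
  τ_mem : τ ∈ k0
  x_mem : ∀ j a, x j a ∈ k0
  fresh : Fresh v k0 ξ D
  pos : 0 < lvol v (LD v {τ}) (fun p : Fin N × ι => evD (x p.1 (Mo.y p.2))) Finset.univ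

namespace Big

variable {ι L : Type} [Fintype ι] [DecidableEq ι] [Field L] [Algebra ℂ L] {Mo : Model ι L}
  {N nZ : ℕ} {R : Type} [Field R] [Algebra ℂ R] (G : Big Mo N nZ R)

/-- the coordinates of the points as functionals on derivations -/
def ℓ (p : Fin N × ι) : Derivation ℂ R R →ₗ[R] R := evD (G.x p.1 (Mo.y p.2))

/-- derivations in `M` killing the points in `S` -/
def kl (M : Set (Derivation ℂ R R)) (S : Finset (Fin N)) : Set (Derivation ℂ R R) :=
  kill M G.ℓ (S ×ˢ Finset.univ)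

/-- `exp (-H (T))` -/
noncomputable def tv (M : Set (Derivation ℂ R R)) (T : Finset (Fin N)) : ℝ≥0 :=
  lvol G.v M G.ℓ (T ×ˢ Finset.univ)

/-- `exp (-H (x j))` -/
noncomputable def pv (M : Set (Derivation ℂ R R)) (j : Fin N) : ℝ≥0 :=
  pvol G.v M fun i => G.x j (Mo.y i)

/-- the basic lattice -/
def M0 : Set (Derivation ℂ R R) := LD G.v {G.τ}

/-- entropy of a set of points -/
noncomputable def HT (T : Finset (Fin N)) : ℝ := -Real.log (G.tv G.M0 T)

/-- total entropy -/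
noncomputable def H : ℝ := G.HT Finset.univ

/-- conditional entropy -/
noncomputable def h (j : Fin N) (S : Finset (Fin N)) : ℝ := -Real.log (G.pv (G.kl G.M0 S) j)

/-- order of `τ` -/
noncomputable def ω : ℝ := -Real.log (G.v G.τ)

/-- order of the Jacobian -/
noncomputable def ψ (j : Fin N) : ℝ := -Real.log (G.v (G.x j Mo.h))

/-- largest value at `x j` of an integral combination of the rows of `a` killing `S` -/
noncomputable def dv {ρ : Type} [Fintype ρ] (a : Fin N → ρ → R) (j : Fin N)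
    (S : Finset (Fin N)) : ℝ≥0 :=
  lvol G.v (kill (intv G.v ρ) (fun s => dotL (a s)) S) (fun s => dotL (a s)) {j}

/-- values of the sections at the points -/
def a (σ : Fin N → L) (s i : Fin N) : R := G.x s (σ i)

/-- distance of the point `j` from the span of the points in `S` -/
noncomputable def d (σ : Fin N → L) (j : Fin N) (S : Finset (Fin N)) : ℝ :=
  -Real.log (G.dv (G.a σ) j S)

variable {M : Set (Derivation ℂ R R)} {S S' T : Finset (Fin N)} {j : Fin N}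

theorem big_bdd1 (hM : M ⊆ G.M0) : Bdd1 G.v M G.ℓ :=
  (bdd1_LD G.v {G.τ} (fun p : Fin N × ι => G.x p.1 (Mo.y p.2))
    fun p => (G.nrm p.1).1 p.2).mono hM

theorem isLat_M0 : IsLat G.v G.M0 := by
  exact isLat_LD _ _

theorem isLat_kl (hM : IsLat G.v M) (S : Finset (Fin N)) : IsLat G.v (G.kl M S) := by
  exact hM.kill _ _

theorem kl_subset (M : Set (Derivation ℂ R R)) (S : Finset (Fin N)) : G.kl M S ⊆ M := by
  exact ent_kill_sub _

theorem kl_empty (M : Set (Derivation ℂ R R)) : G.kl M ∅ = M := by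
  rw [kl, Finset.empty_product, ent_kill_empty]

theorem D_mem (S : Finset (Fin N)) (z : Fin nZ) : G.D z ∈ G.kl G.M0 S := by
  have h := G.fresh.mem z
  exact ⟨⟨h.1, fun a ha => h.2 a (Set.mem_singleton_iff.1 ha ▸ G.τ_mem)⟩,
    fun p _ => h.2 _ (G.x_mem _ _)⟩

/-- `der_kill_alg`: `x j L` is algebraic over the coordinates (`Cover.alg`) -/
theorem kl_kill {D : Derivation ℂ R R} (hD : D ∈ G.kl M S) (hj : j ∈ S) (b : L) :
    D (G.x j b) = 0 := by
  refine der_kill_alg D (G.x j '' Set.range Mo.y) ?_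
    ((sub_alg_iff (G.x j) _ b).2 (Mo.toCover.alg b))
  rintro _ ⟨_, ⟨i, rfl⟩, rfl⟩
  exact hD.2 (j, i) (Finset.mem_product.2 ⟨hj, Finset.mem_univ _⟩)

/-- `lvol_map` -/
theorem tv_singleton (M : Set (Derivation ℂ R R)) (j : Fin N) : G.tv M {j} = G.pv M j := by
  rw [tv, Finset.singleton_product, lvol_map]
  rfl

theorem tv_le_one (hM : M ⊆ G.M0) (T : Finset (Fin N)) : G.tv M T ≤ 1 := by
  exact lvol_le_one (G.big_bdd1 hM) _

theorem tv_union (hM : IsLat G.v M) (hM0 : M ⊆ G.M0) (h : Disjoint S T) :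
    G.tv M (S ∪ T) = G.tv M T * G.tv (G.kl M T) S := by
  rw [tv, Finset.union_product]
  exact lvol_union hM (G.big_bdd1 hM0).bdd (Finset.disjoint_product.2 (Or.inl h))

theorem tv_anti (hM : IsLat G.v M) (hM0 : M ⊆ G.M0) (h : S ⊆ T) : G.tv M T ≤ G.tv M S := by
  rw [← Finset.sdiff_union_of_subset h, G.tv_union hM hM0 Finset.sdiff_disjoint]
  exact mul_le_of_le_one_right' (G.tv_le_one ((G.kl_subset _ _).trans hM0) _)

theorem big_prod (hM : IsLat G.v M) (hM0 : M ⊆ G.M0) (T : Finset (Fin N)) :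
    G.tv M T ≤ ∏ j ∈ T, G.pv M j := by
  rw [tv, ← big_single]
  refine (lvol_biUnion_le hM (G.big_bdd1 hM0).bdd _ (fun x y hxy =>
    Finset.disjoint_product.2 (Or.inl (Finset.disjoint_singleton.2 hxy))) T).trans_eq ?_
  exact Finset.prod_congr rfl fun j _ => G.tv_singleton M j

/-- supermodularity -/
theorem tv_le_prod (hM : IsLat G.v M) (hM0 : M ⊆ G.M0) (h : Disjoint S T) :
    G.tv M Finset.univ ≤ ∏ j ∈ T, G.pv (G.kl M S) j := by
  refine (G.tv_anti hM hM0 (Finset.subset_univ (T ∪ S))).trans ?_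
  rw [G.tv_union hM hM0 h.symm]
  exact (mul_le_of_le_one_left' (G.tv_le_one hM0 _)).trans
    (G.big_prod (G.isLat_kl hM S) ((G.kl_subset _ _).trans hM0) T)

theorem tv_le_prod_self (hM : IsLat G.v M) (hM0 : M ⊆ G.M0) (T : Finset (Fin N)) :
    G.tv M T ≤ ∏ j ∈ T, G.pv M j := by
  exact G.big_prod hM hM0 T

theorem pv_le_one (hM : M ⊆ G.M0) (j : Fin N) : G.pv M j ≤ 1 := by
  exact G.tv_singleton M j ▸ G.tv_le_one hM {j}

theorem tv_le_pv (hM : IsLat G.v M) (hM0 : M ⊆ G.M0) (hj : j ∉ S) :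
    G.tv M Finset.univ ≤ G.pv (G.kl M S) j := by
  simpa using G.tv_le_prod hM hM0 (Finset.disjoint_singleton_right.2 hj)

theorem tv_pos (T : Finset (Fin N)) : 0 < G.tv G.M0 T := by
  refine lt_of_lt_of_le ?_ (G.tv_anti G.isLat_M0 subset_rfl (Finset.subset_univ T))
  rw [tv, Finset.univ_product_univ]
  exact G.pos

theorem pv_pos (hj : j ∉ S) : 0 < G.pv (G.kl G.M0 S) j := by
  exact (G.tv_pos _).trans_le (G.tv_le_pv G.isLat_M0 subset_rfl hj)

theorem ω_pos : 0 < G.ω := by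
  exact neg_pos.2 (Real.log_neg (NNReal.coe_pos.2 G.τ_pos) (NNReal.coe_lt_one.2 G.τ_lt))

theorem h_nonneg (j : Fin N) (S : Finset (Fin N)) : 0 ≤ G.h j S := by
  exact big_log_nonneg (G.pv_le_one (G.kl_subset _ _) j)

theorem H_nonneg : 0 ≤ G.H := by
  exact big_log_nonneg (G.tv_le_one subset_rfl _)

theorem sum_h_le (h : Disjoint S T) : ∑ j ∈ T, G.h j S ≤ G.H := by
  exact big_log_le T _ (G.tv_pos _) (G.tv_le_prod G.isLat_M0 subset_rfl h)

/-- `lvol_pre` -/
theorem sum_h_pre (π : Equiv.Perm (Fin N)) : ∑ j : Fin N, G.h (π j) (pre π j) = G.H := by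
  have h1 := lvol_pre G.isLat_M0 (G.big_bdd1 subset_rfl).bdd
    (fun s : Fin N => {s} ×ˢ (Finset.univ : Finset ι)) (fun x y hxy =>
      Finset.disjoint_product.2 (Or.inl (Finset.disjoint_singleton.2 hxy))) π N
  simp only [big_single, big_pre_all, big_filter_all] at h1
  have h2 : G.tv G.M0 Finset.univ = ∏ j : Fin N, G.pv (G.kl G.M0 (pre π j)) (π j) :=
    h1.trans (Finset.prod_congr rfl fun j _ => G.tv_singleton _ _)
  rw [H, HT, h2]
  exact big_log_eq _ _ (h2 ▸ G.tv_pos _)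

/-- `lvol_biUnion_le` -/
theorem sum_HT_le {β : Type} [DecidableEq β] (B : β → Finset (Fin N))
    (hB : ∀ s s', s ≠ s' → Disjoint (B s) (B s')) (U : Finset β) :
    ∑ s ∈ U, G.HT (B s) ≤ G.H := by
  refine big_log_le U (fun s => G.tv G.M0 (B s)) (G.tv_pos _)
    ((G.tv_anti G.isLat_M0 subset_rfl (Finset.subset_univ (U.biUnion B))).trans ?_)
  rw [tv, big_biUnion]
  exact lvol_biUnion_le G.isLat_M0 (G.big_bdd1 subset_rfl).bdd _
    (fun x y hxy => Finset.disjoint_product.2 (Or.inl (hB x y hxy))) U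

/-- `pl_margin` and supermodularity -/
theorem margin [IsAlgClosed R] {ε0 : ℚ} (h0 : 0 ≤ ε0) (hM : Mo.Hyp Mo.h ε0) :
    (1 + (ε0 : ℝ)) * ∑ j, G.ψ j ≤ G.H := by
  have h1 := big_log_le Finset.univ (fun j => G.v (G.x j Mo.h) ^ (1 + (ε0 : ℝ))) (G.tv_pos _)
    ((G.big_prod G.isLat_M0 subset_rfl Finset.univ).trans (Finset.prod_le_prod' fun j _ =>
      Mo.pl_margin h0 hM G.abh G.τ_pos G.τ_lt (G.x j) (G.nrm j)))
  refine le_of_eq_of_le ?_ h1
  rw [Finset.mul_sum]
  refine Finset.sum_congr rfl fun j _ => ?_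
  rw [NNReal.coe_rpow, Real.log_rpow (NNReal.coe_pos.2 ((Valuation.pos_iff _).2
    ((map_ne_zero (G.x j)).2 Mo.h_ne))), ψ, mul_neg]

end Big

/-- Linear bound for distances, for the sections `∑ E i l * σ l`.  `exists_ker` (with `r = 1`) over
the subfield of elements killed by all derivations in `kl M S` gives a primitive `g` killing `S`;
`g ᵥ* E` is primitive because `E` is `RI`; `pl_lm` and `le_lvol_singleton`. -/
theorem Model.dv_lm {ι L : Type} [Fintype ι] [DecidableEq ι] [Field L] [Algebra ℂ L]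
    (Mo : Model ι L) : ∃ C1 : ℕ, ∀ (m N nZ : ℕ) (R : Type) [Field R] [Algebra ℂ R] [IsAlgClosed R]
      (G : Big Mo N nZ R) (σ : Fin N → L), (∀ i, σ i ∈ Mo.V m) → LinearIndependent ℂ σ →
      ∀ (ρ : Type) [Fintype ρ] (E : ρ → Fin N → R) (M : Set (Derivation ℂ R R)), RI G.v E →
        M ⊆ G.M0 → (∀ D ∈ M, ∀ i l, D (E i l) = 0) → ∀ (S : Finset (Fin N)) (j : Fin N),
        S.card < Fintype.card ρ → G.pv (G.kl M S) j ^ (C1 * (m + 1)) ≤
          G.dv (fun s i => ∑ l, E i l * G.a σ s l) j S := by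
  obtain ⟨C1, H⟩ := Mo.pl_lm
  refine ⟨C1, fun m N nZ R _ _ _ G σ hσ hl ρ _ E M hE hM hD S j hS => ?_⟩
  obtain ⟨K, hK⟩ := big_field (G.kl M S)
  have hEK : ∀ i l, E i l ∈ K := fun i l => (hK _).2 fun D h => hD D (G.kl_subset _ _ h) i l
  obtain ⟨f, h1, h2, h3⟩ := exists_ker G.v K S (fun s i => ∑ l, E i l * G.a σ s l)
    (fun s hs i => K.sum_mem fun l _ => K.mul_mem (hEK i l)
      ((hK _).2 fun D h => G.kl_kill h hs _)) 1 hS
  have h4 : ∀ l, G.v (∑ i, f 0 i * E i l) ≤ 1 := fun l => ker_sum_le (h2.1 0) fun i => hE.1 i l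
  have h5 : ∃ l, G.v (∑ i, f 0 i * E i l) = 1 := by
    by_contra h
    obtain ⟨i, hi⟩ := h2.exists_unit 0
    exact (hE.2 (f 0) (h2.1 0) (fun l => lt_of_le_of_ne (h4 l) fun h' => h ⟨l, h'⟩) i).ne hi
  refine (H m (Fin N) σ hσ hl R G.v G.τ (G.kl M S) (G.x j) (fun l => ∑ i, f 0 i * E i l) G.abh
    G.τ_pos G.τ_lt ((G.kl_subset _ _).trans hM) (G.nrm j).1
    (fun l => (hK _).1 (K.sum_mem fun i _ => K.mul_mem (h1 0 i) (hEK i l))) h4 h5).trans ?_
  refine le_of_eq_of_le ?_ (le_lvol_singleton ((bdd_intv _).mono (ent_kill_sub _)) j (e := f 0)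
    ⟨h2.1 0, h3 0⟩)
  congr 1
  simp only [dotL_apply, Finset.sum_mul, Finset.mul_sum, mul_assoc, Big.a]
  exact Finset.sum_comm

namespace Big

variable {ι L : Type} [Fintype ι] [DecidableEq ι] [Field L] [Algebra ℂ L] {Mo : Model ι L}
  {N nZ : ℕ} {R : Type} [Field R] [Algebra ℂ R] [IsAlgClosed R] (G : Big Mo N nZ R) {m : ℕ}
  {σ : Fin N → L} {S S' : Finset (Fin N)} {j : Fin N}

omit [IsAlgClosed R] in
theorem a_le (hσ : ∀ i, σ i ∈ Mo.V m) (s i : Fin N) : G.v (G.a σ s i) ≤ 1 := by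
  exact val_le_one_of_integral (v := G.v.comap (G.x s).toRingHom)
    (fun c => (congrArg G.v ((G.x s).commutes c)).trans_le (lat_const_le G.abh.triv c)) (G.nrm s).1
    (Mo.int m _ (hσ i))

/-- `dv_lm` with the identity matrix -/
theorem dv_pos (hσ : ∀ i, σ i ∈ Mo.V m) (hl : LinearIndependent ℂ σ) (hj : j ∉ S) :
    0 < G.dv (G.a σ) j S := by
  obtain ⟨C1, H⟩ := Mo.dv_lm
  have h1 := H m N nZ R G σ hσ hl (Fin N) (fun i l => if i = l then 1 else 0) G.M0
    ⟨fun i l => by by_cases h : i = l <;> simp [h], fun γ _ h l => by simpa using h l⟩ subset_rfl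
    (fun D _ i l => by split_ifs <;> simp) S j
    (Finset.card_lt_univ_of_notMem hj)
  simp only [ite_mul, one_mul, zero_mul, Finset.sum_ite_eq, Finset.mem_univ, if_true] at h1
  exact (pow_pos (G.pv_pos hj) _).trans_le h1

omit [IsAlgClosed R] in
theorem d_nonneg (hσ : ∀ i, σ i ∈ Mo.V m) (j : Fin N) (S : Finset (Fin N)) : 0 ≤ G.d σ j S := by
  exact big_log_nonneg (lvol_le_one ((bdd1_intv _ (G.a_le hσ)).mono (ent_kill_sub _)) _)

theorem d_mono (hσ : ∀ i, σ i ∈ Mo.V m) (hl : LinearIndependent ℂ σ) (h : S ⊆ S') (hj : j ∉ S') :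
    G.d σ j S ≤ G.d σ j S' := by
  refine neg_le_neg (Real.log_le_log (NNReal.coe_pos.2 (G.dv_pos hσ hl hj))
    (NNReal.coe_le_coe.2 ?_))
  exact lvol_mono ((bdd_intv _).mono (ent_kill_sub _))
    (fun e he => ⟨he.1, fun s hs => he.2 s (h hs)⟩) _

/-- `lvol_intv`, `lvol_pre` with singletons -/
theorem det_eq (hσ : ∀ i, σ i ∈ Mo.V m) (hl : LinearIndependent ℂ σ) (π : Equiv.Perm (Fin N)) :
    0 < G.v (Matrix.of fun i j => G.x j (σ i)).det ∧
      -Real.log (G.v (Matrix.of fun i j => G.x j (σ i)).det) =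
        ∑ j : Fin N, G.d σ (π j) (pre π j) := by
  have h1 := lvol_pre (isLat_intv G.v (Fin N)) (bdd_intv (G.a σ)) (fun s : Fin N => {s})
    (fun x y hxy => Finset.disjoint_singleton.2 hxy) π N
  simp only [Finset.biUnion_singleton_eq_self, big_pre_all, big_filter_all, lvol_intv] at h1
  have h2 : G.v (Matrix.of fun i j => G.x j (σ i)).det =
      ∏ j : Fin N, G.dv (G.a σ) (π j) (pre π j) := by
    rw [← Matrix.det_transpose]
    exact h1
  have h3 : 0 < ∏ j : Fin N, G.dv (G.a σ) (π j) (pre π j) :=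
    Finset.prod_pos fun j _ => G.dv_pos hσ hl (big_not_pre π j)
  rw [h2]
  exact ⟨h3, (big_log_eq _ _ h3).symm⟩

omit [IsAlgClosed R] in
/-- kernel vectors: `exists_ker` over the subfield of the elements of `k0` killed by `kl M0 S'` -/
theorem exists_kernel (hσ : ∀ i, σ i ∈ Mo.V m) (h : S ⊆ S') :
    ∃ f : Fin (N - S.card) → Fin N → R, RI G.v f ∧ (∀ l i, f l i ∈ G.k0) ∧
      (∀ D ∈ G.kl G.M0 S', ∀ l i, D (f l i) = 0) ∧ (∀ l, ∀ s ∈ S, ∑ i, f l i * G.a σ s i = 0) ∧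
      ∀ j, (Finset.univ.sup fun l => G.v (∑ i, f l i * G.a σ j i)) ≤ G.dv (G.a σ) j S := by
  have _ := hσ
  obtain ⟨K, hK⟩ := big_field (G.kl G.M0 S')
  obtain ⟨f, h1, h2, h3⟩ := exists_ker G.v (G.k0.toSubfield ⊓ K) S (G.a σ)
    (fun s hs i => ⟨G.x_mem _ _, (hK _).2 fun D hD => G.kl_kill hD (h hs) _⟩) (N - S.card)
    (by have := S.card_le_univ; rw [Fintype.card_fin] at *; omega)
  refine ⟨f, h2, fun l i => (h1 l i).1, fun D hD l i => (hK _).1 (h1 l i).2 D hD, h3,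
    fun j => Finset.sup_le fun l _ => ?_⟩
  exact le_lvol_singleton ((bdd_intv (G.a σ)).mono (ent_kill_sub _)) j (e := f l) ⟨h2.1 l, h3 l⟩

end Big

end Pool.Agent.MP_c0606f_ag.Klt

end

-- part MP_c0606f_ag.Klt.T2
section

/-! Large distances are rare. -/

namespace Pool.Agent.MP_c0606f_ag.Klt

open MvPolynomial
open scoped NNReal

section General

variable {R : Type} [Field R] [Algebra ℂ R]

/-- the elements killed by all derivations in `M` -/
def t2_fix (M : Set (Derivation ℂ R R)) : Subfield R where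
  carrier := {a | ∀ D ∈ M, D a = 0}
  mul_mem' := fun {a b} ha hb D hD => by
    rw [Derivation.leibniz, ha D hD, hb D hD, smul_zero, smul_zero, add_zero]
  one_mem' := fun D _ => D.map_one_eq_zero
  add_mem' := fun {a b} ha hb D hD => by rw [map_add, ha D hD, hb D hD, add_zero]
  zero_mem' := fun D _ => map_zero D
  neg_mem' := fun {a} ha D hD => by rw [map_neg, ha D hD, neg_zero]
  inv_mem' := fun a ha D hD => by rw [Derivation.leibniz_inv, ha D hD, smul_zero]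

omit [Algebra ℂ R] in
theorem t2_unit {v : Val R} {N : ℕ} {E : Matrix (Fin N) (Fin N) R} (hd : v E.det = 1) :
    IsUnit E.det := by
  rw [isUnit_iff_ne_zero]
  intro h0
  rw [h0] at hd
  simp at hd

theorem t2_inv_kill {N : ℕ} {E : Matrix (Fin N) (Fin N) R} (hu : IsUnit E.det)
    (D : Derivation ℂ R R) (hD : ∀ i j, D (E i j) = 0) (i j : Fin N) : D (E⁻¹ i j) = 0 := by
  have h1 : E * (Matrix.of fun i j => D (E⁻¹ i j)) = 0 := by
    ext a c
    have h2 := congrArg D (congrFun (congrFun (Matrix.mul_nonsing_inv E hu) a) c)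
    rw [Matrix.mul_apply, map_sum] at h2
    simp only [Derivation.leibniz, hD, mul_zero, add_zero, smul_eq_mul] at h2
    rw [Matrix.mul_apply, Matrix.zero_apply]
    simp only [Matrix.of_apply]
    rw [h2, Matrix.one_apply]
    split_ifs
    · exact D.map_one_eq_zero
    · exact map_zero D
  have h3 : (Matrix.of fun i j => D (E⁻¹ i j)) = 0 := by
    rw [← Matrix.one_mul (Matrix.of fun i j => D (E⁻¹ i j)), ← Matrix.nonsing_inv_mul E hu,
      Matrix.mul_assoc, h1, Matrix.mul_zero]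
  exact congrFun (congrFun h3 i) j

omit [Algebra ℂ R] in
theorem t2_cancel {N : ℕ} {E : Matrix (Fin N) (Fin N) R} (hu : IsUnit E.det) (f a : Fin N → R) :
    ∑ i, (∑ j, f j * E⁻¹ j i) * ∑ j, E i j * a j = ∑ j, f j * a j := by
  change (Matrix.vecMul f E⁻¹) ⬝ᵥ (Matrix.mulVec E a) = f ⬝ᵥ a
  rw [Matrix.dotProduct_mulVec, Matrix.vecMul_vecMul, Matrix.nonsing_inv_mul E hu,
    Matrix.vecMul_one]

omit [Algebra ℂ R] in
theorem t2_rows {v : Val R} {N : ℕ} {E : Matrix (Fin N) (Fin N) R} (hE : ∀ i j, v (E i j) ≤ 1)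
    (hd : v E.det = 1) (J : Finset (Fin N)) : RI v fun (i : J) l => E i l := by
  have h1 : RI v fun (i : J) (j : Fin N) => if (i : Fin N) = j then (1 : R) else 0 := by
    refine ⟨fun i j => by dsimp only; split_ifs <;> simp, fun γ _ h l => ?_⟩
    have h2 := h l
    dsimp only at h2
    rw [Finset.sum_eq_single l (fun i _ hi => by
      rw [if_neg fun h3 => hi (Subtype.ext h3), mul_zero]) (by simp), if_pos rfl, mul_one] at h2
    exact h2
  simpa using h1.mul E hE hd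

theorem t2_arith {a b c n M m q w d h H ω Λ K X : ℝ} (ha : 0 ≤ a) (hb : 0 ≤ b) (hc : 0 ≤ c)
    (hn : 0 ≤ n) (hM : 1 ≤ M) (hm : M ≤ m) (hq : 0 < q) (hw : 0 ≤ w) (hd : 0 ≤ d) (hh : 0 ≤ h)
    (hH : 0 ≤ H) (hω : 0 ≤ ω) (hΛ : Λ * ω ≤ d + ω) (hK : K * m ≤ M * Λ + m)
    (hqn : (4 * b + 2 * a + 2 * c + 2) * n * M ≤ q)
    (h1 : d = X + a * (w + 1) * h + c * m / M * (h + ω))
    (h2 : X ≤ 0 ∨ q * X ≤ b * (m + 1) * (H + n * K * ω)) :
    d ≤ (4 * b + 2 * a + 2 * c + 2) * (m / M + w + 1) * h +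
      (4 * b + 2 * a + 2 * c + 2) * m / q * H + (4 * b + 2 * a + 2 * c + 2) * m * ω := by
  have hM0 : 0 < M := by linarith
  have hm1 : 1 ≤ m := by linarith
  have hm0 : 0 < m := by linarith
  set r := m / M with hr
  have hr0 : 0 ≤ r := by positivity
  have hrm : r ≤ m := div_le_self hm0.le hM
  set s := m / q * H with hs
  have hs0 : 0 ≤ s := by positivity
  have e1 : c * m / M = c * r := by rw [hr]; ring
  have e2 : (4 * b + 2 * a + 2 * c + 2) * m / q * H = (4 * b + 2 * a + 2 * c + 2) * s := by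
    rw [hs]; ring
  have h3 : 2 * X ≤ 4 * b * s + d + ω + m * ω := by
    rcases h2 with h2 | h2
    · have : 0 ≤ b * s := by positivity
      have : 0 ≤ m * ω := by positivity
      linarith
    · have hb4 : 4 * b * n * M ≤ q := by
        have : 0 ≤ (2 * a + 2 * c + 2) * n * M := by positivity
        linarith
      have hb5 : 4 * b * n ≤ q := by
        have : 4 * b * n * 1 ≤ 4 * b * n * M := by gcongr
        linarith
      have h4 : K * ω * m ≤ M * (d + ω) + m * ω := by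
        have h5 : K * m * ω ≤ (M * Λ + m) * ω := by gcongr
        have h6 : M * (Λ * ω) ≤ M * (d + ω) := by gcongr
        linarith
      have h7 : b * (m + 1) * (H + n * K * ω) ≤ b * (2 * m) * (H + n * K * ω) ∨
          b * (m + 1) * (H + n * K * ω) ≤ 0 := by
        rcases le_total 0 (H + n * K * ω) with h8 | h8
        · left
          gcongr
          linarith
        · right
          exact mul_nonpos_of_nonneg_of_nonpos (by positivity) h8
      have hqs : q * s = m * H := by rw [hs]; field_simp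
      refine le_of_mul_le_mul_left ?_ hq
      have h9 : 4 * b * n * (K * ω * m) ≤ 4 * b * n * (M * (d + ω) + m * ω) := by gcongr
      have h10 : 4 * b * n * M * (d + ω) ≤ q * (d + ω) := by gcongr
      have h11 : 4 * b * n * (m * ω) ≤ q * (m * ω) := by gcongr
      have h12 : q * (4 * b * s + d + ω + m * ω) =
          4 * b * (m * H) + q * (d + ω) + q * (m * ω) := by rw [← hqs]; ring
      rw [h12]
      rcases h7 with h7 | h7
      · linarith
      · have : 0 ≤ b * (m * H) := by positivity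
        have : 0 ≤ q * (d + ω) := by positivity
        have : 0 ≤ q * (m * ω) := by positivity
        linarith
  rw [e1] at h1
  rw [e2]
  have p1 : c * (r * ω) ≤ c * (m * ω) := by gcongr
  have p2 : ω ≤ m * ω := le_mul_of_one_le_left hω hm1
  have p3 : 0 ≤ (4 * b + 2 * a + 2) * r * h := by positivity
  have p4 : 0 ≤ (4 * b + 2 * c + 2) * (w + 1) * h := by positivity
  have p5 : 0 ≤ (2 * a + 2 * c + 2) * s := by positivity
  have p6 : 0 ≤ (4 * b + 2 * a) * (m * ω) := by positivity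
  linarith

end General

namespace Model

variable {ι L : Type} [Fintype ι] [DecidableEq ι] [Field L] [Algebra ℂ L] (Mo : Model ι L)

theorem mul_pow_mem {m' : ℕ} (i : ι) (l : ℕ) {a : L} (ha : a ∈ Mo.V m') :
    a * Mo.y i ^ l ∈ Mo.V (m' + Mo.r * l) := by
  induction l with
  | zero => simpa using ha
  | succ l ih =>
    rw [pow_succ, ← mul_assoc, Nat.mul_succ, ← add_assoc]
    exact Mo.mul _ i _ ih

/-- Many basis vectors are large.  Let `i0` with `v (x (y i0)) = 1`, `u s` a basis of `V m'`,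
`u s * y i0 ^ l = ∑ γ s j • b j`.  If `I` had fewer than `q` elements, there would be a primitive
vector `c` over the subfield killed by `M` (`exists_ker` with `r = 1`) such that
`g = c ᵥ* γ ᵥ* E⁻¹` vanishes on `I` (`M` kills `E⁻¹`).  `g` is integral (`inv_int`), so
`v (∑ g i * e i (x)) < pvol ^ (C1 * (m' + 1))`; but this sum is `(∑ c s * x (u s)) * x (y i0) ^ l`,
contradicting `pl_lm` in degree `m'`. -/
theorem low : ∃ C1 : ℕ, ∀ (m' l N : ℕ) (b : Module.Basis (Fin N) ℂ (Mo.V (m' + Mo.r * l)))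
    (R : Type) [Field R] [Algebra ℂ R] [IsAlgClosed R] (v : Val R) (τ : R)
    (M : Set (Derivation ℂ R R)) (x : L →ₐ[ℂ] R) (E : Matrix (Fin N) (Fin N) R), IsAbh v →
    0 < v τ → v τ < 1 → M ⊆ LD v {τ} → Mo.Nrm v x.toRingHom →
    0 < pvol v M (fun i => x (Mo.y i)) → (∀ i j, v (E i j) ≤ 1) →
    v E.det = 1 → (∀ D ∈ M, ∀ i j, D (E i j) = 0) →
    Module.finrank ℂ (Mo.V m') ≤ (Finset.univ.filter fun i =>
      pvol v M (fun i => x (Mo.y i)) ^ (C1 * (m' + 1)) ≤ v (∑ j, E i j * x (b j))).card := by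
  obtain ⟨C1, hC⟩ := Mo.pl_lm
  refine ⟨C1, fun m' l N b R _ _ _ v τ M x E hv h0 h1 hM hx hp hE hd hD => ?_⟩
  by_contra hlt
  push Not at hlt
  set P := pvol v M (fun i => x (Mo.y i)) ^ (C1 * (m' + 1)) with hP
  set I := Finset.univ.filter fun i => P ≤ v (∑ j, E i j * x (b j)) with hI
  have := Mo.fin m'
  let u := Module.finBasis ℂ (Mo.V m')
  obtain ⟨i0, hi0⟩ := hx.2
  have hi1 : v (x (Mo.y i0)) = 1 := hi0
  let γ : Fin (Module.finrank ℂ (Mo.V m')) → Fin N → R := fun s j =>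
    algebraMap ℂ R (b.repr ⟨u s * Mo.y i0 ^ l, Mo.mul_pow_mem i0 l (u s).2⟩ j)
  have hγ : ∀ s, ∑ j, γ s j * x (b j) = x (u s) * x (Mo.y i0) ^ l := fun s => by
    have h2 := congrArg (fun a : Mo.V (m' + Mo.r * l) => x (a : L))
      (b.sum_repr ⟨u s * Mo.y i0 ^ l, Mo.mul_pow_mem i0 l (u s).2⟩)
    simp only [Submodule.coe_sum, Submodule.coe_smul, map_sum, map_smul, map_mul, map_pow] at h2
    rw [← h2]
    exact Finset.sum_congr rfl fun j _ => (Algebra.smul_def _ _).symm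
  have hu := t2_unit hd
  obtain ⟨c, hck, hc, hc0⟩ := exists_ker v (t2_fix M) I (fun i s => ∑ j, γ s j * E⁻¹ j i)
    (fun i _ s => sum_mem fun j _ => mul_mem (fun D _ => D.map_algebraMap _)
      fun D hD' => t2_inv_kill hu D (hD D hD') j i) 1 (by rw [Fintype.card_fin]; omega)
  have h3 := hC m' _ (fun s => (u s : L)) (fun s => (u s).2)
    (u.linearIndependent.map' (Mo.V m').subtype (Submodule.ker_subtype _)) R v τ M x (c 0) hv h0 h1
    hM hx.1 (fun s D hD' => hck 0 s D hD') (hc.1 0) (hc.exists_unit 0)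
  have h4 : ∑ i, (∑ s, c 0 s * ∑ j, γ s j * E⁻¹ j i) * ∑ j, E i j * x (b j) =
      (∑ s, c 0 s * x (u s)) * x (Mo.y i0) ^ l := by
    rw [Finset.sum_congr rfl fun i _ => Finset.sum_mul _ _ _, Finset.sum_comm, Finset.sum_mul]
    refine Finset.sum_congr rfl fun s _ => ?_
    rw [mul_assoc, ← hγ, ← t2_cancel hu (γ s), Finset.mul_sum]
    exact Finset.sum_congr rfl fun i _ => mul_assoc _ _ _
  have hP0 : 0 < P := pow_pos hp _
  have h5 : v (∑ i, (∑ s, c 0 s * ∑ j, γ s j * E⁻¹ j i) * ∑ j, E i j * x (b j)) < P := by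
    refine v.map_sum_lt hP0.ne' fun i _ => ?_
    by_cases hi : i ∈ I
    · rw [hc0 0 i hi, zero_mul, map_zero]
      exact hP0
    · rw [map_mul]
      have h6 : v (∑ j, E i j * x (b j)) < P := by simpa [hI] using hi
      refine lt_of_le_of_lt (mul_le_of_le_one_left' ?_) h6
      exact ker_sum_le (hc.1 0) fun s =>
        ker_sum_le (fun j => lat_const_le hv.triv _) fun j => (inv_int E hE hd).1 j i
  rw [h4, map_mul, map_pow, hi1, one_pow, mul_one] at h5
  exact absurd h3 (not_le.2 h5)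

/-- Pivoting.  `f' = f ᵥ* E⁻¹` is `RI` (`RI.mul`, `inv_int`) and small on `I`, so its restriction to
`Iᶜ` is `RI` (`RI.restrict`) and `I.card ≤ S.card` (`RI.card_le`).  With
`a' s i = ∑ E i j * a s j` for `i ∈ Iᶜ` we have `v (∑ i ∈ Iᶜ, f' l i * a' s i) ≤ ν` for `s ∈ S`.
Choose `S' ⊆ S` of size `S.card - I.card` with maximal volume; it is positive by induction with
`lvol_insert`/`lvol_union`, `dv_lm` (the rows of `E` in `Iᶜ` are `RI`: rows of an invertible
matrix) and `tv_le_pv`.  `lvol_pivot` gives `dv a' s S' ≤ ν` for the `I.card` points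
`s ∈ S \ S'`; by `tv_le_prod` one of them has `tv M univ ≤ pv (kl M S') s ^ I.card`; `dv_lm`. -/
theorem pivot : ∃ C1 : ℕ, ∀ (m N nZ : ℕ) (R : Type) [Field R] [Algebra ℂ R] [IsAlgClosed R]
    (G : Big Mo N nZ R) (σ : Fin N → L), (∀ i, σ i ∈ Mo.V m) → LinearIndependent ℂ σ →
    ∀ (S : Finset (Fin N)) (f : Fin (N - S.card) → Fin N → R) (E : Matrix (Fin N) (Fin N) R)
      (M : Set (Derivation ℂ R R)) (I : Finset (Fin N)) (ν : ℝ≥0), S.card < N → RI G.v f →
      (∀ l, ∀ s ∈ S, ∑ i, f l i * G.a σ s i = 0) → (∀ i j, G.v (E i j) ≤ 1) → G.v E.det = 1 →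
      IsLat G.v M → M ⊆ G.M0 → (∀ D ∈ M, ∀ i j, D (E i j) = 0) → 0 < G.tv M Finset.univ →
      I.Nonempty → ν < 1 → (∀ l, ∀ i ∈ I, G.v (∑ j, f l j * E⁻¹ j i) ≤ ν) →
      G.tv M Finset.univ ^ (C1 * (m + 1)) ≤ ν ^ I.card := by
  obtain ⟨C1, hC⟩ := Mo.dv_lm
  refine ⟨C1, fun m N nZ R _ _ _ G σ hσ hl S f E M I ν hS hf hfS hE hd hM hM0 hD h0 hI hν hs => ?_⟩
  have hinv := inv_int E hE hd
  have hu := t2_unit hd
  have hf' := hf.mul E⁻¹ hinv.1 hinv.2
  have hsm : ∀ l i, i ∉ Iᶜ → G.v (∑ j, f l j * E⁻¹ j i) < 1 := fun l i hi =>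
    (hs l i (by simpa using hi)).trans_lt hν
  have hc := hf'.card_le Iᶜ hsm
  have hr := hf'.restrict Iᶜ hsm
  have hcc : Fintype.card (Iᶜ : Finset (Fin N)) = N - I.card := by
    rw [Fintype.card_coe, Finset.card_compl, Fintype.card_fin]
  rw [Fintype.card_fin, Finset.card_compl, Fintype.card_fin] at hc
  have hI0 : 0 < I.card := hI.card_pos
  have ha1 : ∀ s i, G.v (∑ l, E i l * G.a σ s l) ≤ 1 := fun s i =>
    ker_sum_le (hE i) fun l => G.a_le hσ s l
  let a' : Fin N → (Iᶜ : Finset (Fin N)) → R := fun s i => ∑ l, E i l * G.a σ s l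
  have hdv : ∀ (T : Finset (Fin N)) (j : Fin N), T.card < N - I.card →
      G.pv (G.kl M T) j ^ (C1 * (m + 1)) ≤ G.dv a' j T := fun T j hT =>
    hC m N nZ R G σ hσ hl (Iᶜ : Finset (Fin N)) (fun i l => E i l) M (t2_rows hE hd Iᶜ) hM0
      (fun D hD' i l => hD D hD' i l) T j (by rwa [hcc])
  have hpos : ∀ T : Finset (Fin N), T.card ≤ N - I.card →
      0 < lvol G.v (intv G.v (Iᶜ : Finset (Fin N))) (fun s => dotL (a' s)) T := by
    intro T
    induction T using Finset.induction_on with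
    | empty => intro _; rw [lvol_empty]; exact one_pos
    | insert j T hj ih =>
      intro hT
      rw [Finset.card_insert_of_notMem hj] at hT
      rw [Finset.insert_eq, lvol_union (isLat_intv _ _) (bdd_intv a') (by simpa using hj)]
      exact mul_pos (ih (by omega)) (lt_of_lt_of_le
        (pow_pos (h0.trans_le (G.tv_le_pv hM hM0 hj)) _) (hdv T j (by omega)))
  obtain ⟨S', hS', hmax⟩ := Finset.exists_max_image (S.powersetCard (S.card - I.card))
    (fun T => lvol G.v (intv G.v (Iᶜ : Finset (Fin N))) (fun s => dotL (a' s)) T)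
    (Finset.powersetCard_nonempty.2 (Nat.sub_le _ _))
  rw [Finset.mem_powersetCard] at hS'
  have hμ : ∀ l, ∀ s ∈ S,
      G.v (∑ i : (Iᶜ : Finset (Fin N)), (∑ j, f l j * E⁻¹ j i) * a' s i) ≤ ν := by
    intro l s hs'
    have h2 := t2_cancel hu (f l) (G.a σ s)
    rw [hfS l s hs', ← Finset.sum_add_sum_compl I, add_eq_zero_iff_neg_eq] at h2
    have h3 : ∑ i : (Iᶜ : Finset (Fin N)), (∑ j, f l j * E⁻¹ j i) * a' s i =
        ∑ i ∈ Iᶜ, (∑ j, f l j * E⁻¹ j i) * ∑ j, E i j * G.a σ s j :=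
      Finset.sum_coe_sort Iᶜ fun i => (∑ j, f l j * E⁻¹ j i) * ∑ j, E i j * G.a σ s j
    rw [h3, ← h2, Valuation.map_neg]
    refine G.v.map_sum_le fun i hi => ?_
    rw [map_mul]
    exact (mul_le_mul' (hs l i hi) (ha1 s i)).trans_eq (mul_one ν)
  have hpiv : ∀ s ∈ S \ S', G.dv a' s S' ≤ ν := fun s hs' =>
    lvol_pivot a' (fun s i => ha1 s i) S _ hr hμ S' hS'.1
      (by rw [hcc, Fintype.card_fin, hS'.2]; omega)
      (fun T hT hT' => hmax T (Finset.mem_powersetCard.2 ⟨hT, hT'.trans hS'.2⟩))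
      (hpos S' (by rw [hS'.2]; omega)) (Finset.mem_sdiff.1 hs').1 (Finset.mem_sdiff.1 hs').2
  calc G.tv M Finset.univ ^ (C1 * (m + 1))
      ≤ (∏ j ∈ S \ S', G.pv (G.kl M S') j) ^ (C1 * (m + 1)) :=
        pow_le_pow_left' (G.tv_le_prod hM hM0 Finset.disjoint_sdiff) _
    _ = ∏ j ∈ S \ S', G.pv (G.kl M S') j ^ (C1 * (m + 1)) := (Finset.prod_pow _ _ _).symm
    _ ≤ ∏ _j ∈ S \ S', ν := Finset.prod_le_prod' fun j hj =>
        (hdv S' j (by rw [hS'.2]; omega)).trans (hpiv j hj)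
    _ = ν ^ I.card := by
        rw [Finset.prod_const, Finset.card_sdiff_of_subset hS'.1, hS'.2]
        congr 1
        omega

/-- Let `f` be given by `exists_kernel`, `Λ` minimal with `v τ ^ Λ ≤ dv` (so `Λ * ω ≤ d + ω`), and
apply `dec` with `g = 1`, `M1 = kl M0 S`.  Let `a0 = pv M' j ^ (C1 * (m' + 1)) ≥
pv (kl M0 S) j ^ (C1 * (m' + 1))`, `I` from `low`, `err = (pv (kl M0 S) j * v τ) ^ (C2 m / M)`,
`ν = dv / (a0 * err)`.  If `1 ≤ ν` the claim is clear.  Otherwise `pivot` gives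
`q * (-log ν) ≤ C (m + 1) (H + n2 (M Λ / m + 1) ω)`, and `2 C n2 M / q ≤ 1 / 2` allows to absorb
`d / 2`. -/
theorem t2 : ∃ C3 : ℕ, ∀ M : ℕ, 0 < M → ∃ n2 : ℕ, ∀ m' l, M ≤ m' + Mo.r * l → C3 ≤ m' + Mo.r * l →
    0 < Module.finrank ℂ (Mo.V m') → C3 * n2 * M ≤ Module.finrank ℂ (Mo.V m') →
    ∀ (N : ℕ) (b : Module.Basis (Fin N) ℂ (Mo.V (m' + Mo.r * l))) (nZ : ℕ) (R : Type) [Field R]
      [Algebra ℂ R] [IsAlgClosed R] (G : Big Mo N nZ R), n2 + Fintype.card ι + 1 ≤ nZ →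
      ∀ (S : Finset (Fin N)) (j : Fin N), j ∉ S → G.d (fun i => (b i : L)) j S ≤
        C3 * (((m' + Mo.r * l : ℕ) : ℝ) / M + m' + 1) * G.h j S +
          C3 * ((m' + Mo.r * l : ℕ) : ℝ) / Module.finrank ℂ (Mo.V m') * G.H +
          C3 * ((m' + Mo.r * l : ℕ) : ℝ) * G.ω := by
  obtain ⟨a, ha⟩ := Mo.low
  obtain ⟨b', hb'⟩ := Mo.pivot
  obtain ⟨c, hc⟩ := Mo.dec
  refine ⟨4 * b' + 2 * a + 2 * c + 2, fun M hM => ?_⟩
  obtain ⟨n2, hn⟩ := hc M hM
  refine ⟨n2, fun m' l hMm hCm hq hqn N b nZ R _ _ _ G hZ S j hj => ?_⟩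
  have hσ : ∀ i, (b i : L) ∈ Mo.V (m' + Mo.r * l) := fun i => (b i).2
  have hl : LinearIndependent ℂ fun i => (b i : L) :=
    b.linearIndependent.map' (Mo.V _).subtype (Submodule.ker_subtype _)
  obtain ⟨f, hf, hfk, hfD, hfS, hfd⟩ := G.exists_kernel hσ (Finset.Subset.refl S)
  have hdv := G.dv_pos hσ hl hj
  have hd0 := G.d_nonneg hσ j S
  set dv := G.dv (G.a fun i => (b i : L)) j S with hdv'
  have hex : ∃ Λ : ℕ, G.v G.τ ^ Λ ≤ dv :=
    (exists_pow_lt_of_lt_one hdv G.τ_lt).imp fun _ h => h.le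
  have hτ : (0 : ℝ) < G.v G.τ := G.τ_pos
  have hΛ : (Nat.find hex : ℝ) * G.ω ≤ G.d (fun i => (b i : L)) j S + G.ω := by
    rcases Nat.eq_zero_or_pos (Nat.find hex) with h0 | h0
    · rw [h0, Nat.cast_zero, zero_mul]
      exact add_nonneg hd0 G.ω_pos.le
    · have h1 : (dv : ℝ) ≤ (G.v G.τ : ℝ) ^ (Nat.find hex - 1) := by
        exact_mod_cast (not_le.1 (Nat.find_min hex (Nat.sub_lt h0 one_pos))).le
      have h2 := Real.log_le_log (by exact_mod_cast hdv) h1
      rw [Real.log_pow, Nat.cast_pred h0] at h2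
      unfold Big.d Big.ω
      linarith
  have hΛ1 := Nat.find_spec hex
  generalize Nat.find hex = Λ at hΛ hΛ1
  obtain ⟨M', hM', hM0, hcmp, hpt⟩ := hn _ hMm (by omega) N b R G.v G.τ G.k0 nZ G.ξ G.D 1
    (fun _ => N - S.card) (fun _ => f) (G.kl G.M0 S) Λ G.abh G.τ_pos G.τ_lt G.τ_mem G.fresh
    (by omega) (fun _ => hfk) (fun _ => hf.1) (G.isLat_kl G.isLat_M0 S) (G.kl_subset _ S)
    (G.D_mem S) fun D hD _ => hfD D hD
  have hp1 := G.pv_pos hj
  obtain ⟨E, hE, hd, hED, -, hest⟩ := hpt (G.x j) (G.x_mem j) (G.nrm j) hp1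
  have hpp : G.pv (G.kl G.M0 S) j ≤ G.pv M' j :=
    (hcmp ι (fun i => G.x j (Mo.y i)) Finset.univ fun i => G.x_mem j _).2
  have htv : G.tv G.M0 Finset.univ * G.v G.τ ^ (1 * n2 * (M * Λ / (m' + Mo.r * l) + 1)) ≤
      G.tv M' Finset.univ :=
    (hcmp (Fin N × ι) (fun p => G.x p.1 (Mo.y p.2)) (Finset.univ ×ˢ Finset.univ)
      fun p => G.x_mem _ _).1
  have hlow := ha m' l N b R G.v G.τ M' (G.x j) E G.abh G.τ_pos G.τ_lt hM0 (G.nrm j)
    (hp1.trans_le hpp) hE hd hED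
  set I := Finset.univ.filter fun i => pvol G.v M' (fun i => G.x j (Mo.y i)) ^ (a * (m' + 1)) ≤
    G.v (∑ j', E i j' * G.x j (b j')) with hI
  set p1 := G.pv (G.kl G.M0 S) j with hp1'
  set e := p1 ^ (a * (m' + 1)) *
    (p1 * G.v G.τ) ^ ((c : ℝ) * ((m' + Mo.r * l : ℕ) : ℝ) / M) with he
  have he0 : 0 < e := mul_pos (pow_pos hp1 _) (NNReal.rpow_pos (mul_pos hp1 G.τ_pos))
  have hν : ∀ l', ∀ i ∈ I, G.v (∑ j', f l' j' * E⁻¹ j' i) ≤ dv / e := fun l' i hi => by
    rw [le_div_iff₀ he0, he, ← mul_assoc]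
    refine le_trans ?_ ((hest 0 l' i).trans (max_le (hfd j) hΛ1))
    have h1 : p1 ^ (a * (m' + 1)) ≤ G.v (∑ j', E i j' * G.x j (b j')) :=
      (pow_le_pow_left' hpp _).trans (Finset.mem_filter.1 hi).2
    exact mul_le_mul' (mul_le_mul' le_rfl h1) le_rfl
  have hp2 : (0 : ℝ) < p1 := hp1
  have hdv2 : (0 : ℝ) < dv := hdv
  have hm0 : 0 < m' + Mo.r * l := by omega
  have key := t2_arith (a := a) (b := b') (c := c) (n := n2) (M := M)
    (m := ((m' + Mo.r * l : ℕ) : ℝ)) (q := Module.finrank ℂ (Mo.V m')) (w := m')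
    (d := G.d (fun i => (b i : L)) j S) (h := G.h j S) (H := G.H) (ω := G.ω) (Λ := Λ)
    (K := ((M * Λ / (m' + Mo.r * l) + 1 : ℕ) : ℝ)) (X := -Real.log ((dv / e : ℝ≥0) : ℝ))
    (Nat.cast_nonneg _) (Nat.cast_nonneg _) (Nat.cast_nonneg _) (Nat.cast_nonneg _)
    (by exact_mod_cast hM) (by exact_mod_cast hMm) (by exact_mod_cast hq) (Nat.cast_nonneg _) hd0
    (G.h_nonneg j S) G.H_nonneg G.ω_pos.le hΛ
    (by
      have h1 : (M * Λ / (m' + Mo.r * l) + 1) * (m' + Mo.r * l) ≤ M * Λ + (m' + Mo.r * l) := by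
        rw [add_mul, one_mul]
        exact Nat.add_le_add_right (Nat.div_mul_le_self _ _) _
      exact_mod_cast h1)
    (by exact_mod_cast hqn)
    (by
      have h1 : G.d (fun i => (b i : L)) j S = -Real.log dv := rfl
      have h2 : G.h j S = -Real.log p1 := rfl
      have h3 : G.ω = -Real.log (G.v G.τ) := rfl
      rw [h1, h2, h3, NNReal.coe_div, he, NNReal.coe_mul, NNReal.coe_pow, NNReal.coe_rpow,
        NNReal.coe_mul, Real.log_div hdv2.ne' (by positivity),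
        Real.log_mul (by positivity) (by positivity), Real.log_pow,
        Real.log_rpow (by positivity), Real.log_mul hp2.ne' hτ.ne']
      push_cast
      ring)
    (by
      rcases le_or_gt 1 (dv / e) with h1 | h1
      · left
        exact neg_nonpos.2 (Real.log_nonneg (by exact_mod_cast h1))
      · right
        have hT := G.tv_pos Finset.univ
        have hS : S.card < N := by
          simpa using Finset.card_lt_univ_of_notMem hj
        have h2 := hb' _ N nZ R G _ hσ hl S f E M' I (dv / e) hS hf hfS hE hd hM' hM0 hED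
          ((mul_pos hT (pow_pos G.τ_pos _)).trans_le htv) (Finset.card_pos.1 (by omega)) h1 hν
        have h3 := ((pow_le_pow_left' htv _).trans h2).trans
          (pow_le_pow_right_of_le_one' h1.le hlow)
        have hT2 : (0 : ℝ) < G.tv G.M0 Finset.univ := hT
        have h4 := Real.log_le_log
          (NNReal.coe_pos.2 (pow_pos (mul_pos hT (pow_pos G.τ_pos _)) _)) (NNReal.coe_le_coe.2 h3)
        rw [NNReal.coe_pow, NNReal.coe_pow, NNReal.coe_mul, NNReal.coe_pow, Real.log_pow,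
          Real.log_pow, Real.log_mul hT2.ne' (by positivity), Real.log_pow] at h4
        have h5 : G.H = -Real.log (G.tv G.M0 Finset.univ) := rfl
        have h6 : G.ω = -Real.log (G.v G.τ) := rfl
        rw [h5, h6]
        generalize M * Λ / (m' + Mo.r * l) + 1 = K at h4 ⊢
        generalize m' + Mo.r * l = m at h4 ⊢
        generalize Real.log ((dv / e : ℝ≥0) : ℝ) = X at h4 ⊢
        push_cast at h4
        linarith)
  exact_mod_cast key

end Model

end Pool.Agent.MP_c0606f_ag.Klt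

end

-- part MP_c0606f_ag.Klt.Avg
section

/-! Averaging over orderings, sorting, and the choice of parameters. -/

namespace Pool.Agent.MP_c0606f_ag.Klt

/-- the points placed at the positions in the `s`-th block of length `B` -/
def blk {N : ℕ} (π : Equiv.Perm (Fin N)) (B s : ℕ) : Finset (Fin N) :=
  Finset.univ.filter fun x => s * B ≤ (π.symm x : ℕ) ∧ (π.symm x : ℕ) < (s + 1) * B

theorem avg_card {N : ℕ} (π : Equiv.Perm (Fin N)) (a : ℕ) {b : ℕ} (hb : b ≤ N) :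
    (Finset.univ.filter fun x => a ≤ (π.symm x : ℕ) ∧ (π.symm x : ℕ) < b).card = b - a := by
  rw [← Nat.card_Ico]
  refine Finset.card_bij (fun x _ => (π.symm x : ℕ)) (fun x hx => ?_) (fun x _ x' _ h => ?_)
    (fun j hj => ?_)
  · simpa using hx
  · exact π.symm.injective (Fin.ext h)
  · rw [Finset.mem_Ico] at hj
    exact ⟨π ⟨j, by omega⟩, by simpa using hj, by simp⟩

theorem avg_mem_pre {N : ℕ} {π : Equiv.Perm (Fin N)} {j : ℕ} {x : Fin N} :
    x ∈ pre π j ↔ (π.symm x : ℕ) < j := by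
  simp [pre]

theorem avg_mem_blk {N : ℕ} {π : Equiv.Perm (Fin N)} {B s : ℕ} {x : Fin N} :
    x ∈ blk π B s ↔ s * B ≤ (π.symm x : ℕ) ∧ (π.symm x : ℕ) < (s + 1) * B := by
  simp [blk]

theorem card_pre {N : ℕ} (π : Equiv.Perm (Fin N)) {j : ℕ} (h : j ≤ N) : (pre π j).card = j := by
  have h1 := avg_card π 0 h
  simpa [pre] using h1

theorem pre_mono {N : ℕ} (π : Equiv.Perm (Fin N)) {j j' : ℕ} (h : j ≤ j') :
    pre π j ⊆ pre π j' := by
  intro x hx
  rw [avg_mem_pre] at hx ⊢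
  omega

theorem not_mem_pre {N : ℕ} (π : Equiv.Perm (Fin N)) (j : Fin N) : π j ∉ pre π j := by
  rw [avg_mem_pre]
  simp

theorem card_blk {N : ℕ} (π : Equiv.Perm (Fin N)) {B s : ℕ} (h : (s + 1) * B ≤ N) :
    (blk π B s).card = B := by
  rw [blk, avg_card π _ h, Nat.add_mul, one_mul, Nat.add_sub_cancel_left]

theorem disjoint_pre_blk {N : ℕ} (π : Equiv.Perm (Fin N)) (B s : ℕ) :
    Disjoint (pre π (s * B)) (blk π B s) := by
  rw [Finset.disjoint_left]
  intro x hx hx'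
  rw [avg_mem_pre] at hx
  rw [avg_mem_blk] at hx'
  omega

theorem disjoint_blk {N : ℕ} (π : Equiv.Perm (Fin N)) (B : ℕ) {s s' : ℕ} (h : s ≠ s') :
    Disjoint (blk π B s) (blk π B s') := by
  rw [Finset.disjoint_left]
  intro x hx hx'
  rw [avg_mem_blk] at hx hx'
  rcases lt_or_gt_of_ne h with h | h
  · have := Nat.mul_le_mul_right B (show s + 1 ≤ s' from h)
    omega
  · have := Nat.mul_le_mul_right B (show s' + 1 ≤ s from h)
    omega

theorem avg_mem_one {N B s : ℕ} {x : Fin N} :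
    x ∈ blk (1 : Equiv.Perm (Fin N)) B s ↔ s * B ≤ (x : ℕ) ∧ (x : ℕ) < (s + 1) * B :=
  avg_mem_blk

theorem avg_blk_map {N : ℕ} (π : Equiv.Perm (Fin N)) (B s : ℕ) :
    blk π B s = (blk 1 B s).map π.toEmbedding := by
  ext x
  rw [Finset.mem_map_equiv, avg_mem_blk, avg_mem_one]

theorem avg_sum_blk {N : ℕ} (π : Equiv.Perm (Fin N)) (B s : ℕ) (f : Fin N → ℝ) :
    ∑ x ∈ blk π B s, f x = ∑ j ∈ blk 1 B s, f (π j) := by
  rw [avg_blk_map π, Finset.sum_map]
  rfl

theorem avg_mul {N : ℕ} (F : Equiv.Perm (Fin N) → ℝ) (τ : Equiv.Perm (Fin N)) :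
    ∑ π, F (π * τ) = ∑ π, F π :=
  Equiv.sum_comp (Equiv.mulRight τ) F

theorem avg_split {N B : ℕ} (hB : 0 < B) (g : ℕ) (f : Fin N → ℝ) :
    ∑ j ∈ Finset.univ.filter (fun j : Fin N => (j : ℕ) < g * B), f j =
      ∑ s ∈ Finset.range g, ∑ j ∈ blk 1 B s, f j := by
  rw [← Finset.sum_biUnion fun s _ s' _ h => disjoint_blk 1 B h]
  refine Finset.sum_congr ?_ fun _ _ => rfl
  ext j
  simp only [Finset.mem_filter, Finset.mem_univ, true_and, Finset.mem_biUnion, Finset.mem_range,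
    avg_mem_one]
  constructor
  · intro h
    refine ⟨j / B, (Nat.div_lt_iff_lt_mul hB).2 h, Nat.div_mul_le_self _ _, ?_⟩
    rw [mul_comm]
    exact Nat.lt_mul_div_succ _ hB
  · rintro ⟨s, hs, -, h⟩
    exact h.trans_le (Nat.mul_le_mul_right B hs)

theorem avg_pre_swap {N : ℕ} (π : Equiv.Perm (Fin N)) {j j' : Fin N} (h : (j : ℕ) ≤ j') :
    pre (π * Equiv.swap j j') j = pre π j := by
  ext x
  rw [avg_mem_pre, avg_mem_pre]
  have h1 : (π * Equiv.swap j j').symm x = Equiv.swap j j' (π.symm x) := by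
    rw [Equiv.symm_apply_eq]
    simp
  rw [h1]
  by_cases h2 : π.symm x = j
  · rw [h2, Equiv.swap_apply_left]; omega
  by_cases h3 : π.symm x = j'
  · rw [h3, Equiv.swap_apply_right]; omega
  rw [Equiv.swap_apply_of_ne_of_ne h2 h3]

theorem avg_h1 {N B g s : ℕ} (hN : (g + 1) * B ≤ N) (hs : s ≤ g) (h1 : Finset (Fin N) → ℝ) :
    ∑ π : Equiv.Perm (Fin N), h1 (blk π B s) = ∑ π : Equiv.Perm (Fin N), h1 (blk π B g) := by
  have hc : (blk (1 : Equiv.Perm (Fin N)) B g).card = (blk (1 : Equiv.Perm (Fin N)) B s).card := by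
    rw [card_blk 1 hN, card_blk 1 ((Nat.mul_le_mul_right B (by omega)).trans hN)]
  obtain ⟨τ, hτ⟩ := Equiv.Perm.exists_map_finset_eq _ _ hc
  rw [← avg_mul (fun π => h1 (blk π B g)) τ]
  refine Finset.sum_congr rfl fun π _ => ?_
  rw [avg_blk_map π, avg_blk_map (π * τ), ← hτ, Finset.map_map]
  rfl

theorem avg_psi {N : ℕ} (ψ : Fin N → ℝ) (j : Fin N) :
    (N : ℝ) * ∑ π : Equiv.Perm (Fin N), ψ (π j) =
      (Fintype.card (Equiv.Perm (Fin N)) : ℝ) * ∑ x, ψ x := by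
  have h1 : ∀ i : Fin N, ∑ π : Equiv.Perm (Fin N), ψ (π j) = ∑ π : Equiv.Perm (Fin N), ψ (π i) := by
    intro i
    rw [← avg_mul (fun π => ψ (π i)) (Equiv.swap i j)]
    simp
  calc (N : ℝ) * ∑ π : Equiv.Perm (Fin N), ψ (π j)
      = ∑ _i : Fin N, ∑ π : Equiv.Perm (Fin N), ψ (π j) := by simp
    _ = ∑ i : Fin N, ∑ π : Equiv.Perm (Fin N), ψ (π i) := Finset.sum_congr rfl fun i _ => h1 i
    _ = ∑ π : Equiv.Perm (Fin N), ∑ i : Fin N, ψ (π i) := Finset.sum_comm
    _ = ∑ _π : Equiv.Perm (Fin N), ∑ x, ψ x :=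
        Finset.sum_congr rfl fun π _ => Equiv.sum_comp π ψ
    _ = _ := by simp

/-- Sorting: order the `α i` increasingly (`Tuple.sort`); if at least `N - k` of them are `≥ t`
then the `i`-th smallest (from `0`) is `≥ t` for `i ≥ k`.  The blocks `[(s + 1) B, (s + 2) B)`,
`s < g`, are disjoint. -/
theorem sum_le_of_count {N B g : ℕ} (hN : (g + 1) * B ≤ N) (α : Fin N → ℝ) (h0 : ∀ i, 0 ≤ α i)
    (t : ℕ → ℝ) (h : ∀ s < g, N - (s + 1) * B ≤ (Finset.univ.filter fun i => t s ≤ α i).card) :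
    (B : ℝ) * ∑ s ∈ Finset.range g, t s ≤ ∑ i, α i := by
  have hmono := Tuple.monotone_sort α
  generalize Tuple.sort α = σ at hmono
  have key : ∀ s < g, ∀ x ∈ blk σ B (s + 1), t s ≤ α x := by
    intro s hs x hx
    rw [avg_mem_blk] at hx
    by_contra hlt
    push Not at hlt
    have hx2 : (σ.symm x : ℕ) + 1 ≤ N := (σ.symm x).2
    have h1 : Disjoint (Finset.univ.filter fun i => t s ≤ α i) (pre σ ((σ.symm x : ℕ) + 1)) := by
      rw [Finset.disjoint_left]
      intro z hz hz'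
      rw [avg_mem_pre] at hz'
      have h2 : α (σ (σ.symm z)) ≤ α (σ (σ.symm x)) := hmono (Fin.le_def.2 (by omega))
      rw [Equiv.apply_symm_apply, Equiv.apply_symm_apply] at h2
      have h3 := (Finset.mem_filter.1 hz).2
      linarith
    have h4 := Finset.card_le_univ ((Finset.univ.filter fun i => t s ≤ α i) ∪
      pre σ ((σ.symm x : ℕ) + 1))
    rw [Finset.card_union_of_disjoint h1, card_pre σ hx2, Fintype.card_fin] at h4
    have h5 := h s hs
    omega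
  calc (B : ℝ) * ∑ s ∈ Finset.range g, t s = ∑ s ∈ Finset.range g, (B : ℝ) * t s :=
        Finset.mul_sum _ _ _
    _ ≤ ∑ s ∈ Finset.range g, ∑ x ∈ blk σ B (s + 1), α x := by
        refine Finset.sum_le_sum fun s hs => ?_
        rw [Finset.mem_range] at hs
        have h1 := Finset.card_nsmul_le_sum (blk σ B (s + 1)) α (t s) (key s hs)
        rwa [card_blk σ ((Nat.mul_le_mul_right B (by omega)).trans hN), nsmul_eq_mul] at h1
    _ = ∑ x ∈ (Finset.range g).biUnion fun s => blk σ B (s + 1), α x :=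
        (Finset.sum_biUnion fun s _ s' _ h => disjoint_blk σ B (by omega)).symm
    _ ≤ _ := Finset.sum_le_sum_of_subset_of_nonneg (Finset.subset_univ _) fun i _ _ => h0 i

/-- Averaging over all permutations.  For `j < g * B ≤ j' < (g + 1) * B` the bijection
`π ↦ π * swap j j'` fixes `pre π j`, so `∑ π, d (π j) (pre π j) = ∑ π, d (π j') (pre π j)`, and
`d (π j') (pre π j) ≤ d (π j') (pre π ((j / B + 1) * B))`.  For `s ≤ g` a permutation of the
positions maps the block `s` to the block `g` (`Equiv.Perm.exists_extending_pair`,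
`Finset.exists_equiv_extend_of_card_eq`), so `∑ π, h1 (blk π B g) = ∑ π, h1 (blk π B s)`.  Also
`∑ π, ψ (π j')` does not depend on `j'`.  Some `π` is at most the average
(`Finset.exists_le_of_sum_le`). -/
theorem avg {N B g : ℕ} (hB : 0 < B) (hN : (g + 1) * B ≤ N) (d : Fin N → Finset (Fin N) → ℝ)
    (hd : ∀ x S S', S ⊆ S' → x ∉ S' → d x S ≤ d x S') (h1 : Finset (Fin N) → ℝ) (ψ : Fin N → ℝ)
    {κ e H : ℝ} (hκ : 0 ≤ κ)
    (hP : ∀ π : Equiv.Perm (Fin N),
      ∑ x ∈ blk π B g, ((B : ℝ) * ∑ s ∈ Finset.range g, d x (pre π ((s + 1) * B))) ≤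
        κ * (h1 (blk π B g) - ∑ x ∈ blk π B g, ψ x) + e)
    (hQ : ∀ π : Equiv.Perm (Fin N), ∑ s ∈ Finset.range (g + 1), h1 (blk π B s) ≤ H) :
    ∃ π : Equiv.Perm (Fin N),
      ∑ j ∈ Finset.univ.filter (fun j : Fin N => (j : ℕ) < g * B), d (π j) (pre π j) ≤
        κ * (H / ((g + 1) * B) - (∑ x, ψ x) / N) + e / B := by
  have hB' : (0 : ℝ) < B := Nat.cast_pos.mpr hB
  have hN0 : 0 < N := lt_of_lt_of_le (Nat.mul_pos (by omega) hB) hN
  have hN' : (0 : ℝ) < N := Nat.cast_pos.mpr hN0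
  have hg : (0 : ℝ) < (g : ℝ) + 1 := by positivity
  obtain ⟨P, hP0⟩ : ∃ P : ℝ, P = (Fintype.card (Equiv.Perm (Fin N)) : ℝ) := ⟨_, rfl⟩
  have hcg : (blk (1 : Equiv.Perm (Fin N)) B g).card = B := card_blk 1 hN
  have step1 : ∀ s < g, ∀ j ∈ blk (1 : Equiv.Perm (Fin N)) B s,
      ∀ j' ∈ blk (1 : Equiv.Perm (Fin N)) B g,
      ∑ π : Equiv.Perm (Fin N), d (π j) (pre π j) ≤
        ∑ π : Equiv.Perm (Fin N), d (π j') (pre π ((s + 1) * B)) := by
    intro s hs j hj j' hj'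
    rw [avg_mem_one] at hj hj'
    have h2 := Nat.mul_le_mul_right B (show s + 1 ≤ g from hs)
    rw [← avg_mul (fun π => d (π j) (pre π j)) (Equiv.swap j j')]
    refine Finset.sum_le_sum fun π _ => ?_
    rw [avg_pre_swap π (by omega), Equiv.Perm.mul_apply, Equiv.swap_apply_left]
    refine hd _ _ _ (pre_mono π hj.2.le) ?_
    rw [avg_mem_pre, Equiv.symm_apply_apply]
    omega
  have step2 : ∀ s < g, ∀ j ∈ blk (1 : Equiv.Perm (Fin N)) B s,
      (B : ℝ) * ∑ π : Equiv.Perm (Fin N), d (π j) (pre π j) ≤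
        ∑ π : Equiv.Perm (Fin N), ∑ x ∈ blk π B g, d x (pre π ((s + 1) * B)) := by
    intro s hs j hj
    have h2 := Finset.card_nsmul_le_sum _ _ _ (step1 s hs j hj)
    rw [hcg, nsmul_eq_mul, Finset.sum_comm] at h2
    refine h2.trans (le_of_eq (Finset.sum_congr rfl fun π _ => ?_))
    rw [avg_sum_blk π]
  have step3 : (B : ℝ) * ∑ π : Equiv.Perm (Fin N),
      ∑ j ∈ Finset.univ.filter (fun j : Fin N => (j : ℕ) < g * B), d (π j) (pre π j) ≤
      ∑ π : Equiv.Perm (Fin N),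
        ∑ x ∈ blk π B g, ((B : ℝ) * ∑ s ∈ Finset.range g, d x (pre π ((s + 1) * B))) := by
    rw [Finset.sum_comm, avg_split hB, Finset.mul_sum]
    calc _ ≤ ∑ s ∈ Finset.range g, (B : ℝ) * ∑ π : Equiv.Perm (Fin N),
          ∑ x ∈ blk π B g, d x (pre π ((s + 1) * B)) := by
          refine Finset.sum_le_sum fun s hs => ?_
          rw [Finset.mem_range] at hs
          have h2 := Finset.sum_le_card_nsmul _ _ _ (step2 s hs)
          rw [card_blk 1 ((Nat.mul_le_mul_right B (by omega)).trans hN), nsmul_eq_mul] at h2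
          rw [Finset.mul_sum]
          exact h2
      _ = _ := by
          simp only [← Finset.mul_sum]
          congr 1
          rw [Finset.sum_comm]
          exact Finset.sum_congr rfl fun π _ => Finset.sum_comm
  have step4 : ∑ π : Equiv.Perm (Fin N), h1 (blk π B g) ≤ P * (H / (g + 1)) := by
    have h2 : ((g : ℝ) + 1) * ∑ π : Equiv.Perm (Fin N), h1 (blk π B g) ≤ P * H := by
      calc ((g : ℝ) + 1) * ∑ π : Equiv.Perm (Fin N), h1 (blk π B g)
          = ∑ _s ∈ Finset.range (g + 1), ∑ π : Equiv.Perm (Fin N), h1 (blk π B g) := by simp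
        _ = ∑ s ∈ Finset.range (g + 1), ∑ π : Equiv.Perm (Fin N), h1 (blk π B s) :=
            Finset.sum_congr rfl fun s hs =>
              (avg_h1 hN (by rw [Finset.mem_range] at hs; omega) h1).symm
        _ = ∑ π : Equiv.Perm (Fin N), ∑ s ∈ Finset.range (g + 1), h1 (blk π B s) :=
            Finset.sum_comm
        _ ≤ ∑ _π : Equiv.Perm (Fin N), H := Finset.sum_le_sum fun π _ => hQ π
        _ = P * H := by rw [hP0]; simp
    rw [← mul_div_assoc, le_div_iff₀ hg, mul_comm]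
    exact h2
  have step5 : ∑ π : Equiv.Perm (Fin N), ∑ x ∈ blk π B g, ψ x = B * (P * ((∑ x, ψ x) / N)) := by
    have h2 : ∀ j : Fin N, ∑ π : Equiv.Perm (Fin N), ψ (π j) = P * ((∑ x, ψ x) / N) := by
      intro j
      rw [← mul_div_assoc, eq_div_iff hN'.ne', mul_comm, avg_psi, hP0]
    simp only [fun π => avg_sum_blk π B g ψ]
    rw [Finset.sum_comm, Finset.sum_congr rfl fun j _ => h2 j, Finset.sum_const, hcg, nsmul_eq_mul]
  have step6 : ∑ π : Equiv.Perm (Fin N),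
      (κ * (h1 (blk π B g) - ∑ x ∈ blk π B g, ψ x) + e) ≤
      B * (P * (κ * (H / ((g + 1) * B) - (∑ x, ψ x) / N) + e / B)) := by
    rw [Finset.sum_add_distrib, ← Finset.mul_sum, Finset.sum_sub_distrib, step5, Finset.sum_const,
      Finset.card_univ, nsmul_eq_mul, ← hP0]
    have h2 := mul_le_mul_of_nonneg_left step4 hκ
    have h3 : B * (P * (κ * (H / ((g + 1) * B) - (∑ x, ψ x) / N) + e / B)) =
        κ * (P * (H / (g + 1))) - κ * (B * (P * ((∑ x, ψ x) / N))) + P * e := by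
      field_simp
    rw [h3, mul_sub]
    linarith
  have step7 := le_of_mul_le_mul_left
    ((step3.trans (Finset.sum_le_sum fun π _ => hP π)).trans step6) hB'
  have step8 : ∑ π : Equiv.Perm (Fin N),
      ∑ j ∈ Finset.univ.filter (fun j : Fin N => (j : ℕ) < g * B), d (π j) (pre π j) ≤
      ∑ _π : Equiv.Perm (Fin N), (κ * (H / ((g + 1) * B) - (∑ x, ψ x) / N) + e / B) := by
    rw [Finset.sum_const, Finset.card_univ, nsmul_eq_mul, ← hP0]
    exact step7
  obtain ⟨π, -, hπ⟩ := Finset.exists_le_of_sum_le Finset.univ_nonempty step8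
  exact ⟨π, hπ⟩

/-- Low degree parts are a fixed proportion: take `m' ≡ m (mod r)` with `ε m - r < m' ≤ ε m`
(we may assume `ε ≤ 1`). -/
theorem exists_low {Nf : ℕ → ℕ} {n r : ℕ} {c C : ℝ} (hn : 0 < n) (hr : 0 < r) (hc : 0 < c)
    (h : ∀ᶠ m : ℕ in Filter.atTop, c * (m : ℝ) ^ n ≤ Nf m ∧ (Nf m : ℝ) ≤ C * (m : ℝ) ^ n) {ε : ℝ}
    (hε : 0 < ε) : Filter.Tendsto Nf Filter.atTop Filter.atTop ∧ ∃ η : ℝ, 0 < η ∧
      ∀ᶠ m : ℕ in Filter.atTop, ∃ m' l : ℕ, m' + r * l = m ∧ (m' : ℝ) ≤ ε * m ∧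
        η * Nf m ≤ Nf m' := by
  constructor
  · rw [← tendsto_natCast_atTop_iff (R := ℝ)]
    refine Filter.tendsto_atTop_mono' _ (h.mono fun m hm => hm.1) ?_
    exact Filter.Tendsto.const_mul_atTop hc
      ((Filter.tendsto_pow_atTop hn.ne').comp tendsto_natCast_atTop_atTop)
  obtain ⟨ε', h0, h1, h2⟩ : ∃ ε' : ℝ, 0 < ε' ∧ ε' ≤ ε ∧ ε' ≤ 1 :=
    ⟨min ε 1, lt_min hε one_pos, min_le_left _ _, min_le_right _ _⟩
  obtain ⟨m0, hm0⟩ := Filter.eventually_atTop.1 h
  have hC : 0 < |C| + 1 := by positivity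
  refine ⟨c * (ε' / 2) ^ n / (|C| + 1), by positivity, ?_⟩
  have ht : Filter.Tendsto (fun m : ℕ => ε' / 2 * (m : ℝ)) Filter.atTop Filter.atTop :=
    Filter.Tendsto.const_mul_atTop (by positivity) tendsto_natCast_atTop_atTop
  filter_upwards [h, ht.eventually_ge_atTop ((r : ℝ) + 1), ht.eventually_ge_atTop (m0 : ℝ)]
    with m hm h3 h4
  have hm' : (0 : ℝ) ≤ m := Nat.cast_nonneg _
  obtain ⟨a, ha1, ha2⟩ : ∃ a : ℕ, (a : ℝ) ≤ ε' * m ∧ ε' * m < a + 1 :=
    ⟨⌊ε' * m⌋₊, Nat.floor_le (by positivity), Nat.lt_floor_add_one _⟩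
  have ha3 : a ≤ m := by
    have : (a : ℝ) ≤ m := ha1.trans (by nlinarith)
    exact_mod_cast this
  have ha4 : r ≤ a := by
    have : (r : ℝ) ≤ a := by
      have : (0 : ℝ) ≤ r := Nat.cast_nonneg _
      linarith
    exact_mod_cast this
  have hρ := Nat.mod_lt m hr
  obtain ⟨m', l, e1, e2, e3⟩ : ∃ m' l : ℕ, m' + r * l = m ∧ m' ≤ a ∧ a ≤ m' + r := by
    have k1 := Nat.div_add_mod (a - m % r) r
    have k2 := Nat.mod_lt (a - m % r) hr
    have k3 := Nat.div_add_mod m r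
    have k4 : (a - m % r) / r ≤ m / r := Nat.div_le_div_right (by omega)
    obtain ⟨l, hl⟩ := Nat.exists_eq_add_of_le k4
    refine ⟨m % r + r * ((a - m % r) / r), l, ?_, by omega, by omega⟩
    rw [hl, mul_add] at k3
    omega
  have e2' : (m' : ℝ) ≤ a := by exact_mod_cast e2
  have e3' : (a : ℝ) ≤ m' + r := by exact_mod_cast e3
  have e4 : ε' / 2 * m ≤ m' := by linarith
  have e5 : m0 ≤ m' := by
    have : (m0 : ℝ) ≤ m' := h4.trans e4
    exact_mod_cast this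
  refine ⟨m', l, e1, (e2'.trans ha1).trans (mul_le_mul_of_nonneg_right h1 hm'), ?_⟩
  have e6 : (Nf m : ℝ) ≤ (|C| + 1) * (m : ℝ) ^ n :=
    hm.2.trans (mul_le_mul_of_nonneg_right (by linarith [le_abs_self C]) (by positivity))
  calc c * (ε' / 2) ^ n / (|C| + 1) * Nf m
      ≤ c * (ε' / 2) ^ n / (|C| + 1) * ((|C| + 1) * (m : ℝ) ^ n) :=
        mul_le_mul_of_nonneg_left e6 (by positivity)
    _ = c * (ε' / 2 * m) ^ n := by rw [mul_pow]; field_simp
    _ ≤ c * (m' : ℝ) ^ n :=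
        mul_le_mul_of_nonneg_left (pow_le_pow_left₀ (by positivity) e4 n) hc.le
    _ ≤ _ := (hm0 m' e5).1

theorem avg_small {a θ : ℝ} (hθ : 0 < θ) : ∃ k : ℕ, 0 < k ∧ ∀ x : ℝ, k ≤ x → a / x ≤ θ := by
  obtain ⟨k, hk⟩ := exists_nat_ge (a / θ)
  refine ⟨k + 1, by omega, fun x hx => ?_⟩
  have hk0 : (0 : ℝ) ≤ k := Nat.cast_nonneg _
  push_cast at hx
  rw [div_le_iff₀ hθ] at hk
  rw [div_le_iff₀ (by linarith)]
  nlinarith

theorem avg_bound {δ θ C2 C3 ε η g M n2 m m' N q b : ℝ} (hδ : 0 < δ) (h3 : 0 ≤ C3) (hη : 0 < η)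
    (hg : 0 ≤ g) (hM : 0 < M) (hn : 0 ≤ n2) (hm : 0 < m) (hb : 0 < b) (hm' : m' ≤ ε * m)
    (hq : η * N ≤ q) (k1 : (g + 1) * b ≤ N) (k2 : N ≤ (g + 1) * b + g)
    (p1 : C3 * ε ≤ θ / 5) (p2 : C3 / η / (g + 1) ≤ θ / 5) (p3 : (g * C2 + C3) / M ≤ θ / 5)
    (p4 : (1 / δ + g * n2 * M * C3 / δ / η + C3 / η) / b ≤ θ / 5) (p5 : C3 / m ≤ θ / 5) :
    m * N / δ * (1 / ((g + 1) * b)) - m / δ + m * N / δ * (g * n2 * M / m) / b * (C3 * m / q) +
      g * C2 * m / M + (N - g * b) * (C3 * m / q) + C3 * (m / M + m' + 1) ≤ θ * m := by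
  have hg1 : 0 < g + 1 := by linarith
  have hN : 0 < N := lt_of_lt_of_le (mul_pos hg1 hb) k1
  have hq0 : 0 < q := lt_of_lt_of_le (mul_pos hη hN) hq
  have r1 : N / q ≤ 1 / η := by
    rw [div_le_div_iff₀ hq0 hη]; linarith
  have r2 : N / ((g + 1) * b) ≤ 1 + 1 / b := by
    rw [div_le_iff₀ (mul_pos hg1 hb)]
    have : (1 + 1 / b) * ((g + 1) * b) = (g + 1) * b + (g + 1) := by field_simp
    rw [this]; linarith
  have r3 : (N - g * b) / N ≤ 1 / (g + 1) + 1 / b := by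
    have s1 : b / N ≤ 1 / (g + 1) := by
      rw [div_le_div_iff₀ hN hg1]; linarith
    have s2 : g / N ≤ 1 / b := by
      rw [div_le_div_iff₀ hN hb]; nlinarith
    have s3 : (N - g * b) / N ≤ (b + g) / N := div_le_div_of_nonneg_right (by linarith) hN.le
    rw [add_div] at s3
    linarith
  have t1 : m * N / δ * (1 / ((g + 1) * b)) - m / δ ≤ 1 / δ / b * m := by
    have s1 : m * N / δ * (1 / ((g + 1) * b)) = m / δ * (N / ((g + 1) * b)) := by field_simp
    have s2 := mul_le_mul_of_nonneg_left r2 (div_pos hm hδ).le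
    have s3 : m / δ * (1 + 1 / b) = m / δ + 1 / δ / b * m := by field_simp
    linarith
  have t2 : m * N / δ * (g * n2 * M / m) / b * (C3 * m / q) ≤
      g * n2 * M * C3 / δ / η / b * m := by
    have s1 : m * N / δ * (g * n2 * M / m) / b * (C3 * m / q) =
        g * n2 * M * C3 / δ / b * m * (N / q) := by field_simp
    have s2 : g * n2 * M * C3 / δ / η / b * m = g * n2 * M * C3 / δ / b * m * (1 / η) := by
      field_simp
    rw [s1, s2]
    exact mul_le_mul_of_nonneg_left r1 (by positivity)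
  have t4 : (N - g * b) * (C3 * m / q) ≤ C3 / η / (g + 1) * m + C3 / η / b * m := by
    have s1 : (N - g * b) * (C3 * m / q) = C3 * m * (N / q) * ((N - g * b) / N) := by field_simp
    have s2 : C3 / η / (g + 1) * m + C3 / η / b * m = C3 * m * (1 / η) * (1 / (g + 1) + 1 / b) := by
      field_simp
    rw [s1, s2]
    have s3 : 0 ≤ (N - g * b) / N := div_nonneg (by linarith) hN.le
    exact mul_le_mul (mul_le_mul_of_nonneg_left r1 (by positivity)) r3 s3 (by positivity)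
  have t5 : g * C2 * m / M + C3 * (m / M + m' + 1) ≤
      (g * C2 + C3) / M * m + C3 * ε * m + C3 / m * m := by
    have s1 : (g * C2 + C3) / M * m = g * C2 * m / M + C3 * (m / M) := by field_simp
    have s2 : C3 / m * m = C3 := by field_simp
    have s3 := mul_le_mul_of_nonneg_left hm' h3
    rw [s1, s2]
    nlinarith
  have u1 := mul_le_mul_of_nonneg_right p1 hm.le
  have u2 := mul_le_mul_of_nonneg_right p2 hm.le
  have u3 := mul_le_mul_of_nonneg_right p3 hm.le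
  have u4 := mul_le_mul_of_nonneg_right p4 hm.le
  have u5 := mul_le_mul_of_nonneg_right p5 hm.le
  rw [add_div, add_div, add_mul, add_mul] at u4
  linarith

/-- The choice of the parameters: first `ε`, then `g`, then `M`, then `m` large.  Here
`B = N / (g + 1)`, so `N - g ≤ (g + 1) B ≤ N` and `N - g B ≤ B + g`. -/
theorem params {δ θ C2 C3 : ℝ} (hδ : 0 < δ) (hθ : 0 < θ) (h2 : 0 ≤ C2) (h3 : 0 ≤ C3) :
    ∃ ε : ℝ, 0 < ε ∧ ∀ η : ℝ, 0 < η → ∃ g M : ℕ, 0 < g ∧ 0 < M ∧ ∀ n2 : ℕ, ∃ m0 : ℕ,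
      ∀ (m m' N q : ℕ), m0 ≤ m → m0 ≤ N → (m' : ℝ) ≤ ε * m → η * N ≤ q → 0 < N / (g + 1) ∧
        (m : ℝ) * N / δ * (1 / ((g + 1) * (N / (g + 1) : ℕ))) - m / δ +
          (m : ℝ) * N / δ * (g * n2 * M / m) / (N / (g + 1) : ℕ) * (C3 * m / q) +
          g * C2 * m / M + ((N : ℝ) - g * (N / (g + 1) : ℕ)) * (C3 * m / q) +
          C3 * ((m : ℝ) / M + m' + 1) ≤ θ * m := by
  have hθ5 : 0 < θ / 5 := by positivity
  refine ⟨θ / 5 / (C3 + 1), by positivity, fun η hη => ?_⟩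
  obtain ⟨g, hg, hg'⟩ := avg_small (a := C3 / η) hθ5
  obtain ⟨M, hM, hM'⟩ := avg_small (a := g * C2 + C3) hθ5
  refine ⟨g, M, hg, hM, fun n2 => ?_⟩
  obtain ⟨B, hB, hB'⟩ := avg_small (a := 1 / δ + g * n2 * M * C3 / δ / η + C3 / η) hθ5
  obtain ⟨m1, hm1, hm1'⟩ := avg_small (a := C3) hθ5
  refine ⟨m1 + B * (g + 1), fun m m' N q hm hN hm' hq => ?_⟩
  have k0 : B ≤ N / (g + 1) := (Nat.le_div_iff_mul_le (by omega)).2 (by omega)
  have k1 := Nat.div_add_mod N (g + 1)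
  have k2 := Nat.mod_lt N (show 0 < g + 1 by omega)
  have k3 : (g + 1) * (N / (g + 1)) ≤ N := by omega
  have k4 : N ≤ (g + 1) * (N / (g + 1)) + g := by omega
  refine ⟨by omega, avg_bound hδ h3 hη (Nat.cast_nonneg _) (Nat.cast_pos.mpr hM)
    (Nat.cast_nonneg _) (Nat.cast_pos.mpr (by omega)) (Nat.cast_pos.mpr (by omega)) hm' hq
    (by exact_mod_cast k3) (by exact_mod_cast k4) ?_ (hg' _ (by linarith)) (hM' _ le_rfl)
    (hB' _ (by exact_mod_cast k0)) (hm1' _ (by exact_mod_cast (by omega : m1 ≤ m)))⟩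
  rw [← mul_div_assoc, div_le_iff₀ (by linarith)]
  nlinarith

end Pool.Agent.MP_c0606f_ag.Klt

end

-- part MP_c0606f_ag.Klt.MainT
section

/-! The main estimate for configurations. -/

namespace Pool.Agent.MP_c0606f_ag.Klt

open MvPolynomial
open scoped NNReal

theorem maint_log {a b : ℝ≥0} (ha : 0 < a) (h : a ≤ b) : Real.log a ≤ Real.log b :=
  Real.log_le_log (by exact_mod_cast ha) (by exact_mod_cast h)

/-- the estimate at one point -/
theorem maint_point {R : Type} [Field R] {v : Val R} {N B g : ℕ} (hN : (g + 1) * B ≤ N)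
    (r : Fin g → ℕ) (hr : ∀ s, r s = N - (s + 1) * B) (f : ∀ s, Fin (r s) → Fin N → R)
    (hf : ∀ s, RI v (f s)) (E : Matrix (Fin N) (Fin N) R) (hE : ∀ i l, v (E i l) ≤ 1)
    (hd : v E.det = 1) (e : Fin N → ℝ≥0) (he : ∀ i, e i ≤ 1) {p p' w τ : ℝ≥0} {c γ : ℝ} {Λ : ℕ}
    (hp : 0 < p) (hp' : 0 < p') (hτ : 0 < τ) (hc : 0 < c) (hst : p' ≤ (∏ i, e i) ^ c * w)
    (dv : ℕ → ℝ≥0) (hsm : ∀ (s : Fin g) l i,
      v (∑ j, f s l j * E⁻¹ j i) * e i * (p * τ) ^ γ ≤ max (dv s) (τ ^ Λ)) :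
    (B : ℝ) * ∑ s ∈ Finset.range g, min (-Real.log (dv s)) (Λ * -Real.log τ) ≤
      c⁻¹ * (-Real.log p' - -Real.log w) + g * B * γ * (-Real.log p + -Real.log τ) := by
  have h1 := hp'.trans_le hst
  have h2 : 0 < (∏ i, e i) ^ c := pos_iff_ne_zero.2 (left_ne_zero_of_mul h1.ne')
  have h3 : 0 < w := pos_iff_ne_zero.2 (right_ne_zero_of_mul h1.ne')
  have h4 : ∏ i, e i ≠ 0 := fun h => by
    rw [h, NNReal.zero_rpow hc.ne'] at h2
    exact h2.false
  have h5 : ∀ i, 0 < e i := fun i =>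
    pos_iff_ne_zero.2 (Finset.prod_ne_zero_iff.1 h4 i (Finset.mem_univ i))
  have h6 : ∀ i, (e i : ℝ) ≠ 0 := fun i => by exact_mod_cast (h5 i).ne'
  have a1 := maint_log hp' hst
  rw [NNReal.coe_mul, NNReal.coe_rpow, Real.log_mul (by exact_mod_cast h2.ne')
    (by exact_mod_cast h3.ne'), Real.log_rpow (by exact_mod_cast pos_iff_ne_zero.2 h4),
    NNReal.coe_prod, Real.log_prod fun i _ => h6 i] at a1
  have a2 : ∑ i, -Real.log (e i) ≤ c⁻¹ * (-Real.log p' - -Real.log w) := by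
    rw [Finset.sum_neg_distrib, le_inv_mul_iff₀ hc]
    linarith
  have a3 := sum_le_of_count hN (fun i => -Real.log (e i))
    (fun i => neg_nonneg.2 (Real.log_nonpos (e i).2 (by exact_mod_cast he i)))
    (fun s => min (-Real.log (dv s)) (Λ * -Real.log τ) - γ * (-Real.log p + -Real.log τ))
    (fun s hs => by
      have b1 := ((hf ⟨s, hs⟩).mul E⁻¹ (inv_int E hE hd).1 (inv_int E hE hd).2).card_le
        (Finset.univ.filter fun i => min (-Real.log (dv s)) (Λ * -Real.log τ) -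
          γ * (-Real.log p + -Real.log τ) ≤ -Real.log (e i)) (fun l i hi => by
          by_contra hlt
          refine hi (Finset.mem_filter.2 ⟨Finset.mem_univ _, ?_⟩)
          have c0 : 0 < (p * τ) ^ γ := NNReal.rpow_pos (mul_pos hp hτ)
          have c1 : e i * (p * τ) ^ γ ≤ max (dv s) (τ ^ Λ) := by
            refine le_trans ?_ (hsm ⟨s, hs⟩ l i)
            rw [mul_assoc]
            exact le_mul_of_one_le_left zero_le (not_lt.1 hlt)
          have c2 : Real.log ((e i * (p * τ) ^ γ : ℝ≥0) : ℝ) =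
              Real.log (e i) + γ * (Real.log p + Real.log τ) := by
            rw [NNReal.coe_mul, NNReal.coe_rpow, Real.log_mul (h6 i) (by exact_mod_cast c0.ne'),
              Real.log_rpow (by exact_mod_cast mul_pos hp hτ), NNReal.coe_mul,
              Real.log_mul (by exact_mod_cast hp.ne') (by exact_mod_cast hτ.ne')]
          rcases le_max_iff.1 c1 with c3 | c3
          · have c4 := maint_log (mul_pos (h5 i) c0) c3
            have c5 := min_le_left (-Real.log (dv s)) (Λ * -Real.log τ)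
            rw [c2] at c4
            linarith
          · have c4 := maint_log (mul_pos (h5 i) c0) c3
            have c5 := min_le_right (-Real.log (dv s)) (Λ * -Real.log τ)
            rw [c2, NNReal.coe_pow, Real.log_pow] at c4
            linarith)
      rwa [Fintype.card_fin, hr] at b1)
  rw [Finset.sum_sub_distrib, Finset.sum_const, Finset.card_range, nsmul_eq_mul] at a3
  linarith

theorem maint_arith {W H Ψ ω lam cost B g n2 M m N δ C2 α β γ θ : ℝ} (hB : 0 < B) (hN : 0 < N)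
    (hδ : 0 < δ) (hm : 0 < m) (hH : 0 ≤ H) (h1 : 0 ≤ g * n2 * M / m) (h2 : 0 ≤ N - g * B)
    (hW : W ≤ m * N / δ * (H / ((g + 1) * B) - Ψ / N) +
      (m * N / δ * (cost * ω) + g * B * (C2 * m / M) * (H + B * ω)) / B + (N - g * B) * lam +
      α * H)
    (hcost : cost * ω ≤ g * n2 * M / m * lam + g * n2 * ω) (hlam : lam ≤ β * H + γ * ω)
    (hpar : m * N / δ * (1 / ((g + 1) * B)) - m / δ + m * N / δ * (g * n2 * M / m) / B * β +
      g * C2 * m / M + (N - g * B) * β + α ≤ θ * m) :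
    W ≤ m / δ * (H - Ψ) + θ * m * H + (m * N / δ / B * (g * n2 * M / m * γ + g * n2) +
      g * (C2 * m / M) * B + (N - g * B) * γ) * ω := by
  have a1 := mul_le_mul_of_nonneg_right hpar hH
  have a2 := mul_le_mul_of_nonneg_left hlam h2
  have a3 := mul_le_mul_of_nonneg_left
    (hcost.trans (add_le_add (mul_le_mul_of_nonneg_left hlam h1) le_rfl))
    (by positivity : 0 ≤ m * N / δ / B)
  have e1 : m * N / δ * (H / ((g + 1) * B) - Ψ / N) =
      m * N / δ * (1 / ((g + 1) * B)) * H - m / δ * Ψ := by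
    have : m * N / δ * (Ψ / N) = m / δ * Ψ := by field_simp
    rw [mul_sub, this]; ring
  have e2 : (m * N / δ * (cost * ω) + g * B * (C2 * m / M) * (H + B * ω)) / B =
      m * N / δ / B * (cost * ω) + g * (C2 * m / M) * (H + B * ω) := by
    have : g * B * (C2 * m / M) * (H + B * ω) / B = g * (C2 * m / M) * (H + B * ω) := by
      rw [div_eq_iff hB.ne']; ring
    rw [add_div, this]; ring
  rw [e1, e2] at hW
  refine hW.trans ?_
  linear_combination a1 + a2 + a3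

namespace Model

variable {ι L : Type} [Fintype ι] [DecidableEq ι] [Field L] [Algebra ℂ L] (Mo : Model ι L)

/-- Apply `dec` to the kernels `f s` of `S s = pre π ((s + 1) * B)` (`exists_kernel` with
`S' = pre π (g * B)`) and `M1 = kl M0 S'`.  For `x ∈ blk π B g` let `α i = -log (v (e i (x)))`
(the values are positive since their product is, by the stability inequality, and at most `1`) and
`err = C2 m / M * (h x S' + ω)`.  For `i` with `α i < min (d x (S s)) (Λ ω) - err` all coordinates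
`(f s ᵥ* E⁻¹) l i` have value `< 1`; `RI.mul`, `RI.card_le` give the hypothesis of
`sum_le_of_count`.  Moreover `∑ α i ≤ m N / δ * (-log (pv M' x) - ψ x)`,
`∑ x, -log (pv M' x) ≤ -log (tv M' (blk)) ≤ HT (blk) + cost * ω` (`tv_le_prod_self`) and
`∑ x, h x S' ≤ H` (`sum_h_le`). -/
theorem block : ∃ C2 : ℕ, ∀ M : ℕ, 0 < M → ∃ n2 : ℕ, ∀ m, M ≤ m → C2 ≤ m → ∀ δ : ℚ, 0 < δ →
    Mo.Stab δ m → ∀ (N : ℕ) (b : Module.Basis (Fin N) ℂ (Mo.V m)) (nZ : ℕ) (R : Type) [Field R]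
      [Algebra ℂ R] [IsAlgClosed R] (G : Big Mo N nZ R) (g B Λ : ℕ) (π : Equiv.Perm (Fin N)),
      0 < B → (g + 1) * B ≤ N → g * n2 + Fintype.card ι + 1 ≤ nZ →
      ∑ x ∈ blk π B g, ((B : ℝ) * ∑ s ∈ Finset.range g,
        min (G.d (fun i => (b i : L)) x (pre π ((s + 1) * B))) (Λ * G.ω)) ≤
        (m : ℝ) * N / δ * (G.HT (blk π B g) - ∑ x ∈ blk π B g, G.ψ x) +
          ((m : ℝ) * N / δ * ((g * n2 * (M * Λ / m + 1) : ℕ) * G.ω) +
            g * B * ((C2 : ℝ) * m / M) * (G.H + B * G.ω)) := by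
  obtain ⟨C2, hdec⟩ := Mo.dec
  refine ⟨C2, fun M hM => ?_⟩
  obtain ⟨n2, hdec⟩ := hdec M hM
  refine ⟨n2, fun m hMm hC δ hδ hSt N b nZ R _ _ _ G g B Λ π hB hN hZ => ?_⟩
  have hσ : ∀ i, (b i : L) ∈ Mo.V m := fun i => (b i).2
  have hle : ∀ s : Fin g, ((s : ℕ) + 1) * B ≤ g * B := fun s => Nat.mul_le_mul_right _ s.2
  have hgB : g * B ≤ N := (Nat.mul_le_mul_right _ (Nat.le_succ g)).trans hN
  choose f hf1 hf2 hf3 hf4 hf5 using fun s : Fin g => G.exists_kernel hσ (pre_mono π (hle s))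
  obtain ⟨M', hM1, hM2, hcmp, hpt⟩ := hdec m hMm hC N b R G.v G.τ G.k0 nZ G.ξ G.D g _ f
    (G.kl G.M0 (pre π (g * B))) Λ G.abh G.τ_pos G.τ_lt G.τ_mem G.fresh hZ hf2
    (fun s => (hf1 s).1) (G.isLat_kl G.isLat_M0 _) (G.kl_subset _ _) (G.D_mem _)
    (fun D' hD s => hf3 s D' hD)
  have hm0 : (0 : ℝ) < m := by exact_mod_cast hM.trans_le hMm
  have hN0 : (0 : ℝ) < N := by
    exact_mod_cast (Nat.mul_pos (Nat.succ_pos g) hB).trans_le hN
  have hδ0 : (0 : ℝ) < δ := by exact_mod_cast hδ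
  have hdis := disjoint_pre_blk π B g
  have hpos : ∀ x ∈ blk π B g, 0 < G.pv (G.kl G.M0 (pre π (g * B))) x := fun x hx =>
    G.pv_pos (Finset.disjoint_right.1 hdis hx)
  have hpos' : ∀ x ∈ blk π B g, 0 < G.pv M' x := fun x hx =>
    (hpos x hx).trans_le (hcmp ι (fun i => G.x x (Mo.y i)) Finset.univ fun _ => G.x_mem _ _).2
  have key : ∀ x ∈ blk π B g, (B : ℝ) * ∑ s ∈ Finset.range g,
      min (G.d (fun i => (b i : L)) x (pre π ((s + 1) * B))) (Λ * G.ω) ≤
      (m : ℝ) * N / δ * (-Real.log (G.pv M' x) - G.ψ x) +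
        g * B * ((C2 : ℝ) * m / M) * (G.h x (pre π (g * B)) + G.ω) := by
    intro x hx
    obtain ⟨E, hE1, hE2, -, hst, hsm⟩ := hpt (G.x x) (G.x_mem x) (G.nrm x) (hpos x hx)
    have := maint_point hN _ (fun s => by rw [card_pre π ((hle s).trans hgB)]) f hf1 E hE1 hE2
      (fun i => G.v (∑ l, E i l * G.x x (b l)))
      (fun i => ker_sum_le (hE1 i) fun l => G.a_le hσ x l) (hpos x hx) (hpos' x hx) G.τ_pos
      (by positivity) (hst δ hδ.le hSt)
      (fun s => G.dv (G.a fun i => (b i : L)) x (pre π ((s + 1) * B))) (Λ := Λ)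
      (fun s l i => (hsm s l i).trans (max_le_max (hf5 s x) le_rfl))
    rwa [inv_div] at this
  refine (Finset.sum_le_sum key).trans ?_
  have a1 := (hcmp (Fin N × ι) (fun p => G.x p.1 (Mo.y p.2)) (blk π B g ×ˢ Finset.univ)
    fun _ => G.x_mem _ _).1
  have a2 : 0 < G.tv G.M0 (blk π B g) * G.v G.τ ^ (g * n2 * (M * Λ / m + 1)) :=
    mul_pos (G.tv_pos _) (pow_pos G.τ_pos _)
  have a3 := maint_log a2 (a1.trans (G.tv_le_prod_self hM1 hM2 (blk π B g)))
  rw [NNReal.coe_mul, NNReal.coe_pow, Real.log_mul (by exact_mod_cast (G.tv_pos _).ne')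
    (pow_ne_zero _ (by exact_mod_cast G.τ_pos.ne')), Real.log_pow, NNReal.coe_prod,
    Real.log_prod fun x hx => by exact_mod_cast (hpos' x hx).ne'] at a3
  have a4 := G.sum_h_le hdis
  rw [Finset.sum_add_distrib, ← Finset.mul_sum, ← Finset.mul_sum, Finset.sum_sub_distrib,
    Finset.sum_add_distrib, Finset.sum_neg_distrib, Finset.sum_const, card_blk π hN, nsmul_eq_mul,
    ← add_assoc, ← mul_add]
  refine add_le_add (mul_le_mul_of_nonneg_left ?_ (by positivity))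
    (mul_le_mul_of_nonneg_left (by linarith) (by positivity))
  unfold Big.HT Big.ω
  linarith

/-- Let `θ > 0` with `δ' / δ + δ' * θ * (1 + ε0) / ε0 ≤ 1`; take `ε` from `params`, `η` from
`exists_low`, `g, M` from `params`, `n2` the larger of the two constants of `t2` and `block`.  For
`m` large write `m = m' + r l` (`subst`), `q = finrank (V m')`, `B = N / (g + 1)`,
`α = C3 (m / M + m' + 1)`, `ρ = C3 m / q * H + C3 m ω`, `Λ = ⌈ρ / ω⌉₊`, `λ = Λ ω ∈ [ρ, ρ + ω]`.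
By `t2`, `d j S ≤ min (d j S) λ + α * h j S`.  With `π` from `avg` (for `min d λ`, `block`,
`sum_HT_le`), `det_eq` and `sum_h_pre` give
`W ≤ m N / δ * (H / ((g + 1) B) - Ψ / N) + e / B + (N - g B) λ + α H`, so that
`W ≤ m / δ * (H - Ψ) + θ m H + K ω` by `params` (`(M Λ / m : ℕ) ≤ M Λ / m`), with `K` depending only
on `m, N` and the constants.  `margin` gives `ε0 H ≤ (1 + ε0) (H - Ψ)`. -/
theorem mainT (hdim : Mo.Dim) {ε0 : ℚ} (h0 : 0 < ε0) (hM : Mo.Hyp Mo.h ε0) {δ : ℚ}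
    (hδ : 0 < δ) (hS : ∀ᶠ m in Filter.atTop, Mo.Stab δ m) {δ' : ℝ} (h1 : 0 < δ') (hδ' : δ' < δ) :
    ∀ᶠ m : ℕ in Filter.atTop, ∀ (N : ℕ) (b : Module.Basis (Fin N) ℂ (Mo.V m)),
      ∃ (nZ : ℕ) (K : ℝ), ∀ (R : Type) [Field R] [Algebra ℂ R] [IsAlgClosed R] (G : Big Mo N nZ R),
        0 < G.v (Matrix.of fun i j => G.x j (b i)).det ∧
        δ' * -Real.log (G.v (Matrix.of fun i j => G.x j (b i)).det) ≤
          m * (G.H - ∑ j, G.ψ j) + K * G.ω := by
  obtain ⟨C3, ht2⟩ := Mo.t2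
  obtain ⟨C2, hbl⟩ := Mo.block
  obtain ⟨n, c, C, hn, hc, hev⟩ := hdim
  have hδ0 : (0 : ℝ) < δ := by exact_mod_cast hδ
  have hε0 : (0 : ℝ) < ε0 := by exact_mod_cast h0
  have hθ : 0 < (1 - δ' / δ) * ε0 / (δ' * (1 + ε0)) := by
    have : 0 < 1 - δ' / δ := sub_pos.2 ((div_lt_one hδ0).2 hδ')
    positivity
  obtain ⟨ε, hε, hpar⟩ := params (C2 := C2) (C3 := C3) hδ0 hθ (Nat.cast_nonneg _)
    (Nat.cast_nonneg _)
  obtain ⟨htend, η, hη, hlow⟩ := exists_low (Nf := fun m => Module.finrank ℂ (Mo.V m)) hn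
    Mo.r_pos hc hev hε
  obtain ⟨g, M, hg, hM0, hpar⟩ := hpar η hη
  obtain ⟨na, ht2⟩ := ht2 M hM0
  obtain ⟨nb, hbl⟩ := hbl M hM0
  obtain ⟨m0, hpar⟩ := hpar nb
  have htend' := (tendsto_natCast_atTop_atTop (R := ℝ).comp htend).const_mul_atTop hη
  filter_upwards [hS, hlow, Filter.eventually_ge_atTop M, Filter.eventually_ge_atTop C2,
    Filter.eventually_ge_atTop C3, Filter.eventually_ge_atTop m0, htend.eventually_ge_atTop m0,
    htend'.eventually_ge_atTop ((C3 * na * M + 1 : ℕ) : ℝ)] with m hSt hlo hMm h2m h3m h0m h0N hq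
  intro N b
  have hN : Module.finrank ℂ (Mo.V m) = N := by
    rw [Module.finrank_eq_card_basis b, Fintype.card_fin]
  obtain ⟨m', l, hml, hm', hq'⟩ := hlo
  have hq1 : C3 * na * M + 1 ≤ Module.finrank ℂ (Mo.V m') := by exact_mod_cast hq.trans hq'
  simp only [hN] at h0N hq'
  obtain ⟨hB, hpar⟩ := hpar _ m' N _ h0m h0N hm' hq'
  have ht : ∀ (nZ : ℕ) (R : Type) [Field R] [Algebra ℂ R] [IsAlgClosed R] (G : Big Mo N nZ R),
      na + Fintype.card ι + 1 ≤ nZ → ∀ (S : Finset (Fin N)) (j : Fin N), j ∉ S →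
        G.d (fun i => (b i : L)) j S ≤ C3 * ((m : ℝ) / M + m' + 1) * G.h j S +
          C3 * (m : ℝ) / Module.finrank ℂ (Mo.V m') * G.H + C3 * (m : ℝ) * G.ω := by
    subst hml
    exact ht2 m' l hMm h3m (by omega) (by omega) N b
  have hbl := hbl _ hMm h2m δ hδ hSt N b
  have hBN : (g + 1) * (N / (g + 1)) ≤ N := Nat.mul_div_le N (g + 1)
  generalize N / (g + 1) = B at hB hpar hBN
  generalize Module.finrank ℂ (Mo.V m') = q at hpar ht
  have hσ : ∀ i, (b i : L) ∈ Mo.V m := fun i => (b i).2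
  have hli : LinearIndependent ℂ fun i => (b i : L) :=
    b.linearIndependent.map' (Mo.V _).subtype (Submodule.ker_subtype _)
  have hm0 : (0 : ℝ) < m := by exact_mod_cast hM0.trans_le hMm
  have hgB : g * B ≤ N := (Nat.mul_le_mul_right _ (Nat.le_succ g)).trans hBN
  have hN0 : (0 : ℝ) < N := by
    exact_mod_cast (Nat.mul_pos (Nat.succ_pos g) hB).trans_le hBN
  have hB0 : (0 : ℝ) < B := by exact_mod_cast hB
  have hgB' : (0 : ℝ) ≤ N - g * B := by
    rw [sub_nonneg]; exact_mod_cast hgB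
  refine ⟨g * nb + na + Fintype.card ι + 1, δ' * ((m : ℝ) * N / δ / B *
    (g * nb * M / m * (C3 * m + 1) + g * nb) + g * (C2 * m / M) * B + (N - g * B) * (C3 * m + 1)),
    fun R _ _ _ G => ?_⟩
  have hω := G.ω_pos
  have hH := G.H_nonneg
  obtain ⟨Λ, hΛ1, hΛ2⟩ : ∃ Λ : ℕ, C3 * (m : ℝ) / q * G.H + C3 * (m : ℝ) * G.ω ≤ Λ * G.ω ∧
      Λ * G.ω ≤ C3 * (m : ℝ) / q * G.H + (C3 * (m : ℝ) + 1) * G.ω := by
    refine ⟨⌈(C3 * (m : ℝ) / q * G.H + C3 * (m : ℝ) * G.ω) / G.ω⌉₊,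
      (div_le_iff₀ hω).1 (Nat.le_ceil _), ?_⟩
    have a1 := (Nat.ceil_lt_add_one (by positivity :
      0 ≤ (C3 * (m : ℝ) / q * G.H + C3 * (m : ℝ) * G.ω) / G.ω)).le
    have a2 := mul_le_mul_of_nonneg_right a1 hω.le
    rw [add_mul, div_mul_cancel₀ _ hω.ne'] at a2
    linarith
  obtain ⟨π, hπ⟩ := avg hB hBN (fun x S => min (G.d (fun i => (b i : L)) x S) (Λ * G.ω))
    (fun x S S' h hx => min_le_min (G.d_mono hσ hli h hx) le_rfl) G.HT G.ψ (by positivity)
    (fun π => hbl _ R G g B Λ π hB hBN (by omega))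
    (fun π => G.sum_HT_le (blk π B) (fun s s' h => disjoint_blk π B h) _)
  obtain ⟨hd1, hd2⟩ := G.det_eq hσ hli π
  refine ⟨hd1, ?_⟩
  rw [hd2]
  have hj : ∀ j ∈ (Finset.univ : Finset (Fin N)), G.d (fun i => (b i : L)) (π j) (pre π j) ≤
      (if (j : ℕ) < g * B then min (G.d (fun i => (b i : L)) (π j) (pre π j)) (Λ * G.ω) -
        Λ * G.ω else 0) + Λ * G.ω + C3 * ((m : ℝ) / M + m' + 1) * G.h (π j) (pre π j) := by
    intro j _
    have a1 := ht _ R G (by omega) _ _ (not_mem_pre π j)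
    have a2 : 0 ≤ C3 * ((m : ℝ) / M + m' + 1) * G.h (π j) (pre π j) :=
      mul_nonneg (by positivity) (G.h_nonneg _ _)
    split_ifs
    · rcases le_total (G.d (fun i => (b i : L)) (π j) (pre π j)) (Λ * G.ω) with h | h
      · rw [min_eq_left h]; linarith
      · rw [min_eq_right h]; linarith
    · linarith
  have hW := Finset.sum_le_sum hj
  rw [Finset.sum_add_distrib, Finset.sum_add_distrib, ← Finset.sum_filter, Finset.sum_sub_distrib,
    Finset.sum_const, Finset.sum_const, ← Finset.mul_sum, G.sum_h_pre, Fin.card_filter_val_lt,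
    min_eq_right hgB, Finset.card_univ, Fintype.card_fin, nsmul_eq_mul, nsmul_eq_mul,
    Nat.cast_mul] at hW
  have hcost : ((g * nb * (M * Λ / m + 1) : ℕ) : ℝ) * G.ω ≤
      g * nb * M / m * (Λ * G.ω) + g * nb * G.ω := by
    have a1 : ((M * Λ / m : ℕ) : ℝ) ≤ M * Λ / m := by
      simpa only [Nat.cast_mul] using Nat.cast_div_le (α := ℝ) (m := M * Λ) (n := m)
    have a2 := mul_le_mul_of_nonneg_left a1 (by positivity : 0 ≤ (g : ℝ) * nb * G.ω)
    rw [Nat.cast_mul, Nat.cast_mul, Nat.cast_add, Nat.cast_one]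
    linear_combination a2
  have key := maint_arith (W := ∑ j, G.d (fun i => (b i : L)) (π j) (pre π j))
    (Ψ := ∑ j, G.ψ j) hB0 hN0 hδ0 hm0 hH
    (by positivity) hgB' (by linear_combination hW + hπ) hcost hΛ2 hpar
  have hmar := G.margin h0.le hM
  have a1 : (1 - δ' / δ) * ε0 / (δ' * (1 + ε0)) * G.H ≤
      (1 - δ' / δ) / δ' * (G.H - ∑ j, G.ψ j) := by
    have b1 : 0 < 1 - δ' / δ := sub_pos.2 ((div_lt_one hδ0).2 hδ')
    have b2 : (ε0 : ℝ) / (1 + ε0) * G.H ≤ G.H - ∑ j, G.ψ j := by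
      rw [div_mul_eq_mul_div, div_le_iff₀ (by positivity)]
      linarith
    refine le_trans (le_of_eq ?_) (mul_le_mul_of_nonneg_left b2 (by positivity))
    field_simp
  have a2 := mul_le_mul_of_nonneg_left a1 (by positivity : 0 ≤ δ' * m)
  have a3 : δ' * m * ((1 - δ' / δ) / δ' * (G.H - ∑ j, G.ψ j)) =
      m * (1 - δ' / δ) * (G.H - ∑ j, G.ψ j) := by field_simp
  rw [a3] at a2
  linear_combination (mul_le_mul_of_nonneg_left key h1.le) + a2

end Model

end Pool.Agent.MP_c0606f_ag.Klt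

end

-- part MP_c0606f_ag.Klt.MainL
section

/-! The main lower bound. -/

namespace Pool.Agent.MP_c0606f_ag.Klt

open scoped NNReal

/-- the elements killed by a family of derivations -/
def mainlKer {R : Type} [Field R] [Algebra ℂ R] {Z : Type} (D : Z → Derivation ℂ R R) :
    IntermediateField ℂ R where
  carrier := {a | ∀ z, D z a = 0}
  mul_mem' := fun {a b} ha hb z => by rw [Derivation.leibniz, ha z, hb z]; simp
  add_mem' := fun {a b} ha hb z => by rw [map_add, ha z, hb z, add_zero]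
  algebraMap_mem' := fun c z => (D z).map_algebraMap c
  inv_mem' := fun a ha z => by rw [Derivation.leibniz_inv, ha z, smul_zero]

theorem mainl_root {R : Type} [Field R] [Algebra ℂ R] (E : Derivation ℂ R R) {τ : R} (h0 : τ ≠ 0)
    {n : ℕ} (hn : 0 < n) (h : E (τ ^ n) = 0) : E τ = 0 := by
  have : CharZero R := charZero_of_injective_algebraMap (algebraMap ℂ R).injective
  rw [Derivation.leibniz_pow, nsmul_eq_mul, smul_eq_mul] at h
  have h1 : (n : R) ≠ 0 := Nat.cast_ne_zero.2 hn.ne'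
  simpa [h1, h0] using h

theorem mainl_ext {R R' : Type} [Field R] [Algebra ℂ R] [Field R'] [Algebra ℂ R']
    (j : R →ₐ[ℂ] R') (E : Derivation ℂ R R) (E' : Derivation ℂ R' R') (G : Set R)
    (hG : ∀ a ∈ G, E' (j a) = j (E a)) {a : R} (ha : IsAlgebraic (Algebra.adjoin ℂ G) a) :
    E' (j a) = j (E a) := by
  have := der_comp_eq j E' (fun _ : Unit => E) (fun _ => 1) G (by simpa using hG) ha
  simpa using this

theorem mainl_det {R R' : Type} [Field R] [Algebra ℂ R] [Field R'] [Algebra ℂ R']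
    (j : R →ₐ[ℂ] R') {α : Type} [Fintype α] [DecidableEq α] (A : α → α → R) :
    (Matrix.of fun i l => j (A i l)).det = j (Matrix.of A).det := by
  rw [AlgHom.map_det]
  rfl

/-- Adjoin fresh variables and a root of the uniformiser.  Take a frame `(t, u)` of `v` and
`exists_adj` with `Z = Option (Fin nZ)`; `τ ^ μ0 = j t * ξ none`.  `D z` are the dual derivations
(`IsFrame.exists_dual`), `k0` is the field of elements killed by all `D (some z)`
(`der_kill_alg` shows that it contains `j R` and `τ`).  Every `E ∈ LD v ∅` extends to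
`E' ∈ LD w {τ}`: prescribe `E' (j t) = j (E t)`, `E' (j (u i)) = j (E (u i))`,
`E' (ξ (some z)) = 0`, `E' (ξ none) = -ξ none * j (E t / t)` (`exists_der`, `IsFrame.basis`,
`mem_LD_of_frame`, and `der_unique` for `E' ∘ j - j ∘ E`). -/
theorem exists_big {R : Type} [Field R] [Algebra ℂ R] {v : Val R} (hv : IsAbh v) (nZ : ℕ) {η : ℝ}
    (hη : 0 < η) : ∃ (R' : Type) (_ : Field R') (_ : Algebra ℂ R') (_ : IsAlgClosed R')
      (j : R →ₐ[ℂ] R') (w : Val R') (τ : R') (k0 : IntermediateField ℂ R') (ξ : Fin nZ → R')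
      (D : Fin nZ → Derivation ℂ R' R'), (∀ a, w (j a) = v a) ∧ IsAbh w ∧ 0 < w τ ∧ w τ < 1 ∧
      -Real.log (w τ) ≤ η ∧ τ ∈ k0 ∧ (∀ a, j a ∈ k0) ∧ Fresh w k0 ξ D ∧
      ∀ (α : Type) [Fintype α] [DecidableEq α] (Y : α → R),
        avol v Y ≤ evol w {τ} fun p => j (Y p) := by
  classical
  obtain ⟨q, t, u, hf⟩ := hv
  obtain ⟨R', _, _, _, j, w, ξ, hw, hF⟩ := exists_adj hf (Option (Fin nZ))
  obtain ⟨D0, D, hd, -, hD, -⟩ := hF.exists_dual
  obtain ⟨μ, hμ⟩ := exists_nat_gt (-Real.log (v t) / η)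
  have hlog : 0 < -Real.log (v t) :=
    neg_pos.2 (Real.log_neg (by exact_mod_cast hf.pos) (by exact_mod_cast hf.lt))
  have hμ0 : 0 < μ := by
    have : (0 : ℝ) < μ := (div_pos hlog hη).trans hμ
    exact_mod_cast this
  obtain ⟨τ, hτ⟩ := IsAlgClosed.exists_pow_nat_eq (j t * ξ none) hμ0
  have hξ : ∀ o, w (ξ o) = 1 := fun o => hF.res.val_eq (Sum.inr o)
  have hwτ : w τ ^ μ = v t := by rw [← map_pow, hτ, map_mul, hw, hξ, mul_one]
  have hpos : 0 < w τ := by
    refine pos_iff_ne_zero.2 fun h => ?_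
    rw [h, zero_pow hμ0.ne'] at hwτ
    exact hf.pos.ne hwτ
  have hτ0 : τ ≠ 0 := by
    rintro rfl
    simp at hpos
  have ht0 : t ≠ 0 := by
    rintro rfl
    simpa using hf.pos
  have hlt : w τ < 1 := by
    by_contra h
    exact absurd (hwτ ▸ one_le_pow₀ (not_lt.1 h)) (not_le.2 hf.lt)
  refine ⟨R', _, _, inferInstance, j, w, τ, mainlKer fun z => D (Sum.inr (some z)),
    fun z => ξ (some z), fun z => D (Sum.inr (some z)), hw, hF.isAbh, hpos, hlt, ?_, ?_, ?_,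
    ⟨fun z => ⟨(hD _).1, fun a ha => ha z⟩, fun z => (hξ _).le, fun a b => ?_⟩, ?_⟩
  · have h2 : (μ : ℝ) * Real.log (w τ) = Real.log (v t) := by
      rw [← Real.log_pow, ← hwτ, NNReal.coe_pow]
    have h3 : (0 : ℝ) < μ := by exact_mod_cast hμ0
    rw [div_lt_iff₀ hη] at hμ
    refine le_of_mul_le_mul_left ?_ h3
    linarith
  · intro z
    refine mainl_root _ hτ0 hμ0 ?_
    have h2 : D (Sum.inr (some z)) (ξ none) = 0 := by
      simpa using hd.uu (Sum.inr (some z)) (Sum.inr none)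
    rw [hτ, Derivation.leibniz, hd.ut, h2]
    simp
  · intro a z
    have := mainl_ext j 0 (D (Sum.inr (some z))) (insert t (Set.range u)) ?_ (hf.alg a)
    · simpa using this
    · rintro _ (rfl | ⟨i, rfl⟩)
      · simpa using hd.ut _
      · simpa using hd.uu (Sum.inr (some z)) (Sum.inl i)
  · simpa using hd.uu (Sum.inr (some a)) (Sum.inr (some b))
  · have key : ∀ E ∈ LD v ∅, ∃ E' ∈ LD w {τ}, ∀ a, E' (j a) = j (E a) := by
      intro E hE
      obtain ⟨E', hE'⟩ := exists_der hF.basis fun o => o.elim (j (E t))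
        (Sum.elim (fun i => j (E (u i))) fun o' => o'.elim (-ξ none * j (E t / t)) fun _ => 0)
      have e0 : E' (j t) = j (E t) := hE' none
      have e1 : ∀ i, E' (j (u i)) = j (E (u i)) := fun i => hE' (some (Sum.inl i))
      have e2 : E' (ξ none) = -ξ none * j (E t / t) := hE' (some (Sum.inr none))
      have e3 : ∀ z, E' (ξ (some z)) = 0 := fun z => hE' (some (Sum.inr (some z)))
      refine ⟨E', ⟨(mem_LD_of_frame hF E' ?_ ?_).1, ?_⟩, fun a => ?_⟩
      · rw [e0, hw, hw]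
        exact hE.1 t
      · rintro (i | _ | z)
        · change w (E' (j (u i))) ≤ 1
          rw [e1, hw, ← hf.res.val_eq i]
          exact hE.1 _
        · change w (E' (ξ none)) ≤ 1
          rw [e2, map_mul, Valuation.map_neg, hξ, one_mul, hw]
          exact ent_div_le (hE.1 t)
        · change w (E' (ξ (some z))) ≤ 1
          rw [e3, map_zero]
          exact zero_le
      · rintro a rfl
        refine mainl_root _ hτ0 hμ0 ?_
        have h2 : j t ≠ 0 := (map_ne_zero j).2 ht0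
        rw [hτ, Derivation.leibniz, e0, e2, map_div₀, smul_eq_mul, smul_eq_mul]
        field_simp
        ring
      · refine mainl_ext j E E' (insert t (Set.range u)) ?_ (hf.alg a)
        rintro _ (rfl | ⟨i, rfl⟩)
        · exact e0
        · exact e1 i
    intro α _ _ Y
    refine lat_evol_le v ∅ Y fun E hE => ?_
    choose E' hE' hj using fun i => key (E i) (hE i)
    have h2 := lat_le_evol w {τ} (fun p => j (Y p)) E' hE'
    simp only [hj] at h2
    rwa [mainl_det j fun i l => E i (Y l), hw] at h2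

/-- If `avol = 0` the claim is clear for `m > 0`.  Otherwise apply `mainT` to the configuration
given by `exists_big` and let `η → 0`. -/
theorem Model.mainL {ι L : Type} [Fintype ι] [DecidableEq ι] [Field L] [Algebra ℂ L]
    (Mo : Model ι L) (hdim : Mo.Dim) {ε0 : ℚ} (h0 : 0 < ε0) (hM : Mo.Hyp Mo.h ε0) {δ : ℚ}
    (hδ : 0 < δ) (hS : ∀ᶠ m in Filter.atTop, Mo.Stab δ m) {δ' : ℝ} (h1 : 0 < δ')
    (hδ' : δ' < δ) :
    ∀ᶠ m : ℕ in Filter.atTop, ∀ (N : ℕ) (b : Module.Basis (Fin N) ℂ (Mo.V m)) (R : Type) [Field R]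
      [Algebra ℂ R] (v : Val R) (x : Fin N → L →ₐ[ℂ] R), IsAbh v →
      (∀ j, Mo.Nrm v (x j).toRingHom) →
      avol v (fun p : Fin N × ι => x p.1 (Mo.y p.2)) ^ m ≤
        v (Matrix.of fun i j => x j (b i)).det ^ δ' * (∏ j, v (x j Mo.h)) ^ m := by
  filter_upwards [Mo.mainT hdim h0 hM hδ hS h1 hδ', Filter.eventually_gt_atTop 0] with m hm hm0
  intro N b R _ _ v x hv hx
  obtain ⟨nZ, K, hK⟩ := hm N b
  set A := avol v fun p : Fin N × ι => x p.1 (Mo.y p.2) with hA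
  rcases eq_or_ne A 0 with hA0 | hA0
  · rw [hA0, zero_pow hm0.ne']
    exact zero_le
  have hApos : (0 : ℝ) < A := by exact_mod_cast pos_iff_ne_zero.2 hA0
  set W := v (Matrix.of fun i j => x j (b i)).det with hW
  have key : ∀ η : ℝ, 0 < η → 0 < W ∧ δ' * -Real.log W ≤
      m * (-Real.log A - ∑ j, -Real.log (v (x j Mo.h))) + |K| * η := by
    intro η hη
    obtain ⟨R', _, _, _, j, w, τ, k0, ξ, D, hw, habh, hτ0, hτ1, hτη, hτk, hjk, hfr, hvol⟩ :=
      exists_big hv nZ hη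
    have hle : A ≤ evol w {τ} fun p : Fin N × ι => j (x p.1 (Mo.y p.2)) := hvol _ _
    let G : Big Mo N nZ R' :=
      { v := w, τ := τ, x := fun l => j.comp (x l), k0 := k0, ξ := ξ, D := D, abh := habh
        τ_pos := hτ0, τ_lt := hτ1
        nrm := fun l => by
          obtain ⟨h2, i, h3⟩ := hx l
          exact ⟨fun i => (hw _).trans_le (h2 i), i, (hw _).trans h3⟩
        τ_mem := hτk, x_mem := fun l a => hjk _, fresh := hfr
        pos := (pos_iff_ne_zero.2 hA0).trans_le hle }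
    obtain ⟨h2, h3⟩ := hK R' G
    have h4 : G.v (Matrix.of fun i l => G.x l (b i)).det = W := by
      rw [hW, ← hw, ← mainl_det j fun i l => x l (b i)]
      rfl
    have h5 : ∑ l, G.ψ l = ∑ l, -Real.log (v (x l Mo.h)) :=
      Finset.sum_congr rfl fun l _ => by rw [← hw]; rfl
    have h6 : G.H ≤ -Real.log A := by
      have h7 : G.tv G.M0 Finset.univ = evol w {τ} fun p : Fin N × ι => j (x p.1 (Mo.y p.2)) := by
        rw [Big.tv, Finset.univ_product_univ]
        rfl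
      rw [Big.H, Big.HT, h7, neg_le_neg_iff]
      exact Real.log_le_log hApos (by exact_mod_cast hle)
    have h8 : K * G.ω ≤ |K| * η :=
      (mul_le_mul_of_nonneg_right (le_abs_self K) G.ω_pos.le).trans
        (mul_le_mul_of_nonneg_left hτη (abs_nonneg K))
    rw [h4] at h2 h3
    rw [h5] at h3
    refine ⟨h2, h3.trans (add_le_add ?_ h8)⟩
    exact mul_le_mul_of_nonneg_left (sub_le_sub_right h6 _) (Nat.cast_nonneg m)
  have hWpos : (0 : ℝ) < W := by exact_mod_cast (key 1 one_pos).1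
  have h2 : δ' * -Real.log W ≤ m * (-Real.log A - ∑ j, -Real.log (v (x j Mo.h))) := by
    refine le_of_forall_pos_le_add fun ε hε => ?_
    have h3 : 0 < |K| + 1 := by positivity
    refine (key (ε / (|K| + 1)) (div_pos hε h3)).2.trans (add_le_add le_rfl ?_)
    rw [← mul_div_assoc, div_le_iff₀ h3]
    nlinarith [abs_nonneg K]
  have hh : ∀ j, (0 : ℝ) < v (x j Mo.h) := fun j => by
    have : v (x j Mo.h) ≠ 0 := v.ne_zero_iff.2 ((map_ne_zero (x j)).2 Mo.h_ne)
    exact_mod_cast pos_iff_ne_zero.2 this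
  have hP : (0 : ℝ) < ∏ j, (v (x j Mo.h) : ℝ) := Finset.prod_pos fun j _ => hh j
  rw [← NNReal.coe_le_coe, NNReal.coe_mul, NNReal.coe_pow, NNReal.coe_pow, NNReal.coe_rpow,
    NNReal.coe_prod, ← Real.log_le_log_iff (pow_pos hApos m)
      (mul_pos (Real.rpow_pos_of_pos hWpos _) (pow_pos hP m)),
    Real.log_mul (Real.rpow_pos_of_pos hWpos _).ne' (pow_pos hP m).ne', Real.log_pow, Real.log_pow,
    Real.log_rpow hWpos, Real.log_prod fun j _ => (hh j).ne']
  rw [Finset.sum_neg_distrib] at h2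
  linarith

end Pool.Agent.MP_c0606f_ag.Klt

end

-- part MP_c0606f_ag.Klt.BFinal
section

/-! Assembly. -/

namespace Pool.Agent.MP_c0606f_ag.Klt

open scoped NNReal ENNReal WithZero Topology
open Filter MvPolynomial

variable {K : Type} [Field K] [Algebra ℂ K] {n k r : ℕ} {y : Fin n → K} {s : Fin (k + 1) → K}

/-- sections as homogeneous functions on the cone -/
noncomputable def VV (y : Fin n → K) (s : Fin (k + 1) → K) (m : ℕ) : Submodule ℂ (RatFunc K) :=
  (H0 y s m).map (hom m)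

/-- the identification of sections with homogeneous functions -/
noncomputable def eqV (y : Fin n → K) (s : Fin (k + 1) → K) (m : ℕ) :
    H0 y s m ≃ₗ[ℂ] VV y s m := Submodule.equivMapOfInjective _ (hom_injective m) _

theorem coe_eqV (m : ℕ) (g : H0 y s m) : (eqV y s m g : RatFunc K) = hom m (g : K) := rfl

theorem exists_model (N : NN n s) (hX : IsKltFano r y s) :
    ∃ (Mo : Model (Option (Fin n)) (RatFunc K)) (W : K) (e0 C : ℕ), Mo.y = N.Y r ∧
      (∀ m, Mo.V m = VV y s m) ∧ Mo.h = hom e0 W ∧ W ≠ 0 ∧ W ∈ H0 y s e0 ∧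
      IsJac (N.Y r) (yt y) (hom e0 W) ∧ VData y s C := by
  obtain ⟨W, hW0, hW, hJ⟩ := N.exists_jac hX
  obtain ⟨Cv, δ0, c0, D, hy, hδ, hinv, hz, hΔ, hD, hrep⟩ :=
    N.exists_cover hX hW0 (r * (n + 1) - 1)
  have hδ0 : δ0 ≠ 0 := fun h => Cv.Δ_ne (by simpa [h] using hδ)
  have hint : ∀ m, ∀ a ∈ VV y s m, IsIntegral (Algebra.adjoin ℂ (Set.range Cv.y)) a := by
    rintro m _ ⟨g, hg, rfl⟩
    rw [hy]; exact N.integral hX hg
  have hrep' : ∀ m, ∀ a ∈ VV y s m, ∃ p : ℕ → MvPolynomial (Option (Fin n)) ℂ,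
      (∀ j, (p j).IsHomogeneous (D m j)) ∧
      a * aeval Cv.y δ0 = ∑ j ∈ Finset.range Cv.P.natDegree, aeval Cv.y (p j) * Cv.z ^ j := by
    intro m a ha
    have hi := hint m a ha
    obtain ⟨g, hg, rfl⟩ := ha
    exact hrep m g hi
  have hfr := fun m => finrank_le_of_rep Cv.y Cv.z _ (Cv.aeval_ne hδ0) Cv.P.natDegree (m + c0)
    (D m) (hD m) (VV y s m) (hrep' m)
  have hfin : ∀ m, Module.Finite ℂ (H0 y s m) := fun m =>
    have := (hfr m).1
    Module.Finite.equiv (eqV y s m).symm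
  obtain ⟨C₀, hC₀⟩ := N.exists_ne hX hW0 hW
  obtain ⟨C₁, hC₁⟩ := N.exists_VK hX Cv hy hfin ⟨C₀, hC₀⟩
  refine ⟨{ Cv with
    r := r
    V := VV y s
    h := hom (r * (n + 1) - 1) W
    δ0 := δ0
    c0 := c0
    e0 := r * (n + 1) - 1
    r_pos := hX.pos
    δ0_dvd := hδ
    fin := fun m => (hfr m).1
    rep := fun m a ha => ?_
    int := hint
    mul := ?_
    h_mem := ⟨W, hW, rfl⟩
    h_ne := hom_ne _ hW0
    h_inv := hinv
    reg := fun G hG H => N.reg hX Cv hy hz hΔ (hom_ne _ hW0) hJ G hG H }, W, r * (n + 1) - 1,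
    C₀ + C₁ + Cv.P.natDegree * (c0 + 1) ^ n, hy, fun _ => rfl, rfl, hW0, hW, hJ, hfin, fun m => ?_,
    fun V h1 h2 h3 m l e m' he hm => hC₁ V h1 h2 h3 m l e m' he ?_, fun m hm => ?_⟩
  · obtain ⟨p, hp, hp'⟩ := hrep' m a ha
    exact ⟨p, fun j => (hp j).totalDegree_le.trans (hD m j), hp'⟩
  · rintro m i _ ⟨g, hg, rfl⟩
    refine ⟨g * N.S i, H0_mul hg (N.S_mem hX i), ?_⟩
    change _ = hom m g * Cv.y i
    rw [hy, NN.Y, hom_mul]
  · rw [(eqV y s m).finrank_eq]
    refine (hfr m).2.trans ?_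
    calc Cv.P.natDegree * (m + c0 + 1) ^ n ≤ Cv.P.natDegree * ((c0 + 1) * (m + 1)) ^ n :=
          Nat.mul_le_mul_left _ (Nat.pow_le_pow_left (by nlinarith) _)
      _ = Cv.P.natDegree * (c0 + 1) ^ n * (m + 1) ^ n := by rw [mul_pow, mul_assoc]
      _ ≤ _ := Nat.mul_le_mul_right _ (Nat.le_add_left _ _)
  · refine le_trans (Nat.add_le_add_left (Nat.mul_le_mul_right _ ?_) _) hm
    omega
  · obtain ⟨θ, hθ, h0⟩ := hC₀ m (by omega)
    have := hfin m
    exact Module.finrank_pos_iff_exists_ne_zero.mpr ⟨⟨θ, hθ⟩, fun h => h0 (congrArg Subtype.val h)⟩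

theorem eventually_lt_lct (hX : IsKltFano r y s) (hn : 0 < n) (Nn : ℕ → ℕ)
    (b : ∀ m, Module.Basis (Fin (Nn m)) ℂ (H0 y s m)) {a : ℝ≥0∞} (ha : a < delta r y s) :
    ∀ᶠ m in atTop, a < lct r y s m fun i => (b m i : K) := by
  obtain ⟨N⟩ := exists_NN hX
  obtain ⟨Mo, W, e0, C, hy, hV, hh, hW0, hW, hJ, hD⟩ := exists_model N hX
  obtain ⟨θ₁, -, h1, h2⟩ := ENNReal.lt_iff_exists_real_btwn.mp ha
  obtain ⟨θ₃, -, h3, h4⟩ := ENNReal.lt_iff_exists_real_btwn.mp h2
  have hθ₁ : 0 < θ₁ := by simpa using lt_of_le_of_lt (zero_le) h1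
  have h13 : θ₁ < θ₃ := (ENNReal.ofReal_lt_ofReal_iff'.mp h3).1
  obtain ⟨d, hd1, hd3⟩ := exists_rat_btwn h13
  have hd0 : (0 : ℝ) < d := hθ₁.trans hd1
  obtain ⟨B, hB0, hB⟩ := exists_secOrd_le N hX hD (lt_of_le_of_lt (zero_le) ha) hW hW0
  have hrk : ∀ m, Module.finrank ℂ (Mo.V m) = Module.finrank ℂ (H0 y s m) := fun m => by
    rw [hV, (eqV y s m).finrank_eq]
  have hdim : Mo.Dim := by
    obtain ⟨c, B', hc, h⟩ := hD.dim
    exact ⟨n, c, B', hn, hc, by simpa only [hrk] using h⟩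
  obtain ⟨ε0, hε1, hε2⟩ := exists_rat_btwn (show (0 : ℝ) < 1 / (2 * B) by positivity)
  have hM : Mo.Hyp Mo.h ε0 := by
    rw [hh]
    refine N.hyp hX Mo hy hh hW0 hJ hB0 hB hW0 e0 ε0 (κ := 1 / 2) (by norm_num) fun w hw => ?_
    have h5 := hX.klt w hw
    have h6 : (ε0 : ℝ) * B ≤ 1 / 2 := by
      rw [lt_div_iff₀ (by positivity)] at hε2
      linarith
    calc (ε0 : ℝ) * secOrd r s w e0 W ≤ ε0 * (B * logDisc r y s w) :=
          mul_le_mul_of_nonneg_left (hB w hw) hε1.le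
      _ = (ε0 * B) * logDisc r y s w := by ring
      _ ≤ _ := mul_le_mul_of_nonneg_right h6 h5.le
  have hS : ∀ᶠ m in atTop, Mo.Stab d m := by
    filter_upwards [eventually_stab N hX hD (hθ₁.trans h13) h4, eventually_ge_atTop C,
      eventually_ge_atTop 1] with m hm hC h1m q β
    have hq : q = Module.finrank ℂ (H0 y s m) := by
      rw [← hrk, Module.finrank_eq_card_basis β, Fintype.card_fin]
    have hq0 : 0 < q := hq ▸ hD.pos m hC
    have hmem : ∀ l, ∃ g ∈ H0 y s m, hom m g = (β l : RatFunc K) := fun l => by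
      have : (β l : RatFunc K) ∈ VV y s m := hV m ▸ (β l).2
      exact this
    choose g hg1 hg2 using hmem
    have hli : LinearIndependent ℂ g := by
      refine LinearIndependent.of_comp (hom m) ?_
      have := β.linearIndependent.map' (Mo.V m).subtype (Submodule.ker_subtype _)
      have e : (hom m : K → RatFunc K) ∘ g = (Mo.V m).subtype ∘ β := funext hg2
      rw [e]; exact this
    have hne : ∀ l, g l ≠ 0 := hli.ne_zero
    have hprod : ∏ l, (β l : RatFunc K) = hom (q * m) (∏ l, g l) := by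
      simp only [← hg2]
      rw [hom_prod, Finset.card_univ, Fintype.card_fin]
    rw [hprod]
    refine N.hyp hX Mo hy hh hW0 hJ hB0 hB (Finset.prod_ne_zero_iff.mpr fun l _ => hne l) _ _
      (κ := d / θ₃) ((div_lt_one (hθ₁.trans h13)).mpr hd3) fun w hw => ?_
    have h5 := hm w hw q g hli hg1
    have h6 := secOrd_prod (r := r) (s := s) w Finset.univ m (g := g) fun l _ => hne l
    rw [Finset.card_univ, Fintype.card_fin] at h6
    rw [h6, ← hq] at *
    have hθ₃ : 0 < θ₃ := hθ₁.trans h13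
    have hmq : (0 : ℝ) < (m : ℝ) * q := by positivity
    push_cast
    rw [div_mul_eq_mul_div, div_mul_eq_mul_div, div_le_div_iff₀ hmq hθ₃]
    nlinarith [mul_le_mul_of_nonneg_left h5 hd0.le]
  have hmain := Mo.mainL hdim (by exact_mod_cast hε1) hM (by exact_mod_cast hd0) hS hθ₁ hd1
  filter_upwards [hmain, eventually_ge_atTop C, eventually_ge_atTop 1] with m hm hC h1m
  have hq : Nn m = Module.finrank ℂ (H0 y s m) := by
    rw [Module.finrank_eq_card_basis (b m), Fintype.card_fin]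
  refine h1.trans_le (N.le_lct hX hn (hom_ne e0 hW0) hJ h1m (hq ▸ hD.pos m hC) _ hθ₁ ?_)
  intro R _ _ v x hv hx
  have := hm (Nn m) (((b m).map (eqV y s m)).map (LinearEquiv.ofEq _ _ (hV m).symm)) R v x hv
    (fun j => by unfold Model.Nrm; rw [hy]; exact hx j)
  simpa only [hy, hh, Module.Basis.map_apply, LinearEquiv.coe_ofEq_apply, coe_eqV] using this

theorem eventually_lct_lt (hX : IsKltFano r y s) (hn : 0 < n) (Nn : ℕ → ℕ)
    (b : ∀ m, Module.Basis (Fin (Nn m)) ℂ (H0 y s m)) {a : ℝ≥0∞} (ha : delta r y s < a) :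
    ∀ᶠ m in atTop, lct r y s m (fun i => (b m i : K)) < a := by
  obtain ⟨N⟩ := exists_NN hX
  obtain ⟨-, -, -, C, -, -, -, -, -, -, hD⟩ := exists_model N hX
  simp only [delta, iInf_lt_iff] at ha
  obtain ⟨w, hw, ha⟩ := ha
  set S := (∫⁻ t in Set.Ioi (0 : ℝ), vol r y s w t) / vol r y s w 0 with hS
  set A := ENNReal.ofReal (logDisc r y s w) with hA
  have hA0 : A ≠ 0 := by simpa [hA] using hX.klt w hw
  have hAt : A ≠ ⊤ := ENNReal.ofReal_ne_top
  obtain ⟨g, hg1, hg2⟩ := exists_between ha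
  have hg0 : g ≠ 0 := (lt_of_le_of_lt (zero_le) hg1).ne'
  have hgt : g ≠ ⊤ := ne_top_of_lt hg2
  have h9 : A / g < S := by
    by_contra h
    push Not at h
    rw [ENNReal.le_div_iff_mul_le (Or.inl hg0) (Or.inl hgt)] at h
    have h' : g ≤ A / S := by
      rw [ENNReal.le_div_iff_mul_le (Or.inr hA0) (Or.inr hAt), mul_comm]
      exact h
    exact absurd hg1 (not_lt.mpr h')
  obtain ⟨σ, -, hσ1, hσ2⟩ := ENNReal.lt_iff_exists_real_btwn.mp h9
  have hσ : 0 < σ := by simpa using lt_of_le_of_lt (zero_le) hσ1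
  have h11 : A / ENNReal.ofReal σ ≤ g := by
    rw [ENNReal.div_le_iff (by simpa using hσ) ENNReal.ofReal_ne_top, mul_comm,
      ← ENNReal.div_le_iff hg0 hgt]
    exact hσ1.le
  filter_upwards [eventually_adapted N hX hD hw hσ2, eventually_ge_atTop C,
    eventually_ge_atTop 1] with m hm hC h1m
  have hq : Nn m = Module.finrank ℂ (H0 y s m) := by
    rw [Module.finrank_eq_card_basis (b m), Fintype.card_fin]
  have hpos := hD.pos m hC
  rw [← hq] at hm hpos
  obtain ⟨f, hf1, hf2, hf3⟩ := hm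
  refine lt_of_le_of_lt ((lct_le hX hw hn h1m hpos _ f hf1 (fun i => ?_) hσ hf3).trans h11) hg2
  have h1 : (⟨f i, hf2 i⟩ : H0 y s m) ∈ Submodule.span ℂ (Set.range (b m)) := by
    rw [(b m).span_eq]; trivial
  have h2 := Submodule.mem_map_of_mem (f := (H0 y s m).subtype) h1
  rw [Submodule.map_span, ← Set.range_comp] at h2
  exact h2

theorem tendsto_lct (hX : IsKltFano r y s) (Nn : ℕ → ℕ)
    (b : ∀ m, Module.Basis (Fin (Nn m)) ℂ (H0 y s m)) :
    Tendsto (fun m => lct r y s m fun i => (b m i : K)) atTop (𝓝 (delta r y s)) := by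
  rcases Nat.eq_zero_or_pos n with rfl | hn
  · simp only [lct_zero hX, delta_zero hX]
    exact tendsto_const_nhds
  · exact tendsto_order.mpr ⟨fun _ ha => eventually_lt_lct hX hn Nn b ha,
      fun _ ha => eventually_lct_lt hX hn Nn b ha⟩

end Pool.Agent.MP_c0606f_ag.Klt

end
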