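import Pool.Agent.MP_c0606f_ag.Mg.Klt_Der
import Pool.Agent.MP_c0606f_ag.Klt.Defs
import Mathlib

-- part MP_c0606f_ag.Klt.Lat
section

/-! The derivations dual to a frame are logarithmically integral; formulas for volumes. -/

namespace Pool.Agent.MP_c0606f_ag.Klt

open scoped NNReal
open MvPolynomial

variable {L : Type} [Field L] [Algebra ℂ L] {v : Val L} {κ : Type} [Fintype κ] [DecidableEq κ]
  {t : L} {u : κ → L}

theorem lat_const_le {w : Val L} (htriv : ∀ c : ℂ, c ≠ 0 → w (algebraMap ℂ L c) = 1) (c : ℂ) :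
    w (algebraMap ℂ L c) ≤ 1 := by
  by_cases hc : c = 0
  · simp [hc]
  · exact (htriv c hc).le

theorem lat_aeval_le {w : Val L} (htriv : ∀ c : ℂ, c ≠ 0 → w (algebraMap ℂ L c) = 1) {σ : Type}
    (y : σ → L) (hy : ∀ i, w (y i) ≤ 1) (p : MvPolynomial σ ℂ) : w (aeval y p) ≤ 1 := by
  induction p using MvPolynomial.induction_on with
  | C c => rw [aeval_C]; exact lat_const_le htriv c
  | add p q hp hq => rw [map_add]; exact w.map_add_le hp hq
  | mul_X p i hp => rw [map_mul, aeval_X, map_mul]; exact mul_le_one' hp (hy i)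

theorem lat_der_aeval_le {w : Val L} (htriv : ∀ c : ℂ, c ≠ 0 → w (algebraMap ℂ L c) = 1)
    {σ : Type} (y : σ → L) (hy : ∀ i, w (y i) ≤ 1) (D : Derivation ℂ L L) {B : ℝ≥0}
    (hD : ∀ i, w (D (y i)) ≤ B) (p : MvPolynomial σ ℂ) : w (D (aeval y p)) ≤ B := by
  induction p using MvPolynomial.induction_on with
  | C c => rw [aeval_C, Derivation.map_algebraMap, map_zero]; exact zero_le
  | add p q hp hq => rw [map_add, map_add]; exact w.map_add_le hp hq
  | mul_X p i hp =>
    rw [map_mul, aeval_X, Derivation.leibniz, smul_eq_mul, smul_eq_mul]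
    refine w.map_add_le ?_ ?_
    · rw [map_mul]
      exact (mul_le_of_le_one_left' (lat_aeval_le htriv y hy p)).trans (hD i)
    · rw [map_mul]
      exact (mul_le_of_le_one_left' (hy i)).trans hp

omit [Algebra ℂ L] in
theorem lat_eval₂_le {w : Val L} {A : Type} [CommRing A] (φ : A →+* L) (hφ : ∀ b, w (φ b) ≤ 1)
    {θ : L} (hθ : w θ ≤ 1) (q : Polynomial A) : w (q.eval₂ φ θ) ≤ 1 := by
  induction q using Polynomial.induction_on' with
  | add p q hp hq => rw [Polynomial.eval₂_add]; exact w.map_add_le hp hq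
  | monomial n b =>
    rw [Polynomial.eval₂_monomial, map_mul, map_pow]
    exact mul_le_one' (hφ b) (pow_le_one' hθ n)

theorem lat_der_eval₂ {w : Val L} {A : Type} [CommRing A] (φ : A →+* L) (D : Derivation ℂ L L)
    {B : ℝ≥0} (hD : ∀ b, w (D (φ b)) ≤ B) {θ : L} (hθ : w θ ≤ 1) (q : Polynomial A) :
    w (D (q.eval₂ φ θ) - (Polynomial.derivative q).eval₂ φ θ * D θ) ≤ B := by
  induction q using Polynomial.induction_on' with
  | add p q hp hq =>
    have : D ((p + q).eval₂ φ θ) - (Polynomial.derivative (p + q)).eval₂ φ θ * D θ =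
        (D (p.eval₂ φ θ) - (Polynomial.derivative p).eval₂ φ θ * D θ) +
        (D (q.eval₂ φ θ) - (Polynomial.derivative q).eval₂ φ θ * D θ) := by
      rw [Polynomial.eval₂_add, map_add, map_add, Polynomial.eval₂_add]; ring
    rw [this]; exact w.map_add_le hp hq
  | monomial n b =>
    have : D ((Polynomial.monomial n b).eval₂ φ θ) -
        (Polynomial.derivative (Polynomial.monomial n b)).eval₂ φ θ * D θ = θ ^ n * D (φ b) := by
      rw [Polynomial.derivative_monomial, Polynomial.eval₂_monomial, Polynomial.eval₂_monomial,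
        Derivation.leibniz, Derivation.leibniz_pow, map_mul, map_natCast]
      simp only [smul_eq_mul, nsmul_eq_mul]
      ring
    rw [this, map_mul, map_pow]
    exact (mul_le_of_le_one_left' (pow_le_one' hθ n)).trans (hD b)

theorem lat_log {F : IntermediateField ℂ L} {s : L} (hsF : s ∈ F) (hs : IsUnifOn v F s)
    (htriv : ∀ c : ℂ, c ≠ 0 → v (algebraMap ℂ L c) = 1) (D : Derivation ℂ L L)
    (hD : ∀ b ∈ F, v b ≤ 1 → ∃ x r, v x ≤ 1 ∧ v r ≤ 1 ∧ D b = D s * x + r)
    (htF : t ∈ F) (h0 : 0 < v t) (h1 : v t < 1) (ht : v (D t) ≤ v t) {a : L} (ha : a ∈ F) :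
    v (D a) ≤ v a := by
  have hs0 : s ≠ 0 := by
    rintro rfl
    simpa using hs.1
  have key : ∀ a ∈ F, a ≠ 0 → ∃ (j : ℤ) (x r ε : L), v a = v s ^ j ∧ v x ≤ 1 ∧ v r ≤ 1 ∧
      v ε = 1 ∧ D a = s ^ j * (D s / s * (s * x + j * ε) + r) := by
    intro a ha ha0
    obtain ⟨j, hj⟩ := hs.2.2 a ha ha0
    have hε : v (a / s ^ j) = 1 := by
      rw [map_div₀, map_zpow₀, hj, div_self (zpow_ne_zero _ hs.1.ne')]
    obtain ⟨x, r, hx, hr, h⟩ := hD (a / s ^ j) (div_mem ha (zpow_mem hsF j)) hε.le
    refine ⟨j, x, r, a / s ^ j, hj, hx, hr, hε, ?_⟩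
    have hz : s ^ j ≠ 0 := zpow_ne_zero _ hs0
    have e1 : a = s ^ j * (a / s ^ j) := by field_simp
    conv_lhs => rw [e1]
    rw [Derivation.leibniz, h, Derivation.leibniz_zpow, zpow_sub_one₀ hs0]
    simp only [smul_eq_mul, zsmul_eq_mul]
    field_simp
    ring
  have hint : ∀ j : ℤ, v (j : L) ≤ 1 := fun j => by
    simpa using lat_const_le htriv (j : ℂ)
  have hsx : ∀ x, v x ≤ 1 → v (s * x) < 1 := fun x hx => by
    rw [map_mul]
    exact (mul_le_of_le_one_right' hx).trans_lt hs.2.1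
  have hρ : v (D s / s) ≤ 1 := by
    obtain ⟨j, x, r, ε, hj, hx, hr, hε, h⟩ := key t htF (by rintro rfl; simp at h0)
    have hj0 : j ≠ 0 := by
      rintro rfl
      rw [zpow_zero] at hj
      exact h1.ne hj
    have h2 : v (j * ε) = 1 := by
      have := htriv (j : ℂ) (by exact_mod_cast hj0)
      rw [map_intCast] at this
      rw [map_mul, this, hε, one_mul]
    have h3 : v (s * x + j * ε) = 1 := by
      rw [v.map_add_eq_of_lt_right (by rw [h2]; exact hsx x hx), h2]
    rw [h, map_mul, map_zpow₀, ← hj] at ht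
    have h4 : v (D s / s * (s * x + j * ε) + r) ≤ 1 := by
      simpa using (mul_le_iff_le_one_right h0).1 ht
    have h5 := v.map_sub_le h4 hr
    rwa [add_sub_cancel_right, map_mul, h3, mul_one] at h5
  by_cases ha0 : a = 0
  · simp [ha0]
  obtain ⟨j, x, r, ε, hj, hx, hr, hε, h⟩ := key a ha ha0
  rw [h, map_mul, map_zpow₀, ← hj]
  refine mul_le_of_le_one_right' (v.map_add_le ?_ hr)
  rw [map_mul]
  refine mul_le_one' hρ (v.map_add_le (hsx x hx).le ?_)
  rw [map_mul, hε, mul_one]
  exact hint j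

omit [Fintype κ] [DecidableEq κ] in
theorem lat_frame_sub (hf : IsFrame v t u) (F : IntermediateField ℂ L) (ht : t ∈ F)
    (hu : ∀ i, u i ∈ F) :
    IsFrame (v.comap F.val.toRingHom) (⟨t, ht⟩ : F) fun i => (⟨u i, hu i⟩ : F) := by
  refine ⟨hf.pos, hf.lt, fun p hp => ?_, fun a => ?_⟩
  · have := hf.res p hp
    rw [← this]
    change v (F.val (aeval _ p)) = _
    rw [← AlgHom.comp_apply, comp_aeval]
    rfl
  · set G : Set F := insert ⟨t, ht⟩ (Set.range fun i => (⟨u i, hu i⟩ : F)) with hG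
    have hmap : (Algebra.adjoin ℂ G).map F.val = Algebra.adjoin ℂ (insert t (Set.range u)) := by
      rw [AlgHom.map_adjoin, hG, Set.image_insert_eq, ← Set.range_comp]
      rfl
    have h1 := hf.alg (a : L)
    rw [← hmap] at h1
    let e := (Algebra.adjoin ℂ G).equivMapOfInjective F.val F.val.injective
    refine (isAlgebraic_ringHom_iff_of_comp_eq (f := e.toRingEquiv) (g := F.val.toRingHom)
      F.val.injective ?_).1 h1
    ext b
    rfl

omit [Fintype κ] [DecidableEq κ] in
theorem lat_exists_basis (hf : IsFrame v t u) :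
    ∃ E : Option κ → Derivation ℂ L L, (∀ o o', o ≠ o' → E o (o'.elim t u) = 0) ∧
      ∀ o, E o (o.elim t u) = 1 := by
  classical
  choose E hE using fun o : Option κ =>
    exists_der hf.basis fun o' : Option κ => if o = o' then (1 : L) else 0
  exact ⟨E, fun o o' h => by rw [hE, if_neg h], fun o => by rw [hE, if_pos rfl]⟩

omit [DecidableEq κ] in
/-- Finitely generated case with a uniformiser: by `exists_struct` a derivation with
`v (D t) ≤ 1`, `v (D (u i)) ≤ 1` preserves the valuation ring (differentiate `Q(θ) = 0` and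
`a * c(θ) = q(θ)`). -/
theorem der_int_of_unif (hf : IsFrame v t u) (ht : IsUnif v t)
    (hfg : (⊤ : IntermediateField ℂ L).FG) (D : Derivation ℂ L L) (h0 : v (D t) ≤ 1)
    (h : ∀ i, v (D (u i)) ≤ 1) {a : L} (ha : v a ≤ 1) : v (D a) ≤ 1 := by
  obtain ⟨θ, Q, hθ, hQ, hQ', -, hrep⟩ := exists_struct hf ht hfg
  have htriv := hf.res.triv
  have hy : ∀ o : Option κ, v (o.elim t u) ≤ 1 := by
    rintro (_ | i)
    · exact hf.lt.le
    · exact (hf.res.val_eq i).le
  have hDy : ∀ o : Option κ, v (D (o.elim t u)) ≤ 1 := by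
    rintro (_ | i)
    · exact h0
    · exact h i
  have h1 : ∀ q, v (pvq t u θ q) ≤ 1 := fun q =>
    lat_eval₂_le _ (fun b => lat_aeval_le htriv _ hy b) hθ q
  have h2 : ∀ q, v (D (pvq t u θ q) - pvq t u θ (Polynomial.derivative q) * D θ) ≤ 1 := fun q =>
    lat_der_eval₂ _ D (fun b => lat_der_aeval_le htriv _ hy D hDy b) hθ q
  have h3 : v (D θ) ≤ 1 := by
    have := h2 Q
    rwa [hQ, map_zero, zero_sub, Valuation.map_neg, map_mul, hQ', one_mul] at this
  have h4 : ∀ q, v (D (pvq t u θ q)) ≤ 1 := fun q => by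
    have h5 : v (pvq t u θ (Polynomial.derivative q) * D θ) ≤ 1 := by
      rw [map_mul]; exact mul_le_one' (h1 _) h3
    simpa using v.map_add_le (h2 q) h5
  obtain ⟨q, c, hc, hqc⟩ := hrep a ha
  have h6 : pvq t u θ c * D a = D (pvq t u θ q) - a * D (pvq t u θ c) := by
    rw [← hqc, Derivation.leibniz, smul_eq_mul, smul_eq_mul]; ring
  have h7 : v (a * D (pvq t u θ c)) ≤ 1 := by
    rw [map_mul]; exact mul_le_one' ha (h4 c)
  have h8 := v.map_sub_le (h4 q) h7
  rwa [← h6, map_mul, hc, one_mul] at h8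

omit [DecidableEq κ] in
/-- A derivation with `v (D t) ≤ v t` and `v (D (u i)) ≤ 1` is logarithmically integral.  For
`a ≠ 0` let `F = ℂ(t, u, a, D t, D (u i), ...)`; simpler: write `D = (D t / t) • D0 + ∑ D (u i) • D i`
(`der_unique`) and treat the dual derivations, which preserve `F = ℂ(t, u, a)` (`der_mem`).  `F`
has a uniformiser `s` (`IsAbh.exists_unifOn`) and `(s, u)` is a frame of `F`.  With `E` the
derivation of `F` with `E s = 1`, `E u = 0` and `E i` dual to `u`, all preserving the valuation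
ring by `der_int_of_unif`, `s • E` and `E i` are logarithmically integral (`a = s ^ j * unit`),
`t = s ^ e * ε`, and `(s • E) t / t = e + s * E ε / ε` is a unit. -/
theorem mem_LD_of_frame (hf : IsFrame v t u) (D : Derivation ℂ L L) (h0 : v (D t) ≤ v t)
    (h : ∀ i, v (D (u i)) ≤ 1) : D ∈ LD v ∅ := by
  classical
  refine ⟨fun a => ?_, by simp⟩
  let F : IntermediateField ℂ L := IntermediateField.adjoin ℂ (insert a (insert t (Set.range u)))
  have hsub : insert a (insert t (Set.range u)) ⊆ F := IntermediateField.subset_adjoin _ _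
  have haF : a ∈ F := hsub (by simp)
  have htF : t ∈ F := hsub (by simp)
  have huF : ∀ i, u i ∈ F := fun i => hsub (by simp)
  have hFG : F.FG := IntermediateField.fg_adjoin_of_finite
    (((Set.finite_range u).insert t).insert a)
  obtain ⟨s, hsF, hs⟩ := hf.isAbh.exists_unifOn F hFG htF hf.pos hf.lt
  have hf' := lat_frame_sub (hf.change hs.1 hs.2.1) F hsF huF
  have hs' : IsUnif (v.comap F.val.toRingHom) (⟨s, hsF⟩ : F) :=
    ⟨hs.1, hs.2.1, fun b _ hb => hs.2.2 b b.2 fun h => hb (Subtype.ext h)⟩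
  have hFG' : (⊤ : IntermediateField ℂ F).FG := (IntermediateField.fg_top_iff.2
    (IntermediateField.essFiniteType_iff.2 hFG))
  obtain ⟨E, hE0, hE1⟩ := lat_exists_basis hf'
  have hE : ∀ o o' : Option κ, (v.comap F.val.toRingHom)
      (E o (o'.elim (⟨s, hsF⟩ : F) fun i => (⟨u i, huF i⟩ : F))) ≤ 1 := fun o o' => by
    by_cases h : o = o'
    · subst h; rw [hE1, map_one]
    · rw [hE0 o o' h, map_zero]; exact zero_le
  have hint : ∀ o (b : F), v b ≤ 1 → v (E o b) ≤ 1 := fun o b hb =>
    der_int_of_unif hf' hs' hFG' (E o) (hE o none) (fun i => hE o (some i)) hb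
  refine lat_log hsF hs hf.res.triv D (fun b hb hb1 => ?_) htF hf.pos hf.lt h0 haF
  have hdec := der_comp_eq F.val D E (fun o => D (o.elim s u)) _ (fun g hg => ?_) (hf'.alg ⟨b, hb⟩)
  · refine ⟨E none ⟨b, hb⟩, ∑ i, D (u i) * E (some i) ⟨b, hb⟩, hint _ _ hb1, ?_, ?_⟩
    · refine v.map_sum_le fun i _ => ?_
      rw [map_mul]
      exact mul_le_one' (h i) (hint _ _ hb1)
    · rw [Fintype.sum_option] at hdec
      exact hdec
  · obtain ⟨o, rfl⟩ : ∃ o : Option κ,
        g = o.elim (⟨s, hsF⟩ : F) fun i => (⟨u i, huF i⟩ : F) := by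
      rcases hg with rfl | ⟨i, rfl⟩
      exacts [⟨none, rfl⟩, ⟨some i, rfl⟩]
    rw [Finset.sum_eq_single o (fun o' _ h => by rw [hE0 o' o h, map_zero, mul_zero]) (by simp),
      hE1, map_one, mul_one]
    cases o <;> rfl

theorem lat_mem_LD {D0 : Derivation ℂ L L} {D : κ → Derivation ℂ L L} (hd : IsDual t u D0 D)
    (hf : IsFrame v t u) : D0 ∈ LD v ∅ ∧ ∀ i, D i ∈ LD v {t} := by
  refine ⟨mem_LD_of_frame hf D0 (by rw [hd.tt]) fun i => by simp [hd.tu], fun i => ⟨?_, ?_⟩⟩
  · refine (mem_LD_of_frame hf (D i) (by simp [hd.ut]) fun j => ?_).1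
    rw [hd.uu]
    split_ifs <;> simp
  · rintro a rfl
    exact hd.ut i

/-- existence by `exists_der`; for the last claim use `ResInd.res_alg`:
`Q'(a) * D0 a = D0 (Q(a))` has value `≤ v (Q(a)) < 1` -/
theorem IsFrame.exists_dual (hf : IsFrame v t u) :
    ∃ (D0 : Derivation ℂ L L) (D : κ → Derivation ℂ L L), IsDual t u D0 D ∧ D0 ∈ LD v ∅ ∧
      (∀ i, D i ∈ LD v {t}) ∧ ∀ a, v a ≤ 1 → v (D0 a) < 1 := by
  obtain ⟨E, hE0, hE1⟩ := lat_exists_basis hf
  have hd : IsDual t u (t • E none) fun i => E (some i) := by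
    refine ⟨?_, fun j => ?_, fun i => hE0 (some i) none (by simp), fun i j => ?_⟩
    · have : E none t = 1 := hE1 none
      simp [this]
    · have : E none (u j) = 0 := hE0 none (some j) (by simp)
      simp [this]
    · split_ifs with h
      · subst h; exact hE1 (some i)
      · exact hE0 (some i) (some j) (by simpa using h)
  have hm := lat_mem_LD hd hf
  refine ⟨_, _, hd, hm.1, hm.2, fun a ha => ?_⟩
  obtain ⟨Q, hQ, hQ'⟩ := hf.res.res_alg hf.pos hf.lt ha (hf.alg a)
  have h1 := lat_der_eval₂ (w := v) (aeval u : MvPolynomial κ ℂ →ₐ[ℂ] L).toRingHom (t • E none)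
    (B := 0) (fun b => lat_der_aeval_le hf.res.triv u (fun i => (hf.res.val_eq i).le) _
      (fun i => by rw [hd.tu, map_zero]) b) ha Q
  rw [le_zero_iff, map_eq_zero, sub_eq_zero] at h1
  have h2 := (hm.1.1 _).trans_lt hQ
  rwa [h1, map_mul, hQ', one_mul] at h2

variable {D0 : Derivation ℂ L L} {D : κ → Derivation ℂ L L}

theorem IsDual.mem_LD (hd : IsDual t u D0 D) (hf : IsFrame v t u) :
    D0 ∈ LD v ∅ ∧ ∀ i, D i ∈ LD v {t} := by
  exact lat_mem_LD hd hf

/-- Expansion of a determinant whose rows are integral combinations: if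
`A i j = ∑ l, c i l * G l j` with `v (c i l) ≤ 1` then `v (det A)` is at most the largest
`v (det (G (f i) j))` (multilinearity: `Matrix.detRowAlternating`, `MultilinearMap.map_sum`,
`map_smul_univ`). -/
theorem val_det_comb {R : Type} [Field R] (w : Val R) {ι β : Type} [Fintype ι] [DecidableEq ι]
    [Fintype β] (c : ι → β → R) (hc : ∀ i l, w (c i l) ≤ 1) (G : β → ι → R) {B : ℝ≥0}
    (hB : ∀ f : ι → β, w (Matrix.of fun i j => G (f i) j).det ≤ B) :
    w (Matrix.of fun i j => ∑ l, c i l * G l j).det ≤ B := by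
  have h1 : (Matrix.of fun i j => ∑ l, c i l * G l j).det =
      Matrix.detRowAlternating.toMultilinearMap fun i => ∑ l, c i l • G l := by
    change _ = Matrix.det _
    congr 1
    ext i j
    simp [Finset.sum_apply]
  rw [h1, MultilinearMap.map_sum]
  refine w.map_sum_le fun f _ => ?_
  rw [MultilinearMap.map_smul_univ, smul_eq_mul, map_mul, map_prod]
  exact (mul_le_of_le_one_left' (Finset.prod_le_one' fun i _ => hc i _)).trans (hB f)

theorem lat_decomp {R : Type} [Field R] [Algebra ℂ R] (j : L →ₐ[ℂ] R) (hf : IsFrame v t u)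
    (hd : IsDual t u D0 D) (E : Derivation ℂ R R) (a : L) :
    E (j a) = ∑ o : Option κ, o.elim (E (j t) / j t) (fun i => E (j (u i))) *
      j ((o.elim D0 D : Derivation ℂ L L) a) := by
  have ht : j t ≠ 0 := by
    rw [map_ne_zero]
    rintro rfl
    simpa using hf.pos
  refine der_comp_eq j E (fun o : Option κ => o.elim D0 D) _ _ (fun g hg => ?_) (hf.alg a)
  rw [Fintype.sum_option]
  rcases hg with rfl | ⟨i, rfl⟩
  · simp [hd.tt, hd.ut, ht]
  · simp [hd.tu, hd.uu, apply_ite j]

omit [Fintype κ] [DecidableEq κ] in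
theorem lat_coef_le {R : Type} [Field R] [Algebra ℂ R] (j : L →ₐ[ℂ] R) (w : Val R)
    (hf : IsFrame (w.comap j.toRingHom) t u) {E : Derivation ℂ R R} (hE : ∀ a, w (E a) ≤ w a)
    (o : Option κ) : w (o.elim (E (j t) / j t) fun i => E (j (u i))) ≤ 1 := by
  rcases o with _ | i
  · change w (E (j t) / j t) ≤ 1
    rw [map_div₀]
    exact div_le_one_of_le₀ (hE _) zero_le
  · exact (hE _).trans (hf.res.val_eq i).le

theorem lat_le_evol (v : Val L) (k : Set L) {ι : Type} [Fintype ι] [DecidableEq ι] (y : ι → L)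
    (E : ι → Derivation ℂ L L) (hE : ∀ i, E i ∈ LD v k) :
    v (Matrix.of fun i j => E i (y j)).det ≤ evol v k y :=
  le_lvol_univ (bdd_LD v k y) E hE

theorem lat_evol_le (v : Val L) (k : Set L) {ι : Type} [Fintype ι] [DecidableEq ι] (y : ι → L)
    {B : ℝ≥0} (h : ∀ E : ι → Derivation ℂ L L, (∀ i, E i ∈ LD v k) →
      v (Matrix.of fun i j => E i (y j)).det ≤ B) : evol v k y ≤ B :=
  lvol_univ_le h

omit [Fintype κ] [DecidableEq κ] in
theorem lat_elim_mem (h0 : D0 ∈ LD v ∅) (h1 : ∀ i, D i ∈ LD v {t}) (o : Option κ) :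
    (o.elim D0 D : Derivation ℂ L L) ∈ LD v ∅ := by
  rcases o with _ | l
  · exact h0
  · exact LD_mono v (Set.empty_subset _) (h1 l)

omit [Algebra ℂ L] in
theorem lat_det_mul_le {ι β : Type} [Fintype ι] [DecidableEq ι] [Fintype β] (e : ι ≃ β)
    (c : ι → β → L) (hc : ∀ i l, v (c i l) ≤ 1) (G : β → ι → L) :
    v (Matrix.of fun i j => ∑ l, c i l * G l j).det ≤ v (Matrix.of fun i j => G (e i) j).det := by
  have h1 : (Matrix.of fun i j => ∑ l, c i l * G l j) =
      (Matrix.of fun i l => c i (e l)) * Matrix.of fun i j => G (e i) j := by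
    ext i j
    simp only [Matrix.of_apply, Matrix.mul_apply]
    exact (e.sum_comp fun l => c i l * G l j).symm
  rw [h1, Matrix.det_mul, map_mul]
  refine mul_le_of_le_one_left' ?_
  simpa using val_det_le (v := v) (Matrix.of fun i l => c i (e l)) (fun _ => 1)
    fun i l => hc i (e l)

/-- every `E ∈ LD v ∅` is `(E t / t) • D0 + ∑ E (u i) • D i`; `Matrix.det_mul` -/
theorem avol_eq (hf : IsFrame v t u) (hd : IsDual t u D0 D) {ι : Type} [Fintype ι]
    [DecidableEq ι] (y : ι → L) (e : ι ≃ Option κ) :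
    avol v y = v (Matrix.of fun i j => ((e i).elim D0 D : Derivation ℂ L L) (y j)).det := by
  have hm := hd.mem_LD hf
  refine le_antisymm (lat_evol_le v ∅ y fun E hE => ?_)
    (lat_le_evol v ∅ y (fun i => (e i).elim D0 D) fun i => lat_elim_mem hm.1 hm.2 (e i))
  have h1 : (Matrix.of fun i j => E i (y j)) = Matrix.of fun i j => ∑ o : Option κ,
      o.elim (E i t / t) (fun l => E i (u l)) * (o.elim D0 D : Derivation ℂ L L) (y j) := by
    ext i j
    exact lat_decomp (AlgHom.id ℂ L) hf hd (E i) (y j)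
  rw [h1]
  exact lat_det_mul_le e (fun i o => o.elim (E i t / t) fun l => E i (u l))
    (fun i o => lat_coef_le (AlgHom.id ℂ L) v hf (hE i).1 o)
    fun o j => (o.elim D0 D : Derivation ℂ L L) (y j)

theorem evol_eq (hf : IsFrame v t u) (hd : IsDual t u D0 D) {ι : Type} [Fintype ι]
    [DecidableEq ι] (y : ι → L) (e : ι ≃ κ) :
    evol v {t} y = v (Matrix.of fun i j => D (e i) (y j)).det := by
  have hm := hd.mem_LD hf
  refine le_antisymm (lat_evol_le v {t} y fun E hE => ?_)
    (lat_le_evol v {t} y (fun i => D (e i)) fun i => hm.2 _)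
  have h1 : (Matrix.of fun i j => E i (y j)) =
      Matrix.of fun i j => ∑ l : κ, E i (u l) * D l (y j) := by
    ext i j
    have := lat_decomp (AlgHom.id ℂ L) hf hd (E i) (y j)
    rw [Fintype.sum_option] at this
    simpa [(hE i).2 t rfl] using this
  rw [h1]
  exact lat_det_mul_le e (fun i l => E i (u l))
    (fun i l => ((hE i).1 _).trans (hf.res.val_eq l).le) fun l j => D l (y j)

omit [DecidableEq κ] in
/-- restriction to a subfield (`der_comp_eq`, `val_det_comb`) -/
theorem avol_comap_le {R : Type} [Field R] [Algebra ℂ R] (j : L →ₐ[ℂ] R) (w : Val R)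
    (hf : IsFrame (w.comap j.toRingHom) t u) {ι : Type} [Fintype ι] [DecidableEq ι] (y : ι → L) :
    avol w (fun i => j (y i)) ≤ avol (w.comap j.toRingHom) y := by
  classical
  obtain ⟨D0, D, hd, h0, h1, -⟩ := hf.exists_dual
  refine lat_evol_le w ∅ _ fun E hE => ?_
  have h2 : (Matrix.of fun i k => E i (j (y k))) = Matrix.of fun i k => ∑ o : Option κ,
      o.elim (E i (j t) / j t) (fun l => E i (j (u l))) *
        j ((o.elim D0 D : Derivation ℂ L L) (y k)) := by
    ext i k
    exact lat_decomp j hf hd (E i) (y k)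
  rw [h2]
  have h4 : ∀ f : ι → Option κ, w (Matrix.of fun i k =>
      j (((f i).elim D0 D : Derivation ℂ L L) (y k))).det ≤ avol (w.comap j.toRingHom) y := by
    intro f
    have h3 := lat_le_evol (w.comap j.toRingHom) ∅ y (fun i => (f i).elim D0 D)
      fun i => lat_elim_mem h0 h1 (f i)
    rw [Valuation.comap_apply, RingHom.map_det] at h3
    exact h3
  exact val_det_comb w (fun i (o : Option κ) => o.elim (E i (j t) / j t) fun l => E i (j (u l)))
    (fun i o => lat_coef_le j w hf (hE i).1 o)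
    (fun o k => j ((o.elim D0 D : Derivation ℂ L L) (y k))) h4

omit [DecidableEq κ] in
theorem evol_comap_le {R : Type} [Field R] [Algebra ℂ R] (j : L →ₐ[ℂ] R) (w : Val R)
    (hf : IsFrame (w.comap j.toRingHom) t u) {ι : Type} [Fintype ι] [DecidableEq ι] (y : ι → L) :
    evol w {j t} (fun i => j (y i)) ≤ evol (w.comap j.toRingHom) {t} y := by
  classical
  obtain ⟨D0, D, hd, -, h1, -⟩ := hf.exists_dual
  refine lat_evol_le w {j t} _ fun E hE => ?_
  have h2 : (Matrix.of fun i k => E i (j (y k))) =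
      Matrix.of fun i k => ∑ l : κ, E i (j (u l)) * j (D l (y k)) := by
    ext i k
    have := lat_decomp j hf hd (E i) (y k)
    rw [Fintype.sum_option] at this
    simpa [(hE i).2 (j t) rfl] using this
  rw [h2]
  refine val_det_comb w (fun i l => E i (j (u l)))
    (fun i l => lat_coef_le j w hf (hE i).1 (some l)) (fun l k => j (D l (y k))) fun f => ?_
  have h3 := lat_le_evol (w.comap j.toRingHom) {t} y (fun i => D (f i)) fun i => h1 _
  rw [Valuation.comap_apply, RingHom.map_det] at h3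
  exact h3

omit [DecidableEq κ] in
/-- the row of `D0` has entries of value `≤ v t` -/
theorem avol_le_unif (hf : IsFrame v t u) (ht : IsUnif v t) {ι : Type} [Fintype ι]
    [DecidableEq ι] (y : ι → L) (hy : ∀ i, v (y i) ≤ 1)
    (hc : Fintype.card ι = Fintype.card κ + 1) : avol v y ≤ v t := by
  classical
  obtain ⟨D0, D, hd, -, h1, h2⟩ := hf.exists_dual
  let e : ι ≃ Option κ := Fintype.equivOfCardEq (by rw [hc, Fintype.card_option])
  rw [avol_eq hf hd y e, ← Matrix.det_transpose]
  refine (val_det_le _ (fun i => if i = e.symm none then v t else 1) fun k i => ?_).trans ?_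
  · rw [Matrix.transpose_apply, Matrix.of_apply]
    obtain ⟨o, rfl⟩ := e.symm.surjective i
    rw [e.apply_symm_apply]
    rcases o with _ | l
    · rw [if_pos rfl]
      exact IsUnifOn.le_of_lt ht (Set.mem_univ _) (h2 _ (hy k))
    · rw [if_neg (by simp)]
      exact ((h1 l).1 _).trans (hy k)
  · simp

theorem lat_univ_option {ι : Type} [Fintype ι] [DecidableEq ι] :
    (Finset.univ : Finset (Option ι)) = insert none (Finset.univ.map Function.Embedding.some) := by
  ext o
  cases o <;> simp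

omit [DecidableEq κ] in
/-- add the row `D0` (block triangular determinant, or `lvol_insert`) -/
theorem evol_mul_le_avol (hf : IsFrame v t u) {ι : Type} [Fintype ι] [DecidableEq ι]
    (y : Option ι → L) (hy : y none = t) :
    evol v {t} (fun i => y (some i)) * v t ≤ avol v y := by
  classical
  obtain ⟨D0, D, hd, h0, -, -⟩ := hf.exists_dual
  have hk : kill (LD v ∅) (fun i => evD (y i)) {none} = LD v {t} := by
    ext E
    simp [kill, LD, hy]
  unfold avol evol
  rw [lat_univ_option, lvol_insert (isLat_LD v ∅) (bdd_LD v ∅ y) (by simp), lvol_map, hk, mul_comm]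
  refine mul_le_mul_left ?_ _
  have := le_lvol_singleton (bdd_LD v ∅ y) none h0
  rwa [evD_apply, hy, hd.tt] at this

/-- expand along the column of `y none` -/
theorem avol_option_le (v : Val L) {ι : Type} [Fintype ι] [DecidableEq ι] (y : Option ι → L) :
    avol v y ≤ v (y none) * avol v fun i => y (some i) := by
  unfold avol evol
  rw [lat_univ_option, lvol_insert (isLat_LD v ∅) (bdd_LD v ∅ y) (by simp), lvol_map]
  exact mul_le_mul' (lvol_singleton_le none fun E hE => hE.1 _)
    (lvol_mono (bdd_LD v ∅ fun i => y (some i)) (fun E hE => hE.1) _)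

theorem evol_le_one (v : Val L) (k : Set L) {ι : Type} [Fintype ι] [DecidableEq ι] (y : ι → L)
    (hy : ∀ i, v (y i) ≤ 1) : evol v k y ≤ 1 := by
  exact lvol_le_one (bdd1_LD v k y hy) _

theorem evol_reindex (v : Val L) (k : Set L) {ι ι' : Type} [Fintype ι] [DecidableEq ι]
    [Fintype ι'] [DecidableEq ι'] (y : ι → L) (e : ι' ≃ ι) : evol v k (y ∘ e) = evol v k y := by
  unfold evol
  rw [← Finset.univ_map_equiv_to_embedding e, lvol_map]
  rfl

/-- change of coordinates with a Jacobian matrix -/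
theorem evol_jac (v : Val L) (k : Set L) {ι : Type} [Fintype ι] [DecidableEq ι] (y Y : ι → L)
    (J : Matrix ι ι L) (hJ : ∀ (D : Derivation ℂ L L) (i : ι), D (Y i) = ∑ l, D (y l) * J l i) :
    evol v k Y = evol v k y * v J.det := by
  have h1 : ∀ E : ι → Derivation ℂ L L, v (Matrix.of fun i j => evD (Y j) (E i)).det =
      v (Matrix.of fun i j => evD (y j) (E i)).det * v J.det := fun E => by
    rw [← map_mul, ← Matrix.det_mul]
    congr 2
    ext i j
    exact hJ (E i) j
  refine le_antisymm (lvol_univ_le fun E hE => ?_) ?_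
  · rw [h1]
    exact mul_le_mul_left (le_lvol_univ (bdd_LD v k y) E hE) _
  · by_cases h0 : v J.det = 0
    · simp [h0]
    rw [← le_div_iff₀ (pos_iff_ne_zero.2 h0)]
    refine lvol_univ_le fun E hE => ?_
    rw [le_div_iff₀ (pos_iff_ne_zero.2 h0), ← h1]
    exact le_lvol_univ (bdd_LD v k Y) E hE

end Pool.Agent.MP_c0606f_ag.Klt

end

-- part MP_c0606f_ag.Klt.Sub
section

/-! Frames adapted to subfields. -/

namespace Pool.Agent.MP_c0606f_ag.Klt

open scoped NNReal
open MvPolynomial

variable {L : Type} [Field L] [Algebra ℂ L] {v : Val L}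

/-- `v` is trivial on the constants -/
def SubTriv (v : Val L) : Prop := ∀ c : ℂ, c ≠ 0 → v (algebraMap ℂ L c) = 1

theorem SubTriv.le (h : SubTriv v) (c : ℂ) : v (algebraMap ℂ L c) ≤ 1 := by
  rcases eq_or_ne c 0 with rfl | hc
  · simp
  · exact (h c hc).le

/-- the residue field -/
def SubK (_h : SubTriv v) : Type := IsLocalRing.ResidueField v.valuationSubring

noncomputable instance (h : SubTriv v) : Field (SubK h) :=
  inferInstanceAs (Field (IsLocalRing.ResidueField v.valuationSubring))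

/-- the residue map on the valuation ring -/
noncomputable def subRO (h : SubTriv v) : v.valuationSubring →+* SubK h :=
  IsLocalRing.residue v.valuationSubring

/-- constants in the valuation ring -/
noncomputable def subCO (h : SubTriv v) : ℂ →+* v.valuationSubring :=
  (algebraMap ℂ L).codRestrict v.valuationSubring fun c => h.le c

noncomputable instance (h : SubTriv v) : Algebra ℂ (SubK h) :=
  ((subRO h).comp (subCO h)).toAlgebra

open Classical in
/-- the residue of an element -/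
noncomputable def subR (h : SubTriv v) (a : L) : SubK h :=
  if ha : v a ≤ 1 then subRO h ⟨a, ha⟩ else 0

theorem sub_R_coe (h : SubTriv v) (a : v.valuationSubring) : subR h a = subRO h a := by
  have ha : v (a : L) ≤ 1 := a.2
  rw [subR, dif_pos ha]

theorem sub_RO_eq_zero (h : SubTriv v) (a : v.valuationSubring) :
    subRO h a = 0 ↔ v (a : L) < 1 := by
  rw [← Valuation.mem_maximalIdeal_iff]
  exact IsLocalRing.residue_eq_zero_iff a

theorem sub_R_eq_zero (h : SubTriv v) {a : L} (ha : v a ≤ 1) : subR h a = 0 ↔ v a < 1 := by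
  have := sub_R_coe h ⟨a, ha⟩
  rw [show subR h a = subRO h ⟨a, ha⟩ from this]
  exact sub_RO_eq_zero h ⟨a, ha⟩

theorem sub_R_surj (h : SubTriv v) (x : SubK h) : ∃ a, v a ≤ 1 ∧ subR h a = x := by
  obtain ⟨a, ha⟩ := IsLocalRing.residue_surjective (R := v.valuationSubring) x
  exact ⟨a, a.2, (sub_R_coe h a).trans ha⟩

/-- evaluation in the valuation ring -/
noncomputable def subEv (h : SubTriv v) {κ : Type} (U : κ → L) (hU : ∀ i, v (U i) ≤ 1) :
    MvPolynomial κ ℂ →+* v.valuationSubring :=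
  eval₂Hom (subCO h) fun i => ⟨U i, hU i⟩

theorem sub_ev_val (h : SubTriv v) {κ : Type} (U : κ → L) (hU : ∀ i, v (U i) ≤ 1) :
    v.valuationSubring.subtype.comp (subEv h U hU) =
      (aeval U : MvPolynomial κ ℂ →ₐ[ℂ] L).toRingHom := by
  apply ringHom_ext
  · intro c; simp [subEv, subCO]
  · intro i; simp [subEv]

theorem sub_ev_res (h : SubTriv v) {κ : Type} (U : κ → L) (hU : ∀ i, v (U i) ≤ 1) :
    (subRO h).comp (subEv h U hU) =
      (aeval fun i => subR h (U i) : MvPolynomial κ ℂ →ₐ[ℂ] SubK h).toRingHom := by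
  apply ringHom_ext
  · intro c
    simp only [subEv, RingHom.comp_apply, eval₂Hom_C, AlgHom.toRingHom_eq_coe, RingHom.coe_coe,
      aeval_C]
    rfl
  · intro i
    simp only [subEv, RingHom.comp_apply, eval₂Hom_X', AlgHom.toRingHom_eq_coe, RingHom.coe_coe,
      aeval_X]
    exact (sub_R_coe h ⟨U i, hU i⟩).symm

theorem sub_R_aeval (h : SubTriv v) {κ : Type} (U : κ → L) (hU : ∀ i, v (U i) ≤ 1)
    (p : MvPolynomial κ ℂ) :
    v (aeval U p) ≤ 1 ∧ subR h (aeval U p) = aeval (fun i => subR h (U i)) p := by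
  have h1 : (subEv h U hU p : L) = aeval U p := DFunLike.congr_fun (sub_ev_val h U hU) p
  have h2 : subRO h (subEv h U hU p) = aeval (fun i => subR h (U i)) p :=
    DFunLike.congr_fun (sub_ev_res h U hU) p
  rw [← h1, sub_R_coe, h2]
  exact ⟨(subEv h U hU p).2, rfl⟩

theorem sub_R_eval₂ (h : SubTriv v) {κ : Type} (U : κ → L) (hU : ∀ i, v (U i) ≤ 1) {a : L}
    (ha : v a ≤ 1) (Q : Polynomial (MvPolynomial κ ℂ)) :
    v (Q.eval₂ (aeval U : MvPolynomial κ ℂ →ₐ[ℂ] L).toRingHom a) ≤ 1 ∧
      subR h (Q.eval₂ (aeval U : MvPolynomial κ ℂ →ₐ[ℂ] L).toRingHom a) =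
        Q.eval₂ (aeval fun i => subR h (U i) : MvPolynomial κ ℂ →ₐ[ℂ] SubK h).toRingHom
          (subR h a) := by
  have h1 := Polynomial.hom_eval₂ Q (subEv h U hU) v.valuationSubring.subtype ⟨a, ha⟩
  have h2 := Polynomial.hom_eval₂ Q (subEv h U hU) (subRO h) ⟨a, ha⟩
  rw [sub_ev_val] at h1
  rw [sub_ev_res, ← sub_R_coe h ⟨a, ha⟩] at h2
  have h3 : ((Q.eval₂ (subEv h U hU) ⟨a, ha⟩ : v.valuationSubring) : L) =
      Q.eval₂ (aeval U : MvPolynomial κ ℂ →ₐ[ℂ] L).toRingHom a := h1
  rw [← h3, sub_R_coe, h2]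
  exact ⟨(Q.eval₂ (subEv h U hU) ⟨a, ha⟩).2, rfl⟩

theorem sub_ind (h : SubTriv v) {κ : Type} {U : κ → L} (hr : ResInd v U) :
    AlgebraicIndependent ℂ fun i => subR h (U i) := by
  rw [algebraicIndependent_iff]
  intro p hp
  by_contra hp0
  obtain ⟨h1, h2⟩ := sub_R_aeval h U (fun i => (hr.val_eq i).le) p
  rw [← h2, sub_R_eq_zero h h1, hr p hp0] at hp
  exact lt_irrefl _ hp

theorem sub_alg (h : SubTriv v) {κ : Type} {U : κ → L} (hr : ResInd v U) {a : L} (ha : v a ≤ 1)
    (Q : Polynomial (MvPolynomial κ ℂ))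
    (h1 : v (Q.eval₂ (aeval U : MvPolynomial κ ℂ →ₐ[ℂ] L).toRingHom a) < 1)
    (h2 : v ((Polynomial.derivative Q).eval₂
      (aeval U : MvPolynomial κ ℂ →ₐ[ℂ] L).toRingHom a) = 1) :
    IsAlgebraic (Algebra.adjoin ℂ (Set.range fun i => subR h (U i))) (subR h a) := by
  have hU : ∀ i, v (U i) ≤ 1 := fun i => (hr.val_eq i).le
  have hQ : Q ≠ 0 := by
    rintro rfl
    simp at h2
  let e := (sub_ind h hr).aevalEquiv
  refine ⟨Q.map e.toRingEquiv.toRingHom,
    (Polynomial.map_ne_zero_iff e.injective).2 hQ, ?_⟩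
  obtain ⟨h3, h4⟩ := sub_R_eval₂ h U hU ha Q
  rw [(sub_R_eq_zero h h3).2 h1] at h4
  rw [Polynomial.aeval_def, Polynomial.eval₂_map, h4]
  congr 1

theorem sub_basis (h : SubTriv v) {κ : Type} {U : κ → L} (hr : ResInd v U)
    (H : ∀ a, v a ≤ 1 → ∃ Q : Polynomial (MvPolynomial κ ℂ),
      v (Q.eval₂ (aeval U : MvPolynomial κ ℂ →ₐ[ℂ] L).toRingHom a) < 1 ∧
      v ((Polynomial.derivative Q).eval₂ (aeval U : MvPolynomial κ ℂ →ₐ[ℂ] L).toRingHom a) = 1) :
    IsTranscendenceBasis ℂ fun i => subR h (U i) := by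
  rw [(sub_ind h hr).isTranscendenceBasis_iff_isAlgebraic]
  refine ⟨fun x => ?_⟩
  obtain ⟨a, ha, rfl⟩ := sub_R_surj h x
  obtain ⟨Q, h1, h2⟩ := H a ha
  exact sub_alg h hr ha Q h1 h2

theorem sub_min_deg {κ : Type} {u : κ → L} (h : ResInd v u) {a : L} (ha : v a ≤ 1)
    (Q0 : Polynomial (MvPolynomial κ ℂ)) (hQ0 : Q0 ≠ 0)
    (hlt : v (Q0.eval₂ (aeval u : MvPolynomial κ ℂ →ₐ[ℂ] L).toRingHom a) < 1) :
    ∃ Q : Polynomial (MvPolynomial κ ℂ),
      v (Q.eval₂ (aeval u : MvPolynomial κ ℂ →ₐ[ℂ] L).toRingHom a) < 1 ∧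
      v ((Polynomial.derivative Q).eval₂ (aeval u : MvPolynomial κ ℂ →ₐ[ℂ] L).toRingHom a) = 1 := by
  classical
  have hex : ∃ n, ∃ Q : Polynomial (MvPolynomial κ ℂ), Q.natDegree = n ∧ Q ≠ 0 ∧
      v (Q.eval₂ (aeval u : MvPolynomial κ ℂ →ₐ[ℂ] L).toRingHom a) < 1 := ⟨_, Q0, rfl, hQ0, hlt⟩
  obtain ⟨Q, hdeg, hQ0, hQ⟩ := Nat.find_spec hex
  refine ⟨Q, hQ, le_antisymm
    (sub_R_eval₂ (fun c hc => h.triv c hc) u (fun i => (h.val_eq i).le) ha _).1 ?_⟩
  have hd : Q.natDegree ≠ 0 := by
    intro hd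
    rw [Polynomial.eq_C_of_natDegree_eq_zero hd, Polynomial.eval₂_C] at hQ
    have hc : Q.coeff 0 ≠ 0 := fun hc =>
      hQ0 (by rw [Polynomial.eq_C_of_natDegree_eq_zero hd, hc, map_zero])
    exact absurd (h _ hc) hQ.ne
  by_contra hlt
  refine Nat.find_min hex (m := (Polynomial.derivative Q).natDegree) ?_ ⟨_, rfl, ?_, not_le.1 hlt⟩
  · rw [← hdeg]; exact Polynomial.natDegree_derivative_lt hd
  · exact fun h => hd (Polynomial.derivative_eq_zero.1 h)

theorem sub_aeval_option {κ : Type} (t : L) (u : κ → L) (p : MvPolynomial (Option κ) ℂ) :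
    aeval (fun o : Option κ => o.elim t u) p =
      (optionEquivLeft ℂ κ p).eval₂ (aeval u : MvPolynomial κ ℂ →ₐ[ℂ] L).toRingHom t := by
  induction p using MvPolynomial.induction_on with
  | C a => simp [optionEquivLeft_C]
  | add p q hp hq => rw [map_add, map_add, Polynomial.eval₂_add, hp, hq]
  | mul_X p i hp =>
    rw [map_mul, map_mul, Polynomial.eval₂_mul, hp]
    rcases i with _ | i
    · simp [optionEquivLeft_X_none]
    · simp [optionEquivLeft_X_some]

/-- Extension of a residually independent family inside a subring-like set `k` to a maximal one.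
The size of such families is bounded by the transcendence degree (`ResInd.algInd`,
`IsFrame.card_eq`); take `u1` of maximal size.  If `a ∈ k` is integral, then `(u0, u1, a)` is not
residually independent. -/
theorem IsAbh.exists_max (hv : IsAbh v) (k : Set L) {κ : Type} [Fintype κ] (u0 : κ → L)
    (hr : ResInd v u0) :
    ∃ (q : ℕ) (u1 : Fin q → L), (∀ i, u1 i ∈ k) ∧ ResInd v (Sum.elim u0 u1) ∧
      ∀ a ∈ k, v a ≤ 1 → ∃ Q : Polynomial (MvPolynomial (κ ⊕ Fin q) ℂ),
        v (Q.eval₂ (aeval (Sum.elim u0 u1) : MvPolynomial (κ ⊕ Fin q) ℂ →ₐ[ℂ] L).toRingHom a) < 1 ∧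
        v ((Polynomial.derivative Q).eval₂
          (aeval (Sum.elim u0 u1) : MvPolynomial (κ ⊕ Fin q) ℂ →ₐ[ℂ] L).toRingHom a) = 1 := by
  classical
  obtain ⟨q0, t, w, hf⟩ := hv
  let P : ℕ → Prop := fun q => ∃ u1 : Fin q → L, (∀ i, u1 i ∈ k) ∧ ResInd v (Sum.elim u0 u1)
  have hbd : ∀ q, P q → q ≤ q0 := by
    rintro q ⟨u1, -, h⟩
    have h1 := (h.algInd hf.pos hf.lt).cardinalMk_le_trdeg
    rw [← hf.basis.cardinalMk_eq_trdeg, Cardinal.mk_fintype, Cardinal.mk_fintype, Nat.cast_le] at h1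
    simp only [Fintype.card_option, Fintype.card_sum, Fintype.card_fin] at h1
    omega
  have hP0 : P 0 := by
    refine ⟨Fin.elim0, fun i => i.elim0, ?_⟩
    have := hr.comp (Equiv.sumEmpty κ (Fin 0)) (Equiv.injective _)
    convert this using 1
    funext i
    rcases i with i | i
    · rfl
    · exact i.elim0
  obtain ⟨q, ⟨u1, hk, hu⟩, hmax⟩ : ∃ q, P q ∧ ¬ P (q + 1) :=
    ⟨Nat.findGreatest P q0, Nat.findGreatest_spec (Nat.zero_le _) hP0, fun hP =>
      Nat.findGreatest_is_greatest (Nat.lt_succ_self _) (hbd _ hP) hP⟩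
  refine ⟨q, u1, hk, hu, fun a hak ha => ?_⟩
  have hnot : ¬ ResInd v fun o : Option (κ ⊕ Fin q) => o.elim a (Sum.elim u0 u1) := by
    intro h
    have hP : P (q + 1) := by
      refine ⟨Fin.cons a u1, fun i => by induction i using Fin.cases <;> simp [hak, hk], ?_⟩
      let e : κ ⊕ Fin (q + 1) → Option (κ ⊕ Fin q) :=
        Sum.elim (fun i => some (Sum.inl i)) (Fin.cons none fun i => some (Sum.inr i))
      have he : Function.Injective e := by
        rintro (i | i) (j | j) hij
        · simpa [e] using hij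
        · induction j using Fin.cases <;> simp [e] at hij
        · induction i using Fin.cases <;> simp [e] at hij
        · induction i using Fin.cases <;> induction j using Fin.cases <;> simp_all [e]
      have := h.comp e he
      convert this using 1
      funext i
      rcases i with i | i
      · rfl
      · induction i using Fin.cases <;> simp [e]
    exact hmax hP
  simp only [ResInd, not_forall] at hnot
  obtain ⟨p, hp0, hp⟩ := hnot
  rw [sub_aeval_option] at hp
  refine sub_min_deg hu ha (optionEquivLeft ℂ _ p) (fun h => hp0 ?_) (lt_of_le_of_ne ?_ hp)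
  · exact (optionEquivLeft ℂ _).injective (by rw [h, map_zero])
  · exact (sub_R_eval₂ (fun c hc => hu.triv c hc) _ (fun i => (hu.val_eq i).le) ha _).1

/-- A residually independent family extends to a frame.  Take the maximal extension in `L`.  In
the residue field (`IsLocalRing.ResidueField` of `v.integer` or of the valuation subring) both it
and the family of a given frame are transcendence bases (`ResInd.res_alg`), so they have the same
size; then `isFrame_of_card`. -/
theorem IsAbh.exists_frame (hv : IsAbh v) {t : L} (h0 : 0 < v t) (h1 : v t < 1) {κ : Type}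
    [Fintype κ] (u0 : κ → L) (hr : ResInd v u0) :
    ∃ (q : ℕ) (u1 : Fin q → L), IsFrame v t (Sum.elim u0 u1) := by
  obtain ⟨q, u1, -, hu, H⟩ := hv.exists_max Set.univ u0 hr
  obtain ⟨q0, t0, w, hf⟩ := hv
  have htr : SubTriv v := fun c hc => hr.triv c hc
  have b1 := sub_basis htr hu fun a ha => H a (Set.mem_univ a) ha
  have b2 := sub_basis htr hf.res fun a ha => hf.res.res_alg hf.pos hf.lt ha (hf.alg a)
  have hc := b1.cardinalMk_eq b2
  rw [Cardinal.mk_fintype, Cardinal.mk_fintype, Nat.cast_inj] at hc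
  refine ⟨q, u1, isFrame_of_card hu h0 h1 (fun o : Option (Fin q0) => o.elim t0 w)
    hf.basis.isAlgebraic.1 ?_⟩
  rw [Fintype.card_option, hc]

theorem sub_aeval_mem (k : IntermediateField ℂ L) {κ : Type} (U : κ → L) (hU : ∀ i, U i ∈ k)
    (p : MvPolynomial κ ℂ) : aeval U p ∈ k := by
  induction p using MvPolynomial.induction_on with
  | C a => rw [aeval_C]; exact k.algebraMap_mem a
  | add p q hp hq => rw [map_add]; exact k.add_mem hp hq
  | mul_X p i hp => rw [map_mul, aeval_X]; exact k.mul_mem hp (hU i)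

theorem sub_eval₂_mem (k : IntermediateField ℂ L) {κ : Type} (U : κ → L) (hU : ∀ i, U i ∈ k)
    {a : L} (ha : a ∈ k) (Q : Polynomial (MvPolynomial κ ℂ)) :
    Q.eval₂ (aeval U : MvPolynomial κ ℂ →ₐ[ℂ] L).toRingHom a ∈ k := by
  rw [Polynomial.eval₂_eq_sum, Polynomial.sum_def]
  exact k.sum_mem fun i _ => k.mul_mem (sub_aeval_mem k U hU _) (pow_mem ha i)

theorem sub_der_aeval (E : Derivation ℂ L L) {κ : Type} (U : κ → L) (hU : ∀ i, E (U i) = 0)
    (p : MvPolynomial κ ℂ) : E (aeval U p) = 0 := by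
  induction p using MvPolynomial.induction_on with
  | C a => rw [aeval_C]; exact E.map_algebraMap a
  | add p q hp hq => rw [map_add, map_add, hp, hq, add_zero]
  | mul_X p i hp => rw [map_mul, aeval_X, E.leibniz, hp, hU i, smul_zero, smul_zero, add_zero]

theorem sub_der_eval₂ (E : Derivation ℂ L L) {κ : Type} (U : κ → L) (hU : ∀ i, E (U i) = 0)
    (a : L) (Q : Polynomial (MvPolynomial κ ℂ)) :
    E (Q.eval₂ (aeval U : MvPolynomial κ ℂ →ₐ[ℂ] L).toRingHom a) =
      (Polynomial.derivative Q).eval₂ (aeval U : MvPolynomial κ ℂ →ₐ[ℂ] L).toRingHom a * E a := by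
  induction Q using Polynomial.induction_on' with
  | add p q hp hq => rw [Polynomial.eval₂_add, map_add, hp, hq, map_add, Polynomial.eval₂_add,
      add_mul]
  | monomial n c =>
    rw [Polynomial.derivative_monomial, Polynomial.eval₂_monomial, Polynomial.eval₂_monomial]
    simp only [AlgHom.toRingHom_eq_coe, RingHom.coe_coe, Derivation.leibniz, Derivation.leibniz_pow,
      sub_der_aeval E U hU, smul_eq_mul, nsmul_eq_mul, map_mul, map_natCast]
    ring

theorem sub_kill (k : IntermediateField ℂ L) {t : L} (ht : t ∈ k) (hu : IsUnifOn v k t)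
    {κ : Type} (U : κ → L) (hU : ∀ i, U i ∈ k)
    (H : ∀ a ∈ k, v a ≤ 1 → ∃ Q : Polynomial (MvPolynomial κ ℂ),
      v (Q.eval₂ (aeval U : MvPolynomial κ ℂ →ₐ[ℂ] L).toRingHom a) < 1 ∧
      v ((Polynomial.derivative Q).eval₂ (aeval U : MvPolynomial κ ℂ →ₐ[ℂ] L).toRingHom a) = 1)
    (E : Derivation ℂ L L) (hE : ∀ a, v (E a) ≤ v a) (hEt : E t = 0) (hEU : ∀ i, E (U i) = 0) :
    ∀ a ∈ k, E a = 0 := by
  have ht0 : t ≠ 0 := (v.pos_iff).1 hu.1
  have h1 : ∀ j : ℕ, ∀ a ∈ k, v a ≤ 1 → v (E a) ≤ v t ^ j := by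
    intro j
    induction j with
    | zero => intro a _ ha; rw [pow_zero]; exact (hE a).trans ha
    | succ j ih =>
      intro a hak ha
      obtain ⟨Q, hQ1, hQ2⟩ := H a hak ha
      have hm := sub_eval₂_mem k U hU hak Q
      have hd := sub_der_eval₂ E U hEU a Q
      set b := Q.eval₂ (aeval U : MvPolynomial κ ℂ →ₐ[ℂ] L).toRingHom a with hb
      have hle : v (b / t) ≤ 1 := by
        rw [map_div₀]
        exact div_le_one_of_le₀ (hu.le_of_lt hm hQ1) zero_le
      have h3 := ih (b / t) (k.div_mem hm ht) hle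
      have h4 : E b = t * E (b / t) := by
        have : b = t * (b / t) := by field_simp
        conv_lhs => rw [this]
        rw [E.leibniz, hEt, smul_zero, add_zero, smul_eq_mul]
      have h5 : v (E a) = v t * v (E (b / t)) := by
        rw [← map_mul, ← h4, hd, map_mul, hQ2, one_mul]
      rw [h5, pow_succ']
      gcongr
  have h2 : ∀ a ∈ k, v a ≤ 1 → E a = 0 := by
    intro a hak ha
    by_contra h0
    obtain ⟨j, hj⟩ := NNReal.exists_pow_lt_of_lt_one ((v.pos_iff).2 h0) hu.2.1
    exact absurd (h1 j a hak ha) (not_le.2 hj)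
  intro a hak
  rcases le_or_gt (v a) 1 with ha | ha
  · exact h2 a hak ha
  · have h3 := h2 a⁻¹ (k.inv_mem hak) (by rw [map_inv₀]; exact inv_le_one_of_one_le₀ ha.le)
    have h4 := E.leibniz_inv a⁻¹
    rw [inv_inv, h3, smul_zero] at h4
    exact h4

/-- Frames adapted to a subfield with a uniformiser.  Take `u1` from `exists_max` for `k`, `u2`
from `exists_frame`.  A derivation `D ∈ LD v ∅` killing `t, u0, u1` kills `k`: for integral
`a ∈ k`, `Q(a) = t * a'` with `a' ∈ k` integral, so `v (D a) ≤ v t * v (D a')`, and by induction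
`v (D a) ≤ v t ^ j`.  Apply this to the derivations dual to `u2` and use `alg_of_killed`. -/
theorem IsAbh.exists_frame_sub (hv : IsAbh v) (k : IntermediateField ℂ L) {t : L} (ht : t ∈ k)
    (hu : IsUnifOn v k t) {κ : Type} [Fintype κ] (u0 : κ → L) (h0 : ∀ i, u0 i ∈ k)
    (hr : ResInd v u0) :
    ∃ (q q' : ℕ) (u1 : Fin q → L) (u2 : Fin q' → L), (∀ i, u1 i ∈ k) ∧
      IsFrame v t (Sum.elim (Sum.elim u0 u1) u2) ∧
      (∀ a ∈ k, IsAlgebraic (Algebra.adjoin ℂ (insert t (Set.range (Sum.elim u0 u1)))) a) := by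
  classical
  obtain ⟨q, u1, hk, hu1, H⟩ := hv.exists_max k u0 hr
  obtain ⟨q', u2, hf⟩ := hv.exists_frame hu.1 hu.2.1 _ hu1
  refine ⟨q, q', u1, u2, hk, hf, fun a ha => ?_⟩
  obtain ⟨D0, D, hd, -, hD, -⟩ := hf.exists_dual
  have hU : ∀ i, Sum.elim u0 u1 i ∈ k := by
    rintro (i | i)
    · exact h0 i
    · exact hk i
  have hDU : ∀ l i, D (Sum.inr l) (Sum.elim u0 u1 i) = 0 := by
    intro l i
    have := hd.uu (Sum.inr l) (Sum.inl i)
    simpa using this
  refine alg_of_killed _ u2 (fun l => D (Sum.inr l)) ?_ ?_ ?_ ?_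
  · rintro l x (rfl | ⟨i, rfl⟩)
    · exact hd.ut _
    · exact hDU l i
  · intro l l'
    have := hd.uu (Sum.inr l) (Sum.inr l')
    simpa using this
  · have := hf.alg a
    rwa [Set.Sum.elim_range, ← Set.insert_union] at this
  · intro l
    exact sub_kill k ht hu _ hU H (D (Sum.inr l)) (hD _).1 (hd.ut _) (hDU l) a ha

/-- the map between the algebras generated by `S` and by its image -/
def subMap {F : Type} [Field F] [Algebra ℂ F] (j : F →ₐ[ℂ] L) (S : Set F) :
    Algebra.adjoin ℂ S →+* Algebra.adjoin ℂ (j '' S) :=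
  (j.toRingHom.comp (Algebra.adjoin ℂ S).val.toRingHom).codRestrict _ fun x => by
    rw [← AlgHom.map_adjoin]
    exact ⟨x, x.2, rfl⟩

theorem sub_alg_iff {F : Type} [Field F] [Algebra ℂ F] (j : F →ₐ[ℂ] L) (S : Set F) (a : F) :
    IsAlgebraic (Algebra.adjoin ℂ (j '' S)) (j a) ↔ IsAlgebraic (Algebra.adjoin ℂ S) a := by
  constructor
  · intro h
    refine IsAlgebraic.of_ringHom_of_comp_eq (subMap j S) j.toRingHom h ?_ j.injective rfl
    rintro ⟨y, hy⟩
    rw [← AlgHom.map_adjoin] at hy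
    obtain ⟨x, hx, rfl⟩ := hy
    exact ⟨⟨x, hx⟩, rfl⟩
  · intro h
    refine IsAlgebraic.ringHom_of_comp_eq (subMap j S) j.toRingHom h ?_ rfl
    intro x y hxy
    exact Subtype.ext (j.injective (congrArg Subtype.val hxy))

omit [Field L] [Algebra ℂ L] in
theorem sub_image {F : Type} (j : F → L) {κ : Type} (t : F) (u : κ → F) :
    j '' insert t (Set.range u) = insert (j t) (Set.range fun i => j (u i)) := by
  rw [Set.image_insert_eq, ← Set.range_comp]
  rfl

theorem sub_res_iff {F : Type} [Field F] [Algebra ℂ F] (j : F →ₐ[ℂ] L) {κ : Type} (u : κ → F) :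
    ResInd (v.comap j.toRingHom) u ↔ ResInd v fun i => j (u i) := by
  refine forall₂_congr fun p _ => ?_
  have : j (aeval u p) = aeval (fun i => j (u i)) p := by
    rw [← AlgHom.comp_apply, comp_aeval]
  rw [← this]
  rfl

/-- restriction of an Abhyankar valuation to a finitely generated field -/
theorem IsAbh.comap (hv : IsAbh v) {F : Type} [Field F] [Algebra ℂ F] (j : F →ₐ[ℂ] L)
    (hF : (⊤ : IntermediateField ℂ F).FG) {τ : F} (h0 : 0 < v (j τ)) (h1 : v (j τ) < 1) :
    ∃ (q : ℕ) (t : F) (u : Fin q → F), IsFrame (v.comap j.toRingHom) t u ∧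
      IsUnif (v.comap j.toRingHom) t := by
  have hk : j.fieldRange.FG := by
    obtain ⟨S, hS, hS'⟩ := IntermediateField.fg_def.1 hF
    rw [AlgHom.fieldRange_eq_map, ← hS', IntermediateField.adjoin_map]
    exact IntermediateField.fg_adjoin_of_finite (hS.image _)
  obtain ⟨t', ⟨t, rfl⟩, hu⟩ := hv.exists_unifOn j.fieldRange hk ⟨τ, rfl⟩ h0 h1
  have hr : ResInd v (Fin.elim0 : Fin 0 → L) := by
    intro p hp
    obtain ⟨c, rfl⟩ := C_surjective (Fin 0) p
    rw [aeval_C]
    exact hv.triv c fun h => hp (by rw [h, map_zero])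
  obtain ⟨q, q', u1, u2, hk1, hf, halg⟩ :=
    hv.exists_frame_sub j.fieldRange ⟨t, rfl⟩ hu Fin.elim0 (fun i => i.elim0) hr
  choose u hu' using hk1
  have hu1 : (fun i => j (u i)) = u1 := funext hu'
  refine ⟨q, t, u, ⟨hu.1, hu.2.1, ?_, fun a => ?_⟩, hu.1, hu.2.1, fun a _ ha => ?_⟩
  · rw [sub_res_iff, hu1]
    exact hf.res.comp (fun i => Sum.inl (Sum.inr i))
      (Sum.inl_injective.comp Sum.inr_injective)
  · rw [← sub_alg_iff j, sub_image, hu1]
    have := halg (j a) ⟨a, rfl⟩
    rwa [Set.Sum.elim_range, Set.range_eq_empty, Set.empty_union] at this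
  · exact hu.2.2 (j a) ⟨a, rfl⟩ ((map_ne_zero j).2 ha)

theorem IsAbh.frame_idx (hv : IsAbh v) (hF : (⊤ : IntermediateField ℂ L).FG) {ι κ : Type}
    [Fintype ι] [Fintype κ] {y : ι → L} (hy : IsTranscendenceBasis ℂ y)
    (hc : Fintype.card ι = Fintype.card κ + 1) :
    ∃ (t : L) (u : κ → L), IsFrame v t u ∧ IsUnif v t := by
  obtain ⟨q0, t0, w, hf⟩ := id hv
  obtain ⟨q, t, u, h1, h2⟩ := hv.comap (AlgHom.id ℂ L) hF (τ := t0) hf.pos hf.lt
  have h3 : IsFrame v t u := h1
  have hq := h3.card_eq hy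
  rw [hc, Fintype.card_fin, Nat.add_right_cancel_iff] at hq
  exact ⟨t, _, h3.reindex (Fintype.equivFinOfCardEq hq), h2⟩

/-- pull back along an automorphism or an algebraic extension of a field that need not be finitely
generated: the preimage of a frame under an isomorphism is a frame -/
theorem IsAbh.comap_equiv (hv : IsAbh v) {F : Type} [Field F] [Algebra ℂ F] (j : F ≃ₐ[ℂ] L) :
    IsAbh (v.comap j.toAlgHom.toRingHom) := by
  obtain ⟨q, t, u, hf⟩ := hv
  have ht : j.toAlgHom (j.symm t) = t := j.apply_symm_apply t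
  have hu : (fun i => j.toAlgHom (j.symm (u i))) = u := funext fun i => j.apply_symm_apply _
  refine ⟨q, j.symm t, fun i => j.symm (u i), ?_, ?_, ?_, fun a => ?_⟩
  · change 0 < v (j.toAlgHom (j.symm t))
    rw [ht]; exact hf.pos
  · change v (j.toAlgHom (j.symm t)) < 1
    rw [ht]; exact hf.lt
  · rw [sub_res_iff, hu]; exact hf.res
  · rw [← sub_alg_iff j.toAlgHom, sub_image, ht, hu]
    exact hf.alg _

theorem sub_alg_trans (A B : Subalgebra ℂ L) (hB : ∀ b ∈ B, IsAlgebraic A b) {a : L}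
    (ha : IsAlgebraic B a) : IsAlgebraic A a := by
  have h1 : B ≤ (Subalgebra.algebraicClosure A L).restrictScalars ℂ := fun b hb => hB b hb
  have h2 : IsAlgebraic (Subalgebra.algebraicClosure A L) a := ha.tower_top_of_subalgebra_le h1
  exact h2.restrictScalars A

/-- an extension to an algebraic extension keeps frames -/
theorem IsFrame.of_comap {F : Type} [Field F] [Algebra ℂ F] (j : F →ₐ[ℂ] L) {κ : Type} {t : F}
    {u : κ → F} (h : IsFrame (v.comap j.toRingHom) t u)
    (halg : ∀ a : L, IsAlgebraic j.range a) : IsFrame v (j t) fun i => j (u i) := by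
  refine ⟨h.pos, h.lt, (sub_res_iff j u).1 h.res, fun a => ?_⟩
  refine sub_alg_trans _ j.range ?_ (halg a)
  rintro _ ⟨b, rfl⟩
  rw [← sub_image]
  exact (sub_alg_iff j _ b).2 (h.alg b)

/-- Change of the constants.  The residues of `u2` are independent over `Om u1`: otherwise, in the
residue field, use `AlgebraicIndependent.sumElim_iff` and invariance of independence under
algebraic extension of the base (`AlgebraicIndependent.extendScalars`-type lemmas); the elements of
`Om u1` embed into the residue field by `ResInd.val_Om`. -/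
theorem IsFrame.tw {κ κ' : Type} {t : L} {u1 : κ → L} {u2 : κ' → L}
    (h : IsFrame v t (Sum.elim u1 u2)) (φ : ℂ →+* L) (hφ : Set.range φ = (Om u1 : Set L)) :
    IsFrame (Tw.val φ v) (Tw.mk φ t) fun i => Tw.mk φ (u2 i) := by
  have htr : SubTriv v := fun c hc => h.res.triv c hc
  have hr1 : ResInd v u1 := h.res.comp Sum.inl Sum.inl_injective
  have hr2 : ResInd v u2 := h.res.comp Sum.inr Sum.inr_injective
  have hmem : ∀ c, φ c ∈ Om u1 := fun c => by
    have : φ c ∈ Set.range φ := ⟨c, rfl⟩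
    rwa [hφ] at this
  have hle : ∀ c, v (φ c) ≤ 1 := by
    intro c
    rcases eq_or_ne (φ c) 0 with h0 | h0
    · simp [h0]
    · exact (hr1.val_Om (hmem c) h0).le
  refine ⟨h.pos, h.lt, fun p hp => ?_, fun a => ?_⟩
  · have hi : AlgebraicIndependent ℂ (Sum.elim (fun i => subR htr (u2 i))
        fun i => subR htr (u1 i)) := by
      have := sub_ind htr (h.res.comp Sum.swap Sum.swap_leftInverse.injective)
      convert this using 1
      funext i
      rcases i with i | i <;> rfl
    have hi2 := (AlgebraicIndependent.sumElim_iff.1 hi).2.subalgebraAlgebraicClosure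
    let φO : ℂ →+* v.valuationSubring := φ.codRestrict v.valuationSubring hle
    have hal : ∀ c, (subRO htr).comp φO c ∈ Subalgebra.algebraicClosure
        (Algebra.adjoin ℂ (Set.range fun i => subR htr (u1 i))) (SubK htr) := by
      intro c
      have h1 : IsAlgebraic (Algebra.adjoin ℂ (insert t (Set.range u1))) (φ c) :=
        ((mem_Om u1 _).1 (hmem c)).tower_top_of_subalgebra_le
          (Algebra.adjoin_mono (Set.subset_insert _ _))
      obtain ⟨Q, hQ1, hQ2⟩ := hr1.res_alg h.pos h.lt (hle c) h1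
      have h2 := sub_alg htr hr1 (hle c) Q hQ1 hQ2
      have h3 : subR htr (φ c) = subRO htr (φO c) := sub_R_coe htr (φO c)
      rw [h3] at h2
      exact h2
    let ψ := ((subRO htr).comp φO).codRestrict _ hal
    have hne : aeval (fun i => subR htr (u2 i)) (MvPolynomial.map ψ p) ≠ 0 := fun h0 =>
      hp (map_injective ψ ψ.injective
        (by rw [algebraicIndependent_iff.1 hi2 _ h0, map_zero]))
    let U : κ' → v.valuationSubring := fun i => ⟨u2 i, (hr2.val_eq i).le⟩
    have e1 : aeval (fun i => subR htr (u2 i)) (MvPolynomial.map ψ p) =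
        subRO htr (eval₂ φO U p) := by
      rw [aeval_def, eval₂_map, hom_eval₂]
      congr 1
      funext i
      exact sub_R_coe htr (U i)
    have e2 : ((eval₂ φO U p : v.valuationSubring) : L) = eval₂ φ u2 p :=
      hom_eval₂ p φO v.valuationSubring.subtype U
    rw [e1, Ne, sub_RO_eq_zero, e2, not_lt] at hne
    have e3 : v (eval₂ φ u2 p) ≤ 1 := by rw [← e2]; exact (eval₂ φO U p).2
    exact le_antisymm e3 hne
  · obtain ⟨a, rfl⟩ := (Tw.mk φ).surjective a
    have hsub : ∀ x ∈ Algebra.adjoin ℂ (insert t (Set.range (Sum.elim u1 u2))),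
        Tw.mk φ x ∈ Algebra.adjoin ℂ
          (insert (Tw.mk φ t) (Set.range fun i => Tw.mk φ (u2 i))) := by
      have hOm : ∀ x ∈ Om u1, Tw.mk φ x ∈ Algebra.adjoin ℂ
          (insert (Tw.mk φ t) (Set.range fun i => Tw.mk φ (u2 i))) := by
        intro x hx
        have : x ∈ Set.range φ := by rw [hφ]; exact hx
        obtain ⟨c, rfl⟩ := this
        rw [← Tw.algebraMap_eq]
        exact Subalgebra.algebraMap_mem _ c
      intro x hx
      induction hx using Algebra.adjoin_induction with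
      | mem x hx =>
        rcases hx with rfl | ⟨i | i, rfl⟩
        · exact Algebra.subset_adjoin (Set.mem_insert _ _)
        · refine hOm _ ((mem_Om u1 _).2 ?_)
          exact isAlgebraic_algebraMap
            (⟨u1 i, Algebra.subset_adjoin ⟨i, rfl⟩⟩ : Algebra.adjoin ℂ (Set.range u1))
        · exact Algebra.subset_adjoin (Set.mem_insert_of_mem _ ⟨i, rfl⟩)
      | algebraMap c => exact hOm _ ((Om u1).algebraMap_mem c)
      | add x y _ _ hx hy => rw [map_add]; exact Subalgebra.add_mem _ hx hy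
      | mul x y _ _ hx hy => rw [map_mul]; exact Subalgebra.mul_mem _ hx hy
    let g : Algebra.adjoin ℂ (insert t (Set.range (Sum.elim u1 u2))) →+*
        Algebra.adjoin ℂ (insert (Tw.mk φ t) (Set.range fun i => Tw.mk φ (u2 i))) :=
      ((Tw.mk φ).toRingHom.comp (Subalgebra.val _).toRingHom).codRestrict _ fun x => hsub x x.2
    refine IsAlgebraic.ringHom_of_comp_eq g (Tw.mk φ).toRingHom (h.alg a) ?_ rfl
    intro x y hxy
    have h5 : (g x).1 = (g y).1 := congrArg Subtype.val hxy
    exact Subtype.ext ((Tw.mk φ).injective h5)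

end Pool.Agent.MP_c0606f_ag.Klt

end

-- part MP_c0606f_ag.Klt.Link
section

/-! Comparison of normalised discrete valuations with real valued ones. -/

namespace Pool.Agent.MP_c0606f_ag.Klt

open scoped NNReal WithZero
open MvPolynomial

variable {F : Type} [Field F]

/-- `v` is the real valued form of `w` with `v a = c ^ ord a` -/
def Assoc (w : Valuation F ℤᵐ⁰) (v : Val F) (c : ℝ≥0) : Prop :=
  0 < c ∧ c < 1 ∧ ∀ a, a ≠ 0 → v a = c ^ ord w a

theorem ord_mul (w : Valuation F ℤᵐ⁰) {a b : F} (ha : a ≠ 0) (hb : b ≠ 0) :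
    ord w (a * b) = ord w a + ord w b := by
  rw [ord, ord, ord, map_mul, WithZero.log_mul (w.ne_zero_iff.2 ha) (w.ne_zero_iff.2 hb)]
  ring

theorem ord_div (w : Valuation F ℤᵐ⁰) {a b : F} (ha : a ≠ 0) (hb : b ≠ 0) :
    ord w (a / b) = ord w a - ord w b := by
  rw [ord, ord, ord, map_div₀, WithZero.log_div (w.ne_zero_iff.2 ha) (w.ne_zero_iff.2 hb)]
  ring

theorem ord_zpow (w : Valuation F ℤᵐ⁰) (a : F) (l : ℤ) : ord w (a ^ l) = l * ord w a := by
  rw [ord, ord, map_zpow₀, WithZero.log_zpow, smul_eq_mul]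
  ring

theorem ord_prod (w : Valuation F ℤᵐ⁰) {ι : Type} (S : Finset ι) (a : ι → F)
    (ha : ∀ i ∈ S, a i ≠ 0) : ord w (∏ i ∈ S, a i) = ∑ i ∈ S, ord w (a i) := by
  classical
  induction S using Finset.induction_on with
  | empty => simp [ord]
  | insert i S hi ih =>
    have h1 : ∀ k ∈ S, a k ≠ 0 := fun k hk => ha k (Finset.mem_insert_of_mem hk)
    rw [Finset.prod_insert hi, Finset.sum_insert hi,
      ord_mul w (ha i (Finset.mem_insert_self i S)) (Finset.prod_ne_zero_iff.2 h1), ih h1]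

theorem le_exp_iff (w : Valuation F ℤᵐ⁰) {a : F} (ha : a ≠ 0) (l : ℤ) :
    w a ≤ WithZero.exp (-l) ↔ l ≤ ord w a := by
  rw [← WithZero.log_le_iff_le_exp (w.ne_zero_iff.2 ha), ord, le_neg]

theorem val_le_iff_ord (w : Valuation F ℤᵐ⁰) {a b : F} (ha : a ≠ 0) (hb : b ≠ 0) :
    w a ≤ w b ↔ ord w b ≤ ord w a := by
  rw [ord, ord, neg_le_neg_iff, WithZero.log_le_log (w.ne_zero_iff.2 ha) (w.ne_zero_iff.2 hb)]

/-- `Valuation.map` along `WithZeroMulInt.toNNReal` -/
theorem exists_assoc (w : Valuation F ℤᵐ⁰) {c : ℝ≥0} (h0 : 0 < c) (h1 : c < 1) :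
    ∃ v : Val F, Assoc w v c := by
  have h2 : 1 < c⁻¹ := (one_lt_inv₀ h0).2 h1
  refine ⟨w.map (WithZeroMulInt.toNNReal (inv_ne_zero h0.ne'))
    (WithZeroMulInt.toNNReal_strictMono h2).monotone, h0, h1, fun a ha => ?_⟩
  have h3 : w a ≠ 0 := w.ne_zero_iff.2 ha
  change WithZeroMulInt.toNNReal (inv_ne_zero h0.ne') (w a) = _
  rw [WithZeroMulInt.toNNReal_neg_apply _ h3, WithZero.toAdd_unzero_eq_log, ord, inv_zpow']

theorem Assoc.le_iff {w : Valuation F ℤᵐ⁰} {v : Val F} {c : ℝ≥0} (h : Assoc w v c) (a b : F) :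
    v a ≤ v b ↔ w a ≤ w b := by
  rcases eq_or_ne a 0 with rfl | ha
  · simp
  rcases eq_or_ne b 0 with rfl | hb
  · simp [ha]
  rw [val_le_iff_ord w ha hb, h.2.2 a ha, h.2.2 b hb, zpow_le_zpow_iff_right_of_lt_one₀ h.1 h.2.1]

theorem Assoc.log {w : Valuation F ℤᵐ⁰} {v : Val F} {c : ℝ≥0} (h : Assoc w v c) {a : F}
    (ha : a ≠ 0) : -Real.log (v a) = (ord w a : ℝ) * -Real.log c := by
  rw [h.2.2 a ha, NNReal.coe_zpow, Real.log_zpow]
  ring

theorem link_exists (w : Valuation F ℤᵐ⁰) {k : ℕ} (s : Fin (k + 1) → F) :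
    ∃ i, (⨅ i, ord w (s i)) = ord w (s i) ∧ ∀ j, ord w (s i) ≤ ord w (s j) := by
  obtain ⟨i, hi⟩ := Finite.exists_min fun i => ord w (s i)
  exact ⟨i, le_antisymm (ciInf_le (Finite.bddBelow_range _) i) (le_ciInf hi), hi⟩

/-- the minimum over products is the sum of the minima -/
theorem iInf_ord_prod (w : Valuation F ℤᵐ⁰) {N k : ℕ} (s : Fin N → Fin (k + 1) → F)
    (hs : ∀ j i, s j i ≠ 0) :
    (⨅ φ : Fin N → Fin (k + 1), ord w (∏ j, s j (φ j))) = ∑ j, ⨅ i, ord w (s j i) := by
  choose φ h1 h2 using fun j => link_exists w (s j)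
  have h3 : ∀ ψ : Fin N → Fin (k + 1), ord w (∏ j, s j (ψ j)) = ∑ j, ord w (s j (ψ j)) :=
    fun ψ => ord_prod w _ _ fun j _ => hs j _
  simp only [h1, h3]
  exact le_antisymm (ciInf_le (Finite.bddBelow_range _) φ)
    (le_ciInf fun ψ => Finset.sum_le_sum fun j _ => h2 j _)

theorem exists_iInf_ord (w : Valuation F ℤᵐ⁰) {k : ℕ} (s : Fin (k + 1) → F) :
    ∃ i, (⨅ i, ord w (s i)) = ord w (s i) ∧ ∀ j, ord w (s i) ≤ ord w (s j) := by
  exact link_exists w s

variable [Algebra ℂ F]

theorem IsDiv.frame {d : ℕ} {w : Valuation F ℤᵐ⁰} (hw : IsDiv d w) {v : Val F} {c : ℝ≥0}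
    (h : Assoc w v c) {ι : Type} [Fintype ι] (y : ι → F) (hc : Fintype.card ι = d) (hd : 0 < d)
    (halg : ∀ a : F, IsAlgebraic (Algebra.adjoin ℂ (Set.range y)) a) :
    IsTranscendenceBasis ℂ y ∧
      ∃ (t : F) (u : Fin (d - 1) → F), IsFrame v t u ∧ IsUnif v t ∧ v t = c := by
  obtain ⟨hsurj, u, hu⟩ := hw
  obtain ⟨t, ht⟩ := hsurj (WithZero.exp (-1))
  have ht0 : t ≠ 0 := w.ne_zero_iff.1 (ht ▸ WithZero.exp_ne_zero)
  have hvt : v t = c := by
    rw [h.2.2 t ht0, ord, ht, WithZero.log_exp, neg_neg, zpow_one]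
  have hres : ResInd v u := fun p hp => by
    have h1 := hu p hp
    rw [h.2.2 _ (w.ne_zero_iff.1 (h1 ▸ one_ne_zero)), ord, h1, WithZero.log_one, neg_zero,
      zpow_zero]
  have h0 : 0 < v t := hvt ▸ h.1
  have h1 : v t < 1 := hvt ▸ h.2.1
  have hf : IsFrame v t u := isFrame_of_card hres h0 h1 y halg (by
    rw [hc, Fintype.card_fin]
    omega)
  refine ⟨?_, t, u, hf, ⟨h0, h1, fun a _ ha => ⟨ord w a, hvt ▸ h.2.2 a ha⟩⟩, hvt⟩
  have : Algebra.IsAlgebraic (Algebra.adjoin ℂ (Set.range y)) F := ⟨halg⟩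
  refine Algebra.IsAlgebraic.isTranscendenceBasis_of_le_trdeg_of_finite ℂ y (le_of_eq ?_)
  rw [← hf.basis.cardinalMk_eq_trdeg, Cardinal.mk_fintype, Cardinal.mk_fintype, hc,
    Fintype.card_option, Fintype.card_fin]
  congr 1
  omega

/-- define `w a = exp (-j)` where `v a = v t ^ j` -/
theorem exists_div_of_frame {v : Val F} {κ : Type} [Fintype κ] {t : F} {u : κ → F}
    (hf : IsFrame v t u) (ht : IsUnif v t) {d : ℕ} (hd : Fintype.card κ + 1 = d) :
    ∃ w : Valuation F ℤᵐ⁰, IsDiv d w ∧ Assoc w v (v t) := by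
  classical
  choose j hj using fun (a : F) (ha : a ≠ 0) => ht.2.2 a (Set.mem_univ a) ha
  have hinj : Function.Injective fun l : ℤ => v t ^ l :=
    zpow_right_injective₀ hf.pos hf.lt.ne
  let g : F → ℤᵐ⁰ := fun a => if ha : a = 0 then 0 else WithZero.exp (-j a ha)
  have hg : ∀ a (l : ℤ), v a = v t ^ l → g a = WithZero.exp (-l) := by
    intro a l hl
    have ha : a ≠ 0 := v.ne_zero_iff.1 (hl ▸ zpow_ne_zero l hf.pos.ne')
    simp only [g, dif_neg ha]
    rw [hinj ((hj a ha).symm.trans hl)]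
  have g0 : g 0 = 0 := dif_pos rfl
  have hle : ∀ a b, v a ≤ v b → g a ≤ g b := by
    intro a b hab
    rcases eq_or_ne a 0 with rfl | ha
    · rw [g0]
      exact zero_le
    have hb : b ≠ 0 := v.ne_zero_iff.1 ((v.pos_iff.2 ha).trans_le hab).ne'
    rw [hg a _ (hj a ha), hg b _ (hj b hb), WithZero.exp_le_exp, neg_le_neg_iff]
    rwa [hj a ha, hj b hb, zpow_le_zpow_iff_right_of_lt_one₀ hf.pos hf.lt] at hab
  let w : Valuation F ℤᵐ⁰ :=
    { toFun := g
      map_zero' := g0
      map_one' := by simpa using hg 1 0 (by simp)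
      map_mul' := fun a b => by
        rcases eq_or_ne a 0 with rfl | ha
        · rw [zero_mul, g0, zero_mul]
        rcases eq_or_ne b 0 with rfl | hb
        · rw [mul_zero, g0, mul_zero]
        rw [hg a _ (hj a ha), hg b _ (hj b hb), ← WithZero.exp_add, ← neg_add]
        exact hg _ _ (by rw [map_mul, hj a ha, hj b hb, zpow_add₀ hf.pos.ne'])
      map_add_le_max' := fun a b => by
        rcases le_max_iff.1 (v.map_add a b) with h | h
        · exact le_max_of_le_left (hle _ _ h)
        · exact le_max_of_le_right (hle _ _ h) }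
  have hw : ∀ a, w a = g a := fun _ => rfl
  have e : Fin (d - 1) ≃ κ := Fintype.equivOfCardEq (by
    rw [Fintype.card_fin]
    omega)
  refine ⟨w, ⟨fun x => ?_, u ∘ e, fun p hp => ?_⟩, hf.pos, hf.lt, fun a ha => ?_⟩
  · rcases eq_or_ne x 0 with rfl | hx
    · exact ⟨0, g0⟩
    · refine ⟨t ^ (-WithZero.log x), ?_⟩
      rw [hw, hg _ _ (map_zpow₀ v t _), neg_neg, WithZero.exp_log hx]
  · rw [hw, hg _ 0 (by rw [hf.res.comp e e.injective p hp, zpow_zero]), neg_zero,
      WithZero.exp_zero]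
  · rw [ord, hw, hg a _ (hj a ha), WithZero.log_exp, neg_neg]
    exact hj a ha

/-- With `D0, D i` from `IsFrame.exists_dual`, the derivations `t⁻¹ • D0` and `D i` preserve the
valuation ring (`IsUnifOn.le_of_lt`; for `v a < 1` use `D0 ∈ LD`), every derivation `E` preserving
it is `E t • t⁻¹ • D0 + ∑ E (u i) • D i`, so the infimum is attained at their determinant, which is
nonzero (write the `D i (u j)` in terms of the derivations dual to `y`: `der_comp_eq` with the
identity map); `avol_eq`. -/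
theorem avol_eq_ordForm {w : Valuation F ℤᵐ⁰} {v : Val F} {κ : Type} [Fintype κ] {t : F}
    {u : κ → F} (hf : IsFrame v t u) (ht : IsUnif v t) (h : Assoc w v (v t)) {ι : Type}
    [Fintype ι] [DecidableEq ι] {y : ι → F} (hy : IsTranscendenceBasis ℂ y) :
    avol v y = v t ^ (1 + ordForm w y) := by
  classical
  have e : ι ≃ Option κ := Fintype.equivOfCardEq (by rw [hf.card_eq hy, Fintype.card_option])
  obtain ⟨D0, D, hd, hD0, hD, hlt⟩ := hf.exists_dual
  have ht0 : t ≠ 0 := v.pos_iff.1 hf.pos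
  let G : Option κ → Derivation ℂ F F := fun o => o.elim (t⁻¹ • D0) D
  let x : Option κ → F := fun o => o.elim t u
  have hGx : ∀ o o', G o (x o') = if o = o' then 1 else 0 := by
    rintro (_ | i) (_ | j)
    · simp [G, x, hd.tt, ht0]
    · simp [G, x, hd.tu]
    · simp [G, x, hd.ut]
    · simp [G, x, hd.uu]
  have hexp : ∀ (E : Derivation ℂ F F) (a : F), E a = ∑ l, E (x (e l)) * G (e l) a := by
    intro E a
    refine der_comp_eq (AlgHom.id ℂ F) E (fun l => G (e l)) (fun l => E (x (e l))) _ ?_ (hf.alg a)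
    have key : ∀ o, E (x o) = ∑ l, E (x (e l)) * G (e l) (x o) := by
      intro o
      rw [e.sum_comp fun o' => E (x o') * G o' (x o)]
      simp [hGx]
    rintro b (rfl | ⟨i, rfl⟩)
    · exact key none
    · exact key (some i)
  have hdet : ∀ E : ι → Derivation ℂ F F, (Matrix.of fun i j => E i (y j)).det =
      (Matrix.of fun i l => E i (x (e l))).det * (Matrix.of fun i j => G (e i) (y j)).det := by
    intro E
    rw [← Matrix.det_mul]
    congr 1
    ext i j
    rw [Matrix.mul_apply]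
    exact hexp (E i) (y j)
  have hne : (Matrix.of fun i j => G (e i) (y j)).det ≠ 0 := by
    choose E hE using fun i : ι => exists_der hy (Pi.single i 1)
    have h1 := hdet E
    have h2 : (Matrix.of fun i j => E i (y j)) = 1 := by
      ext i j
      rw [Matrix.of_apply, hE, Matrix.one_apply, Pi.single_apply]
      simp only [eq_comm]
    rw [h2, Matrix.det_one] at h1
    exact right_ne_zero_of_mul_eq_one h1.symm
  have hone : ∀ a, w a ≤ 1 ↔ v a ≤ 1 := fun a => by simpa using (h.le_iff a 1).symm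
  have hx : ∀ o, v (x o) ≤ 1 := by
    rintro (_ | i)
    · exact hf.lt.le
    · exact (hf.res.val_eq i).le
  have hG : ∀ o a, v a ≤ 1 → v (G o a) ≤ 1 := by
    rintro (_ | i) a ha
    · have h1 := IsUnifOn.le_of_lt ht (Set.mem_univ _) (hlt a ha)
      change v (t⁻¹ * D0 a) ≤ 1
      rw [map_mul, map_inv₀, inv_mul_le_iff₀ hf.pos, mul_one]
      exact h1
    · exact ((hD i).1 a).trans ha
  have hord : ordForm w y = ord w (Matrix.of fun i j => G (e i) (y j)).det := by
    refine IsLeast.csInf_eq ⟨⟨fun i => G (e i), fun i a ha => (hone _).2 (hG _ a ((hone a).1 ha)),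
      hne, rfl⟩, ?_⟩
    rintro _ ⟨E, hE, hE0, rfl⟩
    rw [← val_le_iff_ord w hE0 hne, ← h.le_iff, hdet E, map_mul]
    refine mul_le_of_le_one_left zero_le ?_
    have := val_det_le (v := v) (Matrix.of fun i l => E i (x (e l))) (fun _ => 1)
      fun i l => (hone _).1 (hE i _ ((hone _).2 (hx _)))
    simpa using this
  rw [avol_eq hf hd y e, hdet, map_mul, hord, zpow_add₀ hf.pos.ne', zpow_one, ← h.2.2 _ hne]
  congr 2
  have h3 : (Matrix.of fun i l => ((e i).elim D0 D : Derivation ℂ F F) (x (e l))) =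
      Matrix.diagonal fun i => (e i).elim t fun _ => 1 := by
    ext i l
    simp only [Matrix.of_apply, Matrix.diagonal_apply, ← e.injective.eq_iff (a := i)]
    rcases e i with _ | a <;> rcases e l with _ | b <;> simp [x, hd.tt, hd.tu, hd.ut, hd.uu]
  rw [h3, Matrix.det_diagonal, e.prod_comp fun o => o.elim t fun _ => (1 : F)]
  simp

end Pool.Agent.MP_c0606f_ag.Klt

end

-- part MP_c0606f_ag.Klt.Gauss
section

/-! Gauss extensions and construction of valuations. -/

namespace Pool.Agent.MP_c0606f_ag.Klt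

open scoped NNReal
open MvPolynomial

variable {F : Type} [Field F]

/-- `v` is the Gauss extension of `v0` with `v X = c` -/
def IsGauss (v0 : Val F) (c : ℝ≥0) (v : Val (RatFunc F)) : Prop :=
  ∀ p : Polynomial F, (∀ i, v0 (p.coeff i) * c ^ i ≤ v (algebraMap _ (RatFunc F) p)) ∧
    ∃ i, v (algebraMap _ (RatFunc F) p) = v0 (p.coeff i) * c ^ i

/-- a valuation as an absolute value -/
noncomputable def gaussAbs (v0 : Val F) : AbsoluteValue F ℝ where
  toFun a := (v0 a : ℝ)
  map_mul' a b := by rw [map_mul, NNReal.coe_mul]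
  nonneg' a := (v0 a).coe_nonneg
  eq_zero' a := by rw [NNReal.coe_eq_zero, Valuation.zero_iff]
  add_le' a b := by
    rw [← NNReal.coe_add, NNReal.coe_le_coe]
    exact (v0.map_add a b).trans (max_le le_self_add le_add_self)

theorem gauss_nonarch (v0 : Val F) : IsNonarchimedean (gaussAbs v0) := fun a b => by
  change ((v0 (a + b) : ℝ≥0) : ℝ) ≤ max (v0 a : ℝ) (v0 b : ℝ)
  rw [← NNReal.coe_max, NNReal.coe_le_coe]
  exact v0.map_add a b

/-- the Gauss valuation on polynomials -/
noncomputable def gaussPoly (v0 : Val F) {c : ℝ≥0} (hc : 0 < c) : Valuation (Polynomial F) ℝ≥0 where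
  toFun p := NNReal.mk (p.gaussNorm (gaussAbs v0) c) (p.gaussNorm_nonneg _ c.coe_nonneg)
  map_zero' := NNReal.eq (Polynomial.gaussNorm_zero (gaussAbs v0) (c : ℝ))
  map_one' := NNReal.eq (by
    change Polynomial.gaussNorm (gaussAbs v0) c (Polynomial.C 1) = 1
    rw [Polynomial.gaussNorm_C, map_one])
  map_mul' p q := NNReal.eq (Polynomial.gaussNorm_mul (gauss_nonarch v0) hc p q)
  map_add_le_max' p q := by
    refine NNReal.coe_le_coe.1 ?_
    rw [NNReal.coe_max]
    exact Polynomial.isNonarchimedean_gaussNorm _ (gauss_nonarch v0) c.coe_nonneg p q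

/-- `Polynomial.gaussNorm_mul` (or a direct proof) and `Valuation.extendToLocalization` -/
theorem exists_gauss (v0 : Val F) {c : ℝ≥0} (hc : 0 < c) : ∃ v, IsGauss v0 c v := by
  have hS : nonZeroDivisors (Polynomial F) ≤ (gaussPoly v0 hc).supp.primeCompl := by
    intro p hp h0
    have h1 : gaussPoly v0 hc p = 0 := h0
    have h2 : p.gaussNorm (gaussAbs v0) c = 0 := congrArg NNReal.toReal h1
    exact nonZeroDivisors.ne_zero hp ((Polynomial.gaussNorm_eq_zero_iff (gaussAbs v0) p
      (fun x hx => (AbsoluteValue.eq_zero _).1 hx) (NNReal.coe_pos.2 hc)).1 h2)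
  refine ⟨(gaussPoly v0 hc).extendToLocalization hS (RatFunc F), fun p => ?_⟩
  rw [Valuation.extendToLocalization_apply_map_apply]
  refine ⟨fun i => ?_, ?_⟩
  · rw [← NNReal.coe_le_coe, NNReal.coe_mul, NNReal.coe_pow]
    exact p.le_gaussNorm (gaussAbs v0) c.coe_nonneg i
  · obtain ⟨i, hi⟩ := p.exists_eq_gaussNorm (gaussAbs v0) c
    refine ⟨i, NNReal.eq ?_⟩
    rw [NNReal.coe_mul, NNReal.coe_pow]
    exact hi

variable {v0 : Val F} {c : ℝ≥0} {v : Val (RatFunc F)}

theorem gauss_monomial (h : IsGauss v0 c v) (n : ℕ) (a : F) :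
    v (algebraMap _ (RatFunc F) (Polynomial.monomial n a)) = v0 a * c ^ n := by
  obtain ⟨h1, i, hi⟩ := h (Polynomial.monomial n a)
  have h2 := h1 n
  rw [Polynomial.coeff_monomial_same] at h2
  refine le_antisymm ?_ h2
  rw [hi, Polynomial.coeff_monomial]
  split_ifs with hn
  · rw [hn]
  · simp

theorem IsGauss.C (h : IsGauss v0 c v) (a : F) : v (RatFunc.C a) = v0 a := by
  have := gauss_monomial h 0 a
  rwa [Polynomial.monomial_zero_left, RatFunc.algebraMap_C, pow_zero, mul_one] at this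

theorem IsGauss.X (h : IsGauss v0 c v) : v RatFunc.X = c := by
  have := gauss_monomial h 1 1
  rwa [Polynomial.monomial_one_one_eq_X, RatFunc.algebraMap_X, map_one, pow_one, one_mul] at this

theorem gauss_unif (h : IsGauss v0 c v) {s : ℝ≥0} (hs : 0 < s)
    (hz : ∀ (a : F) (i : ℕ), a ≠ 0 → ∃ j : ℤ, v0 a * c ^ i = s ^ j) {a : RatFunc F} (ha : a ≠ 0) :
    ∃ j : ℤ, v a = s ^ j := by
  have hp : ∀ p : Polynomial F, p ≠ 0 → ∃ j : ℤ, v (algebraMap _ (RatFunc F) p) = s ^ j := by
    intro p hp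
    obtain ⟨i, hi⟩ := (h p).2
    rw [hi]
    refine hz _ i fun h0 => ?_
    rw [h0, map_zero, zero_mul, Valuation.zero_iff] at hi
    exact RatFunc.algebraMap_ne_zero hp hi
  obtain ⟨j, hj⟩ := hp _ (RatFunc.num_ne_zero ha)
  obtain ⟨k, hk⟩ := hp _ (RatFunc.denom_ne_zero a)
  exact ⟨j - k, by rw [← RatFunc.num_div_denom a, map_div₀, hj, hk, zpow_sub₀ hs.ne']⟩

variable [Algebra ℂ F]

theorem gauss_alg_map {L : Type} [Field L] [Algebra ℂ L] (j : F →ₐ[ℂ] L) {G : Set F} {G' : Set L}
    (hG : ∀ a ∈ G, j a ∈ G') {a : F} (ha : IsAlgebraic (Algebra.adjoin ℂ G) a) :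
    IsAlgebraic (Algebra.adjoin ℂ G') (j a) := by
  have hm : ∀ x : Algebra.adjoin ℂ G, (j.comp (Algebra.adjoin ℂ G).val) x ∈ Algebra.adjoin ℂ G' := by
    intro x
    have : Algebra.adjoin ℂ G ≤ (Algebra.adjoin ℂ G').comap j :=
      Algebra.adjoin_le fun b hb => Algebra.subset_adjoin (hG b hb)
    exact this x.2
  exact ha.ringHom_of_comp_eq ((j.comp (Algebra.adjoin ℂ G).val).codRestrict _ hm) j
    (fun x y hxy => Subtype.ext (j.injective (congrArg Subtype.val hxy))) (RingHom.ext fun _ => rfl)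

theorem gauss_alg_rat {G : Set (RatFunc F)}
    (hC : ∀ a : F, IsAlgebraic (Algebra.adjoin ℂ G) (RatFunc.C a))
    (hX : IsAlgebraic (Algebra.adjoin ℂ G) (RatFunc.X : RatFunc F)) (a : RatFunc F) :
    IsAlgebraic (Algebra.adjoin ℂ G) a := by
  have hp : ∀ p : Polynomial F, IsAlgebraic (Algebra.adjoin ℂ G) (algebraMap _ (RatFunc F) p) := by
    intro p
    induction p using Polynomial.induction_on' with
    | add p q hp hq => rw [map_add]; exact hp.add hq
    | monomial n b =>
      rw [← Polynomial.C_mul_X_pow_eq_monomial, map_mul, map_pow, RatFunc.algebraMap_C,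
        RatFunc.algebraMap_X]
      exact (hC b).mul (hX.pow n)
  rw [← RatFunc.num_div_denom a, div_eq_mul_inv]
  exact (hp _).mul (hp _).inv

theorem gauss_alg_mem {L : Type} [Field L] [Algebra ℂ L] {G : Set L} {a : L} (ha : a ∈ G) :
    IsAlgebraic (Algebra.adjoin ℂ G) a :=
  isAlgebraic_algebraMap (⟨a, Algebra.subset_adjoin ha⟩ : Algebra.adjoin ℂ G)

/-- the constants as an algebra homomorphism -/
noncomputable def gaussC (F : Type) [Field F] [Algebra ℂ F] : F →ₐ[ℂ] RatFunc F :=
  IsScalarTower.toAlgHom ℂ F (RatFunc F)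

theorem gaussC_apply (a : F) : gaussC F a = RatFunc.C a := rfl

theorem gauss_aeval_C {κ : Type} (u : κ → F) (p : MvPolynomial κ ℂ) :
    aeval (fun i => RatFunc.C (u i)) p = RatFunc.C (aeval u p) :=
  (comp_aeval_apply u (gaussC F) p).symm

theorem gauss_aeval_option {κ : Type} (u : κ → F) (β : F) (p : MvPolynomial (Option κ) ℂ) :
    aeval (fun o : Option κ => o.elim (RatFunc.X / RatFunc.C β) fun i => RatFunc.C (u i)) p =
      algebraMap (Polynomial F) (RatFunc F) (((optionEquivLeft ℂ κ p).map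
        (aeval u : MvPolynomial κ ℂ →ₐ[ℂ] F).toRingHom).comp (Polynomial.C β⁻¹ * Polynomial.X)) := by
  induction p using MvPolynomial.induction_on with
  | C a =>
    rw [optionEquivLeft_C, Polynomial.map_C, Polynomial.C_comp, RatFunc.algebraMap_C, aeval_C]
    simp only [AlgHom.toRingHom_eq_coe, RingHom.coe_coe, aeval_C]
    exact ((gaussC F).commutes a).symm
  | add p q hp hq => rw [map_add, map_add, Polynomial.map_add, Polynomial.add_comp, map_add, hp, hq]
  | mul_X p i hp =>
    rw [map_mul, map_mul, Polynomial.map_mul, Polynomial.mul_comp, map_mul, hp]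
    congr 1
    rcases i with _ | i
    · simp [optionEquivLeft_X_none, div_eq_inv_mul]
    · simp [optionEquivLeft_X_some]

theorem IsGauss.frame (h : IsGauss v0 c v) {κ : Type} {t : F} {u : κ → F} (hf : IsFrame v0 t u)
    {β : F} (h0 : β ≠ 0) (hβ : v0 β = c) :
    IsFrame v (RatFunc.C t)
      fun o : Option κ => o.elim (RatFunc.X / RatFunc.C β) fun i => RatFunc.C (u i) := by
  have hc : c ≠ 0 := by rw [← hβ]; exact (Valuation.ne_zero_iff v0).2 h0
  refine ⟨by rw [h.C]; exact hf.pos, by rw [h.C]; exact hf.lt, fun p hp => ?_, ?_⟩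
  · rw [gauss_aeval_option]
    have hP : optionEquivLeft ℂ κ p ≠ 0 := (map_ne_zero_iff _ (optionEquivLeft ℂ κ).injective).2 hp
    generalize optionEquivLeft ℂ κ p = P at hP
    have e : ∀ i, v0 (((P.map (aeval u : MvPolynomial κ ℂ →ₐ[ℂ] F).toRingHom).comp
        (Polynomial.C β⁻¹ * Polynomial.X)).coeff i) * c ^ i = v0 (aeval u (P.coeff i)) := by
      intro i
      rw [Polynomial.comp_C_mul_X_coeff, Polynomial.coeff_map, map_mul, map_pow, map_inv₀, hβ,
        mul_assoc, ← mul_pow, inv_mul_cancel₀ hc, one_pow, mul_one]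
      rfl
    obtain ⟨h1, i, hi⟩ := h ((P.map (aeval u : MvPolynomial κ ℂ →ₐ[ℂ] F).toRingHom).comp
      (Polynomial.C β⁻¹ * Polynomial.X))
    refine le_antisymm ?_ ?_
    · rw [hi, e]
      rcases eq_or_ne (P.coeff i) 0 with h2 | h2
      · simp [h2]
      · exact (hf.res _ h2).le
    · have := h1 P.natDegree
      rwa [e, Polynomial.coeff_natDegree, hf.res _ (Polynomial.leadingCoeff_ne_zero.2 hP)] at this
  · have hC : ∀ a : F, IsAlgebraic (Algebra.adjoin ℂ (insert (RatFunc.C t) (Set.range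
        fun o : Option κ => o.elim (RatFunc.X / RatFunc.C β) fun i => RatFunc.C (u i))))
        (RatFunc.C a) := by
      refine fun a => gauss_alg_map (gaussC F) ?_ (hf.alg a)
      rintro _ (rfl | ⟨i, rfl⟩)
      · exact Set.mem_insert _ _
      · exact Set.mem_insert_of_mem _ ⟨some i, rfl⟩
    refine gauss_alg_rat hC ?_
    have hb : (RatFunc.C β : RatFunc F) ≠ 0 := (map_ne_zero_iff _ RatFunc.C_injective).2 h0
    have hX := (gauss_alg_mem (Set.mem_insert_of_mem (RatFunc.C t) (Set.mem_range_self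
      (f := fun o : Option κ => o.elim (RatFunc.X / RatFunc.C β) fun i => RatFunc.C (u i))
      none))).mul (hC β)
    rwa [Option.elim_none, div_mul_cancel₀ RatFunc.X hb] at hX

omit [Algebra ℂ F] in
theorem IsGauss.unif (h : IsGauss v0 c v) {t : F} (ht : IsUnif v0 t) {β : F} (h0 : β ≠ 0)
    (hβ : v0 β = c) : IsUnif v (RatFunc.C t) := by
  refine ⟨by rw [h.C]; exact ht.1, by rw [h.C]; exact ht.2.1, fun a _ ha => ?_⟩
  rw [h.C]
  refine gauss_unif h ht.1 (fun b i hb => ?_) ha
  rw [← hβ, ← map_pow, ← map_mul]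
  exact ht.2.2 _ (Set.mem_univ _) (mul_ne_zero hb (pow_ne_zero i h0))

theorem IsGauss.frame_triv (h : IsGauss v0 c v) (htriv : ∀ a, a ≠ 0 → v0 a = 1) (hc0 : 0 < c)
    (hc : c < 1) {ι : Type} {y : ι → F} (hy : IsTranscendenceBasis ℂ y) :
    IsFrame v RatFunc.X (fun i => RatFunc.C (y i)) ∧ IsUnif v RatFunc.X := by
  refine ⟨⟨by rwa [h.X], by rwa [h.X], fun p hp => ?_, gauss_alg_rat (fun a => ?_)
    (gauss_alg_mem (Set.mem_insert _ _))⟩, by rwa [h.X], by rwa [h.X], fun a _ ha => ?_⟩
  · rw [gauss_aeval_C, h.C]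
    exact htriv _ fun h0 => hp (algebraicIndependent_iff.1 hy.1 p h0)
  · refine gauss_alg_map (gaussC F) ?_ (hy.isAlgebraic.1 a)
    rintro _ ⟨i, rfl⟩
    exact Set.mem_insert_of_mem _ ⟨i, rfl⟩
  · rw [h.X]
    exact gauss_unif h hc0 (fun b i hb => ⟨i, by rw [htriv b hb, one_mul, zpow_natCast]⟩) ha

theorem gauss_adj {κ : Type} {t : F} {u : κ → F} (hf : IsFrame v0 t u) (Z : Type) [Finite Z] :
    ∃ (L : Type) (_ : Field L) (_ : Algebra ℂ L) (j : F →ₐ[ℂ] L) (w : Val L)
      (ξ : Z → L), (∀ a, w (j a) = v0 a) ∧ IsFrame w (j t) (Sum.elim (fun i => j (u i)) ξ) := by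
  induction Z using Finite.induction_empty_option with
  | @of_equiv α β e ih =>
    obtain ⟨L, _, _, j, w, ξ, h1, h2⟩ := ih
    refine ⟨L, _, _, j, w, ξ ∘ e.symm, h1, ?_⟩
    have h3 := h2.reindex (Equiv.sumCongr (Equiv.refl κ) e.symm)
    have e1 : Sum.elim (fun i => j (u i)) ξ ∘ Equiv.sumCongr (Equiv.refl κ) e.symm =
        Sum.elim (fun i => j (u i)) (ξ ∘ e.symm) := funext fun x => by cases x <;> rfl
    rwa [e1] at h3
  | h_empty =>
    refine ⟨F, _, _, AlgHom.id ℂ F, v0, PEmpty.elim, fun _ => rfl, ?_⟩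
    have h3 := hf.reindex (Equiv.sumEmpty κ PEmpty)
    have e1 : u ∘ Equiv.sumEmpty κ PEmpty = Sum.elim u PEmpty.elim :=
      funext fun x => by rcases x with x | x; exacts [rfl, x.elim]
    rwa [e1] at h3
  | @h_option α _ ih =>
    obtain ⟨L, _, _, j, w, ξ, h1, h2⟩ := ih
    obtain ⟨w', hw'⟩ := exists_gauss w one_pos
    refine ⟨RatFunc L, _, _, (gaussC L).comp j, w',
      fun o => o.elim (RatFunc.X / RatFunc.C 1) fun a => RatFunc.C (ξ a),
      fun a => (hw'.C (j a)).trans (h1 a), ?_⟩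
    let e : κ ⊕ Option α ≃ Option (κ ⊕ α) :=
      { toFun := Sum.elim (fun i => some (Sum.inl i)) (Option.map Sum.inr)
        invFun := fun o => o.elim (Sum.inr none) (Sum.map id some)
        left_inv := by rintro (_ | _ | _) <;> rfl
        right_inv := by rintro (_ | _ | _) <;> rfl }
    have h3 := (hw'.frame h2 one_ne_zero (map_one w)).reindex e
    have e1 : (fun o : Option (κ ⊕ α) => o.elim (RatFunc.X / RatFunc.C 1)
        fun i => RatFunc.C (Sum.elim (fun i => j (u i)) ξ i)) ∘ e =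
        Sum.elim (fun i => ((gaussC L).comp j) (u i))
          fun o : Option α => o.elim (RatFunc.X / RatFunc.C 1) fun a => RatFunc.C (ξ a) :=
      funext (by rintro (_ | _ | _) <;> rfl)
    rwa [e1] at h3

/-- Adjoin fresh variables: induction on the number of variables (`IsGauss.frame` with `c = 1`),
then `exists_extend` to the algebraic closure and `IsFrame.of_comap`. -/
theorem exists_adj {κ : Type} {t : F} {u : κ → F} (hf : IsFrame v0 t u) (Z : Type) [Fintype Z] :
    ∃ (L : Type) (_ : Field L) (_ : Algebra ℂ L) (_ : IsAlgClosed L) (j : F →ₐ[ℂ] L) (w : Val L)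
      (ξ : Z → L), (∀ a, w (j a) = v0 a) ∧ IsFrame w (j t) (Sum.elim (fun i => j (u i)) ξ) := by
  obtain ⟨L, _, _, j, w, ξ, h1, h2⟩ := gauss_adj hf Z
  obtain ⟨w', hw'⟩ := exists_extend (L := AlgebraicClosure L) w
  let k : L →ₐ[ℂ] AlgebraicClosure L := IsScalarTower.toAlgHom ℂ L (AlgebraicClosure L)
  have hw : w'.comap k.toRingHom = w := Valuation.ext hw'
  refine ⟨AlgebraicClosure L, _, _, inferInstance, k.comp j, w', fun a => k (ξ a),
    fun a => (hw' (j a)).trans (h1 a), ?_⟩
  have h3 := IsFrame.of_comap (v := w') k (hw ▸ h2) fun a =>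
    (Algebra.IsAlgebraic.isAlgebraic (R := L) a).ringHom_of_comp_eq k.rangeRestrict
      (RingHom.id _) (fun x y hxy => k.injective (congrArg Subtype.val hxy))
      (RingHom.ext fun _ => rfl)
  have e1 : (fun i => k (Sum.elim (fun i => j (u i)) ξ i)) =
      Sum.elim (fun i => (k.comp j) (u i)) fun a => k (ξ a) := funext fun x => by cases x <;> rfl
  rwa [e1] at h3

/-- start from the trivial valuation on `ℂ` and `IsGauss.frame_triv` -/
theorem exists_base (Z : Type) [Fintype Z] {c : ℝ≥0} (h0 : 0 < c) (h1 : c < 1) :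
    ∃ (L : Type) (_ : Field L) (_ : Algebra ℂ L) (_ : IsAlgClosed L) (w : Val L) (t : L)
      (ξ : Z → L), w t = c ∧ IsFrame w t ξ := by
  classical
  obtain ⟨v, hv⟩ := exists_gauss (1 : Val ℂ) h0
  have hy : IsTranscendenceBasis ℂ (Empty.elim : Empty → ℂ) :=
    isTranscendenceBasis_iff_algebraicIndependent_isAlgebraic.2
      ⟨algebraicIndependent_empty_type, ⟨fun a => isAlgebraic_algebraMap
        (⟨a, Subalgebra.algebraMap_mem _ a⟩ : Algebra.adjoin ℂ (Set.range Empty.elim))⟩⟩
  obtain ⟨L, _, _, _, j, w, ξ, h2, h3⟩ :=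
    exists_adj (hv.frame_triv (fun a ha => Valuation.one_apply_of_ne_zero ha) h0 h1 hy).1 Z
  exact ⟨L, _, _, inferInstance, w, j RatFunc.X, ξ, (h2 _).trans hv.X,
    h3.reindex (Equiv.emptySum Empty Z).symm⟩

/-- `2⁻¹ ^ n` -/
noncomputable def gaussExp (n : ℕ∞) : ℝ≥0 := ENat.recTopCoe 0 (fun k => 2⁻¹ ^ k) n

theorem gaussExp_coe (k : ℕ) : gaussExp k = 2⁻¹ ^ k := rfl

theorem gaussExp_anti {m n : ℕ∞} (h : m ≤ n) : gaussExp n ≤ gaussExp m := by
  induction n using ENat.recTopCoe with
  | top => exact zero_le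
  | coe n =>
    lift m to ℕ using ne_top_of_le_ne_top (ENat.natCast_ne_top n) h
    exact pow_le_pow_of_le_one zero_le (by norm_num) (ENat.natCast_le_natCast.1 h)

theorem gaussExp_add (m n : ℕ∞) : gaussExp (m + n) = gaussExp m * gaussExp n := by
  induction n using ENat.recTopCoe with
  | top => rw [add_top]; exact (mul_zero _).symm
  | coe n =>
    induction m using ENat.recTopCoe with
    | top => rw [top_add]; exact (zero_mul _).symm
    | coe m => rw [← Nat.cast_add, gaussExp_coe, gaussExp_coe, gaussExp_coe, pow_add]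

/-- the valuation of a prime element -/
noncomputable def gaussPrime {R : Type} [CommRing R] [IsDomain R] {p : R} (hp : Prime p) :
    Valuation R ℝ≥0 where
  toFun q := gaussExp (emultiplicity p q)
  map_zero' := by rw [emultiplicity_zero]; rfl
  map_one' := by rw [emultiplicity_eq_zero.2 hp.not_dvd_one]; exact pow_zero _
  map_mul' a b := by rw [emultiplicity_mul hp, gaussExp_add]
  map_add_le_max' a b := by
    refine (gaussExp_anti min_le_emultiplicity_add).trans ?_
    rcases le_total (emultiplicity p a) (emultiplicity p b) with h | h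
    · rw [min_eq_left h]; exact le_max_left _ _
    · rw [min_eq_right h]; exact le_max_right _ _

theorem gauss_not_dvd {σ : Type} {p : MvPolynomial σ ℂ} {i0 : σ} (hi : i0 ∈ p.vars)
    {q : MvPolynomial {i // i ≠ i0} ℂ} (hq : q ≠ 0) : ¬ p ∣ rename Subtype.val q := by
  rintro ⟨r, hr⟩
  have h0 : rename Subtype.val q ≠ 0 :=
    (map_ne_zero_iff _ (rename_injective _ Subtype.val_injective)).2 hq
  have h1 : i0 ∈ (rename Subtype.val q).vars := by
    rw [hr] at h0
    rw [hr, mem_vars_iff_degreeOf_ne_zero,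
      degreeOf_mul_eq (left_ne_zero_of_mul h0) (right_ne_zero_of_mul h0)]
    have := mem_vars_iff_degreeOf_ne_zero.1 hi
    omega
  obtain ⟨i, -, hi⟩ := mem_vars_rename _ _ h1
  exact i.2 hi

/-- The valuation of an irreducible polynomial, extended to `F`.  On polynomials put
`2⁻¹ ^ multiplicity p q`; extend to the fraction field and by `exists_extend`.  Choose a variable
`i0` occurring in `p`; `(p(y), (y i)_{i ≠ i0})` is a frame (`isFrame_of_card`; a nonzero
polynomial in the other variables is not divisible by `p`, by `degreeOf`). -/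
theorem exists_prime_val {σ : Type} [Fintype σ] {p : MvPolynomial σ ℂ} (hp : Irreducible p)
    {y : σ → F} (hy : IsTranscendenceBasis ℂ y) :
    ∃ w : Val F, IsAbh w ∧ (∀ i, w (y i) ≤ 1) ∧ 0 < w (aeval y p) ∧ w (aeval y p) < 1 ∧
      ∀ q : MvPolynomial σ ℂ, ¬ p ∣ q → w (aeval y q) = 1 := by
  classical
  have hS : nonZeroDivisors (MvPolynomial σ ℂ) ≤ (gaussPrime hp.prime).supp.primeCompl := by
    intro q hq h0
    have h1 : gaussExp (emultiplicity p q) = 0 := h0
    rw [(FiniteMultiplicity.of_not_isUnit hp.not_isUnit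
      (nonZeroDivisors.ne_zero hq)).emultiplicity_eq_multiplicity, gaussExp_coe] at h1
    exact pow_ne_zero _ (by norm_num) h1
  have := hy.isAlgebraic_field
  obtain ⟨w, hw⟩ := exists_extend (L := F) (((gaussPrime hp.prime).extendToLocalization hS
    (FractionRing (MvPolynomial σ ℂ))).comap hy.1.aevalEquivField.symm.toAlgHom.toRingHom)
  have hq : ∀ q, w (aeval y q) = gaussExp (emultiplicity p q) := by
    intro q
    rw [← hy.1.aevalEquivField_algebraMap_apply_coe q]
    refine (hw (hy.1.aevalEquivField (algebraMap _ _ q))).trans ?_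
    change (gaussPrime hp.prime).extendToLocalization hS _
      (hy.1.aevalEquivField.symm (hy.1.aevalEquivField _)) = _
    rw [AlgEquiv.symm_apply_apply, Valuation.extendToLocalization_apply_map_apply]
    rfl
  have h1 : ∀ q, ¬ p ∣ q → w (aeval y q) = 1 := fun q h => by
    rw [hq, emultiplicity_eq_zero.2 h]; exact pow_zero _
  have h2 : w (aeval y p) = 2⁻¹ := by
    rw [hq, (FiniteMultiplicity.of_not_isUnit hp.not_isUnit hp.ne_zero).emultiplicity_self]
    exact pow_one _
  have h3 : 0 < w (aeval y p) := by rw [h2]; norm_num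
  have h4 : w (aeval y p) < 1 := by rw [h2]; norm_num
  obtain ⟨i0, hi0⟩ : p.vars.Nonempty := by
    refine Finset.nonempty_iff_ne_empty.2 fun h => ?_
    have h5 := vars_eq_empty_iff_eq_C.1 h
    refine hp.not_isUnit ?_
    rw [h5]
    refine (IsUnit.mk0 _ fun h6 => hp.ne_zero ?_).map _
    rw [h5, h6, map_zero]
  have hres : ResInd w (y ∘ (Subtype.val : {i // i ≠ i0} → σ)) := fun q hq0 => by
    rw [← aeval_rename]
    exact h1 _ (gauss_not_dvd hi0 hq0)
  refine ⟨w, (isFrame_of_card hres h3 h4 y hy.isAlgebraic.1 ?_).isAbh, fun i => ?_, h3, h4, h1⟩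
  · rw [← Fintype.card_option]
    exact (Fintype.card_congr (Equiv.optionSubtypeNe i0)).ge
  · rw [← aeval_X (R := ℂ) y i, hq]
    exact (gaussExp_anti zero_le).trans_eq (pow_zero _)

/-- Embeddings with prescribed values on a transcendence basis (`IsFractionRing.lift`,
`IsAlgClosed.lift`). -/
theorem exists_embed {L : Type} [Field L] [Algebra ℂ L] [IsAlgClosed L] {ι : Type} {y : ι → F}
    (hy : IsTranscendenceBasis ℂ y) (a : ι → L) (ha : AlgebraicIndependent ℂ a) :
    ∃ j : F →ₐ[ℂ] L, ∀ i, j (y i) = a i := by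
  have := hy.isAlgebraic_field
  let σ : IntermediateField.adjoin ℂ (Set.range y) →ₐ[ℂ] L :=
    ((IntermediateField.val _).comp ha.aevalEquivField.toAlgHom).comp
      hy.1.aevalEquivField.symm.toAlgHom
  let _ : Algebra (IntermediateField.adjoin ℂ (Set.range y)) L := σ.toRingHom.toAlgebra
  have : IsScalarTower ℂ (IntermediateField.adjoin ℂ (Set.range y)) L :=
    IsScalarTower.of_algebraMap_eq fun x => (σ.commutes x).symm
  let j : F →ₐ[IntermediateField.adjoin ℂ (Set.range y)] L := IsAlgClosed.lift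
  refine ⟨j.restrictScalars ℂ, fun i => ?_⟩
  rw [← aeval_X (R := ℂ) y i, ← hy.1.aevalEquivField_algebraMap_apply_coe, ← aeval_X (R := ℂ) a i,
    ← ha.aevalEquivField_algebraMap_apply_coe]
  refine (j.commutes (hy.1.aevalEquivField (algebraMap _ _ (X i)))).trans ?_
  change ((ha.aevalEquivField (hy.1.aevalEquivField.symm (hy.1.aevalEquivField _)) : _) : L) = _
  rw [AlgEquiv.symm_apply_apply]

/-- Valuation preserving embeddings with prescribed values on a frame: both valuations are given by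
`ResInd.gauss` on `ℂ(t, u)`; apply `exists_conj` (`F` is finite over `ℂ(t, u)`). -/
theorem exists_embed_val {L : Type} [Field L] [Algebra ℂ L] [IsAlgClosed L] {κ : Type} {t : F}
    {u : κ → F} (hf : IsFrame v0 t u) (hF : (⊤ : IntermediateField ℂ F).FG) (w : Val L) (t' : L)
    (u' : κ → L) (ht : w t' = v0 t) (hu : ResInd w u') :
    ∃ j : F →ₐ[ℂ] L, j t = t' ∧ (∀ i, j (u i) = u' i) ∧ ∀ a, w (j a) = v0 a := by
  have h0 : 0 < w t' := ht ▸ hf.pos
  have h1 : w t' < 1 := ht ▸ hf.lt
  obtain ⟨j0, hj0⟩ := exists_embed hf.basis _ (hu.algInd h0 h1)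
  have hp : ∀ p : MvPolynomial (Option κ) ℂ, w (j0 (aeval (fun o : Option κ => o.elim t u) p)) =
      v0 (aeval (fun o : Option κ => o.elim t u) p) := by
    intro p
    rcases eq_or_ne p 0 with rfl | hp
    · simp
    rw [comp_aeval_apply, funext hj0, hu.gauss h0 h1 p hp, hf.res.gauss hf.pos hf.lt p hp, ht]
  have := hf.basis.isAlgebraic_field
  have : Algebra.EssFiniteType ℂ F := IntermediateField.fg_top_iff.1 hF
  set K := IntermediateField.adjoin ℂ (Set.range fun o : Option κ => o.elim t u)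
  have : Algebra.EssFiniteType K F := Algebra.EssFiniteType.of_comp ℂ K F
  have : FiniteDimensional K F := Algebra.finite_of_essFiniteType_of_isAlgebraic
  obtain ⟨σ, hσ, hv⟩ := exists_conj (F := K) v0 w (j0.comp K.val).toRingHom fun a => by
    obtain ⟨r, s, h⟩ := (IntermediateField.mem_adjoin_range_iff ℂ _ _).1 a.2
    change w (j0 a) = v0 a
    rw [h, map_div₀, map_div₀, map_div₀, hp, hp]
  have hm : ∀ o : Option κ, σ (o.elim t u) = o.elim t' u' := fun o =>
    (hσ ⟨_, IntermediateField.subset_adjoin _ _ ⟨o, rfl⟩⟩).trans (hj0 o)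
  exact ⟨⟨σ, fun x => (hσ (algebraMap ℂ K x)).trans (j0.commutes x)⟩, hm none,
    fun i => hm (some i), hv⟩

end Pool.Agent.MP_c0606f_ag.Klt

end

-- part MP_c0606f_ag.Klt.BNoether
section

/-! Linear Noether normalisation. -/

namespace Pool.Agent.MP_c0606f_ag.Klt

open MvPolynomial

variable {K : Type} [Field K] [Algebra ℂ K]

/-- the linear forms `S i * X` -/
noncomputable def lin {ι : Type} (S : ι → K) (i : ι) : Polynomial K :=
  Polynomial.C (S i) * Polynomial.X

theorem bnoether_deg {ι : Type} [Fintype ι] {F : MvPolynomial ι ℂ} {d : ℕ} (hF : F.IsHomogeneous d)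
    {m : ι →₀ ℕ} (hm : m ∈ F.support) : ∑ i, m i = d := by
  have h := hF (mem_support_iff.1 hm)
  rw [← h, Finsupp.weight_apply, Finsupp.sum_fintype _ _ (by simp)]
  simp

theorem bnoether_prod {R ι : Type} [CommRing R] (t : Finset ι) (f : ι → Polynomial R) (n : ι → ℕ)
    (h : ∀ i, (f i).natDegree ≤ n i) : (∏ i ∈ t, f i).natDegree ≤ ∑ i ∈ t, n i ∧
      (∏ i ∈ t, f i).coeff (∑ i ∈ t, n i) = ∏ i ∈ t, (f i).coeff (n i) := by
  classical
  induction t using Finset.induction_on with
  | empty => simp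
  | insert i t hi ih =>
    rw [Finset.prod_insert hi, Finset.sum_insert hi, Finset.prod_insert hi]
    exact ⟨Polynomial.natDegree_mul_le.trans (add_le_add (h i) ih.1),
      by rw [Polynomial.coeff_mul_add_eq_of_natDegree_le (h i) ih.1, ih.2]⟩

theorem bnoether_int {R A ι : Type} [Fintype ι] [CommRing R] [CommRing A] [Algebra ℂ R]
    [Algebra ℂ A] [Algebra R A] [IsScalarTower ℂ R A] {F : MvPolynomial ι ℂ} {d : ℕ}
    (hF : F.IsHomogeneous d) (y : ι → R) (a : ι → ℂ) (z : A) (ha : eval a F ≠ 0)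
    (h0 : aeval (fun i => algebraMap R A (y i) + a i • z) F = 0) : IsIntegral R z := by
  classical
  let l : ι → Polynomial R := fun i =>
    Polynomial.C (algebraMap ℂ R (a i)) * Polynomial.X + Polynomial.C (y i)
  have hl : ∀ i, (l i).natDegree ≤ 1 := fun i => Polynomial.natDegree_linear_le
  have hl1 : ∀ i, (l i).coeff 1 = algebraMap ℂ R (a i) := fun i => by simp [l]
  let G : Polynomial R := aeval l F
  have hG : G = ∑ m ∈ F.support,
      Polynomial.C (algebraMap ℂ R (coeff m F)) * ∏ i, l i ^ m i := by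
    show aeval l F = _
    rw [aeval_def, eval₂_eq']
    rfl
  have hm : ∀ m ∈ F.support, (∏ i, l i ^ m i).natDegree ≤ d ∧
      (∏ i, l i ^ m i).coeff d = ∏ i, algebraMap ℂ R (a i) ^ m i := by
    intro m hm
    have h := bnoether_prod Finset.univ (fun i => l i ^ m i) (fun i => m i) fun i =>
      Polynomial.natDegree_pow_le.trans (by simpa using Nat.mul_le_mul_left (m i) (hl i))
    rw [bnoether_deg hF hm] at h
    refine ⟨h.1, h.2.trans (Finset.prod_congr rfl fun i _ => ?_)⟩
    have := Polynomial.coeff_pow_of_natDegree_le (m := m i) (hl i)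
    rwa [mul_one, hl1] at this
  have hdeg : G.natDegree ≤ d := by
    rw [hG]
    exact Polynomial.natDegree_sum_le_of_forall_le _ _ fun m h =>
      (Polynomial.natDegree_C_mul_le _ _).trans (hm m h).1
  have hco : G.coeff d = algebraMap ℂ R (eval a F) := by
    rw [hG, Polynomial.finsetSum_coeff, eval_eq', map_sum]
    refine Finset.sum_congr rfl fun m h => ?_
    rw [Polynomial.coeff_C_mul, (hm m h).2, map_mul, map_prod]
    simp only [map_pow]
  have hz : Polynomial.aeval z G = 0 := by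
    have e := congrArg (fun φ : MvPolynomial ι ℂ →ₐ[ℂ] A => φ F)
      (comp_aeval l ((Polynomial.aeval z : Polynomial R →ₐ[R] A).restrictScalars ℂ))
    simp only [AlgHom.comp_apply, AlgHom.restrictScalars_apply] at e
    rw [← h0]
    refine e.trans ?_
    congr 2
    funext i
    simp only [l, map_add, map_mul, Polynomial.aeval_C, Polynomial.aeval_X]
    rw [← IsScalarTower.algebraMap_apply, Algebra.smul_def, add_comm]
  refine ⟨Polynomial.C (algebraMap ℂ R (eval a F)⁻¹) * G, ?_, ?_⟩
  · refine Polynomial.monic_of_natDegree_le_of_coeff_eq_one d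
      ((Polynomial.natDegree_C_mul_le _ _).trans hdeg) ?_
    rw [Polynomial.coeff_C_mul, hco, ← map_mul, inv_mul_cancel₀ ha, map_one]
  · rw [← Polynomial.aeval_def, map_mul, hz, mul_zero]

theorem bnoether_hom {ι : Type} [Fintype ι] (s : ι → K) {F : MvPolynomial ι ℂ} {d : ℕ}
    (hF : F.IsHomogeneous d) :
    aeval (lin s) F = Polynomial.C (aeval s F) * Polynomial.X ^ d := by
  rw [aeval_def, aeval_def, eval₂_eq', eval₂_eq', map_sum, Finset.sum_mul]
  refine Finset.sum_congr rfl fun m hm => ?_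
  rw [← bnoether_deg hF hm, map_mul, map_prod, mul_assoc, ← Finset.prod_pow_eq_pow_sum,
    ← Finset.prod_mul_distrib]
  simp only [lin, mul_pow, map_pow]
  rfl

theorem bnoether_rel {ι : Type} [Fintype ι] (s : ι → K) (h : ¬ AlgebraicIndependent ℂ (lin s)) :
    ∃ (F : MvPolynomial ι ℂ) (d : ℕ), F ≠ 0 ∧ F.IsHomogeneous d ∧ aeval (lin s) F = 0 := by
  rw [algebraicIndependent_iff] at h
  push Not at h
  obtain ⟨p, hp, hp0⟩ := h
  have hs := sum_homogeneousComponent p
  obtain ⟨d, hd, hd0⟩ : ∃ d ∈ Finset.range (p.totalDegree + 1), homogeneousComponent d p ≠ 0 := by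
    by_contra hc
    push Not at hc
    exact hp0 (hs.symm.trans (Finset.sum_eq_zero hc))
  refine ⟨_, d, hd0, homogeneousComponent_isHomogeneous d p, ?_⟩
  rw [← hs, map_sum] at hp
  have h1 := congrArg (fun f : Polynomial K => f.coeff d) hp
  simp only [bnoether_hom s (homogeneousComponent_isHomogeneous _ p), Polynomial.finsetSum_coeff,
    Polynomial.coeff_C_mul_X_pow, Finset.sum_ite_eq, if_pos hd, Polynomial.coeff_zero] at h1
  rw [bnoether_hom s (homogeneousComponent_isHomogeneous d p), h1, map_zero, zero_mul]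

/-- Linear Noether normalisation.  Induction on `q`.  If `lin s` is dependent, take a nonzero
relation `p`; `aeval (lin s) p = ∑ d, C (aeval s (homogeneousComponent d p)) * X ^ d`, so a nonzero
homogeneous component `F`, of degree `d > 0`, is a relation.  There is `a : Fin q → ℂ` with
`eval a F ≠ 0` (`MvPolynomial.funext`); `a ≠ 0`, scale so that `a i0 = 1`.  Put
`s' i = s (i0.succAbove i) - a (i0.succAbove i) • s i0`.  The polynomial
`G(Z) = F (lin s' + a Z)` over `ℂ[lin s']` has degree `≤ d` and the coefficient of `Z ^ d` is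
`eval a F` (do it for monomials, or for products of `d` linear factors), and kills `lin s i0`.
Apply the hypothesis to `s'` and use transitivity of integrality (`isIntegral_trans`,
`Algebra.adjoin_le`, `integralClosure`). -/
theorem exists_noether (q : ℕ) (s : Fin q → K) :
    ∃ (q' : ℕ) (S : Fin q' → K), (∀ i, S i ∈ Submodule.span ℂ (Set.range s)) ∧
      AlgebraicIndependent ℂ (lin S) ∧
      ∀ j, IsIntegral (Algebra.adjoin ℂ (Set.range (lin S))) (lin s j) := by
  induction q with
  | zero =>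
    exact ⟨0, s, fun i => i.elim0, algebraicIndependent_empty_type, fun j => j.elim0⟩
  | succ q ih =>
    by_cases h : AlgebraicIndependent ℂ (lin s)
    · exact ⟨_, s, fun i => Submodule.subset_span ⟨i, rfl⟩, h, fun j =>
        isIntegral_algebraMap (x := (⟨lin s j, Algebra.subset_adjoin ⟨j, rfl⟩⟩ :
          Algebra.adjoin ℂ (Set.range (lin s))))⟩
    obtain ⟨F, d, hF0, hF, hrel⟩ := bnoether_rel s h
    obtain ⟨a, ha⟩ : ∃ a : Fin (q + 1) → ℂ, eval a (F * X 0) ≠ 0 := by
      by_contra hc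
      push Not at hc
      exact mul_ne_zero hF0 (X_ne_zero 0) (MvPolynomial.funext fun a => by rw [hc a, map_zero])
    rw [map_mul, eval_X] at ha
    have ha0 : a 0 ≠ 0 := right_ne_zero_of_mul ha
    obtain ⟨q', S, h1, h2, h3⟩ := ih fun i => s i.succ - a i.succ • ((a 0)⁻¹ • s 0)
    refine ⟨q', S, fun i => Submodule.span_le.2 ?_ (h1 i), h2, ?_⟩
    · rintro _ ⟨j, rfl⟩
      exact Submodule.sub_mem _ (Submodule.subset_span ⟨_, rfl⟩)
        (Submodule.smul_mem _ _ (Submodule.smul_mem _ _ (Submodule.subset_span ⟨_, rfl⟩)))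
    obtain ⟨z, hz⟩ : ∃ z : Polynomial K, z = (a 0)⁻¹ • lin s 0 := ⟨_, rfl⟩
    have hy : ∀ i, IsIntegral (Algebra.adjoin ℂ (Set.range (lin S))) (lin s i - a i • z) := by
      intro i
      refine Fin.cases ?_ (fun j => ?_) i
      · rw [hz, smul_inv_smul₀ ha0, sub_self]
        exact isIntegral_zero
      · convert h3 j using 1
        simp only [hz, lin, map_sub, sub_mul, ← Polynomial.smul_C, smul_mul_assoc]
    have hzi : IsIntegral (Algebra.adjoin ℂ (Set.range (lin S))) z := by
      refine isIntegral_trans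
        (A := integralClosure (Algebra.adjoin ℂ (Set.range (lin S))) (Polynomial K)) z ?_
      refine bnoether_int hF (fun i => ⟨_, hy i⟩) a z (left_ne_zero_of_mul ha) ?_
      rw [← hrel]
      congr 2
      funext i
      exact sub_add_cancel _ _
    intro j
    have h4 := (hy j).add (hzi.smul (algebraMap ℂ (Algebra.adjoin ℂ (Set.range (lin S))) (a j)))
    rwa [algebraMap_smul, sub_add_cancel] at h4

end Pool.Agent.MP_c0606f_ag.Klt

end

-- part MP_c0606f_ag.Klt.BNorm
section

/-! Linear Noether normalisation and the coordinates of the cone. -/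

namespace Pool.Agent.MP_c0606f_ag.Klt

open scoped NNReal WithZero
open MvPolynomial

variable {K : Type} [Field K] [Algebra ℂ K]

/-- the affine coordinates on the chart `S o ≠ 0` -/
noncomputable def aff {ι : Type} (S : ι → K) (o : ι) (i : {i // i ≠ o}) : K := S i.1 / S o

/-- constants of the field of rational functions -/
noncomputable def cA (K : Type) [Field K] [Algebra ℂ K] : K →ₐ[ℂ] RatFunc K :=
  IsScalarTower.toAlgHom ℂ K (RatFunc K)

@[simp] theorem cA_apply (a : K) : cA K a = RatFunc.C a := rfl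

/-- `a * T ^ m` -/
noncomputable def hom (m : ℕ) : K →ₗ[ℂ] RatFunc K :=
  (LinearMap.mulRight ℂ ((RatFunc.X : RatFunc K) ^ m)).comp (cA K).toLinearMap

theorem hom_apply (m : ℕ) (a : K) : hom m a = RatFunc.C a * RatFunc.X ^ m := rfl

theorem hom_mul (m m' : ℕ) (a a' : K) : hom m a * hom m' a' = hom (m + m') (a * a') := by
  simp only [hom_apply, map_mul, pow_add]; ring

theorem hom_pow (m l : ℕ) (a : K) : hom m a ^ l = hom (l * m) (a ^ l) := by
  simp only [hom_apply, map_pow, mul_pow, ← pow_mul, mul_comm m l]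

theorem hom_ne (m : ℕ) {a : K} (ha : a ≠ 0) : hom m a ≠ 0 := by
  rw [hom_apply]
  exact mul_ne_zero (by simpa using ha) (pow_ne_zero _ RatFunc.X_ne_zero)

theorem hom_injective (m : ℕ) : Function.Injective (hom m : K → RatFunc K) := by
  rw [injective_iff_map_eq_zero]
  intro a ha
  by_contra h
  exact hom_ne m h ha

theorem hom_prod {ι : Type} (S : Finset ι) (m : ℕ) (a : ι → K) :
    ∏ i ∈ S, hom m (a i) = hom (S.card * m) (∏ i ∈ S, a i) := by
  simp only [hom_apply, map_prod, Finset.prod_mul_distrib, Finset.prod_const, ← pow_mul,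
    mul_comm m]

/-- the coordinates `(T, y)` of the cone -/
noncomputable def yt {n : ℕ} (y : Fin n → K) (o : Option (Fin n)) : RatFunc K :=
  o.elim RatFunc.X fun i => RatFunc.C (y i)

variable {n k r : ℕ} {y : Fin n → K} {s : Fin (k + 1) → K}

/-- a finite linear projection of the variety to projective space -/
structure NN (n : ℕ) (s : Fin (k + 1) → K) where
  S : Option (Fin n) → K
  mem : ∀ o, S o ∈ Submodule.span ℂ (Set.range s)
  ne : ∀ o, S o ≠ 0
  basis : ∀ o, IsTranscendenceBasis ℂ (aff S o)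
  int : ∀ o j, IsIntegral (Algebra.adjoin ℂ (Set.range (aff S o))) (s j / S o)

theorem bnorm_trans {L : Type} [Field L] [Algebra ℂ L] {G G' : Set L}
    (h : ∀ b ∈ G', IsAlgebraic (Algebra.adjoin ℂ G) b) {a : L}
    (ha : IsAlgebraic (Algebra.adjoin ℂ G') a) : IsAlgebraic (Algebra.adjoin ℂ G) a := by
  have h1 : Algebra.adjoin ℂ G' ≤
      (Subalgebra.algebraicClosure (Algebra.adjoin ℂ G) L).restrictScalars ℂ :=
    Algebra.adjoin_le fun b hb => h b hb
  exact sub_alg_trans _ _ (fun b hb => h1 hb) ha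

theorem bnorm_div {L : Type} [Field L] [Algebra ℂ L] {A : Subalgebra ℂ L} {a b : L}
    (ha : IsAlgebraic A a) (hb : IsAlgebraic A b) : IsAlgebraic A (a / b) := by
  rw [div_eq_mul_inv]
  exact ha.mul hb.inv

theorem bnorm_int_map {A B : Type} [CommRing A] [CommRing B] [Algebra ℂ A] [Algebra ℂ B]
    (j : A →ₐ[ℂ] B) {G : Set A} {T : Subalgebra ℂ B} (hG : ∀ a ∈ G, j a ∈ T) {a : A}
    (ha : IsIntegral (Algebra.adjoin ℂ G) a) : IsIntegral T (j a) := by
  have hm : ∀ x : Algebra.adjoin ℂ G, (j.comp (Algebra.adjoin ℂ G).val) x ∈ T := by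
    intro x
    have : Algebra.adjoin ℂ G ≤ T.comap j := Algebra.adjoin_le fun b hb => hG b hb
    exact this x.2
  exact ha.map_of_comp_eq ((j.comp (Algebra.adjoin ℂ G).val).codRestrict _ hm).toRingHom
    j.toRingHom (RingHom.ext fun _ => rfl)

theorem bnorm_chart_alg (hX : IsKltFano r y s) (a : K) :
    IsAlgebraic (Algebra.adjoin ℂ (Set.range fun j => s j / s 0)) a := by
  have := hX.frac 0
  obtain ⟨b, c, -, rfl⟩ := IsFractionRing.div_surjective (chart s 0) a
  exact bnorm_div (A := chart s 0) (isAlgebraic_algebraMap b) (isAlgebraic_algebraMap c)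

theorem bnorm_opt {ι : Type} {u : ι → K} (hu : IsTranscendenceBasis ℂ u) :
    IsTranscendenceBasis ℂ fun o : Option ι =>
      (o.elim RatFunc.X fun i => RatFunc.C (u i) : RatFunc K) := by
  have h1 : IsTranscendenceBasis K fun _ : Unit => (RatFunc.X : RatFunc K) := by
    have := IsLocalization.isAlgebraic (RatFunc K) (nonZeroDivisors (Polynomial K))
    exact (IsTranscendenceBasis.polynomial Unit K).algebraMap_comp (A := RatFunc K)
  refine (isTranscendenceBasis_equiv'
    ((Equiv.optionEquivSumPUnit ι).trans (Equiv.sumComm _ _)) ?_).2 (hu.sumElim_comp h1)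
  funext o
  cases o <;> rfl

theorem bnorm_card {ι : Type} [Fintype ι] (o : ι) :
    Cardinal.mk (Option {i // i ≠ o}) = Cardinal.mk ι := by
  classical
  exact Cardinal.mk_congr (Equiv.optionSubtypeNe o)

theorem bnorm_int {ι : Type} {S : ι → K} (o : ι) (ho : S o ≠ 0) {a : K}
    (h : IsIntegral (Algebra.adjoin ℂ (Set.range (lin S))) (Polynomial.C a * Polynomial.X)) :
    IsIntegral (Algebra.adjoin ℂ (Set.range (aff S o))) (a / S o) := by
  have he : ∀ b : K, ((Polynomial.aeval (R := K) (S o)⁻¹).restrictScalars ℂ)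
      (Polynomial.C b * Polynomial.X) = b / S o := fun b => by
    simp [div_eq_mul_inv]
  rw [← he]
  refine bnorm_int_map _ ?_ h
  rintro _ ⟨i, rfl⟩
  rw [lin, he]
  by_cases hi : i = o
  · rw [hi, div_self ho]
    exact one_mem _
  · exact Algebra.subset_adjoin ⟨⟨i, hi⟩, rfl⟩

theorem bnorm_lin_basis (hX : IsKltFano r y s) {ι : Type} {S : ι → K}
    (hi : AlgebraicIndependent ℂ (lin S))
    (h : ∀ j, IsIntegral (Algebra.adjoin ℂ (Set.range (lin S))) (lin s j)) :
    IsTranscendenceBasis ℂ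
      (IsScalarTower.toAlgHom ℂ (Polynomial K) (RatFunc K) ∘ lin S) := by
  refine (hi.map' (IsFractionRing.injective (Polynomial K)
    (RatFunc K))).isTranscendenceBasis_iff_isAlgebraic.2 ⟨?_⟩
  set G := Set.range (IsScalarTower.toAlgHom ℂ (Polynomial K) (RatFunc K) ∘ lin S)
  have h1 : ∀ j, IsAlgebraic (Algebra.adjoin ℂ G) (RatFunc.C (s j) * RatFunc.X) := fun j => by
    have := (bnorm_int_map (IsScalarTower.toAlgHom ℂ (Polynomial K) (RatFunc K))
      (T := Algebra.adjoin ℂ G) (by
        rintro _ ⟨i, rfl⟩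
        exact Algebra.subset_adjoin ⟨i, rfl⟩) (h j)).isAlgebraic
    simpa [lin] using this
  have h0 : RatFunc.C (s 0) ≠ 0 := by simpa using hX.ne 0
  have h2 : ∀ a : K, IsAlgebraic (Algebra.adjoin ℂ G) (RatFunc.C a) := fun a => by
    refine bnorm_trans ?_ (gauss_alg_map (cA K) (G' := Set.range fun j => cA K (s j / s 0)) ?_
      (bnorm_chart_alg hX a))
    · rintro _ ⟨j, rfl⟩
      have := bnorm_div (h1 j) (h1 0)
      rwa [mul_div_mul_right _ _ RatFunc.X_ne_zero, ← map_div₀] at this
    · rintro _ ⟨j, rfl⟩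
      exact ⟨j, rfl⟩
  refine gauss_alg_rat h2 ?_
  have := bnorm_div (h1 0) (h2 (s 0))
  rwa [mul_div_cancel_left₀ _ h0] at this

/-- `K` is the fraction field of `chart s 0` (`IsFractionRing.div_surjective`) -/
theorem IsKltFano.fg (hX : IsKltFano r y s) : (⊤ : IntermediateField ℂ K).FG := by
  have := hX.frac 0
  have h : IntermediateField.adjoin ℂ (Set.range fun j => s j / s 0) = ⊤ := by
    rw [eq_top_iff]
    intro a _
    obtain ⟨b, c, -, rfl⟩ := IsFractionRing.div_surjective (chart s 0) a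
    exact div_mem (IntermediateField.algebra_adjoin_le_adjoin ℂ _ b.2)
      (IntermediateField.algebra_adjoin_le_adjoin ℂ _ c.2)
  rw [← h]
  exact IntermediateField.fg_adjoin_of_finite (Set.finite_range _)

/-- From `exists_noether`.  The evaluation `X ↦ (S o)⁻¹` maps `ℂ[lin S]` into `ℂ[aff S o]`, which
gives `int`.  `aff S o` is independent: homogenise a relation `p` of total degree `d`
(`∑ α, monomial (α extended by d - |α|) (coeff α p)`; or use the ring homomorphism
`X o ↦ X`, `X i ↦ C (X i) * X` from `MvPolynomial` to polynomials, or count transcendence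
degrees: `RatFunc K` is algebraic over `ℂ(lin S)` and over `ℂ(aff S o, X)`).  `K` is algebraic over
`ℂ[aff S o]` since it is generated as a field by the `s j / s 0 = (s j / S o) / (s 0 / S o)`.
`q' ≠ 0` because `lin s 0` is not integral over `ℂ`; `q' - 1 = n` by
`IsTranscendenceBasis.lift_cardinalMk_eq`; reindex by `finSuccEquiv`. -/
theorem exists_NN (hX : IsKltFano r y s) : Nonempty (NN n s) := by
  obtain ⟨q, S, hm, hi, h⟩ := exists_noether (k + 1) s
  have hq := (bnorm_lin_basis hX hi h).cardinalMk_eq (bnorm_opt hX.basis)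
  obtain ⟨e⟩ := Cardinal.eq.1 hq
  have hr : Set.range (lin (S ∘ e.symm)) = Set.range (lin S) :=
    e.symm.surjective.range_comp (lin S)
  have hne : ∀ o, (S ∘ e.symm) o ≠ 0 := fun o h0 =>
    hi.ne_zero (e.symm o) (by rw [lin, show S (e.symm o) = 0 from h0, map_zero, zero_mul])
  have hint : ∀ o j, IsIntegral (Algebra.adjoin ℂ (Set.range (aff (S ∘ e.symm) o)))
      (s j / (S ∘ e.symm) o) := fun o j => bnorm_int o (hne o) (hr ▸ h j)
  refine ⟨⟨S ∘ e.symm, fun o => hm _, hne, fun o => ?_, hint⟩⟩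
  have : Algebra.IsAlgebraic (Algebra.adjoin ℂ (Set.range (aff (S ∘ e.symm) o))) K := by
    refine ⟨fun a => bnorm_trans ?_ (bnorm_chart_alg hX a)⟩
    rintro _ ⟨j, rfl⟩
    have := bnorm_div (hint o j).isAlgebraic (hint o 0).isAlgebraic
    rwa [div_div_div_cancel_right₀ (hne o)] at this
  refine Algebra.IsAlgebraic.isTranscendenceBasis_of_le_trdeg_of_finite ℂ _ ?_
  rw [← hX.basis.cardinalMk_eq_trdeg]
  obtain ⟨e'⟩ := Cardinal.eq.1 (bnorm_card o)
  exact (Cardinal.mk_congr (Equiv.removeNone e')).le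

namespace NN

variable (N : NN n s)

/-- the coordinates of the finite projection of the cone -/
noncomputable def Y (r : ℕ) (o : Option (Fin n)) : RatFunc K := hom r (N.S o)

/-- Take `o`, `j` maximising; `S o` is a linear combination of the `s j`; `s j / S o` is integral
over a ring contained in the valuation ring. -/
theorem exists_max {F Γ : Type} [Field F] [Algebra ℂ F] [LinearOrderedCommGroupWithZero Γ]
    (e : K →ₐ[ℂ] F) (v : Valuation F Γ) (htriv : ∀ c : ℂ, v (algebraMap ℂ F c) ≤ 1) :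
    ∃ o j, v (e (N.S o)) = v (e (s j)) ∧ (∀ o', v (e (N.S o')) ≤ v (e (N.S o))) ∧
      ∀ j', v (e (s j')) ≤ v (e (s j)) := by
  obtain ⟨o, ho⟩ := Finite.exists_max fun o => v (e (N.S o))
  obtain ⟨j, hj⟩ := Finite.exists_max fun j => v (e (s j))
  have h0 : 0 < v (e (N.S o)) := by
    rw [Valuation.pos_iff]
    exact (map_ne_zero e).2 (N.ne o)
  refine ⟨o, j, le_antisymm ?_ ?_, ho, hj⟩
  · refine Submodule.span_induction (p := fun a _ => v (e a) ≤ v (e (s j))) ?_ ?_ ?_ ?_ (N.mem o)
    · rintro _ ⟨i, rfl⟩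
      exact hj i
    · simp
    · intro a b _ _ ha hb
      rw [map_add]
      exact v.map_add_le ha hb
    · intro c a _ ha
      rw [map_smul, Algebra.smul_def, map_mul]
      exact (mul_le_of_le_one_left' (htriv c)).trans ha
  · let T : Subalgebra ℂ F := { v.integer with algebraMap_mem' := htriv }
    have h1 : IsIntegral T (e (s j / N.S o)) := by
      refine bnorm_int_map e ?_ (N.int o j)
      rintro _ ⟨i, rfl⟩
      change v (e (N.S i.1 / N.S o)) ≤ 1
      rw [map_div₀, map_div₀, div_le_one₀ h0]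
      exact ho i.1
    have h2 : v (e (s j / N.S o)) ≤ 1 := (Valuation.integer.integers v).mem_of_integral h1
    rwa [map_div₀, map_div₀, div_le_one₀ h0] at h2

/-- `X` is transcendental over `K`, so `yt y` is independent (`AlgebraicIndependent.option_iff`,
`extendScalars`) and `RatFunc K` is algebraic over it. -/
theorem _root_.Pool.Agent.MP_c0606f_ag.Klt.yt_basis (hy : IsTranscendenceBasis ℂ y) :
    IsTranscendenceBasis ℂ (yt y) := by
  exact bnorm_opt hy

/-- `RatFunc K` is algebraic over `ℂ[Y]` (it contains `aff S none` up to fractions, so `K` is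
algebraic, and `X ^ r = Y none / C (S none)`), and the family has as many members as the
basis consisting of `X` and `aff S none` (`yt_basis` after reindexing; `IsTranscendenceBasis` from cardinality: `isTranscendenceBasis_of_card_le`-like lemmas or
`exists_isTranscendenceBasis_subset`). -/
theorem Y_basis (hr : 0 < r) : IsTranscendenceBasis ℂ (N.Y r) := by
  have h1 : ∀ o, IsAlgebraic (Algebra.adjoin ℂ (Set.range (N.Y r))) (N.Y r o) := fun o =>
    gauss_alg_mem ⟨o, rfl⟩
  have h0 : RatFunc.C (N.S none) ≠ 0 := by simpa using N.ne none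
  have h2 : ∀ a : K, IsAlgebraic (Algebra.adjoin ℂ (Set.range (N.Y r))) (RatFunc.C a) := fun a => by
    refine bnorm_trans ?_ (gauss_alg_map (cA K) (G' := Set.range fun i => cA K (aff N.S none i)) ?_
      ((N.basis none).isAlgebraic.1 a))
    · rintro _ ⟨i, rfl⟩
      have := bnorm_div (h1 i.1) (h1 none)
      rwa [Y, Y, hom_apply, hom_apply, mul_div_mul_right _ _ (pow_ne_zero _ RatFunc.X_ne_zero),
        ← map_div₀] at this
    · rintro _ ⟨j, rfl⟩
      exact ⟨j, rfl⟩
  have : Algebra.IsAlgebraic (Algebra.adjoin ℂ (Set.range (N.Y r))) (RatFunc K) := by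
    refine ⟨gauss_alg_rat h2 (IsAlgebraic.of_pow hr ?_)⟩
    have := bnorm_div (h1 none) (h2 (N.S none))
    rwa [Y, hom_apply, mul_div_cancel_left₀ _ h0] at this
  refine Algebra.IsAlgebraic.isTranscendenceBasis_of_le_trdeg_of_finite ℂ _ ?_
  rw [← (bnorm_opt (N.basis none)).cardinalMk_eq_trdeg, bnorm_card]

end NN

/-- `RatFunc K` is generated by the generators of `K` and `X` -/
theorem fg_ratFunc (h : (⊤ : IntermediateField ℂ K).FG) :
    (⊤ : IntermediateField ℂ (RatFunc K)).FG := by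
  obtain ⟨t, ht⟩ := h
  set G : Set (RatFunc K) := insert RatFunc.X (cA K '' t)
  have h1 : ∀ a : K, RatFunc.C a ∈ IntermediateField.adjoin ℂ G := fun a => by
    have : IntermediateField.adjoin ℂ (t : Set K) ≤ (IntermediateField.adjoin ℂ G).comap (cA K) :=
      IntermediateField.adjoin_le_iff.2 fun b hb =>
        IntermediateField.subset_adjoin ℂ G (Or.inr ⟨b, hb, rfl⟩)
    rw [ht] at this
    exact this IntermediateField.mem_top
  have h2 : ∀ p : Polynomial K, algebraMap _ (RatFunc K) p ∈ IntermediateField.adjoin ℂ G := by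
    intro p
    induction p using Polynomial.induction_on' with
    | add p q hp hq => rw [map_add]; exact add_mem hp hq
    | monomial m b =>
      rw [← Polynomial.C_mul_X_pow_eq_monomial, map_mul, map_pow, RatFunc.algebraMap_C,
        RatFunc.algebraMap_X]
      exact mul_mem (h1 b) (pow_mem (IntermediateField.subset_adjoin ℂ G (Or.inl rfl)) m)
  have h3 : IntermediateField.adjoin ℂ G = ⊤ := by
    rw [eq_top_iff]
    intro a _
    rw [← RatFunc.num_div_denom a]
    exact div_mem (h2 _) (h2 _)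
  rw [← h3]
  exact IntermediateField.fg_adjoin_of_finite ((t.finite_toSet.image _).insert _)

end Pool.Agent.MP_c0606f_ag.Klt

end

-- part MP_c0606f_ag.Klt.BPrime
section

/-! Valuative criteria for integrality. -/

namespace Pool.Agent.MP_c0606f_ag.Klt

open scoped NNReal
open MvPolynomial

/-- extensions of the valuation of an irreducible polynomial in `u` -/
def PrimeVal {F σ : Type} [Field F] [Algebra ℂ F] (u : σ → F) (v : Val F) : Prop :=
  IsAbh v ∧ ∃ p : MvPolynomial σ ℂ, Irreducible p ∧ (∀ i, v (u i) ≤ 1) ∧ v (aeval u p) < 1 ∧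
    ∀ q : MvPolynomial σ ℂ, ¬ p ∣ q → v (aeval u q) = 1

/-- an element of `ℂ(u)` without pole along any irreducible polynomial is a polynomial -/
theorem bprime_frac {F σ : Type} [Field F] [Algebra ℂ F] {u : σ → F}
    (hu : AlgebraicIndependent ℂ u) (c : IntermediateField.adjoin ℂ (Set.range u))
    (h : ∀ p a b : MvPolynomial σ ℂ, Irreducible p → p ∣ b → ¬ p ∣ a → b ≠ 0 →
      (c : F) * aeval u b ≠ aeval u a) : (c : F) ∈ Algebra.adjoin ℂ (Set.range u) := by
  obtain ⟨x, rfl⟩ := hu.aevalEquivField.surjective c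
  obtain ⟨a, b, hab, hx⟩ := IsFractionRing.exists_reduced_fraction (MvPolynomial σ ℂ) x
  have hb0 : (b : MvPolynomial σ ℂ) ≠ 0 := nonZeroDivisors.ne_zero b.2
  have he : (hu.aevalEquivField x : F) * aeval u (b : MvPolynomial σ ℂ) = aeval u a := by
    rw [← hu.aevalEquivField_algebraMap_apply_coe, ← hu.aevalEquivField_algebraMap_apply_coe,
      ← IntermediateField.coe_mul, ← map_mul, ← hx, IsLocalization.mk'_spec]
  by_cases hb : IsUnit (b : MvPolynomial σ ℂ)
  · obtain ⟨d, hd⟩ := hb.exists_right_inv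
    have : (hu.aevalEquivField x : F) = aeval u (a * d) := by
      rw [map_mul, ← he, mul_assoc, ← map_mul, hd, map_one, mul_one]
    rw [this, Algebra.adjoin_range_eq_range_aeval]
    exact ⟨_, rfl⟩
  · obtain ⟨p, hp, hpb⟩ := WfDvdMonoid.exists_irreducible_factor hb hb0
    exact absurd he (h p a b hp hpb (fun hpa => hp.not_isUnit (hab hpa hpb)) hb0)

theorem bprime_aeval_le {L σ Γ : Type} [Field L] [Algebra ℂ L]
    [LinearOrderedCommGroupWithZero Γ] (v : Valuation L Γ)
    (htriv : ∀ c : ℂ, v (algebraMap ℂ L c) ≤ 1) {y : σ → L} (hy : ∀ i, v (y i) ≤ 1)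
    (q : MvPolynomial σ ℂ) : v (aeval y q) ≤ 1 := by
  induction q using MvPolynomial.induction_on with
  | C a => rw [aeval_C]; exact htriv a
  | add p q hp hq => rw [map_add]; exact v.map_add_le hp hq
  | mul_X p i hp => rw [map_mul, aeval_X, v.map_mul]; exact mul_le_one' hp (hy i)

/-- Let `F0 = ℂ(u)`.  If all coefficients of `minpoly F0 g` come from polynomials, `g` is
integral.  Otherwise some coefficient is `a(u) / b(u)` with an irreducible `p ∣ b`, `¬ p ∣ a`
(unique factorisation: cancel common factors, `b` is not a unit).  Let `R` be the algebraic closure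
of `F` and `w` the valuation of `exists_prime_val` on `R`; that coefficient has value `> 1`, so some
root `ρ` of the minimal polynomial in `R` has `w ρ > 1` (if all roots have value `≤ 1` so have all
coefficients of `∏ (X - ρ)`).  There is `σ : F →ₐ[F0] R` with `σ g = ρ`
(`IntermediateField.exists_algHom_of_splits_of_aeval`, or `IsAlgClosed.lift` over `F0⟮g⟯`); pull
`w` back along `σ` (`IsAbh.comap` with `τ = p(u)`, `IsFrame.isAbh`). -/
theorem isIntegral_of_primeVal {F σ : Type} [Field F] [Algebra ℂ F] [Fintype σ] {u : σ → F}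
    (hu : IsTranscendenceBasis ℂ u) (hF : (⊤ : IntermediateField ℂ F).FG) (g : F)
    (h : ∀ v, PrimeVal u v → v g ≤ 1) : IsIntegral (Algebra.adjoin ℂ (Set.range u)) g := by
  have halg := hu.isAlgebraic_field
  let F0 := IntermediateField.adjoin ℂ (Set.range u)
  let R := AlgebraicClosure F
  have hint : ∀ s : F, IsIntegral F0 s := fun s => (halg.isAlgebraic s).isIntegral
  have hmon : (minpoly F0 g).Monic := minpoly.monic (hint g)
  have hy : IsTranscendenceBasis ℂ (algebraMap F R ∘ u) := hu.algebraMap_comp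
  have hae : ∀ q : MvPolynomial σ ℂ, aeval (algebraMap F R ∘ u) q = algebraMap F R (aeval u q) :=
    fun q => (comp_aeval_apply u (IsScalarTower.toAlgHom ℂ F R) q).symm
  have hc : ∀ i, (((minpoly F0 g).coeff i : F0) : F) ∈ Algebra.adjoin ℂ (Set.range u) := by
    intro i
    refine bprime_frac hu.1 _ fun p a b hp hpb hpa hb0 he => ?_
    obtain ⟨w, hw, hw1, hp0, hp1, hq⟩ := exists_prime_val hp hy
    have htriv : ∀ c : ℂ, w (algebraMap ℂ R c) ≤ 1 := fun c => by
      by_cases hc : c = 0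
      · rw [hc, map_zero, map_zero]; exact zero_le_one
      · exact (hw.triv c hc).le
    have hroot : ∀ ρ ∈ ((minpoly F0 g).map (algebraMap F0 R)).roots,
        ρ ∈ (algebraMap w.integer R).range := by
      intro ρ hρ
      have hρ' : Polynomial.aeval ρ (minpoly F0 g) = 0 := by
        rw [Polynomial.aeval_def, ← Polynomial.eval_map]
        exact Polynomial.isRoot_of_mem_roots hρ
      obtain ⟨φ, hφ⟩ := IntermediateField.exists_algHom_of_splits_of_aeval (F := F0) (E := F)
        (K := R) (fun s => ⟨hint s, IsAlgClosed.splits _⟩) hρ'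
      have hφu : ∀ q : MvPolynomial σ ℂ, φ (aeval u q) = aeval (algebraMap F R ∘ u) q := by
        intro q
        have hm : aeval u q ∈ F0 := by
          refine IntermediateField.algebra_adjoin_le_adjoin ℂ (Set.range u) ?_
          rw [Algebra.adjoin_range_eq_range_aeval]
          exact ⟨q, rfl⟩
        rw [hae]
        exact φ.commutes ⟨_, hm⟩
      obtain ⟨q, t, u', hf, -⟩ := hw.comap (φ.restrictScalars ℂ) hF (τ := aeval u p)
        (by rw [AlgHom.restrictScalars_apply, hφu]; exact hp0)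
        (by rw [AlgHom.restrictScalars_apply, hφu]; exact hp1)
      have hg : w (φ g) ≤ 1 := by
        refine h (w.comap (φ.restrictScalars ℂ).toRingHom) ⟨hf.isAbh, p, hp, fun i => ?_, ?_,
          fun q hpq => ?_⟩
        · change w (φ (u i)) ≤ 1
          have := hφu (X i)
          rw [aeval_X, aeval_X] at this
          rw [this]; exact hw1 i
        · change w (φ (aeval u p)) < 1
          rw [hφu]; exact hp1
        · change w (φ (aeval u q)) = 1
          rw [hφu]; exact hq q hpq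
      exact ⟨⟨ρ, by rw [← hφ]; exact hg⟩, rfl⟩
    have hl := (IsAlgClosed.splits _).mem_lift_of_roots_mem_range (hmon.map (algebraMap F0 R))
      (algebraMap w.integer R) hroot
    obtain ⟨z, hz⟩ := (Polynomial.lifts_iff_coeff_lifts _).1 hl i
    have hci : w (algebraMap F R ((minpoly F0 g).coeff i : F0)) ≤ 1 := by
      rw [Polynomial.coeff_map] at hz
      have hz' : algebraMap F R ((minpoly F0 g).coeff i : F0) = (z : R) := hz.symm
      rw [hz']; exact z.2
    obtain ⟨b', rfl⟩ := hpb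
    have h1 := congrArg (fun x => w (algebraMap F R x)) he
    simp only [map_mul] at h1
    rw [← hae, ← hae, ← hae, hq a hpa] at h1
    have h2 : w (algebraMap F R ((minpoly F0 g).coeff i : F0)) *
        (w (aeval (algebraMap F R ∘ u) p) * w (aeval (algebraMap F R ∘ u) b')) < 1 :=
      mul_lt_one_of_nonneg_of_lt_one_right hci zero_le
        (mul_lt_one_of_nonneg_of_lt_one_left zero_le hp1 (bprime_aeval_le w htriv hw1 b'))
    exact h2.ne h1
  have hl : (minpoly F0 g).map (algebraMap F0 F) ∈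
      Polynomial.lifts (algebraMap (Algebra.adjoin ℂ (Set.range u)) F) :=
    (Polynomial.lifts_iff_coeff_lifts _).2 fun i => ⟨⟨_, hc i⟩, by rw [Polynomial.coeff_map]; rfl⟩
  obtain ⟨Q, hQ, -, hQm⟩ := Polynomial.lifts_and_degree_eq_and_monic hl (hmon.map _)
  refine ⟨Q, hQm, ?_⟩
  rw [← Polynomial.eval_map, hQ, Polynomial.eval_map, ← Polynomial.aeval_def, minpoly.aeval]

/-- valuative criterion (`iInf_valuationSubring_superset`) -/
theorem isIntegral_of_valuationSubring {F : Type} [Field F] [Algebra ℂ F] (B : Subalgebra ℂ F)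
    (g : F) (h : ∀ O : ValuationSubring F, (∀ b ∈ B, b ∈ O) → g ∈ O) : IsIntegral B g := by
  by_contra hx
  obtain ⟨V, hV, hxV⟩ := Subring.exists_le_valuationSubring_of_isIntegrallyClosedIn
    (R := (integralClosure B F).toSubring) (x := g) hx
  exact hxV (h V fun c hc => hV ((integralClosure B F).algebraMap_mem ⟨c, hc⟩))

/-- an element integral over a subalgebra contained in a valuation ring lies in it -/
theorem val_le_one_of_isIntegral {F L Γ : Type} [Field F] [Algebra ℂ F] [Field L] [Algebra ℂ L]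
    [LinearOrderedCommGroupWithZero Γ] (e : F →ₐ[ℂ] L) (v : Valuation L Γ)
    (htriv : ∀ c : ℂ, v (algebraMap ℂ L c) ≤ 1) {ι : Type} (u : ι → F) (hu : ∀ i, v (e (u i)) ≤ 1)
    {g : F} (hg : IsIntegral (Algebra.adjoin ℂ (Set.range u)) g) : v (e g) ≤ 1 := by
  have hm : ∀ b : Algebra.adjoin ℂ (Set.range u), e b ∈ v.integer := by
    rintro ⟨b, hb⟩
    rw [Algebra.adjoin_range_eq_range_aeval] at hb
    obtain ⟨q, rfl⟩ := hb
    change v (e (aeval u q)) ≤ 1
    rw [comp_aeval_apply]
    exact bprime_aeval_le v htriv hu q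
  let φ : Algebra.adjoin ℂ (Set.range u) →+* v.integer :=
    ((e : F →+* L).comp (algebraMap (Algebra.adjoin ℂ (Set.range u)) F)).codRestrict v.integer hm
  exact (Valuation.integer.integers v).mem_of_integral
    (hg.map_of_comp_eq φ (e : F →+* L) (RingHom.ext fun _ => rfl))

end Pool.Agent.MP_c0606f_ag.Klt

end
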