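import Pool.Agent.MP_c0606f_ag.Mg.Klt_Alg

/-! Holomorphic functions with a prescribed value at a point (Hormander-Bombieri), with a small
polynomial loss. -/

namespace Pool.Agent.MP_c0606f_ag.Klt

open MeasureTheory Filter Topology MvPolynomial
open scoped NNReal ENNReal

namespace Cover

variable {ι L : Type} [Fintype ι] [Field L] [Algebra ℂ L] (C : Cover ι L)

theorem bomb_contDiff_eval (b : MvPolynomial ι ℂ) :
    ContDiff ℂ 1 fun a : (ι → ℂ) × ℂ => eval a.1 b := by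
  induction b using MvPolynomial.induction_on with
  | C c => simpa using contDiff_const
  | add p q hp hq => simpa using hp.add hq
  | mul_X p i hp => simpa using hp.mul ((contDiff_apply ℂ ℂ i).comp contDiff_fst)

theorem bomb_contDiff (q : Polynomial (MvPolynomial ι ℂ)) :
    ContDiff ℂ 1 fun a : (ι → ℂ) × ℂ => (q.map (eval a.1)).eval a.2 := by
  induction q using Polynomial.induction_on' with
  | add p q hp hq => simpa using hp.add hq
  | monomial n b => simpa using (bomb_contDiff_eval b).mul (contDiff_snd.pow n)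

/-- polynomials in `(y, z)` are Lipschitz and bounded on bounded sets (induction on polynomials, or
`ContDiff.locallyLipschitz`-like arguments on a compact convex set) -/
theorem lip_poly (q : Polynomial (MvPolynomial ι ℂ)) (B : ℝ) : ∃ K : ℝ, 1 ≤ K ∧
    ∀ (y y' : ι → ℂ) (z z' : ℂ), ‖y‖ ≤ B → ‖y'‖ ≤ B → ‖z‖ ≤ B → ‖z'‖ ≤ B →
      ‖(q.map (eval y)).eval z‖ ≤ K ∧
      ‖(q.map (eval y)).eval z - (q.map (eval y')).eval z'‖ ≤ K * (‖y - y'‖ + ‖z - z'‖) := by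
  have hf := bomb_contDiff q
  have hc := isCompact_closedBall (0 : (ι → ℂ) × ℂ) B
  obtain ⟨K1, h1⟩ := hc.exists_bound_of_continuousOn hf.continuous.continuousOn
  obtain ⟨K2, h2⟩ := hc.exists_bound_of_continuousOn (hf.continuous_fderiv one_ne_zero).continuousOn
  refine ⟨max 1 (max K1 K2), le_max_left _ _, fun y y' z z' hy hy' hz hz' => ?_⟩
  have m1 : (y, z) ∈ Metric.closedBall (0 : (ι → ℂ) × ℂ) B := by
    rw [mem_closedBall_zero_iff, Prod.norm_def]; exact max_le hy hz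
  have m2 : (y', z') ∈ Metric.closedBall (0 : (ι → ℂ) × ℂ) B := by
    rw [mem_closedBall_zero_iff, Prod.norm_def]; exact max_le hy' hz'
  refine ⟨(h1 _ m1).trans ((le_max_left _ _).trans (le_max_right _ _)), ?_⟩
  have h3 := (convex_closedBall (0 : (ι → ℂ) × ℂ) B).norm_image_sub_le_of_norm_fderiv_le
    (fun x _ => hf.differentiable one_ne_zero x) h2 m2 m1
  refine h3.trans (mul_le_mul ((le_max_right _ _).trans (le_max_right _ _)) ?_ (norm_nonneg _)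
    (zero_le_one.trans (le_max_left _ _)))
  rw [Prod.norm_def]
  exact max_le (le_add_of_nonneg_right (norm_nonneg _)) (le_add_of_nonneg_left (norm_nonneg _))

/-- a polynomial whose derivative is close to a constant is expanding -/
theorem bomb_expand (f : Polynomial ℂ) {z0 g : ℂ} {r : ℝ}
    (h : ∀ z ∈ Metric.closedBall z0 r, ‖f.derivative.eval z - g‖ ≤ ‖g‖ / 2) {w w' : ℂ}
    (hw : w ∈ Metric.closedBall z0 r) (hw' : w' ∈ Metric.closedBall z0 r) :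
    ‖g‖ / 2 * ‖w - w'‖ ≤ ‖f.eval w - f.eval w'‖ := by
  have h1 := (convex_closedBall z0 r).norm_image_sub_le_of_norm_hasDerivWithin_le
    (f := fun z => f.eval z - g * z) (f' := fun z => f.derivative.eval z - g)
    (fun z _ => by
      have := ((f.hasDerivAt z).fun_sub ((hasDerivAt_id' z).const_mul g)).hasDerivWithinAt
        (s := Metric.closedBall z0 r)
      rwa [mul_one] at this)
    h hw' hw
  have h2 : g * (w - w') = (f.eval w - f.eval w') - (f.eval w - g * w - (f.eval w' - g * w')) := by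
    ring
  have h3 := norm_sub_le (f.eval w - f.eval w') (f.eval w - g * w - (f.eval w' - g * w'))
  rw [← h2, norm_mul] at h3
  linarith

theorem bomb_root (f : Polynomial ℂ) {z0 g : ℂ} {r : ℝ} (hr : 0 < r) (hg : g ≠ 0)
    (h : ∀ z ∈ Metric.closedBall z0 r, ‖f.derivative.eval z - g‖ ≤ ‖g‖ / 2)
    (h0 : ‖f.eval z0‖ < ‖g‖ / 2 * r / 2) : ∃ w ∈ Metric.closedBall z0 r, f.eval w = 0 := by
  have hz0 : z0 ∈ Metric.closedBall z0 r := Metric.mem_closedBall_self hr.le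
  refine f.differentiable.diffContOnCl.ball_subset_image_closedBall hr (ε := ‖g‖ / 2 * r)
    (fun z hz => ?_) ?_ (by simpa using h0)
  · have := bomb_expand f h (Metric.sphere_subset_closedBall hz) hz0
    rwa [mem_sphere_iff_norm.1 hz] at this
  · refine Frequently.filter_mono (Eventually.frequently (f := 𝓝[≠] z0) ?_) nhdsWithin_le_nhds
    filter_upwards [self_mem_nhdsWithin,
      mem_nhdsWithin_of_mem_nhds (Metric.closedBall_mem_nhds z0 hr)] with z hz hz' he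
    have := bomb_expand f h hz' hz0
    rw [he, sub_self, norm_zero] at this
    exact absurd this (not_le.2 (mul_pos (half_pos (norm_pos_iff.2 hg))
      (norm_pos_iff.2 (sub_ne_zero.2 hz))))

/-- Quantitative local sections.  By `bez`, `|P'(y0, z0)| ≥ η / K`.  For `y` close to `y0`,
`|P (y, z0)| ≤ K |y - y0|` and `|P'(y, z0)| ≥ η / (2 K)`; from `P' / P = ∑ 1 / (z0 - w i)`
(`Polynomial.eval_derivative_div_eval_of_ne_zero_of_splits`) there is a root `w` with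
`|w - z0| ≤ d |P| / |P'|`.  Two roots `w, w'` in the disc of radius `c η` around `z0` coincide:
`P w - P w' = (w - w') * D (w, w')` with `D` a polynomial and `D (z0, z0) = P'(z0)` (or use
convexity and the mean value inequality for `P - P'(y0, z0) * id`).  Near each `y` the section
agrees with `exists_root` / `rd.sec` by uniqueness, which gives continuity and differentiability
(`contDiffAt_fn`). -/
theorem exists_section (B : ℝ) : ∃ c : ℝ, 0 < c ∧ c ≤ 1 ∧ ∀ (p : C.Pt) (η : ℝ), 0 < η → η ≤ 1 →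
    ‖p.1.1‖ ≤ B → ‖p.1.2‖ ≤ B → η ≤ ‖eval p.1.1 C.Δ‖ →
    ∃ σ : (ι → ℂ) → C.Pt, σ p.1.1 = p ∧ (∀ y ∈ Metric.ball p.1.1 (c * η ^ 2), (σ y).1.1 = y ∧
      c * η * ‖(σ y).1.2 - p.1.2‖ ≤ ‖y - p.1.1‖) ∧
      ContinuousOn σ (Metric.ball p.1.1 (c * η ^ 2)) ∧
      ∀ a ∈ C.A, DifferentiableOn ℂ (fun y => C.fn a (σ y)) (Metric.ball p.1.1 (c * η ^ 2)) := by
  classical
  obtain ⟨a0, b0, hb⟩ := C.bez
  obtain ⟨K1, k1, h1⟩ := lip_poly C.P (B + 1)
  obtain ⟨K2, k2, h2⟩ := lip_poly (Polynomial.derivative C.P) (B + 1)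
  obtain ⟨K3, k3, h3⟩ := lip_poly b0 (B + 1)
  obtain ⟨K4, k4, h4⟩ := lip_poly (Polynomial.C C.Δ) (B + 1)
  obtain ⟨K, hK1, hK2, hK3, hK4⟩ : ∃ K, K1 ≤ K ∧ K2 ≤ K ∧ K3 ≤ K ∧ K4 ≤ K :=
    ⟨K1 + K2 + K3 + K4, by linarith, by linarith, by linarith, by linarith⟩
  have hK : 1 ≤ K := k1.trans hK1
  have hK0 : 0 < K := by linarith
  have hKK : 1 ≤ K ^ 2 := one_le_pow₀ hK
  refine ⟨1 / (16 * K ^ 4), by positivity, ?_, fun p η hη hη1 hy0 hz0 hΔ => ?_⟩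
  · rw [div_le_one (by positivity)]
    have : 1 ≤ K ^ 4 := one_le_pow₀ hK
    linarith
  obtain ⟨⟨y0, z0⟩, hp⟩ := p
  simp only at hy0 hz0 hΔ ⊢
  have hp' := (C.isPt_iff y0 z0).1 hp
  have hroot : (C.P.map (eval y0)).eval z0 = 0 := hp'.1
  set g : ℂ := ((Polynomial.derivative C.P).map (eval y0)).eval z0 with hg
  obtain ⟨r, hr⟩ : ∃ r : ℝ, r = η / (4 * K ^ 2) := ⟨_, rfl⟩
  have hr0 : 0 < r := by rw [hr]; positivity
  have hrK : r * (4 * K ^ 2) = η := by rw [hr]; field_simp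
  have hr1 : r ≤ 1 / 4 := by nlinarith
  have hρ : 1 / (16 * K ^ 4) * η ^ 2 = r ^ 2 := by rw [hr]; field_simp; norm_num
  have hlam : 1 / (16 * K ^ 4) * η = r / (4 * K ^ 2) := by rw [hr]; field_simp; norm_num
  rw [hρ, hlam]
  have hgl : 4 * K * r ≤ ‖g‖ := by
    have e := congrArg (fun q => (Polynomial.map (eval y0) q).eval z0) hb
    simp only [Polynomial.map_C, Polynomial.eval_C, Polynomial.map_add, Polynomial.map_mul,
      Polynomial.eval_add, Polynomial.eval_mul, hroot, mul_zero, zero_add] at e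
    have h5 := (h3 y0 y0 z0 z0 (by linarith) (by linarith) (by linarith) (by linarith)).1
    rw [e, norm_mul] at hΔ
    have h6 : η ≤ K * ‖g‖ := hΔ.trans (mul_le_mul_of_nonneg_right (h5.trans hK3) (norm_nonneg _))
    refine le_of_mul_le_mul_left ?_ hK0
    nlinarith
  have hg0 : 0 < ‖g‖ := lt_of_lt_of_le (by positivity) hgl
  have hby : ∀ y ∈ Metric.ball y0 (r ^ 2), ‖y - y0‖ < r ^ 2 ∧ ‖y - y0‖ ≤ r ∧ ‖y‖ ≤ B + 1 := by
    intro y hy
    have h5 : ‖y - y0‖ < r ^ 2 := mem_ball_iff_norm.1 hy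
    have h6 : ‖y - y0‖ ≤ r := by nlinarith
    exact ⟨h5, h6, by linarith [norm_le_insert' y y0]⟩
  have hbz : ∀ z ∈ Metric.closedBall z0 r, ‖z - z0‖ ≤ r ∧ ‖z‖ ≤ B + 1 := by
    intro z hz
    have h5 : ‖z - z0‖ ≤ r := mem_closedBall_iff_norm.1 hz
    exact ⟨h5, by linarith [norm_le_insert' z z0]⟩
  have hz0' : z0 ∈ Metric.closedBall z0 r := Metric.mem_closedBall_self hr0.le
  have hder : ∀ y ∈ Metric.ball y0 (r ^ 2), ∀ z ∈ Metric.closedBall z0 r,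
      ‖(C.P.map (eval y)).derivative.eval z - g‖ ≤ ‖g‖ / 2 := by
    intro y hy z hz
    have h5 := (h2 y y0 z z0 (hby y hy).2.2 (by linarith) (hbz z hz).2 (by linarith)).2
    rw [Polynomial.derivative_map]
    refine h5.trans ((mul_le_mul hK2 (add_le_add (hby y hy).2.1 (hbz z hz).1) (by positivity)
      hK0.le).trans ?_)
    linarith
  have hlip : ∀ y ∈ Metric.ball y0 (r ^ 2), ∀ y' ∈ Metric.ball y0 (r ^ 2),
      ∀ z ∈ Metric.closedBall z0 r,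
      ‖(C.P.map (eval y)).eval z - (C.P.map (eval y')).eval z‖ ≤ K * ‖y - y'‖ := by
    intro y hy y' hy' z hz
    have h5 := (h1 y y' z z (hby y hy).2.2 (hby y' hy').2.2 (hbz z hz).2 (hbz z hz).2).2
    rw [sub_self, norm_zero, add_zero] at h5
    exact h5.trans (mul_le_mul_of_nonneg_right hK1 (norm_nonneg _))
  have hy0' : y0 ∈ Metric.ball y0 (r ^ 2) := Metric.mem_ball_self (by positivity)
  have hex : ∀ y ∈ Metric.ball y0 (r ^ 2), ∃ w ∈ Metric.closedBall z0 r,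
      C.IsPt (RingHom.id ℂ) y w := by
    intro y hy
    obtain ⟨w, hw, hw0⟩ := bomb_root (C.P.map (eval y)) hr0 (norm_pos_iff.1 hg0) (hder y hy) (by
      have h5 := hlip y hy y0 hy0' z0 hz0'
      rw [hroot, sub_zero] at h5
      have h6 := mul_lt_mul_of_pos_left (hby y hy).1 hK0
      nlinarith)
    refine ⟨w, hw, (C.isPt_iff y w).2 ⟨hw0, fun h0 => ?_⟩⟩
    have h5 := (h4 y y0 z0 z0 (hby y hy).2.2 (by linarith) (by linarith) (by linarith)).2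
    simp only [Polynomial.map_C, Polynomial.eval_C, h0, zero_sub, norm_neg, sub_self, norm_zero,
      add_zero] at h5
    have h6 := mul_le_mul hK4 (hby y hy).2.1 (norm_nonneg _) hK0.le
    nlinarith
  choose! w hw hpt using hex
  have hw0 : ∀ y ∈ Metric.ball y0 (r ^ 2), (C.P.map (eval y)).eval (w y) = 0 := fun y hy =>
    ((C.isPt_iff y (w y)).1 (hpt y hy)).1
  have hcmp : ∀ y ∈ Metric.ball y0 (r ^ 2), ∀ y' ∈ Metric.ball y0 (r ^ 2),
      ∀ z ∈ Metric.closedBall z0 r, (C.P.map (eval y')).eval z = 0 →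
      2 * r * ‖w y - z‖ ≤ ‖y - y'‖ := by
    intro y hy y' hy' z hz h0
    have h5 := bomb_expand _ (hder y hy) (hw y hy) hz
    have h6 := hlip y hy y' hy' z hz
    rw [hw0 y hy, zero_sub, norm_neg] at h5
    rw [h0, sub_zero] at h6
    have h7 := mul_le_mul_of_nonneg_right hgl (norm_nonneg (w y - z))
    refine le_of_mul_le_mul_left ?_ hK0
    nlinarith
  let σ : (ι → ℂ) → C.Pt := fun y =>
    if h : y ∈ Metric.ball y0 (r ^ 2) then ⟨(y, w y), hpt y h⟩ else ⟨(y0, z0), hp⟩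
  have hσ : ∀ y ∈ Metric.ball y0 (r ^ 2), (σ y).1 = (y, w y) := fun y hy => by
    simp only [σ, dif_pos hy]
  have hcont : ContinuousOn σ (Metric.ball y0 (r ^ 2)) := by
    refine (Topology.IsInducing.subtypeVal.continuousOn_iff).2 ?_
    refine ContinuousOn.congr (f := fun y => (y, w y)) (continuousOn_id.prodMk ?_) hσ
    refine (LipschitzOnWith.of_dist_le' (K := 1 / (2 * r)) fun y hy y' hy' => ?_).continuousOn
    rw [dist_eq_norm, dist_eq_norm, one_div, ← div_eq_inv_mul, le_div_iff₀' (by positivity)]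
    exact hcmp y hy y' hy' _ (hw y' hy') (hw0 y' hy')
  refine ⟨σ, Subtype.ext ?_, fun y hy => ?_, hcont, fun a ha y hy => ?_⟩
  · rw [hσ y0 hy0']
    have h5 := hcmp y0 hy0' y0 hy0' z0 hz0' hroot
    rw [sub_self, norm_zero] at h5
    have h6 : ‖w y0 - z0‖ ≤ 0 := le_of_mul_le_mul_left (by simpa using h5) (by positivity : 0 < 2 * r)
    rw [sub_eq_zero.1 (norm_le_zero_iff.1 h6)]
  · rw [hσ y hy]
    refine ⟨rfl, le_trans (mul_le_mul_of_nonneg_right ?_ (norm_nonneg _))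
      (hcmp y hy y0 hy0' z0 hz0' hroot)⟩
    rw [div_le_iff₀ (by positivity)]
    nlinarith
  · have hn := Metric.isOpen_ball.mem_nhds hy
    have h5 := C.contDiffAt_fn ha (σ y)
    have e : (σ y).1.1 = y := by rw [hσ y hy]
    rw [e] at h5
    refine ((h5.differentiableAt (by simp)).congr_of_eventuallyEq ?_).differentiableWithinAt
    filter_upwards [hn, (hcont.continuousAt hn).preimage_mem_nhds
      ((C.rd.ch (σ y)).open_source.mem_nhds (C.rd.mem_source (σ y)))] with q hq hq'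
    have h6 := C.rd.sec_π (σ y) hq'
    rw [rd_π, hσ q hq] at h6
    rw [h6]

theorem bomb_sq (u v : ℂ) : ‖u‖ ^ 2 ≤ 2 * ‖v‖ ^ 2 + 2 * ‖u - v‖ ^ 2 := by
  have h := norm_le_insert' u v
  have h1 := pow_le_pow_left₀ (norm_nonneg _) h 2
  nlinarith [sq_nonneg (‖v‖ - ‖u - v‖)]

theorem bomb_wt_mul (k m : ℕ) (y : ι → ℂ) : wt (fun _ => k * m) y = wt (fun _ => m) y ^ k := by
  unfold wt
  rw [← Finset.prod_pow]
  exact Finset.prod_congr rfl fun i _ => by rw [← pow_mul, mul_comm]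

/-- the measure of the part of the cover over a small ball -/
theorem bomb_meas (y0 : ι → ℂ) {r A : ℝ} (hr : 0 < r) (hA : 0 ≤ A) {f : C.Pt → ℝ}
    (h : ∀ x, f x ≤ 0 ∨ (‖x.1.1 - y0‖ ≤ r ∧ f x ≤ A)) :
    ∫⁻ x, ENNReal.ofReal (f x) ∂(C.rd.mu) ≤
      ENNReal.ofReal (A * (C.P.natDegree * (4 * Real.pi * r ^ 2) ^ Fintype.card ι)) := by
  have h1 := C.rd.lintegral_le_of_card C.encard_fibre (F := fun x => ENNReal.ofReal (f x))
    (G := (Metric.ball y0 (2 * r)).indicator fun _ => ENNReal.ofReal A)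
    (measurable_const.indicator Metric.isOpen_ball.measurableSet)
    (Eventually.of_forall fun x => by
      rcases h x with h | h
      · rw [ENNReal.ofReal_of_nonpos h]; exact zero_le
      · rw [Set.indicator_of_mem (by rw [mem_ball_iff_norm, rd_π]; linarith [h.1])]
        exact ENNReal.ofReal_le_ofReal h.2)
  refine h1.trans (le_of_eq ?_)
  rw [lintegral_indicator_const Metric.isOpen_ball.measurableSet,
    volume_ball_eq _ (by positivity), ← ENNReal.ofReal_natCast, ← ENNReal.ofReal_mul hA,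
    ← ENNReal.ofReal_mul (by positivity)]
  congr 1
  rw [show Real.pi * (2 * r) ^ 2 = 4 * Real.pi * r ^ 2 by ring]
  ring

/-- the mean value inequality along a section -/
theorem bomb_mean {p : C.Pt} {σ : (ι → ℂ) → C.Pt} {ρ : ℝ} (hρ : 0 < ρ) (h0 : σ p.1.1 = p)
    (h1 : ∀ y ∈ Metric.ball p.1.1 ρ, (σ y).1.1 = y) (h2 : ContinuousOn σ (Metric.ball p.1.1 ρ))
    {G v : C.Pt → ℂ} (h3 : DifferentiableOn ℂ (fun y => G (σ y)) (Metric.ball p.1.1 ρ))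
    {w : C.Pt → ℝ} {m J : ℝ} (hm : 0 ≤ m) (hJ : 0 ≤ J)
    (h4 : ∀ y ∈ Metric.ball p.1.1 ρ, v (σ y) = 1 ∧ m ≤ w (σ y))
    (h5 : ∫⁻ x, ENNReal.ofReal (‖v x - G x‖ ^ 2 * w x) ∂(C.rd.mu) ≤ ENNReal.ofReal J) :
    ‖1 - G p‖ ^ 2 * (m * (Real.pi * ρ ^ 2) ^ Fintype.card ι) ≤ J := by
  have a1 := submean (f := fun y => 1 - G (σ y)) (h3.const_sub 1)
  have a2 := C.rd.area Metric.isOpen_ball.measurableSet h2
    (fun y hy y' hy' e => by rw [← h1 y hy, ← h1 y' hy', e])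
    (f' := fun _ => ContinuousLinearMap.id ℝ (ι → ℂ))
    (fun q hq => (hasFDerivWithinAt_id q _).congr (fun y hy => h1 y hy) (h1 q hq))
    fun x => ENNReal.ofReal (‖v x - G x‖ ^ 2 * w x)
  have a3 : ENNReal.ofReal m * ∫⁻ q in Metric.ball p.1.1 ρ, ENNReal.ofReal (‖1 - G (σ q)‖ ^ 2) ≤
      ENNReal.ofReal J := by
    rw [← lintegral_const_mul' _ _ ENNReal.ofReal_ne_top]
    refine le_trans (setLIntegral_mono' Metric.isOpen_ball.measurableSet fun q hq => ?_)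
      (a2.trans h5)
    have e : (ContinuousLinearMap.id ℝ (ι → ℂ)).det = 1 := LinearMap.det_id
    rw [e, abs_one, ENNReal.ofReal_one, one_mul, ← ENNReal.ofReal_mul hm, (h4 q hq).1, mul_comm]
    exact ENNReal.ofReal_le_ofReal (mul_le_mul_of_nonneg_left (h4 q hq).2 (sq_nonneg _))
  rw [h0, volume_ball_eq _ hρ, ← ENNReal.ofReal_mul (sq_nonneg _)] at a1
  have a4 := (mul_le_mul_right a1 (ENNReal.ofReal m)).trans a3
  rw [← ENNReal.ofReal_mul hm, ENNReal.ofReal_le_ofReal_iff hJ] at a4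
  linarith

/-- comparison of the sums of squares at close points -/
theorem bomb_cmp {β : Type} [Fintype β] {b : β → L} {Mb : ι → ℕ} (hb : ∀ i, b i ∈ C.Poly Mb)
    (B : ℝ) : ∃ c : ℝ, 0 < c ∧ c ≤ 1 ∧ ∀ (p x : C.Pt) (η : ℝ), 0 < η → η ≤ 1 → ‖p.1.1‖ ≤ B →
      ‖p.1.2‖ ≤ B → η ≤ ∑ i, ‖C.fn (b i) p‖ ^ 2 → ‖x.1.1 - p.1.1‖ ≤ c * η →
      ‖x.1.2 - p.1.2‖ ≤ c * η → (∑ i, ‖C.fn (b i) p‖ ^ 2) / 4 ≤ ∑ i, ‖C.fn (b i) x‖ ^ 2 ∧
        ∑ i, ‖C.fn (b i) x‖ ^ 2 ≤ 4 * ∑ i, ‖C.fn (b i) p‖ ^ 2 := by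
  choose q hq using fun i => C.Poly_le Mb (hb i)
  choose K k1 hK using fun i => lip_poly (q i) (B + 1)
  obtain ⟨T, hT1, hT⟩ : ∃ T : ℝ, 1 ≤ T ∧ ∑ i, K i ^ 2 ≤ T ^ 2 := by
    have h0 : 0 ≤ ∑ i, K i ^ 2 := Finset.sum_nonneg fun _ _ => sq_nonneg _
    exact ⟨1 + ∑ i, K i ^ 2, by linarith, by nlinarith⟩
  refine ⟨1 / (4 * T), by positivity, ?_, fun p x η hη hη1 hy hz hS h1 h2 => ?_⟩
  · rw [div_le_one (by positivity)]; linarith
  obtain ⟨δ, hδ⟩ : ∃ δ, δ = 1 / (4 * T) * η := ⟨_, rfl⟩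
  rw [← hδ] at h1 h2
  have hδT : δ * (4 * T) = η := by rw [hδ]; field_simp
  have hδ0 : 0 < δ := by rw [hδ]; positivity
  have hδ1 : δ ≤ 1 := by nlinarith
  have h3 : ∀ i, ‖C.fn (b i) x - C.fn (b i) p‖ ^ 2 ≤ K i ^ 2 * (4 * δ ^ 2) := by
    intro i
    rw [hq i, C.fn_pv, C.fn_pv]
    have h4 := (hK i x.1.1 p.1.1 x.1.2 p.1.2 (by linarith [norm_le_insert' x.1.1 p.1.1])
      (by linarith) (by linarith [norm_le_insert' x.1.2 p.1.2]) (by linarith)).2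
    have h5 := h4.trans (mul_le_mul_of_nonneg_left (add_le_add h1 h2) (by linarith [k1 i]))
    refine (pow_le_pow_left₀ (norm_nonneg _) h5 2).trans (le_of_eq ?_)
    ring
  have h4 : ∑ i, ‖C.fn (b i) x - C.fn (b i) p‖ ^ 2 ≤ (∑ i, ‖C.fn (b i) p‖ ^ 2) / 4 := by
    refine (Finset.sum_le_sum fun i _ => h3 i).trans ?_
    rw [← Finset.sum_mul]
    refine (mul_le_mul_of_nonneg_right hT (by positivity)).trans ?_
    have : T ^ 2 * (4 * δ ^ 2) = η ^ 2 / 4 := by rw [← hδT]; ring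
    rw [this]
    nlinarith
  have h5 := Finset.sum_le_sum fun i (_ : i ∈ Finset.univ) => bomb_sq (C.fn (b i) x) (C.fn (b i) p)
  have h6 := Finset.sum_le_sum fun i (_ : i ∈ Finset.univ) => bomb_sq (C.fn (b i) p) (C.fn (b i) x)
  simp only [Finset.sum_add_distrib, ← Finset.mul_sum, norm_sub_rev (C.fn (b _) p)] at h5 h6
  constructor <;> linarith

/-- the functions cutting out the point `p` -/
noncomputable def bombF (p : C.Pt) (lam : ℝ) : Option ι → C.Pt → ℂ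
  | none => fun x => lam * (C.fn C.z x - p.1.2)
  | some i => fun x => C.rd.π x i - p.1.1 i

theorem bombF_sum (p : C.Pt) (lam : ℝ) (x : C.Pt) : ∑ i, ‖C.bombF p lam i x‖ ^ 2 =
    lam ^ 2 * ‖x.1.2 - p.1.2‖ ^ 2 + ∑ i, ‖(x.1.1 - p.1.1) i‖ ^ 2 := by
  have e : C.fn C.z x = x.1.2 := C.ev_z x.2
  simp only [Fintype.sum_option, bombF, rd_π, Pi.sub_apply, norm_mul, mul_pow, Complex.norm_real,
    Real.norm_eq_abs, sq_abs, e]

theorem bombF_le {p x : C.Pt} {lam r : ℝ} (hr : 0 ≤ r)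
    (h : ∑ i, ‖C.bombF p lam i x‖ ^ 2 ≤ r ^ 2) :
    ‖x.1.1 - p.1.1‖ ≤ r ∧ lam * ‖x.1.2 - p.1.2‖ ≤ r := by
  rw [bombF_sum] at h
  have h0 : 0 ≤ ∑ i, ‖(x.1.1 - p.1.1) i‖ ^ 2 := Finset.sum_nonneg fun _ _ => sq_nonneg _
  have h1 : 0 ≤ lam ^ 2 * ‖x.1.2 - p.1.2‖ ^ 2 := by positivity
  refine ⟨(pi_norm_le_iff_of_nonneg hr).2 fun i => ?_, ?_⟩
  · have := Finset.single_le_sum (f := fun i => ‖(x.1.1 - p.1.1) i‖ ^ 2)
      (fun _ _ => sq_nonneg _) (Finset.mem_univ i)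
    exact (abs_le_of_sq_le_sq' (by linarith) hr).2
  · exact (abs_le_of_sq_le_sq' (by rw [mul_pow]; linarith) hr).2

theorem bombF_small {p x : C.Pt} {lam r : ℝ} (hl : 0 ≤ lam) (h1 : ‖x.1.1 - p.1.1‖ ≤ r)
    (h2 : lam * ‖x.1.2 - p.1.2‖ ≤ r) :
    ∑ i, ‖C.bombF p lam i x‖ ^ 2 ≤ (Fintype.card ι + 1) * r ^ 2 := by
  rw [bombF_sum, ← mul_pow]
  have h3 := pow_le_pow_left₀ (by positivity) h2 2
  have h4 : ∑ i, ‖(x.1.1 - p.1.1) i‖ ^ 2 ≤ ∑ _i : ι, r ^ 2 := Finset.sum_le_sum fun i _ =>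
    pow_le_pow_left₀ (norm_nonneg _) ((norm_le_pi_norm _ i).trans h1) 2
  rw [Finset.sum_const, Finset.card_univ, nsmul_eq_mul] at h4
  linarith

theorem bombF_grow : ∃ m : ℕ, ∀ B : ℝ, ∃ Cs : ℝ, 0 ≤ Cs ∧ ∀ (p x : C.Pt) (lam : ℝ), 0 ≤ lam →
    lam ≤ 1 → ‖p.1.1‖ ≤ B → ‖p.1.2‖ ≤ B →
      (∑ i, ‖C.bombF p lam i x‖ ^ 2 + 1) * wt (fun _ => m) x.1.1 ≤ Cs := by
  obtain ⟨Mz, hz⟩ := C.grow_of_integral C.z_mem C.z_integral
  obtain ⟨Bz, hBz⟩ := Grow.mono C hz (M' := fun _ => ∑ i, Mz i + 1) fun i =>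
    (Finset.single_le_sum (f := Mz) (fun _ _ => Nat.zero_le _) (Finset.mem_univ i)).trans
      (Nat.le_succ _)
  refine ⟨∑ i, Mz i + 1, fun B => ⟨2 * |Bz| + 2 * B ^ 2 + Fintype.card ι * (2 + 2 * B ^ 2) + 1,
    by positivity, fun p x lam hl hl1 hy0 hz0 => ?_⟩⟩
  have e : C.fn C.z x = x.1.2 := C.ev_z x.2
  have h1 := hBz x
  have h2 := (wt_anti (M := fun _ : ι => 1) (M' := fun _ => ∑ i, Mz i + 1)
    (fun _ => Nat.le_add_left _ _) x.1.1).trans (wt_const_le 1 x.1.1)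
  have h3 := wt_pos (fun _ : ι => ∑ i, Mz i + 1) x.1.1
  have h4 := wt_le_one (fun _ : ι => ∑ i, Mz i + 1) x.1.1
  rw [e] at h1
  rw [bombF_sum]
  generalize wt (fun _ : ι => ∑ i, Mz i + 1) x.1.1 = w at h1 h2 h3 h4 ⊢
  have h5 : ‖x.1.1‖ ^ 2 * w ≤ 1 := by
    rw [pow_one, le_inv_comm₀ h3 (by positivity), ← one_div, le_div_iff₀ h3] at h2
    nlinarith
  have h6 : lam ^ 2 * ‖x.1.2 - p.1.2‖ ^ 2 ≤ 2 * ‖x.1.2‖ ^ 2 + 2 * B ^ 2 := by
    have a1 := bomb_sq (x.1.2 - p.1.2) x.1.2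
    rw [sub_sub_cancel_left, norm_neg] at a1
    have a2 := pow_le_pow_left₀ (norm_nonneg _) hz0 2
    have a3 := mul_le_of_le_one_left (sq_nonneg ‖x.1.2 - p.1.2‖) (pow_le_one₀ hl hl1 (n := 2))
    linarith
  have h7 : ∑ i, ‖(x.1.1 - p.1.1) i‖ ^ 2 ≤ ∑ _i : ι, (2 * ‖x.1.1‖ ^ 2 + 2 * B ^ 2) := by
    refine Finset.sum_le_sum fun i _ => ?_
    have a1 := bomb_sq (x.1.1 i - p.1.1 i) (x.1.1 i)
    rw [sub_sub_cancel_left, norm_neg] at a1
    have a2 := pow_le_pow_left₀ (norm_nonneg _) ((norm_le_pi_norm _ i).trans hy0) 2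
    have a3 := pow_le_pow_left₀ (norm_nonneg _) (norm_le_pi_norm x.1.1 i) 2
    rw [Pi.sub_apply]
    linarith
  rw [Finset.sum_const, Finset.card_univ, nsmul_eq_mul] at h7
  have h8 : B ^ 2 * w ≤ B ^ 2 := mul_le_of_le_one_right (sq_nonneg _) h4
  have h9 := mul_le_mul_of_nonneg_right h6 h3.le
  have h10 := mul_le_mul_of_nonneg_right h7 h3.le
  have h11 : (Fintype.card ι : ℝ) * ((2 * ‖x.1.1‖ ^ 2 + 2 * B ^ 2) * w) ≤
      Fintype.card ι * (2 + 2 * B ^ 2) :=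
    mul_le_mul_of_nonneg_left (by linarith) (Nat.cast_nonneg _)
  have h12 := le_abs_self Bz
  linarith

variable [DecidableEq ι]

theorem bombF_hol (p : C.Pt) (lam : ℝ) : ∀ i, C.rd.Hol (C.bombF p lam i)
  | none => (RD.Hol.const _).mul ((C.hol_fn C.z_mem).sub (RD.Hol.const _))
  | some i => (RD.Hol.coord i).sub (RD.Hol.const _)

theorem bomb_weight {X β β' : Type} [TopologicalSpace X] {R : RD ι X} [Fintype β] [Fintype β']
    {b : β → X → ℂ} {F : β' → X → ℂ} (hb : ∀ i, R.Hol (b i)) (hF : ∀ i, R.Hol (F i))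
    (hS : ∀ x, 0 < ∑ i, ‖b i x‖ ^ 2) {γ a ε ε' : ℝ} (D : ℕ) (hγ : 0 ≤ γ) (ha : 0 ≤ a)
    (hε : 0 < ε) (hε' : 0 < ε') : ∃ φ : X → ℝ, R.SmR φ ∧
      (∀ x ξ, a * (ε' * (∑ i, ‖R.dd (F i) x ξ‖ ^ 2) / (∑ i, ‖F i x‖ ^ 2 + ε') ^ 2) ≤
        R.levi φ x ξ) ∧
      ∀ x, Real.exp (-φ x) = wt (fun _ => 2) (R.π x) / ((∑ i, ‖b i x‖ ^ 2) ^ γ *
        ((∑ i, ‖F i x‖ ^ 2 + ε) ^ D * (∑ i, ‖F i x‖ ^ 2 + ε) ^ a * (∑ i, ‖F i x‖ ^ 2 + ε') ^ a)) := by
  have hS' : ∀ x, 0 < ∑ i, ‖b i x‖ ^ 2 + 0 := fun x => by rw [add_zero]; exact hS x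
  have hs : ∀ {e : ℝ}, 0 < e → ∀ x, 0 < ∑ i, ‖F i x‖ ^ 2 + e := fun he x =>
    add_pos_of_nonneg_of_pos (Finset.sum_nonneg fun _ _ => sq_nonneg _) he
  have s1 := RD.smR_log hb hS'
  have s2 := RD.smR_log hF (hs hε)
  have s3 := RD.smR_log hF (hs hε')
  obtain ⟨s4, l4⟩ := R.psh_wt fun _ => 2
  have t1 := (RD.SmR.const γ).mul s1
  have t2 := (RD.SmR.const ((D : ℝ) + a)).mul s2
  have t3 := (RD.SmR.const a).mul s3
  refine ⟨_, ((t1.add t2).add t3).add s4, fun x ξ => ?_, fun x => ?_⟩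
  · rw [RD.levi_add ((t1.add t2).add t3) s4, RD.levi_add (t1.add t2) t3, RD.levi_add t1 t2,
      RD.levi_const_mul s1, RD.levi_const_mul s2, RD.levi_const_mul s3]
    have a1 := mul_nonneg hγ (RD.levi_log_nonneg hb le_rfl hS' x ξ)
    have a2 := mul_nonneg (add_nonneg (Nat.cast_nonneg D) ha)
      (RD.levi_log_nonneg hF hε.le (hs hε) x ξ)
    have a3 := mul_le_mul_of_nonneg_left (RD.levi_log_ge hF (hs hε') x ξ) ha
    have a4 := l4 x ξ
    linarith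
  · rw [add_zero, Real.rpow_def_of_pos (hS x), ← Real.rpow_natCast,
      Real.rpow_def_of_pos (hs hε x), Real.rpow_def_of_pos (hs hε x),
      Real.rpow_def_of_pos (hs hε' x), ← Real.exp_add, ← Real.exp_add, ← Real.exp_add,
      eq_div_iff (Real.exp_pos _).ne', ← Real.exp_add]
    conv_rhs => rw [← Real.exp_log (wt_pos (fun _ => 2) (R.π x))]
    congr 1
    ring

theorem bomb_cut : ∃ Bχ : ℝ, 0 ≤ Bχ ∧ ∀ {X β : Type} [TopologicalSpace X] {R : RD ι X} [Fintype β]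
    {F : β → X → ℂ} (_ : ∀ i, R.Hol (F i)) {ε : ℝ} (_ : 0 < ε), ∃ v : X → ℂ, R.Sm v ∧
      (∀ x, ∑ i, ‖F i x‖ ^ 2 ≤ ε / 2 → v x = 1) ∧ (∀ x, ε ≤ ∑ i, ‖F i x‖ ^ 2 → v x = 0) ∧
      (∀ x, ‖v x‖ ≤ 1) ∧ ∀ x ξ, ‖∑ j, R.db j v x * (starRingEnd ℂ) (ξ j)‖ ^ 2 ≤
        (Set.Icc (ε / 2) ε).indicator (fun _ => Bχ) (∑ i, ‖F i x‖ ^ 2) *
          (ε * (∑ i, ‖R.dd (F i) x ξ‖ ^ 2) / (∑ i, ‖F i x‖ ^ 2 + ε) ^ 2) := by
  obtain ⟨χ, B, h1, h2, h3, h4, h5, h6⟩ := exists_step (by norm_num : (1 / 2 : ℝ) < 1)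
  refine ⟨4 * B ^ 2, by positivity, fun {X β} _ {R} _ {F} hF {ε} hε => ?_⟩
  have hχ := h1.comp (contDiff_id.div_const ε)
  have hd : ∀ t, deriv (χ ∘ fun t => id t / ε) t = deriv χ (t / ε) / ε := fun t => by
    have := ((h1.differentiable (by simp) (t / ε)).hasDerivAt.comp t
      ((hasDerivAt_id t).div_const ε)).deriv
    rw [this, mul_one_div]
  refine ⟨_, RD.sm_cut hF (RD.Hol.const 1) hχ, fun x hx => ?_, fun x hx => ?_, fun x => ?_,
    fun x ξ => ?_⟩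
  · have : χ ((∑ i, ‖F i x‖ ^ 2) / ε) = 1 := h2 _ (by rw [div_le_iff₀ hε]; linarith)
    simp only [Function.comp, id, this, Complex.ofReal_one, mul_one]
  · have : χ ((∑ i, ‖F i x‖ ^ 2) / ε) = 0 := h3 _ (by rw [le_div_iff₀ hε]; linarith)
    simp only [Function.comp, id, this, Complex.ofReal_zero, mul_zero]
  · rw [one_mul, Complex.norm_real, Real.norm_eq_abs]
    exact abs_le.2 ⟨le_trans (by norm_num) (h4 _).1, (h4 _).2⟩
  · refine (RD.db_cut hF (RD.Hol.const 1) hχ x ξ).trans ?_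
    rw [hd, norm_one, one_pow, one_mul]
    have hs : 0 ≤ ∑ i, ‖F i x‖ ^ 2 := Finset.sum_nonneg fun _ _ => sq_nonneg _
    have hT : 0 ≤ ∑ i, ‖R.dd (F i) x ξ‖ ^ 2 := Finset.sum_nonneg fun _ _ => sq_nonneg _
    generalize ∑ i, ‖F i x‖ ^ 2 = s at hs ⊢
    generalize ∑ i, ‖R.dd (F i) x ξ‖ ^ 2 = T at hT ⊢
    by_cases hm : s ∈ Set.Icc (ε / 2) ε
    · rw [Set.indicator_of_mem hm]
      have a1 : deriv χ (s / ε) ^ 2 ≤ B ^ 2 := sq_le_sq' (abs_le.1 (h5 _)).1 (abs_le.1 (h5 _)).2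
      calc (deriv χ (s / ε) / ε) ^ 2 * s * T ≤ B ^ 2 / ε ^ 2 * ε * T := by
            rw [div_pow]; gcongr; exact hm.2
        _ = 4 * B ^ 2 * (ε * T / (ε + ε) ^ 2) := by field_simp; ring
        _ ≤ _ := by gcongr; exact hm.2
    · rw [Set.indicator_of_notMem hm, h6 _ ?_]
      · simp
      · rw [div_le_iff₀ hε, le_div_iff₀ hε]
        rw [Set.mem_Icc, not_and_or, not_le, not_le] at hm
        rcases hm with h | h
        · left; linarith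
        · right; linarith

/-- lower and upper bounds for the singular part of the weight -/
theorem bomb_num1 {s R t a : ℝ} (D : ℕ) (hR : 0 < R) (ht : 0 < t) (ha : 0 ≤ a) (ha1 : a ≤ 1)
    (hs : R / 2 ≤ s) : (R / 2) ^ D * (R ^ a / 2) * R ^ a ≤
      (s + t * R) ^ D * (s + t * R) ^ a * (s + R) ^ a := by
  have h1 : R / 2 ≤ s + t * R := by nlinarith
  have h2 : R ^ a / 2 ≤ (s + t * R) ^ a := by
    refine le_trans ?_ (Real.rpow_le_rpow (by positivity) h1 ha)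
    rw [Real.div_rpow hR.le (by norm_num)]
    have := Real.rpow_le_rpow_of_exponent_le (by norm_num : (1 : ℝ) ≤ 2) ha1
    rw [Real.rpow_one] at this
    gcongr
  have h3 : R ^ a ≤ (s + R) ^ a := Real.rpow_le_rpow hR.le (by linarith) ha
  have h4 : 0 ≤ s + t * R := by linarith
  gcongr

theorem bomb_num2 {s R t a : ℝ} (D : ℕ) (hR : 0 < R) (ht : 0 < t) (ht1 : t ≤ 1) (ha : 0 ≤ a)
    (ha1 : a ≤ 1) (hs0 : 0 ≤ s) (hs : s ≤ t * R) : (s + t * R) ^ D * (s + t * R) ^ a * (s + R) ^ a ≤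
      (2 * t * R) ^ D * (2 * t ^ a * R ^ a) * (2 * R ^ a) := by
  have h0 : (2 : ℝ) ^ a ≤ 2 := by
    have := Real.rpow_le_rpow_of_exponent_le (by norm_num : (1 : ℝ) ≤ 2) ha1
    rwa [Real.rpow_one] at this
  have h1 : s + t * R ≤ 2 * t * R := by linarith
  have h2 : (s + t * R) ^ a ≤ 2 * t ^ a * R ^ a := by
    refine (Real.rpow_le_rpow (by positivity) h1 ha).trans ?_
    rw [Real.mul_rpow (by positivity) hR.le, Real.mul_rpow (by norm_num) ht.le]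
    gcongr
  have h3 : (s + R) ^ a ≤ 2 * R ^ a := by
    refine (Real.rpow_le_rpow (by positivity) (by nlinarith : s + R ≤ 2 * R) ha).trans ?_
    rw [Real.mul_rpow (by norm_num) hR.le]
    gcongr
  gcongr

theorem bomb_num3 {s R t a : ℝ} (D : ℕ) (hR : 0 < R) (hR1 : R ≤ 1) (ht : 0 < t) (ht1 : t ≤ 1)
    (ha : 0 ≤ a) (ha1 : a ≤ 1) (hs0 : 0 ≤ s) :
    (s + t * R) ^ D * (s + t * R) ^ a * (s + R) ^ a ≤ (s + 1) ^ (D + 2) := by
  have h1 : s + t * R ≤ s + 1 := by nlinarith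
  have h0 : (s + 1) ^ a ≤ s + 1 := by
    have := Real.rpow_le_rpow_of_exponent_le (by linarith : 1 ≤ s + 1) ha1
    rwa [Real.rpow_one] at this
  have h2 : (s + t * R) ^ a ≤ s + 1 := (Real.rpow_le_rpow (by positivity) h1 ha).trans h0
  have h3 : (s + R) ^ a ≤ s + 1 := (Real.rpow_le_rpow (by positivity) (by linarith) ha).trans h0
  rw [pow_succ, pow_succ]
  gcongr

theorem bomb_exists_t {a c : ℝ} (ha : 0 < a) (hc : 0 < c) :
    ∃ ϑ : ℝ, 0 < ϑ ∧ ϑ ^ 2 ≤ 1 / 2 ∧ (ϑ ^ 2) ^ a ≤ c := by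
  have h1 : 0 < min (1 / 2) (c ^ a⁻¹) := lt_min (by norm_num) (Real.rpow_pos_of_pos hc _)
  refine ⟨√(min (1 / 2) (c ^ a⁻¹)), Real.sqrt_pos.2 h1, ?_, ?_⟩
  · rw [Real.sq_sqrt h1.le]; exact min_le_left _ _
  · rw [Real.sq_sqrt h1.le]
    refine (Real.rpow_le_rpow h1.le (min_le_right _ _) ha.le).trans (le_of_eq ?_)
    exact Real.rpow_inv_rpow hc.le ha.ne'

/-- Let `D = card ι`, `S = ∑ |b i|^2`, `λ = c η` with `c` from `exists_section`, and
`F = (y i - y i (p), λ (z - z (p)))` (a family of holomorphic functions indexed by `Option ι`),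
`s = ∑ |F|^2`.  Take `r = c' η^3` so small that `S (p) / 4 ≤ S ≤ 4 S (p)` on `s ≤ r^2` (`lip_poly`
for representatives of the `b i`, `Poly_le`; there `|y - y(p)| ≤ r`, `|z - z(p)| ≤ r / λ`, and
`√(S p) ≥ √η ≥ η`) and `r ≤ c η^2`.  Let `v0 = χ (s / r^2)` (`exists_step (1 / 2 < 1)`),
`φ = γ log S + (D + a) log (s + ϑ^2 r^2) + a log (s + r^2) - log (wt 2)`, where `0 < ϑ ≤ 1 / 2` will
depend only on `a` and the fixed data.  By `db_cut` and `levi_log_ge` take `κ = 4 Bχ^2 / a` on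
`r^2 / 2 ≤ s ≤ r^2`, `0` elsewhere; the set `s ≤ r^2` has measure `≤ d * (π (2 r)^2)^D`
(`lintegral_le_of_card`, `volume_ball_eq`), so
`I = c1 / a * S(p)^(-γ) * r^(-4 a)` with `c1` independent of `ϑ`.  With `z` of growth `Mz`,
`s + r^2 ≤ const / wt (Mz + 1)`, so `exp (-φ) ≥ const * S^(-γ) * wt M''` for
`M'' = (D + 2) * (Mz + 1) + 2`, and `wt (M + M'') ≤ const * exp (-φ)` by `exists_grow_poly`,
`wt_rpow`.  Apply `solve`.  On the ball of radius `ρ = ϑ r / √(D + 2)` around `y (p)` we have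
`s ∘ σ ≤ ϑ^2 r^2`, `v0 ∘ σ = 1`, and `exp (-φ) ≥ c2 * S(p)^(-γ) * (ϑ r)^(-2 D - 2 a) r^(-2 a)`;
`submean` for `1 - fn G ∘ σ` and `RD.area` (with `f' = id`) give
`|1 - fn G p|^2 ≤ c3 / a * ϑ^(2 a)`; choose `ϑ` with `c3 / a * ϑ^(2 a) ≤ 1 / 4`.  Finally
`|G|^2 ≤ 2 |v0|^2 + 2 |v0 - G|^2`. -/
theorem bomb : ∃ c1 : ℕ, ∀ {β : Type} [Fintype β] (b : β → L) (Mb M : ι → ℕ) (γ : ℝ), 0 ≤ γ →
    (∀ i, b i ∈ C.Poly Mb) → (∀ i, γ * (Mb i + c1) ≤ M i) → (∀ p, 0 < ∑ i, ‖C.fn (b i) p‖ ^ 2) →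
    ∀ B a : ℝ, 0 < a → a ≤ 1 → ∃ B1 : ℝ, 0 ≤ B1 ∧ ∀ (p : C.Pt) (η : ℝ), 0 < η → η ≤ 1 →
      ‖p.1.1‖ ≤ B → ‖p.1.2‖ ≤ B → η ≤ ‖eval p.1.1 C.Δ‖ → η ≤ ∑ i, ‖C.fn (b i) p‖ ^ 2 →
      ∃ G ∈ C.A, C.θ * G ∈ C.Poly (fun i => M i + c1) ∧ 1 / 2 ≤ ‖C.fn G p‖ ∧
        ∫⁻ x, ENNReal.ofReal (‖C.fn G x‖ ^ 2 / (∑ i, ‖C.fn (b i) x‖ ^ 2) ^ γ *
          wt (fun _ => c1) x.1.1) ∂(C.rd.mu) ≤
          ENNReal.ofReal (B1 * η ^ (-12 * a) / (∑ i, ‖C.fn (b i) p‖ ^ 2) ^ γ) := by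
  obtain ⟨cs, hsolve⟩ := C.solve
  obtain ⟨cg, hcg⟩ := C.exists_grow_poly
  obtain ⟨m, hm⟩ := C.bombF_grow
  obtain ⟨Bχ, hBχ, hcut⟩ := bomb_cut (ι := ι)
  obtain ⟨D, hD⟩ : ∃ D, D = Fintype.card ι := ⟨_, rfl⟩
  obtain ⟨d, hd⟩ : ∃ d, d = C.P.natDegree := ⟨_, rfl⟩
  refine ⟨(D + 2) * m + 2 + cs + cg, fun {β} _ b Mb M γ hγ hb hM hS B a ha ha1 => ?_⟩
  have hbA : ∀ i, b i ∈ C.A := fun i => by
    obtain ⟨q, hq⟩ := C.Poly_le Mb (hb i)
    rw [hq]; exact C.pv_mem q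
  obtain ⟨c, hc0, hc1, hsec⟩ := C.exists_section B
  obtain ⟨c2, hc20, hc21, hcmp⟩ := C.bomb_cmp hb B
  obtain ⟨Cs, hCs0, hCs⟩ := hm B
  obtain ⟨cw, hcw0, hcw⟩ := le_wt (fun _ : ι => 2) (B + 1)
  obtain ⟨BS, hBS⟩ : ∃ BS : ℝ, ∀ x : C.Pt, wt M x.1.1 * (∑ i, ‖C.fn (b i) x‖ ^ 2) ^ γ ≤ BS := by
    choose Bi hBi using fun i => hcg Mb (b i) (hb i)
    refine ⟨(∑ i, Bi i) ^ γ, fun x => ?_⟩
    have h1 := wt_rpow (M := fun i => Mb i + cg) (M' := M) (γ := γ) (fun i => le_trans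
      (mul_le_mul_of_nonneg_left (by push_cast; linarith [(by positivity :
        (0 : ℝ) ≤ (D + 2) * m + 2 + cs)]) hγ) (hM i)) x.1.1
    refine (mul_le_mul_of_nonneg_right h1 (Real.rpow_nonneg (hS x).le _)).trans ?_
    rw [← Real.mul_rpow (wt_pos _ _).le (hS x).le]
    refine Real.rpow_le_rpow (mul_nonneg (wt_pos _ _).le (hS x).le) ?_ hγ
    rw [Finset.mul_sum]
    exact Finset.sum_le_sum fun i _ => by rw [mul_comm]; exact hBi i x
  obtain ⟨g4, hg4⟩ : ∃ g4 : ℝ, g4 = 4 ^ γ := ⟨_, rfl⟩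
  have hg40 : 0 < g4 := by rw [hg4]; positivity
  obtain ⟨cI, hcI⟩ : ∃ cI : ℝ, cI = Bχ / a * g4 * 2 * d * (8 * Real.pi) ^ D := ⟨_, rfl⟩
  have hcI0 : 0 ≤ cI := by rw [hcI]; positivity
  obtain ⟨c4, hc4⟩ : ∃ c4 : ℝ, c4 = cw * (Real.pi / (2 * (D + 1) ^ 2)) ^ D / (4 * g4) := ⟨_, rfl⟩
  have hc40 : 0 < c4 := by rw [hc4]; positivity
  obtain ⟨ϑ, hϑ, ht2, hta⟩ := bomb_exists_t ha (c := c4 / (8 * cI + 1)) (by positivity)
  have hϑ1 : ϑ ≤ 1 := by nlinarith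
  obtain ⟨e0, he0⟩ : ∃ e0 : ℝ, e0 = ((c * c2) ^ 2) ^ a := ⟨_, rfl⟩
  have he00 : 0 < e0 := by rw [he0]; positivity
  refine ⟨2 * g4 * (d * (4 * Real.pi) ^ D) + 4 * Cs ^ (D + 2) * cI / e0 ^ 2, by positivity,
    fun p η hη hη1 hy0 hz0 hΔ hηS => ?_⟩
  obtain ⟨σ, hσ0, hσ1, hσ2, hσ3⟩ := hsec p η hη hη1 hy0 hz0 hΔ
  obtain ⟨r, hr⟩ : ∃ r : ℝ, r = c * c2 * η ^ 3 := ⟨_, rfl⟩
  have hr0 : 0 < r := by rw [hr]; positivity
  have hη2 : η ^ 2 ≤ 1 := pow_le_one₀ hη.le hη1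
  have hrc : r ≤ c * η ^ 2 := by
    rw [hr, show c * c2 * η ^ 3 = c * η ^ 2 * (c2 * η) by ring]
    exact mul_le_of_le_one_right (by positivity) (mul_le_one₀ hc21 hη.le hη1)
  have hr1 : r ≤ 1 := hrc.trans (mul_le_one₀ hc1 (by positivity) hη2)
  have hR0 : 0 < r ^ 2 := by positivity
  have hR1 : r ^ 2 ≤ 1 := pow_le_one₀ hr0.le hr1
  have ht0 : 0 < ϑ ^ 2 := by positivity
  have hF := C.bombF_hol p (c * η)
  have hsm := (RD.smR_sumSq fun i => (hF i).1).continuous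
  obtain ⟨φ, hφ1, hφ2, hφ3⟩ := bomb_weight (fun i => C.hol_fn (hbA i)) hF hS D hγ ha.le
    (mul_pos ht0 hR0) hR0
  obtain ⟨v, hv1, hv2, hv3, hv4, hv5⟩ := hcut hF hR0
  have hle := fun x => C.bombF_le (p := p) (x := x) (lam := c * η) hr0.le
  have hsmall := fun x (ρ : ℝ) => C.bombF_small (p := p) (x := x) (lam := c * η) (r := ρ)
    (by positivity)
  have hgrow := fun x => hCs p x (c * η) (by positivity) (mul_le_one₀ hc1 hη.le hη1) hy0 hz0
  have hs0 : ∀ x, 0 ≤ ∑ i, ‖C.bombF p (c * η) i x‖ ^ 2 := fun x =>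
    Finset.sum_nonneg fun _ _ => sq_nonneg _
  have hlev : ∀ x ξ, 0 ≤ r ^ 2 * (∑ i, ‖C.rd.dd (C.bombF p (c * η) i) x ξ‖ ^ 2) /
      (∑ i, ‖C.bombF p (c * η) i x‖ ^ 2 + r ^ 2) ^ 2 := fun x ξ => by positivity
  have hcp := fun x => hcmp p x η hη hη1 hy0 hz0 hηS
  obtain ⟨s, hs⟩ : ∃ s : C.Pt → ℝ, ∀ x, ∑ i, ‖C.bombF p (c * η) i x‖ ^ 2 = s x := ⟨_, fun _ => rfl⟩
  obtain ⟨S, hSS⟩ : ∃ S : C.Pt → ℝ, ∀ x, ∑ i, ‖C.fn (b i) x‖ ^ 2 = S x := ⟨_, fun _ => rfl⟩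
  simp only [hs, hSS, ← hD, rd_π] at hS hBS hsm hφ2 hφ3 hv2 hv3 hv5 hle hsmall hgrow hs0 hlev hcp ⊢
  clear hs hSS hsec hcmp hCs hm hcut hcg hηS hb hM hΔ hz0
  have hSγ : ∀ x, 0 < S x ^ γ := fun x => Real.rpow_pos_of_pos (hS x) _
  -- comparison of `S` near `p`
  have hnear : ∀ x, s x ≤ r ^ 2 → S p ^ γ ≤ g4 * S x ^ γ ∧ S x ^ γ ≤ g4 * S p ^ γ := by
    intro x hx
    obtain ⟨h1, h2⟩ := hle x hx
    have h3 : ‖x.1.2 - p.1.2‖ ≤ c2 * η := by
      refine le_of_mul_le_mul_left (h2.trans ?_) (mul_pos hc0 hη)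
      rw [hr, show c * c2 * η ^ 3 = c * η * (c2 * η) * η by ring]
      exact mul_le_of_le_one_right (by positivity) hη1
    have h4 : ‖x.1.1 - p.1.1‖ ≤ c2 * η := by
      refine h1.trans ?_
      rw [hr, show c * c2 * η ^ 3 = c2 * η * (c * η ^ 2) by ring]
      exact mul_le_of_le_one_right (by positivity) (mul_le_one₀ hc1 (by positivity) hη2)
    obtain ⟨h5, h6⟩ := hcp x h4 h3
    rw [hg4, ← Real.mul_rpow (by norm_num) (hS x).le, ← Real.mul_rpow (by norm_num) (hS p).le]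
    exact ⟨Real.rpow_le_rpow (hS p).le (by linarith) hγ, Real.rpow_le_rpow (hS x).le h6 hγ⟩
  obtain ⟨u, hu⟩ : ∃ u, u = (r ^ 2) ^ a := ⟨_, rfl⟩
  have hu0 : 0 < u := by rw [hu]; positivity
  have hden : ∀ x, 0 < (s x + ϑ ^ 2 * r ^ 2) ^ D * (s x + ϑ ^ 2 * r ^ 2) ^ a * (s x + r ^ 2) ^ a :=
    fun x => by have := hs0 x; positivity
  -- the global lower bound for the weight
  have hglob : ∀ x : C.Pt, wt (fun _ => (D + 2) * m + 2) x.1.1 / S x ^ γ ≤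
      Cs ^ (D + 2) * Real.exp (-φ x) := by
    intro x
    have h1 : wt (fun _ : ι => (D + 2) * m + 2) x.1.1 =
        wt (fun _ => m) x.1.1 ^ (D + 2) * wt (fun _ => 2) x.1.1 := by
      rw [← bomb_wt_mul, ← wt_add]; rfl
    have h2 := bomb_num3 (t := ϑ ^ 2) D hR0 hR1 ht0 (by linarith) ha.le ha1 (hs0 x)
    have h3 := pow_le_pow_left₀ (mul_nonneg (by linarith [hs0 x]) (wt_pos _ _).le) (hgrow x) (D + 2)
    rw [mul_pow] at h3
    have h4 := (mul_le_mul_of_nonneg_right h2 (pow_nonneg (wt_pos (fun _ : ι => m) x.1.1).le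
      (D + 2))).trans h3
    rw [hφ3, h1, ← mul_div_assoc, div_le_div_iff₀ (hSγ x) (mul_pos (hSγ x) (hden x))]
    have h5 := mul_le_mul_of_nonneg_right h4
      (mul_pos (wt_pos (fun _ : ι => 2) x.1.1) (hSγ x)).le
    linarith
  -- the error term
  have hI : ∫⁻ x, ENNReal.ofReal ((Set.Icc (r ^ 2 / 2) (r ^ 2)).indicator (fun _ => Bχ / a) (s x) *
      Real.exp (-φ x)) ∂(C.rd.mu) ≤ ENNReal.ofReal (cI / (S p ^ γ * u ^ 2)) := by
    have hSp := hSγ p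
    refine (C.bomb_meas p.1.1 hr0 (A := Bχ / a * (g4 / (S p ^ γ * ((r ^ 2 / 2) ^ D * (u / 2) * u))))
      (by positivity) fun x => ?_).trans (le_of_eq ?_)
    · by_cases hx : s x ∈ Set.Icc (r ^ 2 / 2) (r ^ 2)
      · refine Or.inr ⟨(hle x hx.2).1, ?_⟩
        rw [Set.indicator_of_mem hx, hφ3]
        refine mul_le_mul_of_nonneg_left ?_ (by positivity)
        have h1 := bomb_num1 (t := ϑ ^ 2) D hR0 ht0 ha.le ha1 hx.1
        rw [← hu] at h1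
        rw [div_le_div_iff₀ (mul_pos (hSγ x) (hden x)) (by positivity), ← mul_assoc g4]
        exact (mul_le_of_le_one_left (by positivity) (wt_le_one _ _)).trans
          (mul_le_mul (hnear x hx.2).1 h1 (by positivity) (mul_pos hg40 (hSγ x)).le)
      · exact Or.inl (by rw [Set.indicator_of_notMem hx, zero_mul])
    · congr 1
      rw [← hD, ← hd, hcI, show 4 * Real.pi * r ^ 2 = 8 * Real.pi * (r ^ 2 / 2) by ring, mul_pow]
      field_simp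
  have hv0 : ∀ (x : C.Pt) (w A : ℝ), (s x ≤ r ^ 2 → ‖v x‖ ^ 2 * w ≤ A) →
      ‖v x‖ ^ 2 * w ≤ 0 ∨ (‖x.1.1 - p.1.1‖ ≤ r ∧ ‖v x‖ ^ 2 * w ≤ A) := by
    intro x w A h
    rcases le_total (s x) (r ^ 2) with hx | hx
    · exact Or.inr ⟨(hle x hx).1, h hx⟩
    · exact Or.inl (by rw [hv3 x hx]; simp)
  have hv4' : ∀ x, ‖v x‖ ^ 2 ≤ 1 := fun x => pow_le_one₀ (norm_nonneg _) (hv4 x)
  have hsc : Continuous s := hsm
  obtain ⟨G, hGA, hGP, hG⟩ := hsolve (fun i => M i + ((D + 2) * m + 2)) φ v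
    (fun x => (Set.Icc (r ^ 2 / 2) (r ^ 2)).indicator (fun _ => Bχ / a) (s x))
    (cI / (S p ^ γ * u ^ 2)) (BS * Cs ^ (D + 2)) hφ1
    (fun x ξ => (mul_nonneg ha.le (hlev x ξ)).trans (hφ2 x ξ)) hv1
    ((measurable_const.indicator measurableSet_Icc).comp hsc.measurable)
    (fun x => Set.indicator_nonneg (fun _ _ => by positivity) _)
    (fun x ξ => (hv5 x ξ).trans (by
      by_cases hx : s x ∈ Set.Icc (r ^ 2 / 2) (r ^ 2)
      · rw [Set.indicator_of_mem hx, Set.indicator_of_mem hx]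
        refine le_trans (le_of_eq ?_) (mul_le_mul_of_nonneg_left (hφ2 x ξ) (by positivity))
        rw [← mul_assoc, div_mul_cancel₀ _ ha.ne']
      · rw [Set.indicator_of_notMem hx, Set.indicator_of_notMem hx, zero_mul, zero_mul]))
    (by have := hSγ p; positivity) hI
    (fun x => by
      have h1 : wt (fun i => M i + ((D + 2) * m + 2)) x.1.1 = wt M x.1.1 * S x ^ γ *
          (wt (fun _ => (D + 2) * m + 2) x.1.1 / S x ^ γ) := by
        rw [mul_assoc, mul_div_cancel₀ _ (hSγ x).ne', ← wt_add]; rfl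
      rw [h1, mul_assoc BS]
      exact mul_le_mul (hBS x) (hglob x) (div_pos (wt_pos _ _) (hSγ x)).le
        ((mul_pos (wt_pos _ _) (hSγ x)).le.trans (hBS x)))
    ((C.bomb_meas p.1.1 hr0 zero_le_one fun x => hv0 x _ 1 fun _ =>
      mul_le_one₀ (hv4' x) (wt_pos _ _).le (wt_le_one _ _)).trans_lt ENNReal.ofReal_lt_top)
  refine ⟨G, hGA, C.Poly_mono (fun i => by omega) hGP, ?_, ?_⟩
  · have hSp := hSγ p
    have hτ : 0 < (ϑ ^ 2) ^ a := by positivity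
    have hρ : ϑ * r / (D + 1) ≤ r := by
      rw [div_le_iff₀ (by positivity)]
      linarith [mul_nonneg hr0.le (Nat.cast_nonneg (α := ℝ) D), mul_le_of_le_one_left hr0.le hϑ1]
    have hsub := Metric.ball_subset_ball (x := p.1.1) (hρ.trans hrc)
    have h1 := C.bomb_mean (ρ := ϑ * r / (D + 1)) (by positivity) hσ0
      (fun y hy => (hσ1 y (hsub hy)).1) (hσ2.mono hsub) ((hσ3 G hGA).mono hsub)
      (m := cw / (g4 * S p ^ γ * ((2 * ϑ ^ 2 * r ^ 2) ^ D * (2 * (ϑ ^ 2) ^ a * u) * (2 * u))))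
      (by positivity) (by positivity) (fun y hy => by
        have a1 := (mem_ball_iff_norm.1 hy).le
        obtain ⟨a2, a3⟩ := hσ1 y (hsub hy)
        have a4 : s (σ y) ≤ ϑ ^ 2 * r ^ 2 := by
          refine (hsmall (σ y) _ (by rw [a2]; exact a1) (a3.trans a1)).trans ?_
          rw [div_pow, mul_pow, pow_two ((D : ℝ) + 1), ← div_div, mul_div_cancel₀ _ (by positivity)]
          exact div_le_self (by positivity) (by linarith [Nat.cast_nonneg (α := ℝ) D])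
        have a6 := mul_le_mul_of_nonneg_right ht2 hR0.le
        refine ⟨hv2 _ (by linarith), ?_⟩
        have a5 := bomb_num2 D hR0 ht0 (by linarith) ha.le ha1 (hs0 (σ y)) a4
        rw [← hu] at a5
        rw [hφ3, a2]
        refine div_le_div₀ (wt_pos _ _).le (hcw y ?_) (mul_pos (hSγ _) (hden _))
          (mul_le_mul (hnear _ (by linarith)).2 a5 (hden _).le (by positivity))
        linarith [norm_le_insert' y p.1.1]) hG
    have h2 : cw / (g4 * S p ^ γ * ((2 * ϑ ^ 2 * r ^ 2) ^ D * (2 * (ϑ ^ 2) ^ a * u) * (2 * u))) *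
        (Real.pi * (ϑ * r / (D + 1)) ^ 2) ^ D = c4 / (ϑ ^ 2) ^ a / (S p ^ γ * u ^ 2) := by
      rw [hc4, show Real.pi * (ϑ * r / (D + 1)) ^ 2 =
        Real.pi / (2 * (D + 1) ^ 2) * (2 * ϑ ^ 2 * r ^ 2) by field_simp,
        mul_pow (Real.pi / (2 * (D + 1) ^ 2))]
      have a1 : 0 < (2 * ϑ ^ 2 * r ^ 2) ^ D := by positivity
      generalize (2 * ϑ ^ 2 * r ^ 2) ^ D = A at a1
      generalize (Real.pi / (2 * (D + 1) ^ 2)) ^ D = A'
      field_simp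
      ring
    rw [← hD, h2, ← mul_div_assoc, ← mul_div_assoc 2,
      div_le_div_iff_of_pos_right (mul_pos hSp (pow_pos hu0 2)), ← mul_div_assoc,
      div_le_iff₀ hτ] at h1
    rw [le_div_iff₀ (by positivity)] at hta
    have h3 : ‖1 - C.fn G p‖ ^ 2 ≤ (1 / 2) ^ 2 := by
      refine le_of_mul_le_mul_right (h1.trans ?_) hc40
      linarith
    have h4 := (abs_le_of_sq_le_sq' h3 (by norm_num)).2
    have h5 := norm_le_insert' (1 : ℂ) (C.fn G p)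
    rw [norm_one] at h5
    linarith
  · have hSp := hSγ p
    have hms : MeasurableSet {x : C.Pt | ‖x.1.1 - p.1.1‖ ≤ r} :=
      (isClosed_le (C.rd.continuous_π.sub continuous_const).norm continuous_const).measurableSet
    have h1 := C.bomb_meas p.1.1 hr0 (A := 2 * (g4 / S p ^ γ)) (by positivity)
      (f := {x : C.Pt | ‖x.1.1 - p.1.1‖ ≤ r}.indicator fun _ => 2 * (g4 / S p ^ γ)) fun x => by
        by_cases hx : x ∈ {x : C.Pt | ‖x.1.1 - p.1.1‖ ≤ r}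
        · exact Or.inr ⟨hx, by rw [Set.indicator_of_mem hx]⟩
        · exact Or.inl (by rw [Set.indicator_of_notMem hx])
    have h2 : ∀ x : C.Pt, ENNReal.ofReal (‖C.fn G x‖ ^ 2 / S x ^ γ *
        wt (fun _ => (D + 2) * m + 2 + cs + cg) x.1.1) ≤
        ENNReal.ofReal ({x : C.Pt | ‖x.1.1 - p.1.1‖ ≤ r}.indicator
          (fun _ => 2 * (g4 / S p ^ γ)) x) + ENNReal.ofReal (2 * Cs ^ (D + 2)) *
          ENNReal.ofReal (‖v x - C.fn G x‖ ^ 2 * Real.exp (-φ x)) := by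
      intro x
      have a0 := Set.indicator_nonneg (s := {x : C.Pt | ‖x.1.1 - p.1.1‖ ≤ r})
        (f := fun _ => 2 * (g4 / S p ^ γ)) (fun _ _ => by positivity) x
      rw [← ENNReal.ofReal_mul (by positivity), ← ENNReal.ofReal_add a0 (by positivity)]
      refine ENNReal.ofReal_le_ofReal ?_
      have a1 := bomb_sq (C.fn G x) (v x)
      rw [norm_sub_rev] at a1
      have a2 : wt (fun _ => (D + 2) * m + 2 + cs + cg) x.1.1 / S x ^ γ ≤
          wt (fun _ => (D + 2) * m + 2) x.1.1 / S x ^ γ :=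
        div_le_div_of_nonneg_right (wt_anti (fun _ => by omega) _) (hSγ x).le
      have a3 := div_pos (wt_pos (fun _ => (D + 2) * m + 2 + cs + cg) x.1.1) (hSγ x)
      have a4 := hv0 x (wt (fun _ => (D + 2) * m + 2 + cs + cg) x.1.1 / S x ^ γ) (g4 / S p ^ γ)
        fun hx => (mul_le_of_le_one_left a3.le (hv4' x)).trans (by
          rw [div_le_div_iff₀ (hSγ x) hSp]
          exact (mul_le_of_le_one_left hSp.le (wt_le_one _ _)).trans (hnear x hx).1)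
      have a5 := mul_le_mul_of_nonneg_left (a2.trans (hglob x)) (sq_nonneg ‖v x - C.fn G x‖)
      have a6 := mul_le_mul_of_nonneg_right a1 a3.le
      rw [div_mul_comm, mul_comm]
      rcases a4 with a4 | a4
      · linarith
      · rw [Set.indicator_of_mem (show x ∈ {x : C.Pt | ‖x.1.1 - p.1.1‖ ≤ r} from a4.1)]
        linarith [a4.2]
    refine (lintegral_mono h2).trans ?_
    rw [lintegral_add_left (measurable_const.indicator hms).ennreal_ofReal,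
      lintegral_const_mul' _ _ ENNReal.ofReal_ne_top]
    refine (add_le_add h1 (mul_le_mul_right hG _)).trans ?_
    rw [← ENNReal.ofReal_mul (by positivity), ← ENNReal.ofReal_add (by positivity) (by positivity)]
    refine ENNReal.ofReal_le_ofReal ?_
    have a1 : 1 ≤ η ^ (-12 * a) := Real.one_le_rpow_of_pos_of_le_one_of_nonpos hη hη1 (by linarith)
    have a2 : u ^ 2 * η ^ (-12 * a) = e0 ^ 2 := by
      rw [hu, hr, he0, mul_pow (c * c2), Real.mul_rpow (by positivity) (by positivity), mul_pow,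
        mul_assoc, ← pow_mul η, ← Real.rpow_natCast η, ← Real.rpow_mul hη.le,
        ← Real.rpow_natCast (η ^ _), ← Real.rpow_mul hη.le, ← Real.rpow_add hη]
      rw [show ((3 * 2 : ℕ) : ℝ) * a * (2 : ℕ) + -12 * a = 0 by push_cast; ring, Real.rpow_zero,
        mul_one]
    have a3 : (4 * Real.pi * r ^ 2) ^ D ≤ (4 * Real.pi) ^ D * η ^ (-12 * a) :=
      (pow_le_pow_left₀ (by positivity) (mul_le_of_le_one_right (by positivity) hR1) D).trans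
        (le_mul_of_one_le_right (by positivity) a1)
    rw [← hD, ← hd, ← a2, add_mul, add_div]
    refine add_le_add ?_ (le_of_eq ?_)
    · calc _ ≤ 2 * (g4 / S p ^ γ) * (d * ((4 * Real.pi) ^ D * η ^ (-12 * a))) := by gcongr
        _ = _ := by ring
    · field_simp
      ring

end Cover

end Pool.Agent.MP_c0606f_ag.Klt
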