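import Pool.Agent.MP_c0606f_ag.Klt.Base

-- part MP_c0606f_ag.Klt.RD
section

/-! Riemann domains over `ι → ℂ`: vocabulary. -/

namespace Pool.Agent.MP_c0606f_ag.Klt

open MeasureTheory Complex
open scoped ContDiff ComplexConjugate

section Flat

variable {ι : Type} [Fintype ι] [DecidableEq ι]

/-- `∂ f / ∂ y_j` -/
noncomputable def fdz (j : ι) (f : (ι → ℂ) → ℂ) (q : ι → ℂ) : ℂ :=
  (fderiv ℝ f q (Pi.single j 1) - I * fderiv ℝ f q (Pi.single j I)) / 2

/-- `∂ f / ∂ conj y_j` -/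
noncomputable def fdb (j : ι) (f : (ι → ℂ) → ℂ) (q : ι → ℂ) : ℂ :=
  (fderiv ℝ f q (Pi.single j 1) + I * fderiv ℝ f q (Pi.single j I)) / 2

/-- test functions -/
def FTest (f : (ι → ℂ) → ℂ) : Prop := ContDiff ℝ ∞ f ∧ HasCompactSupport f

end Flat

/-- a space with a local homeomorphism to `ι → ℂ` -/
structure RD (ι X : Type) [TopologicalSpace X] where
  π : X → ι → ℂ
  loc : IsLocalHomeomorph π

namespace RD

variable {ι X : Type} [TopologicalSpace X] (R : RD ι X)

/-- a chart at `p` -/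
noncomputable def ch (p : X) : OpenPartialHomeomorph X (ι → ℂ) := (R.loc p).choose

theorem mem_source (p : X) : p ∈ (R.ch p).source := (R.loc p).choose_spec.1

theorem coe_ch (p : X) : ⇑(R.ch p) = R.π := (R.loc p).choose_spec.2.symm

/-- the local section through `p` -/
noncomputable def sec (p : X) : (ι → ℂ) → X := (R.ch p).symm

/-- extension by zero of a function on the chart at `p` -/
noncomputable def pull (p : X) (g : (ι → ℂ) → ℂ) : X → ℂ :=
  (R.ch p).source.indicator fun x => g (R.π x)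

/-- a function in the chart at `p`, extended by zero -/
noncomputable def push (p : X) (f : X → ℂ) : (ι → ℂ) → ℂ :=
  (R.ch p).target.indicator fun q => f (R.sec p q)

variable [Fintype ι] [DecidableEq ι]

/-- smooth functions -/
def Sm (f : X → ℂ) : Prop := ∀ p, ContDiffAt ℝ ∞ (fun q => f (R.sec p q)) (R.π p)

noncomputable def dz (j : ι) (f : X → ℂ) (p : X) : ℂ := fdz j (fun q => f (R.sec p q)) (R.π p)

noncomputable def db (j : ι) (f : X → ℂ) (p : X) : ℂ := fdb j (fun q => f (R.sec p q)) (R.π p)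

/-- smooth real functions -/
def SmR (φ : X → ℝ) : Prop := R.Sm fun x => (φ x : ℂ)

/-- the Levi form -/
noncomputable def levi (φ : X → ℝ) (p : X) (ξ : ι → ℂ) : ℝ :=
  (∑ j, ∑ k, R.dz j (R.db k fun x => (φ x : ℂ)) p * ξ j * conj (ξ k)).re

/-- test functions -/
def Test (f : X → ℂ) : Prop := R.Sm f ∧ HasCompactSupport f

/-- holomorphic functions -/
def Hol (f : X → ℂ) : Prop := R.Sm f ∧ ∀ j p, R.db j f p = 0

/-- the formal adjoint of `∂bar` with weight `exp (-φ)`, up to sign -/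
noncomputable def del (φ : X → ℝ) (f : ι → X → ℂ) (p : X) : ℂ :=
  ∑ j, (R.dz j (f j) p - R.dz j (fun x => (φ x : ℂ)) p * f j p)

/-- a strictly plurisubharmonic exhaustion -/
structure Exh (ρ : X → ℝ) : Prop where
  sm : R.SmR ρ
  cpt : ∀ s, IsCompact {x | ρ x ≤ s}
  levi : ∀ p ξ, ∑ j, ‖ξ j‖ ^ 2 ≤ R.levi ρ p ξ

variable [MeasurableSpace X]

/-- the pull-back of Lebesgue measure -/
noncomputable def mu : Measure X :=
  (volume : Measure (ι → ℂ)).bind fun q => Measure.count.restrict (R.π ⁻¹' {q})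

/-- weakly holomorphic functions -/
def WHol (G : X → ℂ) : Prop := ∀ g, R.Test g → ∀ j, ∫ p, G p * R.db j g p ∂(R.mu) = 0

end RD

end Pool.Agent.MP_c0606f_ag.Klt

end

-- part MP_c0606f_ag.Klt.Calc
section

/-! Calculus on Riemann domains. -/

namespace Pool.Agent.MP_c0606f_ag.Klt

open Complex Filter Topology
open scoped ContDiff ComplexConjugate

section Flat

variable {ι : Type} [Fintype ι] [DecidableEq ι] {f g : (ι → ℂ) → ℂ} {q : ι → ℂ}

omit [DecidableEq ι] in
theorem calc_fderiv_conj (f : (ι → ℂ) → ℂ) (q v : ι → ℂ) :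
    fderiv ℝ (fun x => conj (f x)) q v = conj (fderiv ℝ f q v) := by
  have := conjCLE.comp_fderiv (f := f) (x := q)
  exact congrArg (fun L : (ι → ℂ) →L[ℝ] ℂ => L v) this

theorem calc_fdz_const (j : ι) (c : ℂ) (q : ι → ℂ) : fdz j (fun _ => c) q = 0 := by
  simp [fdz]

theorem calc_fdb_const (j : ι) (c : ℂ) (q : ι → ℂ) : fdb j (fun _ => c) q = 0 := by
  simp [fdb]

omit [DecidableEq ι] in
theorem calc_contDiffAt_fderiv (hf : ContDiffAt ℝ ∞ f q) (v : ι → ℂ) :
    ContDiffAt ℝ ∞ (fun x => fderiv ℝ f x v) q :=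
  (hf.fderiv_right (m := ∞) (by simp)).clm_apply contDiffAt_const

theorem calc_contDiffAt_fdz (j : ι) (hf : ContDiffAt ℝ ∞ f q) : ContDiffAt ℝ ∞ (fdz j f) q :=
  ((calc_contDiffAt_fderiv hf _).sub
    (contDiffAt_const.mul (calc_contDiffAt_fderiv hf _))).div_const _

theorem calc_contDiffAt_fdb (j : ι) (hf : ContDiffAt ℝ ∞ f q) : ContDiffAt ℝ ∞ (fdb j f) q :=
  ((calc_contDiffAt_fderiv hf _).add
    (contDiffAt_const.mul (calc_contDiffAt_fderiv hf _))).div_const _

omit [DecidableEq ι] in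
theorem calc_has_second (hf : ContDiffAt ℝ ∞ f q) (v : ι → ℂ) :
    HasFDerivAt (fun x => fderiv ℝ f x v) ((fderiv ℝ (fderiv ℝ f) q).flip v) q := by
  have h1 : DifferentiableAt ℝ (fderiv ℝ f) q :=
    (hf.fderiv_right (m := ∞) (by simp)).differentiableAt (by simp)
  simpa using h1.hasFDerivAt.clm_apply (hasFDerivAt_const v q)

theorem calc_fderiv_fdz (hf : ContDiffAt ℝ ∞ f q) (j : ι) (v : ι → ℂ) :
    fderiv ℝ (fdz j f) q v = (fderiv ℝ (fderiv ℝ f) q v (Pi.single j 1) -
      I * fderiv ℝ (fderiv ℝ f) q v (Pi.single j I)) / 2 := by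
  have h := (((calc_has_second hf (Pi.single j 1)).sub
    ((calc_has_second hf (Pi.single j I)).const_mul I)).mul_const (2⁻¹ : ℂ)).fderiv
  have e : fdz j f = fun x => (fderiv ℝ f x (Pi.single j 1) -
      I * fderiv ℝ f x (Pi.single j I)) * 2⁻¹ := rfl
  rw [e]
  erw [h]
  simp
  ring

theorem calc_fderiv_fdb (hf : ContDiffAt ℝ ∞ f q) (j : ι) (v : ι → ℂ) :
    fderiv ℝ (fdb j f) q v = (fderiv ℝ (fderiv ℝ f) q v (Pi.single j 1) +
      I * fderiv ℝ (fderiv ℝ f) q v (Pi.single j I)) / 2 := by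
  have h := (((calc_has_second hf (Pi.single j 1)).add
    ((calc_has_second hf (Pi.single j I)).const_mul I)).mul_const (2⁻¹ : ℂ)).fderiv
  have e : fdb j f = fun x => (fderiv ℝ f x (Pi.single j 1) +
      I * fderiv ℝ f x (Pi.single j I)) * 2⁻¹ := rfl
  rw [e]
  erw [h]
  simp
  ring

theorem calc_fdz_fdb (j k : ι) (hf : ContDiffAt ℝ ∞ f q) :
    fdz j (fdb k f) q = fdb k (fdz j f) q := by
  have hs := hf.isSymmSndFDerivAt (by
    rw [minSmoothness_of_isRCLikeNormedField]
    exact WithTop.coe_le_coe.2 le_top)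
  rw [fdz, fdb, calc_fderiv_fdb hf, calc_fderiv_fdb hf, calc_fderiv_fdz hf, calc_fderiv_fdz hf,
    hs (Pi.single k 1), hs (Pi.single k 1), hs (Pi.single k I), hs (Pi.single k I)]
  ring

theorem calc_fdb_fdb (j k : ι) (hf : ContDiffAt ℝ ∞ f q) :
    fdb j (fdb k f) q = fdb k (fdb j f) q := by
  have hs := hf.isSymmSndFDerivAt (by
    rw [minSmoothness_of_isRCLikeNormedField]
    exact WithTop.coe_le_coe.2 le_top)
  rw [fdb, fdb, calc_fderiv_fdb hf, calc_fderiv_fdb hf, calc_fderiv_fdb hf, calc_fderiv_fdb hf,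
    hs (Pi.single k 1), hs (Pi.single k 1), hs (Pi.single k I), hs (Pi.single k I)]
  ring

theorem fdz_congr (j : ι) (h : f =ᶠ[𝓝 q] g) : fdz j f q = fdz j g q := by
  simp only [fdz, h.fderiv_eq]

theorem fdb_congr (j : ι) (h : f =ᶠ[𝓝 q] g) : fdb j f q = fdb j g q := by
  simp only [fdb, h.fderiv_eq]

theorem fdz_mul (j : ι) (hf : DifferentiableAt ℝ f q) (hg : DifferentiableAt ℝ g q) :
    fdz j (fun x => f x * g x) q = fdz j f q * g q + f q * fdz j g q := by
  simp only [fdz, fderiv_fun_mul hf hg, _root_.add_apply,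
    _root_.smul_apply, smul_eq_mul]
  ring

theorem fdb_mul (j : ι) (hf : DifferentiableAt ℝ f q) (hg : DifferentiableAt ℝ g q) :
    fdb j (fun x => f x * g x) q = fdb j f q * g q + f q * fdb j g q := by
  simp only [fdb, fderiv_fun_mul hf hg, _root_.add_apply,
    _root_.smul_apply, smul_eq_mul]
  ring

theorem fdb_conj (j : ι) (f : (ι → ℂ) → ℂ) (q : ι → ℂ) :
    fdb j (fun x => conj (f x)) q = conj (fdz j f q) := by
  simp only [fdb, fdz, calc_fderiv_conj, map_div₀, map_sub, map_mul, conj_I, map_ofNat]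
  ring

theorem fdz_conj (j : ι) (f : (ι → ℂ) → ℂ) (q : ι → ℂ) :
    fdz j (fun x => conj (f x)) q = conj (fdb j f q) := by
  simp only [fdb, fdz, calc_fderiv_conj, map_div₀, map_add, map_mul, conj_I, map_ofNat]
  ring

theorem fdb_of_differentiableAt (j : ι) (hf : DifferentiableAt ℂ f q) : fdb j f q = 0 := by
  have h1 : (Pi.single j I : ι → ℂ) = I • Pi.single j 1 := by
    rw [← Pi.single_smul, smul_eq_mul, mul_one]
  simp only [fdb, hf.fderiv_restrictScalars ℝ, ContinuousLinearMap.coe_restrictScalars', h1,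
    map_smul, smul_eq_mul]
  rw [← mul_assoc, I_mul_I]
  ring

theorem contDiff_fdz (j : ι) (hf : ContDiff ℝ ∞ f) : ContDiff ℝ ∞ (fdz j f) := by
  exact contDiff_iff_contDiffAt.2 fun _ => calc_contDiffAt_fdz j hf.contDiffAt

theorem contDiff_fdb (j : ι) (hf : ContDiff ℝ ∞ f) : ContDiff ℝ ∞ (fdb j f) := by
  exact contDiff_iff_contDiffAt.2 fun _ => calc_contDiffAt_fdb j hf.contDiffAt

theorem FTest.fdz (hf : FTest f) (j : ι) : FTest (fdz j f) := by
  refine ⟨contDiff_fdz j hf.1, hf.2.mono' fun q hq => ?_⟩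
  by_contra h
  exact hq ((fdz_congr j (notMem_tsupport_iff_eventuallyEq.1 h)).trans (calc_fdz_const j 0 q))

theorem FTest.fdb (hf : FTest f) (j : ι) : FTest (fdb j f) := by
  refine ⟨contDiff_fdb j hf.1, hf.2.mono' fun q hq => ?_⟩
  by_contra h
  exact hq ((fdb_congr j (notMem_tsupport_iff_eventuallyEq.1 h)).trans (calc_fdb_const j 0 q))

end Flat

namespace RD

variable {ι X : Type} [TopologicalSpace X] (R : RD ι X)

theorem continuous_π : Continuous R.π := by
  exact R.loc.continuous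

theorem sec_π (p : X) {x : X} (hx : x ∈ (R.ch p).source) : R.sec p (R.π x) = x := by
  rw [← R.coe_ch p]
  exact (R.ch p).left_inv hx

theorem π_sec (p : X) {q : ι → ℂ} (hq : q ∈ (R.ch p).target) : R.π (R.sec p q) = q := by
  rw [← R.coe_ch p]
  exact (R.ch p).right_inv hq

theorem π_mem_target (p : X) {x : X} (hx : x ∈ (R.ch p).source) : R.π x ∈ (R.ch p).target := by
  rw [← R.coe_ch p]
  exact (R.ch p).map_source hx

theorem calc_tendsto_sec (p : X) {x : X} (hx : x ∈ (R.ch p).source) :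
    Tendsto (R.sec p) (𝓝 (R.π x)) (𝓝 x) := by
  have := ((R.ch p).continuousAt_symm (R.π_mem_target p hx)).tendsto
  rwa [show (R.ch p).symm (R.π x) = x from R.sec_π p hx] at this

theorem calc_π_sec (g : (ι → ℂ) → ℂ) (p : X) :
    (fun q => g (R.π (R.sec p q))) =ᶠ[𝓝 (R.π p)] g := by
  filter_upwards [(R.ch p).open_target.mem_nhds (R.π_mem_target p (R.mem_source p))] with q hq
  rw [R.π_sec p hq]

/-- two local sections through the same point agree near it -/
theorem sec_eventuallyEq (p : X) {x : X} (hx : x ∈ (R.ch p).source) :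
    R.sec x =ᶠ[𝓝 (R.π x)] R.sec p := by
  have h1 := (calc_tendsto_sec R x (R.mem_source x)).eventually
    ((R.ch p).open_source.mem_nhds hx)
  have h2 := (R.ch x).open_target.mem_nhds (R.π_mem_target x (R.mem_source x))
  filter_upwards [h1, h2] with q k1 k2
  rw [← R.sec_π p k1, R.π_sec x k2]

theorem tendsto_sec (p : X) : Tendsto (R.sec p) (𝓝 (R.π p)) (𝓝 p) := by
  exact calc_tendsto_sec R p (R.mem_source p)

variable [Fintype ι] [DecidableEq ι] {R} {f g : X → ℂ}

omit [DecidableEq ι] in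
theorem Sm.contDiffAt (hf : R.Sm f) (p : X) {x : X} (hx : x ∈ (R.ch p).source) :
    ContDiffAt ℝ ∞ (fun q => f (R.sec p q)) (R.π x) := by
  exact (hf x).congr_of_eventuallyEq ((R.sec_eventuallyEq p hx).symm.fun_comp f)

theorem dz_eq (j : ι) (f : X → ℂ) (p : X) {x : X} (hx : x ∈ (R.ch p).source) :
    R.dz j f x = fdz j (fun q => f (R.sec p q)) (R.π x) := by
  exact fdz_congr j ((R.sec_eventuallyEq p hx).fun_comp f)

theorem db_eq (j : ι) (f : X → ℂ) (p : X) {x : X} (hx : x ∈ (R.ch p).source) :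
    R.db j f x = fdb j (fun q => f (R.sec p q)) (R.π x) := by
  exact fdb_congr j ((R.sec_eventuallyEq p hx).fun_comp f)

theorem calc_dz_sec (j : ι) (f : X → ℂ) (p : X) : (fun q => R.dz j f (R.sec p q)) =ᶠ[𝓝 (R.π p)]
    fdz j fun q => f (R.sec p q) := by
  filter_upwards [(R.ch p).open_target.mem_nhds (R.π_mem_target p (R.mem_source p))] with q hq
  rw [dz_eq j f p (x := R.sec p q) ((R.ch p).map_target hq), R.π_sec p hq]

theorem calc_db_sec (j : ι) (f : X → ℂ) (p : X) : (fun q => R.db j f (R.sec p q)) =ᶠ[𝓝 (R.π p)]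
    fdb j fun q => f (R.sec p q) := by
  filter_upwards [(R.ch p).open_target.mem_nhds (R.π_mem_target p (R.mem_source p))] with q hq
  rw [db_eq j f p (x := R.sec p q) ((R.ch p).map_target hq), R.π_sec p hq]

omit [DecidableEq ι] in
theorem calc_diff (hf : R.Sm f) (p : X) : DifferentiableAt ℝ (fun q => f (R.sec p q)) (R.π p) :=
  (hf p).differentiableAt (by simp)

omit [DecidableEq ι] in
theorem calc_fderiv_comp {φ : X → ℝ} (hφ : R.SmR φ) {γ : ℝ → ℝ} {p : X}
    (hγ : DifferentiableAt ℝ γ (φ p)) (v : ι → ℂ) :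
    fderiv ℝ (fun q => (γ (φ (R.sec p q)) : ℂ)) (R.π p) v =
      (deriv γ (φ p) : ℝ) * fderiv ℝ (fun q => (φ (R.sec p q) : ℂ)) (R.π p) v := by
  have h1 : DifferentiableAt ℝ (fun q => φ (R.sec p q)) (R.π p) :=
    reCLM.differentiableAt.comp _ (calc_diff hφ p)
  have h2 := (ofRealCLM.hasFDerivAt.comp _ h1.hasFDerivAt).fderiv
  have h3 : HasDerivAt γ (deriv γ (φ p)) (φ (R.sec p (R.π p))) := by
    rw [R.sec_π p (R.mem_source p)]
    exact hγ.hasDerivAt
  have h4 := (ofRealCLM.hasFDerivAt.comp _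
    (HasDerivAt.comp_hasFDerivAt (f := fun q => φ (R.sec p q)) (R.π p) h3 h1.hasFDerivAt)).fderiv
  erw [h2, h4]
  simp

theorem dz_congr (j : ι) {p : X} (h : f =ᶠ[𝓝 p] g) : R.dz j f p = R.dz j g p := by
  exact fdz_congr j (h.comp_tendsto (R.tendsto_sec p))

theorem db_congr (j : ι) {p : X} (h : f =ᶠ[𝓝 p] g) : R.db j f p = R.db j g p := by
  exact fdb_congr j (h.comp_tendsto (R.tendsto_sec p))

theorem levi_congr {φ ψ : X → ℝ} {p : X} (h : φ =ᶠ[𝓝 p] ψ) (ξ : ι → ℂ) :
    R.levi φ p ξ = R.levi ψ p ξ := by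
  have key : ∀ j k, R.dz j (R.db k fun x => (φ x : ℂ)) p =
      R.dz j (R.db k fun x => (ψ x : ℂ)) p := fun j k => by
    refine dz_congr j ?_
    filter_upwards [h.eventually_nhds] with x hx
    exact db_congr k (Filter.EventuallyEq.fun_comp hx ((↑) : ℝ → ℂ))
  simp only [levi, key]

omit [DecidableEq ι] in
theorem Sm.continuous (hf : R.Sm f) : Continuous f := by
  refine continuous_iff_continuousAt.2 fun p => ?_
  refine ((hf p).continuousAt.comp R.continuous_π.continuousAt).congr ?_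
  filter_upwards [(R.ch p).open_source.mem_nhds (R.mem_source p)] with x hx
  simp only [Function.comp, R.sec_π p hx]

omit [DecidableEq ι] in
theorem SmR.continuous {φ : X → ℝ} (hφ : R.SmR φ) : Continuous φ := by
  exact continuous_re.comp (Sm.continuous hφ)

omit [DecidableEq ι] in
/-- smoothness is local -/
theorem sm_of_local (h : ∀ p, ∃ g, R.Sm g ∧ f =ᶠ[𝓝 p] g) : R.Sm f := by
  intro p
  obtain ⟨g, hg, e⟩ := h p
  exact (hg p).congr_of_eventuallyEq (e.comp_tendsto (R.tendsto_sec p))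

omit [DecidableEq ι] in
theorem Sm.const (c : ℂ) : R.Sm fun _ => c := by
  exact fun _ => contDiffAt_const

omit [DecidableEq ι] in
theorem Sm.comp_π {g : (ι → ℂ) → ℂ} (hg : ContDiff ℝ ∞ g) : R.Sm fun x => g (R.π x) := by
  exact fun p => hg.contDiffAt.congr_of_eventuallyEq (calc_π_sec R g p)

omit [DecidableEq ι] in
theorem Sm.add (hf : R.Sm f) (hg : R.Sm g) : R.Sm fun x => f x + g x := by
  exact fun p => (hf p).add (hg p)

omit [DecidableEq ι] in
theorem Sm.sub (hf : R.Sm f) (hg : R.Sm g) : R.Sm fun x => f x - g x := by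
  exact fun p => (hf p).sub (hg p)

omit [DecidableEq ι] in
theorem Sm.neg (hf : R.Sm f) : R.Sm fun x => -f x := by
  exact fun p => (hf p).neg

omit [DecidableEq ι] in
theorem Sm.mul (hf : R.Sm f) (hg : R.Sm g) : R.Sm fun x => f x * g x := by
  exact fun p => (hf p).mul (hg p)

omit [DecidableEq ι] in
theorem Sm.inv (hf : R.Sm f) (h0 : ∀ x, f x ≠ 0) : R.Sm fun x => (f x)⁻¹ := by
  exact fun p => (hf p).inv (h0 _)

omit [DecidableEq ι] in
theorem Sm.conj (hf : R.Sm f) : R.Sm fun x => conj (f x) := by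
  exact fun p => conjCLE.contDiff.contDiffAt.comp _ (hf p)

omit [DecidableEq ι] in
theorem Sm.sum {β : Type} (S : Finset β) {f : β → X → ℂ} (hf : ∀ i ∈ S, R.Sm (f i)) :
    R.Sm fun x => ∑ i ∈ S, f i x := by
  exact fun p => ContDiffAt.sum fun i hi => hf i hi p

omit [DecidableEq ι] in
theorem SmR.comp {φ : X → ℝ} (hφ : R.SmR φ) {γ : ℝ → ℝ} (hγ : ∀ x, ContDiffAt ℝ ∞ γ (φ x)) :
    R.SmR fun x => γ (φ x) := by
  intro p
  have h1 : ContDiffAt ℝ ∞ (fun q => φ (R.sec p q)) (R.π p) :=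
    reCLM.contDiff.contDiffAt.comp _ (hφ p)
  exact ofRealCLM.contDiff.contDiffAt.comp _
    (ContDiffAt.comp (f := fun q => φ (R.sec p q)) (R.π p) (hγ _) h1)

omit [DecidableEq ι] in
theorem SmR.add {φ ψ : X → ℝ} (hφ : R.SmR φ) (hψ : R.SmR ψ) : R.SmR fun x => φ x + ψ x := by
  simpa [SmR] using Sm.add hφ hψ

omit [DecidableEq ι] in
theorem SmR.mul {φ ψ : X → ℝ} (hφ : R.SmR φ) (hψ : R.SmR ψ) : R.SmR fun x => φ x * ψ x := by
  simpa [SmR] using Sm.mul hφ hψ

omit [DecidableEq ι] in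
theorem SmR.const (c : ℝ) : R.SmR fun _ => c := by
  exact Sm.const _

omit [DecidableEq ι] in
theorem SmR.sum {β : Type} (S : Finset β) {φ : β → X → ℝ} (hφ : ∀ i ∈ S, R.SmR (φ i)) :
    R.SmR fun x => ∑ i ∈ S, φ i x := by
  simpa [SmR] using Sm.sum S hφ

omit [DecidableEq ι] in
theorem Sm.normSq (hf : R.Sm f) : R.SmR fun x => ‖f x‖ ^ 2 := by
  simpa [SmR, mul_conj'] using hf.mul hf.conj

theorem Sm.dz (hf : R.Sm f) (j : ι) : R.Sm (R.dz j f) := by
  intro p
  exact (calc_contDiffAt_fdz j (hf p)).congr_of_eventuallyEq (calc_dz_sec j f p)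

theorem Sm.db (hf : R.Sm f) (j : ι) : R.Sm (R.db j f) := by
  intro p
  exact (calc_contDiffAt_fdb j (hf p)).congr_of_eventuallyEq (calc_db_sec j f p)

theorem dz_const (j : ι) (c : ℂ) (p : X) : R.dz j (fun _ => c) p = 0 := by
  exact calc_fdz_const j c _

theorem db_const (j : ι) (c : ℂ) (p : X) : R.db j (fun _ => c) p = 0 := by
  exact calc_fdb_const j c _

theorem dz_add (j : ι) (hf : R.Sm f) (hg : R.Sm g) (p : X) :
    R.dz j (fun x => f x + g x) p = R.dz j f p + R.dz j g p := by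
  simp only [dz, fdz, fderiv_fun_add (calc_diff hf p) (calc_diff hg p),
    _root_.add_apply]
  ring

theorem db_add (j : ι) (hf : R.Sm f) (hg : R.Sm g) (p : X) :
    R.db j (fun x => f x + g x) p = R.db j f p + R.db j g p := by
  simp only [db, fdb, fderiv_fun_add (calc_diff hf p) (calc_diff hg p),
    _root_.add_apply]
  ring

theorem dz_sub (j : ι) (hf : R.Sm f) (hg : R.Sm g) (p : X) :
    R.dz j (fun x => f x - g x) p = R.dz j f p - R.dz j g p := by
  simp only [dz, fdz, fderiv_fun_sub (calc_diff hf p) (calc_diff hg p),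
    _root_.sub_apply]
  ring

theorem db_sub (j : ι) (hf : R.Sm f) (hg : R.Sm g) (p : X) :
    R.db j (fun x => f x - g x) p = R.db j f p - R.db j g p := by
  simp only [db, fdb, fderiv_fun_sub (calc_diff hf p) (calc_diff hg p),
    _root_.sub_apply]
  ring

theorem dz_mul (j : ι) (hf : R.Sm f) (hg : R.Sm g) (p : X) :
    R.dz j (fun x => f x * g x) p = R.dz j f p * g p + f p * R.dz j g p := by
  have := fdz_mul j (calc_diff hf p) (calc_diff hg p)
  rwa [R.sec_π p (R.mem_source p)] at this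

theorem db_mul (j : ι) (hf : R.Sm f) (hg : R.Sm g) (p : X) :
    R.db j (fun x => f x * g x) p = R.db j f p * g p + f p * R.db j g p := by
  have := fdb_mul j (calc_diff hf p) (calc_diff hg p)
  rwa [R.sec_π p (R.mem_source p)] at this

theorem dz_sum (j : ι) {β : Type} (S : Finset β) {f : β → X → ℂ} (hf : ∀ i ∈ S, R.Sm (f i))
    (p : X) : R.dz j (fun x => ∑ i ∈ S, f i x) p = ∑ i ∈ S, R.dz j (f i) p := by
  classical
  induction S using Finset.induction_on with
  | empty => simpa using dz_const j 0 p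
  | insert i S hi ih =>
    simp only [Finset.sum_insert hi]
    have h1 : ∀ k ∈ S, R.Sm (f k) := fun k hk => hf k (Finset.mem_insert_of_mem hk)
    rw [dz_add j (hf i (Finset.mem_insert_self i S)) (Sm.sum S h1), ih h1]

theorem db_sum (j : ι) {β : Type} (S : Finset β) {f : β → X → ℂ} (hf : ∀ i ∈ S, R.Sm (f i))
    (p : X) : R.db j (fun x => ∑ i ∈ S, f i x) p = ∑ i ∈ S, R.db j (f i) p := by
  classical
  induction S using Finset.induction_on with
  | empty => simpa using db_const j 0 p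
  | insert i S hi ih =>
    simp only [Finset.sum_insert hi]
    have h1 : ∀ k ∈ S, R.Sm (f k) := fun k hk => hf k (Finset.mem_insert_of_mem hk)
    rw [db_add j (hf i (Finset.mem_insert_self i S)) (Sm.sum S h1), ih h1]

theorem db_conj (j : ι) (f : X → ℂ) (p : X) :
    R.db j (fun x => conj (f x)) p = conj (R.dz j f p) := by
  exact fdb_conj j (fun q => f (R.sec p q)) _

theorem dz_conj (j : ι) (f : X → ℂ) (p : X) :
    R.dz j (fun x => conj (f x)) p = conj (R.db j f p) := by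
  exact fdz_conj j (fun q => f (R.sec p q)) _

theorem db_real (j : ι) (φ : X → ℝ) (p : X) :
    R.db j (fun x => (φ x : ℂ)) p = conj (R.dz j (fun x => (φ x : ℂ)) p) := by
  simpa using db_conj j (fun x => (φ x : ℂ)) p

theorem dz_comp (j : ι) {φ : X → ℝ} (hφ : R.SmR φ) {γ : ℝ → ℝ} {p : X}
    (hγ : DifferentiableAt ℝ γ (φ p)) :
    R.dz j (fun x => (γ (φ x) : ℂ)) p = (deriv γ (φ p) : ℝ) * R.dz j (fun x => (φ x : ℂ)) p := by
  simp only [dz, fdz, calc_fderiv_comp hφ hγ]
  ring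

theorem db_comp (j : ι) {φ : X → ℝ} (hφ : R.SmR φ) {γ : ℝ → ℝ} {p : X}
    (hγ : DifferentiableAt ℝ γ (φ p)) :
    R.db j (fun x => (γ (φ x) : ℂ)) p = (deriv γ (φ p) : ℝ) * R.db j (fun x => (φ x : ℂ)) p := by
  simp only [db, fdb, calc_fderiv_comp hφ hγ]
  ring

theorem dz_comp_π (j : ι) (g : (ι → ℂ) → ℂ) (p : X) :
    R.dz j (fun x => g (R.π x)) p = fdz j g (R.π p) := by
  exact fdz_congr j (calc_π_sec R g p)

theorem db_comp_π (j : ι) (g : (ι → ℂ) → ℂ) (p : X) :
    R.db j (fun x => g (R.π x)) p = fdb j g (R.π p) := by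
  exact fdb_congr j (calc_π_sec R g p)

theorem dz_coord (j k : ι) (p : X) : R.dz j (fun x => R.π x k) p = if j = k then 1 else 0 := by
  rw [dz_comp_π j (fun q => q k) p]
  have h1 : fderiv ℝ (fun q : ι → ℂ => q k) (R.π p) =
      ContinuousLinearMap.proj (R := ℝ) (φ := fun _ : ι => ℂ) k :=
    (hasFDerivAt_apply k (R.π p)).fderiv
  simp only [fdz, h1, ContinuousLinearMap.proj_apply]
  split_ifs with h
  · subst h
    simp only [Pi.single_eq_same, I_mul_I]
    ring
  · simp [Pi.single_eq_of_ne' h]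

/-- symmetry of second derivatives (`ContDiffAt.isSymmSndFDerivAt`) -/
theorem dz_db_comm (j k : ι) (hf : R.Sm f) (p : X) :
    R.dz j (R.db k f) p = R.db k (R.dz j f) p := by
  rw [dz, db, fdz_congr j (calc_db_sec k f p), fdb_congr k (calc_dz_sec j f p)]
  exact calc_fdz_fdb j k (hf p)

theorem db_db_comm (j k : ι) (hf : R.Sm f) (p : X) :
    R.db j (R.db k f) p = R.db k (R.db j f) p := by
  rw [db, db, fdb_congr j (calc_db_sec k f p), fdb_congr k (calc_db_sec j f p)]
  exact calc_fdb_fdb j k (hf p)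

theorem dz_eq_zero (j : ι) {p : X} (hp : p ∉ tsupport f) : R.dz j f p = 0 := by
  exact (dz_congr j (notMem_tsupport_iff_eventuallyEq.1 hp)).trans (dz_const j 0 p)

theorem db_eq_zero (j : ι) {p : X} (hp : p ∉ tsupport f) : R.db j f p = 0 := by
  exact (db_congr j (notMem_tsupport_iff_eventuallyEq.1 hp)).trans (db_const j 0 p)

theorem Test.dz (hf : R.Test f) (j : ι) : R.Test (R.dz j f) := by
  refine ⟨hf.1.dz j, hf.2.mono' fun p hp => ?_⟩
  by_contra h
  exact hp (dz_eq_zero j h)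

theorem Test.db (hf : R.Test f) (j : ι) : R.Test (R.db j f) := by
  refine ⟨hf.1.db j, hf.2.mono' fun p hp => ?_⟩
  by_contra h
  exact hp (db_eq_zero j h)

omit [DecidableEq ι] in
theorem Test.mul_left (hf : R.Test f) (hg : R.Sm g) : R.Test fun x => g x * f x := by
  exact ⟨hg.mul hf.1, hf.2.mul_left⟩

omit [DecidableEq ι] in
theorem Test.mul_right (hf : R.Test f) (hg : R.Sm g) : R.Test fun x => f x * g x := by
  exact ⟨hf.1.mul hg, hf.2.mul_right⟩

omit [DecidableEq ι] in
theorem Test.add [T2Space X] (hf : R.Test f) (hg : R.Test g) : R.Test fun x => f x + g x := by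
  exact ⟨hf.1.add hg.1, hf.2.add hg.2⟩

omit [DecidableEq ι] in
theorem Test.sub [T2Space X] (hf : R.Test f) (hg : R.Test g) : R.Test fun x => f x - g x := by
  exact ⟨hf.1.sub hg.1, hf.2.sub hg.2⟩

omit [DecidableEq ι] in
theorem Test.conj (hf : R.Test f) : R.Test fun x => conj (f x) := by
  exact ⟨hf.1.conj, hf.2.comp_left (g := fun z : ℂ => conj z) (map_zero _)⟩

omit [DecidableEq ι] in
theorem Test.sum [T2Space X] {β : Type} (S : Finset β) {f : β → X → ℂ}
    (hf : ∀ i ∈ S, R.Test (f i)) : R.Test fun x => ∑ i ∈ S, f i x := by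
  classical
  induction S using Finset.induction_on with
  | empty => exact ⟨by simpa using Sm.const 0, HasCompactSupport.zero⟩
  | insert i S hi ih =>
    simp only [Finset.sum_insert hi]
    exact (hf i (Finset.mem_insert_self i S)).add
      (ih fun k hk => hf k (Finset.mem_insert_of_mem hk))

theorem Hol.const (c : ℂ) : R.Hol fun _ => c := by
  exact ⟨Sm.const c, fun j p => db_const j c p⟩

theorem Hol.coord (k : ι) : R.Hol fun x => R.π x k := by
  refine ⟨Sm.comp_π (g := fun q => q k) (contDiff_apply ℝ ℂ k), fun j p => ?_⟩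
  rw [db_comp_π j (fun q => q k) p]
  exact fdb_of_differentiableAt j (differentiableAt_apply k _)

theorem Hol.add (hf : R.Hol f) (hg : R.Hol g) : R.Hol fun x => f x + g x := by
  exact ⟨hf.1.add hg.1, fun j p => by rw [db_add j hf.1 hg.1, hf.2, hg.2, add_zero]⟩

theorem Hol.sub (hf : R.Hol f) (hg : R.Hol g) : R.Hol fun x => f x - g x := by
  exact ⟨hf.1.sub hg.1, fun j p => by rw [db_sub j hf.1 hg.1, hf.2, hg.2, sub_zero]⟩

theorem Hol.mul (hf : R.Hol f) (hg : R.Hol g) : R.Hol fun x => f x * g x := by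
  exact ⟨hf.1.mul hg.1, fun j p => by simp [db_mul j hf.1 hg.1, hf.2, hg.2]⟩

theorem Hol.pow (hf : R.Hol f) (k : ℕ) : R.Hol fun x => f x ^ k := by
  induction k with
  | zero => simpa using Hol.const 1
  | succ k ih => simpa [pow_succ] using ih.mul hf

theorem Hol.inv (hf : R.Hol f) (h0 : ∀ x, f x ≠ 0) : R.Hol fun x => (f x)⁻¹ := by
  refine ⟨hf.1.inv h0, fun j p => ?_⟩
  have h1 := db_mul j hf.1 (hf.1.inv h0) p
  simp only [mul_inv_cancel₀ (h0 _), db_const, hf.2, zero_mul, zero_add] at h1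
  exact (mul_eq_zero.1 h1.symm).resolve_left (h0 p)

/-- complex differentiability in the charts (`ContDiffAt ℂ` restricts to `ℝ`) -/
theorem hol_of_contDiffAt (h : ∀ p, ContDiffAt ℂ ∞ (fun q => f (R.sec p q)) (R.π p)) :
    R.Hol f := by
  exact ⟨fun p => (h p).restrict_scalars ℝ,
    fun j p => fdb_of_differentiableAt j ((h p).differentiableAt (by simp))⟩

end RD

end Pool.Agent.MP_c0606f_ag.Klt

end

-- part MP_c0606f_ag.Klt.Meas
section

/-! The pull-back of Lebesgue measure to a Riemann domain. -/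

namespace Pool.Agent.MP_c0606f_ag.Klt

open MeasureTheory Complex Filter Topology
open scoped ENNReal

namespace RD

variable {ι X : Type} [Fintype ι] [TopologicalSpace X] [T2Space X]
  [SecondCountableTopology X] [MeasurableSpace X] [BorelSpace X] (R : RD ι X)

omit [Fintype ι] [T2Space X] in
/-- a countable partition into measurable pieces of charts
(`TopologicalSpace.countable_cover_nhds`, `disjointed`) -/
theorem exists_pieces [Nonempty X] : ∃ (p : ℕ → X) (D : ℕ → Set X), (∀ n, MeasurableSet (D n)) ∧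
    (∀ n, D n ⊆ (R.ch (p n)).source) ∧ Pairwise (Function.onFun Disjoint D) ∧
    ⋃ n, D n = Set.univ := by
  obtain ⟨S, hS, hU⟩ := TopologicalSpace.countable_cover_nhds (f := fun x : X => (R.ch x).source)
    fun x => (R.ch x).open_source.mem_nhds (R.mem_source x)
  have hne : S.Nonempty := by
    obtain ⟨x⟩ := ‹Nonempty X›
    have hx : x ∈ ⋃ x ∈ S, (R.ch x).source := hU ▸ Set.mem_univ x
    obtain ⟨y, hy, -⟩ := Set.mem_iUnion₂.mp hx
    exact ⟨y, hy⟩
  obtain ⟨p, rfl⟩ := hS.exists_eq_range hne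
  refine ⟨p, disjointed fun n => (R.ch (p n)).source,
    MeasurableSet.disjointed fun n => (R.ch (p n)).open_source.measurableSet,
    fun n => disjointed_subset _ n, disjoint_disjointed _, ?_⟩
  rw [iUnion_disjointed, ← hU, Set.biUnion_range]

omit [Fintype ι] [T2Space X] [SecondCountableTopology X] [MeasurableSpace X] [BorelSpace X] in
theorem meas_sec_pi (p : X) {x : X} (hx : x ∈ (R.ch p).source) : R.sec p (R.π x) = x := by
  rw [← R.coe_ch p]
  exact (R.ch p).left_inv hx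

omit [Fintype ι] [T2Space X] [SecondCountableTopology X] [MeasurableSpace X] [BorelSpace X] in
theorem meas_pi_sec (p : X) {q : ι → ℂ} (hq : q ∈ (R.ch p).target) : R.π (R.sec p q) = q := by
  rw [← R.coe_ch p]
  exact (R.ch p).right_inv hq

omit [Fintype ι] [T2Space X] [SecondCountableTopology X] [MeasurableSpace X] [BorelSpace X] in
theorem meas_pi_mem (p : X) {x : X} (hx : x ∈ (R.ch p).source) : R.π x ∈ (R.ch p).target := by
  rw [← R.coe_ch p]
  exact (R.ch p).map_source hx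

omit [T2Space X] [SecondCountableTopology X] in
theorem meas_emb (p : X) : MeasurableEmbedding fun q : (R.ch p).target => R.sec p q :=
  (R.ch p).symm.isOpenEmbedding_restrict.measurableEmbedding

omit [T2Space X] [SecondCountableTopology X] in
theorem meas_pi : Measurable R.π := R.loc.continuous.measurable

omit [T2Space X] [SecondCountableTopology X] in
theorem meas_fibre (q : ι → ℂ) : MeasurableSet (R.π ⁻¹' {q}) :=
  R.meas_pi (measurableSet_singleton q)

/-- the image of a measurable subset of a chart is measurable (the chart restricted to its source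
is an open embedding: `OpenPartialHomeomorph.toHomeomorphSourceTarget`, or
`MeasurableSet.image_of_continuousOn_injOn`-like lemmas) -/
theorem measurableSet_image (p : X) {s : Set X} (hs : MeasurableSet s)
    (h : s ⊆ (R.ch p).source) : MeasurableSet (R.π '' s) := by
  have h1 := (R.ch p).isOpenEmbedding_restrict.measurableEmbedding.measurableSet_image.mpr
    (measurable_subtype_coe hs)
  have h2 : (R.ch p).source.domRestrict (R.ch p) '' (Subtype.val ⁻¹' s) = R.π '' s := by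
    ext q
    constructor
    · rintro ⟨x, hx, rfl⟩
      exact ⟨x, hx, by rw [← R.coe_ch p]; rfl⟩
    · rintro ⟨x, hx, rfl⟩
      exact ⟨⟨x, h hx⟩, hx, by rw [← R.coe_ch p]; rfl⟩
  rwa [h2] at h1

omit [Fintype ι] [SecondCountableTopology X] in
theorem meas_count (p : X) {s : Set X} (h : s ⊆ (R.ch p).source) (q : ι → ℂ) :
    (Measure.count : Measure X) (s ∩ R.π ⁻¹' {q}) = (R.π '' s).indicator 1 q := by
  by_cases hq : q ∈ R.π '' s
  · obtain ⟨x, hx, rfl⟩ := id hq
    have h1 : s ∩ R.π ⁻¹' {R.π x} = {x} := by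
      refine Set.eq_singleton_iff_unique_mem.mpr ⟨⟨hx, rfl⟩, fun y hy => ?_⟩
      have h2 : R.π y = R.π x := hy.2
      rw [← R.meas_sec_pi p (h hy.1), h2, R.meas_sec_pi p (h hx)]
    rw [h1, Measure.count_singleton, Set.indicator_of_mem hq, Pi.one_apply]
  · have h1 : s ∩ R.π ⁻¹' {q} = ∅ :=
      Set.eq_empty_of_forall_notMem fun x hx => hq ⟨x, hx.1, hx.2⟩
    rw [h1, measure_empty, Set.indicator_of_notMem hq]

/-- `count (s ∩ fibre q) = ∑' n, indicator (π '' (s ∩ D n)) 1 q`;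
`Measure.measurable_of_measurable_coe` -/
theorem measurable_fib :
    Measurable fun q : ι → ℂ => (Measure.count : Measure X).restrict (R.π ⁻¹' {q}) := by
  refine Measure.measurable_of_measurable_coe _ fun s hs => ?_
  rcases isEmpty_or_nonempty X with hX | hX
  · rw [Set.eq_empty_of_isEmpty s]
    simp only [measure_empty, measurable_const]
  obtain ⟨p, D, hD, hsub, hdis, hU⟩ := R.exists_pieces
  have h1 : (fun q : ι → ℂ => (Measure.count : Measure X).restrict (R.π ⁻¹' {q}) s)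
      = fun q => ∑' n, (R.π '' (s ∩ D n)).indicator 1 q := by
    funext q
    have h2 : s ∩ R.π ⁻¹' {q} = ⋃ n, (s ∩ D n) ∩ R.π ⁻¹' {q} := by
      rw [← Set.iUnion_inter, ← Set.inter_iUnion, hU, Set.inter_univ]
    rw [Measure.restrict_apply hs, h2, measure_iUnion]
    · exact tsum_congr fun n => R.meas_count (p n) (Set.inter_subset_right.trans (hsub n)) q
    · exact hdis.mono fun i j hij => hij.mono (Set.inter_subset_left.trans Set.inter_subset_right)
        (Set.inter_subset_left.trans Set.inter_subset_right)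
    · exact fun n => (hs.inter (hD n)).inter (R.meas_fibre q)
  rw [h1]
  exact Measurable.tsum fun n => measurable_one.indicator
    (R.measurableSet_image (p n) (hs.inter (hD n)) (Set.inter_subset_right.trans (hsub n)))

theorem mu_apply_chart (p : X) {s : Set X} (hs : MeasurableSet s) (h : s ⊆ (R.ch p).source) :
    R.mu s = volume (R.π '' s) := by
  rw [mu, Measure.bind_apply hs R.measurable_fib.aemeasurable,
    ← lintegral_indicator_one (R.measurableSet_image p hs h)]
  exact lintegral_congr fun q => by rw [Measure.restrict_apply hs, R.meas_count p h]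

theorem meas_map (p : X) :
    Measure.map (fun q : (R.ch p).target => R.sec p q) (Measure.comap Subtype.val volume)
      = R.mu.restrict (R.ch p).source := by
  ext s hs
  have hT := (R.ch p).open_target.measurableSet
  rw [Measure.restrict_apply hs, (R.meas_emb p).map_apply,
    (MeasurableEmbedding.subtype_coe hT).comap_apply,
    R.mu_apply_chart p (hs.inter (R.ch p).open_source.measurableSet) Set.inter_subset_right]
  congr 1
  ext q
  constructor
  · rintro ⟨q, hq, rfl⟩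
    exact ⟨R.sec p q, ⟨hq, (R.ch p).map_target q.2⟩, R.meas_pi_sec p q.2⟩
  · rintro ⟨x, hx, rfl⟩
    refine ⟨⟨R.π x, R.meas_pi_mem p hx.2⟩, ?_, rfl⟩
    show R.sec p (R.π x) ∈ s
    rw [R.meas_sec_pi p hx.2]
    exact hx.1

/-- `Measure.lintegral_bind`, `lintegral_count`-like lemmas (`lintegral_countable` on the countable
fibre, or `lintegral_subtype_comap`) -/
theorem lintegral_mu {F : X → ℝ≥0∞} (hF : Measurable F) :
    ∫⁻ x, F x ∂(R.mu) = ∫⁻ q, ∑' x : R.π ⁻¹' {q}, F x := by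
  rw [mu, Measure.lintegral_bind R.measurable_fib.aemeasurable hF.aemeasurable]
  refine lintegral_congr fun q => ?_
  rw [← lintegral_indicator (R.meas_fibre q), lintegral_count, tsum_subtype]

/-- The chart is a measure preserving measurable equivalence between the subtypes. -/
theorem lintegral_chart (p : X) (F : X → ℝ≥0∞) :
    ∫⁻ x in (R.ch p).source, F x ∂(R.mu) = ∫⁻ q in (R.ch p).target, F (R.sec p q) := by
  rw [← R.meas_map p, (R.meas_emb p).lintegral_map]
  exact lintegral_subtype_comap (R.ch p).open_target.measurableSet fun q => F (R.sec p q)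

theorem integral_chart (p : X) (f : X → ℂ) :
    ∫ x in (R.ch p).source, f x ∂(R.mu) = ∫ q in (R.ch p).target, f (R.sec p q) := by
  rw [← R.meas_map p, (R.meas_emb p).integral_map]
  exact integral_subtype_comap (R.ch p).open_target.measurableSet fun q => f (R.sec p q)

theorem aesm_chart (p : X) (f : X → ℂ) :
    AEStronglyMeasurable f (R.mu.restrict (R.ch p).source) ↔
      AEStronglyMeasurable (fun q => f (R.sec p q)) (volume.restrict (R.ch p).target) := by
  have hT := (R.ch p).open_target.measurableSet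
  rw [← R.meas_map p, (R.meas_emb p).aestronglyMeasurable_map_iff, ← map_comap_subtype_coe hT,
    (MeasurableEmbedding.subtype_coe hT).aestronglyMeasurable_map_iff]
  rfl

theorem aesm_push (p : X) {f : X → ℂ} (hf : AEStronglyMeasurable f R.mu) :
    AEStronglyMeasurable (R.push p f) volume := by
  rw [push, aestronglyMeasurable_indicator_iff (R.ch p).open_target.measurableSet]
  exact (R.aesm_chart p f).mp hf.restrict

theorem integral_pull (p : X) (g : (ι → ℂ) → ℂ) :
    ∫ x, R.pull p g x ∂(R.mu) = ∫ q in (R.ch p).target, g q := by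
  rw [pull, integral_indicator (R.ch p).open_source.measurableSet, R.integral_chart p]
  exact setIntegral_congr_fun (R.ch p).open_target.measurableSet fun q hq => by
    simp only [R.meas_pi_sec p hq]

theorem integral_push (p : X) (f : X → ℂ) :
    ∫ q, R.push p f q = ∫ x in (R.ch p).source, f x ∂(R.mu) := by
  rw [push, integral_indicator (R.ch p).open_target.measurableSet, R.integral_chart p]

theorem meas_eLpNorm (p : X) (f : X → ℂ) :
    eLpNorm f 2 (R.mu.restrict (R.ch p).source)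
      = eLpNorm (fun q => f (R.sec p q)) 2 (volume.restrict (R.ch p).target) := by
  have hT := (R.ch p).open_target.measurableSet
  rw [← R.meas_map p, (R.meas_emb p).eLpNorm_map_measure, ← map_comap_subtype_coe hT,
    (MeasurableEmbedding.subtype_coe hT).eLpNorm_map_measure]
  rfl

theorem eLpNorm_pull_le (p : X) (g : (ι → ℂ) → ℂ) :
    eLpNorm (R.pull p g) 2 R.mu ≤ eLpNorm g 2 volume := by
  rw [pull, eLpNorm_indicator_eq_eLpNorm_restrict (R.ch p).open_source.measurableSet,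
    R.meas_eLpNorm p]
  refine le_of_eq_of_le (eLpNorm_congr_ae ?_) (eLpNorm_restrict_le g 2 volume (R.ch p).target)
  filter_upwards [ae_restrict_mem (R.ch p).open_target.measurableSet] with q hq
  rw [R.meas_pi_sec p hq]

theorem eLpNorm_push_le (p : X) (f : X → ℂ) :
    eLpNorm (R.push p f) 2 volume ≤ eLpNorm f 2 R.mu := by
  rw [push, eLpNorm_indicator_eq_eLpNorm_restrict (R.ch p).open_target.measurableSet,
    ← R.meas_eLpNorm p]
  exact eLpNorm_restrict_le f 2 R.mu _

theorem isLocallyFiniteMeasure : IsLocallyFiniteMeasure R.mu := by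
  refine ⟨fun p => ?_⟩
  have ho : IsOpen ((R.ch p).source ∩ R.π ⁻¹' Metric.ball (R.π p) 1) :=
    (R.ch p).open_source.inter (Metric.isOpen_ball.preimage R.loc.continuous)
  refine ⟨_, ho.mem_nhds ⟨R.mem_source p, Metric.mem_ball_self one_pos⟩, ?_⟩
  rw [R.mu_apply_chart p ho.measurableSet Set.inter_subset_left]
  refine lt_of_le_of_lt (measure_mono ?_) (measure_ball_lt_top (x := R.π p) (r := 1))
  rintro _ ⟨x, hx, rfl⟩
  exact hx.2

theorem isOpenPosMeasure : R.mu.IsOpenPosMeasure := by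
  refine ⟨fun U hU ⟨p, hp⟩ h0 => ?_⟩
  have ho : IsOpen (U ∩ (R.ch p).source) := hU.inter (R.ch p).open_source
  have h1 : R.mu (U ∩ (R.ch p).source) = 0 := measure_mono_null Set.inter_subset_left h0
  rw [R.mu_apply_chart p ho.measurableSet Set.inter_subset_right] at h1
  exact ((R.loc.isOpenMap _ ho).measure_pos volume ⟨_, p, ⟨hp, R.mem_source p⟩, rfl⟩).ne' h1

omit [T2Space X] [SecondCountableTopology X] [MeasurableSpace X] [BorelSpace X] in
theorem locallyCompactSpace (R : RD ι X) : LocallyCompactSpace X := by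
  refine ⟨fun x n hn => ?_⟩
  have hx := R.mem_source x
  have hq := (R.ch x).map_source hx
  have h1 : (R.ch x).target ∩ (R.ch x).symm ⁻¹' n ∈ 𝓝 (R.ch x x) := by
    refine inter_mem ((R.ch x).open_target.mem_nhds hq) ?_
    refine ((R.ch x).continuousAt_symm hq).preimage_mem_nhds ?_
    rwa [(R.ch x).left_inv hx]
  obtain ⟨K, hK, hKs, hKc⟩ := local_compact_nhds h1
  refine ⟨(R.ch x).symm '' K, ?_, ?_, ?_⟩
  · have h2 := (R.ch x).symm.image_mem_nhds hq hK
    rwa [(R.ch x).left_inv hx] at h2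
  · rintro _ ⟨q, hq', rfl⟩
    exact (hKs hq').2
  · exact hKc.image_of_continuousOn
      ((R.ch x).continuousOn_symm.mono (hKs.trans Set.inter_subset_left))

theorem ae_of_ae_base {P : (ι → ℂ) → Prop} (h : ∀ᵐ q, P q) : ∀ᵐ x ∂(R.mu), P (R.π x) := by
  obtain ⟨N, hsub, hN, h0⟩ := exists_measurable_superset_of_null (ae_iff.mp h)
  refine ae_iff.mpr (measure_mono_null (t := R.π ⁻¹' N) (fun x hx => hsub hx) ?_)
  rw [mu, Measure.bind_apply (R.meas_pi hN) R.measurable_fib.aemeasurable]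
  refine lintegral_eq_zero_of_ae_eq_zero ?_
  filter_upwards [measure_eq_zero_iff_ae_notMem.mp h0] with q hq
  have h1 : R.π ⁻¹' N ∩ R.π ⁻¹' {q} = ∅ := by
    refine Set.eq_empty_of_forall_notMem fun x hx => hq ?_
    have h2 : R.π x = q := hx.2
    exact h2 ▸ hx.1
  rw [Measure.restrict_apply (R.meas_pi hN), h1, measure_empty, Pi.zero_apply]

theorem ae_fibre {P : X → Prop} (h : ∀ᵐ x ∂(R.mu), P x) : ∀ᵐ q, ∀ x, R.π x = q → P x := by
  filter_upwards [Measure.ae_ae_of_ae_bind R.measurable_fib.aemeasurable h] with q hq x hx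
  rw [ae_restrict_iff' (R.meas_fibre q), Measure.ae_count_iff] at hq
  exact hq x hx

omit [Fintype ι] [T2Space X] in
theorem meas_countable (q : ι → ℂ) : (R.π ⁻¹' {q}).Countable := by
  rcases isEmpty_or_nonempty X with hX | hX
  · rw [Set.eq_empty_of_isEmpty (R.π ⁻¹' {q})]
    exact Set.countable_empty
  obtain ⟨p, D, -, hsub, -, hU⟩ := R.exists_pieces
  refine (Set.countable_range fun n => R.sec (p n) q).mono fun x hx => ?_
  obtain ⟨n, hn⟩ := Set.mem_iUnion.mp (hU ▸ Set.mem_univ x : x ∈ ⋃ n, D n)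
  have h2 : R.π x = q := hx
  exact ⟨n, by rw [← h2]; exact R.meas_sec_pi (p n) (hsub n hn)⟩

/-- Integration along the fibres.  Replace `f` by a measurable representative (`ae_fibre`); either
use `Measure.integral_comp`-like lemmas for kernels, or decompose along `exists_pieces`
(`hasSum_integral_iUnion`, `integral_tsum`). -/
theorem integral_fib {f : X → ℂ} (hf : Integrable f R.mu) :
    Integrable (fun q => ∑' x : R.π ⁻¹' {q}, f x) volume ∧
      ∫ x, f x ∂(R.mu) = ∫ q, ∑' x : R.π ⁻¹' {q}, f x := by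
  let κ : ProbabilityTheory.Kernel (ι → ℂ) X := ⟨_, R.measurable_fib⟩
  have h0 : R.mu = (κ.comp (ProbabilityTheory.Kernel.const Unit volume)) () :=
    Measure.comp_eq_comp_const_apply (κ := κ) (μ := volume)
  rw [h0] at hf ⊢
  have h1 := hf.integral_comp
  have h2 := ProbabilityTheory.Kernel.integral_comp hf
  have h3 := hf.ae_of_comp
  rw [ProbabilityTheory.Kernel.const_apply] at h1 h2 h3
  have h4 : (fun q => ∫ y, f y ∂κ q) =ᵐ[volume] fun q => ∑' x : R.π ⁻¹' {q}, f x := by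
    filter_upwards [h3] with q hq
    refine (setIntegral_countable f (R.meas_countable q) hq).trans (tsum_congr fun x => ?_)
    rw [Measure.real, Measure.count_singleton, ENNReal.toReal_one, one_smul]
  exact ⟨h1.congr h4, h2.trans (integral_congr_ae h4)⟩

/-- If the fibres have at most `d` points. -/
theorem lintegral_le_of_card {d : ℕ} (hd : ∀ q, (R.π ⁻¹' {q}).encard ≤ d) {F : X → ℝ≥0∞}
    {G : (ι → ℂ) → ℝ≥0∞} (hG : Measurable G) (h : ∀ᵐ x ∂(R.mu), F x ≤ G (R.π x)) :
    ∫⁻ x, F x ∂(R.mu) ≤ d * ∫⁻ q, G q := by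
  refine (lintegral_mono_ae h).trans ?_
  rw [R.lintegral_mu (F := fun x => G (R.π x)) (hG.comp R.meas_pi), ← lintegral_const_mul _ hG]
  refine lintegral_mono fun q => ?_
  have h1 : ∑' x : R.π ⁻¹' {q}, G (R.π x) = ∑' _ : R.π ⁻¹' {q}, G q :=
    tsum_congr fun x => congrArg G x.2
  have h2 : ((R.π ⁻¹' {q}).encard : ℝ≥0∞) ≤ d := by
    have := ENat.toENNReal_le.mpr (hd q)
    rwa [ENat.toENNReal_coe] at this
  simp only [h1, ENNReal.tsum_set_const]
  exact mul_le_mul_left h2 _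

/-- Area inequality.  Split `s` into `s ∩ Ψ ⁻¹' D n` (measurable by continuity on `s`); on each
piece `π ∘ Ψ` is injective; `lintegral_image_eq_lintegral_abs_det_fderiv_mul` with
`g = F ∘ sec (p n)`; `lintegral_chart` applied to indicators; `lintegral_iUnion`. -/
theorem area {s : Set (ι → ℂ)} (hs : MeasurableSet s) {Ψ : (ι → ℂ) → X} (hc : ContinuousOn Ψ s)
    (hi : Set.InjOn Ψ s) {f' : (ι → ℂ) → (ι → ℂ) →L[ℝ] (ι → ℂ)}
    (hf : ∀ q ∈ s, HasFDerivWithinAt (fun q => R.π (Ψ q)) (f' q) s q) (F : X → ℝ≥0∞) :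
    ∫⁻ q in s, ENNReal.ofReal |(f' q).det| * F (Ψ q) ≤ ∫⁻ x, F x ∂(R.mu) := by
  classical
  have hX : Nonempty X := ⟨Ψ 0⟩
  obtain ⟨p, D, hD, hsub, hdis, hU⟩ := R.exists_pieces
  have hm : Measurable (s.piecewise Ψ fun _ => Ψ 0) :=
    hc.measurable_piecewise continuousOn_const hs
  have hP : ∀ n, MeasurableSet (s ∩ Ψ ⁻¹' D n) := by
    intro n
    have h1 : s ∩ Ψ ⁻¹' D n = s ∩ (s.piecewise Ψ fun _ => Ψ 0) ⁻¹' D n := by
      ext q
      refine and_congr_right fun hq => ?_
      rw [Set.mem_preimage, Set.mem_preimage, Set.piecewise_eq_of_mem _ _ _ hq]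
    rw [h1]
    exact hs.inter (hm (hD n))
  have h2 : s = ⋃ n, s ∩ Ψ ⁻¹' D n := by
    rw [← Set.inter_iUnion, ← Set.preimage_iUnion, hU, Set.preimage_univ, Set.inter_univ]
  have h3 : Pairwise (Function.onFun Disjoint fun n => s ∩ Ψ ⁻¹' D n) :=
    hdis.mono fun i j hij => (hij.preimage Ψ).mono Set.inter_subset_right Set.inter_subset_right
  rw [← setLIntegral_univ F, ← hU, lintegral_iUnion hD hdis]
  refine le_of_eq_of_le (congrArg (fun t => ∫⁻ q in t, ENNReal.ofReal |(f' q).det| * F (Ψ q)) h2) ?_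
  rw [lintegral_iUnion hP h3]
  refine ENNReal.tsum_le_tsum fun n => ?_
  have hinj : Set.InjOn (fun q => R.π (Ψ q)) (s ∩ Ψ ⁻¹' D n) := by
    intro a ha b hb hab
    refine hi ha.1 hb.1 ?_
    have h4 : R.π (Ψ a) = R.π (Ψ b) := hab
    rw [← R.meas_sec_pi (p n) (hsub n ha.2), h4, R.meas_sec_pi (p n) (hsub n hb.2)]
  have h5 := lintegral_image_eq_lintegral_abs_det_fderiv_mul volume (hP n)
    (fun q hq => (hf q hq.1).mono Set.inter_subset_left) hinj
    fun y => (D n).indicator F (R.sec (p n) y)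
  calc ∫⁻ q in s ∩ Ψ ⁻¹' D n, ENNReal.ofReal |(f' q).det| * F (Ψ q)
      = ∫⁻ q in s ∩ Ψ ⁻¹' D n,
          ENNReal.ofReal |(f' q).det| * (D n).indicator F (R.sec (p n) (R.π (Ψ q))) :=
        setLIntegral_congr_fun (hP n) fun q hq => by
          have h6 : Ψ q ∈ D n := hq.2
          simp only [R.meas_sec_pi (p n) (hsub n h6), Set.indicator_of_mem h6]
    _ ≤ ∫⁻ y in (R.ch (p n)).target, (D n).indicator F (R.sec (p n) y) := by
        rw [← h5]
        refine lintegral_mono_set ?_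
        rintro _ ⟨q, hq, rfl⟩
        exact R.meas_pi_mem (p n) (hsub n hq.2)
    _ ≤ ∫⁻ x in D n, F x ∂(R.mu) := by
        rw [← R.lintegral_chart (p n), ← lintegral_indicator (hD n)]
        exact setLIntegral_le_lintegral _ _

end RD

/-- the real determinant of a complex linear map (`LinearMap.det_restrictScalars`,
`Algebra.norm_complex_apply`) -/
theorem det_real {ι : Type} [Fintype ι] [DecidableEq ι] (J : Matrix ι ι ℂ)
    (f : (ι → ℂ) →L[ℝ] (ι → ℂ)) (hf : ∀ w i, f w i = ∑ l, w l * J l i) :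
    f.det = ‖J.det‖ ^ 2 := by
  have h1 : (f : (ι → ℂ) →ₗ[ℝ] (ι → ℂ)) = (Matrix.toLin' J.transpose).restrictScalars ℝ := by
    ext w i
    all_goals
      simp only [ContinuousLinearMap.coe_coe, LinearMap.coe_comp, Function.comp_apply, hf,
        LinearMap.coe_restrictScalars, Matrix.toLin'_apply, Matrix.mulVec, dotProduct,
        Matrix.transpose_apply, mul_comm]
  rw [ContinuousLinearMap.det, h1, LinearMap.det_restrictScalars, LinearMap.det_toLin',
    Matrix.det_transpose, Algebra.norm_complex_apply, Complex.normSq_eq_norm_sq]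

theorem meas_ae_fin : ∀ (n : ℕ) (b : MvPolynomial (Fin n) ℂ), b ≠ 0 →
    ∀ᵐ q : Fin n → ℂ, MvPolynomial.eval q b ≠ 0 := by
  intro n
  induction n with
  | zero =>
    intro b hb
    refine Eventually.of_forall fun q h => hb ?_
    refine MvPolynomial.funext fun x => ?_
    rw [Subsingleton.elim x q, h, map_zero]
  | succ n ih =>
    intro b hb
    have hP : MvPolynomial.finSuccEquiv ℂ n b ≠ 0 := by simpa using hb
    have hL := ih _ (Polynomial.leadingCoeff_ne_zero.mpr hP)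
    have hpres := (volume_preserving_piFinSuccAbove (fun _ : Fin (n + 1) => ℂ) 0).symm
    have hmeas : MeasurableSet {q : Fin (n + 1) → ℂ | MvPolynomial.eval q b ≠ 0} :=
      (isOpen_ne_fun (MvPolynomial.continuous_eval b) continuous_const).measurableSet
    rw [← hpres.map_eq, ae_map_iff hpres.aemeasurable hmeas, Measure.volume_eq_prod,
      ← Measure.prod_swap]
    refine (ae_map_iff measurable_swap.aemeasurable (hpres.measurable hmeas)).mpr ?_
    refine (Measure.ae_prod_iff_ae_ae (measurable_swap (hpres.measurable hmeas))).mpr ?_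
    filter_upwards [hL] with s hs
    have hQ : Polynomial.map (MvPolynomial.eval s) (MvPolynomial.finSuccEquiv ℂ n b) ≠ 0 := by
      intro h0
      apply hs
      have h1 := congrArg (fun P => Polynomial.coeff P (MvPolynomial.finSuccEquiv ℂ n b).natDegree)
        h0
      simpa only [Polynomial.coeff_map, Polynomial.coeff_zero, Polynomial.leadingCoeff] using h1
    have hfin := (Polynomial.finite_setOfPred_isRoot hQ).countable.ae_notMem volume
    filter_upwards [hfin] with y hy h0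
    apply hy
    show Polynomial.eval y _ = 0
    rw [← MvPolynomial.eval_eq_eval_mv_eval', ← h0]
    congr 2
    simp
    rfl

/-- the zero set of a nonzero polynomial is null (induction on the number of variables and Fubini,
or `MvPolynomial.funext`-like arguments; look for an existing lemma first) -/
theorem ae_eval_ne {ι : Type} [Fintype ι] {b : MvPolynomial ι ℂ} (hb : b ≠ 0) :
    ∀ᵐ q : ι → ℂ, MvPolynomial.eval q b ≠ 0 := by
  have hpres := volume_measurePreserving_piCongrLeft (fun _ : ι => ℂ) (Fintype.equivFin ι).symm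
  have hb' : MvPolynomial.rename (Fintype.equivFin ι) b ≠ 0 := fun h =>
    hb (MvPolynomial.rename_injective _ (Fintype.equivFin ι).injective (h.trans (map_zero _).symm))
  have hmeas : MeasurableSet {q : ι → ℂ | MvPolynomial.eval q b ≠ 0} :=
    (isOpen_ne_fun (MvPolynomial.continuous_eval b) continuous_const).measurableSet
  rw [← hpres.map_eq, ae_map_iff hpres.aemeasurable hmeas]
  filter_upwards [meas_ae_fin _ _ hb'] with q hq h0
  apply hq
  rw [MvPolynomial.eval_rename, ← h0]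
  congr 2
  funext i
  simp [MeasurableEquiv.piCongrLeft, Equiv.piCongrLeft_apply_eq_cast]

end Pool.Agent.MP_c0606f_ag.Klt

end

-- part MP_c0606f_ag.Klt.Ibp
section

/-! Cut-off functions, partitions of unity, integration by parts. -/

namespace Pool.Agent.MP_c0606f_ag.Klt

open MeasureTheory Complex Filter Topology
open scoped ENNReal ContDiff ComplexConjugate

section Flat

variable {ι : Type} [Fintype ι] [DecidableEq ι] {f : (ι → ℂ) → ℂ}

omit [DecidableEq ι] in
theorem ibp_flat (hf : FTest f) (v : ι → ℂ) :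
    Integrable (fun q => fderiv ℝ f q v) ∧ ∫ q, fderiv ℝ f q v = 0 := by
  have h1 : Integrable fun q => fderiv ℝ f q v :=
    ((hf.1.continuous_fderiv (by simp)).clm_apply continuous_const).integrable_of_hasCompactSupport
      (hf.2.fderiv_apply ℝ v)
  have h2 : Integrable f := hf.1.continuous.integrable_of_hasCompactSupport hf.2
  have h3 := integral_mul_fderiv_eq_neg_fderiv_mul_of_integrable (μ := volume)
    (f := fun _ : ι → ℂ => (1 : ℂ)) (g := f) (v := v) (by simp) (by simpa using h1)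
    (by simpa using h2) (fun _ _ => differentiableAt_const _)
    fun x _ => hf.1.differentiable (by simp) x
  exact ⟨h1, by simpa using h3⟩

/-- `integral_bilinear_hasLineDerivAt_right_eq_neg_left_of_integrable` or
`integral_mul_fderiv_eq_neg_fderiv_mul_of_integrable` with one factor equal to `1`, or
`integral_fderiv_eq_zero`-like lemmas -/
theorem FTest.integral_fdz (hf : FTest f) (j : ι) : ∫ q, Klt.fdz j f q = 0 := by
  obtain ⟨a1, a2⟩ := ibp_flat hf (Pi.single j 1)
  obtain ⟨b1, b2⟩ := ibp_flat hf (Pi.single j I)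
  simp only [Klt.fdz]
  rw [integral_div, integral_sub a1 (b1.const_mul _), integral_const_mul, a2, b2]
  simp

theorem FTest.integral_fdb (hf : FTest f) (j : ι) : ∫ q, Klt.fdb j f q = 0 := by
  obtain ⟨a1, a2⟩ := ibp_flat hf (Pi.single j 1)
  obtain ⟨b1, b2⟩ := ibp_flat hf (Pi.single j I)
  simp only [Klt.fdb]
  rw [integral_div, integral_add a1 (b1.const_mul _), integral_const_mul, a2, b2]
  simp

end Flat

/-- a smooth cut-off on the real line -/
theorem exists_step {a b : ℝ} (h : a < b) : ∃ (χ : ℝ → ℝ) (B : ℝ), ContDiff ℝ ∞ χ ∧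
    (∀ t, t ≤ a → χ t = 1) ∧ (∀ t, b ≤ t → χ t = 0) ∧ (∀ t, 0 ≤ χ t ∧ χ t ≤ 1) ∧
    (∀ t, |deriv χ t| ≤ B) ∧ ∀ t, t ≤ a ∨ b ≤ t → deriv χ t = 0 := by
  have hab : 0 < b - a := sub_pos.2 h
  set χ : ℝ → ℝ := fun t => Real.smoothTransition ((b - t) / (b - a)) with hχ
  have hs : ContDiff ℝ ∞ χ :=
    Real.smoothTransition.contDiff.comp ((contDiff_const.sub contDiff_id).div_const _)
  have h1 : ∀ t, t ≤ a → χ t = 1 := fun t ht =>
    Real.smoothTransition.one_of_one_le ((one_le_div hab).2 (by linarith))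
  have h0 : ∀ t, b ≤ t → χ t = 0 := fun t ht =>
    Real.smoothTransition.zero_of_nonpos (div_nonpos_of_nonpos_of_nonneg (by linarith) hab.le)
  have h01 : ∀ t, 0 ≤ χ t ∧ χ t ≤ 1 := fun t =>
    ⟨Real.smoothTransition.nonneg _, Real.smoothTransition.le_one _⟩
  have hd : ∀ t, t ≤ a ∨ b ≤ t → deriv χ t = 0 := by
    rintro t (ht | ht)
    · exact IsLocalMax.deriv_eq_zero (Eventually.of_forall fun y => (h01 y).2.trans (h1 t ht).ge)
    · exact IsLocalMin.deriv_eq_zero (Eventually.of_forall fun y => (h0 t ht).le.trans (h01 y).1)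
  obtain ⟨B, hB⟩ := (isCompact_Icc (a := a) (b := b)).exists_bound_of_continuousOn
    (hs.continuous_deriv (by simp)).continuousOn
  refine ⟨χ, B, hs, h1, h0, h01, fun t => ?_, hd⟩
  by_cases ht : t ∈ Set.Icc a b
  · exact hB t ht
  · rw [hd t (by rcases not_and_or.1 ht with h' | h' <;> [left; right] <;> linarith [not_le.1 h']),
      abs_zero]
    exact (norm_nonneg _).trans (hB a ⟨le_rfl, h.le⟩)

namespace RD

variable {ι X : Type} [Fintype ι] [DecidableEq ι] [TopologicalSpace X] [T2Space X] {R : RD ι X}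
  {f g : X → ℂ}

omit [Fintype ι] [DecidableEq ι] [T2Space X] in
theorem ibp_pull_ev (p : X) (g : (ι → ℂ) → ℂ) {x : X} (hx : x ∈ (R.ch p).source) :
    R.pull p g =ᶠ[𝓝 x] fun y => g (R.π y) := by
  filter_upwards [(R.ch p).open_source.mem_nhds hx] with y hy
  exact Set.indicator_of_mem hy _

omit [Fintype ι] [DecidableEq ι] [T2Space X] in
theorem ibp_push_ev (p : X) (f : X → ℂ) {q : ι → ℂ} (hq : q ∈ (R.ch p).target) :
    R.push p f =ᶠ[𝓝 q] fun y => f (R.sec p y) := by
  filter_upwards [(R.ch p).open_target.mem_nhds hq] with y hy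
  exact Set.indicator_of_mem hy _

omit [Fintype ι] [DecidableEq ι] [T2Space X] in
theorem ibp_sec_sub (p : X) {s : Set (ι → ℂ)} (h : s ⊆ (R.ch p).target) :
    R.sec p '' s ⊆ (R.ch p).source := by
  rintro _ ⟨q, hq, rfl⟩
  exact (R.ch p).map_target (h hq)

omit [Fintype ι] [DecidableEq ι] [T2Space X] in
theorem ibp_pi_sub (p : X) {s : Set X} (h : s ⊆ (R.ch p).source) :
    R.π '' s ⊆ (R.ch p).target := by
  rintro _ ⟨q, hq, rfl⟩
  exact R.π_mem_target p (h hq)

omit [DecidableEq ι] in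
theorem test_pull (p : X) {g : (ι → ℂ) → ℂ} (hg : FTest g) (h : tsupport g ⊆ (R.ch p).target) :
    R.Test (R.pull p g) ∧ tsupport (R.pull p g) ⊆ R.sec p '' tsupport g := by
  have hK : IsCompact (R.sec p '' tsupport g) :=
    hg.2.isCompact.image_of_continuousOn ((R.ch p).continuousOn_symm.mono h)
  have h1 : tsupport (R.pull p g) ⊆ R.sec p '' tsupport g := by
    refine closure_minimal (fun x hx => ?_) hK.isClosed
    have hx1 : x ∈ (R.ch p).source := Set.mem_of_indicator_ne_zero hx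
    refine ⟨R.π x, subset_tsupport _ ?_, R.sec_π p hx1⟩
    rwa [Function.mem_support, pull, Set.indicator_of_mem hx1] at hx
  refine ⟨⟨sm_of_local fun x => ?_, hK.of_isClosed_subset (isClosed_tsupport _) h1⟩, h1⟩
  by_cases hx : x ∈ (R.ch p).source
  · exact ⟨_, Sm.comp_π hg.1, ibp_pull_ev p g hx⟩
  · exact ⟨_, Sm.const 0, notMem_tsupport_iff_eventuallyEq.1
      fun h2 => hx (ibp_sec_sub p h (h1 h2))⟩

theorem dz_pull (p : X) {g : (ι → ℂ) → ℂ} (hg : FTest g) (h : tsupport g ⊆ (R.ch p).target)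
    (j : ι) : R.dz j (R.pull p g) = R.pull p (fdz j g) := by
  funext x
  by_cases hx : x ∈ (R.ch p).source
  · rw [dz_congr j (ibp_pull_ev p g hx), dz_comp_π, pull, Set.indicator_of_mem hx]
  · rw [dz_eq_zero j fun h2 => hx (ibp_sec_sub p h ((test_pull p hg h).2 h2)), pull,
      Set.indicator_of_notMem hx]

theorem db_pull (p : X) {g : (ι → ℂ) → ℂ} (hg : FTest g) (h : tsupport g ⊆ (R.ch p).target)
    (j : ι) : R.db j (R.pull p g) = R.pull p (fdb j g) := by
  funext x
  by_cases hx : x ∈ (R.ch p).source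
  · rw [db_congr j (ibp_pull_ev p g hx), db_comp_π, pull, Set.indicator_of_mem hx]
  · rw [db_eq_zero j fun h2 => hx (ibp_sec_sub p h ((test_pull p hg h).2 h2)), pull,
      Set.indicator_of_notMem hx]

omit [DecidableEq ι] in
theorem Test.push (hf : R.Test f) (p : X) (h : tsupport f ⊆ (R.ch p).source) :
    FTest (R.push p f) ∧ tsupport (R.push p f) ⊆ R.π '' tsupport f := by
  have hK : IsCompact (R.π '' tsupport f) := hf.2.isCompact.image R.continuous_π
  have h1 : tsupport (R.push p f) ⊆ R.π '' tsupport f := by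
    refine closure_minimal (fun q hq => ?_) hK.isClosed
    have hq1 : q ∈ (R.ch p).target := Set.mem_of_indicator_ne_zero hq
    refine ⟨R.sec p q, subset_tsupport _ ?_, R.π_sec p hq1⟩
    rwa [Function.mem_support, RD.push, Set.indicator_of_mem hq1] at hq
  refine ⟨⟨contDiff_iff_contDiffAt.2 fun q => ?_,
    hK.of_isClosed_subset (isClosed_tsupport _) h1⟩, h1⟩
  by_cases hq : q ∈ (R.ch p).target
  · have h2 := hf.1.contDiffAt p (x := R.sec p q) ((R.ch p).map_target hq)
    rw [R.π_sec p hq] at h2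
    exact h2.congr_of_eventuallyEq (ibp_push_ev p f hq)
  · exact contDiffAt_const.congr_of_eventuallyEq (notMem_tsupport_iff_eventuallyEq.1
      fun h2 => hq (ibp_pi_sub p h (h1 h2)))

theorem Test.fdz_push (hf : R.Test f) (p : X) (h : tsupport f ⊆ (R.ch p).source) (j : ι) :
    fdz j (R.push p f) = R.push p (R.dz j f) := by
  funext q
  by_cases hq : q ∈ (R.ch p).target
  · rw [fdz_congr j (ibp_push_ev p f hq), RD.push, Set.indicator_of_mem hq,
      dz_eq j f p (x := R.sec p q) ((R.ch p).map_target hq), R.π_sec p hq]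
  · rw [fdz_congr j (notMem_tsupport_iff_eventuallyEq.1
      fun h2 => hq (ibp_pi_sub p h ((hf.push p h).2 h2))), RD.push, Set.indicator_of_notMem hq]
    exact calc_fdz_const j 0 q

theorem Test.fdb_push (hf : R.Test f) (p : X) (h : tsupport f ⊆ (R.ch p).source) (j : ι) :
    fdb j (R.push p f) = R.push p (R.db j f) := by
  funext q
  by_cases hq : q ∈ (R.ch p).target
  · rw [fdb_congr j (ibp_push_ev p f hq), RD.push, Set.indicator_of_mem hq,
      db_eq j f p (x := R.sec p q) ((R.ch p).map_target hq), R.π_sec p hq]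
  · rw [fdb_congr j (notMem_tsupport_iff_eventuallyEq.1
      fun h2 => hq (ibp_pi_sub p h ((hf.push p h).2 h2))), RD.push, Set.indicator_of_notMem hq]
    exact calc_fdb_const j 0 q

omit [DecidableEq ι] in
theorem ibp_bump (R : RD ι X) (x : X) : ∃ χ : X → ℂ, R.Test χ ∧ tsupport χ ⊆ (R.ch x).source ∧
    ∀ᶠ y in 𝓝 x, χ y = 1 := by
  obtain ⟨ε, hε, hb⟩ := Metric.nhds_basis_closedBall.mem_iff.1
    ((R.ch x).open_target.mem_nhds (R.π_mem_target x (R.mem_source x)))
  let b : ContDiffBump (R.π x) := ⟨ε / 2, ε, half_pos hε, half_lt_self hε⟩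
  have hg : FTest fun q => (b q : ℂ) :=
    ⟨ofRealCLM.contDiff.comp b.contDiff,
      b.hasCompactSupport.comp_left (g := fun t : ℝ => (t : ℂ)) ofReal_zero⟩
  have hs : tsupport (fun q => (b q : ℂ)) ⊆ (R.ch x).target := by
    refine subset_trans ?_ hb
    rw [show Metric.closedBall (R.π x) ε = tsupport b from b.tsupport_eq.symm]
    exact closure_mono fun q hq h0 => hq (by simp [h0])
  refine ⟨_, (test_pull x hg hs).1, (test_pull x hg hs).2.trans (ibp_sec_sub x hs), ?_⟩
  filter_upwards [ibp_pull_ev x (fun q => (b q : ℂ)) (R.mem_source x),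
    R.continuous_π.continuousAt.eventually b.eventuallyEq_one] with y h1 h2
  rw [h1, h2]
  simp

omit [DecidableEq ι] in
/-- Finite partitions of unity near a compact set.  For `x ∈ K` pull back a bump function
(`exists_contDiff_tsupport_subset` or `ContDiffBump`) `χ x` equal to `1` near `x`; take a finite
subcover and put `ψ i = χ i * ∏ j < i, (1 - χ j)`, so that `∑ ψ i = 1 - ∏ (1 - χ i)`. -/
theorem exists_partition (R : RD ι X) {K : Set X} (hK : IsCompact K) :
    ∃ (n : ℕ) (p : Fin n → X) (ψ : Fin n → X → ℂ), (∀ i, R.Test (ψ i)) ∧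
      (∀ i, tsupport (ψ i) ⊆ (R.ch (p i)).source) ∧ ∀ x ∈ K, ∀ᶠ y in 𝓝 x, ∑ i, ψ i y = 1 := by
  choose χ h1 h2 h3 using ibp_bump R
  obtain ⟨t, -, ht⟩ := hK.elim_nhds_subcover (fun x => {y | ∀ᶠ z in 𝓝 y, χ x z = 1})
    fun x _ => (h3 x).eventually_nhds
  let p : Fin t.card → X := fun i => t.equivFin.symm i
  refine ⟨t.card, p, fun i y => χ (p i) y * ∏ j ∈ Finset.univ with j < i, (1 - χ (p j) y),
    fun i => (h1 _).mul_right fun x => contDiffAt_prod fun j _ =>
      contDiffAt_const.sub ((h1 _).1 x), fun i => tsupport_mul_subset_left.trans (h2 _),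
    fun x hx => ?_⟩
  obtain ⟨z, hz, hxz⟩ := Set.mem_iUnion₂.1 (ht hx)
  filter_upwards [hxz] with y hy
  have h4 := Finset.prod_one_sub_ordered Finset.univ fun i => χ (p i) y
  rw [Finset.prod_eq_zero (Finset.mem_univ (t.equivFin ⟨z, hz⟩)) (by simp [p, hy])] at h4
  exact (sub_eq_zero.1 h4.symm).symm

variable [SecondCountableTopology X] [MeasurableSpace X] [BorelSpace X]

omit [DecidableEq ι] in
theorem Test.integrable (hf : R.Test f) : Integrable f R.mu := by
  have := R.isLocallyFiniteMeasure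
  exact hf.1.continuous.integrable_of_hasCompactSupport hf.2

omit [DecidableEq ι] in
theorem Test.memLp (hf : R.Test f) : MemLp f 2 R.mu := by
  have := R.isLocallyFiniteMeasure
  exact hf.1.continuous.memLp_of_hasCompactSupport hf.2

omit [DecidableEq ι] [T2Space X] in
theorem ibp_weight {u : X → ℂ} (hu : AEStronglyMeasurable u R.mu)
    {w : X → ℝ} (hw : Continuous w) (hw0 : ∀ x, 0 < w x)
    (h2 : ∫⁻ x, ENNReal.ofReal (‖u x‖ ^ 2 * w x) ∂(R.mu) < ⊤) :
    Integrable (fun x => ‖u x‖ ^ 2 * w x) R.mu :=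
  ⟨(hu.norm.pow 2).mul hw.aestronglyMeasurable, (hasFiniteIntegral_iff_ofReal
    (Eventually.of_forall fun x => mul_nonneg (sq_nonneg _) (hw0 x).le)).2 h2⟩

omit [DecidableEq ι] [T2Space X] [SecondCountableTopology X] [MeasurableSpace X] [BorelSpace X] in
theorem ibp_quot (hg : R.Test g) {w : X → ℝ} (hw : Continuous w) (hw0 : ∀ x, 0 < w x) :
    Continuous (fun x => ‖g x‖ ^ 2 / w x) ∧ HasCompactSupport fun x => ‖g x‖ ^ 2 / w x :=
  ⟨(hg.1.continuous.norm.pow 2).div hw fun x => (hw0 x).ne',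
    hg.2.mono fun x hx h0 => hx (by simp [h0])⟩

omit [DecidableEq ι] in
/-- `w` continuous and positive is bounded below on the support of `g`; on a set of finite measure
`L²` is contained in `L¹` -/
theorem Test.integrable_mul (hg : R.Test g) {u : X → ℂ} (hu : AEStronglyMeasurable u R.mu)
    {w : X → ℝ} (hw : Continuous w) (hw0 : ∀ x, 0 < w x)
    (h2 : ∫⁻ x, ENNReal.ofReal (‖u x‖ ^ 2 * w x) ∂(R.mu) < ⊤) :
    Integrable (fun x => u x * g x) R.mu := by
  have := R.isLocallyFiniteMeasure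
  obtain ⟨h3, h4⟩ := ibp_quot hg hw hw0
  refine ((ibp_weight hu hw hw0 h2).add (h3.integrable_of_hasCompactSupport h4)).mono'
    (hu.mul hg.1.continuous.aestronglyMeasurable) (Eventually.of_forall fun x => ?_)
  have h5 := hw0 x
  rw [norm_mul, Pi.add_apply, ← sub_le_iff_le_add', le_div_iff₀ h5]
  nlinarith [sq_nonneg (‖u x‖ * w x - ‖g x‖), sq_nonneg (‖u x‖ * w x), sq_nonneg ‖g x‖]

omit [DecidableEq ι] in
theorem Test.memLp_mul (hg : R.Test g) {u : X → ℂ} (hu : AEStronglyMeasurable u R.mu)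
    {w : X → ℝ} (hw : Continuous w) (hw0 : ∀ x, 0 < w x)
    (h2 : ∫⁻ x, ENNReal.ofReal (‖u x‖ ^ 2 * w x) ∂(R.mu) < ⊤) :
    MemLp (fun x => u x * g x) 2 R.mu := by
  obtain ⟨h3, h4⟩ := ibp_quot hg hw hw0
  obtain ⟨C, hC⟩ := h3.bounded_above_of_compact_support h4
  have h6 := hu.mul hg.1.continuous.aestronglyMeasurable
  refine (memLp_two_iff_integrable_sq_norm h6).2
    (((ibp_weight hu hw hw0 h2).const_mul C).mono' (h6.norm.pow 2)
      (Eventually.of_forall fun x => ?_))
  have h5 := (div_le_iff₀ (hw0 x)).1 ((le_abs_self _).trans (hC x))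
  rw [Real.norm_of_nonneg (sq_nonneg _), Pi.mul_apply, norm_mul, mul_pow, mul_left_comm]
  exact mul_le_mul_of_nonneg_left h5 (sq_nonneg _)

omit [DecidableEq ι] in
theorem ibp_zero {D : (X → ℂ) → X → ℂ} (h1 : ∀ {f}, R.Test f → R.Test (D f))
    (h2 : ∀ {f p}, p ∉ tsupport f → D f p = 0)
    (h3 : ∀ {n : ℕ} {f : Fin n → X → ℂ}, (∀ i, R.Sm (f i)) → ∀ p,
      D (fun x => ∑ i, f i x) p = ∑ i, D (f i) p)
    (h4 : ∀ {f}, R.Test f → ∀ p, tsupport f ⊆ (R.ch p).source → ∫ q, R.push p (D f) q = 0)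
    (hf : R.Test f) : ∫ x, D f x ∂(R.mu) = 0 := by
  obtain ⟨n, p, ψ, k1, k2, k3⟩ := R.exists_partition hf.2.isCompact
  have e : f = fun x => ∑ i, ψ i x * f x := by
    funext x
    rw [← Finset.sum_mul]
    by_cases hx : x ∈ tsupport f
    · rw [(k3 x hx).self_of_nhds, one_mul]
    · rw [image_eq_zero_of_notMem_tsupport hx, mul_zero]
  have k4 : ∀ i, R.Test fun x => ψ i x * f x := fun i => (k1 i).mul_right hf.1
  rw [e]
  simp only [h3 fun i => (k4 i).1]
  rw [integral_finsetSum _ fun i _ => (h1 (k4 i)).integrable]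
  refine Finset.sum_eq_zero fun i _ => ?_
  have k5 : tsupport (fun x => ψ i x * f x) ⊆ (R.ch (p i)).source :=
    tsupport_mul_subset_left.trans (k2 i)
  rw [← h4 (k4 i) (p i) k5, R.integral_push]
  exact (setIntegral_eq_integral_of_forall_compl_eq_zero fun x hx => h2 fun h => hx (k5 h)).symm

theorem Test.integral_dz (hf : R.Test f) (j : ι) : ∫ x, R.dz j f x ∂(R.mu) = 0 := by
  exact ibp_zero (D := R.dz j) (fun h => h.dz j) (dz_eq_zero j)
    (fun h p => dz_sum j _ (fun i _ => h i) p)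
    (fun h p hp => by rw [← h.fdz_push p hp j]; exact (h.push p hp).1.integral_fdz j) hf

theorem Test.integral_db (hf : R.Test f) (j : ι) : ∫ x, R.db j f x ∂(R.mu) = 0 := by
  exact ibp_zero (D := R.db j) (fun h => h.db j) (db_eq_zero j)
    (fun h p => db_sum j _ (fun i _ => h i) p)
    (fun h p hp => by rw [← h.fdb_push p hp j]; exact (h.push p hp).1.integral_fdb j) hf

theorem ibp_dz (hf : R.Sm f) (hg : R.Test g) (j : ι) :
    ∫ x, f x * R.dz j g x ∂(R.mu) = -∫ x, R.dz j f x * g x ∂(R.mu) := by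
  have h := (hg.mul_left hf).integral_dz j
  simp only [dz_mul j hf hg.1] at h
  rw [integral_add (hg.mul_left (hf.dz j)).integrable ((hg.dz j).mul_left hf).integrable] at h
  linear_combination h

theorem ibp_db (hf : R.Sm f) (hg : R.Test g) (j : ι) :
    ∫ x, f x * R.db j g x ∂(R.mu) = -∫ x, R.db j f x * g x ∂(R.mu) := by
  have h := (hg.mul_left hf).integral_db j
  simp only [db_mul j hf hg.1] at h
  rw [integral_add (hg.mul_left (hf.db j)).integrable ((hg.db j).mul_left hf).integrable] at h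
  linear_combination h

omit [SecondCountableTopology X] [MeasurableSpace X] [BorelSpace X] in
theorem ibp_test_del {φ : X → ℝ} (hφ : R.SmR φ) {α : ι → X → ℂ} (hα : ∀ j, R.Test (α j)) :
    R.Test (R.del φ α) :=
  Test.sum _ fun j _ => ((hα j).dz j).sub ((hα j).mul_left (Sm.dz hφ j))

/-- the adjoint of `∂bar` -/
theorem ibp_del {φ : X → ℝ} (hφ : R.SmR φ) {α : ι → X → ℂ} (hα : ∀ j, R.Test (α j))
    (hg : R.Sm g) :
    ∫ x, (∑ j, α j x * R.dz j g x) * (Real.exp (-φ x) : ℝ) ∂(R.mu) =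
      -∫ x, R.del φ α x * g x * (Real.exp (-φ x) : ℝ) ∂(R.mu) := by
  have he : R.Sm fun x => ((Real.exp (-φ x) : ℝ) : ℂ) :=
    hφ.comp (γ := fun t => Real.exp (-t)) fun x => by fun_prop
  have hd : ∀ j x, R.dz j (fun x => ((Real.exp (-φ x) : ℝ) : ℂ)) x =
      -((Real.exp (-φ x) : ℝ) : ℂ) * R.dz j (fun x => (φ x : ℂ)) x := fun j x => by
    rw [dz_comp j hφ (γ := fun t => Real.exp (-t)) (by fun_prop),
      (hasDerivAt_neg' (φ x)).exp.deriv]
    simp
  have h1 : ∀ j, R.Test fun x => α j x * g x * ((Real.exp (-φ x) : ℝ) : ℂ) := fun j =>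
    ((hα j).mul_right hg).mul_right he
  have h2 : ∫ x, ∑ j, R.dz j (fun x => α j x * g x * ((Real.exp (-φ x) : ℝ) : ℂ)) x ∂(R.mu) = 0 := by
    rw [integral_finsetSum _ fun j _ => ((h1 j).dz j).integrable]
    exact Finset.sum_eq_zero fun j _ => (h1 j).integral_dz j
  rw [eq_neg_iff_add_eq_zero, ← integral_add
    ((Test.sum _ fun j _ => (hα j).mul_right (hg.dz j)).mul_right he).integrable
    (((ibp_test_del hφ hα).mul_right hg).mul_right he).integrable, ← h2]
  refine integral_congr_ae (Eventually.of_forall fun x => ?_)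
  simp only [del, Finset.sum_mul, ← Finset.sum_add_distrib]
  refine Finset.sum_congr rfl fun j _ => ?_
  rw [dz_mul j ((hα j).1.mul hg) he, dz_mul j (hα j).1 hg, hd]
  ring

omit [SecondCountableTopology X] [MeasurableSpace X] [BorelSpace X] in
theorem test_del {φ : X → ℝ} (hφ : R.SmR φ) {α : ι → X → ℂ} (hα : ∀ j, R.Test (α j)) :
    R.Test (R.del φ α) := by
  exact ibp_test_del hφ hα

end RD

end Pool.Agent.MP_c0606f_ag.Klt

end

-- part MP_c0606f_ag.Klt.Moll
section

/-! Mollification on `ι → ℂ`. -/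

namespace Pool.Agent.MP_c0606f_ag.Klt

open MeasureTheory Complex Filter Topology
open scoped ENNReal ContDiff ComplexConjugate

variable {ι : Type} [Fintype ι]

/-- bump functions with shrinking support -/
noncomputable def bump (ι : Type) [Fintype ι] (n : ℕ) : ContDiffBump (0 : ι → ℂ) where
  rIn := 1 / (2 * ((n : ℝ) + 1))
  rOut := 1 / ((n : ℝ) + 1)
  rIn_pos := by positivity
  rIn_lt_rOut := by
    apply one_div_lt_one_div_of_lt <;> nlinarith [(Nat.cast_nonneg n : (0 : ℝ) ≤ n)]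

/-- the mollifier -/
noncomputable def ker (n : ℕ) (x : ι → ℂ) : ℂ := ((bump ι n).normed volume x : ℝ)

/-- the mollification -/
noncomputable def moll (n : ℕ) (b : (ι → ℂ) → ℂ) (x : ι → ℂ) : ℂ := ∫ y, b y * ker n (x - y)

variable {b : (ι → ℂ) → ℂ}

theorem moll_ker_contDiff (n : ℕ) : ContDiff ℝ ∞ (ker (ι := ι) n) :=
  ofRealCLM.contDiff.comp (bump ι n).contDiff_normed

theorem moll_ker_norm (n : ℕ) (x : ι → ℂ) : ‖ker n x‖ = (bump ι n).normed volume x := by
  rw [ker, Complex.norm_real, Real.norm_of_nonneg ((bump ι n).nonneg_normed x)]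

theorem moll_ker_dist {n : ℕ} {x y : ι → ℂ} (h : ker n (x - y) ≠ 0) :
    dist x y ≤ 1 / ((n : ℝ) + 1) := by
  have h1 : x - y ∈ Function.support ((bump ι n).normed volume) := fun h2 =>
    h (by rw [ker, h2, ofReal_zero])
  rw [(bump ι n).support_normed_eq, mem_ball_zero_iff] at h1
  rw [dist_eq_norm]
  exact h1.le

theorem moll_ker_cpt (n : ℕ) : HasCompactSupport (ker (ι := ι) n) :=
  (bump ι n).hasCompactSupport_normed.comp_left (g := fun t : ℝ => (t : ℂ)) ofReal_zero

theorem moll_tsupport_ker (n : ℕ) (x : ι → ℂ) :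
    tsupport (fun y => ker n (x - y)) ⊆ Metric.closedBall x (1 / ((n : ℝ) + 1)) :=
  closure_minimal (fun _ hy => Metric.mem_closedBall'.2 (moll_ker_dist hy))
    Metric.isClosed_closedBall

theorem moll_lint (n : ℕ) : ∫⁻ x : ι → ℂ, ENNReal.ofReal ‖ker n x‖ = 1 := by
  simp only [moll_ker_norm]
  rw [← ofReal_integral_eq_lintegral_ofReal (bump ι n).integrable_normed
    (Eventually.of_forall (bump ι n).nonneg_normed), (bump ι n).integral_normed,
    ENNReal.ofReal_one]

theorem moll_eLpNorm (f : (ι → ℂ) → ℂ) :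
    eLpNorm f 2 volume = (∫⁻ x, ENNReal.ofReal (‖f x‖ ^ 2)) ^ (1 / 2 : ℝ) := by
  rw [eLpNorm_eq_lintegral_rpow_enorm_toReal two_ne_zero ENNReal.ofNat_ne_top,
    ENNReal.toReal_ofNat]
  congr 1
  refine lintegral_congr fun x => ?_
  rw [ENNReal.ofReal_pow (norm_nonneg _), ofReal_norm, ENNReal.rpow_ofNat]

theorem fTest_ker (n : ℕ) (x : ι → ℂ) : FTest fun y => ker n (x - y) :=
  ⟨(moll_ker_contDiff n).comp (f := fun y => x - y) (contDiff_const.sub contDiff_id),
    (isCompact_closedBall x _).of_isClosed_subset (isClosed_tsupport _) (moll_tsupport_ker n x)⟩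

theorem tsupport_ker (n : ℕ) (x : ι → ℂ) :
    tsupport (fun y => ker n (x - y)) ⊆ Metric.closedBall x (1 / ((n : ℝ) + 1)) :=
  moll_tsupport_ker n x

/-- `moll n b = b ⋆ ker n` (`convolution_def`), `HasCompactSupport.contDiff_convolution_right` -/
theorem contDiff_moll (hb : LocallyIntegrable b) (n : ℕ) : ContDiff ℝ ∞ (moll n b) :=
  (moll_ker_cpt n).contDiff_convolution_right (ContinuousLinearMap.mul ℝ ℂ) hb
    (moll_ker_contDiff n)

theorem tsupport_moll {K : Set (ι → ℂ)} (hK : ∀ x, x ∉ K → b x = 0) (n : ℕ) :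
    tsupport (moll n b) ⊆ Metric.cthickening (1 / ((n : ℝ) + 1)) K := by
  refine closure_minimal (fun x hx => ?_) Metric.isClosed_cthickening
  by_contra hc
  have h0 : ∀ y, b y * ker n (x - y) = 0 := fun y => by
    by_contra h
    obtain ⟨h1, h2⟩ := mul_ne_zero_iff.1 h
    exact hc (Metric.mem_cthickening_of_dist_le x y _ K (by_contra fun h3 => h1 (hK y h3))
      (moll_ker_dist h2))
  exact hx (by simp only [moll, h0, integral_zero])

theorem fTest_moll (hb : LocallyIntegrable b) {K : Set (ι → ℂ)} (hc : IsCompact K)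
    (hK : ∀ x, x ∉ K → b x = 0) (n : ℕ) : FTest (moll n b) :=
  ⟨contDiff_moll hb n,
    hc.cthickening.of_isClosed_subset (isClosed_tsupport _) (tsupport_moll hK n)⟩

theorem moll_fderiv (hb : LocallyIntegrable b) (n : ℕ) (x v : ι → ℂ) :
    fderiv ℝ (moll n b) x v = -∫ y, b y * fderiv ℝ (fun y => ker n (x - y)) y v := by
  have h1 : ContDiff ℝ 1 (ker (ι := ι) n) := (moll_ker_contDiff n).of_le (by simp)
  have h2 := ((moll_ker_cpt n).hasFDerivAt_convolution_right (ContinuousLinearMap.mul ℝ ℂ) hb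
    h1 x).fderiv
  have h3 := convolution_precompR_apply (ContinuousLinearMap.mul ℝ ℂ) hb
    ((moll_ker_cpt (ι := ι) n).fderiv ℝ) (h1.continuous_fderiv one_ne_zero) x v
  rw [← h2, convolution_def] at h3
  refine h3.trans ?_
  rw [← integral_neg]
  refine integral_congr_ae (Eventually.of_forall fun y => ?_)
  have h4 := (((h1.differentiable one_ne_zero) (x - y)).hasFDerivAt.comp y
    ((hasFDerivAt_id y).const_sub x)).fderiv
  have h5 : fderiv ℝ (fun y => ker n (x - y)) y v = -fderiv ℝ (ker n) (x - y) v := by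
    refine (congrArg (fun L : (ι → ℂ) →L[ℝ] ℂ => L v) h4).trans ?_
    simp
  simp only [h5, ContinuousLinearMap.mul_apply', mul_neg, neg_neg]

theorem moll_int (hb : LocallyIntegrable b) (n : ℕ) (x v : ι → ℂ) :
    Integrable fun y => b y * fderiv ℝ (fun y => ker n (x - y)) y v := by
  have h := fTest_ker n x
  have h1 : Continuous fun y => fderiv ℝ (fun y => ker n (x - y)) y v :=
    (h.1.continuous_fderiv (by simp)).clm_apply continuous_const
  exact hb.integrable_smul_right_of_hasCompactSupport h1 (h.2.fderiv_apply ℝ v)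

/-- `HasCompactSupport.hasFDerivAt_convolution_right` -/
theorem fdz_moll [DecidableEq ι] (hb : LocallyIntegrable b) (n : ℕ) (j : ι) (x : ι → ℂ) :
    fdz j (moll n b) x = -∫ y, b y * fdz j (fun y => ker n (x - y)) y := by
  have h : ∀ y, b y * fdz j (fun y => ker n (x - y)) y =
      (b y * fderiv ℝ (fun y => ker n (x - y)) y (Pi.single j 1) -
        I * (b y * fderiv ℝ (fun y => ker n (x - y)) y (Pi.single j I))) / 2 := fun y => by
    rw [fdz]; ring
  simp only [h]
  rw [integral_div, integral_sub (moll_int hb n x _) ((moll_int hb n x _).const_mul I),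
    integral_const_mul, fdz, moll_fderiv hb, moll_fderiv hb]
  ring

theorem fdb_moll [DecidableEq ι] (hb : LocallyIntegrable b) (n : ℕ) (j : ι) (x : ι → ℂ) :
    fdb j (moll n b) x = -∫ y, b y * fdb j (fun y => ker n (x - y)) y := by
  have h : ∀ y, b y * fdb j (fun y => ker n (x - y)) y =
      (b y * fderiv ℝ (fun y => ker n (x - y)) y (Pi.single j 1) +
        I * (b y * fderiv ℝ (fun y => ker n (x - y)) y (Pi.single j I))) / 2 := fun y => by
    rw [fdb]; ring
  simp only [h]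
  rw [integral_div, integral_add (moll_int hb n x _) ((moll_int hb n x _).const_mul I),
    integral_const_mul, fdb, moll_fderiv hb, moll_fderiv hb]
  ring

/-- `ContDiffBump.ae_convolution_tendsto_right_of_locallyIntegrable` -/
theorem ae_tendsto_moll (hb : LocallyIntegrable b) :
    ∀ᵐ x, Tendsto (fun n => moll n b x) atTop (𝓝 (b x)) := by
  have h := ContDiffBump.ae_convolution_tendsto_right_of_locallyIntegrable (φ := bump ι)
    (l := atTop) (K := 2) tendsto_one_div_add_atTop_nhds_zero_nat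
    (Eventually.of_forall fun n => le_of_eq (by
      have : (n : ℝ) + 1 ≠ 0 := by positivity
      simp only [bump]; field_simp)) hb
  filter_upwards [h] with x hx
  refine hx.congr fun n => ?_
  rw [convolution_lsmul_swap, moll]
  simp only [ker, real_smul, mul_comm]

/-- Jensen (Cauchy-Schwarz): the kernel is a probability density -/
theorem normSq_moll_le (hb : AEStronglyMeasurable b) (n : ℕ) (x : ι → ℂ) :
    ENNReal.ofReal (‖moll n b x‖ ^ 2) ≤
      ∫⁻ y, ENNReal.ofReal (‖b y‖ ^ 2 * ‖ker n (x - y)‖) := by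
  have hk : Continuous fun y : ι → ℂ => √‖ker n (x - y)‖ := (fTest_ker n x).1.continuous.norm.sqrt
  have h := ENNReal.lintegral_mul_le_Lp_mul_Lq volume Real.HolderConjugate.two_two
    (f := fun y => ENNReal.ofReal (‖b y‖ * √‖ker n (x - y)‖))
    (g := fun y => ENNReal.ofReal √‖ker n (x - y)‖)
    (hb.norm.aemeasurable.mul hk.aemeasurable).ennreal_ofReal hk.aemeasurable.ennreal_ofReal
  have h1 : ∀ y, ENNReal.ofReal √‖ker n (x - y)‖ ^ (2 : ℝ) = ENNReal.ofReal ‖ker n (x - y)‖ :=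
    fun y => by
      rw [ENNReal.rpow_ofNat, ← ENNReal.ofReal_pow (Real.sqrt_nonneg _),
        Real.sq_sqrt (norm_nonneg _)]
  have h2 : ∀ y, ENNReal.ofReal (‖b y‖ * √‖ker n (x - y)‖) ^ (2 : ℝ) =
      ENNReal.ofReal (‖b y‖ ^ 2 * ‖ker n (x - y)‖) := fun y => by
    rw [ENNReal.rpow_ofNat, ← ENNReal.ofReal_pow (by positivity), mul_pow,
      Real.sq_sqrt (norm_nonneg _)]
  have h3 : ∀ y, ENNReal.ofReal (‖b y‖ * √‖ker n (x - y)‖) * ENNReal.ofReal √‖ker n (x - y)‖ =
      ‖b y * ker n (x - y)‖ₑ := fun y => by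
    rw [← ENNReal.ofReal_mul (by positivity), mul_assoc, Real.mul_self_sqrt (norm_nonneg _),
      ← norm_mul, ofReal_norm]
  simp only [h1, h2, Pi.mul_apply, h3] at h
  rw [lintegral_sub_left_eq_self (fun y => ENNReal.ofReal ‖ker n y‖) x, moll_lint,
    ENNReal.one_rpow, mul_one] at h
  have h4 := ENNReal.rpow_le_rpow ((enorm_integral_le_lintegral_enorm _).trans h) zero_le_two
  rw [← ENNReal.rpow_mul, one_div, inv_mul_cancel₀ two_ne_zero, ENNReal.rpow_one,
    ENNReal.rpow_ofNat] at h4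
  rw [ENNReal.ofReal_pow (norm_nonneg _), ofReal_norm]
  exact h4

theorem lintegral_ker (n : ℕ) (y : ι → ℂ) : ∫⁻ x, ENNReal.ofReal ‖ker n (x - y)‖ = 1 := by
  rw [lintegral_sub_right_eq_self (fun y => ENNReal.ofReal ‖ker n y‖) y, moll_lint]

theorem moll_lint_le (hb : AEStronglyMeasurable b) (n : ℕ) :
    ∫⁻ x, ENNReal.ofReal (‖moll n b x‖ ^ 2) ≤ ∫⁻ x, ENNReal.ofReal (‖b x‖ ^ 2) := by
  refine (lintegral_mono (normSq_moll_le hb n)).trans ?_
  have hk : Continuous fun p : (ι → ℂ) × (ι → ℂ) => ‖ker n (p.1 - p.2)‖ :=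
    ((moll_ker_contDiff n).continuous.comp (continuous_fst.sub continuous_snd)).norm
  rw [lintegral_lintegral_swap (((hb.comp_snd (μ := volume)).norm.aemeasurable.pow_const 2).mul
    hk.aemeasurable).ennreal_ofReal]
  refine le_of_eq (lintegral_congr fun y => ?_)
  simp only [ENNReal.ofReal_mul (sq_nonneg ‖b y‖)]
  rw [lintegral_const_mul' _ _ ENNReal.ofReal_ne_top, lintegral_ker, mul_one]

theorem eLpNorm_moll_le (hb : AEStronglyMeasurable b) (n : ℕ) :
    eLpNorm (moll n b) 2 volume ≤ eLpNorm b 2 volume := by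
  rw [moll_eLpNorm, moll_eLpNorm]
  exact ENNReal.rpow_le_rpow (moll_lint_le hb n) (by norm_num)

/-- Almost everywhere convergence and `eLpNorm_moll_le`: apply Fatou's lemma to
`2 |f n|^2 + 2 |b|^2 - |f n - b|^2`.  (Or approximate `b` by continuous compactly supported
functions.) -/
theorem tendsto_moll (hb : MemLp b 2 volume) :
    Tendsto (fun n => eLpNorm (fun x => moll n b x - b x) 2 volume) atTop (𝓝 0) := by
  have hl : LocallyIntegrable b := hb.locallyIntegrable one_le_two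
  have hm : ∀ n, AEMeasurable fun x => ‖moll n b x‖ ^ 2 := fun n =>
    ((contDiff_moll hl n).continuous.norm.pow 2).aemeasurable
  have hd : ∀ n, AEMeasurable fun x => ‖moll n b x - b x‖ ^ 2 := fun n =>
    ((contDiff_moll hl n).continuous.aestronglyMeasurable.sub hb.1).norm.aemeasurable.pow_const 2
  have hb2 : AEMeasurable fun x => ‖b x‖ ^ 2 := hb.1.norm.aemeasurable.pow_const 2
  have hB : ∫⁻ x, ENNReal.ofReal (‖b x‖ ^ 2) ≠ ⊤ := by
    have := hb.2
    rw [moll_eLpNorm] at this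
    exact ((ENNReal.rpow_lt_top_iff_of_pos (by norm_num)).1 this).ne
  have hG : ∀ n, AEMeasurable fun x => ENNReal.ofReal
      (2 * ‖moll n b x‖ ^ 2 + 2 * ‖b x‖ ^ 2 - ‖moll n b x - b x‖ ^ 2) := fun n =>
    ((((hm n).const_mul 2).add (hb2.const_mul 2)).sub (hd n)).ennreal_ofReal
  have h1 := lintegral_liminf_le' (u := atTop) hG
  have h2 : ∫⁻ x, liminf (fun n => ENNReal.ofReal
      (2 * ‖moll n b x‖ ^ 2 + 2 * ‖b x‖ ^ 2 - ‖moll n b x - b x‖ ^ 2)) atTop =
      4 * ∫⁻ x, ENNReal.ofReal (‖b x‖ ^ 2) := by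
    rw [← lintegral_const_mul' _ _ ENNReal.ofNat_ne_top]
    refine lintegral_congr_ae ?_
    filter_upwards [ae_tendsto_moll hl] with x hx
    have := ENNReal.tendsto_ofReal ((((hx.norm.pow 2).const_mul 2).add_const
      (2 * ‖b x‖ ^ 2)).sub ((hx.sub_const (b x)).norm.pow 2))
    rw [this.liminf_eq, ← ENNReal.ofReal_ofNat 4, ← ENNReal.ofReal_mul (by norm_num)]
    congr 1
    rw [sub_self, norm_zero]; ring
  have h3 : ∀ n, (∫⁻ x, ENNReal.ofReal
      (2 * ‖moll n b x‖ ^ 2 + 2 * ‖b x‖ ^ 2 - ‖moll n b x - b x‖ ^ 2)) +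
      ∫⁻ x, ENNReal.ofReal (‖moll n b x - b x‖ ^ 2) ≤
      4 * ∫⁻ x, ENNReal.ofReal (‖b x‖ ^ 2) := fun n => by
    rw [← lintegral_add_left' (hG n)]
    have e : ∀ x, ENNReal.ofReal
        (2 * ‖moll n b x‖ ^ 2 + 2 * ‖b x‖ ^ 2 - ‖moll n b x - b x‖ ^ 2) +
        ENNReal.ofReal (‖moll n b x - b x‖ ^ 2) =
        2 * ENNReal.ofReal (‖moll n b x‖ ^ 2) + 2 * ENNReal.ofReal (‖b x‖ ^ 2) := fun x => by
      have a1 := pow_le_pow_left₀ (norm_nonneg _) (norm_sub_le (moll n b x) (b x)) 2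
      have a2 := sq_nonneg (‖moll n b x‖ - ‖b x‖)
      rw [← ENNReal.ofReal_add (by linarith) (sq_nonneg _), sub_add_cancel,
        ENNReal.ofReal_add (by positivity) (by positivity), ENNReal.ofReal_mul zero_le_two,
        ENNReal.ofReal_mul zero_le_two, ENNReal.ofReal_ofNat]
    simp only [e]
    rw [lintegral_add_left' ((hm n).ennreal_ofReal.const_mul 2),
      lintegral_const_mul' _ _ ENNReal.ofNat_ne_top, lintegral_const_mul' _ _ ENNReal.ofNat_ne_top,
      show (4 : ℝ≥0∞) = 2 + 2 by norm_num, add_mul]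
    exact add_le_add (mul_le_mul_right (moll_lint_le hb.1 n) 2) le_rfl
  rw [h2] at h1
  have hB4 := ENNReal.mul_ne_top (ENNReal.ofNat_ne_top (n := 4)) hB
  generalize 4 * ∫⁻ x, ENNReal.ofReal (‖b x‖ ^ 2) = B at h1 h3 hB4
  have h4 : Tendsto (fun n => ∫⁻ x, ENNReal.ofReal (‖moll n b x - b x‖ ^ 2)) atTop (𝓝 0) := by
    refine ENNReal.tendsto_nhds_zero.2 fun ε hε => ?_
    rcases eq_or_ne B 0 with h0 | h0
    · exact Eventually.of_forall fun n => (le_add_self.trans ((h3 n).trans h0.le)).trans hε.le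
    filter_upwards [eventually_lt_of_lt_liminf
      ((ENNReal.sub_lt_self hB4 h0 hε.ne').trans_le h1)] with n hn
    by_contra hc
    exact lt_irrefl B ((le_tsub_add.trans_lt (ENNReal.add_lt_add hn (not_le.1 hc))).trans_le (h3 n))
  simp only [moll_eLpNorm]
  have h5 := ((ENNReal.continuous_rpow_const (y := 1 / 2)).tendsto 0).comp h4
  rwa [ENNReal.zero_rpow_of_pos (by norm_num)] at h5

end Pool.Agent.MP_c0606f_ag.Klt

end

-- part MP_c0606f_ag.Klt.Psh
section

/-! Levi forms of the standard weights. -/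

namespace Pool.Agent.MP_c0606f_ag.Klt

open Complex Filter Topology
open scoped ContDiff ComplexConjugate

namespace RD

variable {ι X : Type} [Fintype ι] [DecidableEq ι] [TopologicalSpace X] {R : RD ι X}
  {φ ψ : X → ℝ}

/-- the derivative of `f` at `p` in the direction `ξ` -/
noncomputable def dd (R : RD ι X) (f : X → ℂ) (p : X) (ξ : ι → ℂ) : ℂ := ∑ j, R.dz j f p * ξ j

theorem dd_coord (k : ι) (p : X) (ξ : ι → ℂ) : R.dd (fun x => R.π x k) p ξ = ξ k := by
  simp [dd, dz_coord]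

theorem dd_sub_const {f : X → ℂ} (hf : R.Sm f) (c : ℂ) (p : X) (ξ : ι → ℂ) :
    R.dd (fun x => f x - c) p ξ = R.dd f p ξ := by
  simp only [dd, dz_sub _ hf (Sm.const c), dz_const, sub_zero]

theorem psh_dd_sq (f : X → ℂ) (p : X) (ξ : ι → ℂ) : ((‖R.dd f p ξ‖ ^ 2 : ℝ) : ℂ) =
    ∑ j, ∑ k, R.dz j f p * conj (R.dz k f p) * ξ j * conj (ξ k) := by
  rw [ofReal_pow, ← mul_conj', dd, map_sum, Finset.sum_mul_sum]
  refine Finset.sum_congr rfl fun j _ => Finset.sum_congr rfl fun k _ => ?_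
  rw [map_mul]
  ring

theorem levi_add (hφ : R.SmR φ) (hψ : R.SmR ψ) (p : X) (ξ : ι → ℂ) :
    R.levi (fun x => φ x + ψ x) p ξ = R.levi φ p ξ + R.levi ψ p ξ := by
  have key : ∀ j k, R.dz j (R.db k fun x => ((φ x + ψ x : ℝ) : ℂ)) p =
      R.dz j (R.db k fun x => (φ x : ℂ)) p + R.dz j (R.db k fun x => (ψ x : ℂ)) p := by
    intro j k
    rw [← dz_add j (Sm.db hφ k) (Sm.db hψ k)]
    congr 1
    funext x
    rw [← db_add k hφ hψ]
    simp only [ofReal_add]
  simp only [levi, key, add_mul, Finset.sum_add_distrib, add_re]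

theorem levi_const_mul (hφ : R.SmR φ) (c : ℝ) (p : X) (ξ : ι → ℂ) :
    R.levi (fun x => c * φ x) p ξ = c * R.levi φ p ξ := by
  have key : ∀ j k, R.dz j (R.db k fun x => ((c * φ x : ℝ) : ℂ)) p =
      c * R.dz j (R.db k fun x => (φ x : ℂ)) p := by
    intro j k
    have e : (R.db k fun x => ((c * φ x : ℝ) : ℂ)) =
        fun x => c * R.db k (fun x => (φ x : ℂ)) x := by
      funext x
      simp only [ofReal_mul]
      rw [db_mul k (Sm.const _) hφ, db_const, zero_mul, zero_add]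
    rw [e, dz_mul j (Sm.const _) (Sm.db hφ k), dz_const, zero_mul, zero_add]
  simp only [levi, key, mul_assoc, ← Finset.mul_sum, re_ofReal_mul]

theorem levi_sum {β : Type} (S : Finset β) {φ : β → X → ℝ} (hφ : ∀ i ∈ S, R.SmR (φ i)) (p : X)
    (ξ : ι → ℂ) : R.levi (fun x => ∑ i ∈ S, φ i x) p ξ = ∑ i ∈ S, R.levi (φ i) p ξ := by
  classical
  induction S using Finset.induction_on with
  | empty =>
    have e : ∀ k, (R.db k fun _ => (0 : ℂ)) = fun _ => 0 := fun k => funext (db_const k 0)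
    simp [levi, e, dz_const]
  | insert i S hi ih =>
    simp only [Finset.sum_insert hi]
    have h1 : ∀ k ∈ S, R.SmR (φ k) := fun k hk => hφ k (Finset.mem_insert_of_mem hk)
    rw [levi_add (hφ i (Finset.mem_insert_self i S)) (SmR.sum S h1), ih h1]

theorem levi_smul (φ : X → ℝ) (p : X) (c : ℂ) (ξ : ι → ℂ) :
    R.levi φ p (fun j => c * ξ j) = ‖c‖ ^ 2 * R.levi φ p ξ := by
  rw [levi, levi, ← re_ofReal_mul, Finset.mul_sum]
  congr 1
  refine Finset.sum_congr rfl fun j _ => ?_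
  rw [Finset.mul_sum]
  refine Finset.sum_congr rfl fun k _ => ?_
  rw [ofReal_pow, ← mul_conj', map_mul]
  ring

theorem continuous_levi (hφ : R.SmR φ) :
    Continuous fun a : X × (ι → ℂ) => R.levi φ a.1 a.2 := by
  refine continuous_re.comp (continuous_finsetSum _ fun j _ => continuous_finsetSum _ fun k _ => ?_)
  have h1 := (Sm.dz (Sm.db hφ k) j).continuous
  fun_prop

/-- chain rule; `γ` is smooth near the values of `φ` -/
theorem levi_comp (hφ : R.SmR φ) {γ : ℝ → ℝ} (hγ : ∀ x, ContDiffAt ℝ ∞ γ (φ x)) (p : X)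
    (ξ : ι → ℂ) : R.levi (fun x => γ (φ x)) p ξ =
      deriv (deriv γ) (φ p) * ‖R.dd (fun x => (φ x : ℂ)) p ξ‖ ^ 2 +
        deriv γ (φ p) * R.levi φ p ξ := by
  have h1 : ∀ x, ContDiffAt ℝ ∞ (deriv γ) (φ x) := fun x =>
    ((hγ x).fderiv_right (m := ∞) (by simp)).clm_apply (contDiffAt_const (c := (1 : ℝ)))
  have key : ∀ j k, R.dz j (R.db k fun x => (γ (φ x) : ℂ)) p =
      (deriv (deriv γ) (φ p) : ℝ) * (R.dz j (fun x => (φ x : ℂ)) p *
        conj (R.dz k (fun x => (φ x : ℂ)) p)) +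
      (deriv γ (φ p) : ℝ) * R.dz j (R.db k fun x => (φ x : ℂ)) p := by
    intro j k
    have e : (R.db k fun x => (γ (φ x) : ℂ)) =
        fun x => (deriv γ (φ x) : ℝ) * R.db k (fun x => (φ x : ℂ)) x :=
      funext fun x => db_comp k hφ ((hγ x).differentiableAt (by simp))
    rw [e, dz_mul j (SmR.comp hφ h1) (Sm.db hφ k),
      dz_comp j hφ ((h1 p).differentiableAt (by simp)), db_real, mul_assoc]
  have e2 : ((‖R.dd (fun x => (φ x : ℂ)) p ξ‖ ^ 2 : ℝ) : ℂ) =
      ∑ j, ∑ k, R.dz j (fun x => (φ x : ℂ)) p * conj (R.dz k (fun x => (φ x : ℂ)) p) * ξ j *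
        conj (ξ k) := psh_dd_sq _ p ξ
  rw [← ofReal_re (‖R.dd (fun x => (φ x : ℂ)) p ξ‖ ^ 2), e2, levi, levi, ← re_ofReal_mul,
    ← re_ofReal_mul, ← add_re]
  congr 1
  simp only [key, Finset.mul_sum, ← Finset.sum_add_distrib]
  refine Finset.sum_congr rfl fun j _ => Finset.sum_congr rfl fun k _ => ?_
  ring

variable {β : Type} [Fintype β] {F : β → X → ℂ}

omit [DecidableEq ι] in
theorem smR_sumSq (hF : ∀ i, R.Sm (F i)) : R.SmR fun x => ∑ i, ‖F i x‖ ^ 2 := by
  exact SmR.sum _ fun i _ => (hF i).normSq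

theorem dd_sumSq (hF : ∀ i, R.Hol (F i)) (p : X) (ξ : ι → ℂ) :
    R.dd (fun x => ((∑ i, ‖F i x‖ ^ 2 : ℝ) : ℂ)) p ξ = ∑ i, R.dd (F i) p ξ * conj (F i p) := by
  have e : (fun x => ((∑ i, ‖F i x‖ ^ 2 : ℝ) : ℂ)) = fun x => ∑ i, F i x * conj (F i x) := by
    funext x
    simp [mul_conj']
  have key : ∀ j, R.dz j (fun x => ∑ i, F i x * conj (F i x)) p =
      ∑ i, R.dz j (F i) p * conj (F i p) := by
    intro j
    rw [dz_sum j _ fun i _ => (hF i).1.mul (hF i).1.conj]
    refine Finset.sum_congr rfl fun i _ => ?_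
    rw [dz_mul j (hF i).1 (hF i).1.conj, dz_conj, (hF i).2, map_zero, mul_zero, add_zero]
  simp only [dd, e, key, Finset.sum_mul]
  rw [Finset.sum_comm]
  refine Finset.sum_congr rfl fun i _ => Finset.sum_congr rfl fun j _ => ?_
  ring

theorem psh_dd_le (hF : ∀ i, R.Hol (F i)) (p : X) (ξ : ι → ℂ) :
    ‖R.dd (fun x => ((∑ i, ‖F i x‖ ^ 2 : ℝ) : ℂ)) p ξ‖ ^ 2 ≤
      (∑ i, ‖F i p‖ ^ 2) * ∑ i, ‖R.dd (F i) p ξ‖ ^ 2 := by
  rw [dd_sumSq hF, mul_comm]
  refine le_trans ?_ (Finset.sum_mul_sq_le_sq_mul_sq _ _ _)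
  gcongr
  refine (norm_sum_le _ _).trans (le_of_eq (Finset.sum_congr rfl fun i _ => ?_))
  rw [norm_mul, norm_conj]

theorem levi_normSq {f : X → ℂ} (hf : R.Hol f) (p : X) (ξ : ι → ℂ) :
    R.levi (fun x => ‖f x‖ ^ 2) p ξ = ‖R.dd f p ξ‖ ^ 2 := by
  have e : (fun x => ((‖f x‖ ^ 2 : ℝ) : ℂ)) = fun x => f x * conj (f x) := by
    funext x
    simp [mul_conj']
  have key : ∀ j k, R.dz j (R.db k fun x => f x * conj (f x)) p =
      R.dz j f p * conj (R.dz k f p) := by
    intro j k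
    have e1 : (R.db k fun x => f x * conj (f x)) = fun x => f x * conj (R.dz k f x) := by
      funext x
      rw [db_mul k hf.1 hf.1.conj, hf.2, db_conj, zero_mul, zero_add]
    have e2 : R.db j f = fun _ => 0 := funext (hf.2 j)
    rw [e1, dz_mul j hf.1 (hf.1.dz k).conj, dz_conj, ← dz_db_comm k j hf.1, e2, dz_const, map_zero,
      mul_zero, add_zero]
  rw [← ofReal_re (‖R.dd f p ξ‖ ^ 2), psh_dd_sq, levi, e]
  simp only [key]

theorem levi_sumSq (hF : ∀ i, R.Hol (F i)) (p : X) (ξ : ι → ℂ) :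
    R.levi (fun x => ∑ i, ‖F i x‖ ^ 2) p ξ = ∑ i, ‖R.dd (F i) p ξ‖ ^ 2 := by
  rw [levi_sum _ fun i _ => (hF i).1.normSq]
  exact Finset.sum_congr rfl fun i _ => levi_normSq (hF i) p ξ

theorem smR_log (hF : ∀ i, R.Hol (F i)) {ε : ℝ} (h0 : ∀ x, 0 < ∑ i, ‖F i x‖ ^ 2 + ε) :
    R.SmR fun x => Real.log (∑ i, ‖F i x‖ ^ 2 + ε) := by
  exact SmR.comp (smR_sumSq fun i => (hF i).1) (γ := fun t => Real.log (t + ε)) fun x =>
    (contDiffAt_id.add contDiffAt_const).log (h0 x).ne'

/-- `levi_comp` with `γ t = log (t + ε)` and the Cauchy-Schwarz inequality -/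
theorem levi_log_ge (hF : ∀ i, R.Hol (F i)) {ε : ℝ} (h0 : ∀ x, 0 < ∑ i, ‖F i x‖ ^ 2 + ε) (p : X)
    (ξ : ι → ℂ) : ε * (∑ i, ‖R.dd (F i) p ξ‖ ^ 2) / (∑ i, ‖F i p‖ ^ 2 + ε) ^ 2 ≤
      R.levi (fun x => Real.log (∑ i, ‖F i x‖ ^ 2 + ε)) p ξ := by
  have e1 : deriv (fun t => Real.log (t + ε)) = fun t => (t + ε)⁻¹ := by
    funext t
    rw [deriv_comp_add_const, Real.deriv_log]
  have e2 : ∀ t : ℝ, deriv (fun t => (t + ε)⁻¹) t = -((t + ε) ^ 2)⁻¹ := by
    intro t
    rw [deriv_comp_add_const (f := fun t : ℝ => t⁻¹), deriv_inv]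
  rw [levi_comp (smR_sumSq fun i => (hF i).1) (γ := fun t => Real.log (t + ε))
    (fun x => (contDiffAt_id.add contDiffAt_const).log (h0 x).ne'), e1, e2, levi_sumSq hF]
  have h1 := psh_dd_le hF p ξ
  have h2 := h0 p
  generalize ‖R.dd (fun x => ((∑ i, ‖F i x‖ ^ 2 : ℝ) : ℂ)) p ξ‖ ^ 2 = N at h1 ⊢
  generalize ∑ i, ‖R.dd (F i) p ξ‖ ^ 2 = D at h1 ⊢
  generalize ∑ i, ‖F i p‖ ^ 2 = S at h1 h2 ⊢
  have e3 : -((S + ε) ^ 2)⁻¹ * N + (S + ε)⁻¹ * D = (-N + (S + ε) * D) / (S + ε) ^ 2 := by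
    field_simp
  rw [e3]
  gcongr
  linarith

theorem levi_log_nonneg (hF : ∀ i, R.Hol (F i)) {ε : ℝ} (hε : 0 ≤ ε)
    (h0 : ∀ x, 0 < ∑ i, ‖F i x‖ ^ 2 + ε) (p : X) (ξ : ι → ℂ) :
    0 ≤ R.levi (fun x => Real.log (∑ i, ‖F i x‖ ^ 2 + ε)) p ξ := by
  exact le_trans (by positivity) (levi_log_ge hF h0 p ξ)

/-- the weight `-log (wt M)` -/
theorem psh_wt (R : RD ι X) (M : ι → ℕ) :
    R.SmR (fun x => -Real.log (wt M (R.π x))) ∧
      ∀ p ξ, 0 ≤ R.levi (fun x => -Real.log (wt M (R.π x))) p ξ := by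
  have e : (fun x => -Real.log (wt M (R.π x))) =
      fun x => ∑ i, (M i : ℝ) * Real.log (∑ _ : Unit, ‖R.π x i‖ ^ 2 + 1) := by
    funext x
    rw [wt, Real.log_prod fun i _ => by positivity, ← Finset.sum_neg_distrib]
    refine Finset.sum_congr rfl fun i _ => ?_
    simp [add_comm]
  have hF : ∀ i, ∀ _ : Unit, R.Hol fun x => R.π x i := fun i _ => Hol.coord i
  have h0 : ∀ i x, 0 < ∑ _ : Unit, ‖R.π x i‖ ^ 2 + 1 := fun i x => by positivity
  have h1 : ∀ i, R.SmR fun x => Real.log (∑ _ : Unit, ‖R.π x i‖ ^ 2 + 1) := fun i =>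
    smR_log (hF i) (h0 i)
  have h2 : ∀ i ∈ Finset.univ,
      R.SmR fun x => (M i : ℝ) * Real.log (∑ _ : Unit, ‖R.π x i‖ ^ 2 + 1) :=
    fun i _ => (SmR.const _).mul (h1 i)
  rw [e]
  refine ⟨SmR.sum _ h2, fun p ξ => ?_⟩
  rw [levi_sum _ h2]
  refine Finset.sum_nonneg fun i _ => ?_
  rw [levi_const_mul (h1 i)]
  exact mul_nonneg (Nat.cast_nonneg _) (levi_log_nonneg (hF i) zero_le_one (h0 i) p ξ)

/-- `∂bar` of a cut-off `g * χ (∑ |F i|^2)` with `g` holomorphic -/
theorem db_cut (hF : ∀ i, R.Hol (F i)) {g : X → ℂ} (hg : R.Hol g) {χ : ℝ → ℝ}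
    (hχ : ContDiff ℝ ∞ χ) (p : X) (ξ : ι → ℂ) :
    ‖∑ j, R.db j (fun x => g x * (χ (∑ i, ‖F i x‖ ^ 2) : ℝ)) p * conj (ξ j)‖ ^ 2 ≤
      ‖g p‖ ^ 2 * deriv χ (∑ i, ‖F i p‖ ^ 2) ^ 2 * (∑ i, ‖F i p‖ ^ 2) *
        ∑ i, ‖R.dd (F i) p ξ‖ ^ 2 := by
  have hS : R.SmR fun x => ∑ i, ‖F i x‖ ^ 2 := smR_sumSq fun i => (hF i).1
  have key : ∑ j, R.db j (fun x => g x * (χ (∑ i, ‖F i x‖ ^ 2) : ℝ)) p * conj (ξ j) =
      g p * (deriv χ (∑ i, ‖F i p‖ ^ 2) : ℝ) *
        conj (R.dd (fun x => ((∑ i, ‖F i x‖ ^ 2 : ℝ) : ℂ)) p ξ) := by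
    rw [dd, map_sum, Finset.mul_sum]
    refine Finset.sum_congr rfl fun j _ => ?_
    rw [db_mul j hg.1 (SmR.comp hS fun _ => hχ.contDiffAt), hg.2,
      db_comp j hS (hχ.differentiable (by simp) _), db_real, map_mul]
    ring
  rw [key, norm_mul, norm_mul, norm_conj, norm_real, mul_pow, mul_pow, Real.norm_eq_abs, sq_abs,
    mul_assoc _ (∑ i, ‖F i p‖ ^ 2)]
  exact mul_le_mul_of_nonneg_left (psh_dd_le hF p ξ) (by positivity)

theorem sm_cut (hF : ∀ i, R.Hol (F i)) {g : X → ℂ} (hg : R.Hol g) {χ : ℝ → ℝ}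
    (hχ : ContDiff ℝ ∞ χ) : R.Sm fun x => g x * (χ (∑ i, ‖F i x‖ ^ 2) : ℝ) := by
  exact hg.1.mul (SmR.comp (smR_sumSq fun i => (hF i).1) fun _ => hχ.contDiffAt)

end RD

open scoped Manifold in
/-- smooth majorants vanishing on a half line -/
theorem psh_exists_smooth (s : ℝ) (g : ℝ → ℝ) (hg : Monotone g) (h0 : ∀ t, 0 ≤ g t) :
    ∃ k : ℝ → ℝ, ContDiff ℝ ∞ k ∧ (∀ t, 0 ≤ k t) ∧ (∀ t, t ≤ s → k t = 0) ∧
      ∀ t, s + 1 / 4 ≤ t → g t ≤ k t := by
  obtain ⟨k, hk⟩ := exists_contMDiffMap_forall_mem_convex_of_local_const 𝓘(ℝ, ℝ) (n := ⊤)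
    (t := fun t : ℝ => Set.Ici (g t)) (fun t => convex_Ici _) fun x => ⟨g (x + 1), by
      filter_upwards [Iio_mem_nhds (lt_add_one x)] with y hy using hg (le_of_lt hy)⟩
  refine ⟨fun t => Real.smoothTransition (4 * (t - s)) * k t, ?_, fun t => ?_, fun t ht => ?_,
    fun t ht => ?_⟩
  · exact (Real.smoothTransition.contDiff.comp (by fun_prop)).mul k.contMDiff.contDiff
  · exact mul_nonneg (Real.smoothTransition.nonneg _) ((h0 t).trans (hk t))
  · simp only [Real.smoothTransition.zero_of_nonpos (show 4 * (t - s) ≤ 0 by linarith), zero_mul]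
  · simp only [Real.smoothTransition.one_of_one_le (show 1 ≤ 4 * (t - s) by linarith), one_mul]
    exact hk t

/-- primitives -/
theorem psh_prim (s : ℝ) {k : ℝ → ℝ} (hk : ContDiff ℝ ∞ k) (h0 : ∀ t, 0 ≤ k t)
    (hs : ∀ t, t ≤ s → k t = 0) : ∃ K : ℝ → ℝ, ContDiff ℝ ∞ K ∧ deriv K = k ∧ (∀ t, 0 ≤ K t) ∧
      (∀ t, t ≤ s → K t = 0) ∧
      ∀ a b c, a ≤ b → (∀ x, a ≤ x → x ≤ b → c ≤ k x) → c * (b - a) ≤ K b := by
  have hc := hk.continuous
  have hd : deriv (fun t => ∫ x in s..t, k x) = k := funext fun t => hc.deriv_integral k s t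
  have hz : ∀ t, t ≤ s → ∫ x in s..t, k x = 0 := by
    intro t ht
    rw [intervalIntegral.integral_congr (g := fun _ => 0)]
    · simp
    · intro x hx
      rw [Set.uIcc_of_ge ht] at hx
      exact hs x hx.2
  have hp : ∀ t, 0 ≤ ∫ x in s..t, k x := by
    intro t
    rcases le_total t s with ht | ht
    · rw [hz t ht]
    · exact intervalIntegral.integral_nonneg ht fun x _ => h0 x
  refine ⟨fun t => ∫ x in s..t, k x, contDiff_infty_iff_deriv.2
    ⟨intervalIntegral.differentiable_integral_of_continuous hc, by rwa [hd]⟩, hd, hp, hz,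
    fun a b c hab h => ?_⟩
  have h1 := intervalIntegral.integral_add_adjacent_intervals (μ := MeasureTheory.volume)
    (hc.intervalIntegrable s a) (hc.intervalIntegrable a b)
  have h2 := intervalIntegral.integral_mono_on (μ := MeasureTheory.volume) hab
    ((continuous_const (y := c)).intervalIntegrable a b) (hc.intervalIntegrable a b)
    fun x hx => h x hx.1 hx.2
  rw [intervalIntegral.integral_const, smul_eq_mul, mul_comm] at h2
  have h3 := hp a
  linarith

theorem psh_inv_le_one (z : ℂ) : (1 + ‖z‖ ^ 2)⁻¹ ≤ 1 :=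
  inv_le_one_of_one_le₀ (le_add_of_nonneg_right (by positivity))

/-- Convex increasing functions of prescribed growth.  With `σ = Real.smoothTransition` and
`Γ t = ∫ x in 0..t, σ x` put `γ t = ∑ᶠ n, c n * Γ (2 * (t - s) - n)` (locally finite sum,
`contDiff_finsum` or eventually equal to a finite sum), `c n ≥ max (g (s + n + 3)) 0 * 2`. -/
theorem exists_convex (s : ℝ) (g : ℝ → ℝ) (hg : Monotone g) : ∃ γ : ℝ → ℝ, ContDiff ℝ ∞ γ ∧
    (∀ t, t ≤ s → γ t = 0) ∧ (∀ t, 0 ≤ γ t) ∧ (∀ t, 0 ≤ deriv γ t) ∧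
    (∀ t, 0 ≤ deriv (deriv γ) t) ∧ ∀ t, s + 1 ≤ t → g t ≤ γ t ∧ g t ≤ deriv γ t := by
  obtain ⟨k, hk, hk0, hks, hkg⟩ := psh_exists_smooth s (fun t => 16 * max (g (t + 1)) 0)
    (fun a b hab => mul_le_mul_of_nonneg_left (max_le_max_right 0 (hg (by linarith))) (by norm_num))
    (fun t => by positivity)
  obtain ⟨K, hK, hKd, hK0, hKs, hKg⟩ := psh_prim s hk hk0 hks
  obtain ⟨γ, hγ, hγd, hγ0, hγs, hγg⟩ := psh_prim s hK hK0 hKs
  refine ⟨γ, hγ, hγs, hγ0, by rwa [hγd], by rwa [hγd, hKd], fun t ht => ?_⟩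
  have h1 : ∀ y, t - 1 / 4 ≤ y → y ≤ t → 4 * max (g t) 0 ≤ K y := by
    intro y hy hy'
    have := hKg (y - 1 / 4) y (16 * max (g t) 0) (by linarith) fun x hx hx' =>
      le_trans (mul_le_mul_of_nonneg_left (max_le_max_right 0 (hg (by linarith))) (by norm_num))
        (hkg x (by linarith))
    linarith
  have h2 := hγg (t - 1 / 4) t _ (by linarith) h1
  have h3 := h1 t (by linarith) le_rfl
  have h4 := le_max_left (g t) 0
  have h5 := le_max_right (g t) 0
  rw [hγd]
  constructor <;> linarith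

theorem wt_pos {ι : Type} [Fintype ι] (M : ι → ℕ) (y : ι → ℂ) : 0 < wt M y := by
  exact Finset.prod_pos fun i _ => by positivity

theorem wt_le_one {ι : Type} [Fintype ι] (M : ι → ℕ) (y : ι → ℂ) : wt M y ≤ 1 := by
  exact Finset.prod_le_one (fun i _ => by positivity) fun i _ =>
    pow_le_one₀ (by positivity) (psh_inv_le_one _)

theorem wt_add {ι : Type} [Fintype ι] (M M' : ι → ℕ) (y : ι → ℂ) :
    wt (M + M') y = wt M y * wt M' y := by
  simp only [wt, Pi.add_apply, pow_add, Finset.prod_mul_distrib]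

theorem wt_anti {ι : Type} [Fintype ι] {M M' : ι → ℕ} (h : ∀ i, M i ≤ M' i) (y : ι → ℂ) :
    wt M' y ≤ wt M y := by
  exact Finset.prod_le_prod (fun i _ => by positivity) fun i _ =>
    pow_le_pow_of_le_one (by positivity) (psh_inv_le_one _) (h i)

theorem continuous_wt {ι : Type} [Fintype ι] (M : ι → ℕ) : Continuous (wt M) := by
  refine continuous_finsetProd _ fun i _ => Continuous.pow (Continuous.inv₀ (by fun_prop) ?_) _
  intro y
  positivity

theorem wt_rpow {ι : Type} [Fintype ι] {M M' : ι → ℕ} {γ : ℝ} (h : ∀ i, γ * M i ≤ M' i)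
    (y : ι → ℂ) : wt M' y ≤ wt M y ^ γ := by
  rw [wt, wt, ← Real.finsetProd_rpow _ _ fun i _ => by positivity]
  refine Finset.prod_le_prod (fun i _ => by positivity) fun i _ => ?_
  rw [← Real.rpow_natCast_mul (by positivity), ← Real.rpow_natCast]
  exact Real.rpow_le_rpow_of_exponent_ge (by positivity) (psh_inv_le_one _)
    (by rw [mul_comm]; exact h i)

theorem le_wt {ι : Type} [Fintype ι] (M : ι → ℕ) (B : ℝ) :
    ∃ c : ℝ, 0 < c ∧ ∀ y : ι → ℂ, ‖y‖ ≤ B → c ≤ wt M y := by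
  refine ⟨∏ i, ((1 + B ^ 2)⁻¹) ^ M i, Finset.prod_pos fun i _ => by positivity, fun y hy => ?_⟩
  refine Finset.prod_le_prod (fun i _ => by positivity) fun i _ => ?_
  have h1 : ‖y i‖ ≤ B := (norm_le_pi_norm y i).trans hy
  gcongr

theorem wt_const_le {ι : Type} [Fintype ι] (M : ℕ) (y : ι → ℂ) :
    wt (fun _ => M) y ≤ ((1 + ‖y‖ ^ 2)⁻¹) ^ M := by
  classical
  rcases isEmpty_or_nonempty ι with h | h
  · simp [wt, Subsingleton.elim y 0]
  obtain ⟨i, hi⟩ := Finite.exists_max fun i => ‖y i‖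
  have h1 : ‖y‖ ≤ ‖y i‖ := (pi_norm_le_iff_of_nonneg (norm_nonneg _)).2 hi
  rw [wt, ← Finset.mul_prod_erase _ _ (Finset.mem_univ i)]
  refine le_trans (mul_le_of_le_one_right (by positivity) (Finset.prod_le_one
    (fun i _ => by positivity) fun i _ => pow_le_one₀ (by positivity) (psh_inv_le_one _))) ?_
  gcongr

/-- `Integrable.fintype_prod` and `integrable_rpow_neg_one_add_norm_sq` -/
theorem integrable_wt {ι : Type} [Fintype ι] :
    MeasureTheory.Integrable (wt fun _ : ι => 2) := by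
  have h1 : MeasureTheory.Integrable fun z : ℂ => ((1 + ‖z‖ ^ 2)⁻¹) ^ 2 := by
    have := integrable_rpow_neg_one_add_norm_sq (E := ℂ) (μ := MeasureTheory.volume) (r := 4)
      (by simp; norm_num)
    convert this using 2 with z
    rw [show (-4 / 2 : ℝ) = -((2 : ℕ) : ℝ) by norm_num, Real.rpow_neg (by positivity),
      Real.rpow_natCast, inv_pow]
  exact MeasureTheory.Integrable.fintype_prod (f := fun (_ : ι) (z : ℂ) => ((1 + ‖z‖ ^ 2)⁻¹) ^ 2)
    fun _ => h1

end Pool.Agent.MP_c0606f_ag.Klt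

end
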