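import Pool.Agent.MP_c0606f_ag.Mg.Klt_BPrime
import Pool.Agent.MP_c0606f_ag.Mg.Klt_Psh
import Mathlib
import Pool.Agent.MP_c0606f_ag.Mg.Klt_Fib
import Pool.Agent.MP_c0606f_ag.Mg.Klt_Der

-- part MP_c0606f_ag.Klt.Push
section

/-! Valuative and integrability conditions; reduction from algebraic to polynomial functions. -/

namespace Pool.Agent.MP_c0606f_ag.Klt

open MeasureTheory MvPolynomial
open scoped NNReal ENNReal

variable {ι K : Type} [Fintype ι] [DecidableEq ι] [Field K] [Algebra ℂ K]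

/-- the valuative condition -/
def VHyp (y : ι → K) (G : K) {β : Type} (H : β → K) (N E : ℕ) : Prop :=
  (∃ b, H b ≠ 0) ∧ ∀ v : Val K, IsAbh v → ∃ b, avol v y ^ (N * (E - 1)) * v G ^ E ≤ v (H b) ^ E

/-- integrability of `min_b |G / H b|^(2 / N)` over all branches -/
def VCon (y : ι → K) (G : K) {β : Type} (H : β → K) (N : ℕ) : Prop :=
  ∃ (b0 : MvPolynomial ι ℂ) (Φ : (ι → ℂ) → ℝ) (M : ℕ), b0 ≠ 0 ∧ Measurable Φ ∧ (∀ q, 0 ≤ Φ q) ∧
    ∫⁻ q, ENNReal.ofReal (Φ q * ((1 + ‖q‖ ^ 2)⁻¹) ^ M) < ⊤ ∧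
    ∀ (B : Type) [CommRing B] [Algebra ℂ B] (i : B →ₐ[ℂ] K), Function.Injective i →
      ∀ (f : B →ₐ[ℂ] ℂ) (y' : ι → B) (G' : B) (H' : β → B), (∀ l, i (y' l) = y l) → i G' = G →
        (∀ b, i (H' b) = H b) → eval (fun l => f (y' l)) b0 ≠ 0 →
        ∃ b, ‖f G'‖ ^ (2 / (N : ℝ)) ≤ Φ (fun l => f (y' l)) * ‖f (H' b)‖ ^ (2 / (N : ℝ))

/-- the function `(|q| / max_b |p b|)^(2 / N)` -/
noncomputable def pfn (q : MvPolynomial ι ℂ) {β : Type} [Fintype β] (p : β → MvPolynomial ι ℂ)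
    (N : ℕ) (y : ι → ℂ) : ℝ :=
  (‖eval y q‖ / ⨆ b, ‖eval y (p b)‖) ^ (2 / (N : ℝ))

/-- integrability for polynomials -/
def PCon (q : MvPolynomial ι ℂ) {β : Type} [Fintype β] (p : β → MvPolynomial ι ℂ) (N : ℕ) : Prop :=
  ∃ M : ℕ, ∫⁻ y, ENNReal.ofReal (pfn q p N y * ((1 + ‖y‖ ^ 2)⁻¹) ^ M) < ⊤

omit [DecidableEq ι] in
theorem measurable_pfn (q : MvPolynomial ι ℂ) {β : Type} [Fintype β] (p : β → MvPolynomial ι ℂ)
    (N : ℕ) : Measurable (pfn q p N) := by
  have h : ∀ r : MvPolynomial ι ℂ, Measurable fun y : ι → ℂ => ‖eval y r‖ := fun r =>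
    (MvPolynomial.continuous_eval r).norm.measurable
  exact ((h q).div (Measurable.iSup fun b => h (p b))).pow_const _

theorem push_ext {A B : Type} [CommRing A] [CommRing B] [Algebra ℂ A] [Algebra ℂ B] [Algebra A B]
    [IsScalarTower ℂ A B] [Algebra.IsIntegral A B] (hinj : Function.Injective (algebraMap A B))
    (φ : A →ₐ[ℂ] ℂ) : ∃ f : B →ₐ[ℂ] ℂ, ∀ a, f (algebraMap A B a) = φ a := by
  have hsurj : Function.Surjective φ := fun c => ⟨algebraMap ℂ A c, φ.commutes c⟩
  have hmax : (RingHom.ker (φ : A →+* ℂ)).IsMaximal := RingHom.ker_isMaximal_of_surjective _ hsurj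
  obtain ⟨Q, hQ, hQ'⟩ := Ideal.exists_ideal_over_maximal_of_isIntegral (S := B)
    (RingHom.ker (φ : A →+* ℂ)) (by rw [(RingHom.injective_iff_ker_eq_bot _).1 hinj]; exact bot_le)
  have hc : ∀ a, algebraMap ℂ (B ⧸ Q) (φ a) = Ideal.Quotient.mk Q (algebraMap A B a) := by
    intro a
    have h1 : a - algebraMap ℂ A (φ a) ∈ Q.comap (algebraMap A B) := by
      rw [hQ', RingHom.mem_ker]
      simp
    rw [Ideal.mem_comap, map_sub, ← Ideal.Quotient.eq, ← IsScalarTower.algebraMap_apply] at h1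
    exact h1.symm
  have hint : Algebra.IsIntegral ℂ (B ⧸ Q) := ⟨fun x => by
    obtain ⟨b, rfl⟩ := Ideal.Quotient.mk_surjective x
    exact IsIntegral.map_of_comp_eq (φ : A →+* ℂ) (Ideal.Quotient.mk Q) (RingHom.ext hc)
      (Algebra.IsIntegral.isIntegral b)⟩
  let e : ℂ ≃ₐ[ℂ] (B ⧸ Q) := AlgEquiv.ofBijective (Algebra.ofId ℂ (B ⧸ Q))
    IsAlgClosed.algebraMap_bijective_of_isIntegral
  refine ⟨e.symm.toAlgHom.comp (Ideal.Quotient.mkₐ ℂ Q), fun a => ?_⟩
  change e.symm (Ideal.Quotient.mk Q (algebraMap A B a)) = φ a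
  rw [← hc, AlgEquiv.commutes]
  rfl

theorem push_loc (B0 : Subalgebra ℂ K) (β : B0) (hβ : (β : K) ≠ 0) :
    ∃ (B : Subalgebra ℂ K) (h : B0 ≤ B), (β : K)⁻¹ ∈ B ∧
      ∀ f0 : B0 →ₐ[ℂ] ℂ, f0 β ≠ 0 → ∃ f : B →ₐ[ℂ] ℂ, ∀ a : B0, f ⟨a, h a.2⟩ = f0 a := by
  have hu : IsUnit (B0.val β) := IsUnit.mk0 _ hβ
  let g : Localization.Away β →ₐ[ℂ] K := IsLocalization.Away.liftAlgHom β hu
  have hg : ∀ a : B0, g (algebraMap B0 _ a) = a := fun a => IsLocalization.Away.lift_eq β hu a
  have hinj : Function.Injective g := by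
    refine (IsLocalization.injective_iff_map_algebraMap_eq (Submonoid.powers β)
      (g : Localization.Away β →+* K)).2 fun a b => ⟨fun h => congrArg g h, fun h => ?_⟩
    have h' : g (algebraMap B0 _ a) = g (algebraMap B0 _ b) := h
    rw [hg, hg] at h'
    rw [Subtype.ext h']
  refine ⟨g.range, fun a ha => ⟨_, hg ⟨a, ha⟩⟩, ⟨IsLocalization.Away.invSelf β, ?_⟩,
    fun f0 h0 => ?_⟩
  · have := congrArg g (IsLocalization.Away.mul_invSelf (S := Localization.Away β) β)
    rw [map_mul, hg, map_one] at this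
    exact eq_inv_of_mul_eq_one_right this
  · refine ⟨(IsLocalization.Away.liftAlgHom β (IsUnit.mk0 _ h0)).comp
      (AlgEquiv.ofInjective g hinj).symm.toAlgHom, fun a => ?_⟩
    have h1 : (AlgEquiv.ofInjective g hinj).symm ⟨a, _, hg a⟩ = algebraMap B0 _ a := by
      rw [AlgEquiv.symm_apply_eq]
      exact Subtype.ext (hg a).symm
    change IsLocalization.Away.liftAlgHom β (IsUnit.mk0 _ h0)
      ((AlgEquiv.ofInjective g hinj).symm ⟨a, _, hg a⟩) = _
    rw [h1]
    exact IsLocalization.Away.lift_eq β (IsUnit.mk0 _ h0) a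

omit [Fintype ι] [DecidableEq ι] in
/-- Points over generic points of the base.  Let `b0` be the product of leading coefficients of
equations of the elements of `T` over `ℂ[y]`, `B = adjoin (y, T, b0(y)⁻¹)`, which is integral over
`A0 = adjoin (y, b0(y)⁻¹)`, a localisation of the polynomial ring.  Extend the evaluation
`A0 → ℂ` (`Ideal.exists_ideal_over_maximal_of_isIntegral` and `IsAlgClosed.lift` on the quotient
field, or `exists_algHom`-like lemmas for integral extensions).  Alternatively adjoin the elements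
`b0 * a`, which are integral over `ℂ[y]`, extend the evaluation and then localise. -/
theorem exists_gen_pt {y : ι → K} (hy : AlgebraicIndependent ℂ y) (T : Finset K)
    (hT : ∀ a ∈ T, IsAlgebraic (Algebra.adjoin ℂ (Set.range y)) a) :
    ∃ (B : Subalgebra ℂ K) (b0 : MvPolynomial ι ℂ) (hB : ∀ l, y l ∈ B), (∀ a ∈ T, a ∈ B) ∧
      b0 ≠ 0 ∧ ∀ y0 : ι → ℂ, eval y0 b0 ≠ 0 → ∃ f : B →ₐ[ℂ] ℂ, ∀ l, f ⟨y l, hB l⟩ = y0 l := by
  classical
  set A := Algebra.adjoin ℂ (Set.range y) with hA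
  choose! r hr0 hr using fun a ha => (hT a ha).exists_integral_multiple
  let b : A := ∏ a ∈ T, r a
  have hb0 : b ≠ 0 := Finset.prod_ne_zero_iff.2 hr0
  have hbK : (b : K) ≠ 0 := fun h => hb0 (Subtype.ext h)
  let B0 : Subalgebra ℂ K := (integralClosure A K).restrictScalars ℂ
  have hAB : ∀ a : A, (a : K) ∈ B0 := fun a => isIntegral_algebraMap (R := A) (x := a)
  obtain ⟨B, hle, hinv, hext⟩ := push_loc B0 ⟨b, hAB b⟩ hbK
  have hyA : ∀ l, y l ∈ A := fun l => Algebra.subset_adjoin ⟨l, rfl⟩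
  refine ⟨B, hy.aevalEquiv.symm b, fun l => hle (hAB ⟨y l, hyA l⟩), fun a ha => ?_,
    (map_ne_zero_iff _ hy.aevalEquiv.symm.injective).2 hb0, fun y0 h0 => ?_⟩
  · obtain ⟨s, hs⟩ : r a ∣ b := Finset.dvd_prod_of_mem r ha
    have h1 : (b : K) * a ∈ B0 := by
      have h2 := B0.mul_mem (hAB s) (show (r a • a : K) ∈ B0 from hr a ha)
      rw [hs, Subalgebra.coe_mul, mul_comm (r a : K), mul_assoc]
      exact h2
    have h3 := B.mul_mem hinv (hle h1)
    rwa [inv_mul_cancel_left₀ hbK] at h3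
  · let φ : A →ₐ[ℂ] ℂ := (aeval y0).comp hy.aevalEquiv.symm.toAlgHom
    obtain ⟨f0, hf0⟩ := push_ext (A := A) (B := integralClosure A K)
      (fun a a' h => by
        have := congrArg (integralClosure A K).val h
        rw [AlgHom.commutes, AlgHom.commutes] at this
        exact Subtype.ext this) φ
    have hf : ∀ a : A, f0 ⟨a, hAB a⟩ = φ a := hf0
    obtain ⟨f, hf'⟩ := hext f0 ((hf b).trans_ne h0)
    refine ⟨f, fun l => (hf' ⟨y l, hAB ⟨y l, hyA l⟩⟩).trans ((hf ⟨y l, hyA l⟩).trans ?_)⟩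
    have h4 : hy.aevalEquiv.symm ⟨y l, hyA l⟩ = X l := by
      rw [AlgEquiv.symm_apply_eq]
      exact Subtype.ext (by simp)
    change aeval y0 (hy.aevalEquiv.symm ⟨y l, hyA l⟩) = y0 l
    rw [h4, aeval_X]

/-- a lower bound for roots: if `∑ a j * x ^ j * g ^ (d - j) = 0` with `a 0 ≠ 0`, `g ≠ 0`, then
for some `1 ≤ j ≤ d`, `|a 0| |g|^j ≤ d |a j| |x|^j` -/
theorem root_lower (d : ℕ) (a : ℕ → ℂ) (x g : ℂ) (h0 : a 0 ≠ 0)
    (h : ∑ j ∈ Finset.range (d + 1), a j * x ^ j * g ^ (d - j) = 0) :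
    g = 0 ∨ ∃ j, 1 ≤ j ∧ j ≤ d ∧ ‖a 0‖ * ‖g‖ ^ j ≤ d * ‖a j‖ * ‖x‖ ^ j := by
  by_contra hc
  push Not at hc
  obtain ⟨hg, hc⟩ := hc
  have hg' : 0 < ‖g‖ := norm_pos_iff.2 hg
  rw [Finset.sum_range_succ', pow_zero, mul_one, Nat.sub_zero, add_eq_zero_iff_eq_neg] at h
  rcases Nat.eq_zero_or_pos d with rfl | hd
  · simp [h0] at h
  have h1 : ‖a 0‖ * ‖g‖ ^ d ≤
      ∑ j ∈ Finset.range d, ‖a (j + 1)‖ * ‖x‖ ^ (j + 1) * ‖g‖ ^ (d - (j + 1)) := by
    rw [← norm_pow, ← norm_mul, ← norm_neg, ← h]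
    refine (norm_sum_le _ _).trans (le_of_eq (Finset.sum_congr rfl fun j _ => ?_))
    rw [norm_mul, norm_mul, norm_pow, norm_pow]
  have h2 : ∑ j ∈ Finset.range d, d * (‖a (j + 1)‖ * ‖x‖ ^ (j + 1) * ‖g‖ ^ (d - (j + 1))) <
      ∑ _j ∈ Finset.range d, ‖a 0‖ * ‖g‖ ^ d := by
    refine Finset.sum_lt_sum_of_nonempty (Finset.nonempty_range_iff.2 hd.ne') fun j hj => ?_
    have hj' : j + 1 ≤ d := Finset.mem_range.1 hj
    have h3 := mul_lt_mul_of_pos_right (hc (j + 1) (Nat.le_add_left 1 j) hj')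
      (pow_pos hg' (d - (j + 1)))
    rw [mul_assoc ‖a 0‖, ← pow_add, Nat.add_sub_cancel' hj'] at h3
    calc _ = d * ‖a (j + 1)‖ * ‖x‖ ^ (j + 1) * ‖g‖ ^ (d - (j + 1)) := by ring
      _ < _ := h3
  rw [← Finset.mul_sum, Finset.sum_const, Finset.card_range, nsmul_eq_mul] at h2
  exact absurd (mul_le_mul_of_nonneg_left h1 (Nat.cast_nonneg d)) (not_le.2 h2)

/-- Newton polygon: if all roots of `P` have value at least `m` then
`v (coeff j) * m ^ j ≤ v (coeff 0)` (induction on the number of linear factors) -/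
theorem val_coeff_le {F : Type} [Field F] [IsAlgClosed F] (v : Val F) (P : Polynomial F) {m : ℝ≥0}
    (h : ∀ x, P.IsRoot x → m ≤ v x) (j : ℕ) : v (P.coeff j) * m ^ j ≤ v (P.coeff 0) := by
  induction hn : P.natDegree using Nat.strong_induction_on generalizing P j with
  | _ n ih =>
    rcases j with _ | j
    · simp
    rcases Nat.eq_zero_or_pos n with rfl | hpos
    · rw [Polynomial.coeff_eq_zero_of_natDegree_lt (by omega)]
      simp
    have hP0 : P ≠ 0 := by
      rintro rfl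
      simp at hn
      omega
    obtain ⟨r, hr⟩ := IsAlgClosed.exists_root P
      (Polynomial.natDegree_pos_iff_degree_pos.1 (hn ▸ hpos)).ne'
    obtain ⟨Q, rfl⟩ := Polynomial.dvd_iff_isRoot.2 hr
    have hQ0 : Q ≠ 0 := right_ne_zero_of_mul hP0
    rw [Polynomial.natDegree_mul (Polynomial.X_sub_C_ne_zero r) hQ0,
      Polynomial.natDegree_X_sub_C] at hn
    have hQ := fun i => ih Q.natDegree (by omega) Q
      (fun x hx => h x (Polynomial.root_mul_left_of_isRoot _ hx)) i rfl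
    have h0 : v (((Polynomial.X - Polynomial.C r) * Q).coeff 0) = v r * v (Q.coeff 0) := by
      simp
    rw [h0, Polynomial.coeff_X_sub_C_mul]
    have hm := h r hr
    rcases le_max_iff.1 (v.map_sub (Q.coeff j) (r * Q.coeff (j + 1))) with h1 | h1
    · calc _ ≤ v (Q.coeff j) * m ^ (j + 1) := mul_le_mul_left h1 _
        _ = m * (v (Q.coeff j) * m ^ j) := by ring
        _ ≤ _ := mul_le_mul' hm (hQ j)
    · calc _ ≤ v (r * Q.coeff (j + 1)) * m ^ (j + 1) := mul_le_mul_left h1 _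
        _ = v r * (v (Q.coeff (j + 1)) * m ^ (j + 1)) := by rw [map_mul, mul_assoc]
        _ ≤ _ := mul_le_mul_right (hQ (j + 1)) _

/-- a polynomial of degree `< k` with coefficients `H b` has maximal value at all but `k - 1`
natural numbers (scale so that the largest coefficient is `1`; Vandermonde matrices of distinct
natural numbers have unit determinant, or count roots in the residue field) -/
theorem card_bad_le {F : Type} [Field F] [Algebra ℂ F] {v : Val F}
    (htriv : ∀ c : ℂ, c ≠ 0 → v (algebraMap ℂ F c) = 1) {k : ℕ} (H : Fin k → F) (S : Finset ℕ)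
    (h : ∀ c ∈ S, ∃ b, v (∑ b' : Fin k, (c : F) ^ (b' : ℕ) * H b') < v (H b)) : S.card < k ∨ S = ∅ := by
  by_contra hc
  push Not at hc
  obtain ⟨hk, c0, hc0⟩ := hc
  obtain ⟨b1, -⟩ := h c0 hc0
  obtain ⟨b0, -, hb0⟩ := Finset.exists_max_image Finset.univ (fun b => v (H b))
    ⟨b1, Finset.mem_univ _⟩
  have h' : ∀ c ∈ S, v (∑ b' : Fin k, (c : F) ^ (b' : ℕ) * H b') < v (H b0) := fun c hc =>
    let ⟨b, hb⟩ := h c hc
    hb.trans_le (hb0 b (Finset.mem_univ _))
  let c : Fin k → ℕ := S.orderEmbOfCardLe hk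
  have hcS : ∀ i, c i ∈ S := S.orderEmbOfCardLe_mem hk
  have hdet : (Matrix.vandermonde fun i => (c i : ℂ)).det ≠ 0 :=
    Matrix.det_vandermonde_ne_zero_iff.2
      (Nat.cast_injective.comp (S.orderEmbOfCardLe hk).injective)
  have hinv := Matrix.nonsing_inv_mul _ (IsUnit.mk0 _ hdet)
  set W := (Matrix.vandermonde fun i => (c i : ℂ))⁻¹
  have key : H b0 = ∑ i, algebraMap ℂ F (W b0 i) * ∑ b' : Fin k, (c i : F) ^ (b' : ℕ) * H b' := by
    have h1 : ∀ b' : Fin k, ∑ i, algebraMap ℂ F (W b0 i) * (c i : F) ^ (b' : ℕ) =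
        if b0 = b' then 1 else 0 := by
      intro b'
      have h2 := congrArg (algebraMap ℂ F) (congrFun (congrFun hinv b0) b')
      simpa [Matrix.mul_apply, Matrix.one_apply, apply_ite (algebraMap ℂ F)] using h2
    simp_rw [Finset.mul_sum, ← mul_assoc]
    rw [Finset.sum_comm]
    simp_rw [← Finset.sum_mul, h1]
    simp
  have h3 : v (∑ i, algebraMap ℂ F (W b0 i) * ∑ b' : Fin k, (c i : F) ^ (b' : ℕ) * H b') <
      v (H b0) := by
    refine v.map_sum_lt' (zero_le.trans_lt (h' c0 hc0)) fun i _ => ?_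
    rw [map_mul]
    exact (mul_le_of_le_one_left' (lat_const_le htriv _)).trans_lt (h' _ (hcS i))
  rw [← key] at h3
  exact lt_irrefl _ h3

omit [Fintype ι] [DecidableEq ι] in
/-- roots of the minimal polynomial are conjugate under automorphisms fixing `y`
(`IsAlgClosed.lift`/`Normal`: `K` is an algebraic closure of `ℂ(y)`,
`minpoly.exists_algEquiv_of_root`) -/
theorem exists_aut [IsAlgClosed K] {y : ι → K} (hy : IsTranscendenceBasis ℂ y) {a x : K}
    (hx : Polynomial.aeval x (minpoly (IntermediateField.adjoin ℂ (Set.range y)) a) = 0) :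
    ∃ σ : K ≃ₐ[IntermediateField.adjoin ℂ (Set.range y)] K, σ a = x := by
  have := hy.isAlgebraic_field
  have : IsAlgClosure (IntermediateField.adjoin ℂ (Set.range y)) K := ⟨inferInstance, this⟩
  exact minpoly.exists_algEquiv_of_root' (Algebra.IsAlgebraic.isAlgebraic a) hx

/-- `avol_comap_le` for `σ` and `σ.symm`, or conjugate the derivations -/
theorem avol_comap_equiv {v : Val K} (hv : IsAbh v) (σ : K ≃ₐ[ℂ] K) {y : ι → K}
    (hy : ∀ l, σ (y l) = y l) : avol (v.comap σ.toAlgHom.toRingHom) y = avol v y := by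
  have h1 : (fun l => σ.toAlgHom (y l)) = y := funext hy
  have h2 : (fun l => σ.symm.toAlgHom (y l)) = y :=
    funext fun l => σ.symm_apply_eq.2 (hy l).symm
  have h3 : (v.comap σ.toAlgHom.toRingHom).comap σ.symm.toAlgHom.toRingHom = v :=
    Valuation.ext fun a => congrArg v (σ.apply_symm_apply a)
  refine le_antisymm ?_ ?_
  · obtain ⟨q, t, u, hf⟩ := hv
    have := avol_comap_le σ.symm.toAlgHom (v.comap σ.toAlgHom.toRingHom) (h3.symm ▸ hf) y
    rwa [h2, h3] at this
  · obtain ⟨q, t, u, hf⟩ := hv.comap_equiv σ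
    have := avol_comap_le σ.toAlgHom v hf y
    rwa [h1] at this

omit [Fintype ι] [DecidableEq ι] in
theorem push_node [IsAlgClosed K] {y : ι → K} (hy : IsTranscendenceBasis ℂ y) {k : ℕ}
    (z : Fin k → K) : ∃ R : ℕ, ∀ (v : Val K) (m : ℝ≥0),
      (∀ c : ℂ, c ≠ 0 → v (algebraMap ℂ K c) = 1) →
      (∀ σ : K ≃ₐ[IntermediateField.adjoin ℂ (Set.range y)] K, ∃ b, m ≤ v (σ (z b))) →
      ∃ c < R, ∀ x, Polynomial.aeval x (minpoly (IntermediateField.adjoin ℂ (Set.range y))
        (∑ b : Fin k, (c : K) ^ (b : ℕ) * z b)) = 0 → m ≤ v x := by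
  classical
  have := hy.isAlgebraic_field
  let T : Finset (Fin k → K) := Fintype.piFinset fun b =>
    ((minpoly (IntermediateField.adjoin ℂ (Set.range y)) (z b)).aroots K).toFinset
  refine ⟨T.card * k + 1, fun v m htriv hσ => ?_⟩
  by_contra hc
  push Not at hc
  choose! x hx hxm using hc
  choose! σ hσx using fun c hc => exists_aut hy (hx c hc)
  obtain ⟨t, -, ht⟩ := Finset.exists_lt_card_fiber_of_mul_lt_card_of_maps_to
    (s := Finset.range (T.card * k + 1)) (t := T) (f := fun c b => σ c (z b)) (n := k)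
    (fun c _ => Fintype.mem_piFinset.2 fun b => by
      rw [Multiset.mem_toFinset, Polynomial.mem_aroots]
      refine ⟨minpoly.ne_zero (Algebra.IsIntegral.isIntegral _), ?_⟩
      rw [Polynomial.aeval_algHom_apply, minpoly.aeval, map_zero])
    (by rw [Finset.card_range]; omega)
  rcases card_bad_le htriv t
      {c ∈ Finset.range (T.card * k + 1) | (fun b => σ c (z b)) = t} (fun c hc => by
    obtain ⟨h1, rfl⟩ := Finset.mem_filter.1 hc
    have h2 := Finset.mem_range.1 h1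
    obtain ⟨b, hb⟩ := hσ (σ c)
    refine ⟨b, lt_of_lt_of_le ?_ hb⟩
    have h3 := hσx c h2
    simp only [map_sum, map_mul, map_pow, map_natCast] at h3
    rw [h3]
    exact hxm c h2) with h | h
  · omega
  · rw [h] at ht
    simp at ht

omit [Fintype ι] [DecidableEq ι] in
theorem push_clear {y : ι → K} (P : Polynomial (IntermediateField.adjoin ℂ (Set.range y))) :
    ∃ (a : ℕ → MvPolynomial ι ℂ) (s : K), s ≠ 0 ∧ ∀ j, aeval y (a j) = s * P.coeff j := by
  have h1 : ∀ j, ∃ r s : MvPolynomial ι ℂ, aeval y s ≠ 0 ∧ aeval y r = aeval y s * P.coeff j := by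
    intro j
    obtain ⟨r, s, h⟩ := (IntermediateField.mem_adjoin_range_iff ℂ y _).1 (P.coeff j).2
    by_cases hs : aeval y s = 0
    · exact ⟨0, 1, by simp, by simp [h, hs]⟩
    · exact ⟨r, s, hs, by rw [h, mul_div_cancel₀ _ hs]⟩
  choose r s hs hr using h1
  have h2 : ∀ j, ∃ a : MvPolynomial ι ℂ,
      aeval y a = aeval y (∏ i ∈ P.support, s i) * P.coeff j := by
    intro j
    by_cases hj : j ∈ P.support
    · obtain ⟨t, ht⟩ := Finset.dvd_prod_of_mem s hj
      exact ⟨t * r j, by rw [ht, map_mul, map_mul, hr]; ring⟩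
    · exact ⟨0, by rw [Polynomial.notMem_support_iff.1 hj]; simp⟩
  choose a ha using h2
  exact ⟨a, _, by rw [map_prod]; exact Finset.prod_ne_zero_iff.2 fun i _ => hs i, ha⟩

omit [Fintype ι] [DecidableEq ι] in
theorem push_eqs [IsAlgClosed K] {y : ι → K} (hy : IsTranscendenceBasis ℂ y) {k : ℕ}
    (z : Fin k → K) (hz : ∃ b, z b ≠ 0) :
    ∃ (J : Finset ℕ) (a : ℕ → ℕ → MvPolynomial ι ℂ) (D : ℕ), J.Nonempty ∧
      (∀ c ∈ J, a c 0 ≠ 0 ∧ ∑ j ∈ Finset.range (D + 1),
        aeval y (a c j) * (∑ b : Fin k, (c : K) ^ (b : ℕ) * z b) ^ j = 0) ∧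
      ∀ (v : Val K) (m : ℝ≥0), (∀ c : ℂ, c ≠ 0 → v (algebraMap ℂ K c) = 1) →
        (∀ σ : K ≃ₐ[IntermediateField.adjoin ℂ (Set.range y)] K, ∃ b, m ≤ v (σ (z b))) →
        ∃ c ∈ J, ∀ j, v (aeval y (a c j)) * m ^ j ≤ v (aeval y (a c 0)) := by
  classical
  have := hy.isAlgebraic_field
  obtain ⟨R, hR⟩ := push_node hy z
  let x : ℕ → K := fun c => ∑ b : Fin k, (c : K) ^ (b : ℕ) * z b
  let P := fun c => minpoly (IntermediateField.adjoin ℂ (Set.range y)) (x c)
  choose a s hs ha using fun c => push_clear (P c)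
  let J := {c ∈ Finset.range R | x c ≠ 0}
  have hgood : ∀ (v : Val K) (m : ℝ≥0), 0 < m → (∀ c : ℂ, c ≠ 0 → v (algebraMap ℂ K c) = 1) →
      (∀ σ : K ≃ₐ[IntermediateField.adjoin ℂ (Set.range y)] K, ∃ b, m ≤ v (σ (z b))) →
      ∃ c ∈ J, ∀ j, v (aeval y (a c j)) * m ^ j ≤ v (aeval y (a c 0)) := by
    intro v m hm htriv hσ
    obtain ⟨c, hc, hc'⟩ := hR v m htriv hσ
    refine ⟨c, Finset.mem_filter.2 ⟨Finset.mem_range.2 hc, fun h0 => ?_⟩, fun j => ?_⟩
    · have h1 : m ≤ v (x c) := hc' (x c) (minpoly.aeval _ _)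
      rw [h0, map_zero] at h1
      exact absurd h1 (not_le.2 hm)
    · have h1 := val_coeff_le v ((P c).map (algebraMap _ K)) (m := m) (fun w hw => hc' w (by
        rwa [Polynomial.IsRoot.def, Polynomial.eval_map_algebraMap] at hw)) j
      rw [Polynomial.coeff_map, Polynomial.coeff_map] at h1
      rw [ha, ha, map_mul, map_mul, mul_assoc]
      exact mul_le_mul_right h1 _
  have hJ : J.Nonempty := by
    obtain ⟨b, hb⟩ := hz
    obtain ⟨c, hc, -⟩ := hgood 1 1 one_pos
      (fun c hc => Valuation.one_apply_of_ne_zero ((map_ne_zero _).2 hc))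
      fun σ => ⟨b, (Valuation.one_apply_of_ne_zero ((map_ne_zero σ).2 hb)).ge⟩
    exact ⟨c, hc⟩
  refine ⟨J, a, J.sup fun c => (P c).natDegree, hJ, fun c hc => ⟨fun h0 => ?_, ?_⟩,
    fun v m htriv hσ => ?_⟩
  · have h1 := ha c 0
    rw [h0, map_zero, eq_comm, mul_eq_zero, ZeroMemClass.coe_eq_zero] at h1
    exact h1.elim (hs c) (minpoly.coeff_zero_ne_zero (Algebra.IsIntegral.isIntegral _)
      (Finset.mem_filter.1 hc).2)
  · have h1 : Polynomial.aeval (x c) (P c) = 0 := minpoly.aeval _ _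
    rw [Polynomial.aeval_eq_sum_range' (Nat.lt_succ_of_le
      (Finset.le_sup (f := fun c => (P c).natDegree) hc))] at h1
    have h2 := congrArg (s c * ·) h1
    simp only [Finset.mul_sum, mul_zero] at h2
    rw [← h2]
    refine Finset.sum_congr rfl fun j _ => ?_
    rw [ha, mul_assoc]
    rfl
  · rcases eq_or_ne m 0 with rfl | hm
    · obtain ⟨c, hc⟩ := hJ
      refine ⟨c, hc, fun j => ?_⟩
      rcases j with _ | j <;> simp
    · exact hgood v m (pos_iff_ne_zero.2 hm) htriv hσ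

theorem push_poly {y : ι → K} (hy : AlgebraicIndependent ℂ y) {E : ℕ}
    (hP : ∀ (q : MvPolynomial ι ℂ) (β : Type) [Fintype β] (p : β → MvPolynomial ι ℂ) (N : ℕ),
      0 < N → q ≠ 0 → (∀ b, p b ≠ 0) → VHyp y (aeval y q) (fun b => aeval y (p b)) N E →
      PCon q p N)
    {J : Type} [Fintype J] [Nonempty J] (a : J → ℕ → MvPolynomial ι ℂ) (h0 : ∀ c, a c 0 ≠ 0)
    (D : ℕ) {N : ℕ} (hN : 0 < N)
    (hv : ∀ v : Val K, IsAbh v → ∃ c, ∀ j, (avol v y ^ (N * (E - 1))) ^ j *
      v (aeval y (a c j)) ^ E ≤ v (aeval y (a c 0)) ^ E) :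
    ∃ (Φ : (ι → ℂ) → ℝ) (M : ℕ), Measurable Φ ∧ (∀ q, 0 ≤ Φ q) ∧
      ∫⁻ q, ENNReal.ofReal (Φ q * ((1 + ‖q‖ ^ 2)⁻¹) ^ M) < ⊤ ∧
      ∀ (y0 : ι → ℂ) (j : J → ℕ), (∀ c, 1 ≤ j c ∧ j c ≤ D) → ∃ c,
        (‖eval y0 (a c (j c))‖ / ‖eval y0 (a c 0)‖) ^ (2 / ((N : ℝ) * j c)) ≤ Φ y0 := by
  classical
  let n := D.factorial
  have hn : 0 < n := D.factorial_pos
  let r : (J → ℕ) → J → MvPolynomial ι ℂ := fun j c =>
    ∏ c' ∈ Finset.univ.erase c, a c' (j c') ^ (n / j c')
  let q : (J → ℕ) → MvPolynomial ι ℂ := fun j => ∏ c, a c (j c) ^ (n / j c)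
  let p : (J → ℕ) → J → MvPolynomial ι ℂ := fun j c => a c 0 ^ (n / j c) * r j c
  have hq : ∀ j c, q j = a c (j c) ^ (n / j c) * r j c := fun j c =>
    (Finset.mul_prod_erase _ (fun c => a c (j c) ^ (n / j c)) (Finset.mem_univ c)).symm
  let S := Fintype.piFinset fun _ : J => Finset.Icc 1 D
  have hdiv : ∀ j ∈ S, ∀ c, j c * (n / j c) = n := fun j hj c =>
    have h := Finset.mem_Icc.1 (Fintype.mem_piFinset.1 hj c)
    Nat.mul_div_cancel' (Nat.dvd_factorial h.1 h.2)
  have hNn : (2 : ℝ) / ((N * n : ℕ) : ℝ) ≠ 0 := by positivity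
  have hcon : ∀ j ∈ S, PCon (q j) (p j) (N * n) := by
    intro j hj
    by_cases hq0 : q j = 0
    · exact ⟨0, by simp only [pfn, hq0, map_zero, norm_zero, zero_div, Real.zero_rpow hNn]; simp⟩
    have hp : ∀ c, p j c ≠ 0 := fun c =>
      mul_ne_zero (pow_ne_zero _ (h0 c)) (right_ne_zero_of_mul (hq j c ▸ hq0))
    refine hP _ J _ _ (Nat.mul_pos hN hn) hq0 hp ⟨⟨Classical.arbitrary J, fun h => hp _
      (hy.eq_zero_of_aeval_eq_zero _ h)⟩, fun v hv' => ?_⟩
    obtain ⟨c, hc⟩ := hv v hv'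
    refine ⟨c, ?_⟩
    have h1 := mul_le_mul_left (pow_le_pow_left' (hc (j c)) (n / j c)) (v (aeval y (r j c)) ^ E)
    have h2 : N * n * (E - 1) = N * (E - 1) * j c * (n / j c) := by
      rw [mul_assoc _ (j c), hdiv j hj c]; ring
    rw [hq j c, h2]
    simp only [p, map_mul, map_pow, mul_pow, ← pow_mul] at h1 ⊢
    rw [mul_comm (n / j c) E, ← mul_assoc]
    exact h1
  choose! M hM using hcon
  have hnn : ∀ j y0, 0 ≤ pfn (q j) (p j) (N * n) y0 := fun j y0 =>
    Real.rpow_nonneg (div_nonneg (norm_nonneg _) (Real.iSup_nonneg fun _ => norm_nonneg _)) _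
  refine ⟨fun y0 => ∑ j ∈ S, pfn (q j) (p j) (N * n) y0, S.sup M,
    Finset.measurable_sum _ fun j _ => measurable_pfn _ _ _,
    fun y0 => Finset.sum_nonneg fun j _ => hnn j y0, ?_, fun y0 j hj => ?_⟩
  · have hw : ∀ y0 : ι → ℂ, 0 ≤ (1 + ‖y0‖ ^ 2)⁻¹ := fun y0 => by positivity
    calc _ ≤ ∫⁻ y0, ∑ j ∈ S, ENNReal.ofReal
          (pfn (q j) (p j) (N * n) y0 * ((1 + ‖y0‖ ^ 2)⁻¹) ^ M j) := by
          refine lintegral_mono fun y0 => ?_
          rw [← ENNReal.ofReal_sum_of_nonneg fun j _ => mul_nonneg (hnn j y0) (pow_nonneg (hw y0) _),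
            Finset.sum_mul]
          refine ENNReal.ofReal_le_ofReal (Finset.sum_le_sum fun j hj => ?_)
          exact mul_le_mul_of_nonneg_left (pow_le_pow_of_le_one (hw y0)
            (inv_le_one_of_one_le₀ (le_add_of_nonneg_right (sq_nonneg _))) (Finset.le_sup hj))
            (hnn j y0)
      _ < ⊤ := by
          rw [lintegral_finsetSum]
          · exact ENNReal.sum_lt_top.2 hM
          · exact fun j _ => ((measurable_pfn _ _ _).mul
              ((measurable_const.add (measurable_norm.pow_const 2)).inv.pow_const _)).ennreal_ofReal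
  · have hjS : j ∈ S := Fintype.mem_piFinset.2 fun c => Finset.mem_Icc.2 (hj c)
    have hle : pfn (q j) (p j) (N * n) y0 ≤ ∑ j ∈ S, pfn (q j) (p j) (N * n) y0 :=
      Finset.single_le_sum (fun j _ => hnn j y0) hjS
    have hj0 : ∀ c, (0 : ℝ) < j c := fun c => Nat.cast_pos.2 (hj c).1
    by_cases hz : ∃ c, eval y0 (a c (j c)) = 0
    · obtain ⟨c, hc⟩ := hz
      refine ⟨c, ?_⟩
      have := hj0 c
      rw [hc, norm_zero, zero_div, Real.zero_rpow (by positivity)]
      exact (hnn j y0).trans hle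
    push Not at hz
    obtain ⟨c, hc⟩ := exists_eq_ciSup_of_finite (f := fun c => ‖eval y0 (p j c)‖)
    refine ⟨c, le_trans (le_of_eq ?_) hle⟩
    have hr : ‖eval y0 (r j c)‖ ≠ 0 := by
      rw [norm_ne_zero_iff, map_prod]
      exact Finset.prod_ne_zero_iff.2 fun c' _ => by rw [map_pow]; exact pow_ne_zero _ (hz c')
    rw [pfn, ← hc, hq j c]
    simp only [p, map_mul, map_pow, norm_mul, norm_pow]
    rw [mul_div_mul_right _ _ hr, ← div_pow, ← Real.rpow_natCast_mul (by positivity)]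
    refine congrArg _ ?_
    have h1 : (n : ℝ) = j c * (n / j c : ℕ) := by rw [← Nat.cast_mul, hdiv j hjS c]
    have h2 : (0 : ℝ) < (n / j c : ℕ) :=
      Nat.cast_pos.2 (Nat.pos_of_mul_pos_left (lt_of_lt_of_eq hn (hdiv j hjS c).symm))
    have := hj0 c
    rw [Nat.cast_mul, h1]
    field_simp

theorem push_real {D j N : ℕ} {a0 a x g h C Φ : ℝ} (h0 : 0 < a0) (ha : 0 ≤ a) (hx : 0 ≤ x)
    (hg : 0 ≤ g) (hh : 0 ≤ h) (hC : 0 ≤ C) (hj : 1 ≤ j) (hjD : j ≤ D)
    (h1 : a0 * g ^ j ≤ D * a * x ^ j) (h2 : x ≤ C * h)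
    (h3 : (a / a0) ^ (2 / ((N : ℝ) * j)) ≤ Φ) :
    g ^ (2 / (N : ℝ)) ≤ (D * C) ^ (2 / (N : ℝ)) * Φ * h ^ (2 / (N : ℝ)) := by
  have hj0 : j ≠ 0 := by omega
  have hr : 0 ≤ a / a0 := div_nonneg ha h0.le
  have hρ : 0 ≤ (a / a0) ^ (j⁻¹ : ℝ) := Real.rpow_nonneg hr _
  have hD : (1 : ℝ) ≤ D := Nat.one_le_cast.2 (hj.trans hjD)
  have h4 : g ≤ D * C * (a / a0) ^ (j⁻¹ : ℝ) * h := by
    refine le_of_pow_le_pow_left₀ hj0 (by positivity) ?_
    calc g ^ j ≤ D * (a / a0) * x ^ j := by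
          rw [mul_div_assoc', div_mul_eq_mul_div, le_div_iff₀' h0]; exact h1
      _ ≤ D ^ j * (a / a0) * (C * h) ^ j := by
          gcongr
          exact le_self_pow₀ hD hj0
      _ = _ := by
          rw [mul_pow, mul_pow, mul_pow, mul_pow, Real.rpow_inv_natCast_pow hr hj0]; ring
  calc g ^ (2 / (N : ℝ)) ≤ (D * C * (a / a0) ^ (j⁻¹ : ℝ) * h) ^ (2 / (N : ℝ)) :=
        Real.rpow_le_rpow hg h4 (by positivity)
    _ = (D * C) ^ (2 / (N : ℝ)) * (a / a0) ^ (2 / ((N : ℝ) * j)) * h ^ (2 / (N : ℝ)) := by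
        rw [Real.mul_rpow (by positivity) hh, Real.mul_rpow (by positivity) hρ,
          ← Real.rpow_mul hr, inv_mul_eq_div, div_div]
    _ ≤ _ := by gcongr

/-- If `G = 0` take `Φ = 0`.  Otherwise reindex `β` by `Fin k`, let `F = ℂ(y)`, `d0` the degree of
`F(H b / G)` over `F`, nodes `c ∈ range (d0 * k + 1)`, `x c = ∑ b, c ^ b * H b / G`, and let `J` be
the set of nodes with `x c ≠ 0` (nonempty by `card_bad_le` for the trivial valuation, or
Vandermonde).  For `c ∈ J` clear denominators in the minimal polynomial of `x c`: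
`∑ j ≤ d c, a c j (y) * (x c) ^ j = 0` with polynomials `a c j`, `a c 0 ≠ 0`, `d c ≤ d0`.  Let
`n = d0 !`.  For every function `j : J → [1, d0]` consider `q = ∏ c, (a c (j c)) ^ (n / j c)` and
`p c = (a c 0) ^ (n / j c) * ∏ c' ≠ c, (a c' (j c')) ^ (n / j c')`, with exponent `N * n`.  If
`q = 0` then `pfn q p = 0`.  Otherwise `VHyp` holds: given `v`, put
`m = avol ^ (N (E - 1) / E)`; each automorphism `σ` over `F` has `m ≤ max_b v (σ (H b / G))`
(`IsAbh.comap_equiv`, `avol_comap_equiv`); if every node `c ∈ J` had a root of value `< m`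
(`exists_aut`), then by the pigeonhole principle (there are at most `d0` restrictions of
automorphisms to `F(H b / G)`, `AlgHom.card_le`-like; nodes outside `J` are bad for every `σ` if
`m > 0`) `k` nodes would be bad for the same `σ`, contradicting `card_bad_le`; so for a good node
`val_coeff_le` applies.  Take `Φ = const * ∑ j, pfn (q j) (p j) (N * n)` and `b0` the product of
all nonzero `a c j`.  At a point `f`: `root_lower` defines `j c` for each `c ∈ J`, and
`|f (∑ c ^ b * H b)| ≤ const * max_b |f (H b)|`. -/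
theorem push [IsAlgClosed K] {y : ι → K} (hy : IsTranscendenceBasis ℂ y) {E : ℕ} (hE : 0 < E)
    (hP : ∀ (q : MvPolynomial ι ℂ) (β : Type) [Fintype β] (p : β → MvPolynomial ι ℂ) (N : ℕ),
      0 < N → q ≠ 0 → (∀ b, p b ≠ 0) → VHyp y (aeval y q) (fun b => aeval y (p b)) N E →
      PCon q p N)
    (G : K) {β : Type} [Fintype β] (H : β → K) {N : ℕ} (hN : 0 < N) (h : VHyp y G H N E) :
    VCon y G H N := by
  classical
  obtain ⟨⟨b1, hb1⟩, hv⟩ := h
  have hN2 : (2 : ℝ) / N ≠ 0 := by positivity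
  rcases eq_or_ne G 0 with rfl | hG
  · refine ⟨1, 0, 0, one_ne_zero, measurable_zero, fun _ => le_rfl, by simp,
      fun B _ _ i hi f y' G' H' _ hG' _ _ => ⟨b1, ?_⟩⟩
    rw [(map_eq_zero_iff i hi).1 hG', map_zero, norm_zero, Real.zero_rpow hN2]
    simp
  let e := Fintype.equivFin β
  obtain ⟨J, a, D, hJ, heq, hval⟩ := push_eqs hy (fun b => H (e.symm b) / G)
    ⟨e b1, by rw [e.symm_apply_apply]; exact div_ne_zero hb1 hG⟩
  have : Nonempty J := hJ.to_subtype
  obtain ⟨Φ, M, hΦm, hΦ0, hΦi, hΦ⟩ := push_poly hy.1 hP (fun c : J => a c) (fun c => (heq c c.2).1)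
    D hN fun v hv' => by
    have hm := NNReal.rpow_inv_natCast_pow (avol v y ^ (N * (E - 1))) hE.ne'
    obtain ⟨c, hc, hc'⟩ := hval v ((avol v y ^ (N * (E - 1))) ^ (E⁻¹ : ℝ)) hv'.triv fun σ => by
      obtain ⟨b, hb⟩ := hv _ (hv'.comap_equiv (σ.restrictScalars ℂ))
      rw [avol_comap_equiv (y := y) hv' (σ.restrictScalars ℂ) fun l =>
        σ.commutes ⟨y l, IntermediateField.subset_adjoin _ _ ⟨l, rfl⟩⟩] at hb
      refine ⟨e b, le_of_pow_le_pow_left₀ hE.ne' zero_le ?_⟩
      have h1 : 0 < v (σ G) := (Valuation.pos_iff v).2 ((map_ne_zero σ).2 hG)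
      rw [hm, e.symm_apply_apply, map_div₀, map_div₀, div_pow, le_div_iff₀ (pow_pos h1 E)]
      exact hb
    refine ⟨⟨c, hc⟩, fun j => ?_⟩
    have h2 := pow_le_pow_left' (hc' j) E
    rwa [mul_pow, ← pow_mul, mul_comm j E, pow_mul, hm, mul_comm] at h2
  let C : ℝ := ∑ c ∈ J, ∑ b : Fin (Fintype.card β), (c : ℝ) ^ (b : ℕ)
  have hC : 0 ≤ C := by positivity
  have hDC : 0 ≤ (D * C) ^ (2 / (N : ℝ)) := by positivity
  refine ⟨∏ c ∈ J, a c 0, fun q => (D * C) ^ (2 / (N : ℝ)) * Φ q, M,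
    Finset.prod_ne_zero_iff.2 fun c hc => (heq c hc).1, hΦm.const_mul _,
    fun q => mul_nonneg hDC (hΦ0 q), ?_, fun B _ _ i hi f y' G' H' hy' hG' hH' hb => ?_⟩
  · simp_rw [mul_assoc, ENNReal.ofReal_mul hDC]
    rw [lintegral_const_mul' _ _ ENNReal.ofReal_ne_top]
    exact ENNReal.mul_lt_top ENNReal.ofReal_lt_top hΦi
  obtain ⟨b0, -, hb0⟩ := Finset.exists_max_image Finset.univ (fun b => ‖f (H' b)‖)
    ⟨b1, Finset.mem_univ _⟩
  refine ⟨b0, ?_⟩
  by_cases hg : f G' = 0
  · rw [hg, norm_zero, Real.zero_rpow hN2]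
    exact mul_nonneg (mul_nonneg hDC (hΦ0 _)) (by positivity)
  rw [map_prod] at hb
  have ha0 := Finset.prod_ne_zero_iff.1 hb
  let x : ℕ → B := fun c => ∑ b : Fin (Fintype.card β), (c : B) ^ (b : ℕ) * H' (e.symm b)
  have hroot : ∀ c : J, ∃ j, 1 ≤ j ∧ j ≤ D ∧ ‖eval (fun l => f (y' l)) (a c 0)‖ * ‖f G'‖ ^ j ≤
      D * ‖eval (fun l => f (y' l)) (a c j)‖ * ‖f (x c)‖ ^ j := by
    intro c
    refine (root_lower D (fun j => eval (fun l => f (y' l)) (a c j)) _ _ (ha0 c c.2) ?_).resolve_left hg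
    have h1 : ∑ j ∈ Finset.range (D + 1), aeval y' (a c j) * x c ^ j * G' ^ (D - j) = 0 := by
      apply hi
      have h2 := congrArg (· * G ^ D) (heq c c.2).2
      simp only [Finset.sum_mul, zero_mul] at h2
      rw [map_zero, ← h2, map_sum]
      refine Finset.sum_congr rfl fun j hj => ?_
      have h3 : i (x c) = (∑ b : Fin (Fintype.card β), (c : K) ^ (b : ℕ) * (H (e.symm b) / G)) * G := by
        simp only [x, map_sum, map_mul, map_pow, map_natCast, hH', Finset.sum_mul, mul_assoc,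
          div_mul_cancel₀ _ hG]
      rw [map_mul, map_mul, map_pow, map_pow, h3, hG', comp_aeval_apply, funext hy', mul_pow,
        mul_assoc, mul_assoc, mul_assoc, ← pow_add,
        Nat.add_sub_cancel' (Nat.lt_succ_iff.1 (Finset.mem_range.1 hj))]
    have h4 := congrArg f h1
    simp only [map_sum, map_mul, map_pow, map_zero, comp_aeval_apply] at h4
    exact h4
  choose j hj1 hjD hj using hroot
  obtain ⟨c, hc⟩ := hΦ (fun l => f (y' l)) j fun c => ⟨hj1 c, hjD c⟩
  refine push_real (norm_pos_iff.2 (ha0 c c.2)) (norm_nonneg _) (norm_nonneg _) (norm_nonneg _)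
    (norm_nonneg _) hC (hj1 c) (hjD c) (hj c) ?_ hc
  calc ‖f (x c)‖ ≤ ∑ b : Fin (Fintype.card β), ((c : ℕ) : ℝ) ^ (b : ℕ) * ‖f (H' b0)‖ := by
        rw [map_sum]
        refine (norm_sum_le _ _).trans (Finset.sum_le_sum fun b _ => ?_)
        rw [map_mul, map_pow, map_natCast, norm_mul, norm_pow, Complex.norm_natCast]
        exact mul_le_mul_of_nonneg_left (hb0 _ (Finset.mem_univ _)) (by positivity)
    _ ≤ C * ‖f (H' b0)‖ := by
        rw [← Finset.sum_mul]
        exact mul_le_mul_of_nonneg_right (Finset.single_le_sum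
          (f := fun c : ℕ => ∑ b : Fin (Fintype.card β), (c : ℝ) ^ (b : ℕ))
          (fun c _ => by positivity) c.2) (norm_nonneg _)

end Pool.Agent.MP_c0606f_ag.Klt

end

-- part MP_c0606f_ag.Klt.Extg
section

/-! Valuations on discs; linear changes of coordinates. -/

namespace Pool.Agent.MP_c0606f_ag.Klt

open MeasureTheory MvPolynomial
open scoped NNReal ENNReal

variable {ι K K' : Type} [Fintype ι] [DecidableEq ι] [Field K] [Algebra ℂ K] [Field K']
  [Algebra ℂ K']

omit [Fintype ι] [DecidableEq ι] in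
/-- a derivation killing the `y (some l)` kills `j K'` -/
theorem extg_kill (j : K' →ₐ[ℂ] K) {y : Option ι → K} {y' : ι → K'}
    (hy' : IsTranscendenceBasis ℂ y') (hj : ∀ l, j (y' l) = y (some l)) (D : Derivation ℂ K K)
    (hD : ∀ l, D (y (some l)) = 0) (a : K') : D (j a) = 0 := by
  refine der_kill_alg D (Set.range fun l => y (some l)) ?_
    (gauss_alg_map j ?_ (hy'.isAlgebraic.1 a))
  · rintro _ ⟨l, rfl⟩
    exact hD l
  · rintro _ ⟨l, rfl⟩
    exact ⟨l, (hj l).symm⟩

theorem extg_extend {F : Type} [Field F] [Algebra ℂ F] (J : F →ₐ[ℂ] K)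
    (halg : ∀ a : K, IsAlgebraic J.range a) (v0 : Val F) :
    ∃ v : Val K, v.comap J.toRingHom = v0 := by
  letI : Algebra F K := J.toRingHom.toAlgebra
  have : Algebra.IsAlgebraic F K := ⟨fun a =>
    IsAlgebraic.of_ringHom_of_comp_eq J.rangeRestrict (RingHom.id K) (halg a)
      J.rangeRestrict_surjective Function.injective_id (RingHom.ext fun _ => rfl)⟩
  obtain ⟨v, hv⟩ := exists_extend (L := K) v0
  exact ⟨v, Valuation.ext hv⟩

theorem extg_gauss_add {F : Type} [Field F] {v0 : Val F} {c : ℝ≥0} {v : Val (RatFunc F)}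
    (h : IsGauss v0 c v) (a : F) : v (RatFunc.X + RatFunc.C a) = max c (v0 a) := by
  refine le_antisymm ((v.map_add _ _).trans (by rw [h.X, h.C])) ?_
  have h1 := (h (Polynomial.X + Polynomial.C a)).1
  rw [map_add, RatFunc.algebraMap_X, RatFunc.algebraMap_C] at h1
  refine max_le ?_ ?_
  · simpa using h1 1
  · simpa using h1 0

theorem extg_restrict (j : K' →ₐ[ℂ] K) (E : Derivation ℂ K K) (D : Derivation ℂ K' K')
    (G : Set K') (hG : ∀ a ∈ G, E (j a) = j (D a)) {a : K'}
    (ha : IsAlgebraic (Algebra.adjoin ℂ G) a) : E (j a) = j (D a) := by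
  simpa using der_comp_eq j E (fun _ : Unit => D) (fun _ => 1) G (by simpa using hG) ha

/-- a block triangular Jacobian -/
theorem extg_block (v : Val K) (y : Option ι → K) (E : Option ι → Derivation ℂ K K)
    (hE : ∀ o, E o ∈ LD v ∅) (h0 : ∀ l, E none (y (some l)) = 0) :
    v (E none (y none)) * v (Matrix.of fun i l => E (some i) (y (some l))).det ≤ avol v y := by
  have h1 := lat_le_evol v ∅ y E hE
  rw [← Matrix.det_transpose, ent_det_option _ (fun i => h0 i), map_mul] at h1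
  rw [← Matrix.det_transpose]
  exact h1

omit [Fintype ι] [DecidableEq ι] in
/-- `y none` is transcendental over `j K'`, which is algebraic over `ℂ[y (some l)]`; so for
`w = a * y none + b` or `w = (y none - θ)⁻¹` there is a homomorphism from `RatFunc K'`
(`RatFunc.liftAlgHom`-like; make `K` a `K'`-algebra through `j`), over whose image `K` is
algebraic. -/
theorem exists_ratFunc_hom (j : K' →ₐ[ℂ] K) {y : Option ι → K} (hy : IsTranscendenceBasis ℂ y)
    {y' : ι → K'} (hy' : IsTranscendenceBasis ℂ y') (hj : ∀ l, j (y' l) = y (some l)) (θ : K')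
    (s : ℤ) (hs : s = 1 ∨ s = -1) : ∃ J : RatFunc K' →ₐ[ℂ] K, (∀ a, J (RatFunc.C a) = j a) ∧
      J RatFunc.X = (y none - j θ) ^ s ∧ ∀ a : K, IsAlgebraic J.range a := by
  letI : Algebra K' K := j.toRingHom.toAlgebra
  have : IsScalarTower ℂ K' K := .of_algebraMap_eq fun c => (j.commutes c).symm
  obtain ⟨D, hD⟩ := exists_der hy fun o => o.elim 1 fun _ => 0
  have hk := extg_kill j hy' hj D fun l => hD (some l)
  have h1 : Transcendental K' (y none - j θ) := by
    intro h
    have h2 : IsAlgebraic (Algebra.adjoin ℂ (Set.range j)) (y none - j θ) := by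
      refine IsAlgebraic.tower_top_of_subalgebra_le (A := j.range) ?_
        (h.ringHom_of_comp_eq j.rangeRestrict (RingHom.id K)
          (fun a b hab => j.injective (congrArg Subtype.val hab)) (RingHom.ext fun _ => rfl))
      rintro _ ⟨a, rfl⟩
      exact Algebra.subset_adjoin ⟨a, rfl⟩
    have h3 := der_kill_alg D (Set.range j) (by rintro _ ⟨a, rfl⟩; exact hk a) h2
    rw [map_sub, hk, hD] at h3
    simp at h3
  have h2 : Transcendental K' ((y none - j θ) ^ s) := by
    rcases hs with rfl | rfl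
    · rwa [zpow_one]
    · rw [zpow_neg_one]
      exact fun h => h1 (IsAlgebraic.inv_iff.1 h)
  have hinj := transcendental_iff_injective.1 h2
  let J := (RatFunc.liftAlgHom (Polynomial.aeval ((y none - j θ) ^ s) : Polynomial K' →ₐ[K'] K)
    (nonZeroDivisors_le_comap_nonZeroDivisors_of_injective _ hinj)).restrictScalars ℂ
  have hJ : ∀ p : Polynomial K', J (algebraMap _ (RatFunc K') p) =
      Polynomial.aeval ((y none - j θ) ^ s) p := by
    intro p
    have h3 := RatFunc.liftAlgHom_apply_div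
      (Polynomial.aeval ((y none - j θ) ^ s) : Polynomial K' →ₐ[K'] K)
      (nonZeroDivisors_le_comap_nonZeroDivisors_of_injective _ hinj) p 1
    rwa [map_one, div_one, map_one, div_one] at h3
  have hC : ∀ a, J (RatFunc.C a) = j a := fun a => by
    rw [← RatFunc.algebraMap_C, hJ, Polynomial.aeval_C]; rfl
  have hX : J RatFunc.X = (y none - j θ) ^ s := by
    rw [← RatFunc.algebraMap_X, hJ, Polynomial.aeval_X]
  refine ⟨J, hC, hX, fun a => IsAlgebraic.tower_top_of_subalgebra_le ?_ (hy.isAlgebraic.1 a)⟩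
  refine Algebra.adjoin_le ?_
  rintro _ ⟨o, rfl⟩
  rcases o with _ | l
  · refine ⟨RatFunc.X ^ s + RatFunc.C θ, ?_⟩
    change J (RatFunc.X ^ s + RatFunc.C θ) = y none
    rw [map_add, map_zpow₀, hX, hC, ← zpow_mul]
    rcases hs with rfl | rfl <;> simp
  · exact ⟨RatFunc.C (y' l), (hC _).trans (hj l)⟩

/-- Gauss valuation with `c = v' β` on `RatFunc K'` (`exists_gauss`, `IsGauss.frame`), extended to
`K` (`exists_extend`, `IsFrame.of_comap`).  For the volume use `avol_eq` for both frames: the dual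
derivations of `K` restrict to those of `K'` (`der_comp_eq`), the one dual to
`(y none - θ) / β` kills `j K'` (`der_kill_alg`) and sends `y none` to `β`; the matrix is block
triangular. -/
theorem exists_disc (j : K' →ₐ[ℂ] K) {y : Option ι → K} (hy : IsTranscendenceBasis ℂ y)
    {y' : ι → K'} (hy' : IsTranscendenceBasis ℂ y') (hj : ∀ l, j (y' l) = y (some l))
    {v' : Val K'} (hv : IsAbh v') (θ β : K') (hβ : β ≠ 0) : ∃ v : Val K, IsAbh v ∧
      (∀ θ', v (y none - j θ') = max (v' β) (v' (θ - θ'))) ∧ avol v' y' * v' β ≤ avol v y := by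
  obtain ⟨q, t, u, hf⟩ := hv
  obtain ⟨J, hC, hX, halg⟩ := exists_ratFunc_hom j hy hy' hj θ 1 (Or.inl rfl)
  rw [zpow_one] at hX
  obtain ⟨w, hw⟩ := exists_gauss v' (pos_iff_ne_zero.2 ((Valuation.ne_zero_iff v').2 hβ))
  obtain ⟨v, hvw⟩ := extg_extend J halg w
  have hval : ∀ a, v (J a) = w a := fun a => by rw [← hvw]; rfl
  have hvj : ∀ a, v (j a) = v' a := fun a => by rw [← hC, hval, hw.C]
  have hF := IsFrame.of_comap J (hvw ▸ hw.frame hf hβ rfl) halg
  refine ⟨v, hF.isAbh, fun θ' => ?_, ?_⟩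
  · rw [← extg_gauss_add hw, ← hval, map_add J, hX, hC, map_sub j]
    congr 1
    ring
  obtain ⟨D0, D, hd, -, -, -⟩ := hf.exists_dual
  obtain ⟨E0, E, he, he0, he1, -⟩ := hF.exists_dual
  let e : ι ≃ Option (Fin q) :=
    Fintype.equivOfCardEq (by rw [hf.card_eq hy', Fintype.card_option])
  have htt : E0 (j t) = j t := by simpa only [hC] using he.tt
  have htu : ∀ i, E0 (j (u i)) = 0 := fun i => by simpa only [Option.elim_some, hC] using he.tu (some i)
  have hut : ∀ o, E o (j t) = 0 := fun o => by simpa only [hC] using he.ut o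
  have huu : ∀ o i, E o (j (u i)) = if o = some i then 1 else 0 := fun o i => by
    simpa only [Option.elim_some, hC] using he.uu o (some i)
  have hres : ∀ (o : Option (Fin q)) (a : K'),
      (o.elim E0 fun i => E (some i) : Derivation ℂ K K) (j a) =
        j ((o.elim D0 D : Derivation ℂ K' K') a) := by
    intro o a
    refine extg_restrict j _ _ _ ?_ (hf.alg a)
    rintro _ (rfl | ⟨i, rfl⟩)
    · rcases o with _ | l
      · simp only [Option.elim_none]; rw [htt, hd.tt]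
      · simp only [Option.elim_some]; rw [hut, hd.ut, map_zero]
    · rcases o with _ | l
      · simp only [Option.elim_none]; rw [htu, hd.tu, map_zero]
      · simp only [Option.elim_some]; rw [huu, hd.uu]; by_cases h : l = i <;> simp [h]
  have hkill : ∀ a, E none (j a) = 0 := by
    intro a
    rw [extg_restrict j (E none) 0 _ ?_ (hf.alg a), Derivation.zero_apply, map_zero]
    rintro _ (rfl | ⟨i, rfl⟩)
    · rw [hut, Derivation.zero_apply, map_zero]
    · rw [huu, Derivation.zero_apply, map_zero, if_neg (by simp)]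
  have hβ' : j β ≠ 0 := (map_ne_zero j).2 hβ
  have hn : E none (y none) = j β := by
    have h1 := he.uu none none
    rw [if_pos rfl, Option.elim_none, map_div₀, hX, hC] at h1
    have h2 : y none = j β * ((y none - j θ) / j β) + j θ := by field_simp; ring
    rw [h2, map_add, Derivation.leibniz, h1, hkill, hkill]
    simp
  have h3 := extg_block v y
    (fun o => o.elim (E none) fun i => (e i).elim E0 fun k => E (some k))
    (fun o => by
      rcases o with _ | i
      · exact lat_elim_mem he0 he1 (some none)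
      · simp only [Option.elim_some]
        rcases e i with _ | k
        · exact he0
        · exact lat_elim_mem he0 he1 (some (some k)))
    (fun l => by rw [← hj]; exact hkill _)
  simp only [Option.elim_none, Option.elim_some] at h3
  rw [hn, hvj] at h3
  rw [avol_eq hf hd y' e, mul_comm, ← hvj (Matrix.det _)]
  refine le_of_eq_of_le ?_ h3
  congr 2
  rw [AlgHom.map_det]
  congr 1
  ext i l
  rw [Matrix.of_apply, ← hj, hres]
  rfl

/-- the same with the trivial valuation on `K'` (`Valuation.one`-like: `(1 : Valuation K' ℝ≥0)`)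
and `IsGauss.frame_triv`; for `c > 1` use `X ↦ (y none - θ)⁻¹` with value `c⁻¹` -/
theorem exists_disc_triv (j : K' →ₐ[ℂ] K) {y : Option ι → K} (hy : IsTranscendenceBasis ℂ y)
    {y' : ι → K'} (hy' : IsTranscendenceBasis ℂ y') (hj : ∀ l, j (y' l) = y (some l)) (θ : K')
    {c : ℝ≥0} (h0 : 0 < c) (h1 : c ≠ 1) : ∃ v : Val K, IsAbh v ∧ v (y none - j θ) = c ∧
      (∀ θ', θ' ≠ θ → v (y none - j θ') = max c 1) ∧ c ≤ avol v y := by
  have key : ∀ (s : ℤ) (c' : ℝ≥0), (s = 1 ∨ s = -1) → 0 < c' → c' < 1 → ∃ v : Val K, IsAbh v ∧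
      v ((y none - j θ) ^ s) = c' ∧ (∀ a, a ≠ 0 → v (j a) = 1) ∧
      (∀ a, v ((y none - j θ) ^ s + j a) = max c' (v (j a))) ∧ v (y none - j θ) ≤ avol v y := by
    intro s c' hs hc0 hc1
    classical
    obtain ⟨J, hC, hX, halg⟩ := exists_ratFunc_hom j hy hy' hj θ s hs
    obtain ⟨w, hw⟩ := exists_gauss (1 : Val K') hc0
    obtain ⟨v, hvw⟩ := extg_extend J halg w
    have hval : ∀ a, v (J a) = w a := fun a => by rw [← hvw]; rfl
    have hF := IsFrame.of_comap J
      (hvw ▸ (hw.frame_triv (fun a ha => Valuation.one_apply_of_ne_zero ha) hc0 hc1 hy').1) halg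
    simp only [hX, hC, hj] at hF
    refine ⟨v, hF.isAbh, by rw [← hX, hval, hw.X], fun a ha => ?_, fun a => ?_, ?_⟩
    · rw [← hC, hval, hw.C, Valuation.one_apply_of_ne_zero ha]
    · rw [← hX, ← hC, ← map_add, hval, hval, extg_gauss_add hw, hw.C]
    obtain ⟨E0, E, he, he0, he1, -⟩ := hF.exists_dual
    have h3 := extg_block v y (fun o => o.elim E0 E) (lat_elim_mem he0 he1) he.tu
    have h4 : (Matrix.of fun i l => E i (y (some l))) = 1 := by
      ext i l
      rw [Matrix.of_apply, he.uu, Matrix.one_apply]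
    simp only [Option.elim_none, Option.elim_some] at h3
    rw [h4, Matrix.det_one, map_one, mul_one] at h3
    refine le_of_eq_of_le ?_ h3
    have h5 : E0 (y none) = E0 (y none - j θ) := by
      rw [map_sub, extg_kill j hy' hj E0 he.tu, sub_zero]
    have h6 := he.tt
    rw [h5]
    rcases hs with rfl | rfl
    · rw [zpow_one] at h6
      rw [h6]
    · have h7 : y none - j θ ≠ 0 := by
        intro h
        have h8 := hF.pos
        rw [h] at h8
        simp at h8
      rw [zpow_neg_one, Derivation.leibniz_inv, smul_eq_mul] at h6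
      have h9 : E0 (y none - j θ) = -(y none - j θ) := by
        field_simp at h6
        linear_combination -h6
      rw [h9, Valuation.map_neg]
  rcases lt_or_gt_of_ne h1 with h | h
  · obtain ⟨v, hv, e1, e2, e3, e4⟩ := key 1 c (Or.inl rfl) h0 h
    rw [zpow_one] at e1 e3
    refine ⟨v, hv, e1, fun θ' hθ => ?_, e1 ▸ e4⟩
    rw [← e2 (θ - θ') (sub_ne_zero.2 hθ.symm), ← e3, map_sub j]
    congr 1
    ring
  · obtain ⟨v, hv, e1, e2, -, e4⟩ := key (-1) c⁻¹ (Or.inr rfl) (inv_pos.2 h0)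
      (inv_lt_one_of_one_lt₀ h)
    rw [zpow_neg_one, map_inv₀, inv_inj] at e1
    refine ⟨v, hv, e1, fun θ' hθ => ?_, e1 ▸ e4⟩
    have h2 : y none - j θ' = (y none - j θ) + j (θ - θ') := by rw [map_sub]; ring
    rw [h2, max_eq_left h.le, Valuation.map_add_eq_of_lt_left, e1]
    rw [e1, e2 _ (sub_ne_zero.2 hθ.symm)]
    exact h

omit [Fintype ι] [DecidableEq ι] in
/-- the values are dense: `K'` contains all roots of `t` -/
theorem IsAbh.dense [IsAlgClosed K'] {v' : Val K'} (hv : IsAbh v') {s1 s2 : ℝ} (h0 : 0 < s1)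
    (h : s1 < s2) : ∃ β : K', β ≠ 0 ∧ s1 < v' β ∧ (v' β : ℝ) < s2 := by
  obtain ⟨q, t, u, hf⟩ := hv
  have hs2 : 0 < s2 := h0.trans h
  have ht0 : (0 : ℝ) < v' t := NNReal.coe_pos.2 hf.pos
  have ht1 : (v' t : ℝ) < 1 := NNReal.coe_lt_one.2 hf.lt
  have hq1 : s1 / s2 < 1 := (div_lt_one hs2).2 h
  obtain ⟨n, hn⟩ := exists_pow_lt_of_lt_one ht0 hq1
  have hn0 : 0 < n := Nat.pos_of_ne_zero fun h0 => by
    rw [h0, pow_zero] at hn; linarith
  obtain ⟨r, hr⟩ := IsAlgClosed.exists_pow_nat_eq t hn0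
  have hρ : (v' r : ℝ) ^ n = v' t := by rw [← hr, map_pow, NNReal.coe_pow]
  have hρ1 : s1 / s2 < v' r := lt_of_pow_lt_pow_left₀ n (v' r).coe_nonneg (hρ ▸ hn)
  have hρ0 : (0 : ℝ) < v' r := (div_pos h0 hs2).trans hρ1
  have hρ2 : (v' r : ℝ) < 1 :=
    lt_of_pow_lt_pow_left₀ n zero_le_one (by rw [hρ, one_pow]; exact ht1)
  have hr0 : r ≠ 0 := fun h0 => by rw [h0, map_zero] at hρ0; exact lt_irrefl _ hρ0
  obtain ⟨k, hk1, hk2⟩ := exists_mem_Ico_zpow h0 ((one_lt_inv₀ hρ0).2 hρ2)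
  have hv : (v' (r⁻¹ ^ (k + 1)) : ℝ) = (v' r : ℝ)⁻¹ ^ (k + 1) := by
    rw [map_zpow₀, map_inv₀, NNReal.coe_zpow, NNReal.coe_inv]
  refine ⟨r⁻¹ ^ (k + 1), zpow_ne_zero _ (inv_ne_zero hr0), hv ▸ hk2, ?_⟩
  rw [hv, zpow_add_one₀ (inv_pos.2 hρ0).ne']
  refine (mul_le_mul_of_nonneg_right hk1 (inv_pos.2 hρ0).le).trans_lt ?_
  rw [← div_eq_mul_inv, div_lt_iff₀ hρ0, mul_comm]
  exact (div_lt_iff₀ hs2).1 hρ1

/-- the substitution `X (some l) ↦ X (some l) + a l * X none` -/
noncomputable def shear (a : ι → ℂ) (p : MvPolynomial (Option ι) ℂ) : MvPolynomial (Option ι) ℂ :=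
  aeval (fun o : Option ι => o.elim (X none) fun l => X (some l) + C (a l) * X none) p

/-- the leading coefficient in the variable `none` is a nonzero constant -/
def IsMon (p : MvPolynomial (Option ι) ℂ) : Prop :=
  ∃ c : ℂ, c ≠ 0 ∧ (optionEquivLeft ℂ ι p).leadingCoeff = C c

omit [Fintype ι] [DecidableEq ι] in
theorem extg_prod {R σ : Type} [CommRing R] (g : σ → Polynomial R) (hg : ∀ o, (g o).natDegree ≤ 1)
    (m : σ → ℕ) (S : Finset σ) : (∏ o ∈ S, g o ^ m o).natDegree ≤ ∑ o ∈ S, m o ∧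
      (∏ o ∈ S, g o ^ m o).coeff (∑ o ∈ S, m o) = ∏ o ∈ S, (g o).coeff 1 ^ m o := by
  classical
  induction S using Finset.induction_on with
  | empty => simp
  | insert o S ho ih =>
    have h1 : (g o ^ m o).natDegree ≤ m o :=
      Polynomial.natDegree_pow_le.trans (by simpa using Nat.mul_le_mul_left (m o) (hg o))
    have h2 := Polynomial.coeff_pow_of_natDegree_le (m := m o) (hg o)
    rw [mul_one] at h2
    rw [Finset.prod_insert ho, Finset.sum_insert ho, Finset.prod_insert ho]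
    refine ⟨Polynomial.natDegree_mul_le.trans (add_le_add h1 ih.1), ?_⟩
    rw [Polynomial.coeff_mul_add_eq_of_natDegree_le h1 ih.1, h2, ih.2]

omit [Fintype ι] [DecidableEq ι] in
theorem extg_top (a : ι → ℂ) (p : MvPolynomial (Option ι) ℂ) :
    (optionEquivLeft ℂ ι (shear a p)).natDegree ≤ p.totalDegree ∧
      (optionEquivLeft ℂ ι (shear a p)).coeff p.totalDegree =
        C (eval (fun o : Option ι => o.elim 1 a) (homogeneousComponent p.totalDegree p)) := by
  classical
  let g : Option ι → Polynomial (MvPolynomial ι ℂ) := fun o =>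
    optionEquivLeft ℂ ι (o.elim (X none) fun l => X (some l) + C (a l) * X none)
  have hg : ∀ o, (g o).natDegree ≤ 1 ∧ (g o).coeff 1 = C (o.elim 1 a) := by
    intro o
    rcases o with _ | l
    · simp [g, optionEquivLeft_X_none]
    · have h1 : g (some l) = Polynomial.C (C (a l)) * Polynomial.X + Polynomial.C (X l) := by
        simp [g, optionEquivLeft_X_none, optionEquivLeft_X_some, optionEquivLeft_C, add_comm]
      rw [h1]
      exact ⟨Polynomial.natDegree_linear_le, by simp⟩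
  have hm : ∀ (m : Option ι →₀ ℕ) (c : ℂ), optionEquivLeft ℂ ι (shear a (monomial m c)) =
      Polynomial.C (C c) * ∏ o ∈ m.support, g o ^ m o := by
    intro m c
    rw [shear, aeval_monomial, map_mul, Finsupp.prod, map_prod, algebraMap_eq, optionEquivLeft_C]
    simp only [map_pow, g]
  have hs : optionEquivLeft ℂ ι (shear a p) =
      ∑ m ∈ p.support, Polynomial.C (C (coeff m p)) * ∏ o ∈ m.support, g o ^ m o := by
    conv_lhs => rw [p.as_sum, shear, map_sum, map_sum]
    exact Finset.sum_congr rfl fun m _ => hm m _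
  have hdeg : ∀ m ∈ p.support, ∑ o ∈ m.support, m o ≤ p.totalDegree := fun m h => le_totalDegree h
  have hk := fun m : Option ι →₀ ℕ => extg_prod g (fun o => (hg o).1) m m.support
  rw [hs]
  refine ⟨Polynomial.natDegree_sum_le_of_forall_le _ _ fun m h =>
    (Polynomial.natDegree_C_mul_le _ _).trans ((hk m).1.trans (hdeg m h)), ?_⟩
  rw [Polynomial.finsetSum_coeff, homogeneousComponent_apply, map_sum, map_sum, Finset.sum_filter]
  refine Finset.sum_congr rfl fun m h => ?_
  rw [Polynomial.coeff_C_mul]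
  by_cases h1 : m.degree = p.totalDegree
  · rw [if_pos h1, ← h1, eval_monomial, map_mul, Finsupp.prod, map_prod, Finsupp.degree_apply,
      (hk m).2]
    simp only [(hg _).2, map_pow]
  · rw [if_neg h1, Polynomial.coeff_eq_zero_of_natDegree_lt
      ((hk m).1.trans_lt (lt_of_le_of_ne (hdeg m h) h1)), mul_zero]

omit [Fintype ι] [DecidableEq ι] in
theorem extg_scale {σ : Type} (c : ℂ) (z : σ → ℂ) (n : ℕ) (p : MvPolynomial σ ℂ) :
    eval (fun o => c * z o) (homogeneousComponent n p) =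
      c ^ n * eval z (homogeneousComponent n p) := by
  classical
  rw [homogeneousComponent_apply, map_sum, map_sum, Finset.mul_sum]
  refine Finset.sum_congr rfl fun m hm => ?_
  rw [eval_monomial, eval_monomial, ← (Finset.mem_filter.1 hm).2, Finsupp.prod, Finsupp.prod,
    Finsupp.degree_apply, ← Finset.prod_pow_eq_pow_sum]
  simp only [mul_pow, Finset.prod_mul_distrib]
  ring

omit [Fintype ι] [DecidableEq ι] in
theorem extg_top_ne {σ : Type} {p : MvPolynomial σ ℂ} (hp : p ≠ 0) :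
    homogeneousComponent p.totalDegree p ≠ 0 := by
  classical
  obtain ⟨m, hm, h⟩ := Finset.exists_mem_eq_sup p.support (support_nonempty.2 hp)
    fun s : σ →₀ ℕ => s.sum fun _ e => e
  intro h0
  have h1 := coeff_homogeneousComponent p.totalDegree p m
  rw [h0, coeff_zero, if_pos (show m.degree = p.totalDegree from h.symm)] at h1
  exact mem_support_iff.1 hm h1.symm

omit [DecidableEq ι] in
/-- choose `a` where the product of the top homogeneous components, evaluated at `(1, a)`, does not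
vanish -/
theorem exists_shear (T : Finset (MvPolynomial (Option ι) ℂ)) (hT : ∀ p ∈ T, p ≠ 0) :
    ∃ a : ι → ℂ, ∀ p ∈ T, IsMon (shear a p) := by
  have h1 : (X none * ∏ p ∈ T, homogeneousComponent p.totalDegree p :
      MvPolynomial (Option ι) ℂ) ≠ 0 :=
    mul_ne_zero (X_ne_zero _) (Finset.prod_ne_zero_iff.2 fun p hp => extg_top_ne (hT p hp))
  obtain ⟨z, hz⟩ : ∃ z : Option ι → ℂ,
      eval z (X none * ∏ p ∈ T, homogeneousComponent p.totalDegree p) ≠ 0 := by
    by_contra h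
    push Not at h
    exact h1 (MvPolynomial.funext fun z => by rw [h z, map_zero])
  rw [map_mul, eval_X, map_prod] at hz
  have hz0 := left_ne_zero_of_mul hz
  have hz1 := Finset.prod_ne_zero_iff.1 (right_ne_zero_of_mul hz)
  refine ⟨fun l => (z none)⁻¹ * z (some l), fun p hp => ?_⟩
  obtain ⟨h2, h3⟩ := extg_top (fun l => (z none)⁻¹ * z (some l)) p
  have h4 : (fun o : Option ι => o.elim 1 fun l => (z none)⁻¹ * z (some l)) =
      fun o => (z none)⁻¹ * z o := by
    funext o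
    rcases o with _ | l
    · exact (inv_mul_cancel₀ hz0).symm
    · rfl
  rw [h4, extg_scale] at h3
  have h5 := mul_ne_zero (pow_ne_zero p.totalDegree (inv_ne_zero hz0)) (hz1 p hp)
  refine ⟨_, h5, ?_⟩
  rw [Polynomial.leadingCoeff, Polynomial.natDegree_eq_of_le_of_coeff_ne_zero h2
    (by rw [h3]; exact (map_ne_zero C).2 h5), h3]

omit [Fintype ι] [DecidableEq ι] in
theorem extg_aeval_shear {R : Type} [CommRing R] [Algebra ℂ R] (a : ι → ℂ) (w : Option ι → R)
    (p : MvPolynomial (Option ι) ℂ) : aeval w (shear a p) =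
      aeval (fun o : Option ι => o.elim (w none)
        fun l => w (some l) + algebraMap ℂ R (a l) * w none) p := by
  rw [shear, comp_aeval_apply]
  congr 2
  funext o
  rcases o with _ | l <;> simp

/-- the matrix of the shear -/
noncomputable def extgMat {R : Type} [Field R] (a : ι → R) : Matrix (Option ι) (Option ι) R :=
  Matrix.of fun o o' => o.elim (o'.elim 1 a) fun l => if o' = some l then 1 else 0

theorem extg_det {R : Type} [Field R] (a : ι → R) : (extgMat a).det = 1 := by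
  rw [ent_det_option _ (fun i => by simp [extgMat])]
  have h1 : (Matrix.of fun i j => extgMat a (some i) (some j)) = 1 := by
    ext i j
    simp [extgMat, Matrix.one_apply, eq_comm]
  rw [h1, Matrix.det_one]
  simp [extgMat]

theorem extg_vec {R : Type} [Field R] (a : ι → R) (w : Option ι → R) (o : Option ι) :
    ∑ l, w l * extgMat a l o = o.elim (w none) fun l => w (some l) + a l * w none := by
  rw [Fintype.sum_option]
  rcases o with _ | k
  · simp [extgMat]
  · simp [extgMat, mul_comm, add_comm]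

theorem extg_pcon (a : ι → ℂ) (q : MvPolynomial (Option ι) ℂ) {β : Type} [Fintype β]
    (p : β → MvPolynomial (Option ι) ℂ) (N : ℕ)
    (h : PCon (shear a q) (fun b => shear a (p b)) N) : PCon q p N := by
  obtain ⟨M, hM⟩ := h
  refine ⟨M, ?_⟩
  let f : (Option ι → ℂ) →ₗ[ℝ] (Option ι → ℂ) := (Matrix.vecMulLinear (extgMat a)).restrictScalars ℝ
  have hf : ∀ w o, f w o = ∑ l, w l * extgMat a l o := fun w o => rfl
  have hdet : LinearMap.det f = 1 := by
    have h1 := det_real (extgMat a) (LinearMap.toContinuousLinearMap f) hf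
    rw [extg_det, norm_one, one_pow] at h1
    exact h1
  have hmap : Measure.map f (volume : Measure (Option ι → ℂ)) = volume := by
    rw [Measure.map_linearMap_addHaar_eq_smul_addHaar _ (by rw [hdet]; exact one_ne_zero), hdet]
    simp
  have hev : ∀ (w : Option ι → ℂ) (r : MvPolynomial (Option ι) ℂ),
      eval w (shear a r) = eval (f w) r := by
    intro w r
    rw [← coe_aeval_eq_eval, ← coe_aeval_eq_eval, RingHom.coe_coe, RingHom.coe_coe,
      extg_aeval_shear]
    congr 2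
    funext o
    rw [hf, extg_vec]
    rfl
  have hpf : ∀ w, pfn (shear a q) (fun b => shear a (p b)) N w = pfn q p N (f w) := by
    intro w
    simp only [pfn, hev]
  have hnorm : ∀ w, ‖w‖ ≤ (1 + ‖a‖) * ‖f w‖ := by
    intro w
    have h0 : ‖w none‖ ≤ ‖f w‖ := by
      have h1 := norm_le_pi_norm (f w) none
      rwa [hf, extg_vec] at h1
    have ha := norm_nonneg a
    have hw := norm_nonneg (f w)
    refine (pi_norm_le_iff_of_nonneg (by positivity)).2 fun o => ?_
    rcases o with _ | l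
    · nlinarith
    · have h1 := norm_le_pi_norm (f w) (some l)
      rw [hf, extg_vec, Option.elim_some] at h1
      have h2 : w (some l) = (w (some l) + a l * w none) - a l * w none := by ring
      have h3 := norm_sub_le (w (some l) + a l * w none) (a l * w none)
      rw [← h2, norm_mul] at h3
      have h4 := mul_le_mul (norm_le_pi_norm a l) h0 (norm_nonneg _) ha
      linarith
  have hwt : ∀ w, (1 + ‖f w‖ ^ 2)⁻¹ ≤ (1 + ‖a‖) ^ 2 * (1 + ‖w‖ ^ 2)⁻¹ := by
    intro w
    have ha := norm_nonneg a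
    rw [← div_eq_mul_inv, le_div_iff₀ (by positivity), inv_mul_le_iff₀ (by positivity)]
    have h1 := pow_le_pow_left₀ (norm_nonneg w) (hnorm w) 2
    rw [mul_pow] at h1
    nlinarith
  have hmeas : Measurable fun z : Option ι → ℂ =>
      ENNReal.ofReal (pfn q p N z * ((1 + ‖z‖ ^ 2)⁻¹) ^ M) :=
    ((measurable_pfn q p N).mul
      (((measurable_const.add (measurable_norm.pow_const 2)).inv).pow_const M)).ennreal_ofReal
  rw [← hmap, lintegral_map hmeas f.continuous_of_finiteDimensional.measurable]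
  refine lt_of_le_of_lt (lintegral_mono (g := fun w => ENNReal.ofReal (((1 + ‖a‖) ^ 2) ^ M) *
    ENNReal.ofReal (pfn (shear a q) (fun b => shear a (p b)) N w * ((1 + ‖w‖ ^ 2)⁻¹) ^ M))
    fun w => ?_) ?_
  · simp only
    rw [← ENNReal.ofReal_mul (by positivity), hpf, mul_left_comm, ← mul_pow]
    refine ENNReal.ofReal_le_ofReal (mul_le_mul_of_nonneg_left
      (pow_le_pow_left₀ (by positivity) (hwt w) M) ?_)
    exact Real.rpow_nonneg (div_nonneg (norm_nonneg _) (Real.iSup_nonneg fun _ => norm_nonneg _)) _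
  · rw [lintegral_const_mul' _ _ ENNReal.ofReal_ne_top]
    exact ENNReal.mul_lt_top ENNReal.ofReal_lt_top hM

/-- Use the basis `y' none = y none`, `y' (some l) = y (some l) - a l * y none`, for which
`aeval y' (shear a p) = aeval y p` and `avol v y' = avol v y` (`evol_jac`).  The linear map
`Φ y none = y none`, `Φ y (some l) = y (some l) + a l * y none` preserves the volume (`det_real`,
`Measure.map_linearMap_addHaar_eq_smul_addHaar`), `eval y (shear a p) = eval (Φ y) p` and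
`1 + ‖y‖^2 ≤ const * (1 + ‖Φ y‖^2)`. -/
theorem pcon_of_mon {E : ℕ}
    (hP : ∀ y : Option ι → K, IsTranscendenceBasis ℂ y → ∀ (q : MvPolynomial (Option ι) ℂ)
      (β : Type) [Fintype β] (p : β → MvPolynomial (Option ι) ℂ) (N : ℕ), 0 < N → IsMon q →
      (∀ b, IsMon (p b)) → VHyp y (aeval y q) (fun b => aeval y (p b)) N E → PCon q p N)
    {y : Option ι → K} (hy : IsTranscendenceBasis ℂ y) (q : MvPolynomial (Option ι) ℂ)
    (β : Type) [Fintype β] (p : β → MvPolynomial (Option ι) ℂ) (N : ℕ) (hN : 0 < N) (hq : q ≠ 0)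
    (hp : ∀ b, p b ≠ 0) (h : VHyp y (aeval y q) (fun b => aeval y (p b)) N E) : PCon q p N := by
  classical
  obtain ⟨a, ha⟩ := exists_shear (insert q (Finset.univ.image p)) (by
    intro r hr
    rcases Finset.mem_insert.1 hr with rfl | hr
    · exact hq
    · obtain ⟨b, -, rfl⟩ := Finset.mem_image.1 hr
      exact hp b)
  let y' : Option ι → K := fun o => o.elim (y none)
    fun l => y (some l) + algebraMap ℂ K (-a l) * y none
  have h1 : ∀ r, aeval y' (shear a r) = aeval y r := by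
    intro r
    rw [extg_aeval_shear]
    congr 2
    funext o
    rcases o with _ | l <;> simp [y']
  have h2 : ∀ r, aeval y' r = aeval y (shear (fun l => -a l) r) := fun r =>
    (extg_aeval_shear _ y r).symm
  have h3 : ∀ r : MvPolynomial (Option ι) ℂ, shear a (shear (fun l => -a l) r) = r := by
    intro r
    rw [shear, extg_aeval_shear]
    refine Eq.trans ?_ (aeval_X_left_apply r)
    congr 2
    funext o
    rcases o with _ | l <;> simp
  have hy' : IsTranscendenceBasis ℂ y' := by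
    refine isTranscendenceBasis_iff_algebraicIndependent_isAlgebraic.2
      ⟨algebraicIndependent_iff.2 fun r hr => ?_, ⟨fun x => ?_⟩⟩
    · rw [h2] at hr
      rw [← h3 r, algebraicIndependent_iff.1 hy.1 _ hr, shear, map_zero]
    · refine IsAlgebraic.tower_top_of_subalgebra_le ?_ (hy.isAlgebraic.1 x)
      refine Algebra.adjoin_le ?_
      rintro _ ⟨o, rfl⟩
      rw [Algebra.adjoin_range_eq_range_aeval]
      exact ⟨shear a (X o), (h1 _).trans (aeval_X _ _)⟩
  have hav : ∀ v : Val K, avol v y' = avol v y := by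
    intro v
    have h4 := evol_jac v ∅ y y' (extgMat fun l => algebraMap ℂ K (-a l)) (by
      intro D o
      rw [extg_vec]
      rcases o with _ | l
      · rfl
      · simp only [y', Option.elim_some]
        rw [map_add, Derivation.leibniz, Derivation.map_algebraMap, smul_zero, add_zero,
          smul_eq_mul])
    rw [extg_det, map_one, mul_one] at h4
    exact h4
  refine extg_pcon a q p N (hP y' hy' _ β _ N hN (ha q (Finset.mem_insert_self _ _))
    (fun b => ha _ (Finset.mem_insert_of_mem (Finset.mem_image_of_mem p (Finset.mem_univ b)))) ?_)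
  simp only [VHyp, h1, hav]
  exact h

end Pool.Agent.MP_c0606f_ag.Klt

end

-- part MP_c0606f_ag.Klt.Trop
section

/-! Tropical (max-min of linear) functions and elimination of one variable. -/

namespace Pool.Agent.MP_c0606f_ag.Klt

variable {V : Type} [Fintype V]

/-- `f` is a maximum of minima of linear forms with rational coefficients -/
def IsTrop (f : (V → ℝ) → ℝ) : Prop :=
  ∃ 𝒮 : Finset (Finset (V → ℚ)), ∀ x B, f x ≤ B ↔ ∀ S ∈ 𝒮, ∃ k ∈ S, ∑ i, (k i : ℝ) * x i ≤ B

variable {f g : (V → ℝ) → ℝ}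

theorem IsTrop.lin (k : V → ℚ) : IsTrop fun x : V → ℝ => ∑ i, (k i : ℝ) * x i := by
  exact ⟨{{k}}, fun x B => by simp⟩

theorem IsTrop.coord (i : V) : IsTrop fun x : V → ℝ => x i := by
  classical
  have e : (fun x : V → ℝ => x i) = fun x => ∑ j, (((Pi.single i 1 : V → ℚ) j : ℚ) : ℝ) * x j := by
    funext x
    rw [Finset.sum_eq_single i (fun j _ h => by simp [h]) (by simp)]
    simp
  rw [e]
  exact IsTrop.lin _

theorem IsTrop.zero : IsTrop fun _ : V → ℝ => (0 : ℝ) := by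
  simpa using IsTrop.lin (V := V) 0

theorem IsTrop.max (hf : IsTrop f) (hg : IsTrop g) : IsTrop fun x => max (f x) (g x) := by
  classical
  obtain ⟨𝒮, h⟩ := hf
  obtain ⟨𝒯, h'⟩ := hg
  exact ⟨𝒮 ∪ 𝒯, fun x B => by rw [max_le_iff, h, h', Finset.forall_mem_union]⟩

theorem IsTrop.min (hf : IsTrop f) (hg : IsTrop g) : IsTrop fun x => min (f x) (g x) := by
  classical
  obtain ⟨𝒮, h⟩ := hf
  obtain ⟨𝒯, h'⟩ := hg
  refine ⟨Finset.image₂ (· ∪ ·) 𝒮 𝒯, fun x B => ?_⟩
  rw [min_le_iff, h, h', Finset.forall_mem_image₂]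
  constructor
  · rintro (h1 | h1) S hS T hT
    · obtain ⟨k, h2, h3⟩ := h1 S hS
      exact ⟨k, Finset.mem_union_left _ h2, h3⟩
    · obtain ⟨k, h2, h3⟩ := h1 T hT
      exact ⟨k, Finset.mem_union_right _ h2, h3⟩
  · intro h1
    refine or_iff_not_imp_left.mpr fun h2 T hT => ?_
    push Not at h2
    obtain ⟨S, hS, h2⟩ := h2
    obtain ⟨k, h3, h4⟩ := h1 S hS T hT
    exact ⟨k, (Finset.mem_union.mp h3).resolve_left fun h5 => (h2 k h5).not_ge h4, h4⟩

/-- `f x` is attained: there is `S ∈ 𝒮` with `f x ≤ k x` for all `k ∈ S` (apply the definition with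
`B` slightly less than `f x`, finitely many values), and every `S` contains `k` with
`k x ≤ f x`.  Take the sets `{k + k'}`. -/
theorem IsTrop.add (hf : IsTrop f) (hg : IsTrop g) : IsTrop fun x => f x + g x := by
  classical
  obtain ⟨𝒮, h⟩ := hf
  obtain ⟨𝒯, h'⟩ := hg
  refine ⟨Finset.image₂ (Finset.image₂ (· + ·)) 𝒮 𝒯, fun x B => ?_⟩
  simp only [Finset.forall_mem_image₂, Finset.exists_mem_image₂, Pi.add_apply, Rat.cast_add, add_mul,
    Finset.sum_add_distrib]
  constructor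
  · intro h1 S hS T hT
    obtain ⟨k, h2, h3⟩ := (h x _).mp le_rfl S hS
    obtain ⟨k', h4, h5⟩ := (h' x _).mp le_rfl T hT
    exact ⟨k, h2, k', h4, by linarith⟩
  · intro h1
    by_contra h2
    have h3 := (h x ((f x - g x + B) / 2)).not.mp (by intro h3; exact h2 (by linarith [not_le.mp h2]))
    have h4 := (h' x ((g x - f x + B) / 2)).not.mp (by intro h3; exact h2 (by linarith [not_le.mp h2]))
    push Not at h3 h4
    obtain ⟨S, hS, h3⟩ := h3
    obtain ⟨T, hT, h4⟩ := h4
    obtain ⟨k, h5, k', h6, h7⟩ := h1 S hS T hT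
    linarith [h3 k h5, h4 k' h6]

/-- distributive law: `-f x ≤ B` iff for every choice function `S ↦ k S ∈ S` there is `S` with
`-(k S) x ≤ B` (`Finset.pi`) -/
theorem IsTrop.neg (hf : IsTrop f) : IsTrop fun x => -f x := by
  classical
  obtain ⟨𝒮, h⟩ := hf
  refine ⟨(𝒮.pi fun S => S).image fun c => 𝒮.attach.image fun S => -c S.1 S.2, fun x B => ?_⟩
  simp only [Finset.forall_mem_image, Finset.exists_mem_image, Finset.mem_pi, Pi.neg_apply,
    Rat.cast_neg, neg_mul, Finset.sum_neg_distrib]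
  constructor
  · intro h1 c hc
    by_contra h2
    push Not at h2
    obtain ⟨b, h3, h4⟩ := (𝒮.attach.image fun S => ∑ i, (c S.1 S.2 i : ℝ) * x i).exists_between' {-B}
      (by
        simp only [Finset.forall_mem_image, Finset.mem_singleton, forall_eq]
        exact fun S hS => by linarith [h2 S hS])
    have h5 := (h x b).mpr fun S hS => ⟨c S hS, hc S hS,
      (h3 _ (Finset.mem_image_of_mem _ (Finset.mem_attach _ ⟨S, hS⟩))).le⟩
    linarith [h4 _ (Finset.mem_singleton_self _)]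
  · intro h1
    choose c h2 h3 using (h x _).mp le_rfl
    obtain ⟨S, -, h4⟩ := h1 h2
    linarith [h3 S.1 S.2]

theorem IsTrop.smul (hf : IsTrop f) (c : ℚ) : IsTrop fun x => (c : ℝ) * f x := by
  classical
  have pos : ∀ c : ℚ, 0 < c → IsTrop fun x => (c : ℝ) * f x := by
    intro c hc
    have hc' : (0 : ℝ) < c := by exact_mod_cast hc
    obtain ⟨𝒮, h⟩ := hf
    refine ⟨𝒮.image (Finset.image fun k => c • k), fun x B => ?_⟩
    simp only [Finset.forall_mem_image, Finset.exists_mem_image, Pi.smul_apply, smul_eq_mul,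
      Rat.cast_mul, mul_assoc, ← Finset.mul_sum, ← le_div_iff₀' hc', h]
  rcases lt_trichotomy 0 c with h | rfl | h
  · exact pos c h
  · simpa using IsTrop.zero
  · simpa using (pos (-c) (by linarith)).neg

theorem IsTrop.sum {β : Type} (S : Finset β) {f : β → (V → ℝ) → ℝ} (hf : ∀ b ∈ S, IsTrop (f b)) :
    IsTrop fun x => ∑ b ∈ S, f b x := by
  classical
  induction S using Finset.induction_on with
  | empty => simpa using IsTrop.zero
  | insert a S ha ih =>
    simp only [Finset.sum_insert ha]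
    exact (hf a (Finset.mem_insert_self _ _)).add (ih fun b hb => hf b (Finset.mem_insert_of_mem hb))

theorem IsTrop.inf' {β : Type} (S : Finset β) (hS : S.Nonempty) {f : β → (V → ℝ) → ℝ}
    (hf : ∀ b ∈ S, IsTrop (f b)) : IsTrop fun x => S.inf' hS fun b => f b x := by
  induction hS using Finset.Nonempty.cons_induction with
  | singleton a => simpa using hf a (Finset.mem_singleton_self _)
  | cons a S ha hS ih =>
    simp only [Finset.inf'_cons hS]
    exact (hf a (Finset.mem_cons_self _ _)).min (ih fun b hb => hf b (Finset.mem_cons_of_mem hb))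

/-- Elimination of the variable `none` (Helly's theorem on the line).  For one `S`, the sets
`{s | B < λ k + σ k * s}` are open half lines, empty, or everything; their intersection is empty
iff some `k` has `σ k = 0`, `λ k ≤ B`, or some pair with `σ k > 0 > σ k'` has
`(σ k * λ k' - σ k' * λ k) / (σ k - σ k') ≤ B`.  The intersection is open. -/
theorem IsTrop.tsup {f : (Option V → ℝ) → ℝ} (hf : IsTrop f) :
    ∃ 𝒮 : Finset (Finset (V → ℚ)),
      (∀ (x : V → ℝ) (B : ℝ), (∀ S ∈ 𝒮, ∃ k ∈ S, ∑ i, (k i : ℝ) * x i ≤ B) →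
        ∀ s, f (fun o => o.elim s x) ≤ B) ∧
      ∀ (x : V → ℝ) (B : ℝ) (A : Set ℝ), Dense A → (∀ s ∈ A, f (fun o => o.elim s x) ≤ B) →
        ∀ S ∈ 𝒮, ∃ k ∈ S, ∑ i, (k i : ℝ) * x i ≤ B := by
  classical
  obtain ⟨𝒮, h⟩ := hf
  simp only [Fintype.sum_option] at h
  have ev : ∀ (k k' : Option V → ℚ) (x : V → ℝ),
      ∑ i, (((k none * k' (some i) - k' none * k (some i)) / (k none - k' none) : ℚ) : ℝ) * x i =
      (k none * ∑ i, (k' (some i) : ℝ) * x i - k' none * ∑ i, (k (some i) : ℝ) * x i) /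
        (k none - k' none) := by
    intro k k' x
    rw [Finset.mul_sum, Finset.mul_sum, ← Finset.sum_sub_distrib, Finset.sum_div]
    refine Finset.sum_congr rfl fun i _ => ?_
    push_cast
    ring
  refine ⟨𝒮.image fun S => ((S.filter fun k => k none = 0).image fun k i => k (some i)) ∪
    Finset.image₂ (fun k k' i => (k none * k' (some i) - k' none * k (some i)) / (k none - k' none))
      (S.filter fun k => 0 < k none) (S.filter fun k => k none < 0), fun x B h1 s => ?_,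
    fun x B A hA h1 => ?_⟩
  · refine (h _ _).mpr fun S hS => ?_
    obtain ⟨k, h2, h3⟩ := h1 _ (Finset.mem_image_of_mem _ hS)
    simp only [Option.elim]
    rcases Finset.mem_union.mp h2 with h2 | h2
    · obtain ⟨k, h4, rfl⟩ := Finset.mem_image.mp h2
      obtain ⟨h5, h6⟩ := Finset.mem_filter.mp h4
      exact ⟨k, h5, by simpa [h6] using h3⟩
    · obtain ⟨k, h4, k', h5, rfl⟩ := Finset.mem_image₂.mp h2
      obtain ⟨a1, a2⟩ := Finset.mem_filter.mp h4
      obtain ⟨a3, a4⟩ := Finset.mem_filter.mp h5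
      have a2' : (0 : ℝ) < k none := by exact_mod_cast a2
      have a4' : (k' none : ℝ) < 0 := by exact_mod_cast a4
      rw [ev, div_le_iff₀ (by linarith)] at h3
      by_contra h6
      push Not at h6
      have b1 := mul_lt_mul_of_pos_left (h6 k a1) (neg_pos.mpr a4')
      have b2 := mul_lt_mul_of_pos_left (h6 k' a3) a2'
      linarith
  · rw [Finset.forall_mem_image]
    intro S hS
    by_contra h2
    push Not at h2
    rw [Finset.forall_mem_union, Finset.forall_mem_image, Finset.forall_mem_image₂] at h2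
    obtain ⟨h3, h4⟩ := h2
    obtain ⟨s, h5, h6⟩ := ((S.filter fun k => 0 < k none).image
      fun k => (B - ∑ i, (k (some i) : ℝ) * x i) / k none).exists_between'
      ((S.filter fun k => k none < 0).image fun k => (B - ∑ i, (k (some i) : ℝ) * x i) / k none) (by
        simp only [Finset.forall_mem_image]
        intro k a1 k' a3
        have a2' : (0 : ℝ) < k none := by exact_mod_cast (Finset.mem_filter.mp a1).2
        have a4' : (k' none : ℝ) < 0 := by exact_mod_cast (Finset.mem_filter.mp a3).2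
        have b1 := h4 k a1 k' a3
        rw [ev, lt_div_iff₀ (by linarith)] at b1
        rw [div_lt_iff₀ a2', div_mul_eq_mul_div, lt_div_iff_of_neg a4']
        linarith)
    have op : IsOpen {s : ℝ | ∀ k ∈ S, B < (k none : ℝ) * s + ∑ i, (k (some i) : ℝ) * x i} := by
      simp only [Set.ofPred_forall]
      exact isOpen_biInter_finset fun k _ => isOpen_lt continuous_const (by fun_prop)
    obtain ⟨s', b1, b2⟩ := hA.inter_open_nonempty _ op ⟨s, fun k hk => by
      rcases lt_trichotomy 0 (k none) with c | c | c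
      · have c' : (0 : ℝ) < k none := by exact_mod_cast c
        have := h5 _ (Finset.mem_image_of_mem _ (Finset.mem_filter.mpr ⟨hk, c⟩))
        rw [div_lt_iff₀ c'] at this
        linarith
      · have := h3 (Finset.mem_filter.mpr ⟨hk, c.symm⟩)
        simpa [← c] using this
      · have c' : (k none : ℝ) < 0 := by exact_mod_cast c
        have := h6 _ (Finset.mem_image_of_mem _ (Finset.mem_filter.mpr ⟨hk, c⟩))
        rw [lt_div_iff_of_neg c'] at this
        linarith⟩
    obtain ⟨k, c1, c2⟩ := (h _ _).mp (h1 s' b2) S hS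
    exact (b1 k c1).not_ge c2

/-- Multiplicative form for one cell.  Take logarithms: with `x = log d`, `s0 = log s` consider
`f = inf' b, (-(1 / N) * (n0 b * s0 + ∑ j, n b j * max s0 (x j))) + (1 - 1 / E) * s0` and
`B0 = log B`; clear denominators in `tsup` (`N'` a common denominator, `k' = -N' * k`). -/
theorem trop_cell {β : Type} [Fintype β] [Nonempty β] (n0 : β → ℤ) (n : β → V → ℤ) {N E : ℕ}
    (hN : 0 < N) (hE : 0 < E) : ∃ (N' : ℕ) (𝒮 : Finset (Finset (V → ℤ))), 0 < N' ∧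
      (∀ (d : V → ℝ) (B : ℝ), (∀ j, 0 < d j) → 0 < B →
        (∀ S ∈ 𝒮, ∃ k ∈ S, 1 ≤ B * (∏ j, d j ^ k j) ^ (1 / (N' : ℝ))) →
        ∀ s : ℝ, 0 < s → ∃ b, s ^ (1 - 1 / (E : ℝ)) ≤
          B * (s ^ n0 b * ∏ j, (max s (d j)) ^ n b j) ^ (1 / (N : ℝ))) ∧
      ∀ (d : V → ℝ) (B : ℝ) (A : Set ℝ), (∀ j, 0 < d j) → 0 < B →
        (∀ s1 s2 : ℝ, 0 < s1 → s1 < s2 → ∃ s ∈ A, s1 < s ∧ s < s2) →
        (∀ s ∈ A, 0 < s → ∃ b, s ^ (1 - 1 / (E : ℝ)) ≤
          B * (s ^ n0 b * ∏ j, (max s (d j)) ^ n b j) ^ (1 / (N : ℝ))) →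
        ∀ S ∈ 𝒮, ∃ k ∈ S, 1 ≤ B * (∏ j, d j ^ k j) ^ (1 / (N' : ℝ)) := by
  classical
  have hf : IsTrop fun y : Option V → ℝ => Finset.univ.inf' Finset.univ_nonempty fun b =>
      ((-(1 / N) : ℚ) : ℝ) * (((n0 b : ℚ) : ℝ) * y none +
        ∑ j, ((n b j : ℚ) : ℝ) * max (y none) (y (some j))) + ((1 - 1 / E : ℚ) : ℝ) * y none :=
    IsTrop.inf' _ _ fun b _ => ((((IsTrop.coord none).smul _).add (IsTrop.sum _ fun j _ =>
      ((IsTrop.coord none).max (IsTrop.coord (some j))).smul _)).smul _).add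
        ((IsTrop.coord none).smul _)
  obtain ⟨𝒮, h1, h2⟩ := hf.tsup
  simp only [Option.elim, Finset.inf'_le_iff, Finset.mem_univ, true_and] at h1 h2
  obtain ⟨N', hN', hd⟩ : ∃ N' : ℕ, 0 < N' ∧ ∀ S ∈ 𝒮, ∀ k ∈ S, ∀ j, (k j).den ∣ N' := by
    refine ⟨∏ S ∈ 𝒮, ∏ k ∈ S, ∏ j, (k j).den, Finset.prod_pos fun _ _ => Finset.prod_pos fun _ _ =>
      Finset.prod_pos fun _ _ => Rat.den_pos _, fun S hS k hk j => ?_⟩
    exact ((Finset.dvd_prod_of_mem (fun j => (k j).den) (Finset.mem_univ j)).trans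
      (Finset.dvd_prod_of_mem (fun k : V → ℚ => ∏ j, (k j).den) hk)).trans
      (Finset.dvd_prod_of_mem (fun S : Finset (V → ℚ) => ∏ k ∈ S, ∏ j, (k j).den) hS)
  have N0 : (0 : ℝ) < N' := by exact_mod_cast hN'
  have e1 : ∀ (d : V → ℝ) (B : ℝ), (∀ j, 0 < d j) → 0 < B → ∀ S ∈ 𝒮, ∀ k ∈ S,
      (1 ≤ B * (∏ j, d j ^ (-((N' : ℚ) * k j).num)) ^ (1 / (N' : ℝ)) ↔
        ∑ j, (k j : ℝ) * Real.log (d j) ≤ Real.log B) := by
    intro d B hd0 hB S hS k hk
    have p : 0 < ∏ j, d j ^ (-((N' : ℚ) * k j).num) := Finset.prod_pos fun j _ => zpow_pos (hd0 j) _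
    have e : ∀ j, ((-((N' : ℚ) * k j).num : ℤ) : ℝ) = -(N' * k j) := by
      intro j
      obtain ⟨m, hm⟩ := hd S hS k hk j
      have : (N' : ℚ) * k j = ((m * (k j).num : ℤ) : ℚ) := by
        rw [hm]; push_cast; rw [mul_right_comm, Rat.den_mul_eq_num, mul_comm]
      have h3 : (((N' : ℚ) * k j).num : ℚ) = N' * k j := by rw [this, Rat.num_intCast]
      have h4 := congrArg (fun q : ℚ => (q : ℝ)) h3
      push_cast at h4 ⊢
      rw [h4]
    rw [← Real.log_nonneg_iff (by positivity), Real.log_mul hB.ne' (by positivity), Real.log_rpow p,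
      Real.log_prod fun j _ => (zpow_pos (hd0 j) _).ne']
    simp only [Real.log_zpow, e, neg_mul, mul_assoc, Finset.sum_neg_distrib, ← Finset.mul_sum, mul_neg,
      one_div, inv_mul_cancel_left₀ N0.ne']
    constructor <;> intro h <;> linarith
  have e2 : ∀ (d : V → ℝ) (B s : ℝ), (∀ j, 0 < d j) → 0 < B → 0 < s → ∀ b,
      (s ^ (1 - 1 / (E : ℝ)) ≤ B * (s ^ n0 b * ∏ j, (max s (d j)) ^ n b j) ^ (1 / (N : ℝ)) ↔
      ((-(1 / N) : ℚ) : ℝ) * (((n0 b : ℚ) : ℝ) * Real.log s +
        ∑ j, ((n b j : ℚ) : ℝ) * max (Real.log s) (Real.log (d j))) + ((1 - 1 / E : ℚ) : ℝ) * Real.log s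
        ≤ Real.log B) := by
    intro d B s hd0 hB hs b
    have m0 : ∀ j, 0 < max s (d j) := fun j => lt_max_of_lt_left hs
    have p : 0 < ∏ j, (max s (d j)) ^ n b j := Finset.prod_pos fun j _ => zpow_pos (m0 j) _
    have p2 : 0 < s ^ n0 b := zpow_pos hs _
    have lm : ∀ j, Real.log (max s (d j)) = max (Real.log s) (Real.log (d j)) := fun j => by
      rcases le_total s (d j) with c | c
      · rw [max_eq_right c, max_eq_right (Real.log_le_log hs c)]
      · rw [max_eq_left c, max_eq_left (Real.log_le_log (hd0 j) c)]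
    rw [← Real.log_le_log_iff (by positivity) (by positivity), Real.log_mul hB.ne' (by positivity),
      Real.log_rpow hs, Real.log_rpow (mul_pos p2 p), Real.log_mul p2.ne' p.ne',
      Real.log_prod fun j _ => (zpow_pos (m0 j) _).ne']
    simp only [Real.log_zpow, lm]
    push_cast
    constructor <;> intro h <;> linarith
  refine ⟨N', 𝒮.image (Finset.image fun k j => -((N' : ℚ) * k j).num), hN',
    fun d B hd0 hB h3 s hs => ?_, fun d B A hd0 hB hA h3 => ?_⟩
  · simp only [Finset.forall_mem_image, Finset.exists_mem_image] at h3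
    obtain ⟨b, hb⟩ := h1 (fun j => Real.log (d j)) (Real.log B) (fun S hS => by
      obtain ⟨k, c1, c2⟩ := h3 hS
      exact ⟨k, c1, (e1 d B hd0 hB S hS k c1).mp c2⟩) (Real.log s)
    exact ⟨b, (e2 d B s hd0 hB hs b).mpr hb⟩
  · simp only [Finset.forall_mem_image, Finset.exists_mem_image]
    intro S hS
    obtain ⟨k, c1, c2⟩ := h2 (fun j => Real.log (d j)) (Real.log B) (Real.exp ⁻¹' A)
      (dense_iff_exists_between.mpr fun a b hab => by
        obtain ⟨s, c1, c2, c3⟩ := hA _ _ (Real.exp_pos a) (Real.exp_lt_exp.mpr hab)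
        have s0 : 0 < s := (Real.exp_pos a).trans c2
        exact ⟨Real.log s, by rwa [Set.mem_preimage, Real.exp_log s0],
          (Real.lt_log_iff_exp_lt s0).mpr c2, (Real.log_lt_iff_lt_exp s0).mpr c3⟩) (fun s hs => by
        obtain ⟨b, hb⟩ := h3 _ hs (Real.exp_pos s)
        rw [e2 d B _ hd0 hB (Real.exp_pos s), Real.log_exp] at hb
        exact ⟨b, hb⟩) S hS
    exact ⟨k, c1, (e1 d B hd0 hB S hS k c1).mpr c2⟩

end Pool.Agent.MP_c0606f_ag.Klt

end

-- part MP_c0606f_ag.Klt.VI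
section

/-! Valuative inequalities imply integrability. -/

namespace Pool.Agent.MP_c0606f_ag.Klt

open MeasureTheory MvPolynomial
open scoped NNReal ENNReal

/-- simultaneous factorisation of finitely many polynomials with constant leading coefficient:
`R` is the finite set of all roots together with `0` -/
theorem exists_factor {ι K' : Type} [Field K'] [Algebra ℂ K'] [IsAlgClosed K'] (y' : ι → K')
    {γ : Type} [Fintype γ] (p : γ → MvPolynomial (Option ι) ℂ) (hp : ∀ b, IsMon (p b)) :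
    ∃ (r : ℕ) (θ : Fin (r + 1) → K') (c : γ → ℂ) (n : γ → Fin (r + 1) → ℕ),
      Function.Injective θ ∧ (∀ b, c b ≠ 0) ∧ ∀ b,
        (optionEquivLeft ℂ ι (p b)).map (aeval y' : MvPolynomial ι ℂ →ₐ[ℂ] K').toRingHom =
          Polynomial.C (algebraMap ℂ K' (c b)) *
            ∏ j, (Polynomial.X - Polynomial.C (θ j)) ^ n b j := by
  classical
  choose c hc hlc using hp
  set P : γ → Polynomial K' := fun b =>
    (optionEquivLeft ℂ ι (p b)).map (aeval y' : MvPolynomial ι ℂ →ₐ[ℂ] K').toRingHom with hP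
  set R : Finset K' := insert 0 (Finset.univ.biUnion fun b => (P b).roots.toFinset) with hR
  obtain ⟨r, hr⟩ : ∃ r, R.card = r + 1 :=
    Nat.exists_eq_succ_of_ne_zero (Finset.card_ne_zero.2 (Finset.insert_nonempty _ _))
  let e : Fin (r + 1) ≃ R := (R.equivFinOfCardEq hr).symm
  refine ⟨r, fun j => e j, c, fun b j => (P b).roots.count (e j : K'),
    Subtype.val_injective.comp e.injective, hc, fun b => ?_⟩
  have h1 : (P b).leadingCoeff = algebraMap ℂ K' (c b) := by
    have h2 : (aeval y' : MvPolynomial ι ℂ →ₐ[ℂ] K').toRingHom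
        (optionEquivLeft ℂ ι (p b)).leadingCoeff = algebraMap ℂ K' (c b) := by
      rw [hlc]; simp
    rw [hP]
    simp only
    rw [Polynomial.leadingCoeff_map_of_leadingCoeff_ne_zero _ (by
      rw [h2]; simpa using hc b), h2]
  change P b = _
  conv_lhs => rw [(IsAlgClosed.splits (P b)).eq_prod_roots, h1, Finset.prod_multiset_map_count]
  congr 1
  rw [e.prod_comp fun a : R => (Polynomial.X - Polynomial.C (a : K')) ^ (P b).roots.count (a : K'),
    Finset.prod_coe_sort R fun a => (Polynomial.X - Polynomial.C a) ^ (P b).roots.count a]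
  refine Finset.prod_subset (fun a ha => ?_) fun a _ ha => ?_
  · exact Finset.mem_insert_of_mem (Finset.mem_biUnion.2 ⟨b, Finset.mem_univ _, ha⟩)
  · rw [Multiset.count_eq_zero.2 (by simpa using ha), pow_zero]

theorem vi_norm_comp {ι ι' : Type} [Fintype ι] [Fintype ι'] (e : ι' ≃ ι) (q : ι → ℂ) :
    ‖q ∘ e‖ = ‖q‖ := e.surjective.pi_norm_comp q

/-- change of the index type (`evol_reindex`, `rename`, `volume_measurePreserving_piCongrLeft`) -/
theorem vcon_reindex {ι ι' K : Type} [Fintype ι] [DecidableEq ι] [Fintype ι'] [DecidableEq ι']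
    [Field K] [Algebra ℂ K] (e : ι' ≃ ι) {y : ι → K} {G : K} {β : Type} {H : β → K} {N : ℕ}
    (h : VCon (y ∘ e) G H N) : VCon y G H N := by
  obtain ⟨b0, Φ, M, hb, hΦ, h0, hint, hB⟩ := h
  have hmp : MeasurePreserving (fun q : ι → ℂ => q ∘ e) volume volume := by
    have := (volume_measurePreserving_piCongrLeft (fun _ : ι => ℂ) e).symm
    convert this using 1
    funext q
    funext a
    simp [MeasurableEquiv.piCongrLeft]
  refine ⟨rename e b0, fun q => Φ (q ∘ e), M, fun h => hb (rename_injective _ e.injective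
    (h.trans (map_zero _).symm)), hΦ.comp hmp.measurable, fun q => h0 _, ?_, ?_⟩
  · have := hmp.lintegral_comp (f := fun q => ENNReal.ofReal (Φ q * ((1 + ‖q‖ ^ 2)⁻¹) ^ M))
      (by fun_prop)
    simp only [vi_norm_comp] at this
    rwa [this]
  · intro B _ _ i hi f y' G' H' hy hG hH hev
    rw [eval_rename] at hev
    exact hB B i hi f (y' ∘ e) G' H' (fun l => hy _) hG hH hev

theorem vi_om_closed {K : Type} [Field K] [Algebra ℂ K] [IsAlgClosed K] {κ : Type} (u : κ → K) :
    IsAlgClosed (Om u) :=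
  (algebraicClosure.isAlgClosure (IntermediateField.adjoin ℂ (Set.range u)) K).isAlgClosed

theorem vi_om_basis {K : Type} [Field K] [Algebra ℂ K] {κ : Type} {u : κ → K}
    (hu : AlgebraicIndependent ℂ u) : ∃ u' : κ → Om u, IsTranscendenceBasis ℂ u' ∧
      ∀ l, (Om u).val (u' l) = u l := by
  let u' : κ → Om u := fun l => ⟨u l, (mem_Om u _).2 (gauss_alg_mem ⟨l, rfl⟩)⟩
  have hi : AlgebraicIndependent ℂ u' := AlgebraicIndependent.of_comp (Om u).val hu
  refine ⟨u', hi.isTranscendenceBasis_iff_isAlgebraic.2 ⟨fun a => ?_⟩, fun _ => rfl⟩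
  rw [← sub_alg_iff (Om u).val, ← Set.range_comp]
  exact (mem_Om u _).1 a.2

theorem vi_rpow {a x : ℝ} (ha : 0 ≤ a) (hx : 0 ≤ x) {N E : ℕ} (hN : 0 < N) (hE : 0 < E) :
    a ^ (1 - 1 / (E : ℝ)) ≤ x ^ (1 / (N : ℝ)) ↔ a ^ (N * (E - 1)) ≤ x ^ E := by
  have hN' : (0 : ℝ) < N := by exact_mod_cast hN
  have hE' : (0 : ℝ) < E := by exact_mod_cast hE
  rw [← Real.rpow_le_rpow_iff (z := (N * E : ℝ)) (by positivity) (by positivity) (by positivity),
    ← Real.rpow_mul ha, ← Real.rpow_mul hx, ← Real.rpow_natCast a, ← Real.rpow_natCast x]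
  have e1 : (1 - 1 / (E : ℝ)) * (N * E) = ((N * (E - 1) : ℕ) : ℝ) := by
    rw [Nat.cast_mul, Nat.cast_sub hE]; field_simp; simp
  have e2 : 1 / (N : ℝ) * (N * E) = E := by field_simp
  rw [e1, e2]

theorem vi_tonelli {ι : Type} [Fintype ι] {F : (Option ι → ℂ) → ℝ≥0∞} (hF : Measurable F) :
    ∫⁻ y, F y = ∫⁻ y0 : ι → ℂ, ∫⁻ w : ℂ, F fun o => o.elim w y0 := by
  have h := Measure.pi_map_piOptionEquivProd (β := fun _ : Option ι => ℂ) fun _ => volume
  rw [volume_pi, ← h, lintegral_map_equiv]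
  refine (lintegral_prod _ (hF.comp
    (MeasurableEquiv.piOptionEquivProd fun _ : Option ι => ℂ).symm.measurable).aemeasurable).trans ?_
  refine lintegral_congr fun y0 => lintegral_congr fun w => ?_
  refine congrArg F (funext fun o => ?_)
  cases o <;> rfl

theorem vi_wt_le {ι : Type} [Fintype ι] (w : ℂ) (y0 : ι → ℂ) (M : ℕ) :
    ((1 + ‖fun o : Option ι => o.elim w y0‖ ^ 2)⁻¹) ^ (M + 2) ≤
      ((1 + ‖w‖ ^ 2)⁻¹) ^ 2 * ((1 + ‖y0‖ ^ 2)⁻¹) ^ M := by
  have h1 : ‖w‖ ≤ ‖fun o : Option ι => o.elim w y0‖ :=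
    norm_le_pi_norm (fun o : Option ι => o.elim w y0) none
  have h2 : ‖y0‖ ≤ ‖fun o : Option ι => o.elim w y0‖ :=
    (pi_norm_le_iff_of_nonneg (norm_nonneg _)).2 fun l =>
      norm_le_pi_norm (fun o : Option ι => o.elim w y0) (some l)
  rw [pow_add, mul_comm]
  gcongr

theorem vi_int_one (ι : Type) [Fintype ι] : ∃ M : ℕ,
    ∫⁻ q : ι → ℂ, ENNReal.ofReal (((1 + ‖q‖ ^ 2)⁻¹) ^ M) < ⊤ := by
  refine ⟨Module.finrank ℝ (ι → ℂ) + 1, ?_⟩
  have h := integrable_rpow_neg_one_add_norm_sq (E := ι → ℂ) (μ := volume)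
    (r := 2 * (Module.finrank ℝ (ι → ℂ) + 1 : ℕ)) (by
      push_cast
      have : (0 : ℝ) ≤ Module.finrank ℝ (ι → ℂ) := Nat.cast_nonneg _
      linarith)
  refine lt_of_eq_of_lt (lintegral_congr fun q => ?_) h.lintegral_lt_top
  congr 1
  rw [inv_pow, ← Real.rpow_natCast, ← Real.rpow_neg (by positivity)]
  congr 1
  ring

theorem vi_eval {ι R F : Type} [CommRing R] [Algebra ℂ R] [Field F] [Algebra ℂ F]
    (g : R →ₐ[ℂ] F) {yR : ι → R} {p : MvPolynomial (Option ι) ℂ} {ρ : Type} [Fintype ρ]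
    {θ : ρ → R} {c : ℂ} {n : ρ → ℕ}
    (h : (optionEquivLeft ℂ ι p).map (aeval yR : MvPolynomial ι ℂ →ₐ[ℂ] R).toRingHom =
      Polynomial.C (algebraMap ℂ R c) * ∏ j, (Polynomial.X - Polynomial.C (θ j)) ^ n j)
    (w : F) {y : ι → F} (hy : ∀ l, g (yR l) = y l) :
    aeval (fun o : Option ι => o.elim w y) p = algebraMap ℂ F c * ∏ j, (w - g (θ j)) ^ n j := by
  have h1 : (aeval y : MvPolynomial ι ℂ →ₐ[ℂ] F) = g.comp (aeval yR) :=
    MvPolynomial.algHom_ext fun l => by simp [hy]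
  have h2 := congrArg (Polynomial.eval₂RingHom g.toRingHom w) h
  rw [Polynomial.coe_eval₂RingHom, Polynomial.eval₂_map] at h2
  rw [sub_aeval_option, h1]
  refine Eq.trans ?_ (h2.trans ?_)
  · rfl
  · simp [Polynomial.eval₂_finsetProd, Polynomial.eval₂_pow]

theorem vi_lift {ι K' : Type} [Field K'] [Algebra ℂ K'] (B : Subalgebra ℂ K') {y' : ι → K'}
    (hB : ∀ l, y' l ∈ B) {p : MvPolynomial (Option ι) ℂ} {ρ : Type} [Fintype ρ]
    {θ : ρ → K'} (hθ : ∀ j, θ j ∈ B) {c : ℂ} {n : ρ → ℕ}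
    (h : (optionEquivLeft ℂ ι p).map (aeval y' : MvPolynomial ι ℂ →ₐ[ℂ] K').toRingHom =
      Polynomial.C (algebraMap ℂ K' c) * ∏ j, (Polynomial.X - Polynomial.C (θ j)) ^ n j) :
    (optionEquivLeft ℂ ι p).map
        (aeval (fun l => (⟨y' l, hB l⟩ : B)) : MvPolynomial ι ℂ →ₐ[ℂ] B).toRingHom =
      Polynomial.C (algebraMap ℂ B c) *
        ∏ j, (Polynomial.X - Polynomial.C (⟨θ j, hθ j⟩ : B)) ^ n j := by
  refine Polynomial.map_injective B.val.toRingHom Subtype.val_injective ?_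
  have h1 : (aeval y' : MvPolynomial ι ℂ →ₐ[ℂ] K') =
      B.val.comp (aeval fun l => (⟨y' l, hB l⟩ : B)) :=
    MvPolynomial.algHom_ext fun l => by simp
  rw [Polynomial.map_map]
  refine Eq.trans ?_ (h.trans ?_)
  · rw [h1]; rfl
  · simp [Polynomial.map_prod]

theorem vi_units {B F ρ : Type} [CommRing B] [Field F] [Fintype ρ] (g : B →+* F) (u : ρ → Bˣ)
    (k : ρ → ℤ) : g ((∏ j, u j ^ k j : Bˣ) : B) = ∏ j, g (u j : B) ^ k j := by
  have h : g ((∏ j, u j ^ k j : Bˣ) : B) = ((Units.map g.toMonoidHom (∏ j, u j ^ k j) : Fˣ) : F) :=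
    rfl
  rw [h, map_prod, Units.coe_prod]
  refine Finset.prod_congr rfl fun j _ => ?_
  rw [map_zpow, Units.val_zpow_eq_zpow_val]
  rfl

theorem vi_prod_div {ρ : Type} [Fintype ρ] {w : ρ → ℝ} (hw : ∀ j, 0 < w j) (m m' : ρ → ℕ) :
    ∏ j, w j ^ ((m j : ℤ) - m' j) = (∏ j, w j ^ m j) / ∏ j, w j ^ m' j := by
  rw [← Finset.prod_div_distrib]
  exact Finset.prod_congr rfl fun j _ => by rw [zpow_sub₀ (hw j).ne', zpow_natCast, zpow_natCast]

/-- the valuative hypothesis on a disc -/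
theorem vi_key {ι K K' : Type} [Fintype ι] [DecidableEq ι] [Field K] [Algebra ℂ K] [Field K']
    [Algebra ℂ K'] (j : K' →ₐ[ℂ] K) {y : Option ι → K} {y' : ι → K'}
    (hj : ∀ l, j (y' l) = y (some l)) {β : Type} {q : MvPolynomial (Option ι) ℂ}
    {p : β → MvPolynomial (Option ι) ℂ} {ρ : Type} [Fintype ρ] {θ : ρ → K'} {c : Option β → ℂ}
    {n : Option β → ρ → ℕ} (hc : ∀ o, c o ≠ 0)
    (hf : ∀ o : Option β, (optionEquivLeft ℂ ι (o.elim q p)).map
      (aeval y' : MvPolynomial ι ℂ →ₐ[ℂ] K').toRingHom = Polynomial.C (algebraMap ℂ K' (c o)) *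
        ∏ l, (Polynomial.X - Polynomial.C (θ l)) ^ n o l)
    {N E : ℕ} (hN : 0 < N) (hE : 0 < E) (h : VHyp y (aeval y q) (fun b => aeval y (p b)) N E)
    {v : Val K} (hv : IsAbh v) {w : ρ → ℝ} (hw : ∀ l, (v (y none - j (θ l)) : ℝ) = w l)
    (hw0 : ∀ l, 0 < w l) {a : ℝ} (ha0 : 0 ≤ a) (ha : a ≤ avol v y) :
    ∃ b, a ^ (1 - 1 / (E : ℝ)) ≤
      (∏ l, w l ^ ((n (some b) l : ℤ) - n none l)) ^ (1 / (N : ℝ)) := by
  have hy : y = fun o : Option ι => o.elim (y none) fun l => y (some l) := by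
    funext o; cases o <;> rfl
  have hval : ∀ o : Option β, (v (aeval y (o.elim q p)) : ℝ) = ∏ l, w l ^ n o l := fun o => by
    conv_lhs => rw [hy]
    rw [vi_eval j (hf o) (y none) hj, map_mul, hv.triv _ (hc o), one_mul, map_prod]
    push_cast
    exact Finset.prod_congr rfl fun l _ => by rw [map_pow, NNReal.coe_pow, hw]
  obtain ⟨b, hb⟩ := h.2 v hv
  refine ⟨b, ?_⟩
  have hq : 0 < ∏ l, w l ^ n none l := Finset.prod_pos fun l _ => pow_pos (hw0 l) _
  have hp : 0 < ∏ l, w l ^ n (some b) l := Finset.prod_pos fun l _ => pow_pos (hw0 l) _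
  rw [vi_prod_div hw0, vi_rpow ha0 (by positivity) hN hE, div_pow, le_div_iff₀ (by positivity)]
  have hb' : (avol v y : ℝ) ^ (N * (E - 1)) * (v (aeval y q) : ℝ) ^ E ≤
      (v (aeval y (p b)) : ℝ) ^ E := by exact_mod_cast hb
  have h1 : (v (aeval y q) : ℝ) = _ := hval none
  have h2 : (v (aeval y (p b)) : ℝ) = _ := hval (some b)
  rw [h1, h2] at hb'
  refine le_trans ?_ hb'
  gcongr

/-- the valuative hypothesis for one cell -/
theorem vi_cell {ι K K' : Type} [Fintype ι] [DecidableEq ι] [Field K] [Algebra ℂ K] [Field K']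
    [Algebra ℂ K'] [IsAlgClosed K'] (j : K' →ₐ[ℂ] K) {y : Option ι → K}
    (hy : IsTranscendenceBasis ℂ y) {y' : ι → K'} (hy' : IsTranscendenceBasis ℂ y')
    (hj : ∀ l, j (y' l) = y (some l)) {β : Type} {q : MvPolynomial (Option ι) ℂ}
    {p : β → MvPolynomial (Option ι) ℂ} {ρ : Type} [Fintype ρ] [DecidableEq ρ] {θ : ρ → K'}
    (hθ : Function.Injective θ) {c : Option β → ℂ} {n : Option β → ρ → ℕ} (hc : ∀ o, c o ≠ 0)
    (hf : ∀ o : Option β, (optionEquivLeft ℂ ι (o.elim q p)).map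
      (aeval y' : MvPolynomial ι ℂ →ₐ[ℂ] K').toRingHom = Polynomial.C (algebraMap ℂ K' (c o)) *
        ∏ l, (Polynomial.X - Polynomial.C (θ l)) ^ n o l)
    {N E : ℕ} (hN : 0 < N) (hE : 0 < E) (h : VHyp y (aeval y q) (fun b => aeval y (p b)) N E)
    (i : ρ) {N' : ℕ} (hN' : 0 < N') (S : Finset ({l // l ≠ i} → ℤ))
    (hS : ∀ (d : {l // l ≠ i} → ℝ) (B : ℝ) (A : Set ℝ), (∀ l, 0 < d l) → 0 < B →
      (∀ s1 s2 : ℝ, 0 < s1 → s1 < s2 → ∃ s ∈ A, s1 < s ∧ s < s2) →
      (∀ s ∈ A, 0 < s → ∃ b, s ^ (1 - 1 / (E : ℝ)) ≤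
        B * (s ^ ((n (some b) i : ℤ) - n none i) *
          ∏ l, (max s (d l)) ^ ((n (some b) l.1 : ℤ) - n none l.1)) ^ (1 / (N : ℝ))) →
      ∃ k ∈ S, 1 ≤ B * (∏ l, d l ^ k l) ^ (1 / (N' : ℝ))) :
    VHyp y' 1 (fun k : S => ∏ l : {l // l ≠ i}, (θ i - θ l.1) ^ k.1 l) N' E := by
  have hne : ∀ l : {l // l ≠ i}, θ i - θ l.1 ≠ 0 := fun l h0 => l.2 (hθ (sub_eq_zero.1 h0)).symm
  have hS0 : ∃ k, k ∈ S := by
    obtain ⟨k, hk, -⟩ := hS (fun _ => 1) 1 {1}ᶜ (fun _ => one_pos) one_pos (fun s1 s2 h0 h12 => by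
      by_cases h1 : (s1 + s2) / 2 = 1
      · exact ⟨(s1 + 1) / 2, fun h2 => by rw [Set.mem_singleton_iff] at h2; linarith,
          by linarith, by linarith⟩
      · exact ⟨(s1 + s2) / 2, h1, by linarith, by linarith⟩) fun s hs hs0 => by
        obtain ⟨v, hv, h1, h2, h3⟩ := exists_disc_triv j hy hy' hj (θ i) (c := ⟨s, hs0.le⟩) hs0
          fun h => hs (congrArg NNReal.toReal h)
        obtain ⟨b, hb⟩ := vi_key j hj hc hf hN hE h hv (w := fun l => if l = i then s else max s 1)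
          (fun l => by
            split_ifs with hl
            · rw [hl, h1]; rfl
            · rw [h2 _ fun h => hl (hθ h)]; rfl)
          (fun l => by split_ifs <;> positivity) hs0.le h3
        refine ⟨b, ?_⟩
        rw [Fintype.prod_eq_mul_prod_subtype_ne _ i, if_pos rfl] at hb
        rw [one_mul]
        convert hb using 4 with l
        rw [if_neg l.2]
    exact ⟨k, hk⟩
  obtain ⟨k0, hk0⟩ := hS0
  refine ⟨⟨⟨k0, hk0⟩, Finset.prod_ne_zero_iff.2 fun l _ => zpow_ne_zero _ (hne l)⟩,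
    fun v' hv' => ?_⟩
  have hd : ∀ l : {l // l ≠ i}, (0 : ℝ) < v' (θ i - θ l.1) := fun l => by
    exact_mod_cast pos_iff_ne_zero.2 ((Valuation.ne_zero_iff v').2 (hne l))
  set a : ℝ := (avol v' y' : ℝ) with ha
  have ha0 : 0 ≤ a := NNReal.coe_nonneg _
  have key : ∃ k ∈ S, a ^ (1 - 1 / (E : ℝ)) ≤
      (∏ l : {l // l ≠ i}, (v' (θ i - θ l.1) : ℝ) ^ k l) ^ (1 / (N' : ℝ)) := by
    set α := a ^ (1 - 1 / (E : ℝ)) with hα
    have hα0 : 0 ≤ α := Real.rpow_nonneg ha0 _
    rcases hα0.eq_or_lt with h0 | h0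
    · exact ⟨k0, hk0, by
        rw [← h0]
        exact Real.rpow_nonneg (Finset.prod_nonneg fun l _ => zpow_nonneg (hd l).le _) _⟩
    obtain ⟨k, hk, h1⟩ := hS _ α⁻¹ {s | ∃ β : K', β ≠ 0 ∧ (v' β : ℝ) = s} hd (inv_pos.2 h0)
      (fun s1 s2 h0 h12 => by
        obtain ⟨β, h1, h2, h3⟩ := hv'.dense h0 h12
        exact ⟨_, ⟨β, h1, rfl⟩, h2, h3⟩) (by
        rintro _ ⟨β, hβ, rfl⟩ hs0
        obtain ⟨v, hv, h1, h2⟩ := exists_disc j hy hy' hj hv' (θ i) β hβ
        obtain ⟨b, hb⟩ := vi_key j hj hc hf hN hE h hv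
          (w := fun l => max (v' β : ℝ) (v' (θ i - θ l))) (fun l => by rw [h1, NNReal.coe_max])
          (fun l => lt_max_of_lt_left hs0) (a := a * v' β) (by positivity) (by exact_mod_cast h2)
        refine ⟨b, ?_⟩
        rw [Fintype.prod_eq_mul_prod_subtype_ne _ i, sub_self, map_zero, NNReal.coe_zero,
          max_eq_left hs0.le, Real.mul_rpow ha0 hs0.le] at hb
        rwa [le_inv_mul_iff₀ h0])
    exact ⟨k, hk, by rwa [le_inv_mul_iff₀ h0, mul_one] at h1⟩
  obtain ⟨k, hk, h1⟩ := key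
  refine ⟨⟨k, hk⟩, ?_⟩
  rw [vi_rpow ha0 (Finset.prod_nonneg fun l _ => zpow_nonneg (hd l).le _) hN' hE] at h1
  rw [map_one, one_pow, mul_one, map_prod]
  simp only [map_zpow₀]
  exact_mod_cast h1

theorem vi_pfn_le {ι : Type} [Fintype ι] {β : Type} [Fintype β] {q : MvPolynomial ι ℂ}
    {p : β → MvPolynomial ι ℂ} {N : ℕ} {y : ι → ℂ} (hq : eval y q ≠ 0) (b : β) :
    pfn q p N y * (‖eval y (p b)‖ / ‖eval y q‖) ^ (2 / (N : ℝ)) ≤ 1 := by
  have h1 : ‖eval y (p b)‖ ≤ ⨆ b, ‖eval y (p b)‖ :=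
    le_ciSup (f := fun b => ‖eval y (p b)‖) (Set.finite_range _).bddAbove b
  have h2 : 0 ≤ ⨆ b, ‖eval y (p b)‖ := (norm_nonneg _).trans h1
  have h3 : 0 < ‖eval y q‖ := norm_pos_iff.2 hq
  rw [pfn, ← Real.mul_rpow (by positivity) (by positivity)]
  refine Real.rpow_le_one (by positivity) ?_ (by positivity)
  rw [div_mul_div_comm, mul_comm (‖eval y q‖), mul_div_mul_right _ _ h3.ne']
  exact div_le_one_of_le₀ h1 h2

/-- The inductive step.  Let `K' = Om (y ∘ some)` (algebraically closed, `y'` the family `y ∘ some`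
in it, a transcendence basis), factor `q` and the `p b` over `K'` (`exists_factor` for
`Option β`), `n b j = n (some b) j - n none j ∈ ℤ`.  For each `i` apply `trop_cell` with
`V = {j // j ≠ i}`, `n0 b = n b i`; for `S ∈ 𝒮 i` put `H k = ∏ j, (θ i - θ j) ^ k j`, `k ∈ S`,
`G = 1`.  `VHyp y' 1 H N' E` holds: `S` is nonempty by `exists_disc_triv` (`d = 1`, `B = 1`,
`A = {1}ᶜ`), and for an Abhyankar `v'` with `avol v' y' > 0` use `exists_disc`, `IsAbh.dense`,
`d j = v' (θ i - θ j)`, `B = avol ^ (-(1 - 1 / E))`.  So `ih` gives `Φ i S`, `b0 i S`, `M i S`.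
By `exists_gen_pt` (for the `θ i` and the `(θ i - θ j)⁻¹`), for almost every `y0` (`ae_eval_ne`)
there is a point `f` over `y0`; the factorisations specialise (`Polynomial.map` along `f` of the
lifted identity over `B`); with `B^2 = 1 + ∑ Φ i S y0` the first part of `trop_cell` gives the
hypothesis of `fib`.  Tonelli on `Option ι → ℂ` (`measurePreserving_piOptionEquivProd`-like,
`lintegral_prod`), and `(1 + ‖y‖^2)⁻¹ ^ (M + 2) ≤ (1 + ‖y0‖^2)⁻¹ ^ M * (1 + |w|^2)⁻¹ ^ 2`; take `M`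
large so that the constant `1` is integrable too (`integrable_rpow_neg_one_add_norm_sq`). -/
theorem pcon_step {ι : Type} [Fintype ι] [DecidableEq ι] {E : ℕ} (hE : 0 < E)
    (ih : ∀ (K' : Type) [Field K'] [Algebra ℂ K'] [IsAlgClosed K'] (y' : ι → K'),
      IsTranscendenceBasis ℂ y' → ∀ (G : K') (β : Type) [Fintype β] (H : β → K') (N : ℕ), 0 < N →
      VHyp y' G H N E → VCon y' G H N)
    {K : Type} [Field K] [Algebra ℂ K] [IsAlgClosed K] (y : Option ι → K)
    (hy : IsTranscendenceBasis ℂ y) (q : MvPolynomial (Option ι) ℂ) (β : Type) [Fintype β]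
    (p : β → MvPolynomial (Option ι) ℂ) (N : ℕ) (hN : 0 < N) (hq : IsMon q)
    (hp : ∀ b, IsMon (p b)) (h : VHyp y (aeval y q) (fun b => aeval y (p b)) N E) :
    PCon q p N := by
  classical
  have := vi_om_closed (y ∘ some)
  obtain ⟨y', hy', hj⟩ := vi_om_basis (hy.1.comp some (Option.some_injective ι))
  obtain ⟨r, θ, c, n, hθ, hc, hf⟩ := exists_factor y' (fun o : Option β => o.elim q p)
    (fun o => by cases o; exacts [hq, hp _])
  have : Nonempty β := ⟨h.1.choose⟩
  choose N' 𝒮 hN' hA hB using fun i : Fin (r + 1) => trop_cell (V := {l // l ≠ i})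
    (fun b => (n (some b) i : ℤ) - n none i) (fun b l => (n (some b) l.1 : ℤ) - n none l.1) hN hE
  have hcon : ∀ σ : Σ i, 𝒮 i, VCon y' 1
      (fun k : σ.2.1 => ∏ l : {l // l ≠ σ.1}, (θ σ.1 - θ l.1) ^ k.1 l) (N' σ.1) := fun σ =>
    ih _ y' hy' 1 _ _ _ (hN' _) (vi_cell (Om (y ∘ some)).val hy hy' hj hθ hc hf hN hE h σ.1
      (hN' _) σ.2.1 fun d B A hd hB0 hA0 hs => hB σ.1 d B A hd hB0 hA0 hs _ σ.2.2)
  choose b0 Φ M hb0 hΦ hΦ0 hint hpt using hcon
  obtain ⟨B, b1, hyB, hT, hb1, hgen⟩ := exists_gen_pt hy'.1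
    (Finset.univ.image θ ∪ Finset.univ.image fun il : Fin (r + 1) × Fin (r + 1) =>
      (θ il.1 - θ il.2)⁻¹) fun a _ => hy'.isAlgebraic.1 a
  have hθB : ∀ l, θ l ∈ B := fun l => hT _ (by simp)
  have hne : ∀ {i l}, l ≠ i → θ i - θ l ≠ 0 := fun hl h0 => hl (hθ (sub_eq_zero.1 h0)).symm
  let u : ∀ i, {l // l ≠ i} → Bˣ := fun i l =>
    { val := ⟨θ i, hθB i⟩ - ⟨θ l.1, hθB l.1⟩
      inv := ⟨(θ i - θ l.1)⁻¹, hT _ (Finset.mem_union_right _
        (Finset.mem_image.2 ⟨(i, l.1), Finset.mem_univ _, rfl⟩))⟩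
      val_inv := Subtype.ext (mul_inv_cancel₀ (hne l.2))
      inv_val := Subtype.ext (inv_mul_cancel₀ (hne l.2)) }
  have hc' : ∀ b, 0 < ‖c (some b)‖ / ‖c none‖ := fun b =>
    div_pos (norm_pos_iff.2 (hc _)) (norm_pos_iff.2 (hc _))
  obtain ⟨Kc, hKc, hfib⟩ := fib (fun b l => (n (some b) l : ℤ) - n none l) _ hc' hN hE
  have hmain : ∀ y0 : ι → ℂ, eval y0 b1 ≠ 0 → (∀ σ, eval y0 (b0 σ) ≠ 0) →
      ∫⁻ w, ENNReal.ofReal (pfn q p N (fun o => o.elim w y0) * ((1 + ‖w‖ ^ 2)⁻¹) ^ 2) ≤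
        ENNReal.ofReal (Kc * (1 + ∑ σ, Φ σ y0)) := fun y0 h1 h2 => by
    obtain ⟨f, hfy⟩ := hgen y0 h1
    set τ : Fin (r + 1) → ℂ := fun l => f ⟨θ l, hθB l⟩ with hτ
    have hu : ∀ i l, f (u i l : B) = τ i - τ l.1 := fun i l => map_sub f _ _
    have hd : ∀ i (l : {l // l ≠ i}), 0 < ‖τ i - τ l.1‖ := fun i l => by
      rw [← hu, norm_pos_iff]
      exact ((u i l).isUnit.map f).ne_zero
    have hs0 : 0 ≤ ∑ σ, Φ σ y0 := Finset.sum_nonneg fun σ _ => hΦ0 σ y0
    set Bc := Real.sqrt (1 + ∑ σ, Φ σ y0) with hBc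
    have hBc0 : 0 < Bc := Real.sqrt_pos.2 (by positivity)
    have hBc2 : Bc ^ 2 = 1 + ∑ σ, Φ σ y0 := Real.sq_sqrt (by positivity)
    rw [← hBc2]
    refine hfib τ Bc _ hBc0 (fun i s hs => ?_) fun w hw b => ?_
    · obtain ⟨b, hb⟩ := hA i (fun l => ‖τ i - τ l.1‖) Bc (hd i) hBc0 (fun S hS => by
        have hy0 : (fun l => f ⟨y' l, hyB l⟩) = y0 := funext hfy
        obtain ⟨k, hk⟩ := hpt ⟨i, S, hS⟩ B B.val Subtype.val_injective f
          (fun l => ⟨y' l, hyB l⟩) 1 (fun k => ((∏ l, u i l ^ k.1 l : Bˣ) : B)) (fun _ => rfl)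
          (map_one _) (fun k => vi_units B.val.toRingHom (u i) k.1) (by rw [hy0]; exact h2 _)
        refine ⟨k.1, k.2, ?_⟩
        have e1 : f ((∏ l, u i l ^ k.1 l : Bˣ) : B) = ∏ l, f (u i l : B) ^ k.1 l :=
          vi_units f.toRingHom (u i) k.1
        rw [hy0, map_one, norm_one, Real.one_rpow, e1, norm_prod] at hk
        simp only [norm_zpow, hu] at hk
        have hx : 0 ≤ ∏ l : {l // l ≠ i}, ‖τ i - τ l.1‖ ^ k.1 l := by positivity
        have hle : Φ ⟨i, S, hS⟩ y0 ≤ Bc ^ 2 := by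
          have := Finset.single_le_sum (f := fun σ => Φ σ y0) (fun σ _ => hΦ0 σ y0)
            (Finset.mem_univ ⟨i, S, hS⟩)
          linarith
        refine (one_le_sq_iff₀ (by positivity)).1 (hk.trans ?_)
        rw [mul_pow, ← Real.rpow_natCast (_ ^ (1 / (N' i : ℝ))), ← Real.rpow_mul hx]
        refine mul_le_mul hle (le_of_eq ?_) (by positivity) (by positivity)
        congr 1
        push_cast
        ring) s hs
      refine ⟨b, ?_⟩
      rwa [Fintype.prod_eq_mul_prod_subtype_ne _ i, sub_self, norm_zero, max_eq_left hs.le]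
    · have hev : ∀ o : Option β, ‖eval (fun o : Option ι => o.elim w y0) (o.elim q p)‖ =
          ‖c o‖ * ∏ l, ‖w - τ l‖ ^ n o l := fun o => by
        have := vi_eval f (vi_lift B hyB hθB (hf o)) w hfy
        rw [aeval_eq_eval] at this
        rw [this, norm_mul, norm_prod]
        simp [hτ]
      have hw0 : ∀ l, 0 < ‖w - τ l‖ := fun l => norm_pos_iff.2 (sub_ne_zero.2 (hw l))
      have e1 := hev none
      have e2 := hev (some b)
      simp only [Option.elim_none, Option.elim_some] at e1 e2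
      have hq0 : eval (fun o : Option ι => o.elim w y0) q ≠ 0 := by
        rw [← norm_pos_iff, e1]
        exact mul_pos (norm_pos_iff.2 (hc _)) (Finset.prod_pos fun l _ => pow_pos (hw0 l) _)
      have := vi_pfn_le (p := p) (N := N) hq0 b
      rwa [e1, e2, ← div_mul_div_comm, ← vi_prod_div hw0] at this
  obtain ⟨M1, hM1⟩ := vi_int_one ι
  set M0 := M1 + ∑ σ, M σ with hM0
  have hW : ∀ (y0 : ι → ℂ) (m : ℕ), m ≤ M0 →
      ((1 + ‖y0‖ ^ 2)⁻¹) ^ M0 ≤ ((1 + ‖y0‖ ^ 2)⁻¹) ^ m := fun y0 m hm =>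
    pow_le_pow_of_le_one (by positivity) (inv_le_one_of_one_le₀ (by nlinarith [norm_nonneg y0])) hm
  have hpf : ∀ z, 0 ≤ pfn q p N z := fun z => Real.rpow_nonneg
    (div_nonneg (norm_nonneg _) (Real.iSup_nonneg fun _ => norm_nonneg _)) _
  refine ⟨M0 + 2, ?_⟩
  have hm := measurable_pfn q p N
  rw [vi_tonelli (by fun_prop)]
  have hae : ∀ᵐ y0 : ι → ℂ, eval y0 b1 ≠ 0 ∧ ∀ σ, eval y0 (b0 σ) ≠ 0 :=
    (ae_eval_ne hb1).and (ae_all_iff.2 fun σ => ae_eval_ne (hb0 σ))
  calc _ ≤ ∫⁻ y0 : ι → ℂ, ENNReal.ofReal Kc * (ENNReal.ofReal (((1 + ‖y0‖ ^ 2)⁻¹) ^ M1) +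
        ∑ σ, ENNReal.ofReal (Φ σ y0 * ((1 + ‖y0‖ ^ 2)⁻¹) ^ M σ)) := by
        refine lintegral_mono_ae (hae.mono fun y0 hy0 => ?_)
        calc _ ≤ ∫⁻ w, ENNReal.ofReal (pfn q p N (fun o => o.elim w y0) * ((1 + ‖w‖ ^ 2)⁻¹) ^ 2) *
              ENNReal.ofReal (((1 + ‖y0‖ ^ 2)⁻¹) ^ M0) := by
              refine lintegral_mono fun w => ?_
              rw [← ENNReal.ofReal_mul (mul_nonneg (hpf _) (by positivity)), mul_assoc]
              exact ENNReal.ofReal_le_ofReal (mul_le_mul_of_nonneg_left (vi_wt_le w y0 M0) (hpf _))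
          _ ≤ ENNReal.ofReal (Kc * (1 + ∑ σ, Φ σ y0)) *
              ENNReal.ofReal (((1 + ‖y0‖ ^ 2)⁻¹) ^ M0) := by
              rw [lintegral_mul_const' _ _ ENNReal.ofReal_ne_top]
              gcongr
              exact hmain y0 hy0.1 hy0.2
          _ ≤ _ := by
              have hs0 : 0 ≤ ∑ σ, Φ σ y0 := Finset.sum_nonneg fun σ _ => hΦ0 σ y0
              have hs1 : ∀ σ ∈ Finset.univ, 0 ≤ Φ σ y0 * ((1 + ‖y0‖ ^ 2)⁻¹) ^ M σ :=
                fun σ _ => mul_nonneg (hΦ0 σ y0) (by positivity)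
              rw [← ENNReal.ofReal_sum_of_nonneg hs1, ← ENNReal.ofReal_add (by positivity)
                (Finset.sum_nonneg hs1), ← ENNReal.ofReal_mul hKc,
                ← ENNReal.ofReal_mul (by positivity), mul_assoc]
              refine ENNReal.ofReal_le_ofReal (mul_le_mul_of_nonneg_left ?_ hKc)
              rw [add_mul, one_mul, Finset.sum_mul]
              refine add_le_add (hW _ _ (Nat.le_add_right _ _)) (Finset.sum_le_sum fun σ _ => ?_)
              refine mul_le_mul_of_nonneg_left (hW _ _ ?_) (hΦ0 σ y0)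
              exact (Finset.single_le_sum (f := M) (fun _ _ => Nat.zero_le _)
                (Finset.mem_univ σ)).trans (Nat.le_add_left _ _)
    _ < ⊤ := by
        rw [lintegral_const_mul' _ _ ENNReal.ofReal_ne_top, lintegral_add_left (by fun_prop),
          lintegral_finsetSum _ fun σ _ => by have := hΦ σ; fun_prop]
        exact ENNReal.mul_lt_top ENNReal.ofReal_lt_top
          (ENNReal.add_lt_top.2 ⟨hM1, ENNReal.sum_lt_top.2 fun σ _ => hint σ⟩)

/-- `Finite.induction_empty_option` (or induction on `card ι` with `vcon_reindex`); for the empty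
type `PCon` is trivial (the volume is a Dirac measure); `push`, `pcon_of_mon`, `pcon_step` -/
theorem vi {E : ℕ} (hE : 0 < E) (ι : Type) [Fintype ι] [DecidableEq ι] (K : Type) [Field K]
    [Algebra ℂ K] [IsAlgClosed K] (y : ι → K) (hy : IsTranscendenceBasis ℂ y) (G : K) (β : Type)
    [Fintype β] (H : β → K) (N : ℕ) (hN : 0 < N) (h : VHyp y G H N E) : VCon y G H N := by
  have key : ∀ (ι : Type) [Finite ι] (_ : Fintype ι) (_ : DecidableEq ι) (K : Type) [Field K]
      [Algebra ℂ K] [IsAlgClosed K] (y : ι → K), IsTranscendenceBasis ℂ y → ∀ (G : K) (β : Type)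
      [Fintype β] (H : β → K) (N : ℕ), 0 < N → VHyp y G H N E → VCon y G H N := by
    intro ι _
    induction ι using Finite.induction_empty_option with
    | @of_equiv α α' e ih =>
      intro i1 i2 K _ _ _ y hy G β _ H N hN h
      let i3 : Fintype α := Fintype.ofEquiv α' e.symm
      let i4 : DecidableEq α := Classical.decEq α
      refine vcon_reindex e (ih i3 i4 K _ ((isTranscendenceBasis_equiv e).2 hy) G β H N hN
        ⟨h.1, fun v hv => ?_⟩)
      rw [avol, evol_reindex]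
      exact h.2 v hv
    | h_empty =>
      intro i1 i2 K _ _ _ y hy G β _ H N hN h
      refine push hy hE (fun q β _ p N _ _ _ _ => ⟨0, ?_⟩) G H hN h
      rw [volume_pi, Measure.pi_of_empty, lintegral_dirac]
      exact ENNReal.ofReal_lt_top
    | @h_option α i0 ih =>
      intro i1 i2 K _ _ _ y hy G β _ H N hN h
      let i4 : DecidableEq α := Classical.decEq α
      obtain rfl : i1 = instFintypeOption := Subsingleton.elim _ _
      obtain rfl : i2 = Option.instDecidableEq := Subsingleton.elim _ _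
      exact push hy hE (fun q β _ p N hN hq hp h => pcon_of_mon
        (fun y hy q β _ p N hN hq hp h => pcon_step hE (ih i0 i4) y hy q β p N hN hq hp h)
        hy q β p N hN hq hp h) G H hN h
  exact key ι _ _ K y hy G β H N hN h

theorem vi_rpow_nn {a x g : ℝ≥0} {N E : ℕ} (hE : 0 < E) (h : a ^ (1 - 1 / (E : ℝ)) * g ≤ x) :
    a ^ (N * (E - 1)) * (g ^ N) ^ E ≤ (x ^ N) ^ E := by
  have hE' : (0 : ℝ) < E := by exact_mod_cast hE
  have e1 : (1 - 1 / (E : ℝ)) * ((N * E : ℕ) : ℝ) = ((N * (E - 1) : ℕ) : ℝ) := by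
    rw [Nat.cast_mul, Nat.cast_mul, Nat.cast_sub hE]; field_simp; simp [mul_comm]
  have h1 := pow_le_pow_left₀ (by positivity) h (N * E)
  rwa [mul_pow, ← NNReal.rpow_natCast (a ^ _), ← NNReal.rpow_mul, e1, NNReal.rpow_natCast,
    pow_mul g, pow_mul x] at h1

/-- Let `K = AlgebraicClosure L`, `N = c.den`, `H none = F ^ c.num * h ^ N`,
`H (some i) = H none * y i ^ (M0 * N)`, `G = g ^ N`.  The restriction to `L` of an Abhyankar
valuation of `K` is Abhyankar (`IsAbh.comap`, `exists_pow_val`, `fg_top`), `avol_comap_le`.  Apply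
`vi`, then `VCon` with `B = C.A` and `f = evHom`.  Use `Φ' y = Φ y * (1 + ‖y‖^2)^M0` and
`wt_const_le`. -/
theorem Cover.intg {ι L : Type} [Fintype ι] [DecidableEq ι] [Field L] [Algebra ℂ L]
    (C : Cover ι L) {g F h : L} (hg : g ∈ C.A) (hF : F ∈ C.A) (hh : h ∈ C.A) (hF0 : F ≠ 0)
    (hh0 : h ≠ 0) {c : ℚ} (hc : 0 ≤ c) {E M0 : ℕ} (hE : 0 < E)
    (hv : ∀ v : Val L, IsAbh v → avol v C.y ^ (1 - 1 / (E : ℝ)) * v g ≤
      v F ^ (c : ℝ) * v h * (max 1 (Finset.univ.sup fun i => v (C.y i))) ^ M0) :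
    C.Intg g F h c := by
  set K := AlgebraicClosure L
  let j : L →ₐ[ℂ] K := IsScalarTower.toAlgHom ℂ L K
  set N := c.den with hNdef
  set m := c.num.toNat with hm
  have hN : 0 < N := c.den_pos
  have hN' : (0 : ℝ) < N := by exact_mod_cast hN
  have hcN : (c : ℝ) * N = m := by
    have h1 : (m : ℤ) = c.num := Int.toNat_of_nonneg (Rat.num_nonneg.2 hc)
    have h2 : (c * c.den : ℚ) = c.num := Rat.mul_den_eq_num c
    rw [← h1] at h2
    exact_mod_cast h2
  let z : Option ι → C.A := fun o => o.elim 1 fun i => ⟨C.y i, C.y_mem i⟩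
  let H' : Option ι → C.A := fun o => ⟨F, hF⟩ ^ m * ⟨h, hh⟩ ^ N * z o ^ (M0 * N)
  let i : C.A →ₐ[ℂ] K := j.comp C.A.val
  have hyp : VHyp (fun l => j (C.y l)) (i (⟨g, hg⟩ ^ N)) (fun o => i (H' o)) N E := by
    refine ⟨⟨none, ?_⟩, fun v hvK => ?_⟩
    · simp [i, H', z, hF0, hh0]
    obtain ⟨q, t, u, hf⟩ := id hvK
    obtain ⟨k, τ, hk, -, hτ, hkτ⟩ := exists_pow_val (F := L) v (a := t)
      ((Valuation.ne_zero_iff v).1 hf.pos.ne') (Algebra.IsAlgebraic.isAlgebraic t)
    obtain ⟨q', t', u', hf', -⟩ := hvK.comap j C.fg_top (τ := τ)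
      (by change 0 < v (algebraMap L K τ); rw [← hkτ]; exact pow_pos hf.pos _)
      (by change v (algebraMap L K τ) < 1; rw [← hkτ]; exact pow_lt_one₀ zero_le hf.lt hk.ne')
    have h1 := vi_rpow_nn (N := N) hE (hv _ hf'.isAbh)
    have h2 := avol_comap_le j v hf' C.y
    obtain ⟨o, ho⟩ : ∃ o, max 1 (Finset.univ.sup fun l => v.comap j.toRingHom (C.y l)) =
        v (i (z o)) := by
      rcases le_or_gt (Finset.univ.sup fun l => v.comap j.toRingHom (C.y l)) 1 with h3 | h3
      · exact ⟨none, by rw [max_eq_left h3]; simp [z]⟩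
      · obtain ⟨l0, -, -⟩ := Finset.lt_sup_iff.1 h3
        obtain ⟨l, -, hl⟩ := Finset.exists_mem_eq_sup Finset.univ ⟨l0, Finset.mem_univ _⟩
          fun l => v.comap j.toRingHom (C.y l)
        exact ⟨some l, by rw [max_eq_right h3.le, hl]; rfl⟩
    refine ⟨o, ?_⟩
    rw [ho, mul_pow (_ * _) _ N, mul_pow _ _ N, ← NNReal.rpow_natCast (_ ^ (c : ℝ)), ← NNReal.rpow_mul, hcN,
      NNReal.rpow_natCast, ← pow_mul _ M0 N] at h1
    simp only [H', map_mul, map_pow]
    exact (mul_le_mul_left (pow_le_pow_left₀ zero_le h2 _) _).trans h1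
  obtain ⟨b0, Φ, M, hb0, hΦ, hΦ0, hint, hpt⟩ :=
    vi hE ι K _ (C.basis.algebraMap_comp (A := K)) _ (Option ι) _ N hN hyp
  refine ⟨b0, fun y => Φ y * (1 + ‖y‖ ^ 2) ^ M0, fun _ => M + M0, hb0, by fun_prop,
    fun y => mul_nonneg (hΦ0 y) (by positivity), ?_, fun p hp => ?_⟩
  · have hw := continuous_wt (ι := ι) fun _ => M + M0
    refine ⟨(by fun_prop : Measurable fun y : ι → ℂ => Φ y * (1 + ‖y‖ ^ 2) ^ M0 *
      wt (fun _ => M + M0) y).aestronglyMeasurable, ?_⟩
    rw [hasFiniteIntegral_iff_ofReal (ae_of_all _ fun y =>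
      mul_nonneg (mul_nonneg (hΦ0 y) (by positivity)) (wt_pos _ y).le)]
    refine lt_of_le_of_lt (lintegral_mono fun y => ENNReal.ofReal_le_ofReal ?_) hint
    rw [mul_assoc]
    refine mul_le_mul_of_nonneg_left ?_ (hΦ0 y)
    refine (mul_le_mul_of_nonneg_left (wt_const_le _ y) (by positivity)).trans (le_of_eq ?_)
    have : (0 : ℝ) < 1 + ‖y‖ ^ 2 := by positivity
    rw [pow_add, mul_left_comm, ← mul_pow, mul_inv_cancel₀ this.ne', one_pow, mul_one]
  · let f : C.A →ₐ[ℂ] ℂ := { C.evHom p.2 with commutes' := fun a => C.ev_algebraMap p.2 a }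
    have hf : ∀ a : C.A, f a = C.fn a p := fun _ => rfl
    have hy0 : (fun l => f ⟨C.y l, C.y_mem l⟩) = p.1.1 := funext fun l => C.ev_y p.2 l
    obtain ⟨o, ho⟩ := hpt C.A i (j.injective.comp Subtype.val_injective) f
      (fun l => ⟨C.y l, C.y_mem l⟩) (⟨g, hg⟩ ^ N) H' (fun _ => rfl) rfl (fun _ => rfl)
      (by rw [hy0]; exact hp)
    have hz : ‖f (z o)‖ ^ 2 ≤ 1 + ‖p.1.1‖ ^ 2 := by
      cases o with
      | none => simp [z]
      | some l =>
        have h1 : ‖f (z (some l))‖ ≤ ‖p.1.1‖ := by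
          rw [← hy0]; exact norm_le_pi_norm (fun l => f ⟨C.y l, C.y_mem l⟩) l
        nlinarith [norm_nonneg (f (z (some l)))]
    have hr : ∀ (x : ℝ) (k : ℕ), 0 ≤ x → (x ^ (k * N)) ^ (2 / (N : ℝ)) = (x ^ 2) ^ k :=
      fun x k hx => by
        rw [← Real.rpow_natCast x, ← Real.rpow_mul hx, ← pow_mul, ← Real.rpow_natCast x]
        congr 1
        push_cast
        field_simp
    have hr1 : ∀ x : ℝ, 0 ≤ x → (x ^ N) ^ (2 / (N : ℝ)) = x ^ 2 := fun x hx => by
      simpa using hr x 1 hx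
    have hr2 : ∀ x : ℝ, 0 ≤ x → (x ^ m) ^ (2 / (N : ℝ)) = (x ^ 2) ^ (c : ℝ) := fun x hx => by
      rw [← Real.rpow_natCast x, ← Real.rpow_mul hx, ← Real.rpow_natCast x, ← Real.rpow_mul hx,
        ← hcN]
      congr 1
      push_cast
      field_simp
    simp only [H', map_mul, map_pow, norm_mul, norm_pow, hy0] at ho
    rw [Real.mul_rpow (by positivity) (by positivity), Real.mul_rpow (by positivity) (by positivity),
      hr1 _ (norm_nonneg _), hr1 _ (norm_nonneg _), hr2 _ (norm_nonneg _), hr _ _ (norm_nonneg _),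
      hf, hf, hf] at ho
    refine ho.trans ?_
    have := hΦ0 p.1.1
    calc _ = Φ p.1.1 * (‖f (z o)‖ ^ 2) ^ M0 * (‖C.fn F p‖ ^ 2) ^ (c : ℝ) * ‖C.fn h p‖ ^ 2 := by
          ring
      _ ≤ Φ p.1.1 * (1 + ‖p.1.1‖ ^ 2) ^ M0 * (‖C.fn F p‖ ^ 2) ^ (c : ℝ) * ‖C.fn h p‖ ^ 2 := by
          gcongr

/-- take `M0 ≥ |e|`; `v (y i) ≤ sup`, distinguish `sup ≤ 1` and `1 ≤ sup` -/
theorem Model.Hyp.intg {ι L : Type} [Fintype ι] [DecidableEq ι] [Field L] [Algebra ℂ L]
    {Mo : Model ι L} {F : L} {c : ℚ} (h : Mo.Hyp F c) (hF : F ∈ Mo.toCover.A) (hF0 : F ≠ 0)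
    (hc : 0 ≤ c) : ∃ M0 : ℕ, ∀ i, Mo.toCover.Intg (Mo.y i ^ M0) F Mo.h c := by
  obtain ⟨E, e, hE, hv⟩ := h
  obtain ⟨M0, hM0⟩ := exists_nat_ge |e|
  refine ⟨M0, fun i => Mo.toCover.intg (pow_mem (Mo.toCover.y_mem i) _) hF (Mo.mem_A Mo.h_mem) hF0
    Mo.h_ne hc (M0 := 2 * M0) (zero_lt_one.trans hE) fun v hvA => ?_⟩
  set s := Finset.univ.sup fun i => v (Mo.y i) with hs
  have h1 : v (Mo.y i) ≤ s := Finset.le_sup (f := fun i => v (Mo.y i)) (Finset.mem_univ i)
  have h2 : 0 < v (Mo.y i) := by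
    refine pos_iff_ne_zero.2 ((Valuation.ne_zero_iff v).2 ?_)
    simpa using Mo.toCover.aeval_ne (X_ne_zero i)
  have h3 : s ≠ 0 := (h2.trans_le h1).ne'
  have h4 : s ^ e * s ^ M0 ≤ max 1 s ^ (2 * M0) := by
    rw [← NNReal.rpow_natCast s, ← NNReal.rpow_add h3]
    have h5 := abs_le.1 hM0
    rcases le_total s 1 with h6 | h6
    · rw [max_eq_left h6, one_pow]
      exact NNReal.rpow_le_one h6 (by linarith)
    · rw [max_eq_right h6, ← NNReal.rpow_natCast s]
      exact NNReal.rpow_le_rpow_of_exponent_le h6 (by push_cast; linarith)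
  rw [map_pow]
  calc _ ≤ v F ^ (c : ℝ) * v Mo.h * s ^ e * s ^ M0 := by
        gcongr
        exact hv v hvA
    _ ≤ _ := by
        rw [mul_assoc]
        gcongr

end Pool.Agent.MP_c0606f_ag.Klt

end

-- part MP_c0606f_ag.Klt.Ker
section

/-! Residually independent vectors, kernels over subfields, the pivot lemma. -/

namespace Pool.Agent.MP_c0606f_ag.Klt

open scoped NNReal

variable {L : Type} [Field L] {v : Val L} {ρ ι : Type} [Fintype ρ] [Fintype ι]

omit [Fintype ι] in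
/-- a nonzero vector can be scaled so that its entries are integral and one is `1` -/
theorem exists_normalise (v : Val L) (γ : ρ → L) (h : γ ≠ 0) :
    ∃ l0, γ l0 ≠ 0 ∧ ∀ l, v (γ l / γ l0) ≤ 1 := by
  obtain ⟨l1, h1⟩ := Function.ne_iff.mp h
  have : Nonempty ρ := ⟨l1⟩
  obtain ⟨l0, h0⟩ := Finite.exists_max fun l => v (γ l)
  have hp : 0 < v (γ l0) := lt_of_lt_of_le ((Valuation.pos_iff v).mpr h1) (h0 l1)
  refine ⟨l0, (Valuation.pos_iff v).mp hp, fun l => ?_⟩
  rw [map_div₀]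
  exact div_le_one_of_le₀ (h0 l) zero_le

/-- fewer equations than unknowns -/
theorem ker_exists_sol {K β κ : Type} [Field K] [Fintype β] [Fintype κ] (m : β → κ → K)
    (h : Fintype.card β < Fintype.card κ) : ∃ b : κ → K, b ≠ 0 ∧ ∀ x, ∑ i, b i * m x i = 0 := by
  classical
  have hf : ¬ Function.Injective (Matrix.mulVecLin (Matrix.of m)) := by
    intro hinj
    have := LinearMap.finrank_le_finrank_of_injective hinj
    simp only [Module.finrank_fintype_fun_eq_card] at this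
    omega
  rw [injective_iff_map_eq_zero] at hf
  push Not at hf
  obtain ⟨c, hc, hne⟩ := hf
  refine ⟨c, hne, fun b => ?_⟩
  have := congrFun hc b
  simp only [Matrix.mulVecLin_apply, Matrix.mulVec, dotProduct, Matrix.of_apply,
    Pi.zero_apply] at this
  rw [← this]
  exact Finset.sum_congr rfl fun i _ => mul_comm _ _

/-- a normalised solution -/
theorem ker_exists_norm (v : Val L) {β κ : Type} [Fintype β] [Fintype κ] (m : β → κ → L)
    (h : Fintype.card β < Fintype.card κ) : ∃ (b : κ → L) (i0 : κ), b i0 = 1 ∧ (∀ i, v (b i) ≤ 1) ∧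
      ∀ x, ∑ i, b i * m x i = 0 := by
  obtain ⟨b, hb, hs⟩ := ker_exists_sol m h
  obtain ⟨i0, h0, h1⟩ := exists_normalise v b hb
  refine ⟨fun i => b i / b i0, i0, div_self h0, h1, fun x => ?_⟩
  have : ∑ i, b i / b i0 * m x i = (∑ i, b i * m x i) / b i0 := by
    rw [Finset.sum_div]
    exact Finset.sum_congr rfl fun i _ => by ring
  rw [this, hs, zero_div]

theorem ker_sum_le {κ : Type} [Fintype κ] {x y : κ → L} {B : ℝ≥0} (hx : ∀ i, v (x i) ≤ 1)
    (hy : ∀ i, v (y i) ≤ B) : v (∑ i, x i * y i) ≤ B :=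
  v.map_sum_le fun i _ => by
    rw [map_mul]
    exact (mul_le_mul' (hx i) (hy i)).trans_eq (one_mul B)

theorem ker_sum_lt {κ : Type} [Fintype κ] {x y : κ → L} (hx : ∀ i, v (x i) ≤ 1)
    (hy : ∀ i, v (y i) < 1) : v (∑ i, x i * y i) < 1 :=
  v.map_sum_lt one_ne_zero fun i _ => by
    rw [map_mul]
    exact lt_of_le_of_lt ((mul_le_mul' (hx i) le_rfl).trans_eq (one_mul _)) (hy i)

theorem ker_sum_lt' {κ : Type} [Fintype κ] {x y : κ → L} (hx : ∀ i, v (x i) < 1)
    (hy : ∀ i, v (y i) ≤ 1) : v (∑ i, x i * y i) < 1 := by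
  simp only [mul_comm (x _)]
  exact ker_sum_lt hy hx

omit [Fintype ι] in
theorem RI.exists_unit {f : ρ → ι → L} (hf : RI v f) [Finite ι] (l : ρ) : ∃ i, v (f l i) = 1 := by
  classical
  by_contra h
  push Not at h
  have := hf.2 (Pi.single l 1) (fun l' => by
    rw [Pi.single_apply]; split_ifs <;> simp) (fun i => by
    simp only [Pi.single_apply, ite_mul, one_mul, zero_mul, Finset.sum_ite_eq', Finset.mem_univ,
      if_true]
    exact lt_of_le_of_ne (hf.1 l i) (h i)) l
  simp at this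

omit [Fintype ι] in
/-- otherwise the restrictions to `I` are linearly dependent; normalise the relation -/
theorem RI.card_le {f : ρ → ι → L} (hf : RI v f) (I : Finset ι)
    (h : ∀ l i, i ∉ I → v (f l i) < 1) : Fintype.card ρ ≤ I.card := by
  by_contra hlt
  obtain ⟨γ, l0, h0, h1, h2⟩ := ker_exists_norm v (β := I) (κ := ρ) (fun i l => f l i)
    (by simpa using hlt)
  have := hf.2 γ h1 (fun i => by
    by_cases hi : i ∈ I
    · rw [h2 ⟨i, hi⟩]; simp
    · exact ker_sum_lt h1 fun l => h l i hi) l0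
  rw [h0] at this
  simp at this

omit [Fintype ι] in
theorem RI.restrict {f : ρ → ι → L} (hf : RI v f) (I : Finset ι)
    (h : ∀ l i, i ∉ I → v (f l i) < 1) : RI v fun l (i : I) => f l i := by
  refine ⟨fun l i => hf.1 l i, fun γ h1 h2 => hf.2 γ h1 fun i => ?_⟩
  by_cases hi : i ∈ I
  · exact h2 ⟨i, hi⟩
  · exact ker_sum_lt h1 fun l => h l i hi

/-- the inverse of an integral matrix with unit determinant is integral (adjugate,
`val_det_le`) -/
theorem inv_int [DecidableEq ι] (A : Matrix ι ι L) (hA : ∀ i j, v (A i j) ≤ 1)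
    (hd : v A.det = 1) : (∀ i j, v (A⁻¹ i j) ≤ 1) ∧ v A⁻¹.det = 1 := by
  constructor
  · intro i j
    rw [Matrix.inv_def, Matrix.smul_apply, smul_eq_mul, map_mul, Ring.inverse_eq_inv, map_inv₀, hd,
      inv_one, one_mul, Matrix.adjugate_apply]
    refine (val_det_le _ (fun _ => 1) fun a b => ?_).trans_eq (by simp)
    rw [Matrix.updateRow_apply]
    split_ifs
    · rw [Pi.single_apply]; split_ifs <;> simp
    · exact hA a b
  · rw [Matrix.det_nonsing_inv, Ring.inverse_eq_inv, map_inv₀, hd, inv_one]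

theorem ker_lt_of_mul [DecidableEq ι] (b : ι → L) (A : Matrix ι ι L) (hA : ∀ i j, v (A i j) ≤ 1)
    (hd : v A.det = 1) (h : ∀ j, v (∑ i, b i * A i j) < 1) (i : ι) : v (b i) < 1 := by
  have hu : IsUnit A.det := by
    rw [isUnit_iff_ne_zero]
    intro h0
    rw [h0] at hd
    simp at hd
  have e : b = Matrix.vecMul (Matrix.vecMul b A) A⁻¹ := by
    rw [Matrix.vecMul_vecMul, Matrix.mul_nonsing_inv _ hu, Matrix.vecMul_one]
  rw [e]
  exact ker_sum_lt' h fun j => (inv_int A hA hd).1 j i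

theorem RI.mul [DecidableEq ι] {f : ρ → ι → L} (hf : RI v f) (A : Matrix ι ι L)
    (hA : ∀ i j, v (A i j) ≤ 1) (hd : v A.det = 1) : RI v fun l j => ∑ i, f l i * A i j := by
  refine ⟨fun l j => ker_sum_le (hf.1 l) fun i => hA i j, fun γ h1 h2 => hf.2 γ h1 ?_⟩
  refine ker_lt_of_mul _ A hA hd fun j => ?_
  have e : ∑ i, (∑ l, γ l * f l i) * A i j = ∑ l, γ l * ∑ i, f l i * A i j := by
    simp only [Finset.sum_mul, Finset.mul_sum, mul_assoc]
    exact Finset.sum_comm
  rw [e]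
  exact h2 j

/-- an integral vector with a unit entry keeps a unit entry -/
theorem exists_unit_mul [DecidableEq ι] (b : ι → L) (hb : ∀ i, v (b i) ≤ 1) (h1 : ∃ i, v (b i) = 1)
    (A : Matrix ι ι L) (hA : ∀ i j, v (A i j) ≤ 1) (hd : v A.det = 1) :
    ∃ j, v (∑ i, b i * A i j) = 1 := by
  by_contra h
  push Not at h
  obtain ⟨i, hi⟩ := h1
  exact (ker_lt_of_mul b A hA hd
    (fun j => lt_of_le_of_ne (ker_sum_le hb fun i => hA i j) (h j)) i).ne hi

/-- Kernels over a subfield.  Induction on `r`, strengthening the claim to: there are distinct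
columns `c l` with `f l (c l') = δ l l'`.  Given `f` for `r`, add the `r` equations `b (c l) = 0`;
the system has a nonzero solution over `k` (`Module.finrank` count, e.g.
`LinearMap.ker_ne_bot_of_finrank_lt` over the field `k`), normalise it by `exists_normalise` and
subtract multiples of it from the old vectors. -/
theorem exists_ker (v : Val L) (k : Subfield L) {α : Type} (S : Finset α) (a : α → ι → L)
    (ha : ∀ x ∈ S, ∀ i, a x i ∈ k) (r : ℕ) (hr : S.card + r ≤ Fintype.card ι) :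
    ∃ f : Fin r → ι → L, (∀ l i, f l i ∈ k) ∧ RI v f ∧ ∀ l, ∀ x ∈ S, ∑ i, f l i * a x i = 0 := by
  classical
  have key : ∀ r, S.card + r ≤ Fintype.card ι → ∃ (f : Fin r → ι → L) (c : Fin r → ι),
      (∀ l i, f l i ∈ k) ∧ (∀ l i, v (f l i) ≤ 1) ∧
      (∀ l l', f l (c l') = if l = l' then 1 else 0) ∧ ∀ l, ∀ x ∈ S, ∑ i, f l i * a x i = 0 := by
    intro r
    induction r with
    | zero =>
      intro _
      exact ⟨fun l => l.elim0, fun l => l.elim0, fun l => l.elim0, fun l => l.elim0,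
        fun l => l.elim0, fun l => l.elim0⟩
    | succ r ih =>
      intro hr
      obtain ⟨f, c, h1, h2, h3, h4⟩ := ih (by omega)
      obtain ⟨b, hb, hs⟩ := ker_exists_sol (K := k) (β := S ⊕ Fin r) (κ := ι)
        (Sum.elim (fun x i => ⟨a x i, ha x x.2 i⟩) (fun l => Pi.single (c l) 1))
        (by simp only [Fintype.card_sum, Fintype.card_coe, Fintype.card_fin]; omega)
      have hb' : (fun i => (b i : L)) ≠ 0 := by
        intro h; apply hb; funext i; exact Subtype.ext (congrFun h i)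
      obtain ⟨i0, g0, g1⟩ := exists_normalise v _ hb'
      have g2 : ∀ l, (b (c l) : L) = 0 := by
        intro l
        have := hs (Sum.inr l)
        simp only [Sum.elim_inr, Pi.single_apply, mul_ite, mul_one, mul_zero, Finset.sum_ite_eq',
          Finset.mem_univ, if_true] at this
        rw [this]; rfl
      have g3 : ∀ x ∈ S, ∑ i, (b i : L) / b i0 * a x i = 0 := by
        intro x hx
        have := congrArg k.subtype (hs (Sum.inl ⟨x, hx⟩))
        simp only [Sum.elim_inl, map_sum, map_mul, map_zero, Subfield.subtype_apply] at this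
        have e : ∑ i, (b i : L) / b i0 * a x i = (∑ i, (b i : L) * a x i) / b i0 := by
          rw [Finset.sum_div]
          exact Finset.sum_congr rfl fun i _ => by ring
        rw [e, this, zero_div]
      have g4 : ∀ i, (b i : L) / b i0 ∈ k := fun i => k.div_mem (b i).2 (b i0).2
      refine ⟨Fin.cons (fun i => (b i : L) / b i0)
        (fun l i => f l i - f l i0 * ((b i : L) / b i0)), Fin.cons i0 c, ?_, ?_, ?_, ?_⟩
      · intro l i
        induction l using Fin.cases with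
        | zero => exact g4 i
        | succ l => exact k.sub_mem (h1 l i) (k.mul_mem (h1 l i0) (g4 i))
      · intro l i
        induction l using Fin.cases with
        | zero => exact g1 i
        | succ l =>
          refine v.map_sub_le (h2 l i) ?_
          rw [map_mul]
          exact (mul_le_mul' (h2 l i0) (g1 i)).trans_eq (one_mul 1)
      · intro l l'
        induction l using Fin.cases with
        | zero =>
          induction l' using Fin.cases with
          | zero => simpa using g0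
          | succ l' => simp [g2, (Fin.succ_ne_zero l').symm]
        | succ l =>
          induction l' using Fin.cases with
          | zero =>
            simp only [Fin.cons_succ, Fin.cons_zero, if_neg (Fin.succ_ne_zero l)]
            rw [div_self g0, mul_one, sub_self]
          | succ l' => simp [g2, h3]
      · intro l x hx
        induction l using Fin.cases with
        | zero => exact g3 x hx
        | succ l =>
          simp only [Fin.cons_succ, sub_mul, Finset.sum_sub_distrib, mul_assoc]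
          rw [← Finset.mul_sum, g3 x hx, h4 l x hx]; simp
  obtain ⟨f, c, h1, h2, h3, h4⟩ := key r hr
  refine ⟨f, h1, ⟨h2, fun γ _ hγ l => ?_⟩, h4⟩
  have := hγ (c l)
  simpa [h3] using this

/-- cofactors are bounded by volumes -/
theorem ker_cofactor {α : Type} [DecidableEq α] {E : Type} [AddCommGroup E] [Module L E]
    {M : Set E} {ℓ : α → E →ₗ[L] L} (hb : Bdd v M ℓ) (T : Finset α) (e : T → E)
    (he : ∀ i, e i ∈ M) (i0 j : T) :
    ∃ S'' ⊆ T, S''.card + 1 = T.card ∧
      v ((Matrix.of fun i j : T => ℓ j (e i)).updateRow i0 (Pi.single j 1)).det ≤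
        lvol v M ℓ S'' := by
  let g : {k : T // k ≠ j} ↪ α :=
    ⟨fun k => k.1.1, fun a b h => Subtype.ext (Subtype.ext h)⟩
  refine ⟨Finset.univ.map g, ?_, ?_, ?_⟩
  · intro y hy
    obtain ⟨k, -, rfl⟩ := Finset.mem_map.mp hy
    exact k.1.2
  · rw [Finset.card_map, Finset.card_univ, Fintype.card_subtype_compl, Fintype.card_coe,
      Fintype.card_subtype_eq]
    have : 0 < T.card := Finset.card_pos.mpr ⟨j, j.2⟩
    omega
  · rw [lvol_map]
    set N := (Matrix.of fun i j : T => ℓ j (e i)).updateRow i0 (Pi.single j 1) with hN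
    have h1 : v N.det = v (N.submatrix (Equiv.swap i0 j) id).det := by
      rw [Matrix.det_permute, map_mul]
      rcases Int.units_eq_one_or (Equiv.Perm.sign (Equiv.swap i0 j)) with h | h <;> simp [h]
    rw [h1, Matrix.twoBlockTriangular_det _ (fun k => k ≠ j), map_mul]
    · have h2 : v ((N.submatrix (Equiv.swap i0 j) id).toSquareBlockProp fun k => ¬ k ≠ j).det ≤ 1 := by
        refine (val_det_le _ (fun _ => 1) fun a b => ?_).trans_eq (by simp)
        have ha : a.1 = j := not_not.mp a.2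
        have hb : b.1 = j := not_not.mp b.2
        simp [Matrix.toSquareBlockProp_def, ha, hb, hN]
      refine (mul_le_mul' le_rfl h2).trans ?_
      rw [mul_one]
      have h3 := le_lvol_univ (ℓ := fun b => ℓ (g b)) (fun b => hb (g b))
        (fun k : {k : T // k ≠ j} => e (Equiv.swap i0 j k.1)) (fun k => he _)
      refine le_of_eq_of_le ?_ h3
      congr 2
      ext a b
      have h4 : Equiv.swap i0 j a.1 ≠ i0 := by
        intro h
        exact a.2 (by rw [Equiv.swap_apply_eq_iff, Equiv.swap_apply_left] at h; exact h)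
      simp [Matrix.toSquareBlockProp_def, hN, Matrix.updateRow_ne h4, g]
    · intro a ha b hb
      have ha : a = j := not_not.mp ha
      simp [ha, hN, hb]

/-- Pivot lemma.  By `lvol_union` (for `{x}` and `S'`) it suffices to show
`lvol (insert x S') ≤ lvol S' * μ`.  Given test vectors `e i` (`card S' + 1` of them), the
`card ι + 1` vectors `e i, f l` are linearly dependent; normalise the relation; by `RI` some
coefficient `γ i0` of an `e i0` is a unit.  Replacing the row `i0` by `∑ γ i • e i = -∑ γ' l • f l`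
multiplies the determinant by `γ i0`; expand along this row (`Matrix.det_updateRow_sum`-like
lemmas, `Matrix.det_eq_sum_mul_adjugate_row` or `lvol_insert`-style arguments): the entries are
`≤ μ` and the cofactors are `≤ lvol` of a subset of `insert x S'` of size `card S'`. -/
theorem lvol_pivot {α : Type} [DecidableEq α] (a : α → ι → L) (ha : ∀ x i, v (a x i) ≤ 1)
    (S : Finset α) (f : ρ → ι → L) (hf : RI v f) {μ : ℝ≥0}
    (hμ : ∀ l, ∀ x ∈ S, v (∑ i, f l i * a x i) ≤ μ) (S' : Finset α) (hS' : S' ⊆ S)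
    (hc : S'.card + Fintype.card ρ = Fintype.card ι)
    (hmax : ∀ S'' ⊆ S, S''.card = S'.card →
      lvol v (intv v ι) (fun x => dotL (a x)) S'' ≤ lvol v (intv v ι) (fun x => dotL (a x)) S')
    (hpos : 0 < lvol v (intv v ι) (fun x => dotL (a x)) S') {x : α} (hx : x ∈ S) (hx' : x ∉ S') :
    lvol v (kill (intv v ι) (fun x => dotL (a x)) S') (fun x => dotL (a x)) {x} ≤ μ := by
  have hb := bdd_intv (v := v) a
  have hu := lvol_union (isLat_intv v ι) hb (S := {x}) (T := S') (by simpa using hx')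
  have hT : ({x} ∪ S' : Finset α) ⊆ S := Finset.union_subset (by simpa using hx) hS'
  have hcard : ({x} ∪ S' : Finset α).card = S'.card + 1 := by
    rw [Finset.card_union_of_disjoint (by simpa using hx'), Finset.card_singleton, add_comm]
  refine le_of_mul_le_mul_left ?_ hpos
  rw [← hu]
  generalize ({x} ∪ S' : Finset α) = T at hT hcard
  refine lvol_le T fun e he => ?_
  obtain ⟨γ, s0, h0, h1, h2⟩ := ker_exists_norm v (β := ι) (κ := T ⊕ ρ)
    (fun i s => Sum.elim e f s i)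
    (by simp only [Fintype.card_sum, Fintype.card_coe]; omega)
  simp only [Fintype.sum_sum_type, Sum.elim_inl, Sum.elim_inr] at h2
  have h3 : ∃ i0 : T, v (γ (Sum.inl i0)) = 1 := by
    by_contra h
    push Not at h
    have h4 : ∀ t, v (γ (Sum.inl t)) < 1 := fun t => lt_of_le_of_ne (h1 _) (h t)
    have h5 := hf.2 (fun l => γ (Sum.inr l)) (fun l => h1 _) (fun i => by
      rw [eq_neg_of_add_eq_zero_right (h2 i), Valuation.map_neg]
      exact ker_sum_lt' h4 fun t => he t i)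
    cases s0 with
    | inl t => have := h4 t; rw [h0] at this; simp at this
    | inr l => have := h5 l; rw [h0] at this; simp at this
  obtain ⟨i0, hi0⟩ := h3
  set N : Matrix T T L := Matrix.of fun i j : T => dotL (a j) (e i) with hN
  have h4 := Matrix.det_updateRow_sum N i0 fun t => γ (Sum.inl t)
  have h5 : ∀ j : T, v ((∑ t, γ (Sum.inl t) • N t) j) ≤ μ := by
    intro j
    have e1 : (∑ t, γ (Sum.inl t) • N t) j = -∑ l, γ (Sum.inr l) * ∑ i, f l i * a j i := by
      rw [eq_neg_iff_add_eq_zero, Finset.sum_apply]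
      simp only [hN, Pi.smul_apply, Matrix.of_apply, dotL_apply, smul_eq_mul, Finset.mul_sum]
      rw [Finset.sum_comm, Finset.sum_comm (f := fun l i => γ (Sum.inr l) * (f l i * a j i)),
        ← Finset.sum_add_distrib]
      refine Finset.sum_eq_zero fun i _ => ?_
      simp only [← mul_assoc, ← Finset.sum_mul, ← add_mul, h2 i, zero_mul]
    rw [e1, Valuation.map_neg]
    exact ker_sum_le (fun l => h1 _) fun l => hμ l j (hT j.2)
  generalize (∑ t, γ (Sum.inl t) • N t) = R at h4 h5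
  have h6 : (N.updateRow i0 R).det = ∑ j, (N.updateRow i0 (Pi.single j 1)).det * R j := by
    rw [← Matrix.cramer_transpose_apply, Matrix.cramer_eq_adjugate_mulVec,
      ← Matrix.adjugate_transpose]
    simp only [Matrix.mulVec, dotProduct, Matrix.transpose_apply, Matrix.adjugate_apply]
  have h7 : v N.det = v (N.updateRow i0 R).det := by
    rw [h4, smul_eq_mul, map_mul, hi0, one_mul]
  rw [h7, h6]
  refine v.map_sum_le fun j _ => ?_
  rw [map_mul]
  obtain ⟨S'', g1, g2, g3⟩ := ker_cofactor hb T e he i0 j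
  exact mul_le_mul' (g3.trans (hmax S'' (g1.trans hT) (by omega))) (h5 j)

/-- Bases adapted to an ultrametric function on a finite dimensional space over a trivially valued
field.  Induction on the dimension: vectors with distinct nonzero values are independent, so `φ`
takes finitely many values; ... or choose among all bases one minimising `∑ φ (f i)` over the
finite set of possible values: if `φ (∑ c i • f i) < φ (f i0)` with `c i0 ≠ 0` and `φ (f i0)`
maximal, replace `f i0`. -/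
theorem exists_orth_basis {W : Type} [AddCommGroup W] [Module ℂ W] [Module.Finite ℂ W]
    (φ : W → ℝ≥0) (hs : ∀ (c : ℂ) (w : W), φ (c • w) ≤ φ w)
    (ha : ∀ w w', φ (w + w') ≤ max (φ w) (φ w')) {N : ℕ} (hN : Module.finrank ℂ W = N) :
    ∃ f : Module.Basis (Fin N) ℂ W, ∀ (c : Fin N → ℂ) (i : Fin N), c i ≠ 0 →
      φ (f i) ≤ φ (∑ j, c j • f j) := by
  classical
  let U : W → Submodule ℂ W := fun w =>
    { carrier := {u | φ u ≤ φ w}
      add_mem' := fun {a b} h1 h2 => (ha a b).trans (max_le h1 h2)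
      zero_mem' := by have := hs 0 w; rwa [zero_smul] at this
      smul_mem' := fun c u h => (hs c u).trans h }
  have hU : ∀ w w', φ w < φ w' → Module.finrank ℂ (U w) < Module.finrank ℂ (U w') := by
    intro w w' h
    refine Submodule.finrank_lt_finrank_of_lt (lt_of_le_of_ne (fun u hu => le_trans hu h.le) ?_)
    intro e
    have h1 : w' ∈ U w' := le_refl (φ w')
    rw [← e] at h1
    exact absurd h1 (not_le.mpr h)
  have hne : ∃ n, ∃ g : Fin N → W, ⊤ ≤ Submodule.span ℂ (Set.range g) ∧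
      ∑ i, Module.finrank ℂ (U (g i)) = n :=
    ⟨_, Module.finBasisOfFinrankEq ℂ W hN, (Module.Basis.span_eq _).ge, rfl⟩
  obtain ⟨g, hg, hmin⟩ := Nat.find_spec hne
  refine ⟨basisOfTopLeSpanOfCardEqFinrank g hg (by simp [hN]), fun c i hc => ?_⟩
  rw [coe_basisOfTopLeSpanOfCardEqFinrank]
  by_contra hlt
  push Not at hlt
  have h1 : ⊤ ≤ Submodule.span ℂ (Set.range (Function.update g i (∑ j, c j • g j))) := by
    refine hg.trans (Submodule.span_le.mpr ?_)
    have h2 : ∀ j, j ≠ i → g j ∈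
        Submodule.span ℂ (Set.range (Function.update g i (∑ j, c j • g j))) := fun j hj =>
      Submodule.subset_span ⟨j, Function.update_of_ne hj _ _⟩
    rintro _ ⟨j, rfl⟩
    by_cases hj : j = i
    · subst hj
      have h3 : (∑ j, c j • g j) ∈
          Submodule.span ℂ (Set.range (Function.update g j (∑ j, c j • g j))) :=
        Submodule.subset_span ⟨j, Function.update_self _ _ _⟩
      have h4 := Submodule.sub_mem _ h3 (Submodule.sum_mem _ (t := Finset.univ.erase j)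
        fun k hk => Submodule.smul_mem _ (c k) (h2 k (Finset.ne_of_mem_erase hk)))
      have h5 : (∑ j, c j • g j) - ∑ k ∈ Finset.univ.erase j, c k • g k = c j • g j := by
        rw [← Finset.add_sum_erase _ _ (Finset.mem_univ j), add_sub_cancel_right]
      rw [h5] at h4
      exact (Submodule.smul_mem_iff _ hc).mp h4
    · exact h2 j hj
  have h2 := Nat.find_min' hne ⟨_, h1, rfl⟩
  rw [← hmin] at h2
  refine absurd h2 (not_le.mpr (Finset.sum_lt_sum (fun j _ => ?_) ⟨i, Finset.mem_univ _, ?_⟩))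
  · by_cases hj : j = i
    · subst hj
      rw [Function.update_self]; exact (hU _ _ hlt).le
    · rw [Function.update_of_ne hj]
  · rw [Function.update_self]; exact hU _ _ hlt

end Pool.Agent.MP_c0606f_ag.Klt

end
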