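import Pool.Agent.MP_c0606f_ag.Mg.Klt_Core1
import Pool.Agent.MP_c0606f_ag.Mg.Klt_Ker
import Pool.Agent.MP_c0606f_ag.Mg.Klt_Der
import Pool.Agent.MP_c0606f_ag.Mg.Klt_Bomb

-- part MP_c0606f_ag.Klt.CoreL
section

/-! One parameter families of sections on the product of the cone with a line. -/

namespace Pool.Agent.MP_c0606f_ag.Klt

open MvPolynomial
open scoped NNReal

/-- the family of sections `∑ c i (X) * σ i` -/
noncomputable def psec {L : Type} [Field L] [Algebra ℂ L] {ρ : Type} [Fintype ρ] (σ : ρ → L)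
    (c : ρ → Polynomial ℂ) : RatFunc L :=
  ∑ i, Polynomial.aeval RatFunc.X (c i) * RatFunc.C (σ i)

/-- the value `p (X, y)` -/
noncomputable def Cover.pxy {ι L : Type} [Field L] [Algebra ℂ L] (C : Cover ι L)
    (p : MvPolynomial ι (Polynomial ℂ)) : RatFunc L :=
  eval (fun i => RatFunc.C (C.y i))
    (map (Polynomial.aeval (RatFunc.X : RatFunc L) : Polynomial ℂ →ₐ[ℂ] RatFunc L).toRingHom p)

section Helpers

theorem corel_deg_map {ι R S : Type} [CommSemiring R] [CommSemiring S] (f : R →+* S)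
    (p : MvPolynomial ι R) : (map f p).totalDegree ≤ p.totalDegree :=
  Finset.sup_mono (support_map_subset f p)

theorem corel_deg_det {ι R n : Type} [CommRing R] [Fintype n] [DecidableEq n]
    (A : Matrix n n (MvPolynomial ι R)) {D : ℕ} (h : ∀ i j, (A i j).totalDegree ≤ D) :
    A.det.totalDegree ≤ Fintype.card n * D := by
  rw [Matrix.det_apply]
  refine totalDegree_finsetSum_le fun σ _ => ?_
  rw [Units.smul_def]
  refine (totalDegree_smul_le _ _).trans ((totalDegree_finsetProd _ _).trans ?_)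
  exact (Finset.sum_le_sum fun i _ => h _ _).trans (by simp)

/-- the matrix of the multiplication by `∑ p l * ζ ^ l` -/
theorem corel_mulVec {B K : Type} [CommRing B] [CommRing K] (ψ : B →+* K) (ζ : K) (d : ℕ)
    (r : ℕ → ℕ → B) (hr : ∀ s, ζ ^ s = ∑ j ∈ Finset.range d, ψ (r s j) * ζ ^ j) (p : ℕ → B)
    (i : Fin d) : ∑ j : Fin d, ψ (∑ l ∈ Finset.range d, p l * r (l + i) j) * ζ ^ (j : ℕ) =
      (∑ l ∈ Finset.range d, ψ (p l) * ζ ^ l) * ζ ^ (i : ℕ) := by
  simp only [map_sum, map_mul, Finset.sum_mul]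
  rw [Finset.sum_comm]
  refine Finset.sum_congr rfl fun l _ => ?_
  rw [mul_assoc, ← pow_add, hr (l + i), Finset.mul_sum, Finset.sum_range]
  exact Finset.sum_congr rfl fun j _ => mul_assoc _ _ _

theorem corel_pair {B K n : Type} [CommRing B] [CommRing K] [Fintype n] (ψ : B →+* K)
    (A : Matrix n n B) (w : n → K) (Q : K) (h : ∀ i, ∑ j, ψ (A i j) * w j = Q * w i) (u : n → B) :
    ∑ j, ψ (Matrix.vecMul u A j) * w j = (∑ i, ψ (u i) * w i) * Q := by
  simp only [Matrix.vecMul, dotProduct, map_sum, map_mul, Finset.sum_mul]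
  rw [Finset.sum_comm]
  refine Finset.sum_congr rfl fun i _ => ?_
  simp only [mul_assoc, ← Finset.mul_sum]
  rw [h i, mul_comm Q]

variable {ι L : Type} [Field L] [Algebra ℂ L] (C : Cover ι L)

/-- `pxy` as a ring homomorphism -/
noncomputable def corelψ : MvPolynomial ι (Polynomial ℂ) →+* RatFunc L :=
  (eval fun i => RatFunc.C (C.y i)).comp
    (map (Polynomial.aeval (RatFunc.X : RatFunc L) : Polynomial ℂ →ₐ[ℂ] RatFunc L).toRingHom)

theorem corel_pxy (p : MvPolynomial ι (Polynomial ℂ)) : C.pxy p = corelψ C p := rfl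

theorem corel_C (c : Polynomial ℂ) :
    corelψ C (MvPolynomial.C c) = Polynomial.aeval RatFunc.X c := by
  simp [corelψ]

theorem corel_X (i : ι) : corelψ C (X i) = RatFunc.C (C.y i) := by
  simp [corelψ]

theorem corel_map (b : MvPolynomial ι ℂ) :
    corelψ C (map Polynomial.C b) = RatFunc.C (aeval C.y b) := by
  induction b using MvPolynomial.induction_on with
  | C a => rw [map_C, corel_C, Polynomial.aeval_C, aeval_C]; rfl
  | add p q hp hq => simp only [map_add, hp, hq]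
  | mul_X p i hp => simp only [map_mul, hp, map_X, corel_X, aeval_X]

theorem corel_map0 (b : MvPolynomial ι ℂ) :
    map Polynomial.constantCoeff (map Polynomial.C b) = b := by
  rw [map_map, show Polynomial.constantCoeff.comp Polynomial.C = RingHom.id ℂ from
    RingHom.ext fun a => Polynomial.coeff_C_zero, map_id]

theorem corel_aeval_mem (c : Polynomial ℂ) :
    Polynomial.aeval RatFunc.X c ∈ Algebra.adjoin ℂ (Set.range C.ext.y) :=
  Algebra.adjoin_mono (Set.singleton_subset_iff.2 (Set.mem_range_self (f := C.ext.y) none))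
    (Polynomial.aeval_mem_adjoin_singleton ℂ _)

theorem corel_mem (p : MvPolynomial ι (Polynomial ℂ)) :
    corelψ C p ∈ Algebra.adjoin ℂ (Set.range C.ext.y) := by
  induction p using MvPolynomial.induction_on with
  | C a => rw [corel_C]; exact corel_aeval_mem C a
  | add p q hp hq => rw [map_add]; exact add_mem hp hq
  | mul_X p i hp => rw [map_mul, corel_X]; exact mul_mem hp (Algebra.subset_adjoin ⟨some i, rfl⟩)

theorem corel_pow (s : ℕ) : C.z ^ s = ∑ j ∈ Finset.range C.P.natDegree,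
    aeval C.y ((Polynomial.X ^ s %ₘ C.P).coeff j) * C.z ^ j := by
  have h1 : C.P ≠ 1 := fun h => by simpa [h] using C.natDegree_pos
  have h2 := congrArg C.pv (Polynomial.modByMonic_add_div (Polynomial.X ^ s) C.P)
  rw [C.pv_add, C.pv_mul, C.evPv_P, zero_mul, add_zero, C.evPv_pow, C.pv_X] at h2
  rw [← h2, Cover.pv, Polynomial.eval₂_eq_sum_range' _
    (Polynomial.natDegree_modByMonic_lt _ C.monic h1)]
  rfl

theorem corel_indep (u : Fin C.P.natDegree → MvPolynomial ι ℂ)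
    (h : ∑ i, aeval C.y (u i) * C.z ^ (i : ℕ) = 0) : u = 0 := by
  have h1 : C.pv (∑ i, Polynomial.C (u i) * Polynomial.X ^ (i : ℕ)) = 0 := by
    rw [← h, Cover.pv, Polynomial.eval₂_finsetSum]
    refine Finset.sum_congr rfl fun i _ => ?_
    rw [Polynomial.eval₂_mul, Polynomial.eval₂_C, Polynomial.eval₂_X_pow]
    rfl
  have h2 := Polynomial.eq_zero_of_dvd_of_degree_lt (C.minimal _ h1) (by
    rw [Polynomial.degree_eq_natDegree C.monic.ne_zero]
    exact Polynomial.degree_sum_fin_lt u)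
  funext i
  have h3 := congrArg (Polynomial.coeff · i) h2
  simpa [Polynomial.coeff_X_pow, Fin.val_inj] using h3

theorem corel_int {a : L} (ha : IsIntegral (Algebra.adjoin ℂ (Set.range C.y)) a) :
    IsIntegral (Algebra.adjoin ℂ (Set.range C.ext.y)) (RatFunc.C a) := by
  have hm : ∀ x : Algebra.adjoin ℂ (Set.range C.y), ((gaussC L).comp (Algebra.adjoin ℂ _).val) x ∈
      Algebra.adjoin ℂ (Set.range C.ext.y) := by
    intro x
    have : Algebra.adjoin ℂ (Set.range C.y) ≤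
        (Algebra.adjoin ℂ (Set.range C.ext.y)).comap (gaussC L) :=
      Algebra.adjoin_le (by
        rintro _ ⟨i, rfl⟩
        exact Algebra.subset_adjoin ⟨some i, rfl⟩)
    exact this x.2
  exact ha.map_of_comp_eq (((gaussC L).comp (Algebra.adjoin ℂ _).val).codRestrict _ hm).toRingHom
    (gaussC L).toRingHom (RingHom.ext fun _ => rfl)

theorem corel_of_mem {S : Subalgebra ℂ L} {a : L} (ha : a ∈ S) : IsIntegral S a :=
  isIntegral_algebraMap (x := (⟨a, ha⟩ : S))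

/-- regular functions on the product with a line that are integral -/
noncomputable def corelT : Subalgebra ℂ (RatFunc L) :=
  C.ext.A ⊓ (integralClosure (Algebra.adjoin ℂ (Set.range C.ext.y)) (RatFunc L)).restrictScalars ℂ

theorem corel_T_adj {a : RatFunc L} (ha : a ∈ Algebra.adjoin ℂ (Set.range C.ext.y)) :
    a ∈ corelT C :=
  ⟨Algebra.adjoin_le (by rintro _ ⟨o, rfl⟩; exact C.ext.y_mem o) ha, corel_of_mem ha⟩

variable {ρ : Type} [Fintype ρ] (σ : ρ → L)

theorem corel_psec_sum {β : Type} (S : Finset β) (a : β → Polynomial ℂ)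
    (E : β → ρ → Polynomial ℂ) : psec σ (fun j => ∑ i ∈ S, a i * E i j) =
      ∑ i ∈ S, Polynomial.aeval RatFunc.X (a i) * psec σ (E i) := by
  simp only [psec, map_sum, map_mul, Finset.sum_mul, Finset.mul_sum, mul_assoc]
  exact Finset.sum_comm

theorem corel_psec_add (c c' : ρ → Polynomial ℂ) : psec σ (c + c') = psec σ c + psec σ c' := by
  simp only [psec, Pi.add_apply, map_add, add_mul, Finset.sum_add_distrib]

theorem corel_psec_smul (a : ℂ) (c : ρ → Polynomial ℂ) :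
    psec σ (a • c) = algebraMap ℂ (RatFunc L) a * psec σ c := by
  simp only [psec, Pi.smul_apply, Algebra.smul_def, map_mul, AlgHom.commutes, Finset.mul_sum,
    mul_assoc]

theorem corel_psec_div (c : ρ → Polynomial ℂ) : psec σ c =
    RatFunc.C (∑ j, (c j).coeff 0 • σ j) + RatFunc.X * psec σ fun j => (c j).divX := by
  simp only [psec, map_sum, Finset.mul_sum, ← Finset.sum_add_distrib]
  refine Finset.sum_congr rfl fun j _ => ?_
  conv_lhs => rw [← Polynomial.X_mul_divX_add (c j)]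
  rw [map_add, map_mul, Polynomial.aeval_X, Polynomial.aeval_C, Algebra.smul_def, map_mul,
    Cover.evAlg]
  ring

theorem corel_triv {v : Val L} (h : IsAbh v) (c : ℂ) : v (algebraMap ℂ L c) ≤ 1 :=
  SubTriv.le h.triv c

theorem corel_val_aeval {v : Val L} (h : IsAbh v) {t : L} (ht : v t < 1) (p : Polynomial ℂ) :
    v (Polynomial.aeval t p) ≤ 1 ∧ (p.coeff 0 ≠ 0 → v (Polynomial.aeval t p) = 1) := by
  have h1 : ∀ p : Polynomial ℂ, v (Polynomial.aeval t p) ≤ 1 := fun p => by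
    rw [Polynomial.aeval_eq_sum_range]
    refine v.map_sum_le fun i _ => ?_
    rw [Algebra.smul_def, map_mul, map_pow]
    exact mul_le_one' (corel_triv h _) (pow_le_one₀ zero_le ht.le)
  refine ⟨h1 p, fun hp => ?_⟩
  rw [← Polynomial.X_mul_divX_add p, map_add, map_mul, Polynomial.aeval_X, Polynomial.aeval_C,
    v.map_add_eq_of_lt_right, h.triv _ hp]
  rw [h.triv _ hp, map_mul]
  exact (mul_le_of_le_one_right' (h1 _)).trans_lt ht

end Helpers

/-- Norms.  Let `B1 = MvPolynomial ι (Polynomial ℂ)`, `P1` the image of `P` in `B1[Z]` (monic of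
degree `d`), `Q = ∑ C (p j) * Z ^ j` and `A i j = coeff ((Q * Z ^ i) %ₘ P1) j` for `i, j < d`;
equivalently `Z ^ s %ₘ P1 = ∑ r s j * Z ^ j` for `s < 2 d` with fixed `r s j`, and
`A i j = ∑ l, p l * r (l + i) j`.  Put `q = det A`.  The vector `w = (z ^ j)` satisfies
`A w = Q(z) w`, so `det A * w = Q(z) * adj A w`, and `w 0 = 1`.  At `X = 0`: if `det A(0) = 0` there
is a nonzero row vector `u` over `ℂ[y]` with `u A(0) = 0` (`Matrix.exists_vecMul_eq_zero_iff`), so
`Q0(z) * ∑ u i z ^ i = 0`, contradicting `minimal`. -/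
theorem Cover.exists_norm {ι L : Type} [Fintype ι] [Field L] [Algebra ℂ L] (C : Cover ι L) :
    ∃ C1 : ℕ, ∀ (D : ℕ) (p : ℕ → MvPolynomial ι (Polynomial ℂ)), (∀ j, (p j).totalDegree ≤ D) →
      ∑ j ∈ Finset.range C.P.natDegree,
        aeval C.y (map Polynomial.constantCoeff (p j)) * C.z ^ j ≠ 0 →
      ∃ (q : MvPolynomial ι (Polynomial ℂ)) (b : RatFunc L), q.totalDegree ≤ C1 * (D + 1) ∧
        map Polynomial.constantCoeff q ≠ 0 ∧
        IsIntegral (Algebra.adjoin ℂ (Set.range C.ext.y)) b ∧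
        C.pxy q = b * ∑ j ∈ Finset.range C.P.natDegree, C.pxy (p j) * RatFunc.C C.z ^ j := by
  classical
  set d := C.P.natDegree with hd
  set r : ℕ → ℕ → MvPolynomial ι (Polynomial ℂ) := fun s j =>
    map Polynomial.C ((Polynomial.X ^ s %ₘ C.P).coeff j) with hr
  obtain ⟨c1, hc1⟩ : ∃ c1, ∀ s < 2 * d, ∀ j < d, (r s j).totalDegree ≤ c1 :=
    ⟨(Finset.range (2 * d) ×ˢ Finset.range d).sup fun x => (r x.1 x.2).totalDegree,
      fun s hs j hj => Finset.le_sup (f := fun x : ℕ × ℕ => (r x.1 x.2).totalDegree)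
        (b := (s, j)) (by simp [hs, hj])⟩
  refine ⟨d * (c1 + 1), fun D p hp h0 => ?_⟩
  set A : Matrix (Fin d) (Fin d) (MvPolynomial ι (Polynomial ℂ)) :=
    Matrix.of fun i j => ∑ l ∈ Finset.range d, p l * r (l + i) j with hA
  refine ⟨A.det, ∑ j, corelψ C (A.adjugate ⟨0, C.natDegree_pos⟩ j) * RatFunc.C C.z ^ (j : ℕ),
    ?_, fun hq => ?_, ?_, ?_⟩
  · refine (corel_deg_det A (D := D + c1) fun i j => ?_).trans ?_
    · rw [hA, Matrix.of_apply]
      refine totalDegree_finsetSum_le fun l hl =>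
        (totalDegree_mul _ _).trans (add_le_add (hp l) (hc1 _ ?_ _ j.2))
      have := Finset.mem_range.1 hl
      omega
    · rw [Fintype.card_fin, mul_assoc]
      exact Nat.mul_le_mul_left _ (by nlinarith)
  · rw [RingHom.map_det] at hq
    obtain ⟨u, hu, hu0⟩ := Matrix.exists_vecMul_eq_zero_iff.2 hq
    have h2 := corel_mulVec
      ((aeval C.y : MvPolynomial ι ℂ →ₐ[ℂ] L).toRingHom.comp (map Polynomial.constantCoeff))
      C.z d r (fun s => by
        simp only [hr, RingHom.comp_apply, corel_map0]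
        exact corel_pow C s) p
    have h1 := corel_pair (aeval C.y : MvPolynomial ι ℂ →ₐ[ℂ] L).toRingHom
      ((map Polynomial.constantCoeff).mapMatrix A) (fun j : Fin d => C.z ^ (j : ℕ))
      (∑ j ∈ Finset.range d, aeval C.y (map Polynomial.constantCoeff (p j)) * C.z ^ j) h2 u
    rw [hu0] at h1
    simp only [Pi.zero_apply, map_zero, zero_mul, Finset.sum_const_zero] at h1
    exact hu (corel_indep C u ((mul_eq_zero.1 h1.symm).resolve_right h0))
  · exact IsIntegral.sum _ fun j _ =>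
      (corel_of_mem (corel_mem C _)).mul (C.ext.z_integral.pow _)
  · have h1 := corel_pair (corelψ C) A (fun j : Fin d => RatFunc.C C.z ^ (j : ℕ)) _
      (fun i => corel_mulVec (corelψ C) (RatFunc.C C.z) d r (fun s => by
        simp only [hr, corel_map, ← map_pow, ← map_mul, ← map_sum]
        exact congrArg _ (corel_pow C s)) p i) (A.adjugate ⟨0, C.natDegree_pos⟩)
    have h2 : ∀ j, Matrix.vecMul (A.adjugate ⟨0, C.natDegree_pos⟩) A j =
        if ⟨0, C.natDegree_pos⟩ = j then A.det else 0 := fun j => by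
      have := congrFun (congrFun A.adjugate_mul ⟨0, C.natDegree_pos⟩) j
      rw [Matrix.smul_apply, Matrix.one_apply, smul_eq_mul, mul_ite, mul_one, mul_zero] at this
      exact this
    simp only [h2, apply_ite (corelψ C), map_zero, ite_mul, zero_mul, Finset.sum_ite_eq,
      Finset.mem_univ, if_true, pow_zero, mul_one] at h1
    exact h1

namespace Model

variable {ι L : Type} [Fintype ι] [DecidableEq ι] [Field L] [Algebra ℂ L] (Mo : Model ι L)

/-- the valuations on the product with a line that we consider -/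
structure Good (w : Val (RatFunc L)) : Prop where
  abh : IsAbh w
  le : ∀ i, w (RatFunc.C (Mo.y i)) ≤ 1
  lt : w RatFunc.X < 1

/-- `exp (-H (y | X))` -/
noncomputable def ex (w : Val (RatFunc L)) : ℝ≥0 :=
  evol w {RatFunc.X} fun i => RatFunc.C (Mo.y i)

theorem corel_T_C {m : ℕ} {a : L} (ha : a ∈ Mo.V m) : RatFunc.C a ∈ corelT Mo.toCover :=
  ⟨Mo.toCover.ext_mem (Mo.mem_A ha), corel_int _ (Mo.int m a ha)⟩

variable {Mo} in
theorem corel_le {w : Val (RatFunc L)} (hw : Mo.Good w) (o : Option ι) :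
    w (Mo.toCover.ext.y o) ≤ 1 := by
  cases o with
  | none => exact hw.lt.le
  | some i => exact hw.le i

theorem psec_mem {m : ℕ} {ρ : Type} [Fintype ρ] {σ : ρ → L} (hσ : ∀ i, σ i ∈ Mo.V m)
    (c : ρ → Polynomial ℂ) : psec σ c ∈ Mo.toCover.ext.A ∧
      IsIntegral (Algebra.adjoin ℂ (Set.range Mo.toCover.ext.y)) (psec σ c) := by
  have : psec σ c ∈ corelT Mo.toCover := sum_mem fun i _ =>
    mul_mem (corel_T_adj _ (corel_aeval_mem _ _)) (Mo.corel_T_C (hσ i))
  exact this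

variable {Mo} in
theorem Good.psec_le {w : Val (RatFunc L)} (hw : Mo.Good w) {m : ℕ} {ρ : Type} [Fintype ρ]
    {σ : ρ → L} (hσ : ∀ i, σ i ∈ Mo.V m) (c : ρ → Polynomial ℂ) : w (psec σ c) ≤ 1 := by
  exact val_le_one_of_integral (corel_triv hw.abh) (corel_le hw) (Mo.psec_mem hσ c).2

/-- Linear bound for orders of vanishing: multiply by `δ0` (`rep`), `exists_norm`, `plm_evol` for
the image of `q` (a coefficient with nonzero constant term has value `1`). -/
theorem lm : ∃ C1 : ℕ, ∀ (m : ℕ) (ρ : Type) [Fintype ρ] (σ : ρ → L), (∀ i, σ i ∈ Mo.V m) →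
    LinearIndependent ℂ σ → ∀ c : ρ → Polynomial ℂ, (∃ i, (c i).coeff 0 ≠ 0) →
    ∀ w, Mo.Good w → Mo.ex w ^ (C1 * (m + 1)) ≤ w (psec σ c) := by
  obtain ⟨C1, hC1⟩ := Mo.toCover.exists_norm
  refine ⟨C1 * (Mo.c0 + 1), fun m ρ _ σ hσ hl c hc w hw => ?_⟩
  choose p hp hp' using fun i => Mo.rep m (σ i) (hσ i)
  have h0 : Mo.δ0 ≠ 0 := fun h => Mo.Δ_ne (by simpa [h] using Mo.δ0_dvd)
  obtain ⟨q, b, hq, hq0, hb, e⟩ := hC1 (m + Mo.c0)
    (fun j => ∑ i, MvPolynomial.C (c i) * map Polynomial.C (p i j))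
    (fun j => totalDegree_finsetSum_le fun i _ => (totalDegree_mul _ _).trans (by
      rw [totalDegree_C, zero_add]
      exact (corel_deg_map _ _).trans (hp i j))) (by
      have : ∑ j ∈ Finset.range Mo.P.natDegree, aeval Mo.y (map Polynomial.constantCoeff
          (∑ i, MvPolynomial.C (c i) * map Polynomial.C (p i j))) * Mo.z ^ j =
          (∑ i, (c i).coeff 0 • σ i) * aeval Mo.y Mo.δ0 := by
        simp only [map_sum, map_mul, corel_map0, map_C, aeval_C, Finset.sum_mul, Algebra.smul_def,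
          mul_assoc, hp', Finset.mul_sum, Polynomial.constantCoeff_apply]
        exact Finset.sum_comm
      rw [this]
      obtain ⟨i, hi⟩ := hc
      exact mul_ne_zero (fun h => hi (Fintype.linearIndependent_iff.1 hl _ h i))
        (Mo.toCover.aeval_ne h0))
  have e1 : ∑ j ∈ Finset.range Mo.P.natDegree, Mo.toCover.pxy
      (∑ i, MvPolynomial.C (c i) * map Polynomial.C (p i j)) * RatFunc.C Mo.z ^ j =
      psec σ c * RatFunc.C (aeval Mo.y Mo.δ0) := by
    simp only [psec, Finset.sum_mul, mul_assoc, ← map_mul RatFunc.C, hp']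
    simp only [corel_pxy, map_sum, map_mul, map_pow, corel_C, corel_map, Finset.sum_mul, mul_assoc,
      Finset.mul_sum]
    exact Finset.sum_comm
  have h1 : w b ≤ 1 := val_le_one_of_integral (corel_triv hw.abh) (corel_le hw) hb
  have h2 : w (RatFunc.C (aeval Mo.y Mo.δ0)) ≤ 1 := by
    rw [← corel_map]
    exact val_le_one_of_integral (corel_triv hw.abh) (corel_le hw) (corel_of_mem (corel_mem _ _))
  have h3 : w (Mo.toCover.pxy q) ≤ w (psec σ c) := by
    rw [e, e1, map_mul, map_mul]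
    exact (mul_le_of_le_one_left' h1).trans (mul_le_of_le_one_right' h2)
  refine le_trans (plm_evol hw.abh.triv _ _ hw.le _ (fun α D hD => ?_) (fun α => ?_) ?_ ?_) h3
  · rw [coeff_map]
    exact (D.map_aeval _ _).trans (by rw [hD.2 _ rfl, smul_zero])
  · rw [coeff_map]
    exact (corel_val_aeval hw.abh hw.lt _).1
  · obtain ⟨α, hα⟩ := ne_zero_iff.1 hq0
    rw [coeff_map] at hα
    exact ⟨α, by rw [coeff_map]; exact (corel_val_aeval hw.abh hw.lt _).2 hα⟩
  · refine (corel_deg_map _ _).trans (hq.trans ?_)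
    rw [mul_assoc]
    exact Nat.mul_le_mul_left _ (by nlinarith)

/-- the infimum of the values with given constant terms is attained -/
theorem corel_min {m N : ℕ} {σ : Fin N → L} (hσ : ∀ i, σ i ∈ Mo.V m) (hl : LinearIndependent ℂ σ)
    {w : Val (RatFunc L)} (hw : Mo.Good w) (h0 : 0 < Mo.ex w) {u : Fin N → ℂ} (hu : u ≠ 0) :
    ∃ c : Fin N → Polynomial ℂ, (∀ j, (c j).coeff 0 = u j) ∧ psec σ c ≠ 0 ∧
      ∀ c' : Fin N → Polynomial ℂ, (∀ j, (c' j).coeff 0 = u j) → w (psec σ c) ≤ w (psec σ c') := by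
  obtain ⟨C1, hC1⟩ := Mo.lm
  obtain ⟨t, -, ht0, ht1, ht⟩ := hw.abh.exists_unifOn ⊤ Mo.toCover.ext.fg_top
    (τ := RatFunc.X) IntermediateField.mem_top ((Valuation.pos_iff w).2 RatFunc.X_ne_zero) hw.lt
  obtain ⟨i, hi⟩ := Function.ne_iff.1 hu
  have h1 : ∀ c : Fin N → Polynomial ℂ, (∀ j, (c j).coeff 0 = u j) →
      Mo.ex w ^ (C1 * (m + 1)) ≤ w (psec σ c) := fun c hc =>
    hC1 m _ σ hσ hl c ⟨i, by rw [hc i]; exact hi⟩ w hw
  have h2 : ∀ c : Fin N → Polynomial ℂ, (∀ j, (c j).coeff 0 = u j) → psec σ c ≠ 0 := fun c hc =>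
    (Valuation.pos_iff w).1 ((pow_pos h0 _).trans_le (h1 c hc))
  obtain ⟨n, hn⟩ := NNReal.exists_pow_lt_of_lt_one (pow_pos h0 (C1 * (m + 1))) ht1
  obtain ⟨k, ⟨c, hc, hk⟩, hmax⟩ := Int.exists_greatest_of_bdd
    (P := fun k => ∃ c : Fin N → Polynomial ℂ, (∀ j, (c j).coeff 0 = u j) ∧
      w (psec σ c) = w t ^ k) ⟨n, by
      rintro k ⟨c, hc, hk⟩
      have := hn.trans_le ((h1 c hc).trans_eq hk)
      rw [← zpow_natCast, zpow_lt_zpow_iff_right_of_lt_one₀ ht0 ht1] at this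
      exact this.le⟩ (by
      have hc : ∀ j, (Polynomial.C (u j)).coeff 0 = u j := fun j => Polynomial.coeff_C_zero
      obtain ⟨k, hk⟩ := ht _ IntermediateField.mem_top (h2 _ hc)
      exact ⟨k, _, hc, hk⟩)
  refine ⟨c, hc, h2 c hc, fun c' hc' => ?_⟩
  obtain ⟨k', hk'⟩ := ht _ IntermediateField.mem_top (h2 _ hc')
  rw [hk, hk']
  exact zpow_le_zpow_right_of_le_one₀ ht0 ht1.le (hmax k' ⟨c', hc', hk'⟩)

/-- Orthogonal bases.  For `u : Fin N → ℂ` let `φ u` be the infimum of `w (psec σ c)` over the `c`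
with constant terms `u`.  For `u ≠ 0` it is attained: the values lie in `[ex ^ _, 1]` (`lm`) and are
powers of a uniformiser (`IsAbh.frame_idx` or `exists_unifOn`, `fg_top`).  Take a basis from
`exists_orth_basis` and minimisers `E i`.  If `w (∑ ..) < ν`, discard the indices with `γ i = 0`,
divide by `X ^ o` for the least `o = o i`; the quotient is `psec σ c` with constant terms
`∑ (o i = o), γ i • f i`, contradicting orthogonality. -/
theorem orth {m N : ℕ} {σ : Fin N → L} (hσ : ∀ i, σ i ∈ Mo.V m) (hl : LinearIndependent ℂ σ)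
    {w : Val (RatFunc L)} (hw : Mo.Good w) (h0 : 0 < Mo.ex w) :
    ∃ E : Fin N → Fin N → Polynomial ℂ, (Matrix.of fun i j => (E i j).coeff 0).det ≠ 0 ∧
      (∀ i, psec σ (E i) ≠ 0) ∧
      ∀ (J : Finset (Fin N)) (o : Fin N → ℕ) (γ : Fin N → ℂ) (ν : ℝ≥0),
        (∀ i ∈ J, w RatFunc.X ^ o i * w (psec σ (E i)) = ν) → (∃ i ∈ J, γ i ≠ 0) →
        w (∑ i ∈ J, algebraMap ℂ (RatFunc L) (γ i) * (RatFunc.X ^ o i * psec σ (E i))) = ν := by
  classical
  set S : (Fin N → ℂ) → Set ℝ≥0 := fun u =>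
    {x | ∃ c : Fin N → Polynomial ℂ, (∀ j, (c j).coeff 0 = u j) ∧ w (psec σ c) = x} with hS
  have hne : ∀ u, (S u).Nonempty := fun u =>
    ⟨_, fun j => Polynomial.C (u j), fun j => Polynomial.coeff_C_zero, rfl⟩
  have hle : ∀ (u : Fin N → ℂ) (c : Fin N → Polynomial ℂ), (∀ j, (c j).coeff 0 = u j) →
      sInf (S u) ≤ w (psec σ c) := fun u c hc => csInf_le (OrderBot.bddBelow _) ⟨c, hc, rfl⟩
  obtain ⟨f, hf⟩ := exists_orth_basis (W := Fin N → ℂ) (fun u => sInf (S u)) (fun a u => by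
      refine le_csInf (hne u) ?_
      rintro _ ⟨c, hc, rfl⟩
      refine (hle _ (a • c) fun j => by simp [hc]).trans ?_
      rw [corel_psec_smul, map_mul]
      exact mul_le_of_le_one_left' (corel_triv hw.abh a)) (fun u u' => by
      by_contra h
      rw [not_le, max_lt_iff] at h
      obtain ⟨_, ⟨c, hc, rfl⟩, h1⟩ := exists_lt_of_csInf_lt (hne u) h.1
      obtain ⟨_, ⟨c', hc', rfl⟩, h2⟩ := exists_lt_of_csInf_lt (hne u') h.2
      refine absurd (hle (u + u') (c + c') fun j => by simp [hc, hc']) (not_le.2 ?_)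
      rw [corel_psec_add]
      exact w.map_add_lt h1 h2) (N := N) (by simp)
  choose E hE hE0 hmin using fun i => Mo.corel_min hσ hl hw h0 (f.ne_zero i)
  refine ⟨E, ?_, hE0, fun J o γ ν hν hγ => le_antisymm (w.map_sum_le fun i hi => ?_) ?_⟩
  · simp only [hE]
    exact ((Matrix.isUnit_iff_isUnit_det _).1
      (Matrix.linearIndependent_rows_iff_isUnit.1 f.linearIndependent)).ne_zero
  · rw [map_mul, map_mul, map_pow, hν i hi]
    exact mul_le_of_le_one_left' (corel_triv hw.abh _)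
  obtain ⟨i0, hi0, hm⟩ := Finset.exists_min_image (J.filter fun i => γ i ≠ 0) o
    (by obtain ⟨i, h1, h2⟩ := hγ; exact ⟨i, Finset.mem_filter.2 ⟨h1, h2⟩⟩)
  obtain ⟨hJ, hg⟩ := Finset.mem_filter.1 hi0
  have e : ∑ i ∈ J, algebraMap ℂ (RatFunc L) (γ i) * (RatFunc.X ^ o i * psec σ (E i)) =
      RatFunc.X ^ o i0 * psec σ fun j => ∑ i ∈ J,
        Polynomial.C (γ i) * Polynomial.X ^ (o i - o i0) * E i j := by
    rw [corel_psec_sum, Finset.mul_sum]
    refine Finset.sum_congr rfl fun i hi => ?_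
    rw [map_mul, map_pow, Polynomial.aeval_C, Polynomial.aeval_X]
    by_cases h : γ i = 0
    · simp [h]
    · rw [← pow_mul_pow_sub RatFunc.X (hm i (Finset.mem_filter.2 ⟨hi, h⟩))]
      ring
  rw [e, map_mul, map_pow, ← hν i0 hJ]
  refine mul_le_mul_right ?_ _
  have h1 : w (psec σ (E i0)) ≤ sInf (S (f i0)) := by
    refine le_csInf (hne _) ?_
    rintro _ ⟨c, hc, rfl⟩
    exact hmin i0 c hc
  refine h1.trans ((hf (fun i => if i ∈ J then γ i * 0 ^ (o i - o i0) else 0) i0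
    (by simpa [hJ] using hg)).trans (hle _ _ fun j => ?_))
  rw [Finset.sum_apply, Polynomial.finsetSum_coeff]
  simp only [Pi.smul_apply, smul_eq_mul, ite_mul, zero_mul, Finset.sum_ite_mem, Finset.univ_inter,
    Polynomial.mul_coeff_zero, Polynomial.coeff_C_zero, hE, Polynomial.coeff_zero_eq_eval_zero
      (Polynomial.X ^ _), Polynomial.eval_pow, Polynomial.eval_X]

/-- `Hyp.intg`, `core1` (growth by `grow_of_integral`), `evol_mul_le_avol` -/
theorem core1' {F0 : L} {F1 : RatFunc L} {c : ℚ} (hc : 0 ≤ c) (hH : Mo.Hyp F0 c) (h0 : F0 ≠ 0)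
    (hF0 : F0 ∈ Mo.toCover.A) (iF0 : IsIntegral (Algebra.adjoin ℂ (Set.range Mo.y)) F0)
    (hF1 : F1 ∈ Mo.toCover.ext.A)
    (iF1 : IsIntegral (Algebra.adjoin ℂ (Set.range Mo.toCover.ext.y)) F1)
    (hF : RatFunc.C F0 + RatFunc.X * F1 ≠ 0) {w : Val (RatFunc L)} (hw : Mo.Good w)
    (h1 : ∃ i, w (RatFunc.C (Mo.y i)) = 1) :
    Mo.ex w ≤ w (RatFunc.C F0 + RatFunc.X * F1) ^ (c : ℝ) * w (RatFunc.C Mo.h) := by
  obtain ⟨M0, hM⟩ := hH.intg hF0 h0 hc
  obtain ⟨i, hi⟩ := h1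
  have hX : 0 < w RatFunc.X := (Valuation.pos_iff w).2 RatFunc.X_ne_zero
  have hg : Mo.y i ^ M0 ∈ Mo.toCover.A := pow_mem (Mo.toCover.y_mem i) _
  have hh := Mo.mem_A Mo.h_mem
  have h2 := Mo.toCover.core1 hg hF0 hh Mo.h_ne Mo.h_inv hF1
    (Mo.toCover.grow_of_integral hg (corel_of_mem
      (pow_mem (Algebra.subset_adjoin (Set.mem_range_self i)) _)))
    (Mo.toCover.grow_of_integral hF0 iF0)
    (Mo.toCover.grow_of_integral hh (Mo.int _ _ Mo.h_mem))
    (Mo.toCover.ext.grow_of_integral hF1 iF1) (c := (c : ℝ)) (by exact_mod_cast hc) (hM i) Mo.reg hF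
    hw.abh (corel_le hw) hw.lt (by rw [map_pow, map_pow, hi, one_pow])
  obtain ⟨q, u, hf⟩ := hw.abh.exists_frame hX hw.lt (κ := Empty) Empty.elim fun p hp => by
    rw [p.eq_C_of_isEmpty, aeval_C]
    exact hw.abh.triv _ fun h => hp (by rw [p.eq_C_of_isEmpty, h, map_zero])
  have h3 := (evol_mul_le_avol hf Mo.toCover.ext.y rfl).trans h2
  rw [mul_assoc, mul_comm (w RatFunc.X)] at h3
  exact le_of_mul_le_mul_right h3 hX

/-- The constant terms give a new basis `b'` of `V m` (`Basis.map`, `Matrix.toLinearEquiv'`, or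
`basisOfLinearIndependentOfCardEqFinrank`); `psec σ (E l) = C (b' l) + X * psec σ (divX ∘ E l)`,
and a product of such elements is `C (∏ b' l) + X * F1` with `F1` in `A` and integral.  The product
is nonzero since its factors are. -/
theorem b1 {δ : ℚ} (hδ : 0 ≤ δ) {m N : ℕ} (hS : Mo.Stab δ m)
    (b : Module.Basis (Fin N) ℂ (Mo.V m)) (E : Fin N → Fin N → Polynomial ℂ)
    (hE : (Matrix.of fun i j => (E i j).coeff 0).det ≠ 0)
    (hne : ∀ i, psec (fun j => (b j : L)) (E i) ≠ 0) {w : Val (RatFunc L)} (hw : Mo.Good w)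
    (h1 : ∃ i, w (RatFunc.C (Mo.y i)) = 1) :
    Mo.ex w ≤ (∏ i, w (psec (fun j => (b j : L)) (E i))) ^ ((δ : ℝ) / (m * N)) *
      w (RatFunc.C Mo.h) := by
  classical
  have hu : IsUnit (Matrix.of fun i j => (E i j).coeff 0).transpose.det := by
    rw [Matrix.det_transpose]
    exact hE.isUnit
  set b' := b.map (Matrix.toLinearEquiv b _ hu) with hb'
  have h2 : ∀ l, psec (fun j => (b j : L)) (E l) =
      RatFunc.C (b' l : L) + RatFunc.X * psec (fun j => (b j : L)) fun j => (E l j).divX := by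
    intro l
    rw [corel_psec_div, hb', Module.Basis.map_apply, Matrix.toLinearEquiv_apply, Matrix.toLin_self]
    simp
  have hX : RatFunc.X ∈ corelT Mo.toCover := corel_T_adj _ (Algebra.subset_adjoin ⟨none, rfl⟩)
  have h3 : ∀ S : Finset (Fin N), ∃ F1 ∈ corelT Mo.toCover,
      ∏ l ∈ S, psec (fun j => (b j : L)) (E l) =
        RatFunc.C (∏ l ∈ S, (b' l : L)) + RatFunc.X * F1 := by
    intro S
    induction S using Finset.induction_on with
    | empty => exact ⟨0, zero_mem _, by simp⟩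
    | insert l S hl ih =>
      obtain ⟨F, hF, e⟩ := ih
      have k1 : psec (fun j => (b j : L)) (fun j => (E l j).divX) ∈ corelT Mo.toCover :=
        Mo.psec_mem (fun j => (b j).2) _
      have k2 : RatFunc.C (∏ l ∈ S, (b' l : L)) ∈ corelT Mo.toCover := by
        rw [map_prod]
        exact prod_mem fun l _ => Mo.corel_T_C (b' l).2
      refine ⟨_, add_mem (mul_mem (Mo.corel_T_C (b' l).2) hF)
        (mul_mem k1 (add_mem k2 (mul_mem hX hF))), ?_⟩
      rw [Finset.prod_insert hl, Finset.prod_insert hl, e, h2, map_mul]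
      ring
  obtain ⟨F1, hF1, e⟩ := h3 Finset.univ
  have h4 := Mo.core1' (by positivity) (hS N b')
    (Finset.prod_ne_zero_iff.2 fun l _ => by simpa using b'.ne_zero l)
    (prod_mem fun l _ => Mo.mem_A (b' l).2) (IsIntegral.prod _ fun l _ => Mo.int m _ (b' l).2)
    hF1.1 hF1.2 (e ▸ Finset.prod_ne_zero_iff.2 fun l _ => hne l) hw h1
  rw [← e, map_prod] at h4
  push_cast at h4
  exact h4

end Model

end Pool.Agent.MP_c0606f_ag.Klt

end

-- part MP_c0606f_ag.Klt.Apx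
section

/-! Approximation by polynomials in a uniformiser; linear disjointness; change of constants. -/

namespace Pool.Agent.MP_c0606f_ag.Klt

open scoped NNReal
open MvPolynomial

variable {L : Type} [Field L] [Algebra ℂ L] {v : Val L} {Ω : IntermediateField ℂ L} {t : L}

/-- approximation up to `r` -/
private def apxA (v : Val L) (Ω : IntermediateField ℂ L) (t : L) (r : ℝ≥0) (a : L) : Prop :=
  ∃ b ∈ Algebra.adjoin Ω {t}, v (a - b) ≤ r

private theorem apx_iff {a : L} : Apx v Ω t a ↔ ∀ j : ℕ, apxA v Ω t (v t ^ j) a := by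
  refine forall_congr' fun j => ⟨?_, ?_⟩
  · rintro ⟨p, hp, h⟩
    obtain ⟨q, rfl⟩ : p ∈ Polynomial.lifts (algebraMap Ω L) :=
      (Polynomial.lifts_iff_coeff_lifts p).2 fun i => ⟨⟨_, hp i⟩, rfl⟩
    refine ⟨_, ?_, h⟩
    rw [Polynomial.coe_mapRingHom, Polynomial.eval_map_algebraMap]
    exact Polynomial.aeval_mem_adjoin_singleton _ _
  · rintro ⟨b, hb, h⟩
    rw [Algebra.adjoin_singleton_eq_range_aeval] at hb
    obtain ⟨q, rfl⟩ := hb
    refine ⟨q.map (algebraMap Ω L), fun i => ?_, ?_⟩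
    · rw [Polynomial.coeff_map]; exact (q.coeff i).2
    · rwa [Polynomial.eval_map_algebraMap]

private theorem apx_of_mem {r : ℝ≥0} {a : L} (ha : a ∈ Algebra.adjoin Ω {t}) : apxA v Ω t r a :=
  ⟨a, ha, by simp⟩

private theorem apx_mem_const {a : L} (ha : a ∈ Ω) : a ∈ Algebra.adjoin Ω {t} :=
  Subalgebra.algebraMap_mem _ (⟨a, ha⟩ : Ω)

private theorem apx_mem_self : t ∈ Algebra.adjoin Ω {t} := Algebra.subset_adjoin rfl

private theorem apx_add {r : ℝ≥0} {a b : L} (ha : apxA v Ω t r a) (hb : apxA v Ω t r b) :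
    apxA v Ω t r (a + b) := by
  obtain ⟨x, hx, h⟩ := ha
  obtain ⟨y, hy, h'⟩ := hb
  refine ⟨x + y, add_mem hx hy, ?_⟩
  rw [add_sub_add_comm]
  exact v.map_add_le h h'

private theorem apx_neg {r : ℝ≥0} {a : L} (ha : apxA v Ω t r a) : apxA v Ω t r (-a) := by
  obtain ⟨x, hx, h⟩ := ha
  refine ⟨-x, neg_mem hx, ?_⟩
  rwa [neg_sub_neg, v.map_sub_swap]

private theorem apx_const_le (hΩ : ∀ a ∈ Ω, a ≠ 0 → v a = 1) {a : L} (ha : a ∈ Ω) : v a ≤ 1 := by
  by_cases h : a = 0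
  · simp [h]
  · exact (hΩ a ha h).le

private theorem apx_mem_le (hΩ : ∀ a ∈ Ω, a ≠ 0 → v a = 1) (h1 : v t < 1) {a : L}
    (ha : a ∈ Algebra.adjoin Ω {t}) : v a ≤ 1 := by
  induction ha using Algebra.adjoin_induction with
  | mem x hx => rw [Set.mem_singleton_iff.mp hx]; exact h1.le
  | algebraMap a => exact apx_const_le hΩ a.2
  | add x y _ _ hx hy => exact v.map_add_le hx hy
  | mul x y _ _ hx hy => rw [map_mul]; exact mul_le_one' hx hy

private theorem apx_le (hΩ : ∀ a ∈ Ω, a ≠ 0 → v a = 1) (h1 : v t < 1) {r : ℝ≥0} (hr : r ≤ 1)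
    {a : L} (ha : apxA v Ω t r a) : v a ≤ 1 := by
  obtain ⟨x, hx, h⟩ := ha
  rw [← sub_add_cancel a x]
  exact v.map_add_le (h.trans hr) (apx_mem_le hΩ h1 hx)

private theorem apx_mul (hΩ : ∀ a ∈ Ω, a ≠ 0 → v a = 1) (h1 : v t < 1) {r : ℝ≥0} (hr : r ≤ 1)
    {a b : L} (ha : apxA v Ω t r a) (hb : apxA v Ω t r b) : apxA v Ω t r (a * b) := by
  have ha1 := apx_le hΩ h1 hr ha
  obtain ⟨x, hx, h⟩ := ha
  obtain ⟨y, hy, h'⟩ := hb
  refine ⟨x * y, mul_mem hx hy, ?_⟩
  rw [show a * b - x * y = a * (b - y) + (a - x) * y by ring]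
  refine v.map_add_le ?_ ?_
  · rw [map_mul]; exact (mul_le_of_le_one_left' ha1).trans h'
  · rw [map_mul]; exact (mul_le_of_le_one_right' (apx_mem_le hΩ h1 hy)).trans h

private theorem apx_dec {b : L} (hb : b ∈ Algebra.adjoin Ω {t}) (h0 : b ≠ 0) :
    ∃ (o : ℕ) (ω c : L), ω ∈ Ω ∧ ω ≠ 0 ∧ c ∈ Algebra.adjoin Ω {t} ∧
      b = ω * t ^ o + t ^ o * (t * c) := by
  rw [Algebra.adjoin_singleton_eq_range_aeval] at hb
  obtain ⟨p, rfl⟩ := hb
  have hp : p ≠ 0 := by rintro rfl; exact h0 (map_zero _)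
  obtain ⟨q, hq, hq'⟩ := Polynomial.exists_eq_pow_rootMultiplicity_mul_and_not_dvd p hp 0
  rw [map_zero, sub_zero] at hq hq'
  rw [Polynomial.X_dvd_iff] at hq'
  refine ⟨p.rootMultiplicity 0, q.coeff 0, Polynomial.aeval t q.divX, (q.coeff 0).2,
    fun h => hq' (Subtype.ext h), Polynomial.aeval_mem_adjoin_singleton _ _, ?_⟩
  have h1 := congrArg (Polynomial.aeval t) hq
  have h2 := congrArg (Polynomial.aeval t) (Polynomial.X_mul_divX_add q)
  rw [map_mul, map_pow, Polynomial.aeval_X] at h1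
  rw [map_add, map_mul, Polynomial.aeval_X, Polynomial.aeval_C] at h2
  refine h1.trans ?_
  rw [← h2]
  change _ * (_ + (q.coeff 0 : L)) = _
  ring

private theorem apx_val_dec (hΩ : ∀ a ∈ Ω, a ≠ 0 → v a = 1) (h1 : v t < 1) {o : ℕ} {ω c : L}
    (hω : ω ∈ Ω) (hω0 : ω ≠ 0) (hc : c ∈ Algebra.adjoin Ω {t}) :
    v (t * c) ≤ v t ∧ v (ω * t ^ o + t ^ o * (t * c)) = v t ^ o := by
  have h2 : v (t * c) ≤ v t := by
    rw [map_mul]; exact mul_le_of_le_one_right' (apx_mem_le hΩ h1 hc)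
  refine ⟨h2, ?_⟩
  rw [show ω * t ^ o + t ^ o * (t * c) = t ^ o * (ω + t * c) by ring, map_mul, map_pow,
    v.map_add_eq_of_lt_left (by rw [hΩ ω hω hω0]; exact h2.trans_lt h1), hΩ ω hω hω0, mul_one]

private theorem apx_inv (hΩ : ∀ a ∈ Ω, a ≠ 0 → v a = 1) (h1 : v t < 1) {j : ℕ} {a : L}
    (ha : apxA v Ω t (v t ^ j) a) (hu : v a = 1) : apxA v Ω t (v t ^ j) a⁻¹ := by
  rcases Nat.eq_zero_or_pos j with rfl | hj
  · exact ⟨0, zero_mem _, by simp [hu]⟩
  obtain ⟨b, hb, h⟩ := ha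
  have ha0 : a ≠ 0 := fun h0 => by simp [h0] at hu
  have hb1 : v b = 1 := by
    rw [← hu]
    refine (v.map_eq_of_sub_lt ?_)
    rw [v.map_sub_swap, hu]
    exact h.trans_lt (pow_lt_one₀ zero_le h1 hj.ne')
  obtain ⟨o, ω, c, hω, hω0, hc, rfl⟩ := apx_dec hb fun h0 => by simp [h0] at hb1
  obtain ⟨h2, h3⟩ := apx_val_dec (o := o) hΩ h1 hω hω0 hc
  have ho : o = 0 := by
    by_contra ho
    exact (pow_lt_one₀ zero_le h1 ho).ne (h3.symm.trans hb1)
  subst ho
  simp only [pow_zero, mul_one, one_mul] at h hb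
  have hi : ω⁻¹ ∈ Algebra.adjoin Ω {t} := apx_mem_const (inv_mem hω)
  have hx : -(ω⁻¹ * (t * c)) ∈ Algebra.adjoin Ω {t} :=
    neg_mem (mul_mem hi (mul_mem apx_mem_self hc))
  have hy : ω⁻¹ * ∑ i ∈ Finset.range j, (-(ω⁻¹ * (t * c))) ^ i ∈ Algebra.adjoin Ω {t} :=
    mul_mem hi (sum_mem fun i _ => pow_mem hx i)
  refine ⟨_, hy, ?_⟩
  have h4 := mul_neg_geom_sum (-(ω⁻¹ * (t * c))) j
  have h5 : a⁻¹ - ω⁻¹ * ∑ i ∈ Finset.range j, (-(ω⁻¹ * (t * c))) ^ i =
      a⁻¹ * ((-(ω⁻¹ * (t * c))) ^ j - (a - (ω + t * c)) *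
        (ω⁻¹ * ∑ i ∈ Finset.range j, (-(ω⁻¹ * (t * c))) ^ i)) := by
    have h6 := inv_mul_cancel₀ ha0
    have h7 := inv_mul_cancel₀ hω0
    generalize ∑ i ∈ Finset.range j, (-(ω⁻¹ * (t * c))) ^ i = S at h4 ⊢
    generalize (-(ω⁻¹ * (t * c))) ^ j = P at h4 ⊢
    linear_combination (-a⁻¹) * h4 + (ω⁻¹ * S) * h6 - (a⁻¹ * S) * h7
  rw [h5, map_mul, map_inv₀, hu, inv_one, one_mul]
  refine v.map_sub_le ?_ ?_
  · rw [map_pow, v.map_neg, map_mul, map_inv₀, hΩ ω hω hω0, inv_one, one_mul]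
    exact pow_le_pow_left₀ zero_le h2 j
  · rw [map_mul]
    exact (mul_le_of_le_one_right' (apx_mem_le hΩ h1 hy)).trans h

/-- the elements approximable up to `r` form a ring -/
private def apxR (hΩ : ∀ a ∈ Ω, a ≠ 0 → v a = 1) (h1 : v t < 1) (j : ℕ) : Subring L where
  carrier := {a | apxA v Ω t (v t ^ j) a}
  mul_mem' := apx_mul hΩ h1 (pow_le_one₀ zero_le h1.le)
  one_mem' := apx_of_mem (one_mem _)
  add_mem' := apx_add
  zero_mem' := apx_of_mem (zero_mem _)
  neg_mem' := apx_neg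

theorem Apx.const {a : L} (ha : a ∈ Ω) : Apx v Ω t a := by
  exact apx_iff.2 fun _ => apx_of_mem (apx_mem_const ha)

theorem Apx.self : Apx v Ω t t := by
  exact apx_iff.2 fun _ => apx_of_mem apx_mem_self

theorem Apx.add {a b : L} (ha : Apx v Ω t a) (hb : Apx v Ω t b) : Apx v Ω t (a + b) := by
  exact apx_iff.2 fun j => apx_add (apx_iff.1 ha j) (apx_iff.1 hb j)

theorem Apx.neg {a : L} (ha : Apx v Ω t a) : Apx v Ω t (-a) := by
  exact apx_iff.2 fun j => apx_neg (apx_iff.1 ha j)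

theorem Apx.le_one (hΩ : ∀ a ∈ Ω, a ≠ 0 → v a = 1) (h1 : v t < 1) {a : L} (ha : Apx v Ω t a) :
    v a ≤ 1 := by
  exact apx_le hΩ h1 (pow_zero _).le (apx_iff.1 ha 0)

theorem Apx.mul (hΩ : ∀ a ∈ Ω, a ≠ 0 → v a = 1) (h1 : v t < 1) {a b : L} (ha : Apx v Ω t a)
    (hb : Apx v Ω t b) : Apx v Ω t (a * b) := by
  exact apx_iff.2 fun j =>
    apx_mul hΩ h1 (pow_le_one₀ zero_le h1.le) (apx_iff.1 ha j) (apx_iff.1 hb j)

theorem Apx.sum {ι : Type} (S : Finset ι) {a : ι → L} (ha : ∀ i ∈ S, Apx v Ω t (a i)) :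
    Apx v Ω t (∑ i ∈ S, a i) := by
  induction S using Finset.cons_induction with
  | empty => exact Apx.const (zero_mem Ω)
  | cons i S hi ih =>
    rw [Finset.sum_cons]
    exact (ha i (Finset.mem_cons_self _ _)).add (ih fun j hj => ha j (Finset.mem_cons_of_mem hj))

/-- geometric series -/
theorem Apx.inv (hΩ : ∀ a ∈ Ω, a ≠ 0 → v a = 1) (h1 : v t < 1) {a : L} (ha : Apx v Ω t a)
    (hu : v a = 1) : Apx v Ω t a⁻¹ := by
  exact apx_iff.2 fun j => apx_inv hΩ h1 (apx_iff.1 ha j) hu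

theorem Apx.mono {Ω' : IntermediateField ℂ L} (h : Ω ≤ Ω') {a : L} (ha : Apx v Ω t a) :
    Apx v Ω' t a := by
  intro j
  obtain ⟨p, hp, h'⟩ := ha j
  exact ⟨p, fun i => h (hp i), h'⟩

/-- entries of the inverse matrix (adjugate and determinant are polynomials in the entries) -/
theorem Apx.matrix_inv (hΩ : ∀ a ∈ Ω, a ≠ 0 → v a = 1) (h1 : v t < 1) {ι : Type} [Fintype ι]
    [DecidableEq ι] (A : Matrix ι ι L) (hA : ∀ i j, Apx v Ω t (A i j)) (hd : v A.det = 1)
    (i j : ι) : Apx v Ω t (A⁻¹ i j) := by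
  refine apx_iff.2 fun n => ?_
  let B : Matrix ι ι (apxR hΩ h1 n) := fun i j => ⟨A i j, apx_iff.1 (hA i j) n⟩
  have hB : (apxR hΩ h1 n).subtype.mapMatrix B = A := rfl
  have h2 : apxA v Ω t (v t ^ n) A.det := by
    rw [← hB, ← RingHom.map_det]; exact B.det.2
  have h3 : apxA v Ω t (v t ^ n) (A.adjugate i j) := by
    rw [← hB, ← RingHom.map_adjugate]; exact (B.adjugate i j).2
  rw [Matrix.inv_def, Ring.inverse_eq_inv', Matrix.smul_apply, smul_eq_mul]
  exact apx_mul hΩ h1 (pow_le_one₀ zero_le h1.le) (apx_inv hΩ h1 h2 hd) h3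

/-- leading term -/
theorem Apx.lead (hΩ : ∀ a ∈ Ω, a ≠ 0 → v a = 1) (h0 : 0 < v t) (h1 : v t < 1) {a : L}
    (ha : Apx v Ω t a) (hne : a ≠ 0) :
    ∃ (o : ℕ) (ω : L), ω ∈ Ω ∧ ω ≠ 0 ∧ v (a - ω * t ^ o) < v t ^ o := by
  obtain ⟨j, hj⟩ := NNReal.exists_pow_lt_of_lt_one (pos_iff_ne_zero.2 (v.ne_zero_iff.2 hne)) h1
  obtain ⟨b, hb, h⟩ := apx_iff.1 ha j
  have h2 : v b = v a := v.map_eq_of_sub_lt (by rw [v.map_sub_swap]; exact h.trans_lt hj)
  obtain ⟨o, ω, c, hω, hω0, hc, rfl⟩ := apx_dec hb fun h0 => hne (by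
    rw [h0, map_zero] at h2
    exact v.zero_iff.1 h2.symm)
  obtain ⟨h3, h4⟩ := apx_val_dec (o := o) hΩ h1 hω hω0 hc
  refine ⟨o, ω, hω, hω0, ?_⟩
  rw [show a - ω * t ^ o = a - (ω * t ^ o + t ^ o * (t * c)) + t ^ o * (t * c) by ring]
  refine v.map_add_lt (h.trans_lt (by rwa [← h4, h2])) ?_
  rw [map_mul, map_pow]
  exact mul_lt_of_lt_one_right (pow_pos h0 o) (h3.trans_lt h1)

omit [Algebra ℂ L] in
private theorem apx_prod (a : L) (S : Multiset L) (h : ∀ ω ∈ S, 1 ≤ v (a - ω)) :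
    1 ≤ v (S.map (a - ·)).prod := by
  induction S using Multiset.induction_on with
  | empty => simp
  | cons x S ih =>
    rw [Multiset.map_cons, Multiset.prod_cons, map_mul]
    exact one_le_mul (h x (Multiset.mem_cons_self _ _))
      (ih fun ω hω => h ω (Multiset.mem_cons_of_mem hω))

omit [Algebra ℂ L] in
private theorem apx_root {P : Polynomial L} (hs : P.Splits) (hl : v P.leadingCoeff = 1) {a : L}
    (h : v (P.eval a) < 1) : ∃ ω ∈ P.roots, v (a - ω) < 1 := by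
  by_contra hcon
  push Not at hcon
  rw [hs.eval_eq_prod_roots, map_mul, hl, one_mul] at h
  exact h.not_ge (apx_prod a _ hcon)

private theorem apx_aeval_Om {κ : Type} (u : κ → L) (p : MvPolynomial κ ℂ) : aeval u p ∈ Om u := by
  rw [mem_Om]
  have h : aeval u p ∈ Algebra.adjoin ℂ (Set.range u) := by
    rw [Algebra.adjoin_range_eq_range_aeval]; exact ⟨p, rfl⟩
  exact isAlgebraic_algebraMap (⟨_, h⟩ : Algebra.adjoin ℂ (Set.range u))

private theorem apx_root_Om {κ : Type} (u : κ → L) (Q : Polynomial (MvPolynomial κ ℂ)) {ω : L}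
    (h : ω ∈ (Q.map (aeval u : MvPolynomial κ ℂ →ₐ[ℂ] L).toRingHom).roots) : ω ∈ Om u := by
  rw [mem_Om]
  obtain ⟨h0, h1⟩ := Polynomial.mem_roots'.1 h
  let g : MvPolynomial κ ℂ →+* Algebra.adjoin ℂ (Set.range u) :=
    (aeval u : MvPolynomial κ ℂ →ₐ[ℂ] L).toRingHom.codRestrict _ fun p => by
      rw [Algebra.adjoin_range_eq_range_aeval]; exact ⟨p, rfl⟩
  have h2 : (Q.map g).map (algebraMap _ L) =
      Q.map (aeval u : MvPolynomial κ ℂ →ₐ[ℂ] L).toRingHom := by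
    rw [Polynomial.map_map]; rfl
  refine ⟨Q.map g, fun h3 => h0 ?_, ?_⟩
  · rw [← h2, h3, Polynomial.map_zero]
  · rw [← Polynomial.eval_map_algebraMap, h2]
    exact h1

/-- Prove by induction on `j` that every integral `a ∈ k` can be approximated up to `v t ^ j`.
By `ResInd.res_alg`, `Q(a) = t * a'` with `a' ∈ k` integral and `v (Q'(a)) = 1`.  `Q` splits over
`Om u` (`L` is algebraically closed), `Q = c * ∏ (X - ω i)`; some `v (a - ω i) < 1`; write
`Q = (X - ω) * R` over `Om u`; `Q'(a) = R(a) + (a - ω) R'(a)` shows `v (R(a)) = 1`, and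
`a = ω + t * a' / R(a)`.  (The lemmas above hold level by level.) -/
theorem apx_of_alg [IsAlgClosed L] (k : IntermediateField ℂ L) (ht : t ∈ k) (hu : IsUnifOn v k t)
    {κ : Type} (u : κ → L) (h0 : ∀ i, u i ∈ k) (hr : ResInd v u)
    (halg : ∀ a ∈ k, IsAlgebraic (Algebra.adjoin ℂ (insert t (Set.range u))) a) {a : L}
    (ha : a ∈ k) (h1 : v a ≤ 1) : Apx v (Om u) t a := by
  have hΩ : ∀ a ∈ Om u, a ≠ 0 → v a = 1 := fun a ha h => hr.val_Om ha h
  have ht0 : t ≠ 0 := v.ne_zero_iff.1 hu.1.ne'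
  refine apx_iff.2 fun j => ?_
  induction j generalizing a with
  | zero => exact ⟨0, zero_mem _, by simpa using h1⟩
  | succ j ih =>
    obtain ⟨Q, hQ1, hQ2⟩ := hr.res_alg hu.1 hu.2.1 h1 (halg a ha)
    obtain ⟨f, hf⟩ : ∃ f : MvPolynomial κ ℂ →+* L,
        f = (aeval u : MvPolynomial κ ℂ →ₐ[ℂ] L).toRingHom := ⟨_, rfl⟩
    have hfu : ∀ p, f p = aeval u p := fun p => by rw [hf]; rfl
    rw [← hf] at hQ1 hQ2
    have hP0 : Q.map f ≠ 0 := fun h => by
      rw [← Polynomial.eval_map, ← Polynomial.derivative_map, h] at hQ2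
      simp at hQ2
    obtain ⟨ω, hω, hωa⟩ := apx_root (v := v) (IsAlgClosed.splits (Q.map f)) (a := a)
      (hΩ _ (by
        rw [Polynomial.leadingCoeff, Polynomial.coeff_map, hfu]; exact apx_aeval_Om u _)
        (Polynomial.leadingCoeff_ne_zero.2 hP0)) (by rwa [Polynomial.eval_map])
    have hω' : ω ∈ Om u := apx_root_Om u Q (hf ▸ hω)
    have hω0 : Q.eval₂ f ω = 0 := by
      rw [← Polynomial.eval_map]; exact (Polynomial.mem_roots'.1 hω).2
    have hQk : Q.eval₂ f a ∈ k := by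
      rw [Polynomial.eval₂_eq_sum_range]
      refine sum_mem fun i _ => mul_mem ?_ (pow_mem ha i)
      have h2 : Algebra.adjoin ℂ (Set.range u) ≤ k.toSubalgebra :=
        Algebra.adjoin_le (by rintro _ ⟨i, rfl⟩; exact h0 i)
      refine h2 ?_
      rw [Algebra.adjoin_range_eq_range_aeval, hfu]; exact ⟨_, rfl⟩
    have ha' : apxA v (Om u) t (v t ^ j) (Q.eval₂ f a / t) := by
      refine ih (div_mem hQk ht) ?_
      rw [map_div₀, div_le_one hu.1]
      exact hu.le_of_lt hQk hQ1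
    let g : MvPolynomial κ ℂ →+* apxR hΩ hu.2.1 j := f.codRestrict _ fun p =>
      apx_of_mem (apx_mem_const (by rw [hfu]; exact apx_aeval_Om u p))
    have hg : ∀ (P : Polynomial (MvPolynomial κ ℂ)) (x : apxR hΩ hu.2.1 j),
        (((P.map g).eval x : apxR hΩ hu.2.1 j) : L) = P.eval₂ f x := fun P x => by
      rw [Polynomial.eval_map]
      exact Polynomial.hom_eval₂ P g (apxR hΩ hu.2.1 j).subtype x
    let a₀ : apxR hΩ hu.2.1 j := ⟨a, ih ha h1⟩
    let ω₀ : apxR hΩ hu.2.1 j := ⟨ω, apx_of_mem (apx_mem_const hω')⟩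
    obtain ⟨c, hc⟩ := (Q.map g).binomExpansion a₀ (ω₀ - a₀)
    rw [add_sub_cancel, Polynomial.derivative_map] at hc
    have hc' : Q.eval₂ f ω = Q.eval₂ f a + (Polynomial.derivative Q).eval₂ f a * (ω - a) +
        c * (ω - a) ^ 2 := by
      have h2 := congrArg Subtype.val hc
      push_cast at h2
      rwa [hg, hg, hg] at h2
    have hρ : apxA v (Om u) t (v t ^ j) ((Polynomial.derivative Q).eval₂ f a + c * (ω - a)) := by
      have h2 := (((Polynomial.derivative Q).map g).eval a₀ + c * (ω₀ - a₀)).2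
      push_cast at h2
      rwa [hg] at h2
    have hρ1 : v ((Polynomial.derivative Q).eval₂ f a + c * (ω - a)) = 1 := by
      refine (v.map_add_eq_of_lt_left ?_).trans hQ2
      rw [hQ2, map_mul, v.map_sub_swap]
      exact (mul_le_of_le_one_left'
        (apx_le hΩ hu.2.1 (pow_le_one₀ zero_le hu.2.1.le) c.2)).trans_lt hωa
    obtain ⟨b, hb, hb'⟩ := apx_mul hΩ hu.2.1 (pow_le_one₀ zero_le hu.2.1.le) ha'
      (apx_inv hΩ hu.2.1 hρ hρ1)
    refine ⟨ω + t * b, add_mem (apx_mem_const hω') (mul_mem apx_mem_self hb), ?_⟩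
    have hρ0 : (Polynomial.derivative Q).eval₂ f a + c * (ω - a) ≠ 0 := fun h => by
      rw [h, map_zero] at hρ1; exact zero_ne_one hρ1
    have h3 : a - (ω + t * b) = t * (Q.eval₂ f a / t *
        ((Polynomial.derivative Q).eval₂ f a + c * (ω - a))⁻¹ - b) := by
      have h4 : Q.eval₂ f a = (a - ω) * ((Polynomial.derivative Q).eval₂ f a + c * (ω - a)) := by
        linear_combination hω0 - hc'
      rw [h4]
      field_simp
      ring
    rw [h3, map_mul, pow_succ']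
    exact mul_le_mul_right hb' _

private theorem apx_deg_lt {κ R : Type} [CommRing R] (Q : MvPolynomial κ R) (l : κ)
    (h : pderiv l Q ≠ 0) : (pderiv l Q).totalDegree < Q.totalDegree := by
  obtain ⟨m, hm, he⟩ := Finset.exists_mem_eq_sup (pderiv l Q).support
    (support_nonempty.2 h) fun s => s.sum fun _ e => e
  have h1 : m + Finsupp.single l 1 ∈ Q.support := by
    rw [mem_support_iff] at hm ⊢
    rw [coeff_pderiv] at hm
    exact left_ne_zero_of_mul hm
  have h2 := le_totalDegree h1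
  rw [Finsupp.sum_add_index' (fun _ => rfl) (fun _ _ _ => rfl), Finsupp.sum_single_index rfl] at h2
  rw [totalDegree, he]
  omega

private theorem apx_eq_C {κ R : Type} [CommRing R] [IsDomain R] [CharZero R]
    (Q : MvPolynomial κ R) (h : ∀ l, pderiv l Q = 0) : Q = C (coeff 0 Q) := by
  classical
  ext m
  rw [coeff_C]
  split_ifs with hm
  · rw [hm]
  · obtain ⟨l, hl⟩ : ∃ l, m l ≠ 0 := by
      by_contra hcon
      push Not at hcon
      exact hm (Finsupp.ext fun l => (hcon l).symm)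
    have h1 := coeff_pderiv (i := l) Q (m - Finsupp.single l 1)
    rw [h l, coeff_zero, tsub_add_cancel_of_le (Finsupp.single_le_iff.2
      (Nat.one_le_iff_ne_zero.2 hl))] at h1
    exact (mul_eq_zero.1 h1.symm).resolve_right (Nat.cast_add_one_ne_zero _)

/-- An integral element whose residue is killed by the `D l` is congruent to a constant.  Among
the nonzero `Q ∈ ℂ[X, ζ]` with `v (Q(η, ζ)) < 1` (they exist by `ResInd.res_alg`) take one of least
total degree; `D l (Q(η, ζ)) = (∂_l Q)(η, ζ) + (∂_X Q)(η, ζ) * D l η` shows `∂_l Q = 0`; so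
`Q ∈ ℂ[X]` splits. -/
theorem exists_const {κ : Type} [Fintype κ] [DecidableEq κ] {ζ : κ → L} (hr : ResInd v ζ)
    (h0 : 0 < v t) (h1 : v t < 1) (D : κ → Derivation ℂ L L) (hD : ∀ l a, v (D l a) ≤ v a)
    (hd : ∀ l l', D l (ζ l') = if l = l' then 1 else 0) {η : L} (hη : v η ≤ 1)
    (halg : IsAlgebraic (Algebra.adjoin ℂ (insert t (Set.range ζ))) η)
    (hk : ∀ l, v (D l η) < 1) : ∃ c : ℂ, v (η - algebraMap ℂ L c) < 1 := by
  classical
  have hc1 : ∀ c : ℂ, v (algebraMap ℂ L c) ≤ 1 := fun c => by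
    by_cases hc : c = 0
    · simp [hc]
    · exact (hr.triv c hc).le
  have hq1 : ∀ q : Polynomial ℂ, v (Polynomial.aeval η q) ≤ 1 := fun q => by
    rw [Polynomial.aeval_eq_sum_range]
    refine v.map_sum_le fun i _ => ?_
    rw [Algebra.smul_def, map_mul, map_pow]
    exact mul_le_one' (hc1 _) (pow_le_one₀ zero_le hη)
  obtain ⟨ev, hevC, hevX⟩ : ∃ ev : MvPolynomial κ (Polynomial ℂ) →+* L,
      (∀ q, ev (C q) = Polynomial.aeval η q) ∧ ∀ i, ev (X i) = ζ i :=
    ⟨eval₂Hom (Polynomial.aeval η : Polynomial ℂ →ₐ[ℂ] L).toRingHom ζ, fun q => eval₂_C _ _ _,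
      fun i => eval₂_X _ _ _⟩
  have hder : ∀ l Q, v (D l (ev Q) - ev (pderiv l Q)) < 1 := fun l Q => by
    induction Q using MvPolynomial.induction_on with
    | C q =>
      rw [pderiv_C, map_zero, sub_zero, hevC, Derivation.map_aeval, smul_eq_mul, map_mul]
      exact (mul_le_of_le_one_left' (hq1 _)).trans_lt (hk l)
    | add p q hp hq =>
      rw [map_add, map_add, map_add, map_add, add_sub_add_comm]
      exact v.map_add_lt hp hq
    | mul_X p i hp =>
      have h2 : D l (ev (p * X i)) - ev (pderiv l (p * X i)) =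
          ζ i * (D l (ev p) - ev (pderiv l p)) := by
        rw [map_mul, Derivation.leibniz, Derivation.leibniz, hevX, hd, pderiv_X, Pi.single_apply]
        by_cases h : l = i
        · subst h
          simp [hevX]
          ring
        · simp [hevX, h, Ne.symm h]
          ring
      rw [h2, map_mul, hr.val_eq, one_mul]
      exact hp
  have hex : ∃ n, ∃ Q : MvPolynomial κ (Polynomial ℂ), Q ≠ 0 ∧ v (ev Q) < 1 ∧
      Q.totalDegree = n := by
    obtain ⟨Q, hQ1, hQ2⟩ := hr.res_alg h0 h1 hη halg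
    have h2 : ∀ P : MvPolynomial (Option κ) ℂ, ev (optionEquivRight ℂ κ P) =
        (optionEquivLeft ℂ κ P).eval₂ (aeval ζ : MvPolynomial κ ℂ →ₐ[ℂ] L).toRingHom η := by
      intro P
      induction P using MvPolynomial.induction_on with
      | C c => simp [hevC]
      | add p q hp hq => rw [map_add, map_add, map_add, Polynomial.eval₂_add, hp, hq]
      | mul_X p o hp =>
        rw [map_mul, map_mul, map_mul, Polynomial.eval₂_mul, hp]
        cases o <;> simp [hevC, hevX]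
    refine ⟨_, optionEquivRight ℂ κ ((optionEquivLeft ℂ κ).symm Q), fun h => ?_, ?_, rfl⟩
    · rw [EmbeddingLike.map_eq_zero_iff, EmbeddingLike.map_eq_zero_iff] at h
      simp [h] at hQ2
    · rwa [h2, AlgEquiv.apply_symm_apply]
  obtain ⟨Q, hQ0, hQ1, hQn⟩ := Nat.find_spec hex
  have hQC : Q = C (coeff 0 Q) := apx_eq_C Q fun l => by
    by_contra hne
    refine Nat.find_min hex (hQn ▸ apx_deg_lt Q l hne) ⟨_, hne, ?_, rfl⟩
    rw [← sub_sub_cancel (D l (ev Q)) (ev (pderiv l Q))]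
    exact v.map_sub_lt ((hD l _).trans_lt hQ1) (hder l Q)
  have hq0 : coeff 0 Q ≠ 0 := fun h => hQ0 (by rw [hQC, h, map_zero])
  rw [hQC, hevC, ← Polynomial.eval_map_algebraMap] at hQ1
  obtain ⟨ω, hω, h2⟩ := apx_root (v := v) ((IsAlgClosed.splits (coeff 0 Q)).map (algebraMap ℂ L))
    (by
      rw [Polynomial.leadingCoeff_map]
      exact hr.triv _ (Polynomial.leadingCoeff_ne_zero.2 hq0)) hQ1
  rw [(IsAlgClosed.splits (coeff 0 Q)).roots_map, Multiset.mem_map] at hω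
  obtain ⟨c, -, rfl⟩ := hω
  exact ⟨c, h2⟩

/-- Linear disjointness of residue fields.  First: if `ω i ∈ Ω` are linearly independent over `ℂ`,
`η i ∈ F` integral and `v (∑ ω i * η i) < 1`, then all `v (η i) < 1` (induction on the number of
units among the `η i`: divide by a unit `η i0`, apply `D l`, which preserves `F` by `der_mem`, then
`exists_const`).  Then expand the `ω i` in a basis of their span. -/
theorem res_indep {κ : Type} [Fintype κ] [DecidableEq κ] {ζ : κ → L} (hr : ResInd v ζ)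
    (h0 : 0 < v t) (h1 : v t < 1) (hΩ : ∀ a ∈ Ω, a ≠ 0 → v a = 1) (D : κ → Derivation ℂ L L)
    (hD : ∀ l, D l ∈ LD v (insert t (Ω : Set L)))
    (hd : ∀ l l', D l (ζ l') = if l = l' then 1 else 0) (F : IntermediateField ℂ L) (ht : t ∈ F)
    (hζ : ∀ l, ζ l ∈ F)
    (halg : ∀ a ∈ F, IsAlgebraic (Algebra.adjoin ℂ (insert t (Set.range ζ))) a)
    {ι : Type} [Fintype ι] (ε : ι → L) (hε : ∀ i, ε i ∈ F) (hε1 : ∀ i, v (ε i) ≤ 1)
    (hind : ∀ γ : ι → ℂ, γ ≠ 0 → v (∑ i, algebraMap ℂ L (γ i) * ε i) = 1) (ω : ι → L)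
    (hω : ∀ i, ω i ∈ Ω) (hω0 : ω ≠ 0) : v (∑ i, ω i * ε i) = 1 := by
  classical
  have hc1 : ∀ c : ℂ, v (algebraMap ℂ L c) ≤ 1 := fun c => apx_const_le hΩ (Ω.algebraMap_mem c)
  have hDF : ∀ l, ∀ a ∈ F, D l a ∈ F := fun l a ha => by
    refine der_mem (D l) F (insert t (Set.range ζ)) ?_ ?_ ha (halg a ha)
    · rintro _ (rfl | ⟨i, rfl⟩)
      · exact ht
      · exact hζ i
    · rintro _ (rfl | ⟨i, rfl⟩)
      · rw [(hD l).2 _ (Set.mem_insert _ _)]; exact zero_mem F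
      · rw [hd]
        split_ifs
        · exact one_mem F
        · exact zero_mem F
  have key : ∀ {ρ : Type} [Fintype ρ] (b : ρ → L), (∀ j, b j ∈ Ω) → LinearIndependent ℂ b →
      ∀ (n : ℕ) (η : ρ → L), (Finset.univ.filter fun j => v (η j) = 1).card ≤ n →
      (∀ j, η j ∈ F) → (∀ j, v (η j) ≤ 1) → v (∑ j, b j * η j) < 1 → ∀ j, v (η j) < 1 := by
    intro ρ _ b hb hli n
    induction n with
    | zero =>
      intro η hn _ hη1 _ j
      refine (hη1 j).lt_of_ne fun h => ?_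
      rw [Nat.le_zero, Finset.card_eq_zero, Finset.filter_eq_empty_iff] at hn
      exact hn (Finset.mem_univ j) h
    | succ n ih =>
      intro η hn hηF hη1 hs j0
      refine (hη1 j0).lt_of_ne fun hj0 => ?_
      have hne : η j0 ≠ 0 := fun h => by rw [h, map_zero] at hj0; exact zero_ne_one hj0
      have hv : ∀ j, v (η j / η j0) = v (η j) := fun j => by rw [map_div₀, hj0, div_one]
      have hs' : v (∑ j, b j * (η j / η j0)) < 1 := by
        simp only [← mul_div_assoc, ← Finset.sum_div]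
        rwa [map_div₀, hj0, div_one]
      have hF' : ∀ j, η j / η j0 ∈ F := fun j => div_mem (hηF j) (hηF j0)
      have hle : ∀ l j, v (D l (η j / η j0)) ≤ v (η j) := fun l j => ((hD l).1 _).trans (hv j).le
      have hk : ∀ l j, v (D l (η j / η j0)) < 1 := fun l => by
        refine ih (fun j => D l (η j / η j0)) ?_ (fun j => hDF l _ (hF' j))
          (fun j => (hle l j).trans (hη1 j)) ?_
        · refine Nat.le_of_lt_succ (lt_of_lt_of_le (Finset.card_lt_card ⟨fun j hj => ?_,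
            fun h => ?_⟩) hn)
          · rw [Finset.mem_filter] at hj ⊢
            exact ⟨hj.1, (hη1 j).antisymm (hj.2.ge.trans (hle l j))⟩
          · have h2 := (Finset.mem_filter.1 (h (Finset.mem_filter.2
              ⟨Finset.mem_univ j0, hj0⟩))).2
            rw [div_self hne, Derivation.map_one_eq_zero, map_zero] at h2
            exact zero_ne_one h2
        · have h2 : ∑ j, b j * D l (η j / η j0) = D l (∑ j, b j * (η j / η j0)) := by
            rw [map_sum]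
            refine Finset.sum_congr rfl fun j _ => ?_
            rw [Derivation.leibniz, (hD l).2 (b j) (Set.mem_insert_of_mem _ (hb j)), smul_zero,
              add_zero, smul_eq_mul]
          rw [h2]
          exact ((hD l).1 _).trans_lt hs'
      choose c hc using fun j => exists_const hr h0 h1 D (fun l => (hD l).1) hd
        ((hv j).le.trans (hη1 j)) (halg _ (hF' j)) fun l => hk l j
      have h3 : v (∑ j, c j • b j) < 1 := by
        have h4 : ∑ j, c j • b j = ∑ j, b j * (η j / η j0) -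
            ∑ j, b j * (η j / η j0 - algebraMap ℂ L (c j)) := by
          rw [← Finset.sum_sub_distrib]
          refine Finset.sum_congr rfl fun j _ => ?_
          rw [Algebra.smul_def]; ring
        rw [h4]
        refine v.map_sub_lt hs' (v.map_sum_lt one_ne_zero fun j _ => ?_)
        rw [map_mul]
        exact (mul_le_of_le_one_left' (apx_const_le hΩ (hb j))).trans_lt (hc j)
      have h5 : ∑ j, c j • b j = 0 := by
        by_contra h
        exact h3.ne (hΩ _ (sum_mem fun j _ => Ω.smul_mem (hb j)) h)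
      have h6 := hc j0
      rw [Fintype.linearIndependent_iff.1 hli c h5 j0, map_zero, sub_zero, div_self hne,
        map_one] at h6
      exact h6.ne rfl
  let V : Submodule ℂ L := Submodule.span ℂ (Set.range ω)
  have : FiniteDimensional ℂ V := FiniteDimensional.span_of_finite ℂ (Set.finite_range ω)
  let B := Module.finBasis ℂ V
  have hV : V ≤ Ω.toSubalgebra.toSubmodule :=
    Submodule.span_le.2 (by rintro _ ⟨i, rfl⟩; exact hω i)
  let w : ι → V := fun i => ⟨ω i, Submodule.subset_span ⟨i, rfl⟩⟩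
  have hw : ∀ i, ω i = ∑ j, B.repr (w i) j • (B j : L) := fun i => by
    have h2 := congrArg Subtype.val (B.sum_repr (w i))
    rw [Submodule.coe_sum] at h2
    exact h2.symm
  have hle : v (∑ i, ω i * ε i) ≤ 1 := v.map_sum_le fun i _ => by
    rw [map_mul]; exact mul_le_one' (apx_const_le hΩ (hω i)) (hε1 i)
  refine hle.antisymm (not_lt.1 fun hlt => hω0 (funext fun i => ?_))
  have h2 : ∑ i, ω i * ε i = ∑ j, (B j : L) * ∑ i, algebraMap ℂ L (B.repr (w i) j) * ε i := by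
    simp only [Finset.mul_sum]
    rw [Finset.sum_comm]
    refine Finset.sum_congr rfl fun i _ => ?_
    rw [hw i, Finset.sum_mul]
    refine Finset.sum_congr rfl fun j _ => ?_
    rw [Algebra.smul_def]; ring
  rw [h2] at hlt
  have h3 := key (fun j => (B j : L)) (fun j => hV (B j).2)
    (B.linearIndependent.map' V.subtype V.ker_subtype) _ _ le_rfl
    (fun j => sum_mem fun i _ => mul_mem (F.algebraMap_mem _) (hε i))
    (fun j => v.map_sum_le fun i _ => by
      rw [map_mul]; exact mul_le_one' (hc1 _) (hε1 i)) hlt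
  rw [hw i]
  refine Finset.sum_eq_zero fun j _ => ?_
  have h4 : (fun i => B.repr (w i) j) = 0 := by
    by_contra h
    exact (h3 j).ne (hind _ h)
  rw [congrFun h4 i, Pi.zero_apply, zero_smul]

private theorem apx_card (F K : Type) [Field F] [Field K] [Algebra F K] [Algebra.IsAlgebraic F K] :
    Cardinal.mk K ≤ max (Cardinal.mk F) Cardinal.aleph0 :=
  Algebra.IsAlgebraic.cardinalMk_le_max F K

open Cardinal in
private theorem apx_iso {K K' A : Type} [Field K] [IsAlgClosed K] [Field K'] [IsAlgClosed K']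
    (hC : ℵ₀ < #K) (he : #K = #K') [Field A] [Countable A] [Algebra A K] [Algebra A K'] :
    ∃ σ : K ≃+* K', ∀ x : A, σ (algebraMap A K x) = algebraMap A K' x := by
  obtain ⟨s, hs⟩ := exists_isTranscendenceBasis A K
  obtain ⟨s', hs'⟩ := exists_isTranscendenceBasis A K'
  have h1 := IsAlgClosed.cardinal_eq_cardinal_transcendence_basis_of_aleph0_lt' _ hs
    Cardinal.mk_le_aleph0 hC
  have h2 := IsAlgClosed.cardinal_eq_cardinal_transcendence_basis_of_aleph0_lt' _ hs'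
    Cardinal.mk_le_aleph0 (he ▸ hC)
  obtain ⟨f⟩ := Cardinal.eq.1 (h1.symm.trans (he.trans h2))
  have := IsAlgClosed.isAlgClosure_of_transcendence_basis _ hs
  have := IsAlgClosed.isAlgClosure_of_transcendence_basis _ hs'
  let g := hs.1.aevalEquiv.symm.trans ((MvPolynomial.renameEquiv A f).trans hs'.1.aevalEquiv)
  refine ⟨IsAlgClosure.equivOfEquiv K K' g.toRingEquiv, fun x => ?_⟩
  have h3 := IsAlgClosure.equivOfEquiv_algebraMap K K' g.toRingEquiv (algebraMap A _ x)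
  rw [← IsScalarTower.algebraMap_apply] at h3
  rw [h3]
  exact (congrArg _ (g.commutes x)).trans (IsScalarTower.algebraMap_apply _ _ _ x).symm

/-- `Om u` is algebraically closed of cardinality continuum; adapt `exists_aut_aux` of
`Pool.Agent.MP_95b452_co.Field` to two fields, over the subring generated by `C0`. -/
theorem exists_iso [IsAlgClosed L] {κ : Type} [Fintype κ] (u : κ → L) (C0 : Finset ℂ) :
    ∃ φ : ℂ →+* L, (∀ c ∈ C0, φ c = algebraMap ℂ L c) ∧ Set.range φ = (Om u : Set L) := by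
  let F := IntermediateField.adjoin ℂ (Set.range u)
  have : IsAlgClosed (Om u) := IsAlgClosure.isAlgClosed (R := F) (K := algebraicClosure F L)
  have hcard : Cardinal.mk ℂ = Cardinal.mk (Om u) := by
    refine le_antisymm (Cardinal.mk_le_of_injective (algebraMap ℂ (Om u)).injective) ?_
    have h1 : Cardinal.mk (Om u) ≤ max (Cardinal.mk F) Cardinal.aleph0 :=
      apx_card F (algebraicClosure F L)
    have h2 := IntermediateField.cardinalMk_adjoin_le ℂ (Set.range u)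
    have h3 : Cardinal.mk (Set.range u) ≤ Cardinal.mk ℂ :=
      (Set.finite_range u).lt_aleph0.le.trans (Cardinal.aleph0_le_mk ℂ)
    exact h1.trans (max_le (h2.trans (sup_le (sup_le le_rfl h3) (Cardinal.aleph0_le_mk ℂ)))
      (Cardinal.aleph0_le_mk ℂ))
  let A := Subfield.closure (C0 : Set ℂ)
  have : Countable A := by
    rw [← Cardinal.mk_le_aleph0_iff]
    exact (Subfield.cardinalMk_closure_le_max _).trans
      (max_le C0.finite_toSet.lt_aleph0.le le_rfl)
  let _ : Algebra A (Om u) := ((algebraMap ℂ (Om u)).comp A.subtype).toAlgebra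
  obtain ⟨σ, hσ⟩ := apx_iso (K := ℂ) (K' := Om u) (A := A)
    (by rw [Cardinal.mk_complex]; exact Cardinal.aleph0_lt_continuum) hcard
  refine ⟨(Om u).val.toRingHom.comp σ.toRingHom, fun c hc => ?_, ?_⟩
  · exact congrArg Subtype.val (hσ ⟨c, Subfield.subset_closure hc⟩)
  · ext x
    constructor
    · rintro ⟨c, rfl⟩
      exact (σ c).2
    · intro hx
      exact ⟨σ.symm ⟨x, hx⟩, congrArg Subtype.val (σ.apply_symm_apply _)⟩

end Pool.Agent.MP_c0606f_ag.Klt

end

-- part MP_c0606f_ag.Klt.Red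
section

/-! Reduction of points over a valued field to valuations on the product of the cone with a line,
by a change of the field of constants. -/

namespace Pool.Agent.MP_c0606f_ag.Klt

open MvPolynomial
open scoped NNReal

section General

variable {R : Type} [Field R] [Algebra ℂ R]

/-- the largest Jacobian of `Y` along the derivations in `M` -/
noncomputable def pvol (v : Val R) (M : Set (Derivation ℂ R R)) {ι : Type} [Fintype ι]
    [DecidableEq ι] (Y : ι → R) : ℝ≥0 :=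
  lvol v M (fun i => evD (Y i)) Finset.univ

/-- a derivation killing the new constants -/
noncomputable def Tw.der (φ : ℂ →+* R) (D : Derivation ℂ R R) (h : ∀ c, D (φ c) = 0) :
    Derivation ℂ (Tw φ) (Tw φ) where
  toFun a := Tw.mk φ (D ((Tw.mk φ).symm a))
  map_add' a b := by simp only [map_add]
  map_smul' c a := by
    rw [RingHom.id_apply, Algebra.smul_def, Algebra.smul_def, Tw.algebraMap_eq, map_mul,
      RingEquiv.symm_apply_apply, D.leibniz, h, smul_zero, add_zero, smul_eq_mul, map_mul]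
  map_one_eq_zero' := by
    change Tw.mk φ (D ((Tw.mk φ).symm 1)) = 0
    rw [map_one, D.map_one_eq_zero, map_zero]
  leibniz' a b := by
    change Tw.mk φ (D ((Tw.mk φ).symm (a * b))) =
      a * Tw.mk φ (D ((Tw.mk φ).symm b)) + b * Tw.mk φ (D ((Tw.mk φ).symm a))
    rw [map_mul, D.leibniz, smul_eq_mul, smul_eq_mul, map_add, map_mul, map_mul,
      RingEquiv.apply_symm_apply, RingEquiv.apply_symm_apply]

theorem Tw.der_mk (φ : ℂ →+* R) (D : Derivation ℂ R R) (h : ∀ c, D (φ c) = 0) (a : R) :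
    Tw.der φ D h (Tw.mk φ a) = Tw.mk φ (D a) := rfl

/-- new constants adapted to the subfield `k` with uniformiser `t` -/
structure TwData (v : Val R) (k : IntermediateField ℂ R) (t : R) (φ : ℂ →+* R) : Prop where
  mem : t ∈ k
  unif : IsUnifOn v k t
  abh : IsAbh (Tw.val φ v)
  gen : ∃ (q : ℕ) (u : Fin q → R), (∀ i, u i ∈ k) ∧ ResInd v u ∧ Set.range φ = (Om u : Set R)
  apx : ∀ a ∈ k, v a ≤ 1 → ∀ j : ℕ, ∃ p : Polynomial ℂ, v (a - p.eval₂ φ t) ≤ v t ^ j

variable {v : Val R} {k : IntermediateField ℂ R} {t : R} {φ : ℂ →+* R}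

theorem TwData.unit (h : TwData v k t φ) (c : ℂ) (hc : c ≠ 0) : v (φ c) = 1 := by
  obtain ⟨q, u, -, hr, hφ⟩ := h.gen
  have hm : φ c ∈ (Om u : Set R) := hφ ▸ Set.mem_range_self c
  exact hr.val_Om hm ((map_ne_zero φ).2 hc)

theorem TwData.kill (h : TwData v k t φ) (D : Derivation ℂ R R) (hD : ∀ a ∈ k, D a = 0) (c : ℂ) :
    D (φ c) = 0 := by
  obtain ⟨q, u, hu, -, hφ⟩ := h.gen
  have hm : φ c ∈ (Om u : Set R) := hφ ▸ Set.mem_range_self c
  exact der_kill_Om D u (fun i => hD _ (hu i)) hm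

theorem TwData.kill_poly (h : TwData v k t φ) (D : Derivation ℂ R R) (hD : ∀ a ∈ k, D a = 0)
    (p : Polynomial ℂ) : D (p.eval₂ φ t) = 0 := by
  induction p using Polynomial.induction_on with
  | C c => rw [Polynomial.eval₂_C]; exact h.kill D hD c
  | add p q hp hq => rw [Polynomial.eval₂_add, map_add, hp, hq, add_zero]
  | monomial n c ih =>
    rw [pow_succ, ← mul_assoc, Polynomial.eval₂_mul_X, D.leibniz, ih, hD t h.mem, smul_zero,
      smul_zero, add_zero]

theorem TwData.val_poly (h : TwData v k t φ) (p : Polynomial ℂ) :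
    v (p.eval₂ φ t) ≤ 1 ∧ (v (p.eval₂ φ t) = 1 ↔ p.coeff 0 ≠ 0) := by
  have hφ : ∀ c, v (φ c) ≤ 1 := fun c => by
    rcases eq_or_ne c 0 with rfl | hc
    · rw [map_zero, map_zero]; exact zero_le_one
    · exact (h.unit c hc).le
  have h1 : ∀ q : Polynomial ℂ, v (q.eval₂ φ t) ≤ 1 := lat_eval₂_le φ hφ h.unif.2.1.le
  have h2 : p.eval₂ φ t = φ (p.coeff 0) + p.divX.eval₂ φ t * t := by
    conv_lhs => rw [← Polynomial.divX_mul_X_add p]
    rw [Polynomial.eval₂_add, Polynomial.eval₂_mul_X, Polynomial.eval₂_C, add_comm]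
  have h3 : v (p.divX.eval₂ φ t * t) < 1 := by
    rw [map_mul, mul_comm]
    exact mul_lt_one_of_lt_of_le h.unif.2.1 (h1 _)
  refine ⟨h1 p, fun h4 h5 => ?_, fun h4 => ?_⟩
  · rw [h2, h5, map_zero, zero_add] at h4
    exact h3.ne h4
  · rw [h2, v.map_add_eq_of_lt_left (h3.trans_eq (h.unit _ h4).symm), h.unit _ h4]

/-- `exists_frame_sub` (with the empty family), `exists_iso`, `IsFrame.tw`, `apx_of_alg`; a
polynomial with coefficients in the range of `φ` lifts (`Polynomial.lifts`) -/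
theorem exists_tw [IsAlgClosed R] (hv : IsAbh v) (ht : t ∈ k) (hu : IsUnifOn v k t)
    (C0 : Finset ℂ) : ∃ φ : ℂ →+* R, TwData v k t φ ∧ ∀ c ∈ C0, φ c = algebraMap ℂ R c := by
  have hr : ResInd v (Fin.elim0 : Fin 0 → R) := by
    intro p hp
    obtain ⟨c, rfl⟩ := C_surjective (Fin 0) p
    rw [aeval_C]
    exact hv.triv c fun h => hp (by rw [h, map_zero])
  obtain ⟨q, q', u1, u2, hk1, hf, halg⟩ :=
    hv.exists_frame_sub k ht hu Fin.elim0 (fun i => i.elim0) hr
  rw [Set.Sum.elim_range, Set.range_eq_empty, Set.empty_union] at halg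
  have hf' : IsFrame v t (Sum.elim u1 u2) := by
    have h1 := hf.reindex ((Equiv.emptySum (Fin 0) (Fin q)).symm.sumCongr (Equiv.refl (Fin q')))
    have h2 : Sum.elim (Sum.elim Fin.elim0 u1) u2 ∘
        ((Equiv.emptySum (Fin 0) (Fin q)).symm.sumCongr (Equiv.refl (Fin q'))) =
        Sum.elim u1 u2 := by
      funext i
      rcases i with i | i <;> rfl
    rwa [h2] at h1
  have hr1 : ResInd v u1 := hf'.res.comp Sum.inl Sum.inl_injective
  obtain ⟨φ, hC, hφ⟩ := exists_iso u1 C0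
  refine ⟨φ, ⟨ht, hu, (hf'.tw φ hφ).isAbh, ⟨q, u1, hk1, hr1, hφ⟩, fun a ha h1 j => ?_⟩, hC⟩
  obtain ⟨P, hP, hv⟩ := apx_of_alg k ht hu u1 hk1 hr1 halg ha h1 j
  rw [← hφ] at hP
  obtain ⟨p, rfl⟩ := (Polynomial.mem_lifts P).1 ((Polynomial.lifts_iff_coeff_lifts P).2 hP)
  exact ⟨p, by rwa [Polynomial.eval_map] at hv⟩

theorem red_evol_tw (h : TwData v k t φ) {ι : Type} [Fintype ι] [DecidableEq ι] (Y : ι → R) :
    evol v k Y ≤ evol (Tw.val φ v) {Tw.mk φ t} fun i => Tw.mk φ (Y i) := by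
  refine lat_evol_le v k Y fun E hE => ?_
  refine le_trans (le_of_eq ?_) (lat_le_evol _ _ _
    (fun i => Tw.der φ (E i) (h.kill _ (hE i).2)) fun i => ⟨fun a => ?_, fun a ha => ?_⟩)
  · rw [← Tw.val_mk φ v, RingEquiv.map_det]
    rfl
  · obtain ⟨a, rfl⟩ := (Tw.mk φ).surjective a
    exact (hE i).1 a
  · rw [Set.mem_singleton_iff.1 ha, Tw.der_mk, (hE i).2 t h.mem, map_zero]

theorem red_indep (hv : IsAbh v) (h0 : 0 < v t) (h1 : v t < 1) {ι : Type} [Fintype ι]
    [DecidableEq ι] {Y : ι → R} (hY : 0 < evol v {t} Y) :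
    AlgebraicIndependent ℂ fun o : Option ι => o.elim t Y := by
  classical
  obtain ⟨q, t0, u, hf⟩ := hv
  obtain ⟨D0, D, hd, -⟩ := (hf.change h0 h1).exists_dual
  obtain ⟨E, hE, hne⟩ : ∃ E : ι → Derivation ℂ R R, (∀ i, E i ∈ LD v {t}) ∧
      (Matrix.of fun i j => E i (Y j)).det ≠ 0 := by
    by_contra hc
    refine hY.not_ge (lat_evol_le v _ Y fun E hE => ?_)
    rw [not_not.1 fun h => hc ⟨E, hE, h⟩, map_zero]
  refine algInd_of_det (fun o : Option ι => o.elim D0 E) _ ?_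
  rw [ent_det_option _ fun i => (hE i).2 t rfl]
  refine mul_ne_zero ?_ hne
  change D0 t ≠ 0
  rw [hd.tt]
  exact v.pos_iff.1 h0

theorem red_le_evol {M : Set (Derivation ℂ R R)} {G : Set R} (hM : ∀ D ∈ M, ∀ a, v (D a) ≤ v a)
    (hG : ∀ D ∈ M, ∀ a ∈ G, D a = 0) {ι : Type} [Fintype ι] [DecidableEq ι] (Y : ι → R) :
    pvol v M Y ≤ evol v (IntermediateField.adjoin ℂ G) Y :=
  lvol_mono (bdd_LD v _ Y) (fun D hD => ⟨hM D hD, fun _ ha => der_kill_adjoin D G (hG D hD) ha⟩) _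

theorem red_triv (hv : IsAbh v) (c : ℂ) : v (algebraMap ℂ R c) ≤ 1 := lat_const_le hv.triv c

end General

namespace Model

variable {ι L : Type} [Fintype ι] [DecidableEq ι] [Field L] [Algebra ℂ L] (Mo : Model ι L)
  {R : Type} [Field R] [Algebra ℂ R]

/-- points with values in `R` -/
def Pnt (Y : ι → R) (Z : R) : Prop := Mo.toCover.IsPt (algebraMap ℂ R) Y Z

/-- values at a point -/
noncomputable def vl (Y : ι → R) (Z : R) (a : L) : R := Mo.toCover.ev (algebraMap ℂ R) Y Z a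

/-- the constants `φ` give the same points and the same values of the elements of `T` -/
def Agree (φ : ℂ →+* R) (T : Finset L) : Prop := ∀ (Y : ι → R) (Z : R),
  (Mo.toCover.IsPt φ Y Z ↔ Mo.Pnt Y Z) ∧
    (Mo.Pnt Y Z → ∀ a ∈ T, Mo.toCover.ev φ Y Z a = Mo.vl Y Z a)

theorem pnt_hom (x : L →ₐ[ℂ] R) : Mo.Pnt (fun i => x (Mo.y i)) (x Mo.z) ∧
    ∀ a ∈ Mo.toCover.A, Mo.vl (fun i => x (Mo.y i)) (x Mo.z) a = x a := by
  exact ⟨Mo.toCover.isPt_hom x.toRingHom x.commutes,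
    fun _ ha => Mo.toCover.ev_hom x.toRingHom x.commutes ha⟩

variable {v : Val R} {k : IntermediateField ℂ R} {t : R} {φ : ℂ →+* R}

theorem exists_tw_agree [IsAlgClosed R] (hv : IsAbh v) (ht : t ∈ k) (hu : IsUnifOn v k t)
    (T : Finset L) : ∃ φ : ℂ →+* R, TwData v k t φ ∧ Mo.Agree φ T := by
  obtain ⟨C0, hC⟩ := Mo.toCover.exists_consts T
  obtain ⟨φ, h, hφ⟩ := exists_tw hv ht hu C0
  refine ⟨φ, h, fun Y Z => ⟨⟨fun hp => (hC R φ _ hφ Y Z hp).1,
    fun hp => (hC R _ φ (fun c hc => (hφ c hc).symm) Y Z hp).1⟩, fun hp a ha => ?_⟩⟩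
  exact ((hC R _ φ (fun c hc => (hφ c hc).symm) Y Z hp).2 a ha).symm

/-- `j` realises the point `(Y, Z)` with constants `φ` and parameter `t` -/
structure Rz (φ : ℂ →+* R) (t : R) (Y : ι → R) (Z : R) (j : RatFunc L →+* R) : Prop where
  const : ∀ c, j (algebraMap ℂ (RatFunc L) c) = φ c
  X : j RatFunc.X = t
  y : ∀ i, j (RatFunc.C (Mo.y i)) = Y i
  z : j (RatFunc.C Mo.z) = Z

variable {Mo}

/-- `isPt_hom`, `ev_hom` for `j ∘ C` -/
theorem Rz.val {Y : ι → R} {Z : R} {j : RatFunc L →+* R} (h : Mo.Rz φ t Y Z j) {T : Finset L}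
    (hT : Mo.Agree φ T) : Mo.Pnt Y Z ∧
      ∀ a ∈ T, a ∈ Mo.toCover.A → j (RatFunc.C a) = Mo.vl Y Z a := by
  have hj : ∀ c, (j.comp RatFunc.C) (algebraMap ℂ L c) = φ c := h.const
  have hY : (fun i => (j.comp RatFunc.C) (Mo.y i)) = Y := funext h.y
  have hZ : (j.comp RatFunc.C) Mo.z = Z := h.z
  have h1 := Mo.toCover.isPt_hom _ hj
  rw [hY, hZ] at h1
  have hp := (hT Y Z).1.1 h1
  refine ⟨hp, fun a ha hA => ?_⟩
  have h2 := Mo.toCover.ev_hom _ hj hA
  rw [hY, hZ, (hT Y Z).2 hp a ha] at h2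
  exact h2.symm

theorem Rz.poly {Y : ι → R} {Z : R} {j : RatFunc L →+* R} (h : Mo.Rz φ t Y Z j)
    (p : Polynomial ℂ) : j (Polynomial.aeval RatFunc.X p) = p.eval₂ φ t := by
  have hc : j.comp (algebraMap ℂ (RatFunc L)) = φ := RingHom.ext h.const
  rw [Polynomial.aeval_def, Polynomial.hom_eval₂, h.X, hc]

theorem Rz.psec {Y : ι → R} {Z : R} {j : RatFunc L →+* R} (h : Mo.Rz φ t Y Z j) {T : Finset L}
    (hT : Mo.Agree φ T) {ρ : Type} [Fintype ρ] {σ : ρ → L} (hσ : ∀ i, σ i ∈ T)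
    (hA : ∀ i, σ i ∈ Mo.toCover.A) (c : ρ → Polynomial ℂ) :
    j (psec σ c) = ∑ i, (c i).eval₂ φ t * Mo.vl Y Z (σ i) := by
  rw [Klt.psec, map_sum]
  refine Finset.sum_congr rfl fun i _ => ?_
  rw [map_mul, h.poly, (h.val hT).2 _ (hσ i) (hA i)]

/-- Realisation.  Some determinant `det (D i (Y l))` with `D i ∈ LD v k` is nonzero.  In `Tw φ`
take a frame `(t, u)` (`IsAbh.exists_frame`) with dual derivation `D0 t = t`; `algInd_of_det` for
`D0` and the `Tw.der φ (D i)` shows that `(t, Y)` is independent over the new constants; apply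
`exists_hom` to `Mo.toCover.ext`.  Regard `j` as an algebra homomorphism to `Tw φ`;
`IsAbh.comap` (`fg_top`), `IsFrame.change` to the frame `(X, u')`, `evol_comap_le`. -/
theorem exists_rz (h : TwData v k t φ) {T : Finset L} (hT : Mo.Agree φ T) {Y : ι → R} {Z : R}
    (hp : Mo.Pnt Y Z) (hY : ∀ i, v (Y i) ≤ 1) (h0 : 0 < evol v k Y) :
    ∃ j : RatFunc L →+* R, Mo.Rz φ t Y Z j ∧ Mo.Good (v.comap j) ∧
      evol v k Y ≤ Mo.ex (v.comap j) := by
  have he := red_evol_tw h Y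
  have hi := red_indep (t := Tw.mk φ t) h.abh h.unif.1 h.unif.2.1 (h0.trans_le he)
  have hy : ∀ p : MvPolynomial (Option ι) ℂ, p ≠ 0 →
      eval₂Hom φ (fun o : Option ι => o.elim t Y) p ≠ 0 := fun p hp h1 => by
    exact hp (algebraicIndependent_iff.1 hi p h1)
  obtain ⟨j, hc, hjy, hjz⟩ := Mo.toCover.ext.exists_hom
    (Mo.toCover.ext_isPt.2 ⟨v.pos_iff.1 h.unif.1, (hT Y Z).1.2 hp⟩).1 hy
  have hz : Mo.Rz φ t Y Z j := ⟨hc, hjy none, fun i => hjy (some i), hjz⟩
  let j' : RatFunc L →ₐ[ℂ] Tw φ :=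
    { (Tw.mk φ).toRingHom.comp j with commutes' := fun c => congrArg (Tw.mk φ) (hc c) }
  have hj' : ∀ a, j' a = Tw.mk φ (j a) := fun _ => rfl
  have hw : (Tw.val φ v).comap j'.toRingHom = v.comap j := Valuation.ext fun _ => rfl
  have hX : v (j RatFunc.X) = v t := by rw [hz.X]
  obtain ⟨q, t', u, hf, -⟩ := h.abh.comap j' Mo.toCover.ext.fg_top (τ := RatFunc.X)
    (h.unif.1.trans_eq hX.symm) (hX.trans_lt h.unif.2.1)
  have hf' := hf.change (t' := RatFunc.X) (h.unif.1.trans_eq hX.symm) (hX.trans_lt h.unif.2.1)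
  have hl := evol_comap_le j' _ hf' fun i => RatFunc.C (Mo.y i)
  simp only [hj', hz.X, hz.y] at hl
  rw [hw] at hf' hl
  refine ⟨j, hz, ⟨hf'.isAbh, fun i => ?_, hX.trans_lt h.unif.2.1⟩, he.trans hl⟩
  change v (j _) ≤ 1
  rw [hz.y]
  exact hY i

variable (Mo)

/-- values of integral elements at points -/
theorem vl_le_one (htriv : ∀ c : ℂ, v (algebraMap ℂ R c) ≤ 1) {Y : ι → R} {Z : R}
    (hp : Mo.Pnt Y Z) (hY : ∀ i, v (Y i) ≤ 1) {a : L} (ha : a ∈ Mo.toCover.A)
    (hi : IsIntegral (Algebra.adjoin ℂ (Set.range Mo.y)) a) : v (Mo.vl Y Z a) ≤ 1 := by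
  have hle : Algebra.adjoin ℂ (Set.range Mo.y) ≤ Mo.toCover.A :=
    Algebra.adjoin_le (Set.range_subset_iff.2 Mo.toCover.y_mem)
  let f := (Subalgebra.inclusion hle).toRingHom
  have hm : ∀ b, ((Mo.toCover.evHom hp).comp f) b ∈ v.integer := by
    rintro ⟨b, hb⟩
    change v (Mo.toCover.ev (algebraMap ℂ R) Y Z b) ≤ 1
    induction hb using Algebra.adjoin_induction with
    | mem s hs =>
      obtain ⟨i, rfl⟩ := hs
      rw [Mo.toCover.ev_y hp]; exact hY i
    | algebraMap c => rw [Mo.toCover.ev_algebraMap hp]; exact htriv c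
    | add a b ha hb h1 h2 =>
      rw [Mo.toCover.ev_add hp (hle ha) (hle hb)]; exact v.map_add_le h1 h2
    | mul a b ha hb h1 h2 =>
      rw [Mo.toCover.ev_mul hp (hle ha) (hle hb), map_mul]; exact mul_le_one' h1 h2
  obtain ⟨p, hm1, hp0⟩ := hi
  have h1 : p.eval₂ f ⟨a, ha⟩ = 0 := Subtype.ext
    ((Polynomial.hom_eval₂ p f Mo.toCover.A.val.toRingHom ⟨a, ha⟩).trans hp0)
  have h2 := Polynomial.hom_eval₂ p f (Mo.toCover.evHom hp) ⟨a, ha⟩
  rw [h1, map_zero] at h2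
  refine (Valuation.integer.integers v).mem_of_integral
    ⟨p.map (RingHom.codRestrict _ v.integer hm), hm1.map _, ?_⟩
  rw [Polynomial.eval₂_map]
  exact h2.symm

theorem red_val_le (hv : IsAbh v) (x : L →ₐ[ℂ] R) (hY : ∀ i, v (x (Mo.y i)) ≤ 1) {a : L}
    (ha : a ∈ Mo.toCover.A) (hi : IsIntegral (Algebra.adjoin ℂ (Set.range Mo.y)) a) :
    v (x a) ≤ 1 := by
  rw [← (Mo.pnt_hom x).2 a ha]
  exact Mo.vl_le_one (red_triv hv) (Mo.pnt_hom x).1 hY ha hi

theorem red_rz [IsAlgClosed R] (hv : IsAbh v) {τ : R} (h1 : 0 < v τ) (h2 : v τ < 1) {G : Set R}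
    (hG : G.Finite) (hτ : τ ∈ G) (x : L →ₐ[ℂ] R) (hY : ∀ i, v (x (Mo.y i)) ≤ 1) (T : Finset L)
    (h0 : 0 < evol v (IntermediateField.adjoin ℂ G) fun i => x (Mo.y i)) :
    ∃ (t : R) (φ : ℂ →+* R) (j : RatFunc L →+* R),
      TwData v (IntermediateField.adjoin ℂ G) t φ ∧ Mo.Agree φ T ∧
      Mo.Rz φ t (fun i => x (Mo.y i)) (x Mo.z) j ∧ Mo.Good (v.comap j) ∧
      evol v (IntermediateField.adjoin ℂ G) (fun i => x (Mo.y i)) ≤ Mo.ex (v.comap j) := by
  obtain ⟨t, ht, hu⟩ := hv.exists_unifOn _ (IntermediateField.fg_adjoin_of_finite hG)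
    (IntermediateField.subset_adjoin ℂ G hτ) h1 h2
  obtain ⟨φ, h, hT⟩ := Mo.exists_tw_agree hv ht hu T
  obtain ⟨j, hj⟩ := exists_rz h hT (Mo.pnt_hom x).1 hY h0
  exact ⟨t, φ, j, h, hT, hj⟩

/-- Let `k` be generated by `τ` and the `g i`; `M ⊆ LD v k` (`der_kill_adjoin`), so
`pvol ≤ evol v k`; `exists_unifOn`, `exists_tw_agree`, `exists_rz`; approximate the `g i` by
polynomials up to `v t ^ j` with `j ≥ 1` and `v t ^ j` smaller than the left hand side; `lm`. -/
theorem pl_lm : ∃ C1 : ℕ, ∀ (m : ℕ) (ρ : Type) [Fintype ρ] (σ : ρ → L), (∀ i, σ i ∈ Mo.V m) →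
    LinearIndependent ℂ σ → ∀ (R : Type) [Field R] [Algebra ℂ R] [IsAlgClosed R] (v : Val R)
      (τ : R) (M : Set (Derivation ℂ R R)) (x : L →ₐ[ℂ] R) (g : ρ → R), IsAbh v → 0 < v τ →
      v τ < 1 → M ⊆ LD v {τ} → (∀ i, v (x (Mo.y i)) ≤ 1) → (∀ i, ∀ D ∈ M, D (g i) = 0) →
      (∀ i, v (g i) ≤ 1) → (∃ i, v (g i) = 1) →
      pvol v M (fun i => x (Mo.y i)) ^ (C1 * (m + 1)) ≤ v (∑ i, g i * x (σ i)) := by
  classical
  obtain ⟨C1, hC⟩ := Mo.lm
  refine ⟨C1 + 1, fun m ρ _ σ hσ hl R _ _ _ v τ M x g hv h1 h2 hM hY hg hg1 ⟨i0, hi0⟩ => ?_⟩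
  have hle := red_le_evol (v := v) (M := M) (G := insert τ (Set.range g)) (fun D hD => (hM hD).1)
    (fun D hD a ha => by
      rcases ha with rfl | ⟨i, rfl⟩
      · exact (hM hD).2 _ rfl
      · exact hg i D hD) fun i => x (Mo.y i)
  refine (pow_le_pow_left' hle _).trans ?_
  have he1 := evol_le_one v (IntermediateField.adjoin ℂ (insert τ (Set.range g)))
    (fun i => x (Mo.y i)) hY
  rcases eq_zero_or_pos (evol v (IntermediateField.adjoin ℂ (insert τ (Set.range g)))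
    fun i => x (Mo.y i)) with h0 | h0
  · rw [h0, zero_pow (by positivity)]
    exact zero_le
  obtain ⟨t, φ, j, h, hT, hz, hw, hex⟩ := Mo.red_rz hv h1 h2 ((Set.finite_range g).insert τ)
    (Set.mem_insert _ _) x hY (Finset.univ.image σ) h0
  generalize evol v (IntermediateField.adjoin ℂ (insert τ (Set.range g)))
    (fun i => x (Mo.y i)) = e at he1 h0 hex ⊢
  refine (pow_le_pow_of_le_one zero_le he1
    (Nat.mul_le_mul_right (m + 1) (Nat.le_succ C1))).trans ?_
  obtain ⟨n, hn⟩ := exists_pow_lt_of_lt_one (pow_pos h0 (C1 * (m + 1))) h.unif.2.1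
  choose c hc using fun i => h.apx (g i)
    (IntermediateField.subset_adjoin ℂ _ (Set.mem_insert_of_mem _ ⟨i, rfl⟩)) (hg1 i) n
  have hc0 : (c i0).coeff 0 ≠ 0 := by
    rw [← (h.val_poly _).2, ← hi0]
    refine v.map_eq_of_sub_lt ?_
    rw [v.map_sub_swap, hi0]
    exact (hc i0).trans_lt (hn.trans_le (pow_le_one₀ zero_le he1))
  have h3 := (pow_le_pow_left' hex _).trans (hC m ρ σ hσ hl c ⟨i0, hc0⟩ _ hw)
  rw [Valuation.comap_apply, hz.psec hT (fun i => Finset.mem_image_of_mem _ (Finset.mem_univ i))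
    fun i => Mo.mem_A (hσ i)] at h3
  simp only [fun i => (Mo.pnt_hom x).2 _ (Mo.mem_A (hσ i))] at h3
  refine h3.trans (v.map_eq_of_sub_lt ?_).ge
  rw [← Finset.sum_sub_distrib]
  refine lt_of_le_of_lt (v.map_sum_le fun i _ => ?_) (hn.trans_le h3)
  rw [← sub_mul, map_mul]
  exact (mul_le_of_le_one_right' (Mo.red_val_le hv x hY (Mo.mem_A (hσ i))
    (Mo.int m _ (hσ i)))).trans (hc i)

/-- `core1'` with `F0 = h`, `F1 = 0` and `k` generated by `τ` -/
theorem pl_margin [IsAlgClosed R] {ε0 : ℚ} (h0 : 0 ≤ ε0) (hM : Mo.Hyp Mo.h ε0) (hv : IsAbh v)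
    {τ : R} (h1 : 0 < v τ) (h2 : v τ < 1) (x : L →ₐ[ℂ] R) (hx : Mo.Nrm v x.toRingHom) :
    pvol v (LD v {τ}) (fun i => x (Mo.y i)) ≤ v (x Mo.h) ^ (1 + (ε0 : ℝ)) := by
  have hY : ∀ i, v (x (Mo.y i)) ≤ 1 := hx.1
  refine (red_le_evol (G := {τ}) (fun D hD => hD.1) (fun D hD => hD.2) _).trans ?_
  rcases eq_zero_or_pos (evol v (IntermediateField.adjoin ℂ {τ}) fun i => x (Mo.y i)) with h3 | h3
  · rw [h3]
    exact zero_le
  obtain ⟨t, φ, j, h, hT, hz, hw, hex⟩ := Mo.red_rz hv h1 h2 (Set.finite_singleton τ) rfl x hY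
    {Mo.h} h3
  have hA := Mo.mem_A Mo.h_mem
  have h4 := Mo.core1' (F1 := 0) h0 hM Mo.h_ne hA (Mo.int _ _ Mo.h_mem) (zero_mem _)
    isIntegral_zero (by rw [mul_zero, add_zero]; exact (map_ne_zero _).2 Mo.h_ne) hw
    (hx.2.imp fun i hi => by rw [Valuation.comap_apply, hz.y]; exact hi)
  rw [mul_zero, add_zero, Valuation.comap_apply,
    (hz.val hT).2 _ (Finset.mem_singleton_self _) hA, (Mo.pnt_hom x).2 _ hA] at h4
  rw [add_comm, NNReal.rpow_add_one (v.ne_zero_iff.2 ((map_ne_zero x).2 Mo.h_ne))]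
  exact hex.trans h4

/-- a fixed nonzero regular function: `exists_mul_eq` and `plm_evol` with constant coefficients -/
theorem pl_fixed {a : L} (h0 : a ≠ 0) : ∃ C1 : ℕ, ∀ (R : Type) [Field R] [Algebra ℂ R] (v : Val R)
    (M : Set (Derivation ℂ R R)) (x : L →ₐ[ℂ] R), IsAbh v → M ⊆ LD v ∅ →
    (∀ i, v (x (Mo.y i)) ≤ 1) → pvol v M (fun i => x (Mo.y i)) ^ C1 ≤ v (x a) := by
  obtain ⟨q, b, hb, he⟩ := Mo.toCover.exists_mul_eq h0
  refine ⟨b.totalDegree, fun R _ _ v M x hv hM hY => ?_⟩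
  refine (pow_le_pow_left' (lvol_mono (bdd_LD v ∅ _) hM _) _).trans ?_
  obtain ⟨α, hα⟩ := MvPolynomial.ne_zero_iff.1 hb
  refine (plm_evol hv.triv ∅ _ hY (map (algebraMap ℂ R) b)
    (fun β D _ => by rw [coeff_map]; exact D.map_algebraMap _)
    (fun β => by rw [coeff_map]; exact red_triv hv _)
    ⟨α, by rw [coeff_map]; exact hv.triv _ hα⟩ (Finset.sup_mono (support_map_subset _ _))).trans ?_
  rw [eval_map, ← aeval_def, ← comp_aeval_apply, ← he, map_mul, map_mul]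
  refine mul_le_of_le_one_right' ?_
  have h1 := Mo.toCover.evHom_pv x.toRingHom x.commutes q
  refine le_trans (le_of_eq (congrArg v h1.symm)) (lat_eval₂_le _ (fun p => ?_)
    (Mo.red_val_le hv x hY Mo.toCover.z_mem Mo.toCover.z_integral) q)
  exact lat_aeval_le hv.triv _ hY p

end Model

end Pool.Agent.MP_c0606f_ag.Klt

end

-- part MP_c0606f_ag.Klt.Core2
section

/-! Demailly approximation in valuative form. -/

namespace Pool.Agent.MP_c0606f_ag.Klt

open MeasureTheory Filter Topology MvPolynomial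
open scoped NNReal ENNReal

/-- a submodule of a free module of finite rank over `ℂ[X]` is generated by as many elements
(`Submodule.basisOfPid`-like: `Module.Free.chooseBasis`, `Submodule.finrank_le`; pad with `0`) -/
theorem exists_gen {β : Type} [Fintype β] (W : Submodule (Polynomial ℂ) (β → Polynomial ℂ)) :
    ∃ c : β → β → Polynomial ℂ, (∀ j, c j ∈ W) ∧
      ∀ w ∈ W, ∃ a : β → Polynomial ℂ, w = ∑ j, a j • c j := by
  classical
  obtain ⟨n, bs⟩ := Submodule.basisOfPid (Pi.basisFun (Polynomial ℂ) β) W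
  have hn : Fintype.card (Fin n) ≤ Fintype.card β := by
    have := (bs.linearIndependent.map' W.subtype W.ker_subtype).fintype_card_le_finrank
    rwa [Module.finrank_fintype_fun_eq_card] at this
  obtain ⟨e⟩ := Function.Embedding.nonempty_of_card_le hn
  refine ⟨Function.extend e (fun k => (bs k : β → Polynomial ℂ)) 0, fun j => ?_, fun w hw =>
    ⟨Function.extend e (fun k => bs.repr ⟨w, hw⟩ k) 0, ?_⟩⟩
  · by_cases hj : ∃ k, e k = j
    · obtain ⟨k, rfl⟩ := hj
      rw [e.injective.extend_apply]; exact (bs k).2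
    · rw [Function.extend_apply' _ _ _ hj]; exact W.zero_mem
  · have h1 := congrArg W.subtype (bs.sum_repr ⟨w, hw⟩)
    rw [map_sum] at h1
    refine h1.symm.trans (Fintype.sum_of_injective e e.injective _ _ (fun j hj => ?_) fun k => ?_)
    · rw [Function.extend_apply' _ _ _ hj]; exact zero_smul _ _
    · rw [e.injective.extend_apply, e.injective.extend_apply]; rfl

theorem core2_poly {L : Type} [Field L] [Algebra ℂ L] {v : Val L} (hv : IsAbh v) {y : L}
    (hy : v y ≤ 1) (a : Polynomial ℂ) : v (Polynomial.aeval y a) ≤ 1 := by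
  rw [Polynomial.aeval_eq_sum_range]
  refine v.map_sum_le fun i _ => ?_
  rw [Algebra.smul_def, map_mul, map_pow]
  refine mul_le_one' ?_ (pow_le_one₀ zero_le hy)
  by_cases h : a.coeff i = 0
  · simp [h]
  · exact (hv.triv _ h).le

/-- coefficient vectors of elements of bounded value -/
noncomputable def core2_sub {L β : Type} [Field L] [Algebra ℂ L] [Fintype β] {v : Val L}
    (hv : IsAbh v) {y : L} (hy : v y ≤ 1) (m : β → L) (α R : ℝ≥0) :
    Submodule (Polynomial ℂ) (β → Polynomial ℂ) where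
  carrier := {c | v (∑ l, Polynomial.aeval y (c l) * m l) * α ≤ R}
  zero_mem' := by simp
  add_mem' := fun {c c'} hc hc' => by
    simp only [Set.mem_ofPred_eq, Pi.add_apply, map_add, add_mul, Finset.sum_add_distrib] at *
    rcases v.map_add' (∑ l, Polynomial.aeval y (c l) * m l) (∑ l, Polynomial.aeval y (c' l) * m l)
      with h | h
    · exact (mul_le_mul_left h α).trans hc
    · exact (mul_le_mul_left h α).trans hc'
  smul_mem' := fun a c hc => by
    simp only [Set.mem_ofPred_eq, Pi.smul_apply, smul_eq_mul, map_mul, mul_assoc,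
      ← Finset.mul_sum] at *
    exact (mul_le_of_le_one_left' (core2_poly hv hy a)).trans hc

theorem core2_exp {x y N : ℝ} (hN : 0 < N) (h : ∀ a : ℝ, 0 < a → a ≤ 1 → x ≤ y + a * N) :
    x ≤ y := by
  refine le_of_forall_pos_le_add fun e he => ?_
  refine (h (min 1 (e / N)) (lt_min one_pos (by positivity)) (min_le_left _ _)).trans ?_
  have := mul_le_mul_of_nonneg_right (min_le_right 1 (e / N)) hN.le
  rw [div_mul_cancel₀ _ hN.ne'] at this
  linarith

namespace Cover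

variable {κ L : Type} [Fintype κ] [DecidableEq κ] [Field L] [Algebra ℂ L]
  (C : Cover (Option κ) L)

omit [DecidableEq κ] in
theorem core2_θ (B : ℝ) : ∃ B' : ℝ, ∀ p : C.Pt, ‖p.1.1‖ ≤ B → ‖C.fn C.θ p‖ ≤ B' := by
  have h : IsIntegral (Algebra.adjoin ℂ (Set.range C.y)) C.θ := by
    rw [θ, ← C.pv_C, ← C.pv_mul, ← C.evψ_pv]
    exact adjoin_le_integralClosure C.z_integral (Polynomial.aeval_mem_adjoin_singleton _ _)
  obtain ⟨M, hM⟩ := C.grow_of_integral C.θ_mem h
  exact hM.bdd C B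

/-- the first claim -/
theorem core2_easy {β : Type} [Fintype β] {b : β → L} (hb : ∀ i, b i ∈ C.A)
    (hpos : ∀ p, 0 < ∑ i, ‖C.fn (b i) p‖ ^ 2) {γ : ℝ} (hγ : 0 ≤ γ) (M : Option κ → ℕ) {G : L}
    (hG : G ∈ C.A) (hint : ∫⁻ p, ENNReal.ofReal (‖C.fn G p‖ ^ 2 *
      (((∑ i, ‖C.fn (b i) p‖ ^ 2) ^ γ)⁻¹ * wt M p.1.1)) ∂(C.rd.mu) < ⊤) {w : Val L} (hw : IsAbh w)
    (hy : ∀ i, w (C.y i) ≤ 1) :
    w (C.θ * G) * avol w C.y ≤ (Finset.univ.sup fun i => w (b i)) ^ γ := by
  refine (C.easy (C.A.mul_mem C.θ_mem hG) hb hpos hγ (fun B => ?_) hw hy).le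
  obtain ⟨B', hB'⟩ := C.core2_θ B
  obtain ⟨c, hc, hwt⟩ := le_wt M B
  have hcl : IsClosed {p : C.Pt | ‖p.1.1‖ ≤ B} :=
    isClosed_le (continuous_fst.comp continuous_subtype_val).norm continuous_const
  refine lt_of_le_of_lt (setLIntegral_mono' hcl.measurableSet (g := fun p =>
    ENNReal.ofReal (B' ^ 2 / c) * ENNReal.ofReal (‖C.fn G p‖ ^ 2 *
      (((∑ i, ‖C.fn (b i) p‖ ^ 2) ^ γ)⁻¹ * wt M p.1.1))) fun p hp => ?_) ?_
  · rw [← ENNReal.ofReal_mul (by positivity)]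
    refine ENNReal.ofReal_le_ofReal ?_
    have h1 : C.fn (C.θ * G) p = C.fn C.θ p * C.fn G p := C.ev_mul p.2 C.θ_mem hG
    have h2 := Real.rpow_pos_of_pos (hpos p) γ
    have h3 := hB' p hp
    have h4 := hwt _ hp
    calc _ = ‖C.fn C.θ p‖ ^ 2 / c * (‖C.fn G p‖ ^ 2 *
          (((∑ i, ‖C.fn (b i) p‖ ^ 2) ^ γ)⁻¹ * c)) := by
          rw [h1, norm_mul]; field_simp
      _ ≤ _ := by gcongr
  · refine lt_of_le_of_lt (setLIntegral_le_lintegral _ _) ?_
    rw [lintegral_const_mul' _ _ ENNReal.ofReal_ne_top]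
    exact ENNReal.mul_lt_top ENNReal.ofReal_lt_top hint

omit [DecidableEq κ] in
/-- a finite spanning family -/
theorem core2_span (M : Option κ → ℕ) {S : Set L} (hS : ∀ G ∈ S, C.θ * G ∈ C.Poly M) :
    ∃ T : Finset L, (T : Set L) ⊆ S ∧
      ∀ G ∈ S, G ∈ Submodule.span ℂ (Set.range fun j : T => (j : L)) := by
  have := C.Poly_finite M
  have h1 : Submodule.span ℂ S ≤ (C.Poly M).map (LinearMap.mulLeft ℂ C.θ⁻¹) :=
    Submodule.span_le.2 fun G hG => ⟨_, hS G hG, inv_mul_cancel_left₀ C.θ_ne G⟩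
  have h2 := Submodule.finiteDimensional_of_le h1
  obtain ⟨T, h3, h4⟩ := (Submodule.fg_span_iff_fg_span_finset_subset S).1
    ((Submodule.fg_iff_finiteDimensional _).2 h2)
  refine ⟨T, h3, fun G hG => ?_⟩
  rw [Subtype.range_coe_subtype]
  exact h4.le (Submodule.subset_span hG)

/-- With `c1` from `bomb` and `w = wt c1 / S^γ`, let `W` be the space of `G ∈ A` with
`θ * G ∈ Poly (M + c1)` and `∫ |G|^2 w < ∞`; it is finite dimensional (`Poly_finite`); let `G j` be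
a finite spanning family of nonzero elements, `B0` from `normeq`.  For `g = θ * G`, `G ∈ W`, the
first claim is `easy` (`θ` is bounded on bounded sets: `grow_of_integral`/`exists_grow_poly`,
`Grow.bdd`, `le_wt`).  Given `v`, take a chart for the `b i`, `G j`, `Δ(y)`.  Let
`max v (b i) = v t ^ β0`, `v Δ = v t ^ e`, `N = max (2 β0, e) + 1`.  For small `ρ` take the point
`p = Ψ q` with `q none = ρ`, `q (some i) = q0 (some i)` and `η = ρ ^ N`.  Then
`1 / 4 ≤ B0 * B1 * ρ^(-12 a N) / S(p)^γ * ∑ |G j (p)|^2`; with `o` the least order of the `G j`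
(the family is nonempty), `le_of_rpow_le` gives `o ≤ γ β0 + 6 a N`; let `a → 0`. -/
theorem core2_aux : ∃ c1 : ℕ, ∀ {β : Type} [Fintype β] (b : β → L) (Mb M : Option κ → ℕ) (γ : ℝ),
    0 ≤ γ → (∀ i, b i ∈ C.Poly Mb) → (∀ i, γ * (Mb i + c1) ≤ M i) →
    (∀ p, 0 < ∑ i, ‖C.fn (b i) p‖ ^ 2) → ∀ v : Val L, IsAbh v → (∀ i, v (C.y i) ≤ 1) →
    ∃ g ∈ C.Poly (fun i => M i + c1),
      (∀ w : Val L, IsAbh w → (∀ i, w (C.y i) ≤ 1) →
        w g * avol w C.y ≤ (Finset.univ.sup fun i => w (b i)) ^ γ) ∧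
      (Finset.univ.sup fun i => v (b i)) ^ γ * v C.θ ≤ v g := by
  classical
  obtain ⟨c1, hbomb⟩ := C.bomb
  refine ⟨c1, fun {β} _ b Mb M γ hγ hb hM hpos v hv hy => ?_⟩
  have hbA : ∀ i, b i ∈ C.A := fun i => by
    obtain ⟨q, hq⟩ := C.Poly_le Mb (hb i)
    exact hq ▸ C.pv_mem q
  obtain ⟨T, hT, hspan⟩ := C.core2_span (fun i => M i + c1) (S := {G | G ∈ C.A ∧ G ≠ 0 ∧
    C.θ * G ∈ C.Poly (fun i => M i + c1) ∧ ∫⁻ p, ENNReal.ofReal (‖C.fn G p‖ ^ 2 *
      (((∑ i, ‖C.fn (b i) p‖ ^ 2) ^ γ)⁻¹ * wt (fun _ => c1) p.1.1)) ∂(C.rd.mu) < ⊤})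
    fun G hG => hG.2.2.1
  have hcS : Continuous fun p => (∑ i, ‖C.fn (b i) p‖ ^ 2) ^ γ :=
    (continuous_finsetSum _ fun i _ => (C.continuous_fn (hbA i)).norm.pow 2).rpow_const
      fun _ => Or.inr hγ
  have hcw : Continuous fun p : C.Pt => wt (fun _ => c1) p.1.1 :=
    (continuous_wt _).comp (continuous_fst.comp continuous_subtype_val)
  obtain ⟨B0, hB0, hnorm⟩ := C.normeq (fun j : T => (j : L)) (fun j => (hT j.2).1)
    (w := fun p => ((∑ i, ‖C.fn (b i) p‖ ^ 2) ^ γ)⁻¹ * wt (fun _ => c1) p.1.1)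
    (hcS.measurable.inv.mul hcw.measurable)
    fun p => mul_pos (inv_pos.2 (Real.rpow_pos_of_pos (hpos p) γ)) (wt_pos _ _)
  obtain ⟨t, q0, r, c, k, Ψ, ht, hch⟩ := C.exists_chart hv hy
    (insert (aeval C.y C.Δ) (Finset.univ.image b ∪ T)) (fun a ha => by
      rcases Finset.mem_insert.1 ha with rfl | ha
      · exact C.aeval_mem _
      rcases Finset.mem_union.1 ha with ha | ha
      · obtain ⟨i, -, rfl⟩ := Finset.mem_image.1 ha
        exact hbA i
      · exact (hT ha).1)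
  have hc := hch.c_pos
  have hq : ∀ ρ : ℝ, 0 < ρ → ρ < r → Function.update q0 none (ρ : ℂ) ∈ pdisc q0 r :=
    fun ρ h0 h1 => ⟨by
      rw [Metric.mem_ball, dist_pi_lt_iff hch.r_pos]
      rintro (_ | i)
      · rwa [Function.update_self, hch.zero, dist_zero_right, Complex.norm_real,
          Real.norm_of_nonneg h0.le]
      · simpa using hch.r_pos, by simpa using h0.ne'⟩
  have hest : ∀ a ∈ insert (aeval C.y C.Δ) (Finset.univ.image b ∪ T), ∀ o : ℤ, v a = v t ^ o →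
      ∀ ρ : ℝ, 0 < ρ → ρ < r → c * ρ ^ o ≤ ‖C.fn a (Ψ (Function.update q0 none ρ))‖ ∧
        ‖C.fn a (Ψ (Function.update q0 none ρ))‖ ≤ c⁻¹ * ρ ^ o := fun a ha o ho ρ h0 h1 => by
    have := hch.est a ha o ho _ (hq ρ h0 h1)
    rwa [Function.update_self, Complex.norm_real, Real.norm_of_nonneg h0.le] at this
  have hex : ∃ i, b i ≠ 0 := by
    by_contra hne
    push Not at hne
    have := hpos (Ψ q0)
    have h0 : C.fn 0 (Ψ q0) = 0 := C.ev_zero (Ψ q0).2
    simp [hne, h0] at this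
  obtain ⟨i1, hi1⟩ := hex
  obtain ⟨i0, -, hi0⟩ := Finset.exists_mem_eq_sup Finset.univ ⟨i1, Finset.mem_univ _⟩
    fun i => v (b i)
  have hb0 : b i0 ≠ 0 := fun h => by
    have := Finset.le_sup (f := fun i => v (b i)) (Finset.mem_univ i1)
    rw [hi0, h, map_zero, nonpos_iff_eq_zero, map_eq_zero] at this
    exact hi1 this
  obtain ⟨β0, hβ0⟩ := ht.2.2 _ (Set.mem_univ _) hb0
  obtain ⟨e, he⟩ := ht.2.2 _ (Set.mem_univ _) (C.aeval_ne C.Δ_ne)
  obtain ⟨N, hN0, hN1, hN2⟩ : ∃ N : ℤ, 0 < N ∧ β0 * 2 + 1 ≤ N ∧ e + 1 ≤ N :=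
    ⟨max (max (β0 * 2) e) 0 + 1, by omega, by omega, by omega⟩
  obtain ⟨r', hr0, hr1, hr2, hr3⟩ : ∃ r' : ℝ, 0 < r' ∧ r' ≤ r ∧ r' ≤ c ∧ r' ≤ c ^ 2 :=
    ⟨min r (min c (c ^ 2)), lt_min hch.r_pos (by positivity), min_le_left _ _,
      (min_le_right _ _).trans (min_le_left _ _), (min_le_right _ _).trans (min_le_right _ _)⟩
  have key : ∀ a : ℝ, 0 < a → a ≤ 1 → ∃ B1 : ℝ, 0 ≤ B1 ∧ ∀ ρ : ℝ, 0 < ρ → ρ < r' →
      1 / 4 * (c ^ 2) ^ γ * ρ ^ (2 * (β0 * γ) + a * (12 * N)) ≤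
        B1 * ∑ j : T, ‖C.fn j (Ψ (Function.update q0 none ρ))‖ ^ 2 := by
    intro a ha0 ha1
    obtain ⟨B1, hB1, h⟩ := hbomb b Mb M γ hγ hb hM hpos c⁻¹ a ha0 ha1
    refine ⟨B0 * B1, by positivity, fun ρ h0 h1 => ?_⟩
    have h2 : ρ < r := h1.trans_le hr1
    have h3 : ρ ≤ 1 := h2.le.trans hch.r_le
    have hp := hch.bdd _ (hq ρ h0 h2)
    have hΔ := (hest _ (Finset.mem_insert_self _ _) e he ρ h0 h2).1
    have hS := (hest (b i0) (by simp) β0 hβ0 ρ h0 h2).1
    rw [C.fn_aeval] at hΔ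
    generalize Ψ (Function.update q0 none ρ) = p at hp hΔ hS ⊢
    have hS2 : c ^ 2 * ρ ^ (β0 * 2) ≤ ∑ i, ‖C.fn (b i) p‖ ^ 2 := by
      refine le_trans ?_ (Finset.single_le_sum (f := fun i => ‖C.fn (b i) p‖ ^ 2)
        (fun i _ => by positivity) (Finset.mem_univ i0))
      rw [zpow_mul, zpow_ofNat, ← mul_pow]
      exact pow_le_pow_left₀ (by positivity) hS 2
    have hz : ∀ (m : ℤ) (d : ℝ), m + 1 ≤ N → ρ ≤ d → ρ ^ N ≤ d * ρ ^ m := fun m d hm hd => by
      refine (zpow_le_zpow_right_of_le_one₀ h0 h3 hm).trans ?_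
      rw [zpow_add_one₀ h0.ne', mul_comm]
      exact mul_le_mul_of_nonneg_right hd (by positivity)
    obtain ⟨G, hG, hGP, hG1, hGI⟩ := h p (ρ ^ N) (by positivity)
      (zpow_le_one₀ h0 h3 hN0.le) hp.1 hp.2 ((hz e c hN2 (by linarith)).trans hΔ)
      ((hz _ _ hN1 (by linarith)).trans hS2)
    simp only [div_eq_mul_inv (‖C.fn G _‖ ^ 2), mul_assoc (‖C.fn G _‖ ^ 2)] at hGI
    have hG0 : G ≠ 0 := by
      rintro rfl
      have h0 : C.fn 0 p = 0 := C.ev_zero p.2
      rw [h0, norm_zero] at hG1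
      linarith
    have hSp := Real.rpow_pos_of_pos (hpos p) γ
    have h4 := hnorm G (hspan G ⟨hG, hG0, hGP, hGI.trans_lt ENNReal.ofReal_lt_top⟩) _
      (by positivity) hGI p
    have h5 : 1 / 4 ≤ ‖C.fn G p‖ ^ 2 := by nlinarith
    have h6 : (c ^ 2) ^ γ * ρ ^ (2 * (β0 * γ)) ≤ (∑ i, ‖C.fn (b i) p‖ ^ 2) ^ γ := by
      refine le_trans (le_of_eq ?_) (Real.rpow_le_rpow (by positivity) hS2 hγ)
      rw [Real.mul_rpow (by positivity) (by positivity), ← Real.rpow_intCast ρ,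
        ← Real.rpow_mul h0.le]
      congr 2; push_cast; ring
    have h7 : (ρ ^ N) ^ (-12 * a) = (ρ ^ (a * (12 * N)))⁻¹ := by
      rw [← Real.rpow_intCast ρ, ← Real.rpow_mul h0.le, ← Real.rpow_neg h0.le]
      congr 1; ring
    have h8 := Real.rpow_pos_of_pos h0 (a * (12 * N))
    rw [h7] at h4
    rw [Real.rpow_add h0]
    calc _ = 1 / 4 * ((c ^ 2) ^ γ * ρ ^ (2 * (β0 * γ))) * ρ ^ (a * (12 * N)) := by ring
      _ ≤ B0 * (B1 * (ρ ^ (a * (12 * N)))⁻¹ / (∑ i, ‖C.fn (b i) p‖ ^ 2) ^ γ) *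
            (∑ j : T, ‖C.fn j p‖ ^ 2) * (∑ i, ‖C.fn (b i) p‖ ^ 2) ^ γ * ρ ^ (a * (12 * N)) := by
          gcongr
          exact h5.trans h4
      _ = _ := by field_simp
  have hTne : T.Nonempty := by
    rw [Finset.nonempty_iff_ne_empty]
    rintro rfl
    obtain ⟨B1, -, h⟩ := key 1 one_pos le_rfl
    have h1 := h (r' / 2) (by positivity) (by linarith)
    rw [Finset.univ_eq_empty, Finset.sum_empty, mul_zero] at h1
    exact absurd h1 (not_le.2 (by positivity))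
  obtain ⟨G, hG, hmax⟩ := T.exists_max_image v hTne
  obtain ⟨o, ho⟩ := ht.2.2 _ (Set.mem_univ _) (hT hG).2.1
  have hle : (o : ℝ) ≤ β0 * γ := by
    refine le_of_mul_le_mul_left (a := 2) (core2_exp (N := 12 * N) (by positivity)
      fun a ha0 ha1 => ?_) two_pos
    obtain ⟨B1, hB1, h⟩ := key a ha0 ha1
    refine le_of_rpow_le (c := 1 / 4 * (c ^ 2) ^ γ) (B := B1 * (T.card * c⁻¹ ^ 2)) (by positivity)
      hr0 fun ρ h0 h1 => (h ρ h0 h1).trans ?_
    rw [mul_assoc, mul_assoc]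
    refine mul_le_mul_of_nonneg_left ?_ hB1
    rw [← Fintype.card_coe, ← nsmul_eq_mul]
    refine Finset.sum_le_card_nsmul _ _ _ fun j _ => ?_
    obtain ⟨o', ho'⟩ := ht.2.2 _ (Set.mem_univ _) (hT j.2).2.1
    have h2 := hmax _ j.2
    rw [ho, ho', zpow_le_zpow_iff_right_of_lt_one₀ ht.1 ht.2.1] at h2
    have h3 : ρ < r := h1.trans_le hr1
    have h4 := (hest j (by simp) o' ho' ρ h0 h3).2.trans (mul_le_mul_of_nonneg_left
      (zpow_le_zpow_right_of_le_one₀ h0 (h3.le.trans hch.r_le) h2) (by positivity))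
    refine (pow_le_pow_left₀ (norm_nonneg _) h4 2).trans (le_of_eq ?_)
    rw [mul_pow, mul_comm (2 : ℝ), Real.rpow_mul h0.le, Real.rpow_intCast, Real.rpow_two]
  refine ⟨C.θ * G, (hT hG).2.2.1, fun w hw hwy =>
    C.core2_easy hbA hpos hγ _ (hT hG).1 (hT hG).2.2.2 hw hwy, ?_⟩
  rw [hi0, hβ0, map_mul, ho, mul_comm, ← NNReal.rpow_intCast, ← NNReal.rpow_intCast,
    ← NNReal.rpow_mul]
  exact mul_le_mul_right (NNReal.rpow_le_rpow_of_exponent_ge ht.1 ht.2.1.le hle) _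

/-- Apply `exists_gen` to the coefficient vectors `c` such that
`g = ∑ l, aeval (y none) (c l) * mono l` satisfies the first inequality for all `w`;
`Poly_option`; polynomials in `y none` have value `≤ 1`.  In the direction `none` choose
`M none = ⌈γ * (Mb none + c1)⌉₊`. -/
theorem core2 : ∃ c1 : ℕ, ∀ {β : Type} [Fintype β] (b : β → L) (Mb : Option κ → ℕ) (M : ℕ) (γ : ℝ),
    0 ≤ γ → (∀ i, b i ∈ C.Poly Mb) → (∀ i, γ * (Mb (some i) + c1) ≤ M) →
    (∃ i, b i ≠ 0 ∧ (b i)⁻¹ ∈ C.A) →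
    ∃ c : (κ → Fin (M + c1 + 1)) × Fin C.P.natDegree →
        (κ → Fin (M + c1 + 1)) × Fin C.P.natDegree → Polynomial ℂ,
      ∀ v : Val L, IsAbh v → (∀ i, v (C.y i) ≤ 1) →
        (∀ j, v (∑ l, Polynomial.aeval (C.y none) (c j l) * C.mono (M + c1) l) * avol v C.y ≤
          (Finset.univ.sup fun i => v (b i)) ^ γ) ∧
        ∃ j, (Finset.univ.sup fun i => v (b i)) ^ γ * v C.θ ≤
          v (∑ l, Polynomial.aeval (C.y none) (c j l) * C.mono (M + c1) l) := by
  obtain ⟨c1, haux⟩ := C.core2_aux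
  refine ⟨c1, fun {β} _ b Mb M γ hγ hb hM ⟨i0, h0, h1⟩ => ?_⟩
  have hpos : ∀ p, 0 < ∑ i, ‖C.fn (b i) p‖ ^ 2 := fun p => by
    obtain ⟨q, hq⟩ := C.Poly_le Mb (hb i0)
    have h2 : C.fn (b i0) p ≠ 0 := (C.ev_inv p.2 h0 (hq ▸ C.pv_mem q) h1).1
    exact Finset.sum_pos' (fun i _ => by positivity) ⟨i0, Finset.mem_univ _, by positivity⟩
  obtain ⟨c, hc, hgen⟩ := exists_gen (⨅ (w : Val L) (hw : IsAbh w) (hy : ∀ i, w (C.y i) ≤ 1),
    core2_sub hw (hy none) (C.mono (M + c1)) (avol w C.y)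
      ((Finset.univ.sup fun i => w (b i)) ^ γ))
  simp only [Submodule.mem_iInf] at hc hgen
  refine ⟨c, fun v hv hy => ⟨fun j => hc j v hv hy, ?_⟩⟩
  obtain ⟨g, hg, h2, h3⟩ := haux b Mb (fun o => o.elim ⌈γ * (Mb none + c1)⌉₊ fun _ => M) γ hγ hb
    (by rintro (_ | i); exacts [Nat.le_ceil _, hM i]) hpos v hv hy
  obtain ⟨c0, rfl⟩ := C.Poly_option _ (M + c1) (fun _ => le_rfl) hg
  obtain ⟨a, rfl⟩ := hgen c0 h2
  have : Nonempty (Fin C.P.natDegree) := ⟨⟨0, C.natDegree_pos⟩⟩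
  obtain ⟨j, hj⟩ := Finite.exists_max fun j =>
    v (∑ l, Polynomial.aeval (C.y none) (c j l) * C.mono (M + c1) l)
  refine ⟨j, h3.trans ((mul_one _).symm.trans_le ?_)⟩
  exact (core2_sub hv (hy none) (C.mono (M + c1)) 1 _).sum_mem fun i _ =>
    Submodule.smul_mem _ _ ((mul_one _).trans_le (hj i))

end Cover

end Pool.Agent.MP_c0606f_ag.Klt

end

-- part MP_c0606f_ag.Klt.Dem
section

/-! Demailly approximation for points over a valued field. -/

namespace Pool.Agent.MP_c0606f_ag.Klt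

open MvPolynomial
open scoped NNReal

theorem dem_ext_mem {ι L : Type} [Fintype ι] [Field L] [Algebra ℂ L] (C : Cover ι L)
    {M : ι → ℕ} {Mb : Option ι → ℕ} (hM : ∀ i, M i ≤ Mb (some i)) {n : ℕ} (hn : n ≤ Mb none)
    {a : L} (ha : a ∈ C.Poly M) : RatFunc.X ^ n * RatFunc.C a ∈ C.ext.Poly Mb := by
  induction ha using Submodule.span_induction with
  | mem x hx =>
    obtain ⟨α, j, h1, h2, rfl⟩ := hx
    refine Submodule.subset_span ⟨α.optionElim n, j, ?_, C.ext_natDegree ▸ h2, ?_⟩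
    · rintro (_ | i)
      · simpa using hn
      · simpa using (h1 i).trans (hM i)
    · rw [aeval_monomial, aeval_monomial, map_one, map_one, one_mul, one_mul,
        Finsupp.prod_fintype _ _ (by simp), Finsupp.prod_fintype _ _ (by simp),
        Fintype.prod_option, map_mul, map_prod, map_pow, ← mul_assoc]
      simp only [map_pow, Finsupp.optionElim_apply_none, Finsupp.optionElim_apply_some]
      rfl
  | zero => simp
  | add x y _ _ hx hy =>
    rw [map_add, mul_add]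
    exact add_mem hx hy
  | smul c x _ hx =>
    rw [Algebra.smul_def, map_mul, ← Cover.evAlg, mul_left_comm, ← Algebra.smul_def]
    exact Submodule.smul_mem _ _ hx

theorem dem_ext_mem' {ι L : Type} [Fintype ι] [Field L] [Algebra ℂ L] (C : Cover ι L)
    {M : ι → ℕ} {Mb : Option ι → ℕ} (hM : ∀ i, M i ≤ Mb (some i)) {q : Polynomial ℂ}
    (hn : q.natDegree ≤ Mb none) {a : L} (ha : a ∈ C.Poly M) :
    Polynomial.aeval RatFunc.X q * RatFunc.C a ∈ C.ext.Poly Mb := by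
  rw [Polynomial.aeval_eq_sum_range, Finset.sum_mul]
  refine Submodule.sum_mem _ fun n h => ?_
  rw [smul_mul_assoc]
  exact Submodule.smul_mem _ _
    (dem_ext_mem C hM ((Nat.lt_succ_iff.1 (Finset.mem_range.1 h)).trans hn) ha)

theorem dem_aeval_mem {ι L : Type} [Fintype ι] [Field L] [Algebra ℂ L] (C : Cover ι L)
    (b : MvPolynomial ι ℂ) : aeval C.y b ∈ C.Poly fun _ => b.totalDegree := by
  have h := C.mem_Poly (fun _ => b.totalDegree) (fun j => if j = 0 then b else 0) fun j i => by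
    split_ifs
    · exact degreeOf_le_totalDegree b i
    · simp
  rwa [Finset.sum_eq_single 0 (fun j _ hj => by simp [hj])
    (fun h0 => absurd (Finset.mem_range.2 C.natDegree_pos) h0), if_pos rfl, pow_zero,
    mul_one] at h

theorem dem_aeval_int {ι L : Type} [Field L] [Algebra ℂ L] (y : ι → L) (b : MvPolynomial ι ℂ) :
    IsIntegral (Algebra.adjoin ℂ (Set.range y)) (aeval y b) :=
  isIntegral_algebraMap (R := Algebra.adjoin ℂ (Set.range y))
    (x := ⟨aeval y b, by rw [Algebra.adjoin_range_eq_range_aeval]; exact ⟨b, rfl⟩⟩)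

theorem dem_sup {r : ℕ} (d s : ℝ≥0) (A A' : Fin r → ℝ≥0) (h1 : ∀ l, A l ≤ max (A' l) s)
    (h2 : ∀ l, A' l ≤ max (A l) s) (B : Option (Fin r) → ℝ≥0) (h3 : B none = d * s)
    (h4 : ∀ l, B (some l) = d * A' l) :
    Finset.univ.sup B = d * max (Finset.univ.sup A) s := by
  have h5 : d * s ≤ Finset.univ.sup B := h3 ▸ Finset.le_sup (Finset.mem_univ none)
  refine le_antisymm (Finset.sup_le ?_) ?_
  · rintro (_ | l) -
    · rw [h3]
      exact mul_le_mul_right (le_max_right _ _) d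
    · rw [h4]
      exact mul_le_mul_right ((h2 l).trans
        (max_le_max_right s (Finset.le_sup (Finset.mem_univ l)))) d
  · rw [mul_max, NNReal.mul_finset_sup]
    refine max_le (Finset.sup_le fun l _ => (mul_le_mul_right (h1 l) d).trans ?_) h5
    rw [mul_max]
    exact max_le (h4 l ▸ Finset.le_sup (Finset.mem_univ (some l))) h5

theorem dem_close {R : Type} [Field R] (v : Val R) {a b : R} {s : ℝ≥0} (h : v (a - b) ≤ s) :
    v a ≤ max (v b) s ∧ v b ≤ max (v a) s := by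
  constructor
  · have := v.map_add b (a - b)
    rw [add_sub_cancel] at this
    exact this.trans (max_le_max_left _ h)
  · have := v.map_sub a (a - b)
    rw [sub_sub_cancel] at this
    exact this.trans (max_le_max_left _ h)

namespace Model

variable {ι L : Type} [Fintype ι] [DecidableEq ι] [Field L] [Algebra ℂ L] (Mo : Model ι L)

/-- the largest value at a point of the sections `f l`, truncated at `s` -/
noncomputable def tv {R : Type} [Field R] (v : Val R) {r N : ℕ} (f : Fin r → Fin N → R)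
    (a : Fin N → R) (s : ℝ≥0) : ℝ≥0 :=
  max (Finset.univ.sup fun l => v (∑ i, f l i * a i)) s

/-- `μ l` are the monomials `∏ y i ^ a i * z ^ j` of `core2` for `Mo.toCover.ext` with `2 * M`
instead of `M` (`ext.mono = RatFunc.C (..)`), reindexed by `Fin n1`; `C2 ≥ c0 + c1 + deg δ0`.
Given the data choose a uniformiser `t` of `k` (`exists_unifOn`), `v τ = v t ^ e`, `J = e * Λ`, `φ`
from `exists_tw_agree` for `T` containing the `σ i`, `μ l`, `θ`, `δ0(y)`, and approximations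
`p l i` of `f l i` up to `v t ^ J`.  Apply `core2` with `γ = M / m` to the family indexed by
`Option (Fin r)`: `C (δ0(y)) * X ^ J` and `C (δ0(y)) * psec σ (p l)`; they lie in `ext.Poly Mb`,
`Mb (some i) = m + c0 + deg δ0`, `Mb none` large (`rep`, `mem_Poly`, `degreeOf_le_totalDegree`).
Put `c j l = (c' j l).eval₂ φ t`.  For a point take `exists_rz`; the supremum in `core2` is
`v δ0 * tv`; `evol_mul_le_avol` (with the frame `(X, u)`), `ext_θ`, `v τ ≤ v t`. -/
theorem dem : ∃ C2 : ℕ, ∀ M : ℕ, 0 < M → ∃ (n1 : ℕ) (μ : Fin n1 → L),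
    (∀ l, μ l ∈ Mo.toCover.A ∧ IsIntegral (Algebra.adjoin ℂ (Set.range Mo.y)) (μ l)) ∧
    ∀ m, M ≤ m → C2 ≤ m → ∀ (N : ℕ) (σ : Fin N → L), (∀ i, σ i ∈ Mo.V m) →
    ∀ (R : Type) [Field R] [Algebra ℂ R] [IsAlgClosed R] (v : Val R) (τ : R)
      (k : IntermediateField ℂ R) (r : ℕ) (f : Fin r → Fin N → R) (Λ : ℕ), IsAbh v → 0 < v τ →
      v τ < 1 → k.FG → τ ∈ k → (∀ l i, f l i ∈ k) → (∀ l i, v (f l i) ≤ 1) →
      ∃ c : Fin n1 → Fin n1 → R, (∀ j l, v (c j l) ≤ 1) ∧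
        (∀ D : Derivation ℂ R R, (∀ a ∈ k, D a = 0) → ∀ j l, D (c j l) = 0) ∧
        ∀ (Y : ι → R) (Z : R), Mo.Pnt Y Z → (∀ i, v (Y i) ≤ 1) → 0 < evol v k Y →
          (∀ j, v (∑ l, c j l * Mo.vl Y Z (μ l)) * (evol v k Y * v τ) ≤
            tv v f (fun i => Mo.vl Y Z (σ i)) (v τ ^ Λ) ^ ((M : ℝ) / m)) ∧
          ∃ j, (v (Mo.vl Y Z (aeval Mo.y Mo.δ0)) *
              tv v f (fun i => Mo.vl Y Z (σ i)) (v τ ^ Λ)) ^ ((M : ℝ) / m) *
            (v τ * v (Mo.vl Y Z Mo.toCover.θ)) ≤ v (∑ l, c j l * Mo.vl Y Z (μ l)) := by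
  classical
  obtain ⟨c1, hc⟩ := Mo.toCover.ext.core2
  refine ⟨Mo.c0 + Mo.δ0.totalDegree + c1, fun M hM => ?_⟩
  let μ0 : (ι → Fin (2 * M + c1 + 1)) × Fin Mo.toCover.ext.P.natDegree → L :=
    fun b => (∏ i, Mo.y i ^ (b.1 i : ℕ)) * Mo.z ^ (b.2 : ℕ)
  have hμ0 : ∀ b, Mo.toCover.ext.mono (2 * M + c1) b = RatFunc.C (μ0 b) := fun b => by
    simp only [μ0, map_mul, map_prod, map_pow]
    rfl
  have hμA : ∀ b, μ0 b ∈ Mo.toCover.A := fun b =>
    mul_mem (prod_mem fun i _ => pow_mem (Mo.toCover.y_mem i) _) (pow_mem Mo.toCover.z_mem _)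
  have hμI : ∀ b, IsIntegral (Algebra.adjoin ℂ (Set.range Mo.y)) (μ0 b) := fun b =>
    (IsIntegral.prod _ fun i _ => IsIntegral.pow
      (by simpa using dem_aeval_int Mo.y (X i)) _).mul (Mo.toCover.z_integral.pow _)
  let e := (Fintype.equivFin
    ((ι → Fin (2 * M + c1 + 1)) × Fin Mo.toCover.ext.P.natDegree)).symm
  refine ⟨_, fun l => μ0 (e l), fun l => ⟨hμA _, hμI _⟩, ?_⟩
  intro m hMm hCm N σ hσ R _ _ _ v τ k r f Λ hv h0 h1 hk hτ hfk hf1
  obtain ⟨t, htk, ht⟩ := hv.exists_unifOn k hk hτ h0 h1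
  have hτt : v τ ≤ v t := ht.le_of_lt hτ h1
  obtain ⟨J, hJ⟩ : ∃ J : ℕ, v t ^ J = v τ ^ Λ := by
    obtain ⟨j, hj⟩ := ht.2.2 τ hτ (v.pos_iff.1 h0)
    have h2 : 0 < j := (zpow_lt_one_iff_right_of_lt_one₀ ht.1 ht.2.1).1 (hj ▸ h1)
    obtain ⟨n, rfl⟩ := Int.eq_ofNat_of_zero_le h2.le
    exact ⟨n * Λ, by rw [pow_mul, hj, zpow_natCast]⟩
  obtain ⟨δ, hδ⟩ : ∃ δ, δ = aeval Mo.y Mo.δ0 := ⟨_, rfl⟩
  have hδA : δ ∈ Mo.toCover.A := hδ ▸ Mo.toCover.aeval_mem _
  have hδ0 : δ ≠ 0 :=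
    hδ ▸ Mo.toCover.aeval_ne fun h => Mo.Δ_ne (by simpa [h] using Mo.δ0_dvd)
  obtain ⟨φ, hφ, hT⟩ := Mo.exists_tw_agree hv htk ht
    (insert δ (insert Mo.toCover.θ (Finset.univ.image σ ∪ Finset.univ.image μ0)))
  choose p hp using fun l i => hφ.apx (f l i) (hfk l i) (hf1 l i) J
  let b : Option (Fin r) → RatFunc L := fun o =>
    RatFunc.C δ * o.elim (RatFunc.X ^ J) fun l => psec σ (p l)
  let Mb : Option ι → ℕ := fun o =>
    o.elim (J + ∑ l, ∑ i, (p l i).natDegree) fun _ => m + Mo.c0 + Mo.δ0.totalDegree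
  have hm0 : (0 : ℝ) < m := by exact_mod_cast hM.trans_le hMm
  obtain ⟨c', hc'⟩ := hc b Mb (2 * M) ((M : ℝ) / m) (by positivity) (by
    rintro (_ | l)
    · change RatFunc.C δ * RatFunc.X ^ J ∈ _
      rw [mul_comm, hδ]
      exact dem_ext_mem _ (fun _ => Nat.le_add_left _ _) (Nat.le_add_right _ _)
        (dem_aeval_mem Mo.toCover Mo.δ0)
    · change RatFunc.C δ * psec σ (p l) ∈ _
      rw [psec, Finset.mul_sum]
      refine Submodule.sum_mem _ fun i _ => ?_
      obtain ⟨q, hq1, hq2⟩ := Mo.rep m _ (hσ i)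
      rw [mul_left_comm, ← map_mul, mul_comm δ, hδ, hq2]
      refine dem_ext_mem' _ (M := fun _ => m + Mo.c0) (fun _ => Nat.le_add_right _ _) ?_
        (Mo.toCover.mem_Poly _ q fun j i => (degreeOf_le_totalDegree _ i).trans (hq1 j))
      refine le_trans ?_ (Nat.le_add_left _ _)
      exact (Finset.single_le_sum (f := fun i => (p l i).natDegree) (fun _ _ => Nat.zero_le _)
        (Finset.mem_univ i)).trans (Finset.single_le_sum
          (f := fun l => ∑ i, (p l i).natDegree) (fun _ _ => Nat.zero_le _) (Finset.mem_univ l)))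
    (fun i => by
      have h2 : ((m + Mo.c0 + Mo.δ0.totalDegree : ℕ) : ℝ) + c1 ≤ 2 * m := by
        exact_mod_cast (by omega : m + Mo.c0 + Mo.δ0.totalDegree + c1 ≤ 2 * m)
      refine (mul_le_mul_of_nonneg_left h2 (by positivity)).trans (le_of_eq ?_)
      push_cast
      field_simp)
    ⟨none, mul_ne_zero ((map_ne_zero _).2 hδ0) (pow_ne_zero _ RatFunc.X_ne_zero), by
      change (RatFunc.C δ * RatFunc.X ^ J)⁻¹ ∈ _
      rw [mul_inv, ← map_inv₀, ← inv_pow]
      refine mul_mem (Mo.toCover.ext_mem (hδ ▸ Mo.toCover.inv_mem_of_dvd Mo.δ0_dvd))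
        (pow_mem ?_ _)
      have := Mo.toCover.ext.inv_mem_of_dvd (b := X none) (dvd_mul_right _ _)
      rwa [aeval_X] at this⟩
  refine ⟨fun j l => (c' (e j) (e l)).eval₂ φ t, fun j l => (hφ.val_poly _).1,
    fun D hD j l => hφ.kill_poly D hD _, fun Y Z hp0 hY hev => ?_⟩
  obtain ⟨j0, hz, hg, hle⟩ := exists_rz hφ hT hp0 hY hev
  have htriv : ∀ c : ℂ, v (algebraMap ℂ R c) ≤ 1 := fun c => by
    rcases eq_or_ne c 0 with rfl | hc0
    · simp
    · exact (hv.triv c hc0).le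
  have hX : (v.comap j0) RatFunc.X = v t := congrArg v hz.X
  have vδ : j0 (RatFunc.C δ) = Mo.vl Y Z δ := (hz.val hT).2 δ (by simp) hδA
  have vθ : j0 (RatFunc.C Mo.toCover.θ) = Mo.vl Y Z Mo.toCover.θ :=
    (hz.val hT).2 _ (by simp) Mo.toCover.θ_mem
  have vμ : ∀ b, j0 (RatFunc.C (μ0 b)) = Mo.vl Y Z (μ0 b) := fun b =>
    (hz.val hT).2 _ (by simp) (hμA b)
  have hsum : ∀ j, (v.comap j0) (∑ l, Polynomial.aeval (Mo.toCover.ext.y none) (c' j l) *
      Mo.toCover.ext.mono (2 * M + c1) l) =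
      v (∑ l, (c' j (e l)).eval₂ φ t * Mo.vl Y Z (μ0 (e l))) := fun j => by
    rw [Valuation.comap_apply, map_sum,
      e.sum_comp fun l => (c' j l).eval₂ φ t * Mo.vl Y Z (μ0 l)]
    refine congrArg v (Finset.sum_congr rfl fun l _ => ?_)
    rw [map_mul, hμ0, vμ, ← hz.poly]
    rfl
  have hcl : ∀ l, v (∑ i, f l i * Mo.vl Y Z (σ i) -
      ∑ i, (p l i).eval₂ φ t * Mo.vl Y Z (σ i)) ≤ v τ ^ Λ := fun l => by
    rw [← Finset.sum_sub_distrib, ← hJ]
    refine v.map_sum_le fun i _ => ?_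
    rw [← sub_mul, map_mul]
    exact (mul_le_of_le_one_right zero_le
      (Mo.vl_le_one htriv hp0 hY (Mo.mem_A (hσ i)) (Mo.int m _ (hσ i)))).trans (hp l i)
  have hsup : (Finset.univ.sup fun o => (v.comap j0) (b o)) =
      v (Mo.vl Y Z δ) * tv v f (fun i => Mo.vl Y Z (σ i)) (v τ ^ Λ) := by
    refine dem_sup _ _ _ (fun l => v (∑ i, (p l i).eval₂ φ t * Mo.vl Y Z (σ i)))
      (fun l => (dem_close v (hcl l)).1) (fun l => (dem_close v (hcl l)).2) _ ?_ fun l => ?_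
    · change v (j0 (RatFunc.C δ * RatFunc.X ^ J)) = _
      rw [map_mul, map_pow, map_mul, map_pow, vδ, hz.X, hJ]
    · change v (j0 (RatFunc.C δ * psec σ (p l))) = _
      rw [map_mul, map_mul, vδ, hz.psec hT (fun i => by simp) fun i => Mo.mem_A (hσ i)]
  obtain ⟨g1, j, g2⟩ := hc' (v.comap j0) hg.abh (by
    rintro (_ | i)
    · exact hg.lt.le
    · exact hg.le i)
  rw [hsup] at g1 g2
  constructor
  · intro j
    obtain ⟨q, t0, u, hf⟩ := hg.abh
    have h2 := evol_mul_le_avol (hf.change (hX ▸ ht.1) hg.lt) Mo.toCover.ext.y rfl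
    have h3 : evol v k Y * v τ ≤ avol (v.comap j0) Mo.toCover.ext.y :=
      (mul_le_mul' hle (hX ▸ hτt)).trans h2
    have h4 := g1 (e j)
    rw [hsum] at h4
    refine ((mul_le_mul_right h3 _).trans h4).trans (NNReal.rpow_le_rpow ?_ (by positivity))
    exact mul_le_of_le_one_left zero_le
      (Mo.vl_le_one htriv hp0 hY hδA (hδ ▸ dem_aeval_int Mo.y Mo.δ0))
  · refine ⟨e.symm j, ?_⟩
    rw [hsum, Mo.toCover.ext_θ, map_mul, hX, Valuation.comap_apply, vθ] at g2
    simp only [Equiv.apply_symm_apply]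
    rw [← hδ]
    exact (mul_le_mul_right (mul_le_mul_left hτt _) _).trans g2

end Model

end Pool.Agent.MP_c0606f_ag.Klt

end

-- part MP_c0606f_ag.Klt.Copy
section

/-! Generic copies of a point and orthogonal bases. -/

namespace Pool.Agent.MP_c0606f_ag.Klt

open MvPolynomial
open scoped NNReal

section General

variable {R : Type} [Field R] [Algebra ℂ R] {v : Val R}

/-- an intermediate field containing the new constants, in the twisted field -/
noncomputable def Tw.field (φ : ℂ →+* R) (Ω : IntermediateField ℂ R) (h : ∀ c, φ c ∈ Ω) :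
    IntermediateField ℂ (Tw φ) :=
  Subfield.toIntermediateField (K := ℂ) (L := Tw φ) Ω.toSubfield h

/-- A larger field of constants for `k2 ⊇ k`: `exists_frame_sub` for `k2` with `u0 = u` (from
`gen`), `Ω = Om (Sum.elim u u1)`, `apx_of_alg`, `ResInd.val_Om`, `der_kill_Om`. -/
theorem TwData.exists_big [IsAlgClosed R] {k k2 : IntermediateField ℂ R} {t : R} {φ : ℂ →+* R}
    (h : TwData v k t φ) (hv : IsAbh v) (hk : k ≤ k2) (hu : IsUnifOn v k2 t) :
    ∃ Ω : IntermediateField ℂ R, (∀ c, φ c ∈ Ω) ∧ (∀ a ∈ Ω, a ≠ 0 → v a = 1) ∧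
      (∀ a ∈ k2, v a ≤ 1 → Apx v Ω t a) ∧
      ∀ D : Derivation ℂ R R, (∀ a ∈ k2, D a = 0) → ∀ a ∈ Ω, D a = 0 := by
  obtain ⟨q, u, huk, hr, hφ⟩ := h.gen
  obtain ⟨q1, q2, u1, u2, hu1, hf, halg⟩ :=
    hv.exists_frame_sub k2 (hk h.mem) hu u (fun i => hk (huk i)) hr
  have hr1 : ResInd v (Sum.elim u u1) := hf.res.comp Sum.inl Sum.inl_injective
  have hm : ∀ i, Sum.elim u u1 i ∈ k2 := by
    rintro (i | i)
    · exact hk (huk i)
    · exact hu1 i
  refine ⟨Om (Sum.elim u u1), fun c => ?_, fun a ha h0 => hr1.val_Om ha h0,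
    fun a ha h1 => apx_of_alg k2 (hk h.mem) hu _ hm hr1 halg ha h1,
    fun D hD a ha => der_kill_Om D _ (fun i => hD _ (hm i)) ha⟩
  have hc : φ c ∈ (Om u : Set R) := hφ ▸ Set.mem_range_self c
  rw [mem_Om]
  refine gauss_alg_map (AlgHom.id ℂ R) ?_ ((mem_Om u _).1 hc)
  rintro _ ⟨i, rfl⟩
  exact ⟨Sum.inl i, rfl⟩

/-- the untwisted form of `orth_ext` -/
theorem copy_orth {F : Type} [Field F] [Algebra ℂ F] (j : F →ₐ[ℂ] R) {κ : Type} [Fintype κ]
    [DecidableEq κ] {s : F} {u : κ → F} (hf : IsFrame (v.comap j.toRingHom) s u)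
    {Ω : IntermediateField ℂ R} (hΩ : ∀ a ∈ Ω, a ≠ 0 → v a = 1) (D : κ → Derivation ℂ R R)
    (hD : ∀ l, D l ∈ LD v (insert (j s) (Ω : Set R)))
    (hd : ∀ l l', D l (j (u l')) = if l = l' then 1 else 0) {N : ℕ} (ε : Fin N → F)
    (hne : ∀ i, ε i ≠ 0)
    (ho : ∀ (J : Finset (Fin N)) (o : Fin N → ℕ) (γ : Fin N → ℂ) (ν : ℝ≥0),
      (∀ i ∈ J, v (j s) ^ o i * v (j (ε i)) = ν) → (∃ i ∈ J, γ i ≠ 0) →
      v (j (∑ i ∈ J, algebraMap ℂ F (γ i) * (s ^ o i * ε i))) = ν)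
    (g : Fin N → R) (hg : ∀ i, Apx v Ω (j s) (g i)) (i : Fin N) :
    v (g i) * v (j (ε i)) ≤ v (∑ i, g i * j (ε i)) := by
  classical
  have h0 : 0 < v (j s) := hf.pos
  have h1 : v (j s) < 1 := hf.lt
  have hε : ∀ i, 0 < v (j (ε i)) := fun i =>
    (Valuation.pos_iff v).2 ((map_ne_zero j).2 (hne i))
  obtain ⟨i0, -, hmax⟩ := Finset.exists_max_image Finset.univ
    (fun i => v (g i) * v (j (ε i))) ⟨i, Finset.mem_univ _⟩
  refine (hmax i (Finset.mem_univ _)).trans ?_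
  set ν := v (g i0) * v (j (ε i0)) with hν
  rcases eq_or_ne ν 0 with hz | hz
  · rw [hz]; exact zero_le
  have hνp : 0 < ν := pos_iff_ne_zero.2 hz
  have hlead : ∀ i, ∃ (o : ℕ) (ω : R), ω ∈ Ω ∧ (g i ≠ 0 → ω ≠ 0 ∧
      v (g i - ω * j s ^ o) < v (j s) ^ o) := by
    intro i
    by_cases hgi : g i = 0
    · exact ⟨0, 0, zero_mem _, fun h => absurd hgi h⟩
    · obtain ⟨o, ω, a, b, c⟩ := (hg i).lead hΩ h0 h1 hgi
      exact ⟨o, ω, a, fun _ => ⟨b, c⟩⟩
  choose o ω hω hl using hlead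
  set J : Finset (Fin N) := Finset.univ.filter fun i => v (g i) * v (j (ε i)) = ν with hJ
  have hJm : ∀ i, i ∈ J ↔ v (g i) * v (j (ε i)) = ν := fun i => by simp [hJ]
  have hi0 : i0 ∈ J := (hJm i0).2 rfl
  have hg0 : ∀ i ∈ J, g i ≠ 0 := fun i hi hgi => hz (by rw [← (hJm i).1 hi, hgi]; simp)
  have hvg : ∀ i ∈ J, v (g i) = v (j s) ^ o i := by
    intro i hi
    obtain ⟨a, b⟩ := hl i (hg0 i hi)
    have h2 : v (ω i * j s ^ o i) = v (j s) ^ o i := by
      rw [map_mul, map_pow, hΩ _ (hω i) a, one_mul]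
    rw [← h2] at b ⊢
    exact Valuation.map_eq_of_sub_lt v b
  have hνJ : ∀ i ∈ J, v (j s) ^ o i * v (j (ε i)) = ν := fun i hi => by
    rw [← hvg i hi]; exact (hJm i).1 hi
  set d : F := s ^ o i0 * ε i0 with hdd
  have hvd : v (j d) = ν := by
    rw [hdd, map_mul, map_pow, map_mul, map_pow]; exact hνJ i0 hi0
  have hd0 : j d ≠ 0 := fun h => hz (by rw [← hvd, h, map_zero])
  have key := res_indep (v := v) (Ω := Ω) (t := j s) ((sub_res_iff j u).1 hf.res) h0 h1 hΩ D hD hd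
    j.fieldRange ⟨s, rfl⟩ (fun l => ⟨u l, rfl⟩) (by
      rintro _ ⟨a, rfl⟩
      rw [← sub_image j s u]
      exact (sub_alg_iff j _ a).2 (hf.alg a))
    (fun i : J => j (s ^ o i * ε i) / j d)
    (fun i => div_mem ⟨_, rfl⟩ ⟨_, rfl⟩)
    (fun i => by
      rw [map_div₀, hvd, map_mul, map_pow, map_mul, map_pow, hνJ i i.2, div_self hz])
    (fun γ hγ => by
      obtain ⟨i1, hi1⟩ := Function.ne_iff.1 hγ
      have h2 := ho J o (fun i => if h : i ∈ J then γ ⟨i, h⟩ else 0) ν hνJ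
        ⟨i1, i1.2, by rw [dif_pos i1.2]; exact hi1⟩
      have h3 : ∑ i : J, algebraMap ℂ R (γ i) * (j (s ^ o i * ε i) / j d) =
          j (∑ i ∈ J, algebraMap ℂ F (if h : i ∈ J then γ ⟨i, h⟩ else 0) * (s ^ o i * ε i)) /
            j d := by
        rw [map_sum, ← Finset.sum_coe_sort J, Finset.sum_div]
        refine Finset.sum_congr rfl fun i _ => ?_
        rw [dif_pos i.2, map_mul j (algebraMap ℂ F _), AlgHom.commutes, mul_div_assoc]
      rw [h3, map_div₀, h2, hvd, div_self hz])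
    (fun i : J => ω i) (fun i => hω i)
    (Function.ne_iff.2 ⟨⟨i0, hi0⟩, (hl i0 (hg0 i0 hi0)).1⟩)
  have h4 : ∑ i : J, ω i * (j (s ^ o i * ε i) / j d) =
      (∑ i ∈ J, ω i * j s ^ o i * j (ε i)) / j d := by
    rw [← Finset.sum_coe_sort J, Finset.sum_div]
    refine Finset.sum_congr rfl fun i _ => ?_
    rw [map_mul, map_pow]; ring
  rw [h4, map_div₀, hvd, div_eq_one_iff_eq hz] at key
  have h5 : ∑ i, g i * j (ε i) - ∑ i ∈ J, ω i * j s ^ o i * j (ε i) =
      ∑ i, (if i ∈ J then g i - ω i * j s ^ o i else g i) * j (ε i) := by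
    rw [← Finset.sum_ite_mem_eq J, ← Finset.sum_sub_distrib]
    refine Finset.sum_congr rfl fun i _ => ?_
    split_ifs <;> ring
  have h6 : v (∑ i, g i * j (ε i) - ∑ i ∈ J, ω i * j s ^ o i * j (ε i)) <
      v (∑ i ∈ J, ω i * j s ^ o i * j (ε i)) := by
    rw [h5, key]
    refine Valuation.map_sum_lt v hz fun i _ => ?_
    rw [map_mul]
    split_ifs with hi
    · rw [← hνJ i hi]
      exact mul_lt_mul_of_pos_right (hl i (hg0 i hi)).2 (hε i)
    · exact lt_of_le_of_ne (hmax i (Finset.mem_univ _)) fun h => hi ((hJm i).2 h)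
  rw [Valuation.map_eq_of_sub_lt v h6, key]

/-- a homomorphism compatible with the new constants -/
noncomputable def copy_alg {F : Type} [Field F] [Algebra ℂ F] {φ : ℂ →+* R} (j : F →+* R)
    (hj : ∀ c, j (algebraMap ℂ F c) = φ c) : F →ₐ[ℂ] Tw φ where
  toRingHom := (Tw.mk φ).toRingHom.comp j
  commutes' := hj

/-- Orthogonality over a larger field.  Work in `Tw φ` and write `e i = j (ε i)`.  Let `ν` be the
largest `v (g i) * v (e i)`, positive, and `J` the set where it is attained; `Apx.lead` gives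
`g i = ω i * t ^ o i + smaller` for `i ∈ J`.  Fix `i0 ∈ J` and apply `res_indep` (in `Tw φ`, with
`Tw.field φ Ω`, `Tw.der φ (D l)`, `F` the field range of `j`) to
`t ^ o i * e i / (t ^ o i0 * e i0)`, `i ∈ J`. -/
theorem orth_ext {F : Type} [Field F] [Algebra ℂ F] {φ : ℂ →+* R} (j : F →+* R)
    (hj : ∀ c, j (algebraMap ℂ F c) = φ c) {κ : Type} [Fintype κ] [DecidableEq κ] {s : F}
    {u : κ → F} (hf : IsFrame (v.comap j) s u) {Ω : IntermediateField ℂ R} (hφ : ∀ c, φ c ∈ Ω)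
    (hΩ : ∀ a ∈ Ω, a ≠ 0 → v a = 1) (D : κ → Derivation ℂ R R)
    (hD : ∀ l, D l ∈ LD v (insert (j s) (Ω : Set R)))
    (hd : ∀ l l', D l (j (u l')) = if l = l' then 1 else 0) {N : ℕ} (ε : Fin N → F)
    (hne : ∀ i, ε i ≠ 0)
    (ho : ∀ (J : Finset (Fin N)) (o : Fin N → ℕ) (γ : Fin N → ℂ) (ν : ℝ≥0),
      (∀ i ∈ J, v (j s) ^ o i * v (j (ε i)) = ν) → (∃ i ∈ J, γ i ≠ 0) →
      v (j (∑ i ∈ J, algebraMap ℂ F (γ i) * (s ^ o i * ε i))) = ν)
    (g : Fin N → R) (hg : ∀ i, Apx v Ω (j s) (g i)) (i : Fin N) :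
    v (g i) * v (j (ε i)) ≤ v (∑ i, g i * j (ε i)) := by
  have hk : ∀ l c, D l (φ c) = 0 := fun l c => (hD l).2 _ (Set.mem_insert_of_mem _ (hφ c))
  exact copy_orth (v := Tw.val φ v) (copy_alg j hj) hf (Ω := Tw.field φ Ω hφ) hΩ
    (fun l => Tw.der φ (D l) (hk l)) (fun l => ⟨(hD l).1, (hD l).2⟩) hd ε hne ho g hg i

omit [Algebra ℂ R] in
theorem copy_le_of_apx {r : ℝ≥0} (hr : r < 1) {a b : R}
    (h : ∀ n : ℕ, ∃ a' b', v a' = v b' ∧ v (a - a') ≤ r ^ n ∧ v (b - b') ≤ r ^ n) : v a ≤ v b := by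
  by_contra hlt
  rw [not_le] at hlt
  obtain ⟨n, hn⟩ := exists_pow_lt_of_lt_one (lt_of_le_of_lt zero_le hlt) hr
  obtain ⟨a', b', h1, h2, h3⟩ := h n
  have h4 : v a' = v a := by
    refine Valuation.map_eq_of_sub_lt v ?_
    rw [Valuation.map_sub_swap]
    exact h2.trans_lt hn
  have h5 : v b' < v a := by
    have : b' = b - (b - b') := by ring
    rw [this]
    exact Valuation.map_sub_lt v hlt (h3.trans_lt hn)
  exact h5.ne (h1.symm.trans h4)

omit [Algebra ℂ R] in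
theorem copy_eq_of_apx {r : ℝ≥0} (hr : r < 1) {a b : R}
    (h : ∀ n : ℕ, ∃ a' b', v a' = v b' ∧ v (a - a') ≤ r ^ n ∧ v (b - b') ≤ r ^ n) : v a = v b :=
  le_antisymm (copy_le_of_apx hr h) (copy_le_of_apx hr fun n => by
    obtain ⟨a', b', h1, h2, h3⟩ := h n
    exact ⟨b', a', h1.symm, h3, h2⟩)

/-- fresh variables are residually independent over the new constants -/
theorem copy_resInd {k k2 : IntermediateField ℂ R} {t : R} {φ : ℂ →+* R} (h : TwData v k t φ)
    (hv : IsAbh v) (hk : k ≤ k2) {ι : Type} [Fintype ι] [DecidableEq ι] {ζ : ι → R}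
    {D : ι → Derivation ℂ R R} (hζ : Fresh v k2 ζ D) :
    ResInd (Tw.val φ v) fun i => Tw.mk φ (ζ i) := by
  intro p hp
  refine le_antisymm (lat_aeval_le (w := Tw.val φ v) h.unit _ hζ.le p) ?_
  obtain ⟨α, hα⟩ := MvPolynomial.ne_zero_iff.1 hp
  have h1 := hζ.gauss hv.triv (map φ p) (fun α a => by
    rw [coeff_map]
    exact h.kill _ (fun b hb => (hζ.mem a).2 b (hk hb)) _) α
  rw [coeff_map, h.unit _ hα, eval_map] at h1
  exact h1

theorem copy_apx_poly {Ω : IntermediateField ℂ R} {φ : ℂ →+* R} (hφ : ∀ c, φ c ∈ Ω) (t : R)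
    (p : Polynomial ℂ) : Apx v Ω t (p.eval₂ φ t) := fun n =>
  ⟨p.map φ, fun i => by rw [Polynomial.coeff_map]; exact hφ _, by
    rw [Polynomial.eval_map, sub_self, map_zero]; exact zero_le⟩

theorem copy_det {k : IntermediateField ℂ R} {t : R} {φ : ℂ →+* R} (h : TwData v k t φ) {N : ℕ}
    (E : Fin N → Fin N → Polynomial ℂ) (hE : (Matrix.of fun i j => (E i j).coeff 0).det ≠ 0) :
    v (Matrix.of fun i j => (E i j).eval₂ φ t).det = 1 := by
  have h1 := (Polynomial.eval₂RingHom φ t).map_det (Matrix.of E)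
  have h2 := (Polynomial.constantCoeff : Polynomial ℂ →+* ℂ).map_det (Matrix.of E)
  have h3 : (Matrix.of fun i j => (E i j).eval₂ φ t).det = (Matrix.of E).det.eval₂ φ t := h1.symm
  rw [h3, (h.val_poly _).2]
  exact fun h0 => hE (h2.symm.trans h0)

omit [Algebra ℂ R] in
theorem copy_sum {N : ℕ} (E : Matrix (Fin N) (Fin N) R) (hE : E.det ≠ 0) (f B : Fin N → R) :
    ∑ i, (∑ l, f l * E⁻¹ l i) * ∑ l, E i l * B l = ∑ l, f l * B l := by
  have h1 : dotProduct (Matrix.vecMul f E⁻¹) (E.mulVec B) = dotProduct f B := by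
    rw [← Matrix.dotProduct_mulVec, Matrix.mulVec_mulVec,
      Matrix.nonsing_inv_mul E (isUnit_iff_ne_zero.2 hE), Matrix.one_mulVec]
  exact h1

end General

namespace Model

variable {ι L : Type} [Fintype ι] [DecidableEq ι] [Field L] [Algebra ℂ L] (Mo : Model ι L)
  {R : Type} [Field R] [Algebra ℂ R] {v : Val R}

/-- Take `φ` from `exists_tw_agree` for `k` and `T`, the realisation `j` of `(Y, Z)`
(`exists_rz`), `w = v.comap j`, a frame `(X, u)` of `w` indexed by `ι` (`frame_idx`,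
`IsFrame.change`) and `E'` from `orth`; `E i l = (E' i l).eval₂ φ t`.  In `Tw φ` the `ζ` are
residually independent (`Fresh.gauss` for the `Tw.der φ (D l)`), so `exists_embed_val` gives `j'`
with `j' X = t`, `j' (u l) = ζ l` and `v ∘ j' = w`; `(Y', Z') = (j' (C y), j' (C z))`, `Rz.val`.
Values of combinations with coefficients in `k`: approximate the coefficients (`TwData.apx`) and
let the precision tend to infinity.  Entropy: `evol_eq` for `w` with dual derivations `E l`, and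
`D l ∘ j' = j' ∘ E l` (`der_comp_eq` in `Tw φ`).  Orthogonality: `exists_big`, `orth_ext` with
`g = f ᵥ* E⁻¹` (`Apx.matrix_inv`, `inv_int`).  The last claim is `b1`. -/
theorem copy [IsAlgClosed R] (hv : IsAbh v) {k k2 : IntermediateField ℂ R} {t : R} (hk : k ≤ k2)
    (ht : t ∈ k) (hu : IsUnifOn v k2 t) {ζ : ι → R} {D : ι → Derivation ℂ R R}
    (hζ : Fresh v k2 ζ D) {m N : ℕ} (b : Module.Basis (Fin N) ℂ (Mo.V m)) (T : Finset L)
    (hT : ∀ a ∈ T, a ∈ Mo.toCover.A ∧ IsIntegral (Algebra.adjoin ℂ (Set.range Mo.y)) a)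
    (x : L →ₐ[ℂ] R) (hx : Mo.Nrm v x.toRingHom) (h0 : 0 < evol v k fun i => x (Mo.y i)) :
    ∃ (E : Matrix (Fin N) (Fin N) R) (Y' : ι → R) (Z' : R), (∀ i l, v (E i l) ≤ 1) ∧
      v E.det = 1 ∧ (∀ D' : Derivation ℂ R R, (∀ a ∈ k, D' a = 0) → ∀ i l, D' (E i l) = 0) ∧
      Mo.Pnt Y' Z' ∧ (∀ i, v (Y' i) ≤ 1) ∧ evol v k (fun i => x (Mo.y i)) ≤ evol v k2 Y' ∧
      (∀ (n1 : ℕ) (μ : Fin n1 → L) (c : Fin n1 → R), (∀ l, μ l ∈ T) → (∀ l, c l ∈ k) →
        (∀ l, v (c l) ≤ 1) → v (∑ l, c l * Mo.vl Y' Z' (μ l)) = v (∑ l, c l * x (μ l))) ∧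
      (∀ f : Fin N → R, (∀ i, f i ∈ k2) → (∀ i, v (f i) ≤ 1) → ∀ i,
        v (∑ l, f l * E⁻¹ l i) * v (∑ l, E i l * x (b l)) ≤ v (∑ l, f l * Mo.vl Y' Z' (b l))) ∧
      ∀ δ : ℚ, 0 ≤ δ → Mo.Stab δ m → evol v k (fun i => x (Mo.y i)) ≤
        (∏ i, v (∑ l, E i l * x (b l))) ^ ((δ : ℝ) / (m * N)) * v (x Mo.h) := by
  classical
  obtain ⟨hp, hvl⟩ := Mo.pnt_hom x
  have huk : IsUnifOn v k t := ⟨hu.1, hu.2.1, fun a ha => hu.2.2 a (hk ha)⟩
  set T' : Finset L := insert Mo.h (T ∪ Finset.univ.image fun l => (b l : L)) with hT'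
  have hTh : Mo.h ∈ T' := Finset.mem_insert_self _ _
  have hTT : ∀ a ∈ T, a ∈ T' := fun a ha => Finset.mem_insert_of_mem (Finset.mem_union_left _ ha)
  have hTb : ∀ l, (b l : L) ∈ T' := fun l => Finset.mem_insert_of_mem
    (Finset.mem_union_right _ (Finset.mem_image_of_mem _ (Finset.mem_univ l)))
  have hbA : ∀ l, (b l : L) ∈ Mo.toCover.A := fun l => Mo.mem_A (b l).2
  obtain ⟨φ, hφ, hA⟩ := Mo.exists_tw_agree hv ht huk T'
  obtain ⟨j, hj, hw, hex⟩ := exists_rz hφ hA hp hx.1 h0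
  set w : Val (RatFunc L) := v.comap j with hwd
  have hwj : ∀ a, w a = v (j a) := fun a => rfl
  have hX : w RatFunc.X = v t := by rw [hwj, hj.X]
  obtain ⟨t0, u, hf0, -⟩ := hw.abh.frame_idx Mo.toCover.ext.fg_top (κ := ι) Mo.toCover.ext.basis
    Fintype.card_option
  have hf : IsFrame w RatFunc.X u := hf0.change (hX ▸ hu.1) (hX ▸ hu.2.1)
  obtain ⟨E', hE0, hne, ho⟩ := Mo.orth (σ := fun l => (b l : L)) (fun l => (b l).2)
    (b.linearIndependent.map' (Mo.V m).subtype (Submodule.ker_subtype _)) hw (h0.trans_le hex)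
  obtain ⟨jT, hjX, hju, hjv⟩ := exists_embed_val hf Mo.toCover.ext.fg_top (Tw.val φ v) (Tw.mk φ t)
    (fun i => Tw.mk φ (ζ i)) hX.symm (copy_resInd hφ hv hk hζ)
  set j' : RatFunc L →+* R := (Tw.mk φ).symm.toRingHom.comp jT.toRingHom with hj'd
  have hv' : ∀ a, v (j' a) = w a := hjv
  have hu' : ∀ i, j' (u i) = ζ i := hju
  have hj' : Mo.Rz φ t (fun i => j' (RatFunc.C (Mo.y i))) (j' (RatFunc.C Mo.z)) j' :=
    ⟨jT.commutes, hjX, fun _ => rfl, rfl⟩
  obtain ⟨hp', hvl'⟩ := hj'.val hA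
  have hjx : ∀ a ∈ T', a ∈ Mo.toCover.A → j (RatFunc.C a) = x a := fun a ha ha' =>
    ((hj.val hA).2 a ha ha').trans (hvl a ha')
  have hdet := copy_det hφ E' hE0
  have hkD : ∀ l, ∀ a ∈ k, D l a = 0 := fun l a ha => (hζ.mem l).2 a (hk ha)
  have hps : ∀ i, w (psec (fun l => (b l : L)) (E' i)) =
      v (∑ l, (E' i l).eval₂ φ t * x (b l)) := by
    intro i
    rw [hwj, hj.psec hA hTb hbA]
    simp only [fun l => hvl _ (hbA l)]
  refine ⟨Matrix.of fun i l => (E' i l).eval₂ φ t, fun i => j' (RatFunc.C (Mo.y i)),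
    j' (RatFunc.C Mo.z), fun i l => (hφ.val_poly _).1, hdet,
    fun D' hD' i l => hφ.kill_poly D' hD' _, hp', fun i => (hv' _).trans_le (hw.le i), ?_, ?_, ?_,
    ?_⟩
  · obtain ⟨D0, G, hd, -, -, -⟩ := hf.exists_dual
    have hDG : ∀ l a, D l (j' a) = j' (G l a) := by
      intro l a
      have h1 := lat_decomp jT hf hd (Tw.der φ (D l) (hφ.kill _ (hkD l))) a
      have h2 : Tw.der φ (D l) (hφ.kill _ (hkD l)) (jT RatFunc.X) = 0 := by
        rw [hjX]; exact hkD l t ht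
      have h3 : ∀ i, Tw.der φ (D l) (hφ.kill _ (hkD l)) (jT (u i)) = if l = i then 1 else 0 :=
        fun i => by rw [hju]; exact hζ.dual l i
      rw [Fintype.sum_option] at h1
      simp only [Option.elim_none, Option.elim_some, h2, h3, zero_div, zero_mul, zero_add, ite_mul,
        one_mul, Finset.sum_ite_eq, Finset.mem_univ, if_true] at h1
      exact h1
    refine hex.trans ?_
    have h4 := evol_eq hf hd (fun i => RatFunc.C (Mo.y i)) (Equiv.refl ι)
    have h5 := lat_le_evol v k2 (fun i => j' (RatFunc.C (Mo.y i))) D hζ.mem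
    refine le_trans (le_of_eq (h4.trans ?_)) h5
    rw [← hv', RingHom.map_det]
    congr 2
    ext i l
    exact (hDG i _).symm
  · intro n1 μ c hμ hc hc1
    have hμA : ∀ l, μ l ∈ Mo.toCover.A := fun l => (hT _ (hμ l)).1
    have hle : ∀ l, v (x (μ l)) ≤ 1 := fun l => by
      rw [← hvl _ (hμA l)]
      exact Mo.vl_le_one (lat_const_le hv.triv) hp hx.1 (hμA l) (hT _ (hμ l)).2
    have hle' : ∀ l, v (Mo.vl (fun i => j' (RatFunc.C (Mo.y i))) (j' (RatFunc.C Mo.z)) (μ l)) ≤ 1 :=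
      fun l => by
        rw [← hvl' _ (hTT _ (hμ l)) (hμA l), hv', hwj, hjx _ (hTT _ (hμ l)) (hμA l)]
        exact hle l
    refine copy_eq_of_apx hu.2.1 fun n => ?_
    choose p hp using fun l => hφ.apx (c l) (hc l) (hc1 l) n
    refine ⟨j' (psec μ p), j (psec μ p), hv' _, ?_, ?_⟩
    · rw [hj'.psec hA (fun l => hTT _ (hμ l)) hμA, ← Finset.sum_sub_distrib]
      refine Valuation.map_sum_le v fun l _ => ?_
      rw [← sub_mul, map_mul]
      exact (mul_le_mul' (hp l) (hle' l)).trans_eq (mul_one _)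
    · rw [hj.psec hA (fun l => hTT _ (hμ l)) hμA, ← Finset.sum_sub_distrib]
      refine Valuation.map_sum_le v fun l _ => ?_
      rw [hvl _ (hμA l), ← sub_mul, map_mul]
      exact (mul_le_mul' (hp l) (hle l)).trans_eq (mul_one _)
  · intro f hfk hf1 i
    obtain ⟨Ω, hΩφ, hΩ, hΩa, hΩD⟩ := hφ.exists_big hv hk hu
    have hcm : v.comap j' = w := Valuation.ext hv'
    have hfr : IsFrame (v.comap j') RatFunc.X u := hcm ▸ hf
    have key := orth_ext j' hj'.const hfr hΩφ hΩ D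
      (fun l => ⟨(hζ.mem l).1, by
        rintro a (rfl | ha)
        · rw [hj'.X]; exact hkD l t ht
        · exact hΩD _ (hζ.mem l).2 a ha⟩)
      (fun l l' => by rw [hu']; exact hζ.dual l l') (fun i => psec (fun l => (b l : L)) (E' i)) hne
      (fun J o γ ν h1 h2 => by
        rw [hv']
        exact ho J o γ ν (fun i hi => by rw [← hv', ← hv']; exact h1 i hi) h2)
      (fun i => ∑ l, f l * (Matrix.of fun i l => (E' i l).eval₂ φ t)⁻¹ l i)
      (fun i => by
        rw [hj'.X]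
        exact Apx.sum _ fun l _ => Apx.mul hΩ hu.2.1 (hΩa _ (hfk l) (hf1 l))
          (Apx.matrix_inv hΩ hu.2.1 _ (fun i l => copy_apx_poly hΩφ t _) hdet l i)) i
    rw [hv', hps] at key
    refine key.trans_eq (congrArg v ?_)
    simp only [hj'.psec hA hTb hbA]
    exact copy_sum (Matrix.of fun i l => (E' i l).eval₂ φ t)
      (fun h => by rw [h, map_zero] at hdet; exact zero_ne_one hdet) f _
  · intro δ hδ hS
    have h1 : ∃ i, w (RatFunc.C (Mo.y i)) = 1 := by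
      obtain ⟨i, hi⟩ := hx.2
      exact ⟨i, by rw [hwj, hj.y]; exact hi⟩
    have h2 := Mo.b1 hδ hS b E' hE0 hne hw h1
    rw [hwj (RatFunc.C Mo.h), hjx _ hTh (Mo.mem_A Mo.h_mem)] at h2
    simp only [hps] at h2
    exact hex.trans h2

end Model

end Pool.Agent.MP_c0606f_ag.Klt

end
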