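import Pool.Agent.MP_c0606f_ag.Mg.Klt_Alg
import Pool.Agent.MP_c0606f_ag.Mg.Klt_Fib
import Pool.Agent.MP_c0606f_ag.Mg.Klt_BPrime

-- part MP_c0606f_ag.Klt.Ot
section

/-! A lossy form of the Ohsawa-Takegoshi extension theorem. -/

namespace Pool.Agent.MP_c0606f_ag.Klt

open MeasureTheory Filter Topology MvPolynomial
open scoped NNReal ENNReal

theorem ot_wt_option {ι : Type} [Fintype ι] (M : Option ι → ℕ) (y : Option ι → ℂ) :
    wt M y = ((1 + ‖y none‖ ^ 2)⁻¹) ^ M none * wt (fun i => M (some i)) fun i => y (some i) := by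
  unfold wt
  rw [Fintype.prod_option]

theorem ot_wt_elim {ι : Type} [Fintype ι] (M : ι → ℕ) (y : Option ι → ℂ) :
    wt (fun o : Option ι => o.elim 0 M) y = wt M fun i => y (some i) := by
  rw [ot_wt_option]; simp

theorem ot_split {X : Type} [MeasurableSpace X] {μ : Measure X} {u u1 u2 : X → ℝ} {k A1 A2 : ℝ}
    (hu : Measurable u1) (hk : 0 ≤ k) (hA1 : 0 ≤ A1) (hA2 : 0 ≤ A2)
    (h : ∀ᵐ p ∂μ, u p ≤ u1 p + k * u2 p)
    (h1 : ∫⁻ p, ENNReal.ofReal (u1 p) ∂μ ≤ ENNReal.ofReal A1)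
    (h2 : ∫⁻ p, ENNReal.ofReal (u2 p) ∂μ ≤ ENNReal.ofReal A2) :
    ∫⁻ p, ENNReal.ofReal (u p) ∂μ ≤ ENNReal.ofReal (A1 + k * A2) := by
  calc ∫⁻ p, ENNReal.ofReal (u p) ∂μ
      ≤ ∫⁻ p, (ENNReal.ofReal (u1 p) + ENNReal.ofReal k * ENNReal.ofReal (u2 p)) ∂μ := by
        refine lintegral_mono_ae (h.mono fun p hp => ?_)
        rw [← ENNReal.ofReal_mul hk]
        exact (ENNReal.ofReal_le_ofReal hp).trans ENNReal.ofReal_add_le
    _ ≤ ENNReal.ofReal A1 + ENNReal.ofReal k * ENNReal.ofReal A2 := by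
        rw [lintegral_add_left hu.ennreal_ofReal, lintegral_const_mul' _ _ ENNReal.ofReal_ne_top]
        gcongr
    _ = _ := by rw [← ENNReal.ofReal_mul hk, ENNReal.ofReal_add hA1 (mul_nonneg hk hA2)]

theorem ot_set {X : Type} [MeasurableSpace X] {μ : Measure X} {S : Set X} (hS : MeasurableSet S)
    (u : X → ℝ) : ∫⁻ p in S, ENNReal.ofReal (u p) ∂μ =
      ∫⁻ p, ENNReal.ofReal (S.indicator u p) ∂μ := by
  rw [← lintegral_indicator hS]
  congr 1
  funext p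
  by_cases h : p ∈ S <;> simp [h]

theorem ot_sq (a b : ℂ) : ‖b‖ ^ 2 ≤ 2 * ‖a‖ ^ 2 + 2 * ‖a - b‖ ^ 2 := by
  have h : ‖b‖ ≤ ‖a‖ + ‖a - b‖ := by simpa using norm_sub_le a (a - b)
  nlinarith [norm_nonneg b, norm_nonneg a, norm_nonneg (a - b), sq_nonneg (‖a‖ - ‖a - b‖)]

theorem ot_ofReal {ι : Type} [Fintype ι] {u : (ι → ℂ) → ℝ} (hu : Integrable u)
    (h0 : ∀ y, 0 ≤ u y) : ∫⁻ y, ENNReal.ofReal (u y) ≤ ENNReal.ofReal (∫ y, u y) :=
  (ofReal_integral_eq_lintegral_ofReal hu (Eventually.of_forall h0)).ge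

theorem ot_disc {ε : ℝ} (hε : 0 < ε) : ∫⁻ w : ℂ, ENNReal.ofReal
    ((Metric.closedBall (0 : ℂ) ε).indicator (fun _ => (ε ^ 2)⁻¹) w) ≤ ENNReal.ofReal Real.pi := by
  rw [← ot_set measurableSet_closedBall, setLIntegral_const, Complex.volume_closedBall,
    ← ENNReal.ofReal_pow hε.le, ← mul_assoc, ← ENNReal.ofReal_mul (by positivity),
    inv_mul_cancel₀ (by positivity), ENNReal.ofReal_one, one_mul, ← NNReal.coe_real_pi,
    ENNReal.ofReal_coe_nnreal]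

theorem ot_r1 {g Φ f h S T w c a : ℝ} (hg : g ≤ Φ * f ^ c * h) (hΦ : 0 ≤ Φ) (hf0 : 0 ≤ f)
    (hf : f ≤ 2 * S) (hS : 0 < S) (hh : 0 < h) (hT : 1 ≤ T) (hw : 0 < w) (hc : 0 ≤ c)
    (ha : 0 ≤ a) : g * (w / (S ^ c * h * T ^ a)) ≤ 2 ^ c * (Φ * w) := by
  have h1 : f ^ c ≤ 2 ^ c * S ^ c := by
    rw [← Real.mul_rpow zero_le_two hS.le]; exact Real.rpow_le_rpow hf0 hf hc
  have h2 : 1 ≤ T ^ a := Real.one_le_rpow hT ha
  have h3 : 0 < S ^ c := Real.rpow_pos_of_pos hS c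
  have h4 : (0 : ℝ) < 2 ^ c := Real.rpow_pos_of_pos two_pos c
  rw [← mul_div_assoc, div_le_iff₀ (by positivity)]
  calc g * w ≤ Φ * (2 ^ c * S ^ c) * h * w * 1 := by
        rw [mul_one]
        exact mul_le_mul_of_nonneg_right (hg.trans (by gcongr)) hw.le
    _ ≤ Φ * (2 ^ c * S ^ c) * h * w * T ^ a := by gcongr
    _ = _ := by ring

theorem ot_r2 {t ε a : ℝ} (hε : 0 < ε) (k : ℝ) (hk : 1 ≤ k) (ht : 0 ≤ t) (ha : a ≤ 1) :
    (k * (t / ε ^ 2)) ^ a ≤ k * (ε ^ (-2 * a) * t ^ a) := by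
  have h1 : k ^ a ≤ k := by simpa using Real.rpow_le_rpow_of_exponent_le hk ha
  have h2 : ((ε ^ 2)⁻¹) ^ a = ε ^ (-2 * a) := by
    rw [Real.rpow_mul hε.le, Real.rpow_neg hε.le, Real.rpow_two]
  rw [Real.mul_rpow (by linarith) (by positivity), div_eq_inv_mul,
    Real.mul_rpow (by positivity) ht, h2]
  exact mul_le_mul_of_nonneg_right h1 (by positivity)

theorem ot_r3 {S S1 h t w c a ε : ℝ} (hS : 0 < S) (hS1 : S ≤ S1) (hh : 0 < h) (ht : 0 ≤ t)
    (hw : 0 < w) (hc : 0 ≤ c) (ha : 0 ≤ a) (ha1 : a ≤ 1) (hε : 0 < ε) (hε1 : ε ≤ 1) :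
    h⁻¹ ≤ ε ^ (-2 * a) * (S1 ^ c * (t + 1) * w⁻¹) * (w / (S ^ c * h * (t / ε ^ 2 + 1) ^ a)) := by
  have h1 : S ^ c ≤ S1 ^ c := Real.rpow_le_rpow hS.le hS1 hc
  have h2 : (t / ε ^ 2 + 1) ^ a ≤ (t + 1) * ε ^ (-2 * a) := by
    have h3 := ot_r2 hε (t + 1) (by linarith) zero_le_one ha1
    rw [Real.one_rpow, mul_one] at h3
    refine le_trans (Real.rpow_le_rpow (by positivity) ?_ ha) h3
    rw [add_mul, one_mul, mul_one_div]
    exact add_le_add le_rfl (one_le_one_div (by positivity) (pow_le_one₀ hε.le hε1))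
  have h3 : 0 < S ^ c := Real.rpow_pos_of_pos hS c
  have h4 : 0 < (t / ε ^ 2 + 1) ^ a := Real.rpow_pos_of_pos (by positivity) a
  rw [← mul_div_assoc, le_div_iff₀ (by positivity)]
  calc h⁻¹ * (S ^ c * h * (t / ε ^ 2 + 1) ^ a) = S ^ c * (t / ε ^ 2 + 1) ^ a := by field_simp
    _ ≤ S1 ^ c * ((t + 1) * ε ^ (-2 * a)) := mul_le_mul h1 h2 h4.le (h3.le.trans h1)
    _ = _ := by field_simp

theorem ot_r4 {S S0 k k' h t w c a ε x : ℝ} (hS : 0 < S) (hS0 : 0 < S0) (hk : S ≤ k * S0)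
    (hh : 0 < h) (ht : ε ^ 2 ≤ t) (hw : 0 < w) (hk' : w⁻¹ ≤ k') (hc : 0 ≤ c) (ha : 0 ≤ a)
    (ha1 : a ≤ 1) (hε : 0 < ε) (hx : 0 ≤ x) :
    t * x / (t ^ (1 + a) * S0 ^ c * h) ≤
      k ^ c * 2 * k' * ε ^ (-2 * a) * (x * (w / (S ^ c * h * (t / ε ^ 2 + 1) ^ a))) := by
  have ht0 : 0 < t := lt_of_lt_of_le (by positivity) ht
  have hk0 : 0 ≤ k := by
    by_contra hn
    nlinarith [mul_pos (neg_pos.2 (not_le.1 hn)) hS0]
  have h1 : S ^ c ≤ k ^ c * S0 ^ c := by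
    rw [← Real.mul_rpow hk0 hS0.le]; exact Real.rpow_le_rpow hS.le hk hc
  have h2 : (t / ε ^ 2 + 1) ^ a ≤ 2 * (ε ^ (-2 * a) * t ^ a) := by
    refine le_trans (Real.rpow_le_rpow (by positivity) ?_ ha) (ot_r2 hε 2 one_le_two ht0.le ha1)
    have := (one_le_div (by positivity : 0 < ε ^ 2)).2 ht
    linarith
  have h3 : 0 < S ^ c := Real.rpow_pos_of_pos hS c
  have h4 : 0 < (t / ε ^ 2 + 1) ^ a := Real.rpow_pos_of_pos (by positivity) a
  have h5 : 1 ≤ k' * w := by rwa [← div_le_iff₀ hw, one_div]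
  have h6 : 0 < t ^ a := Real.rpow_pos_of_pos ht0 a
  have h7 : 0 < S0 ^ c := Real.rpow_pos_of_pos hS0 c
  have h8 : 0 < ε ^ (-2 * a) := Real.rpow_pos_of_pos hε _
  have h9 : 0 ≤ k ^ c := Real.rpow_nonneg hk0 c
  rw [Real.rpow_add ht0, Real.rpow_one, ← mul_div_assoc, ← mul_div_assoc,
    div_le_div_iff₀ (by positivity) (by positivity)]
  calc t * x * (S ^ c * h * (t / ε ^ 2 + 1) ^ a)
      ≤ t * x * (k ^ c * S0 ^ c * h * (2 * (ε ^ (-2 * a) * t ^ a))) * 1 := by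
        rw [mul_one]; gcongr
    _ ≤ t * x * (k ^ c * S0 ^ c * h * (2 * (ε ^ (-2 * a) * t ^ a))) * (k' * w) := by gcongr
    _ = _ := by ring

theorem ot_r5 {g τ : ℂ} {ε a x : ℝ} (hτ : τ ≠ 0) (hε : 0 < ε) (ha : 0 ≤ a) (ha1 : a ≤ 1)
    (h0 : 0 ≤ x ∧ x ≤ 1) (h1 : ‖τ‖ ^ 2 / ε ^ 2 ≤ 1 / 2 → x = 1) :
    ‖g * τ⁻¹ * ((x - 1 : ℝ) : ℂ)‖ ^ 2 ≤ 2 * ε ^ (-2 * a) * ‖τ‖ ^ (2 * a - 2) * ‖g‖ ^ 2 := by
  have ht := norm_pos_iff.2 hτ
  rcases le_or_gt (‖τ‖ ^ 2 / ε ^ 2) (1 / 2) with h | h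
  · rw [h1 h]; simp only [sub_self, Complex.ofReal_zero, mul_zero, norm_zero]
    rw [zero_pow two_ne_zero]; positivity
  · have h2 : 1 ≤ 2 * (ε ^ (-2 * a) * (‖τ‖ ^ 2) ^ a) :=
      (Real.one_le_rpow (by linarith) ha).trans (ot_r2 hε 2 one_le_two (by positivity) ha1)
    have h3 : (x - 1) ^ 2 ≤ 1 := by nlinarith [h0.1, h0.2]
    rw [norm_mul, norm_mul, norm_inv, Complex.norm_real, Real.norm_eq_abs, mul_pow, sq_abs,
      Real.rpow_sub ht, Real.rpow_mul ht.le, Real.rpow_two]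
    calc (‖g‖ * ‖τ‖⁻¹) ^ 2 * (x - 1) ^ 2
        ≤ (‖g‖ * ‖τ‖⁻¹) ^ 2 * (2 * (ε ^ (-2 * a) * (‖τ‖ ^ 2) ^ a)) :=
          mul_le_mul_of_nonneg_left (h3.trans h2) (by positivity)
      _ = _ := by field_simp

theorem ot_r6 {g t ε a B x D l : ℝ} (ht : 0 < t) (hε : 0 < ε) (ha : 0 < a) (hx : |x| ≤ B)
    (hD : 0 ≤ D) (h1 : t ≤ ε) (hl : a * (1 * D / (t ^ 2 / ε ^ 2 + 1) ^ 2) ≤ l) :
    (g * t⁻¹) ^ 2 * x ^ 2 * (t ^ 2 / ε ^ 2) * D ≤ 4 * B ^ 2 / a * (ε ^ 2)⁻¹ * g ^ 2 * l := by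
  have h2 : t ^ 2 / ε ^ 2 ≤ 1 := (div_le_one (by positivity)).2 (by gcongr)
  have h3 : x ^ 2 ≤ B ^ 2 := by rw [← sq_abs x]; gcongr
  have h4 : a * (D / 4) ≤ l := by
    refine le_trans (mul_le_mul_of_nonneg_left ?_ ha.le) hl
    rw [one_mul]
    refine div_le_div_of_nonneg_left hD (by positivity) ?_
    have : 0 ≤ t ^ 2 / ε ^ 2 := by positivity
    nlinarith
  calc (g * t⁻¹) ^ 2 * x ^ 2 * (t ^ 2 / ε ^ 2) * D
      = 4 * x ^ 2 / a * (ε ^ 2)⁻¹ * g ^ 2 * (a * (D / 4)) := by field_simp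
    _ ≤ _ := by gcongr

namespace RD

variable {ι X : Type} [Fintype ι] [TopologicalSpace X] {R : RD ι X} {u u' : X → ℝ}

/-- real functions of polynomial growth -/
def otGr (R : RD ι X) (u : X → ℝ) : Prop :=
  (∀ p, 0 ≤ u p) ∧ ∃ (M : ι → ℕ) (B : ℝ), ∀ p, u p * wt M (R.π p) ≤ B

theorem otGr.add (h : R.otGr u) (h' : R.otGr u') : R.otGr fun p => u p + u' p := by
  obtain ⟨h0, M, B, h⟩ := h
  obtain ⟨h0', M', B', h'⟩ := h'
  refine ⟨fun p => add_nonneg (h0 p) (h0' p), M + M', B + B', fun p => ?_⟩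
  rw [add_mul]
  refine add_le_add (le_trans ?_ (h p)) (le_trans ?_ (h' p))
  · exact mul_le_mul_of_nonneg_left (wt_anti (fun i => Nat.le_add_right _ _) _) (h0 p)
  · exact mul_le_mul_of_nonneg_left (wt_anti (fun i => Nat.le_add_left _ _) _) (h0' p)

theorem otGr.mul (h : R.otGr u) (h' : R.otGr u') : R.otGr fun p => u p * u' p := by
  obtain ⟨h0, M, B, h⟩ := h
  obtain ⟨h0', M', B', h'⟩ := h'
  refine ⟨fun p => mul_nonneg (h0 p) (h0' p), M + M', B * B', fun p => ?_⟩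
  have h1 := mul_nonneg (h0 p) (wt_pos M (R.π p)).le
  have h2 := mul_nonneg (h0' p) (wt_pos M' (R.π p)).le
  rw [wt_add, mul_mul_mul_comm]
  exact mul_le_mul (h p) (h' p) h2 (h1.trans (h p))

theorem otGr_const {c : ℝ} (hc : 0 ≤ c) : R.otGr fun _ => c :=
  ⟨fun _ => hc, 0, c, fun _ => mul_le_of_le_one_right hc (wt_le_one _ _)⟩

theorem otGr.rpow (h : R.otGr u) {c : ℝ} (hc : 0 ≤ c) : R.otGr fun p => u p ^ c := by
  obtain ⟨h0, M, B, h⟩ := h
  refine ⟨fun p => Real.rpow_nonneg (h0 p) c, fun i => ⌈c * M i⌉₊, B ^ c, fun p => ?_⟩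
  have h1 := wt_rpow (M := M) (M' := fun i => ⌈c * M i⌉₊) (γ := c) (fun i => Nat.le_ceil _) (R.π p)
  refine (mul_le_mul_of_nonneg_left h1 (Real.rpow_nonneg (h0 p) c)).trans ?_
  rw [← Real.mul_rpow (h0 p) (wt_pos _ _).le]
  exact Real.rpow_le_rpow (mul_nonneg (h0 p) (wt_pos _ _).le) (h p) hc

theorem otGr.pow (h : R.otGr u) (k : ℕ) : R.otGr fun p => u p ^ k := by
  simpa using h.rpow (Nat.cast_nonneg k)

theorem otGr_sum {β : Type} (S : Finset β) {u : β → X → ℝ} (h : ∀ i, R.otGr (u i)) :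
    R.otGr fun p => ∑ i ∈ S, u i p := by
  classical
  induction S using Finset.induction_on with
  | empty => simpa using otGr_const le_rfl
  | insert a s ha ih => simpa only [Finset.sum_insert ha] using (h a).add ih

theorem otGr_inv (M : ι → ℕ) : R.otGr fun p => (wt M (R.π p))⁻¹ :=
  ⟨fun _ => (inv_pos.2 (wt_pos _ _)).le, M, 1, fun _ => (inv_mul_cancel₀ (wt_pos _ _).ne').le⟩

theorem otGr_coord (k : ι) : R.otGr fun p => ‖R.π p k‖ ^ 2 := by
  classical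
  refine ⟨fun _ => by positivity, Pi.single k 1, 1, fun p => ?_⟩
  have h : wt (Pi.single k 1) (R.π p) = (1 + ‖R.π p k‖ ^ 2)⁻¹ := by
    unfold wt
    rw [Finset.prod_eq_single k (fun i _ hi => by simp [hi]) (by simp)]
    simp
  rw [h, ← div_eq_mul_inv, div_le_one (by positivity)]
  linarith

theorem otGr.bdd (h : R.otGr u) (B : ℝ) : ∃ B' : ℝ, 0 ≤ B' ∧ ∀ p, ‖R.π p‖ ≤ B → u p ≤ B' := by
  obtain ⟨h0, M, B1, h⟩ := h
  obtain ⟨c, hc, hw⟩ := le_wt M B
  refine ⟨|B1| / c, by positivity, fun p hp => ?_⟩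
  rw [le_div_iff₀ hc]
  exact ((mul_le_mul_of_nonneg_left (hw _ hp) (h0 p)).trans (h p)).trans (le_abs_self _)

theorem ot_levi [DecidableEq ι] {φ1 φ2 φ3 φ4 : X → ℝ} (h1 : R.SmR φ1) (h2 : R.SmR φ2)
    (h3 : R.SmR φ3) (h4 : R.SmR φ4) (l1 : ∀ p ξ, 0 ≤ R.levi φ1 p ξ) (l2 : ∀ p ξ, 0 ≤ R.levi φ2 p ξ)
    (l4 : ∀ p ξ, 0 ≤ R.levi φ4 p ξ) {c : ℝ} (hc : 0 ≤ c) (a : ℝ) :
    R.SmR (fun x => c * φ1 x + φ2 x + a * φ3 x + φ4 x) ∧ ∀ p ξ, a * R.levi φ3 p ξ ≤
      R.levi (fun x => c * φ1 x + φ2 x + a * φ3 x + φ4 x) p ξ := by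
  have s1 : R.SmR fun x => c * φ1 x := (SmR.const c).mul h1
  have s3 : R.SmR fun x => a * φ3 x := (SmR.const a).mul h3
  refine ⟨((s1.add h2).add s3).add h4, fun p ξ => ?_⟩
  rw [levi_add ((s1.add h2).add s3) h4, levi_add (s1.add h2) s3, levi_add s1 h2,
    levi_const_mul h1, levi_const_mul h3]
  have := mul_nonneg hc (l1 p ξ)
  linarith [l2 p ξ, l4 p ξ]

theorem ot_log [DecidableEq ι] {f : X → ℂ} (hf : R.Hol f) {e : ℝ} (h0 : ∀ x, 0 < ‖f x‖ ^ 2 + e) :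
    R.SmR (fun x => Real.log (‖f x‖ ^ 2 + e)) ∧ ∀ p ξ,
      e * ‖R.dd f p ξ‖ ^ 2 / (‖f p‖ ^ 2 + e) ^ 2 ≤
        R.levi (fun x => Real.log (‖f x‖ ^ 2 + e)) p ξ := by
  have h1 : ∀ x, 0 < ∑ _i : Unit, ‖f x‖ ^ 2 + e := by simpa only [Fintype.sum_unique] using h0
  constructor
  · simpa only [Fintype.sum_unique] using smR_log (F := fun _ : Unit => f) (fun _ => hf) h1
  · simpa only [Fintype.sum_unique] using levi_log_ge (F := fun _ : Unit => f) (fun _ => hf) h1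

theorem ot_cut [DecidableEq ι] {f g : X → ℂ} (hf : R.Hol f) (hg : R.Hol g) {χ : ℝ → ℝ}
    (hχ : ContDiff ℝ ((⊤ : ℕ∞) : WithTop ℕ∞) χ) :
    R.Sm (fun x => g x * (χ (‖f x‖ ^ 2) : ℝ)) ∧ ∀ p (ξ : ι → ℂ),
      ‖∑ j, R.db j (fun x => g x * (χ (‖f x‖ ^ 2) : ℝ)) p * starRingEnd ℂ (ξ j)‖ ^ 2 ≤
        ‖g p‖ ^ 2 * deriv χ (‖f p‖ ^ 2) ^ 2 * ‖f p‖ ^ 2 * ‖R.dd f p ξ‖ ^ 2 := by
  constructor
  · simpa only [Fintype.sum_unique] using sm_cut (F := fun _ : Unit => f) (fun _ => hf) hg hχ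
  · simpa only [Fintype.sum_unique] using db_cut (F := fun _ : Unit => f) (fun _ => hf) hg hχ

end RD

namespace Cover

variable {ι L : Type} [Fintype ι] [DecidableEq ι] [Field L] [Algebra ℂ L] (C : Cover ι L)

/-- the projection of the product with the punctured line -/
def pr (p : C.ext.Pt) : C.Pt :=
  ⟨(fun i => p.1.1 (some i), p.1.2), (C.ext_isPt.1 (by
    have e : (fun o : Option ι => o.elim (p.1.1 none) fun i => p.1.1 (some i)) = p.1.1 := by
      funext o; cases o <;> rfl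
    rw [e]; exact p.2)).2⟩

omit [Fintype ι] [DecidableEq ι] in
theorem ot_elim (p : C.ext.Pt) :
    (fun o : Option ι => o.elim (p.1.1 none) fun i => p.1.1 (some i)) = p.1.1 := by
  funext o; cases o <;> rfl

omit [Fintype ι] [DecidableEq ι] in
theorem tau_ne (p : C.ext.Pt) : p.1.1 none ≠ 0 :=
  (C.ext_isPt.1 (by rw [C.ot_elim p]; exact p.2)).1

omit [Fintype ι] [DecidableEq ι] in
theorem fn_C {a : L} (ha : a ∈ C.A) (p : C.ext.Pt) :
    C.ext.fn (RatFunc.C a) p = C.fn a (C.pr p) := by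
  have h := C.ext_ev (φ := RingHom.id ℂ) (y := fun i => p.1.1 (some i)) (z := p.1.2)
    (τ := p.1.1 none) (by rw [C.ot_elim p]; exact p.2) ha
  rw [C.ot_elim p] at h
  exact h

omit [Fintype ι] [DecidableEq ι] in
theorem fn_X (p : C.ext.Pt) : C.ext.fn RatFunc.X p = p.1.1 none :=
  C.ext.ev_y p.2 none

omit [Fintype ι] [DecidableEq ι] in
theorem X_mem : (RatFunc.X : RatFunc L) ∈ C.ext.A ∧ (RatFunc.X : RatFunc L)⁻¹ ∈ C.ext.A := by
  refine ⟨C.ext.y_mem none, ?_⟩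
  have h := C.ext.inv_mem_of_dvd (b := X none) (dvd_mul_right _ _)
  rwa [aeval_X] at h

omit [DecidableEq ι] in
theorem Grow.ext {M : ι → ℕ} {a : L} (ha : a ∈ C.A) (h : C.Grow M a) :
    C.ext.Grow (fun o => o.elim 0 M) (RatFunc.C a) := by
  obtain ⟨B, hB⟩ := h
  refine ⟨B, fun p => ?_⟩
  rw [C.fn_C ha, ot_wt_elim]
  exact hB (C.pr p)

omit [DecidableEq ι] in
/-- Fubini on `Option ι → ℂ` -/
theorem lintegral_option (a : ℂ → ℝ≥0∞) (ha : Measurable a) (b : (ι → ℂ) → ℝ≥0∞)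
    (hb : Measurable b) : ∫⁻ y : Option ι → ℂ, a (y none) * b (fun i => y (some i)) =
      (∫⁻ τ, a τ) * ∫⁻ y, b y := by
  have h := Measure.pi_map_piOptionEquivProd (β := fun _ : Option ι => ℂ) fun _ => volume
  rw [volume_pi, ← h, lintegral_map_equiv, mul_comm, volume_pi,
    ← lintegral_prod_mul hb.aemeasurable ha.aemeasurable]
  congr 1
  funext z
  rw [mul_comm]
  rfl

omit [DecidableEq ι] in
/-- a polynomial weight is dominated by a sum of squares of holomorphic functions -/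
theorem inv_wt_le (M : ι → ℕ) : ∃ (d : ℕ) (B : ℝ), 0 < B ∧ ∀ y : ι → ℂ,
    (wt M y)⁻¹ ≤ B * (∑ i, ‖y i ^ d‖ ^ 2 + 1) := by
  refine ⟨∑ i, M i, 2 ^ ∑ i, M i, by positivity, fun y => ?_⟩
  have h1 : (wt M y)⁻¹ ≤ (1 + ‖y‖ ^ 2) ^ ∑ i, M i := by
    unfold wt
    rw [← Finset.prod_inv_distrib, ← Finset.prod_pow_eq_pow_sum]
    refine Finset.prod_le_prod (fun i _ => by positivity) fun i _ => ?_
    rw [inv_pow, inv_inv]
    gcongr
    exact norm_le_pi_norm y i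
  refine h1.trans ?_
  generalize ∑ i, M i = d
  have h0 : 0 ≤ ∑ i, ‖y i ^ d‖ ^ 2 := by positivity
  rcases le_or_gt ‖y‖ 1 with h | h
  · have : (1 + ‖y‖ ^ 2) ^ d ≤ 2 ^ d :=
      pow_le_pow_left₀ (by positivity) (by nlinarith [norm_nonneg y]) d
    nlinarith [pow_pos (two_pos : (0 : ℝ) < 2) d]
  · obtain ⟨i, hi⟩ : ∃ i, ‖y‖ ≤ ‖y i‖ := by
      by_contra hn
      push Not at hn
      exact lt_irrefl _ ((pi_norm_lt_iff (by linarith)).2 hn)
    have h2 : (1 + ‖y‖ ^ 2) ^ d ≤ (2 * ‖y i‖ ^ 2) ^ d :=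
      pow_le_pow_left₀ (by positivity) (by nlinarith) d
    have h3 : ‖y i ^ d‖ ^ 2 ≤ ∑ i, ‖y i ^ d‖ ^ 2 :=
      Finset.single_le_sum (f := fun i => ‖y i ^ d‖ ^ 2) (fun i _ => by positivity)
        (Finset.mem_univ i)
    rw [mul_pow, ← pow_mul, mul_comm 2 d, pow_mul, ← norm_pow (y i) d] at h2
    refine h2.trans (mul_le_mul_of_nonneg_left (by linarith) (by positivity))

omit [DecidableEq ι] in
theorem ot_int {α : ℂ → ℝ} {β : (ι → ℂ) → ℝ} (hα : Measurable α) (hβ : Measurable β)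
    (h0 : ∀ w, 0 ≤ α w) {A B k : ℝ} (hA : 0 ≤ A) (hk : 0 ≤ k)
    (h1 : ∫⁻ w, ENNReal.ofReal (α w) ≤ ENNReal.ofReal A)
    (h2 : ∫⁻ y, ENNReal.ofReal (β y) ≤ ENNReal.ofReal B) {u : C.ext.Pt → ℝ}
    (h : ∀ᵐ p ∂(C.ext.rd.mu), u p ≤ k * (α (p.1.1 none) * β fun i => p.1.1 (some i))) :
    ∫⁻ p, ENNReal.ofReal (u p) ∂(C.ext.rd.mu) ≤
      ENNReal.ofReal (C.ext.P.natDegree * (k * (A * B))) := by
  have hm : Measurable fun y : Option ι → ℂ => fun i => y (some i) := by fun_prop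
  refine (C.ext.rd.lintegral_le_of_card C.ext.encard_fibre (G := fun y => ENNReal.ofReal k *
    (ENNReal.ofReal (α (y none)) * ENNReal.ofReal (β fun i => y (some i)))) ?_ ?_).trans ?_
  · exact ((hα.comp (measurable_pi_apply none)).ennreal_ofReal.mul
      (hβ.comp hm).ennreal_ofReal).const_mul _
  · refine h.mono fun p hp => ?_
    rw [← ENNReal.ofReal_mul (h0 _), ← ENNReal.ofReal_mul hk]
    exact ENNReal.ofReal_le_ofReal hp
  · rw [lintegral_const_mul' _ _ ENNReal.ofReal_ne_top,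
      lintegral_option _ hα.ennreal_ofReal _ hβ.ennreal_ofReal,
      ENNReal.ofReal_mul (Nat.cast_nonneg _), ENNReal.ofReal_mul hk, ENNReal.ofReal_mul hA,
      ENNReal.ofReal_natCast]
    gcongr

omit [DecidableEq ι] in
theorem ot_ae {b : MvPolynomial ι ℂ} (hb : b ≠ 0) :
    ∀ᵐ p ∂(C.ext.rd.mu), eval (C.pr p).1.1 b ≠ 0 := by
  have h : rename (some : ι → Option ι) b ≠ 0 := fun h0 =>
    hb (rename_injective _ (Option.some_injective ι) (h0.trans (map_zero _).symm))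
  refine (C.ext.rd.ae_of_ae_base (ae_eval_ne h)).mono fun p hp => ?_
  rwa [eval_rename] at hp

omit [DecidableEq ι] in
theorem ot_grow {M : ι → ℕ} {a : L} (h : C.Grow M a) : C.rd.otGr fun p => ‖C.fn a p‖ ^ 2 :=
  ⟨fun _ => by positivity, M, h⟩

theorem ot_core {g F f0 η : C.ext.Pt → ℂ} (hg : C.ext.rd.Hol g) (hF : C.ext.rd.Hol F)
    (hη : C.ext.rd.Hol η) (gg : C.ext.rd.otGr fun p => ‖g p‖ ^ 2)
    (gF : C.ext.rd.otGr fun p => ‖F p‖ ^ 2) (gf : C.ext.rd.otGr fun p => ‖f0 p‖ ^ 2)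
    (gη : C.ext.rd.otGr fun p => ‖η p‖ ^ 2) (hη0 : ∀ p, 0 < ‖η p‖ ^ 2) {d : ℕ} {K : ℝ}
    (hK1 : 1 ≤ K) (hK : ∀ (p : C.ext.Pt) (ε : ℝ), ε ≤ 1 → ‖p.1.1 none‖ ≤ ε →
      ‖f0 p‖ ^ 2 ≤ 2 * (‖F p‖ ^ 2 + ε ^ 2 * (K * (∑ i, ‖p.1.1 (some i) ^ d‖ ^ 2 + 1))))
    {c : ℝ} (hc : 0 ≤ c) {Φ : (ι → ℂ) → ℝ} {MI : ι → ℕ} (hΦ : Measurable Φ) (hΦ0 : ∀ y, 0 ≤ Φ y)
    (hΦi : Integrable fun y => Φ y * wt MI y) (hae : ∀ᵐ p ∂(C.ext.rd.mu),
      ‖g p‖ ^ 2 ≤ (Φ fun i => p.1.1 (some i)) * (‖f0 p‖ ^ 2) ^ c * ‖η p‖ ^ 2) :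
    ∃ M M' : Option ι → ℕ, ∀ a : ℝ, 0 < a → a ≤ 1 → ∀ B : ℝ, ∃ B1 : ℝ, 0 ≤ B1 ∧
      ∀ ε : ℝ, 0 < ε → ε ≤ 1 → ∃ H ∈ C.ext.A, C.ext.θ * H ∈ C.ext.Poly M ∧
        ∫⁻ p, ENNReal.ofReal (‖C.ext.fn H p‖ ^ 2 * wt M' p.1.1) ∂(C.ext.rd.mu) ≤
          ENNReal.ofReal (B1 * ε ^ (-2 * a)) ∧
        ∫⁻ p in {p : C.ext.Pt | ‖p.1.1‖ ≤ B ∧ ε ≤ ‖p.1.1 none‖}, ENNReal.ofReal
          (‖g p + p.1.1 none * C.ext.fn H p‖ ^ 2 / ((‖p.1.1 none‖ ^ 2) ^ (1 + a) *
            (‖F p‖ ^ 2 + ε ^ 2) ^ c * ‖η p‖ ^ 2)) ∂(C.ext.rd.mu) ≤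
          ENNReal.ofReal (B1 * ε ^ (-2 * a)) ∧
        ∀ B' : ℝ, ∫⁻ p in {p : C.ext.Pt | ‖p.1.1‖ ≤ B'}, ENNReal.ofReal
          (‖C.ext.fn H p‖ ^ 2 / ‖η p‖ ^ 2) ∂(C.ext.rd.mu) < ⊤ := by
  obtain ⟨c0, hsol⟩ := C.ext.solve
  obtain ⟨χ, Bχ, hχ, χ1, χ0, χ01, χB, χd⟩ := exists_step (a := 1 / 2) (b := 1) (by norm_num)
  obtain ⟨Γ, hΓ⟩ : ∃ Γ : C.ext.Pt → ℝ, ∀ p, Γ p = K * (∑ i, ‖p.1.1 (some i) ^ d‖ ^ 2 + 1) :=
    ⟨_, fun _ => rfl⟩
  simp only [← hΓ] at hK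
  have hΓ1 : ∀ p, 1 ≤ Γ p := fun p => by
    rw [hΓ]
    exact one_le_mul_of_one_le_of_one_le hK1 (le_add_of_nonneg_left (by positivity))
  have gΓ : C.ext.rd.otGr Γ := by
    have h := (RD.otGr_const (R := C.ext.rd) (zero_le_one.trans hK1)).mul
      ((RD.otGr_sum Finset.univ fun i : ι => (RD.otGr_coord (some i)).pow d).add
        (RD.otGr_const zero_le_one))
    have e : ∀ z : ℂ, (‖z‖ ^ 2) ^ d = ‖z ^ d‖ ^ 2 := fun z => by rw [norm_pow, pow_right_comm]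
    simpa only [e, rd_π, ← hΓ] using h
  obtain ⟨w, hw⟩ : ∃ w : C.ext.Pt → ℝ, ∀ p, w p = wt (fun o => o.elim 0 MI) p.1.1 :=
    ⟨_, fun _ => rfl⟩
  have hw0 : ∀ p, 0 < w p := fun p => by rw [hw]; exact wt_pos _ _
  have gw : C.ext.rd.otGr fun p => (w p)⁻¹ := by
    simpa only [hw, rd_π] using RD.otGr_inv (R := C.ext.rd) fun o => o.elim 0 MI
  obtain ⟨U, hU⟩ : ∃ U : C.ext.Pt → ℝ, ∀ p,
      U p = (‖F p‖ ^ 2 + Γ p) ^ c * (‖p.1.1 none‖ ^ 2 + 1) * (w p)⁻¹ := ⟨_, fun _ => rfl⟩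
  have gU : C.ext.rd.otGr U := by
    simpa only [rd_π, ← hU] using
      (((gF.add gΓ).rpow hc).mul ((RD.otGr_coord none).add (RD.otGr_const zero_le_one))).mul gw
  obtain ⟨-, M3, Bw0, hM3⟩ := (gU.mul gη).add (gg.mul (RD.otGr_inv fun _ => 2))
  obtain ⟨Bw, hBw0, hM31, hM32⟩ : ∃ Bw : ℝ, 0 ≤ Bw ∧
      (∀ p, U p * ‖η p‖ ^ 2 * wt M3 p.1.1 ≤ Bw) ∧
      ∀ p, ‖g p‖ ^ 2 * wt M3 p.1.1 ≤ Bw * wt (fun _ => 2) p.1.1 := by
    refine ⟨|Bw0|, abs_nonneg _, fun p => ?_, fun p => ?_⟩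
    · refine le_trans ?_ ((hM3 p).trans (le_abs_self _))
      exact mul_le_mul_of_nonneg_right (le_add_of_nonneg_right
        ((gg.mul (RD.otGr_inv fun _ => 2)).1 p)) (wt_pos _ _).le
    · rw [← div_le_iff₀ (wt_pos _ _), div_eq_mul_inv, mul_right_comm]
      refine le_trans ?_ ((hM3 p).trans (le_abs_self _))
      exact mul_le_mul_of_nonneg_right (le_add_of_nonneg_left ((gU.mul gη).1 p)) (wt_pos _ _).le
  have hJ := ot_ofReal hΦi fun y => mul_nonneg (hΦ0 y) (wt_pos _ _).le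
  have hJ0 : 0 ≤ ∫ y, Φ y * wt MI y := integral_nonneg fun y => mul_nonneg (hΦ0 y) (wt_pos _ _).le
  have hJ2 := ot_ofReal (integrable_wt (ι := ι)) fun y => (wt_pos _ _).le
  have hJ20 : 0 ≤ ∫ y : ι → ℂ, wt (fun _ => 2) y := integral_nonneg fun y => (wt_pos _ _).le
  generalize (∫ y, Φ y * wt MI y) = J at hJ hJ0
  generalize (∫ y : ι → ℂ, wt (fun _ => 2) y) = J2 at hJ2 hJ20
  have hβ : Measurable fun y => Φ y * wt MI y := hΦ.mul (continuous_wt MI).measurable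
  have hτc : Continuous fun p : C.ext.Pt => p.1.1 none :=
    (RD.Hol.coord (R := C.ext.rd) none).1.continuous
  have hπc : Continuous fun p : C.ext.Pt => ‖p.1.1‖ := C.ext.rd.continuous_π.norm
  refine ⟨fun i => M3 i + c0, M3, fun a ha ha1 B => ?_⟩
  obtain ⟨Bp, hBp0, hBp⟩ := lintegral_pole ha ha1
  replace hBp := hBp 0
  simp only [sub_zero] at hBp
  obtain ⟨kΓ, hkΓ0, hkΓ⟩ := gΓ.bdd B
  obtain ⟨kw, hkw0, hkw⟩ := gw.bdd B
  obtain ⟨I, hI⟩ : ∃ I : ℝ,
      I = C.ext.P.natDegree * (4 * Bχ ^ 2 / a * 2 ^ c * (Real.pi * J)) := ⟨_, rfl⟩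
  have hI0 : 0 ≤ I := by rw [hI]; positivity
  refine ⟨C.ext.P.natDegree * (4 * Bw * (Bp * J2)) + 2 * Bw * (2 * I) +
    (kΓ + 1) ^ c * 2 * kw * (2 * I), by positivity, fun ε hε hε1 => ?_⟩
  have he : 0 < ε ^ (-2 * a) := Real.rpow_pos_of_pos hε _
  have ht : C.ext.rd.Hol fun p => p.1.1 none * ((ε⁻¹ : ℝ) : ℂ) :=
    (RD.Hol.coord none).mul (RD.Hol.const _)
  have hte : ∀ p : C.ext.Pt, ‖p.1.1 none * ((ε⁻¹ : ℝ) : ℂ)‖ ^ 2 = ‖p.1.1 none‖ ^ 2 / ε ^ 2 :=
    fun p => by rw [norm_mul, Complex.norm_of_nonneg (inv_pos.2 hε).le, mul_pow, inv_pow,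
      div_eq_mul_inv]
  have hS0 : ∀ p, 0 < ‖F p‖ ^ 2 + ε ^ 2 * Γ p := fun p => by
    have := hΓ1 p
    positivity
  obtain ⟨s1, l1⟩ : C.ext.rd.SmR (fun p => Real.log (‖F p‖ ^ 2 + ε ^ 2 * Γ p)) ∧
      ∀ p ξ, 0 ≤ C.ext.rd.levi (fun p => Real.log (‖F p‖ ^ 2 + ε ^ 2 * Γ p)) p ξ := by
    have hK0 : 0 ≤ ε ^ 2 * K := by positivity
    have h1 : ∀ o : Option ι, C.ext.rd.Hol (o.elim F fun i p =>
        ((√(ε ^ 2 * K) : ℝ) : ℂ) * p.1.1 (some i) ^ d) := fun o => by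
      cases o with
      | none => exact hF
      | some i => exact (RD.Hol.const _).mul ((RD.Hol.coord (some i)).pow d)
    have h2 : ∀ p : C.ext.Pt, ∑ o : Option ι, ‖(o.elim F fun i (p : C.ext.Pt) =>
        ((√(ε ^ 2 * K) : ℝ) : ℂ) * p.1.1 (some i) ^ d) p‖ ^ 2 + ε ^ 2 * K =
        ‖F p‖ ^ 2 + ε ^ 2 * Γ p := fun p => by
      simp only [Fintype.sum_option, Option.elim_none, Option.elim_some, norm_mul, mul_pow,
        Complex.norm_of_nonneg (Real.sqrt_nonneg _), Real.sq_sqrt hK0, ← Finset.mul_sum, hΓ]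
      ring
    have h3 := RD.smR_log h1 (ε := ε ^ 2 * K) fun p => (h2 p).symm ▸ hS0 p
    have h4 := RD.levi_log_nonneg h1 hK0 fun p => (h2 p).symm ▸ hS0 p
    simp only [h2] at h3 h4
    exact ⟨h3, h4⟩
  obtain ⟨s2, l2⟩ := RD.ot_log hη (e := 0) fun p => by simpa only [add_zero] using hη0 p
  simp only [add_zero, zero_mul, zero_div] at s2 l2
  obtain ⟨s3, l3⟩ := RD.ot_log ht (e := 1) fun p => by positivity
  simp only [hte] at s3 l3
  obtain ⟨s4, l4⟩ := C.ext.rd.psh_wt fun o => o.elim 0 MI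
  simp only [rd_π, ← hw] at s4 l4
  obtain ⟨sφ, lφ⟩ := RD.ot_levi s1 s2 s3 s4 l1 l2 l4 hc a
  obtain ⟨φ, hφ⟩ : ∃ φ : C.ext.Pt → ℝ, φ = fun x => c * Real.log (‖F x‖ ^ 2 + ε ^ 2 * Γ x) +
      Real.log (‖η x‖ ^ 2) + a * Real.log (‖x.1.1 none‖ ^ 2 / ε ^ 2 + 1) + -Real.log (w x) :=
    ⟨_, rfl⟩
  rw [← hφ] at sφ lφ
  have hE : ∀ p, Real.exp (-φ p) = w p / ((‖F p‖ ^ 2 + ε ^ 2 * Γ p) ^ c * ‖η p‖ ^ 2 *
      (‖p.1.1 none‖ ^ 2 / ε ^ 2 + 1) ^ a) := fun p => by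
    rw [hφ, Real.exp_neg, Real.exp_add, Real.exp_add, Real.exp_add, Real.exp_neg,
      Real.exp_log (hw0 p), Real.exp_log (hη0 p), mul_comm c, mul_comm a,
      ← Real.rpow_def_of_pos (hS0 p), ← Real.rpow_def_of_pos (by positivity), mul_inv, inv_inv,
      div_eq_inv_mul (w p)]
  have hEU : ∀ p, (‖η p‖ ^ 2)⁻¹ ≤ ε ^ (-2 * a) * U p * Real.exp (-φ p) := fun p => by
    rw [hE, hU]
    refine ot_r3 (hS0 p) (add_le_add le_rfl ?_) (hη0 p) (by positivity) (hw0 p) hc ha.le ha1 hε hε1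
    exact mul_le_of_le_one_left (zero_le_one.trans (hΓ1 p)) (pow_le_one₀ hε.le hε1)
  have hwE : ∀ p, wt M3 p.1.1 ≤ ε ^ (-2 * a) * Bw * Real.exp (-φ p) := fun p => by
    calc wt M3 p.1.1 = ‖η p‖ ^ 2 * wt M3 p.1.1 * (‖η p‖ ^ 2)⁻¹ := by
          rw [mul_right_comm, mul_inv_cancel₀ (hη0 p).ne', one_mul]
      _ ≤ ‖η p‖ ^ 2 * wt M3 p.1.1 * (ε ^ (-2 * a) * U p * Real.exp (-φ p)) :=
          mul_le_mul_of_nonneg_left (hEU p) (mul_pos (hη0 p) (wt_pos _ _)).le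
      _ = ε ^ (-2 * a) * (U p * ‖η p‖ ^ 2 * wt M3 p.1.1) * Real.exp (-φ p) := by ring
      _ ≤ _ := by gcongr; exact hM31 p
  obtain ⟨sv, dv⟩ := RD.ot_cut ht (hg.mul ((RD.Hol.coord none).inv C.tau_ne))
    (χ := fun t => χ t - 1) (hχ.sub contDiff_const)
  simp only [hte, deriv_sub_const, rd_π] at sv dv
  obtain ⟨v, hv⟩ : ∃ v : C.ext.Pt → ℂ, v = fun x =>
      g x * (x.1.1 none)⁻¹ * ((χ (‖x.1.1 none‖ ^ 2 / ε ^ 2) - 1 : ℝ) : ℂ) := ⟨_, rfl⟩
  rw [← hv] at sv dv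
  have hvb : ∀ a' : ℝ, 0 ≤ a' → a' ≤ 1 → ∀ p, ‖v p‖ ^ 2 ≤
      2 * ε ^ (-2 * a') * ‖p.1.1 none‖ ^ (2 * a' - 2) * ‖g p‖ ^ 2 := fun a' h0 h1 p => by
    rw [hv]; exact ot_r5 (C.tau_ne p) hε h0 h1 (χ01 _) (χ1 _)
  obtain ⟨α, hα⟩ : ∃ α : ℂ → ℝ, α = (Metric.closedBall (0 : ℂ) ε).indicator fun _ => (ε ^ 2)⁻¹ :=
    ⟨_, rfl⟩
  have hαm : Measurable α := hα ▸ measurable_const.indicator measurableSet_closedBall
  have hα0 : ∀ z, 0 ≤ α z := fun z => hα ▸ Set.indicator_nonneg (fun _ _ => by positivity) z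
  have hα1 : ∀ z, ‖z‖ ≤ ε → α z = (ε ^ 2)⁻¹ := fun z hz => by
    rw [hα, Set.indicator_of_mem (mem_closedBall_zero_iff.2 hz)]
  have hα2 : ∀ z, ε < ‖z‖ → α z = 0 := fun z hz => by
    rw [hα, Set.indicator_of_notMem fun h => hz.not_ge (mem_closedBall_zero_iff.1 h)]
  have hlev : ∀ p ξ, 0 ≤ C.ext.rd.levi φ p ξ := fun p ξ =>
    le_trans (mul_nonneg ha.le (le_trans (by positivity) (l3 p ξ))) (lφ p ξ)
  have hv1 : ∫⁻ p, ENNReal.ofReal (2 * (‖v p‖ ^ 2 * wt M3 p.1.1)) ∂(C.ext.rd.mu) ≤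
      ENNReal.ofReal (C.ext.P.natDegree * (2 * (2 * ε ^ (-2 * a) * Bw) * (Bp * J2))) := by
    refine C.ot_int (by fun_prop) (continuous_wt _).measurable (fun z => by positivity) hBp0
      (by positivity) hBp hJ2 (Eventually.of_forall fun p => ?_)
    have h1 := hM32 p
    rw [ot_wt_option (fun _ => 2)] at h1
    calc 2 * (‖v p‖ ^ 2 * wt M3 p.1.1) ≤ 2 * (2 * ε ^ (-2 * a) * ‖p.1.1 none‖ ^ (2 * a - 2) *
          ‖g p‖ ^ 2 * wt M3 p.1.1) := by
          have := wt_pos M3 p.1.1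
          gcongr; exact hvb a ha.le ha1 p
      _ = 2 * (2 * ε ^ (-2 * a)) * ‖p.1.1 none‖ ^ (2 * a - 2) * (‖g p‖ ^ 2 * wt M3 p.1.1) := by
          ring
      _ ≤ _ := (mul_le_mul_of_nonneg_left h1 (by positivity)).trans_eq (by ring)
  obtain ⟨H, hH, hHθ, hHI⟩ := hsol M3 φ v (fun p => 4 * Bχ ^ 2 / a * α (p.1.1 none) * ‖g p‖ ^ 2) I
    (ε ^ (-2 * a) * Bw) sφ hlev sv
    (((hαm.comp hτc.measurable).const_mul _).mul (hg.1.continuous.norm.pow 2).measurable)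
    (fun p => by have := hα0 (p.1.1 none); positivity) (fun p ξ => (dv p ξ).trans (by
      rcases le_or_gt ‖p.1.1 none‖ ε with h | h
      · rw [hα1 _ h, norm_mul, norm_inv]
        exact ot_r6 (norm_pos_iff.2 (C.tau_ne p)) hε ha (χB _) (by positivity) h
          ((mul_le_mul_of_nonneg_left (l3 p ξ) ha.le).trans (lφ p ξ))
      · rw [hα2 _ h, χd _ (Or.inr ((one_le_div (by positivity)).2 (by gcongr)))]
        simp)) hI0 (by
      rw [hI]
      refine C.ot_int hαm hβ hα0 Real.pi_pos.le (by positivity) (hα ▸ ot_disc hε) hJ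
        (hae.mono fun p hp => ?_)
      rcases le_or_gt ‖p.1.1 none‖ ε with h | h
      · have h1 := ot_r1 hp (hΦ0 _) (by positivity) (hK p ε hε1 h) (hS0 p) (hη0 p)
          (le_add_of_nonneg_left (a := 1) (by positivity : 0 ≤ ‖p.1.1 none‖ ^ 2 / ε ^ 2)) (hw0 p)
          hc ha.le
        rw [← hE, hw p, ot_wt_elim] at h1
        have h2 := hα0 (p.1.1 none)
        rw [mul_assoc]
        exact (mul_le_mul_of_nonneg_left h1 (by positivity)).trans_eq (by ring)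
      · simp [hα2 _ h]) hwE
    (lt_of_le_of_lt (le_trans (lintegral_mono fun p => ENNReal.ofReal_le_ofReal (by
      have := mul_nonneg (sq_nonneg ‖v p‖) (wt_pos M3 p.1.1).le
      linarith)) hv1) ENNReal.ofReal_lt_top)
  refine ⟨H, hH, hHθ, ?_, ?_, fun B' => ?_⟩
  · refine (ot_split (k := 2 * (ε ^ (-2 * a) * Bw)) ?_ (by positivity) (by positivity)
      (by positivity) (Eventually.of_forall fun p => ?_) hv1 hHI).trans
      (ENNReal.ofReal_le_ofReal ?_)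
    · exact ((sv.continuous.norm.pow 2).mul
        ((continuous_wt M3).comp C.ext.rd.continuous_π)).measurable.const_mul 2
    · have h1 := mul_le_mul_of_nonneg_right (ot_sq (v p) (C.ext.fn H p)) (wt_pos M3 p.1.1).le
      have h2 := mul_le_mul_of_nonneg_left (hwE p) (sq_nonneg ‖v p - C.ext.fn H p‖)
      linarith
    · have : 0 ≤ (kΓ + 1) ^ c * 2 * kw * (2 * I) * ε ^ (-2 * a) := by positivity
      linarith
  · have hS : MeasurableSet {p : C.ext.Pt | ‖p.1.1‖ ≤ B ∧ ε ≤ ‖p.1.1 none‖} :=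
      ((isClosed_le hπc continuous_const).inter
        (isClosed_le continuous_const hτc.norm)).measurableSet
    rw [ot_set hS]
    refine (ot_split (u1 := fun _ => 0) (A1 := 0) (k := (kΓ + 1) ^ c * 2 * kw * ε ^ (-2 * a))
      measurable_const (by positivity) le_rfl (by positivity) (Eventually.of_forall fun p => ?_)
      (by simp) hHI).trans (ENNReal.ofReal_le_ofReal ?_)
    · rw [zero_add]
      refine Set.indicator_apply_le' (fun hp => ?_) fun _ => by positivity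
      have h1 : ε ^ 2 ≤ ‖p.1.1 none‖ ^ 2 := pow_le_pow_left₀ hε.le hp.2 2
      have h2 : g p + p.1.1 none * C.ext.fn H p = -(p.1.1 none * (v p - C.ext.fn H p)) := by
        have := C.tau_ne p
        rw [hv]
        simp only [χ0 _ ((one_le_div (by positivity)).2 h1)]
        push_cast
        field_simp
        ring
      rw [h2, norm_neg, norm_mul, mul_pow, hE]
      refine ot_r4 (hS0 p) (by positivity) ?_ (hη0 p) h1 (hw0 p) (hkw p hp.1) hc ha.le ha1 hε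
        (by positivity)
      have h3 := mul_le_mul_of_nonneg_left (hkΓ p hp.1) (sq_nonneg ε)
      nlinarith [mul_nonneg hkΓ0 (sq_nonneg ‖F p‖), sq_nonneg ε]
    · have h1 : 0 ≤ C.ext.P.natDegree * (4 * Bw * (Bp * J2)) * ε ^ (-2 * a) := by positivity
      have h2 : 0 ≤ 2 * Bw * (2 * I) * ε ^ (-2 * a) := by positivity
      linarith
  · obtain ⟨kU, hkU0, hkU⟩ := gU.bdd B'
    obtain ⟨kf, hkf0, hkf⟩ := ((gf.rpow hc).mul gw).bdd B'
    obtain ⟨Bq, hBq0, hBq⟩ := lintegral_pole one_pos le_rfl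
    obtain ⟨kq, hkq0, hkq⟩ := (((RD.otGr_const (R := C.ext.rd) zero_le_one).add
      (RD.otGr_coord none)).pow 2).bdd B'
    replace hBq := hBq 0
    simp only [mul_one, sub_self, Real.rpow_zero, one_mul] at hBq
    have hm : Measurable fun p : C.ext.Pt => fun i => p.1.1 (some i) :=
      (continuous_pi fun i => (RD.Hol.coord (R := C.ext.rd) (some i)).1.continuous).measurable
    rw [ot_set (isClosed_le hπc continuous_const).measurableSet]
    refine lt_of_le_of_lt (ot_split (k := 2 * (ε ^ (-2 * a) * kU)) ?_ (by positivity) ?_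
      (by positivity) (hae.mono fun p hp => ?_)
      (C.ot_int (k := 4 * ε ^ (-2 * (1 : ℝ)) * kf * kq) (by fun_prop) hβ (fun z => by positivity)
        hBq0 (by positivity) hBq hJ (Eventually.of_forall fun p => le_rfl)) hHI)
      ENNReal.ofReal_lt_top
    · exact ((by fun_prop : Measurable fun p : C.ext.Pt => ((1 + ‖p.1.1 none‖ ^ 2)⁻¹) ^ 2).mul
        (hβ.comp hm)).const_mul _
    · positivity
    have h0 := hΦ0 fun i => p.1.1 (some i)
    have h0' := wt_pos MI fun i => p.1.1 (some i)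
    refine Set.indicator_apply_le' (fun hB => ?_) fun _ => by positivity
    have h1 := hvb 1 zero_le_one le_rfl p
    rw [show (2 : ℝ) * 1 - 2 = 0 by norm_num, Real.rpow_zero, mul_one (2 * _)] at h1
    have h2 : ‖v p‖ ^ 2 * (‖η p‖ ^ 2)⁻¹ ≤ 2 * ε ^ (-2 * (1 : ℝ)) * kf * kq *
        (((1 + ‖p.1.1 none‖ ^ 2)⁻¹) ^ 2 * ((Φ fun i => p.1.1 (some i)) *
          wt MI fun i => p.1.1 (some i))) := by
      have h3 := hkf p hB
      have h4 := hkq p hB
      have h5 := hη0 p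
      simp only [hw, ot_wt_elim, rd_π] at h3 h4
      calc ‖v p‖ ^ 2 * (‖η p‖ ^ 2)⁻¹ ≤ 2 * ε ^ (-2 * (1 : ℝ)) * ((Φ fun i => p.1.1 (some i)) *
            (‖f0 p‖ ^ 2) ^ c * ‖η p‖ ^ 2) * (‖η p‖ ^ 2)⁻¹ :=
            mul_le_mul_of_nonneg_right (h1.trans (by gcongr)) (by positivity)
        _ = 2 * ε ^ (-2 * (1 : ℝ)) * ((‖f0 p‖ ^ 2) ^ c * (wt MI fun i => p.1.1 (some i))⁻¹) *
            (1 + ‖p.1.1 none‖ ^ 2) ^ 2 * (((1 + ‖p.1.1 none‖ ^ 2)⁻¹) ^ 2 *
              ((Φ fun i => p.1.1 (some i)) * wt MI fun i => p.1.1 (some i))) := by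
            have := (pow_ne_zero_iff two_ne_zero).1 h5.ne'
            field_simp
        _ ≤ _ := by gcongr
    have h3 : (‖η p‖ ^ 2)⁻¹ ≤ ε ^ (-2 * a) * kU * Real.exp (-φ p) :=
      (hEU p).trans (by gcongr; exact hkU p hB)
    have h4 := mul_le_mul_of_nonneg_left h3 (sq_nonneg ‖v p - C.ext.fn H p‖)
    have h5 := mul_le_mul_of_nonneg_right (ot_sq (v p) (C.ext.fn H p)) (inv_pos.2 (hη0 p)).le
    rw [div_eq_mul_inv]
    linarith

/-- The weight is `c * log (|F|^2 + ε^2 K Γ) + log |h|^2 + a * log (|τ / ε|^2 + 1) - log wt`, the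
function to be corrected is `(g0 / τ) * (χ (|τ / ε|^2) - 1)`. -/
theorem ot {g0 F0 h : L} {F1 : RatFunc L} (hg : g0 ∈ C.A) (hF0 : F0 ∈ C.A) (hh : h ∈ C.A)
    (hh0 : h ≠ 0) (hh' : h⁻¹ ∈ C.A) (hF1 : F1 ∈ C.ext.A) (gg : ∃ M, C.Grow M g0)
    (gF0 : ∃ M, C.Grow M F0) (gh : ∃ M, C.Grow M h) (gF1 : ∃ M, C.ext.Grow M F1) {c : ℝ}
    (hc : 0 ≤ c) (hI : C.Intg g0 F0 h c) :
    ∃ M M' : Option ι → ℕ, ∀ a : ℝ, 0 < a → a ≤ 1 → ∀ B : ℝ, ∃ B1 : ℝ, 0 ≤ B1 ∧
      ∀ ε : ℝ, 0 < ε → ε ≤ 1 → ∃ H ∈ C.ext.A, C.ext.θ * H ∈ C.ext.Poly M ∧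
        ∫⁻ p, ENNReal.ofReal (‖C.ext.fn H p‖ ^ 2 * wt M' p.1.1) ∂(C.ext.rd.mu) ≤
          ENNReal.ofReal (B1 * ε ^ (-2 * a)) ∧
        ∫⁻ p in {p : C.ext.Pt | ‖p.1.1‖ ≤ B ∧ ε ≤ ‖p.1.1 none‖}, ENNReal.ofReal
          (‖C.fn g0 (C.pr p) + p.1.1 none * C.ext.fn H p‖ ^ 2 / ((‖p.1.1 none‖ ^ 2) ^ (1 + a) *
            (‖C.ext.fn (RatFunc.C F0 + RatFunc.X * F1) p‖ ^ 2 + ε ^ 2) ^ c *
              ‖C.fn h (C.pr p)‖ ^ 2)) ∂(C.ext.rd.mu) ≤ ENNReal.ofReal (B1 * ε ^ (-2 * a)) ∧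
        ∀ B' : ℝ, ∫⁻ p in {p : C.ext.Pt | ‖p.1.1‖ ≤ B'}, ENNReal.ofReal
          (‖C.ext.fn H p‖ ^ 2 / ‖C.fn h (C.pr p)‖ ^ 2) ∂(C.ext.rd.mu) < ⊤ := by
  obtain ⟨b, Φ, MI, hb, hΦ, hΦ0, hΦi, hI⟩ := hI
  obtain ⟨M1, B1, hM1⟩ := gF1
  obtain ⟨d, Bd, hBd, hd⟩ := inv_wt_le fun i => M1 (some i)
  have hX := C.X_mem.1
  have hXF := C.ext.A.mul_mem hX hF1
  have hFe : ∀ p, C.ext.fn (RatFunc.C F0 + RatFunc.X * F1) p =
      C.ext.fn (RatFunc.C F0) p + p.1.1 none * C.ext.fn F1 p := fun p => by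
    rw [← C.fn_X p]
    exact (C.ext.ev_add p.2 (C.ext_mem hF0) hXF).trans
      (congrArg _ (C.ext.ev_mul p.2 hX hF1))
  have gr : ∀ {a : L}, a ∈ C.A → (∃ M, C.Grow M a) →
      C.ext.rd.otGr fun p => ‖C.ext.fn (RatFunc.C a) p‖ ^ 2 := fun ha h =>
    C.ext.ot_grow (Grow.ext C ha h.choose_spec)
  have gF : C.ext.rd.otGr fun p => ‖C.ext.fn (RatFunc.C F0 + RatFunc.X * F1) p‖ ^ 2 := by
    obtain ⟨-, M, B, hM⟩ := ((RD.otGr_const zero_le_two).mul (gr hF0 gF0)).add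
      ((RD.otGr_const zero_le_two).mul ((RD.otGr_coord none).mul (C.ext.ot_grow ⟨B1, hM1⟩)))
    refine ⟨fun _ => by positivity, M, B, fun p => le_trans
      (mul_le_mul_of_nonneg_right ?_ (wt_pos _ _).le) (hM p)⟩
    have h1 := ot_sq (C.ext.fn (RatFunc.C F0) p) (C.ext.fn (RatFunc.C F0 + RatFunc.X * F1) p)
    rwa [hFe, sub_add_cancel_left, norm_neg, norm_mul, mul_pow, ← hFe] at h1
  simp only [← C.fn_C hg, ← C.fn_C hh]
  refine C.ot_core (C.ext.hol_fn (C.ext_mem hg)) (C.ext.hol_fn (add_mem (C.ext_mem hF0) hXF))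
    (C.ext.hol_fn (C.ext_mem hh)) (gr hg gg) gF (gr hF0 gF0) (gr hh gh) (fun p => ?_) (d := d)
    (K := |B1| * 2 ^ M1 none * Bd + 1) (le_add_of_nonneg_left (by positivity))
    (fun p ε h1 hε => ?_) hc hΦ hΦ0 hΦi ((C.ot_ae hb).mono fun p hp => ?_)
  · rw [C.fn_C hh]
    exact pow_pos (norm_pos_iff.2 (C.ev_inv (C.pr p).2 hh0 hh hh').1) 2
  · have h2 := ot_sq (C.ext.fn (RatFunc.C F0 + RatFunc.X * F1) p) (C.ext.fn (RatFunc.C F0) p)
    rw [hFe, add_sub_cancel_left, norm_mul, mul_pow, ← hFe] at h2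
    have h3 := (hM1 p).trans (le_abs_self _)
    have h4 := hd fun i => p.1.1 (some i)
    have h5 : ‖p.1.1 none‖ ^ 2 ≤ ε ^ 2 := by gcongr
    have h6 : ε ^ 2 ≤ 1 := pow_le_one₀ ((norm_nonneg _).trans hε) h1
    have h7 := wt_pos (fun i => M1 (some i)) fun i => p.1.1 (some i)
    rw [ot_wt_option, ← le_div_iff₀ (by positivity), div_eq_mul_inv, mul_inv, inv_pow,
      inv_inv] at h3
    have h8 : ‖C.ext.fn F1 p‖ ^ 2 ≤
        (|B1| * 2 ^ M1 none * Bd + 1) * (∑ i, ‖p.1.1 (some i) ^ d‖ ^ 2 + 1) :=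
      calc ‖C.ext.fn F1 p‖ ^ 2
          ≤ |B1| * (2 ^ M1 none * (Bd * (∑ i, ‖p.1.1 (some i) ^ d‖ ^ 2 + 1))) :=
            h3.trans (by gcongr; linarith)
        _ = |B1| * 2 ^ M1 none * Bd * (∑ i, ‖p.1.1 (some i) ^ d‖ ^ 2 + 1) := by ring
        _ ≤ _ := by gcongr; linarith
    have h9 := mul_le_mul h5 h8 (by positivity) (by positivity)
    linarith
  · rw [C.fn_C hg, C.fn_C hF0, C.fn_C hh]
    exact hI (C.pr p) hp

end Cover

end Pool.Agent.MP_c0606f_ag.Klt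

end

-- part MP_c0606f_ag.Klt.Real
section

/-! Holomorphic realisation of a divisorial valuation ring near a general point of the divisor. -/

namespace Pool.Agent.MP_c0606f_ag.Klt

open scoped NNReal ContDiff
open MvPolynomial

variable {L : Type} [Field L] [Algebra ℂ L] {κ : Type} [Fintype κ] [DecidableEq κ]

/-- evaluation of a polynomial in `y` and one more variable -/
noncomputable def realH {ι M : Type} [CommRing M] [Algebra ℂ M] (y : ι → M) (w : M) :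
    Polynomial (MvPolynomial ι ℂ) →ₐ[ℂ] M := Polynomial.aevalTower (aeval y) w

theorem realH_X {ι M : Type} [CommRing M] [Algebra ℂ M] (y : ι → M) (w : M) :
    realH y w Polynomial.X = w := Polynomial.aevalTower_X _ _

theorem realH_C {ι M : Type} [CommRing M] [Algebra ℂ M] (y : ι → M) (w : M)
    (b : MvPolynomial ι ℂ) : realH y w (Polynomial.C b) = aeval y b := Polynomial.aevalTower_C _ _ _

theorem realH_eval {ι : Type} (q : ι → ℂ) (w : ℂ) (n : Polynomial (MvPolynomial ι ℂ)) :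
    (n.map (eval q)).eval w = realH q w n := by
  rw [Polynomial.eval_map]; rfl

theorem real_ind {ι : Type} {P : Polynomial (MvPolynomial ι ℂ) → Prop}
    (hC : ∀ c : ℂ, P (Polynomial.C (C c))) (hX : ∀ o, P (Polynomial.C (X o)))
    (hθ : P Polynomial.X) (hadd : ∀ a b, P a → P b → P (a + b))
    (hmul : ∀ a b, P a → P b → P (a * b)) (n : Polynomial (MvPolynomial ι ℂ)) : P n := by
  induction n using Polynomial.induction_on with
  | C a =>
    induction a using MvPolynomial.induction_on with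
    | C c => exact hC c
    | add p q hp hq => rw [map_add]; exact hadd _ _ hp hq
    | mul_X p i hp => rw [map_mul]; exact hmul _ _ hp (hX i)
  | add p q hp hq => exact hadd _ _ hp hq
  | monomial n a h => rw [pow_succ, ← mul_assoc]; exact hmul _ _ h hθ

theorem real_contDiff {ι : Type} [Fintype ι] (n : Polynomial (MvPolynomial ι ℂ)) :
    ContDiff ℂ 1 fun p : (ι → ℂ) × ℂ => realH p.1 p.2 n := by
  induction n using real_ind with
  | hC c => simp only [realH_C, aeval_C]; exact contDiff_const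
  | hX o => simp only [realH_C, aeval_X]; fun_prop
  | hθ => simp only [realH_X]; exact contDiff_snd
  | hadd a b ha hb => simp only [map_add]; exact ha.add hb
  | hmul a b ha hb => simp only [map_mul]; exact ha.mul hb

/-- a point of a variety outside a hypersurface -/
theorem real_null {R K : Type} [CommRing R] [Algebra ℂ R] [Algebra.FiniteType ℂ R] [Field K]
    (ρ : R →+* K) (c : R) (hc : ρ c ≠ 0) :
    ∃ φ : R →ₐ[ℂ] ℂ, φ c ≠ 0 ∧ ∀ q, ρ q = 0 → φ q = 0 := by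
  have : IsJacobsonRing R := isJacobsonRing_of_finiteType (A := ℂ)
  have h1 := isJacobsonRing_iff_prime_eq.1 this (RingHom.ker ρ) (RingHom.ker_isPrime ρ)
  have h2 : c ∉ (RingHom.ker ρ).jacobson := by rw [h1]; exact hc
  rw [Ideal.jacobson, Ideal.mem_sInf] at h2
  push Not at h2
  obtain ⟨J, ⟨hJ, hm⟩, hcJ⟩ := h2
  let := Ideal.Quotient.field J
  have h3 : Module.Finite ℂ (R ⧸ J) := finite_of_finite_type_of_isJacobsonRing ℂ (R ⧸ J)
  have h4 : Function.Bijective (algebraMap ℂ (R ⧸ J)) :=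
    IsAlgClosed.algebraMap_bijective_of_isIntegral
  let e := AlgEquiv.ofBijective (Algebra.ofId ℂ (R ⧸ J)) h4
  refine ⟨e.symm.toAlgHom.comp (Ideal.Quotient.mkₐ ℂ J), fun h => hcJ ?_, fun q hq => ?_⟩
  · have h5 : e.symm (Ideal.Quotient.mk J c) = 0 := h
    exact Ideal.Quotient.eq_zero_iff_mem.1 ((map_eq_zero_iff _ e.symm.injective).1 h5)
  · change e.symm (Ideal.Quotient.mk J q) = 0
    rw [Ideal.Quotient.eq_zero_iff_mem.2 (hJ hq), map_zero]

/-- the localisation of the image of `φ` at `c`, and its points -/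
theorem real_loc {R : Type} [CommRing R] [Algebra ℂ R] (φ : R →ₐ[ℂ] L) (c : R) :
    ∃ O : Subalgebra ℂ L, (∀ a, a ∈ O ↔ ∃ (k : ℕ) (n : R), a * φ c ^ k = φ n) ∧
      ∀ ψ : R →ₐ[ℂ] ℂ, (∀ n, φ n = 0 → ψ n = 0) → ψ c ≠ 0 → ∃ f : O →ₐ[ℂ] ℂ,
        ∀ (a : O) (k : ℕ) (n : R), (a : L) * φ c ^ k = φ n → f a * ψ c ^ k = ψ n := by
  have hmul : ∀ {a b : L} {k k' : ℕ} {n n' : R}, a * φ c ^ k = φ n → b * φ c ^ k' = φ n' →
      a * b * φ c ^ (k + k') = φ (n * n') := fun h h' => by rw [map_mul, ← h, ← h']; ring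
  have hadd : ∀ {a b : L} {k k' : ℕ} {n n' : R}, a * φ c ^ k = φ n → b * φ c ^ k' = φ n' →
      (a + b) * φ c ^ (k + k') = φ (n * c ^ k' + n' * c ^ k) := fun h h' => by
    rw [map_add, map_mul, map_mul, map_pow, map_pow, ← h, ← h']; ring
  have halg : ∀ r : ℂ, algebraMap ℂ L r * φ c ^ 0 = φ (algebraMap ℂ R r) := fun r => by
    rw [pow_zero, mul_one, φ.commutes]
  let O : Subalgebra ℂ L :=
    { carrier := {a | ∃ (k : ℕ) (n : R), a * φ c ^ k = φ n}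
      mul_mem' := fun ⟨_, _, h⟩ ⟨_, _, h'⟩ => ⟨_, _, hmul h h'⟩
      add_mem' := fun ⟨_, _, h⟩ ⟨_, _, h'⟩ => ⟨_, _, hadd h h'⟩
      algebraMap_mem' := fun r => ⟨_, _, halg r⟩ }
  refine ⟨O, fun a => Iff.rfl, fun ψ hψ hc => ?_⟩
  have hO : ∀ a : O, ∃ (k : ℕ) (n : R), (a : L) * φ c ^ k = φ n := fun a => a.2
  choose k n hkn using hO
  have key : ∀ (a : O) (k' : ℕ) (n' : R), (a : L) * φ c ^ k' = φ n' →
      ψ (n a) / ψ c ^ k a * ψ c ^ k' = ψ n' := by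
    intro a k' n' h
    have h1 := hψ (n a * c ^ k' - n' * c ^ k a) (by
      rw [map_sub, map_mul, map_mul, map_pow, map_pow, ← h, ← hkn a]; ring)
    rw [map_sub, map_mul, map_mul, map_pow, map_pow, sub_eq_zero] at h1
    rw [div_mul_eq_mul_div, h1, mul_div_cancel_right₀ _ (pow_ne_zero _ hc)]
  have hcom : ∀ r : ℂ, ψ (n (algebraMap ℂ O r)) / ψ c ^ k (algebraMap ℂ O r) = r := fun r => by
    have := key (algebraMap ℂ O r) _ _ (halg r)
    rwa [pow_zero, mul_one, ψ.commutes] at this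
  refine ⟨{ toFun := fun a => ψ (n a) / ψ c ^ k a
            map_one' := by simpa using hcom 1
            map_mul' := fun a b => ?_
            map_zero' := by simpa using hcom 0
            map_add' := fun a b => ?_
            commutes' := hcom }, key⟩
  · have := key (a * b) _ _ (hmul (hkn a) (hkn b))
    apply mul_right_cancel₀ (pow_ne_zero (k a + k b) hc)
    rw [this, map_mul]
    field_simp
    ring
  · have := key (a + b) _ _ (hadd (hkn a) (hkn b))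
    apply mul_right_cancel₀ (pow_ne_zero (k a + k b) hc)
    rw [this, map_add, map_mul, map_mul, map_pow, map_pow]
    field_simp
    ring

/-- the linear form with given coefficients -/
noncomputable def realD {ι : Type} [Fintype ι] (a : ι → ℂ) : (ι → ℂ) →L[ℂ] ℂ :=
  ∑ l, a l • (ContinuousLinearMap.proj l : (ι → ℂ) →L[ℂ] ℂ)

theorem realD_apply {ι : Type} [Fintype ι] (a x : ι → ℂ) : realD a x = ∑ l, a l * x l := by
  simp [realD]

/-- the chain rule, in `L` and along a section -/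
theorem real_chain {ι : Type} [Fintype ι] [DecidableEq ι] (y : ι → L) (θ : L)
    (E : ι → Derivation ℂ L L) (hE : ∀ l o, E l (y o) = if l = o then 1 else 0)
    (n : Polynomial (MvPolynomial ι ℂ)) : ∃ d : ι → Polynomial (MvPolynomial ι ℂ),
      (∀ l, E l (realH y θ n) = realH y θ (Polynomial.derivative n) * E l θ + realH y θ (d l)) ∧
      ∀ (ζ : (ι → ℂ) → ℂ) (ζ' : (ι → ℂ) →L[ℂ] ℂ) (q : ι → ℂ), HasFDerivAt ζ ζ' q →
        ∃ D : (ι → ℂ) →L[ℂ] ℂ, HasFDerivAt (fun q => realH q (ζ q) n) D q ∧ ∀ x,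
          D x = realH q (ζ q) (Polynomial.derivative n) * ζ' x +
            ∑ l, realH q (ζ q) (d l) * x l := by
  induction n using real_ind with
  | hC c =>
    refine ⟨0, fun l => by simp [realH_C], fun ζ ζ' q _ => ⟨0, ?_, fun x => by simp⟩⟩
    simp only [realH_C, aeval_C]
    exact hasFDerivAt_const _ q
  | hX o =>
    refine ⟨fun l => if l = o then 1 else 0, fun l => ?_, fun ζ ζ' q _ =>
      ⟨ContinuousLinearMap.proj o, ?_, fun x => ?_⟩⟩
    · rw [realH_C, aeval_X, hE]; by_cases h : l = o <;> simp [h]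
    · simp only [realH_C, aeval_X]
      exact hasFDerivAt_apply (𝕜 := ℂ) o q
    · rw [Finset.sum_eq_single o (fun l _ h => by simp [h]) (by simp)]
      simp
  | hθ =>
    refine ⟨0, fun l => by simp [realH_X], fun ζ ζ' q h => ⟨ζ', ?_, fun x => by simp⟩⟩
    simp only [realH_X]
    exact h
  | hadd a b ha hb =>
    obtain ⟨d, h1, h2⟩ := ha
    obtain ⟨d', h1', h2'⟩ := hb
    refine ⟨d + d', fun l => ?_, fun ζ ζ' q h => ?_⟩
    · simp only [map_add, h1, h1', Pi.add_apply]; ring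
    · obtain ⟨D, a1, a2⟩ := h2 ζ ζ' q h
      obtain ⟨D', a1', a2'⟩ := h2' ζ ζ' q h
      refine ⟨D + D', by simp only [map_add]; exact a1.add a1', fun x => ?_⟩
      simp only [map_add, Pi.add_apply, add_mul, Finset.sum_add_distrib,
        add_apply, a2, a2']
      ring
  | hmul a b ha hb =>
    obtain ⟨d, h1, h2⟩ := ha
    obtain ⟨d', h1', h2'⟩ := hb
    refine ⟨fun l => a * d' l + b * d l, fun l => ?_, fun ζ ζ' q h => ?_⟩
    · simp only [map_add, map_mul, Derivation.leibniz, h1, h1', Polynomial.derivative_mul,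
        smul_eq_mul]
      ring
    · obtain ⟨D, a1, a2⟩ := h2 ζ ζ' q h
      obtain ⟨D', a1', a2'⟩ := h2' ζ ζ' q h
      refine ⟨_, by simp only [map_mul]; exact a1.mul a1', fun x => ?_⟩
      simp only [map_add, map_mul, Polynomial.derivative_mul, add_mul, Finset.sum_add_distrib,
        add_apply, smul_apply, a2, a2', smul_eq_mul,
        mul_assoc, ← Finset.mul_sum]
      ring

/-- cancelling a polynomial factor -/
theorem real_cancel {ι : Type} [Fintype ι] {b : MvPolynomial ι ℂ} (hb : b ≠ 0)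
    {g : (ι → ℂ) → ℂ} {q : ι → ℂ} (hg : ContinuousAt g q)
    (h : ∀ᶠ x in nhds q, eval x b * g x = 0) : g q = 0 := by
  by_contra h0
  obtain ⟨r, hr, h1⟩ := Metric.eventually_nhds_iff_ball.1 (h.and (hg.eventually_ne h0))
  refine hb (MvPolynomial.funext_set (fun i => Metric.ball (q i) r)
    (fun i => infinite_of_mem_nhds (q i) (Metric.ball_mem_nhds _ hr)) fun x hx => ?_)
  rw [← ball_pi _ hr] at hx
  rw [map_zero]
  exact (mul_eq_zero.1 (h1 x hx).1).resolve_right (h1 x hx).2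

omit [DecidableEq κ] in
/-- A complex point of the divisor.  The ring `S = MvPolynomial (Option (Option κ)) ℂ` (or
`Polynomial (MvPolynomial (Option κ) ℂ)`, which is of finite type over `ℂ`, hence Jacobson) has the
prime ideal `𝔭 = {q | v (pvq t u θ q) < 1}`; as `c ∉ 𝔭` there is a maximal ideal containing `𝔭` and
not `c` (`IsJacobsonRing`, `Ideal.jacobson`); its residue field is `ℂ` (Zariski's lemma
`finite_of_finite_type_of_isJacobsonRing`, `IsAlgClosed.algebraMap_bijective_of_isIntegral`). -/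
theorem exists_res_pt {v : Val L} {t θ : L} {u : κ → L} (hr : ResInd v u) (ht : v t < 1)
    (hθ : v θ ≤ 1) (c : Polynomial (MvPolynomial (Option κ) ℂ)) (hc : v (pvq t u θ c) = 1) :
    ∃ (q0 : Option κ → ℂ) (θ0 : ℂ), q0 none = 0 ∧ (c.map (eval q0)).eval θ0 ≠ 0 ∧
      ∀ q, v (pvq t u θ q) < 1 → (q.map (eval q0)).eval θ0 = 0 := by
  have h : SubTriv v := fun c hc => hr.triv c hc
  have hU : ∀ o : Option κ, v (o.elim t u) ≤ 1 := by
    rintro (_ | i)
    · exact ht.le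
    · exact (hr.val_eq i).le
  have h1 : ∀ q, realH (fun o : Option κ => subR h (o.elim t u)) (subR h θ) q = 0 ↔
      v (pvq t u θ q) < 1 := fun q => by
    obtain ⟨a1, a2⟩ := sub_R_eval₂ h (fun o : Option κ => o.elim t u) hU hθ q
    exact Iff.trans (by rw [show subR h (pvq t u θ q) = _ from a2]; rfl) (sub_R_eq_zero h a1)
  have : Algebra.FiniteType ℂ (Polynomial (MvPolynomial (Option κ) ℂ)) :=
    Algebra.FiniteType.trans (S := MvPolynomial (Option κ) ℂ) inferInstance inferInstance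
  obtain ⟨φ, a1, a2⟩ := real_null
    (realH (fun o : Option κ => subR h (o.elim t u)) (subR h θ)).toRingHom c
    (fun h0 => ((h1 c).1 h0).ne hc)
  have h2 : ∀ q, realH (fun o => φ (Polynomial.C (X o))) (φ Polynomial.X) q = φ q := by
    intro q
    induction q using real_ind with
    | hC c => rw [realH_C, aeval_C]; exact (φ.commutes c).symm
    | hX o => rw [realH_C, aeval_X]
    | hθ => rw [realH_X]
    | hadd a b ha hb => rw [map_add, map_add, ha, hb]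
    | hmul a b ha hb => rw [map_mul, map_mul, ha, hb]
  refine ⟨fun o => φ (Polynomial.C (X o)), φ Polynomial.X, a2 _ ((h1 _).2 ?_), ?_, fun q hq => ?_⟩
  · change v (realH (fun o : Option κ => o.elim t u) θ _) < 1
    rw [realH_C, aeval_X]; exact ht
  · rw [realH_eval, h2]; exact a1
  · rw [realH_eval, h2]; exact a2 q ((h1 q).2 hq)

omit [DecidableEq κ] in
/-- implicit function theorem over `ℂ` (inverse function theorem for
`(q, w) ↦ (q, Q (q, w))`) -/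
theorem exists_implicit (Q : Polynomial (MvPolynomial (Option κ) ℂ)) (q0 : Option κ → ℂ) (θ0 : ℂ)
    (h0 : (Q.map (eval q0)).eval θ0 = 0)
    (h1 : ((Polynomial.derivative Q).map (eval q0)).eval θ0 ≠ 0) :
    ∃ (r : ℝ) (ζ : (Option κ → ℂ) → ℂ), 0 < r ∧ ζ q0 = θ0 ∧
      DifferentiableOn ℂ ζ (Metric.ball q0 r) ∧
      ∀ q ∈ Metric.ball q0 r, (Q.map (eval q)).eval (ζ q) = 0 := by
  have hc := (real_contDiff Q).contDiffAt (x := (q0, θ0))
  have h2 : HasFDerivAt (fun w : ℂ => realH q0 w Q) (fderiv ℂ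
      (fun p : (Option κ → ℂ) × ℂ => realH p.1 p.2 Q) (q0, θ0) ∘L .inr ℂ _ ℂ) θ0 :=
    (hc.differentiableAt one_ne_zero).hasFDerivAt.comp θ0 (hasFDerivAt_prodMk_right q0 θ0)
  have h3 := ((Q.map (eval q0)).hasDerivAt θ0).hasFDerivAt
  simp only [realH_eval] at h3
  rw [Polynomial.derivative_map] at h3
  have h4 : (fderiv ℂ (fun p : (Option κ → ℂ) × ℂ => realH p.1 p.2 Q) (q0, θ0) ∘L
      .inr ℂ _ ℂ).IsInvertible := by
    rw [h2.unique h3]
    refine ⟨ContinuousLinearEquiv.unitsEquivAut ℂ (Units.mk0 _ h1), ?_⟩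
    ext; simp
  have h5 := (hc.contDiffAt_implicitFunction one_ne_zero h4).eventually (by simp)
  have h6 := hc.eventually_apply_implicitFunction one_ne_zero h4
  obtain ⟨r, hr, h7⟩ := Metric.eventually_nhds_iff_ball.1 (h5.and h6)
  refine ⟨r, hc.implicitFunction one_ne_zero h4, hr,
    hc.implicitFunction_apply_self one_ne_zero h4, fun q hq => ?_, fun q hq => ?_⟩
  · exact ((h7 q hq).1.differentiableAt one_ne_zero).differentiableWithinAt
  · rw [realH_eval] at h0 ⊢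
    exact (h7 q hq).2.trans h0

/-- Take `θ, Q` from `exists_struct`.  For `a ∈ T` write `a * c a = n a`; let `c` be the product of
`Q'`, the `c a` and the `n a` for the units `a ∈ T`; `O` is the set of `a` with
`a * pvq c ^ k = pvq n` for some `k, n`, and `e q a = n (q, ζ q) / c (q, ζ q) ^ k` (chosen
representation).  It is well defined on a small ball where `c (q, ζ q) ≠ 0`: if `pvq n = 0` then
`Q ∣ C b * n`, so `b q * n (q, ζ q) = 0`, and `{b ≠ 0}` is dense (`MvPolynomial.funext`-like: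
a polynomial vanishing on a nonempty open set is zero).  Derivatives: `E l θ * Q'(θ) = -(∂_l Q)(θ)`
in `L` and the same identity holds for `ζ` by differentiating `Q (q, ζ q) = 0`; then induction over
polynomials, and the quotient rule.  Shrink the radius so that the closed ball is contained in the
domain to obtain the bounds. -/
theorem exists_real {v : Val L} {t : L} {u : κ → L} (hf : IsFrame v t u) (ht : IsUnif v t)
    (hfg : (⊤ : IntermediateField ℂ L).FG) (E : Option κ → Derivation ℂ L L)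
    (hE : ∀ l o : Option κ, E l (o.elim t u) = if l = o then 1 else 0) (T : Finset L)
    (hT : ∀ a ∈ T, v a ≤ 1) :
    ∃ (O : Subalgebra ℂ L) (q0 : Option κ → ℂ) (r c : ℝ) (e : (Option κ → ℂ) → L → ℂ),
      q0 none = 0 ∧ 0 < r ∧ 0 < c ∧ (∀ a ∈ T, a ∈ O) ∧ (∀ o : Option κ, o.elim t u ∈ O) ∧
      (∀ l, ∀ a ∈ O, E l a ∈ O) ∧
      (∀ q ∈ Metric.ball q0 r, ∃ f : O →ₐ[ℂ] ℂ, ∀ a : O, f a = e q a) ∧
      (∀ q ∈ Metric.ball q0 r, ∀ o : Option κ, e q (o.elim t u) = q o) ∧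
      (∀ a ∈ O, ∀ q ∈ Metric.ball q0 r, HasFDerivAt (fun q => e q a)
        (∑ l, e q (E l a) • (ContinuousLinearMap.proj l : (Option κ → ℂ) →L[ℂ] ℂ)) q) ∧
      ∀ a ∈ T, ∀ q ∈ Metric.ball q0 r, ‖e q a‖ ≤ c⁻¹ ∧ (v a = 1 → c ≤ ‖e q a‖) := by
  classical
  obtain ⟨θ, Q, hθ, hQ, hQ', hker, hall⟩ := exists_struct hf ht hfg
  choose! na ca hca hna using hall
  obtain ⟨c, hc1, hcQ, hc2, hc3⟩ : ∃ c, v (pvq t u θ c) = 1 ∧ Polynomial.derivative Q ∣ c ∧
      (∀ a ∈ T, ca a ∣ c) ∧ ∀ a ∈ T, v a = 1 → na a ∣ c := by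
    refine ⟨Polynomial.derivative Q * ∏ a ∈ T, ca a * if v a = 1 then na a else 1, ?_,
      dvd_mul_right _ _, fun a ha => ?_, fun a ha h => ?_⟩
    · change v (realH (fun o : Option κ => o.elim t u) θ _) = 1
      rw [map_mul, map_mul, map_prod, map_prod, Finset.prod_eq_one, mul_one]
      · exact hQ'
      · intro a ha
        have h1 : v (realH (fun o : Option κ => o.elim t u) θ (ca a)) = 1 := hca a (hT a ha)
        rw [map_mul, map_mul, h1, one_mul]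
        split_ifs with h
        · change v (pvq t u θ _) = 1
          rw [← hna a (hT a ha), map_mul, h, hca a (hT a ha), one_mul]
        · rw [map_one, map_one]
    · refine (dvd_trans ?_ (Finset.dvd_prod_of_mem _ ha)).mul_left _
      exact dvd_mul_right _ _
    · refine (dvd_trans ?_ (Finset.dvd_prod_of_mem _ ha)).mul_left _
      rw [if_pos h]; exact dvd_mul_left _ _
  obtain ⟨q0, θ0, hq0, hc0, hres⟩ := exists_res_pt hf.res hf.lt hθ c hc1
  have hQ0 : (Q.map (eval q0)).eval θ0 = 0 := hres Q (by rw [hQ, map_zero]; exact zero_lt_one)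
  have hQ0' : ((Polynomial.derivative Q).map (eval q0)).eval θ0 ≠ 0 := by
    obtain ⟨m, rfl⟩ := hcQ
    rw [Polynomial.map_mul, Polynomial.eval_mul] at hc0
    exact left_ne_zero_of_mul hc0
  obtain ⟨r0, ζ, hr0, hζ0, hζd, hζ⟩ := exists_implicit Q q0 θ0 hQ0 hQ0'
  simp only [realH_eval] at hζ hc0
  change ∀ q, realH (fun o : Option κ => o.elim t u) θ q = 0 → _ at hker
  change ∀ a, v a ≤ 1 → a * realH (fun o : Option κ => o.elim t u) θ (ca a) =
    realH (fun o : Option κ => o.elim t u) θ (na a) at hna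
  change realH (fun o : Option κ => o.elim t u) θ Q = 0 at hQ
  change v (realH (fun o : Option κ => o.elim t u) θ c) = 1 at hc1
  generalize hy : (fun o : Option κ => o.elim t u) = y at hker hna hQ hc1
  have hy' : ∀ o : Option κ, o.elim t u = y o := fun o => congrFun hy o
  simp only [hy'] at hE ⊢
  have hd : ∀ q ∈ Metric.ball q0 r0, HasFDerivAt ζ (fderiv ℂ ζ q) q := fun q hq =>
    (hζd.differentiableAt (Metric.isOpen_ball.mem_nhds hq)).hasFDerivAt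
  choose d hd1 hd2 using real_chain y θ E hE
  have hcont : ∀ n, ∀ q ∈ Metric.ball q0 r0, ContinuousAt (fun q => realH q (ζ q) n) q :=
    fun n q hq => (hd2 n ζ _ q (hd q hq)).choose_spec.1.continuousAt
  have hzero : ∀ q ∈ Metric.ball q0 r0, ∀ n, realH y θ n = 0 → realH q (ζ q) n = 0 := by
    intro q hq n hn
    obtain ⟨b, hb, s, hs⟩ := hker n hn
    refine real_cancel hb (hcont n q hq) ?_
    filter_upwards [Metric.isOpen_ball.mem_nhds hq] with x hx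
    have := congrArg (realH x (ζ x)) hs
    rw [map_mul, map_mul, hζ x hx, zero_mul, realH_C] at this
    exact this
  obtain ⟨r1, hr1, hr10, hne⟩ : ∃ r1, 0 < r1 ∧ Metric.ball q0 r1 ⊆ Metric.ball q0 r0 ∧
      ∀ q ∈ Metric.ball q0 r1, realH q (ζ q) c ≠ 0 := by
    have h1 := (hcont c q0 (Metric.mem_ball_self hr0)).eventually_ne (y := 0)
      (by simp only [hζ0]; exact hc0)
    obtain ⟨r1, hr1, h2⟩ := Metric.eventually_nhds_iff_ball.1
      (h1.and (Metric.ball_mem_nhds q0 hr0))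
    exact ⟨r1, hr1, fun q hq => (h2 q hq).2, fun q hq => (h2 q hq).1⟩
  obtain ⟨O, hO, hpt⟩ := real_loc (realH y θ) c
  choose f hfq using fun q (hq : q ∈ Metric.ball q0 r1) =>
    hpt (realH q (ζ q)) (hzero q (hr10 hq)) (hne q hq)
  obtain ⟨e, he⟩ : ∃ e : (Option κ → ℂ) → L → ℂ, ∀ q (hq : q ∈ Metric.ball q0 r1) (a : O),
      f q hq a = e q a :=
    ⟨fun q a => if h : q ∈ Metric.ball q0 r1 ∧ a ∈ O then f q h.1 ⟨a, h.2⟩ else 0,
      fun q hq a => by beta_reduce; rw [dif_pos ⟨hq, a.2⟩]⟩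
  have hOn : ∀ n, realH y θ n ∈ O := fun n => (hO _).2 ⟨0, n, by rw [pow_zero, mul_one]⟩
  have hen : ∀ q ∈ Metric.ball q0 r1, ∀ n, e q (realH y θ n) = realH q (ζ q) n := fun q hq n => by
    have := hfq q hq ⟨_, hOn n⟩ 0 n (by rw [pow_zero, mul_one])
    rwa [he, pow_zero, mul_one] at this
  have hea : ∀ q ∈ Metric.ball q0 r1, ∀ a ∈ O, ∀ b ∈ O, e q (a + b) = e q a + e q b :=
    fun q hq a ha b hb => by
      have := map_add (f q hq) ⟨a, ha⟩ ⟨b, hb⟩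
      rwa [he, he, he] at this
  have hem : ∀ q ∈ Metric.ball q0 r1, ∀ a ∈ O, ∀ b ∈ O, e q (a * b) = e q a * e q b :=
    fun q hq a ha b hb => by
      have := map_mul (f q hq) ⟨a, ha⟩ ⟨b, hb⟩
      rwa [he, he, he] at this
  have hdiv : ∀ m, m ∣ c → ∀ a, ∀ b ∈ O, a * realH y θ m = b → a ∈ O := by
    rintro m ⟨m', hm⟩ a b hb h
    obtain ⟨k, n, h1⟩ := (hO b).1 hb
    refine (hO a).2 ⟨k + 1, n * m', ?_⟩
    rw [map_mul, ← h1, ← h, pow_succ]
    conv_lhs => rw [hm, map_mul]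
    rw [← map_mul, ← hm]
    conv_lhs => enter [2, 2]; rw [hm, map_mul]
    ring
  have hmne : ∀ m, m ∣ c → ∀ q ∈ Metric.ball q0 r1, realH q (ζ q) m ≠ 0 := by
    rintro m ⟨m', hm⟩ q hq
    have := hne q hq
    rw [hm, map_mul] at this
    exact left_ne_zero_of_mul this
  have hθO : ∀ l, E l θ ∈ O := fun l => hdiv _ hcQ _ _ (O.neg_mem (hOn (d Q l))) (by
    have := hd1 Q l
    rw [hQ, map_zero] at this
    linear_combination -this)
  have hζ' : ∀ q ∈ Metric.ball q0 r1, ∀ x, fderiv ℂ ζ q x = ∑ l, e q (E l θ) * x l := by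
    intro q hq x
    obtain ⟨D, a1, a2⟩ := hd2 Q ζ _ q (hd q (hr10 hq))
    have a3 : HasFDerivAt (fun q => realH q (ζ q) Q) (0 : (Option κ → ℂ) →L[ℂ] ℂ) q := by
      refine (hasFDerivAt_const (0 : ℂ) q).congr_of_eventuallyEq ?_
      filter_upwards [Metric.isOpen_ball.mem_nhds (hr10 hq)] with x hx using hζ x hx
    have a4 := a2 x
    rw [a1.unique a3, zero_apply] at a4
    have a5 : ∀ l, realH q (ζ q) (d Q l) =
        -(realH q (ζ q) (Polynomial.derivative Q) * e q (E l θ)) := fun l => by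
      have b1 := congrArg (e q) (hd1 Q l)
      rw [hea q hq _ (O.mul_mem (hOn _) (hθO l)) _ (hOn _), hem q hq _ (hOn _) _ (hθO l), hen q hq,
        hen q hq, hQ, map_zero, ← map_zero (realH y θ), hen q hq, map_zero] at b1
      linear_combination -b1
    apply mul_left_cancel₀ (hmne _ hcQ q hq)
    simp only [a5, neg_mul, Finset.sum_neg_distrib, mul_assoc, ← Finset.mul_sum] at a4
    linear_combination -a4
  have hEn : ∀ n l, E l (realH y θ n) ∈ O := fun n l => by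
    rw [hd1]; exact O.add_mem (O.mul_mem (hOn _) (hθO l)) (hOn _)
  have hDn : ∀ n, ∀ q ∈ Metric.ball q0 r1, HasFDerivAt (fun q => realH q (ζ q) n)
      (realD fun l => e q (E l (realH y θ n))) q := by
    intro n q hq
    obtain ⟨D, a1, a2⟩ := hd2 n ζ _ q (hd q (hr10 hq))
    refine a1.congr_fderiv (ContinuousLinearMap.ext fun x => ?_)
    rw [a2, realD_apply, hζ' q hq, Finset.mul_sum, ← Finset.sum_add_distrib]
    refine Finset.sum_congr rfl fun l _ => ?_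
    rw [hd1, hea q hq _ (O.mul_mem (hOn _) (hθO l)) _ (hOn _), hem q hq _ (hOn _) _ (hθO l),
      hen q hq, hen q hq]
    ring
  have hleib : ∀ {a : L} {N n}, a * realH y θ N = realH y θ n → ∀ l,
      E l a * realH y θ N + a * E l (realH y θ N) = E l (realH y θ n) := fun h l => by
    rw [← h, Derivation.leibniz, smul_eq_mul, smul_eq_mul]; ring
  have hEO : ∀ l, ∀ a ∈ O, E l a ∈ O := by
    intro l a ha
    obtain ⟨k, n, h⟩ := (hO a).1 ha
    rw [← map_pow] at h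
    obtain ⟨k', n', h'⟩ := (hO _).1 (O.sub_mem (hEn n l) (O.mul_mem ha (hEn (c ^ k) l)))
    refine (hO _).2 ⟨k + k', n', ?_⟩
    rw [← h', ← hleib h l, map_pow]; ring
  have hDO : ∀ a ∈ O, ∀ q ∈ Metric.ball q0 r1,
      HasFDerivAt (fun q => e q a) (realD fun l => e q (E l a)) q := by
    intro a ha q hq
    obtain ⟨k, n, h⟩ := (hO a).1 ha
    rw [← map_pow] at h
    have hN : ∀ x ∈ Metric.ball q0 r1, realH x (ζ x) (c ^ k) ≠ 0 := fun x hx => by
      rw [map_pow]; exact pow_ne_zero _ (hne x hx)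
    have a1 : ∀ x ∈ Metric.ball q0 r1, e x a * realH x (ζ x) (c ^ k) = realH x (ζ x) n :=
      fun x hx => by rw [← hen x hx, ← hen x hx n, ← h, hem x hx _ ha _ (hOn _)]
    have a2 : DifferentiableAt ℂ (fun q => e q a) q := by
      refine (((hDn n q hq).differentiableAt).mul
        (((hDn (c ^ k) q hq).differentiableAt).inv (hN q hq))).congr_of_eventuallyEq ?_
      filter_upwards [Metric.isOpen_ball.mem_nhds hq] with x hx
      rw [Pi.mul_apply, Pi.inv_apply, ← a1 x hx, mul_inv_cancel_right₀ (hN x hx)]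
    have a3 := (a2.hasFDerivAt.mul (hDn (c ^ k) q hq)).unique
      ((hDn n q hq).congr_of_eventuallyEq (by
        filter_upwards [Metric.isOpen_ball.mem_nhds hq] with x hx using a1 x hx))
    refine a2.hasFDerivAt.congr_fderiv (ContinuousLinearMap.ext fun x => ?_)
    have a4 := DFunLike.congr_fun a3 x
    have a5 : ∀ l, e q (E l (realH y θ n)) = e q (E l a) * realH q (ζ q) (c ^ k) +
        e q a * e q (E l (realH y θ (c ^ k))) := fun l => by
      rw [← hleib h l, hea q hq _ (O.mul_mem (hEO l a ha) (hOn _)) _ (O.mul_mem ha (hEn _ l)),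
        hem q hq _ (hEO l a ha) _ (hOn _), hem q hq _ ha _ (hEn _ l), hen q hq]
    simp only [add_apply, smul_apply, smul_eq_mul,
      realD_apply, a5, add_mul, Finset.sum_add_distrib, mul_assoc, ← Finset.mul_sum] at a4
    apply mul_left_cancel₀ (hN q hq)
    rw [realD_apply, Finset.mul_sum]
    rw [Finset.sum_congr rfl fun l _ => mul_left_comm (e q (E l a)) _ (x l)] at a4
    linear_combination a4
  have hTO : ∀ a ∈ T, a ∈ O := fun a ha => hdiv _ (hc2 a ha) _ _ (hOn _) (hna a (hT a ha))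
  have hq01 : q0 ∈ Metric.ball q0 r1 := Metric.mem_ball_self hr1
  have hunit : ∀ a ∈ T, v a = 1 → 0 < ‖e q0 a‖ := fun a ha h => by
    have := hmne _ (hc3 a ha h) q0 hq01
    rw [← hen q0 hq01, ← hna a (hT a ha), hem q0 hq01 _ (hTO a ha) _ (hOn _)] at this
    exact norm_pos_iff.2 (left_ne_zero_of_mul this)
  obtain ⟨c0, hc0', hc00⟩ : ∃ c0 : ℝ, (∀ a ∈ T, ‖e q0 a‖ < c0⁻¹ ∧ (v a = 1 → c0 < ‖e q0 a‖)) ∧
      0 < c0 := by
    refine Filter.Eventually.exists (f := nhdsWithin 0 (Set.Ioi 0))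
      (Filter.Eventually.and ((Filter.eventually_all_finset T).2 fun a ha => ?_)
        self_mem_nhdsWithin)
    refine (tendsto_inv_nhdsGT_zero.eventually_gt_atTop _).and ?_
    by_cases h : v a = 1
    · exact ((eventually_lt_nhds (hunit a ha h)).filter_mono nhdsWithin_le_nhds).mono
        fun x hx _ => hx
    · exact Filter.Eventually.of_forall fun x hx => absurd hx h
  obtain ⟨r, hr, hfin⟩ : ∃ r > 0, ∀ q ∈ Metric.ball q0 r, q ∈ Metric.ball q0 r1 ∧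
      ∀ a ∈ T, ‖e q a‖ ≤ c0⁻¹ ∧ (v a = 1 → c0 ≤ ‖e q a‖) := by
    refine Metric.eventually_nhds_iff_ball.1 (Filter.Eventually.and (Metric.ball_mem_nhds q0 hr1)
      ((Filter.eventually_all_finset T).2 fun a ha => ?_))
    have h1 := (hDO a (hTO a ha) q0 hq01).continuousAt.norm
    refine ((h1.eventually_lt_const (hc0' a ha).1).mono fun x hx => hx.le).and ?_
    by_cases h : v a = 1
    · exact (h1.eventually_const_lt ((hc0' a ha).2 h)).mono fun x hx _ => hx.le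
    · exact Filter.Eventually.of_forall fun x hx => absurd hx h
  have hyO : ∀ o, realH y θ (Polynomial.C (X o)) = y o := fun o => by rw [realH_C, aeval_X]
  refine ⟨O, q0, r, c0, e, hq0, hr, hc00, hTO, fun o => hyO o ▸ hOn _, hEO,
    fun q hq => ⟨f q (hfin q hq).1, he q _⟩, fun q hq o => ?_,
    fun a ha q hq => hDO a ha q (hfin q hq).1, fun a ha q hq => (hfin q hq).2 a ha⟩
  rw [← hyO, hen q (hfin q hq).1, realH_C, aeval_X]

end Pool.Agent.MP_c0606f_ag.Klt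

end

-- part MP_c0606f_ag.Klt.Chart
section

/-! A punctured polydisc in the cover attached to a divisorial valuation; integrability implies
valuative inequalities. -/

namespace Pool.Agent.MP_c0606f_ag.Klt

open MeasureTheory Filter Topology MvPolynomial
open scoped NNReal ENNReal

/-- the punctured polydisc -/
def pdisc {κ : Type} [Fintype κ] (q0 : Option κ → ℂ) (r : ℝ) : Set (Option κ → ℂ) :=
  {q | q ∈ Metric.ball q0 r ∧ q none ≠ 0}

/-- the annular part -/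
def pann {κ : Type} [Fintype κ] (q0 : Option κ → ℂ) (r ρ : ℝ) : Set (Option κ → ℂ) :=
  {q | q ∈ Metric.ball q0 r ∧ ρ / 2 < ‖q none‖ ∧ ‖q none‖ < ρ}

theorem measurableSet_pann {κ : Type} [Fintype κ] (q0 : Option κ → ℂ) (r ρ : ℝ) :
    MeasurableSet (pann q0 r ρ) := by
  have h : IsOpen (pann q0 r ρ) :=
    Metric.isOpen_ball.inter ((isOpen_lt continuous_const (continuous_apply none).norm).inter
      (isOpen_lt (continuous_apply none).norm continuous_const))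
  exact h.measurableSet

theorem chart_measurableSet_pdisc {κ : Type} [Fintype κ] (q0 : Option κ → ℂ) (r : ℝ) :
    MeasurableSet (pdisc q0 r) := by
  have h : IsOpen (pdisc q0 r) :=
    Metric.isOpen_ball.inter (isOpen_ne_fun (continuous_apply none) continuous_const)
  exact h.measurableSet

/-- a product set (`volume_pi`, `Measure.pi_pi`); the annulus contains a disc of radius `ρ / 4` -/
theorem le_volume_pann {κ : Type} [Fintype κ] {q0 : Option κ → ℂ} (h0 : q0 none = 0) {r : ℝ}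
    (hr : 0 < r) : ∃ c : ℝ, 0 < c ∧ ∀ ρ, 0 < ρ → ρ ≤ r →
      ENNReal.ofReal (c * ρ ^ 2) ≤ volume (pann q0 r ρ) := by
  have hπ := Real.pi_pos
  refine ⟨Real.pi / 16 * (r ^ 2 * Real.pi) ^ Fintype.card κ, by positivity, fun ρ hρ hρr => ?_⟩
  have hsub : Set.univ.pi (fun o : Option κ => o.elim (Metric.ball ((3 * ρ / 4 : ℝ) : ℂ) (ρ / 4))
      fun i => Metric.ball (q0 (some i)) r) ⊆ pann q0 r ρ := by
    intro q hq
    have h1 : q none ∈ Metric.ball ((3 * ρ / 4 : ℝ) : ℂ) (ρ / 4) := hq none (Set.mem_univ _)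
    rw [mem_ball_iff_norm] at h1
    have h2 : ‖((3 * ρ / 4 : ℝ) : ℂ)‖ = 3 * ρ / 4 := by
      rw [Complex.norm_real, Real.norm_of_nonneg (by positivity)]
    have h3 := abs_lt.1 ((abs_norm_sub_norm_le (q none) _).trans_lt h1)
    rw [h2] at h3
    refine ⟨?_, by linarith [h3.1], by linarith [h3.2]⟩
    rw [Metric.mem_ball, dist_pi_lt_iff hr]
    rintro (_ | i)
    · rw [h0, dist_zero_right]
      linarith [h3.2]
    · exact hq (some i) (Set.mem_univ _)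
  refine le_trans (le_of_eq ?_) (measure_mono hsub)
  have hb : ∀ (a : ℂ) (s : ℝ), 0 ≤ s →
      volume (Metric.ball a s) = ENNReal.ofReal (s ^ 2 * Real.pi) := by
    intro a s hs
    rw [Complex.volume_ball, ENNReal.ofReal_mul (by positivity), ENNReal.ofReal_pow hs,
      ← NNReal.coe_real_pi, ENNReal.ofReal_coe_nnreal]
  rw [volume_pi_pi, Fintype.prod_option]
  simp only [Option.elim_none, Option.elim_some, hb _ _ hr.le]
  rw [hb _ _ (by positivity), Finset.prod_const, Finset.card_univ,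
    ← ENNReal.ofReal_pow (by positivity), ← ENNReal.ofReal_mul (by positivity)]
  congr 1
  ring

/-- If `∫ |q none|^(2 s - 2)` converges on the punctured polydisc then `s > 0`: the annuli
`pann q0 r (r / 2^k)` are disjoint and each contributes at least a fixed amount if `s ≤ 0`. -/
theorem pos_of_lintegral {κ : Type} [Fintype κ] {q0 : Option κ → ℂ} (h0 : q0 none = 0) {r : ℝ}
    (hr : 0 < r) {s : ℝ}
    (h : ∫⁻ q in pdisc q0 r, ENNReal.ofReal (‖q none‖ ^ (2 * s - 2)) < ⊤) : 0 < s := by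
  by_contra hs
  have hs' : s ≤ 0 := not_lt.1 hs
  obtain ⟨c, hc, hvol⟩ := le_volume_pann h0 hr
  have hρ : ∀ k : ℕ, 0 < r / 2 ^ k := fun k => by positivity
  have hρr : ∀ k : ℕ, r / 2 ^ k ≤ r := fun k =>
    div_le_self hr.le (one_le_pow₀ one_le_two)
  have hdis : Pairwise (Function.onFun Disjoint fun k : ℕ => pann q0 r (r / 2 ^ k)) := by
    refine (pairwise_disjoint_on _).2 fun m n hmn => ?_
    refine Set.disjoint_left.2 fun q h1 h2 => ?_
    have h3 : r / 2 ^ n ≤ r / 2 ^ m / 2 := by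
      rw [div_div, ← pow_succ]
      exact div_le_div_of_nonneg_left hr.le (by positivity) (pow_le_pow_right₀ one_le_two hmn)
    linarith [h1.2.1, h2.2.2]
  have hsub : (⋃ k : ℕ, pann q0 r (r / 2 ^ k)) ⊆ pdisc q0 r := by
    refine Set.iUnion_subset fun k q hq => ⟨hq.1, norm_pos_iff.1 ?_⟩
    linarith [hq.2.1, hρ k]
  have hk : ∀ k : ℕ, ENNReal.ofReal (c * r ^ (2 * s)) ≤
      ∫⁻ q in pann q0 r (r / 2 ^ k), ENNReal.ofReal (‖q none‖ ^ (2 * s - 2)) := by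
    intro k
    have h1 : ∫⁻ _q in pann q0 r (r / 2 ^ k), ENNReal.ofReal ((r / 2 ^ k) ^ (2 * s - 2)) ≤
        ∫⁻ q in pann q0 r (r / 2 ^ k), ENNReal.ofReal (‖q none‖ ^ (2 * s - 2)) := by
      refine setLIntegral_mono' (measurableSet_pann _ _ _) fun q hq => ?_
      refine ENNReal.ofReal_le_ofReal
        (Real.rpow_le_rpow_of_nonpos ?_ hq.2.2.le (by linarith))
      linarith [hq.2.1, hρ k]
    refine le_trans ?_ h1
    rw [setLIntegral_const]
    refine le_trans ?_ (mul_le_mul_right (hvol _ (hρ k) (hρr k)) _)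
    rw [← ENNReal.ofReal_mul (Real.rpow_nonneg (hρ k).le _)]
    refine ENNReal.ofReal_le_ofReal ?_
    have h2 : (r / 2 ^ k) ^ (2 * s - 2) * (c * (r / 2 ^ k) ^ 2) = c * (r / 2 ^ k) ^ (2 * s) := by
      rw [Real.rpow_sub (hρ k), Real.rpow_two]
      have := hρ k
      field_simp
    rw [h2]
    exact mul_le_mul_of_nonneg_left
      (Real.rpow_le_rpow_of_nonpos (hρ k) (hρr k) (by linarith)) hc.le
  have h1 := (lintegral_mono_set hsub).trans_lt h
  rw [lintegral_iUnion (fun k => measurableSet_pann _ _ _) hdis] at h1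
  have h2 := (ENNReal.tsum_le_tsum hk).trans_lt h1
  rw [ENNReal.tsum_const_eq_top_of_ne_zero] at h2
  · exact lt_irrefl _ h2
  · exact (ENNReal.ofReal_pos.2 (mul_pos hc (Real.rpow_pos_of_pos hr _))).ne'

/-- comparison of exponents -/
theorem le_of_rpow_le {a b c B r : ℝ} (hc : 0 < c) (hr : 0 < r)
    (h : ∀ ρ, 0 < ρ → ρ < r → c * ρ ^ a ≤ B * ρ ^ b) : b ≤ a := by
  by_contra hab
  have hd : 0 < b - a := by linarith [not_le.1 hab]
  have h1 : Tendsto (fun ρ : ℝ => B * ρ ^ (b - a)) (𝓝[>] 0) (𝓝 (B * (0 : ℝ) ^ (b - a))) :=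
    (((Real.continuousAt_rpow_const 0 _ (Or.inr hd.le)).tendsto).const_mul B).mono_left
      nhdsWithin_le_nhds
  rw [Real.zero_rpow hd.ne', mul_zero] at h1
  have h2 : ∀ᶠ ρ : ℝ in 𝓝[>] 0, c ≤ B * ρ ^ (b - a) := by
    filter_upwards [Ioo_mem_nhdsGT hr] with ρ hρ
    rw [Real.rpow_sub hρ.1, ← mul_div_assoc, le_div_iff₀ (Real.rpow_pos_of_pos hρ.1 _)]
    exact h ρ hρ.1 hρ.2
  exact absurd (ge_of_tendsto h1 h2) (not_le.2 hc)

/-- `g` is a homomorphism on `O` -/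
def ChartEv {L : Type} [Field L] [Algebra ℂ L] (O : Subalgebra ℂ L) (g : L → ℂ) : Prop :=
  ∃ f : O →ₐ[ℂ] ℂ, ∀ a : O, f a = g a

namespace ChartEv

variable {L : Type} [Field L] [Algebra ℂ L] {O : Subalgebra ℂ L} {g : L → ℂ}

theorem mul (h : ChartEv O g) {a b : L} (ha : a ∈ O) (hb : b ∈ O) : g (a * b) = g a * g b := by
  obtain ⟨f, hf⟩ := h
  have := map_mul f ⟨a, ha⟩ ⟨b, hb⟩
  rwa [hf, hf, hf] at this

theorem add (h : ChartEv O g) {a b : L} (ha : a ∈ O) (hb : b ∈ O) : g (a + b) = g a + g b := by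
  obtain ⟨f, hf⟩ := h
  have := map_add f ⟨a, ha⟩ ⟨b, hb⟩
  rwa [hf, hf, hf] at this

theorem pow (h : ChartEv O g) {a : L} (ha : a ∈ O) (k : ℕ) : g (a ^ k) = g a ^ k := by
  obtain ⟨f, hf⟩ := h
  have := map_pow f ⟨a, ha⟩ k
  rwa [hf, hf] at this

theorem const (h : ChartEv O g) (c : ℂ) : g (algebraMap ℂ L c) = c := by
  obtain ⟨f, hf⟩ := h
  have := f.commutes c
  rwa [hf] at this

theorem zpow (h : ChartEv O g) {t w x : L} (ht : t ∈ O) (hw : w ∈ O) (hx : x ∈ O) (ht0 : t ≠ 0)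
    (hg : g t ≠ 0) {o : ℤ} (e : x = w * t ^ o) : g x = g w * g t ^ o := by
  obtain ⟨n, rfl | rfl⟩ := Int.eq_nat_or_neg o
  · rw [zpow_natCast] at e ⊢
    rw [e, h.mul hw (pow_mem ht n), h.pow ht]
  · rw [zpow_neg, zpow_natCast] at e ⊢
    have e' : w = x * t ^ n := by
      rw [e, mul_assoc, inv_mul_cancel₀ (pow_ne_zero n ht0), mul_one]
    rw [e', h.mul hx (pow_mem ht n), h.pow ht, mul_assoc, mul_inv_cancel₀ (pow_ne_zero n hg),
      mul_one]

theorem det (h : ChartEv O g) {ι : Type} [Fintype ι] [DecidableEq ι] (M : Matrix ι ι L)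
    (hM : ∀ i j, M i j ∈ O) : M.det ∈ O ∧ g M.det = (Matrix.of fun i j => g (M i j)).det := by
  obtain ⟨f, hf⟩ := h
  let M' : Matrix ι ι O := Matrix.of fun i j => ⟨M i j, hM i j⟩
  have h1 : (M'.det : L) = M.det := O.val.map_det M'
  refine ⟨h1 ▸ M'.det.2, ?_⟩
  rw [← h1, ← hf, f.map_det]
  congr 1
  ext i j
  exact hf ⟨M i j, hM i j⟩

theorem aeval (h : ChartEv O g) {ι : Type} {y : ι → L} (hy : ∀ i, y i ∈ O)
    (b : MvPolynomial ι ℂ) : aeval y b ∈ O ∧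
      g (aeval y b) = eval₂Hom (RingHom.id ℂ) (fun i => g (y i)) b := by
  induction b using MvPolynomial.induction_on with
  | C c =>
    rw [aeval_C, h.const, eval₂Hom_C]
    exact ⟨O.algebraMap_mem c, rfl⟩
  | add p q hp hq =>
    rw [map_add, map_add, h.add hp.1 hq.1, hp.2, hq.2]
    exact ⟨O.add_mem hp.1 hq.1, rfl⟩
  | mul_X p i hp =>
    rw [map_mul, map_mul, aeval_X, h.mul hp.1 (hy i), hp.2, eval₂Hom_X']
    exact ⟨O.mul_mem hp.1 (hy i), rfl⟩

theorem pv (h : ChartEv O g) {ι : Type} (C : Cover ι L) (hy : ∀ i, C.y i ∈ O) (hz : C.z ∈ O)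
    (n : Polynomial (MvPolynomial ι ℂ)) : C.pv n ∈ O ∧
      g (C.pv n) = n.eval₂ (eval₂Hom (RingHom.id ℂ) fun i => g (C.y i)) (g C.z) := by
  induction n using Polynomial.induction_on' with
  | add p q hp hq =>
    rw [C.pv_add, Polynomial.eval₂_add, h.add hp.1 hq.1, hp.2, hq.2]
    exact ⟨O.add_mem hp.1 hq.1, rfl⟩
  | monomial k b =>
    have hb := h.aeval hy b
    rw [Polynomial.eval₂_monomial, ← Polynomial.C_mul_X_pow_eq_monomial, C.pv_mul, C.pv_C,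
      C.evPv_pow, C.pv_X, h.mul hb.1 (pow_mem hz k), h.pow hz, hb.2]
    exact ⟨O.mul_mem hb.1 (pow_mem hz k), rfl⟩

/-- the value of a regular function at the point defined by `g` -/
theorem ev (h : ChartEv O g) {ι : Type} (C : Cover ι L) (hy : ∀ i, C.y i ∈ O) (hz : C.z ∈ O)
    (hp : C.IsPt (RingHom.id ℂ) (fun i => g (C.y i)) (g C.z)) {t w a : L} (ht : t ∈ O)
    (hw : w ∈ O) (ha : a ∈ C.A) (ht0 : t ≠ 0) (hg : g t ≠ 0) {o : ℤ} (e : a = w * t ^ o) :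
    C.ev (RingHom.id ℂ) (fun i => g (C.y i)) (g C.z) a = g w * g t ^ o := by
  obtain ⟨n, k, hn⟩ := C.mem_A.1 ha
  have h1 := h.pv C hy hz n
  have h2 := h.aeval hy C.Δ
  have h3 : C.pv n = w * MvPolynomial.aeval C.y C.Δ ^ k * t ^ o := by
    rw [← hn, e]
    ring
  rw [C.ev_spec hp hn, ← h1.2, div_eq_iff (pow_ne_zero k hp.2),
    h.zpow ht (O.mul_mem hw (pow_mem h2.1 k)) h1.1 ht0 hg h3, h.mul hw (pow_mem h2.1 k),
    h.pow h2.1, h2.2]
  ring

end ChartEv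

/-- the Jacobian of `y` in a frame -/
theorem chart_jac {κ L : Type} [Fintype κ] [DecidableEq κ] [Field L] [Algebra ℂ L]
    (C : Cover (Option κ) L) {v : Val L} {t : L} {u : κ → L} (hf : IsFrame v t u)
    (ht : IsUnif v t) (hy : ∀ i, v (C.y i) ≤ 1) (E : Option κ → Derivation ℂ L L)
    (hE : ∀ l o : Option κ, E l (o.elim t u) = if l = o then 1 else 0) :
    ∃ k : ℕ, v (Matrix.of fun l j => E l (C.y j)).det = v t ^ k ∧
      avol v C.y = v t ^ (k + 1) := by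
  have hd : IsDual t u (t • E none) fun i => E (some i) := by
    refine ⟨?_, fun j => ?_, fun i => ?_, fun i j => ?_⟩
    · have : E none t = 1 := by simpa using hE none none
      simp [this]
    · have : E none (u j) = 0 := by simpa using hE none (some j)
      simp [this]
    · simpa using hE (some i) none
    · simpa using hE (some i) (some j)
  have h0 : (Matrix.of fun l j => E l (C.y j)).det ≠ 0 := by
    intro h0
    obtain ⟨w, hw, hw0⟩ := Matrix.exists_vecMul_eq_zero_iff.2 h0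
    have hD : ∀ a, (∑ l, w l • E l) a = ∑ l, w l * E l a := fun a => by
      have := map_sum (evD a) (fun l => w l • E l) Finset.univ
      simpa using this
    refine hw (funext fun o => ?_)
    have h1 := der_kill_alg (∑ l, w l • E l) (Set.range C.y) (by
      rintro _ ⟨j, rfl⟩
      rw [hD]
      exact congrFun hw0 j) (C.alg (o.elim t u))
    rw [hD] at h1
    simpa [hE] using h1
  have h1 : v (Matrix.of fun l j => E l (C.y j)).det ≤ 1 := by
    refine (val_det_le _ (fun _ => 1) fun l j => ?_).trans_eq (by simp)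
    refine der_int_of_unif hf ht C.fg_top (E l) ?_ (fun i => ?_) (hy j)
    · have := hE l none
      rw [Option.elim_none] at this
      rw [this]
      split_ifs <;> simp
    · have := hE l (some i)
      rw [Option.elim_some] at this
      rw [this]
      split_ifs <;> simp
  obtain ⟨j, hj⟩ := ht.2.2 _ (Set.mem_univ _) h0
  rw [hj, zpow_le_one_iff_right_of_lt_one₀ ht.1 ht.2.1] at h1
  obtain ⟨k, rfl⟩ := Int.eq_ofNat_of_zero_le h1
  rw [zpow_natCast] at hj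
  refine ⟨k, hj, ?_⟩
  rw [avol_eq hf hd C.y (Equiv.refl _)]
  have h2 : (Matrix.of fun i j => (((Equiv.refl (Option κ)) i).elim (t • E none)
      (fun i => E (some i)) : Derivation ℂ L L) (C.y j)) =
      Matrix.of fun i j => i.elim t (fun _ => 1) * (Matrix.of fun l j => E l (C.y j)) i j := by
    ext i j
    rcases i with _ | i <;> simp
  rw [h2, Matrix.det_mul_column, Fintype.prod_option, map_mul, hj, pow_succ']
  simp

namespace Cover

variable {κ L : Type} [Fintype κ] [DecidableEq κ] [Field L] [Algebra ℂ L]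
  (C : Cover (Option κ) L)

/-- the data of a chart adapted to `v` and to the finite set `T` -/
structure IsChart (v : Val L) (t : L) (T : Finset L) (q0 : Option κ → ℂ) (r c : ℝ) (k : ℕ)
    (Ψ : (Option κ → ℂ) → C.Pt) : Prop where
  zero : q0 none = 0
  r_pos : 0 < r
  r_le : r ≤ 1
  c_pos : 0 < c
  avol : avol v C.y = v t ^ (k + 1)
  bdd : ∀ q ∈ pdisc q0 r, ‖(Ψ q).1.1‖ ≤ c⁻¹ ∧ ‖(Ψ q).1.2‖ ≤ c⁻¹
  est : ∀ a ∈ T, ∀ o : ℤ, v a = v t ^ o → ∀ q ∈ pdisc q0 r,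
    c * ‖q none‖ ^ o ≤ ‖C.fn a (Ψ q)‖ ∧ ‖C.fn a (Ψ q)‖ ≤ c⁻¹ * ‖q none‖ ^ o
  area : ∀ s ⊆ pdisc q0 r, MeasurableSet s → ∀ F : C.Pt → ℝ≥0∞,
    ∫⁻ q in s, ENNReal.ofReal (c * ‖q none‖ ^ (2 * k)) * F (Ψ q) ≤ ∫⁻ p, F p ∂(C.rd.mu)

/-- `IsAbh.frame_idx` gives `t, u`; let `E l` be the derivations dual to `(t, u)` (`exists_der`),
`D0 = t • E none`; `avol_eq` gives `avol = v t * v (det (E l (y j)))`; the determinant is nonzero
(Jacobian: if it vanished a nonzero combination of the `E l` would kill `y`, hence `L`,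
`der_kill_alg`) and integral (`der_int_of_unif`): `det = t ^ k * unit`.  Apply `exists_real` to the
set containing `y i`, `z` (integral by `z_integral`), the units `Δ(y) / t ^ o`, `a / t ^ o` for
`0 ≠ a ∈ T`, `det / t ^ k`, and `b(y) / t ^ o` for the denominators `b` of `t` and `u i` (`gen`).
Put `Ψ q = (e q y, e q z)` on the punctured disc.  From `a * Δ ^ k = pv n` and `ev_spec` one gets
`fn a (Ψ q) = e q (a / t ^ o) * q none ^ o` (multiply by a power of `t` to stay in `O`).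
Injectivity: `q o * b (y) = n (y, z)` with `b (y) ≠ 0`.  Then `RD.area` and `det_real`. -/
theorem exists_chart {v : Val L} (hv : IsAbh v) (hy : ∀ i, v (C.y i) ≤ 1) (T : Finset L)
    (hT : ∀ a ∈ T, a ∈ C.A) : ∃ (t : L) (q0 : Option κ → ℂ) (r c : ℝ) (k : ℕ)
      (Ψ : (Option κ → ℂ) → C.Pt), IsUnif v t ∧ C.IsChart v t T q0 r c k Ψ := by
  classical
  obtain ⟨t, u, hf, ht⟩ := hv.frame_idx (κ := κ) C.fg_top C.basis Fintype.card_option
  choose E hE using fun l : Option κ =>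
    exists_der hf.basis fun o : Option κ => if l = o then (1 : L) else 0
  obtain ⟨k, hk, havol⟩ := chart_jac C hf ht hy E hE
  have ht0 : t ≠ 0 := (Valuation.pos_iff v).1 ht.1
  have hord : ∀ a : L, ∃ j : ℤ, a ≠ 0 → v a = v t ^ j := fun a => by
    by_cases ha : a = 0
    · exact ⟨0, fun h => absurd ha h⟩
    · obtain ⟨j, hj⟩ := ht.2.2 a (Set.mem_univ _) ha
      exact ⟨j, fun _ => hj⟩
  choose od hod using hord
  have hU1 : ∀ a, a ≠ 0 → v (a / t ^ od a) = 1 := fun a ha => by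
    rw [map_div₀, map_zpow₀, ← hod a ha, div_self ((Valuation.ne_zero_iff v).2 ha)]
  have hUe : ∀ a, a = a / t ^ od a * t ^ od a := fun a =>
    (div_mul_cancel₀ a (zpow_ne_zero _ ht0)).symm
  have hodeq : ∀ a (o : ℤ), v a = v t ^ o → a ≠ 0 ∧ od a = o := fun a o h => by
    have ha : a ≠ 0 := (Valuation.pos_iff v).1 (h ▸ zpow_pos ht.1 o)
    exact ⟨ha, zpow_right_injective₀ ht.1 ht.2.1.ne ((hod a ha).symm.trans h)⟩
  choose nn bb hbb hnn using fun o : Option κ => C.gen (o.elim t u)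
  set J := (Matrix.of fun l j => E l (C.y j)).det with hJ
  set S : Finset L := insert (aeval C.y C.Δ) (insert J
    (T ∪ Finset.univ.image fun o => aeval C.y (bb o))) with hS
  have hz : v C.z ≤ 1 := by
    refine struct_int_le v (fun o => ?_) C.z_integral
    obtain ⟨b, hb⟩ : ∃ b : MvPolynomial (Option κ) ℂ, aeval C.y b = (o : L) :=
      (Algebra.adjoin_range_eq_range_aeval ℂ C.y).le o.2
    change v (o : L) ≤ 1
    rw [← hb]
    exact lat_aeval_le hv.triv C.y hy b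
  obtain ⟨O, q0, r, c, e, h0, hr, hc, hTO, htO, hEO, hev, hco, hder, hbd⟩ :=
    exists_real hf ht C.fg_top E hE (insert C.z (Finset.univ.image C.y ∪
      S.image fun a => a / t ^ od a)) (by
      intro a ha
      simp only [Finset.mem_insert, Finset.mem_union, Finset.mem_image] at ha
      rcases ha with rfl | ⟨i, -, rfl⟩ | ⟨b, -, rfl⟩
      · exact hz
      · exact hy i
      · by_cases hb : b = 0
        · simp [hb]
        · exact (hU1 b hb).le)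
  have mz : C.z ∈ insert C.z (Finset.univ.image C.y ∪ S.image fun a => a / t ^ od a) :=
    Finset.mem_insert_self _ _
  have my : ∀ i, C.y i ∈ insert C.z (Finset.univ.image C.y ∪ S.image fun a => a / t ^ od a) :=
    fun i => Finset.mem_insert_of_mem (Finset.mem_union_left _
      (Finset.mem_image_of_mem _ (Finset.mem_univ i)))
  have mU : ∀ a ∈ S, a / t ^ od a ∈
      insert C.z (Finset.univ.image C.y ∪ S.image fun a => a / t ^ od a) :=
    fun a ha => Finset.mem_insert_of_mem (Finset.mem_union_right _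
      (Finset.mem_image_of_mem (fun a => a / t ^ od a) ha))
  have sΔ : aeval C.y C.Δ ∈ S := Finset.mem_insert_self _ _
  have sJ : J ∈ S := Finset.mem_insert_of_mem (Finset.mem_insert_self _ _)
  have sT : ∀ a ∈ T, a ∈ S := fun a ha =>
    Finset.mem_insert_of_mem (Finset.mem_insert_of_mem (Finset.mem_union_left _ ha))
  have sb : ∀ o, aeval C.y (bb o) ∈ S := fun o =>
    Finset.mem_insert_of_mem (Finset.mem_insert_of_mem (Finset.mem_union_right _
      (Finset.mem_image_of_mem (fun o => aeval C.y (bb o)) (Finset.mem_univ o))))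
  clear_value S
  have yO : ∀ i, C.y i ∈ O := fun i => hTO _ (my i)
  have zO : C.z ∈ O := hTO _ mz
  have tO : t ∈ O := htO none
  have hball : ∀ q ∈ pdisc q0 (min r 1), q ∈ Metric.ball q0 r := fun q hq =>
    Metric.ball_subset_ball (min_le_left _ _) hq.1
  have hE' : ∀ q ∈ pdisc q0 (min r 1), ChartEv O (e q) := fun q hq => hev q (hball q hq)
  have het : ∀ q ∈ pdisc q0 (min r 1), e q t = q none := fun q hq => hco q (hball q hq) none
  have hlow : ∀ q ∈ pdisc q0 (min r 1), ∀ a ∈ S, a ≠ 0 → c ≤ ‖e q (a / t ^ od a)‖ :=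
    fun q hq a ha ha0 => (hbd _ (mU a ha) q (hball q hq)).2 (hU1 a ha0)
  have hval : ∀ q ∈ pdisc q0 (min r 1), ∀ a ∈ S, a ∈ O →
      e q a = e q (a / t ^ od a) * q none ^ od a := fun q hq a ha haO => by
    rw [← het q hq]
    exact (hE' q hq).zpow tO (hTO _ (mU a ha)) haO ht0 (by rw [het q hq]; exact hq.2) (hUe a)
  have hne : ∀ q ∈ pdisc q0 (min r 1), ∀ a ∈ S, a ∈ O → a ≠ 0 → e q a ≠ 0 :=
    fun q hq a ha haO ha0 => by
      rw [hval q hq a ha haO]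
      exact mul_ne_zero (norm_pos_iff.1 (hc.trans_le (hlow q hq a ha ha0))) (zpow_ne_zero _ hq.2)
  have hpt : ∀ q ∈ pdisc q0 (min r 1),
      C.IsPt (RingHom.id ℂ) (fun i => e q (C.y i)) (e q C.z) := fun q hq => by
    constructor
    · rw [← ((hE' q hq).pv C yO zO C.P).2, C.evPv_P]
      simpa using (hE' q hq).const 0
    · have h1 := (hE' q hq).aeval yO C.Δ
      rw [← h1.2]
      exact hne q hq _ sΔ h1.1 (C.aeval_ne C.Δ_ne)
  obtain ⟨p0, -⟩ : ∃ p : C.Pt, True := by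
    by_contra hn
    refine C.Δ_ne (MvPolynomial.funext fun y => ?_)
    by_contra h1
    obtain ⟨p, -⟩ := C.exists_pt (y := y) (by simpa using h1)
    exact hn ⟨p, trivial⟩
  obtain ⟨Ψ, hΨ⟩ : ∃ Ψ : (Option κ → ℂ) → C.Pt, ∀ q ∈ pdisc q0 (min r 1),
      (Ψ q).1 = (fun i => e q (C.y i), e q C.z) :=
    ⟨fun q => if h : q ∈ pdisc q0 (min r 1) then ⟨(fun i => e q (C.y i), e q C.z), hpt q h⟩
      else p0, fun q hq => congrArg Subtype.val (dif_pos hq)⟩
  have hc' : 0 < min c (c ^ 2) := lt_min hc (pow_pos hc 2)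
  have hci : c⁻¹ ≤ (min c (c ^ 2))⁻¹ := inv_anti₀ hc' (min_le_left _ _)
  refine ⟨t, q0, min r 1, min c (c ^ 2), k, Ψ, ht, h0, lt_min hr one_pos, min_le_right _ _, hc',
    havol, fun q hq => ?_, fun a ha o ho q hq => ?_, fun s hs hms F => ?_⟩
  · rw [hΨ q hq]
    refine ⟨(pi_norm_le_iff_of_nonneg (inv_pos.2 hc').le).2 fun i => ?_, ?_⟩
    · exact (hbd _ (my i) q (hball q hq)).1.trans hci
    · exact (hbd _ mz q (hball q hq)).1.trans hci
  · obtain ⟨ha0, rfl⟩ := hodeq a o ho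
    have h1 : C.fn a (Ψ q) = e q (a / t ^ od a) * q none ^ od a := by
      rw [fn, hΨ q hq, ← het q hq]
      exact (hE' q hq).ev C yO zO (hpt q hq) tO (hTO _ (mU a (sT a ha))) (hT a ha) ht0
        (by rw [het q hq]; exact hq.2) (hUe a)
    have h2 : 0 ≤ ‖q none‖ ^ od a := zpow_nonneg (norm_nonneg _) _
    rw [h1, norm_mul, norm_zpow]
    exact ⟨mul_le_mul_of_nonneg_right ((min_le_left _ _).trans (hlow q hq a (sT a ha) ha0)) h2,
      mul_le_mul_of_nonneg_right ((hbd _ (mU a (sT a ha)) q (hball q hq)).1.trans hci) h2⟩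
  · let f' : (Option κ → ℂ) → (Option κ → ℂ) →L[ℝ] (Option κ → ℂ) := fun q =>
      (ContinuousLinearMap.pi fun i => ∑ l, e q (E l (C.y i)) •
        (ContinuousLinearMap.proj l : (Option κ → ℂ) →L[ℂ] ℂ)).restrictScalars ℝ
    have hD : ∀ q ∈ s, HasFDerivAt (fun q i => e q (C.y i)) (f' q) q := fun q hq =>
      (hasFDerivAt_pi.2 fun i => hder _ (yO i) q (hball q (hs hq))).restrictScalars ℝ
    have hcont : ContinuousOn Ψ s := by
      refine (Topology.IsInducing.subtypeVal.continuousOn_iff (f := Ψ)).2 ?_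
      refine ContinuousOn.congr (f := fun q => (fun i => e q (C.y i), e q C.z))
        (fun q hq => ?_) fun q hq => hΨ q (hs hq)
      exact ((hD q hq).continuousAt.prodMk
        (hder _ zO q (hball q (hs hq))).continuousAt).continuousWithinAt
    have hinj : Set.InjOn Ψ s := by
      have key : ∀ q ∈ s, ∀ o, eval₂Hom (RingHom.id ℂ) (Ψ q).1.1 (bb o) ≠ 0 ∧
          q o * eval₂Hom (RingHom.id ℂ) (Ψ q).1.1 (bb o) =
            (nn o).eval₂ (eval₂Hom (RingHom.id ℂ) (Ψ q).1.1) (Ψ q).1.2 := fun q hq o => by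
        have h1 := (hE' q (hs hq)).aeval yO (bb o)
        have h2 := (hE' q (hs hq)).pv C yO zO (nn o)
        rw [hΨ q (hs hq), ← h1.2, ← h2.2, ← hco q (hball q (hs hq)) o,
          ← (hE' q (hs hq)).mul (htO o) h1.1, hnn o]
        exact ⟨hne q (hs hq) _ (sb o) h1.1 (C.aeval_ne (hbb o)), rfl⟩
      intro q hq q' hq' hqq
      funext o
      have h1 := key q hq o
      have h2 := key q' hq' o
      rw [← hqq] at h2
      exact mul_right_cancel₀ h1.1 (h1.2.trans h2.2.symm)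
    refine le_trans (setLIntegral_mono' hms fun q hq => ?_)
      (C.rd.area hms hcont hinj (f' := f') (fun q hq => ?_) F)
    · refine mul_le_mul_left (ENNReal.ofReal_le_ofReal ?_) _
      have h1 := (hE' q (hs hq)).det (Matrix.of fun l j => E l (C.y j))
        fun l j => hEO l _ (yO j)
      obtain ⟨hJ0, hJk⟩ := hodeq J k (by rw [zpow_natCast]; exact hk)
      rw [det_real (Matrix.of fun l j => e q (E l (C.y j))) (f' q) (fun w i => by
        simp [f', mul_comm]), abs_of_nonneg (by positivity)]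
      have h2 : (Matrix.of fun l j => e q (E l (C.y j))).det = e q J := h1.2.symm
      rw [h2, hval q (hs hq) J sJ h1.1, norm_mul, mul_pow, norm_zpow]
      have h3 : (‖q none‖ ^ od J) ^ 2 = ‖q none‖ ^ (2 * k) := by
        rw [hJk, zpow_natCast, ← pow_mul, mul_comm k 2]
      rw [h3]
      refine mul_le_mul_of_nonneg_right ((min_le_right _ _).trans ?_) (by positivity)
      exact pow_le_pow_left₀ hc.le (hlow q (hs hq) J sJ hJ0) 2
    · refine (hD q hq).hasFDerivWithinAt.congr (fun x hx => ?_) ?_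
      · rw [rd_π, hΨ x (hs hx)]
      · rw [rd_π, hΨ q (hs hq)]

/-- Use a chart for `a` and the `b i`.  With `v a = v t ^ α` and `max v (b i) = v t ^ β0` (some
`b i` is nonzero, `exists_pt`), the integrand at `Ψ q` is at least a constant times
`|q none| ^ (2 α - 2 γ β0)`; `pos_of_lintegral` gives `k + 1 + α - γ β0 > 0`. -/
theorem easy {a : L} (ha : a ∈ C.A) {β : Type} [Fintype β] {b : β → L} (hb : ∀ i, b i ∈ C.A)
    (hpos : ∀ p, 0 < ∑ i, ‖C.fn (b i) p‖ ^ 2) {γ : ℝ} (hγ : 0 ≤ γ)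
    (hint : ∀ B : ℝ, ∫⁻ p in {p : C.Pt | ‖p.1.1‖ ≤ B},
      ENNReal.ofReal (‖C.fn a p‖ ^ 2 / (∑ i, ‖C.fn (b i) p‖ ^ 2) ^ γ) ∂(C.rd.mu) < ⊤)
    {v : Val L} (hv : IsAbh v) (hy : ∀ i, v (C.y i) ≤ 1) :
    v a * avol v C.y < (Finset.univ.sup fun i => v (b i)) ^ γ := by
  classical
  obtain ⟨t, q0, r, c, k, Ψ, ht, hch⟩ := C.exists_chart hv hy
    (insert a (Finset.univ.image b)) (by
      intro x hx
      simp only [Finset.mem_insert, Finset.mem_image] at hx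
      rcases hx with rfl | ⟨i, -, rfl⟩
      exacts [ha, hb i])
  have hr := hch.r_pos
  have hc := hch.c_pos
  have hfn0 : ∀ p, C.fn 0 p = 0 := fun p => C.ev_zero p.2
  have hex : ∃ i, b i ≠ 0 := by
    by_contra hn
    have h1 : ∀ i, b i = 0 := fun i => by_contra fun h => hn ⟨i, h⟩
    have h2 := hpos (Ψ q0)
    simp [h1, hfn0] at h2
  obtain ⟨i1, hi1⟩ := hex
  obtain ⟨i0, -, hi0⟩ := Finset.exists_mem_eq_sup Finset.univ ⟨i1, Finset.mem_univ _⟩
    fun i => v (b i)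
  have hle : ∀ i, v (b i) ≤ v (b i0) := fun i =>
    hi0 ▸ Finset.le_sup (f := fun i => v (b i)) (Finset.mem_univ i)
  have hpos0 : 0 < v (b i0) := ((Valuation.pos_iff v).2 hi1).trans_le (hle i1)
  rw [hi0]
  by_cases ha0 : a = 0
  · rw [ha0, map_zero, zero_mul]
    exact NNReal.rpow_pos hpos0
  obtain ⟨α, hα⟩ := ht.2.2 a (Set.mem_univ _) ha0
  obtain ⟨β0, hβ0⟩ := ht.2.2 (b i0) (Set.mem_univ _) ((Valuation.pos_iff v).1 hpos0)
  have hN : (0 : ℝ) < Fintype.card β := by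
    exact_mod_cast Fintype.card_pos_iff.2 ⟨i0⟩
  set K : ℝ := c * c ^ 2 / (Fintype.card β * c⁻¹ ^ 2) ^ γ with hK
  have hK0 : 0 < K := by positivity
  have hpt : ∀ q ∈ pdisc q0 r,
      K * ‖q none‖ ^ (2 * ((k : ℝ) + 1 + α - γ * β0) - 2) ≤ c * ‖q none‖ ^ (2 * k) *
        (‖C.fn a (Ψ q)‖ ^ 2 / (∑ i, ‖C.fn (b i) (Ψ q)‖ ^ 2) ^ γ) := by
    intro q hq
    have hτ : 0 < ‖q none‖ := norm_pos_iff.2 hq.2
    have hτ1 : ‖q none‖ ≤ 1 := by
      have h1 := (dist_le_pi_dist q q0 none).trans_lt hq.1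
      rw [hch.zero, dist_zero_right] at h1
      exact h1.le.trans hch.r_le
    have h1 : ∀ i, ‖C.fn (b i) (Ψ q)‖ ≤ c⁻¹ * ‖q none‖ ^ β0 := by
      intro i
      by_cases hi : b i = 0
      · rw [hi, hfn0, norm_zero]
        positivity
      · obtain ⟨j, hj⟩ := ht.2.2 (b i) (Set.mem_univ _) hi
        have h2 := hle i
        rw [hj, hβ0, zpow_le_zpow_iff_right_of_lt_one₀ ht.1 ht.2.1] at h2
        refine (hch.est _ (Finset.mem_insert_of_mem (Finset.mem_image_of_mem b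
          (Finset.mem_univ i))) j hj q hq).2.trans ?_
        exact mul_le_mul_of_nonneg_left (zpow_le_zpow_right_of_le_one₀ hτ hτ1 h2) (by positivity)
    have h2 : ∑ i, ‖C.fn (b i) (Ψ q)‖ ^ 2 ≤
        Fintype.card β * c⁻¹ ^ 2 * ‖q none‖ ^ (2 * (β0 : ℝ)) := by
      refine (Finset.sum_le_card_nsmul _ _ ((c⁻¹ * ‖q none‖ ^ β0) ^ 2) fun i _ =>
        pow_le_pow_left₀ (norm_nonneg _) (h1 i) 2).trans (le_of_eq ?_)
      rw [Finset.card_univ, nsmul_eq_mul, mul_comm 2 (β0 : ℝ), Real.rpow_mul hτ.le,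
        Real.rpow_intCast, Real.rpow_two]
      ring
    have h3 : (∑ i, ‖C.fn (b i) (Ψ q)‖ ^ 2) ^ γ ≤
        (Fintype.card β * c⁻¹ ^ 2) ^ γ * ‖q none‖ ^ (2 * (β0 : ℝ) * γ) := by
      rw [Real.rpow_mul hτ.le, ← Real.mul_rpow (by positivity) (by positivity)]
      exact Real.rpow_le_rpow (hpos _).le h2 hγ
    have h4 : c ^ 2 * ‖q none‖ ^ (2 * (α : ℝ)) ≤ ‖C.fn a (Ψ q)‖ ^ 2 := by
      have h5 := (hch.est a (Finset.mem_insert_self _ _) α hα q hq).1
      rw [mul_comm 2 (α : ℝ), Real.rpow_mul hτ.le, Real.rpow_intCast, Real.rpow_two, ← mul_pow]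
      exact pow_le_pow_left₀ (by positivity) h5 2
    refine le_trans (le_of_eq ?_) (mul_le_mul_of_nonneg_left
      (div_le_div₀ (by positivity) h4 (Real.rpow_pos_of_pos (hpos _) γ) h3) (by positivity))
    have h6 : ‖q none‖ ^ (2 * ((k : ℝ) + 1 + α - γ * β0) - 2) =
        ‖q none‖ ^ (2 * k) * ‖q none‖ ^ (2 * (α : ℝ)) / ‖q none‖ ^ (2 * (β0 : ℝ) * γ) := by
      rw [← Real.rpow_natCast, ← Real.rpow_add hτ, ← Real.rpow_sub hτ]
      congr 1
      push_cast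
      ring
    rw [h6, hK]
    ring
  have hfin : ∫⁻ q in pdisc q0 r,
      ENNReal.ofReal (‖q none‖ ^ (2 * ((k : ℝ) + 1 + α - γ * β0) - 2)) < ⊤ := by
    have h1 := (hch.area _ subset_rfl (chart_measurableSet_pdisc q0 r)
      ({p : C.Pt | ‖p.1.1‖ ≤ c⁻¹}.indicator fun p =>
        ENNReal.ofReal (‖C.fn a p‖ ^ 2 / (∑ i, ‖C.fn (b i) p‖ ^ 2) ^ γ))).trans_lt
      ((lintegral_indicator_le _ _).trans_lt (hint c⁻¹))
    have h2 : ∫⁻ q in pdisc q0 r, ENNReal.ofReal K *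
        ENNReal.ofReal (‖q none‖ ^ (2 * ((k : ℝ) + 1 + α - γ * β0) - 2)) < ⊤ := by
      refine lt_of_le_of_lt (setLIntegral_mono' (chart_measurableSet_pdisc q0 r)
        fun q hq => ?_) h1
      rw [Set.indicator_of_mem (show Ψ q ∈ {p : C.Pt | ‖p.1.1‖ ≤ c⁻¹} from (hch.bdd q hq).1),
        ← ENNReal.ofReal_mul hK0.le, ← ENNReal.ofReal_mul (by positivity)]
      exact ENNReal.ofReal_le_ofReal (hpt q hq)
    rw [lintegral_const_mul' _ _ ENNReal.ofReal_ne_top] at h2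
    exact ENNReal.lt_top_of_mul_ne_top_right h2.ne (ENNReal.ofReal_pos.2 hK0).ne'
  have hs := pos_of_lintegral hch.zero hr hfin
  rw [hα, hch.avol, hβ0, ← NNReal.rpow_intCast, ← NNReal.rpow_intCast, ← NNReal.rpow_natCast,
    ← NNReal.rpow_add ht.1.ne', ← NNReal.rpow_mul]
  refine NNReal.rpow_lt_rpow_of_exponent_gt ht.1 ht.2.1 ?_
  push_cast
  linarith

end Cover

end Pool.Agent.MP_c0606f_ag.Klt

end

-- part MP_c0606f_ag.Klt.Core1
section

/-! Inversion of adjunction for one parameter families. -/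

namespace Pool.Agent.MP_c0606f_ag.Klt

open MeasureTheory Filter Topology MvPolynomial
open scoped NNReal ENNReal

/-- integral elements have value at most one (`Valuation.Integers`, or directly from a monic
equation) -/
theorem val_le_one_of_integral {L : Type} [Field L] [Algebra ℂ L] {v : Val L}
    (htriv : ∀ c : ℂ, v (algebraMap ℂ L c) ≤ 1) {ι : Type} {y : ι → L} (hy : ∀ i, v (y i) ≤ 1)
    {a : L} (ha : IsIntegral (Algebra.adjoin ℂ (Set.range y)) a) : v a ≤ 1 := by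
  refine struct_int_le v (fun o => ?_) ha
  obtain ⟨o, ho⟩ := o
  change v o ≤ 1
  induction ho using Algebra.adjoin_induction with
  | mem x hx =>
    obtain ⟨i, rfl⟩ := hx
    exact hy i
  | algebraMap c => exact htriv c
  | add x y _ _ hx hy => exact v.map_add_le hx hy
  | mul x y _ _ hx hy =>
    rw [map_mul]
    exact mul_le_one' hx hy

theorem core1_small {s K δ : ℝ} (hs : 0 < s) (hδ : 0 < δ) :
    ∃ r : ℝ, 0 < r ∧ ∀ ρ : ℝ, 0 < ρ → ρ < r → K * ρ ^ s ≤ δ := by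
  have h1 : Tendsto (fun ρ : ℝ => K * ρ ^ s) (𝓝 0) (𝓝 (K * (0 : ℝ) ^ s)) :=
    ((Real.continuous_rpow_const hs.le).tendsto 0).const_mul K
  rw [Real.zero_rpow hs.ne', mul_zero] at h1
  obtain ⟨r, hr, h⟩ := Metric.eventually_nhds_iff.1 (h1.eventually_le_const hδ)
  exact ⟨r, hr, fun ρ h0 h1 => h (by rwa [Real.dist_eq, sub_zero, abs_of_pos h0])⟩

theorem core1_half {x ρ : ℝ} (hρ : 0 < ρ) (h1 : ρ / 2 < x) (h2 : x < ρ) (S : ℝ) :
    (1 / 2) ^ |S| * ρ ^ S ≤ x ^ S := by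
  have hx : 0 < x := by linarith
  rcases le_total 0 S with h | h
  · rw [abs_of_nonneg h, ← Real.mul_rpow (by norm_num) hρ.le]
    exact Real.rpow_le_rpow (by positivity) (by linarith) h
  · refine le_trans (mul_le_of_le_one_left (Real.rpow_nonneg hρ.le _)
      (Real.rpow_le_one (by norm_num) (by norm_num) (abs_nonneg _))) ?_
    exact Real.rpow_le_rpow_of_nonpos hx h2.le h

theorem core1_pt {d x a c e f η ε nτ nF nh num : ℝ} {N : ℕ} (hd : 0 < d) (hx : 0 < x) (hx1 : x ≤ 1)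
    (ha : 0 ≤ a) (hc : 0 ≤ c) (hf : f ≤ N) (hε : 0 < ε) (hεx : ε ≤ (2 * x) ^ N) (hτ0 : 0 < nτ)
    (hτ : nτ ≤ d⁻¹ * x ^ e) (hF0 : 0 ≤ nF) (hF : nF ≤ d⁻¹ * x ^ f) (hh0 : 0 < nh)
    (hh : nh ≤ d⁻¹ * x ^ η) (hn : d / 2 ≤ num) :
    (d / 2) ^ 2 / ((d⁻¹ ^ 2) ^ (1 + a) * (d⁻¹ ^ 2 + 4 ^ N) ^ c * d⁻¹ ^ 2) *
        x ^ (-(2 * e * (1 + a) + 2 * f * c + 2 * η)) ≤
      num ^ 2 / ((nτ ^ 2) ^ (1 + a) * (nF ^ 2 + ε ^ 2) ^ c * nh ^ 2) := by
  have sq : ∀ s : ℝ, (d⁻¹ * x ^ s) ^ 2 = d⁻¹ ^ 2 * x ^ (2 * s) := fun s => by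
    rw [mul_pow, mul_comm 2 s, Real.rpow_mul hx.le, Real.rpow_two]
  have a1 : (nτ ^ 2) ^ (1 + a) ≤ (d⁻¹ ^ 2) ^ (1 + a) * x ^ (2 * e * (1 + a)) := by
    rw [Real.rpow_mul hx.le (2 * e), ← Real.mul_rpow (by positivity) (by positivity), ← sq]
    gcongr
  have a2 : (nF ^ 2 + ε ^ 2) ^ c ≤ (d⁻¹ ^ 2 + 4 ^ N) ^ c * x ^ (2 * f * c) := by
    rw [Real.rpow_mul hx.le (2 * f), ← Real.mul_rpow (by positivity) (by positivity), add_mul,
      ← sq]
    have b1 : ε ^ 2 ≤ 4 ^ N * x ^ (2 * f) := by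
      calc _ ≤ ((2 * x) ^ N) ^ 2 := by gcongr
        _ = 4 ^ N * x ^ ((2 * N : ℕ) : ℝ) := by
            rw [Real.rpow_natCast, ← pow_mul, mul_comm N 2, mul_pow, pow_mul]
            norm_num
        _ ≤ _ := by
            refine mul_le_mul_of_nonneg_left
              (Real.rpow_le_rpow_of_exponent_ge hx hx1 ?_) (by positivity)
            push_cast
            linarith
    gcongr
  have a3 : nh ^ 2 ≤ d⁻¹ ^ 2 * x ^ (2 * η) := by
    rw [← sq]
    gcongr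
  rw [Real.rpow_neg hx.le, ← div_eq_mul_inv, div_div, Real.rpow_add hx, Real.rpow_add hx]
  refine div_le_div₀ (by positivity) (by gcongr) (by positivity) ?_
  calc _ ≤ (d⁻¹ ^ 2) ^ (1 + a) * x ^ (2 * e * (1 + a)) * ((d⁻¹ ^ 2 + 4 ^ N) ^ c * x ^ (2 * f * c))
        * (d⁻¹ ^ 2 * x ^ (2 * η)) := by gcongr
    _ = _ := by ring

theorem core1_fin {τ : ℝ≥0} (h0 : 0 < τ) (h1 : τ < 1) {k : ℕ} {e f η : ℤ} {c : ℝ}
    (h : e + c * f + η ≤ (k : ℝ) + 1) : τ ^ (k + 1) ≤ τ ^ e * (τ ^ f) ^ c * τ ^ η := by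
  rw [← NNReal.rpow_intCast, ← NNReal.rpow_intCast, ← NNReal.rpow_intCast, ← NNReal.rpow_natCast,
    ← NNReal.rpow_mul, ← NNReal.rpow_add h0.ne', ← NNReal.rpow_add h0.ne']
  refine NNReal.rpow_le_rpow_of_exponent_ge h0 h1.le ?_
  push_cast
  linarith

namespace Cover

variable {ι L : Type} [Fintype ι] [DecidableEq ι] [Field L] [Algebra ℂ L] (C : Cover ι L)

/-- normality of the product of the cone with a line, in valuative form -/
def Reg (h : L) : Prop := ∀ G ∈ C.ext.A,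
  (∀ (v : Val (RatFunc L)) (t : RatFunc L), IsAbh v → (∀ o, v (C.ext.y o) ≤ 1) →
    IsUnif v t → v t * v (RatFunc.C h) ≤ avol v C.ext.y → v G ≤ 1) →
  IsIntegral (Algebra.adjoin ℂ (Set.range C.ext.y)) G

/-- `easy` with the single function `C h` and `γ = 1` gives `v G * avol < v h`;
`IsUnifOn.le_one_of_mul_lt` -/
theorem integral_of_int {h : L} (hh : h ∈ C.A) (hh0 : h ≠ 0) (hh' : h⁻¹ ∈ C.A) (hr : C.Reg h)
    {G : RatFunc L} (hG : G ∈ C.ext.A)
    (hint : ∀ B : ℝ, ∫⁻ p in {p : C.ext.Pt | ‖p.1.1‖ ≤ B}, ENNReal.ofReal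
      (‖C.ext.fn G p‖ ^ 2 / ‖C.fn h (C.pr p)‖ ^ 2) ∂(C.ext.rd.mu) < ⊤) :
    IsIntegral (Algebra.adjoin ℂ (Set.range C.ext.y)) G := by
  refine hr G hG fun v t hv hy ht hle => ?_
  have h1 := C.ext.easy hG (β := Unit) (b := fun _ => RatFunc.C h) (fun _ => C.ext_mem hh)
    (fun p => ?_) zero_le_one (fun B => ?_) hv hy
  · rw [Finset.sup_const Finset.univ_nonempty, NNReal.rpow_one] at h1
    refine ht.le_one_of_mul_lt (Set.mem_univ _) ?_
    have h2 : v G * v t * v (RatFunc.C h) < 1 * v (RatFunc.C h) := by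
      rw [one_mul, mul_assoc]
      exact lt_of_le_of_lt (mul_le_mul_right hle _) h1
    exact lt_of_mul_lt_mul_right h2 zero_le
  · rw [Fintype.sum_unique, C.fn_C hh]
    have := (C.ev_inv (C.pr p).2 hh0 hh hh').1
    exact pow_pos (norm_pos_iff.2 this) 2
  · simpa only [Fintype.sum_unique, C.fn_C hh, Real.rpow_one] using hint B

/-- a finite spanning set of the integral elements with bounded degrees -/
theorem core1_span {κ K : Type} [Finite κ] [Field K] [Algebra ℂ K] (E : Cover κ K) {v : Val K}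
    (htriv : ∀ c : ℂ, v (algebraMap ℂ K c) ≤ 1) (M : κ → ℕ) :
    ∃ s : Finset K, (∀ g ∈ s, g ∈ E.A ∧ v g ≤ 1) ∧
      ∀ H, E.θ * H ∈ E.Poly M → v H ≤ 1 → H ∈ Submodule.span ℂ (Set.range fun g : s => (g : K)) := by
  let W : Submodule ℂ K :=
    { carrier := {H | E.θ * H ∈ E.Poly M ∧ v H ≤ 1}
      add_mem' := fun ha hb =>
        ⟨by rw [mul_add]; exact add_mem ha.1 hb.1, v.map_add_le ha.2 hb.2⟩
      zero_mem' := ⟨by rw [mul_zero]; exact zero_mem _, by simp⟩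
      smul_mem' := fun c H hH => ⟨by rw [mul_smul_comm]; exact Submodule.smul_mem _ _ hH.1, by
        rw [Algebra.smul_def, map_mul]
        exact mul_le_one' (htriv c) hH.2⟩ }
  have := E.Poly_finite M
  have hW : Module.Finite ℂ W := Module.Finite.of_injective
    (((LinearMap.mulLeft ℂ E.θ).domRestrict W).codRestrict (E.Poly M) fun H => H.2.1)
    fun H H' h => Subtype.ext (mul_left_cancel₀ E.θ_ne (congrArg Subtype.val h))
  obtain ⟨s, hs⟩ := Module.Finite.iff_fg.1 hW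
  refine ⟨s, fun g hg => ?_, fun H h1 h2 => ?_⟩
  · have h1 : g ∈ W := hs ▸ Submodule.subset_span hg
    obtain ⟨q, hq⟩ := E.Poly_le M h1.1
    refine ⟨?_, h1.2⟩
    rw [← inv_mul_cancel_left₀ E.θ_ne g, hq]
    exact mul_mem E.θ_inv_mem (E.pv_mem q)
  · rw [Subtype.range_coe_subtype, Finset.setOfPred_mem, hs]
    exact ⟨h1, h2⟩

/-- Take `M, M'` from `ot`.  `W = {H | θ * H ∈ Poly M ∧ v H ≤ 1}` is a finite dimensional subspace
of `A` (`Poly_finite`, `θ_inv_mem`); let `g j` be a finite spanning family of nonzero elements and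
`B0` from `normeq` with `w = wt M'`.  Take a chart for `X, F, C h, C g0` and the `g j`, with
`v X = v t ^ e` (`e ≥ 1`), `v F = v t ^ f`, `v h = v t ^ η`.  Fix an integer `N > e`, `N ≥ f`.  For
`0 < a < e / N` and small `ρ` let `ε = ρ ^ N`.  The function `H` of `ot` lies in `W`
(`integral_of_int`), so on `pann q0 r ρ` we have `|τ H| ≤ const * ρ ^ (e - a N) ≤ |g0| / 2` and
`ε ≤ |τ|`.  The area inequality, `le_volume_pann` and the second estimate of `ot` give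
`c' * ρ ^ (2 (k + 1 - (1 + a) e - c f - η)) ≤ B1 * ρ ^ (-2 a N)`; `le_of_rpow_le`; let `a → 0`. -/
theorem core1 {g0 F0 h : L} {F1 : RatFunc L} (hg : g0 ∈ C.A) (hF0 : F0 ∈ C.A) (hh : h ∈ C.A)
    (hh0 : h ≠ 0) (hh' : h⁻¹ ∈ C.A) (hF1 : F1 ∈ C.ext.A) (gg : ∃ M, C.Grow M g0)
    (gF0 : ∃ M, C.Grow M F0) (gh : ∃ M, C.Grow M h) (gF1 : ∃ M, C.ext.Grow M F1) {c : ℝ}
    (hc : 0 ≤ c) (hI : C.Intg g0 F0 h c) (hr : C.Reg h)
    (hF : RatFunc.C F0 + RatFunc.X * F1 ≠ 0) {v : Val (RatFunc L)} (hv : IsAbh v)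
    (hy : ∀ o, v (C.ext.y o) ≤ 1) (hX : v RatFunc.X < 1) (h1 : v (RatFunc.C g0) = 1) :
    avol v C.ext.y ≤
      v RatFunc.X * v (RatFunc.C F0 + RatFunc.X * F1) ^ c * v (RatFunc.C h) := by
  classical
  obtain ⟨M, M', hot⟩ := C.ot hg hF0 hh hh0 hh' hF1 gg gF0 gh gF1 hc hI
  have htriv : ∀ c : ℂ, v (algebraMap ℂ (RatFunc L) c) ≤ 1 := lat_const_le hv.triv
  obtain ⟨s, hs, hspan⟩ := core1_span C.ext htriv M
  have hcw : Continuous fun p : C.ext.Pt => wt M' p.1.1 :=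
    (continuous_wt M').comp (continuous_fst.comp continuous_subtype_val)
  obtain ⟨B0, hB0, hne⟩ := C.ext.normeq (fun g : s => (g : RatFunc L)) (fun g => (hs g g.2).1)
    hcw.measurable fun p => wt_pos _ _
  obtain ⟨F, hFe⟩ : ∃ F, F = RatFunc.C F0 + RatFunc.X * F1 := ⟨_, rfl⟩
  rw [← hFe] at hF hot ⊢
  have hFA : F ∈ C.ext.A := hFe ▸ add_mem (C.ext_mem hF0) (mul_mem C.X_mem.1 hF1)
  obtain ⟨t, q0, r, d, k, Ψ, ht, ch⟩ := C.ext.exists_chart hv hy
    (insert RatFunc.X (insert F (insert (RatFunc.C h) (insert (RatFunc.C g0) s)))) (by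
      intro a ha
      simp only [Finset.mem_insert] at ha
      rcases ha with rfl | rfl | rfl | rfl | ha
      exacts [C.X_mem.1, hFA, C.ext_mem hh, C.ext_mem hg, (hs a ha).1])
  obtain ⟨e, he⟩ := ht.2.2 RatFunc.X (Set.mem_univ _) RatFunc.X_ne_zero
  obtain ⟨f, hf⟩ := ht.2.2 F (Set.mem_univ _) hF
  obtain ⟨η, hη⟩ := ht.2.2 (RatFunc.C h) (Set.mem_univ _) ((map_ne_zero RatFunc.C).2 hh0)
  have he1 : (1 : ℝ) ≤ e := by
    rw [he] at hX
    exact_mod_cast (zpow_lt_one_iff_right_of_lt_one₀ ht.1 ht.2.1).1 hX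
  rw [ch.avol, he, hf, hη]
  refine core1_fin ht.1 ht.2.1 ?_
  have hd := ch.c_pos
  have hx1 : ∀ q ∈ pdisc q0 r, 0 < ‖q none‖ ∧ ‖q none‖ ≤ 1 := by
    intro q hq
    refine ⟨norm_pos_iff.2 hq.2, ?_⟩
    have h2 := (norm_le_pi_norm (q - q0) none).trans (mem_ball_iff_norm.1 hq.1).le
    rw [Pi.sub_apply, ch.zero, sub_zero] at h2
    exact h2.trans ch.r_le
  have hgs : ∀ q ∈ pdisc q0 r, ∑ g : s, ‖C.ext.fn g (Ψ q)‖ ^ 2 ≤ s.card * d⁻¹ ^ 2 := by
    intro q hq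
    refine (Finset.sum_le_sum (g := fun _ => d⁻¹ ^ 2) fun g _ => ?_).trans (by simp)
    refine pow_le_pow_left₀ (norm_nonneg _) ?_ 2
    by_cases h0 : (g : RatFunc L) = 0
    · rw [h0, fn, C.ext.ev_zero (Ψ q).2, norm_zero]
      positivity
    · obtain ⟨o, ho⟩ := ht.2.2 g (Set.mem_univ _) h0
      have h2 := (hs g g.2).2
      rw [ho, zpow_le_one_iff_right_of_lt_one₀ ht.1 ht.2.1] at h2
      refine (ch.est g (by simp) o ho q hq).2.trans ?_
      exact mul_le_of_le_one_right (by positivity) (zpow_le_one₀ (hx1 q hq).1 (hx1 q hq).2 h2)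
  obtain ⟨N, hN⟩ := exists_nat_ge (max ((e : ℝ) + 1) f)
  have hNe : (e : ℝ) + 1 ≤ N := (le_max_left _ _).trans hN
  have hNf : (f : ℝ) ≤ N := (le_max_right _ _).trans hN
  have hN0 : (0 : ℝ) < N := by linarith
  obtain ⟨c1, hc1, hvol⟩ := le_volume_pann ch.zero ch.r_pos
  have key : ∀ a : ℝ, 0 < a → a * N ≤ 1 / 2 → e + c * f + η - ((k : ℝ) + 1) ≤ a * N := by
    intro a ha haN
    obtain ⟨B1, hB1, hot⟩ := hot a ha (by nlinarith) d⁻¹
    obtain ⟨r1, hr1, sm1⟩ := core1_small (s := N - e) (K := 1) (δ := d * (1 / 2) ^ |(e : ℝ)|)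
      (by linarith) (by positivity)
    obtain ⟨r2, hr2, sm2⟩ := core1_small (s := 2 * e - 2 * a * N)
      (K := d⁻¹ ^ 2 * (B0 * B1 * (s.card * d⁻¹ ^ 2))) (δ := (d / 2) ^ 2) (by linarith)
      (by positivity)
    obtain ⟨K, hK⟩ : ∃ K : ℝ, K = (d / 2) ^ 2 /
      ((d⁻¹ ^ 2) ^ (1 + a) * (d⁻¹ ^ 2 + 4 ^ N) ^ c * d⁻¹ ^ 2) := ⟨_, rfl⟩
    have hK0 : 0 < K := by rw [hK]; positivity
    obtain ⟨S, hS⟩ : ∃ S : ℝ, S = 2 * k + -(2 * e * (1 + a) + 2 * f * c + 2 * η) := ⟨_, rfl⟩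
    have main := le_of_rpow_le (a := S + 2) (b := N * (-2 * a)) (B := B1)
      (c := d * K * (1 / 2) ^ |S| * c1) (r := min r (min r1 r2)) (by positivity)
      (lt_min ch.r_pos (lt_min hr1 hr2)) fun ρ hρ hρr => ?_
    · rw [hS] at main
      nlinarith
    rw [lt_min_iff, lt_min_iff] at hρr
    have hρ1 : ρ ≤ 1 := hρr.1.le.trans ch.r_le
    have hε : 0 < ρ ^ N := pow_pos hρ N
    obtain ⟨H, hHA, hHP, i1, i2, i3⟩ := hot (ρ ^ N) hε (pow_le_one₀ hρ.le hρ1)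
    have eε : (ρ ^ N) ^ (-2 * a) = ρ ^ (N * (-2 * a)) := by
      rw [Real.rpow_mul hρ.le, Real.rpow_natCast]
    rw [eε] at i1 i2
    have hI0 : 0 ≤ B1 * ρ ^ (N * (-2 * a)) := by positivity
    have hH := hne H (hspan H hHP (val_le_one_of_integral htriv hy
      (C.integral_of_int hh hh0 hh' hr hHA i3))) _ hI0 i1
    have hsub : pann q0 r ρ ⊆ pdisc q0 r := fun q hq =>
      ⟨hq.1, norm_pos_iff.1 (lt_trans (half_pos hρ) hq.2.1)⟩
    have i4 := (ch.area _ hsub (measurableSet_pann q0 r ρ) _).trans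
      ((lintegral_indicator_le _ _).trans i2)
    rw [← ENNReal.ofReal_le_ofReal_iff hI0]
    refine le_trans ?_ i4
    calc _ = ENNReal.ofReal (d * K * (1 / 2) ^ |S| * ρ ^ S) * ENNReal.ofReal (c1 * ρ ^ 2) := by
          rw [← ENNReal.ofReal_mul (by positivity), Real.rpow_add hρ, Real.rpow_two]
          congr 1
          ring
      _ ≤ ENNReal.ofReal (d * K * (1 / 2) ^ |S| * ρ ^ S) * volume (pann q0 r ρ) :=
          mul_le_mul_right (hvol ρ hρ hρr.1.le) _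
      _ = ∫⁻ _ in pann q0 r ρ, ENNReal.ofReal (d * K * (1 / 2) ^ |S| * ρ ^ S) :=
          (setLIntegral_const _ _).symm
      _ ≤ _ := setLIntegral_mono' (measurableSet_pann q0 r ρ) fun q hq => ?_
    have hq' := hsub hq
    obtain ⟨x0, x1⟩ := hx1 q hq'
    have eX := ch.est RatFunc.X (by simp) e he q hq'
    have eF := ch.est F (by simp) f hf q hq'
    have eh := ch.est (RatFunc.C h) (by simp) η hη q hq'
    have eg := ch.est (RatFunc.C g0) (by simp) 0 (by rw [h1, zpow_zero]) q hq'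
    rw [C.fn_X, ← Real.rpow_intCast] at eX
    rw [← Real.rpow_intCast] at eF
    rw [C.fn_C hh, ← Real.rpow_intCast] at eh
    rw [C.fn_C hg, zpow_zero, mul_one] at eg
    have b1 : ρ ^ N ≤ ‖(Ψ q).1.1 none‖ := by
      refine le_trans ?_ eX.1
      have u1 := sm1 ρ hρ hρr.2.1
      have u2 := core1_half hρ hq.2.1 hq.2.2 e
      rw [one_mul] at u1
      calc ρ ^ N = ρ ^ ((N : ℝ) - e) * ρ ^ (e : ℝ) := by
            rw [← Real.rpow_add hρ, sub_add_cancel, Real.rpow_natCast]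
        _ ≤ d * (1 / 2) ^ |(e : ℝ)| * ρ ^ (e : ℝ) := by gcongr
        _ ≤ _ := by
            rw [mul_assoc]
            gcongr
    have b2 : ‖(Ψ q).1.1 none * C.ext.fn H (Ψ q)‖ ≤ d / 2 := by
      refine (pow_le_pow_iff_left₀ (norm_nonneg _) (by positivity) two_ne_zero).1 ?_
      refine le_trans ?_ (sm2 ρ hρ hρr.2.2)
      have u1 : ‖(Ψ q).1.1 none‖ ≤ d⁻¹ * ρ ^ (e : ℝ) :=
        eX.2.trans (by gcongr; exact hq.2.2.le)
      have u2 := (hH (Ψ q)).trans (mul_le_mul_of_nonneg_left (hgs q hq') (by positivity))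
      calc _ = ‖(Ψ q).1.1 none‖ ^ 2 * ‖C.ext.fn H (Ψ q)‖ ^ 2 := by rw [norm_mul, mul_pow]
        _ ≤ (d⁻¹ * ρ ^ (e : ℝ)) ^ 2 * (B0 * (B1 * ρ ^ (N * (-2 * a))) * (s.card * d⁻¹ ^ 2)) := by
            gcongr
        _ = _ := by
            rw [show 2 * (e : ℝ) - 2 * a * N = e + e + N * (-2 * a) by ring, Real.rpow_add hρ,
              Real.rpow_add hρ]
            ring
    have b3 : d / 2 ≤ ‖C.fn g0 (C.pr (Ψ q)) + (Ψ q).1.1 none * C.ext.fn H (Ψ q)‖ := by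
      have := norm_le_add_norm_add (C.fn g0 (C.pr (Ψ q))) ((Ψ q).1.1 none * C.ext.fn H (Ψ q))
      linarith [eg.1]
    have b4 := core1_pt hd x0 x1 ha.le hc hNf hε
      (pow_le_pow_left₀ hρ.le (by linarith [hq.2.1]) N) (hε.trans_le b1) eX.2 (norm_nonneg _) eF.2
      (lt_of_lt_of_le (by positivity) eh.1) eh.2 b3
    rw [Set.indicator_of_mem (show Ψ q ∈ {p : C.ext.Pt | ‖p.1.1‖ ≤ d⁻¹ ∧ ρ ^ N ≤ ‖p.1.1 none‖}
      from ⟨(ch.bdd q hq').1, b1⟩), ← ENNReal.ofReal_mul (by positivity)]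
    refine ENNReal.ofReal_le_ofReal (le_trans ?_ (mul_le_mul_of_nonneg_left b4 (by positivity)))
    have u3 := core1_half hρ hq.2.1 hq.2.2 S
    calc _ = d * K * ((1 / 2) ^ |S| * ρ ^ S) := by ring
      _ ≤ d * K * ‖q none‖ ^ S := by gcongr
      _ = _ := by
          rw [← hK, hS, Real.rpow_add x0, ← Real.rpow_natCast ‖q none‖ (2 * k)]
          push_cast
          ring
  by_contra hno
  have hD : 0 < e + c * f + η - ((k : ℝ) + 1) := by linarith [not_le.1 hno]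
  have h2 := key (min (1 / 2) ((e + c * f + η - ((k : ℝ) + 1)) / 2) / N)
    (div_pos (lt_min (by norm_num) (half_pos hD)) hN0)
    (by rw [div_mul_cancel₀ _ hN0.ne']; exact min_le_left _ _)
  rw [div_mul_cancel₀ _ hN0.ne'] at h2
  linarith [min_le_right (1 / 2) ((e + c * f + η - ((k : ℝ) + 1)) / 2)]

end Cover

end Pool.Agent.MP_c0606f_ag.Klt

end
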